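import Mathlib

/-! Limit sets of entire functions of order `ρ` and normal type: the definitions of the problem. -/

namespace Pool.Agent.Helper758.LS
open MeasureTheory Filter Topology Set Complex

/-- The type of `f` with respect to the order `ρ`: `limsup_{r → ∞} r^{-ρ} log max_{|z| = r} |f z|`,
an extended real number (`ENNReal.log 0 = ⊥ = -∞`). -/
noncomputable def typ (f : ℂ → ℂ) (ρ : ℝ) : EReal :=
  limsup (fun r : ℝ => ((r ^ (-ρ) : ℝ) : EReal) *
    ENNReal.log (⨆ z ∈ Metric.sphere (0 : ℂ) r, ‖f z‖ₑ)) atTop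

/-- The class `A(ρ)`: entire functions of order `ρ` and normal type, i.e. `0 < typ f ρ < ∞`
(for `ρ > 0` a positive finite type with respect to `ρ` forces the order to be `ρ`). -/
def ClassA (f : ℂ → ℂ) (ρ : ℝ) : Prop := Differentiable ℂ f ∧ 0 < typ f ρ ∧ typ f ρ < ⊤

/-- The indicator `h_f(φ) = limsup_{r → ∞} r^{-ρ} log |f(r e^{iφ})|`, an extended real number. -/
noncomputable def indic (f : ℂ → ℂ) (ρ φ : ℝ) : EReal :=
  limsup (fun r : ℝ => ((r ^ (-ρ) : ℝ) : EReal) * ENNReal.log ‖f (r * cexp (φ * I))‖ₑ) atTop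

/-- Condition (2): all zeros of `f` are simple and
`liminf [ |λ|^{-ρ} log |f'(λ)| - h_f(arg λ) ] ≥ 0` when the zero `λ` of `f` tends to infinity:
for each `ε > 0`, `h_f(arg λ) ≤ |λ|^{-ρ} log |f'(λ)| + ε` at all zeros `λ` of large modulus. -/
def Cond2 (f : ℂ → ℂ) (ρ : ℝ) : Prop :=
  (∀ z, f z = 0 → deriv f z ≠ 0) ∧ ∀ ε : ℝ, 0 < ε → ∃ R : ℝ, ∀ z, f z = 0 → R ≤ ‖z‖ →
    indic f ρ (arg z) ≤ ((‖z‖ ^ (-ρ) * Real.log ‖deriv f z‖ + ε : ℝ) : EReal)

/-- `ρ`-trigonometric convexity of a function on the real line. -/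
def TrigConvex (ρ : ℝ) (h : ℝ → ℝ) : Prop :=
  ∀ a b c : ℝ, a < b → b < c → c - a < Real.pi / ρ →
    h b * Real.sin (ρ * (c - a)) ≤ h a * Real.sin (ρ * (c - b)) + h c * Real.sin (ρ * (b - a))

/-- Subharmonic functions on `ℂ` (not identically `-∞`): upper semicontinuous with values in
`[-∞, ∞)`, locally integrable, and below their means over all closed discs. -/
structure IsSubh (v : ℂ → EReal) : Prop where
  usc : UpperSemicontinuous v
  ne_top : ∀ z, v z ≠ ⊤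
  loc : LocallyIntegrable (fun z => (v z).toReal) volume
  ae_ne_bot : ∀ᵐ z : ℂ, v z ≠ ⊥
  mean : ∀ z : ℂ, ∀ r : ℝ, 0 < r → v z ≤ ((⨍ w in Metric.closedBall z r, (v w).toReal : ℝ) : EReal)

/-- The limit set `Fr f`: all subharmonic functions `v` on `ℂ` that are limits, in the sense of
distributions on `ℂ`, of `u_{t_j}(z) = t_j^{-ρ} log |f(t_j z)|` along some sequence `t_j → ∞`. -/
def FrSet (f : ℂ → ℂ) (ρ : ℝ) : Set (ℂ → EReal) :=
  {v | IsSubh v ∧ ∃ t : ℕ → ℝ, Tendsto t atTop atTop ∧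
    ∀ ψ : ℂ → ℝ, ContDiff ℝ (⊤ : ℕ∞) ψ → HasCompactSupport ψ →
      Tendsto (fun j => ∫ z, (t j) ^ (-ρ) * Real.log ‖f (t j * z)‖ * ψ z) atTop
        (𝓝 (∫ z, (v z).toReal * ψ z))}

end Pool.Agent.Helper758.LS
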