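import Mathlib
set_option autoImplicit false
open Complex Set Filter Topology

namespace Pool.Agent.Helper758.GZ

/-- `F(u) = ∑ a_k e^{k u}` -/
noncomputable def Fn (a : ℕ → ℝ) (u : ℂ) : ℂ := ∑' k : ℕ, (a k : ℂ) * exp ((k : ℂ) * u)

/-- everywhere summable -/
def Sm (a : ℕ → ℝ) : Prop := ∀ x : ℝ, Summable (fun k : ℕ => a k * Real.exp ((k : ℝ) * x))

/-- coefficients of the `m`-th shifted derivative -/
def sh (m : ℕ) (a : ℕ → ℝ) (k : ℕ) : ℝ := ((k + m : ℕ) : ℝ) * a (k + m)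

/-- logarithmic derivative -/
noncomputable def W (F : ℂ → ℂ) (u : ℂ) : ℂ := deriv F u / F u

/-- argument change along the vertical segment from `s` to `s + i θ` -/
noncomputable def psi (F : ℂ → ℂ) (θ s : ℝ) : ℝ := ∫ y in (0 : ℝ)..θ, (W F (s + y * I)).re

/-- total variation of the argument on the line `Im u = θ` -/
noncomputable def En (F : ℂ → ℂ) (θ S T : ℝ) : ℝ := ∫ x in S..T, |(W F (x + θ * I)).im|

/-- the Lyapunov functional -/
noncomputable def Phi (F : ℂ → ℂ) (θ S T : ℝ) : ℝ := psi F θ T - psi F θ S - En F θ S T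

/-- the class of functions -/
structure Cls (ρ θ0 : ℝ) (a : ℕ → ℝ) : Prop where
  nonneg : ∀ k, 0 ≤ a k
  pos0 : 0 < a 0
  inf : ∀ N, ∃ k, N ≤ k ∧ 0 < a k
  sm : Sm a
  growth : ∃ C : ℝ, ∀ x : ℝ, 0 ≤ x → ‖Fn a x‖ ≤ Real.exp (C * Real.exp (ρ * x))
  zf : ∀ θ < θ0, ∃ R : ℝ, ∀ u : ℂ, R ≤ u.re → |u.im| ≤ θ → Fn a u ≠ 0

/-- logarithmic derivative of the Blaschke factor of the strip `0 < Im u < φ` at `w` -/
noncomputable def bW (φ : ℝ) (w u : ℂ) : ℂ :=
  ((Real.pi / φ : ℝ) : ℂ) * exp (((Real.pi / φ : ℝ) : ℂ) * u) /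
      (exp (((Real.pi / φ : ℝ) : ℂ) * u) - exp (((Real.pi / φ : ℝ) : ℂ) * w)) -
    ((Real.pi / φ : ℝ) : ℂ) * exp (((Real.pi / φ : ℝ) : ℂ) * u) /
      (exp (((Real.pi / φ : ℝ) : ℂ) * u) - exp (((Real.pi / φ : ℝ) : ℂ) * (starRingEnd ℂ) w))

/-- `half of the` absolute value of the imaginary part of `bW` on the top line -/
noncomputable def cW (φ : ℝ) (w : ℂ) (x : ℝ) : ℝ :=
  (Real.pi / φ) * Real.exp (Real.pi / φ * x) * (exp (((Real.pi / φ : ℝ) : ℂ) * w)).im /
    ‖(Real.exp (Real.pi / φ * x) : ℂ) + exp (((Real.pi / φ : ℝ) : ℂ) * w)‖ ^ 2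




theorem logball (G : ℂ → ℂ) (hG : Differentiable ℂ G) (c : ℂ) (R : ℝ) (hR : 0 < R)
    (hnz : ∀ z ∈ Metric.ball (0:ℂ) R, G (c + z) ≠ 0) :
    ∃ g : ℂ → ℂ, DifferentiableOn ℂ g (Metric.ball 0 R) ∧ g 0 = 0 ∧
      ∀ z ∈ Metric.ball (0:ℂ) R, G (c + z) = G c * Complex.exp (g z) := by
  have h1 : Differentiable ℂ (fun z : ℂ => G (c + z)) := by fun_prop
  have h2 : Differentiable ℂ (deriv (fun z : ℂ => G (c + z))) := by
    exact (h1.contDiff (n := 2)).differentiable_deriv_two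
  have hf : DifferentiableOn ℂ (fun z => deriv (fun z : ℂ => G (c + z)) z / G (c + z))
      (Metric.ball 0 R) := by
    intro z hz
    exact (h2.differentiableAt.div h1.differentiableAt (hnz z hz)).differentiableWithinAt
  obtain ⟨g, hg0, hg⟩ := hf.isExactOn_ball.with_val_at 0 0
  refine ⟨g, fun z hz => (hg z hz).differentiableAt.differentiableWithinAt, hg0, ?_⟩
  have hder : ∀ z ∈ Metric.ball (0:ℂ) R,
      HasDerivAt (fun z => G (c + z) * Complex.exp (-(g z))) 0 z := by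
    intro z hz
    have a1 := (h1.differentiableAt (x := z)).hasDerivAt
    have a2 := ((hg z hz).neg).cexp
    have a3 := a1.mul a2
    have hne := hnz z hz
    have e : deriv (fun z : ℂ => G (c + z)) z / G (c + z) * G (c + z) =
        deriv (fun z : ℂ => G (c + z)) z := div_mul_cancel₀ _ hne
    refine a3.congr_deriv ?_
    simp only [Pi.neg_apply]
    linear_combination (-Complex.exp (-(g z))) * e
  have hconst : ∀ z ∈ Metric.ball (0:ℂ) R,
      G (c + z) * Complex.exp (-(g z)) = G (c + 0) * Complex.exp (-(g 0)) := by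
    intro z hz
    have hconv : Convex ℝ (Metric.ball (0:ℂ) R) := convex_ball _ _
    apply hconv.is_const_of_fderivWithin_eq_zero (𝕜 := ℂ)
      (f := fun z => G (c + z) * Complex.exp (-(g z)))
    · intro w hw
      exact (hder w hw).differentiableAt.differentiableWithinAt
    · intro w hw
      rw [fderivWithin_of_isOpen Metric.isOpen_ball hw]
      ext
      simp [(hder w hw).hasFDerivAt.fderiv]
    · exact hz
    · simpa using hR
  intro z hz
  have := hconst z hz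
  rw [hg0, add_zero, neg_zero, Complex.exp_zero, mul_one] at this
  rw [← this, mul_assoc, ← Complex.exp_add]
  simp

theorem stepball (G : ℂ → ℂ) (hG : Differentiable ℂ G) (c : ℂ) (R A M : ℝ) (hR : 0 < R)
    (hM : 0 < M) (hA : 0 ≤ A)
    (hnz : ∀ z ∈ Metric.ball (0:ℂ) R, G (c + z) ≠ 0)
    (hup : ∀ z ∈ Metric.ball (0:ℂ) R, ‖G (c + z)‖ ≤ Real.exp M)
    (hlow : Real.exp (-A) ≤ ‖G c‖) (z : ℂ) (hz : ‖z‖ ≤ R / 2) :
    Real.exp (-(3 * A + 2 * M)) ≤ ‖G (c + z)‖ := by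
  obtain ⟨g, hg, hg0, hgG⟩ := logball G hG c R hR hnz
  have hzR : z ∈ Metric.ball (0:ℂ) R := by
    rw [mem_ball_zero_iff]; linarith
  have hGc : 0 < ‖G c‖ := lt_of_lt_of_le (Real.exp_pos _) hlow
  have hmaps : MapsTo g (Metric.ball 0 R) {w | w.re ≤ M + A} := by
    intro w hw
    have e1 : ‖G (c + w)‖ = ‖G c‖ * Real.exp (g w).re := by
      rw [hgG w hw, norm_mul, Complex.norm_exp]
    have e2 := hup w hw
    rw [e1] at e2
    have e3 : Real.exp (-A) * Real.exp (g w).re ≤ Real.exp M :=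
      le_trans (mul_le_mul_of_nonneg_right hlow (Real.exp_pos _).le) e2
    rw [← Real.exp_add, Real.exp_le_exp] at e3
    show (g w).re ≤ M + A
    linarith
  have hb := Complex.borelCaratheodory_zero (M := M + A) (by linarith) hg hmaps hR hzR hg0
  have hb2 : ‖g z‖ ≤ 2 * (M + A) := by
    refine hb.trans ?_
    rw [div_le_iff₀ (by linarith)]
    have : ‖z‖ ≤ R - ‖z‖ := by linarith
    exact mul_le_mul_of_nonneg_left this (by linarith)
  have e1 : ‖G (c + z)‖ = ‖G c‖ * Real.exp (g z).re := by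
    rw [hgG z hzR, norm_mul, Complex.norm_exp]
  rw [e1]
  have h3 : -(2 * (M + A)) ≤ (g z).re := by
    have := Complex.abs_re_le_norm (g z)
    have := neg_abs_le (g z).re
    linarith
  calc Real.exp (-(3 * A + 2 * M)) = Real.exp (-A) * Real.exp (-(2 * (M + A))) := by
        rw [← Real.exp_add]; congr 1; ring
    _ ≤ ‖G c‖ * Real.exp (g z).re :=
        mul_le_mul hlow (Real.exp_le_exp.mpr h3) (Real.exp_pos _).le hGc.le

theorem minmod (F : ℂ → ℂ) (hF : Differentiable ℂ F) (ρ θ θ' C L c0 : ℝ) (hρ : 0 < ρ)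
    (hθ : 0 < θ) (hθθ' : θ < θ')
    (hgrow : ∀ u : ℂ, L ≤ u.re → ‖F u‖ ≤ Real.exp (C * Real.exp (ρ * u.re)))
    (hnz : ∀ u : ℂ, L ≤ u.re → |u.im| ≤ θ' → F u ≠ 0)
    (hc0 : 0 < c0) (hreal : ∀ x : ℝ, L ≤ x → c0 ≤ ‖F x‖) :
    ∃ C' L' : ℝ, ∀ u : ℂ, L' ≤ u.re → |u.im| ≤ θ →
      Real.exp (-(C' * Real.exp (ρ * u.re))) ≤ ‖F u‖ := by
  obtain ⟨K, hK⟩ := exists_nat_gt (θ / ((θ' - θ) / 2))
  set R0 := θ' - θ with hR0
  have hR0p : 0 < R0 := by rw [hR0]; linarith
  have hKp : 0 < (K : ℝ) := lt_of_le_of_lt (by positivity) hK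
  have hKstep : θ / K ≤ R0 / 2 := by
    rw [div_lt_iff₀ (by positivity)] at hK
    rw [div_le_iff₀ hKp]; linarith
  set C1 := max C 1 with hC1
  have hC1p : 0 < C1 := lt_of_lt_of_le one_pos (le_max_right _ _)
  set A0 := |Real.log c0| with hA0
  have hA0p : 0 ≤ A0 := abs_nonneg _
  refine ⟨3 ^ K * (A0 + C1 * Real.exp (ρ * R0)), max L 0 + R0, ?_⟩
  intro u hu him
  set x := u.re with hx
  set y := u.im with hy
  have hxL : L + R0 ≤ x := le_trans (by gcongr; exact le_max_left _ _) hu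
  have hx0 : 0 ≤ x := by
    have := le_max_right L 0
    linarith
  set M := C1 * Real.exp (ρ * (x + R0)) with hM
  have hMp : 0 < M := by positivity
  have key : ∀ j : ℕ, j ≤ K → Real.exp (-(3 ^ j * (A0 + M) - M)) ≤
      ‖F ((x : ℂ) + (((j : ℝ) * y / K : ℝ) : ℂ) * I)‖ := by
    intro j
    induction j with
    | zero =>
      intro _
      have h1 : ((x : ℂ) + ((((0 : ℕ) : ℝ) * y / K : ℝ) : ℂ) * I) = (x : ℂ) := by simp
      rw [h1]
      refine le_trans ?_ (hreal x (by linarith))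
      have : (-(3 ^ 0 * (A0 + M) - M)) = -A0 := by ring
      rw [this, ← Real.le_log_iff_exp_le hc0]
      exact neg_abs_le _
    | succ j ih =>
      intro hj
      have ih' := ih (by omega)
      have hjK : (j : ℝ) ≤ K := by exact_mod_cast (by omega : j ≤ K)
      set cj := (x : ℂ) + (((j : ℝ) * y / K : ℝ) : ℂ) * I with hcj
      have hcre : cj.re = x := by simp [hcj]
      have hcim : cj.im = (j : ℝ) * y / K := by simp [hcj]
      have hcimb : |cj.im| ≤ θ := by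
        rw [hcim, abs_div, abs_mul, abs_of_nonneg (Nat.cast_nonneg j), abs_of_pos hKp,
          div_le_iff₀ hKp]
        calc (j : ℝ) * |y| ≤ K * θ := by gcongr
          _ = θ * K := by ring
      have hball : ∀ z ∈ Metric.ball (0:ℂ) R0, L ≤ (cj + z).re ∧ (cj + z).re ≤ x + R0 ∧
          |(cj + z).im| ≤ θ' := by
        intro z hz
        rw [mem_ball_zero_iff] at hz
        have h1 := abs_le.mp ((Complex.abs_re_le_norm z).trans hz.le)
        have h2 := (Complex.abs_im_le_norm z).trans hz.le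
        refine ⟨?_, ?_, ?_⟩
        · rw [Complex.add_re, hcre]; linarith [h1.1]
        · rw [Complex.add_re, hcre]; linarith [h1.2]
        · rw [Complex.add_im]
          refine (abs_add_le _ _).trans ?_
          linarith
      have hstep := stepball F hF cj R0 (3 ^ j * (A0 + M) - M) M hR0p hMp (by
          have : (1:ℝ) ≤ 3 ^ j := one_le_pow₀ (by norm_num)
          nlinarith) (fun z hz => hnz _ (hball z hz).1 (hball z hz).2.2)
        (fun z hz => by
          refine (hgrow _ (hball z hz).1).trans (Real.exp_le_exp.mpr ?_)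
          have h1 : Real.exp (ρ * (cj + z).re) ≤ Real.exp (ρ * (x + R0)) := by
            apply Real.exp_le_exp.mpr
            exact mul_le_mul_of_nonneg_left (hball z hz).2.1 hρ.le
          calc C * Real.exp (ρ * (cj + z).re) ≤ C1 * Real.exp (ρ * (cj + z).re) := by
                gcongr; exact le_max_left _ _
            _ ≤ C1 * Real.exp (ρ * (x + R0)) := by gcongr)
        ih' (((y / K : ℝ) : ℂ) * I) (by
          rw [norm_mul, Complex.norm_I, mul_one, Complex.norm_real, Real.norm_eq_abs, abs_div,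
            abs_of_pos hKp]
          refine le_trans ?_ hKstep
          gcongr)
      have e1 : (3 * (3 ^ j * (A0 + M) - M) + 2 * M) = 3 ^ (j + 1) * (A0 + M) - M := by ring
      have e2 : cj + ((y / K : ℝ) : ℂ) * I =
          (x : ℂ) + ((((j + 1 : ℕ) : ℝ) * y / K : ℝ) : ℂ) * I := by
        rw [hcj]; push_cast; ring
      rw [e1, e2] at hstep
      exact hstep
  have hfin := key K le_rfl
  have hu' : (x : ℂ) + (((K : ℝ) * y / K : ℝ) : ℂ) * I = u := by
    have : (K : ℝ) * y / K = y := by field_simp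
    rw [this]
    exact Complex.re_add_im u
  rw [hu'] at hfin
  refine le_trans (Real.exp_le_exp.mpr ?_) hfin
  have h1 : Real.exp (ρ * (x + R0)) = Real.exp (ρ * R0) * Real.exp (ρ * x) := by
    rw [← Real.exp_add]; congr 1; ring
  have h2 : 1 ≤ Real.exp (ρ * x) := Real.one_le_exp (by positivity)
  have h3 : A0 ≤ A0 * Real.exp (ρ * x) := le_mul_of_one_le_right hA0p h2
  have h4 : 3 ^ K * (A0 + C1 * Real.exp (ρ * R0)) * Real.exp (ρ * x) =
      3 ^ K * (A0 * Real.exp (ρ * x) + M) := by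
    rw [hM, h1]; ring
  rw [h4]
  have h5 : (3:ℝ) ^ K * (A0 + M) ≤ 3 ^ K * (A0 * Real.exp (ρ * x) + M) := by gcongr
  linarith



theorem sf_single (g : ℂ → ℂ) (hg : Differentiable ℂ g) (hne : ∃ u, g u ≠ 0) (z : ℂ) :
    ∃ (n : ℕ) (h : ℂ → ℂ), Differentiable ℂ h ∧ h z ≠ 0 ∧ ∀ u, g u = (u - z) ^ n * h u := by
  have han : AnalyticAt ℂ g z := hg.analyticAt z
  have hord : analyticOrderAt g z ≠ ⊤ := by
    intro htop
    rw [analyticOrderAt_eq_top] at htop
    obtain ⟨u, hu⟩ := hne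
    apply hu
    have h1 : AnalyticOnNhd ℂ g Set.univ := fun x _ => hg.analyticAt x
    have h2 := h1.eqOn_zero_of_preconnected_of_eventuallyEq_zero isPreconnected_univ
      (Set.mem_univ z) htop
    exact h2 (Set.mem_univ u)
  obtain ⟨k, hk, hkz, hgk⟩ := (han.analyticOrderAt_ne_top).1 hord
  set n := analyticOrderNatAt g z with hn
  classical
  let h : ℂ → ℂ := fun u => if u = z then k z else g u / (u - z) ^ n
  have heq : h =ᶠ[nhds z] k := by
    filter_upwards [hgk] with u hu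
    by_cases huz : u = z
    · simp [h, huz]
    · have h3 : (u - z) ^ n ≠ 0 := pow_ne_zero _ (sub_ne_zero.2 huz)
      simp only [h, huz, if_false]
      rw [hu, smul_eq_mul, mul_div_cancel_left₀ _ h3]
  refine ⟨n, h, ?_, ?_, ?_⟩
  · intro u
    by_cases huz : u = z
    · subst huz
      exact (heq.differentiableAt_iff).2 hk.differentiableAt
    · have h4 : h =ᶠ[nhds u] fun v => g v / (v - z) ^ n := by
        filter_upwards [isOpen_ne.mem_nhds huz] with v hv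
        have hv' : v ≠ z := hv
        simp [h, hv']
      refine (h4.differentiableAt_iff).2 ?_
      refine DifferentiableAt.div (hg u) (by fun_prop) ?_
      exact pow_ne_zero _ (sub_ne_zero.2 huz)
  · simpa [h] using hkz
  · intro u
    by_cases huz : u = z
    · subst huz
      have h5 : g u = (u - u) ^ n • k u := hgk.self_of_nhds
      rw [h5, smul_eq_mul]
      simp [h]
    · have h3 : (u - z) ^ n ≠ 0 := pow_ne_zero _ (sub_ne_zero.2 huz)
      simp only [h, huz, if_false]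
      field_simp

theorem sf_zeros (Z : Finset ℂ) (F : ℂ → ℂ) (hF : Differentiable ℂ F) (hne : ∃ u, F u ≠ 0) :
    ∃ (ws : List ℂ) (g : ℂ → ℂ), (∀ w ∈ ws, w ∈ Z) ∧ Differentiable ℂ g ∧ (∀ z ∈ Z, g z ≠ 0) ∧
      ∀ u, F u = (ws.map (fun w => u - w)).prod * g u := by
  classical
  induction Z using Finset.induction_on with
  | empty => exact ⟨[], F, by simp, hF, by simp, by simp⟩
  | insert z Z hz ih =>
    obtain ⟨ws, g, hws, hg, hgZ, hFg⟩ := ih
    have hgne : ∃ u, g u ≠ 0 := by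
      obtain ⟨u, hu⟩ := hne
      refine ⟨u, ?_⟩
      intro h0
      apply hu
      rw [hFg, h0, mul_zero]
    obtain ⟨n, h, hh, hhz, hgh⟩ := sf_single g hg hgne z
    refine ⟨List.replicate n z ++ ws, h, ?_, hh, ?_, ?_⟩
    · intro w hw
      rw [List.mem_append] at hw
      rcases hw with hw | hw
      · rw [List.eq_of_mem_replicate hw]
        exact Finset.mem_insert_self _ _
      · exact Finset.mem_insert_of_mem (hws w hw)
    · intro y hy
      rcases Finset.mem_insert.1 hy with hy | hy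
      · rw [hy]; exact hhz
      · intro h0
        apply hgZ y hy
        rw [hgh, h0, mul_zero]
    · intro u
      rw [hFg, hgh, List.map_append, List.prod_append, List.map_replicate, List.prod_replicate]
      ring

theorem sf_exp_eq (φ : ℝ) (hφ : 0 < φ) (u w : ℂ)
    (h : exp (((Real.pi / φ : ℝ) : ℂ) * u) = exp (((Real.pi / φ : ℝ) : ℂ) * w)) :
    ∃ n : ℤ, u = w + n * (2 * φ * I) := by
  rw [Complex.exp_eq_exp_iff_exists_int] at h
  obtain ⟨n, hn⟩ := h
  refine ⟨n, ?_⟩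
  have hpi : (Real.pi : ℂ) ≠ 0 := by exact_mod_cast Real.pi_ne_zero
  have hφ' : (φ : ℂ) ≠ 0 := by exact_mod_cast hφ.ne'
  push_cast at hn
  field_simp at hn
  have h1 : (Real.pi : ℂ) * u = Real.pi * (w + n * (2 * φ * I)) := by
    linear_combination (Real.pi : ℂ) * hn
  exact mul_left_cancel₀ hpi h1

theorem sf_im (φ : ℝ) (u w : ℂ) (n : ℤ) (h : u = w + n * (2 * φ * I)) :
    u.im = w.im + n * (2 * φ) := by
  rw [h]
  simp

theorem sf_build (φ : ℝ) (hφ : 0 < φ) (g : ℂ → ℂ) (hg : Differentiable ℂ g)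
    (hgn : ∀ u : ℂ, 0 ≤ u.im → u.im ≤ φ → g u ≠ 0) (ws : List ℂ)
    (hws : ∀ w ∈ ws, 0 < w.im ∧ w.im < φ) :
    ∃ G : ℂ → ℂ, DifferentiableOn ℂ G {u : ℂ | -φ < u.im ∧ u.im < 2 * φ} ∧
      (∀ u : ℂ, 0 ≤ u.im → u.im ≤ φ → G u ≠ 0) ∧
      (∀ u : ℂ, -φ < u.im → u.im < 2 * φ →
        ((ws.map (fun w => u - w)).prod * g u) *
          (ws.map (fun w => exp (((Real.pi / φ : ℝ) : ℂ) * u) -
            exp (((Real.pi / φ : ℝ) : ℂ) * (starRingEnd ℂ) w))).prod =
        G u * (ws.map (fun w => exp (((Real.pi / φ : ℝ) : ℂ) * u) -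
            exp (((Real.pi / φ : ℝ) : ℂ) * w))).prod) := by
  induction ws with
  | nil => exact ⟨g, hg.differentiableOn, hgn, by simp⟩
  | cons w ws ih =>
    obtain ⟨G, hG, hGn, hGe⟩ := ih (fun w hw => hws w (List.mem_cons_of_mem _ hw))
    obtain ⟨hw0, hw1⟩ := hws w (List.mem_cons_self)
    have hs : ((Real.pi / φ : ℝ) : ℂ) ≠ 0 := by
      have : (Real.pi / φ : ℝ) ≠ 0 := div_ne_zero Real.pi_ne_zero hφ.ne'
      exact_mod_cast this
    set s : ℂ := ((Real.pi / φ : ℝ) : ℂ) with hsdef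
    let κ : ℂ → ℂ := dslope (fun u => exp (s * u)) w
    have hκd : Differentiable ℂ κ := by
      rw [← differentiableOn_univ]
      refine (Complex.differentiableOn_dslope (Filter.univ_mem)).2 ?_
      rw [differentiableOn_univ]
      fun_prop
    have hκe : ∀ u, (u - w) * κ u = exp (s * u) - exp (s * w) := by
      intro u
      have := sub_smul_dslope (fun u => exp (s * u)) w u
      simpa [smul_eq_mul] using this
    have hκn : ∀ u : ℂ, -φ < u.im → u.im < 2 * φ → κ u ≠ 0 := by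
      intro u hu1 hu2 h0
      by_cases huw : u = w
      · subst huw
        have h1 : κ u = deriv (fun v => exp (s * v)) u := dslope_same _ _
        have h2 : HasDerivAt (fun v => exp (s * v)) (exp (s * u) * (s * 1)) u :=
          ((hasDerivAt_id u).const_mul s).cexp
        rw [h1, h2.deriv] at h0
        exact mul_ne_zero (Complex.exp_ne_zero _) (by simpa using hs) h0
      · have h1 := hκe u
        rw [h0, mul_zero] at h1
        obtain ⟨n, hn⟩ := sf_exp_eq φ hφ u w (sub_eq_zero.1 h1.symm)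
        have h2 := sf_im φ u w n hn
        have hn0 : n = 0 := by
          have h3 : (n : ℝ) * (2 * φ) < 1 * (2 * φ) := by linarith
          have h4 : (-1 : ℝ) * (2 * φ) < n * (2 * φ) := by linarith
          have h5 : (n : ℝ) < 1 := lt_of_mul_lt_mul_right h3 (by linarith)
          have h6 : (-1 : ℝ) < n := lt_of_mul_lt_mul_right h4 (by linarith)
          have h7 : n < 1 := by exact_mod_cast h5
          have h8 : -1 < n := by exact_mod_cast h6
          omega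
        apply huw
        rw [hn, hn0]
        simp
    refine ⟨fun u => G u * ((exp (s * u) - exp (s * (starRingEnd ℂ) w)) / κ u), ?_, ?_, ?_⟩
    · refine hG.mul ?_
      refine DifferentiableOn.div ?_ hκd.differentiableOn ?_
      · apply Differentiable.differentiableOn
        fun_prop
      · intro u hu
        exact hκn u hu.1 hu.2
    · intro u hu0 hu1
      refine mul_ne_zero (hGn u hu0 hu1) (div_ne_zero ?_ (hκn u (by linarith) (by linarith)))
      intro h0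
      obtain ⟨n, hn⟩ := sf_exp_eq φ hφ u _ (sub_eq_zero.1 h0)
      have h2 := sf_im φ u _ n hn
      rw [Complex.conj_im] at h2
      have h3 : (n : ℝ) * (2 * φ) < 1 * (2 * φ) := by linarith
      have h4 : (0 : ℝ) * (2 * φ) < n * (2 * φ) := by linarith
      have h5 : (n : ℝ) < 1 := lt_of_mul_lt_mul_right h3 (by linarith)
      have h6 : (0 : ℝ) < n := lt_of_mul_lt_mul_right h4 (by linarith)
      have h7 : n < 1 := by exact_mod_cast h5
      have h8 : 0 < n := by exact_mod_cast h6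
      omega
    · intro u hu1 hu2
      have h1 := hGe u hu1 hu2
      have hk := hκn u hu1 hu2
      simp only [List.map_cons, List.prod_cons]
      rw [← hκe u]
      calc (u - w) * (ws.map (fun w => u - w)).prod * g u *
            ((exp (s * u) - exp (s * (starRingEnd ℂ) w)) *
              (ws.map (fun w => exp (s * u) - exp (s * (starRingEnd ℂ) w))).prod)
          = (((ws.map (fun w => u - w)).prod * g u) *
              (ws.map (fun w => exp (s * u) - exp (s * (starRingEnd ℂ) w))).prod) *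
              ((u - w) * (exp (s * u) - exp (s * (starRingEnd ℂ) w))) := by ring
        _ = _ := by
          rw [h1]
          field_simp

theorem strip_factor (F : ℂ → ℂ) (hF : Differentiable ℂ F) (φ : ℝ) (hφ : 0 < φ)
    (hne : ∃ u, F u ≠ 0)
    (hfin : {u : ℂ | 0 ≤ u.im ∧ u.im ≤ φ ∧ F u = 0}.Finite)
    (hb : ∀ u : ℂ, F u = 0 → u.im ≠ 0 ∧ u.im ≠ φ) :
    ∃ (ws : List ℂ) (G : ℂ → ℂ),
      (∀ w ∈ ws, 0 < w.im ∧ w.im < φ) ∧
      DifferentiableOn ℂ G {u : ℂ | -φ < u.im ∧ u.im < 2 * φ} ∧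
      (∀ u : ℂ, 0 ≤ u.im → u.im ≤ φ → G u ≠ 0) ∧
      (∀ u : ℂ, -φ < u.im → u.im < 2 * φ →
        F u * (ws.map (fun w => exp (((Real.pi / φ : ℝ) : ℂ) * u) -
            exp (((Real.pi / φ : ℝ) : ℂ) * (starRingEnd ℂ) w))).prod =
        G u * (ws.map (fun w => exp (((Real.pi / φ : ℝ) : ℂ) * u) -
            exp (((Real.pi / φ : ℝ) : ℂ) * w))).prod) := by
  obtain ⟨ws, g, hws, hg, hgZ, hFg⟩ := sf_zeros hfin.toFinset F hF hne
  have hmem : ∀ w ∈ ws, 0 < w.im ∧ w.im < φ := by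
    intro w hw
    have h1 := hws w hw
    rw [Set.Finite.mem_toFinset] at h1
    obtain ⟨h2, h3, h4⟩ := h1
    obtain ⟨h5, h6⟩ := hb w h4
    exact ⟨lt_of_le_of_ne h2 (Ne.symm h5), lt_of_le_of_ne h3 h6⟩
  have hgn : ∀ u : ℂ, 0 ≤ u.im → u.im ≤ φ → g u ≠ 0 := by
    intro u hu0 hu1 h0
    have hFu : F u = 0 := by rw [hFg, h0, mul_zero]
    apply hgZ u _ h0
    rw [Set.Finite.mem_toFinset]
    exact ⟨hu0, hu1, hFu⟩
  obtain ⟨G, hG1, hG2, hG3⟩ := sf_build φ hφ g hg hgn ws hmem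
  refine ⟨ws, G, hmem, hG1, hG2, ?_⟩
  intro u hu1 hu2
  rw [hFg u]
  exact hG3 u hu1 hu2



theorem big_of_real_step (W : ℂ → ℂ) (θ' L A : ℝ) (hθ : 0 < θ') (hA : 0 < A)
    (hW : ∀ u : ℂ, L ≤ u.re → 0 ≤ u.im → u.im ≤ θ' → DifferentiableAt ℂ W u)
    (him : ∀ u : ℂ, L ≤ u.re → 0 ≤ u.im → u.im ≤ θ' → 1 ≤ (W u + 2 * I).im)
    (hbot : ∀ x : ℝ, L ≤ x → Real.exp A ≤ ‖W x + 2 * I‖)
    (η : ℝ) (hη : 0 < η) (u : ℂ) (h1 : L ≤ u.re) (h2 : 0 ≤ u.im) (h3 : u.im ≤ θ') :
    Real.exp (A * (1 - u.im / θ' - Real.exp (-(Real.pi / (2 * θ')) * (u.re - L)) *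
      Real.cos (Real.pi / (2 * θ') * u.im)) - η * (u.re - L)) ≤ ‖W u + 2 * I‖ := by
  set g : ℂ → ℂ := fun z => (A : ℂ) * (1 + I * (z - L) / θ' -
    Complex.exp (-((Real.pi / (2 * θ') : ℝ) : ℂ) * (z - L))) - (η : ℂ) * (z - L) with hg
  have gre : ∀ z : ℂ, (g z).re = A * (1 - z.im / θ' -
      Real.exp (-(Real.pi / (2 * θ')) * (z.re - L)) *
      Real.cos (Real.pi / (2 * θ') * z.im)) - η * (z.re - L) := by
    intro z
    have e1 : (Complex.exp (-((Real.pi / (2 * θ') : ℝ) : ℂ) * (z - L))).re =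
        Real.exp (-(Real.pi / (2 * θ')) * (z.re - L)) * Real.cos (Real.pi / (2 * θ') * z.im) := by
      rw [Complex.exp_re]
      have a1 : (-((Real.pi / (2 * θ') : ℝ) : ℂ) * (z - L)).re =
          -(Real.pi / (2 * θ')) * (z.re - L) := by
        rw [← Complex.ofReal_neg, Complex.re_ofReal_mul]; simp
      have a2 : (-((Real.pi / (2 * θ') : ℝ) : ℂ) * (z - L)).im =
          -(Real.pi / (2 * θ') * z.im) := by
        rw [← Complex.ofReal_neg, Complex.im_ofReal_mul]; simp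
      rw [a1, a2, Real.cos_neg]
    have e2 : (I * (z - L) / θ').re = - (z.im / θ') := by
      rw [Complex.div_ofReal_re]
      simp
      ring
    simp only [hg]
    rw [Complex.sub_re, Complex.re_ofReal_mul, Complex.re_ofReal_mul, Complex.sub_re,
      Complex.add_re, e1, e2]
    simp only [Complex.one_re, Complex.sub_re, Complex.ofReal_re]
    ring
  set T : ℝ := max (u.re + 1) (L + A / η) with hT
  have hTu : u.re < T := lt_of_lt_of_le (by linarith) (le_max_left _ _)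
  have hTA : L + A / η ≤ T := le_max_right _ _
  have hLT : L < T := lt_of_le_of_lt h1 hTu
  set U : Set ℂ := Ioo L T ×ℂ Ioo 0 θ' with hU
  have hcl : closure U = Icc L T ×ℂ Icc 0 θ' := by
    rw [hU, Complex.closure_reProdIm, closure_Ioo hLT.ne, closure_Ioo hθ.ne]
  have hfr : frontier U = Icc L T ×ℂ {0, θ'} ∪ {L, T} ×ℂ Icc 0 θ' := by
    rw [hU, Complex.frontier_reProdIm, closure_Ioo hLT.ne, closure_Ioo hθ.ne,
      frontier_Ioo hLT, frontier_Ioo hθ]
  have hbd : Bornology.IsBounded U :=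
    (Metric.isBounded_Ioo L T).reProdIm (Metric.isBounded_Ioo 0 θ')
  have hpos : ∀ z : ℂ, L ≤ z.re → 0 ≤ z.im → z.im ≤ θ' → 1 ≤ ‖W z + 2 * I‖ := by
    intro z a b c
    exact le_trans (him z a b c) (le_trans (le_abs_self _) (Complex.abs_im_le_norm _))
  have hcosnn : ∀ y : ℝ, 0 ≤ y → y ≤ θ' → 0 ≤ Real.cos (Real.pi / (2 * θ') * y) := by
    intro y hy0 hy1
    apply Real.cos_nonneg_of_neg_pi_div_two_le_of_le
    · have : 0 ≤ Real.pi / (2 * θ') * y := by positivity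
      have := Real.pi_pos
      linarith
    · have : Real.pi / (2 * θ') * y ≤ Real.pi / (2 * θ') * θ' := by
        apply mul_le_mul_of_nonneg_left hy1; positivity
      calc _ ≤ _ := this
        _ = Real.pi / 2 := by field_simp
  set Q : ℂ → ℂ := fun z => Complex.exp (g z) / (W z + 2 * I) with hQ
  have Qn : ∀ z, ‖Q z‖ = Real.exp ((g z).re) / ‖W z + 2 * I‖ := by
    intro z
    simp only [hQ]
    rw [norm_div, Complex.norm_exp]
  have hdiff : DiffContOnCl ℂ Q U := by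
    apply DifferentiableOn.diffContOnCl
    intro z hz
    rw [hcl] at hz
    obtain ⟨⟨a1, a2⟩, ⟨b1, b2⟩⟩ := hz
    have hne : W z + 2 * I ≠ 0 := by
      intro h0
      have := hpos z a1 b1 b2
      rw [h0, norm_zero] at this
      linarith
    have hWd := hW z a1 b1 b2
    have hgd : DifferentiableAt ℂ g z := by
      simp only [hg]
      fun_prop
    exact ((hgd.cexp).div (hWd.add_const _) hne).differentiableWithinAt
  have hfront : ∀ z ∈ frontier U, ‖Q z‖ ≤ 1 := by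
    intro z hz
    rw [hfr] at hz
    rw [Qn, gre]
    rcases hz with ⟨⟨a1, a2⟩, hz⟩ | ⟨hz, ⟨b1, b2⟩⟩
    · simp only [Set.mem_preimage, Set.mem_insert_iff, Set.mem_singleton_iff] at hz
      rcases hz with hz | hz
      · have hzx : z = ((z.re : ℝ) : ℂ) := by
          apply Complex.ext <;> simp [hz]
        have hb := hbot z.re a1
        rw [← hzx] at hb
        rw [div_le_one (lt_of_lt_of_le (Real.exp_pos _) hb)]
        refine le_trans (Real.exp_le_exp.2 ?_) hb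
        rw [hz]
        have e0 := Real.exp_pos (-(Real.pi / (2 * θ')) * (z.re - L))
        have e3 : 0 ≤ η * (z.re - L) := mul_nonneg hη.le (by linarith)
        simp only [zero_div, mul_zero, Real.cos_zero, mul_one, sub_zero]
        nlinarith
      · have hb := hpos z a1 (by rw [hz]; exact hθ.le) (by rw [hz])
        rw [div_le_one (by linarith)]
        refine le_trans ?_ hb
        refine Real.exp_le_one_iff.2 ?_
        rw [hz]
        have e3 : 0 ≤ η * (z.re - L) := mul_nonneg hη.le (by linarith)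
        have e4 : Real.pi / (2 * θ') * θ' = Real.pi / 2 := by field_simp
        rw [e4, Real.cos_pi_div_two, div_self hθ.ne']
        linarith
    · simp only [Set.mem_preimage, Set.mem_insert_iff, Set.mem_singleton_iff] at hz
      rcases hz with hz | hz
      · have hb := hpos z (by rw [hz]) b1 b2
        rw [div_le_one (by linarith)]
        refine le_trans ?_ hb
        refine Real.exp_le_one_iff.2 ?_
        rw [hz, sub_self, mul_zero, mul_zero, Real.exp_zero, one_mul, sub_zero]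
        have hj : 1 - 2 / Real.pi * (Real.pi / (2 * θ') * z.im) ≤
            Real.cos (Real.pi / (2 * θ') * z.im) := by
          apply Real.one_sub_mul_le_cos
          · have := Real.pi_pos
            positivity
          · have : Real.pi / (2 * θ') * z.im ≤ Real.pi / (2 * θ') * θ' := by
              apply mul_le_mul_of_nonneg_left b2
              have := Real.pi_pos
              positivity
            calc _ ≤ _ := this
              _ = Real.pi / 2 := by field_simp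
        have e5 : 2 / Real.pi * (Real.pi / (2 * θ') * z.im) = z.im / θ' := by
          have := Real.pi_pos
          field_simp
        rw [e5] at hj
        nlinarith
      · have hb := hpos z (by rw [hz]; exact hLT.le) b1 b2
        rw [div_le_one (by linarith)]
        refine le_trans ?_ hb
        refine Real.exp_le_one_iff.2 ?_
        rw [hz]
        have e0 := Real.exp_pos (-(Real.pi / (2 * θ')) * (T - L))
        have e1 := hcosnn z.im b1 b2
        have e2 : 0 ≤ z.im / θ' := div_nonneg b1 hθ.le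
        have e3 : A ≤ η * (T - L) := by
          have : A / η ≤ T - L := by linarith
          calc A = η * (A / η) := by field_simp
            _ ≤ _ := mul_le_mul_of_nonneg_left this hη.le
        have e4 := mul_nonneg e0.le e1
        nlinarith
  have hmem : u ∈ closure U := by
    rw [hcl]
    exact ⟨⟨h1, hTu.le⟩, ⟨h2, h3⟩⟩
  have hfin := Complex.norm_le_of_forall_mem_frontier_norm_le hbd hdiff hfront hmem
  rw [Qn, gre, div_le_one (lt_of_lt_of_le one_pos (hpos u h1 h2 h3))] at hfin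
  exact hfin

theorem big_of_real (W : ℂ → ℂ) (θ θ' L0 : ℝ) (h0 : 0 < θ) (hlt : θ < θ')
    (hW : ∀ u : ℂ, L0 ≤ u.re → 0 ≤ u.im → u.im ≤ θ' → DifferentiableAt ℂ W u)
    (him : ∀ ε : ℝ, 0 < ε → ∃ L : ℝ, ∀ u : ℂ, L ≤ u.re → 0 ≤ u.im → u.im ≤ θ' → -ε ≤ (W u).im)
    (hinf : Tendsto (fun x : ℝ => ‖W x‖) atTop atTop) (M : ℝ) :
    ∃ L : ℝ, ∀ u : ℂ, L ≤ u.re → 0 ≤ u.im → u.im ≤ θ → M ≤ ‖W u‖ := by
  have hθ : 0 < θ' := h0.trans hlt
  obtain ⟨L1, hL1⟩ := him 1 one_pos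
  set c : ℝ := (1 - θ / θ') / 2 with hc
  have hcpos : 0 < c := by
    have : θ / θ' < 1 := (div_lt_one hθ).2 hlt
    rw [hc]; linarith
  set A : ℝ := 2 / c * (|M| + 2) with hA
  have hM2 : 0 < |M| + 2 := by positivity
  have hApos : 0 < A := by rw [hA]; positivity
  have hAc : |M| + 2 ≤ Real.exp (A * c / 2) := by
    have e1 : A * c / 2 = |M| + 2 := by rw [hA]; field_simp
    rw [e1]
    have := Real.add_one_le_exp (|M| + 2)
    linarith
  obtain ⟨L2, hL2⟩ := (Filter.eventually_atTop.1 (hinf.eventually_ge_atTop (Real.exp A + 2)))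
  set L : ℝ := max L0 (max L1 L2) with hL
  have l0 : L0 ≤ L := le_max_left _ _
  have l1 : L1 ≤ L := (le_max_left _ _).trans (le_max_right _ _)
  have l2 : L2 ≤ L := (le_max_right _ _).trans (le_max_right _ _)
  have n2 : ‖(2 * I : ℂ)‖ = 2 := by simp
  have hstep := fun η hη u h1 h2 h3 => big_of_real_step W θ' L A hθ hApos
    (fun u a b c => hW u (l0.trans a) b c)
    (fun u a b c => by
      have := hL1 u (l1.trans a) b c
      simp
      linarith)
    (fun x hx => by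
      have e1 := hL2 x (l2.trans hx)
      have e2 : ‖W x‖ ≤ ‖W x + 2 * I‖ + ‖(2 * I : ℂ)‖ := by
        have := norm_sub_le (W x + 2 * I) (2 * I)
        simpa using this
      rw [n2] at e2
      linarith) η hη u h1 h2 h3
  have hpi := Real.pi_pos
  refine ⟨L + (2 * θ' / Real.pi) * |Real.log c|, fun u h1 h2 h3 => ?_⟩
  have hk : 0 ≤ (2 * θ' / Real.pi) * |Real.log c| := by positivity
  have hx : L ≤ u.re := by linarith
  have hxx : 0 < u.re - L + 1 := by linarith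
  have h3' : u.im ≤ θ' := h3.trans hlt.le
  set η : ℝ := A * c / 2 / (u.re - L + 1) with hη
  have hηpos : 0 < η := by rw [hη]; positivity
  have key := hstep η hηpos u hx h2 h3'
  have k1 : η * (u.re - L) ≤ A * c / 2 := by
    have : η * (u.re - L + 1) = A * c / 2 := by rw [hη]; field_simp
    nlinarith
  have k2 : Real.exp (-(Real.pi / (2 * θ')) * (u.re - L)) ≤ c := by
    have : -(Real.pi / (2 * θ')) * (u.re - L) ≤ Real.log c := by
      have a1 : (2 * θ' / Real.pi) * |Real.log c| ≤ u.re - L := by linarith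
      have a2 : (Real.pi / (2 * θ')) * ((2 * θ' / Real.pi) * |Real.log c|) ≤
          (Real.pi / (2 * θ')) * (u.re - L) :=
        mul_le_mul_of_nonneg_left a1 (by positivity)
      have a3 : (Real.pi / (2 * θ')) * ((2 * θ' / Real.pi) * |Real.log c|) = |Real.log c| := by
        field_simp
      rw [a3] at a2
      have a4 := neg_abs_le (Real.log c)
      linarith
    calc _ ≤ Real.exp (Real.log c) := Real.exp_le_exp.2 this
      _ = c := Real.exp_log hcpos
  have k3 : Real.cos (Real.pi / (2 * θ') * u.im) ≤ 1 := Real.cos_le_one _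
  have k4 : Real.exp (-(Real.pi / (2 * θ')) * (u.re - L)) *
      Real.cos (Real.pi / (2 * θ') * u.im) ≤ c := by
    have := Real.exp_pos (-(Real.pi / (2 * θ')) * (u.re - L))
    nlinarith
  have k5 : u.im / θ' ≤ θ / θ' := div_le_div_of_nonneg_right h3 hθ.le
  have k6 : c ≤ 1 - u.im / θ' - Real.exp (-(Real.pi / (2 * θ')) * (u.re - L)) *
      Real.cos (Real.pi / (2 * θ') * u.im) := by
    have : 1 - θ / θ' = 2 * c := by rw [hc]; ring
    linarith
  have k7 : A * c / 2 ≤ A * (1 - u.im / θ' - Real.exp (-(Real.pi / (2 * θ')) * (u.re - L)) *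
      Real.cos (Real.pi / (2 * θ') * u.im)) - η * (u.re - L) := by
    have := mul_le_mul_of_nonneg_left k6 hApos.le
    linarith
  have k8 : |M| + 2 ≤ ‖W u + 2 * I‖ := hAc.trans ((Real.exp_le_exp.2 k7).trans key)
  have k9 := norm_add_le (W u) (2 * I)
  rw [n2] at k9
  have := le_abs_self M
  linarith



theorem ray_abs_deriv {f : ℝ → ℝ} {c s : ℝ} (hf : HasDerivAt f c s) (h0 : f s = 0) :
    HasDerivWithinAt (fun x => |f x|) |c| (Ioi s) s := by
  have h1 := hf.hasDerivWithinAt (s := Ioi s)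
  rw [hasDerivWithinAt_iff_tendsto_slope' self_notMem_Ioi] at h1 ⊢
  refine (h1.abs).congr' ?_
  filter_upwards [self_mem_nhdsWithin] with x hx
  have hxs : 0 < x - s := sub_pos.2 hx
  rw [slope_def_field, slope_def_field, h0, abs_zero, sub_zero, sub_zero, abs_div,
    abs_of_pos hxs]

theorem ray_arg_deriv {γ : ℝ → ℂ} {γ' : ℂ} {s : ℝ} (h : HasDerivAt γ γ' s)
    (hs : γ s ∈ slitPlane) : HasDerivAt (fun t => (γ t).arg) ((γ' / γ s).im) s := by
  have h1 := h.clog_real hs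
  have h2 := Complex.imCLM.hasFDerivAt.comp_hasDerivAt s h1
  simpa [Function.comp_def, Complex.log_im] using h2

theorem ray_ineq (γ γ' : ℝ → ℂ) (a b : ℝ) (hab : a ≤ b)
    (hd : ∀ s ∈ Icc a b, HasDerivAt γ (γ' s) s) (hc : ContinuousOn γ' (Icc a b))
    (hne : ∀ s ∈ Icc a b, γ s ≠ 0) :
    (∫ s in a..b, |(γ s).im|) + |Complex.arg (γ b)| ≤
      (∫ s in a..b, |(γ s + γ' s / γ s).im|) + |Complex.arg (γ a)| := by
  have hγc : ContinuousOn γ (Icc a b) := fun s hs => (hd s hs).continuousAt.continuousWithinAt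
  have hqc : ContinuousOn (fun s => γ' s / γ s) (Icc a b) := hc.div hγc hne
  have hc1 : ContinuousOn (fun s => |(γ s + γ' s / γ s).im|) (Icc a b) := by
    apply ContinuousOn.abs
    exact Complex.continuous_im.comp_continuousOn (hγc.add hqc)
  have hc2 : ContinuousOn (fun s => |(γ s).im|) (Icc a b) := by
    apply ContinuousOn.abs
    exact Complex.continuous_im.comp_continuousOn hγc
  have hD : ContinuousOn (fun s => |(γ s).arg|) (Icc a b) := by
    have h1 : ContinuousOn (fun s => InnerProductGeometry.angle (1 : ℂ) (γ s)) (Icc a b) := by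
      intro s hs
      have h2 := InnerProductGeometry.continuousAt_angle (x := ((1 : ℂ), γ s)) one_ne_zero
        (hne s hs)
      have h3 : ContinuousWithinAt (fun s => ((1 : ℂ), γ s)) (Icc a b) s :=
        continuousWithinAt_const.prodMk (hγc s hs)
      exact ContinuousAt.comp_continuousWithinAt (f := fun s => ((1 : ℂ), γ s)) h2 h3
    refine h1.congr ?_
    intro s hs
    exact (Complex.angle_one_left (hne s hs)).symm
  set g' : ℝ → ℝ := fun s => if 0 < (γ s).im then (γ' s / γ s).im else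
    if (γ s).im < 0 then -(γ' s / γ s).im else
      if 0 < (γ s).re then |(γ' s / γ s).im| else -|(γ' s / γ s).im| with hg'
  have key := intervalIntegral.sub_le_integral_of_hasDeriv_right_of_le
    (g := fun s => |(γ s).arg|) (g' := g')
    (φ := fun s => |(γ s + γ' s / γ s).im| - |(γ s).im|) hab hD ?_ ?_ ?_
  · rw [intervalIntegral.integral_sub] at key
    · linarith
    · exact (hc1.mono (by rw [uIcc_of_le hab])).intervalIntegrable
    · exact (hc2.mono (by rw [uIcc_of_le hab])).intervalIntegrable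
  · intro s hs
    have hs' : s ∈ Icc a b := Ioo_subset_Icc_self hs
    have hds := hd s hs'
    have hcont : ContinuousAt γ s := hds.continuousAt
    have him : ContinuousAt (fun t => (γ t).im) s := Complex.continuous_im.continuousAt.comp hcont
    have hre : ContinuousAt (fun t => (γ t).re) s := Complex.continuous_re.continuousAt.comp hcont
    simp only [hg']
    split_ifs with h1 h2 h3
    · have h4 := ray_arg_deriv hds (Complex.mem_slitPlane_iff.2 (Or.inr h1.ne'))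
      refine (h4.congr_of_eventuallyEq ?_).hasDerivWithinAt
      filter_upwards [him.eventually (lt_mem_nhds h1)] with t ht
      exact abs_of_nonneg (Complex.arg_nonneg_iff.2 (le_of_lt ht))
    · have h4 := (ray_arg_deriv hds (Complex.mem_slitPlane_iff.2 (Or.inr h2.ne))).neg
      refine (h4.congr_of_eventuallyEq ?_).hasDerivWithinAt
      filter_upwards [him.eventually (gt_mem_nhds h2)] with t ht
      exact abs_of_neg (Complex.arg_neg_iff.2 ht)
    · have h0 : (γ s).im = 0 := le_antisymm (not_lt.1 h1) (not_lt.1 h2)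
      have h4 := ray_arg_deriv hds (Complex.mem_slitPlane_iff.2 (Or.inl h3))
      refine ray_abs_deriv h4 ?_
      exact Complex.arg_eq_zero_iff.2 ⟨h3.le, h0⟩
    · have h0 : (γ s).im = 0 := le_antisymm (not_lt.1 h1) (not_lt.1 h2)
      have hre0 : (γ s).re < 0 := by
        rcases lt_or_eq_of_le (not_lt.1 h3) with h | h
        · exact h
        · exfalso
          exact hne s hs' (Complex.ext h h0)
      have hdn : HasDerivAt (fun t => -γ t) (-γ' s) s := hds.neg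
      have h4 := ray_arg_deriv hdn (Complex.mem_slitPlane_iff.2 (Or.inl (by
        rw [Complex.neg_re]; linarith)))
      have h5 := ray_abs_deriv h4 (Complex.arg_eq_zero_iff.2 ⟨by rw [Complex.neg_re]; linarith,
        by rw [Complex.neg_im, h0, neg_zero]⟩)
      have h6 := (hasDerivWithinAt_const s (Ioi s) Real.pi).sub h5
      rw [neg_div_neg_eq, zero_sub] at h6
      refine h6.congr_of_eventuallyEq ?_ ?_
      · have h7 : ∀ᶠ t in nhdsWithin s (Ioi s), (γ t).re < 0 :=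
          (hre.eventually (gt_mem_nhds hre0)).filter_mono nhdsWithin_le_nhds
        filter_upwards [h7] with t ht
        have hne' : γ t ≠ 0 := by
          intro h
          rw [h, Complex.zero_re] at ht
          exact lt_irrefl _ ht
        change |(γ t).arg| = Real.pi - |(-γ t).arg|
        rw [← Complex.angle_one_left hne', ← Complex.angle_one_left (neg_ne_zero.2 hne'),
          InnerProductGeometry.angle_neg_right]
        ring
      · change |(γ s).arg| = Real.pi - |(-γ s).arg|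
        have hne' := hne s hs'
        rw [← Complex.angle_one_left hne', ← Complex.angle_one_left (neg_ne_zero.2 hne'),
          InnerProductGeometry.angle_neg_right]
        ring
  · exact (hc1.sub hc2).integrableOn_compact isCompact_Icc
  · intro s hs
    simp only [hg']
    rw [Complex.add_im]
    split_ifs with h1 h2 h3
    · rw [abs_of_pos h1]
      have := le_abs_self ((γ s).im + (γ' s / γ s).im)
      linarith
    · rw [abs_of_neg h2]
      have := neg_abs_le ((γ s).im + (γ' s / γ s).im)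
      linarith
    · have h0 : (γ s).im = 0 := le_antisymm (not_lt.1 h1) (not_lt.1 h2)
      rw [h0, zero_add, abs_zero, sub_zero]
    · have h0 : (γ s).im = 0 := le_antisymm (not_lt.1 h1) (not_lt.1 h2)
      rw [h0, zero_add, abs_zero, sub_zero]
      have := abs_nonneg ((γ' s / γ s).im)
      linarith



theorem arc_ineq (γ γ' : ℝ → ℂ) (θ ε M : ℝ) (hθ : 0 ≤ θ)
    (hd : ∀ y ∈ Icc 0 θ, HasDerivAt γ (γ' y) y) (hc : ContinuousOn γ' (Icc 0 θ))
    (h0 : (γ 0).im = 0) (h0' : 0 < (γ 0).re) (hε : 0 < ε) (hM : 8 * ε ≤ M)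
    (him : ∀ y ∈ Icc 0 θ, -ε ≤ (γ y).im) (hbig : ∀ y ∈ Icc 0 θ, M ≤ ‖γ y‖) :
    (∫ y in (0 : ℝ)..θ, (γ' y / γ y).im) ≤ |Complex.arg (γ θ)| + 100 * ε / M := by
  have hMpos : 0 < M := by linarith
  set t : ℝ → ℂ := fun y => γ y + ((2 * ε : ℝ) : ℂ) * I with ht
  set r : ℝ → ℂ := fun y => γ y / t y with hr
  have htim : ∀ y ∈ Icc 0 θ, 0 < (t y).im := by
    intro y hy
    have h1 : (t y).im = (γ y).im + 2 * ε := by simp [ht]
    rw [h1]; linarith [him y hy]
  have htne : ∀ y ∈ Icc 0 θ, t y ≠ 0 := by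
    intro y hy h
    have := htim y hy
    rw [h] at this; simp at this
  have hγne : ∀ y ∈ Icc 0 θ, γ y ≠ 0 := by
    intro y hy h
    have := hbig y hy
    rw [h] at this; simp at this; linarith
  have h2ε : ‖((2 * ε : ℝ) : ℂ) * I‖ = 2 * ε := by
    rw [norm_mul, Complex.norm_real, Complex.norm_I, mul_one, Real.norm_of_nonneg (by linarith)]
  have htn : ∀ y ∈ Icc 0 θ, 3 * M / 4 ≤ ‖t y‖ := by
    intro y hy
    have h1 : ‖γ y‖ ≤ ‖t y‖ + 2 * ε := by
      have h2 : γ y = t y - ((2 * ε : ℝ) : ℂ) * I := by simp [ht]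
      rw [h2]
      refine le_trans (norm_sub_le _ _) ?_
      rw [h2ε]
    linarith [hbig y hy]
  have hr1 : ∀ y ∈ Icc 0 θ, ‖r y - 1‖ ≤ 8 * ε / (3 * M) := by
    intro y hy
    have h1 : r y - 1 = -(((2 * ε : ℝ) : ℂ) * I) / t y := by
      simp only [hr]
      rw [div_sub_one (htne y hy)]
      congr 1
      simp only [ht]; ring
    rw [h1, norm_div, norm_neg, h2ε]
    rw [div_le_div_iff₀ (lt_of_lt_of_le (by positivity) (htn y hy)) (by positivity)]
    nlinarith [htn y hy]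
  have h83 : 8 * ε / (3 * M) ≤ 1 / 3 := by
    rw [div_le_div_iff₀ (by positivity) (by norm_num)]; linarith
  have hrs : ∀ y ∈ Icc 0 θ, r y ∈ slitPlane := by
    intro y hy
    have h1 : ‖r y - 1‖ < 1 := by linarith [hr1 y hy]
    have h2 := Complex.mem_slitPlane_of_norm_lt_one h1
    rwa [add_sub_cancel] at h2
  have hargr : ∀ y ∈ Icc 0 θ, |arg (r y)| ≤ 4 * ε / M := by
    intro y hy
    have h1 := Complex.norm_log_one_add_half_le_self (z := r y - 1) (by linarith [hr1 y hy])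
    rw [add_sub_cancel] at h1
    have h2 : |arg (r y)| ≤ ‖log (r y)‖ := by
      rw [← Complex.log_im]; exact Complex.abs_im_le_norm _
    have h3 : (3 / 2 : ℝ) * (8 * ε / (3 * M)) = 4 * ε / M := by field_simp; norm_num
    linarith [hr1 y hy]
  have hts : ∀ y ∈ Icc 0 θ, t y ∈ slitPlane := by
    intro y hy
    rw [Complex.mem_slitPlane_iff]
    exact Or.inr (htim y hy).ne'
  have hF : ∀ y ∈ Icc 0 θ, HasDerivAt (fun y => log (t y) + log (r y)) (γ' y / γ y) y := by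
    intro y hy
    have hdt : HasDerivAt t (γ' y) y := (hd y hy).add_const _
    have hdr : HasDerivAt r ((γ' y * t y - γ y * γ' y) / (t y) ^ 2) y :=
      (hd y hy).div hdt (htne y hy)
    have h1 := (hdt.clog_real (hts y hy)).add (hdr.clog_real (hrs y hy))
    refine h1.congr_deriv ?_
    have h2 := htne y hy
    have h3 := hγne y hy
    simp only [hr]
    field_simp
    ring
  have hG : ∀ y ∈ uIcc 0 θ, HasDerivAt (fun y => (log (t y) + log (r y)).im) ((γ' y / γ y).im) y := by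
    intro y hy
    rw [uIcc_of_le hθ] at hy
    exact Complex.imCLM.hasFDerivAt.comp_hasDerivAt y (hF y hy)
  have hcγ : ContinuousOn γ (Icc 0 θ) := fun y hy => (hd y hy).continuousAt.continuousWithinAt
  have hint : IntervalIntegrable (fun y => (γ' y / γ y).im) MeasureTheory.volume 0 θ := by
    apply ContinuousOn.intervalIntegrable
    rw [uIcc_of_le hθ]
    exact Complex.continuous_im.comp_continuousOn (hc.div hcγ hγne)
  rw [intervalIntegral.integral_eq_sub_of_hasDerivAt hG hint]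
  simp only [Complex.add_im, Complex.log_im]
  have hθm : θ ∈ Icc 0 θ := ⟨hθ, le_rfl⟩
  have h0m : (0:ℝ) ∈ Icc 0 θ := ⟨le_rfl, hθ⟩
  have e1 : 0 ≤ arg (t 0) := Complex.arg_nonneg_iff.mpr (htim 0 h0m).le
  have e2 := abs_le.mp (hargr θ hθm)
  have e3 := abs_le.mp (hargr 0 h0m)
  have e4 : arg (t θ) ≤ |arg (γ θ)| + |arg (r θ)| := by
    have a1 : |arg (t θ)| = InnerProductGeometry.angle 1 (t θ) :=
      (Complex.angle_one_left (htne θ hθm)).symm
    have a2 : |arg (γ θ)| = InnerProductGeometry.angle 1 (γ θ) :=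
      (Complex.angle_one_left (hγne θ hθm)).symm
    have a3 : |arg (r θ)| = InnerProductGeometry.angle (γ θ) (t θ) :=
      (Complex.angle_eq_abs_arg (hγne θ hθm) (htne θ hθm)).symm
    refine le_trans (le_abs_self _) ?_
    rw [a1, a2, a3]
    exact InnerProductGeometry.angle_le_angle_add_angle _ _ _
  have e5 := hargr θ hθm
  have e6 : 100 * ε / M = 4 * ε / M * 25 := by ring
  have e7 : 0 < 4 * ε / M := by positivity
  rw [e6]
  linarith [e2.2, e3.1]



theorem gz_list_norm_le {l : List ℂ} {f g : ℂ → ℂ} (h : ∀ w ∈ l, ‖f w‖ ≤ ‖g w‖) :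
    ‖(l.map f).prod‖ ≤ ‖(l.map g).prod‖ := by
  induction l with
  | nil => simp
  | cons a l ih =>
    rw [List.map_cons, List.map_cons, List.prod_cons, List.prod_cons, norm_mul, norm_mul]
    exact mul_le_mul (h a (by simp)) (ih fun w hw => h w (by simp [hw])) (norm_nonneg _)
      (norm_nonneg _)

theorem gz_list_ne {l : List ℂ} {f : ℂ → ℂ} (h : ∀ w ∈ l, f w ≠ 0) : (l.map f).prod ≠ 0 := by
  induction l with
  | nil => simp
  | cons a l ih =>
    rw [List.map_cons, List.prod_cons]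
    exact mul_ne_zero (h a (by simp)) (ih fun w hw => h w (by simp [hw]))

theorem gz_im_exp (s : ℝ) (u : ℂ) :
    (exp ((s : ℂ) * u)).im = Real.exp (s * u.re) * Real.sin (s * u.im) := by
  rw [Complex.exp_im]
  simp

theorem gz_conj_exp (s : ℝ) (w : ℂ) :
    exp ((s : ℂ) * (starRingEnd ℂ) w) = (starRingEnd ℂ) (exp ((s : ℂ) * w)) := by
  rw [← Complex.exp_conj]
  simp

theorem gz_norm_le (a b : ℂ) (ha : 0 ≤ a.im) (hb : 0 ≤ b.im) :
    ‖a - b‖ ≤ ‖a - (starRingEnd ℂ) b‖ := by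
  rw [Complex.norm_eq_sqrt_sq_add_sq, Complex.norm_eq_sqrt_sq_add_sq]
  apply Real.sqrt_le_sqrt
  simp only [sub_re, sub_im, conj_re, conj_im]
  nlinarith [mul_nonneg ha hb]

theorem gz_norm_eq (a b : ℂ) (ha : a.im = 0) :
    ‖a - b‖ = ‖a - (starRingEnd ℂ) b‖ := by
  rw [Complex.norm_eq_sqrt_sq_add_sq, Complex.norm_eq_sqrt_sq_add_sq]
  congr 1
  simp only [sub_re, sub_im, conj_re, conj_im, ha]
  ring

theorem strip_PL (F G : ℂ → ℂ) (φ ρ C C' L' c1 L2 : ℝ) (ws : List ℂ)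
    (hφ : 0 < φ) (hρ : 0 < ρ) (hρφ : ρ * φ < Real.pi)
    (hF : Differentiable ℂ F)
    (hmax : ∀ u : ℂ, ‖F u‖ ≤ ‖F (u.re : ℂ)‖)
    (hsym : ∀ u : ℂ, F ((starRingEnd ℂ) u) = (starRingEnd ℂ) (F u))
    (hmono : ∀ x y : ℝ, x ≤ y → ‖F x‖ ≤ ‖F y‖)
    (hgrow : ∀ x : ℝ, 0 ≤ x → ‖F x‖ ≤ Real.exp (C * Real.exp (ρ * x)))
    (hlow : ∀ u : ℂ, L' ≤ u.re → |u.im| ≤ φ →
      Real.exp (-(C' * Real.exp (ρ * u.re))) ≤ ‖F u‖)
    (hc1 : 0 < c1) (hlow2 : ∀ u : ℂ, u.re ≤ L2 → c1 ≤ ‖F u‖)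
    (hws : ∀ w ∈ ws, 0 < w.im ∧ w.im < φ)
    (hG : DifferentiableOn ℂ G {u : ℂ | -φ < u.im ∧ u.im < 2 * φ})
    (hG0 : ∀ u : ℂ, 0 ≤ u.im → u.im ≤ φ → G u ≠ 0)
    (hFG : ∀ u : ℂ, -φ < u.im → u.im < 2 * φ →
        F u * (ws.map (fun w => exp (((Real.pi / φ : ℝ) : ℂ) * u) -
            exp (((Real.pi / φ : ℝ) : ℂ) * (starRingEnd ℂ) w))).prod =
        G u * (ws.map (fun w => exp (((Real.pi / φ : ℝ) : ℂ) * u) -
            exp (((Real.pi / φ : ℝ) : ℂ) * w))).prod) :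
    ∀ u : ℂ, 0 ≤ u.im → u.im ≤ φ → ‖F (u - 2 * φ * I)‖ ≤ ‖G u‖ := by
  have hs : 0 < Real.pi / φ := by positivity
  have hsφ : Real.pi / φ * φ = Real.pi := by field_simp
  obtain ⟨s, hsdef⟩ : ∃ s : ℝ, s = Real.pi / φ := ⟨_, rfl⟩
  rw [← hsdef] at hs hsφ hFG
  have hwim : ∀ w ∈ ws, 0 < (exp ((s : ℂ) * w)).im := by
    intro w hw
    obtain ⟨h1, h2⟩ := hws w hw
    rw [gz_im_exp]
    apply mul_pos (Real.exp_pos _)
    apply Real.sin_pos_of_pos_of_lt_pi (by positivity)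
    rw [← hsφ]
    exact mul_lt_mul_of_pos_left h2 hs
  have huim : ∀ u : ℂ, 0 ≤ u.im → u.im ≤ φ → 0 ≤ (exp ((s : ℂ) * u)).im := by
    intro u h1 h2
    rw [gz_im_exp]
    apply mul_nonneg (Real.exp_pos _).le
    apply Real.sin_nonneg_of_nonneg_of_le_pi (by positivity)
    rw [← hsφ]
    exact mul_le_mul_of_nonneg_left h2 hs.le
  have hPb : ∀ u : ℂ, 0 ≤ u.im → u.im ≤ φ →
      (ws.map (fun w => exp ((s : ℂ) * u) - exp ((s : ℂ) * (starRingEnd ℂ) w))).prod ≠ 0 := by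
    intro u h1 h2
    apply gz_list_ne
    intro w hw h0
    have h3 := hwim w hw
    have h4 := huim u h1 h2
    have h5 : (exp ((s : ℂ) * u) - exp ((s : ℂ) * (starRingEnd ℂ) w)).im = 0 := by rw [h0]; rfl
    rw [gz_conj_exp, sub_im, conj_im] at h5
    linarith
  have hFleG : ∀ u : ℂ, 0 ≤ u.im → u.im ≤ φ → ‖F u‖ ≤ ‖G u‖ := by
    intro u h1 h2
    have h3 := hFG u (by linarith) (by linarith)
    have h4 : ‖(ws.map (fun w => exp ((s : ℂ) * u) - exp ((s : ℂ) * w))).prod‖ ≤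
        ‖(ws.map (fun w => exp ((s : ℂ) * u) - exp ((s : ℂ) * (starRingEnd ℂ) w))).prod‖ := by
      apply gz_list_norm_le
      intro w hw
      rw [gz_conj_exp]
      exact gz_norm_le _ _ (huim u h1 h2) (hwim w hw).le
    have h5 := norm_pos_iff.2 (hPb u h1 h2)
    have h6 : ‖F u‖ * ‖(ws.map (fun w => exp ((s : ℂ) * u) - exp ((s : ℂ) * (starRingEnd ℂ) w))).prod‖
        = ‖G u‖ * ‖(ws.map (fun w => exp ((s : ℂ) * u) - exp ((s : ℂ) * w))).prod‖ := by
      rw [← norm_mul, ← norm_mul, h3]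
    refine le_of_mul_le_mul_right ?_ h5
    rw [h6]
    exact mul_le_mul_of_nonneg_left h4 (norm_nonneg _)
  have hFeqG : ∀ u : ℂ, 0 ≤ u.im → u.im ≤ φ → (exp ((s : ℂ) * u)).im = 0 → ‖F u‖ = ‖G u‖ := by
    intro u h1 h2 hre
    refine le_antisymm (hFleG u h1 h2) ?_
    have h3 := hFG u (by linarith) (by linarith)
    have h4 : ‖(ws.map (fun w => exp ((s : ℂ) * u) - exp ((s : ℂ) * (starRingEnd ℂ) w))).prod‖ ≤
        ‖(ws.map (fun w => exp ((s : ℂ) * u) - exp ((s : ℂ) * w))).prod‖ := by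
      apply gz_list_norm_le
      intro w hw
      rw [gz_conj_exp]
      exact (gz_norm_eq _ _ hre).ge
    have h5 := lt_of_lt_of_le (norm_pos_iff.2 (hPb u h1 h2)) h4
    have h6 : ‖F u‖ * ‖(ws.map (fun w => exp ((s : ℂ) * u) - exp ((s : ℂ) * (starRingEnd ℂ) w))).prod‖
        = ‖G u‖ * ‖(ws.map (fun w => exp ((s : ℂ) * u) - exp ((s : ℂ) * w))).prod‖ := by
      rw [← norm_mul, ← norm_mul, h3]
    refine le_of_mul_le_mul_right ?_ h5
    rw [← h6]
    exact mul_le_mul_of_nonneg_left h4 (norm_nonneg _)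
  have hdiff : ∀ u : ℂ, 0 ≤ u.im → u.im ≤ φ →
      DifferentiableAt ℂ (fun u => F (u - 2 * φ * I) / G u) u := by
    intro u h1 h2
    have hopen : IsOpen {u : ℂ | -φ < u.im ∧ u.im < 2 * φ} :=
      (isOpen_lt continuous_const Complex.continuous_im).inter
        (isOpen_lt Complex.continuous_im continuous_const)
    have h3 : DifferentiableAt ℂ G u :=
      hG.differentiableAt (hopen.mem_nhds ⟨by linarith, by linarith⟩)
    have h4 : DifferentiableAt ℂ (fun u : ℂ => F (u - 2 * φ * I)) u :=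
      (hF _).comp u (differentiableAt_id.sub_const _)
    exact h4.div h3 (hG0 u h1 h2)
  have hstrip : ∀ u ∈ closure (im ⁻¹' Ioo 0 φ), 0 ≤ u.im ∧ u.im ≤ φ := by
    intro u hu
    have hcl : IsClosed {u : ℂ | 0 ≤ u.im ∧ u.im ≤ φ} :=
      (isClosed_le continuous_const Complex.continuous_im).inter
        (isClosed_le Complex.continuous_im continuous_const)
    have hsub : im ⁻¹' Ioo 0 φ ⊆ {u : ℂ | 0 ≤ u.im ∧ u.im ≤ φ} := by
      intro v hv
      exact ⟨hv.1.le, hv.2.le⟩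
    exact closure_minimal hsub hcl hu
  have hFs : ∀ u : ℂ, ‖F (u - 2 * φ * I)‖ ≤ ‖F (u.re : ℂ)‖ := by
    intro u
    have h1 := hmax (u - 2 * φ * I)
    have h2 : (u - 2 * φ * I).re = u.re := by simp
    rwa [h2] at h1
  -- bound on the middle rectangle
  obtain ⟨K, hK⟩ : ∃ K : ℝ, ∀ u ∈ (Set.Icc L2 (max L' 0)) ×ℂ (Set.Icc 0 φ),
      ‖F (u - 2 * φ * I) / G u‖ ≤ K := by
    have hcomp : IsCompact ((Set.Icc L2 (max L' 0)) ×ℂ (Set.Icc 0 φ)) :=
      isCompact_Icc.reProdIm isCompact_Icc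
    apply hcomp.exists_bound_of_continuousOn
    intro u hu
    have hu2 := hu.2
    exact (hdiff u hu2.1 hu2.2).continuousAt.continuousWithinAt
  have hbound : ∀ u : ℂ, 0 ≤ u.im → u.im ≤ φ → ‖F (u - 2 * φ * I) / G u‖ ≤
      Real.exp ((|C + C'| + ‖F L2‖ / c1 + |K|) * Real.exp (ρ * |u.re|)) := by
    intro u h1 h2
    have he1 : 1 ≤ Real.exp (ρ * |u.re|) := Real.one_le_exp (by positivity)
    have hK2 : 0 ≤ ‖F L2‖ / c1 := by positivity
    have hA := abs_nonneg (C + C')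
    have hKa := abs_nonneg K
    have hle_exp : ∀ x : ℝ, x ≤ Real.exp x := by
      intro x; have := Real.add_one_le_exp x; linarith
    have hGpos : 0 < ‖G u‖ := norm_pos_iff.2 (hG0 u h1 h2)
    rw [norm_div]
    rcases le_or_gt u.re L2 with hr | hr
    · have h3 : ‖F (u - 2 * φ * I)‖ ≤ ‖F L2‖ := le_trans (hFs u) (hmono _ _ hr)
      have h4 : c1 ≤ ‖G u‖ := le_trans (hlow2 u hr) (hFleG u h1 h2)
      calc ‖F (u - 2 * φ * I)‖ / ‖G u‖ ≤ ‖F L2‖ / c1 := by gcongr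
        _ ≤ Real.exp (‖F L2‖ / c1) := hle_exp _
        _ ≤ _ := by
            apply Real.exp_le_exp.2
            nlinarith
    · rcases le_or_gt u.re (max L' 0) with hr2 | hr2
      · have h3 := hK u ⟨⟨hr.le, hr2⟩, ⟨h1, h2⟩⟩
        rw [norm_div] at h3
        calc ‖F (u - 2 * φ * I)‖ / ‖G u‖ ≤ K := h3
          _ ≤ |K| := le_abs_self K
          _ ≤ Real.exp |K| := hle_exp _
          _ ≤ _ := by
              apply Real.exp_le_exp.2
              nlinarith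
      · have hr3 : L' ≤ u.re := le_trans (le_max_left _ _) hr2.le
        have hr4 : 0 ≤ u.re := le_trans (le_max_right _ _) hr2.le
        have h3 : ‖F (u - 2 * φ * I)‖ ≤ Real.exp (C * Real.exp (ρ * u.re)) :=
          le_trans (hFs u) (hgrow _ hr4)
        have h4 : Real.exp (-(C' * Real.exp (ρ * u.re))) ≤ ‖G u‖ :=
          le_trans (hlow u hr3 (by rw [abs_of_nonneg h1]; exact h2)) (hFleG u h1 h2)
        calc ‖F (u - 2 * φ * I)‖ / ‖G u‖
            ≤ Real.exp (C * Real.exp (ρ * u.re)) / Real.exp (-(C' * Real.exp (ρ * u.re))) := by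
              gcongr
          _ = Real.exp ((C + C') * Real.exp (ρ * u.re)) := by
              rw [← Real.exp_sub]; congr 1; ring
          _ ≤ _ := by
              rw [abs_of_nonneg hr4] at he1 ⊢
              apply Real.exp_le_exp.2
              have h5 : C + C' ≤ |C + C'| + ‖F L2‖ / c1 + |K| := by
                have := le_abs_self (C + C'); linarith
              exact mul_le_mul_of_nonneg_right h5 (by linarith)
  have hPL : ∀ u : ℂ, 0 ≤ u.im → u.im ≤ φ → ‖F (u - 2 * φ * I) / G u‖ ≤ 1 := by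
    intro u h1 h2
    refine PhragmenLindelof.horizontal_strip (f := fun u => F (u - 2 * φ * I) / G u)
      (a := 0) (b := φ) ?_ ?_ ?_ ?_ h1 h2
    · apply DifferentiableOn.diffContOnCl
      intro v hv
      obtain ⟨h3, h4⟩ := hstrip v hv
      exact (hdiff v h3 h4).differentiableWithinAt
    · refine ⟨ρ, ?_, |C + C'| + ‖F L2‖ / c1 + |K|, ?_⟩
      · rw [sub_zero, lt_div_iff₀ hφ]; exact hρφ
      · apply Asymptotics.IsBigO.of_bound 1
        filter_upwards [mem_inf_of_right (mem_principal_self (im ⁻¹' Ioo 0 φ))] with v hv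
        rw [one_mul, Real.norm_of_nonneg (Real.exp_pos _).le]
        exact hbound v hv.1.le hv.2.le
    · intro v hv
      have h3 : ‖F v‖ = ‖G v‖ := hFeqG v (by rw [hv]) (by rw [hv]; exact hφ.le)
        (by rw [gz_im_exp, hv]; simp)
      have h4 : ((v.re : ℝ) : ℂ) = v := by
        apply Complex.ext <;> simp [hv]
      have h5 := hFs v
      rw [h4, h3] at h5
      rw [norm_div]
      exact div_le_one_of_le₀ h5 (norm_nonneg _)
    · intro v hv
      have h3 : ‖F v‖ = ‖G v‖ := hFeqG v (by rw [hv]; exact hφ.le) (by rw [hv])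
        (by rw [gz_im_exp, hv, hsφ]; simp)
      have h4 : v - 2 * φ * I = (starRingEnd ℂ) v := by
        apply Complex.ext
        · simp
        · simp [hv]; ring
      rw [norm_div, h4, hsym, RCLike.norm_conj, h3]
      exact div_self_le_one _
  intro u h1 h2
  have h3 := hPL u h1 h2
  rw [norm_div] at h3
  have hGpos : 0 < ‖G u‖ := norm_pos_iff.2 (hG0 u h1 h2)
  rwa [div_le_one hGpos] at h3



theorem gzb_norm (a : ℕ → ℝ) (h0 : ∀ k, 0 ≤ a k) (k : ℕ) (u : ℂ) :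
    ‖(a k : ℂ) * exp ((k : ℂ) * u)‖ = a k * Real.exp ((k : ℝ) * u.re) := by
  rw [norm_mul, Complex.norm_real, Real.norm_of_nonneg (h0 k), Complex.norm_exp]
  congr 2
  simp

theorem gzb_sum (a : ℕ → ℝ) (h0 : ∀ k, 0 ≤ a k) (hs : Sm a) (u : ℂ) :
    Summable (fun k : ℕ => (a k : ℂ) * exp ((k : ℂ) * u)) := by
  refine Summable.of_norm ?_
  simp only [gzb_norm a h0]
  exact hs u.re

theorem gzb_sm (a : ℕ → ℝ) (h0 : ∀ k, 0 ≤ a k) (hs : Sm a) : Sm (fun k => (k : ℝ) * a k) := by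
  intro x
  refine Summable.of_nonneg_of_le (fun k => ?_) (fun k => ?_) (hs (x + 1))
  · exact mul_nonneg (mul_nonneg (Nat.cast_nonneg k) (h0 k)) (Real.exp_nonneg _)
  · have h1 : (k : ℝ) ≤ Real.exp k := by
      have := Real.add_one_le_exp (k : ℝ)
      linarith
    have e : Real.exp ((k : ℝ) * (x + 1)) = Real.exp k * Real.exp ((k : ℝ) * x) := by
      rw [← Real.exp_add]
      congr 1
      ring
    rw [e]
    have h2 : 0 ≤ a k * Real.exp ((k : ℝ) * x) := mul_nonneg (h0 k) (Real.exp_nonneg _)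
    calc (k : ℝ) * a k * Real.exp ((k : ℝ) * x) = k * (a k * Real.exp ((k : ℝ) * x)) := by ring
      _ ≤ Real.exp k * (a k * Real.exp ((k : ℝ) * x)) := mul_le_mul_of_nonneg_right h1 h2
      _ = _ := by ring

theorem gzb_deriv (a : ℕ → ℝ) (h0 : ∀ k, 0 ≤ a k) (hs : Sm a) (u : ℂ) :
    HasDerivAt (Fn a) (Fn (fun k => (k : ℝ) * a k) u) u := by
  have h0' : ∀ k : ℕ, 0 ≤ (fun k : ℕ => (k : ℝ) * a k) k := fun k => mul_nonneg (Nat.cast_nonneg k) (h0 k)
  have hs' := gzb_sm a h0 hs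
  refine hasDerivAt_tsum_of_isPreconnected (t := {z : ℂ | z.re < u.re + 1}) (y₀ := u)
    (g := fun (k : ℕ) z => (a k : ℂ) * exp ((k : ℂ) * z))
    (g' := fun (k : ℕ) z => (((fun k : ℕ => (k : ℝ) * a k) k : ℝ) : ℂ) * exp ((k : ℂ) * z))
    (hs' (u.re + 1)) (isOpen_lt Complex.continuous_re continuous_const)
    (convex_halfSpace_re_lt (u.re + 1)).isPreconnected ?_ ?_ ?_ (gzb_sum a h0 hs u) ?_
  · intro n y _
    have h1 : HasDerivAt (fun z : ℂ => (n : ℂ) * z) (n : ℂ) y := by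
      simpa using (hasDerivAt_id y).const_mul (n : ℂ)
    have h2 := h1.cexp.const_mul (a n : ℂ)
    have e : (((fun k : ℕ => (k : ℝ) * a k) n : ℝ) : ℂ) * exp ((n : ℂ) * y) =
        (a n : ℂ) * (exp ((n : ℂ) * y) * (n : ℂ)) := by
      push_cast
      ring
    rw [e]
    exact h2
  · intro n y hy
    rw [gzb_norm _ h0']
    refine mul_le_mul_of_nonneg_left ?_ (h0' n)
    rw [Real.exp_le_exp]
    exact mul_le_mul_of_nonneg_left (le_of_lt hy) (Nat.cast_nonneg n)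
  · show u.re < u.re + 1
    linarith
  · show u.re < u.re + 1
    linarith

theorem gzb_real (a : ℕ → ℝ) (x : ℝ) :
    Fn a x = ((∑' k : ℕ, a k * Real.exp ((k : ℝ) * x) : ℝ) : ℂ) := by
  unfold Fn
  rw [Complex.ofReal_tsum]
  refine tsum_congr (fun k => ?_)
  push_cast
  rfl

theorem gzb_nonneg (a : ℕ → ℝ) (h0 : ∀ k, 0 ≤ a k) (x : ℝ) :
    0 ≤ ∑' k : ℕ, a k * Real.exp ((k : ℝ) * x) :=
  tsum_nonneg (fun k => mul_nonneg (h0 k) (Real.exp_nonneg _))

theorem gzb_normreal (a : ℕ → ℝ) (h0 : ∀ k, 0 ≤ a k) (x : ℝ) :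
    ‖Fn a x‖ = ∑' k : ℕ, a k * Real.exp ((k : ℝ) * x) := by
  rw [gzb_real, Complex.norm_real, Real.norm_of_nonneg (gzb_nonneg a h0 x)]

theorem basic (a : ℕ → ℝ) (h0 : ∀ k, 0 ≤ a k) (hs : Sm a) :
    Differentiable ℂ (Fn a) ∧ Sm (fun k => (k : ℝ) * a k) ∧
    (∀ u, deriv (Fn a) u = Fn (fun k => (k : ℝ) * a k) u) ∧
    (∀ u, Fn a ((starRingEnd ℂ) u) = (starRingEnd ℂ) (Fn a u)) ∧
    (∀ u, ‖Fn a u‖ ≤ ‖Fn a (u.re : ℂ)‖) ∧
    (∀ x : ℝ, Fn a x = ((∑' k : ℕ, a k * Real.exp ((k : ℝ) * x) : ℝ) : ℂ)) ∧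
    (∀ x : ℝ, a 0 ≤ (Fn a x).re ∧ (Fn a x).im = 0) ∧
    (∀ x y : ℝ, x ≤ y → ‖Fn a x‖ ≤ ‖Fn a y‖) := by
  refine ⟨fun u => (gzb_deriv a h0 hs u).differentiableAt, gzb_sm a h0 hs,
    fun u => (gzb_deriv a h0 hs u).deriv, ?_, ?_, gzb_real a, ?_, ?_⟩
  · intro u
    unfold Fn
    rw [Complex.conj_tsum]
    refine tsum_congr (fun k => ?_)
    rw [map_mul, ← Complex.exp_conj, map_mul, Complex.conj_ofReal, Complex.conj_natCast]
  · intro u
    rw [gzb_normreal a h0]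
    have h1 := norm_tsum_le_tsum_norm (f := fun k : ℕ => (a k : ℂ) * exp ((k : ℂ) * u)) (by
      simp only [gzb_norm a h0]
      exact hs u.re)
    simp only [gzb_norm a h0] at h1
    exact h1
  · intro x
    rw [gzb_real]
    refine ⟨?_, Complex.ofReal_im _⟩
    rw [Complex.ofReal_re]
    have h1 := (hs x).le_tsum 0 (fun k _ => mul_nonneg (h0 k) (Real.exp_nonneg _))
    simpa using h1
  · intro x y hxy
    rw [gzb_normreal a h0, gzb_normreal a h0]
    refine (hs x).tsum_le_tsum (fun k => ?_) (hs y)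
    refine mul_le_mul_of_nonneg_left ?_ (h0 k)
    rw [Real.exp_le_exp]
    exact mul_le_mul_of_nonneg_left hxy (Nat.cast_nonneg k)




theorem Fn_norm_term (a : ℕ → ℝ) (h0 : ∀ k, 0 ≤ a k) (u : ℂ) (k : ℕ) :
    ‖(a k : ℂ) * exp ((k : ℂ) * u)‖ = a k * Real.exp ((k : ℝ) * u.re) := by
  rw [norm_mul, Complex.norm_real, Real.norm_of_nonneg (h0 k), Complex.norm_exp]
  congr 2
  simp

theorem Fn_summable (a : ℕ → ℝ) (h0 : ∀ k, 0 ≤ a k) (hs : Sm a) (u : ℂ) :
    Summable fun k : ℕ => (a k : ℂ) * exp ((k : ℂ) * u) := by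
  refine Summable.of_norm ?_
  simp only [Fn_norm_term a h0]
  exact hs u.re

theorem deriv_shift (a : ℕ → ℝ) (h0 : ∀ k, 0 ≤ a k) (hs : Sm a) (m : ℕ) (hm : 1 ≤ m)
    (hz : ∀ j, 1 ≤ j → j < m → a j = 0)
    (hderiv : ∀ u, deriv (Fn a) u = Fn (fun k => (k : ℝ) * a k) u)
    (hsd : Sm (fun k => (k : ℝ) * a k)) :
    Sm (sh m a) ∧ (∀ u, deriv (Fn a) u = exp ((m : ℂ) * u) * Fn (sh m a) u) := by
  constructor
  · intro x
    have h1 := (summable_nat_add_iff m).2 (hsd x)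
    have h2 := h1.mul_left (Real.exp (-(m : ℝ) * x))
    refine h2.congr fun k => ?_
    have h3 : Real.exp (-(m : ℝ) * x) * Real.exp (((k + m : ℕ) : ℝ) * x) =
        Real.exp ((k : ℝ) * x) := by
      rw [← Real.exp_add]
      congr 1
      push_cast
      ring
    show Real.exp (-(m : ℝ) * x) * (((k + m : ℕ) : ℝ) * a (k + m) *
      Real.exp (((k + m : ℕ) : ℝ) * x)) = ((k + m : ℕ) : ℝ) * a (k + m) * Real.exp ((k : ℝ) * x)
    rw [← h3]
    ring
  · intro u
    rw [hderiv u]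
    have hn : ∀ k : ℕ, 0 ≤ (k : ℝ) * a k := fun k => mul_nonneg (Nat.cast_nonneg k) (h0 k)
    have h1 := Fn_summable (fun k => (k : ℝ) * a k) hn hsd u
    have h2 := h1.sum_add_tsum_nat_add m
    unfold Fn
    rw [← h2]
    have h3 : ∑ i ∈ Finset.range m,
        ((((fun k : ℕ => (k : ℝ) * a k) i : ℝ) : ℂ) * exp ((i : ℂ) * u)) = 0 := by
      refine Finset.sum_eq_zero fun i hi => ?_
      have hi' := Finset.mem_range.1 hi
      rcases Nat.eq_zero_or_pos i with h | h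
      · subst h
        simp
      · simp [hz i h hi']
    rw [h3, zero_add, ← tsum_mul_left]
    refine tsum_congr fun k => ?_
    have h4 : exp (((k + m : ℕ) : ℂ) * u) = exp ((m : ℂ) * u) * exp ((k : ℂ) * u) := by
      rw [← Complex.exp_add]
      congr 1
      push_cast
      ring
    rw [h4]
    show ((((k + m : ℕ) : ℝ) * a (k + m) : ℝ) : ℂ) * (exp ((m : ℂ) * u) * exp ((k : ℂ) * u)) =
      exp ((m : ℂ) * u) * (((((k + m : ℕ) : ℝ) * a (k + m) : ℝ) : ℂ) * exp ((k : ℂ) * u))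
    ring

theorem at_neg_inf (a : ℕ → ℝ) (h0 : ∀ k, 0 ≤ a k) (hs : Sm a) :
    ∀ ε : ℝ, 0 < ε → ∃ S0 : ℝ, ∀ u : ℂ, u.re ≤ S0 → ‖Fn a u - a 0‖ ≤ ε := by
  intro ε hε
  have hA : Summable fun k : ℕ => a (k + 1) := by
    have h1 := (summable_nat_add_iff 1).2 (hs 0)
    refine h1.congr fun k => ?_
    simp
  set A : ℝ := ∑' k : ℕ, a (k + 1) with hAdef
  have hA0 : 0 ≤ A := tsum_nonneg fun k => h0 _
  refine ⟨min 0 (Real.log (ε / (A + 1))), fun u hu => ?_⟩
  have hu0 : u.re ≤ 0 := hu.trans (min_le_left _ _)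
  have hul : u.re ≤ Real.log (ε / (A + 1)) := hu.trans (min_le_right _ _)
  have hexp : Real.exp u.re ≤ ε / (A + 1) := by
    rw [← Real.exp_log (show 0 < ε / (A + 1) by positivity)]
    exact Real.exp_le_exp.2 hul
  have h1 := Fn_summable a h0 hs u
  have h2 := h1.sum_add_tsum_nat_add 1
  have h3 : Fn a u - a 0 = ∑' k : ℕ, (a (k + 1) : ℂ) * exp (((k + 1 : ℕ) : ℂ) * u) := by
    unfold Fn
    rw [← h2]
    simp
  have hle : ∀ k : ℕ, ‖(a (k + 1) : ℂ) * exp (((k + 1 : ℕ) : ℂ) * u)‖ ≤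
      a (k + 1) * Real.exp u.re := by
    intro k
    rw [Fn_norm_term a h0 u (k + 1)]
    refine mul_le_mul_of_nonneg_left (Real.exp_le_exp.2 ?_) (h0 _)
    push_cast
    nlinarith [Nat.cast_nonneg (α := ℝ) k]
  have hsum : Summable fun k : ℕ => ‖(a (k + 1) : ℂ) * exp (((k + 1 : ℕ) : ℂ) * u)‖ :=
    Summable.of_nonneg_of_le (fun _ => norm_nonneg _) hle (hA.mul_right _)
  rw [h3]
  calc ‖∑' k : ℕ, (a (k + 1) : ℂ) * exp (((k + 1 : ℕ) : ℂ) * u)‖
      ≤ ∑' k : ℕ, ‖(a (k + 1) : ℂ) * exp (((k + 1 : ℕ) : ℂ) * u)‖ := norm_tsum_le_tsum_norm hsum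
    _ ≤ ∑' k : ℕ, a (k + 1) * Real.exp u.re := hsum.tsum_le_tsum hle (hA.mul_right _)
    _ = A * Real.exp u.re := by rw [tsum_mul_right]
    _ ≤ A * (ε / (A + 1)) := mul_le_mul_of_nonneg_left hexp hA0
    _ ≤ ε := by
      rw [mul_div_assoc', div_le_iff₀ (by positivity)]
      nlinarith

theorem growth_shift (a : ℕ → ℝ) (h0 : ∀ k, 0 ≤ a k) (hs : Sm a) (m : ℕ) (hm : 1 ≤ m) (ρ C : ℝ)
    (hρ : 0 < ρ)
    (hg : ∀ x : ℝ, 0 ≤ x → ‖Fn a x‖ ≤ Real.exp (C * Real.exp (ρ * x))) :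
    ∃ C' : ℝ, ∀ x : ℝ, 0 ≤ x → ‖Fn (sh m a) x‖ ≤ Real.exp (C' * Real.exp (ρ * x)) := by
  refine ⟨C * Real.exp ρ, fun x hx => ?_⟩
  have hsh : ∀ k, 0 ≤ sh m a k := fun k => mul_nonneg (Nat.cast_nonneg _) (h0 _)
  have h1 := hg (x + 1) (by linarith)
  have h2 : ‖Fn a ((x + 1 : ℝ) : ℂ)‖ = ∑' k : ℕ, a k * Real.exp ((k : ℝ) * (x + 1)) := by
    have h3 : Fn a ((x + 1 : ℝ) : ℂ) = ((∑' k : ℕ, a k * Real.exp ((k : ℝ) * (x + 1)) : ℝ) : ℂ) := by
      unfold Fn
      rw [Complex.ofReal_tsum]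
      refine tsum_congr fun k => ?_
      push_cast
      rfl
    rw [h3, Complex.norm_real, Real.norm_of_nonneg]
    exact tsum_nonneg fun k => mul_nonneg (h0 k) (Real.exp_pos _).le
  have hle : ∀ k : ℕ, ‖(sh m a k : ℂ) * exp ((k : ℂ) * (x : ℂ))‖ ≤
      a (k + m) * Real.exp (((k + m : ℕ) : ℝ) * (x + 1)) := by
    intro k
    rw [Fn_norm_term (sh m a) hsh (x : ℂ) k, Complex.ofReal_re]
    show ((k + m : ℕ) : ℝ) * a (k + m) * Real.exp ((k : ℝ) * x) ≤ _
    have h4 : ((k + m : ℕ) : ℝ) ≤ Real.exp ((k + m : ℕ) : ℝ) := by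
      have := Real.add_one_le_exp ((k + m : ℕ) : ℝ)
      linarith
    have h5 : Real.exp ((k : ℝ) * x) ≤ Real.exp (((k + m : ℕ) : ℝ) * x) := by
      refine Real.exp_le_exp.2 (mul_le_mul_of_nonneg_right ?_ hx)
      push_cast
      linarith [Nat.cast_nonneg (α := ℝ) m]
    have h6 : Real.exp (((k + m : ℕ) : ℝ) * (x + 1)) =
        Real.exp ((k + m : ℕ) : ℝ) * Real.exp (((k + m : ℕ) : ℝ) * x) := by
      rw [← Real.exp_add]
      congr 1
      ring
    rw [h6]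
    calc ((k + m : ℕ) : ℝ) * a (k + m) * Real.exp ((k : ℝ) * x)
        = a (k + m) * (((k + m : ℕ) : ℝ) * Real.exp ((k : ℝ) * x)) := by ring
      _ ≤ a (k + m) * (Real.exp ((k + m : ℕ) : ℝ) * Real.exp (((k + m : ℕ) : ℝ) * x)) :=
        mul_le_mul_of_nonneg_left (mul_le_mul h4 h5 (Real.exp_pos _).le (Real.exp_pos _).le)
          (h0 _)
  have hs1 := hs (x + 1)
  have hs2 := (summable_nat_add_iff m).2 hs1
  have hsum : Summable fun k : ℕ => ‖(sh m a k : ℂ) * exp ((k : ℂ) * (x : ℂ))‖ :=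
    Summable.of_nonneg_of_le (fun _ => norm_nonneg _) hle hs2
  have h7 := hs1.sum_add_tsum_nat_add m
  have h8 : 0 ≤ ∑ i ∈ Finset.range m, a i * Real.exp ((i : ℝ) * (x + 1)) :=
    Finset.sum_nonneg fun i _ => mul_nonneg (h0 i) (Real.exp_pos _).le
  calc ‖Fn (sh m a) (x : ℂ)‖
      ≤ ∑' k : ℕ, ‖(sh m a k : ℂ) * exp ((k : ℂ) * (x : ℂ))‖ := norm_tsum_le_tsum_norm hsum
    _ ≤ ∑' k : ℕ, a (k + m) * Real.exp (((k + m : ℕ) : ℝ) * (x + 1)) :=
        hsum.tsum_le_tsum hle hs2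
    _ ≤ ∑' k : ℕ, a k * Real.exp ((k : ℝ) * (x + 1)) := by
        rw [← h7]
        linarith
    _ = ‖Fn a ((x + 1 : ℝ) : ℂ)‖ := h2.symm
    _ ≤ Real.exp (C * Real.exp (ρ * (x + 1))) := h1
    _ = Real.exp (C * Real.exp ρ * Real.exp (ρ * x)) := by
        congr 1
        rw [mul_assoc, ← Real.exp_add]
        congr 2
        ring




theorem a4_real (a : ℕ → ℝ) (x : ℝ) :
    Fn a (x : ℂ) = ((∑' k : ℕ, a k * Real.exp ((k : ℝ) * x) : ℝ) : ℂ) := by
  unfold Fn
  rw [Complex.ofReal_tsum]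
  apply tsum_congr
  intro k
  push_cast
  rfl

theorem W_tendsto (a : ℕ → ℝ) (h0 : ∀ k, 0 ≤ a k) (hs : Sm a) (hpos : 0 < a 0)
    (hinf : ∀ N, ∃ k, N ≤ k ∧ 0 < a k)
    (hderiv : ∀ u, deriv (Fn a) u = Fn (fun k => (k : ℝ) * a k) u)
    (hsd : Sm (fun k => (k : ℝ) * a k)) :
    Tendsto (fun x : ℝ => ‖W (Fn a) (x : ℂ)‖) atTop atTop := by
  rw [tendsto_atTop]
  intro b
  obtain ⟨N, hN⟩ := exists_nat_ge b
  obtain ⟨k0, hk0, hak0⟩ := hinf (N + 1)
  set A : ℝ := ∑ k ∈ Finset.range N, a k with hA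
  have hA0 : 0 ≤ A := Finset.sum_nonneg (fun k _ => h0 k)
  have hev : ∀ᶠ x : ℝ in atTop, (N : ℝ) * A / a k0 ≤ Real.exp x :=
    Real.tendsto_exp_atTop.eventually_ge_atTop _
  filter_upwards [hev, eventually_ge_atTop (0 : ℝ)] with x hx hx0
  set F : ℝ := ∑' k : ℕ, a k * Real.exp ((k : ℝ) * x) with hF
  set D : ℝ := ∑' k : ℕ, ((k : ℝ) * a k) * Real.exp ((k : ℝ) * x) with hD
  have hFpos : 0 < F := by
    have h1 : a 0 * Real.exp (((0 : ℕ) : ℝ) * x) ≤ F :=
      (hs x).le_tsum 0 (fun j _ => mul_nonneg (h0 j) (Real.exp_pos _).le)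
    have h2 : 0 < a 0 * Real.exp (((0 : ℕ) : ℝ) * x) := mul_pos hpos (Real.exp_pos _)
    linarith
  have hDN : (N : ℝ) * F ≤ D := by
    have hsum : Summable (fun k : ℕ => ((k : ℝ) * a k) * Real.exp ((k : ℝ) * x)
        - (N : ℝ) * (a k * Real.exp ((k : ℝ) * x))) := (hsd x).sub ((hs x).mul_left _)
    have htot : ∑' k : ℕ, (((k : ℝ) * a k) * Real.exp ((k : ℝ) * x)
        - (N : ℝ) * (a k * Real.exp ((k : ℝ) * x))) = D - N * F := by
      rw [(hsd x).tsum_sub ((hs x).mul_left _), tsum_mul_left]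
    have hle := hsum.sum_le_tsum (insert k0 (Finset.range N)) (by
      intro k hk
      have hkN : N ≤ k := by
        by_contra hcon
        exact hk (Finset.mem_insert_of_mem (Finset.mem_range.2 (by omega)))
      have h1 : (N : ℝ) ≤ k := by exact_mod_cast hkN
      have h2 : 0 ≤ a k * Real.exp ((k : ℝ) * x) := mul_nonneg (h0 k) (Real.exp_pos _).le
      nlinarith)
    rw [htot, Finset.sum_insert (by rw [Finset.mem_range]; omega)] at hle
    have hk0' : (N : ℝ) + 1 ≤ k0 := by exact_mod_cast hk0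
    have hex : Real.exp x * Real.exp ((N : ℝ) * x) ≤ Real.exp ((k0 : ℝ) * x) := by
      rw [← Real.exp_add]
      apply Real.exp_le_exp.2
      nlinarith
    have h3 : (N : ℝ) * A ≤ a k0 * Real.exp x := by
      rw [div_le_iff₀ hak0] at hx
      linarith
    have h4 : a k0 * (Real.exp x * Real.exp ((N : ℝ) * x)) ≤
        ((k0 : ℝ) * a k0) * Real.exp ((k0 : ℝ) * x)
          - (N : ℝ) * (a k0 * Real.exp ((k0 : ℝ) * x)) := by
      have h5 : a k0 * (Real.exp x * Real.exp ((N : ℝ) * x)) ≤ a k0 * Real.exp ((k0 : ℝ) * x) :=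
        mul_le_mul_of_nonneg_left hex hak0.le
      have h6 : 0 ≤ a k0 * Real.exp ((k0 : ℝ) * x) := mul_nonneg hak0.le (Real.exp_pos _).le
      nlinarith
    have h7 : -((N : ℝ) * A * Real.exp ((N : ℝ) * x)) ≤
        ∑ k ∈ Finset.range N, (((k : ℝ) * a k) * Real.exp ((k : ℝ) * x)
          - (N : ℝ) * (a k * Real.exp ((k : ℝ) * x))) := by
      rw [hA, Finset.mul_sum, Finset.sum_mul, ← Finset.sum_neg_distrib]
      apply Finset.sum_le_sum
      intro k hk
      have hkN : (k : ℝ) ≤ N := by exact_mod_cast (Finset.mem_range.1 hk).le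
      have h8 : Real.exp ((k : ℝ) * x) ≤ Real.exp ((N : ℝ) * x) :=
        Real.exp_le_exp.2 (mul_le_mul_of_nonneg_right hkN hx0)
      have h9 : 0 ≤ ((k : ℝ) * a k) * Real.exp ((k : ℝ) * x) :=
        mul_nonneg (mul_nonneg (Nat.cast_nonneg _) (h0 k)) (Real.exp_pos _).le
      have h10 : (N : ℝ) * (a k * Real.exp ((k : ℝ) * x)) ≤ (N : ℝ) * (a k * Real.exp ((N : ℝ) * x)) :=
        mul_le_mul_of_nonneg_left (mul_le_mul_of_nonneg_left h8 (h0 k)) (Nat.cast_nonneg _)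
      have e : (N : ℝ) * a k * Real.exp ((N : ℝ) * x) = (N : ℝ) * (a k * Real.exp ((N : ℝ) * x)) := by
        ring
      rw [e]
      linarith
    have h11 : (N : ℝ) * A * Real.exp ((N : ℝ) * x) ≤ a k0 * Real.exp x * Real.exp ((N : ℝ) * x) :=
      mul_le_mul_of_nonneg_right h3 (Real.exp_pos _).le
    have e2 : a k0 * (Real.exp x * Real.exp ((N : ℝ) * x))
        = a k0 * Real.exp x * Real.exp ((N : ℝ) * x) := by ring
    rw [e2] at h4
    linarith
  have hW : W (Fn a) (x : ℂ) = ((D / F : ℝ) : ℂ) := by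
    unfold W
    rw [hderiv, a4_real, a4_real, Complex.ofReal_div]
  rw [hW, Complex.norm_real, Real.norm_eq_abs]
  have h12 : (N : ℝ) ≤ D / F := by rw [le_div_iff₀ hFpos]; exact hDN
  exact hN.trans (h12.trans (le_abs_self _))




namespace SDAux

theorem deriv_nonpos {h : ℝ → ℝ} {d φ : ℝ} (hφ : 0 < φ) (hd : HasDerivAt h d φ)
    (h0 : ∀ y, 0 ≤ y → y ≤ φ → h φ ≤ h y) : d ≤ 0 := by
  have h1 := (hasDerivWithinAt_iff_tendsto_slope' (s := Iio φ) (by simp)).1
    hd.hasDerivWithinAt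
  refine le_of_tendsto h1 ?_
  have h2 : Ioo 0 φ ∈ 𝓝[<] φ := Ioo_mem_nhdsLT hφ
  filter_upwards [h2] with y hy
  rw [slope_def_field]
  apply div_nonpos_of_nonneg_of_nonpos
  · linarith [h0 y hy.1.le hy.2.le]
  · linarith [hy.2]

theorem normSq_deriv {K : ℝ → ℂ} {K' : ℂ} {y : ℝ} (h : HasDerivAt K K' y) :
    HasDerivAt (fun t => ‖K t‖ ^ 2) (2 * ((starRingEnd ℂ) (K y) * K').re) y := by
  have := h.norm_sq
  rw [Complex.inner, mul_comm K'] at this
  exact this

theorem re_eq {z d : ℂ} (hz : z ≠ 0) :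
    ((starRingEnd ℂ) z * (d * I)).re = -(‖z‖ ^ 2 * (d / z).im) := by
  have h1 : d = (d / z) * z := (div_mul_cancel₀ d hz).symm
  have h2 : (starRingEnd ℂ) z * (d * I) = ((‖z‖ ^ 2 : ℝ) : ℂ) * ((d / z) * I) := by
    have h3 : ((‖z‖ ^ 2 : ℝ) : ℂ) = z * (starRingEnd ℂ) z := by
      rw [Complex.mul_conj, Complex.normSq_eq_norm_sq]
    rw [h3]
    conv_lhs => rw [h1]
    ring
  rw [h2, Complex.re_ofReal_mul, Complex.mul_I_re]
  ring

end SDAux

theorem strip_deriv (F G : ℂ → ℂ) (φ : ℝ) (hφ : 0 < φ) (hF : Differentiable ℂ F)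
    (hsym : ∀ u : ℂ, F ((starRingEnd ℂ) u) = (starRingEnd ℂ) (F u))
    (hG : DifferentiableOn ℂ G {u : ℂ | -φ < u.im ∧ u.im < 2 * φ})
    (hG0 : ∀ u : ℂ, 0 ≤ u.im → u.im ≤ φ → G u ≠ 0)
    (htop : ∀ x : ℝ, F (x + φ * I) ≠ 0)
    (heq : ∀ x : ℝ, ‖F (x + φ * I)‖ = ‖G (x + φ * I)‖)
    (hPL : ∀ u : ℂ, 0 ≤ u.im → u.im ≤ φ → ‖F (u - 2 * φ * I)‖ ≤ ‖G u‖) :
    ∀ x : ℝ, 0 ≤ (W F (x + φ * I)).im + (W G (x + φ * I)).im := by
  intro x
  set p : ℂ := x + φ * I with hp
  have hpim : p.im = φ := by simp [hp]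
  have hconj : (starRingEnd ℂ) p = x + (φ - 2 * φ : ℝ) * I := by
    rw [hp]
    simp only [map_add, map_mul, Complex.conj_ofReal, Complex.conj_I]
    push_cast
    ring
  have hopen : IsOpen {u : ℂ | -φ < u.im ∧ u.im < 2 * φ} :=
    (isOpen_lt continuous_const Complex.continuous_im).inter
      (isOpen_lt Complex.continuous_im continuous_const)
  have hGd : HasDerivAt G (deriv G p) p := by
    have hmem : p ∈ {u : ℂ | -φ < u.im ∧ u.im < 2 * φ} := by
      show -φ < p.im ∧ p.im < 2 * φ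
      rw [hpim]
      constructor <;> linarith
    exact ((hG p hmem).differentiableAt (hopen.mem_nhds hmem)).hasDerivAt
  -- the line
  have hline : ∀ c : ℝ, HasDerivAt (fun y : ℝ => (x : ℂ) + ((y - c : ℝ) : ℂ) * I) I φ := by
    intro c
    have h1 : HasDerivAt (fun y : ℝ => ((y - c : ℝ) : ℂ)) (1 : ℂ) φ := by
      have := ((hasDerivAt_id φ).sub_const c).ofReal_comp
      simpa using this
    have := (h1.mul_const I).const_add (x : ℂ)
    simpa using this
  have k1 : HasDerivAt (fun y : ℝ => G ((x : ℂ) + ((y - 0 : ℝ) : ℂ) * I)) (deriv G p * I) φ := by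
    have e : (x : ℂ) + ((φ - 0 : ℝ) : ℂ) * I = p := by rw [hp, sub_zero]
    have := HasDerivAt.comp (h₂ := G) (h := fun y : ℝ => (x : ℂ) + ((y - 0 : ℝ) : ℂ) * I) φ
      (by rw [e]; exact hGd) (hline 0)
    exact this
  have k2 : HasDerivAt (fun y : ℝ => F ((x : ℂ) + ((y - 2 * φ : ℝ) : ℂ) * I))
      (deriv F ((starRingEnd ℂ) p) * I) φ := by
    have := HasDerivAt.comp (h₂ := F) (h := fun y : ℝ => (x : ℂ) + ((y - 2 * φ : ℝ) : ℂ) * I) φ
      (by rw [← hconj]; exact (hF _).hasDerivAt) (hline (2 * φ))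
    exact this
  have k3 := (SDAux.normSq_deriv k1).sub (SDAux.normSq_deriv k2)
  have hz1 : (x : ℂ) + ((φ - 0 : ℝ) : ℂ) * I = p := by rw [hp, sub_zero]
  have hFc : ‖F ((starRingEnd ℂ) p)‖ = ‖F p‖ := by rw [hsym, RCLike.norm_conj]
  have k4 := SDAux.deriv_nonpos hφ k3 (by
    intro y hy0 hy1
    simp only [Pi.sub_apply]
    rw [hz1, ← hconj, hFc, heq x, sub_self, sub_nonneg]
    apply pow_le_pow_left₀ (norm_nonneg _)
    have h1 := hPL ((x : ℂ) + ((y - 0 : ℝ) : ℂ) * I) (by simpa using hy0) (by simpa using hy1)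
    have e : (x : ℂ) + ((y - 0 : ℝ) : ℂ) * I - 2 * φ * I = (x : ℂ) + ((y - 2 * φ : ℝ) : ℂ) * I := by
      push_cast
      ring
    rwa [e] at h1)
  rw [hz1, ← hconj] at k4
  have hGp : G p ≠ 0 := hG0 p (by rw [hpim]; exact hφ.le) (by rw [hpim])
  have hFp : F p ≠ 0 := htop x
  have hFp' : F ((starRingEnd ℂ) p) ≠ 0 := by
    rw [hsym]
    exact (map_ne_zero _).2 hFp
  rw [SDAux.re_eq hGp, SDAux.re_eq hFp', hFc] at k4
  have hdF : deriv F ((starRingEnd ℂ) p) = (starRingEnd ℂ) (deriv F p) := by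
    have h1 := (hF p).hasDerivAt.conj_conj
    have h2 : (starRingEnd ℂ) ∘ F ∘ (starRingEnd ℂ) = F := by
      funext u
      simp only [Function.comp]
      rw [hsym, Complex.conj_conj]
    rw [h2] at h1
    exact h1.deriv
  have h5 : (deriv F ((starRingEnd ℂ) p) / F ((starRingEnd ℂ) p)).im = -(W F p).im := by
    rw [hdF, hsym, ← map_div₀, Complex.conj_im]
    rfl
  rw [h5] at k4
  have h6 : ‖F p‖ = ‖G p‖ := heq x
  rw [h6] at k4
  have h7 : 0 < ‖G p‖ ^ 2 := by positivity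
  have h8 : (deriv G p / G p).im = (W G p).im := rfl
  rw [h8] at k4
  by_contra hneg
  rw [not_le] at hneg
  have := mul_neg_of_pos_of_neg h7 hneg
  nlinarith





lemma C2a_exp_eq {φ : ℝ} (hφ : 0 < φ) {u v : ℂ}
    (h : exp (((Real.pi / φ : ℝ) : ℂ) * u) = exp (((Real.pi / φ : ℝ) : ℂ) * v)) :
    ∃ k : ℤ, u.re = v.re ∧ u.im = v.im + 2 * φ * k := by
  rw [Complex.exp_eq_exp_iff_exists_int] at h
  obtain ⟨k, hk⟩ := h
  have hpi := Real.pi_pos
  have hs : (Real.pi / φ) ≠ 0 := by positivity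
  refine ⟨k, ?_, ?_⟩
  · have h1 := congrArg Complex.re hk
    simp only [Complex.add_re, Complex.re_ofReal_mul] at h1
    have h2 : ((k : ℂ) * (2 * (Real.pi : ℂ) * I)).re = 0 := by
      simp
    rw [h2, add_zero] at h1
    exact mul_left_cancel₀ hs h1
  · have h1 := congrArg Complex.im hk
    simp only [Complex.add_im, Complex.im_ofReal_mul] at h1
    have h2 : ((k : ℂ) * (2 * (Real.pi : ℂ) * I)).im = k * (2 * Real.pi) := by
      simp
    rw [h2] at h1
    have h3 : Real.pi / φ * u.im = Real.pi / φ * (v.im + 2 * φ * k) := by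
      rw [h1]; field_simp
    exact mul_left_cancel₀ hs h3

lemma C2a_ne_conj {φ : ℝ} (hφ : 0 < φ) {u w : ℂ} (hu0 : 0 ≤ u.im) (hu1 : u.im ≤ φ)
    (hw0 : 0 < w.im) (hw1 : w.im < φ) :
    exp (((Real.pi / φ : ℝ) : ℂ) * u) - exp (((Real.pi / φ : ℝ) : ℂ) * (starRingEnd ℂ) w) ≠ 0 := by
  intro h
  obtain ⟨k, _, hk⟩ := C2a_exp_eq hφ (sub_eq_zero.1 h)
  rw [Complex.conj_im] at hk
  have h1 : (0 : ℝ) < φ * k := by nlinarith
  have h2 : φ * k < φ * 1 := by nlinarith
  have h3 : (0 : ℝ) < k := by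
    by_contra hcon
    push Not at hcon
    nlinarith
  have h4 : (k : ℝ) < 1 := lt_of_mul_lt_mul_left h2 hφ.le
  have h5 : (0 : ℤ) < k := by exact_mod_cast h3
  have h6 : k < (1 : ℤ) := by exact_mod_cast h4
  omega

lemma C2a_eq_iff {φ : ℝ} (hφ : 0 < φ) {u w : ℂ} (hu0 : 0 ≤ u.im) (hu1 : u.im ≤ φ)
    (hw0 : 0 < w.im) (hw1 : w.im < φ) :
    exp (((Real.pi / φ : ℝ) : ℂ) * u) - exp (((Real.pi / φ : ℝ) : ℂ) * w) = 0 ↔ u = w := by
  constructor
  · intro h
    obtain ⟨k, hre, hk⟩ := C2a_exp_eq hφ (sub_eq_zero.1 h)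
    have h3 : (k : ℝ) < 1 := by
      by_contra hcon
      push Not at hcon
      nlinarith
    have h4 : (-1 : ℝ) < k := by
      by_contra hcon
      push Not at hcon
      nlinarith
    have h5 : k < (1 : ℤ) := by exact_mod_cast h3
    have h6 : (-1 : ℤ) < k := by exact_mod_cast h4
    have h7 : k = 0 := by omega
    subst h7
    apply Complex.ext hre
    simpa using hk
  · rintro rfl
    exact sub_self _

lemma C2a_prod {s : ℂ} (g : ℂ → ℂ) (u : ℂ) (ws : List ℂ)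
    (h : ∀ w ∈ ws, exp (s * u) - g w ≠ 0) :
    DifferentiableAt ℂ (fun v => (ws.map (fun w => exp (s * v) - g w)).prod) u ∧
    (ws.map (fun w => exp (s * u) - g w)).prod ≠ 0 ∧
    logDeriv (fun v => (ws.map (fun w => exp (s * v) - g w)).prod) u =
      (ws.map (fun w => s * exp (s * u) / (exp (s * u) - g w))).sum := by
  induction ws with
  | nil =>
    refine ⟨by simp, by simp, ?_⟩
    simp [logDeriv_apply]
  | cons w ws ih =>
    obtain ⟨h1, h2, h3⟩ := ih (fun w' hw' => h w' (List.mem_cons_of_mem _ hw'))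
    have hw := h w List.mem_cons_self
    have hd : DifferentiableAt ℂ (fun v : ℂ => exp (s * v) - g w) u := by fun_prop
    have e1 : (fun v => ((w :: ws).map (fun w => exp (s * v) - g w)).prod) =
        fun v => (exp (s * v) - g w) * (ws.map (fun w => exp (s * v) - g w)).prod := by
      ext v
      rw [List.map_cons, List.prod_cons]
    refine ⟨?_, ?_, ?_⟩
    · rw [e1]
      exact hd.mul h1
    · rw [List.map_cons, List.prod_cons]
      exact mul_ne_zero hw h2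
    · rw [e1, logDeriv_mul u hw h2 hd h1, h3, List.map_cons, List.sum_cons]
      congr 1
      rw [logDeriv_apply]
      congr 1
      have h4 : HasDerivAt (fun v : ℂ => exp (s * v) - g w) (exp (s * u) * (s * 1)) u :=
        (((hasDerivAt_id u).const_mul s).cexp).sub_const _
      rw [h4.deriv]
      ring

lemma C2a_norm (r : ℂ) (hr : (starRingEnd ℂ) r = r) (s : ℝ) (ws : List ℂ) :
    ‖(ws.map (fun w => r - exp ((s : ℂ) * (starRingEnd ℂ) w))).prod‖ =
      ‖(ws.map (fun w => r - exp ((s : ℂ) * w))).prod‖ := by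
  induction ws with
  | nil => rfl
  | cons w ws ih =>
    rw [List.map_cons, List.prod_cons, List.map_cons, List.prod_cons, norm_mul, norm_mul, ih]
    congr 1
    rw [← RCLike.norm_conj (r - exp ((s : ℂ) * w)), map_sub, hr, ← Complex.exp_conj, map_mul,
      Complex.conj_ofReal]

theorem W_rel (F G : ℂ → ℂ) (φ : ℝ) (ws : List ℂ) (hφ : 0 < φ) (hF : Differentiable ℂ F)
    (hws : ∀ w ∈ ws, 0 < w.im ∧ w.im < φ)
    (hG : DifferentiableOn ℂ G {u : ℂ | -φ < u.im ∧ u.im < 2 * φ})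
    (hG0 : ∀ u : ℂ, 0 ≤ u.im → u.im ≤ φ → G u ≠ 0)
    (hFG : ∀ u : ℂ, -φ < u.im → u.im < 2 * φ →
        F u * (ws.map (fun w => exp (((Real.pi / φ : ℝ) : ℂ) * u) -
            exp (((Real.pi / φ : ℝ) : ℂ) * (starRingEnd ℂ) w))).prod =
        G u * (ws.map (fun w => exp (((Real.pi / φ : ℝ) : ℂ) * u) -
            exp (((Real.pi / φ : ℝ) : ℂ) * w))).prod) :
    (∀ u : ℂ, 0 ≤ u.im → u.im ≤ φ → (F u = 0 ↔ u ∈ ws)) ∧
    (∀ u : ℂ, 0 ≤ u.im → u.im ≤ φ → F u ≠ 0 →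
      W F u = W G u + (ws.map (fun w => bW φ w u)).sum) ∧
    (∀ x : ℝ, ‖F x‖ = ‖G x‖ ∧ ‖F (x + φ * I)‖ = ‖G (x + φ * I)‖) := by
  have hiff : ∀ u : ℂ, 0 ≤ u.im → u.im ≤ φ → (F u = 0 ↔ u ∈ ws) := by
    intro u hu0 hu1
    have hL := (C2a_prod (s := ((Real.pi / φ : ℝ) : ℂ))
      (fun w => exp (((Real.pi / φ : ℝ) : ℂ) * (starRingEnd ℂ) w)) u ws
      (fun w hw => C2a_ne_conj hφ hu0 hu1 (hws w hw).1 (hws w hw).2)).2.1
    have h1 := hFG u (by linarith) (by linarith)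
    have h2 : F u = 0 ↔ (ws.map (fun w => exp (((Real.pi / φ : ℝ) : ℂ) * u) -
            exp (((Real.pi / φ : ℝ) : ℂ) * w))).prod = 0 := by
      constructor
      · intro h
        rw [h, zero_mul] at h1
        exact (mul_eq_zero.1 h1.symm).resolve_left (hG0 u hu0 hu1)
      · intro h
        rw [h, mul_zero] at h1
        exact (mul_eq_zero.1 h1).resolve_right hL
    rw [h2, List.prod_eq_zero_iff, List.mem_map]
    constructor
    · rintro ⟨w, hw, h3⟩
      rw [(C2a_eq_iff hφ hu0 hu1 (hws w hw).1 (hws w hw).2).1 h3]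
      exact hw
    · intro h
      exact ⟨u, h, sub_self _⟩
  refine ⟨hiff, ?_, ?_⟩
  · intro u hu0 hu1 hFu
    have hunot : u ∉ ws := fun h => hFu ((hiff u hu0 hu1).2 h)
    obtain ⟨l1, l2, l3⟩ := C2a_prod (s := ((Real.pi / φ : ℝ) : ℂ))
      (fun w => exp (((Real.pi / φ : ℝ) : ℂ) * (starRingEnd ℂ) w)) u ws
      (fun w hw => C2a_ne_conj hφ hu0 hu1 (hws w hw).1 (hws w hw).2)
    obtain ⟨r1, r2, r3⟩ := C2a_prod (s := ((Real.pi / φ : ℝ) : ℂ))
      (fun w => exp (((Real.pi / φ : ℝ) : ℂ) * w)) u ws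
      (fun w hw h => hunot (by
        rw [(C2a_eq_iff hφ hu0 hu1 (hws w hw).1 (hws w hw).2).1 h]
        exact hw))
    have hopen : IsOpen {u : ℂ | -φ < u.im ∧ u.im < 2 * φ} := by
      apply IsOpen.inter
      · exact isOpen_lt continuous_const Complex.continuous_im
      · exact isOpen_lt Complex.continuous_im continuous_const
    have hmem : u ∈ {u : ℂ | -φ < u.im ∧ u.im < 2 * φ} := ⟨by linarith, by linarith⟩
    have hGd : DifferentiableAt ℂ G u := hG.differentiableAt (hopen.mem_nhds hmem)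
    have hG0u := hG0 u hu0 hu1
    have heq : (fun v => F v * (ws.map (fun w => exp (((Real.pi / φ : ℝ) : ℂ) * v) -
            exp (((Real.pi / φ : ℝ) : ℂ) * (starRingEnd ℂ) w))).prod) =ᶠ[𝓝 u]
        (fun v => G v * (ws.map (fun w => exp (((Real.pi / φ : ℝ) : ℂ) * v) -
            exp (((Real.pi / φ : ℝ) : ℂ) * w))).prod) := by
      filter_upwards [hopen.mem_nhds hmem] with v hv
      exact hFG v hv.1 hv.2
    have hld : logDeriv (fun v => F v * (ws.map (fun w => exp (((Real.pi / φ : ℝ) : ℂ) * v) -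
            exp (((Real.pi / φ : ℝ) : ℂ) * (starRingEnd ℂ) w))).prod) u =
        logDeriv (fun v => G v * (ws.map (fun w => exp (((Real.pi / φ : ℝ) : ℂ) * v) -
            exp (((Real.pi / φ : ℝ) : ℂ) * w))).prod) u := by
      rw [logDeriv_apply, logDeriv_apply, heq.deriv_eq, heq.eq_of_nhds]
    rw [logDeriv_mul u hFu l2 (hF u) l1, logDeriv_mul u hG0u r2 hGd r1, l3, r3] at hld
    have hsum : ∀ ws : List ℂ, (ws.map (fun w => bW φ w u)).sum =
        (ws.map (fun w => ((Real.pi / φ : ℝ) : ℂ) * exp (((Real.pi / φ : ℝ) : ℂ) * u) /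
          (exp (((Real.pi / φ : ℝ) : ℂ) * u) - exp (((Real.pi / φ : ℝ) : ℂ) * w)))).sum -
        (ws.map (fun w => ((Real.pi / φ : ℝ) : ℂ) * exp (((Real.pi / φ : ℝ) : ℂ) * u) /
          (exp (((Real.pi / φ : ℝ) : ℂ) * u) -
            exp (((Real.pi / φ : ℝ) : ℂ) * (starRingEnd ℂ) w)))).sum := by
      intro ws
      induction ws with
      | nil => simp
      | cons w ws ih =>
        rw [List.map_cons, List.sum_cons, ih, List.map_cons, List.sum_cons, List.map_cons,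
          List.sum_cons]
        have h0 : bW φ w u = ((Real.pi / φ : ℝ) : ℂ) * exp (((Real.pi / φ : ℝ) : ℂ) * u) /
          (exp (((Real.pi / φ : ℝ) : ℂ) * u) - exp (((Real.pi / φ : ℝ) : ℂ) * w)) -
          ((Real.pi / φ : ℝ) : ℂ) * exp (((Real.pi / φ : ℝ) : ℂ) * u) /
          (exp (((Real.pi / φ : ℝ) : ℂ) * u) -
            exp (((Real.pi / φ : ℝ) : ℂ) * (starRingEnd ℂ) w)) := rfl
        rw [h0]
        ring
    rw [hsum]
    have hWF : logDeriv F u = W F u := rfl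
    have hWG : logDeriv G u = W G u := rfl
    rw [hWF, hWG] at hld
    linear_combination hld
  · intro x
    have key : ∀ u : ℂ, 0 ≤ u.im → u.im ≤ φ →
        (starRingEnd ℂ) (exp (((Real.pi / φ : ℝ) : ℂ) * u)) = exp (((Real.pi / φ : ℝ) : ℂ) * u) →
        ‖F u‖ = ‖G u‖ := by
      intro u hu0 hu1 hr
      have hL := (C2a_prod (s := ((Real.pi / φ : ℝ) : ℂ))
        (fun w => exp (((Real.pi / φ : ℝ) : ℂ) * (starRingEnd ℂ) w)) u ws
        (fun w hw => C2a_ne_conj hφ hu0 hu1 (hws w hw).1 (hws w hw).2)).2.1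
      have h1 := congrArg norm (hFG u (by linarith) (by linarith))
      rw [norm_mul, norm_mul, ← C2a_norm _ hr (Real.pi / φ) ws] at h1
      exact mul_right_cancel₀ (norm_ne_zero_iff.2 hL) h1
    constructor
    · apply key
      · simp
      · simp [hφ.le]
      · rw [← Complex.exp_conj, map_mul, Complex.conj_ofReal, Complex.conj_ofReal]
    · apply key
      · simp [hφ.le]
      · simp
      · have h1 : ((Real.pi / φ : ℝ) : ℂ) * (x + φ * I) = ((Real.pi / φ * x : ℝ) : ℂ) + Real.pi * I := by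
          have : (φ : ℂ) ≠ 0 := by exact_mod_cast hφ.ne'
          push_cast
          field_simp
        rw [h1, Complex.exp_add, Complex.exp_pi_mul_I, map_mul, ← Complex.exp_conj,
          Complex.conj_ofReal]
        simp




/-- auxiliary density -/
noncomputable def aJ (s p q x : ℝ) : ℝ := s * Real.exp (s * x) * q / ((Real.exp (s * x) - p) ^ 2 + q ^ 2)

theorem aJ_cont (s p q : ℝ) (hq : 0 < q) : Continuous (aJ s p q) := by
  unfold aJ
  refine Continuous.div (by fun_prop) (by fun_prop) (fun x => ?_)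
  have : 0 < q ^ 2 := by positivity
  have h2 : 0 ≤ (Real.exp (s * x) - p) ^ 2 := sq_nonneg _
  intro h; linarith

theorem aJ_nonneg (s p q : ℝ) (hs : 0 < s) (hq : 0 < q) (x : ℝ) : 0 ≤ aJ s p q x := by
  unfold aJ
  positivity

theorem aJ_int (s p q : ℝ) (hq : 0 < q) (S T : ℝ) : ∫ x in S..T, aJ s p q x ≤ Real.pi := by
  have hd : ∀ x, HasDerivAt (fun x => Real.arctan ((Real.exp (s * x) - p) / q)) (aJ s p q x) x := by
    intro x
    have h1 : HasDerivAt (fun x : ℝ => (Real.exp (s * x) - p) / q) (Real.exp (s * x) * s / q) x := by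
      have h2 : HasDerivAt (fun x : ℝ => s * x) s x := by
        simpa using (hasDerivAt_id x).const_mul s
      exact (h2.exp.sub_const p).div_const q
    refine h1.arctan.congr_deriv ?_
    unfold aJ
    have hq2 : (Real.exp (s * x) - p) ^ 2 + q ^ 2 ≠ 0 := by
      have : 0 < q ^ 2 := by positivity
      have h2 : 0 ≤ (Real.exp (s * x) - p) ^ 2 := sq_nonneg _
      intro h; linarith
    have hq3 : 1 + ((Real.exp (s * x) - p) / q) ^ 2 ≠ 0 := by positivity
    field_simp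
    ring
  rw [intervalIntegral.integral_eq_sub_of_hasDerivAt (fun x _ => hd x)
    ((aJ_cont s p q hq).intervalIntegrable _ _)]
  have h1 := Real.arctan_lt_pi_div_two ((Real.exp (s * T) - p) / q)
  have h2 := Real.neg_pi_div_two_lt_arctan ((Real.exp (s * S) - p) / q)
  linarith

theorem aux_im (s r : ℝ) (P : ℂ) :
    ((s : ℂ) * (r : ℂ) / ((r : ℂ) - P) - (s : ℂ) * (r : ℂ) / ((r : ℂ) - (starRingEnd ℂ) P)).im =
      2 * (s * r * P.im / ((r - P.re) ^ 2 + P.im ^ 2)) := by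
  have h1 : (s : ℂ) * (r : ℂ) / ((r : ℂ) - (starRingEnd ℂ) P) =
      (starRingEnd ℂ) ((s : ℂ) * (r : ℂ) / ((r : ℂ) - P)) := by
    rw [map_div₀, map_mul, map_sub, Complex.conj_ofReal, Complex.conj_ofReal]
  rw [h1, Complex.sub_im, Complex.conj_im, Complex.div_im, ← Complex.ofReal_mul,
    Complex.ofReal_im, Complex.ofReal_re, Complex.normSq_apply]
  simp only [Complex.sub_re, Complex.sub_im, Complex.ofReal_re, Complex.ofReal_im, zero_sub,
    zero_mul, zero_div]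
  have e : (r - P.re) * (r - P.re) + -P.im * -P.im = (r - P.re) ^ 2 + P.im ^ 2 := by ring
  rw [e]
  ring

theorem aux_conj (s : ℝ) (w : ℂ) : exp ((s : ℂ) * (starRingEnd ℂ) w) =
    (starRingEnd ℂ) (exp ((s : ℂ) * w)) := by
  rw [← Complex.exp_conj, map_mul, Complex.conj_ofReal]

theorem aux_Pim (φ : ℝ) (w : ℂ) (hφ : 0 < φ) (h1 : 0 < w.im) (h2 : w.im < φ) :
    0 < (exp (((Real.pi / φ : ℝ) : ℂ) * w)).im := by
  rw [Complex.exp_im]
  refine mul_pos (Real.exp_pos _) ?_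
  have e : (((Real.pi / φ : ℝ) : ℂ) * w).im = Real.pi / φ * w.im := by
    rw [Complex.im_ofReal_mul]
  rw [e]
  have hs : 0 < Real.pi / φ := div_pos Real.pi_pos hφ
  refine Real.sin_pos_of_pos_of_lt_pi (by positivity) ?_
  rw [div_mul_eq_mul_div, div_lt_iff₀ hφ]
  exact mul_lt_mul_of_pos_left h2 Real.pi_pos

theorem aux_real (φ : ℝ) (w : ℂ) (x : ℝ) : (bW φ w x).im =
    2 * aJ (Real.pi / φ) (exp (((Real.pi / φ : ℝ) : ℂ) * w)).re
      (exp (((Real.pi / φ : ℝ) : ℂ) * w)).im x := by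
  unfold bW aJ
  have e : exp (((Real.pi / φ : ℝ) : ℂ) * (x : ℂ)) = ((Real.exp (Real.pi / φ * x) : ℝ) : ℂ) := by
    rw [Complex.ofReal_exp, Complex.ofReal_mul]
  rw [e, aux_conj, aux_im]

theorem aux_cW (φ : ℝ) (w : ℂ) (x : ℝ) : cW φ w x =
    aJ (Real.pi / φ) (-(exp (((Real.pi / φ : ℝ) : ℂ) * w)).re)
      (exp (((Real.pi / φ : ℝ) : ℂ) * w)).im x := by
  unfold cW aJ
  congr 1
  rw [← Complex.normSq_eq_norm_sq, Complex.normSq_apply]
  simp only [Complex.add_re, Complex.add_im, Complex.ofReal_re, Complex.ofReal_im, zero_add]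
  ring

theorem aux_top (φ : ℝ) (hφ : 0 < φ) (w : ℂ) (x : ℝ) : (bW φ w (x + φ * I)).im =
    -(2 * cW φ w x) := by
  rw [aux_cW]
  unfold bW aJ
  have e : exp (((Real.pi / φ : ℝ) : ℂ) * ((x : ℂ) + (φ : ℂ) * I)) =
      ((-Real.exp (Real.pi / φ * x) : ℝ) : ℂ) := by
    have h1 : ((Real.pi / φ : ℝ) : ℂ) * ((x : ℂ) + (φ : ℂ) * I) =
        ((Real.pi / φ * x : ℝ) : ℂ) + (Real.pi : ℂ) * I := by
      have h2 : ((Real.pi / φ : ℝ) : ℂ) * (φ : ℂ) = (Real.pi : ℂ) := by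
        rw [← Complex.ofReal_mul, div_mul_cancel₀ _ hφ.ne']
      rw [mul_add, ← mul_assoc, h2, Complex.ofReal_mul]
    rw [h1, Complex.exp_add, Complex.exp_pi_mul_I, Complex.ofReal_neg, Complex.ofReal_exp]
    ring
  rw [e, aux_conj, aux_im]
  ring

theorem aux_norm (s : ℝ) (hs : 0 < s) (E P Q : ℂ) (hPQ : ‖Q‖ = ‖P‖) (hE : ‖E‖ ≠ ‖P‖) :
    ‖(s : ℂ) * E / (E - P) - (s : ℂ) * E / (E - Q)‖ ≤ s * ‖E‖ * (2 * ‖P‖) / (‖E‖ - ‖P‖) ^ 2 := by
  have h1 : E - P ≠ 0 := by
    intro h; apply hE; rw [sub_eq_zero.1 h]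
  have h2 : E - Q ≠ 0 := by
    intro h; apply hE; rw [sub_eq_zero.1 h, hPQ]
  have e : (s : ℂ) * E / (E - P) - (s : ℂ) * E / (E - Q) = (s : ℂ) * E * (P - Q) /
      ((E - P) * (E - Q)) := by
    field_simp
    ring
  rw [e, norm_div, norm_mul, norm_mul, norm_mul, Complex.norm_real, Real.norm_eq_abs,
    abs_of_pos hs]
  have h3 : |‖E‖ - ‖P‖| ≤ ‖E - P‖ := abs_norm_sub_norm_le E P
  have h4 : |‖E‖ - ‖P‖| ≤ ‖E - Q‖ := by
    rw [← hPQ]; exact abs_norm_sub_norm_le E Q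
  have h5 : ‖P - Q‖ ≤ 2 * ‖P‖ := by
    refine (norm_sub_le _ _).trans ?_
    rw [hPQ]; linarith
  have h6 : 0 < |‖E‖ - ‖P‖| := abs_pos.2 (sub_ne_zero.2 hE)
  have h7 : (‖E‖ - ‖P‖) ^ 2 ≤ ‖E - P‖ * ‖E - Q‖ := by
    rw [← sq_abs, sq]
    exact mul_le_mul h3 h4 h6.le (norm_nonneg _)
  have h8 : 0 < (‖E‖ - ‖P‖) ^ 2 := by rw [← sq_abs]; positivity
  exact div_le_div₀ (by positivity) (mul_le_mul_of_nonneg_left h5 (by positivity)) h8 h7

theorem bW_props (φ : ℝ) (w : ℂ) (hφ : 0 < φ) (h1 : 0 < w.im) (h2 : w.im < φ) :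
    (∀ x : ℝ, 0 ≤ (bW φ w x).im) ∧
    (∀ x : ℝ, (bW φ w (x + φ * I)).im = -(2 * cW φ w x)) ∧
    (∀ x : ℝ, 0 ≤ cW φ w x) ∧
    Continuous (fun x : ℝ => (bW φ w x).im) ∧
    Continuous (cW φ w) ∧
    (∃ C : ℝ, ∀ S T : ℝ, S ≤ T → (∫ x in S..T, (bW φ w x).im) + (∫ x in S..T, 2 * cW φ w x) ≤ C) ∧
    (∀ ε : ℝ, 0 < ε → ∃ L : ℝ, ∀ u : ℂ, L ≤ |u.re| → 0 ≤ u.im → u.im ≤ φ → ‖bW φ w u‖ ≤ ε) := by
  have hP := aux_Pim φ w hφ h1 h2
  have hs : 0 < Real.pi / φ := div_pos Real.pi_pos hφ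
  have eb : (fun x : ℝ => (bW φ w x).im) = fun x => 2 * aJ (Real.pi / φ)
      (exp (((Real.pi / φ : ℝ) : ℂ) * w)).re (exp (((Real.pi / φ : ℝ) : ℂ) * w)).im x :=
    funext (aux_real φ w)
  have ec : cW φ w = aJ (Real.pi / φ) (-(exp (((Real.pi / φ : ℝ) : ℂ) * w)).re)
      (exp (((Real.pi / φ : ℝ) : ℂ) * w)).im := funext (aux_cW φ w)
  refine ⟨?_, aux_top φ hφ w, ?_, ?_, ?_, ?_, ?_⟩
  · intro x
    rw [aux_real]
    exact mul_nonneg (by norm_num) (aJ_nonneg _ _ _ hs hP x)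
  · intro x
    rw [aux_cW]
    exact aJ_nonneg _ _ _ hs hP x
  · rw [eb]
    exact continuous_const.mul (aJ_cont _ _ _ hP)
  · rw [ec]
    exact aJ_cont _ _ _ hP
  · refine ⟨4 * Real.pi, fun S T _ => ?_⟩
    have e1 : (∫ x in S..T, (bW φ w x).im) = 2 * ∫ x in S..T, aJ (Real.pi / φ)
      (exp (((Real.pi / φ : ℝ) : ℂ) * w)).re (exp (((Real.pi / φ : ℝ) : ℂ) * w)).im x := by
      rw [← intervalIntegral.integral_const_mul]
      exact intervalIntegral.integral_congr (fun x _ => aux_real φ w x)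
    have e2 : (∫ x in S..T, 2 * cW φ w x) = 2 * ∫ x in S..T, aJ (Real.pi / φ)
      (-(exp (((Real.pi / φ : ℝ) : ℂ) * w)).re) (exp (((Real.pi / φ : ℝ) : ℂ) * w)).im x := by
      rw [← intervalIntegral.integral_const_mul, ec]
    rw [e1, e2]
    have h3 := aJ_int (Real.pi / φ) (exp (((Real.pi / φ : ℝ) : ℂ) * w)).re
      (exp (((Real.pi / φ : ℝ) : ℂ) * w)).im hP S T
    have h4 := aJ_int (Real.pi / φ) (-(exp (((Real.pi / φ : ℝ) : ℂ) * w)).re)
      (exp (((Real.pi / φ : ℝ) : ℂ) * w)).im hP S T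
    linarith
  · intro ε hε
    obtain ⟨P, hPdef⟩ : ∃ P : ℂ, P = exp (((Real.pi / φ : ℝ) : ℂ) * w) := ⟨_, rfl⟩
    obtain ⟨s, hsdef⟩ : ∃ s : ℝ, s = Real.pi / φ := ⟨_, rfl⟩
    obtain ⟨ρ, hρ⟩ : ∃ ρ : ℝ, ρ = ‖P‖ := ⟨_, rfl⟩
    have hρ0 : 0 < ρ := by
      rw [hρ, hPdef]; exact norm_pos_iff.2 (Complex.exp_ne_zero _)
    rw [← hsdef] at hs
    obtain ⟨K, hK⟩ : ∃ K : ℝ, K = 1 + 2 * ρ + 8 * s * ρ / ε + 2 / ρ + 8 * s / (ε * ρ) := ⟨_, rfl⟩
    have k1 : 0 ≤ 8 * s * ρ / ε := by positivity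
    have k2 : 0 ≤ 2 / ρ := by positivity
    have k3 : 0 ≤ 8 * s / (ε * ρ) := by positivity
    refine ⟨K / s, fun u hu _ _ => ?_⟩
    unfold bW
    rw [aux_conj, ← hPdef, ← hsdef]
    obtain ⟨E, hE⟩ : ∃ E : ℂ, E = exp ((s : ℂ) * u) := ⟨_, rfl⟩
    rw [← hE]
    have hEn : ‖E‖ = Real.exp (s * u.re) := by
      rw [hE, Complex.norm_exp, Complex.re_ofReal_mul]
    obtain ⟨r, hr⟩ : ∃ r : ℝ, r = ‖E‖ := ⟨_, rfl⟩
    have hr0 : 0 < r := by rw [hr, hEn]; exact Real.exp_pos _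
    have hPQ : ‖(starRingEnd ℂ) P‖ = ‖P‖ := RCLike.norm_conj P
    rcases le_total 0 u.re with hre | hre
    · rw [abs_of_nonneg hre, div_le_iff₀ hs] at hu
      have hrK : K ≤ r := by
        rw [hr, hEn]
        have := Real.add_one_le_exp (s * u.re)
        linarith
      have hr1 : 2 * ρ ≤ r := by linarith
      have hr2 : 8 * s * ρ ≤ ε * r := by
        have : 8 * s * ρ / ε ≤ r := by linarith
        rw [div_le_iff₀ hε] at this
        linarith
      have hne : ‖E‖ ≠ ‖P‖ := by rw [← hr, ← hρ]; intro h; linarith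
      refine (aux_norm s hs E P _ hPQ hne).trans ?_
      rw [← hr, ← hρ, div_le_iff₀ (by
        have : 0 < r - ρ := by linarith
        positivity)]
      have h3 : (r / 2) ^ 2 ≤ (r - ρ) ^ 2 := pow_le_pow_left₀ (by linarith) (by linarith) 2
      have h4 : ε * (r / 2) ^ 2 ≤ ε * (r - ρ) ^ 2 := mul_le_mul_of_nonneg_left h3 hε.le
      have h5 : 8 * s * ρ * r ≤ ε * r * r := mul_le_mul_of_nonneg_right hr2 hr0.le
      nlinarith
    · rw [abs_of_nonpos hre, div_le_iff₀ hs] at hu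
      have hrK : K * r ≤ 1 := by
        rw [hr, hEn]
        have h3 := Real.add_one_le_exp (-(s * u.re))
        have h4 : K ≤ Real.exp (-(s * u.re)) := by linarith
        calc K * Real.exp (s * u.re) ≤ Real.exp (-(s * u.re)) * Real.exp (s * u.re) :=
              mul_le_mul_of_nonneg_right h4 (Real.exp_pos _).le
          _ = 1 := by rw [← Real.exp_add]; simp
      have hr1 : 2 * r ≤ ρ := by
        have h3 : 2 / ρ * r ≤ K * r := mul_le_mul_of_nonneg_right (by linarith) hr0.le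
        have h4 : 2 / ρ * r ≤ 1 := h3.trans hrK
        rw [div_mul_eq_mul_div, div_le_iff₀ hρ0] at h4
        linarith
      have hr2 : 8 * s * r ≤ ε * ρ := by
        have h3 : 8 * s / (ε * ρ) * r ≤ K * r := mul_le_mul_of_nonneg_right (by linarith) hr0.le
        have h4 : 8 * s / (ε * ρ) * r ≤ 1 := h3.trans hrK
        rw [div_mul_eq_mul_div, div_le_iff₀ (by positivity)] at h4
        linarith
      have hne : ‖E‖ ≠ ‖P‖ := by rw [← hr, ← hρ]; intro h; linarith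
      refine (aux_norm s hs E P _ hPQ hne).trans ?_
      rw [← hr, ← hρ, div_le_iff₀ (by
        have : 0 < ρ - r := by linarith
        have h4 : (r - ρ) ^ 2 = (ρ - r) ^ 2 := by ring
        rw [h4]
        positivity)]
      have h3 : (ρ / 2) ^ 2 ≤ (ρ - r) ^ 2 := pow_le_pow_left₀ (by linarith) (by linarith) 2
      have h4 : ε * (ρ / 2) ^ 2 ≤ ε * (ρ - r) ^ 2 := mul_le_mul_of_nonneg_left h3 hε.le
      have h5 : 8 * s * r * ρ ≤ ε * ρ * ρ := mul_le_mul_of_nonneg_right hr2 hρ0.le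
      nlinarith

theorem cW_decay (θ : ℝ) (hθ : 0 < θ) (hθ' : θ ≤ Real.pi) (φ : ℝ) (hφ : 0 < φ) (hφθ : φ ≤ θ)
    (w : ℂ) (h1 : 0 < w.im) (h2 : w.im < φ) (x : ℝ) (hx : w.re + 2 ≤ x) :
    cW φ w x ≤ 16 * Real.exp (w.re - x) := by
  have hP := aux_Pim φ w hφ h1 h2
  have hs1 : 1 ≤ Real.pi / φ := by
    rw [le_div_iff₀ hφ]; linarith
  unfold cW
  obtain ⟨s, hsdef⟩ : ∃ s : ℝ, s = Real.pi / φ := ⟨_, rfl⟩
  rw [← hsdef] at hs1 hP ⊢
  obtain ⟨P, hPdef⟩ : ∃ P : ℂ, P = exp ((s : ℂ) * w) := ⟨_, rfl⟩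
  rw [← hPdef] at hP ⊢
  obtain ⟨t, ht⟩ : ∃ t : ℝ, t = x - w.re := ⟨_, rfl⟩
  have ht2 : 2 ≤ t := by rw [ht]; linarith
  have hPn : ‖P‖ = Real.exp (s * w.re) := by
    rw [hPdef, Complex.norm_exp, Complex.re_ofReal_mul]
  obtain ⟨X, hX⟩ : ∃ X : ℝ, X = Real.exp (s * x) := ⟨_, rfl⟩
  have hX0 : 0 < X := by rw [hX]; exact Real.exp_pos _
  have hPX : ‖P‖ = X * Real.exp (-(s * t)) := by
    rw [hPn, hX, ← Real.exp_add, ht]
    congr 1
    ring
  have hst : 2 ≤ s * t := by nlinarith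
  have hexp : Real.exp (-(s * t)) ≤ 1 / 4 := by
    rw [Real.exp_neg, inv_le_comm₀ (Real.exp_pos _) (by norm_num)]
    have h3 := Real.quadratic_le_exp_of_nonneg (show 0 ≤ s * t by linarith)
    norm_num
    nlinarith
  have hnorm : 3 / 4 * X ≤ ‖((Real.exp (s * x) : ℝ) : ℂ) + P‖ := by
    rw [← hX]
    have h3 : ‖(X : ℂ)‖ - ‖P‖ ≤ ‖(X : ℂ) + P‖ := by
      have := norm_sub_norm_le (X : ℂ) (-P)
      rwa [norm_neg, sub_neg_eq_add] at this
    rw [Complex.norm_real, Real.norm_eq_abs, abs_of_pos hX0, hPX] at h3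
    nlinarith
  have hq : P.im ≤ X * Real.exp (-(s * t)) := by
    rw [← hPX]; exact (le_abs_self _).trans (Complex.abs_im_le_norm P)
  rw [← hX]
  rw [← hX] at hnorm
  have h3 : s * X * P.im / ‖(X : ℂ) + P‖ ^ 2 ≤ s * X * (X * Real.exp (-(s * t))) / (3 / 4 * X) ^ 2 := by
    refine div_le_div₀ (by positivity) (mul_le_mul_of_nonneg_left hq (by positivity))
      (by positivity) (pow_le_pow_left₀ (by positivity) hnorm 2)
  refine h3.trans ?_
  have h4 : s * X * (X * Real.exp (-(s * t))) / (3 / 4 * X) ^ 2 = 16 / 9 * (s * Real.exp (-(s * t))) := by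
    field_simp
    ring
  rw [h4]
  have h5 : s * Real.exp (-(s * t)) ≤ Real.exp (-t) := by
    have h6 : s ≤ Real.exp ((s - 1) * t) := by
      have h7 := Real.add_one_le_exp ((s - 1) * t)
      nlinarith
    calc s * Real.exp (-(s * t)) ≤ Real.exp ((s - 1) * t) * Real.exp (-(s * t)) :=
          mul_le_mul_of_nonneg_right h6 (Real.exp_pos _).le
      _ = Real.exp (-t) := by rw [← Real.exp_add]; congr 1; ring
  have h6 : Real.exp (w.re - x) = Real.exp (-t) := by rw [ht]; congr 1; ring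
  rw [h6]
  have h7 := Real.exp_pos (-t)
  nlinarith




theorem j6341_diff (G : ℂ → ℂ) (φ : ℝ) (hφ : 0 < φ)
    (hG : DifferentiableOn ℂ G {u : ℂ | -φ < u.im ∧ u.im < 2 * φ})
    (hG0 : ∀ u : ℂ, 0 ≤ u.im → u.im ≤ φ → G u ≠ 0) (u : ℂ) (h0 : 0 ≤ u.im) (h1 : u.im ≤ φ) :
    DifferentiableAt ℂ (W G) u := by
  have hU : IsOpen {u : ℂ | -φ < u.im ∧ u.im < 2 * φ} :=
    (isOpen_lt continuous_const Complex.continuous_im).inter
      (isOpen_lt Complex.continuous_im continuous_const)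
  have hu : u ∈ {u : ℂ | -φ < u.im ∧ u.im < 2 * φ} := ⟨by linarith, by linarith⟩
  have h2 : DifferentiableAt ℂ G u := (hG u hu).differentiableAt (hU.mem_nhds hu)
  have h3 : DifferentiableAt ℂ (deriv G) u := (hG.deriv hU u hu).differentiableAt (hU.mem_nhds hu)
  exact h3.div h2 (hG0 u h0 h1)

theorem j6341_hor (G : ℂ → ℂ) (φ : ℝ) (hφ : 0 < φ)
    (hG : DifferentiableOn ℂ G {u : ℂ | -φ < u.im ∧ u.im < 2 * φ})
    (hG0 : ∀ u : ℂ, 0 ≤ u.im → u.im ≤ φ → G u ≠ 0) (S T c : ℝ) (h0 : 0 ≤ c) (h1 : c ≤ φ) :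
    IntervalIntegrable (fun x : ℝ => W G (x + c * I)) MeasureTheory.volume S T := by
  apply Continuous.intervalIntegrable
  rw [continuous_iff_continuousAt]
  intro x
  have him : ((x : ℂ) + c * I).im = c := by simp
  have h := (j6341_diff G φ hφ hG hG0 ((x : ℂ) + c * I) (by rw [him]; exact h0)
    (by rw [him]; exact h1)).continuousAt
  exact ContinuousAt.comp (f := fun x : ℝ => (x : ℂ) + c * I) h (by fun_prop)

theorem j6341_ver (G : ℂ → ℂ) (φ : ℝ) (hφ : 0 < φ)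
    (hG : DifferentiableOn ℂ G {u : ℂ | -φ < u.im ∧ u.im < 2 * φ})
    (hG0 : ∀ u : ℂ, 0 ≤ u.im → u.im ≤ φ → G u ≠ 0) (s : ℝ) :
    IntervalIntegrable (fun y : ℝ => W G (s + y * I)) MeasureTheory.volume 0 φ := by
  apply ContinuousOn.intervalIntegrable
  intro y hy
  rw [uIcc_of_le hφ.le] at hy
  apply ContinuousAt.continuousWithinAt
  have him : ((s : ℂ) + y * I).im = y := by simp
  have h := (j6341_diff G φ hφ hG hG0 ((s : ℂ) + y * I) (by rw [him]; exact hy.1)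
    (by rw [him]; exact hy.2)).continuousAt
  exact ContinuousAt.comp (f := fun y : ℝ => (s : ℂ) + y * I) h (by fun_prop)

theorem j6341_im {f : ℝ → ℂ} {a b : ℝ} (hf : IntervalIntegrable f MeasureTheory.volume a b) :
    (∫ x in a..b, f x).im = ∫ x in a..b, (f x).im :=
  (Complex.imCLM.intervalIntegral_comp_comm hf).symm

theorem j6341_re {f : ℝ → ℂ} {a b : ℝ} (hf : IntervalIntegrable f MeasureTheory.volume a b) :
    (∫ x in a..b, f x).re = ∫ x in a..b, (f x).re :=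
  (Complex.reCLM.intervalIntegral_comp_comm hf).symm

theorem cauchy_W (G : ℂ → ℂ) (φ : ℝ) (hφ : 0 < φ)
    (hG : DifferentiableOn ℂ G {u : ℂ | -φ < u.im ∧ u.im < 2 * φ})
    (hG0 : ∀ u : ℂ, 0 ≤ u.im → u.im ≤ φ → G u ≠ 0) (S T : ℝ) (hST : S ≤ T) :
    psi G φ T - psi G φ S =
      (∫ x in S..T, (W G (x + φ * I)).im) - ∫ x in S..T, (W G x).im := by
  have h := Complex.integral_boundary_rect_eq_zero_of_differentiableOn (W G) ((S : ℂ) + (0 : ℝ) * I)
    ((T : ℂ) + (φ : ℝ) * I) (by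
      intro u hu
      rw [mem_reProdIm] at hu
      have e1 : ((S : ℂ) + (0 : ℝ) * I).im = 0 := by simp
      have e2 : ((T : ℂ) + (φ : ℝ) * I).im = φ := by simp
      rw [e1, e2, uIcc_of_le hφ.le] at hu
      exact (j6341_diff G φ hφ hG hG0 u hu.2.1 hu.2.2).differentiableWithinAt)
  have e1 : ((S : ℂ) + (0 : ℝ) * I).im = 0 := by simp
  have e2 : ((T : ℂ) + (φ : ℝ) * I).im = φ := by simp
  have e3 : ((S : ℂ) + (0 : ℝ) * I).re = S := by simp
  have e4 : ((T : ℂ) + (φ : ℝ) * I).re = T := by simp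
  rw [e1, e2, e3, e4] at h
  have h2 := congrArg Complex.im h
  rw [Complex.sub_im, Complex.add_im, Complex.sub_im, smul_eq_mul, smul_eq_mul, Complex.I_mul_im,
    Complex.I_mul_im, Complex.zero_im, j6341_im (j6341_hor G φ hφ hG hG0 S T 0 le_rfl hφ.le),
    j6341_im (j6341_hor G φ hφ hG hG0 S T φ hφ.le le_rfl),
    j6341_re (j6341_ver G φ hφ hG hG0 T), j6341_re (j6341_ver G φ hφ hG hG0 S)] at h2
  have e5 : (∫ x in S..T, (W G (x + (0 : ℝ) * I)).im) = ∫ x in S..T, (W G x).im := by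
    simp
  rw [e5] at h2
  unfold psi
  linarith








theorem pb_im (f : ℂ → ℂ) (ws : List ℂ) :
    ((ws.map f).sum).im = (ws.map (fun w => (f w).im)).sum := by
  induction ws with
  | nil => simp
  | cons w ws ih => simp [ih]

theorem pb_sums (φ : ℝ) (hφ : 0 < φ) (ws : List ℂ) (hws : ∀ w ∈ ws, 0 < w.im ∧ w.im < φ) :
    Continuous (fun x : ℝ => (ws.map (fun w => (bW φ w x).im)).sum) ∧
    Continuous (fun x : ℝ => (ws.map (fun w => cW φ w x)).sum) ∧
    (∃ C : ℝ, ∀ S T : ℝ, S ≤ T → (∫ x in S..T, (ws.map (fun w => (bW φ w x).im)).sum) +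
      (∫ x in S..T, 2 * (ws.map (fun w => cW φ w x)).sum) ≤ C) ∧
    (∀ ε : ℝ, 0 < ε → ∃ L : ℝ, ∀ u : ℂ, L ≤ |u.re| → 0 ≤ u.im → u.im ≤ φ →
      ‖(ws.map (fun w => bW φ w u)).sum‖ ≤ ε) ∧
    (∀ x : ℝ, 0 ≤ (ws.map (fun w => (bW φ w x).im)).sum) ∧
    (∀ x : ℝ, 0 ≤ (ws.map (fun w => cW φ w x)).sum) ∧
    (∀ x : ℝ, (ws.map (fun w => (bW φ w (x + φ * I)).im)).sum = -(2 * (ws.map (fun w => cW φ w x)).sum)) := by
  induction ws with
  | nil =>
    refine ⟨by simpa using continuous_const, by simpa using continuous_const, ⟨0, by simp⟩, ?_, by simp, by simp, by simp⟩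
    intro ε hε
    exact ⟨0, fun u _ _ _ => by simpa using hε.le⟩
  | cons w ws ih =>
    obtain ⟨i1, i2, ⟨C, i3⟩, i4, i5, i6, i7⟩ := ih (fun w' hw' => hws w' (List.mem_cons_of_mem _ hw'))
    obtain ⟨h1, h2⟩ := hws w List.mem_cons_self
    obtain ⟨b1, b2, b3, b4, b5, ⟨C', b6⟩, b7⟩ := bW_props φ w hφ h1 h2
    simp only [List.map_cons, List.sum_cons]
    refine ⟨b4.add i1, b5.add i2, ⟨C' + C, fun S T hST => ?_⟩, fun ε hε => ?_, fun x => add_nonneg (b1 x) (i5 x),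
      fun x => add_nonneg (b3 x) (i6 x), fun x => ?_⟩
    · rw [intervalIntegral.integral_add (b4.intervalIntegrable _ _) (i1.intervalIntegrable _ _)]
      simp only [mul_add]
      have q1 : Continuous (fun x : ℝ => 2 * cW φ w x) := continuous_const.mul b5
      have q2 : Continuous (fun x : ℝ => 2 * (ws.map (fun w => cW φ w x)).sum) := continuous_const.mul i2
      rw [intervalIntegral.integral_add (q1.intervalIntegrable _ _) (q2.intervalIntegrable _ _)]
      linarith [b6 S T hST, i3 S T hST]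
    · obtain ⟨L1, hL1⟩ := b7 (ε / 2) (by linarith)
      obtain ⟨L2, hL2⟩ := i4 (ε / 2) (by linarith)
      refine ⟨max L1 L2, fun u hu h3 h4 => ?_⟩
      refine (norm_add_le _ _).trans ?_
      linarith [hL1 u ((le_max_left _ _).trans hu) h3 h4, hL2 u ((le_max_right _ _).trans hu) h3 h4]
    · rw [b2, i7]; ring

theorem pb_bound (ws : List ℂ) : ∃ L : ℝ, ∀ w ∈ ws, |w.re| < L := by
  induction ws with
  | nil => exact ⟨0, by simp⟩
  | cons w ws ih =>
    obtain ⟨L, hL⟩ := ih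
    refine ⟨max L (|w.re| + 1), fun w' hw' => ?_⟩
    rcases List.mem_cons.1 hw' with rfl | h
    · exact lt_of_lt_of_le (by linarith) (le_max_right _ _)
    · exact lt_of_lt_of_le (hL w' h) (le_max_left _ _)

theorem pb_contF (F : ℂ → ℂ) (hF : Differentiable ℂ F) : ContinuousOn (W F) {u | F u ≠ 0} := by
  have h1 : Continuous (deriv F) := (hF.contDiff (n := 1)).continuous_deriv le_rfl
  exact h1.continuousOn.div hF.continuous.continuousOn fun u hu => hu

theorem pb_contG (G : ℂ → ℂ) (φ : ℝ) (hφ : 0 < φ)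
    (hG : DifferentiableOn ℂ G {u : ℂ | -φ < u.im ∧ u.im < 2 * φ})
    (hG0 : ∀ u : ℂ, 0 ≤ u.im → u.im ≤ φ → G u ≠ 0) :
    ContinuousOn (W G) {u | 0 ≤ u.im ∧ u.im ≤ φ} := by
  have ho : IsOpen {u : ℂ | -φ < u.im ∧ u.im < 2 * φ} :=
    (isOpen_lt continuous_const continuous_im).inter (isOpen_lt continuous_im continuous_const)
  have hsub : {u : ℂ | 0 ≤ u.im ∧ u.im ≤ φ} ⊆ {u : ℂ | -φ < u.im ∧ u.im < 2 * φ} := by
    rintro u ⟨h1, h2⟩
    exact ⟨by linarith, by linarith⟩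
  exact ((hG.deriv ho).continuousOn.mono hsub).div (hG.continuousOn.mono hsub) fun u hu => hG0 u hu.1 hu.2



theorem phi_bounds (F G : ℂ → ℂ) (φ : ℝ) (ws : List ℂ) (hφ : 0 < φ) (hF : Differentiable ℂ F)
    (hre : ∀ x : ℝ, F x ≠ 0 ∧ (W F x).im = 0)
    (htop : ∀ x : ℝ, F (x + φ * I) ≠ 0)
    (hws : ∀ w ∈ ws, 0 < w.im ∧ w.im < φ)
    (hG : DifferentiableOn ℂ G {u : ℂ | -φ < u.im ∧ u.im < 2 * φ})
    (hG0 : ∀ u : ℂ, 0 ≤ u.im → u.im ≤ φ → G u ≠ 0)
    (hFG : ∀ u : ℂ, -φ < u.im → u.im < 2 * φ →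
        F u * (ws.map (fun w => exp (((Real.pi / φ : ℝ) : ℂ) * u) -
            exp (((Real.pi / φ : ℝ) : ℂ) * (starRingEnd ℂ) w))).prod =
        G u * (ws.map (fun w => exp (((Real.pi / φ : ℝ) : ℂ) * u) -
            exp (((Real.pi / φ : ℝ) : ℂ) * w))).prod)
    (hD : ∀ x : ℝ, 0 ≤ (W F (x + φ * I)).im + (W G (x + φ * I)).im) :
    (∀ ε : ℝ, 0 < ε → ∃ L : ℝ, ∀ S T : ℝ, S ≤ -L → L ≤ T → -ε ≤ Phi F φ S T) ∧
    (∃ C L : ℝ, ∀ S T : ℝ, S ≤ -L → L ≤ T → Phi F φ S T ≤ C) ∧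
    (∀ x : ℝ, -(ws.map (fun w => cW φ w x)).sum ≤ (W F (x + φ * I)).im) := by
  obtain ⟨w1, w2, -⟩ := W_rel F G φ ws hφ hF hws hG hG0 hFG
  obtain ⟨s1, s2, ⟨C, s3⟩, s4, s5, s6, s7⟩ := pb_sums φ hφ ws hws
  have cF := pb_contF F hF
  have cG := pb_contG G φ hφ hG hG0
  -- real line
  have r1 : ∀ x : ℝ, (W G x).im = -(ws.map (fun w => (bW φ w x).im)).sum := by
    intro x
    have h := w2 x (by simp) (by simpa using hφ.le) (hre x).1
    have h2 := congrArg Complex.im h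
    rw [(hre x).2, Complex.add_im, pb_im] at h2
    linarith
  -- top line
  have t1 : ∀ x : ℝ, (W G (x + φ * I)).im = (W F (x + φ * I)).im + 2 * (ws.map (fun w => cW φ w x)).sum := by
    intro x
    have h := w2 (x + φ * I) (by simpa using hφ.le) (by simp) (htop x)
    have h2 := congrArg Complex.im h
    rw [Complex.add_im, pb_im, s7] at h2
    linarith
  have third : ∀ x : ℝ, -(ws.map (fun w => cW φ w x)).sum ≤ (W F (x + φ * I)).im := by
    intro x
    have h1 := hD x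
    rw [t1] at h1
    linarith
  have labs : ∀ x : ℝ, |(W F (x + φ * I)).im| ≤ (W G (x + φ * I)).im := by
    intro x
    rw [abs_le]
    have h1 := hD x
    have h2 := t1 x
    have h3 := s6 x
    constructor <;> linarith
  have kFt : Continuous (fun x : ℝ => (W F (x + φ * I)).im) := by
    refine continuous_im.comp (cF.comp_continuous (by fun_prop) fun x => htop x)
  have kGt : Continuous (fun x : ℝ => (W G (x + φ * I)).im) := by
    refine continuous_im.comp (cG.comp_continuous (by fun_prop) fun x => ?_)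
    simp [hφ.le]
  have kGr : Continuous (fun x : ℝ => (W G x).im) := by
    refine continuous_im.comp (cG.comp_continuous (by fun_prop) fun x => ?_)
    simp [hφ.le]
  -- vertical segments
  obtain ⟨L0, hL0⟩ := pb_bound ws
  have vert : ∀ ε : ℝ, 0 < ε → ∃ L : ℝ, ∀ T : ℝ, L ≤ |T| → |psi F φ T - psi G φ T| ≤ ε := by
    intro ε hε
    obtain ⟨L1, hL1⟩ := s4 (ε / φ) (by positivity)
    refine ⟨max L0 L1, fun T hT => ?_⟩
    have hne : ∀ y : ℝ, 0 ≤ y → y ≤ φ → F (T + y * I) ≠ 0 := by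
      intro y h1 h2 h3
      have h4 := (w1 (T + y * I) (by simpa using h1) (by simpa using h2)).1 h3
      have h5 := hL0 _ h4
      have h6 := (le_max_left L0 L1).trans hT
      simp at h5
      linarith
    have cf : ContinuousOn (fun y : ℝ => (W F (T + y * I)).re) (uIcc 0 φ) := by
      refine continuous_re.comp_continuousOn (cF.comp (by fun_prop) fun y hy => ?_)
      rw [uIcc_of_le hφ.le] at hy
      exact hne y hy.1 hy.2
    have cg : ContinuousOn (fun y : ℝ => (W G (T + y * I)).re) (uIcc 0 φ) := by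
      refine continuous_re.comp_continuousOn (cG.comp (by fun_prop) fun y hy => ?_)
      rw [uIcc_of_le hφ.le] at hy
      simpa using hy
    unfold psi
    rw [← intervalIntegral.integral_sub cf.intervalIntegrable cg.intervalIntegrable]
    have hb := intervalIntegral.norm_integral_le_of_norm_le_const (a := 0) (b := φ) (C := ε / φ)
      (f := fun y : ℝ => (W F (T + y * I)).re - (W G (T + y * I)).re) ?_
    · rw [Real.norm_eq_abs, sub_zero, abs_of_pos hφ, div_mul_cancel₀ _ hφ.ne'] at hb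
      exact hb
    · intro y hy
      rw [uIoc_of_le hφ.le] at hy
      have h1 := w2 (T + y * I) (by simpa using hy.1.le) (by simpa using hy.2) (hne y hy.1.le hy.2)
      have h2 : (W F (T + y * I)).re - (W G (T + y * I)).re = ((ws.map (fun w => bW φ w (T + y * I))).sum).re := by
        rw [h1, Complex.add_re]; ring
      rw [h2, Real.norm_eq_abs]
      refine (Complex.abs_re_le_norm _).trans (hL1 _ ?_ (by simpa using hy.1.le) (by simpa using hy.2))
      simpa using (le_max_right L0 L1).trans hT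
  refine ⟨fun ε hε => ?_, ?_, third⟩
  · obtain ⟨L, hL⟩ := vert (ε / 2) (by linarith)
    refine ⟨max L 0, fun S T hS hT => ?_⟩
    have hm0 := le_max_right L 0
    have hmL := le_max_left L 0
    have hST : S ≤ T := by linarith
    have e1 := abs_le.1 (hL T (by rw [abs_of_nonneg (by linarith)]; linarith))
    have e2 := abs_le.1 (hL S (by rw [abs_of_nonpos (by linarith)]; linarith))
    have e3 := cauchy_W G φ hφ hG hG0 S T hST
    have e4 : En F φ S T ≤ ∫ x in S..T, (W G (x + φ * I)).im :=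
      intervalIntegral.integral_mono_on hST (kFt.abs.intervalIntegrable _ _) (kGt.intervalIntegrable _ _)
        fun x _ => labs x
    have e5 : ∫ x in S..T, (W G x).im ≤ 0 := by
      have : ∫ x in S..T, (W G x).im ≤ ∫ x in S..T, (0:ℝ) :=
        intervalIntegral.integral_mono_on hST (kGr.intervalIntegrable _ _) (by simp) fun x _ => by
          rw [r1]; linarith [s5 x]
      simpa using this
    unfold Phi
    linarith
  · obtain ⟨L, hL⟩ := vert (1 / 2) (by norm_num)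
    refine ⟨C + 1, max L 0, fun S T hS hT => ?_⟩
    have hm0 := le_max_right L 0
    have hmL := le_max_left L 0
    have hST : S ≤ T := by linarith
    have e1 := abs_le.1 (hL T (by rw [abs_of_nonneg (by linarith)]; linarith))
    have e2 := abs_le.1 (hL S (by rw [abs_of_nonpos (by linarith)]; linarith))
    have e3 := cauchy_W G φ hφ hG hG0 S T hST
    have e4 : ∫ x in S..T, (W F (x + φ * I)).im ≤ En F φ S T :=
      intervalIntegral.integral_mono_on hST (kFt.intervalIntegrable _ _) (kFt.abs.intervalIntegrable _ _)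
        fun x _ => le_abs_self _
    have e5 : ∫ x in S..T, (W G (x + φ * I)).im = (∫ x in S..T, (W F (x + φ * I)).im) +
        ∫ x in S..T, 2 * (ws.map (fun w => cW φ w x)).sum := by
      have q2 : Continuous (fun x : ℝ => 2 * (ws.map (fun w => cW φ w x)).sum) := continuous_const.mul s2
      rw [← intervalIntegral.integral_add (kFt.intervalIntegrable _ _) (q2.intervalIntegrable _ _)]
      exact intervalIntegral.integral_congr fun x _ => t1 x
    have e6 : ∫ x in S..T, (W G x).im = -∫ x in S..T, (ws.map (fun w => (bW φ w x).im)).sum := by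
      rw [← intervalIntegral.integral_neg]
      exact intervalIntegral.integral_congr fun x _ => r1 x
    have e7 := s3 S T hST
    unfold Phi
    linarith








theorem imW_lower_aux1 (ws : List ℂ) : ∀ ε : ℝ, 0 < ε → ∃ L0 : ℝ, ∀ L : ℝ, L0 ≤ L →
    (∀ w ∈ ws, w.re + 2 ≤ L) ∧ (ws.map (fun w => 16 * Real.exp (w.re - L))).sum ≤ ε := by
  induction ws with
  | nil =>
    intro ε hε
    exact ⟨0, fun L _ => ⟨by simp, by simpa using hε.le⟩⟩
  | cons w t ih =>
    intro ε hε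
    obtain ⟨L1, h1⟩ := ih (ε / 2) (by linarith)
    have ht : Tendsto (fun L : ℝ => 16 * Real.exp (w.re - L)) atTop (𝓝 (16 * 0)) := by
      apply Tendsto.const_mul
      apply Real.tendsto_exp_atBot.comp
      exact tendsto_atBot_add_const_left _ _ tendsto_neg_atTop_atBot
    rw [mul_zero] at ht
    have ht2 := ht.eventually (eventually_le_nhds (show (0 : ℝ) < ε / 2 by linarith))
    obtain ⟨L2, h2⟩ := eventually_atTop.1 ht2
    refine ⟨max (max L1 L2) (w.re + 2), ?_⟩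
    intro L hL
    have hL1 : L1 ≤ L := ((le_max_left _ _).trans (le_max_left _ _)).trans hL
    have hL2 : L2 ≤ L := ((le_max_right _ _).trans (le_max_left _ _)).trans hL
    have hL3 : w.re + 2 ≤ L := (le_max_right _ _).trans hL
    obtain ⟨h3, h4⟩ := h1 L hL1
    refine ⟨?_, ?_⟩
    · intro v hv
      rcases List.mem_cons.1 hv with h | h
      · rw [h]; exact hL3
      · exact h3 v h
    · rw [List.map_cons, List.sum_cons]
      have := h2 L hL2
      linarith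

theorem imW_lower_aux2 (p : ℂ → Bool) (f : ℂ → ℝ) (hf : ∀ w, 0 ≤ f w) (l : List ℂ) :
    ((l.filter p).map f).sum ≤ (l.map f).sum := by
  induction l with
  | nil => simp
  | cons w t ih =>
    rw [List.map_cons, List.sum_cons, List.filter_cons]
    split
    · rw [List.map_cons, List.sum_cons]
      linarith
    · have := hf w
      linarith

theorem imW_lower (F : ℂ → ℂ) (ws : List ℂ) (θ' R : ℝ) (hF : Differentiable ℂ F)
    (h0 : 0 < θ') (h1 : θ' ≤ Real.pi)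
    (hR : ∀ u : ℂ, R ≤ u.re → 0 ≤ u.im → u.im ≤ θ' → F u ≠ 0)
    (hre : ∀ x : ℝ, (W F x).im = 0)
    (hfin : {φ : ℝ | 0 < φ ∧ φ ≤ θ' ∧ ∃ x : ℝ, F (x + φ * I) = 0}.Finite)
    (hws : ∀ w ∈ ws, 0 < w.im)
    (hineq : ∀ φ : ℝ, 0 < φ → φ ≤ θ' → (∀ x : ℝ, F (x + φ * I) ≠ 0) → ∀ x : ℝ,
      -((ws.filter (fun w => w.im < φ)).map (fun w => cW φ w x)).sum ≤ (W F (x + φ * I)).im) :
    ∀ ε : ℝ, 0 < ε → ∃ L : ℝ, ∀ u : ℂ, L ≤ u.re → 0 ≤ u.im → u.im ≤ θ' →
      -ε ≤ (W F u).im := by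
  intro ε hε
  obtain ⟨L0, hL0⟩ := imW_lower_aux1 ws ε hε
  refine ⟨max L0 R, ?_⟩
  intro u hu hu0 hu1
  have huL : L0 ≤ u.re := (le_max_left _ _).trans hu
  have huR : R ≤ u.re := (le_max_right _ _).trans hu
  rcases hu0.eq_or_lt with h | hy
  · have e : u = ((u.re : ℝ) : ℂ) := by
      apply Complex.ext
      · simp
      · simp [← h]
    rw [e, hre]
    linarith
  -- generic rays
  have hgen : ∀ φ : ℝ, 0 < φ → φ ≤ θ' → (∀ x : ℝ, F (x + φ * I) ≠ 0) →
      -ε ≤ (W F (u.re + φ * I)).im := by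
    intro φ hφ hφ1 hne
    refine le_trans ?_ (hineq φ hφ hφ1 hne u.re)
    obtain ⟨ha, hb⟩ := hL0 u.re huL
    have s1 : ((ws.filter (fun w => w.im < φ)).map (fun w => cW φ w u.re)).sum ≤
        ((ws.filter (fun w => w.im < φ)).map (fun w => 16 * Real.exp (w.re - u.re))).sum := by
      apply List.sum_le_sum
      intro w hw
      rw [List.mem_filter] at hw
      have hw2 : w.im < φ := by simpa using hw.2
      exact cW_decay θ' h0 h1 φ hφ hφ1 w (hws w hw.1) hw2 u.re (ha w hw.1)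
    have s2 := imW_lower_aux2 (fun w => decide (w.im < φ))
      (fun w => 16 * Real.exp (w.re - u.re)) (fun w => by positivity) ws
    have s3 : ((ws.filter (fun w => w.im < φ)).map (fun w => cW φ w u.re)).sum ≤ ε :=
      (s1.trans s2).trans hb
    linarith
  have hcont : ContinuousAt (fun φ : ℝ => (W F (u.re + φ * I)).im) u.im := by
    have hu' : ((u.re : ℂ) + (u.im : ℂ) * I) = u := Complex.re_add_im u
    have hne : F u ≠ 0 := hR u huR hu0 hu1
    have hW : ContinuousAt (W F) u := by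
      unfold W
      apply ContinuousAt.div
      · exact ((hF.contDiff (n := 1)).continuous_deriv le_rfl).continuousAt
      · exact hF.continuous.continuousAt
      · exact hne
    have hlin : ContinuousAt (fun φ : ℝ => (u.re : ℂ) + (φ : ℂ) * I) u.im := by
      apply Continuous.continuousAt
      fun_prop
    apply Complex.continuous_im.continuousAt.comp
    apply ContinuousAt.comp (f := fun φ : ℝ => (u.re : ℂ) + (φ : ℂ) * I) (g := W F)
    · rw [hu']; exact hW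
    · exact hlin
  by_contra hlt
  rw [not_le] at hlt
  have hlt' : (W F ((u.re : ℂ) + (u.im : ℂ) * I)).im < -ε := by
    rw [Complex.re_add_im]; exact hlt
  have hmem : {φ : ℝ | (W F (u.re + φ * I)).im < -ε} ∈ 𝓝 u.im :=
    hcont.eventually (eventually_lt_nhds hlt')
  obtain ⟨l, r, hlr, hsub⟩ := mem_nhds_iff_exists_Ioo_subset.1 hmem
  have hinf : (Ioo (max l 0) u.im).Infinite := Set.Ioo_infinite (max_lt hlr.1 hy)
  obtain ⟨φ, hφ1, hφ2⟩ := (hinf.sdiff hfin).nonempty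
  have hφ0 : 0 < φ := (le_max_right _ _).trans_lt hφ1.1
  have hφl : l < φ := (le_max_left _ _).trans_lt hφ1.1
  have hφθ : φ ≤ θ' := hφ1.2.le.trans hu1
  have hne : ∀ x : ℝ, F (x + φ * I) ≠ 0 := by
    intro x hx
    exact hφ2 ⟨hφ0, hφθ, x, hx⟩
  have h2 := hgen φ hφ0 hφθ hne
  have h3 : (W F (u.re + φ * I)).im < -ε := hsub ⟨hφl, hφ1.2.trans hlr.2⟩
  linarith









theorem W_cont {F : ℂ → ℂ} (hF : Differentiable ℂ F) {u : ℂ} (hu : F u ≠ 0) :
    ContinuousAt (W F) u := by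
  have h0 : ContDiff ℂ 2 F := hF.contDiff
  have h1 : Continuous (deriv F) := h0.continuous_deriv (by norm_num)
  exact h1.continuousAt.div hF.continuous.continuousAt hu

theorem W_eq {F F1 : ℂ → ℂ} {m : ℕ} (hd : ∀ u, deriv F u = exp ((m : ℂ) * u) * F1 u) (u : ℂ) :
    W F u = exp ((m : ℂ) * u) * F1 u / F u := by
  unfold W; rw [hd]

theorem W_ne {F F1 : ℂ → ℂ} {m : ℕ} (hd : ∀ u, deriv F u = exp ((m : ℂ) * u) * F1 u) {u : ℂ}
    (h0 : F u ≠ 0) (h1 : F1 u ≠ 0) : W F u ≠ 0 := by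
  rw [W_eq hd]
  exact div_ne_zero (mul_ne_zero (exp_ne_zero _) h1) h0

theorem W_hasDeriv {F F1 : ℂ → ℂ} {m : ℕ} (hF : Differentiable ℂ F) (hF1 : Differentiable ℂ F1)
    (hd : ∀ u, deriv F u = exp ((m : ℂ) * u) * F1 u) {u : ℂ}
    (h0 : F u ≠ 0) (h1 : F1 u ≠ 0) :
    HasDerivAt (W F) (W F u * (m + W F1 u - W F u)) u := by
  have hfun : W F = fun u => exp ((m : ℂ) * u) * F1 u / F u := funext fun u => W_eq hd u
  have e1 : HasDerivAt (fun u : ℂ => exp ((m : ℂ) * u)) (exp ((m : ℂ) * u) * m) u := by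
    have := ((hasDerivAt_id u).const_mul (m : ℂ)).cexp
    simpa using this
  have e2 : HasDerivAt F1 (deriv F1 u) u := (hF1 u).hasDerivAt
  have e3 : HasDerivAt F (exp ((m : ℂ) * u) * F1 u) u := by
    rw [← hd]; exact (hF u).hasDerivAt
  have e4 := (e1.mul e2).div e3 h0
  rw [hfun]
  refine e4.congr_deriv ?_
  simp only [Pi.mul_apply]
  unfold W
  field_simp

theorem abs_arg_cont {w : ℂ} (hw : w ≠ 0) : ContinuousAt (fun z : ℂ => |arg z|) w := by
  have h1 : ContinuousAt (fun z : ℂ => InnerProductGeometry.angle z (1 : ℂ)) w := by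
    have h2 : ContinuousAt (fun y : ℂ × ℂ => InnerProductGeometry.angle y.1 y.2) (w, 1) :=
      InnerProductGeometry.continuousAt_angle hw one_ne_zero
    exact ContinuousAt.comp (f := fun z : ℂ => (z, (1 : ℂ)))
      (g := fun y : ℂ × ℂ => InnerProductGeometry.angle y.1 y.2) h2
      (continuousAt_id.prodMk continuousAt_const)
  refine h1.congr ?_
  filter_upwards [isOpen_ne.mem_nhds hw] with z hz
  exact Complex.angle_one_right hz

/-- closeness of the argument far to the left -/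
theorem arg_left {F F1 : ℂ → ℂ} {m : ℕ} {θ a0 b0 : ℝ}
    (hd : ∀ u, deriv F u = exp ((m : ℂ) * u) * F1 u)
    (ha0 : 0 < a0) (hb0 : 0 < b0)
    (hlim : ∀ ε : ℝ, 0 < ε → ∃ S0 : ℝ, ∀ u : ℂ, u.re ≤ S0 → ‖F u - a0‖ ≤ ε)
    (hlim1 : ∀ ε : ℝ, 0 < ε → ∃ S0 : ℝ, ∀ u : ℂ, u.re ≤ S0 → ‖F1 u - b0‖ ≤ ε)
    {ε : ℝ} (hε : 0 < ε) : ∃ S0 : ℝ, ∀ S : ℝ, S ≤ S0 →
      |arg (W F (S + θ * I))| ≤ |arg (exp (((m * θ : ℝ) : ℂ) * I))| + ε := by
  have ha0' : (a0 : ℂ) ≠ 0 := by exact_mod_cast ha0.ne'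
  have hb0' : (b0 : ℂ) ≠ 0 := by exact_mod_cast hb0.ne'
  -- the function (p, q) ↦ |arg (exp(i m θ) q / p)| is continuous at (a0, b0)
  have hc : ContinuousAt (fun p : ℂ × ℂ => |arg (exp (((m * θ : ℝ) : ℂ) * I) * (p.2 / p.1))|)
      ((a0 : ℂ), (b0 : ℂ)) := by
    have h1 : ContinuousAt (fun p : ℂ × ℂ => exp (((m * θ : ℝ) : ℂ) * I) * (p.2 / p.1))
        ((a0 : ℂ), (b0 : ℂ)) :=
      continuousAt_const.mul (continuousAt_snd.div continuousAt_fst ha0')
    exact ContinuousAt.comp (f := fun p : ℂ × ℂ => exp (((m * θ : ℝ) : ℂ) * I) * (p.2 / p.1))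
      (g := fun z : ℂ => |arg z|)
      (abs_arg_cont (mul_ne_zero (exp_ne_zero _) (div_ne_zero hb0' ha0'))) h1
  obtain ⟨δ, hδ, hball⟩ := Metric.continuousAt_iff.1 hc ε hε
  obtain ⟨S1, hS1⟩ := hlim (δ / 2) (by positivity)
  obtain ⟨S2, hS2⟩ := hlim1 (δ / 2) (by positivity)
  refine ⟨min S1 S2, fun S hS => ?_⟩
  have hre : ((S : ℂ) + θ * I).re = S := by simp
  have h1 := hS1 ((S : ℂ) + θ * I) (by rw [hre]; exact hS.trans (min_le_left _ _))
  have h2 := hS2 ((S : ℂ) + θ * I) (by rw [hre]; exact hS.trans (min_le_right _ _))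
  have h3 := @hball (F ((S : ℂ) + θ * I), F1 ((S : ℂ) + θ * I)) (by
    rw [Prod.dist_eq, dist_eq_norm, dist_eq_norm]
    exact max_lt (by linarith) (by linarith))
  rw [Real.dist_eq] at h3
  have h4 : arg (exp (((m * θ : ℝ) : ℂ) * I) * ((b0 : ℂ) / a0)) =
      arg (exp (((m * θ : ℝ) : ℂ) * I)) := by
    have : exp (((m * θ : ℝ) : ℂ) * I) * ((b0 : ℂ) / a0) =
        ((b0 / a0 : ℝ) : ℂ) * exp (((m * θ : ℝ) : ℂ) * I) := by
      push_cast; ring
    rw [this]
    exact Complex.arg_real_mul _ (div_pos hb0 ha0)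
  have h5 : arg (W F ((S : ℂ) + θ * I)) = arg (exp (((m * θ : ℝ) : ℂ) * I) *
      (F1 ((S : ℂ) + θ * I) / F ((S : ℂ) + θ * I))) := by
    have : W F ((S : ℂ) + θ * I) = ((Real.exp (m * S) : ℝ) : ℂ) *
        (exp (((m * θ : ℝ) : ℂ) * I) * (F1 ((S : ℂ) + θ * I) / F ((S : ℂ) + θ * I))) := by
      rw [W_eq hd]
      have e1 : exp ((m : ℂ) * ((S : ℂ) + θ * I)) = ((Real.exp (m * S) : ℝ) : ℂ) *
          exp (((m * θ : ℝ) : ℂ) * I) := by
        rw [Complex.ofReal_exp, ← exp_add]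
        congr 1
        push_cast
        ring
      rw [e1]
      ring
    rw [this]
    exact Complex.arg_real_mul _ (Real.exp_pos _)
  simp only at h3
  rw [h4, ← h5] at h3
  have := (abs_lt.1 h3).2
  linarith

theorem psi_small {F : ℂ → ℂ} {θ ε S0 : ℝ} (hθ : 0 < θ)
    (h : ∀ u : ℂ, u.re ≤ S0 → ‖W F u‖ ≤ ε) {S : ℝ} (hS : S ≤ S0) : |psi F θ S| ≤ ε * θ := by
  unfold psi
  have := intervalIntegral.norm_integral_le_of_norm_le_const (a := 0) (b := θ) (C := ε)
    (f := fun y : ℝ => (W F ((S : ℂ) + y * I)).re) (by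
      intro y _
      rw [Real.norm_eq_abs]
      exact (Complex.abs_re_le_norm _).trans (h _ (by simpa using hS)))
  rw [Real.norm_eq_abs, sub_zero, abs_of_pos hθ] at this
  exact this

theorem W_cont_line {F : ℂ → ℂ} (hF : Differentiable ℂ F) {g : ℝ → ℂ} (hg : Continuous g)
    {A : Set ℝ} (h : ∀ y ∈ A, F (g y) ≠ 0) : ContinuousOn (fun y => W F (g y)) A := by
  intro y hy
  exact (ContinuousAt.comp (f := g) (g := W F) (W_cont hF (h y hy)) hg.continuousAt).continuousWithinAt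

theorem step_ineq (F F1 : ℂ → ℂ) (m : ℕ) (θ a0 b0 : ℝ) (hθ : 0 < θ)
    (hF : Differentiable ℂ F) (hF1 : Differentiable ℂ F1)
    (hd : ∀ u, deriv F u = exp ((m : ℂ) * u) * F1 u)
    (hn0 : ∀ x : ℝ, F (x + θ * I) ≠ 0) (hn1 : ∀ x : ℝ, F1 (x + θ * I) ≠ 0)
    (ha0 : 0 < a0) (hb0 : 0 < b0)
    (hlim : ∀ ε : ℝ, 0 < ε → ∃ S0 : ℝ, ∀ u : ℂ, u.re ≤ S0 → ‖F u - a0‖ ≤ ε)
    (hlim1 : ∀ ε : ℝ, 0 < ε → ∃ S0 : ℝ, ∀ u : ℂ, u.re ≤ S0 → ‖F1 u - b0‖ ≤ ε)
    (hW0 : ∀ ε : ℝ, 0 < ε → ∃ S0 : ℝ, ∀ u : ℂ, u.re ≤ S0 → ‖W F u‖ ≤ ε)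
    (hW1 : ∀ ε : ℝ, 0 < ε → ∃ S0 : ℝ, ∀ u : ℂ, u.re ≤ S0 → ‖W F1 u‖ ≤ ε)
    (hreal : ∀ x : ℝ, (F x).im = 0 ∧ 0 < (F x).re ∧ (F1 x).im = 0 ∧ 0 < (F1 x).re)
    (hbig : ∀ M : ℝ, ∃ L : ℝ, ∀ u : ℂ, L ≤ u.re → 0 ≤ u.im → u.im ≤ θ →
      F u ≠ 0 ∧ M ≤ ‖W F u‖)
    (him : ∀ ε : ℝ, 0 < ε → ∃ L : ℝ, ∀ u : ℂ, L ≤ u.re → 0 ≤ u.im → u.im ≤ θ →
      -ε ≤ (W F u).im) :
    ∀ ε : ℝ, 0 < ε → ∃ L : ℝ, ∀ S T : ℝ, S ≤ -L → L ≤ T →
      Phi F1 θ S T ≤ Phi F θ S T + ε - (m * θ - |Complex.arg (exp (((m * θ : ℝ) : ℂ) * I))|) := by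
  intro ε hε
  obtain ⟨M, hMdef⟩ : ∃ M : ℝ, M = 8 + 300 / ε := ⟨_, rfl⟩
  have hM8 : 8 ≤ M := by rw [hMdef]; have : 0 < 300 / ε := by positivity
                         linarith
  have hM0 : 0 < M := by linarith
  have hMε : 100 * 1 / M ≤ ε / 3 := by
    rw [div_le_iff₀ hM0, hMdef]
    have : ε / 3 * (8 + 300 / ε) = 8 * ε / 3 + 100 := by
      field_simp
      ring
    rw [this]
    linarith
  obtain ⟨L1, hL1⟩ := hbig M
  obtain ⟨L2, hL2⟩ := him 1 one_pos
  obtain ⟨S1, hS1⟩ := hW0 (ε / (6 * θ)) (by positivity)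
  obtain ⟨S2, hS2⟩ := hW1 (ε / (6 * θ)) (by positivity)
  obtain ⟨S3, hS3⟩ := arg_left (θ := θ) hd ha0 hb0 hlim hlim1 (ε := ε / 3) (by positivity)
  refine ⟨max (max (max L1 L2) 0) (max (max (-S1) (-S2)) (-S3)), fun S T hS hT => ?_⟩
  have hTL1 : L1 ≤ T := (((le_max_left _ _).trans (le_max_left _ _)).trans (le_max_left _ _)).trans hT
  have hTL2 : L2 ≤ T := (((le_max_right _ _).trans (le_max_left _ _)).trans (le_max_left _ _)).trans hT
  have hT0 : 0 ≤ T := ((le_max_right _ _).trans (le_max_left _ _)).trans hT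
  have hmax0 : 0 ≤ max (max (max L1 L2) 0) (max (max (-S1) (-S2)) (-S3)) :=
    (le_max_right _ _).trans (le_max_left _ _)
  have hSS1 : S ≤ S1 := by
    have : -S1 ≤ max (max (max L1 L2) 0) (max (max (-S1) (-S2)) (-S3)) :=
      ((le_max_left _ _).trans (le_max_left _ _)).trans (le_max_right _ _)
    linarith
  have hSS2 : S ≤ S2 := by
    have : -S2 ≤ max (max (max L1 L2) 0) (max (max (-S1) (-S2)) (-S3)) :=
      ((le_max_right _ _).trans (le_max_left _ _)).trans (le_max_right _ _)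
    linarith
  have hSS3 : S ≤ S3 := by
    have : -S3 ≤ max (max (max L1 L2) 0) (max (max (-S1) (-S2)) (-S3)) :=
      (le_max_right _ _).trans (le_max_right _ _)
    linarith
  have hST : S ≤ T := by linarith
  -- the ray inequality
  have hray : En F θ S T + |arg (W F (T + θ * I))| ≤ En F1 θ S T + |arg (W F (S + θ * I))| := by
    have hg : Continuous fun s : ℝ => (s : ℂ) + θ * I := by fun_prop
    have hc0 : ContinuousOn (fun s : ℝ => W F ((s : ℂ) + θ * I)) (Icc S T) :=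
      W_cont_line hF hg (fun y _ => hn0 y)
    have hc1 : ContinuousOn (fun s : ℝ => W F1 ((s : ℂ) + θ * I)) (Icc S T) :=
      W_cont_line hF1 hg (fun y _ => hn1 y)
    have h1 := ray_ineq (fun s : ℝ => W F ((s : ℂ) + θ * I))
      (fun s : ℝ => W F ((s : ℂ) + θ * I) * (m + W F1 ((s : ℂ) + θ * I) -
        W F ((s : ℂ) + θ * I))) S T hST
      (fun s _ => by
        have e1 : HasDerivAt (fun s : ℝ => (s : ℂ) + θ * I) 1 s :=
          (Complex.ofRealCLM.hasDerivAt (x := s)).add_const _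
        have e2 := (W_hasDeriv hF hF1 hd (hn0 s) (hn1 s)).scomp s e1
        rw [smul_eq_mul, one_mul] at e2
        exact e2)
      (hc0.mul ((continuousOn_const.add hc1).sub hc0))
      (fun s _ => W_ne hd (hn0 s) (hn1 s))
    have h2 : ∀ s : ℝ, (W F ((s : ℂ) + θ * I) + W F ((s : ℂ) + θ * I) *
        (m + W F1 ((s : ℂ) + θ * I) - W F ((s : ℂ) + θ * I)) / W F ((s : ℂ) + θ * I)).im =
        (W F1 ((s : ℂ) + θ * I)).im := by
      intro s
      rw [mul_div_cancel_left₀ _ (W_ne hd (hn0 s) (hn1 s))]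
      have : W F ((s : ℂ) + θ * I) + (m + W F1 ((s : ℂ) + θ * I) - W F ((s : ℂ) + θ * I)) =
          m + W F1 ((s : ℂ) + θ * I) := by ring
      rw [this, Complex.add_im, Complex.natCast_im, zero_add]
    simp only [h2] at h1
    exact h1
  -- the arc inequality
  have hnz : ∀ y ∈ Icc 0 θ, F ((T : ℂ) + y * I) ≠ 0 ∧ M ≤ ‖W F ((T : ℂ) + y * I)‖ := by
    intro y hy
    exact hL1 _ (by simpa using hTL1) (by simpa using hy.1) (by simpa using hy.2)
  have hnz1 : ∀ y ∈ Icc 0 θ, F1 ((T : ℂ) + y * I) ≠ 0 := by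
    intro y hy h0
    have h1 := (hnz y hy).2
    rw [W_eq hd, h0, mul_zero, zero_div, norm_zero] at h1
    linarith
  have harc : m * θ + psi F1 θ T - psi F θ T ≤ |arg (W F (T + θ * I))| + 100 * 1 / M := by
    have hg : Continuous fun y : ℝ => (T : ℂ) + y * I := by fun_prop
    have hc0 : ContinuousOn (fun y : ℝ => W F ((T : ℂ) + y * I)) (Icc 0 θ) :=
      W_cont_line hF hg (fun y hy => (hnz y hy).1)
    have hc1 : ContinuousOn (fun y : ℝ => W F1 ((T : ℂ) + y * I)) (Icc 0 θ) :=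
      W_cont_line hF1 hg hnz1
    obtain ⟨r1, r2, r3, r4⟩ := hreal T
    have hW0T : W F ((T : ℂ) + (0 : ℝ) * I) =
        ((Real.exp (m * T) * (F1 T).re / (F T).re : ℝ) : ℂ) := by
      have e0 : (T : ℂ) + ((0 : ℝ) : ℂ) * I = T := by simp
      rw [e0, W_eq hd]
      have e1 : F T = ((F T).re : ℂ) := Complex.ext (by simp) (by simpa using r1)
      have e2 : F1 T = ((F1 T).re : ℂ) := Complex.ext (by simp) (by simpa using r3)
      rw [e1, e2]
      push_cast
      simp only [Complex.ofReal_re]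
    have h1 := arc_ineq (fun y : ℝ => W F ((T : ℂ) + y * I))
      (fun y : ℝ => I * (W F ((T : ℂ) + y * I) * (m + W F1 ((T : ℂ) + y * I) -
        W F ((T : ℂ) + y * I)))) θ 1 M hθ.le
      (fun y hy => by
        have e1 : HasDerivAt (fun y : ℝ => (T : ℂ) + y * I) I y := by
          have := ((Complex.ofRealCLM.hasDerivAt (x := y)).mul_const I).const_add (T : ℂ)
          simpa using this
        have e2 := (W_hasDeriv hF hF1 hd (hnz y hy).1 (hnz1 y hy)).scomp y e1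
        rw [smul_eq_mul] at e2
        exact e2)
      (continuousOn_const.mul (hc0.mul ((continuousOn_const.add hc1).sub hc0)))
      (by
        rw [hW0T, Complex.ofReal_im])
      (by
        rw [hW0T, Complex.ofReal_re]
        have := Real.exp_pos (m * T)
        positivity)
      one_pos (by linarith)
      (fun y hy => hL2 _ (by simpa using hTL2) (by simpa using hy.1) (by simpa using hy.2))
      (fun y hy => (hnz y hy).2)
    have h2 : (∫ y in (0 : ℝ)..θ, (I * (W F ((T : ℂ) + y * I) * (m + W F1 ((T : ℂ) + y * I) -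
        W F ((T : ℂ) + y * I))) / W F ((T : ℂ) + y * I)).im) =
        ∫ y in (0 : ℝ)..θ, ((m : ℝ) + (W F1 ((T : ℂ) + y * I)).re - (W F ((T : ℂ) + y * I)).re) := by
      apply intervalIntegral.integral_congr
      intro y hy
      rw [uIcc_of_le hθ.le] at hy
      simp only
      have hne : W F ((T : ℂ) + y * I) ≠ 0 := W_ne hd (hnz y hy).1 (hnz1 y hy)
      have : I * (W F ((T : ℂ) + y * I) * (m + W F1 ((T : ℂ) + y * I) -
          W F ((T : ℂ) + y * I))) / W F ((T : ℂ) + y * I) =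
          I * (m + W F1 ((T : ℂ) + y * I) - W F ((T : ℂ) + y * I)) := by
        rw [mul_div_assoc, mul_div_cancel_left₀ _ hne]
      rw [this, Complex.I_mul_im, Complex.sub_re, Complex.add_re, Complex.natCast_re]
    have i0 : IntervalIntegrable (fun y : ℝ => (W F ((T : ℂ) + y * I)).re)
        MeasureTheory.volume 0 θ := by
      apply ContinuousOn.intervalIntegrable
      rw [uIcc_of_le hθ.le]
      exact Complex.continuous_re.comp_continuousOn hc0
    have i1 : IntervalIntegrable (fun y : ℝ => (W F1 ((T : ℂ) + y * I)).re)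
        MeasureTheory.volume 0 θ := by
      apply ContinuousOn.intervalIntegrable
      rw [uIcc_of_le hθ.le]
      exact Complex.continuous_re.comp_continuousOn hc1
    have h3 : (∫ y in (0 : ℝ)..θ, ((m : ℝ) + (W F1 ((T : ℂ) + y * I)).re -
        (W F ((T : ℂ) + y * I)).re)) = m * θ + psi F1 θ T - psi F θ T := by
      rw [intervalIntegral.integral_sub (intervalIntegrable_const.add i1) i0,
        intervalIntegral.integral_add intervalIntegrable_const i1,
        intervalIntegral.integral_const, sub_zero, smul_eq_mul, mul_comm θ]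
      rfl
    rw [h2, h3] at h1
    exact h1
  have hp0 := psi_small hθ hS1 hSS1
  have hp1 := psi_small hθ hS2 hSS2
  have harg := hS3 S hSS3
  have hεθ : ε / (6 * θ) * θ = ε / 6 := by field_simp
  rw [hεθ] at hp0 hp1
  have a0' := abs_le.1 hp0
  have a1' := abs_le.1 hp1
  unfold Phi
  linarith



theorem finite_zeros (F : ℂ → ℂ) (hF : Differentiable ℂ F) (hne : ∃ u, F u ≠ 0) (K : Set ℂ)
    (hK : IsCompact K) : {u | u ∈ K ∧ F u = 0}.Finite := by
  by_contra hinf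
  have hinf' : {u | u ∈ K ∧ F u = 0}.Infinite := hinf
  obtain ⟨z, hzK, hz⟩ := hinf'.exists_accPt_of_subset_isCompact hK (fun u hu => hu.1)
  have h1 : AnalyticOnNhd ℂ F Set.univ := fun x _ => hF.analyticAt x
  have h2 : ∃ᶠ w in 𝓝[≠] z, F w = 0 := by
    rw [accPt_iff_frequently_nhdsNE] at hz
    exact hz.mono (fun w hw => hw.2)
  have h3 := h1.eqOn_zero_of_preconnected_of_frequently_eq_zero isPreconnected_univ
    (Set.mem_univ z) h2
  obtain ⟨u, hu⟩ := hne
  exact hu (h3 (Set.mem_univ u))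

theorem prod_split (ws : List ℂ) (p : ℂ → Bool) (f : ℂ → ℂ) :
    (ws.map f).prod = ((ws.filter p).map f).prod * ((ws.filter (fun w => !p w)).map f).prod := by
  induction ws with
  | nil => simp
  | cons a t ih =>
    by_cases h : p a
    · simp [List.filter_cons, h, ih, mul_assoc]
    · simp only [Bool.not_eq_true] at h
      simp [List.filter_cons, h, ih]
      ring

theorem strip_factor_unif (F : ℂ → ℂ) (hF : Differentiable ℂ F) (θ' : ℝ)
    (hne : ∃ u, F u ≠ 0)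
    (hfin : {u : ℂ | 0 ≤ u.im ∧ u.im ≤ θ' ∧ F u = 0}.Finite)
    (hb : ∀ u : ℂ, F u = 0 → u.im ≠ 0) :
    ∃ ws : List ℂ, (∀ w ∈ ws, 0 < w.im ∧ F w = 0) ∧
      ∀ φ : ℝ, 0 < φ → φ ≤ θ' → (∀ x : ℝ, F (x + φ * I) ≠ 0) →
      ∃ G : ℂ → ℂ, DifferentiableOn ℂ G {u : ℂ | -φ < u.im ∧ u.im < 2 * φ} ∧
      (∀ u : ℂ, 0 ≤ u.im → u.im ≤ φ → G u ≠ 0) ∧
      (∀ u : ℂ, -φ < u.im → u.im < 2 * φ →
        F u * ((ws.filter (fun w => w.im < φ)).map
            (fun w => exp (((Real.pi / φ : ℝ) : ℂ) * u) -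
            exp (((Real.pi / φ : ℝ) : ℂ) * (starRingEnd ℂ) w))).prod =
        G u * ((ws.filter (fun w => w.im < φ)).map
            (fun w => exp (((Real.pi / φ : ℝ) : ℂ) * u) -
            exp (((Real.pi / φ : ℝ) : ℂ) * w))).prod) := by
  obtain ⟨ws, g, hws, hg, hgZ, hFg⟩ := sf_zeros hfin.toFinset F hF hne
  have hmem : ∀ w ∈ ws, 0 < w.im ∧ w.im ≤ θ' ∧ F w = 0 := by
    intro w hw
    have h1 := hws w hw
    rw [Set.Finite.mem_toFinset] at h1
    obtain ⟨h2, h3, h4⟩ := h1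
    exact ⟨lt_of_le_of_ne h2 (Ne.symm (hb w h4)), h3, h4⟩
  refine ⟨ws, fun w hw => ⟨(hmem w hw).1, (hmem w hw).2.2⟩, ?_⟩
  intro φ hφ hφθ hgen
  set p : ℂ → Bool := fun w => decide (w.im < φ) with hp
  set g' : ℂ → ℂ := fun u => ((ws.filter (fun w => !p w)).map (fun w => u - w)).prod * g u with hg'
  have hdprod : ∀ l : List ℂ, Differentiable ℂ (fun u : ℂ => (l.map (fun w => u - w)).prod) := by
    intro l
    induction l with
    | nil => simp
    | cons a t ih =>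
      simp only [List.map_cons, List.prod_cons]
      exact (differentiable_id.sub_const a).mul ih
  have hg'd : Differentiable ℂ g' := (hdprod _).mul hg
  have hg'n : ∀ u : ℂ, 0 ≤ u.im → u.im ≤ φ → g' u ≠ 0 := by
    intro u hu0 hu1
    refine mul_ne_zero ?_ ?_
    · rw [Ne, List.prod_eq_zero_iff]
      intro h
      rw [List.mem_map] at h
      obtain ⟨w, hw, hw0⟩ := h
      rw [List.mem_filter] at hw
      obtain ⟨hw1, hw2⟩ := hw
      simp only [hp, Bool.not_eq_true', decide_eq_false_iff_not, not_lt] at hw2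
      have huw : u = w := by linear_combination hw0
      have h3 : w.im = φ := le_antisymm (huw ▸ hu1) hw2
      apply hgen w.re
      have h4 : ((w.re : ℂ) + (φ : ℂ) * I) = w := by
        rw [← h3]; exact Complex.re_add_im w
      rw [h4]
      exact (hmem w hw1).2.2
    · intro h0
      have hFu : F u = 0 := by rw [hFg, h0, mul_zero]
      apply hgZ u _ h0
      rw [Set.Finite.mem_toFinset]
      exact ⟨hu0, hu1.trans hφθ, hFu⟩
  obtain ⟨G, hG1, hG2, hG3⟩ := sf_build φ hφ g' hg'd hg'n (ws.filter p) (by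
    intro w hw
    rw [List.mem_filter] at hw
    refine ⟨(hmem w hw.1).1, ?_⟩
    simpa [hp] using hw.2)
  refine ⟨G, hG1, hG2, ?_⟩
  intro u hu1 hu2
  have h5 := hG3 u hu1 hu2
  have h6 : F u = ((ws.filter p).map (fun w => u - w)).prod * g' u := by
    rw [hFg u, prod_split ws p, hg']
    ring
  rw [h6]
  exact h5






theorem cls_real {ρ θ0 : ℝ} {a : ℕ → ℝ} (ha : Cls ρ θ0 a) (x : ℝ) :
    0 < (Fn a x).re ∧ (Fn a x).im = 0 ∧ (deriv (Fn a) x).im = 0 ∧ (W (Fn a) x).im = 0 ∧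
      Fn a x ≠ 0 := by
  obtain ⟨hd, hsd, hder, hconj, hnorm, hrealv, hge, hmono⟩ := basic a ha.nonneg ha.sm
  have h1 : 0 < (Fn a x).re := lt_of_lt_of_le ha.pos0 (hge x).1
  have h2 : (Fn a x).im = 0 := (hge x).2
  have h3 : (deriv (Fn a) x).im = 0 := by
    rw [hder]
    have hn : ∀ k : ℕ, 0 ≤ (k : ℝ) * a k := fun k => mul_nonneg (Nat.cast_nonneg k) (ha.nonneg k)
    obtain ⟨-, -, -, -, -, -, hge', -⟩ := basic (fun k => (k : ℝ) * a k) hn hsd
    exact (hge' x).2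
  refine ⟨h1, h2, h3, ?_, ?_⟩
  · have h4 : Fn a x = (((Fn a x).re : ℝ) : ℂ) := by
      apply Complex.ext <;> simp [h2]
    have h5 : deriv (Fn a) x = (((deriv (Fn a) x).re : ℝ) : ℂ) := by
      apply Complex.ext <;> simp [h3]
    rw [W, h4, h5, ← Complex.ofReal_div, Complex.ofReal_im]
  · intro h
    rw [h] at h1
    simp at h1

theorem cls_low {ρ θ0 : ℝ} {a : ℕ → ℝ} (ha : Cls ρ θ0 a) :
    ∃ S0 : ℝ, ∀ u : ℂ, u.re ≤ S0 → a 0 / 2 ≤ ‖Fn a u‖ := by
  obtain ⟨S0, h⟩ := at_neg_inf a ha.nonneg ha.sm (a 0 / 2) (by linarith [ha.pos0])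
  refine ⟨S0, fun u hu => ?_⟩
  have h1 := h u hu
  have h2 : ‖((a 0 : ℝ) : ℂ)‖ = a 0 := by
    rw [Complex.norm_real, Real.norm_eq_abs, abs_of_pos ha.pos0]
  have h3 : ‖((a 0 : ℝ) : ℂ)‖ ≤ ‖Fn a u‖ + ‖Fn a u - a 0‖ := by
    have := norm_sub_le (Fn a u) (Fn a u - a 0)
    simpa using this
  linarith

theorem cls_zeros {ρ θ0 : ℝ} {a : ℕ → ℝ} (ha : Cls ρ θ0 a) (θ' : ℝ) (h1 : θ' < θ0) :
    {u : ℂ | |u.im| ≤ θ' ∧ Fn a u = 0}.Finite := by
  obtain ⟨hd, -, -, -, -, -, -, -⟩ := basic a ha.nonneg ha.sm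
  obtain ⟨S0, hS0⟩ := cls_low ha
  obtain ⟨R, hR⟩ := ha.zf θ' h1
  have hne : ∃ u, Fn a u ≠ 0 := ⟨((0 : ℝ) : ℂ), (cls_real ha 0).2.2.2.2⟩
  have hK : IsCompact (Set.Icc S0 R ×ℂ Set.Icc (-θ') θ') := isCompact_Icc.reProdIm isCompact_Icc
  refine (finite_zeros (Fn a) hd hne _ hK).subset ?_
  intro u hu
  obtain ⟨hu1, hu2⟩ := hu
  refine ⟨?_, hu2⟩
  rw [Complex.mem_reProdIm]
  refine ⟨⟨?_, ?_⟩, abs_le.1 hu1⟩
  · by_contra h
    push Not at h
    have := hS0 u h.le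
    rw [hu2, norm_zero] at this
    linarith [ha.pos0]
  · by_contra h
    push Not at h
    exact hR u h.le hu1 hu2

theorem cls_main {ρ θ0 : ℝ} {a : ℕ → ℝ} (ha : Cls ρ θ0 a) (hρ : 0 < ρ) 
    (hρθ : ρ * θ0 ≤ Real.pi) (θ' : ℝ) (h0 : 0 < θ') (h1 : θ' < θ0) :
    ∃ ws : List ℂ, (∀ w ∈ ws, 0 < w.im) ∧
      ∀ φ : ℝ, 0 < φ → φ ≤ θ' → (∀ x : ℝ, Fn a (x + φ * I) ≠ 0) →
      (∀ ε : ℝ, 0 < ε → ∃ L : ℝ, ∀ S T : ℝ, S ≤ -L → L ≤ T → -ε ≤ Phi (Fn a) φ S T) ∧
      (∃ C L : ℝ, ∀ S T : ℝ, S ≤ -L → L ≤ T → Phi (Fn a) φ S T ≤ C) ∧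
      (∀ x : ℝ, -((ws.filter (fun w => w.im < φ)).map (fun w => cW φ w x)).sum ≤
        (W (Fn a) (x + φ * I)).im) := by
  obtain ⟨hd, hsd, hder, hconj, hnorm, hrealv, hge, hmono⟩ := basic a ha.nonneg ha.sm
  obtain ⟨S0, hS0⟩ := cls_low ha
  have hne : ∃ u, Fn a u ≠ 0 := ⟨((0 : ℝ) : ℂ), (cls_real ha 0).2.2.2.2⟩
  have hreal0 : ∀ x : ℝ, Fn a x ≠ 0 := fun x => (cls_real ha x).2.2.2.2
  have hfin : {u : ℂ | 0 ≤ u.im ∧ u.im ≤ θ' ∧ Fn a u = 0}.Finite := by
    refine (cls_zeros ha θ' h1).subset ?_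
    intro u hu
    exact ⟨by rw [abs_of_nonneg hu.1]; exact hu.2.1, hu.2.2⟩
  have hb : ∀ u : ℂ, Fn a u = 0 → u.im ≠ 0 := by
    intro u hu him
    apply hreal0 u.re
    have : ((u.re : ℝ) : ℂ) = u := by
      apply Complex.ext <;> simp [him]
    rw [this, hu]
  obtain ⟨ws, hws, hfac⟩ := strip_factor_unif (Fn a) hd θ' hne hfin hb
  obtain ⟨C, hC⟩ := ha.growth
  obtain ⟨R, hR⟩ := ha.zf ((θ' + θ0) / 2) (by linarith)
  obtain ⟨C', L', hlow⟩ := minmod (Fn a) hd ρ θ' ((θ' + θ0) / 2) C (max R 0) (a 0) hρ h0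
    (by linarith)
    (fun u hu => (hnorm u).trans (hC u.re ((le_max_right _ _).trans hu)))
    (fun u hu hu2 => hR u ((le_max_left _ _).trans hu) hu2)
    ha.pos0
    (fun x _ => by
      have h2 := (hge x).1
      have h3 := Complex.re_le_norm (Fn a x)
      linarith)
  refine ⟨ws, fun w hw => (hws w hw).1, ?_⟩
  intro φ hφ hφθ hgen
  obtain ⟨G, hG, hG0, hFG⟩ := hfac φ hφ hφθ hgen
  set wf := ws.filter (fun w => w.im < φ) with hwf
  have hwfm : ∀ w ∈ wf, 0 < w.im ∧ w.im < φ := by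
    intro w hw
    rw [hwf, List.mem_filter] at hw
    exact ⟨(hws w hw.1).1, by simpa using hw.2⟩
  have hPL := strip_PL (Fn a) G φ ρ C C' L' (a 0 / 2) S0 wf hφ hρ
    (by nlinarith) hd hnorm hconj hmono hC
    (fun u hu hu2 => hlow u hu (hu2.trans hφθ)) (by linarith [ha.pos0]) hS0 hwfm hG hG0 hFG
  obtain ⟨-, -, heq⟩ := W_rel (Fn a) G φ wf hφ hd hwfm hG hG0 hFG
  have hD := strip_deriv (Fn a) G φ hφ hd hconj hG hG0 hgen (fun x => (heq x).2) hPL
  exact phi_bounds (Fn a) G φ wf hφ hd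
    (fun x => ⟨hreal0 x, (cls_real ha x).2.2.2.1⟩) hgen hwfm hG hG0 hFG hD









theorem cls_im {ρ θ0 : ℝ} {a : ℕ → ℝ} (ha : Cls ρ θ0 a) (hρ : 0 < ρ) (hθ0 : θ0 ≤ Real.pi)
    (hρθ : ρ * θ0 ≤ Real.pi) (θ' : ℝ) (h0 : 0 < θ') (h1 : θ' < θ0) :
    ∀ ε : ℝ, 0 < ε → ∃ L : ℝ, ∀ u : ℂ, L ≤ u.re → 0 ≤ u.im → u.im ≤ θ' →
      -ε ≤ (W (Fn a) u).im := by
  obtain ⟨hd, hsd, hder, hconj, hnorm, hrealv, hge, hmono⟩ := basic a ha.nonneg ha.sm
  obtain ⟨ws, hws, hmain⟩ := cls_main ha hρ hρθ θ' h0 h1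
  obtain ⟨R, hR⟩ := ha.zf θ' h1
  refine imW_lower (Fn a) ws θ' R hd h0 (by linarith)
    (fun u hu h2 h3 => hR u hu (by rw [abs_of_nonneg h2]; exact h3))
    (fun x => (cls_real ha x).2.2.2.1) ?_ hws (fun φ h2 h3 h4 => (hmain φ h2 h3 h4).2.2)
  refine ((cls_zeros ha θ' h1).image Complex.im).subset ?_
  rintro φ ⟨h2, h3, x, hx⟩
  refine ⟨(x : ℂ) + φ * I, ⟨?_, hx⟩, by simp⟩
  simp [abs_of_pos h2, h3]

theorem cls_W_conj {ρ θ0 : ℝ} {a : ℕ → ℝ} (ha : Cls ρ θ0 a) (u : ℂ) :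
    W (Fn a) ((starRingEnd ℂ) u) = (starRingEnd ℂ) (W (Fn a) u) := by
  obtain ⟨hd, hsd, hder, hconj, hnorm, hrealv, hge, hmono⟩ := basic a ha.nonneg ha.sm
  have hn : ∀ k : ℕ, 0 ≤ (k : ℝ) * a k := fun k => mul_nonneg (Nat.cast_nonneg k) (ha.nonneg k)
  obtain ⟨-, -, -, hconj', -, -, -, -⟩ := basic (fun k => (k : ℝ) * a k) hn hsd
  rw [W, W, hder, hder, hconj, hconj', map_div₀]

theorem cls_big {ρ θ0 : ℝ} {a : ℕ → ℝ} (ha : Cls ρ θ0 a) (hρ : 0 < ρ) (hθ0 : θ0 ≤ Real.pi)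
    (hρθ : ρ * θ0 ≤ Real.pi) (θ : ℝ) (h0 : 0 < θ) (h1 : θ < θ0) (M : ℝ) :
    ∃ L : ℝ, ∀ u : ℂ, L ≤ u.re → |u.im| ≤ θ → Fn a u ≠ 0 ∧ M ≤ ‖W (Fn a) u‖ := by
  obtain ⟨hd, hsd, hder, hconj, hnorm, hrealv, hge, hmono⟩ := basic a ha.nonneg ha.sm
  have hθ' : (θ + θ0) / 2 < θ0 := by linarith
  obtain ⟨R, hR⟩ := ha.zf ((θ + θ0) / 2) hθ'
  have hdd : Differentiable ℂ (deriv (Fn a)) := hd.deriv
  obtain ⟨L, hL⟩ := big_of_real (W (Fn a)) θ ((θ + θ0) / 2) R h0 (by linarith)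
    (fun u hu h2 h3 => (hdd u).div (hd u) (hR u hu (by rw [abs_of_nonneg h2]; exact h3)))
    (cls_im ha hρ hθ0 hρθ _ (by linarith) hθ')
    (W_tendsto a ha.nonneg ha.sm ha.pos0 ha.inf hder hsd) M
  refine ⟨max L R, fun u hu hu2 => ?_⟩
  refine ⟨hR u ((le_max_right _ _).trans hu) (by linarith), ?_⟩
  have hL' := (le_max_left L R).trans hu
  by_cases h : 0 ≤ u.im
  · exact hL u hL' h (by rwa [abs_of_nonneg h] at hu2)
  · push Not at h
    have h4 := hL ((starRingEnd ℂ) u) (by simpa using hL') (by simp; linarith)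
      (by rw [abs_of_neg h] at hu2; simpa using hu2)
    rwa [cls_W_conj ha, RCLike.norm_conj] at h4

theorem cls_shift {ρ θ0 : ℝ} {a : ℕ → ℝ} (ha : Cls ρ θ0 a) (hρ : 0 < ρ) (hθ00 : 0 < θ0)
    (hθ0 : θ0 ≤ Real.pi) (hρθ : ρ * θ0 ≤ Real.pi) (m : ℕ) (hm : 1 ≤ m) (ham : 0 < a m)
    (hz : ∀ j, 1 ≤ j → j < m → a j = 0) : Cls ρ θ0 (sh m a) := by
  obtain ⟨hd, hsd, hder, hconj, hnorm, hrealv, hge, hmono⟩ := basic a ha.nonneg ha.sm
  obtain ⟨hS, hD⟩ := deriv_shift a ha.nonneg ha.sm m hm hz hder hsd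
  refine ⟨?_, ?_, ?_, hS, ?_, ?_⟩
  · intro k
    exact mul_nonneg (Nat.cast_nonneg _) (ha.nonneg _)
  · have : (0 : ℝ) < ((0 + m : ℕ) : ℝ) := by
      have : 0 < 0 + m := by omega
      exact_mod_cast this
    have h2 : 0 < a (0 + m) := by simpa using ham
    exact mul_pos this h2
  · intro N
    obtain ⟨k, hk, hk2⟩ := ha.inf (N + m)
    refine ⟨k - m, by omega, ?_⟩
    have h3 : k - m + m = k := by omega
    rw [sh, h3]
    exact mul_pos (by have : 0 < k := by omega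
                      exact_mod_cast this) hk2
  · obtain ⟨C, hC⟩ := ha.growth
    exact growth_shift a ha.nonneg ha.sm m hm ρ C hρ hC
  · intro θ hθ
    obtain ⟨L, hL⟩ := cls_big ha hρ hθ0 hρθ (max θ (θ0 / 2)) (lt_of_lt_of_le (by linarith) (le_max_right _ _))
      (max_lt hθ (by linarith)) 1
    refine ⟨L, fun u hu hu2 h => ?_⟩
    have h1 := (hL u hu (hu2.trans (le_max_left _ _))).2
    rw [W, hD, h] at h1
    norm_num at h1

theorem cls_W_neg {ρ θ0 : ℝ} {a : ℕ → ℝ} (ha : Cls ρ θ0 a) :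
    ∀ ε : ℝ, 0 < ε → ∃ S0 : ℝ, ∀ u : ℂ, u.re ≤ S0 → ‖W (Fn a) u‖ ≤ ε := by
  intro ε hε
  obtain ⟨hd, hsd, hder, hconj, hnorm, hrealv, hge, hmono⟩ := basic a ha.nonneg ha.sm
  have hn : ∀ k : ℕ, 0 ≤ (k : ℝ) * a k := fun k => mul_nonneg (Nat.cast_nonneg k) (ha.nonneg k)
  obtain ⟨S1, hS1⟩ := cls_low ha
  have ha0 := ha.pos0
  obtain ⟨S2, hS2⟩ := at_neg_inf (fun k => (k : ℝ) * a k) hn hsd (ε * (a 0 / 2)) (by positivity)
  refine ⟨min S1 S2, fun u hu => ?_⟩
  have h1 := hS1 u (hu.trans (min_le_left _ _))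
  have h2 := hS2 u (hu.trans (min_le_right _ _))
  simp only [Nat.cast_zero, zero_mul, Complex.ofReal_zero, sub_zero] at h2
  rw [W, hder, norm_div, div_le_iff₀ (by linarith)]
  exact h2.trans (mul_le_mul_of_nonneg_left h1 hε.le)

theorem cls_step {ρ θ0 : ℝ} {a : ℕ → ℝ} (ha : Cls ρ θ0 a) (hρ : 0 < ρ) (hθ00 : 0 < θ0)
    (hθ0 : θ0 ≤ Real.pi) (hρθ : ρ * θ0 ≤ Real.pi) (m : ℕ) (hm : 1 ≤ m) (ham : 0 < a m)
    (hz : ∀ j, 1 ≤ j → j < m → a j = 0) (θ : ℝ) (h0 : 0 < θ) (h1 : θ < θ0)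
    (hn0 : ∀ x : ℝ, Fn a (x + θ * I) ≠ 0) (hn1 : ∀ x : ℝ, Fn (sh m a) (x + θ * I) ≠ 0) :
    ∀ ε : ℝ, 0 < ε → ∃ L : ℝ, ∀ S T : ℝ, S ≤ -L → L ≤ T →
      Phi (Fn (sh m a)) θ S T ≤ Phi (Fn a) θ S T + ε -
        (m * θ - |Complex.arg (exp (((m * θ : ℝ) : ℂ) * I))|) := by
  have hb := cls_shift ha hρ hθ00 hθ0 hρθ m hm ham hz
  obtain ⟨hd, hsd, hder, hconj, hnorm, hrealv, hge, hmono⟩ := basic a ha.nonneg ha.sm
  obtain ⟨hd', -, -, -, -, -, -, -⟩ := basic (sh m a) hb.nonneg hb.sm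
  obtain ⟨hS, hD⟩ := deriv_shift a ha.nonneg ha.sm m hm hz hder hsd
  refine step_ineq (Fn a) (Fn (sh m a)) m θ (a 0) (sh m a 0) h0 hd hd' hD hn0 hn1 ha.pos0 hb.pos0
    (at_neg_inf a ha.nonneg ha.sm) (at_neg_inf _ hb.nonneg hb.sm) (cls_W_neg ha) (cls_W_neg hb)
    (fun x => ⟨(cls_real ha x).2.1, (cls_real ha x).1, (cls_real hb x).2.1, (cls_real hb x).1⟩)
    ?_ (cls_im ha hρ hθ0 hρθ θ h0 h1)
  intro M
  obtain ⟨L, hL⟩ := cls_big ha hρ hθ0 hρθ θ h0 h1 M
  exact ⟨L, fun u hu h2 h3 => hL u hu (by rw [abs_of_nonneg h2]; exact h3)⟩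








/-- next index of the support -/
noncomputable def nx (b : ℕ → ℝ) : ℕ := sInf {m : ℕ | 1 ≤ m ∧ 0 < b m}

theorem nx_spec {ρ θ0 : ℝ} {b : ℕ → ℝ} (hb : Cls ρ θ0 b) :
    1 ≤ nx b ∧ 0 < b (nx b) ∧ ∀ j, 1 ≤ j → j < nx b → b j = 0 := by
  have hne : {m : ℕ | 1 ≤ m ∧ 0 < b m}.Nonempty := by
    obtain ⟨k, h1, h2⟩ := hb.inf 1
    exact ⟨k, h1, h2⟩
  have h := Nat.sInf_mem hne
  refine ⟨h.1, h.2, fun j hj hj2 => ?_⟩
  by_contra h3
  have h4 : 0 < b j := lt_of_le_of_ne (hb.nonneg j) (Ne.symm h3)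
  have h5 : nx b ≤ j := Nat.sInf_le ⟨hj, h4⟩
  omega

/-- iterates -/
noncomputable def it (a : ℕ → ℝ) : ℕ → (ℕ → ℝ)
  | 0 => a
  | i + 1 => sh (nx (it a i)) (it a i)

theorem it_cls {ρ θ0 : ℝ} {a : ℕ → ℝ} (ha : Cls ρ θ0 a) (hρ : 0 < ρ) (hθ00 : 0 < θ0)
    (hθ0 : θ0 ≤ Real.pi) (hρθ : ρ * θ0 ≤ Real.pi) (i : ℕ) : Cls ρ θ0 (it a i) := by
  induction i with
  | zero => exact ha
  | succ i ih =>
    obtain ⟨h1, h2, h3⟩ := nx_spec ih
    exact cls_shift ih hρ hθ00 hθ0 hρθ _ h1 h2 h3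

/-- the gap positions of length `n` below `N` -/
def gp (n : ℕ) (b : ℕ → ℝ) : Set ℕ := {m : ℕ | 0 < b m ∧ 0 < b (m + n) ∧ ∀ i, 0 < i → i < n → b (m + i) = 0}

/-- the drop -/
noncomputable def drop (θ : ℝ) (m : ℕ) : ℝ := m * θ - |Complex.arg (exp (((m * θ : ℝ) : ℂ) * I))|

theorem drop_nonneg (θ : ℝ) (hθ : 0 < θ) (m : ℕ) : 0 ≤ drop θ m := by
  unfold drop
  have hm : 0 ≤ (m : ℝ) * θ := by positivity
  by_cases h : (m : ℝ) * θ ≤ Real.pi
  · rw [Complex.arg_exp_mul_I, (toIocMod_eq_self _).2 ⟨by linarith [Real.pi_pos], by linarith⟩, abs_of_nonneg hm]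
    linarith
  · have := Complex.abs_arg_le_pi (exp (((m * θ : ℝ) : ℂ) * I))
    linarith

/-- upper bound predicate -/
def UB (θ : ℝ) (b : ℕ → ℝ) (c : ℝ) : Prop :=
  ∀ ε : ℝ, 0 < ε → ∃ L : ℝ, ∀ S T : ℝ, S ≤ -L → L ≤ T → Phi (Fn b) θ S T ≤ c + ε

theorem main_ineq {ρ θ0 : ℝ} {a : ℕ → ℝ} (ha : Cls ρ θ0 a) (hρ : 0 < ρ) (hθ00 : 0 < θ0)
    (hθ0 : θ0 ≤ Real.pi) (hρθ : ρ * θ0 ≤ Real.pi) (θ : ℝ) (h0 : 0 < θ) (h1 : θ < θ0)
    (hgen : ∀ i : ℕ, ∀ x : ℝ, Fn (it a i) (x + θ * I) ≠ 0) (n : ℕ) (hn : 1 ≤ n) :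
    ∀ N : ℕ, ∀ i : ℕ, ∀ c : ℝ, UB θ (it a i) c →
      drop θ n * ((gp n (it a i) ∩ Set.Iio N).ncard : ℝ) ≤ c := by
  intro N
  induction N using Nat.strong_induction_on with
  | _ N ih =>
    intro i c hc
    have hb := it_cls ha hρ hθ00 hθ0 hρθ i
    set b := it a i with hbdef
    obtain ⟨hm1, hm2, hm3⟩ := nx_spec hb
    set m := nx b with hm
    have hdn := drop_nonneg θ h0 n
    have hdm := drop_nonneg θ h0 m
    by_cases hN : N = 0
    · have hcnn : 0 ≤ c := by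
        obtain ⟨ws, hws, hmain⟩ := cls_main hb hρ hρθ θ h0 h1
        obtain ⟨hlow, -, -⟩ := hmain θ h0 le_rfl (hgen i)
        by_contra hneg
        push Not at hneg
        obtain ⟨L1, hL1⟩ := hc (-c / 4) (by linarith)
        obtain ⟨L2, hL2⟩ := hlow (-c / 4) (by linarith)
        have e1 := hL1 (-(max L1 L2)) (max L1 L2) (neg_le_neg (le_max_left _ _)) (le_max_left _ _)
        have e2 := hL2 (-(max L1 L2)) (max L1 L2) (neg_le_neg (le_max_right _ _)) (le_max_right _ _)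
        linarith
      have : (gp n b ∩ Set.Iio N) = ∅ := by
        rw [hN]; ext x; simp
      rw [this]
      simpa using hcnn
    · -- step
      have hstep := cls_step hb hρ hθ00 hθ0 hρθ m hm1 hm2 hm3 θ h0 h1 (hgen i) (hgen (i + 1))
      have hUB : UB θ (it a (i + 1)) (c - drop θ m) := by
        intro ε hε
        obtain ⟨L1, hL1⟩ := hc (ε / 2) (by linarith)
        obtain ⟨L2, hL2⟩ := hstep (ε / 2) (by linarith)
        refine ⟨max L1 L2, fun S T hS hT => ?_⟩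
        have e1 := hL1 S T (hS.trans (neg_le_neg (le_max_left _ _))) ((le_max_left _ _).trans hT)
        have e2 := hL2 S T (hS.trans (neg_le_neg (le_max_right _ _))) ((le_max_right _ _).trans hT)
        have e3 : Phi (Fn (it a (i + 1))) θ S T ≤ Phi (Fn b) θ S T + ε / 2 - drop θ m := e2
        linarith
      have hrec := ih (N - m) (by omega) (i + 1) _ hUB
      -- counting
      have hsub : gp n b ∩ Set.Iio N ⊆
          (if m = n then {0} else ∅) ∪ (fun k => k + m) '' (gp n (it a (i + 1)) ∩ Set.Iio (N - m)) := by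
        intro x hx
        obtain ⟨⟨hx1, hx2, hx3⟩, hxN⟩ := hx
        by_cases hx0 : x = 0
        · left
          have hnm : m = n := by
            rw [hx0] at hx2 hx3
            simp only [zero_add] at hx2 hx3
            have h5 : m ≤ n := Nat.sInf_le ⟨hn, hx2⟩
            rcases lt_or_eq_of_le h5 with h6 | h6
            · exfalso
              have := hx3 m (by omega) h6
              rw [this] at hm2
              exact lt_irrefl _ hm2
            · exact h6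
          rw [if_pos hnm, hx0]
          rfl
        · right
          have hmx : m ≤ x := Nat.sInf_le ⟨by omega, hx1⟩
          refine ⟨x - m, ⟨⟨?_, ?_, ?_⟩, ?_⟩, by simp only []; omega⟩
          · show 0 < sh m b (x - m)
            rw [sh, Nat.sub_add_cancel hmx]
            exact mul_pos (by have : 0 < x := by omega
                              exact_mod_cast this) hx1
          · show 0 < sh m b (x - m + n)
            have e : x - m + n + m = x + n := by omega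
            rw [sh, e]
            exact mul_pos (by have : 0 < x + n := by omega
                              exact_mod_cast this) hx2
          · intro j hj hj2
            show sh m b (x - m + j) = 0
            have e : x - m + j + m = x + j := by omega
            rw [sh, e, hx3 j hj hj2, mul_zero]
          · simp only [Set.mem_Iio] at hxN ⊢
            omega
      have hfinR : (gp n (it a (i + 1)) ∩ Set.Iio (N - m)).Finite :=
        (Set.finite_Iio _).subset Set.inter_subset_right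
      have hcard1 : (gp n b ∩ Set.Iio N).ncard ≤
          (if m = n then 1 else 0) + (gp n (it a (i + 1)) ∩ Set.Iio (N - m)).ncard := by
        have hfin2 : ((if m = n then {0} else ∅ : Set ℕ) ∪
            (fun k => k + m) '' (gp n (it a (i + 1)) ∩ Set.Iio (N - m))).Finite := by
          refine Set.Finite.union ?_ (hfinR.image _)
          split_ifs
          · exact Set.finite_singleton _
          · exact Set.finite_empty
        refine (Set.ncard_le_ncard hsub hfin2).trans ((Set.ncard_union_le _ _).trans ?_)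
        refine add_le_add ?_ (Set.ncard_image_le hfinR)
        split_ifs
        · simp
        · simp
      by_cases hmn : m = n
      · rw [if_pos hmn] at hcard1
        have hcard2 : ((gp n b ∩ Set.Iio N).ncard : ℝ) ≤
            1 + ((gp n (it a (i + 1)) ∩ Set.Iio (N - m)).ncard : ℝ) := by exact_mod_cast hcard1
        rw [hmn] at hrec hcard2
        nlinarith
      · rw [if_neg hmn, zero_add] at hcard1
        have hcard2 : ((gp n b ∩ Set.Iio N).ncard : ℝ) ≤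
            ((gp n (it a (i + 1)) ∩ Set.Iio (N - m)).ncard : ℝ) := by exact_mod_cast hcard1
        nlinarith

theorem countable_bad (F : ℂ → ℂ) (hF : Differentiable ℂ F) (hne : ∃ u, F u ≠ 0) :
    {θ : ℝ | ∃ x : ℝ, F (x + θ * I) = 0}.Countable := by
  have h1 : {u : ℂ | F u = 0} ⊆ ⋃ k : ℕ, {u | u ∈ Metric.closedBall (0 : ℂ) k ∧ F u = 0} := by
    intro u hu
    obtain ⟨k, hk⟩ := exists_nat_ge ‖u‖
    rw [Set.mem_iUnion]
    exact ⟨k, by simpa using hk, hu⟩
  have h2 : {u : ℂ | F u = 0}.Countable :=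
    (Set.countable_iUnion (fun k => (finite_zeros F hF hne _ (isCompact_closedBall _ _)).countable)).mono h1
  refine (h2.image Complex.im).mono ?_
  rintro θ ⟨x, hx⟩
  exact ⟨(x : ℂ) + θ * I, hx, by simp⟩

theorem cls_finite_gaps {ρ θ0 : ℝ} {a : ℕ → ℝ} (ha : Cls ρ θ0 a) (hρ : 0 < ρ)
    (hθ0 : θ0 ≤ Real.pi) (hρθ : ρ * θ0 ≤ Real.pi) (n : ℕ) (hn : 1 ≤ n)
    (hnθ : Real.pi / n < θ0) : (gp n a).Finite := by
  have hn' : (0 : ℝ) < n := by exact_mod_cast hn
  have hpn : 0 < Real.pi / n := div_pos Real.pi_pos hn'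
  have hθ00 : 0 < θ0 := hpn.trans hnθ
  have hcount : (⋃ i : ℕ, {θ : ℝ | ∃ x : ℝ, Fn (it a i) (x + θ * I) = 0}).Countable := by
    refine Set.countable_iUnion (fun i => ?_)
    have hb := it_cls ha hρ hθ00 hθ0 hρθ i
    obtain ⟨hd, -, -, -, -, -, -, -⟩ := basic (it a i) hb.nonneg hb.sm
    exact countable_bad _ hd ⟨((0 : ℝ) : ℂ), (cls_real hb 0).2.2.2.2⟩
  obtain ⟨θ, hθm, hθ1, hθ2⟩ := (hcount.dense_compl ℝ).exists_between hnθ
  have hgen : ∀ i : ℕ, ∀ x : ℝ, Fn (it a i) (x + θ * I) ≠ 0 := by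
    intro i x hx
    exact hθm (Set.mem_iUnion.2 ⟨i, x, hx⟩)
  have hθ0' : 0 < θ := hpn.trans hθ1
  obtain ⟨ws, hws, hmain⟩ := cls_main ha hρ hρθ θ hθ0' hθ2
  obtain ⟨-, ⟨C, L, hCL⟩, -⟩ := hmain θ hθ0' le_rfl (hgen 0)
  have hUB : UB θ (it a 0) C := by
    intro ε hε
    exact ⟨L, fun S T hS hT => (hCL S T hS hT).trans (by linarith)⟩
  have hall := fun N => main_ineq ha hρ hθ00 hθ0 hρθ θ hθ0' hθ2 hgen n hn N 0 C hUB
  have hdrop : 0 < drop θ n := by
    unfold drop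
    have h3 := Complex.abs_arg_le_pi (exp (((n * θ : ℝ) : ℂ) * I))
    have h4 : Real.pi < n * θ := by
      rw [div_lt_iff₀ hn'] at hθ1
      linarith
    linarith
  by_contra hinf
  have hinf' : (gp n a).Infinite := hinf
  obtain ⟨K, hK⟩ := exists_nat_gt (C / drop θ n)
  obtain ⟨t, ht1, ht2⟩ := hinf'.exists_subset_card_eq K
  obtain ⟨N, hN⟩ : ∃ N : ℕ, ∀ x ∈ t, x < N := by
    refine ⟨t.sup id + 1, fun x hx => ?_⟩
    have : id x ≤ t.sup id := Finset.le_sup hx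
    simp only [id] at this
    omega
  have h5 : (t : Set ℕ) ⊆ gp n a ∩ Set.Iio N := fun x hx => ⟨ht1 hx, hN x (by simpa using hx)⟩
  have h6 : K ≤ (gp n a ∩ Set.Iio N).ncard := by
    rw [← ht2, ← Set.ncard_coe_finset]
    exact Set.ncard_le_ncard h5 ((Set.finite_Iio _).subset Set.inter_subset_right)
  have h7 : drop θ n * ((gp n a ∩ Set.Iio N).ncard : ℝ) ≤ C := hall N
  have h8 : (K : ℝ) ≤ ((gp n a ∩ Set.Iio N).ncard : ℝ) := by exact_mod_cast h6
  rw [div_lt_iff₀ hdrop] at hK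
  nlinarith





theorem core_n (a : ℕ → ℝ) (ha : ∀ j, 0 ≤ a j) (ha0 : 0 < a 0) (F : ℂ → ℂ)
    (hF : ∀ z : ℂ, HasSum (fun j => (a j : ℂ) * z ^ j) (F z))
    (σ : ℝ) (hσ0 : 0 < σ) (r0 : ℝ)
    (hgrow : ∀ z : ℂ, r0 ≤ ‖z‖ → ‖F z‖ ≤ Real.exp (‖z‖ ^ σ))
    (n : ℕ) (hn : 1 ≤ n) (θ0 : ℝ) (h1 : Real.pi / n < θ0) (h2 : θ0 ≤ Real.pi)
    (h3 : σ * θ0 ≤ Real.pi)
    (hfin : {ζ : ℂ | F ζ = 0 ∧ |ζ.arg| < θ0}.Finite) : (gp n a).Finite := by
  by_contra hgaps
  have hgaps' : (gp n a).Infinite := hgaps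
  have hFn : ∀ u : ℂ, Fn a u = F (exp u) := by
    intro u
    rw [Fn, ← (hF (exp u)).tsum_eq]
    refine tsum_congr (fun k => ?_)
    rw [← Complex.exp_nat_mul]
  have hsm : Sm a := by
    intro x
    have h := (hF (exp (x : ℂ))).summable
    have h' : Summable (fun j => ((a j * Real.exp ((j : ℝ) * x) : ℝ) : ℂ)) := by
      refine h.congr (fun j => ?_)
      rw [← Complex.exp_nat_mul]
      push_cast
      rfl
    exact Complex.summable_ofReal.1 h'
  obtain ⟨-, -, -, -, hnorm, -, -, hmono⟩ := basic a ha hsm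
  refine hgaps' (cls_finite_gaps (ρ := σ) (θ0 := θ0) ⟨ha, ha0, ?_, hsm, ?_, ?_⟩ hσ0 h2 h3 n hn h1)
  · intro N
    obtain ⟨m, hm, hm2⟩ := hgaps'.exists_gt N
    exact ⟨m, hm2.le, hm.1⟩
  · -- growth
    have hb : ∃ B : ℝ, 0 ≤ B ∧ ∀ x : ℝ, Real.exp x < r0 → ‖Fn a x‖ ≤ Real.exp B := by
      refine ⟨max 0 (Real.log (‖Fn a ((Real.log (max r0 1) : ℝ) : ℂ)‖ + 1)), le_max_left _ _, fun x hx => ?_⟩
      have hx1 : x ≤ Real.log (max r0 1) := by
        rw [Real.le_log_iff_exp_le (by positivity)]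
        exact hx.le.trans (le_max_left _ _)
      refine (hmono x _ hx1).trans ?_
      refine le_trans ?_ (Real.exp_le_exp.2 (le_max_right _ _))
      rw [Real.exp_log (by positivity)]
      linarith
    obtain ⟨B, hB0, hB⟩ := hb
    refine ⟨1 + B, fun x hx => ?_⟩
    have he : 1 ≤ Real.exp (σ * x) := Real.one_le_exp (by positivity)
    by_cases h : r0 ≤ Real.exp x
    · have h4 := hgrow (exp (x : ℂ)) (by rwa [← Complex.ofReal_exp, Complex.norm_real, Real.norm_eq_abs, abs_of_pos (Real.exp_pos x)])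
      rw [← hFn, ← Complex.ofReal_exp, Complex.norm_real, Real.norm_eq_abs, abs_of_pos (Real.exp_pos x),
        ← Real.exp_mul, mul_comm x σ] at h4
      refine h4.trans (Real.exp_le_exp.2 ?_)
      nlinarith
    · push Not at h
      refine (hB x h).trans (Real.exp_le_exp.2 ?_)
      nlinarith
  · intro θ hθ
    obtain ⟨R, hR⟩ : ∃ R : ℝ, ∀ ζ ∈ {ζ : ℂ | F ζ = 0 ∧ |ζ.arg| < θ0}, ‖ζ‖ ≤ R := by
      obtain ⟨R, hR⟩ := hfin.isBounded.exists_norm_le
      exact ⟨R, hR⟩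
    refine ⟨Real.log (|R| + 1) + 1, fun u hu hu2 h0 => ?_⟩
    rw [hFn] at h0
    have hpi : |u.im| < Real.pi := by linarith
    have harg : (exp u).arg = u.im := by
      rw [Complex.arg_exp, (toIocMod_eq_self _).2]
      rw [abs_lt] at hpi
      exact ⟨hpi.1, by linarith [hpi.2]⟩
    have h5 := hR (exp u) ⟨h0, by rw [harg]; linarith⟩
    rw [Complex.norm_exp] at h5
    have h6 : |R| + 1 < Real.exp u.re := by
      rw [← Real.log_lt_iff_lt_exp (by positivity)]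
      linarith
    linarith [le_abs_self R]


end Pool.Agent.Helper758.GZ
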