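import Mathlib

/-! Limit sets of entire functions: common definitions. -/

namespace Pool.Agent.Helper758.LS
open MeasureTheory Filter Topology Set Complex

/-- partial derivatives in the plane `ℂ = ℝ²`, `z = x + i y` -/
noncomputable def dx (u : ℂ → ℝ) (z : ℂ) : ℝ := fderiv ℝ u z 1
noncomputable def dy (u : ℂ → ℝ) (z : ℂ) : ℝ := fderiv ℝ u z I

/-- `L u = u_xx + 2ρ u_x + u_yy + ρ² u`, i.e. `e^{-ρx} Δ (e^{ρx} u)` -/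
noncomputable def Lop (ρ : ℝ) (u : ℂ → ℝ) (z : ℂ) : ℝ :=
  dx (dx u) z + 2 * ρ * dx u z + dy (dy u) z + ρ ^ 2 * u z

/-- radial smooth kernel, support = closed unit disc, integral one -/
noncomputable def psi (z : ℂ) : ℝ :=
  expNegInvGlue (1 - ‖z‖ ^ 2) / ∫ w : ℂ, expNegInvGlue (1 - ‖w‖ ^ 2)
noncomputable def psid (δ : ℝ) (z : ℂ) : ℝ := (δ⁻¹) ^ 2 * psi (δ⁻¹ • z)
/-- mollification -/
noncomputable def moll (δ : ℝ) (u : ℂ → ℝ) (z : ℂ) : ℝ := ∫ w, psid δ (z - w) * u w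

/-- one period box `x0 ≤ x ≤ x1`, `0 ≤ y ≤ 2π` -/
def box (x0 x1 : ℝ) : Set ℂ := {z | z.re ∈ Icc x0 x1 ∧ z.im ∈ Icc 0 (2 * Real.pi)}
/-- big square -/
def bQ (K : ℝ) : Set ℂ := {z | |z.re| ≤ K ∧ |z.im| ≤ K}

/-- the class of limit functions -/
structure ClsS (ρ : ℝ) (h : ℝ → ℝ) (C : ℝ) (ω : ℝ → ℝ) (U : ℂ → ℝ) : Prop where
  loc : LocallyIntegrable U volume
  per : ∀ᵐ z : ℂ, U (z + 2 * Real.pi * I) = U z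
  upper : ∀ᵐ z : ℂ, U z ≤ h z.im
  l1 : ∀ x0 : ℝ, ∫ z in box x0 (x0 + 1), |U z| ≤ C
  sub : ∀ δ ∈ Ioc (0 : ℝ) 1, ∀ z, 0 ≤ Lop ρ (moll δ U) z
  con : ∀ δ ∈ Ioc (0 : ℝ) 1, ∀ z, 0 < Lop ρ (moll δ U) z → h z.im - ω δ ≤ moll δ U z

/-- standing assumptions on the data -/
structure Dat (ρ : ℝ) (h : ℝ → ℝ) (ω : ℝ → ℝ) : Prop where
  rho : 0 < ρ
  hcont : Continuous h
  hper : ∀ y, h (y + 2 * Real.pi) = h y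
  om0 : ∀ δ, 0 ≤ ω δ
  omlim : Tendsto ω (𝓝[>] 0) (𝓝 0)

/-- weights -/
structure Wt (φ : ℝ → ℝ) : Prop where
  smooth : ContDiff ℝ 1 φ
  nonneg : ∀ s, 0 ≤ φ s
  supp : ∃ S, ∀ s, S ≤ s → φ s = 0

noncomputable def Bf (φ : ℝ → ℝ) (s : ℝ) : ℝ := ∫ r in (0 : ℝ)..s, φ r
noncomputable def Psif (φ : ℝ → ℝ) (a b : ℝ) : ℝ := ∫ β in (0 : ℝ)..b, φ (a ^ 2 + β ^ 2)

/-- `a = u + u_x/ρ`, `b = u_y/ρ` -/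
noncomputable def aof (ρ : ℝ) (u : ℂ → ℝ) (z : ℂ) : ℝ := u z + dx u z / ρ
noncomputable def bof (ρ : ℝ) (u : ℂ → ℝ) (z : ℂ) : ℝ := dy u z / ρ

noncomputable def Wsm (ρ : ℝ) (φ χ : ℝ → ℝ) (u : ℂ → ℝ) : ℝ :=
  ∫ x : ℝ, ∫ y in (0 : ℝ)..(2 * Real.pi),
    χ x * ((ρ / 2) * Bf φ (aof ρ u (x + y * I) ^ 2 + bof ρ u (x + y * I) ^ 2)
      - dy (aof ρ u) (x + y * I) * Psif φ (aof ρ u (x + y * I)) (bof ρ u (x + y * I)))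

noncomputable def Dsm (ρ : ℝ) (φ X : ℝ → ℝ) (u : ℂ → ℝ) : ℝ :=
  ∫ x : ℝ, ∫ y in (0 : ℝ)..(2 * Real.pi),
    X x * (φ (aof ρ u (x + y * I) ^ 2 + bof ρ u (x + y * I) ^ 2)
      * (dx (aof ρ u) (x + y * I) ^ 2 + dx (bof ρ u) (x + y * I) ^ 2))

noncomputable def Ksm (ρ : ℝ) (φ X : ℝ → ℝ) (u : ℂ → ℝ) : ℝ :=
  ∫ x : ℝ, ∫ y in (0 : ℝ)..(2 * Real.pi),
    X x * (φ (aof ρ u (x + y * I) ^ 2 + bof ρ u (x + y * I) ^ 2)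
      * dx (aof ρ u) (x + y * I) * Lop ρ u (x + y * I) / ρ)

/-- convergence of translates in `L¹_loc` -/
def ConvTo (P : ℂ → ℝ) (τ : ℕ → ℝ) (U : ℂ → ℝ) : Prop :=
  ∀ K : ℝ, Tendsto (fun n => ∫ z in bQ K, |P (z + τ n) - U z|) atTop (𝓝 0)

/-- translation limits of `P` -/
def LimSet (P : ℂ → ℝ) : Set (ℂ → ℝ) :=
  {U | LocallyIntegrable U volume ∧ ∃ τ : ℕ → ℝ, Tendsto τ atTop atTop ∧ ConvTo P τ U}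

/-- assumptions on the path function `P(x+iy) = e^{-ρx} log |f(e^{x+iy})|` -/
structure PathOK (ρ : ℝ) (h : ℝ → ℝ) (C : ℝ) (ω : ℝ → ℝ) (P : ℂ → ℝ) : Prop where
  loc : LocallyIntegrable P volume
  per : ∀ z : ℂ, P (z + 2 * Real.pi * I) = P z
  l1 : ∀ x0 : ℝ, 0 ≤ x0 → ∫ z in box x0 (x0 + 1), |P z| ≤ C
  upper : ∀ ε > 0, ∃ X : ℝ, ∀ z : ℂ, X ≤ z.re → P z ≤ h z.im + ε
  sub : ∀ δ ∈ Ioc (0 : ℝ) 1, ∀ z, 0 ≤ Lop ρ (moll δ P) z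
  con : ∀ δ ∈ Ioc (0 : ℝ) 1, ∀ ε > 0, ∃ X : ℝ, ∀ z : ℂ, X ≤ z.re →
    0 < Lop ρ (moll δ P) z → h z.im - ω δ - ε ≤ moll δ P z
  unif : ∃ κ : ℝ → ℝ, Tendsto κ (𝓝[>] 0) (𝓝 0) ∧ ∀ δ ∈ Ioc (0 : ℝ) 1, ∀ x0 : ℝ, 1 ≤ x0 →
    ∫ z in box x0 (x0 + 1), |moll δ P z - P z| ≤ κ δ

end Pool.Agent.Helper758.LS
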