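import Mathlib
import Pool.Agent.Helper758.LSDefs
import Pool.Agent.Helper758.FrDefs

/-! Limit sets of entire functions: further common definitions. -/

namespace Pool.Agent.Helper758.LS
open MeasureTheory Filter Topology Set Complex

/-- the function `e^{-ρx} log |f(e^{x+iy})|` -/
noncomputable def cU (ρ : ℝ) (f : ℂ → ℂ) (z : ℂ) : ℝ :=
  Real.exp (-(ρ * z.re)) * Real.log ‖f (cexp z)‖

/-- truncations -/
noncomputable def be (s : ℝ) : ℝ := ∫ t in (0 : ℝ)..s, Real.smoothTransition (t - 1)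
noncomputable def beN (N s : ℝ) : ℝ := N * be (s / N)

/-- the limiting functional -/
noncomputable def Wl (ρ : ℝ) (φ χ : ℝ → ℝ) (U : ℂ → ℝ) : ℝ :=
  limUnder (𝓝[>] (0 : ℝ)) (fun δ => Wsm ρ φ χ (moll δ U))

/-- translation -/
def sh (s : ℝ) (U : ℂ → ℝ) : ℂ → ℝ := fun z => U (z + s)

/-- cut-off functions -/
structure Cut (χ : ℝ → ℝ) : Prop where
  smooth : ContDiff ℝ 2 χ
  nonneg : ∀ x, 0 ≤ χ x
  supp : ∀ x, 1 ≤ |x| → χ x = 0
  int : ∫ x, χ x = 1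

/-- one-dimensional functional of a stationary state `g` -/
noncomputable def W1 (ρ : ℝ) (φ : ℝ → ℝ) (g : ℝ → ℝ) : ℝ :=
  ∫ y in (0 : ℝ)..(2 * Real.pi), ((ρ / 2) * Bf φ (g y ^ 2 + (deriv g y / ρ) ^ 2)
      - deriv g y * Psif φ (g y) (deriv g y / ρ))

/-- unit mass bump profile: smooth, supported in `[0,1]`, integral one -/
structure BumpOne (θ : ℝ → ℝ) : Prop where
  smooth : ContDiff ℝ 1 θ
  nonneg : ∀ s, 0 ≤ θ s
  supp : ∀ s, s ≤ 0 ∨ 1 ≤ s → θ s = 0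
  int : ∫ s in (0 : ℝ)..1, θ s = 1

/-- weight concentrated on `[t², t² + d]` -/
noncomputable def wtt (θ : ℝ → ℝ) (t d : ℝ) (s : ℝ) : ℝ := θ ((s - t ^ 2) / d) / d

end Pool.Agent.Helper758.LS
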