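import Mathlib
import Pool.Agent.Helper758.LSDefs
import Pool.Agent.Helper758.LSDefs2
import Pool.Agent.Helper758.FrDefs

namespace Pool.Agent.Helper758.LS
open MeasureTheory Filter Topology Set Complex

namespace M_A1



/-- bound along the ray -/
def Bd (F : ℂ → ℂ) (ρ y A : ℝ) : Prop :=
  ∃ X : ℝ, ∀ x : ℝ, X ≤ x → ‖F (x + y * I)‖ ≤ Real.exp (A * Real.exp (ρ * x))

theorem Bd.mono {F : ℂ → ℂ} {ρ y A A' : ℝ} (h : Bd F ρ y A) (hA : A ≤ A') : Bd F ρ y A' := by
  obtain ⟨X, hX⟩ := h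
  refine ⟨X, fun x hx => (hX x hx).trans ?_⟩
  exact Real.exp_le_exp.2 (mul_le_mul_of_nonneg_right hA (Real.exp_pos _).le)

theorem pl {F : ℂ → ℂ} (hF : Differentiable ℂ F) {ρ M B : ℝ} (hρ : 0 < ρ) (hM : 1 ≤ M) (hB : 0 ≤ B)
    (hb : ∀ z : ℂ, ‖F z‖ ≤ M * Real.exp (B * Real.exp (ρ * z.re))) {a c A C : ℝ} (hac : a < c)
    (hacρ : c - a < Real.pi / ρ) (hA : Bd F ρ a A) (hC : Bd F ρ c C) :
    ∃ K : ℝ, 0 < K ∧ ∀ z : ℂ, a ≤ z.im → z.im ≤ c →
      ‖F z‖ ≤ K * Real.exp (Real.exp (ρ * z.re) *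
        ((A * Real.sin (ρ * (c - z.im)) + C * Real.sin (ρ * (z.im - a))) /
          Real.sin (ρ * (c - a)))) := by
  have hca : 0 < c - a := sub_pos.2 hac
  have hs : 0 < Real.sin (ρ * (c - a)) := by
    apply Real.sin_pos_of_pos_of_lt_pi (mul_pos hρ hca)
    rw [lt_div_iff₀ hρ] at hacρ
    linarith
  set s := Real.sin (ρ * (c - a)) with hsdef
  let Q : ℂ := ⟨(A * Real.sin (ρ * c) - C * Real.sin (ρ * a)) / s,
    (A * Real.cos (ρ * c) - C * Real.cos (ρ * a)) / s⟩
  let S : ℝ → ℝ := fun y => (A * Real.sin (ρ * (c - y)) + C * Real.sin (ρ * (y - a))) / s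
  have hQ : ∀ z : ℂ, (Q * cexp (ρ * z)).re = Real.exp (ρ * z.re) * S z.im := by
    intro z
    rw [Complex.mul_re, Complex.exp_re, Complex.exp_im]
    simp only [Complex.re_ofReal_mul, Complex.im_ofReal_mul, Q, S]
    rw [mul_sub, mul_sub, Real.sin_sub, Real.sin_sub]
    field_simp
    ring
  let G : ℂ → ℂ := fun z => F z * cexp (-(Q * cexp (ρ * z)))
  have hG : Differentiable ℂ G := by
    apply hF.mul
    fun_prop
  have hGn : ∀ z, ‖G z‖ = ‖F z‖ * Real.exp (-(Real.exp (ρ * z.re) * S z.im)) := by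
    intro z
    simp only [G]
    rw [norm_mul, Complex.norm_exp, Complex.neg_re, hQ]
  have hGb : ∀ z, ‖G z‖ ≤ M * Real.exp ((B + ‖Q‖) * Real.exp (ρ * z.re)) := by
    intro z
    rw [hGn, add_mul, Real.exp_add, ← mul_assoc]
    apply mul_le_mul (hb z) _ (Real.exp_pos _).le (by positivity)
    apply Real.exp_le_exp.2
    rw [← hQ]
    have h1 := Complex.abs_re_le_norm (Q * cexp (ρ * z))
    rw [norm_mul, Complex.norm_exp] at h1
    simp only [Complex.re_ofReal_mul] at h1
    have h2 := neg_abs_le (Q * cexp (ρ * z)).re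
    linarith
  have hSa : S a = A := by
    simp only [S, sub_self, mul_zero, Real.sin_zero, add_zero]
    rw [← hsdef]
    field_simp
  have hSc : S c = C := by
    simp only [S, sub_self, mul_zero, Real.sin_zero, zero_add]
    rw [← hsdef]
    field_simp
  have key : ∀ (b D : ℝ), Bd F ρ b D → S b = D → ∃ K : ℝ, 0 < K ∧ ∀ z : ℂ, z.im = b → ‖G z‖ ≤ K := by
    intro b D hbd hSb
    obtain ⟨X, hX⟩ := hbd
    refine ⟨max 1 (M * Real.exp ((B + ‖Q‖) * Real.exp (ρ * X))), lt_max_of_lt_left one_pos, ?_⟩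
    intro z hz
    rcases le_total X z.re with h | h
    · refine le_trans ?_ (le_max_left _ _)
      have h1 := hX z.re h
      have h2 : ((z.re : ℂ) + (b : ℂ) * I) = z := by rw [← hz]; exact Complex.re_add_im z
      rw [h2] at h1
      rw [hGn, hz, hSb]
      calc ‖F z‖ * Real.exp (-(Real.exp (ρ * z.re) * D))
          ≤ Real.exp (D * Real.exp (ρ * z.re)) * Real.exp (-(Real.exp (ρ * z.re) * D)) :=
            mul_le_mul_of_nonneg_right h1 (Real.exp_pos _).le
        _ = 1 := by rw [← Real.exp_add, ← Real.exp_zero]; congr 1; ring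
    · refine le_trans ((hGb z).trans ?_) (le_max_right _ _)
      apply mul_le_mul_of_nonneg_left _ (by linarith)
      apply Real.exp_le_exp.2
      apply mul_le_mul_of_nonneg_left _ (by positivity)
      apply Real.exp_le_exp.2
      exact mul_le_mul_of_nonneg_left h hρ.le
  obtain ⟨K1, hK1, h1⟩ := key a A hA hSa
  obtain ⟨K2, hK2, h2⟩ := key c C hC hSc
  refine ⟨max K1 K2, lt_max_of_lt_left hK1, ?_⟩
  intro z hz1 hz2
  have h3 : ‖G z‖ ≤ max K1 K2 := by
    apply PhragmenLindelof.horizontal_strip (a := a) (b := c) hG.diffContOnCl _ 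
      (fun w hw => (h1 w hw).trans (le_max_left _ _)) (fun w hw => (h2 w hw).trans (le_max_right _ _))
      hz1 hz2
    refine ⟨ρ, ?_, B + ‖Q‖, ?_⟩
    · rw [lt_div_iff₀ hca]
      rw [lt_div_iff₀ hρ] at hacρ
      linarith
    · apply Asymptotics.IsBigO.of_bound M
      apply Filter.Eventually.of_forall
      intro w
      refine (hGb w).trans ?_
      apply mul_le_mul_of_nonneg_left _ (by linarith)
      rw [Real.norm_eq_abs, abs_of_pos (Real.exp_pos _)]
      apply Real.exp_le_exp.2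
      apply mul_le_mul_of_nonneg_left _ (by positivity)
      apply Real.exp_le_exp.2
      exact mul_le_mul_of_nonneg_left (le_abs_self _) hρ.le
  rw [hGn] at h3
  have h4 : ‖F z‖ = ‖F z‖ * Real.exp (-(Real.exp (ρ * z.re) * S z.im)) *
      Real.exp (Real.exp (ρ * z.re) * S z.im) := by
    rw [mul_assoc, ← Real.exp_add, neg_add_cancel, Real.exp_zero, mul_one]
  rw [h4]
  exact mul_le_mul_of_nonneg_right h3 (Real.exp_pos _).le


theorem const_le_exp {ρ K ε : ℝ} (hρ : 0 < ρ) (_hK : 0 < K) (hε : 0 < ε) :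
    ∃ X : ℝ, ∀ x : ℝ, X ≤ x → K ≤ Real.exp (ε * Real.exp (ρ * x)) := by
  have h1 : Tendsto (fun x : ℝ => Real.exp (ε * Real.exp (ρ * x))) atTop atTop :=
    Real.tendsto_exp_atTop.comp ((Real.tendsto_exp_atTop.comp
      (tendsto_id.const_mul_atTop hρ)).const_mul_atTop hε)
  obtain ⟨X, hX⟩ := (h1.eventually_ge_atTop K).exists_forall_of_atTop
  exact ⟨X, hX⟩

theorem pl_eps {F : ℂ → ℂ} (hF : Differentiable ℂ F) {ρ M B : ℝ} (hρ : 0 < ρ) (hM : 1 ≤ M)
    (hB : 0 ≤ B)
    (hb : ∀ z : ℂ, ‖F z‖ ≤ M * Real.exp (B * Real.exp (ρ * z.re))) {a c A C : ℝ} (hac : a < c)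
    (hacρ : c - a < Real.pi / ρ) (hA : Bd F ρ a A) (hC : Bd F ρ c C) {ε : ℝ} (hε : 0 < ε) :
    ∃ X : ℝ, ∀ z : ℂ, X ≤ z.re → a ≤ z.im → z.im ≤ c →
      ‖F z‖ ≤ Real.exp (
        ((A * Real.sin (ρ * (c - z.im)) + C * Real.sin (ρ * (z.im - a))) /
          Real.sin (ρ * (c - a)) + ε) * Real.exp (ρ * z.re)) := by
  obtain ⟨K, hK, h⟩ := pl hF hρ hM hB hb hac hacρ hA hC
  obtain ⟨X, hX⟩ := const_le_exp hρ hK hε
  refine ⟨X, fun z hz h1 h2 => (h z h1 h2).trans ?_⟩
  rw [add_mul, Real.exp_add, mul_comm (Real.exp _) (Real.exp (ε * _)),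
    mul_comm (Real.exp (ρ * z.re)) (_ / _)]
  exact mul_le_mul_of_nonneg_right (hX _ hz) (Real.exp_pos _).le

theorem conv_alg {hA hB hC sa ca sb cb sc cc : ℝ} (h1 : 0 < ca) (h2 : 0 < cb) (h3 : 0 < cc)
    (h0 : hB * (sc * ca - cc * sa) ≤ hA * (sc * cb - cc * sb) + hC * (sb * ca - cb * sa)) :
    hB / cb * (sc / cc - sa / ca) ≤ hA / ca * (sc / cc - sb / cb) + hC / cc * (sb / cb - sa / ca) := by
  have e3 : hB / cb * (sc / cc - sa / ca) = hB * (sc * ca - cc * sa) / (ca * cb * cc) := by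
    field_simp
  have e4 : hA / ca * (sc / cc - sb / cb) + hC / cc * (sb / cb - sa / ca) =
      (hA * (sc * cb - cc * sb) + hC * (sb * ca - cb * sa)) / (ca * cb * cc) := by
    field_simp
  rw [e3, e4]
  exact div_le_div_of_nonneg_right h0 (by positivity)

theorem TrigConvex.continuous' {ρ : ℝ} (hρ : 0 < ρ) {h : ℝ → ℝ} (ht : TrigConvex ρ h) :
    Continuous h := by
  rw [continuous_iff_continuousAt]
  intro y0
  let g : ℝ → ℝ := fun t => h (y0 + Real.arctan t / ρ) / Real.cos (Real.arctan t)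
  have hg : ConvexOn ℝ univ g := by
    apply convexOn_of_slope_mono_adjacent convex_univ
    intro x y z _ _ hxy hyz
    rw [div_le_div_iff₀ (sub_pos.2 hxy) (sub_pos.2 hyz)]
    have hcx := Real.cos_arctan_pos x
    have hcy := Real.cos_arctan_pos y
    have hcz := Real.cos_arctan_pos z
    have hx : x = Real.sin (Real.arctan x) / Real.cos (Real.arctan x) := by
      rw [← Real.tan_eq_sin_div_cos, Real.tan_arctan]
    have hy : y = Real.sin (Real.arctan y) / Real.cos (Real.arctan y) := by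
      rw [← Real.tan_eq_sin_div_cos, Real.tan_arctan]
    have hz : z = Real.sin (Real.arctan z) / Real.cos (Real.arctan z) := by
      rw [← Real.tan_eq_sin_div_cos, Real.tan_arctan]
    have hab : Real.arctan x < Real.arctan y := Real.arctan_strictMono hxy
    have hbc : Real.arctan y < Real.arctan z := Real.arctan_strictMono hyz
    have h0 := ht (y0 + Real.arctan x / ρ) (y0 + Real.arctan y / ρ) (y0 + Real.arctan z / ρ)
      (by
        have := div_lt_div_of_pos_right hab hρ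
        linarith)
      (by
        have := div_lt_div_of_pos_right hbc hρ
        linarith)
      (by
        have h1 : y0 + Real.arctan z / ρ - (y0 + Real.arctan x / ρ) =
          (Real.arctan z - Real.arctan x) / ρ := by ring
        rw [h1]
        apply div_lt_div_of_pos_right _ hρ
        have := Real.arctan_lt_pi_div_two z
        have := Real.neg_pi_div_two_lt_arctan x
        linarith)
    have e1 : ∀ u v : ℝ, ρ * (y0 + u / ρ - (y0 + v / ρ)) = u - v := by
      intro u v; field_simp; ring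
    rw [e1, e1, e1] at h0
    set a := Real.arctan x
    set b := Real.arctan y
    set c := Real.arctan z
    rw [Real.sin_sub, Real.sin_sub, Real.sin_sub] at h0
    have e2 : g y * (z - x) ≤ g x * (z - y) + g z * (y - x) := by
      have e3 := conv_alg hcx hcy hcz h0
      rw [← hx, ← hy, ← hz] at e3
      exact e3
    linarith [e2]
  have hgc : Continuous g := by
    rw [← continuousOn_univ]
    exact hg.continuousOn isOpen_univ
  have h1 : h =ᶠ[𝓝 y0] fun y => g (Real.tan (ρ * (y - y0))) * Real.cos (ρ * (y - y0)) := by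
    have h2 : ∀ᶠ y in 𝓝 y0, ρ * (y - y0) ∈ Ioo (-(Real.pi / 2)) (Real.pi / 2) := by
      have h3 : ContinuousAt (fun y => ρ * (y - y0)) y0 := by fun_prop
      apply h3.eventually_mem
      apply Ioo_mem_nhds
      · simp only [sub_self, mul_zero]; linarith [Real.pi_pos]
      · simp only [sub_self, mul_zero]; linarith [Real.pi_pos]
    filter_upwards [h2] with y hy
    simp only [g]
    rw [Real.arctan_tan hy.1 hy.2, div_mul_cancel₀ _ (Real.cos_pos_of_mem_Ioo hy).ne']
    congr 1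
    field_simp
    ring
  refine ContinuousAt.congr ?_ h1.symm
  apply ContinuousAt.mul
  · apply ContinuousAt.comp (g := g) hgc.continuousAt
    apply ContinuousAt.comp (g := Real.tan)
    · rw [Real.continuousAt_tan]
      simp
    · fun_prop
  · fun_prop


theorem uniform_bd {F : ℂ → ℂ} {ρ : ℝ} (hper : ∀ x y : ℝ,
      F (x + ((y + 2 * Real.pi : ℝ) : ℂ) * I) = F (x + y * I))
    {g : ℝ → ℝ} (hg : ∀ y, g (y + 2 * Real.pi) = g y)
    (hloc : ∀ y0 : ℝ, ∃ δ > 0, ∃ X : ℝ, ∀ z : ℂ, X ≤ z.re → |z.im - y0| < δ →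
      ‖F z‖ ≤ Real.exp (g z.im * Real.exp (ρ * z.re))) :
    ∃ X : ℝ, ∀ z : ℂ, X ≤ z.re → ‖F z‖ ≤ Real.exp (g z.im * Real.exp (ρ * z.re)) := by
  choose δ hδ X hX using hloc
  obtain ⟨t, -, ht⟩ := (isCompact_Icc (a := (0 : ℝ)) (b := 2 * Real.pi)).elim_nhds_subcover
    (fun y => Metric.ball y (δ y)) (fun y _ => Metric.ball_mem_nhds y (hδ y))
  obtain ⟨X0, hX0⟩ := (t.image X).bddAbove
  refine ⟨X0, fun z hz => ?_⟩
  have hk : Function.Periodic (fun y : ℝ => ((F (z.re + y * I), g y) : ℂ × ℝ)) (2 * Real.pi) := by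
    intro y
    simp only [Prod.mk.injEq]
    exact ⟨hper z.re y, hg y⟩
  obtain ⟨y, hy, hy2⟩ := hk.exists_mem_Ico₀ Real.two_pi_pos z.im
  simp only [Prod.mk.injEq, Complex.re_add_im] at hy2
  rw [hy2.1, hy2.2]
  have hy3 := ht (Ico_subset_Icc_self hy)
  simp only [Set.mem_iUnion, Metric.mem_ball, Real.dist_eq, exists_prop] at hy3
  obtain ⟨y0, hy0, hy4⟩ := hy3
  have h1 := hX y0 (z.re + y * I) (by
    simp only [Complex.add_re, Complex.ofReal_re, Complex.mul_re, Complex.I_re, mul_zero,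
      Complex.ofReal_im, Complex.I_im, mul_one, sub_self, add_zero]
    exact (hX0 (by simpa using Finset.mem_image_of_mem X hy0)).trans hz) (by simpa using hy4)
  simpa using h1

theorem ereal_iff {c A : ℝ} (hc : 0 < c) (u : ENNReal) :
    ((c : ℝ) : EReal) * ENNReal.log u ≤ (A : EReal) ↔ u ≤ ENNReal.ofReal (Real.exp (A / c)) := by
  rw [mul_comm, ← EReal.le_div_iff_mul_le (by exact_mod_cast hc) (EReal.coe_ne_top c),
    ← EReal.coe_div,
    show ((A / c : ℝ) : EReal) = ENNReal.log (ENNReal.ofReal (Real.exp (A / c))) by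
      rw [ENNReal.log_ofReal_of_pos (Real.exp_pos _), Real.log_exp], ENNReal.log_le_log_iff]

theorem rpow_div {r ρ A : ℝ} (hr : 0 < r) : A / r ^ (-ρ) = A * r ^ ρ := by
  rw [Real.rpow_neg hr.le, div_inv_eq_mul]

theorem enorm_le_iff' {w : ℂ} {t : ℝ} (ht : 0 ≤ t) : ‖w‖ₑ ≤ ENNReal.ofReal t ↔ ‖w‖ ≤ t := by
  rw [← ofReal_norm, ENNReal.ofReal_le_ofReal_iff ht]

theorem ray_iff {r ρ A : ℝ} (hr : 0 < r) (w : ℂ) :
    ((r ^ (-ρ) : ℝ) : EReal) * ENNReal.log ‖w‖ₑ ≤ (A : EReal) ↔ ‖w‖ ≤ Real.exp (A * r ^ ρ) := by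
  rw [ereal_iff (Real.rpow_pos_of_pos hr _), rpow_div hr, enorm_le_iff' (Real.exp_pos _).le]

theorem typ_growth {f : ℂ → ℂ} {ρ : ℝ} (hf : Differentiable ℂ f) (h : typ f ρ < ⊤) :
    ∃ M B : ℝ, 1 ≤ M ∧ 0 ≤ B ∧ ∀ z : ℂ, ‖f (cexp z)‖ ≤ M * Real.exp (B * Real.exp (ρ * z.re)) := by
  obtain ⟨B, hB, -⟩ := EReal.lt_iff_exists_real_btwn.1 h
  have h1 := Filter.eventually_lt_of_limsup_lt hB
  obtain ⟨R, hR⟩ := (h1.and (eventually_ge_atTop 1)).exists_forall_of_atTop
  have h2 : ∀ w : ℂ, R ≤ ‖w‖ → ‖f w‖ ≤ Real.exp (B * ‖w‖ ^ ρ) := by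
    intro w hw
    obtain ⟨h3, h4⟩ := hR ‖w‖ hw
    have h5 := (ereal_iff (Real.rpow_pos_of_pos (by linarith) _) _).1 h3.le
    rw [rpow_div (by linarith)] at h5
    rw [← enorm_le_iff' (Real.exp_pos _).le]
    refine le_trans ?_ h5
    exact le_iSup₂ (f := fun z (_ : z ∈ Metric.sphere (0 : ℂ) ‖w‖) => ‖f z‖ₑ) w (by simp)
  obtain ⟨M0, hM0⟩ := (isCompact_closedBall (0 : ℂ) R).exists_bound_of_continuousOn
    hf.continuous.continuousOn
  refine ⟨max 1 M0, max B 0, le_max_left _ _, le_max_right _ _, ?_⟩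
  intro z
  have hn : ‖cexp z‖ ^ ρ = Real.exp (ρ * z.re) := by
    rw [Complex.norm_exp, ← Real.exp_mul, mul_comm]
  rcases le_total R ‖cexp z‖ with h3 | h3
  · have h4 := h2 _ h3
    rw [hn] at h4
    calc ‖f (cexp z)‖ ≤ Real.exp (B * Real.exp (ρ * z.re)) := h4
      _ ≤ Real.exp (max B 0 * Real.exp (ρ * z.re)) :=
        Real.exp_le_exp.2 (mul_le_mul_of_nonneg_right (le_max_left _ _) (Real.exp_pos _).le)
      _ = 1 * Real.exp (max B 0 * Real.exp (ρ * z.re)) := (one_mul _).symm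
      _ ≤ _ := mul_le_mul_of_nonneg_right (le_max_left _ _) (Real.exp_pos _).le
  · have h4 := hM0 (cexp z) (by simpa using h3)
    calc ‖f (cexp z)‖ ≤ max 1 M0 := h4.trans (le_max_right _ _)
      _ = max 1 M0 * 1 := (mul_one _).symm
      _ ≤ _ := by
        apply mul_le_mul_of_nonneg_left _ (le_trans zero_le_one (le_max_left _ _))
        apply Real.one_le_exp
        positivity

theorem typ_lower {f : ℂ → ℂ} {ρ : ℝ} (h : 0 < typ f ρ) :
    ¬ ∃ X : ℝ, ∀ z : ℂ, X ≤ z.re → ‖f (cexp z)‖ ≤ Real.exp ((-1) * Real.exp (ρ * z.re)) := by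
  rintro ⟨X, hX⟩
  have h1 : typ f ρ ≤ ((-1 : ℝ) : EReal) := by
    apply limsup_le_of_le
    · isBoundedDefault
    · filter_upwards [eventually_ge_atTop (Real.exp X)] with r hr
      have hr0 : 0 < r := (Real.exp_pos X).trans_le hr
      rw [ereal_iff (Real.rpow_pos_of_pos hr0 _), rpow_div hr0]
      apply iSup₂_le
      intro z hz
      have hz1 : ‖z‖ = r := by simpa using hz
      have hz0 : z ≠ 0 := by
        intro h0
        rw [h0, norm_zero] at hz1
        linarith
      rw [enorm_le_iff' (Real.exp_pos _).le]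
      have h2 := hX (Complex.log z) (by
        rw [Complex.log_re, hz1, ← Real.log_exp X]
        exact Real.log_le_log (Real.exp_pos X) hr)
      rw [Complex.exp_log hz0, Complex.log_re, hz1, mul_comm ρ, Real.exp_mul (Real.log r) ρ,
        Real.exp_log hr0] at h2
      exact h2
  have h2 := h.trans_le h1
  have h3 : ((0 : ℝ) : EReal) < ((-1 : ℝ) : EReal) := by exact_mod_cast h2
  rw [EReal.coe_lt_coe_iff] at h3
  linarith


theorem bd_all {f : ℂ → ℂ} {ρ M B : ℝ} 
    (hb : ∀ z : ℂ, ‖f (cexp z)‖ ≤ M * Real.exp (B * Real.exp (ρ * z.re))) (hρ : 0 < ρ) (hM : 1 ≤ M)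
    (y : ℝ) : Bd (fun z => f (cexp z)) ρ y (B + 1) := by
  obtain ⟨X, hX⟩ := const_le_exp hρ (lt_of_lt_of_le one_pos hM) one_pos
  refine ⟨X, fun x hx => (hb _).trans ?_⟩
  simp only [Complex.add_re, Complex.ofReal_re, Complex.mul_re, Complex.I_re, mul_zero,
      Complex.ofReal_im, Complex.I_im, mul_one, sub_self, add_zero]
  rw [add_mul, Real.exp_add, mul_comm (Real.exp (B * _))]
  exact mul_le_mul_of_nonneg_right (hX x hx) (Real.exp_pos _).le

theorem not_all {f : ℂ → ℂ} {ρ M B : ℝ} (hf : Differentiable ℂ f) (ht : 0 < typ f ρ)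
    (hb : ∀ z : ℂ, ‖f (cexp z)‖ ≤ M * Real.exp (B * Real.exp (ρ * z.re))) (hρ : 0 < ρ) (hM : 1 ≤ M)
    (hB : 0 ≤ B) (y0 : ℝ) : ∃ A : ℝ, ¬ Bd (fun z => f (cexp z)) ρ y0 A := by
  by_contra hcon
  push Not at hcon
  set F : ℂ → ℂ := fun z => f (cexp z) with hFdef
  have hF : Differentiable ℂ F := hf.comp Complex.differentiable_exp
  let N : Set ℝ := {y | ∀ A, Bd F ρ y A}
  have hd : 0 < Real.pi / (2 * ρ) := by positivity
  have hdd : Real.pi / (2 * ρ) < Real.pi / ρ := by
    apply div_lt_div_of_pos_left Real.pi_pos hρ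
    linarith
  have hstep : ∀ y ∈ N, ∀ y' : ℝ, |y' - y| < Real.pi / (2 * ρ) → y' ∈ N := by
    intro y hy y' hy' A'
    have hsin : ∀ t : ℝ, 0 < t → t ≤ Real.pi / (2 * ρ) → 0 < Real.sin (ρ * t) := by
      intro t ht ht2
      apply Real.sin_pos_of_pos_of_lt_pi (mul_pos hρ ht)
      calc ρ * t ≤ ρ * (Real.pi / (2 * ρ)) := mul_le_mul_of_nonneg_left ht2 hρ.le
        _ = Real.pi / 2 := by field_simp
        _ < Real.pi := by linarith [Real.pi_pos]
    rw [abs_lt] at hy'
    rcases lt_trichotomy y y' with h | h | h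
    · have hs := hsin (Real.pi / (2 * ρ)) hd le_rfl
      have hs2 := hsin (y + Real.pi / (2 * ρ) - y') (by linarith) (by linarith)
      obtain ⟨X, hX⟩ := pl_eps hF hρ hM hB hb (a := y) (c := y + Real.pi / (2 * ρ))
        (A := ((A' - 1) * Real.sin (ρ * (Real.pi / (2 * ρ))) - (B + 1) * Real.sin (ρ * (y' - y))) /
          Real.sin (ρ * (y + Real.pi / (2 * ρ) - y'))) (C := B + 1) (by linarith) (by linarith)
        (hy _) (bd_all hb hρ hM _) one_pos
      refine ⟨X, fun x hx => ?_⟩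
      have h1 := hX (x + y' * I) (by simpa using hx) (by simpa using h.le) (by simp; linarith)
      simp only [Complex.add_re, Complex.ofReal_re, Complex.mul_re, Complex.I_re, mul_zero,
        Complex.ofReal_im, Complex.I_im, mul_one, sub_self, add_zero, Complex.add_im,
        Complex.mul_im, zero_add, add_sub_cancel_left] at h1
      rw [div_mul_cancel₀ _ hs2.ne', sub_add_cancel, mul_div_cancel_right₀ _ hs.ne',
        sub_add_cancel] at h1
      exact h1
    · rw [← h]; exact hy A'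
    · have hs := hsin (Real.pi / (2 * ρ)) hd le_rfl
      have hs2 := hsin (y' - (y - Real.pi / (2 * ρ))) (by linarith) (by linarith)
      obtain ⟨X, hX⟩ := pl_eps hF hρ hM hB hb (a := y - Real.pi / (2 * ρ)) (c := y)
        (C := ((A' - 1) * Real.sin (ρ * (Real.pi / (2 * ρ))) - (B + 1) * Real.sin (ρ * (y - y'))) /
          Real.sin (ρ * (y' - (y - Real.pi / (2 * ρ))))) (A := B + 1) (by linarith) (by linarith)
        (bd_all hb hρ hM _) (hy _) one_pos
      refine ⟨X, fun x hx => ?_⟩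
      have h1 := hX (x + y' * I) (by simpa using hx) (by simp; linarith) (by simpa using h.le)
      simp only [Complex.add_re, Complex.ofReal_re, Complex.mul_re, Complex.I_re, mul_zero,
        Complex.ofReal_im, Complex.I_im, mul_one, sub_self, add_zero, Complex.add_im,
        Complex.mul_im, zero_add, sub_sub_cancel] at h1
      rw [div_mul_cancel₀ _ hs2.ne', add_sub_cancel, mul_div_cancel_right₀ _ hs.ne',
        sub_add_cancel] at h1
      exact h1
  have hN : N = univ := by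
    refine IsClopen.eq_univ ?_ ⟨y0, show y0 ∈ N from hcon⟩
    constructor
    · rw [← isOpen_compl_iff, Metric.isOpen_iff]
      intro y hy
      refine ⟨Real.pi / (2 * ρ), hd, ?_⟩
      intro y' hy' hy''
      apply hy
      apply hstep y' hy'' y
      rw [Metric.mem_ball, Real.dist_eq] at hy'
      rwa [abs_sub_comm]
    · rw [Metric.isOpen_iff]
      intro y hy
      refine ⟨Real.pi / (2 * ρ), hd, ?_⟩
      intro y' hy'
      exact hstep y hy y' (by rwa [Metric.mem_ball, Real.dist_eq] at hy')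
  apply typ_lower ht
  obtain ⟨X, hX⟩ := uniform_bd (F := F) (ρ := ρ) (g := fun _ => -1) (by
      intro x y
      simp only [F]
      congr 1
      rw [show ((x : ℂ) + ((y + 2 * Real.pi : ℝ) : ℂ) * I) = (x + y * I) + 2 * Real.pi * I by
        push_cast; ring, Complex.exp_periodic]) (fun _ => rfl) (by
      intro y1
      have hall : ∀ y, Bd F ρ y (-2) := by
        intro y
        have : y ∈ N := by rw [hN]; trivial
        exact this _
      have h4 : 0 < Real.pi / (4 * ρ) := by positivity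
      have h44 : Real.pi / (4 * ρ) + Real.pi / (4 * ρ) = Real.pi / (2 * ρ) := by
        field_simp; ring
      refine ⟨Real.pi / (4 * ρ), h4, ?_⟩
      obtain ⟨X, hX⟩ := pl_eps hF hρ hM hB hb (a := y1 - Real.pi / (4 * ρ))
        (c := y1 + Real.pi / (4 * ρ)) (A := -2) (C := -2) (by linarith) (by linarith)
        (hall _) (hall _) one_pos
      refine ⟨X, fun z hz hz2 => ?_⟩
      rw [abs_lt] at hz2
      refine (hX z hz (by linarith) (by linarith)).trans ?_
      apply Real.exp_le_exp.2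
      apply mul_le_mul_of_nonneg_right _ (Real.exp_pos _).le
      have hu1 : 0 ≤ ρ * (y1 + Real.pi / (4 * ρ) - z.im) :=
        mul_nonneg hρ.le (by linarith)
      have hv1 : 0 ≤ ρ * (z.im - (y1 - Real.pi / (4 * ρ))) :=
        mul_nonneg hρ.le (by linarith)
      have huv : ρ * (y1 + Real.pi / (4 * ρ) - (y1 - Real.pi / (4 * ρ))) =
        ρ * (y1 + Real.pi / (4 * ρ) - z.im) + ρ * (z.im - (y1 - Real.pi / (4 * ρ))) := by ring
      have huv2 : ρ * (y1 + Real.pi / (4 * ρ) - (y1 - Real.pi / (4 * ρ))) = Real.pi / 2 := by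
        field_simp; ring
      rw [huv2] at huv
      rw [huv2]
      set u := ρ * (y1 + Real.pi / (4 * ρ) - z.im)
      set v := ρ * (z.im - (y1 - Real.pi / (4 * ρ)))
      have hsu : 0 ≤ Real.sin u := Real.sin_nonneg_of_nonneg_of_le_pi hu1 (by
        linarith [Real.pi_pos])
      have hsv : 0 ≤ Real.sin v := Real.sin_nonneg_of_nonneg_of_le_pi hv1 (by
        linarith [Real.pi_pos])
      have h5 : Real.sin (Real.pi / 2) = Real.sin u * Real.cos v + Real.cos u * Real.sin v := by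
        rw [huv, Real.sin_add]
      rw [Real.sin_pi_div_two] at h5
      rw [Real.sin_pi_div_two, div_one]
      have h6 := mul_le_mul_of_nonneg_left (Real.cos_le_one v) hsu
      have h7 := mul_le_mul_of_nonneg_right (Real.cos_le_one u) hsv
      linarith)
  exact ⟨X, fun z hz => hX z hz⟩

theorem quot_alg {H1 H2 e s c : ℝ} (hs : s ≠ 0) (hc : c ≠ 0) :
    ((H1 + e / 4) * s + (H2 + e / 4) * s) / (2 * s * c) = (H1 + H2 + e / 2) / (2 * c) := by
  rw [div_eq_div_iff (by positivity) (by positivity)]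
  ring

/-- TARGET -/
theorem indicator_facts (ρ : ℝ) (hρ : 0 < ρ) (f : ℂ → ℂ) (hf : ClassA f ρ) :
    ∃ h : ℝ → ℝ, Continuous h ∧ (∀ y, h (y + 2 * Real.pi) = h y) ∧ TrigConvex ρ h ∧
      (∀ φ, indic f ρ φ = (h φ : EReal)) ∧
      (∀ ε > 0, ∃ X : ℝ, ∀ z : ℂ, X ≤ z.re →
        ‖f (cexp z)‖ ≤ Real.exp ((h z.im + ε) * Real.exp (ρ * z.re))) := by
  obtain ⟨hfd, ht0, htT⟩ := hf
  obtain ⟨M, B, hM, hB, hb⟩ := typ_growth hfd htT
  have hna := not_all hfd ht0 hb hρ hM hB
  have hba := bd_all hb hρ hM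
  set F : ℂ → ℂ := fun z => f (cexp z) with hFdef
  have hF : Differentiable ℂ F := hfd.comp Complex.differentiable_exp
  have hper : ∀ x y : ℝ, F (x + ((y + 2 * Real.pi : ℝ) : ℂ) * I) = F (x + y * I) := by
    intro x y
    simp only [F]
    congr 1
    rw [show ((x : ℂ) + ((y + 2 * Real.pi : ℝ) : ℂ) * I) = (x + y * I) + 2 * Real.pi * I by
      push_cast; ring, Complex.exp_periodic]
  let h : ℝ → ℝ := fun y => sInf {A | Bd F ρ y A}
  have hne : ∀ y, {A | Bd F ρ y A}.Nonempty := fun y => ⟨B + 1, hba y⟩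
  have hbdd : ∀ y, BddBelow {A | Bd F ρ y A} := by
    intro y
    obtain ⟨A0, hA0⟩ := hna y
    refine ⟨A0, fun A hA => ?_⟩
    by_contra hlt
    push Not at hlt
    exact hA0 (Bd.mono hA hlt.le)
  have h_lt : ∀ y A, h y < A → Bd F ρ y A := by
    intro y A hA
    obtain ⟨A', hA', hlt⟩ := exists_lt_of_csInf_lt (hne y) hA
    exact Bd.mono hA' hlt.le
  have h_le : ∀ y A, Bd F ρ y A → h y ≤ A := fun y A hA => csInf_le (hbdd y) hA
  have hhper : ∀ y, h (y + 2 * Real.pi) = h y := by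
    intro y
    simp only [h]
    congr 1
    ext A
    simp only [Set.mem_ofPred_eq, Bd]
    simp_rw [hper]
  have htc : TrigConvex ρ h := by
    intro a b c hab hbc hca
    have hs : 0 < Real.sin (ρ * (c - a)) := by
      apply Real.sin_pos_of_pos_of_lt_pi (mul_pos hρ (by linarith))
      rw [lt_div_iff₀ hρ] at hca
      linarith
    apply le_of_forall_pos_le_add
    intro ε hε
    obtain ⟨X, hX⟩ := pl_eps hF hρ hM hB hb (hab.trans hbc) hca
      (h_lt a (h a + ε / 3) (by linarith)) (h_lt c (h c + ε / 3) (by linarith))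
      (show (0 : ℝ) < ε / 3 by linarith)
    have h1 := h_le b _ (show Bd F ρ b (((h a + ε / 3) * Real.sin (ρ * (c - b)) +
        (h c + ε / 3) * Real.sin (ρ * (b - a))) / Real.sin (ρ * (c - a)) + ε / 3) from by
      refine ⟨X, fun x hx => ?_⟩
      have h2 := hX (x + b * I) (by simpa using hx) (by simpa using hab.le) (by simpa using hbc.le)
      simpa using h2)
    have h2 := mul_le_mul_of_nonneg_right h1 hs.le
    rw [add_mul, div_mul_cancel₀ _ hs.ne'] at h2
    have h3 := Real.sin_le_one (ρ * (c - b))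
    have h4 := Real.sin_le_one (ρ * (b - a))
    have h5 := Real.sin_le_one (ρ * (c - a))
    have h6 := mul_le_mul_of_nonneg_left h3 (show (0 : ℝ) ≤ ε / 3 by linarith)
    have h7 := mul_le_mul_of_nonneg_left h4 (show (0 : ℝ) ≤ ε / 3 by linarith)
    have h8 := mul_le_mul_of_nonneg_left h5 (show (0 : ℝ) ≤ ε / 3 by linarith)
    linarith
  have hcont : Continuous h := TrigConvex.continuous' hρ htc
  refine ⟨h, hcont, hhper, htc, ?_, ?_⟩
  · intro φ
    have hray : ∀ r : ℝ, 0 < r → ∀ A : ℝ,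
        ((r ^ (-ρ) : ℝ) : EReal) * ENNReal.log ‖f (r * cexp (φ * I))‖ₑ ≤ (A : EReal) ↔
          ‖F (Real.log r + φ * I)‖ ≤ Real.exp (A * Real.exp (ρ * Real.log r)) := by
      intro r hr A
      rw [ray_iff hr]
      have e1 : cexp ((Real.log r : ℝ) + φ * I) = r * cexp (φ * I) := by
        rw [Complex.exp_add, ← Complex.ofReal_exp, Real.exp_log hr]
      have e2 : Real.exp (ρ * Real.log r) = r ^ ρ := by
        rw [mul_comm, Real.exp_mul, Real.exp_log hr]
      simp only [F]
      rw [e1, e2]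
    apply le_antisymm
    · rw [← EReal.le_of_forall_lt_iff_le]
      intro A hA
      have hA' : h φ < A := by exact_mod_cast hA
      obtain ⟨X, hX⟩ := h_lt φ A hA'
      apply limsup_le_of_le
      · isBoundedDefault
      · filter_upwards [eventually_ge_atTop (Real.exp X)] with r hr
        have hr0 : 0 < r := (Real.exp_pos X).trans_le hr
        rw [hray r hr0]
        apply hX
        rw [← Real.log_exp X]
        exact Real.log_le_log (Real.exp_pos X) hr
    · by_contra hlt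
      push Not at hlt
      obtain ⟨A, hA1, hA2⟩ := EReal.lt_iff_exists_real_btwn.1 hlt
      have hA2' : A < h φ := by exact_mod_cast hA2
      have h1 := Filter.eventually_lt_of_limsup_lt hA1
      obtain ⟨R, hR⟩ := h1.exists_forall_of_atTop
      apply absurd (h_le φ A ?_) (not_le.2 hA2')
      refine ⟨max R 0, fun x hx => ?_⟩
      have h2 : R ≤ Real.exp x := by
        have := Real.add_one_le_exp x
        have := (le_max_left R 0).trans hx
        linarith
      have h3 := (hray (Real.exp x) (Real.exp_pos x) A).1 (hR _ h2).le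
      rw [Real.log_exp] at h3
      exact h3
  · intro ε hε
    have hcε : ∀ y, (fun y => h y + ε) (y + 2 * Real.pi) = (fun y => h y + ε) y := by
      intro y
      simp only [hhper]
    apply uniform_bd hper (g := fun y => h y + ε) hcε
    intro y0
    -- choose the step
    have hlim : Tendsto (fun d : ℝ => (h (y0 - d) + h (y0 + d) + ε / 2) / (2 * Real.cos (ρ * d)))
        (𝓝[>] 0) (𝓝 (h y0 + ε / 4)) := by
      have hc : ContinuousAt (fun d : ℝ => (h (y0 - d) + h (y0 + d) + ε / 2) /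
          (2 * Real.cos (ρ * d))) 0 := by
        apply ContinuousAt.div
        · fun_prop
        · fun_prop
        · simp
      have h1 := hc.tendsto
      simp only [sub_zero, add_zero, mul_zero, Real.cos_zero, mul_one] at h1
      rw [show (h y0 + h y0 + ε / 2) / 2 = h y0 + ε / 4 by ring] at h1
      exact h1.mono_left nhdsWithin_le_nhds
    have hev : ∀ᶠ d in 𝓝[>] (0 : ℝ), (h (y0 - d) + h (y0 + d) + ε / 2) / (2 * Real.cos (ρ * d)) <
        h y0 + ε / 2 := hlim.eventually_lt_const (by linarith)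
    have hev2 : ∀ᶠ d in 𝓝[>] (0 : ℝ), d ∈ Ioo 0 (Real.pi / (2 * ρ)) :=
      Ioo_mem_nhdsGT (by positivity)
    obtain ⟨d, hd1, hd2, hd3⟩ := (hev.and hev2).exists
    have hcos : 0 < Real.cos (ρ * d) := by
      apply Real.cos_pos_of_mem_Ioo
      constructor
      · have := mul_pos hρ hd2
        linarith [Real.pi_pos]
      · have h1 := mul_lt_mul_of_pos_left hd3 hρ
        have h2 : ρ * (Real.pi / (2 * ρ)) = Real.pi / 2 := by field_simp
        linarith
    have hsin : 0 < Real.sin (ρ * d) := by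
      apply Real.sin_pos_of_pos_of_lt_pi (mul_pos hρ hd2)
      have h1 := mul_lt_mul_of_pos_left hd3 hρ
      have h2 : ρ * (Real.pi / (2 * ρ)) = Real.pi / 2 := by field_simp
      linarith [Real.pi_pos]
    have hca : (y0 + d) - (y0 - d) < Real.pi / ρ := by
      have : Real.pi / ρ = Real.pi / (2 * ρ) + Real.pi / (2 * ρ) := by field_simp; ring
      linarith
    obtain ⟨X, hX⟩ := pl_eps hF hρ hM hB hb (show y0 - d < y0 + d by linarith) hca
      (h_lt (y0 - d) (h (y0 - d) + ε / 4) (by linarith))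
      (h_lt (y0 + d) (h (y0 + d) + ε / 4) (by linarith))
      (show (0 : ℝ) < ε / 4 by linarith)
    let S : ℝ → ℝ := fun y => ((h (y0 - d) + ε / 4) * Real.sin (ρ * (y0 + d - y)) +
      (h (y0 + d) + ε / 4) * Real.sin (ρ * (y - (y0 - d)))) / Real.sin (ρ * (y0 + d - (y0 - d)))
    have hS0 : S y0 < h y0 + ε / 2 := by
      have e1 : S y0 = (h (y0 - d) + h (y0 + d) + ε / 2) / (2 * Real.cos (ρ * d)) := by
        simp only [S]
        rw [show y0 + d - y0 = d by ring, show y0 - (y0 - d) = d by ring,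
          show ρ * (y0 + d - (y0 - d)) = 2 * (ρ * d) by ring, Real.sin_two_mul]
        exact quot_alg hsin.ne' hcos.ne'
      rw [e1]; exact hd1
    have hScont : Continuous S := by
      simp only [S]
      fun_prop
    have hnear : ∀ᶠ y in 𝓝 y0, S y < h y + 3 * ε / 4 := by
      apply hScont.continuousAt.eventually_lt (hcont.add continuous_const).continuousAt
      show S y0 < h y0 + 3 * ε / 4
      linarith
    have hnear2 : ∀ᶠ y in 𝓝 y0, |y - y0| < d := by
      have := Metric.ball_mem_nhds y0 hd2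
      filter_upwards [this] with y hy
      rwa [Metric.mem_ball, Real.dist_eq] at hy
    obtain ⟨δ, hδ, hδ2⟩ := Metric.eventually_nhds_iff.1 (hnear.and hnear2)
    refine ⟨δ, hδ, X, fun z hz hz2 => ?_⟩
    obtain ⟨h1, h2⟩ := hδ2 (show dist z.im y0 < δ by rwa [Real.dist_eq])
    rw [abs_lt] at h2
    refine (hX z hz (by linarith) (by linarith)).trans ?_
    apply Real.exp_le_exp.2
    apply mul_le_mul_of_nonneg_right _ (Real.exp_pos _).le
    have h3 : S z.im < h z.im + 3 * ε / 4 := h1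
    simp only [S] at h3
    linarith

end M_A1
end Pool.Agent.Helper758.LS
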