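import Mathlib
import Pool.Agent.Helper758.LSDefs
import Pool.Agent.Helper758.LSDefs2

namespace Pool.Agent.Helper758.LS
open MeasureTheory Filter Topology Set Complex

namespace M_MOL




/-! ### the unnormalised kernel -/
theorem psi0_contDiff (n : ℕ) : ContDiff ℝ n (fun z : ℂ => expNegInvGlue (1 - ‖z‖ ^ 2)) :=
  expNegInvGlue.contDiff.comp (contDiff_const.sub (contDiff_norm_sq ℝ))

theorem psi0_zero (z : ℂ) (hz : 1 ≤ ‖z‖) : expNegInvGlue (1 - ‖z‖ ^ 2) = 0 :=
  expNegInvGlue.zero_of_nonpos (by nlinarith)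

theorem psi0_compact : HasCompactSupport (fun z : ℂ => expNegInvGlue (1 - ‖z‖ ^ 2)) := by
  refine HasCompactSupport.intro (isCompact_closedBall (0 : ℂ) 1) (fun z hz => ?_)
  rw [mem_closedBall_zero_iff, not_le] at hz
  exact psi0_zero z hz.le

theorem psi0_int_pos : 0 < ∫ w : ℂ, expNegInvGlue (1 - ‖w‖ ^ 2) := by
  refine (psi0_contDiff 0).continuous.integral_pos_of_hasCompactSupport_nonneg_nonzero
    psi0_compact (fun z => expNegInvGlue.nonneg _) (x := 0) ?_
  simp

theorem psi_contDiff (n : ℕ) : ContDiff ℝ n psi := (psi0_contDiff n).div_const _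

theorem psi_nonneg (z : ℂ) : 0 ≤ psi z := div_nonneg (expNegInvGlue.nonneg _) psi0_int_pos.le

theorem psi_zero (z : ℂ) (hz : 1 ≤ ‖z‖) : psi z = 0 := by
  unfold psi; rw [psi0_zero z hz, zero_div]

theorem psi_radial (z w : ℂ) (h : ‖z‖ = ‖w‖) : psi z = psi w := by
  unfold psi; rw [h]

theorem psi_neg (z : ℂ) : psi (-z) = psi z := psi_radial _ _ (norm_neg z)

theorem psi_int : ∫ z, psi z = 1 := by
  unfold psi
  rw [integral_div]
  exact div_self psi0_int_pos.ne'

theorem psi_hcs : HasCompactSupport psi := by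
  refine HasCompactSupport.intro (isCompact_closedBall (0 : ℂ) 1) (fun z hz => ?_)
  rw [mem_closedBall_zero_iff, not_le] at hz
  exact psi_zero z hz.le

theorem psid_contDiff (δ : ℝ) (n : ℕ) : ContDiff ℝ n (psid δ) := by
  unfold psid
  exact contDiff_const.mul ((psi_contDiff n).comp (contDiff_const_smul _))

theorem psid_zero (δ : ℝ) (hδ : 0 < δ) (z : ℂ) (hz : δ ≤ ‖z‖) : psid δ z = 0 := by
  unfold psid
  rw [psi_zero, mul_zero]
  rw [norm_smul, norm_inv, Real.norm_of_nonneg hδ.le, ← div_eq_inv_mul, le_div_iff₀ hδ, one_mul]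
  exact hz

theorem psid_hcs (δ : ℝ) (hδ : 0 < δ) : HasCompactSupport (psid δ) := by
  refine HasCompactSupport.intro (isCompact_closedBall (0 : ℂ) δ) (fun z hz => ?_)
  rw [mem_closedBall_zero_iff, not_le] at hz
  exact psid_zero δ hδ z hz.le

theorem psid_nonneg (δ : ℝ) (z : ℂ) : 0 ≤ psid δ z := mul_nonneg (sq_nonneg _) (psi_nonneg _)

theorem psid_neg (δ : ℝ) (z : ℂ) : psid δ (-z) = psid δ z := by
  unfold psid; rw [smul_neg, psi_neg]

theorem psid_int (δ : ℝ) (hδ : 0 < δ) : (∫ z, psid δ z) = 1 := by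
  unfold psid
  rw [integral_const_mul, Measure.integral_comp_smul, psi_int, Complex.finrank_real_complex,
    smul_eq_mul, mul_one, inv_pow, inv_inv, abs_of_pos (by positivity)]
  exact inv_mul_cancel₀ (by positivity)

/-- TARGETS: basic properties of `psid` and `moll`. -/
theorem psid_props (δ : ℝ) (hδ : 0 < δ) :
    (∀ n : ℕ, ContDiff ℝ n (psid δ)) ∧ HasCompactSupport (psid δ) ∧ (∀ z, 0 ≤ psid δ z) ∧
    (∀ z, δ ≤ ‖z‖ → psid δ z = 0) ∧ (∀ z, psid δ (-z) = psid δ z) ∧ (∫ z, psid δ z) = 1 ∧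
    (∀ z w : ℂ, ‖z‖ = ‖w‖ → psid δ z = psid δ w) := by
  refine ⟨psid_contDiff δ, psid_hcs δ hδ, psid_nonneg δ, psid_zero δ hδ, psid_neg δ,
    psid_int δ hδ, fun z w h => ?_⟩
  unfold psid
  rw [psi_radial (δ⁻¹ • z) (δ⁻¹ • w) (by rw [norm_smul, norm_smul, h])]

/-- `|psi_δ| ≤ C δ⁻²`, `|∇ψ_δ| ≤ C δ⁻³` -/
theorem psid_bounds : ∃ C : ℝ, 0 < C ∧ ∀ δ : ℝ, 0 < δ →
    (∀ z, psid δ z ≤ C * (δ⁻¹) ^ 2) ∧ (∀ z, ‖fderiv ℝ (psid δ) z‖ ≤ C * (δ⁻¹) ^ 3) := by
  obtain ⟨C1, hC1⟩ := psi_hcs.exists_bound_of_continuous (psi_contDiff 0).continuous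
  obtain ⟨C2, hC2⟩ := (psi_hcs.fderiv ℝ).exists_bound_of_continuous
    ((psi_contDiff 1).continuous_fderiv (by norm_num))
  refine ⟨max (max C1 C2) 1, lt_of_lt_of_le one_pos (le_max_right _ _), fun δ hδ => ⟨fun z => ?_, fun z => ?_⟩⟩
  · unfold psid
    rw [mul_comm]
    refine mul_le_mul_of_nonneg_right ?_ (sq_nonneg _)
    exact (le_abs_self _).trans ((hC1 _).trans ((le_max_left _ _).trans (le_max_left _ _)))
  · have h1 : HasFDerivAt (psid δ) ((δ⁻¹) ^ 2 • ((fderiv ℝ psi (δ⁻¹ • z)).comp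
        (δ⁻¹ • ContinuousLinearMap.id ℝ ℂ))) z := by
      have h2 : HasFDerivAt psi (fderiv ℝ psi (δ⁻¹ • z)) (δ⁻¹ • z) :=
        ((psi_contDiff 1).differentiable (by norm_num) _).hasFDerivAt
      have h3 : HasFDerivAt (fun z : ℂ => δ⁻¹ • z) (δ⁻¹ • ContinuousLinearMap.id ℝ ℂ) z :=
        (hasFDerivAt_id z).const_smul δ⁻¹
      exact (h2.comp z h3).const_mul _
    rw [h1.fderiv, norm_smul, Real.norm_of_nonneg (sq_nonneg _)]
    have h4 : ‖(fderiv ℝ psi (δ⁻¹ • z)).comp (δ⁻¹ • ContinuousLinearMap.id ℝ ℂ)‖ ≤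
        max (max C1 C2) 1 * δ⁻¹ := by
      refine (ContinuousLinearMap.opNorm_comp_le _ _).trans ?_
      have h5 : ‖δ⁻¹ • ContinuousLinearMap.id ℝ ℂ‖ ≤ δ⁻¹ := by
        rw [norm_smul, Real.norm_of_nonneg (inv_nonneg.mpr hδ.le)]
        exact mul_le_of_le_one_right (inv_nonneg.mpr hδ.le) (ContinuousLinearMap.norm_id_le)
      exact mul_le_mul ((hC2 _).trans ((le_max_right _ _).trans (le_max_left _ _))) h5
        (norm_nonneg _) (le_trans zero_le_one (le_max_right _ _))
    calc (δ⁻¹) ^ 2 * _ ≤ (δ⁻¹) ^ 2 * (max (max C1 C2) 1 * δ⁻¹) :=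
          mul_le_mul_of_nonneg_left h4 (sq_nonneg _)
      _ = _ := by ring

/-! ### convolution form -/
theorem moll_eq (δ : ℝ) (u : ℂ → ℝ) :
    moll δ u = MeasureTheory.convolution u (psid δ) (ContinuousLinearMap.mul ℝ ℝ) volume := by
  funext z
  unfold moll MeasureTheory.convolution
  refine integral_congr_ae (Eventually.of_forall fun w => ?_)
  simp [mul_comm]

theorem moll_integrable (δ : ℝ) (hδ : 0 < δ) (u : ℂ → ℝ) (hu : LocallyIntegrable u volume) (z : ℂ) :
    Integrable (fun w => psid δ (z - w) * u w) := by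
  have h := (psid_hcs δ hδ).convolutionExists_right (ContinuousLinearMap.mul ℝ ℝ) hu
    (psid_contDiff δ 0).continuous z
  refine h.integrable.congr (Eventually.of_forall fun w => ?_)
  simp [mul_comm]

theorem moll_contDiff (δ : ℝ) (hδ : 0 < δ) (u : ℂ → ℝ) (hu : LocallyIntegrable u volume) (n : ℕ) :
    ContDiff ℝ n (moll δ u) := by
  rw [moll_eq]
  exact (psid_hcs δ hδ).contDiff_convolution_right _ hu (psid_contDiff δ n)

theorem fderiv_moll (δ : ℝ) (hδ : 0 < δ) (u : ℂ → ℝ) (hu : LocallyIntegrable u volume) (z v : ℂ) :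
    fderiv ℝ (moll δ u) z v = ∫ w, fderiv ℝ (psid δ) (z - w) v * u w := by
  rw [moll_eq, ((psid_hcs δ hδ).hasFDerivAt_convolution_right _ hu (psid_contDiff δ 1) z).fderiv,
    convolution_precompR_apply _ hu ((psid_hcs δ hδ).fderiv ℝ)
      ((psid_contDiff δ 1).continuous_fderiv (by norm_num))]
  unfold MeasureTheory.convolution
  refine integral_congr_ae (Eventually.of_forall fun w => ?_)
  simp [mul_comm]

/-- derivatives of a mollification fall on the kernel -/
theorem dx_moll (δ : ℝ) (hδ : 0 < δ) (u : ℂ → ℝ) (hu : LocallyIntegrable u volume) (z : ℂ) :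
    dx (moll δ u) z = ∫ w, dx (psid δ) (z - w) * u w :=
  fderiv_moll δ hδ u hu z 1
theorem dy_moll (δ : ℝ) (hδ : 0 < δ) (u : ℂ → ℝ) (hu : LocallyIntegrable u volume) (z : ℂ) :
    dy (moll δ u) z = ∫ w, dy (psid δ) (z - w) * u w :=
  fderiv_moll δ hδ u hu z I

theorem fderiv_moll_smooth (δ : ℝ) (hδ : 0 < δ) (u : ℂ → ℝ) (hu : ContDiff ℝ 1 u) (z v : ℂ) :
    fderiv ℝ (moll δ u) z v = moll δ (fun w => fderiv ℝ u w v) z := by
  rw [fderiv_moll δ hδ u hu.continuous.locallyIntegrable]
  have hg : ContDiff ℝ 1 (fun w => psid δ (z - w)) :=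
    (psid_contDiff δ 1).comp (contDiff_const.sub contDiff_id)
  have hgs : HasCompactSupport (fun w => psid δ (z - w)) :=
    (psid_hcs δ hδ).comp_homeomorph (Homeomorph.subLeft z)
  have hfd : ∀ w, fderiv ℝ (fun w => psid δ (z - w)) w v = - fderiv ℝ (psid δ) (z - w) v := by
    intro w
    have h1 : HasFDerivAt (psid δ) (fderiv ℝ (psid δ) (z - w)) (z - w) :=
      ((psid_contDiff δ 1).differentiable (by norm_num) _).hasFDerivAt
    have h2 : HasFDerivAt (fun w : ℂ => z - w) (-ContinuousLinearMap.id ℝ ℂ) w :=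
      (hasFDerivAt_id w).const_sub z
    have h3 : HasFDerivAt (fun w => psid δ (z - w))
        ((fderiv ℝ (psid δ) (z - w)).comp (-ContinuousLinearMap.id ℝ ℂ)) w := h1.comp w h2
    rw [h3.fderiv]
    simp
  have hgc : Continuous (fun w => fderiv ℝ (fun w => psid δ (z - w)) w v) :=
    (hg.continuous_fderiv (by norm_num)).clm_apply continuous_const
  have huc : Continuous (fun w => fderiv ℝ u w v) :=
    (hu.continuous_fderiv (by norm_num)).clm_apply continuous_const
  have hgs' : HasCompactSupport (fun w => fderiv ℝ (fun w => psid δ (z - w)) w v) :=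
    hgs.fderiv_apply ℝ v
  have key := integral_mul_fderiv_eq_neg_fderiv_mul_of_integrable (μ := (volume : Measure ℂ))
    (𝕜 := ℝ) (f := u) (g := fun w => psid δ (z - w)) (v := v)
    ((huc.mul hg.continuous).integrable_of_hasCompactSupport hgs.mul_left)
    ((hu.continuous.mul hgc).integrable_of_hasCompactSupport hgs'.mul_left)
    ((hu.continuous.mul hg.continuous).integrable_of_hasCompactSupport hgs.mul_left)
    (fun x _ => hu.differentiable (by norm_num) x) (fun x _ => hg.differentiable (by norm_num) x)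
  have h3 : ∫ w, fderiv ℝ (psid δ) (z - w) v * u w =
      - ∫ w, u w * fderiv ℝ (fun w => psid δ (z - w)) w v := by
    rw [← integral_neg]
    refine integral_congr_ae (Eventually.of_forall fun w => ?_)
    simp only [hfd]
    ring
  rw [h3, key, neg_neg]
  unfold moll
  refine integral_congr_ae (Eventually.of_forall fun w => ?_)
  exact mul_comm _ _

/-- for smooth `u` derivatives commute with mollification -/
theorem dx_moll_smooth (δ : ℝ) (hδ : 0 < δ) (u : ℂ → ℝ) (hu : ContDiff ℝ 1 u) (z : ℂ) :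
    dx (moll δ u) z = moll δ (dx u) z :=
  fderiv_moll_smooth δ hδ u hu z 1
theorem dy_moll_smooth (δ : ℝ) (hδ : 0 < δ) (u : ℂ → ℝ) (hu : ContDiff ℝ 1 u) (z : ℂ) :
    dy (moll δ u) z = moll δ (dy u) z :=
  fderiv_moll_smooth δ hδ u hu z I

theorem conv_assoc_cs (u g k : ℂ → ℝ) (hu : LocallyIntegrable u volume) (hg : Continuous g)
    (hgs : HasCompactSupport g) (hk : Continuous k) (hks : HasCompactSupport k) (z : ℂ) :
    MeasureTheory.convolution (MeasureTheory.convolution u g (ContinuousLinearMap.mul ℝ ℝ) volume) k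
      (ContinuousLinearMap.mul ℝ ℝ) volume z =
    MeasureTheory.convolution u (MeasureTheory.convolution g k (ContinuousLinearMap.mul ℝ ℝ) volume)
      (ContinuousLinearMap.mul ℝ ℝ) volume z := by
  have hgi : LocallyIntegrable (fun x => ‖g x‖) volume := hg.norm.locallyIntegrable
  refine convolution_assoc (ContinuousLinearMap.mul ℝ ℝ) (ContinuousLinearMap.mul ℝ ℝ)
    (ContinuousLinearMap.mul ℝ ℝ) (ContinuousLinearMap.mul ℝ ℝ) ?_
    hu.aestronglyMeasurable hg.aestronglyMeasurable hk.aestronglyMeasurable ?_ ?_ ?_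
  · intro x y z
    simp [mul_assoc]
  · exact Eventually.of_forall (hgs.convolutionExists_right _ hu hg)
  · exact Eventually.of_forall (hks.norm.convolutionExists_right _ hgi hk.norm)
  · exact (hgs.norm.convolution _ hks.norm).convolutionExists_right _
      (fun x => (hu x).norm)
      (hks.norm.continuous_convolution_right _ hgi hk.norm) z

/-- mollifications commute -/
theorem moll_comm (δ δ' : ℝ) (hδ : 0 < δ) (hδ' : 0 < δ') (u : ℂ → ℝ) (hu : LocallyIntegrable u volume) :
    moll δ (moll δ' u) = moll δ' (moll δ u) := by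
  funext z
  rw [moll_eq δ, moll_eq δ', moll_eq δ', moll_eq δ,
    conv_assoc_cs u _ _ hu (psid_contDiff δ' 0).continuous (psid_hcs δ' hδ')
      (psid_contDiff δ 0).continuous (psid_hcs δ hδ),
    conv_assoc_cs u _ _ hu (psid_contDiff δ 0).continuous (psid_hcs δ hδ)
      (psid_contDiff δ' 0).continuous (psid_hcs δ' hδ')]
  congr 1
  have h := convolution_flip (L := ContinuousLinearMap.mul ℝ ℝ) (μ := (volume : Measure ℂ))
    (f := psid δ') (g := psid δ)
  rw [← h]
  congr 1
  ext
  simp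

theorem moll_add_const (δ : ℝ) (u : ℂ → ℝ) (c : ℂ) (z : ℂ) :
    moll δ (fun w => u (w + c)) z = moll δ u (z + c) := by
  unfold moll
  rw [← integral_add_right_eq_self (fun w => psid δ (z + c - w) * u w) c]
  refine integral_congr_ae (Eventually.of_forall fun w => ?_)
  simp

theorem moll_congr_ae (δ : ℝ) (u v : ℂ → ℝ) (h : ∀ᵐ z : ℂ, u z = v z) : moll δ u = moll δ v := by
  funext z
  unfold moll
  refine integral_congr_ae ?_
  filter_upwards [h] with w hw
  rw [hw]

theorem moll_mono (δ : ℝ) (hδ : 0 < δ) (u v : ℂ → ℝ) (hu : LocallyIntegrable u volume)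
    (hv : LocallyIntegrable v volume) (h : ∀ᵐ z : ℂ, u z ≤ v z) (z : ℂ) : moll δ u z ≤ moll δ v z := by
  unfold moll
  refine integral_mono_ae (moll_integrable δ hδ u hu z) (moll_integrable δ hδ v hv z) ?_
  filter_upwards [h] with w hw
  exact mul_le_mul_of_nonneg_left hw (psid_nonneg _ _)

/-- symmetry: `∫ (moll δ u) η = ∫ u (moll δ η)` for continuous compactly supported `η` -/
theorem moll_symm (δ : ℝ) (hδ : 0 < δ) (u η : ℂ → ℝ) (hu : LocallyIntegrable u volume)
    (hη : Continuous η) (hηs : HasCompactSupport η) :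
    ∫ z, moll δ u z * η z = ∫ z, u z * moll δ η z := by
  have hk : Continuous (fun z => η (-z)) := hη.comp continuous_neg
  have hks : HasCompactSupport (fun z => η (-z)) := hηs.comp_homeomorph (Homeomorph.neg ℂ)
  have h := conv_assoc_cs u (psid δ) (fun z => η (-z)) hu (psid_contDiff δ 0).continuous
    (psid_hcs δ hδ) hk hks 0
  have h1 : ∫ z, moll δ u z * η z = MeasureTheory.convolution (MeasureTheory.convolution u (psid δ)
      (ContinuousLinearMap.mul ℝ ℝ) volume) (fun z => η (-z)) (ContinuousLinearMap.mul ℝ ℝ) volume 0 := by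
    rw [← moll_eq, convolution_def]
    refine integral_congr_ae (Eventually.of_forall fun w => ?_)
    simp
  have h2 : ∫ z, u z * moll δ η z = MeasureTheory.convolution u (MeasureTheory.convolution (psid δ)
      (fun z => η (-z)) (ContinuousLinearMap.mul ℝ ℝ) volume) (ContinuousLinearMap.mul ℝ ℝ) volume 0 := by
    rw [convolution_def]
    refine integral_congr_ae (Eventually.of_forall fun w => ?_)
    simp only [ContinuousLinearMap.mul_apply', zero_sub]
    congr 1
    rw [convolution_def]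
    unfold moll
    rw [← integral_sub_left_eq_self (fun t => psid δ (w - t) * η t) volume w]
    rw [← integral_neg_eq_self]
    refine integral_congr_ae (Eventually.of_forall fun t => ?_)
    simp only [ContinuousLinearMap.mul_apply']
    have e1 : w - (w - -t) = -t := by ring
    have e2 : -(-w - t) = w - -t := by ring
    rw [e1, e2, psid_neg]
  rw [h1, h2, h]

theorem bQ_compact (K : ℝ) : IsCompact (bQ K) := by
  refine Metric.isCompact_of_isClosed_isBounded ?_ ?_
  · exact (isClosed_le (continuous_abs.comp Complex.continuous_re) continuous_const).inter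
      (isClosed_le (continuous_abs.comp Complex.continuous_im) continuous_const)
  · refine (Metric.isBounded_closedBall (x := (0 : ℂ)) (r := 2 * K)).subset (fun z hz => ?_)
    rw [mem_closedBall_zero_iff]
    have h := Complex.norm_le_abs_re_add_abs_im z
    have h1 := hz.1
    have h2 := hz.2
    linarith

theorem bQ_near (K δ : ℝ) (hδ : 0 < δ) (hδ1 : δ ≤ 1) (z w : ℂ) (hz : z ∈ bQ K)
    (h : psid δ (z - w) ≠ 0) : w ∈ bQ (K + 1) := by
  have h1 : ‖z - w‖ < δ := by
    by_contra hc
    exact h (psid_zero δ hδ _ (not_lt.mp hc))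
  have h2 := (Complex.abs_re_le_norm (z - w)).trans (h1.le.trans hδ1)
  have h3 := (Complex.abs_im_le_norm (z - w)).trans (h1.le.trans hδ1)
  rw [Complex.sub_re] at h2
  rw [Complex.sub_im] at h3
  have h4 := hz.1
  have h5 := hz.2
  rw [abs_le] at h2 h3 h4 h5
  refine ⟨abs_le.mpr ⟨?_, ?_⟩, abs_le.mpr ⟨?_, ?_⟩⟩ <;> linarith [h2.1, h2.2, h3.1, h3.2, h4.1, h4.2, h5.1, h5.2]

/-- `L¹` contraction on squares -/
theorem moll_l1 (δ : ℝ) (hδ : 0 < δ) (hδ1 : δ ≤ 1) (u : ℂ → ℝ) (hu : LocallyIntegrable u volume) (K : ℝ) :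
    ∫ z in bQ K, |moll δ u z| ≤ ∫ z in bQ (K + 1), |u z| := by
  have hvi : Integrable ((bQ (K + 1)).indicator (fun w => |u w|)) := by
    rw [integrable_indicator_iff (bQ_compact _).measurableSet]
    exact (hu.integrableOn_isCompact (bQ_compact _)).norm
  have hpi : Integrable (psid δ) :=
    (psid_contDiff δ 0).continuous.integrable_of_hasCompactSupport (psid_hcs δ hδ)
  obtain ⟨c, hc⟩ : ∃ c : ℂ → ℝ, c = MeasureTheory.convolution ((bQ (K + 1)).indicator (fun w => |u w|))
      (psid δ) (ContinuousLinearMap.mul ℝ ℝ) volume := ⟨_, rfl⟩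
  have hCi : Integrable c := by
    rw [hc]; exact hvi.integrable_convolution (ContinuousLinearMap.mul ℝ ℝ) hpi
  have hCt : ∫ z, c z = ∫ z, (bQ (K + 1)).indicator (fun w => |u w|) z := by
    have h := integral_convolution (μ := (volume : Measure ℂ)) (ν := (volume : Measure ℂ))
      (ContinuousLinearMap.mul ℝ ℝ) hvi hpi
    rw [← hc, psid_int δ hδ] at h
    rw [h]; simp
  have hCeq : ∀ z, c z = ∫ w, (bQ (K + 1)).indicator (fun w => |u w|) w * psid δ (z - w) := by
    intro z
    rw [hc, convolution_def]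
    simp
  have hC0 : ∀ z, 0 ≤ c z := by
    intro z
    rw [hCeq]
    refine integral_nonneg (fun w => mul_nonneg ?_ (psid_nonneg _ _))
    exact indicator_nonneg (fun _ _ => abs_nonneg _) _
  have hle : ∀ z ∈ bQ K, |moll δ u z| ≤ c z := by
    intro z hz
    rw [hCeq]
    unfold moll
    rw [← Real.norm_eq_abs]
    refine (norm_integral_le_integral_norm _).trans (le_of_eq ?_)
    refine integral_congr_ae (Eventually.of_forall fun w => ?_)
    simp only [norm_mul, Real.norm_eq_abs, abs_of_nonneg (psid_nonneg δ (z - w))]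
    by_cases h : psid δ (z - w) = 0
    · rw [h]; simp
    · rw [indicator_of_mem (bQ_near K δ hδ hδ1 z w hz h)]
      exact mul_comm _ _
  calc ∫ z in bQ K, |moll δ u z| ≤ ∫ z in bQ K, c z := by
        refine setIntegral_mono_on ?_ hCi.integrableOn (bQ_compact K).measurableSet hle
        exact ((moll_contDiff δ hδ u hu 0).continuous.abs.continuousOn).integrableOn_compact (bQ_compact K)
    _ ≤ ∫ z, c z := setIntegral_le_integral hCi (Eventually.of_forall hC0)
    _ = ∫ z, (bQ (K + 1)).indicator (fun w => |u w|) z := hCt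
    _ = _ := integral_indicator (bQ_compact _).measurableSet

/-- `L¹_loc` convergence `moll δ u → u` -/
theorem moll_tendsto_l1 (u : ℂ → ℝ) (hu : LocallyIntegrable u volume) (K : ℝ) :
    Tendsto (fun δ => ∫ z in bQ K, |moll δ u z - u z|) (𝓝[>] 0) (𝓝 0) := by
  rw [Metric.tendsto_nhds]
  intro ε hε
  obtain ⟨v, hv⟩ : ∃ v : ℂ → ℝ, v = (bQ (K + 1)).indicator u := ⟨_, rfl⟩
  have hvi : Integrable v := by
    rw [hv, integrable_indicator_iff (bQ_compact _).measurableSet]
    exact hu.integrableOn_isCompact (bQ_compact _)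
  obtain ⟨g, hgs, hgv, hgc, hgi⟩ := hvi.exists_hasCompactSupport_integral_sub_le
    (show (0 : ℝ) < ε / 4 by positivity)
  obtain ⟨V, hV⟩ : ∃ V : ℝ, V = (volume (bQ K)).toReal := ⟨_, rfl⟩
  have hV0 : 0 ≤ V := by rw [hV]; exact ENNReal.toReal_nonneg
  obtain ⟨e, he⟩ : ∃ e : ℝ, e = ε / (4 * (V + 1)) := ⟨_, rfl⟩
  have he0 : 0 < e := by rw [he]; positivity
  have heV : e * V ≤ ε / 4 := by
    rw [he, div_mul_eq_mul_div, div_le_div_iff₀ (by positivity) (by norm_num)]
    nlinarith
  have hguc : UniformContinuous g := hgc.uniformContinuous_of_tendsto_cocompact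
    (x := 0) hgs.is_zero_at_infty
  obtain ⟨d, hd, hdg⟩ := Metric.uniformContinuous_iff.mp hguc e he0
  have hmem : Ioo (0 : ℝ) (min 1 d) ∈ 𝓝[>] (0 : ℝ) := Ioo_mem_nhdsGT (lt_min one_pos hd)
  filter_upwards [hmem] with δ hδ
  obtain ⟨hδ0, hδ2⟩ := hδ
  have hδ1 : δ ≤ 1 := hδ2.le.trans (min_le_left _ _)
  have hδd : δ < d := lt_of_lt_of_le hδ2 (min_le_right _ _)
  have hvgi : Integrable (fun z => v z - g z) := hvi.sub hgi
  have hmoll : ∀ z ∈ bQ K, moll δ u z = moll δ v z := by
    intro z hz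
    unfold moll
    refine integral_congr_ae (Eventually.of_forall fun w => ?_)
    simp only
    by_cases h : psid δ (z - w) = 0
    · rw [h, zero_mul, zero_mul]
    · rw [hv, indicator_of_mem (bQ_near K δ hδ0 hδ1 z w hz h)]
  have hsub : ∀ z, moll δ v z - moll δ g z = moll δ (fun z => v z - g z) z := by
    intro z
    unfold moll
    rw [← integral_sub (moll_integrable δ hδ0 v hvi.locallyIntegrable z)
      (moll_integrable δ hδ0 g hgi.locallyIntegrable z)]
    refine integral_congr_ae (Eventually.of_forall fun w => ?_)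
    simp only
    ring
  have hgg : ∀ z, |moll δ g z - g z| ≤ e := by
    intro z
    have h1 : moll δ g z = MeasureTheory.convolution (psid δ) g (ContinuousLinearMap.lsmul ℝ ℝ) volume z := by
      rw [convolution_lsmul_swap]
      unfold moll
      simp
    rw [h1, ← Real.dist_eq]
    refine dist_convolution_le (R := d) he0.le ?_ (psid_nonneg δ) (psid_int δ hδ0)
      hgc.aestronglyMeasurable ?_
    · intro w hw
      rw [mem_ball_zero_iff]
      by_contra hc
      exact hw (psid_zero δ hδ0 w (hδd.le.trans (not_lt.mp hc)))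
    · intro w hw
      exact (hdg (Metric.mem_ball.mp hw)).le
  have hpt : ∀ z ∈ bQ K, |moll δ u z - u z| ≤ |moll δ (fun z => v z - g z) z| + e + |v z - g z| := by
    intro z hz
    have hzv : v z = u z := by
      rw [hv, indicator_of_mem]
      have h1 := hz.1
      have h2 := hz.2
      exact ⟨by linarith, by linarith⟩
    rw [hmoll z hz, ← hsub, ← hzv]
    have h1 : moll δ v z - v z = (moll δ v z - moll δ g z) + (moll δ g z - g z) + -(v z - g z) := by ring
    rw [h1]
    refine (abs_add_three _ _ _).trans ?_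
    rw [abs_neg]
    have := hgg z
    linarith
  have hI1 : IntegrableOn (fun z => |moll δ (fun z => v z - g z) z|) (bQ K) :=
    ((moll_contDiff δ hδ0 _ hvgi.locallyIntegrable 0).continuous.abs.continuousOn).integrableOn_compact
      (bQ_compact K)
  have hI2 : IntegrableOn (fun _ : ℂ => e) (bQ K) :=
    (continuous_const.continuousOn).integrableOn_compact (bQ_compact K)
  have hI3 : IntegrableOn (fun z => |v z - g z|) (bQ K) := hvgi.norm.integrableOn
  have hI12 : IntegrableOn (fun z => |moll δ (fun z => v z - g z) z| + e) (bQ K) := hI1.add hI2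
  have hI0 : IntegrableOn (fun z => |moll δ u z - u z|) (bQ K) :=
    ((((moll_contDiff δ hδ0 u hu 0).continuous.continuousOn).integrableOn_compact
      (bQ_compact K)).sub (hu.integrableOn_isCompact (bQ_compact K))).norm
  rw [Real.dist_eq, sub_zero, abs_of_nonneg (integral_nonneg fun z => abs_nonneg _)]
  have hvg1 : ∫ z in bQ (K + 1), |v z - g z| ≤ ε / 4 :=
    (setIntegral_le_integral hvgi.norm (Eventually.of_forall fun z => norm_nonneg _)).trans hgv
  have hvg2 : ∫ z in bQ K, |v z - g z| ≤ ε / 4 :=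
    (setIntegral_le_integral hvgi.norm (Eventually.of_forall fun z => norm_nonneg _)).trans hgv
  calc ∫ z in bQ K, |moll δ u z - u z|
      ≤ ∫ z in bQ K, (|moll δ (fun z => v z - g z) z| + e + |v z - g z|) :=
        setIntegral_mono_on hI0 (hI12.add hI3) (bQ_compact K).measurableSet hpt
    _ = (∫ z in bQ K, |moll δ (fun z => v z - g z) z|) + (∫ _z in bQ K, e) + ∫ z in bQ K, |v z - g z| := by
        rw [integral_add hI12 hI3, integral_add hI1 hI2]
    _ ≤ ε / 4 + e * V + ε / 4 := by
        refine add_le_add (add_le_add ?_ (le_of_eq ?_)) hvg2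
        · exact (moll_l1 δ hδ0 hδ1 _ hvgi.locallyIntegrable K).trans hvg1
        · rw [setIntegral_const, smul_eq_mul, hV, mul_comm]
          rfl
    _ < ε := by linarith

end M_MOL
end Pool.Agent.Helper758.LS
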