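import Mathlib
import Pool.Agent.Helper758.LSDefs
import Pool.Agent.Helper758.LSDefs2
import Pool.Agent.Helper758.FrDefs
import Pool.Agent.Helper758.LS_MOL

namespace Pool.Agent.Helper758.LS
open MeasureTheory Filter Topology Set Complex
open M_MOL (psid_props)
namespace M_A2


/-- GIVEN (do not prove) -/


private theorem log_norm_ball (r : ℝ) : IntegrableOn (fun z : ℂ => Real.log ‖z‖) (Metric.ball 0 r) volume := by
  rw [integrableOn_fun_norm_addHaar (volume : Measure ℂ) (f := Real.log)]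
  have h1 : Continuous (fun y : ℝ => y ^ (Module.finrank ℝ ℂ - 1) • Real.log y) := by
    have : (fun y : ℝ => y ^ (Module.finrank ℝ ℂ - 1) • Real.log y) = fun y => y * Real.log y := by
      funext y
      simp [Complex.finrank_real_complex]
    rw [this]
    exact Real.continuous_mul_log
  exact (h1.integrableOn_Icc (a := 0) (b := r)).mono_set Ioo_subset_Icc_self

private theorem log_norm_sub_ball (a : ℂ) (r : ℝ) :
    IntegrableOn (fun z : ℂ => Real.log ‖z - a‖) (Metric.ball a r) volume := by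
  have h := ((measurePreserving_sub_right (volume : Measure ℂ) a).integrableOn_comp_preimage
    (measurableEmbedding_subRight a) (f := fun z : ℂ => Real.log ‖z‖) (s := Metric.ball 0 r)).2
      (log_norm_ball r)
  have h2 : (fun x : ℂ => x - a) ⁻¹' Metric.ball 0 r = Metric.ball a r := by
    ext x
    simp [dist_eq_norm]
  rw [h2] at h
  exact h

private theorem not_ev_zero {F : ℂ → ℂ} (hF : Differentiable ℂ F) (hne : ∃ z, F z ≠ 0) (a : ℂ) :
    ¬ ∀ᶠ z in 𝓝 a, F z = 0 := by
  intro h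
  have han : AnalyticOnNhd ℂ F univ := fun z _ => hF.analyticAt z
  have h2 := han.eq_of_eventuallyEq (g := 0) (fun z _ => analyticAt_const) (z₀ := a) h
  obtain ⟨z, hz⟩ := hne
  exact hz (congrFun h2 z)

private theorem log_norm_locInt {F : ℂ → ℂ} (hF : Differentiable ℂ F) (hne : ∃ z, F z ≠ 0) :
    LocallyIntegrable (fun z : ℂ => Real.log ‖F z‖) volume := by
  intro a
  obtain ⟨n, g, hg, hga, heq⟩ :=
    (hF.analyticAt a).exists_eventuallyEq_pow_smul_nonzero_iff.mpr (not_ev_zero hF hne a)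
  have hev : ∀ᶠ z in 𝓝 a, AnalyticAt ℂ g z ∧ g z ≠ 0 ∧ F z = (z - a) ^ n • g z :=
    hg.eventually_analyticAt.and ((hg.continuousAt.eventually_ne hga).and heq)
  obtain ⟨r, hr, hball⟩ := Metric.nhds_basis_closedBall.mem_iff.mp hev
  refine ⟨Metric.closedBall a r, Metric.closedBall_mem_nhds a hr, ?_⟩
  have h1 : IntegrableOn (fun z : ℂ => Real.log ‖z - a‖) (Metric.closedBall a r) volume :=
    (log_norm_sub_ball a (r + 1)).mono_set (Metric.closedBall_subset_ball (by linarith))
  have h2 : IntegrableOn (fun z : ℂ => Real.log ‖g z‖) (Metric.closedBall a r) volume := by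
    apply ContinuousOn.integrableOn_compact (isCompact_closedBall a r)
    intro z hz
    have hz' := hball hz
    apply ContinuousAt.continuousWithinAt
    exact hz'.1.continuousAt.norm.log (norm_ne_zero_iff.mpr hz'.2.1)
  have h3 := (h1.const_mul (n : ℝ)).add h2
  refine h3.congr ?_
  have hae : ∀ᵐ z ∂(volume.restrict (Metric.closedBall a r)), z ≠ a :=
    ae_restrict_of_ae (compl_mem_ae_iff.mpr (measure_singleton a))
  filter_upwards [hae, ae_restrict_mem measurableSet_closedBall] with z hza hz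
  obtain ⟨-, hz1, hz2⟩ := hball hz
  simp only [Pi.add_apply]
  rw [hz2, norm_smul, norm_pow, Real.log_mul (pow_ne_zero _ (norm_ne_zero_iff.mpr (sub_ne_zero.mpr hza)))
    (norm_ne_zero_iff.mpr hz1), Real.log_pow]

private theorem ae_ne_zero {F : ℂ → ℂ} (hF : Differentiable ℂ F) (hne : ∃ z, F z ≠ 0) :
    ∀ᵐ z : ℂ, F z ≠ 0 := by
  have han : AnalyticOnNhd ℂ F univ := fun z _ => hF.analyticAt z
  obtain ⟨x, hx⟩ := hne
  have h := han.preimage_zero_mem_codiscrete hx
  have h2 := ae_restrict_le_codiscreteWithin (μ := (volume : Measure ℂ)) MeasurableSet.univ h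
  rw [Measure.restrict_univ] at h2
  exact h2

private theorem exp_comp_ne {f : ℂ → ℂ} (hf : Differentiable ℂ f) (hne : ∃ z, f z ≠ 0) :
    Differentiable ℂ (fun z => f (cexp z)) ∧ ∃ z, f (cexp z) ≠ 0 := by
  refine ⟨hf.comp Complex.differentiable_exp, ?_⟩
  obtain ⟨z, hz, hz0⟩ := ((ae_ne_zero hf hne).and (compl_mem_ae_iff.mpr (measure_singleton (0:ℂ)) :
    ∀ᵐ z : ℂ, z ≠ 0)).exists
  exact ⟨Complex.log z, by rw [Complex.exp_log hz0]; exact hz⟩

/-- TARGET 1 -/
theorem cU_loc (ρ : ℝ) (f : ℂ → ℂ) (hf : Differentiable ℂ f) (hne : ∃ z, f z ≠ 0) :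
    LocallyIntegrable (cU ρ f) volume ∧ LocallyIntegrable (fun z : ℂ => Real.log ‖f (cexp z)‖) volume := by
  obtain ⟨h1, h2⟩ := exp_comp_ne hf hne
  have h3 := log_norm_locInt h1 h2
  refine ⟨?_, h3⟩
  have hc : Continuous (fun z : ℂ => Real.exp (-(ρ * z.re))) := by fun_prop
  rw [← locallyIntegrableOn_univ] at h3 ⊢
  exact h3.continuousOn_mul hc.continuousOn isOpen_univ.isLocallyClosed

private theorem box_eq (x0 x1 : ℝ) : box x0 x1 = Icc x0 x1 ×ℂ Icc 0 (2 * Real.pi) := by
  ext z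
  rw [Complex.mem_reProdIm]
  rfl

private theorem box_compact (x0 x1 : ℝ) : IsCompact (box x0 x1) := by
  rw [box_eq]
  exact isCompact_Icc.reProdIm isCompact_Icc

private theorem box_fubini (u : ℂ → ℝ) (x0 x1 : ℝ) (hu : IntegrableOn u (box x0 x1) volume) :
    ∫ z in box x0 x1, u z = ∫ x in Icc x0 x1, ∫ y in Icc 0 (2 * Real.pi), u (x + y * I) := by
  have hpre : box x0 x1 = Complex.measurableEquivRealProd ⁻¹' (Icc x0 x1 ×ˢ Icc 0 (2 * Real.pi)) := by
    ext z
    rfl
  have hval : ∀ z : ℂ, u z = (fun p : ℝ × ℝ => u (p.1 + p.2 * I)) (Complex.measurableEquivRealProd z) := by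
    intro z
    have : ((z.re : ℂ) + z.im * I) = z := Complex.re_add_im z
    show u z = u ((z.re : ℂ) + z.im * I)
    rw [this]
  have hI : IntegrableOn (fun p : ℝ × ℝ => u (p.1 + p.2 * I)) (Icc x0 x1 ×ˢ Icc 0 (2 * Real.pi)) volume := by
    rw [← Complex.volume_preserving_equiv_real_prod.integrableOn_comp_preimage
      Complex.measurableEquivRealProd.measurableEmbedding, ← hpre]
    refine hu.congr ?_
    exact Eventually.of_forall hval
  calc ∫ z in box x0 x1, u z
      = ∫ z in Complex.measurableEquivRealProd ⁻¹' (Icc x0 x1 ×ˢ Icc 0 (2 * Real.pi)),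
          (fun p : ℝ × ℝ => u (p.1 + p.2 * I)) (Complex.measurableEquivRealProd z) := by
        rw [← hpre]
        exact integral_congr_ae (Eventually.of_forall hval)
    _ = ∫ p in Icc x0 x1 ×ˢ Icc 0 (2 * Real.pi), (fun p : ℝ × ℝ => u (p.1 + p.2 * I)) p :=
        Complex.volume_preserving_equiv_real_prod.setIntegral_preimage_emb
          Complex.measurableEquivRealProd.measurableEmbedding
          (fun p : ℝ × ℝ => u (p.1 + p.2 * I)) (Icc x0 x1 ×ˢ Icc 0 (2 * Real.pi))
    _ = _ := by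
        rw [Measure.volume_eq_prod]
        exact setIntegral_prod _ hI

private theorem circle_eq (x y : ℝ) : circleMap 0 (Real.exp x) y = cexp (x + y * I) := by
  unfold circleMap
  rw [Complex.exp_add, zero_add]
  push_cast
  rfl

private theorem jensen_lower {f : ℂ → ℂ} (hf : Differentiable ℂ f) (x : ℝ) (hx : 0 ≤ x) :
    IntervalIntegrable (fun y : ℝ => Real.log ‖f (cexp (x + y * I))‖) volume 0 (2 * Real.pi) ∧
    2 * Real.pi * Real.log ‖meromorphicTrailingCoeffAt f 0‖ ≤
      ∫ y in (0:ℝ)..(2 * Real.pi), Real.log ‖f (cexp (x + y * I))‖ := by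
  have han : AnalyticOnNhd ℂ f univ := fun z _ => hf.analyticAt z
  have hmer : MeromorphicOn f (Metric.closedBall 0 |Real.exp x|) :=
    (han.mono (subset_univ _)).meromorphicOn
  have hmer2 : MeromorphicOn f (Metric.sphere 0 |Real.exp x|) :=
    (han.mono (subset_univ _)).meromorphicOn
  have hint := hmer2.circleIntegrable_log_norm
  have hJ := MeromorphicOn.circleAverage_log_norm (Real.exp_pos x).ne' hmer
  rw [Real.circleAverage_def] at hJ
  simp only [circle_eq] at hJ
  constructor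
  · have h2 : IntervalIntegrable (fun θ : ℝ => Real.log ‖f (circleMap 0 (Real.exp x) θ)‖) volume 0
      (2 * Real.pi) := hint
    simpa only [circle_eq] using h2
  · have hdiv : 0 ≤ MeromorphicOn.divisor f (Metric.closedBall 0 |Real.exp x|) :=
      MeromorphicOn.AnalyticOnNhd.divisor_nonneg (han.mono (subset_univ _))
    have h1 : 0 ≤ ∑ᶠ u, (MeromorphicOn.divisor f (Metric.closedBall 0 |Real.exp x|) u : ℝ) *
        Real.log (Real.exp x * ‖0 - u‖⁻¹) := by
      apply finsum_nonneg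
      intro u
      by_cases hu : u ∈ Metric.closedBall (0:ℂ) |Real.exp x|
      · apply mul_nonneg
        · exact_mod_cast hdiv u
        · rw [abs_of_pos (Real.exp_pos x)] at hu
          have hu' : ‖u‖ ≤ Real.exp x := by simpa using hu
          by_cases h0 : u = 0
          · rw [h0]
            simp
          · apply Real.log_nonneg
            have hpos : 0 < ‖0 - u‖ := by
              rw [zero_sub, norm_neg]
              exact norm_pos_iff.mpr h0
            rw [← div_eq_mul_inv, one_le_div hpos, zero_sub, norm_neg]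
            exact hu'
      · rw [Function.locallyFinsuppWithin.apply_eq_zero_of_notMem _ hu]
        simp
    have h2 : 0 ≤ (MeromorphicOn.divisor f (Metric.closedBall 0 |Real.exp x|) 0 : ℝ) *
        Real.log (Real.exp x) := by
      apply mul_nonneg
      · exact_mod_cast hdiv 0
      · rw [Real.log_exp]
        exact hx
    have hpi : 0 < 2 * Real.pi := by positivity
    have h3 : Real.log ‖meromorphicTrailingCoeffAt f 0‖ ≤ (2 * Real.pi)⁻¹ •
        ∫ y in (0:ℝ)..(2 * Real.pi), Real.log ‖f (cexp (x + y * I))‖ := by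
      rw [hJ]
      linarith
    rw [smul_eq_mul, inv_mul_eq_div, le_div_iff₀ hpi] at h3
    linarith

private theorem line_bound (ρ : ℝ) (hρ : 0 < ρ) (f : ℂ → ℂ) (hf : Differentiable ℂ f) (B X0 : ℝ)
    (hB : ∀ z : ℂ, X0 ≤ z.re → ‖f (cexp z)‖ ≤ Real.exp (B * Real.exp (ρ * z.re)))
    (x : ℝ) (hx0 : 0 ≤ x) (hxX : X0 ≤ x) :
    ∫ y in Icc 0 (2 * Real.pi), |cU ρ f (x + y * I)| ≤
      4 * Real.pi * |B| + 2 * Real.pi * |Real.log ‖meromorphicTrailingCoeffAt f 0‖| := by
  obtain ⟨hint, hlow⟩ := jensen_lower hf x hx0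
  have hpi : 0 < 2 * Real.pi := by positivity
  have hre : ∀ y : ℝ, ((x : ℂ) + y * I).re = x := by
    intro y
    simp
  have hpt : ∀ y : ℝ, |Real.log ‖f (cexp (x + y * I))‖| ≤
      2 * (|B| * Real.exp (ρ * x)) - Real.log ‖f (cexp (x + y * I))‖ := by
    intro y
    have hM : 0 ≤ |B| * Real.exp (ρ * x) := by positivity
    have hup : Real.log ‖f (cexp (x + y * I))‖ ≤ |B| * Real.exp (ρ * x) := by
      by_cases h0 : f (cexp (x + y * I)) = 0
      · rw [h0]
        simp only [norm_zero, Real.log_zero]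
        exact hM
      · have h1 := hB (x + y * I) (by rw [hre]; exact hxX)
        rw [hre] at h1
        have h2 := Real.log_le_log (norm_pos_iff.mpr h0) h1
        rw [Real.log_exp] at h2
        exact h2.trans (mul_le_mul_of_nonneg_right (le_abs_self B) (Real.exp_pos _).le)
    rw [abs_le]
    constructor <;> linarith
  have hcU : ∀ y : ℝ, |cU ρ f (x + y * I)| = Real.exp (-(ρ * x)) * |Real.log ‖f (cexp (x + y * I))‖| := by
    intro y
    unfold cU
    rw [abs_mul, hre, abs_of_pos (Real.exp_pos _)]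
  have h1 : ∫ y in Icc 0 (2 * Real.pi), |cU ρ f (x + y * I)| =
      Real.exp (-(ρ * x)) * ∫ y in (0:ℝ)..(2 * Real.pi), |Real.log ‖f (cexp (x + y * I))‖| := by
    rw [integral_Icc_eq_integral_Ioc, ← intervalIntegral.integral_of_le hpi.le,
      ← intervalIntegral.integral_const_mul]
    congr 1
    funext y
    exact hcU y
  have h2 : ∫ y in (0:ℝ)..(2 * Real.pi), |Real.log ‖f (cexp (x + y * I))‖| ≤
      4 * Real.pi * (|B| * Real.exp (ρ * x)) +
        2 * Real.pi * |Real.log ‖meromorphicTrailingCoeffAt f 0‖| := by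
    have h3 := intervalIntegral.integral_mono_on hpi.le hint.abs
      ((intervalIntegrable_const (c := 2 * (|B| * Real.exp (ρ * x)))).sub hint)
      (fun y _ => hpt y)
    rw [intervalIntegral.integral_sub intervalIntegrable_const hint,
      intervalIntegral.integral_const, smul_eq_mul] at h3
    have h4 : -(2 * Real.pi * |Real.log ‖meromorphicTrailingCoeffAt f 0‖|) ≤
        2 * Real.pi * Real.log ‖meromorphicTrailingCoeffAt f 0‖ := by
      have := neg_abs_le (Real.log ‖meromorphicTrailingCoeffAt f 0‖)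
      nlinarith
    linarith
  rw [h1]
  have he : Real.exp (-(ρ * x)) * Real.exp (ρ * x) = 1 := by
    rw [← Real.exp_add, neg_add_cancel, Real.exp_zero]
  have he1 : Real.exp (-(ρ * x)) ≤ 1 := by
    rw [Real.exp_le_one_iff]
    have : 0 ≤ ρ * x := by positivity
    linarith
  have hC0 : 0 ≤ 2 * Real.pi * |Real.log ‖meromorphicTrailingCoeffAt f 0‖| := by positivity
  calc Real.exp (-(ρ * x)) * ∫ y in (0:ℝ)..(2 * Real.pi), |Real.log ‖f (cexp (x + y * I))‖|
      ≤ Real.exp (-(ρ * x)) * (4 * Real.pi * (|B| * Real.exp (ρ * x)) +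
        2 * Real.pi * |Real.log ‖meromorphicTrailingCoeffAt f 0‖|) :=
        mul_le_mul_of_nonneg_left h2 (Real.exp_pos _).le
    _ = 4 * Real.pi * |B| * (Real.exp (-(ρ * x)) * Real.exp (ρ * x)) +
        Real.exp (-(ρ * x)) * (2 * Real.pi * |Real.log ‖meromorphicTrailingCoeffAt f 0‖|) := by ring
    _ ≤ 4 * Real.pi * |B| * 1 + 1 * (2 * Real.pi * |Real.log ‖meromorphicTrailingCoeffAt f 0‖|) := by
        rw [he]
        have := mul_le_mul_of_nonneg_right he1 hC0
        linarith
    _ = _ := by ring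

/-- TARGET 2: `L¹` bound from Jensen and the growth bound -/
theorem cU_l1 (ρ : ℝ) (hρ : 0 < ρ) (f : ℂ → ℂ) (hf : Differentiable ℂ f) (hne : ∃ z, f z ≠ 0) (B X0 : ℝ)
    (hB : ∀ z : ℂ, X0 ≤ z.re → ‖f (cexp z)‖ ≤ Real.exp (B * Real.exp (ρ * z.re))) :
    ∃ C : ℝ, ∀ x0 : ℝ, 0 ≤ x0 → ∫ z in box x0 (x0 + 1), |cU ρ f z| ≤ C := by
  have hloc := (cU_loc ρ f hf hne).1
  have hIb : ∀ x0 x1 : ℝ, IntegrableOn (fun z => |cU ρ f z|) (box x0 x1) volume := fun x0 x1 =>
    (hloc.integrableOn_isCompact (box_compact x0 x1)).abs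
  set K : ℝ := 4 * Real.pi * |B| + 2 * Real.pi * |Real.log ‖meromorphicTrailingCoeffAt f 0‖| with hK
  have hK0 : 0 ≤ K := by positivity
  set X1 : ℝ := max X0 0 with hX1
  have hC1 : 0 ≤ ∫ z in box 0 (X1 + 1), |cU ρ f z| := integral_nonneg fun z => abs_nonneg _
  refine ⟨K + ∫ z in box 0 (X1 + 1), |cU ρ f z|, ?_⟩
  intro x0 hx0
  rcases le_total X1 x0 with h | h
  · rw [box_fubini _ _ _ (hIb x0 (x0 + 1))]
    have h1 : ‖∫ x in Icc x0 (x0 + 1), ∫ y in Icc 0 (2 * Real.pi), |cU ρ f (x + y * I)|‖ ≤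
        K * volume.real (Icc x0 (x0 + 1)) := by
      apply norm_setIntegral_le_of_norm_le_const
      · simp
      · intro x hx
        rw [Real.norm_of_nonneg (integral_nonneg fun y => abs_nonneg _)]
        exact line_bound ρ hρ f hf B X0 hB x (hx0.trans hx.1)
          ((le_max_left X0 0).trans (h.trans hx.1))
    have h2 : volume.real (Icc x0 (x0 + 1)) = 1 := by
      rw [Real.volume_real_Icc_of_le (by linarith)]
      ring
    rw [h2, mul_one] at h1
    have h3 := (Real.le_norm_self _).trans h1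
    linarith
  · have h1 : ∫ z in box x0 (x0 + 1), |cU ρ f z| ≤ ∫ z in box 0 (X1 + 1), |cU ρ f z| := by
      apply setIntegral_mono_set (hIb 0 (X1 + 1))
      · exact Eventually.of_forall fun z => abs_nonneg _
      · apply LE.le.eventuallyLE
        intro z hz
        exact ⟨⟨hx0.trans hz.1.1, hz.1.2.trans (by linarith)⟩, hz.2⟩
    linarith

section IBP

private theorem contDiff_fderiv_apply {u : ℂ → ℝ} {n : ℕ} (hu : ContDiff ℝ (n + 1) u) (v : ℂ) :
    ContDiff ℝ n (fun z => fderiv ℝ u z v) :=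
  (hu.fderiv_right (m := n) le_rfl).clm_apply contDiff_const

private theorem ibp1 {u g : ℂ → ℝ} (hu : ContDiff ℝ 1 u) (hg : ContDiff ℝ 1 g)
    (hgs : HasCompactSupport g) (v : ℂ) :
    ∫ z, u z * fderiv ℝ g z v = - ∫ z, fderiv ℝ u z v * g z := by
  have cu : Continuous u := hu.continuous
  have cg : Continuous g := hg.continuous
  have cu' : Continuous (fun z => fderiv ℝ u z v) :=
    (contDiff_fderiv_apply (n := 0) (by simpa using hu) v).continuous
  have cg' : Continuous (fun z => fderiv ℝ g z v) :=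
    (contDiff_fderiv_apply (n := 0) (by simpa using hg) v).continuous
  apply integral_mul_fderiv_eq_neg_fderiv_mul_of_integrable
  · exact (cu'.mul cg).integrable_of_hasCompactSupport hgs.mul_left
  · exact (cu.mul cg').integrable_of_hasCompactSupport (hgs.fderiv_apply ℝ v).mul_left
  · exact (cu.mul cg).integrable_of_hasCompactSupport hgs.mul_left
  · intro x _
    exact (hu.differentiable one_ne_zero) x
  · intro x _
    exact (hg.differentiable one_ne_zero) x

private theorem ibp2 {u g : ℂ → ℝ} (hu : ContDiff ℝ 2 u) (hg : ContDiff ℝ 2 g)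
    (hgs : HasCompactSupport g) (v : ℂ) :
    ∫ z, u z * fderiv ℝ (fun z => fderiv ℝ g z v) z v =
      ∫ z, fderiv ℝ (fun z => fderiv ℝ u z v) z v * g z := by
  have hu1 : ContDiff ℝ 1 u := hu.of_le one_le_two
  have hg1 : ContDiff ℝ 1 g := hg.of_le one_le_two
  have hu' : ContDiff ℝ 1 (fun z => fderiv ℝ u z v) := contDiff_fderiv_apply (n := 1) (by exact_mod_cast hu) v
  have hg' : ContDiff ℝ 1 (fun z => fderiv ℝ g z v) := contDiff_fderiv_apply (n := 1) (by exact_mod_cast hg) v
  rw [ibp1 hu1 hg' (hgs.fderiv_apply ℝ v) v, ibp1 hu' hg1 hgs v, neg_neg]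

private theorem dx_cd {u : ℂ → ℝ} {n : ℕ} (hu : ContDiff ℝ (n + 1) u) : ContDiff ℝ n (dx u) :=
  contDiff_fderiv_apply hu 1

private theorem dy_cd {u : ℂ → ℝ} {n : ℕ} (hu : ContDiff ℝ (n + 1) u) : ContDiff ℝ n (dy u) :=
  contDiff_fderiv_apply hu I

private theorem hfd_div {N S : ℂ → ℝ} {N' S' : ℂ →L[ℝ] ℝ} {z : ℂ} (hN : HasFDerivAt N N' z)
    (hS : HasFDerivAt S S' z) (h0 : S z ≠ 0) :
    HasFDerivAt (fun z => N z / S z) ((S z)⁻¹ • N' - (N z / (S z) ^ 2) • S') z := by
  have h := hN.mul ((hasDerivAt_inv h0).comp_hasFDerivAt z hS)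
  have he : (fun z => N z / S z) = N * (Inv.inv ∘ S) := by
    funext w
    simp [div_eq_mul_inv]
  rw [he]
  refine h.congr_fderiv ?_
  ext v
  simp
  ring

/-- Laplacian -/
private noncomputable def Lp (u : ℂ → ℝ) (z : ℂ) : ℝ := dx (dx u) z + dy (dy u) z

private theorem Lp_cont {u : ℂ → ℝ} (hu : ContDiff ℝ 2 u) : Continuous (Lp u) := by
  unfold Lp
  apply Continuous.add
  · exact (dx_cd (n := 0) (by
      simpa using (dx_cd (n := 1) (u := u) (by exact_mod_cast hu)))).continuous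
  · exact (dy_cd (n := 0) (by
      simpa using (dy_cd (n := 1) (u := u) (by exact_mod_cast hu)))).continuous

private theorem Lp_supp {u : ℂ → ℝ} (hu : HasCompactSupport u) : HasCompactSupport (Lp u) := by
  unfold Lp
  apply HasCompactSupport.add
  · exact (hu.fderiv_apply ℝ 1).fderiv_apply ℝ 1
  · exact (hu.fderiv_apply ℝ I).fderiv_apply ℝ I

private theorem ibpL {u g : ℂ → ℝ} (hu : ContDiff ℝ 2 u) (hg : ContDiff ℝ 2 g)
    (hgs : HasCompactSupport g) : ∫ z, u z * Lp g z = ∫ z, Lp u z * g z := by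
  have c1 : ∀ {f : ℂ → ℝ}, ContDiff ℝ 2 f → ∀ v : ℂ,
      Continuous (fun z => fderiv ℝ (fun z => fderiv ℝ f z v) z v) := fun hf v =>
    (contDiff_fderiv_apply (n := 0) (by
      simpa using (contDiff_fderiv_apply (n := 1) (by exact_mod_cast hf) v)) v).continuous
  have i1 : ∀ v : ℂ, Integrable (fun z => u z * fderiv ℝ (fun z => fderiv ℝ g z v) z v) := fun v =>
    (hu.continuous.mul (c1 hg v)).integrable_of_hasCompactSupport
      ((hgs.fderiv_apply ℝ v).fderiv_apply ℝ v).mul_left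
  have i2 : ∀ v : ℂ, Integrable (fun z => fderiv ℝ (fun z => fderiv ℝ u z v) z v * g z) := fun v =>
    ((c1 hu v).mul hg.continuous).integrable_of_hasCompactSupport hgs.mul_left
  have e1 : ∀ z, u z * Lp g z = u z * fderiv ℝ (fun z => fderiv ℝ g z 1) z 1 +
      u z * fderiv ℝ (fun z => fderiv ℝ g z I) z I := fun z => mul_add _ _ _
  have e2 : ∀ z, Lp u z * g z = fderiv ℝ (fun z => fderiv ℝ u z 1) z 1 * g z +
      fderiv ℝ (fun z => fderiv ℝ u z I) z I * g z := fun z => add_mul _ _ _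
  simp only [e1, e2]
  rw [integral_add (i1 1) (i1 I), integral_add (i2 1) (i2 I), ibp2 hu hg hgs 1, ibp2 hu hg hgs I]

end IBP

section ue

variable {F : ℂ → ℂ}

/-- regularised `log |F|` -/
private noncomputable def ue (F : ℂ → ℂ) (e : ℝ) (z : ℂ) : ℝ :=
  (1 / 2) * Real.log ((F z).re ^ 2 + (F z).im ^ 2 + e)

private theorem cd_re (hF : Differentiable ℂ F) (n : ℕ) : ContDiff ℝ n (fun z => (F z).re) :=
  Complex.reCLM.contDiff.comp (hF.contDiff.restrict_scalars ℝ)

private theorem cd_im (hF : Differentiable ℂ F) (n : ℕ) : ContDiff ℝ n (fun z => (F z).im) :=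
  Complex.imCLM.contDiff.comp (hF.contDiff.restrict_scalars ℝ)

private theorem ue_contDiff (hF : Differentiable ℂ F) {e : ℝ} (he : 0 < e) (n : ℕ) :
    ContDiff ℝ n (ue F e) := by
  unfold ue
  apply contDiff_const.mul
  apply ContDiff.log
  · exact (((cd_re hF n).pow 2).add ((cd_im hF n).pow 2)).add contDiff_const
  · intro z
    positivity

private theorem hfd_re (hF : Differentiable ℂ F) (z : ℂ) :
    HasFDerivAt (fun z => (F z).re) (Complex.reCLM.comp (deriv F z • (1 : ℂ →L[ℝ] ℂ))) z :=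
  Complex.reCLM.hasFDerivAt.comp z (hF z).hasDerivAt.complexToReal_fderiv

private theorem hfd_im (hF : Differentiable ℂ F) (z : ℂ) :
    HasFDerivAt (fun z => (F z).im) (Complex.imCLM.comp (deriv F z • (1 : ℂ →L[ℝ] ℂ))) z :=
  Complex.imCLM.hasFDerivAt.comp z (hF z).hasDerivAt.complexToReal_fderiv

private theorem dv_re (hF : Differentiable ℂ F) (z v : ℂ) :
    fderiv ℝ (fun z => (F z).re) z v = (deriv F z * v).re := by
  rw [(hfd_re hF z).fderiv]
  simp

private theorem dv_im (hF : Differentiable ℂ F) (z v : ℂ) :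
    fderiv ℝ (fun z => (F z).im) z v = (deriv F z * v).im := by
  rw [(hfd_im hF z).fderiv]
  simp

private theorem S_pos (F : ℂ → ℂ) {e : ℝ} (he : 0 < e) (z : ℂ) :
    0 < (F z).re ^ 2 + (F z).im ^ 2 + e := by positivity

private theorem dv_ue (hF : Differentiable ℂ F) {e : ℝ} (he : 0 < e) (z v : ℂ) :
    fderiv ℝ (ue F e) z v = ((F z).re * (deriv F z * v).re + (F z).im * (deriv F z * v).im) /
      ((F z).re ^ 2 + (F z).im ^ 2 + e) := by
  have h1 := hfd_re hF z
  have h2 := hfd_im hF z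
  have h3 := (((h1.pow 2).add (h2.pow 2)).add_const e).log (S_pos F he z).ne'
  have h4 := h3.const_mul (1 / 2)
  have h5 : fderiv ℝ (ue F e) z = _ := h4.fderiv
  rw [h5]
  have hS := (S_pos F he z).ne'
  simp
  field_simp

private theorem dx_ue (hF : Differentiable ℂ F) {e : ℝ} (he : 0 < e) :
    dx (ue F e) = fun z => ((F z).re * (deriv F z).re + (F z).im * (deriv F z).im) /
      ((F z).re ^ 2 + (F z).im ^ 2 + e) := by
  funext z
  unfold dx
  rw [dv_ue hF he]
  simp

private theorem dy_ue (hF : Differentiable ℂ F) {e : ℝ} (he : 0 < e) :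
    dy (ue F e) = fun z => ((F z).im * (deriv F z).re - (F z).re * (deriv F z).im) /
      ((F z).re ^ 2 + (F z).im ^ 2 + e) := by
  funext z
  unfold dy
  rw [dv_ue hF he]
  simp
  ring

private theorem Lp_ue (hF : Differentiable ℂ F) {e : ℝ} (he : 0 < e) (z : ℂ) :
    Lp (ue F e) z = 2 * e * ((deriv F z).re ^ 2 + (deriv F z).im ^ 2) /
      ((F z).re ^ 2 + (F z).im ^ 2 + e) ^ 2 := by
  have hF' : Differentiable ℂ (deriv F) := fun z => (hF.analyticAt z).deriv.differentiableAt
  have hS := (S_pos F he z).ne'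
  have h1 := hfd_re hF z
  have h2 := hfd_im hF z
  have h3 := hfd_re hF' z
  have h4 := hfd_im hF' z
  have hSd := ((h1.pow 2).add (h2.pow 2)).add_const e
  have hx : dx (dx (ue F e)) z = (((deriv F z).re ^ 2 + (F z).re * (deriv (deriv F) z).re +
      (deriv F z).im ^ 2 + (F z).im * (deriv (deriv F) z).im) *
      ((F z).re ^ 2 + (F z).im ^ 2 + e) -
      2 * ((F z).re * (deriv F z).re + (F z).im * (deriv F z).im) ^ 2) /
      ((F z).re ^ 2 + (F z).im ^ 2 + e) ^ 2 := by
    rw [dx_ue hF he]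
    unfold dx
    have h5 := hfd_div ((h1.mul h3).add (h2.mul h4)) hSd hS
    have h6 : fderiv ℝ (fun z => ((F z).re * (deriv F z).re + (F z).im * (deriv F z).im) /
      ((F z).re ^ 2 + (F z).im ^ 2 + e)) z = _ := h5.fderiv
    rw [h6]
    simp
    field_simp
    ring
  have hy : dy (dy (ue F e)) z = (((deriv F z).re ^ 2 - (F z).re * (deriv (deriv F) z).re +
      (deriv F z).im ^ 2 - (F z).im * (deriv (deriv F) z).im) *
      ((F z).re ^ 2 + (F z).im ^ 2 + e) -
      2 * ((F z).im * (deriv F z).re - (F z).re * (deriv F z).im) ^ 2) /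
      ((F z).re ^ 2 + (F z).im ^ 2 + e) ^ 2 := by
    rw [dy_ue hF he]
    unfold dy
    have h5 := hfd_div ((h2.mul h3).sub (h1.mul h4)) hSd hS
    have h6 : fderiv ℝ (fun z => ((F z).im * (deriv F z).re - (F z).re * (deriv F z).im) /
      ((F z).re ^ 2 + (F z).im ^ 2 + e)) z = _ := h5.fderiv
    rw [h6]
    simp
    field_simp
    ring
  unfold Lp
  rw [hx, hy]
  field_simp
  ring

end ue

section T34

variable {F : ℂ → ℂ}

private theorem sq_eq (F : ℂ → ℂ) (z : ℂ) : (F z).re ^ 2 + (F z).im ^ 2 = ‖F z‖ ^ 2 := by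
  rw [← Complex.normSq_eq_norm_sq, Complex.normSq_apply]
  ring

private theorem ue_bound {e : ℝ} (he : 0 < e) (he1 : e ≤ 1) (z : ℂ) (hz : F z ≠ 0) :
    |ue F e z| ≤ |Real.log ‖F z‖| + (1 / 2) * Real.log (‖F z‖ ^ 2 + 1) := by
  unfold ue
  rw [sq_eq]
  have hpos : 0 < ‖F z‖ := norm_pos_iff.mpr hz
  have h1 : Real.log ‖F z‖ ≤ (1 / 2) * Real.log (‖F z‖ ^ 2 + e) := by
    have : Real.log (‖F z‖ ^ 2) ≤ Real.log (‖F z‖ ^ 2 + e) :=
      Real.log_le_log (by positivity) (by linarith)
    rw [Real.log_pow] at this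
    push_cast at this
    linarith
  have h2 : (1 / 2) * Real.log (‖F z‖ ^ 2 + e) ≤ (1 / 2) * Real.log (‖F z‖ ^ 2 + 1) := by
    have : Real.log (‖F z‖ ^ 2 + e) ≤ Real.log (‖F z‖ ^ 2 + 1) :=
      Real.log_le_log (by positivity) (by linarith)
    linarith
  have h3 : 0 ≤ (1 / 2) * Real.log (‖F z‖ ^ 2 + 1) := by
    have : 0 ≤ Real.log (‖F z‖ ^ 2 + 1) := Real.log_nonneg (by nlinarith)
    linarith
  rw [abs_le]
  constructor
  · have := neg_abs_le (Real.log ‖F z‖)
    linarith
  · have := abs_nonneg (Real.log ‖F z‖)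
    linarith

private theorem ue_lim (z : ℂ) (hz : F z ≠ 0) :
    Tendsto (fun n : ℕ => ue F (1 / ((n : ℝ) + 1)) z) atTop (𝓝 (Real.log ‖F z‖)) := by
  have hpos : 0 < ‖F z‖ := norm_pos_iff.mpr hz
  have h1 : Tendsto (fun n : ℕ => ‖F z‖ ^ 2 + 1 / ((n : ℝ) + 1)) atTop (𝓝 (‖F z‖ ^ 2 + 0)) :=
    tendsto_const_nhds.add tendsto_one_div_add_atTop_nhds_zero_nat
  rw [add_zero] at h1
  have h2 := (h1.log (by positivity)).const_mul (1 / 2)
  have h3 : (1 / 2) * Real.log (‖F z‖ ^ 2) = Real.log ‖F z‖ := by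
    rw [Real.log_pow]
    push_cast
    ring
  rw [h3] at h2
  unfold ue
  simp only [sq_eq]
  exact h2

private theorem conv_int (hF : Differentiable ℂ F) (hne : ∃ z, F z ≠ 0) {η : ℂ → ℝ}
    (hη : ContDiff ℝ 2 η) (hηs : HasCompactSupport η) :
    Tendsto (fun n : ℕ => ∫ z, Lp (ue F (1 / ((n : ℝ) + 1))) z * η z) atTop
      (𝓝 (∫ z, Real.log ‖F z‖ * Lp η z)) := by
  have he : ∀ n : ℕ, 0 < 1 / ((n : ℝ) + 1) := fun n => by positivity
  have he1 : ∀ n : ℕ, 1 / ((n : ℝ) + 1) ≤ 1 := fun n => by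
    rw [div_le_one (by positivity)]
    have : (0:ℝ) ≤ n := Nat.cast_nonneg n
    linarith
  have hrew : ∀ n : ℕ, ∫ z, Lp (ue F (1 / ((n : ℝ) + 1))) z * η z =
      ∫ z, ue F (1 / ((n : ℝ) + 1)) z * Lp η z := fun n =>
    (ibpL (by exact_mod_cast ue_contDiff hF (he n) 2) hη hηs).symm
  simp only [hrew]
  have hLc := Lp_cont hη
  have hLs := Lp_supp hηs
  apply tendsto_integral_of_dominated_convergence
    (fun z => (|Real.log ‖F z‖| + (1 / 2) * Real.log (‖F z‖ ^ 2 + 1)) * |Lp η z|)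
  · intro n
    exact ((ue_contDiff hF (he n) 0).continuous.mul hLc).aestronglyMeasurable
  · have hloc : LocallyIntegrable (fun z => |Real.log ‖F z‖| + (1 / 2) * Real.log (‖F z‖ ^ 2 + 1))
        volume := by
      have h1 : LocallyIntegrable (fun z => |Real.log ‖F z‖|) volume := by
        intro x
        obtain ⟨s, hs, hi⟩ := log_norm_locInt hF hne x
        exact ⟨s, hs, hi.abs⟩
      have h2 : Continuous (fun z => (1 / 2) * Real.log (‖F z‖ ^ 2 + 1)) := by
        apply continuous_const.mul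
        apply Continuous.log
        · exact (hF.continuous.norm.pow 2).add continuous_const
        · intro z
          positivity
      exact h1.add h2.locallyIntegrable
    have habs : HasCompactSupport (fun z => |Lp η z|) := hLs.comp_left (g := fun x : ℝ => |x|) abs_zero
    have := hloc.integrable_smul_left_of_hasCompactSupport hLc.abs habs
    refine this.congr (Eventually.of_forall fun z => ?_)
    simp only [smul_eq_mul]
    ring
  · intro n
    filter_upwards [ae_ne_zero hF hne] with z hz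
    rw [norm_mul, Real.norm_eq_abs, Real.norm_eq_abs]
    exact mul_le_mul_of_nonneg_right (ue_bound (he n) (he1 n) z hz) (abs_nonneg _)
  · filter_upwards [ae_ne_zero hF hne] with z hz
    exact (ue_lim z hz).mul_const _

/-- TARGET 3: subharmonicity in the sense of distributions, for `F` entire -/
theorem log_subharmonic (F : ℂ → ℂ) (hF : Differentiable ℂ F) (hne : ∃ z, F z ≠ 0) (η : ℂ → ℝ)
    (hη : ContDiff ℝ 4 η) (hηs : HasCompactSupport η) (hη0 : ∀ z, 0 ≤ η z) :
    0 ≤ ∫ z, Real.log ‖F z‖ * (dx (dx η) z + dy (dy η) z) := by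
  have h := conv_int hF hne (hη.of_le (by norm_num : (2 : WithTop ℕ∞) ≤ 4)) hηs
  refine ge_of_tendsto' h (fun n => ?_)
  apply integral_nonneg
  intro z
  simp only [Pi.zero_apply]
  rw [Lp_ue hF (by positivity)]
  have := hη0 z
  positivity

/-- TARGET 4: harmonic where zero-free -/
theorem log_harmonic (F : ℂ → ℂ) (hF : Differentiable ℂ F) (η : ℂ → ℝ)
    (hη : ContDiff ℝ 4 η) (hηs : HasCompactSupport η) (h0 : ∀ z, η z ≠ 0 → F z ≠ 0)
    (h1 : ∀ z ∈ tsupport η, F z ≠ 0) :
    ∫ z, Real.log ‖F z‖ * (dx (dx η) z + dy (dy η) z) = 0 := by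
  by_cases hne : ∃ z, F z ≠ 0
  · have h := conv_int hF hne (hη.of_le (by norm_num : (2 : WithTop ℕ∞) ≤ 4)) hηs
    have hF' : Differentiable ℂ (deriv F) := fun z => (hF.analyticAt z).deriv.differentiableAt
    set G : ℂ → ℝ := fun z => 2 * ‖deriv F z‖ ^ 2 / ‖F z‖ ^ 4 * |η z| with hG
    have hGs : HasCompactSupport G := by
      have : HasCompactSupport (fun z => |η z|) := hηs.comp_left (g := fun x : ℝ => |x|) abs_zero
      exact this.mul_left
    have hGc : Continuous G := by
      rw [continuous_iff_continuousAt]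
      intro z
      by_cases hz : z ∈ tsupport η
      · have hz1 := h1 z hz
        apply ContinuousAt.mul
        · apply ContinuousAt.div
          · exact (continuous_const.mul (hF'.continuous.norm.pow 2)).continuousAt
          · exact (hF.continuous.norm.pow 4).continuousAt
          · exact pow_ne_zero 4 (norm_ne_zero_iff.mpr hz1)
        · exact hη.continuous.abs.continuousAt
      · have hev : G =ᶠ[𝓝 z] fun _ => 0 := by
          have := notMem_tsupport_iff_eventuallyEq.mp hz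
          filter_upwards [this] with w hw
          simp [hG, hw]
        exact continuousAt_const.congr hev.symm
    have hGi : Integrable G := hGc.integrable_of_hasCompactSupport hGs
    have hb : ∀ n : ℕ, ‖∫ z, Lp (ue F (1 / ((n : ℝ) + 1))) z * η z‖ ≤
        1 / ((n : ℝ) + 1) * ∫ z, G z := by
      intro n
      rw [← integral_const_mul]
      apply norm_integral_le_of_norm_le (hGi.const_mul _)
      refine Eventually.of_forall fun z => ?_
      have he : (0:ℝ) < 1 / ((n : ℝ) + 1) := by positivity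
      rw [Lp_ue hF he, norm_mul, Real.norm_eq_abs (η z), sq_eq, sq_eq]
      by_cases hz : η z = 0
      · simp [hG, hz]
      · have hFz := h0 z hz
        have hpos : 0 < ‖F z‖ := norm_pos_iff.mpr hFz
        rw [Real.norm_of_nonneg (by positivity)]
        simp only [hG]
        rw [← mul_assoc]
        apply mul_le_mul_of_nonneg_right _ (abs_nonneg _)
        have h2 : 1 / ((n : ℝ) + 1) * (2 * ‖deriv F z‖ ^ 2 / ‖F z‖ ^ 4) =
          2 * (1 / ((n : ℝ) + 1)) * ‖deriv F z‖ ^ 2 / ‖F z‖ ^ 4 := by ring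
        rw [h2]
        apply div_le_div_of_nonneg_left (by positivity) (by positivity)
        have h3 : ‖F z‖ ^ 4 = (‖F z‖ ^ 2) ^ 2 := by ring
        rw [h3]
        apply pow_le_pow_left₀ (by positivity)
        linarith
    have hlim0 : Tendsto (fun n : ℕ => 1 / ((n : ℝ) + 1) * ∫ z, G z) atTop (𝓝 0) := by
      have := (tendsto_one_div_add_atTop_nhds_zero_nat (𝕜 := ℝ)).mul_const (∫ z, G z)
      rwa [zero_mul] at this
    exact tendsto_nhds_unique h (squeeze_zero_norm hb hlim0)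
  · push Not at hne
    simp [hne]

end T34

section T5

private theorem moll_fderiv {k P : ℂ → ℝ} (hk : ContDiff ℝ 1 k) (hks : HasCompactSupport k)
    (hP : LocallyIntegrable P volume) (z v : ℂ) :
    fderiv ℝ (fun z => ∫ w, k (z - w) * P w) z v = ∫ w, fderiv ℝ k (z - w) v * P w := by
  have h := hks.hasFDerivAt_convolution_right (ContinuousLinearMap.mul ℝ ℝ) hP hk z
  have he : (fun z => ∫ w, k (z - w) * P w) = convolution P k (ContinuousLinearMap.mul ℝ ℝ) volume := by
    funext z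
    unfold convolution
    congr 1
    funext w
    exact mul_comm _ _
  rw [he, h.fderiv]
  unfold convolution
  have hex := (hks.fderiv ℝ).convolutionExists_right ((ContinuousLinearMap.mul ℝ ℝ).precompR ℂ) hP
    (hk.continuous_fderiv one_ne_zero) z
  rw [ContinuousLinearMap.integral_apply hex]
  congr 1
  funext w
  rw [ContinuousLinearMap.precompR_apply]
  exact mul_comm _ _

private theorem kP_int {k P : ℂ → ℝ} (hk : Continuous k) (hks : HasCompactSupport k)
    (hP : LocallyIntegrable P volume) (z : ℂ) : Integrable (fun w => k (z - w) * P w) := by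
  have hc : Continuous (fun w => k (z - w)) := hk.comp (by fun_prop)
  have hs : HasCompactSupport (fun w => k (z - w)) := hks.comp_homeomorph (Homeomorph.subLeft z)
  exact hP.integrable_smul_left_of_hasCompactSupport hc hs

private theorem Lop_moll {ρ δ : ℝ} (hδ : 0 < δ) {P : ℂ → ℝ} (hP : LocallyIntegrable P volume) (z : ℂ) :
    Lop ρ (moll δ P) z = ∫ w, Lop ρ (psid δ) (z - w) * P w := by
  obtain ⟨hk, hks, -⟩ := psid_props δ hδ
  have hk4 : ContDiff ℝ 4 (psid δ) := by exact_mod_cast hk 4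
  have hk1 : ContDiff ℝ 1 (psid δ) := by exact_mod_cast hk 1
  have hdx : ContDiff ℝ 3 (dx (psid δ)) := dx_cd (n := 3) (by exact_mod_cast hk 4)
  have hdy : ContDiff ℝ 3 (dy (psid δ)) := dy_cd (n := 3) (by exact_mod_cast hk 4)
  have hdx1 : ContDiff ℝ 1 (dx (psid δ)) := hdx.of_le (by norm_num)
  have hdy1 : ContDiff ℝ 1 (dy (psid δ)) := hdy.of_le (by norm_num)
  have hdxx : ContDiff ℝ 2 (dx (dx (psid δ))) := dx_cd (n := 2) (by exact_mod_cast hdx)
  have hdyy : ContDiff ℝ 2 (dy (dy (psid δ))) := dy_cd (n := 2) (by exact_mod_cast hdy)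
  have sdx : HasCompactSupport (dx (psid δ)) := hks.fderiv_apply ℝ 1
  have sdy : HasCompactSupport (dy (psid δ)) := hks.fderiv_apply ℝ I
  have sdxx : HasCompactSupport (dx (dx (psid δ))) := sdx.fderiv_apply ℝ 1
  have sdyy : HasCompactSupport (dy (dy (psid δ))) := sdy.fderiv_apply ℝ I
  have e1 : dx (moll δ P) = fun z => ∫ w, dx (psid δ) (z - w) * P w := by
    funext z
    exact moll_fderiv hk1 hks hP z 1
  have e2 : dy (moll δ P) = fun z => ∫ w, dy (psid δ) (z - w) * P w := by
    funext z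
    exact moll_fderiv hk1 hks hP z I
  have e3 : dx (dx (moll δ P)) z = ∫ w, dx (dx (psid δ)) (z - w) * P w := by
    rw [e1]
    exact moll_fderiv hdx1 sdx hP z 1
  have e4 : dy (dy (moll δ P)) z = ∫ w, dy (dy (psid δ)) (z - w) * P w := by
    rw [e2]
    exact moll_fderiv hdy1 sdy hP z I
  have i1 := kP_int hdxx.continuous sdxx hP z
  have i2 := (kP_int hdx.continuous sdx hP z).const_mul (2 * ρ)
  have i3 := kP_int hdyy.continuous sdyy hP z
  have i4 := (kP_int hk4.continuous hks hP z).const_mul (ρ ^ 2)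
  unfold Lop
  rw [e3, e4, e1]
  show _ + 2 * ρ * (∫ w, dx (psid δ) (z - w) * P w) + _ + ρ ^ 2 * (∫ w, psid δ (z - w) * P w) = _
  rw [← integral_const_mul, ← integral_const_mul]
  rw [← integral_add i1 i2]
  have i12 : Integrable (fun w => dx (dx (psid δ)) (z - w) * P w +
    2 * ρ * (dx (psid δ) (z - w) * P w)) := i1.add i2
  rw [← integral_add i12 i3]
  have i123 : Integrable (fun w => dx (dx (psid δ)) (z - w) * P w +
    2 * ρ * (dx (psid δ) (z - w) * P w) + dy (dy (psid δ)) (z - w) * P w) := i12.add i3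
  rw [← integral_add i123 i4]
  congr 1
  funext w
  ring

/-- weighted test function -/
private noncomputable def et (ρ : ℝ) (k : ℂ → ℝ) (z w : ℂ) : ℝ := Real.exp (-(ρ * w.re)) * k (z - w)

private theorem et_fderiv {ρ : ℝ} {k : ℂ → ℝ} (hk : Differentiable ℝ k) (z w v : ℂ) :
    HasFDerivAt (et ρ k z) (Real.exp (-(ρ * w.re)) • (-(fderiv ℝ k (z - w))) +
      k (z - w) • ((-ρ * Real.exp (-(ρ * w.re))) • Complex.reCLM)) w := by
  have h1 : HasFDerivAt (fun w : ℂ => k (z - w)) (-(fderiv ℝ k (z - w))) w := by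
    have h2 := (hk (z - w)).hasFDerivAt.comp w ((hasFDerivAt_id w).const_sub z)
    refine HasFDerivAt.congr_fderiv h2 ?_
    ext v
    simp
  have h3 : HasFDerivAt (fun w : ℂ => Real.exp (-(ρ * w.re)))
      ((-ρ * Real.exp (-(ρ * w.re))) • Complex.reCLM) w := by
    have h4 : HasFDerivAt (fun w : ℂ => -(ρ * w.re)) (-(ρ • Complex.reCLM)) w :=
      (Complex.reCLM.hasFDerivAt.const_mul ρ).neg
    have h5 := h4.exp
    refine h5.congr_fderiv ?_
    ext v
    simp
    ring
  exact h3.mul h1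

private theorem et_dv {ρ : ℝ} {k : ℂ → ℝ} (hk : Differentiable ℝ k) (z w v : ℂ) :
    fderiv ℝ (et ρ k z) w v = -ρ * v.re * et ρ k z w - et ρ (fun x => fderiv ℝ k x v) z w := by
  rw [(et_fderiv hk z w v).fderiv]
  unfold et
  simp
  ring

private theorem et_lap {ρ : ℝ} {k : ℂ → ℝ} (hk : ContDiff ℝ 4 k) (z w : ℂ) :
    dx (dx (et ρ k z)) w + dy (dy (et ρ k z)) w = Real.exp (-(ρ * w.re)) * Lop ρ k (z - w) := by
  have hd : Differentiable ℝ k := hk.differentiable (by norm_num)
  have hdxd : Differentiable ℝ (dx k) :=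
    (dx_cd (n := 3) (by exact_mod_cast hk)).differentiable (by norm_num)
  have hdyd : Differentiable ℝ (dy k) :=
    (dy_cd (n := 3) (by exact_mod_cast hk)).differentiable (by norm_num)
  have e1 : dx (et ρ k z) = fun w => -ρ * et ρ k z w - et ρ (dx k) z w := by
    funext w
    have := et_dv (ρ := ρ) hd z w 1
    simp only [Complex.one_re, mul_one] at this
    exact this
  have e2 : dy (et ρ k z) = fun w => - et ρ (dy k) z w := by
    funext w
    have := et_dv (ρ := ρ) hd z w I
    simp only [Complex.I_re, mul_zero, zero_mul, zero_sub] at this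
    exact this
  have e3 : dx (dx (et ρ k z)) w = ρ ^ 2 * et ρ k z w + 2 * ρ * et ρ (dx k) z w +
      et ρ (dx (dx k)) z w := by
    rw [e1]
    have h1 := ((et_fderiv (ρ := ρ) hd z w 1).const_mul (-ρ)).sub (et_fderiv (ρ := ρ) hdxd z w 1)
    have h2 : fderiv ℝ (fun w => -ρ * et ρ k z w - et ρ (dx k) z w) w = _ := h1.fderiv
    show fderiv ℝ (fun w => -ρ * et ρ k z w - et ρ (dx k) z w) w 1 = _
    rw [h2]
    unfold et dx
    simp
    ring
  have e4 : dy (dy (et ρ k z)) w = et ρ (dy (dy k)) z w := by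
    rw [e2]
    have h1 := (et_fderiv (ρ := ρ) hdyd z w I).neg
    have h2 : fderiv ℝ (fun w => - et ρ (dy k) z w) w = _ := h1.fderiv
    show fderiv ℝ (fun w => - et ρ (dy k) z w) w I = _
    rw [h2]
    unfold et dy
    simp
  rw [e3, e4]
  unfold Lop et
  ring

private theorem Lop_cU {ρ δ : ℝ} (hδ : 0 < δ) {f : ℂ → ℂ} (hf : Differentiable ℂ f)
    (hne : ∃ z, f z ≠ 0) (z : ℂ) :
    Lop ρ (moll δ (cU ρ f)) z = ∫ w, Real.log ‖f (cexp w)‖ *
      (dx (dx (et ρ (psid δ) z)) w + dy (dy (et ρ (psid δ) z)) w) := by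
  rw [Lop_moll hδ (cU_loc ρ f hf hne).1 z]
  have hk4 : ContDiff ℝ 4 (psid δ) := by exact_mod_cast (psid_props δ hδ).1 4
  congr 1
  funext w
  rw [et_lap hk4]
  unfold cU
  ring

private theorem et_props {ρ δ : ℝ} (hδ : 0 < δ) (z : ℂ) :
    ContDiff ℝ 4 (et ρ (psid δ) z) ∧ HasCompactSupport (et ρ (psid δ) z) ∧
    (∀ w, 0 ≤ et ρ (psid δ) z w) ∧ (∀ w, et ρ (psid δ) z w ≠ 0 → ‖w - z‖ ≤ δ) := by
  obtain ⟨hk, hks, hk0, hkz, -⟩ := psid_props δ hδ
  have hk4 : ContDiff ℝ 4 (psid δ) := by exact_mod_cast hk 4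
  refine ⟨?_, ?_, ?_, ?_⟩
  · unfold et
    apply ContDiff.mul
    · apply ContDiff.exp
      exact (contDiff_const.mul Complex.reCLM.contDiff).neg
    · exact hk4.comp (contDiff_const.sub contDiff_id)
  · unfold et
    have hs : HasCompactSupport (fun w => psid δ (z - w)) := hks.comp_homeomorph (Homeomorph.subLeft z)
    exact hs.mul_left
  · intro w
    unfold et
    exact mul_nonneg (Real.exp_pos _).le (hk0 _)
  · intro w hw
    by_contra hcon
    push Not at hcon
    apply hw
    unfold et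
    rw [hkz (z - w) (by rw [norm_sub_rev]; exact hcon.le), mul_zero]

/-- TARGET 5: consequences for `cU` -/
theorem cU_sub (ρ : ℝ) (f : ℂ → ℂ) (hf : Differentiable ℂ f) (hne : ∃ z, f z ≠ 0) (δ : ℝ) (hδ : 0 < δ)
    (z : ℂ) : 0 ≤ Lop ρ (moll δ (cU ρ f)) z := by
  rw [Lop_cU hδ hf hne z]
  obtain ⟨h1, h2⟩ := exp_comp_ne hf hne
  obtain ⟨p1, p2, p3, -⟩ := et_props (ρ := ρ) hδ z
  exact log_subharmonic (fun z => f (cexp z)) h1 h2 _ p1 p2 p3
theorem cU_zero (ρ : ℝ) (f : ℂ → ℂ) (hf : Differentiable ℂ f) (hne : ∃ z, f z ≠ 0) (δ : ℝ) (hδ : 0 < δ)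
    (z : ℂ) (h0 : ∀ w : ℂ, ‖w - z‖ ≤ δ → f (cexp w) ≠ 0) : Lop ρ (moll δ (cU ρ f)) z = 0 := by
  rw [Lop_cU hδ hf hne z]
  obtain ⟨h1, h2⟩ := exp_comp_ne hf hne
  obtain ⟨p1, p2, p3, p4⟩ := et_props (ρ := ρ) hδ z
  refine log_harmonic (fun z => f (cexp z)) h1 _ p1 p2 (fun w hw => h0 w (p4 w hw)) ?_
  intro w hw
  have hsub : tsupport (et ρ (psid δ) z) ⊆ Metric.closedBall z δ := by
    apply closure_minimal _ Metric.isClosed_closedBall
    intro x hx
    rw [Metric.mem_closedBall, dist_eq_norm]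
    exact p4 x hx
  have := hsub hw
  rw [Metric.mem_closedBall, dist_eq_norm] at this
  exact h0 w this

end T5

end M_A2
end Pool.Agent.Helper758.LS
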