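import Mathlib
import Pool.Agent.Helper758.LSDefs
import Pool.Agent.Helper758.LSDefs2
import Pool.Agent.Helper758.FrDefs
import Pool.Agent.Helper758.LS_A2
import Pool.Agent.Helper758.LS_MOL

namespace Pool.Agent.Helper758.LS
open MeasureTheory Filter Topology Set Complex
open M_A2 (cU_loc)
open M_MOL (psid_bounds psid_props)
namespace M_A3


/-- GIVEN (do not prove) -/





theorem aux_jensen (F : ℂ → ℂ) (hF : Differentiable ℂ F) (c : ℂ) (hc : F c ≠ 0) (R : ℝ) (hR : 0 < R) :
    Real.log ‖F c‖ ≤ Real.circleAverage (fun z => Real.log ‖F z‖) c R := by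
  have hA : AnalyticOnNhd ℂ F (Metric.closedBall c |R|) := fun z _ =>
    hF.analyticAt z
  rw [hA.circleAverage_log_norm hR.ne' hc]
  have : 0 ≤ ∑ᶠ u, (MeromorphicOn.divisor F (Metric.closedBall c |R|) u : ℝ) * Real.log (R * ‖c - u‖⁻¹) := by
    apply finsum_nonneg
    intro u
    by_cases hu : u ∈ Metric.closedBall c |R|
    · apply mul_nonneg
      · have := MeromorphicOn.AnalyticOnNhd.divisor_nonneg hA u
        exact_mod_cast this
      · by_cases h0 : c = u
        · simp [h0]
        · apply Real.log_nonneg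
          have h1 : 0 < ‖c - u‖ := norm_pos_iff.mpr (sub_ne_zero.mpr h0)
          rw [← div_eq_mul_inv, le_div_iff₀ h1, one_mul]
          rw [Metric.mem_closedBall, dist_comm, dist_eq_norm, abs_of_pos hR] at hu
          exact hu
    · have : (MeromorphicOn.divisor F (Metric.closedBall c |R|)) u = 0 :=
        Function.locallyFinsuppWithin.apply_eq_zero_of_notMem _ hu
      rw [this]; simp
  linarith

theorem aux_intOn_log (r : ℝ) : IntegrableOn (fun z : ℂ => Real.log ‖z‖) (Metric.ball 0 r) volume := by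
  rw [integrableOn_fun_norm_addHaar (μ := (volume : Measure ℂ)) (f := Real.log) (r := r)]
  rw [Complex.finrank_real_complex]
  have : (fun y : ℝ => y ^ (2 - 1) • Real.log y) = fun y => y * Real.log y := by
    funext y; simp
  rw [this]
  apply IntegrableOn.mono_set (t := Icc 0 r) _ Ioo_subset_Icc_self
  exact (Real.continuous_mul_log.continuousOn).integrableOn_Icc

theorem aux_locint_log_sub (a : ℂ) : LocallyIntegrable (fun z : ℂ => Real.log ‖z - a‖) volume := by
  intro x
  refine ⟨Metric.ball a (‖x - a‖ + 1), Metric.isOpen_ball.mem_nhds ?_, ?_⟩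
  · rw [Metric.mem_ball, dist_eq_norm]; linarith
  · have h1 := aux_intOn_log (‖x - a‖ + 1)
    have h2 : MeasurePreserving (fun z : ℂ => z - a) volume volume := measurePreserving_sub_right volume a
    have h3 := (h2.integrableOn_comp_preimage (MeasurableEquiv.subRight a).measurableEmbedding (f := fun z : ℂ => Real.log ‖z‖) (s := Metric.ball 0 (‖x - a‖ + 1))).mpr h1
    have h4 : (fun z : ℂ => z - a) ⁻¹' (Metric.ball 0 (‖x - a‖ + 1)) = Metric.ball a (‖x - a‖ + 1) := by
      ext z; simp [dist_eq_norm]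
    rw [h4] at h3
    exact h3

theorem aux_locint (F : ℂ → ℂ) (hF : Differentiable ℂ F) (hne : ∃ z, F z ≠ 0) :
    LocallyIntegrable (fun z : ℂ => Real.log ‖F z‖) volume := by
  intro a
  have hA : AnalyticAt ℂ F a := hF.analyticAt a
  have hnz : ¬ ∀ᶠ z in 𝓝 a, F z = 0 := by
    intro h0
    obtain ⟨z, hz⟩ := hne
    have hAn : AnalyticOnNhd ℂ F Set.univ := fun z _ => hF.analyticAt z
    have := hAn.eq_of_eventuallyEq (g := fun _ => 0) (fun z _ => analyticAt_const) (z₀ := a) h0
    exact hz (by rw [this])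
  obtain ⟨n, g, hg, hga, hfg⟩ := (hA.exists_eventuallyEq_pow_smul_nonzero_iff).mpr hnz
  -- neighbourhood
  have hev : ∀ᶠ z in 𝓝 a, AnalyticAt ℂ g z ∧ g z ≠ 0 := by
    have := hg.continuousAt.eventually_ne hga
    exact (hg.eventually_analyticAt).and this
  have hboth := hev.and hfg
  obtain ⟨r, hr, hball⟩ := Metric.eventually_nhds_iff_ball.mp hboth
  refine ⟨Metric.closedBall a (r/2), Metric.closedBall_mem_nhds a (by positivity), ?_⟩
  have hsub : Metric.closedBall a (r/2) ⊆ Metric.ball a r := Metric.closedBall_subset_ball (by linarith)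
  have hK : IsCompact (Metric.closedBall a (r/2)) := isCompact_closedBall _ _
  have h1 : IntegrableOn (fun z : ℂ => Real.log ‖z - a‖) (Metric.closedBall a (r/2)) volume :=
    (aux_locint_log_sub a).integrableOn_isCompact hK
  have h2 : IntegrableOn (fun z : ℂ => Real.log ‖g z‖) (Metric.closedBall a (r/2)) volume := by
    apply ContinuousOn.integrableOn_compact hK
    apply ContinuousOn.log
    · exact ContinuousOn.norm (fun z hz => (hball z (hsub hz)).1.1.continuousAt.continuousWithinAt)
    · intro z hz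
      exact norm_ne_zero_iff.mpr (hball z (hsub hz)).1.2
  have h3 := (h1.const_mul (n : ℝ)).add h2
  apply Integrable.congr h3
  have hae : ∀ᵐ z ∂(volume.restrict (Metric.closedBall a (r/2))), z ≠ a := by
    apply ae_restrict_of_ae
    have : volume ({a} : Set ℂ) = 0 := by simp
    exact measure_eq_zero_iff_ae_notMem.mp this
  filter_upwards [hae, ae_restrict_mem Metric.isClosed_closedBall.measurableSet] with z hz hzm
  have := (hball z (hsub hzm)).2
  simp only [Pi.add_apply]
  rw [this, norm_smul, norm_pow, Real.log_mul, Real.log_pow]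
  · exact pow_ne_zero _ (norm_ne_zero_iff.mpr (sub_ne_zero.mpr hz))
  · exact norm_ne_zero_iff.mpr (hball z (hsub hzm)).1.2


theorem aux_radial (G : ℂ → ℝ) (hGm : Measurable G) (κ : ℂ → ℝ) (hκm : Measurable κ)
    (hκ0 : ∀ z, 0 ≤ κ z) (hrad : ∀ z w : ℂ, ‖z‖ = ‖w‖ → κ z = κ w) (a : ℂ)
    (hint : Integrable (fun z => κ z * G (a + z)) volume) (c : ℝ → ℝ)
    (hc : ∀ s > 0, c s ≤ Real.circleAverage G a s)
    (hcint : Integrable (fun z : ℂ => κ z * c ‖z‖) volume) :
    ∫ z, κ z * c ‖z‖ ≤ ∫ z, κ z * G (a + z) := by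
  set ν : Measure ℝ := volume.restrict (Ioc 0 (2 * Real.pi)) with hν
  have hpi := Real.pi_pos
  have hνfin : IsFiniteMeasure ν := by
    rw [hν]; infer_instance
  set Φ : ℝ × ℂ → ℝ := fun p => κ p.2 * G (a + cexp (p.1 * I) * p.2) with hΦ
  have hΦm : Measurable Φ := by
    apply Measurable.mul
    · exact hκm.comp measurable_snd
    · apply hGm.comp
      fun_prop
  set H : ℂ → ℝ := fun z => κ z * G (a + z) with hH
  -- rotation
  have hnorm : ∀ θ : ℝ, ‖cexp (θ * I)‖ = 1 := fun θ => Complex.norm_exp_ofReal_mul_I θ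
  have hrot : ∀ θ : ℝ, MeasurePreserving (fun z : ℂ => cexp (θ * I) * z) volume volume := by
    intro θ
    have := (rotation (Circle.exp θ)).measurePreserving
    have h2 : (rotation (Circle.exp θ) : ℂ → ℂ) = fun z : ℂ => cexp (θ * I) * z := by
      funext z
      simp
    rw [h2] at this
    exact this
  have hemb : ∀ θ : ℝ, MeasurableEmbedding (fun z : ℂ => cexp (θ * I) * z) := by
    intro θ
    have h2 : (rotation (Circle.exp θ) : ℂ → ℂ) = fun z : ℂ => cexp (θ * I) * z := by
      funext z
      simp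
    rw [← h2]
    exact (rotation (Circle.exp θ)).toHomeomorph.measurableEmbedding
  have hΦH : ∀ (θ : ℝ) (z : ℂ), Φ (θ, z) = H (cexp (θ * I) * z) := by
    intro θ z
    simp only [hΦ, hH]
    rw [hrad z (cexp (θ * I) * z) (by rw [norm_mul, hnorm, one_mul])]
  have hΦz : ∀ θ : ℝ, Integrable (fun z => Φ (θ, z)) volume := by
    intro θ
    have : (fun z => Φ (θ, z)) = H ∘ (fun z : ℂ => cexp (θ * I) * z) := by
      funext z; exact hΦH θ z
    rw [this]
    exact ((hrot θ).integrable_comp_emb (hemb θ)).mpr hint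
  have hΦI : ∀ θ : ℝ, ∫ z, Φ (θ, z) = ∫ z, H z := by
    intro θ
    have : (fun z => Φ (θ, z)) = fun z => H (cexp (θ * I) * z) := by
      funext z; exact hΦH θ z
    rw [this]
    exact (hrot θ).integral_comp (hemb θ) H
  have hΦN : ∀ θ : ℝ, ∫ z, ‖Φ (θ, z)‖ = ∫ z, ‖H z‖ := by
    intro θ
    have : (fun z => ‖Φ (θ, z)‖) = fun z => (fun w => ‖H w‖) (cexp (θ * I) * z) := by
      funext z; rw [hΦH θ z]
    rw [this]
    exact (hrot θ).integral_comp (hemb θ) (fun w => ‖H w‖)
  have hΦint : Integrable Φ (ν.prod volume) := by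
    rw [integrable_prod_iff hΦm.aestronglyMeasurable]
    constructor
    · exact Filter.Eventually.of_forall hΦz
    · simp_rw [hΦN]
      exact integrable_const _
  have hswap : ∫ θ, ∫ z, Φ (θ, z) ∂volume ∂ν = ∫ z, ∫ θ, Φ (θ, z) ∂ν ∂volume :=
    integral_integral_swap (f := fun θ z => Φ (θ, z)) hΦint
  have hL : ∫ θ, ∫ z, Φ (θ, z) ∂volume ∂ν = 2 * Real.pi * ∫ z, H z := by
    simp_rw [hΦI]
    rw [integral_const, hν, measureReal_restrict_apply_univ, Real.volume_real_Ioc_of_le (by positivity)]
    simp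
  -- inner integral
  have hR : ∀ z : ℂ, ∫ θ, Φ (θ, z) ∂ν = κ z * (2 * Real.pi * Real.circleAverage G a ‖z‖) := by
    intro z
    simp only [hΦ]
    rw [integral_const_mul]
    congr 1
    rw [Real.circleAverage_eq_integral_add (Complex.arg z), smul_eq_mul, ← mul_assoc,
      mul_inv_cancel₀ (by positivity), one_mul, intervalIntegral.integral_of_le (by positivity)]
    apply integral_congr_ae
    filter_upwards with θ
    congr 1
    simp only [circleMap]
    congr 1
    have := Complex.norm_mul_exp_arg_mul_I z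
    calc cexp (θ * I) * z = cexp (θ * I) * (‖z‖ * cexp (arg z * I)) := by rw [this]
      _ = ‖z‖ * (cexp (θ * I) * cexp (arg z * I)) := by ring
      _ = _ := by rw [← Complex.exp_add]; congr 2; push_cast; ring
  have hRint : Integrable (fun z => κ z * (2 * Real.pi * Real.circleAverage G a ‖z‖)) volume := by
    have := hΦint.integral_prod_right
    simp_rw [← hR]
    exact this
  have hkey : ∫ z, (2 * Real.pi) * (κ z * c ‖z‖) ≤ ∫ z, κ z * (2 * Real.pi * Real.circleAverage G a ‖z‖) := by
    apply integral_mono_ae (hcint.const_mul _) hRint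
    have : volume ({0} : Set ℂ) = 0 := by simp
    filter_upwards [measure_eq_zero_iff_ae_notMem.mp this] with z hz
    have hz0 : 0 < ‖z‖ := norm_pos_iff.mpr hz
    have := hc ‖z‖ hz0
    have h2 := mul_le_mul_of_nonneg_left this (mul_nonneg (by positivity : 0 ≤ 2 * Real.pi) (hκ0 z))
    calc _ = 2 * Real.pi * κ z * c ‖z‖ := by ring
      _ ≤ _ := h2
      _ = _ := by ring
  rw [integral_const_mul] at hkey
  rw [hL] at hswap
  simp_rw [hR] at hswap
  rw [← hswap] at hkey
  exact le_of_mul_le_mul_left hkey (by positivity)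

theorem aux_jensen_zero (F : ℂ → ℂ) (hF : Differentiable ℂ F) (a : ℂ) (ha : F a = 0)
    (hd : deriv F a ≠ 0) (R : ℝ) (hR : 0 < R) :
    Real.log ‖deriv F a‖ + Real.log R ≤ Real.circleAverage (fun z => Real.log ‖F z‖) a R := by
  have hA : AnalyticOnNhd ℂ F (Metric.closedBall a |R|) := fun z _ => hF.analyticAt z
  have hgd : Differentiable ℂ (dslope F a) := by
    have := (Complex.differentiableOn_dslope (s := Set.univ) (c := a) (f := F) Filter.univ_mem).mpr
      hF.differentiableOn
    exact differentiableOn_univ.mp this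
  have hgA : AnalyticAt ℂ (dslope F a) a := hgd.analyticAt a
  have hga : dslope F a a ≠ 0 := by rw [dslope_same]; exact hd
  have hfg : F =ᶠ[𝓝[≠] a] fun z => (z - a) ^ (1 : ℤ) • dslope F a z := by
    apply Filter.Eventually.of_forall
    intro z
    show F z = (z - a) ^ (1 : ℤ) • dslope F a z
    rw [zpow_one, sub_smul_dslope, ha, sub_zero]
  have htr : meromorphicTrailingCoeffAt F a = deriv F a := by
    rw [hgA.meromorphicTrailingCoeffAt_of_ne_zero_of_eq_nhdsNE hga hfg, dslope_same]
  have hord : meromorphicOrderAt F a = (1 : ℤ) := by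
    rw [meromorphicOrderAt_eq_int_iff (hF.analyticAt a).meromorphicAt]
    exact ⟨dslope F a, hgA, hga, hfg⟩
  have hdiv : MeromorphicOn.divisor F (Metric.closedBall a |R|) a = 1 := by
    rw [MeromorphicOn.divisor_apply hA.meromorphicOn (by simp), hord]
    rfl
  rw [hA.meromorphicOn.circleAverage_log_norm hR.ne', htr, hdiv]
  have : 0 ≤ ∑ᶠ u, (MeromorphicOn.divisor F (Metric.closedBall a |R|) u : ℝ) * Real.log (R * ‖a - u‖⁻¹) := by
    apply finsum_nonneg
    intro u
    by_cases hu : u ∈ Metric.closedBall a |R|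
    · apply mul_nonneg
      · have := MeromorphicOn.AnalyticOnNhd.divisor_nonneg hA u
        exact_mod_cast this
      · by_cases h0 : a = u
        · simp [h0]
        · apply Real.log_nonneg
          have h1 : 0 < ‖a - u‖ := norm_pos_iff.mpr (sub_ne_zero.mpr h0)
          rw [← div_eq_mul_inv, le_div_iff₀ h1, one_mul]
          rw [Metric.mem_closedBall, dist_comm, dist_eq_norm, abs_of_pos hR] at hu
          exact hu
    · have : (MeromorphicOn.divisor F (Metric.closedBall a |R|)) u = 0 :=
        Function.locallyFinsuppWithin.apply_eq_zero_of_notMem _ hu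
      rw [this]; simp
  push_cast
  linarith

theorem aux_ae_ne (F : ℂ → ℂ) (hF : Differentiable ℂ F) (hne : ∃ z, F z ≠ 0) :
    ∀ᵐ z : ℂ, F z ≠ 0 := by
  obtain ⟨x, hx⟩ := hne
  have h1 : AnalyticOnNhd ℂ F Set.univ := fun z _ => hF.analyticAt z
  have h2 := h1.preimage_zero_mem_codiscrete hx
  have h3 := ae_restrict_le_codiscreteWithin (μ := (volume : Measure ℂ)) (U := Set.univ) MeasurableSet.univ h2
  rw [Measure.restrict_univ] at h3
  exact h3

theorem aux_meas (F : ℂ → ℂ) (hF : Differentiable ℂ F) : Measurable (fun z : ℂ => Real.log ‖F z‖) :=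
  Real.measurable_log.comp hF.continuous.norm.measurable

theorem aux_int_log_ball (r : ℝ) (hr : 0 < r) :
    ∫ z in Metric.closedBall (0:ℂ) r, Real.log ‖z‖ = Real.pi * r ^ 2 * (Real.log r - 1 / 2) := by
  have h1 : ∫ z in Metric.closedBall (0:ℂ) r, Real.log ‖z‖
      = ∫ z : ℂ, (Iic r).indicator Real.log ‖z‖ := by
    rw [← integral_indicator Metric.isClosed_closedBall.measurableSet]
    apply integral_congr_ae
    filter_upwards with z
    simp [indicator]
  rw [h1, integral_fun_norm_addHaar volume ((Iic r).indicator Real.log), Complex.finrank_real_complex]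
  have h2 : (volume : Measure ℂ).real (Metric.ball 0 1) = Real.pi := by
    rw [Measure.real, Complex.volume_ball]
    simp
  rw [h2]
  have h3 : ∫ y in Ioi (0:ℝ), y ^ (2 - 1) • (Iic r).indicator Real.log y
      = ∫ y in (0:ℝ)..r, y * Real.log y := by
    rw [intervalIntegral.integral_of_le hr.le, ← integral_indicator measurableSet_Ioi,
      ← integral_indicator measurableSet_Ioc]
    apply integral_congr_ae
    filter_upwards with y
    by_cases hy : 0 < y
    · by_cases hyr : y ≤ r
      · simp [indicator, hy, hyr]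
      · simp [indicator, hy, hyr]
    · simp [indicator, hy]
  rw [h3]
  have h4 : ∫ y in (0:ℝ)..r, y * Real.log y = r ^ 2 / 2 * Real.log r - r ^ 2 / 4 := by
    have hder : ∀ x ∈ Ioo (0:ℝ) r, HasDerivAt (fun x => x / 2 * (x * Real.log x) - x ^ 2 / 4) (x * Real.log x) x := by
      intro x hx
      have hx0 : x ≠ 0 := hx.1.ne'
      have h5 := ((hasDerivAt_id x).div_const 2).mul ((hasDerivAt_id x).mul (Real.hasDerivAt_log hx0))
      have h6 := (hasDerivAt_pow 2 x).div_const 4
      have h7 := h5.sub h6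
      refine h7.congr_deriv ?_
      simp only [id, one_mul, Pi.mul_apply]
      have : x * x⁻¹ = 1 := mul_inv_cancel₀ hx0
      rw [this]
      norm_num
      ring
    have hcont : ContinuousOn (fun x => x / 2 * (x * Real.log x) - x ^ 2 / 4) (Icc (0:ℝ) r) := by
      apply Continuous.continuousOn
      have := Real.continuous_mul_log
      fun_prop
    rw [intervalIntegral.integral_eq_sub_of_hasDerivAt_of_le hr.le hcont hder
      (Real.continuous_mul_log.intervalIntegrable _ _)]
    simp
    ring
  rw [h4]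
  simp only [nsmul_eq_mul, smul_eq_mul]
  push_cast
  ring

/-- TARGET 1: sub-mean value property with the factor `z - a` removed -/
theorem log_deriv_mean (F : ℂ → ℂ) (hF : Differentiable ℂ F) (a : ℂ) (ha : F a = 0) (hd : deriv F a ≠ 0)
    (r : ℝ) (hr : 0 < r) :
    Real.log ‖deriv F a‖ + Real.log r - 1 / 2 ≤ ⨍ z in Metric.closedBall a r, Real.log ‖F z‖ := by
  have hne : ∃ z, F z ≠ 0 := by
    by_contra hcon
    push Not at hcon
    apply hd
    have : F = fun _ => 0 := funext hcon
    rw [this]; simp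
  have hli := aux_locint F hF hne
  set B : Set ℂ := Metric.closedBall 0 r with hB
  have hBm : MeasurableSet B := Metric.isClosed_closedBall.measurableSet
  set κ : ℂ → ℝ := B.indicator (fun _ => (1:ℝ)) with hκ
  have hκm : Measurable κ := measurable_const.indicator hBm
  have htrans : MeasurePreserving (fun z : ℂ => a + z) volume volume := measurePreserving_add_left volume a
  have hemb : MeasurableEmbedding (fun z : ℂ => a + z) := (MeasurableEquiv.addLeft a).measurableEmbedding
  have hpre : (fun z : ℂ => a + z) ⁻¹' (Metric.closedBall a r) = B := by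
    ext z; simp [hB, dist_eq_norm]
  have hint0 : IntegrableOn (fun z => Real.log ‖F (a + z)‖) B volume := by
    have := (htrans.integrableOn_comp_preimage hemb (f := fun z : ℂ => Real.log ‖F z‖) (s := Metric.closedBall a r)).mpr
      (hli.integrableOn_isCompact (isCompact_closedBall _ _))
    rw [hpre] at this
    exact this
  have hκmul : ∀ g : ℂ → ℝ, (fun z => κ z * g z) = B.indicator g := by
    intro g
    funext z
    simp only [hκ, indicator]
    split_ifs <;> simp
  have hint : Integrable (fun z => κ z * (fun w => Real.log ‖F w‖) (a + z)) volume := by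
    rw [hκmul (fun z => (fun w => Real.log ‖F w‖) (a + z)), integrable_indicator_iff hBm]
    exact hint0
  have hlogint : IntegrableOn (fun z : ℂ => Real.log ‖z‖) B volume := by
    have := (aux_locint_log_sub 0).integrableOn_isCompact (isCompact_closedBall (0:ℂ) r)
    simpa using this
  have hBfin : volume B ≠ ⊤ := (isCompact_closedBall (0:ℂ) r).measure_lt_top.ne
  have hcint0 : IntegrableOn (fun z : ℂ => Real.log ‖deriv F a‖ + Real.log ‖z‖) B volume := by
    apply Integrable.add _ hlogint
    exact integrableOn_const hBfin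
  have hcint : Integrable (fun z : ℂ => κ z * (fun s => Real.log ‖deriv F a‖ + Real.log s) ‖z‖) volume := by
    rw [hκmul (fun z => (fun s => Real.log ‖deriv F a‖ + Real.log s) ‖z‖), integrable_indicator_iff hBm]
    exact hcint0
  have hrad : ∀ z w : ℂ, ‖z‖ = ‖w‖ → κ z = κ w := by
    intro z w hzw
    simp only [hκ, hB, indicator, Metric.mem_closedBall, dist_zero_right, hzw]
  have key := aux_radial (fun w => Real.log ‖F w‖) (aux_meas F hF) κ hκm
    (fun z => by simp only [hκ, indicator]; split_ifs <;> norm_num) hrad a hint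
    (fun s => Real.log ‖deriv F a‖ + Real.log s)
    (fun s hs => aux_jensen_zero F hF a ha hd s hs) hcint
  rw [hκmul (fun z => (fun s => Real.log ‖deriv F a‖ + Real.log s) ‖z‖), integral_indicator hBm,
    hκmul (fun z => (fun w => Real.log ‖F w‖) (a + z)), integral_indicator hBm] at key
  have hvol : (volume : Measure ℂ).real B = Real.pi * r ^ 2 := by
    rw [Measure.real, hB, Complex.volume_closedBall]
    rw [ENNReal.toReal_mul, ENNReal.toReal_pow, ENNReal.toReal_ofReal hr.le]
    simp
    ring
  have hL : ∫ z in B, (fun s => Real.log ‖deriv F a‖ + Real.log s) ‖z‖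
      = Real.pi * r ^ 2 * (Real.log ‖deriv F a‖ + Real.log r - 1 / 2) := by
    show ∫ z in B, (Real.log ‖deriv F a‖ + Real.log ‖z‖) = _
    have hci : Integrable (fun _ : ℂ => Real.log ‖deriv F a‖) (volume.restrict B) := integrableOn_const hBfin
    rw [integral_add hci hlogint, aux_int_log_ball r hr, setIntegral_const, hvol]
    simp only [smul_eq_mul]
    ring
  have hRr : ∫ z in B, (fun w => Real.log ‖F w‖) (a + z) = ∫ z in Metric.closedBall a r, Real.log ‖F z‖ := by
    rw [← hpre]
    exact htrans.setIntegral_preimage_emb hemb (fun w => Real.log ‖F w‖) _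
  rw [hL, hRr] at key
  have hvol2 : (volume : Measure ℂ).real (Metric.closedBall a r) = Real.pi * r ^ 2 := by
    rw [Measure.real, Complex.volume_closedBall]
    rw [ENNReal.toReal_mul, ENNReal.toReal_pow, ENNReal.toReal_ofReal hr.le]
    simp
    ring
  rw [setAverage_eq, hvol2, smul_eq_mul]
  have hpos : 0 < Real.pi * r ^ 2 := by positivity
  rw [inv_mul_eq_div, le_div_iff₀ hpos]
  linarith

theorem aux_int_conv (g : ℂ → ℝ) (hg : LocallyIntegrable g volume) (δ : ℝ) (hδ : 0 < δ) (z : ℂ) :
    Integrable (fun w => psid δ (z - w) * g w) volume := by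
  obtain ⟨h1, h2, h3, h4, h5, h6, h7⟩ := psid_props δ hδ
  have hc : Continuous (fun w => psid δ (z - w)) := (h1 0).continuous.comp (by fun_prop)
  have hcs : HasCompactSupport (fun w => psid δ (z - w)) :=
    h2.comp_homeomorph (Homeomorph.subLeft z)
  exact hg.integrable_smul_left_of_hasCompactSupport hc hcs

/-- TARGET 2: radial mollification increases `log|F|` -/
theorem log_moll_ge (F : ℂ → ℂ) (hF : Differentiable ℂ F) (hne : ∃ z, F z ≠ 0) (δ : ℝ) (hδ : 0 < δ) :
    ∀ᵐ z : ℂ, Real.log ‖F z‖ ≤ moll δ (fun w => Real.log ‖F w‖) z := by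
  filter_upwards [aux_ae_ne F hF hne] with z hz
  obtain ⟨h1, h2, h3, h4, h5, h6, h7⟩ := psid_props δ hδ
  have hli := aux_locint F hF hne
  have hi := aux_int_conv _ hli δ hδ z
  have htrans : MeasurePreserving (fun w : ℂ => z + w) volume volume := measurePreserving_add_left volume z
  have hemb : MeasurableEmbedding (fun w : ℂ => z + w) := (MeasurableEquiv.addLeft z).measurableEmbedding
  have heq : (fun w => psid δ w * (fun w => Real.log ‖F w‖) (z + w)) =
      (fun w => psid δ (z - w) * Real.log ‖F w‖) ∘ (fun w => z + w) := by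
    funext w
    simp only [Function.comp]
    rw [show z - (z + w) = -w by ring, h5]
  have hint : Integrable (fun w => psid δ w * (fun w => Real.log ‖F w‖) (z + w)) volume := by
    rw [heq]
    exact (htrans.integrable_comp_emb hemb).mpr hi
  have hψint : Integrable (psid δ) volume := (h1 0).continuous.integrable_of_hasCompactSupport h2
  have key := aux_radial (fun w => Real.log ‖F w‖) (aux_meas F hF) (psid δ) (h1 0).continuous.measurable
    h3 h7 z hint (fun _ => Real.log ‖F z‖) (fun s hs => aux_jensen F hF z hz s hs)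
    (hψint.mul_const _)
  rw [integral_mul_const, h6, one_mul] at key
  rw [heq] at key
  have h8 : ∫ w, ((fun w => psid δ (z - w) * Real.log ‖F w‖) ∘ (fun w => z + w)) w
      = ∫ w, psid δ (z - w) * Real.log ‖F w‖ :=
    htrans.integral_comp hemb (fun w => psid δ (z - w) * Real.log ‖F w‖)
  rw [h8] at key
  exact key

theorem aux_per (h : ℝ → ℝ) (hper : ∀ y, h (y + 2 * Real.pi) = h y) (n : ℤ) (y : ℝ) :
    h (y + n * (2 * Real.pi)) = h y := by
  have : Function.Periodic h (2 * Real.pi) := hper
  exact this.int_mul n y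

theorem aux_bdd (h : ℝ → ℝ) (hc : Continuous h) (hper : ∀ y, h (y + 2 * Real.pi) = h y) :
    ∃ M : ℝ, 0 ≤ M ∧ ∀ y, |h y| ≤ M := by
  have hp : Function.Periodic h (2 * Real.pi) := hper
  have h1 := hp.isBounded_of_continuous (by positivity) hc
  obtain ⟨M, hM⟩ := h1.exists_norm_le
  refine ⟨M, ?_, fun y => hM _ (Set.mem_range_self y)⟩
  exact le_trans (norm_nonneg _) (hM _ (Set.mem_range_self 0))

theorem aux_unif (h : ℝ → ℝ) (hc : Continuous h) (hper : ∀ y, h (y + 2 * Real.pi) = h y) :
    ∀ ε > 0, ∃ d > 0, ∀ y y' : ℝ, |y - y'| < d → |h y - h y'| < ε := by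
  intro ε hε
  have hK : IsCompact (Icc (-1 : ℝ) (2 * Real.pi + 1)) := isCompact_Icc
  have huc := hK.uniformContinuousOn_of_continuous hc.continuousOn
  rw [Metric.uniformContinuousOn_iff] at huc
  obtain ⟨d, hd, hd2⟩ := huc ε hε
  refine ⟨min d 1, by positivity, ?_⟩
  intro y y' hyy
  have hp : 0 < 2 * Real.pi := by positivity
  obtain ⟨n, hn, -⟩ := existsUnique_add_zsmul_mem_Ico hp y 0
  simp only [zero_add, zsmul_eq_mul] at hn
  have h1 : y + n * (2 * Real.pi) ∈ Icc (-1 : ℝ) (2 * Real.pi + 1) := ⟨by linarith [hn.1], by linarith [hn.2]⟩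
  have hlt1 : |y - y'| < 1 := lt_of_lt_of_le hyy (min_le_right _ _)
  have hltd : |y - y'| < d := lt_of_lt_of_le hyy (min_le_left _ _)
  rw [abs_lt] at hlt1
  have h2 : y' + n * (2 * Real.pi) ∈ Icc (-1 : ℝ) (2 * Real.pi + 1) :=
    ⟨by linarith [hn.1], by linarith [hn.2]⟩
  have h3 := hd2 _ h1 _ h2 (by rw [Real.dist_eq]; convert hltd using 2; ring)
  rw [Real.dist_eq, aux_per h hper, aux_per h hper] at h3
  exact h3

noncomputable def auxosc (h : ℝ → ℝ) (s : ℝ) : ℝ := sSup {t | ∃ y y' : ℝ, |y - y'| ≤ s ∧ t = |h y - h y'|}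

theorem auxosc_nonneg (h : ℝ → ℝ) (s : ℝ) : 0 ≤ auxosc h s := by
  apply Real.sSup_nonneg
  rintro t ⟨y, y', -, rfl⟩
  exact abs_nonneg _

theorem auxosc_le (h : ℝ → ℝ) (hc : Continuous h) (hper : ∀ y, h (y + 2 * Real.pi) = h y) (s y y' : ℝ)
    (hy : |y - y'| ≤ s) : |h y - h y'| ≤ auxosc h s := by
  obtain ⟨M, hM0, hM⟩ := aux_bdd h hc hper
  apply le_csSup
  · refine ⟨2 * M, ?_⟩
    rintro t ⟨a, b, -, rfl⟩
    have := abs_sub (h a) (h b)
    linarith [hM a, hM b]
  · exact ⟨y, y', hy, rfl⟩

theorem auxosc_tendsto (h : ℝ → ℝ) (hc : Continuous h) (hper : ∀ y, h (y + 2 * Real.pi) = h y) (k : ℝ)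
    (hk : 0 < k) : Tendsto (fun s => auxosc h (k * s)) (𝓝[>] 0) (𝓝 0) := by
  rw [Metric.tendsto_nhdsWithin_nhds]
  intro ε hε
  obtain ⟨d, hd, hd2⟩ := aux_unif h hc hper (ε / 2) (by positivity)
  refine ⟨d / k, by positivity, ?_⟩
  intro s hs hsd
  rw [Real.dist_eq, sub_zero] at hsd ⊢
  have hs0 : 0 < s := hs
  rw [abs_of_pos hs0, lt_div_iff₀ hk] at hsd
  rw [abs_of_nonneg (auxosc_nonneg _ _)]
  have : auxosc h (k * s) ≤ ε / 2 := by
    apply Real.sSup_le
    · rintro t ⟨y, y', hy, rfl⟩
      exact (hd2 y y' (by linarith)).le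
    · positivity
  linarith

theorem aux_vol (w : ℂ) (r : ℝ) (hr : 0 < r) :
    (volume : Measure ℂ).real (Metric.closedBall w r) = Real.pi * r ^ 2 := by
  rw [Measure.real, Complex.volume_closedBall]
  rw [ENNReal.toReal_mul, ENNReal.toReal_pow, ENNReal.toReal_ofReal hr.le]
  simp
  ring

theorem aux_contact_core (ρ : ℝ) (hρ : 0 < ρ) (G : ℂ → ℝ) (hG : LocallyIntegrable G volume)
    (h : ℝ → ℝ) (hc : Continuous h) (M : ℝ) (hM0 : 0 ≤ M) (hM : ∀ y, |h y| ≤ M)
    (δ : ℝ) (hδ : 0 < δ) (hδ1 : δ ≤ 1) (O1 O2 e C : ℝ) (hC : 0 < C) (he : 0 ≤ e)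
    (hO1 : ∀ y y' : ℝ, |y - y'| ≤ δ → |h y - h y'| ≤ O1)
    (hO2 : ∀ y y' : ℝ, |y - y'| ≤ 2 * δ → |h y - h y'| ≤ O2)
    (hCb : ∀ z, psid δ z ≤ C * (δ⁻¹) ^ 2) (w z : ℂ) (hwz : ‖w - z‖ ≤ δ)
    (P : ℂ → ℝ) (hP : LocallyIntegrable P volume) (hPG : ∀ v, P v = Real.exp (-(ρ * v.re)) * G v)
    (hupper : ∀ᵐ v : ℂ, v ∈ Metric.closedBall w (2 * δ) → P v ≤ h v.im + e)
    (hlow : (h w.im - e) * Real.exp (ρ * w.re) ≤ ⨍ v in Metric.closedBall w (2 * δ), G v) :
    h z.im - O1 - 4 * Real.pi * C * Real.exp (2 * ρ) * ((Real.exp (2 * ρ * δ) - 1) * (M + e) + O2 + 2 * e)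
      ≤ moll δ P z := by
  obtain ⟨p1, p2, p3, p4, p5, p6, p7⟩ := psid_props δ hδ
  set B : Set ℂ := Metric.closedBall w (2 * δ) with hB
  have hBm : MeasurableSet B := Metric.isClosed_closedBall.measurableSet
  have hBc : IsCompact B := isCompact_closedBall _ _
  set q : ℂ → ℝ := fun v => h v.im + e - P v with hq
  have hcim : Continuous (fun v : ℂ => h v.im + e) := by fun_prop
  have hhint : IntegrableOn (fun v : ℂ => h v.im + e) B volume := hcim.continuousOn.integrableOn_compact hBc
  have hPint : IntegrableOn P B volume := hP.integrableOn_isCompact hBc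
  have hqint : IntegrableOn q B volume := hhint.sub hPint
  have hvol : (volume : Measure ℂ).real B = Real.pi * (2 * δ) ^ 2 := aux_vol w (2 * δ) (by positivity)
  set Vol : ℝ := Real.pi * (2 * δ) ^ 2 with hVol
  have hVolpos : 0 < Vol := by positivity
  have hGint : IntegrableOn G B volume := hG.integrableOn_isCompact hBc
  have hlow2 : Vol * ((h w.im - e) * Real.exp (ρ * w.re)) ≤ ∫ v in B, G v := by
    rw [setAverage_eq, hvol, smul_eq_mul, inv_mul_eq_div, le_div_iff₀ hVolpos] at hlow
    linarith
  set E : ℂ → ℝ := fun v => Real.exp (ρ * (v.re - w.re)) with hE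
  have hEc : Continuous E := by
    simp only [hE]; fun_prop
  have hre : ∀ v ∈ B, |v.re - w.re| ≤ 2 * δ := by
    intro v hv
    rw [hB, Metric.mem_closedBall, dist_eq_norm] at hv
    have := Complex.abs_re_le_norm (v - w)
    rw [Complex.sub_re] at this
    linarith
  have him : ∀ v ∈ B, |v.im - w.im| ≤ 2 * δ := by
    intro v hv
    rw [hB, Metric.mem_closedBall, dist_eq_norm] at hv
    have := Complex.abs_im_le_norm (v - w)
    rw [Complex.sub_im] at this
    linarith
  set A : ℝ := Real.exp (2 * ρ * δ) - 1 with hA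
  have hA0 : 0 ≤ A := by
    have : 1 ≤ Real.exp (2 * ρ * δ) := Real.one_le_exp (by positivity)
    linarith
  have hEup : ∀ v ∈ B, |E v - 1| ≤ A := by
    intro v hv
    have h1 := abs_le.mp (hre v hv)
    have h2 : ρ * (v.re - w.re) ≤ 2 * ρ * δ := by nlinarith
    have h3 : -(2 * ρ * δ) ≤ ρ * (v.re - w.re) := by nlinarith
    rw [abs_le]
    constructor
    · have h4 : Real.exp (-(2 * ρ * δ)) ≤ E v := Real.exp_le_exp.mpr h3
      have h5 : 1 - A ≤ Real.exp (-(2 * ρ * δ)) := by
        rw [Real.exp_neg, hA]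
        have hx : 0 < Real.exp (2 * ρ * δ) := Real.exp_pos _
        set x := Real.exp (2 * ρ * δ)
        have : 0 ≤ x⁻¹ - (2 - x) := by
          have h6 : x⁻¹ - (2 - x) = (x - 1) ^ 2 / x := by field_simp; ring
          rw [h6]; positivity
        linarith
      linarith
    · have h4 : E v ≤ Real.exp (2 * ρ * δ) := Real.exp_le_exp.mpr h2
      linarith
  have hElow : ∀ v ∈ B, Real.exp (-(2 * ρ)) ≤ E v := by
    intro v hv
    have h1 := abs_le.mp (hre v hv)
    apply Real.exp_le_exp.mpr
    nlinarith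
  have hEq : IntegrableOn (fun v => E v * q v) B volume :=
    IntegrableOn.continuousOn_mul hEc.continuousOn hqint hBc
  -- pointwise identity
  have hEP : ∀ v, E v * P v = Real.exp (-(ρ * w.re)) * G v := by
    intro v
    rw [hPG, hE, ← mul_assoc, ← Real.exp_add]
    congr 2
    ring
  have hstep3 : ∫ v in B, E v * q v ≤ Vol * (A * (M + e) + O2 + 2 * e) := by
    have h1 : ∫ v in B, E v * q v = ∫ v in B, (E v * (h v.im + e) - Real.exp (-(ρ * w.re)) * G v) := by
      apply integral_congr_ae
      filter_upwards with v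
      rw [← hEP, hq]
      ring
    have hi1 : IntegrableOn (fun v => E v * (h v.im + e)) B volume :=
      (hEc.mul hcim).continuousOn.integrableOn_compact hBc
    rw [h1, integral_sub hi1 (hGint.const_mul _), integral_const_mul]
    have h2 : ∫ v in B, E v * (h v.im + e) ≤ Vol * (h w.im + A * (M + e) + O2 + e) := by
      have h3 : ∫ v in B, E v * (h v.im + e) ≤ ∫ v in B, (h w.im + A * (M + e) + O2 + e) := by
        apply setIntegral_mono_on hi1 (integrableOn_const hBc.measure_lt_top.ne) hBm
        intro v hv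
        have h4 := hEup v hv
        have h5 := hO2 v.im w.im (him v hv)
        have h6 : |h v.im + e| ≤ M + e := by
          calc |h v.im + e| ≤ |h v.im| + |e| := abs_add_le _ _
            _ ≤ M + e := by rw [abs_of_nonneg he]; linarith [hM v.im]
        have h7 : (E v - 1) * (h v.im + e) ≤ A * (M + e) := by
          calc (E v - 1) * (h v.im + e) ≤ |(E v - 1) * (h v.im + e)| := le_abs_self _
            _ = |E v - 1| * |h v.im + e| := abs_mul _ _
            _ ≤ A * (M + e) := mul_le_mul h4 h6 (abs_nonneg _) hA0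
        have h8 := (abs_le.mp h5).2
        nlinarith
      rw [setIntegral_const, hvol, smul_eq_mul] at h3
      exact h3
    have h9 : Vol * (h w.im - e) ≤ Real.exp (-(ρ * w.re)) * ∫ v in B, G v := by
      have h10 := mul_le_mul_of_nonneg_left hlow2 (Real.exp_pos (-(ρ * w.re))).le
      have h11 : Real.exp (-(ρ * w.re)) * Real.exp (ρ * w.re) = 1 := by
        rw [← Real.exp_add]; simp
      calc Vol * (h w.im - e) = (Real.exp (-(ρ * w.re)) * Real.exp (ρ * w.re)) * (Vol * (h w.im - e)) := by
            rw [h11]; ring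
        _ = Real.exp (-(ρ * w.re)) * (Vol * ((h w.im - e) * Real.exp (ρ * w.re))) := by ring
        _ ≤ _ := h10
    nlinarith
  have hqae : ∀ᵐ v : ℂ, v ∈ B → 0 ≤ q v := by
    filter_upwards [hupper] with v hv hvB
    have := hv hvB
    simp only [hq]; linarith
  have hstep4 : ∫ v in B, q v ≤ Real.exp (2 * ρ) * (Vol * (A * (M + e) + O2 + 2 * e)) := by
    have h1 : ∫ v in B, Real.exp (-(2 * ρ)) * q v ≤ ∫ v in B, E v * q v := by
      apply integral_mono_ae (hqint.const_mul _) hEq
      rw [Filter.EventuallyLE, ae_restrict_iff' hBm]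
      filter_upwards [hqae] with v hv hvB
      exact mul_le_mul_of_nonneg_right (hElow v hvB) (hv hvB)
    rw [integral_const_mul] at h1
    have h2 := le_trans h1 hstep3
    have h3 := mul_le_mul_of_nonneg_left h2 (Real.exp_pos (2 * ρ)).le
    rw [← mul_assoc, ← Real.exp_add] at h3
    simpa using h3
  have hPconv := aux_int_conv P hP δ hδ z
  have hψc : Integrable (fun v => psid δ (z - v)) volume := by
    have hψ : Integrable (psid δ) volume := (p1 0).continuous.integrable_of_hasCompactSupport p2
    exact hψ.comp_sub_left z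
  have hψI : ∫ v, psid δ (z - v) = 1 := by
    rw [integral_sub_left_eq_self (psid δ) volume z]
    exact p6
  have hstep5 : ∫ v, (psid δ (z - v) * (h z.im - O1) - B.indicator (fun v => C * (δ⁻¹) ^ 2 * q v) v)
      ≤ ∫ v, psid δ (z - v) * P v := by
    apply integral_mono_ae
    · apply Integrable.sub (hψc.mul_const _)
      rw [integrable_indicator_iff hBm]
      exact hqint.const_mul _
    · exact hPconv
    filter_upwards [hqae] with v hv
    by_cases hvB : v ∈ B
    · rw [Set.indicator_of_mem hvB]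
      have hq0 := hv hvB
      by_cases hzv : δ ≤ ‖z - v‖
      · rw [p4 _ hzv]
        have : 0 ≤ C * (δ⁻¹) ^ 2 * q v := by positivity
        linarith
      · push Not at hzv
        have h1 : |v.im - z.im| ≤ δ := by
          have := Complex.abs_im_le_norm (v - z)
          rw [Complex.sub_im, norm_sub_rev] at this
          linarith
        have h2 := (abs_le.mp (hO1 v.im z.im h1)).1
        have h3 : P v = h v.im + e - q v := by simp only [hq]; ring
        have h4 : h z.im - O1 - q v ≤ P v := by rw [h3]; linarith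
        have h5 := mul_le_mul_of_nonneg_left h4 (p3 (z - v))
        have h6 := mul_le_mul_of_nonneg_right (hCb (z - v)) hq0
        linarith
    · rw [Set.indicator_of_notMem hvB]
      have hzv : δ ≤ ‖z - v‖ := by
        by_contra hcon
        push Not at hcon
        apply hvB
        rw [hB, Metric.mem_closedBall, dist_eq_norm]
        calc ‖v - w‖ = ‖(v - z) + (z - w)‖ := by congr 1; ring
          _ ≤ ‖v - z‖ + ‖z - w‖ := norm_add_le _ _
          _ ≤ 2 * δ := by rw [norm_sub_rev v z, norm_sub_rev z w]; linarith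
      rw [p4 _ hzv]
      simp
  rw [integral_sub (hψc.mul_const _) (by rw [integrable_indicator_iff hBm]; exact hqint.const_mul _),
    integral_mul_const, hψI, one_mul, integral_indicator hBm, integral_const_mul] at hstep5
  show _ ≤ ∫ v, psid δ (z - v) * P v
  refine le_trans ?_ hstep5
  have h6 : C * (δ⁻¹) ^ 2 * ∫ v in B, q v
      ≤ C * (δ⁻¹) ^ 2 * (Real.exp (2 * ρ) * (Vol * (A * (M + e) + O2 + 2 * e))) :=
    mul_le_mul_of_nonneg_left hstep4 (by positivity)
  have h7 : C * (δ⁻¹) ^ 2 * (Real.exp (2 * ρ) * (Vol * (A * (M + e) + O2 + 2 * e)))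
      = 4 * Real.pi * C * Real.exp (2 * ρ) * (A * (M + e) + O2 + 2 * e) := by
    rw [hVol]
    field_simp
    ring
  linarith

/-- TARGET 3: the contact property. `h` is the indicator. -/
theorem cU_contact (ρ : ℝ) (hρ : 0 < ρ) (f : ℂ → ℂ) (hf : Differentiable ℂ f) (hne : ∃ z, f z ≠ 0)
    (h : ℝ → ℝ) (hc : Continuous h) (hper : ∀ y, h (y + 2 * Real.pi) = h y)
    (hind : ∀ φ, indic f ρ φ = (h φ : EReal))
    (hup : ∀ ε > 0, ∃ X : ℝ, ∀ z : ℂ, X ≤ z.re →
        ‖f (cexp z)‖ ≤ Real.exp ((h z.im + ε) * Real.exp (ρ * z.re)))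
    (h2 : Cond2 f ρ) :
    ∃ ω : ℝ → ℝ, (∀ δ, 0 ≤ ω δ) ∧ Tendsto ω (𝓝[>] 0) (𝓝 0) ∧
      ∀ δ ∈ Ioc (0 : ℝ) 1, ∀ ε > 0, ∃ X : ℝ, ∀ z : ℂ, X ≤ z.re →
        (∃ w : ℂ, ‖w - z‖ ≤ δ ∧ f (cexp w) = 0) → h z.im - ω δ - ε ≤ moll δ (cU ρ f) z := by
  obtain ⟨C, hC, hCb⟩ := psid_bounds
  obtain ⟨M, hM0, hM⟩ := aux_bdd h hc hper
  set K : ℝ := 4 * Real.pi * C * Real.exp (2 * ρ) with hK
  have hKpos : 0 < K := by positivity
  refine ⟨fun δ => auxosc h δ + K * (|Real.exp (2 * ρ * δ) - 1| * M + auxosc h (2 * δ)), ?_, ?_, ?_⟩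
  · intro δ
    have h1 := auxosc_nonneg h δ
    have h3 := auxosc_nonneg h (2 * δ)
    positivity
  · have t1 : Tendsto (fun δ => auxosc h δ) (𝓝[>] 0) (𝓝 0) := by
      have := auxosc_tendsto h hc hper 1 one_pos
      simpa using this
    have t2 := auxosc_tendsto h hc hper 2 two_pos
    have t3 : Tendsto (fun δ : ℝ => |Real.exp (2 * ρ * δ) - 1|) (𝓝[>] 0) (𝓝 0) := by
      have : Continuous (fun δ : ℝ => |Real.exp (2 * ρ * δ) - 1|) := by fun_prop
      have h3 := this.tendsto 0
      simp only [mul_zero, Real.exp_zero, sub_self, abs_zero] at h3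
      exact h3.mono_left nhdsWithin_le_nhds
    have t4 := t1.add (((t3.mul_const M).add t2).const_mul K)
    simpa using t4
  intro δ hδ ε hε
  obtain ⟨hδ0, hδ1⟩ := hδ
  -- F
  set F : ℂ → ℂ := fun z => f (cexp z) with hFdef
  have hFd : Differentiable ℂ F := hf.comp Complex.differentiable_exp
  have hFne : ∃ z, F z ≠ 0 := by
    obtain ⟨z, hz⟩ := hne
    have hae := aux_ae_ne f hf ⟨z, hz⟩
    -- choose a nonzero point with f ≠ 0
    have h0 : ∀ᵐ z : ℂ, z ∉ ({0} : Set ℂ) := measure_eq_zero_iff_ae_notMem.mp (by simp)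
    obtain ⟨v, hv1, hv2⟩ := (hae.and h0).exists
    refine ⟨Complex.log v, ?_⟩
    simp only [hFdef]
    rw [Complex.exp_log (by simpa using hv2)]
    exact hv1
  have hFae := aux_ae_ne F hFd hFne
  set A : ℝ := Real.exp (2 * ρ * δ) - 1 with hA
  have hA0 : 0 ≤ A := by
    have : 1 ≤ Real.exp (2 * ρ * δ) := Real.one_le_exp (by positivity)
    linarith
  set e : ℝ := ε / (K * (A + 2)) with he
  have hepos : 0 < e := by positivity
  obtain ⟨X1, hX1⟩ := hup e hepos
  obtain ⟨R, hR⟩ := h2.2 e hepos
  refine ⟨|X1| + |R| + |Real.log (2 * δ)| + 4, ?_⟩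
  rintro z hz ⟨w, hwz, hw0⟩
  have hwre : z.re - δ ≤ w.re := by
    have := Complex.abs_re_le_norm (w - z)
    rw [Complex.sub_re] at this
    have := (abs_le.mp (this.trans hwz)).1
    linarith
  have ha1 := le_abs_self X1
  have ha2 := le_abs_self R
  have ha3 := neg_abs_le (Real.log (2 * δ))
  have ha3' := abs_nonneg (Real.log (2 * δ))
  have ha4 := abs_nonneg X1
  have ha5 := abs_nonneg R
  have hloc := cU_loc ρ f hf hne
  -- lower bound
  have hnorm : ‖cexp w‖ = Real.exp w.re := Complex.norm_exp w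
  have hRw : R ≤ ‖cexp w‖ := by
    rw [hnorm]
    have := Real.add_one_le_exp w.re
    linarith
  have hcond := hR (cexp w) hw0 hRw
  rw [hind, EReal.coe_le_coe_iff] at hcond
  have harg : h (arg (cexp w)) = h w.im := by
    obtain ⟨n, hn⟩ := Complex.log_exp_exists w
    have h3 := congrArg Complex.im hn
    rw [Complex.log_im] at h3
    have h4 : (w + n * (2 * Real.pi * I)).im = w.im + n * (2 * Real.pi) := by
      simp
    rw [h3, h4, aux_per h hper]
  rw [harg, hnorm] at hcond
  have hpow : (Real.exp w.re) ^ (-ρ) = Real.exp (-(ρ * w.re)) := by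
    rw [← Real.exp_mul]; congr 1; ring
  rw [hpow] at hcond
  have hexp1 : Real.exp (-(ρ * w.re)) * Real.exp (ρ * w.re) = 1 := by
    rw [← Real.exp_add]; simp
  have hfd0 : deriv f (cexp w) ≠ 0 := h2.1 _ hw0
  have hFderiv : deriv F w = deriv f (cexp w) * cexp w := by
    have h3 : HasDerivAt F (deriv f (cexp w) * cexp w) w :=
      (hf (cexp w)).hasDerivAt.comp w (Complex.hasDerivAt_exp w)
    exact h3.deriv
  have hFd0 : deriv F w ≠ 0 := by
    rw [hFderiv]
    exact mul_ne_zero hfd0 (Complex.exp_ne_zero _)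
  have hT1 := log_deriv_mean F hFd w hw0 hFd0 (2 * δ) (by positivity)
  have hlogd : Real.log ‖deriv F w‖ = Real.log ‖deriv f (cexp w)‖ + w.re := by
    rw [hFderiv, norm_mul, Real.log_mul (norm_ne_zero_iff.mpr hfd0) (norm_ne_zero_iff.mpr (Complex.exp_ne_zero _)),
      hnorm, Real.log_exp]
  have hlow : (h w.im - e) * Real.exp (ρ * w.re) ≤ ⨍ v in Metric.closedBall w (2 * δ), Real.log ‖F v‖ := by
    refine le_trans ?_ hT1
    rw [hlogd]
    have h3 : (h w.im - e) * Real.exp (ρ * w.re) ≤ Real.log ‖deriv f (cexp w)‖ := by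
      have h4 : h w.im - e ≤ Real.exp (-(ρ * w.re)) * Real.log ‖deriv f (cexp w)‖ := by linarith
      have h5 := mul_le_mul_of_nonneg_right h4 (Real.exp_pos (ρ * w.re)).le
      calc _ ≤ _ := h5
        _ = (Real.exp (-(ρ * w.re)) * Real.exp (ρ * w.re)) * Real.log ‖deriv f (cexp w)‖ := by ring
        _ = _ := by rw [hexp1, one_mul]
    linarith
  have hupper : ∀ᵐ v : ℂ, v ∈ Metric.closedBall w (2 * δ) → cU ρ f v ≤ h v.im + e := by
    filter_upwards [hFae] with v hv hvB
    rw [Metric.mem_closedBall, dist_eq_norm] at hvB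
    have h3 := Complex.abs_re_le_norm (v - w)
    rw [Complex.sub_re] at h3
    have h4 := (abs_le.mp (h3.trans hvB)).1
    have h5 := hX1 v (by linarith)
    have hv0 : 0 < ‖f (cexp v)‖ := norm_pos_iff.mpr hv
    have h6 : Real.log ‖f (cexp v)‖ ≤ (h v.im + e) * Real.exp (ρ * v.re) := by
      rw [← Real.log_exp ((h v.im + e) * Real.exp (ρ * v.re))]
      exact Real.log_le_log hv0 h5
    have h7 : Real.exp (-(ρ * v.re)) * Real.exp (ρ * v.re) = 1 := by
      rw [← Real.exp_add]; simp
    calc cU ρ f v = Real.exp (-(ρ * v.re)) * Real.log ‖f (cexp v)‖ := rfl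
      _ ≤ Real.exp (-(ρ * v.re)) * ((h v.im + e) * Real.exp (ρ * v.re)) :=
        mul_le_mul_of_nonneg_left h6 (Real.exp_pos _).le
      _ = (Real.exp (-(ρ * v.re)) * Real.exp (ρ * v.re)) * (h v.im + e) := by ring
      _ = _ := by rw [h7, one_mul]
  have key := aux_contact_core ρ hρ (fun v => Real.log ‖F v‖) hloc.2 h hc M hM0 hM δ hδ0 hδ1
    (auxosc h δ) (auxosc h (2 * δ)) e C hC hepos.le
    (fun y y' hy => auxosc_le h hc hper δ y y' hy)
    (fun y y' hy => auxosc_le h hc hper (2 * δ) y y' hy)
    (hCb δ hδ0).1 w z hwz (cU ρ f) hloc.1 (fun v => rfl) hupper hlow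
  refine le_trans ?_ key
  rw [← hK]
  show h z.im - (auxosc h δ + K * (|A| * M + auxosc h (2 * δ))) - ε ≤
    h z.im - auxosc h δ - K * (A * (M + e) + auxosc h (2 * δ) + 2 * e)
  rw [abs_of_nonneg hA0]
  have hKe : K * (A * e + 2 * e) = ε := by
    rw [he]; field_simp
  have : K * (A * (M + e) + auxosc h (2 * δ) + 2 * e)
      = K * (A * M + auxosc h (2 * δ)) + K * (A * e + 2 * e) := by ring
  rw [this, hKe]
  apply le_of_eq
  ring

theorem aux_exp_abs (t s : ℝ) (h : |t| ≤ s) : |Real.exp t - 1| ≤ Real.exp s - 1 := by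
  have h1 := abs_le.mp h
  rw [abs_le]
  constructor
  · have h4 : Real.exp (-s) ≤ Real.exp t := Real.exp_le_exp.mpr h1.1
    have h5 : 2 - Real.exp s ≤ Real.exp (-s) := by
      rw [Real.exp_neg]
      have hx : 0 < Real.exp s := Real.exp_pos _
      set x := Real.exp s
      have : 0 ≤ x⁻¹ - (2 - x) := by
        have h6 : x⁻¹ - (2 - x) = (x - 1) ^ 2 / x := by field_simp; ring
        rw [h6]; positivity
      linarith
    linarith
  · have h4 : Real.exp t ≤ Real.exp s := Real.exp_le_exp.mpr h1.2
    linarith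

theorem aux_psi_int (δ : ℝ) (hδ : 0 < δ) (z : ℂ) :
    Integrable (fun v => psid δ (z - v)) volume ∧ ∫ v, psid δ (z - v) = 1 := by
  obtain ⟨p1, p2, p3, p4, p5, p6, p7⟩ := psid_props δ hδ
  constructor
  · have hψ : Integrable (psid δ) volume := (p1 0).continuous.integrable_of_hasCompactSupport p2
    exact hψ.comp_sub_left z
  · rw [integral_sub_left_eq_self (psid δ) volume z]
    exact p6

theorem aux_fub (K : ℂ → ℝ) (hKm : Measurable K) (Kb R : ℝ) (hKb : ∀ z, |K z| ≤ Kb)
    (hKs : ∀ z, z ∉ Metric.closedBall (0:ℂ) R → K z = 0) (G : ℂ → ℝ) (hG : LocallyIntegrable G volume)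
    (δ : ℝ) (hδ : 0 < δ) :
    Integrable (fun z => K z * moll δ G z) volume ∧ Integrable (fun v => moll δ K v * G v) volume ∧
    ∫ z, K z * moll δ G z = ∫ v, moll δ K v * G v := by
  obtain ⟨p1, p2, p3, p4, p5, p6, p7⟩ := psid_props δ hδ
  obtain ⟨C, hC, hCb⟩ := psid_bounds
  have hCδ := (hCb δ hδ).1
  have hKb0 : 0 ≤ Kb := le_trans (abs_nonneg _) (hKb 0)
  set Φ : ℂ × ℂ → ℝ := fun p => K p.1 * (psid δ (p.1 - p.2) * G p.2) with hΦ
  have hGm : AEStronglyMeasurable G volume := hG.aestronglyMeasurable
  have hΦm : AEStronglyMeasurable Φ ((volume : Measure ℂ).prod volume) := by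
    apply AEStronglyMeasurable.mul
    · exact (hKm.comp measurable_fst).aestronglyMeasurable
    · apply AEStronglyMeasurable.mul
      · exact ((p1 0).continuous.comp (continuous_fst.sub continuous_snd)).aestronglyMeasurable
      · exact hGm.comp_snd
  set B1 : Set ℂ := Metric.closedBall 0 R with hB1
  set B2 : Set ℂ := Metric.closedBall 0 (R + δ) with hB2
  have hB1m : MeasurableSet B1 := Metric.isClosed_closedBall.measurableSet
  have hB2m : MeasurableSet B2 := Metric.isClosed_closedBall.measurableSet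
  have hi1 : Integrable (B1.indicator (fun _ => (1:ℝ))) volume := by
    rw [integrable_indicator_iff hB1m]
    exact integrableOn_const (isCompact_closedBall (0:ℂ) R).measure_lt_top.ne
  have hi2 : Integrable (B2.indicator (fun v => |G v|)) volume := by
    rw [integrable_indicator_iff hB2m]
    exact (hG.integrableOn_isCompact (isCompact_closedBall (0:ℂ) (R + δ))).abs
  have hbd := (hi1.mul_prod hi2).const_mul (Kb * (C * (δ⁻¹) ^ 2))
  have hΦint : Integrable Φ ((volume : Measure ℂ).prod volume) := by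
    apply hbd.mono' hΦm
    apply Filter.Eventually.of_forall
    rintro ⟨z, v⟩
    simp only [hΦ, Real.norm_eq_abs]
    by_cases hz : z ∈ B1
    · by_cases hv : v ∈ B2
      · rw [Set.indicator_of_mem hz, Set.indicator_of_mem hv, one_mul, abs_mul, abs_mul, ← mul_assoc]
        apply mul_le_mul_of_nonneg_right _ (abs_nonneg _)
        rw [abs_of_nonneg (p3 (z - v))]
        exact mul_le_mul (hKb z) (hCδ _) (p3 _) hKb0
      · have hzv : δ ≤ ‖z - v‖ := by
          rw [hB2, Metric.mem_closedBall, dist_zero_right, not_le] at hv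
          rw [hB1, Metric.mem_closedBall, dist_zero_right] at hz
          have : ‖v‖ ≤ ‖z‖ + ‖z - v‖ := by
            calc ‖v‖ = ‖z - (z - v)‖ := by congr 1; ring
              _ ≤ _ := norm_sub_le _ _
          linarith
        rw [p4 _ hzv, Set.indicator_of_notMem hv]
        simp
    · rw [hKs z hz, Set.indicator_of_notMem hz]
      simp
  have h1 : ∀ z, ∫ v, Φ (z, v) = K z * moll δ G z := by
    intro z
    simp only [hΦ]
    rw [integral_const_mul]
    rfl
  have h2 : ∀ v, ∫ z, Φ (z, v) = moll δ K v * G v := by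
    intro v
    simp only [hΦ, moll]
    rw [← integral_mul_const]
    apply integral_congr_ae
    filter_upwards with z
    rw [show z - v = -(v - z) by ring, p5]
    ring
  refine ⟨?_, ?_, ?_⟩
  · have := hΦint.integral_prod_left
    simp_rw [h1] at this
    exact this
  · have := hΦint.integral_prod_right
    simp_rw [h2] at this
    exact this
  · have := integral_integral_swap (f := fun z v => Φ (z, v)) hΦint
    simp_rw [h1, h2] at this
    exact this

def auxrect (a b c d : ℝ) : Set ℂ := {z | z.re ∈ Icc a b ∧ z.im ∈ Icc c d}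

theorem auxrect_compact (a b c d : ℝ) : IsCompact (auxrect a b c d) :=
  isCompact_Icc.reProdIm isCompact_Icc

theorem auxrect_meas (a b c d : ℝ) : MeasurableSet (auxrect a b c d) :=
  (auxrect_compact a b c d).measurableSet

theorem aux_union (g : ℂ → ℝ) (hg0 : ∀ z, 0 ≤ g z) (S A B : Set ℂ) (hA : MeasurableSet A) (hB : MeasurableSet B)
    (hgA : IntegrableOn g A volume) (hgB : IntegrableOn g B volume) (hS : S ⊆ A ∪ B) :
    ∫ z in S, g z ≤ (∫ z in A, g z) + ∫ z in B, g z := by
  have h1 : ∫ z in S, g z ≤ ∫ z in A ∪ B, g z := by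
    apply setIntegral_mono_set (hgA.union hgB)
    · exact Filter.Eventually.of_forall hg0
    · exact LE.le.eventuallyLE hS
  have h2 : ∫ z in A ∪ B, g z = (∫ z in A, g z) + ∫ z in B \ A, g z := by
    rw [← Set.union_sdiff_self]
    exact setIntegral_union disjoint_sdiff_self_right (hB.diff hA) hgA (hgB.mono_set sdiff_subset)
  have h3 : ∫ z in B \ A, g z ≤ ∫ z in B, g z := by
    apply setIntegral_mono_set hgB
    · exact Filter.Eventually.of_forall hg0
    · exact LE.le.eventuallyLE sdiff_subset
  linarith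

theorem aux_nine (g : ℂ → ℝ) (hg : LocallyIntegrable g volume) (hg0 : ∀ z, 0 ≤ g z)
    (hper : ∀ z, g (z + 2 * Real.pi * I) = g z) (C : ℝ)
    (hl1 : ∀ x0 : ℝ, 0 ≤ x0 → ∫ z in box x0 (x0 + 1), g z ≤ C) (x0 : ℝ) (hx0 : 1 ≤ x0) :
    ∫ z in auxrect (x0 - 1) (x0 + 2) (-1) (2 * Real.pi + 1), g z ≤ 9 * C := by
  have hpi : 3 < Real.pi := Real.pi_gt_three
  have hI : ∀ a b c d : ℝ, IntegrableOn g (auxrect a b c d) volume := fun a b c d =>
    hg.integrableOn_isCompact (auxrect_compact a b c d)
  have hM := auxrect_meas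
  -- translated boxes
  have hup : ∀ x : ℝ, 0 ≤ x → ∫ z in auxrect x (x + 1) (2 * Real.pi) (4 * Real.pi), g z ≤ C := by
    intro x hx
    have htrans : MeasurePreserving (fun z : ℂ => z + 2 * Real.pi * I) volume volume :=
      measurePreserving_add_right volume _
    have hemb : MeasurableEmbedding (fun z : ℂ => z + 2 * Real.pi * I) :=
      (MeasurableEquiv.addRight _).measurableEmbedding
    have h1 := htrans.setIntegral_preimage_emb hemb g (auxrect x (x + 1) (2 * Real.pi) (4 * Real.pi))
    have h2 : (fun z : ℂ => z + 2 * Real.pi * I) ⁻¹' (auxrect x (x + 1) (2 * Real.pi) (4 * Real.pi))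
        = box x (x + 1) := by
      ext z
      simp only [auxrect, box, Set.mem_preimage, Set.mem_ofPred_eq, Set.mem_Icc]
      have e1 : (z + 2 * Real.pi * I).re = z.re := by simp
      have e2 : (z + 2 * Real.pi * I).im = z.im + 2 * Real.pi := by simp
      rw [e1, e2]
      constructor
      · rintro ⟨h1, h2, h3⟩
        exact ⟨h1, by linarith, by linarith⟩
      · rintro ⟨h1, h2, h3⟩
        exact ⟨h1, by linarith, by linarith⟩
    rw [h2] at h1
    simp_rw [hper] at h1
    rw [← h1]
    exact hl1 x hx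
  have hdn : ∀ x : ℝ, 0 ≤ x → ∫ z in auxrect x (x + 1) (-(2 * Real.pi)) 0, g z ≤ C := by
    intro x hx
    have htrans : MeasurePreserving (fun z : ℂ => z + 2 * Real.pi * I) volume volume :=
      measurePreserving_add_right volume _
    have hemb : MeasurableEmbedding (fun z : ℂ => z + 2 * Real.pi * I) :=
      (MeasurableEquiv.addRight _).measurableEmbedding
    have h1 := htrans.setIntegral_preimage_emb hemb g (box x (x + 1))
    have h2 : (fun z : ℂ => z + 2 * Real.pi * I) ⁻¹' (box x (x + 1))
        = auxrect x (x + 1) (-(2 * Real.pi)) 0 := by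
      ext z
      simp only [auxrect, box, Set.mem_preimage, Set.mem_ofPred_eq, Set.mem_Icc]
      have e1 : (z + 2 * Real.pi * I).re = z.re := by simp
      have e2 : (z + 2 * Real.pi * I).im = z.im + 2 * Real.pi := by simp
      rw [e1, e2]
      constructor
      · rintro ⟨h1, h2, h3⟩
        exact ⟨h1, by linarith, by linarith⟩
      · rintro ⟨h1, h2, h3⟩
        exact ⟨h1, by linarith, by linarith⟩
    rw [h2] at h1
    simp_rw [hper] at h1
    rw [h1]
    exact hl1 x hx
  have hmid : ∀ x : ℝ, 0 ≤ x → ∫ z in auxrect x (x + 1) 0 (2 * Real.pi), g z ≤ C := hl1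
  have hcol : ∀ x : ℝ, 0 ≤ x → ∫ z in auxrect x (x + 1) (-1) (2 * Real.pi + 1), g z ≤ 3 * C := by
    intro x hx
    have hs1 : auxrect x (x + 1) (-1) (2 * Real.pi + 1) ⊆
        auxrect x (x + 1) (-(2 * Real.pi)) 0 ∪ auxrect x (x + 1) 0 (4 * Real.pi) := by
      rintro z ⟨h1, h2, h3⟩
      by_cases h4 : z.im ≤ 0
      · left; exact ⟨h1, by linarith, h4⟩
      · right; exact ⟨h1, by linarith, by linarith⟩
    have hs2 : auxrect x (x + 1) 0 (4 * Real.pi) ⊆
        auxrect x (x + 1) 0 (2 * Real.pi) ∪ auxrect x (x + 1) (2 * Real.pi) (4 * Real.pi) := by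
      rintro z ⟨h1, h2, h3⟩
      by_cases h4 : z.im ≤ 2 * Real.pi
      · left; exact ⟨h1, h2, h4⟩
      · right; exact ⟨h1, by linarith, by linarith⟩
    have h1 := aux_union g hg0 _ _ _ (hM _ _ _ _) (hM _ _ _ _) (hI _ _ _ _) (hI _ _ _ _) hs1
    have h2 := aux_union g hg0 _ _ _ (hM _ _ _ _) (hM _ _ _ _) (hI _ _ _ _) (hI _ _ _ _) hs2
    linarith [hup x hx, hdn x hx, hmid x hx]
  have hs1 : auxrect (x0 - 1) (x0 + 2) (-1) (2 * Real.pi + 1) ⊆
      auxrect (x0 - 1) (x0 - 1 + 1) (-1) (2 * Real.pi + 1) ∪ auxrect x0 (x0 + 2) (-1) (2 * Real.pi + 1) := by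
    rintro z ⟨⟨h1, h2⟩, h3⟩
    by_cases h4 : z.re ≤ x0
    · left; exact ⟨⟨h1, by linarith⟩, h3⟩
    · right; exact ⟨⟨by linarith, h2⟩, h3⟩
  have hs2 : auxrect x0 (x0 + 2) (-1) (2 * Real.pi + 1) ⊆
      auxrect x0 (x0 + 1) (-1) (2 * Real.pi + 1) ∪ auxrect (x0 + 1) (x0 + 1 + 1) (-1) (2 * Real.pi + 1) := by
    rintro z ⟨⟨h1, h2⟩, h3⟩
    by_cases h4 : z.re ≤ x0 + 1
    · left; exact ⟨⟨h1, by linarith⟩, h3⟩
    · right; exact ⟨⟨by linarith, by linarith⟩, h3⟩
  have h1 := aux_union g hg0 _ _ _ (hM _ _ _ _) (hM _ _ _ _) (hI _ _ _ _) (hI _ _ _ _) hs1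
  have h2 := aux_union g hg0 _ _ _ (hM _ _ _ _) (hM _ _ _ _) (hI _ _ _ _) (hI _ _ _ _) hs2
  linarith [hcol (x0 - 1) (by linarith), hcol x0 (by linarith), hcol (x0 + 1) (by linarith)]

/-- mollification of something close to `a` -/
theorem aux_moll_close (δ : ℝ) (hδ : 0 < δ) (g : ℂ → ℝ) (hg : LocallyIntegrable g volume) (z : ℂ) (a c : ℝ)
    (hc0 : 0 ≤ c) (hc : ∀ w, ‖z - w‖ < δ → |g w - a| ≤ c) : |moll δ g z - a| ≤ c := by
  obtain ⟨p1, p2, p3, p4, p5, p6, p7⟩ := psid_props δ hδ
  obtain ⟨q1, q2⟩ := aux_psi_int δ hδ z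
  have hi := aux_int_conv g hg δ hδ z
  have h1 : moll δ g z - a = ∫ w, psid δ (z - w) * (g w - a) := by
    have : ∫ w, psid δ (z - w) * (g w - a) = (∫ w, psid δ (z - w) * g w) - ∫ w, psid δ (z - w) * a := by
      rw [← integral_sub hi (q1.mul_const _)]
      apply integral_congr_ae
      filter_upwards with w
      ring
    rw [this, integral_mul_const, q2, one_mul]
    rfl
  rw [h1]
  have h2 : |∫ w, psid δ (z - w) * (g w - a)| ≤ ∫ w, psid δ (z - w) * c := by
    rw [← Real.norm_eq_abs]
    apply norm_integral_le_of_norm_le (q1.mul_const _)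
    apply Filter.Eventually.of_forall
    intro w
    rw [Real.norm_eq_abs, abs_mul, abs_of_nonneg (p3 _)]
    by_cases hw : ‖z - w‖ < δ
    · exact mul_le_mul_of_nonneg_left (hc w hw) (p3 _)
    · rw [p4 _ (not_lt.mp hw)]
      simp
  rw [integral_mul_const, q2, one_mul] at h2
  exact h2

/-- TARGET 4: uniform `L¹` approximation by mollification -/
theorem cU_unif (ρ : ℝ) (hρ : 0 < ρ) (f : ℂ → ℂ) (hf : Differentiable ℂ f) (hne : ∃ z, f z ≠ 0) (C : ℝ)
    (hl1 : ∀ x0 : ℝ, 0 ≤ x0 → ∫ z in box x0 (x0 + 1), |cU ρ f z| ≤ C) :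
    ∃ κ : ℝ → ℝ, Tendsto κ (𝓝[>] 0) (𝓝 0) ∧ ∀ δ ∈ Ioc (0 : ℝ) 1, ∀ x0 : ℝ, 1 ≤ x0 →
      ∫ z in box x0 (x0 + 1), |moll δ (cU ρ f) z - cU ρ f z| ≤ κ δ := by
  have hpi : 3 < Real.pi := Real.pi_gt_three
  set F : ℂ → ℂ := fun z => f (cexp z) with hFdef
  have hFd : Differentiable ℂ F := hf.comp Complex.differentiable_exp
  have hFne : ∃ z, F z ≠ 0 := by
    obtain ⟨z, hz⟩ := hne
    have hae := aux_ae_ne f hf ⟨z, hz⟩
    have h0 : ∀ᵐ z : ℂ, z ∉ ({0} : Set ℂ) := measure_eq_zero_iff_ae_notMem.mp (by simp)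
    obtain ⟨v, hv1, hv2⟩ := (hae.and h0).exists
    refine ⟨Complex.log v, ?_⟩
    simp only [hFdef]
    rw [Complex.exp_log (by simpa using hv2)]
    exact hv1
  set P : ℂ → ℝ := cU ρ f with hPdef
  set G : ℂ → ℝ := fun z => Real.log ‖F z‖ with hGdef
  have hPG : ∀ z, P z = Real.exp (-(ρ * z.re)) * G z := fun z => rfl
  obtain ⟨hP, hG⟩ := cU_loc ρ f hf hne
  have hPabs : LocallyIntegrable (fun z => |P z|) volume := by
    intro x
    obtain ⟨s, hs, hi⟩ := hP x
    exact ⟨s, hs, Integrable.abs hi⟩
  have hPper : ∀ z, (fun z => |P z|) (z + 2 * Real.pi * I) = (fun z => |P z|) z := by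
    intro z
    simp only [hPdef, cU]
    rw [Complex.exp_periodic z]
    simp
  have hnine : ∀ x0 : ℝ, 1 ≤ x0 →
      ∫ z in auxrect (x0 - 1) (x0 + 2) (-1) (2 * Real.pi + 1), |P z| ≤ 9 * C := fun x0 hx0 =>
    aux_nine (fun z => |P z|) hPabs (fun z => abs_nonneg _) hPper C hl1 x0 hx0
  have hC0 : 0 ≤ C := le_trans (integral_nonneg (fun z => abs_nonneg _)) (hl1 0 le_rfl)
  refine ⟨fun δ => if δ ≤ 1 / 2 then (Real.exp (ρ * δ) - 1) * (9 * C)
      + ((Real.exp (ρ * δ) - 1) + 2 * δ) * (9 * C) else 10 * C, ?_, ?_⟩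
  · have h1 : Tendsto (fun δ : ℝ => (Real.exp (ρ * δ) - 1) * (9 * C)
      + ((Real.exp (ρ * δ) - 1) + 2 * δ) * (9 * C)) (𝓝[>] 0) (𝓝 0) := by
      have h2 : Continuous (fun δ : ℝ => (Real.exp (ρ * δ) - 1) * (9 * C)
        + ((Real.exp (ρ * δ) - 1) + 2 * δ) * (9 * C)) := by fun_prop
      have h3 := h2.tendsto 0
      simp only [mul_zero, Real.exp_zero, sub_self, zero_mul, add_zero] at h3
      exact h3.mono_left nhdsWithin_le_nhds
    apply h1.congr'
    have h4 : ∀ᶠ δ : ℝ in 𝓝[>] 0, δ < 1 / 2 := by
      apply mem_nhdsWithin_of_mem_nhds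
      exact Iio_mem_nhds (by norm_num)
    filter_upwards [h4] with δ hδ
    rw [if_pos hδ.le]
  intro δ hδ x0 hx0
  obtain ⟨hδ0, hδ1⟩ := hδ
  obtain ⟨p1, p2, p3, p4, p5, p6, p7⟩ := psid_props δ hδ0
  set b : Set ℂ := box x0 (x0 + 1) with hb
  have hbc : IsCompact b := auxrect_compact x0 (x0 + 1) 0 (2 * Real.pi)
  have hbm : MeasurableSet b := hbc.measurableSet
  have hbne : b.Nonempty := ⟨(x0 : ℂ), by simp [hb, box]; positivity⟩
  set N : Set ℂ := auxrect (x0 - 1) (x0 + 2) (-1) (2 * Real.pi + 1) with hN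
  have hNm : MeasurableSet N := auxrect_meas _ _ _ _
  have hNc : IsCompact N := auxrect_compact _ _ _ _
  have hPN : IntegrableOn (fun z => |P z|) N volume := hPabs.integrableOn_isCompact hNc
  -- points within distance < 1 of b are in N
  have hnear : ∀ v z : ℂ, z ∈ b → ‖v - z‖ < 1 → v ∈ N := by
    intro v z hz hvz
    obtain ⟨⟨h1, h2⟩, h3, h4⟩ := hz
    have h5 := Complex.abs_re_le_norm (v - z)
    have h6 := Complex.abs_im_le_norm (v - z)
    rw [Complex.sub_re] at h5
    rw [Complex.sub_im] at h6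
    have h7 := abs_lt.mp (lt_of_le_of_lt h5 hvz)
    have h8 := abs_lt.mp (lt_of_le_of_lt h6 hvz)
    refine ⟨⟨by linarith [h7.1], by linarith [h7.2]⟩, by linarith [h8.1], by linarith [h8.2]⟩
  obtain ⟨Rb, hRb⟩ := hNc.isBounded.subset_closedBall (0:ℂ)
  have hbN : b ⊆ N := fun z hz => hnear z z hz (by simp)
  set K1 : ℂ → ℝ := b.indicator (fun _ => (1:ℝ)) with hK1
  have hK1m : Measurable K1 := measurable_const.indicator hbm
  have hK1b : ∀ z, |K1 z| ≤ 1 := by
    intro z; simp only [hK1, indicator]; split_ifs <;> simp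
  have hK1s : ∀ z, z ∉ Metric.closedBall (0:ℂ) Rb → K1 z = 0 := by
    intro z hz
    simp only [hK1]
    exact Set.indicator_of_notMem (fun h => hz (hRb (hbN h))) _
  have hK1mul : ∀ g : ℂ → ℝ, (fun z => K1 z * g z) = b.indicator g := by
    intro g
    funext z
    simp only [hK1, indicator]
    split_ifs <;> simp
  have hmollint : ∀ g : ℂ → ℝ, LocallyIntegrable g volume → IntegrableOn (moll δ g) b volume := by
    intro g hg
    have := (aux_fub K1 hK1m 1 Rb hK1b hK1s g hg δ hδ0).1
    rwa [hK1mul, integrable_indicator_iff hbm] at this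
  -- Step A: integral of moll of |P|
  have hK1loc : LocallyIntegrable K1 volume := by
    apply Integrable.locallyIntegrable
    rw [hK1, integrable_indicator_iff hbm]
    exact integrableOn_const hbc.measure_lt_top.ne
  have hmK1 : ∀ v, moll δ K1 v ≤ 1 ∧ 0 ≤ moll δ K1 v := by
    intro v
    have h1 : |moll δ K1 v - 1/2| ≤ 1/2 := by
      apply aux_moll_close δ hδ0 K1 hK1loc v (1/2) (1/2) (by norm_num)
      intro w _
      simp only [hK1, indicator]
      split_ifs <;> norm_num [abs_le]
    have := abs_le.mp h1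
    constructor <;> linarith [this.1, this.2]
  have hmK1z : ∀ v, v ∉ N → moll δ K1 v = 0 := by
    intro v hv
    have h1 : |moll δ K1 v - 0| ≤ 0 := by
      apply aux_moll_close δ hδ0 K1 hK1loc v 0 0 le_rfl
      intro w hw
      have : w ∉ b := fun hwb => hv (hnear v w hwb (by linarith))
      simp only [hK1]
      rw [Set.indicator_of_notMem this]
      simp
    simpa using h1
  have hA : ∫ z in b, moll δ (fun z => |P z|) z ≤ 9 * C := by
    obtain ⟨f1, f2, f3⟩ := aux_fub K1 hK1m 1 Rb hK1b hK1s (fun z => |P z|) hPabs δ hδ0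
    rw [hK1mul, integral_indicator hbm] at f3
    rw [f3]
    refine le_trans ?_ (hnine x0 hx0)
    rw [← integral_indicator hNm]
    apply integral_mono_ae f2
    · rw [integrable_indicator_iff hNm]; exact hPN
    · apply Filter.Eventually.of_forall
      intro v
      by_cases hv : v ∈ N
      · show moll δ K1 v * |P v| ≤ N.indicator (fun z => |P z|) v
        rw [Set.indicator_of_mem hv]
        have := mul_le_mul_of_nonneg_right (hmK1 v).1 (abs_nonneg (P v))
        linarith
      · show moll δ K1 v * |P v| ≤ N.indicator (fun z => |P z|) v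
        rw [Set.indicator_of_notMem hv, hmK1z v hv]
        simp
  have hPb : IntegrableOn P b volume := hP.integrableOn_isCompact hbc
  by_cases hδ2 : δ ≤ 1 / 2
  · -- main case
    simp only [hδ2, if_true]
    set A : ℝ := Real.exp (ρ * δ) - 1 with hAdef
    have hA0 : 0 ≤ A := by
      have : 1 ≤ Real.exp (ρ * δ) := Real.one_le_exp (by positivity)
      linarith
    have hexpc : Continuous (fun z : ℂ => Real.exp (-(ρ * z.re))) := by fun_prop
    have hEG : IntegrableOn (fun z => Real.exp (-(ρ * z.re)) * moll δ G z) b volume :=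
      IntegrableOn.continuousOn_mul hexpc.continuousOn (hmollint G hG) hbc
    -- first part
    have hfirst : ∫ z in b, |moll δ P z - Real.exp (-(ρ * z.re)) * moll δ G z| ≤ A * (9 * C) := by
      have h1 : ∫ z in b, |moll δ P z - Real.exp (-(ρ * z.re)) * moll δ G z|
          ≤ ∫ z in b, A * moll δ (fun z => |P z|) z := by
        apply integral_mono_ae
        · exact ((hmollint P hP).sub hEG).abs
        · exact (hmollint _ hPabs).const_mul _
        · apply Filter.Eventually.of_forall
          intro z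
          show |moll δ P z - Real.exp (-(ρ * z.re)) * moll δ G z| ≤ A * moll δ (fun z => |P z|) z
          have i1 := aux_int_conv P hP δ hδ0 z
          have i2 := aux_int_conv G hG δ hδ0 z
          have i3 := aux_int_conv (fun z => |P z|) hPabs δ hδ0 z
          have h2 : moll δ P z - Real.exp (-(ρ * z.re)) * moll δ G z
              = ∫ w, psid δ (z - w) * (P w - Real.exp (-(ρ * z.re)) * G w) := by
            simp only [moll]
            rw [← integral_const_mul, ← integral_sub i1 (i2.const_mul _)]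
            apply integral_congr_ae
            filter_upwards with w
            ring
          have h3 : A * moll δ (fun z => |P z|) z = ∫ w, A * (psid δ (z - w) * |P w|) := by
            simp only [moll]
            rw [integral_const_mul]
          rw [h2, h3, ← Real.norm_eq_abs]
          apply norm_integral_le_of_norm_le (i3.const_mul _)
          apply Filter.Eventually.of_forall
          intro w
          rw [Real.norm_eq_abs, abs_mul, abs_of_nonneg (p3 _)]
          by_cases hw : ‖z - w‖ < δ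
          · have h4 : P w - Real.exp (-(ρ * z.re)) * G w = -((Real.exp (ρ * (w.re - z.re)) - 1) * P w) := by
              have : Real.exp (-(ρ * z.re)) * G w = Real.exp (ρ * (w.re - z.re)) * P w := by
                rw [hPG w, ← mul_assoc, ← Real.exp_add]
                congr 2
                ring
              rw [this]; ring
            have h5 : |Real.exp (ρ * (w.re - z.re)) - 1| ≤ A := by
              apply aux_exp_abs
              rw [abs_mul, abs_of_pos hρ]
              apply mul_le_mul_of_nonneg_left _ hρ.le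
              have := Complex.abs_re_le_norm (z - w)
              rw [Complex.sub_re] at this
              rw [abs_sub_comm]
              linarith
            rw [h4, abs_neg, abs_mul]
            have h6 := mul_le_mul_of_nonneg_right h5 (abs_nonneg (P w))
            have h7 := mul_le_mul_of_nonneg_left h6 (p3 (z - w))
            linarith
          · rw [p4 _ (not_lt.mp hw)]
            simp
      rw [integral_const_mul] at h1
      exact h1.trans (mul_le_mul_of_nonneg_left hA hA0)
    -- second part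
    set η : ℂ → ℝ := fun z => max 0 (1 - 2 * Metric.infDist z b) with hη
    have hηc : Continuous η := by
      have := Metric.continuous_infDist_pt b
      fun_prop
    have hη0 : ∀ z, 0 ≤ η z := fun z => le_max_left _ _
    have hη1 : ∀ z, η z ≤ 1 := by
      intro z
      apply max_le (by norm_num)
      have := Metric.infDist_nonneg (x := z) (s := b)
      linarith
    have hηb : ∀ z ∈ b, η z = 1 := by
      intro z hz
      simp only [hη]
      rw [Metric.infDist_zero_of_mem hz]
      norm_num
    have hηlip : ∀ z v, |η z - η v| ≤ 2 * ‖z - v‖ := by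
      intro z v
      have h1 : Metric.infDist z b ≤ Metric.infDist v b + dist z v := Metric.infDist_le_infDist_add_dist
      have h2 : Metric.infDist v b ≤ Metric.infDist z b + dist v z := Metric.infDist_le_infDist_add_dist
      rw [dist_eq_norm] at h1 h2
      rw [norm_sub_rev] at h2
      have h3 : |η z - η v| ≤ |(1 - 2 * Metric.infDist z b) - (1 - 2 * Metric.infDist v b)| := by
        simp only [hη]
        rw [max_comm 0, max_comm 0]
        exact abs_max_sub_max_le_abs _ _ _
      refine h3.trans ?_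
      rw [abs_le]
      constructor <;> linarith
    have hηs : ∀ z, η z ≠ 0 → ∃ y ∈ b, dist z y < 1 / 2 := by
      intro z hz
      have h1 : 0 < η z := lt_of_le_of_ne (hη0 z) (Ne.symm hz)
      have h2 : 0 < 1 - 2 * Metric.infDist z b := by
        by_contra hcon
        push Not at hcon
        simp only [hη] at h1
        rw [max_eq_left hcon] at h1
        exact lt_irrefl _ h1
      exact (Metric.infDist_lt_iff hbne).mp (by linarith)
    set K : ℂ → ℝ := fun z => Real.exp (-(ρ * z.re)) * η z with hK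
    have hKc : Continuous K := hexpc.mul hηc
    have hK0 : ∀ z, 0 ≤ K z := fun z => mul_nonneg (Real.exp_pos _).le (hη0 z)
    have hKN : ∀ z, z ∉ N → K z = 0 := by
      intro z hz
      by_contra hcon
      have : η z ≠ 0 := by
        intro h0; apply hcon; simp only [hK]; rw [h0, mul_zero]
      obtain ⟨y, hy, hd⟩ := hηs z this
      apply hz
      apply hnear z y hy
      rw [← dist_eq_norm]; linarith
    have hKbd : ∀ z, |K z| ≤ Real.exp (-(ρ * (x0 - 1))) := by
      intro z
      by_cases hz : z ∈ N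
      · rw [abs_of_nonneg (hK0 z)]
        have h1 : Real.exp (-(ρ * z.re)) ≤ Real.exp (-(ρ * (x0 - 1))) := by
          apply Real.exp_le_exp.mpr
          have := hz.1.1
          nlinarith
        calc K z = Real.exp (-(ρ * z.re)) * η z := rfl
          _ ≤ Real.exp (-(ρ * z.re)) * 1 := mul_le_mul_of_nonneg_left (hη1 z) (Real.exp_pos _).le
          _ ≤ _ := by linarith
      · rw [hKN z hz, abs_zero]; exact (Real.exp_pos _).le
    have hKs : ∀ z, z ∉ Metric.closedBall (0:ℂ) Rb → K z = 0 := fun z hz => hKN z (fun h => hz (hRb h))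
    have hKloc : LocallyIntegrable K volume := hKc.locallyIntegrable
    obtain ⟨g1, g2, g3⟩ := aux_fub K hKc.measurable _ Rb hKbd hKs G hG δ hδ0
    have hKcs : HasCompactSupport K := HasCompactSupport.intro hNc hKN
    have hKG : Integrable (fun z => K z * G z) volume :=
      hG.integrable_smul_left_of_hasCompactSupport hKc hKcs
    have hT2 := log_moll_ge F hFd hFne δ hδ0
    have hsecond : ∫ z in b, |Real.exp (-(ρ * z.re)) * moll δ G z - P z| ≤ (A + 2 * δ) * (9 * C) := by
      have h1 : ∫ z in b, |Real.exp (-(ρ * z.re)) * moll δ G z - P z|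
          ≤ ∫ z, (K z * moll δ G z - K z * G z) := by
        rw [← integral_indicator hbm]
        apply integral_mono_ae
        · rw [integrable_indicator_iff hbm]
          exact (hEG.sub hPb).abs
        · exact g1.sub hKG
        · filter_upwards [hT2] with z hz
          have hz' : 0 ≤ moll δ G z - G z := by
            have : G z ≤ moll δ G z := hz
            linarith
          by_cases hzb : z ∈ b
          · rw [Set.indicator_of_mem hzb]
            simp only [hK]
            rw [hηb z hzb, mul_one, hPG z, ← mul_sub, abs_mul, abs_of_pos (Real.exp_pos _), abs_of_nonneg hz']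
          · rw [Set.indicator_of_notMem hzb, ← mul_sub]
            exact mul_nonneg (hK0 z) hz'
      have h2 : ∫ z, (K z * moll δ G z - K z * G z) = ∫ z, (moll δ K z - K z) * G z := by
        rw [integral_sub g1 hKG, g3, ← integral_sub g2 hKG]
        apply integral_congr_ae
        filter_upwards with z
        ring
      have hint3 : Integrable (fun z => (moll δ K z - K z) * G z) volume := by
        have := g2.sub hKG
        apply this.congr
        filter_upwards with z
        simp only [Pi.sub_apply]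
        ring
      have h3 : ∫ z, (moll δ K z - K z) * G z ≤ ∫ z, N.indicator (fun z => (A + 2 * δ) * |P z|) z := by
        apply integral_mono_ae hint3
        · rw [integrable_indicator_iff hNm]
          exact hPN.const_mul _
        · apply Filter.Eventually.of_forall
          intro z
          show (moll δ K z - K z) * G z ≤ N.indicator (fun z => (A + 2 * δ) * |P z|) z
          by_cases hzN : z ∈ N
          · rw [Set.indicator_of_mem hzN]
            have h4 : |moll δ K z - K z| ≤ Real.exp (-(ρ * z.re)) * (A + 2 * δ) := by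
              apply aux_moll_close δ hδ0 K hKloc z _ _ (by positivity)
              intro w hw
              have h5 : K w - K z = Real.exp (-(ρ * z.re)) *
                  ((Real.exp (ρ * (z.re - w.re)) - 1) * η w + (η w - η z)) := by
                simp only [hK]
                have : Real.exp (-(ρ * w.re)) = Real.exp (-(ρ * z.re)) * Real.exp (ρ * (z.re - w.re)) := by
                  rw [← Real.exp_add]; congr 1; ring
                rw [this]; ring
              rw [h5, abs_mul, abs_of_pos (Real.exp_pos _)]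
              apply mul_le_mul_of_nonneg_left _ (Real.exp_pos _).le
              have h6 : |Real.exp (ρ * (z.re - w.re)) - 1| ≤ A := by
                apply aux_exp_abs
                rw [abs_mul, abs_of_pos hρ]
                apply mul_le_mul_of_nonneg_left _ hρ.le
                have := Complex.abs_re_le_norm (z - w)
                rw [Complex.sub_re] at this
                linarith
              have h7 : |(Real.exp (ρ * (z.re - w.re)) - 1) * η w| ≤ A := by
                rw [abs_mul, abs_of_nonneg (hη0 w)]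
                calc _ ≤ |Real.exp (ρ * (z.re - w.re)) - 1| * 1 :=
                      mul_le_mul_of_nonneg_left (hη1 w) (abs_nonneg _)
                  _ ≤ A := by linarith
              have h8 : |η w - η z| ≤ 2 * δ := by
                have := hηlip w z
                rw [norm_sub_rev] at this
                linarith
              exact (abs_add_le _ _).trans (add_le_add h7 h8)
            calc (moll δ K z - K z) * G z ≤ |(moll δ K z - K z) * G z| := le_abs_self _
              _ = |moll δ K z - K z| * |G z| := abs_mul _ _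
              _ ≤ (Real.exp (-(ρ * z.re)) * (A + 2 * δ)) * |G z| :=
                mul_le_mul_of_nonneg_right h4 (abs_nonneg _)
              _ = (A + 2 * δ) * |P z| := by
                rw [hPG z, abs_mul, abs_of_pos (Real.exp_pos _)]; ring
          · rw [Set.indicator_of_notMem hzN]
            have h4 : |moll δ K z - 0| ≤ 0 := by
              apply aux_moll_close δ hδ0 K hKloc z _ _ le_rfl
              intro w hw
              have : K w = 0 := by
                by_contra hcon
                have : η w ≠ 0 := by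
                  intro h0; apply hcon; simp only [hK]; rw [h0, mul_zero]
                obtain ⟨y, hy, hd⟩ := hηs w this
                apply hzN
                apply hnear z y hy
                calc ‖z - y‖ = ‖(z - w) + (w - y)‖ := by congr 1; ring
                  _ ≤ ‖z - w‖ + ‖w - y‖ := norm_add_le _ _
                  _ < 1 := by rw [dist_eq_norm] at hd; linarith
              rw [this]; simp
            have h5 : moll δ K z = 0 := by simpa using h4
            rw [h5, hKN z hzN]
            simp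
      rw [integral_indicator hNm, integral_const_mul] at h3
      calc _ ≤ _ := h1
        _ = _ := h2
        _ ≤ _ := h3
        _ ≤ _ := mul_le_mul_of_nonneg_left (hnine x0 hx0) (by positivity)
    have hsum : ∫ z in b, |moll δ P z - P z|
        ≤ ∫ z in b, (|moll δ P z - Real.exp (-(ρ * z.re)) * moll δ G z|
          + |Real.exp (-(ρ * z.re)) * moll δ G z - P z|) := by
      apply integral_mono_ae
      · exact ((hmollint P hP).sub hPb).abs
      · exact ((hmollint P hP).sub hEG).abs.add (hEG.sub hPb).abs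
      · apply Filter.Eventually.of_forall
        intro z
        exact abs_sub_le _ _ _
    have hsplit : ∫ z in b, (|moll δ P z - Real.exp (-(ρ * z.re)) * moll δ G z|
          + |Real.exp (-(ρ * z.re)) * moll δ G z - P z|)
        = (∫ z in b, |moll δ P z - Real.exp (-(ρ * z.re)) * moll δ G z|)
          + ∫ z in b, |Real.exp (-(ρ * z.re)) * moll δ G z - P z| :=
      integral_add ((hmollint P hP).sub hEG).abs (hEG.sub hPb).abs
    rw [hsplit] at hsum
    linarith
  · simp only [hδ2, if_false]
    have h1 : ∫ z in b, |moll δ P z - P z| ≤ ∫ z in b, (moll δ (fun z => |P z|) z + |P z|) := by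
      apply integral_mono_ae
      · exact ((hmollint P hP).sub hPb).abs
      · exact (hmollint _ hPabs).add hPb.abs
      · apply Filter.Eventually.of_forall
        intro z
        show |moll δ P z - P z| ≤ moll δ (fun z => |P z|) z + |P z|
        have h2 : |moll δ P z| ≤ moll δ (fun z => |P z|) z := by
          simp only [moll]
          rw [← Real.norm_eq_abs]
          apply norm_integral_le_of_norm_le (aux_int_conv _ hPabs δ hδ0 z)
          apply Filter.Eventually.of_forall
          intro w
          rw [Real.norm_eq_abs, abs_mul, abs_of_nonneg (p3 _)]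
        have h3 := abs_sub (moll δ P z) (P z)
        linarith
    have h2 : ∫ z in b, (moll δ (fun z => |P z|) z + |P z|)
        = (∫ z in b, moll δ (fun z => |P z|) z) + ∫ z in b, |P z| :=
      integral_add (hmollint _ hPabs) hPb.abs
    rw [h2] at h1
    have h3 := hl1 x0 (by linarith)
    linarith

end M_A3
end Pool.Agent.Helper758.LS
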