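import Mathlib
import Pool.Agent.Helper758.LSDefs
import Pool.Agent.Helper758.LSDefs2

namespace Pool.Agent.Helper758.LS
open MeasureTheory Filter Topology Set Complex

namespace M_BSUB



theorem sub_bound_param (F F' : ℝ → ℝ → ℝ) (a b : ℝ)
    (hF : Continuous (fun p : ℝ × ℝ => F p.1 p.2)) (hF' : Continuous (fun p : ℝ × ℝ => F' p.1 p.2))
    (hd : ∀ t θ, HasDerivAt (fun t => F t θ) (F' t θ) t) (t0 : ℝ) :
    HasDerivAt (fun t => ∫ θ in a..b, F t θ) (∫ θ in a..b, F' t0 θ) t0 := by
  have hK : IsCompact (Icc (t0 - 1) (t0 + 1) ×ˢ uIcc a b) := isCompact_Icc.prod isCompact_uIcc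
  obtain ⟨C, hC⟩ := hK.exists_bound_of_continuousOn hF'.continuousOn
  have hFc : ∀ t, Continuous (F t) := fun t => hF.comp (Continuous.prodMk_right t)
  have hFc' : ∀ t, Continuous (F' t) := fun t => hF'.comp (Continuous.prodMk_right t)
  refine (intervalIntegral.hasDerivAt_integral_of_dominated_loc_of_deriv_le (μ := volume)
    (bound := fun _ => C) (s := Icc (t0 - 1) (t0 + 1)) (Icc_mem_nhds (by linarith) (by linarith))
    (Eventually.of_forall (fun t => (hFc t).aestronglyMeasurable))
    ((hFc t0).intervalIntegrable a b) (hFc' t0).aestronglyMeasurable ?_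
    intervalIntegrable_const ?_).2
  · refine Eventually.of_forall (fun θ hθ t ht => ?_)
    exact hC (t, θ) ⟨ht, uIoc_subset_uIcc hθ⟩
  · exact Eventually.of_forall (fun θ _ t _ => hd t θ)

/-- the sub-mean value property -/
theorem sub_bound_mean (S : ℂ → ℝ) (hS : ContDiff ℝ 2 S)
    (hL : ∀ z, 0 ≤ fderiv ℝ (fderiv ℝ S) z 1 1 + fderiv ℝ (fderiv ℝ S) z I I) (z0 : ℂ) (t : ℝ) :
    2 * Real.pi * S z0 ≤ ∫ θ in (-Real.pi)..Real.pi, S (z0 + exp (t + θ * I)) := by
  have hd1 : Differentiable ℝ S := hS.differentiable (by norm_num)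
  have hS1 : ContDiff ℝ 1 (fderiv ℝ S) := hS.fderiv_right (by norm_num)
  have hd2 : Differentiable ℝ (fderiv ℝ S) := hS1.differentiable (by norm_num)
  have hc1 : Continuous (fderiv ℝ S) := hS1.continuous
  have hc2 : Continuous (fderiv ℝ (fderiv ℝ S)) := hS1.continuous_fderiv (by norm_num)
  -- the point
  have hcz : Continuous (fun p : ℝ × ℝ => exp ((p.1 : ℂ) + p.2 * I)) := by fun_prop
  have hcz' : Continuous (fun p : ℝ × ℝ => z0 + exp ((p.1 : ℂ) + p.2 * I)) := by fun_prop
  have he_t : ∀ t θ : ℝ, HasDerivAt (fun t : ℝ => exp ((t : ℂ) + θ * I))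
      (exp ((t : ℂ) + θ * I)) t := by
    intro t θ
    have h1 : HasDerivAt (fun t : ℝ => (t : ℂ) + θ * I) 1 t := by
      have := (hasDerivAt_id t).ofReal_comp.add_const ((θ : ℂ) * I)
      simpa using this
    have := h1.cexp
    simpa using this
  have he_θ : ∀ t θ : ℝ, HasDerivAt (fun θ : ℝ => exp ((t : ℂ) + θ * I))
      (I * exp ((t : ℂ) + θ * I)) θ := by
    intro t θ
    have h1 : HasDerivAt (fun θ : ℝ => (t : ℂ) + θ * I) I θ := by
      have := ((hasDerivAt_id θ).ofReal_comp.mul_const I).const_add (t : ℂ)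
      simpa using this
    have := h1.cexp
    rwa [mul_comm] at this
  let F : ℝ → ℝ → ℝ := fun t θ => S (z0 + exp ((t : ℂ) + θ * I))
  let P : ℝ → ℝ → ℝ := fun t θ => fderiv ℝ S (z0 + exp ((t : ℂ) + θ * I)) (exp ((t : ℂ) + θ * I))
  let P' : ℝ → ℝ → ℝ := fun t θ =>
    fderiv ℝ (fderiv ℝ S) (z0 + exp ((t : ℂ) + θ * I)) (exp ((t : ℂ) + θ * I))
      (exp ((t : ℂ) + θ * I)) + fderiv ℝ S (z0 + exp ((t : ℂ) + θ * I)) (exp ((t : ℂ) + θ * I))
  let Q : ℝ → ℝ → ℝ := fun t θ =>
    fderiv ℝ S (z0 + exp ((t : ℂ) + θ * I)) (I * exp ((t : ℂ) + θ * I))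
  let Q' : ℝ → ℝ → ℝ := fun t θ =>
    fderiv ℝ (fderiv ℝ S) (z0 + exp ((t : ℂ) + θ * I)) (I * exp ((t : ℂ) + θ * I))
      (I * exp ((t : ℂ) + θ * I)) +
      fderiv ℝ S (z0 + exp ((t : ℂ) + θ * I)) (I * (I * exp ((t : ℂ) + θ * I)))
  have hFt : ∀ t θ, HasDerivAt (fun t => F t θ) (P t θ) t := by
    intro t θ
    exact (hd1 (z0 + exp ((t : ℂ) + θ * I))).hasFDerivAt.comp_hasDerivAt t
      ((he_t t θ).const_add z0)
  have hPt : ∀ t θ, HasDerivAt (fun t => P t θ) (P' t θ) t := by
    intro t θ
    have h1 : HasDerivAt (fun t : ℝ => fderiv ℝ S (z0 + exp ((t : ℂ) + θ * I)))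
        (fderiv ℝ (fderiv ℝ S) (z0 + exp ((t : ℂ) + θ * I)) (exp ((t : ℂ) + θ * I))) t :=
      (hd2 (z0 + exp ((t : ℂ) + θ * I))).hasFDerivAt.comp_hasDerivAt t
        ((he_t t θ).const_add z0)
    exact h1.clm_apply (he_t t θ)
  have hQθ : ∀ t θ, HasDerivAt (fun θ => Q t θ) (Q' t θ) θ := by
    intro t θ
    have h1 : HasDerivAt (fun θ : ℝ => fderiv ℝ S (z0 + exp ((t : ℂ) + θ * I)))
        (fderiv ℝ (fderiv ℝ S) (z0 + exp ((t : ℂ) + θ * I)) (I * exp ((t : ℂ) + θ * I))) θ :=
      (hd2 (z0 + exp ((t : ℂ) + θ * I))).hasFDerivAt.comp_hasDerivAt θ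
        ((he_θ t θ).const_add z0)
    exact h1.clm_apply ((he_θ t θ).const_mul I)
  have hFc : Continuous (fun p : ℝ × ℝ => F p.1 p.2) := hS.continuous.comp hcz'
  have hPc : Continuous (fun p : ℝ × ℝ => P p.1 p.2) := (hc1.comp hcz').clm_apply hcz
  have hPc' : Continuous (fun p : ℝ × ℝ => P' p.1 p.2) :=
    (((hc2.comp hcz').clm_apply hcz).clm_apply hcz).add ((hc1.comp hcz').clm_apply hcz)
  have hQc' : Continuous (fun p : ℝ × ℝ => Q' p.1 p.2) :=
    (((hc2.comp hcz').clm_apply (continuous_const.mul hcz)).clm_apply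
      (continuous_const.mul hcz)).add
      ((hc1.comp hcz').clm_apply (continuous_const.mul (continuous_const.mul hcz)))
  -- key positivity
  have hpos : ∀ t θ, 0 ≤ P' t θ + Q' t θ := by
    intro t θ
    set z := z0 + exp ((t : ℂ) + θ * I) with hz
    set e := exp ((t : ℂ) + θ * I) with he
    have hsymm : fderiv ℝ (fderiv ℝ S) z 1 I = fderiv ℝ (fderiv ℝ S) z I 1 :=
      second_derivative_symmetric (fun y => (hd1 y).hasFDerivAt) (hd2 z).hasFDerivAt 1 I
    have hdec : e = (e.re : ℝ) • (1 : ℂ) + (e.im : ℝ) • I := by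
      apply Complex.ext <;> simp
    have hdec2 : I * e = (-e.im : ℝ) • (1 : ℂ) + (e.re : ℝ) • I := by
      apply Complex.ext <;> simp
    have hII : I * (I * e) = -e := by
      rw [← mul_assoc, I_mul_I]; ring
    have h1 : fderiv ℝ (fderiv ℝ S) z e e = e.re ^ 2 * fderiv ℝ (fderiv ℝ S) z 1 1
        + 2 * e.re * e.im * fderiv ℝ (fderiv ℝ S) z I 1
        + e.im ^ 2 * fderiv ℝ (fderiv ℝ S) z I I := by
      conv_lhs => rw [hdec]
      simp only [map_add, map_smul, add_apply, smul_apply, smul_eq_mul]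
      rw [hsymm]
      ring
    have h2 : fderiv ℝ (fderiv ℝ S) z (I * e) (I * e) = e.im ^ 2 * fderiv ℝ (fderiv ℝ S) z 1 1
        - 2 * e.re * e.im * fderiv ℝ (fderiv ℝ S) z I 1
        + e.re ^ 2 * fderiv ℝ (fderiv ℝ S) z I I := by
      rw [hdec2]
      simp only [map_add, map_smul, add_apply, smul_apply, smul_eq_mul]
      rw [hsymm]
      ring
    show 0 ≤ (fderiv ℝ (fderiv ℝ S) z e e + fderiv ℝ S z e) +
      (fderiv ℝ (fderiv ℝ S) z (I * e) (I * e) + fderiv ℝ S z (I * (I * e)))
    rw [h1, h2, hII, map_neg]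
    have := hL z
    nlinarith [mul_nonneg (add_nonneg (sq_nonneg e.re) (sq_nonneg e.im)) this]
  let p : ℝ → ℝ := fun t => ∫ θ in (-Real.pi)..Real.pi, P t θ
  let φ : ℝ → ℝ := fun t => ∫ θ in (-Real.pi)..Real.pi, F t θ
  have hφ : ∀ t, HasDerivAt φ (p t) t := fun t =>
    sub_bound_param F P (-Real.pi) Real.pi hFc hPc hFt t
  have hp : ∀ t, HasDerivAt p (∫ θ in (-Real.pi)..Real.pi, P' t θ) t := fun t =>
    sub_bound_param P P' (-Real.pi) Real.pi hPc hPc' hPt t
  have hQ0 : ∀ t, ∫ θ in (-Real.pi)..Real.pi, Q' t θ = 0 := by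
    intro t
    rw [intervalIntegral.integral_eq_sub_of_hasDerivAt (f := fun θ => Q t θ)
      (fun θ _ => hQθ t θ) ((hQc'.comp (Continuous.prodMk_right t)).intervalIntegrable _ _)]
    have hexp : exp ((t : ℂ) + ((Real.pi : ℝ) : ℂ) * I) = exp ((t : ℂ) + ((-Real.pi : ℝ) : ℂ) * I) := by
      rw [Complex.exp_add, Complex.exp_add]
      congr 1
      push_cast
      rw [Complex.exp_pi_mul_I, neg_mul, Complex.exp_neg, Complex.exp_pi_mul_I]
      norm_num
    simp only [Q]
    rw [hexp, sub_self]
  have hp' : ∀ t, 0 ≤ ∫ θ in (-Real.pi)..Real.pi, P' t θ := by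
    intro t
    have hi1 : IntervalIntegrable (fun θ => P' t θ) volume (-Real.pi) Real.pi :=
      (hPc'.comp (Continuous.prodMk_right t)).intervalIntegrable _ _
    have hi2 : IntervalIntegrable (fun θ => Q' t θ) volume (-Real.pi) Real.pi :=
      (hQc'.comp (Continuous.prodMk_right t)).intervalIntegrable _ _
    have h1 : ∫ θ in (-Real.pi)..Real.pi, P' t θ
        = ∫ θ in (-Real.pi)..Real.pi, (P' t θ + Q' t θ) := by
      rw [intervalIntegral.integral_add hi1 hi2, hQ0 t, add_zero]
    rw [h1]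
    apply intervalIntegral.integral_nonneg (by linarith [Real.pi_pos])
    intro θ _
    exact hpos t θ
  have hpmono : Monotone p := by
    apply monotone_of_deriv_nonneg (fun t => (hp t).differentiableAt)
    intro t
    rw [(hp t).deriv]
    exact hp' t
  -- bounds near -∞
  obtain ⟨C, hC⟩ := (isCompact_closedBall z0 1).exists_bound_of_continuousOn
    hc1.continuousOn
  have hC0 : 0 ≤ C := (norm_nonneg _).trans (hC z0 (Metric.mem_closedBall_self zero_le_one))
  have hnorm : ∀ t θ : ℝ, ‖exp ((t : ℂ) + θ * I)‖ = Real.exp t := by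
    intro t θ
    rw [Complex.norm_exp]
    simp
  have hball : ∀ t θ : ℝ, t ≤ 0 → z0 + exp ((t : ℂ) + θ * I) ∈ Metric.closedBall z0 1 := by
    intro t θ ht
    rw [Metric.mem_closedBall, dist_eq_norm, add_sub_cancel_left, hnorm]
    exact Real.exp_le_one_iff.mpr ht
  have hpb : ∀ t, t ≤ 0 → |p t| ≤ 2 * Real.pi * (C * Real.exp t) := by
    intro t ht
    have := intervalIntegral.norm_integral_le_of_norm_le_const (a := -Real.pi) (b := Real.pi)
      (f := fun θ => P t θ) (C := C * Real.exp t) (by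
        intro θ _
        refine (ContinuousLinearMap.le_opNorm _ _).trans ?_
        rw [hnorm]
        exact mul_le_mul_of_nonneg_right (hC _ (hball t θ ht)) (Real.exp_pos t).le)
    rw [Real.norm_eq_abs] at this
    refine this.trans (le_of_eq ?_)
    rw [show Real.pi - -Real.pi = 2 * Real.pi by ring, abs_of_pos (by positivity)]
    ring
  have hexp0 : Tendsto (fun s : ℝ => 2 * Real.pi * (C * Real.exp s)) atBot (𝓝 0) := by
    have := (Real.tendsto_exp_atBot.const_mul C).const_mul (2 * Real.pi)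
    simpa using this
  have hp0 : ∀ t, 0 ≤ p t := by
    intro t
    have h1 : Tendsto (fun s : ℝ => -(2 * Real.pi * (C * Real.exp s))) atBot (𝓝 0) := by
      simpa using hexp0.neg
    apply le_of_tendsto h1
    filter_upwards [eventually_le_atBot (min t 0)] with s hs
    have h2 := hpmono (hs.trans (min_le_left _ _))
    have h3 := (abs_le.mp (hpb s (hs.trans (min_le_right _ _)))).1
    linarith
  have hφmono : Monotone φ := by
    apply monotone_of_deriv_nonneg (fun t => (hφ t).differentiableAt)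
    intro t
    rw [(hφ t).deriv]
    exact hp0 t
  -- lower bound for φ near -∞
  have hφb : ∀ s, s ≤ 0 → 2 * Real.pi * S z0 - 2 * Real.pi * (C * Real.exp s) ≤ φ s := by
    intro s hs
    have h1 : ∀ θ : ℝ, S z0 - C * Real.exp s ≤ F s θ := by
      intro θ
      have h2 := (convex_closedBall z0 1).norm_image_sub_le_of_norm_fderiv_le (𝕜 := ℝ)
        (f := S) (C := C) (fun x _ => hd1 x) (fun x hx => hC x hx)
        (Metric.mem_closedBall_self zero_le_one) (hball s θ hs)
      rw [add_sub_cancel_left, hnorm, Real.norm_eq_abs] at h2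
      have h3 := (abs_le.mp h2).1
      show S z0 - C * Real.exp s ≤ S (z0 + exp ((s : ℂ) + θ * I))
      linarith
    have h4 : ∫ _θ in (-Real.pi)..Real.pi, (S z0 - C * Real.exp s) ≤ φ s := by
      apply intervalIntegral.integral_mono_on (by linarith [Real.pi_pos])
        intervalIntegrable_const ((hFc.comp (Continuous.prodMk_right s)).intervalIntegrable _ _)
      intro θ _
      exact h1 θ
    rw [intervalIntegral.integral_const, smul_eq_mul] at h4
    calc 2 * Real.pi * S z0 - 2 * Real.pi * (C * Real.exp s)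
        = (Real.pi - -Real.pi) * (S z0 - C * Real.exp s) := by ring
      _ ≤ φ s := h4
  have hfin : Tendsto (fun s : ℝ => 2 * Real.pi * S z0 - 2 * Real.pi * (C * Real.exp s)) atBot
      (𝓝 (2 * Real.pi * S z0)) := by
    simpa using tendsto_const_nhds.sub hexp0
  apply le_of_tendsto hfin
  filter_upwards [eventually_le_atBot (min t 0)] with s hs
  exact (hφb s (hs.trans (min_le_right _ _))).trans (hφmono (hs.trans (min_le_left _ _)))

/-- area version -/
theorem sub_bound_area (S : ℂ → ℝ) (hS : ContDiff ℝ 2 S)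
    (hL : ∀ z, 0 ≤ fderiv ℝ (fderiv ℝ S) z 1 1 + fderiv ℝ (fderiv ℝ S) z I I) (z0 : ℂ) :
    Real.pi * S z0 ≤ ∫ z in Metric.closedBall z0 1, S z := by
  have hSc : Continuous S := hS.continuous
  -- translate to the origin
  have h1 : ∫ z in Metric.closedBall z0 1, S z
      = ∫ z, (Metric.closedBall (0 : ℂ) 1).indicator (fun z => S (z0 + z)) z := by
    rw [← integral_indicator measurableSet_closedBall]
    rw [← integral_add_left_eq_self (μ := volume)
      (fun z => (Metric.closedBall z0 1).indicator S z) z0]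
    congr 1
    ext z
    by_cases hz : z ∈ Metric.closedBall (0 : ℂ) 1
    · have hz' : z0 + z ∈ Metric.closedBall z0 1 := by
        rw [Metric.mem_closedBall, dist_eq_norm] at hz ⊢
        simpa using hz
      rw [indicator_of_mem hz, indicator_of_mem hz']
    · have hz' : z0 + z ∉ Metric.closedBall z0 1 := by
        rw [Metric.mem_closedBall, dist_eq_norm] at hz ⊢
        simpa using hz
      rw [indicator_of_notMem hz, indicator_of_notMem hz']
  rw [h1, ← Complex.integral_comp_polarCoord_symm]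
  have htar : polarCoord.target = Set.Ioi (0 : ℝ) ×ˢ Set.Ioo (-Real.pi) Real.pi := rfl
  have hsub : Set.Ioc (0 : ℝ) 1 ×ˢ Set.Ioo (-Real.pi) Real.pi ⊆ polarCoord.target := by
    rw [htar]
    exact Set.prod_mono Ioc_subset_Ioi_self subset_rfl
  have h2 : ∫ p in polarCoord.target, p.1 • (Metric.closedBall (0 : ℂ) 1).indicator
        (fun z => S (z0 + z)) (Complex.polarCoord.symm p)
      = ∫ p in Set.Ioc (0 : ℝ) 1 ×ˢ Set.Ioo (-Real.pi) Real.pi,
        p.1 * S (z0 + Complex.polarCoord.symm p) := by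
    have h3 : ∀ p ∈ polarCoord.target, p.1 • (Metric.closedBall (0 : ℂ) 1).indicator
        (fun z => S (z0 + z)) (Complex.polarCoord.symm p)
        = (Set.Ioc (0 : ℝ) 1 ×ˢ Set.Ioo (-Real.pi) Real.pi).indicator
          (fun p : ℝ × ℝ => p.1 * S (z0 + Complex.polarCoord.symm p)) p := by
      intro p hp
      rw [htar, Set.mem_prod] at hp
      have hp1 : (0 : ℝ) < p.1 := hp.1
      by_cases hp2 : p.1 ≤ 1
      · have hm1 : Complex.polarCoord.symm p ∈ Metric.closedBall (0 : ℂ) 1 := by
          rw [mem_closedBall_zero_iff, Complex.norm_polarCoord_symm, abs_of_pos hp1]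
          exact hp2
        have hm2 : p ∈ Set.Ioc (0 : ℝ) 1 ×ˢ Set.Ioo (-Real.pi) Real.pi := ⟨⟨hp1, hp2⟩, hp.2⟩
        rw [indicator_of_mem hm1, indicator_of_mem hm2, smul_eq_mul]
      · have hm1 : Complex.polarCoord.symm p ∉ Metric.closedBall (0 : ℂ) 1 := by
          rw [mem_closedBall_zero_iff, Complex.norm_polarCoord_symm, abs_of_pos hp1]
          exact hp2
        have hm2 : p ∉ Set.Ioc (0 : ℝ) 1 ×ˢ Set.Ioo (-Real.pi) Real.pi := fun h => hp2 h.1.2
        rw [indicator_of_notMem hm1, indicator_of_notMem hm2, smul_zero]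
    have hmeas : MeasurableSet (Set.Ioc (0 : ℝ) 1 ×ˢ Set.Ioo (-Real.pi) Real.pi) :=
      measurableSet_Ioc.prod measurableSet_Ioo
    rw [setIntegral_congr_fun polarCoord.open_target.measurableSet h3,
      setIntegral_indicator hmeas, Set.inter_eq_self_of_subset_right hsub]
  rw [h2]
  have hcont : Continuous (fun p : ℝ × ℝ => p.1 * S (z0 + Complex.polarCoord.symm p)) := by
    apply continuous_fst.mul
    apply hSc.comp
    have : (fun p : ℝ × ℝ => z0 + Complex.polarCoord.symm p)
        = fun p : ℝ × ℝ => z0 + p.1 * (Real.cos p.2 + Real.sin p.2 * I) := by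
      ext p
      rw [Complex.polarCoord_symm_apply]
    rw [this]
    fun_prop
  have hint : IntegrableOn (fun p : ℝ × ℝ => p.1 * S (z0 + Complex.polarCoord.symm p))
      (Set.Ioc (0 : ℝ) 1 ×ˢ Set.Ioo (-Real.pi) Real.pi) := by
    apply (hcont.continuousOn.integrableOn_compact
      ((isCompact_Icc (a := (0 : ℝ)) (b := 1)).prod
        (isCompact_Icc (a := -Real.pi) (b := Real.pi)))).mono_set
    exact Set.prod_mono Ioc_subset_Icc_self Ioo_subset_Icc_self
  rw [Measure.volume_eq_prod] at hint ⊢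
  rw [setIntegral_prod _ hint]
  -- inner integrals
  have hinner : ∀ r ∈ Set.Ioc (0 : ℝ) 1, r * (2 * Real.pi * S z0) ≤
      ∫ θ in Set.Ioo (-Real.pi) Real.pi, r * S (z0 + Complex.polarCoord.symm (r, θ)) := by
    intro r hr
    have h5 := sub_bound_mean S hS hL z0 (Real.log r)
    have h6 : ∫ θ in Set.Ioo (-Real.pi) Real.pi, r * S (z0 + Complex.polarCoord.symm (r, θ))
        = r * ∫ θ in (-Real.pi)..Real.pi, S (z0 + exp ((Real.log r : ℝ) + θ * I)) := by
      rw [intervalIntegral.integral_of_le (by linarith [Real.pi_pos]), integral_Ioc_eq_integral_Ioo,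
        ← integral_const_mul]
      congr 1
      ext θ
      rw [Complex.polarCoord_symm_apply, Complex.exp_add, ← Complex.ofReal_exp,
        Real.exp_log hr.1, Complex.exp_mul_I]
      push_cast
      rfl
    rw [h6]
    exact mul_le_mul_of_nonneg_left h5 hr.1.le
  have h7 : Real.pi * S z0 = ∫ r in Set.Ioc (0 : ℝ) 1, r * (2 * Real.pi * S z0) := by
    rw [← intervalIntegral.integral_of_le zero_le_one, intervalIntegral.integral_mul_const,
      integral_id]
    ring
  rw [h7]
  apply setIntegral_mono_on _ _ measurableSet_Ioc hinner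
  · exact ((continuous_id.mul continuous_const).integrableOn_Icc).mono_set Ioc_subset_Icc_self
  · have hint2 := hint
    unfold IntegrableOn at hint2
    rw [← Measure.prod_restrict] at hint2
    exact hint2.integral_prod_left

/-- smooth convex cutoff -/
noncomputable def sbBe (s : ℝ) : ℝ := ∫ t in (0 : ℝ)..s, Real.smoothTransition (t - 1)

theorem sbBe_deriv (s : ℝ) : HasDerivAt sbBe (Real.smoothTransition (s - 1)) s := by
  have hc : Continuous (fun t : ℝ => Real.smoothTransition (t - 1)) :=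
    Real.smoothTransition.continuous.comp (continuous_id.sub continuous_const)
  exact intervalIntegral.integral_hasDerivAt_right (hc.intervalIntegrable _ _)
    (hc.stronglyMeasurableAtFilter _ _) hc.continuousAt

theorem sbBe_zero {s : ℝ} (hs : s ≤ 1) : sbBe s = 0 := by
  unfold sbBe
  rw [intervalIntegral.integral_congr (g := fun _ => (0 : ℝ))]
  · simp
  · intro t ht
    simp only
    apply Real.smoothTransition.zero_of_nonpos
    rcases Set.mem_uIcc.mp ht with h | h
    · linarith [h.2]
    · linarith [h.2]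

theorem sbBe_mono : Monotone sbBe := by
  apply monotone_of_deriv_nonneg (fun s => (sbBe_deriv s).differentiableAt)
  intro s
  rw [(sbBe_deriv s).deriv]
  exact Real.smoothTransition.nonneg _

theorem sbBe_nonneg (s : ℝ) : 0 ≤ sbBe s := by
  rcases le_total s 1 with h | h
  · rw [sbBe_zero h]
  · rw [← sbBe_zero le_rfl]
    exact sbBe_mono h

theorem sbBe_le (s : ℝ) : sbBe s ≤ |s| := by
  rcases le_total s 1 with h | h
  · rw [sbBe_zero h]; exact abs_nonneg _
  · have hm : Monotone (fun s => s - sbBe s) := by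
      apply monotone_of_deriv_nonneg
        (fun s => ((hasDerivAt_id s).sub (sbBe_deriv s)).differentiableAt)
      intro s
      have := ((hasDerivAt_id s).sub (sbBe_deriv s)).deriv
      change deriv (id - sbBe) s = _ at this
      change 0 ≤ deriv (id - sbBe) s
      rw [this]
      linarith [Real.smoothTransition.le_one (s - 1)]
    have h1 := hm h
    simp only [sbBe_zero le_rfl] at h1
    have := le_abs_self s
    linarith

theorem sbBe_ge {s : ℝ} (hs : 2 ≤ s) : s - 2 ≤ sbBe s - sbBe 2 := by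
  have h1 : ∫ t in (2 : ℝ)..s, Real.smoothTransition (t - 1) = sbBe s - sbBe 2 := by
    apply intervalIntegral.integral_eq_sub_of_hasDerivAt (fun t _ => sbBe_deriv t)
    exact (Real.smoothTransition.continuous.comp
      (continuous_id.sub continuous_const)).intervalIntegrable _ _
  rw [← h1, intervalIntegral.integral_congr (g := fun _ => (1 : ℝ))]
  · simp
  · intro t ht
    simp only
    apply Real.smoothTransition.one_of_one_le
    rw [Set.uIcc_of_le hs] at ht
    linarith [ht.1]

theorem sbBe_contDiff : ContDiff ℝ 3 sbBe := by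
  rw [show (3 : WithTop ℕ∞) = 2 + 1 by norm_num, contDiff_succ_iff_deriv]
  refine ⟨fun s => (sbBe_deriv s).differentiableAt, fun h => absurd h (by decide), ?_⟩
  have : deriv sbBe = fun s => Real.smoothTransition (s - 1) := by
    ext s; exact (sbBe_deriv s).deriv
  rw [this]
  exact (Real.smoothTransition.contDiff (n := 2)).comp (contDiff_id.sub contDiff_const)

/-- the combination used in the estimate: `g - s g' + 2 ≥ 0` -/
theorem sbBe_comb (s : ℝ) : 0 ≤ sbBe s - s * Real.smoothTransition (s - 1) + 2 := by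
  rcases le_total s 1 with h | h
  · rw [sbBe_zero h, Real.smoothTransition.zero_of_nonpos (by linarith)]; norm_num
  · rcases le_total s 2 with h2 | h2
    · have h3 := sbBe_nonneg s
      have h4 := Real.smoothTransition.le_one (s - 1)
      have h5 := Real.smoothTransition.nonneg (s - 1)
      nlinarith
    · have h3 := sbBe_ge h2
      have h4 := sbBe_nonneg 2
      rw [Real.smoothTransition.one_of_one_le (by linarith)]
      linarith

theorem sbBe_ge' (s : ℝ) : s - 2 ≤ sbBe s := by
  rcases le_total s 2 with h | h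
  · linarith [sbBe_nonneg s]
  · linarith [sbBe_ge h, sbBe_nonneg 2]

theorem sbSt_deriv_nonneg (s : ℝ) : 0 ≤ deriv Real.smoothTransition s := by
  have h := (Real.smoothTransition.contDiffAt (x := s) (n := 1)).differentiableAt (by norm_num)
  have h1 := h.hasDerivAt
  have h2 : Tendsto (slope Real.smoothTransition s) (𝓝[≠] s)
      (𝓝 (deriv Real.smoothTransition s)) := hasDerivAt_iff_tendsto_slope.mp h1
  apply ge_of_tendsto h2
  filter_upwards [self_mem_nhdsWithin] with y hy
  rw [slope_def_field]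
  rcases lt_or_gt_of_ne (show y ≠ s from hy) with h3 | h3
  · apply div_nonneg_of_nonpos
    · linarith [Real.smoothTransition.monotone h3.le]
    · linarith
  · apply div_nonneg
    · linarith [Real.smoothTransition.monotone h3.le]
    · linarith

/-- scaled cutoff -/
noncomputable def sbG (N s : ℝ) : ℝ := N * sbBe (s / N)

theorem sbG_deriv {N : ℝ} (hN : 0 < N) (s : ℝ) :
    HasDerivAt (sbG N) (Real.smoothTransition (s / N - 1)) s := by
  have h1 : HasDerivAt (fun s : ℝ => s / N) (1 / N) s := (hasDerivAt_id s).div_const N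
  have h2 := ((sbBe_deriv (s / N)).comp s h1).const_mul N
  have h3 : N * (Real.smoothTransition (s / N - 1) * (1 / N)) =
      Real.smoothTransition (s / N - 1) := by
    field_simp
  rw [h3] at h2
  exact h2

theorem sbG1_deriv (N : ℝ) (s : ℝ) :
    HasDerivAt (fun s => Real.smoothTransition (s / N - 1))
      (deriv Real.smoothTransition (s / N - 1) * (1 / N)) s := by
  have h1 : HasDerivAt (fun s : ℝ => s / N - 1) (1 / N) s :=
    ((hasDerivAt_id s).div_const N).sub_const 1
  have h := ((Real.smoothTransition.contDiffAt (x := s / N - 1) (n := 1)).differentiableAt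
    (by norm_num)).hasDerivAt
  exact h.comp s h1

theorem sub_bound_line1 (S : ℂ → ℝ) (hS : ContDiff ℝ 2 S) (z v : ℂ) (t : ℝ) :
    HasDerivAt (fun t : ℝ => S (z + t • v)) (fderiv ℝ S (z + t • v) v) t := by
  have h1 : HasDerivAt (fun t : ℝ => z + t • v) v t := by
    have := ((hasDerivAt_id t).smul_const v).const_add z
    simpa using this
  exact ((hS.differentiable (by norm_num)) _).hasFDerivAt.comp_hasDerivAt t h1

theorem sub_bound_line2 (S : ℂ → ℝ) (hS : ContDiff ℝ 2 S) (z v : ℂ) (t : ℝ) :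
    HasDerivAt (fun t : ℝ => fderiv ℝ S (z + t • v) v)
      (fderiv ℝ (fderiv ℝ S) (z + t • v) v v) t := by
  have h1 : HasDerivAt (fun t : ℝ => z + t • v) v t := by
    have := ((hasDerivAt_id t).smul_const v).const_add z
    simpa using this
  have h2 : ContDiff ℝ 1 (fderiv ℝ S) := hS.fderiv_right (by norm_num)
  have h3 : HasDerivAt (fun t : ℝ => fderiv ℝ S (z + t • v))
      (fderiv ℝ (fderiv ℝ S) (z + t • v) v) t :=
    ((h2.differentiable (by norm_num)) _).hasFDerivAt.comp_hasDerivAt t h1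
  have h4 := h3.clm_apply (hasDerivAt_const t v)
  simpa using h4

theorem sub_bound_snd (w : ℂ → ℝ) (hw : ContDiff ℝ 2 w) (z v : ℂ) :
    fderiv ℝ (fun z => fderiv ℝ w z v) z v = fderiv ℝ (fderiv ℝ w) z v v := by
  have h2 : ContDiff ℝ 1 (fderiv ℝ w) := hw.fderiv_right (by norm_num)
  have h3 := (h2.differentiable (by norm_num)) z
  rw [fderiv_clm_apply h3 (differentiableAt_const v)]
  simp

/-- second derivative of the auxiliary function -/
theorem sub_bound_form (ρ N : ℝ) (hN : 0 < N) (w : ℂ → ℝ) (hw : ContDiff ℝ 2 w) (z0 : ℂ)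
    (hS : ContDiff ℝ 2 (fun z : ℂ => Real.exp (ρ * (z.re - z0.re)) * (sbG N (w z) + 2 * N)))
    (z v : ℂ) :
    fderiv ℝ (fderiv ℝ (fun z : ℂ => Real.exp (ρ * (z.re - z0.re)) * (sbG N (w z) + 2 * N))) z v v
      = Real.exp (ρ * (z.re - z0.re)) * ((ρ * v.re) ^ 2 * (sbG N (w z) + 2 * N)
        + 2 * (ρ * v.re) * (Real.smoothTransition (w z / N - 1) * fderiv ℝ w z v)
        + deriv Real.smoothTransition (w z / N - 1) * (1 / N) * (fderiv ℝ w z v) ^ 2
        + Real.smoothTransition (w z / N - 1) * fderiv ℝ (fderiv ℝ w) z v v) := by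
  have hE : ∀ t : ℝ, HasDerivAt (fun t : ℝ => Real.exp (ρ * ((z + t • v).re - z0.re)))
      (ρ * v.re * Real.exp (ρ * ((z + t • v).re - z0.re))) t := by
    intro t
    have h1 : HasDerivAt (fun t : ℝ => ρ * ((z + t • v).re - z0.re)) (ρ * v.re) t := by
      have h2 : (fun t : ℝ => ρ * ((z + t • v).re - z0.re))
          = fun t : ℝ => ρ * ((z.re + t * v.re) - z0.re) := by
        ext t; simp
      rw [h2]
      have := ((((hasDerivAt_id t).mul_const v.re).const_add z.re).sub_const z0.re).const_mul ρ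
      simpa using this
    have := h1.exp
    rwa [mul_comm] at this
  have hW : ∀ t : ℝ, HasDerivAt (fun t : ℝ => w (z + t • v)) (fderiv ℝ w (z + t • v) v) t :=
    sub_bound_line1 w hw z v
  have hW1 : ∀ t : ℝ, HasDerivAt (fun t : ℝ => fderiv ℝ w (z + t • v) v)
      (fderiv ℝ (fderiv ℝ w) (z + t • v) v v) t := sub_bound_line2 w hw z v
  have hG : ∀ t : ℝ, HasDerivAt (fun t : ℝ => sbG N (w (z + t • v)) + 2 * N)
      (Real.smoothTransition (w (z + t • v) / N - 1) * fderiv ℝ w (z + t • v) v) t := by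
    intro t
    exact ((sbG_deriv hN (w (z + t • v))).comp t (hW t)).add_const (2 * N)
  have hG1 : ∀ t : ℝ, HasDerivAt (fun t : ℝ => Real.smoothTransition (w (z + t • v) / N - 1))
      (deriv Real.smoothTransition (w (z + t • v) / N - 1) * (1 / N)
        * fderiv ℝ w (z + t • v) v) t := by
    intro t
    exact (sbG1_deriv N (w (z + t • v))).comp t (hW t)
  have hfst : (fun t : ℝ => fderiv ℝ (fun z : ℂ => Real.exp (ρ * (z.re - z0.re)) *
      (sbG N (w z) + 2 * N)) (z + t • v) v)
      = fun t : ℝ => ρ * v.re * Real.exp (ρ * ((z + t • v).re - z0.re))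
          * (sbG N (w (z + t • v)) + 2 * N)
        + Real.exp (ρ * ((z + t • v).re - z0.re)) *
          (Real.smoothTransition (w (z + t • v) / N - 1) * fderiv ℝ w (z + t • v) v) := by
    ext t
    exact (sub_bound_line1 _ hS z v t).unique ((hE t).mul (hG t))
  have hsnd := sub_bound_line2 _ hS z v 0
  rw [hfst] at hsnd
  have hcalc := (((hE 0).const_mul (ρ * v.re)).mul (hG 0)).add
    ((hE 0).mul ((hG1 0).mul (hW1 0)))
  have := hsnd.unique hcalc
  simp only [Pi.mul_apply, zero_smul, add_zero] at this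
  rw [this]
  ring

/-- TARGET. -/
theorem sub_bound (ρ : ℝ) (hρ : 0 < ρ) :
    ∃ C : ℝ, 0 < C ∧ ∀ w : ℂ → ℝ, ContDiff ℝ 4 w → ∀ N : ℝ, 0 < N →
      (∀ z, N < w z → 0 ≤ Lop ρ w z) →
      ∀ z0, w z0 ≤ C * ((∫ z in Metric.closedBall z0 1, |w z|) + N) := by
  refine ⟨2 * Real.exp ρ, by positivity, ?_⟩
  intro w hw4 N hN hLw z0
  have hw : ContDiff ℝ 2 w := hw4.of_le (by norm_num)
  have hGc : ContDiff ℝ 2 (sbG N) := by
    unfold sbG
    exact contDiff_const.mul ((sbBe_contDiff.of_le (by norm_num)).comp (contDiff_id.div_const N))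
  have hS : ContDiff ℝ 2
      (fun z : ℂ => Real.exp (ρ * (z.re - z0.re)) * (sbG N (w z) + 2 * N)) := by
    apply ContDiff.mul
    · apply Real.contDiff_exp.comp
      exact contDiff_const.mul (Complex.reCLM.contDiff.sub contDiff_const)
    · exact (hGc.comp hw).add contDiff_const
  have hL : ∀ z, 0 ≤ fderiv ℝ (fderiv ℝ (fun z : ℂ => Real.exp (ρ * (z.re - z0.re)) *
      (sbG N (w z) + 2 * N))) z 1 1 + fderiv ℝ (fderiv ℝ (fun z : ℂ =>
      Real.exp (ρ * (z.re - z0.re)) * (sbG N (w z) + 2 * N))) z I I := by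
    intro z
    rw [sub_bound_form ρ N hN w hw z0 hS z 1, sub_bound_form ρ N hN w hw z0 hS z I]
    simp only [one_re, I_re, mul_one, mul_zero, zero_mul, add_zero]
    have hLz : 0 ≤ Real.smoothTransition (w z / N - 1) * Lop ρ w z := by
      rcases le_or_gt (w z) N with h | h
      · rw [Real.smoothTransition.zero_of_nonpos (by
          have : w z / N ≤ 1 := (div_le_one hN).mpr h
          linarith), zero_mul]
      · exact mul_nonneg (Real.smoothTransition.nonneg _) (hLw z h)
    have hLdef : Lop ρ w z = fderiv ℝ (fderiv ℝ w) z 1 1 + 2 * ρ * fderiv ℝ w z 1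
        + fderiv ℝ (fderiv ℝ w) z I I + ρ ^ 2 * w z := by
      unfold Lop dx dy
      rw [sub_bound_snd w hw z 1, sub_bound_snd w hw z I]
    have hcomb : 0 ≤ sbG N (w z) - w z * Real.smoothTransition (w z / N - 1) + 2 * N := by
      have h1 := mul_nonneg hN.le (sbBe_comb (w z / N))
      unfold sbG
      have h2 : N * (sbBe (w z / N) - w z / N * Real.smoothTransition (w z / N - 1) + 2)
          = N * sbBe (w z / N) - w z * Real.smoothTransition (w z / N - 1) + 2 * N := by
        field_simp
      linarith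
    have hd := sbSt_deriv_nonneg (w z / N - 1)
    have hE : 0 < Real.exp (ρ * (z.re - z0.re)) := Real.exp_pos _
    have hq1 : 0 ≤ deriv Real.smoothTransition (w z / N - 1) * (1 / N) * fderiv ℝ w z 1 ^ 2 := by
      positivity
    have hq2 : 0 ≤ deriv Real.smoothTransition (w z / N - 1) * (1 / N) * fderiv ℝ w z I ^ 2 := by
      positivity
    have hq3 : 0 ≤ ρ ^ 2 * (sbG N (w z) - w z * Real.smoothTransition (w z / N - 1) + 2 * N) :=
      mul_nonneg (sq_nonneg _) hcomb
    rw [hLdef] at hLz
    rw [← mul_add]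
    apply mul_nonneg hE.le
    have hzero : (0 : ℝ) ^ 2 = 0 := by norm_num
    simp only [hzero, zero_mul, zero_add]
    nlinarith [hLz, hq1, hq2, hq3]
  have harea := sub_bound_area _ hS hL z0
  simp only [sub_self, mul_zero, Real.exp_zero, one_mul] at harea
  have hlow : w z0 ≤ sbG N (w z0) + 2 * N := by
    have h1 := mul_le_mul_of_nonneg_left (sbBe_ge' (w z0 / N)) hN.le
    unfold sbG
    have h2 : N * (w z0 / N - 2) = w z0 - 2 * N := by field_simp
    linarith
  have hwc : Continuous w := hw.continuous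
  have hint : IntegrableOn (fun z => Real.exp ρ * (|w z| + 2 * N)) (Metric.closedBall z0 1) :=
    (continuous_const.mul (hwc.abs.add continuous_const)).continuousOn.integrableOn_compact
      (isCompact_closedBall z0 1)
  have hint2 : IntegrableOn (fun z : ℂ => Real.exp (ρ * (z.re - z0.re)) *
      (sbG N (w z) + 2 * N)) (Metric.closedBall z0 1) :=
    hS.continuous.continuousOn.integrableOn_compact (isCompact_closedBall z0 1)
  have hup : ∫ z in Metric.closedBall z0 1, Real.exp (ρ * (z.re - z0.re)) *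
      (sbG N (w z) + 2 * N) ≤ ∫ z in Metric.closedBall z0 1, Real.exp ρ * (|w z| + 2 * N) := by
    apply setIntegral_mono_on hint2 hint measurableSet_closedBall
    intro z hz
    have hz1 : z.re - z0.re ≤ 1 := by
      have h1 : |(z - z0).re| ≤ ‖z - z0‖ := Complex.abs_re_le_norm _
      rw [Metric.mem_closedBall, dist_eq_norm] at hz
      rw [Complex.sub_re] at h1
      exact (le_abs_self _).trans (h1.trans hz)
    have hE1 : Real.exp (ρ * (z.re - z0.re)) ≤ Real.exp ρ := by
      apply Real.exp_le_exp.mpr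
      nlinarith
    have hG1 : sbG N (w z) ≤ |w z| := by
      unfold sbG
      have h1 := mul_le_mul_of_nonneg_left (sbBe_le (w z / N)) hN.le
      have h2 : N * |w z / N| = |w z| := by
        rw [abs_div, abs_of_pos hN]
        field_simp
      linarith
    have hG0 : 0 ≤ sbG N (w z) := mul_nonneg hN.le (sbBe_nonneg _)
    exact mul_le_mul hE1 (by linarith) (by linarith) (Real.exp_pos _).le
  have hval : ∫ z in Metric.closedBall z0 1, Real.exp ρ * (|w z| + 2 * N)
      = Real.exp ρ * ((∫ z in Metric.closedBall z0 1, |w z|) + 2 * N * Real.pi) := by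
    rw [integral_const_mul, integral_add
      (hwc.abs.continuousOn.integrableOn_compact (isCompact_closedBall z0 1))
      (integrableOn_const (by
        exact (isCompact_closedBall z0 1).measure_lt_top.ne))]
    congr 2
    rw [setIntegral_const, smul_eq_mul]
    have : (volume : Measure ℂ).real (Metric.closedBall z0 1) = Real.pi := by
      unfold Measure.real
      rw [Complex.volume_closedBall]
      simp
    rw [this]
    ring
  rw [hval] at hup
  have hI : 0 ≤ ∫ z in Metric.closedBall z0 1, |w z| :=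
    setIntegral_nonneg measurableSet_closedBall (fun z _ => abs_nonneg _)
  have hpi := Real.pi_gt_three
  have hEpos := Real.exp_pos ρ
  have hfin : Real.pi * w z0 ≤ Real.exp ρ * ((∫ z in Metric.closedBall z0 1, |w z|)
      + 2 * N * Real.pi) := by
    have := mul_le_mul_of_nonneg_left hlow Real.pi_pos.le
    linarith
  have hfin2 : Real.exp ρ * ((∫ z in Metric.closedBall z0 1, |w z|) + 2 * N * Real.pi)
      ≤ Real.pi * (2 * Real.exp ρ * ((∫ z in Metric.closedBall z0 1, |w z|) + N)) := by
    have h1 : Real.exp ρ * (∫ z in Metric.closedBall z0 1, |w z|) * 1 ≤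
        Real.exp ρ * (∫ z in Metric.closedBall z0 1, |w z|) * (2 * Real.pi) :=
      mul_le_mul_of_nonneg_left (by linarith) (mul_nonneg hEpos.le hI)
    nlinarith
  exact le_of_mul_le_mul_left (hfin.trans hfin2) Real.pi_pos

end M_BSUB
end Pool.Agent.Helper758.LS
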