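import Mathlib
import Pool.Agent.Helper758.LSDefs
import Pool.Agent.Helper758.LSDefs2
import Pool.Agent.Helper758.LS_BSUB
import Pool.Agent.Helper758.LS_MOL

namespace Pool.Agent.Helper758.LS
open MeasureTheory Filter Topology Set Complex
open M_BSUB (sub_bound)
open M_MOL (moll_contDiff psid_props)
namespace M_B1



/-- GIVEN (do not prove): basic facts, proved in other jobs. -/




theorem b1_bdd {ρ : ℝ} {h ω : ℝ → ℝ} (hd : Dat ρ h ω) : ∃ H0 : ℝ, 0 ≤ H0 ∧ ∀ y, |h y| ≤ H0 := by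
  obtain ⟨H, hH⟩ := (isCompact_Icc (a := (0 : ℝ)) (b := 2 * Real.pi)).exists_bound_of_continuousOn
    hd.hcont.continuousOn
  have hper : Function.Periodic h (2 * Real.pi) := hd.hper
  refine ⟨|H|, abs_nonneg _, fun y => ?_⟩
  obtain ⟨x, hx, hxy⟩ := hper.exists_mem_Ico₀ (by positivity) y
  rw [hxy]
  exact (hH x ⟨hx.1, hx.2.le⟩).trans (le_abs_self H)

theorem b1_unif {ρ : ℝ} {h ω : ℝ → ℝ} (hd : Dat ρ h ω) (ε : ℝ) (hε : 0 < ε) :
    ∃ d > 0, ∀ x y, |x - y| < d → |h x - h y| < ε := by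
  have huc : UniformContinuousOn h (Icc (-1) (2 * Real.pi + 1)) :=
    isCompact_Icc.uniformContinuousOn_of_continuous hd.hcont.continuousOn
  rw [Metric.uniformContinuousOn_iff] at huc
  obtain ⟨d, hd0, hdd⟩ := huc ε hε
  have hper : Function.Periodic h (2 * Real.pi) := hd.hper
  have h2pi : (0 : ℝ) < 2 * Real.pi := by positivity
  refine ⟨min d 1, lt_min hd0 one_pos, fun x y hxy => ?_⟩
  set m : ℤ := ⌊x / (2 * Real.pi)⌋ with hm
  have hx1 : (m : ℝ) * (2 * Real.pi) ≤ x := by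
    have := Int.floor_le (x / (2 * Real.pi))
    rwa [le_div_iff₀ h2pi] at this
  have hx2 : x < (m + 1 : ℝ) * (2 * Real.pi) := by
    have := Int.lt_floor_add_one (x / (2 * Real.pi))
    rwa [div_lt_iff₀ h2pi] at this
  have hx3 : h (x - m * (2 * Real.pi)) = h x := hper.sub_int_mul_eq m
  have hy3 : h (y - m * (2 * Real.pi)) = h y := hper.sub_int_mul_eq m
  have hxy1 : |x - y| < 1 := lt_of_lt_of_le hxy (min_le_right _ _)
  rw [abs_lt] at hxy1
  have h4 := hdd (x - m * (2 * Real.pi)) ⟨by linarith, by linarith⟩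
    (y - m * (2 * Real.pi)) ⟨by linarith, by linarith⟩ (by
      rw [Real.dist_eq]
      have : x - m * (2 * Real.pi) - (y - m * (2 * Real.pi)) = x - y := by ring
      rw [this]
      exact lt_of_lt_of_le hxy (min_le_left _ _))
  rw [Real.dist_eq, hx3, hy3] at h4
  exact h4

theorem b1_kappa {ρ : ℝ} {h ω : ℝ → ℝ} (hd : Dat ρ h ω) :
    ∃ κ : ℝ → ℝ, (∀ δ, 0 ≤ κ δ) ∧ Tendsto κ (𝓝[>] 0) (𝓝 0) ∧
      ∀ δ y y', |y - y'| ≤ δ → h y' ≤ h y + κ δ := by
  obtain ⟨H0, hH0, hH⟩ := b1_bdd hd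
  refine ⟨fun δ => ⨆ p : {p : ℝ × ℝ // |p.1 - p.2| ≤ δ}, |h p.1.1 - h p.1.2|,
    fun δ => Real.iSup_nonneg fun p => abs_nonneg _, ?_, ?_⟩
  · rw [Metric.tendsto_nhds]
    intro ε hε
    obtain ⟨d, hd0, hdd⟩ := b1_unif hd (ε / 2) (by positivity)
    have h1 : Ioo (0 : ℝ) d ∈ 𝓝[>] (0 : ℝ) := Ioo_mem_nhdsGT hd0
    filter_upwards [h1] with δ hδ
    rw [Real.dist_eq, sub_zero, abs_of_nonneg (Real.iSup_nonneg fun p => abs_nonneg _)]
    refine lt_of_le_of_lt (Real.iSup_le (fun p => ?_) (by positivity)) (half_lt_self hε)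
    exact (hdd _ _ (lt_of_le_of_lt p.2 hδ.2)).le
  · intro δ y y' hyy
    have hb : BddAbove (range fun p : {p : ℝ × ℝ // |p.1 - p.2| ≤ δ} => |h p.1.1 - h p.1.2|) := by
      refine ⟨2 * H0, ?_⟩
      rintro _ ⟨p, rfl⟩
      calc |h p.1.1 - h p.1.2| ≤ |h p.1.1| + |h p.1.2| := abs_sub _ _
        _ ≤ 2 * H0 := by linarith [hH p.1.1, hH p.1.2]
    have h1 := le_ciSup hb ⟨(y, y'), hyy⟩
    have h2 : h y' - h y ≤ |h y - h y'| := by rw [abs_sub_comm]; exact le_abs_self _
    have h3 : |h y - h y'| ≤ ⨆ p : {p : ℝ × ℝ // |p.1 - p.2| ≤ δ}, |h p.1.1 - h p.1.2| := h1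
    linarith

theorem b1_psid_cont (δ : ℝ) (hδ : 0 < δ) : Continuous (psid δ) :=
  ((psid_props δ hδ).1 0).continuous

theorem b1_int (δ : ℝ) (hδ : 0 < δ) (U : ℂ → ℝ) (hU : LocallyIntegrable U volume) (z : ℂ) :
    Integrable (fun w => psid δ (z - w) * U w) := by
  obtain ⟨-, h2, -, -, h5, -, -⟩ := psid_props δ hδ
  have hc : Continuous (fun w => psid δ (z - w)) :=
    (b1_psid_cont δ hδ).comp (continuous_const.sub continuous_id)
  have hcs : HasCompactSupport (fun w => psid δ (z - w)) := by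
    have h3 : HasCompactSupport (fun w => psid δ (w - z)) := by
      exact h2.comp_homeomorph (Homeomorph.subRight z)
    have h4 : (fun w => psid δ (z - w)) = fun w => psid δ (w - z) := by
      funext w
      rw [← h5 (w - z), neg_sub]
    rw [h4]
    exact h3
  exact hU.integrable_smul_left_of_hasCompactSupport hc hcs

theorem b1_int_psid (δ : ℝ) (hδ : 0 < δ) (z : ℂ) :
    Integrable (fun w => psid δ (z - w)) := by
  obtain ⟨-, h2, -, -, h5, -, -⟩ := psid_props δ hδ
  have h := (b1_psid_cont δ hδ).integrable_of_hasCompactSupport h2 (μ := volume)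
  exact h.comp_sub_left z

theorem b1_near {δ : ℝ} (hδ : 0 < δ) {z w : ℂ} (h : psid δ (z - w) ≠ 0) : ‖z - w‖ < δ := by
  by_contra hcon
  exact h ((psid_props δ hδ).2.2.2.1 _ (not_lt.1 hcon))

/-- TARGET 1: mollified functions stay below `h + osc` -/
theorem moll_upper {ρ : ℝ} {h ω : ℝ → ℝ} (hd : Dat ρ h ω) :
    ∃ κ : ℝ → ℝ, (∀ δ, 0 ≤ κ δ) ∧ Tendsto κ (𝓝[>] 0) (𝓝 0) ∧ ∀ C, ∀ U, ClsS ρ h C ω U →
      ∀ δ ∈ Ioc (0 : ℝ) 1, ∀ z, moll δ U z ≤ h z.im + κ δ := by
  obtain ⟨κ, hκ0, hκl, hκ⟩ := b1_kappa hd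
  refine ⟨κ, hκ0, hκl, fun C U hU δ hδ z => ?_⟩
  have hδ0 : 0 < δ := hδ.1
  obtain ⟨-, -, h3, -, -, h6, -⟩ := psid_props δ hδ0
  have h1 : ∫ w, psid δ (z - w) * (h z.im + κ δ) = h z.im + κ δ := by
    rw [integral_mul_const, integral_sub_left_eq_self (fun w => psid δ w) volume z, h6, one_mul]
  unfold moll
  rw [← h1]
  apply integral_mono_ae (b1_int δ hδ0 U hU.loc z) ((b1_int_psid δ hδ0 z).mul_const _)
  filter_upwards [hU.upper] with w hw
  by_cases h0 : psid δ (z - w) = 0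
  · simp only [h0, zero_mul]; exact le_rfl
  · have hn := b1_near hδ0 h0
    have him : |z.im - w.im| ≤ δ := by
      have := Complex.abs_im_le_norm (z - w)
      rw [Complex.sub_im] at this
      exact this.trans hn.le
    exact mul_le_mul_of_nonneg_left (hw.trans (hκ δ _ _ him)) (h3 _)

/-- a period strip -/
def b1_boxT (x0 : ℝ) (m : ℤ) : Set ℂ :=
  {z | z.re ∈ Icc x0 (x0 + 1) ∧ z.im ∈ Icc (2 * Real.pi * m) (2 * Real.pi * m + 2 * Real.pi)}

theorem b1_boxT_compact (x0 : ℝ) (m : ℤ) : IsCompact (b1_boxT x0 m) := by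
  have : b1_boxT x0 m = Icc x0 (x0 + 1) ×ℂ
      Icc (2 * Real.pi * m) (2 * Real.pi * m + 2 * Real.pi) := rfl
  rw [this]
  exact isCompact_Icc.reProdIm isCompact_Icc

theorem b1_per {ρ : ℝ} {h ω : ℝ → ℝ} {C : ℝ} {U : ℂ → ℝ} (hU : ClsS ρ h C ω U) (m : ℤ) :
    ∀ᵐ z : ℂ, U (z + 2 * Real.pi * m * I) = U z := by
  have hnat : ∀ m : ℕ, ∀ᵐ z : ℂ, U (z + 2 * Real.pi * m * I) = U z := by
    intro m
    induction m with
    | zero => simp
    | succ m ih =>
      have h1 : ∀ᵐ z : ℂ, U ((z + 2 * Real.pi * m * I) + 2 * Real.pi * I) =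
          U (z + 2 * Real.pi * m * I) :=
        (measurePreserving_add_right volume (2 * Real.pi * m * I : ℂ)).quasiMeasurePreserving.ae
          hU.per
      filter_upwards [ih, h1] with z h2 h3
      rw [← h2, ← h3]
      congr 1
      push_cast
      ring
  obtain ⟨k, rfl | rfl⟩ := m.eq_nat_or_neg
  · simpa using hnat k
  · have h1 : ∀ᵐ z : ℂ, U ((z + -(2 * Real.pi * k * I)) + 2 * Real.pi * k * I) =
        U (z + -(2 * Real.pi * k * I)) :=
      (measurePreserving_add_right volume (-(2 * Real.pi * k * I) : ℂ)).quasiMeasurePreserving.ae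
        (hnat k)
    filter_upwards [h1] with z hz
    have e1 : z + -(2 * Real.pi * k * I) + 2 * Real.pi * k * I = z := by ring
    rw [e1] at hz
    rw [hz]
    congr 1
    push_cast
    ring

theorem b1_box {ρ : ℝ} {h ω : ℝ → ℝ} {C : ℝ} {U : ℂ → ℝ} (hU : ClsS ρ h C ω U) (x0 : ℝ) (m : ℤ) :
    ∫ z in b1_boxT x0 m, |U z| ≤ C := by
  have hmp := measurePreserving_add_right volume (2 * Real.pi * m * I : ℂ)
  have hemb : MeasurableEmbedding (fun z : ℂ => z + 2 * Real.pi * m * I) :=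
    (MeasurableEquiv.addRight (2 * Real.pi * m * I : ℂ)).measurableEmbedding
  have h1 := hmp.setIntegral_preimage_emb hemb (fun z => |U z|) (b1_boxT x0 m)
  have h2 : (fun z : ℂ => z + 2 * Real.pi * m * I) ⁻¹' (b1_boxT x0 m) = box x0 (x0 + 1) := by
    ext z
    simp only [mem_preimage, b1_boxT, box, mem_ofPred_eq]
    have e1 : (z + 2 * Real.pi * m * I).re = z.re := by simp
    have e2 : (z + 2 * Real.pi * m * I).im = z.im + 2 * Real.pi * m := by simp
    rw [e1, e2]
    constructor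
    · rintro ⟨h3, h4, h5⟩
      exact ⟨h3, by linarith, by linarith⟩
    · rintro ⟨h3, h4, h5⟩
      exact ⟨h3, by linarith, by linarith⟩
  rw [← h1, h2]
  refine le_trans (le_of_eq ?_) (hU.l1 x0)
  apply integral_congr_ae
  apply ae_restrict_of_ae
  filter_upwards [b1_per hU m] with z hz
  simp only [hz]

/-- integral over a disc of radius two -/
theorem b1_disc {ρ : ℝ} {h ω : ℝ → ℝ} {C : ℝ} {U : ℂ → ℝ} (hU : ClsS ρ h C ω U) (z0 : ℂ) :
    ∫ z in Metric.closedBall z0 2, |U z| ≤ 8 * C := by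
  have h2pi : (0 : ℝ) < 2 * Real.pi := by positivity
  set a : ℝ := z0.re - 2 with ha
  set m : ℤ := ⌊(z0.im - 2) / (2 * Real.pi)⌋ with hm
  have hm1 : 2 * Real.pi * m ≤ z0.im - 2 := by
    have := Int.floor_le ((z0.im - 2) / (2 * Real.pi))
    rw [le_div_iff₀ h2pi] at this
    linarith
  have hm2 : z0.im - 2 < 2 * Real.pi * m + 2 * Real.pi := by
    have := Int.lt_floor_add_one ((z0.im - 2) / (2 * Real.pi))
    rw [div_lt_iff₀ h2pi] at this
    linarith
  have hint : ∀ (x0 : ℝ) (m : ℤ), Integrable ((b1_boxT x0 m).indicator fun z => |U z|) := by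
    intro x0 m
    rw [integrable_indicator_iff (b1_boxT_compact x0 m).isClosed.measurableSet]
    exact (hU.loc.integrableOn_isCompact (b1_boxT_compact x0 m)).norm
  set F : ℂ → ℝ := fun z => ∑ q ∈ Finset.range 4 ×ˢ Finset.range 2,
    (b1_boxT (a + q.1) (m + q.2)).indicator (fun z => |U z|) z with hF
  have hFi : Integrable F := integrable_finsetSum _ fun q _ => hint _ _
  have hFn : ∀ z, 0 ≤ F z := fun z =>
    Finset.sum_nonneg fun q _ => indicator_nonneg (fun _ _ => abs_nonneg _) _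
  have hball : MeasurableSet (Metric.closedBall z0 2) := Metric.isClosed_closedBall.measurableSet
  have hpt : ∀ z ∈ Metric.closedBall z0 2, |U z| ≤ F z := by
    intro z hz
    rw [Metric.mem_closedBall, dist_eq_norm] at hz
    have hre := (Complex.abs_re_le_norm (z - z0)).trans hz
    have him := (Complex.abs_im_le_norm (z - z0)).trans hz
    rw [Complex.sub_re, abs_le] at hre
    rw [Complex.sub_im, abs_le] at him
    have hi : ∃ i ∈ Finset.range 4, z.re ∈ Icc (a + (i : ℕ)) (a + (i : ℕ) + 1) := by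
      rcases le_total z.re (a + 1) with h1 | h1
      · exact ⟨0, by simp, by push_cast; constructor <;> linarith [hre.1]⟩
      · rcases le_total z.re (a + 2) with h2 | h2
        · exact ⟨1, by simp, by push_cast; constructor <;> linarith⟩
        · rcases le_total z.re (a + 3) with h3 | h3
          · exact ⟨2, by simp, by push_cast; constructor <;> linarith⟩
          · exact ⟨3, by simp, by push_cast; constructor <;> linarith [hre.2]⟩
    have hj : ∃ j ∈ Finset.range 2, z.im ∈ Icc (2 * Real.pi * ((m + (j : ℕ) : ℤ) : ℝ))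
        (2 * Real.pi * ((m + (j : ℕ) : ℤ) : ℝ) + 2 * Real.pi) := by
      have hpi := Real.pi_gt_three
      rcases le_total z.im (2 * Real.pi * m + 2 * Real.pi) with h1 | h1
      · exact ⟨0, by simp, by push_cast; constructor <;> linarith [him.1]⟩
      · exact ⟨1, by simp, by push_cast; constructor <;> linarith [him.2]⟩
    obtain ⟨i, hi1, hi2⟩ := hi
    obtain ⟨j, hj1, hj2⟩ := hj
    have hmem : z ∈ b1_boxT (a + (i : ℕ)) (m + (j : ℕ)) := ⟨hi2, hj2⟩
    have h5 := Finset.single_le_sum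
      (f := fun q : ℕ × ℕ => (b1_boxT (a + q.1) (m + q.2)).indicator (fun z => |U z|) z)
      (s := Finset.range 4 ×ˢ Finset.range 2)
      (fun q _ => indicator_nonneg (fun _ _ => abs_nonneg _) _)
      (Finset.mk_mem_product hi1 hj1)
    simp only at h5
    rw [indicator_of_mem hmem] at h5
    exact h5
  have hUi : IntegrableOn (fun z => |U z|) (Metric.closedBall z0 2) :=
    (hU.loc.integrableOn_isCompact (isCompact_closedBall z0 2)).norm
  calc ∫ z in Metric.closedBall z0 2, |U z| ≤ ∫ z in Metric.closedBall z0 2, F z :=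
        setIntegral_mono_on hUi hFi.integrableOn hball hpt
    _ ≤ ∫ z, F z := setIntegral_le_integral hFi (Filter.Eventually.of_forall hFn)
    _ = ∑ q ∈ Finset.range 4 ×ˢ Finset.range 2,
          ∫ z, (b1_boxT (a + q.1) (m + q.2)).indicator (fun z => |U z|) z :=
        integral_finsetSum _ fun q _ => hint _ _
    _ ≤ ∑ q ∈ Finset.range 4 ×ˢ Finset.range 2, C := by
        apply Finset.sum_le_sum
        intro q _
        rw [integral_indicator (b1_boxT_compact _ _).isClosed.measurableSet]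
        exact b1_box hU _ _
    _ = 8 * C := by simp

/-- TARGET 2: local `L¹` bound on unit balls for mollified functions -/
theorem moll_ball_l1 {ρ : ℝ} {h ω : ℝ → ℝ} (hd : Dat ρ h ω) (C : ℝ) :
    ∃ C1 : ℝ, ∀ U, ClsS ρ h C ω U → ∀ δ ∈ Ioc (0 : ℝ) 1, ∀ z0,
      ∫ z in Metric.closedBall z0 1, |moll δ U z| ≤ C1 := by
  refine ⟨8 * C, fun U hU δ hδ z0 => ?_⟩
  have hδ0 : 0 < δ := hδ.1
  obtain ⟨-, hp2, hp3, -, -, hp6, -⟩ := psid_props δ hδ0
  set g : ℂ → ℝ := (Metric.closedBall z0 2).indicator fun z => |U z| with hg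
  have hball : MeasurableSet (Metric.closedBall z0 2) := Metric.isClosed_closedBall.measurableSet
  have hball1 : MeasurableSet (Metric.closedBall z0 1) := Metric.isClosed_closedBall.measurableSet
  have hgi : Integrable g := by
    rw [hg, integrable_indicator_iff hball]
    exact (hU.loc.integrableOn_isCompact (isCompact_closedBall z0 2)).norm
  have hfi : Integrable (psid δ) := (b1_psid_cont δ hδ0).integrable_of_hasCompactSupport hp2
  set cv : ℂ → ℝ := convolution (psid δ) g (ContinuousLinearMap.mul ℝ ℝ) volume with hcv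
  have hcvi : Integrable cv := hfi.integrable_convolution _ hgi
  have hcv2 : ∀ z, cv z = ∫ w, psid δ (z - w) * g w := fun z => convolution_mul_swap
  have hgn : ∀ w, 0 ≤ g w := fun w => indicator_nonneg (fun _ _ => abs_nonneg _) _
  have hcvn : ∀ z, 0 ≤ cv z := fun z => by
    rw [hcv2]
    exact integral_nonneg fun w => mul_nonneg (hp3 _) (hgn w)
  have hint : ∫ z, cv z = ∫ z, g z := by
    rw [hcv, integral_convolution _ hfi hgi, hp6]
    simp
  have hpt : ∀ z ∈ Metric.closedBall z0 1, |moll δ U z| ≤ cv z := by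
    intro z hz
    rw [hcv2]
    unfold moll
    have h1 : (fun w => psid δ (z - w) * g w) = fun w => |psid δ (z - w) * U w| := by
      funext w
      rw [abs_mul, abs_of_nonneg (hp3 _)]
      by_cases h0 : psid δ (z - w) = 0
      · rw [h0, zero_mul, zero_mul]
      · have hn := b1_near hδ0 h0
        have hw : w ∈ Metric.closedBall z0 2 := by
          rw [Metric.mem_closedBall] at hz ⊢
          have h2 : dist w z0 ≤ dist w z + dist z z0 := dist_triangle _ _ _
          have h3 : dist w z = ‖z - w‖ := by rw [dist_comm, dist_eq_norm]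
          linarith [hδ.2]
        rw [hg, indicator_of_mem hw]
    rw [h1]
    have h9 := norm_integral_le_integral_norm (μ := volume) (fun w => psid δ (z - w) * U w)
    simpa only [Real.norm_eq_abs] using h9
  have hmc : Continuous (moll δ U) := (moll_contDiff δ hδ0 U hU.loc 0).continuous
  have hmi : IntegrableOn (fun z => |moll δ U z|) (Metric.closedBall z0 1) :=
    hmc.abs.continuousOn.integrableOn_compact (isCompact_closedBall z0 1)
  calc ∫ z in Metric.closedBall z0 1, |moll δ U z| ≤ ∫ z in Metric.closedBall z0 1, cv z :=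
        setIntegral_mono_on hmi hcvi.integrableOn hball1 hpt
    _ ≤ ∫ z, cv z := setIntegral_le_integral hcvi (Filter.Eventually.of_forall hcvn)
    _ = ∫ z, g z := hint
    _ = ∫ z in Metric.closedBall z0 2, |U z| := by rw [hg, integral_indicator hball]
    _ ≤ 8 * C := b1_disc hU z0

theorem b1_Lop_neg (ρ : ℝ) (u : ℂ → ℝ) (z : ℂ) : Lop ρ (fun z => -u z) z = -Lop ρ u z := by
  have h1 : ∀ v : ℂ → ℝ, dx (fun z => -v z) = fun z => -dx v z := by
    intro v; funext w
    unfold dx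
    rw [fderiv_fun_neg]; rfl
  have h2 : ∀ v : ℂ → ℝ, dy (fun z => -v z) = fun z => -dy v z := by
    intro v; funext w
    unfold dy
    rw [fderiv_fun_neg]; rfl
  unfold Lop
  rw [h1, h1, h2, h2]
  ring

/-- TARGET 3: uniform two-sided bound -/
theorem moll_bdd {ρ : ℝ} {h ω : ℝ → ℝ} (hd : Dat ρ h ω) (C : ℝ) :
    ∃ M δ0 : ℝ, 0 < δ0 ∧ δ0 ≤ 1 ∧ 0 < M ∧ ∀ U, ClsS ρ h C ω U → ∀ δ ∈ Ioc (0 : ℝ) δ0, ∀ z,
      |moll δ U z| ≤ M := by
  obtain ⟨κ, hκ0, hκl, hκ⟩ := moll_upper hd
  obtain ⟨H0, hH0, hH⟩ := b1_bdd hd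
  obtain ⟨C1, hC1⟩ := moll_ball_l1 hd C
  obtain ⟨C', hC', hsub⟩ := sub_bound ρ hd.rho
  have e1 : ∀ᶠ δ in 𝓝[>] (0 : ℝ), κ δ < 1 := hκl.eventually (gt_mem_nhds one_pos)
  have e2 : ∀ᶠ δ in 𝓝[>] (0 : ℝ), ω δ < 1 := hd.omlim.eventually (gt_mem_nhds one_pos)
  have e3 := e1.and e2
  rw [eventually_nhdsWithin_iff, Metric.eventually_nhds_iff] at e3
  obtain ⟨d, hd0, hdd⟩ := e3
  refine ⟨(H0 + 1) + C' * (|C1| + (H0 + 1)), min (d / 2) 1, by positivity, min_le_right _ _,
    by positivity, ?_⟩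
  intro U hU δ hδ z
  have hδ0 : 0 < δ := hδ.1
  have hδ1 : δ ≤ 1 := hδ.2.trans (min_le_right _ _)
  have hδd : δ ≤ d / 2 := hδ.2.trans (min_le_left _ _)
  have hδI : δ ∈ Ioc (0 : ℝ) 1 := ⟨hδ0, hδ1⟩
  obtain ⟨hk1, ho1⟩ := hdd (y := δ) (by
    rw [Real.dist_eq, sub_zero, abs_of_pos hδ0]; linarith) hδ0
  have hup : moll δ U z ≤ H0 + 1 := by
    have h1 := hκ C U hU δ hδI z
    have h2 := (le_abs_self _).trans (hH z.im)
    linarith
  have hlow : -moll δ U z ≤ C' * (|C1| + (H0 + 1)) := by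
    have hcd : ContDiff ℝ 4 (fun z => -moll δ U z) := (moll_contDiff δ hδ0 U hU.loc 4).neg
    have h1 := hsub (fun z => -moll δ U z) hcd (H0 + 1) (by positivity) (by
      intro w hw
      rw [b1_Lop_neg]
      have h2 : ¬ (0 < Lop ρ (moll δ U) w) := by
        intro h3
        have h4 := hU.con δ hδI w h3
        have h5 := (abs_le.1 (hH w.im)).1
        linarith
      have h3 := hU.sub δ hδI w
      linarith) z
    refine h1.trans ?_
    apply mul_le_mul_of_nonneg_left _ hC'.le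
    have h2 : ∫ w in Metric.closedBall z 1, |-moll δ U w| =
        ∫ w in Metric.closedBall z 1, |moll δ U w| := by
      simp only [abs_neg]
    have h3 := hC1 U hU δ hδI z
    rw [h2]
    linarith [le_abs_self C1]
  have hp : 0 ≤ C' * (|C1| + (H0 + 1)) := by positivity
  rw [abs_le]
  constructor <;> linarith

/-- TARGET 4: mollified functions are `2π`-periodic in `y` -/
theorem moll_per {ρ : ℝ} {h ω : ℝ → ℝ} {C : ℝ} {U : ℂ → ℝ} (hU : ClsS ρ h C ω U) (δ : ℝ) (z : ℂ) :
    moll δ U (z + 2 * Real.pi * I) = moll δ U z := by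
  unfold moll
  rw [← integral_add_right_eq_self
    (fun w => psid δ (z + 2 * Real.pi * I - w) * U w) (2 * Real.pi * I : ℂ)]
  apply integral_congr_ae
  filter_upwards [hU.per] with w hw
  simp only [hw]
  congr 2
  ring

end M_B1
end Pool.Agent.Helper758.LS
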