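import Mathlib
import Pool.Agent.Helper758.LSDefs
import Pool.Agent.Helper758.LSDefs2
import Pool.Agent.Helper758.LS_B1
import Pool.Agent.Helper758.LS_MOL

namespace Pool.Agent.Helper758.LS
open MeasureTheory Filter Topology Set Complex
open M_B1 (moll_bdd moll_per)
open M_MOL (moll_contDiff)
namespace M_B2



/-- GIVEN (do not prove): basic facts, proved in other jobs. -/





theorem box_eq_reProdIm (a b : ℝ) : box a b = Icc a b ×ℂ Icc 0 (2 * Real.pi) := by
  ext z
  rw [Complex.mem_reProdIm]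
  rfl

theorem box_compact (a b : ℝ) : IsCompact (box a b) := by
  rw [box_eq_reProdIm]
  exact isCompact_Icc.reProdIm isCompact_Icc

theorem box_intble {f : ℂ → ℝ} (hf : Continuous f) (a b : ℝ) : IntegrableOn f (box a b) :=
  hf.continuousOn.integrableOn_compact (box_compact a b)

theorem box_preimage (a b : ℝ) :
    box a b = Complex.measurableEquivRealProd ⁻¹' (Icc (a, 0) (b, 2 * Real.pi)) := by
  ext z
  simp only [box, mem_ofPred_eq, mem_preimage, Complex.measurableEquivRealProd_apply, mem_Icc,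
    Prod.mk_le_mk]
  tauto

theorem box_volume (a b : ℝ) (hab : a ≤ b) :
    volume.real (box a b) = (b - a) * (2 * Real.pi) := by
  have hpi := Real.pi_pos
  rw [Measure.real, box_preimage, Complex.volume_preserving_equiv_real_prod.measure_preimage
    measurableSet_Icc.nullMeasurableSet, ← Set.Icc_prod_Icc, Measure.volume_eq_prod,
    Measure.prod_prod, Real.volume_Icc, Real.volume_Icc]
  simp only [sub_zero]
  rw [ENNReal.toReal_mul, ENNReal.toReal_ofReal (by linarith), ENNReal.toReal_ofReal (by linarith)]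

theorem box_div (a b : ℝ) (hab : a ≤ b) (A B : ℂ → ℝ) (hA : ContDiff ℝ 1 A) (hB : ContDiff ℝ 1 B)
    (hAa : ∀ z : ℂ, z.re = a → A z = 0) (hAb : ∀ z : ℂ, z.re = b → A z = 0)
    (hBp : ∀ z : ℂ, B (z + 2 * Real.pi * I) = B z) :
    ∫ z in box a b, (dx A z + dy B z) = 0 := by
  have hpi := Real.pi_pos
  have hcA : Continuous (fun z => dx A z) := (hA.continuous_fderiv one_ne_zero).clm_apply
    continuous_const
  have hcB : Continuous (fun z => dy B z) := (hB.continuous_fderiv one_ne_zero).clm_apply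
    continuous_const
  set e : (ℝ × ℝ) ≃L[ℝ] ℂ := equivRealProdCLM.symm with he
  have hexy : ∀ x y : ℝ, e (x, y) = ↑x + ↑y * I := fun x y => mk_eq_add_mul_I x y
  have he₁ : e (1, 0) = 1 := rfl
  have he₂ : e (0, 1) = I := rfl
  have hee : ∀ z : ℂ, e (Complex.measurableEquivRealProd z) = z := by
    intro z
    apply Complex.ext <;> rfl
  have h1 : ∫ z in box a b, (dx A z + dy B z) =
      ∫ p in Icc ((a, 0) : ℝ × ℝ) (b, 2 * Real.pi), (dx A (e p) + dy B (e p)) := by
    rw [← Complex.volume_preserving_equiv_real_prod.setIntegral_preimage_emb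
      Complex.measurableEquivRealProd.measurableEmbedding, ← box_preimage]
    simp only [hee]
  rw [h1]
  have h2 := integral_divergence_prod_Icc_of_hasFDerivAt_of_le (A ∘ e) (B ∘ e)
    (fun p => (fderiv ℝ A (e p)).comp (e : ℝ × ℝ →L[ℝ] ℂ))
    (fun p => (fderiv ℝ B (e p)).comp (e : ℝ × ℝ →L[ℝ] ℂ)) (a, 0) (b, 2 * Real.pi)
    ⟨hab, by positivity⟩ (hA.continuous.comp e.continuous).continuousOn
    (hB.continuous.comp e.continuous).continuousOn
    (fun p _ => (hA.differentiable one_ne_zero (e p)).hasFDerivAt.comp p e.hasFDerivAt)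
    (fun p _ => (hB.differentiable one_ne_zero (e p)).hasFDerivAt.comp p e.hasFDerivAt)
    (by
      refine ContinuousOn.integrableOn_compact isCompact_Icc ?_
      apply Continuous.continuousOn
      have h3 : (fun x : ℝ × ℝ => ((fderiv ℝ A (e x)).comp (e : ℝ × ℝ →L[ℝ] ℂ)) (1, 0) +
          ((fderiv ℝ B (e x)).comp (e : ℝ × ℝ →L[ℝ] ℂ)) (0, 1)) =
          fun p => dx A (e p) + dy B (e p) := by
        ext p
        simp only [ContinuousLinearMap.comp_apply, ContinuousLinearEquiv.coe_coe, he₁, he₂]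
        rfl
      rw [h3]
      exact (hcA.comp e.continuous).add (hcB.comp e.continuous))
  simp only [ContinuousLinearMap.comp_apply, ContinuousLinearEquiv.coe_coe, he₁, he₂] at h2
  have h4 : ∫ p in Icc ((a, 0) : ℝ × ℝ) (b, 2 * Real.pi), (dx A (e p) + dy B (e p)) =
      ∫ x in Icc ((a, 0) : ℝ × ℝ) (b, 2 * Real.pi), ((fderiv ℝ A (e x)) 1 +
        (fderiv ℝ B (e x)) I) := rfl
  rw [h4, h2]
  have h5 : ∀ x : ℝ, (B ∘ e) (x, 2 * Real.pi) = (B ∘ e) (x, 0) := by
    intro x
    simp only [Function.comp_apply, hexy]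
    have := hBp ((x : ℂ) + ((0 : ℝ) : ℂ) * I)
    rw [← this]
    congr 1
    push_cast
    ring
  have h6 : ∀ y : ℝ, (A ∘ e) (b, y) = 0 := fun y => hAb _ (by simp [hexy])
  have h7 : ∀ y : ℝ, (A ∘ e) (a, y) = 0 := fun y => hAa _ (by simp [hexy])
  simp only [h5, h6, h7]
  simp

theorem dx_mul {f g : ℂ → ℝ} {z : ℂ} (hf : DifferentiableAt ℝ f z)
    (hg : DifferentiableAt ℝ g z) :
    dx (fun w => f w * g w) z = f z * dx g z + g z * dx f z := by
  unfold dx
  rw [fderiv_fun_mul hf hg]
  simp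

theorem dy_mul {f g : ℂ → ℝ} {z : ℂ} (hf : DifferentiableAt ℝ f z)
    (hg : DifferentiableAt ℝ g z) :
    dy (fun w => f w * g w) z = f z * dy g z + g z * dy f z := by
  unfold dy
  rw [fderiv_fun_mul hf hg]
  simp

theorem dx_add {f g : ℂ → ℝ} {z : ℂ} (hf : DifferentiableAt ℝ f z)
    (hg : DifferentiableAt ℝ g z) :
    dx (fun w => f w + g w) z = dx f z + dx g z := by
  unfold dx
  rw [fderiv_fun_add hf hg]
  simp

theorem dx_sub {f g : ℂ → ℝ} {z : ℂ} (hf : DifferentiableAt ℝ f z)
    (hg : DifferentiableAt ℝ g z) :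
    dx (fun w => f w - g w) z = dx f z - dx g z := by
  unfold dx
  rw [fderiv_fun_sub hf hg]
  simp

theorem dx_re {p : ℝ → ℝ} {p' : ℝ} {z : ℂ} (hp : HasDerivAt p p' z.re) :
    dx (fun w => p w.re) z = p' := by
  unfold dx
  have h := hp.hasFDerivAt.comp z Complex.reCLM.hasFDerivAt
  have h2 : HasFDerivAt (fun w : ℂ => p w.re) _ z := h
  rw [h2.fderiv]
  simp

theorem dy_re {p : ℝ → ℝ} {p' : ℝ} {z : ℂ} (hp : HasDerivAt p p' z.re) :
    dy (fun w => p w.re) z = 0 := by
  unfold dy
  have h := hp.hasFDerivAt.comp z Complex.reCLM.hasFDerivAt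
  have h2 : HasFDerivAt (fun w : ℂ => p w.re) _ z := h
  rw [h2.fderiv]
  simp

/-- polynomial weight -/
noncomputable def pw (a b t : ℝ) : ℝ := (t - a) ^ 2 * (b - t) ^ 2
noncomputable def pw1 (a b t : ℝ) : ℝ := 2 * (t - a) * (b - t) ^ 2 - 2 * (t - a) ^ 2 * (b - t)
noncomputable def pw2 (a b t : ℝ) : ℝ :=
  2 * (b - t) ^ 2 - 8 * (t - a) * (b - t) + 2 * (t - a) ^ 2

theorem pw_deriv (a b t : ℝ) : HasDerivAt (pw a b) (pw1 a b t) t := by
  unfold pw pw1
  have h1 : HasDerivAt (fun t : ℝ => t - a) 1 t := (hasDerivAt_id t).sub_const a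
  have h2 : HasDerivAt (fun t : ℝ => b - t) (-1) t := (hasDerivAt_id t).const_sub b
  have h3 := (h1.pow 2).mul (h2.pow 2)
  refine h3.congr_deriv ?_
  simp
  ring

theorem pw1_deriv (a b t : ℝ) : HasDerivAt (pw1 a b) (pw2 a b t) t := by
  unfold pw1 pw2
  have h1 : HasDerivAt (fun t : ℝ => t - a) 1 t := (hasDerivAt_id t).sub_const a
  have h2 : HasDerivAt (fun t : ℝ => b - t) (-1) t := (hasDerivAt_id t).const_sub b
  have h3 := ((h1.const_mul 2).mul (h2.pow 2)).sub (((h1.pow 2).const_mul 2).mul h2)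
  refine h3.congr_deriv ?_
  simp
  ring

/-- TARGET 1: energy estimate for smooth bounded periodic `u` with `Lu ≥ 0` -/
theorem energy_bound (ρ : ℝ) (hρ : 0 < ρ) : ∃ C : ℝ, 0 < C ∧ ∀ u : ℂ → ℝ, ContDiff ℝ 4 u →
    (∀ z : ℂ, u (z + 2 * Real.pi * I) = u z) → (∀ z, 0 ≤ Lop ρ u z) → ∀ M : ℝ, 0 ≤ M → ∀ x0 : ℝ,
      (∀ z : ℂ, x0 - 1 ≤ z.re → z.re ≤ x0 + 2 → |u z| ≤ M) →
      (∫ z in box x0 (x0 + 1), (dx u z ^ 2 + dy u z ^ 2) ≤ C * M ^ 2) ∧
      (∫ z in box x0 (x0 + 1), Lop ρ u z ≤ C * M) := by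
  have hpi := Real.pi_pos
  set K : ℝ := 81 * ρ ^ 2 + 216 * ρ + 108 with hK
  have hKpos : 0 < K := by positivity
  refine ⟨3 * Real.pi * K, by positivity, ?_⟩
  intro u hu hper hm M hM x0 hbd
  set a := x0 - 1 with ha
  set b := x0 + 2 with hb
  have hab : a ≤ b := by linarith
  -- regularity
  have hux : ContDiff ℝ 3 (dx u) := by
    have := hu.fderiv_right (m := 3) (by norm_num)
    exact this.clm_apply contDiff_const
  have huy : ContDiff ℝ 3 (dy u) := by
    have := hu.fderiv_right (m := 3) (by norm_num)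
    exact this.clm_apply contDiff_const
  have huxx : ContDiff ℝ 2 (dx (dx u)) := by
    have := hux.fderiv_right (m := 2) (by norm_num)
    exact this.clm_apply contDiff_const
  have huyy : ContDiff ℝ 2 (dy (dy u)) := by
    have := huy.fderiv_right (m := 2) (by norm_num)
    exact this.clm_apply contDiff_const
  have hdu : ∀ z, DifferentiableAt ℝ u z := fun z => hu.differentiable (by norm_num) z
  have hdux : ∀ z, DifferentiableAt ℝ (dx u) z := fun z => hux.differentiable (by norm_num) z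
  have hduy : ∀ z, DifferentiableAt ℝ (dy u) z := fun z => huy.differentiable (by norm_num) z
  -- the weights as functions of z
  set W : ℂ → ℝ := fun z => pw a b z.re with hW
  set W1 : ℂ → ℝ := fun z => pw1 a b z.re with hW1
  set W2 : ℂ → ℝ := fun z => pw2 a b z.re with hW2
  have hWc : ContDiff ℝ 4 W := by
    have : ContDiff ℝ 4 (fun z : ℂ => z.re) := Complex.reCLM.contDiff
    simp only [hW, pw]
    exact ((this.sub contDiff_const).pow 2).mul ((contDiff_const.sub this).pow 2)
  have hW1c : ContDiff ℝ 4 W1 := by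
    have : ContDiff ℝ 4 (fun z : ℂ => z.re) := Complex.reCLM.contDiff
    simp only [hW1, pw1]
    fun_prop
  have hW2c : ContDiff ℝ 4 W2 := by
    have : ContDiff ℝ 4 (fun z : ℂ => z.re) := Complex.reCLM.contDiff
    simp only [hW2, pw2]
    fun_prop
  have hdW : ∀ z, DifferentiableAt ℝ W z := fun z => hWc.differentiable (by norm_num) z
  have hdW1 : ∀ z, DifferentiableAt ℝ W1 z := fun z => hW1c.differentiable (by norm_num) z
  have hWx : ∀ z, dx W z = W1 z := fun z => dx_re (pw_deriv a b z.re)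
  have hW1x : ∀ z, dx W1 z = W2 z := fun z => dx_re (pw1_deriv a b z.re)
  have hWy : ∀ z, dy W z = 0 := fun z => dy_re (pw_deriv a b z.re)
  have hWa : ∀ z : ℂ, z.re = a → W z = 0 := fun z hz => by simp [hW, pw, hz]
  have hWb : ∀ z : ℂ, z.re = b → W z = 0 := fun z hz => by simp [hW, pw, hz]
  have hW1a : ∀ z : ℂ, z.re = a → W1 z = 0 := fun z hz => by simp [hW1, pw1, hz]
  have hW1b : ∀ z : ℂ, z.re = b → W1 z = 0 := fun z hz => by simp [hW1, pw1, hz]
  have hWper : ∀ z : ℂ, W (z + 2 * Real.pi * I) = W z := by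
    intro z
    simp [hW]
  have hdyper : ∀ z : ℂ, dy u (z + 2 * Real.pi * I) = dy u z := by
    intro z
    have h1 : (fun w : ℂ => u (w + 2 * Real.pi * I)) = u := funext hper
    have h2 : fderiv ℝ (fun w : ℂ => u (w + 2 * Real.pi * I)) z =
        fderiv ℝ u (z + 2 * Real.pi * I) := fderiv_comp_add_right _
    rw [h1] at h2
    simp only [dy, h2]
  have hmc : Continuous (Lop ρ u) := by
    unfold Lop
    exact ((huxx.continuous.add (hux.continuous.const_mul (2 * ρ) : Continuous _)).add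
      huyy.continuous).add (continuous_const.mul hu.continuous)
  -- first identity
  have I1 : ∫ z in box a b, W z * Lop ρ u z =
      ∫ z in box a b, (ρ ^ 2 * W z - 2 * ρ * W1 z + W2 z) * u z := by
    have h1 := box_div a b hab (fun z => W z * dx u z - W1 z * u z + 2 * ρ * (W z * u z))
      (fun z => W z * dy u z)
      (by
        have e1 := (hWc.of_le (by norm_num : (1:WithTop ℕ∞) ≤ 4)).mul
          (hux.of_le (by norm_num : (1:WithTop ℕ∞) ≤ 3))
        have e2 := (hW1c.of_le (by norm_num : (1:WithTop ℕ∞) ≤ 4)).mul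
          (hu.of_le (by norm_num : (1:WithTop ℕ∞) ≤ 4))
        have e3 := (hWc.of_le (by norm_num : (1:WithTop ℕ∞) ≤ 4)).mul
          (hu.of_le (by norm_num : (1:WithTop ℕ∞) ≤ 4))
        exact (e1.sub e2).add (contDiff_const.mul e3))
      ((hWc.of_le (by norm_num : (1:WithTop ℕ∞) ≤ 4)).mul
          (huy.of_le (by norm_num : (1:WithTop ℕ∞) ≤ 3)))
      (fun z hz => by simp only [hWa z hz, hW1a z hz]; ring)
      (fun z hz => by simp only [hWb z hz, hW1b z hz]; ring)
      (fun z => by simp only [hWper, hdyper])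
    have h2 : ∀ z, dx (fun z => W z * dx u z - W1 z * u z + 2 * ρ * (W z * u z)) z +
        dy (fun z => W z * dy u z) z =
        W z * Lop ρ u z - (ρ ^ 2 * W z - 2 * ρ * W1 z + W2 z) * u z := by
      intro z
      have d1 : DifferentiableAt ℝ (fun z => W z * dx u z) z := (hdW z).mul (hdux z)
      have d2 : DifferentiableAt ℝ (fun z => W1 z * u z) z := (hdW1 z).mul (hdu z)
      have d3 : DifferentiableAt ℝ (fun z => W z * u z) z := (hdW z).mul (hdu z)
      have d4 : DifferentiableAt ℝ (fun z => 2 * ρ * (W z * u z)) z :=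
        (differentiableAt_const (2 * ρ)).mul d3
      have e0 : dx (fun z => 2 * ρ * (W z * u z)) z = 2 * ρ * dx (fun z => W z * u z) z := by
        unfold dx
        rw [fderiv_const_mul d3]
        simp
      have d12 : DifferentiableAt ℝ (fun z => W z * dx u z - W1 z * u z) z := d1.sub d2
      rw [dx_add d12 d4, dx_sub d1 d2, dx_mul (hdW z) (hdux z), dx_mul (hdW1 z) (hdu z),
        e0, dx_mul (hdW z) (hdu z), dy_mul (hdW z) (hduy z), hWx, hW1x, hWy]
      unfold Lop
      ring
    simp only [h2] at h1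
    have i1 : IntegrableOn (fun z => W z * Lop ρ u z) (box a b) :=
      box_intble (hWc.continuous.mul hmc) a b
    have i2 : IntegrableOn (fun z => (ρ ^ 2 * W z - 2 * ρ * W1 z + W2 z) * u z) (box a b) :=
      box_intble (by
        have c1 := hWc.continuous
        have c2 := hW1c.continuous
        have c3 := hW2c.continuous
        have c4 := hu.continuous
        fun_prop) a b
    rw [integral_sub i1 i2] at h1
    linarith
  -- second identity
  have I2 : ∫ z in box a b, W z * (dx u z ^ 2 + dy u z ^ 2) =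
      ∫ z in box a b, ((ρ ^ 2 * W z - ρ * W1 z + W2 z / 2) * u z ^ 2 - u z * (W z * Lop ρ u z)) := by
    have h1 := box_div a b hab
      (fun z => W z * (u z * dx u z) - 1 / 2 * (W1 z * (u z * u z)) + ρ * (W z * (u z * u z)))
      (fun z => W z * (u z * dy u z))
      (by
        have e1 := (hWc.of_le (by norm_num : (1:WithTop ℕ∞) ≤ 4)).mul
          ((hu.of_le (by norm_num : (1:WithTop ℕ∞) ≤ 4)).mul
          (hux.of_le (by norm_num : (1:WithTop ℕ∞) ≤ 3)))
        have e2 := (hW1c.of_le (by norm_num : (1:WithTop ℕ∞) ≤ 4)).mul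
          ((hu.of_le (by norm_num : (1:WithTop ℕ∞) ≤ 4)).mul
          (hu.of_le (by norm_num : (1:WithTop ℕ∞) ≤ 4)))
        have e3 := (hWc.of_le (by norm_num : (1:WithTop ℕ∞) ≤ 4)).mul
          ((hu.of_le (by norm_num : (1:WithTop ℕ∞) ≤ 4)).mul
          (hu.of_le (by norm_num : (1:WithTop ℕ∞) ≤ 4)))
        exact (e1.sub (contDiff_const.mul e2)).add (contDiff_const.mul e3))
      ((hWc.of_le (by norm_num : (1:WithTop ℕ∞) ≤ 4)).mul
          ((hu.of_le (by norm_num : (1:WithTop ℕ∞) ≤ 4)).mul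
          (huy.of_le (by norm_num : (1:WithTop ℕ∞) ≤ 3))))
      (fun z hz => by simp only [hWa z hz, hW1a z hz]; ring)
      (fun z hz => by simp only [hWb z hz, hW1b z hz]; ring)
      (fun z => by simp only [hWper, hdyper, hper])
    have h2 : ∀ z, dx (fun z => W z * (u z * dx u z) - 1 / 2 * (W1 z * (u z * u z)) +
        ρ * (W z * (u z * u z))) z + dy (fun z => W z * (u z * dy u z)) z =
        W z * (dx u z ^ 2 + dy u z ^ 2) -
        ((ρ ^ 2 * W z - ρ * W1 z + W2 z / 2) * u z ^ 2 - u z * (W z * Lop ρ u z)) := by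
      intro z
      have d0 : DifferentiableAt ℝ (fun z => u z * dx u z) z := (hdu z).mul (hdux z)
      have d0' : DifferentiableAt ℝ (fun z => u z * dy u z) z := (hdu z).mul (hduy z)
      have d00 : DifferentiableAt ℝ (fun z => u z * u z) z := (hdu z).mul (hdu z)
      have d1 : DifferentiableAt ℝ (fun z => W z * (u z * dx u z)) z := (hdW z).mul d0
      have d2' : DifferentiableAt ℝ (fun z => W1 z * (u z * u z)) z := (hdW1 z).mul d00
      have d2 : DifferentiableAt ℝ (fun z => 1 / 2 * (W1 z * (u z * u z))) z :=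
        (differentiableAt_const (1 / 2 : ℝ)).mul d2'
      have d3 : DifferentiableAt ℝ (fun z => W z * (u z * u z)) z := (hdW z).mul d00
      have d4 : DifferentiableAt ℝ (fun z => ρ * (W z * (u z * u z))) z :=
        (differentiableAt_const ρ).mul d3
      have e0 : dx (fun z => ρ * (W z * (u z * u z))) z = ρ * dx (fun z => W z * (u z * u z)) z := by
        unfold dx
        rw [fderiv_const_mul d3]
        simp
      have e1 : dx (fun z => 1 / 2 * (W1 z * (u z * u z))) z =
          1 / 2 * dx (fun z => W1 z * (u z * u z)) z := by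
        unfold dx
        rw [fderiv_const_mul d2']
        simp
      have d12 : DifferentiableAt ℝ (fun z => W z * (u z * dx u z) -
        1 / 2 * (W1 z * (u z * u z))) z := d1.sub d2
      rw [dx_add d12 d4, dx_sub d1 d2, dx_mul (hdW z) d0, dx_mul (hdu z) (hdux z), e0, e1,
        dx_mul (hdW1 z) d00, dx_mul (hdW z) d00, dx_mul (hdu z) (hdu z), dy_mul (hdW z) d0',
        dy_mul (hdu z) (hduy z), hWx, hW1x, hWy]
      unfold Lop
      ring
    simp only [h2] at h1
    have c1 := hWc.continuous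
    have c2 := hW1c.continuous
    have c3 := hW2c.continuous
    have c4 := hu.continuous
    have c5 := hux.continuous
    have c6 := huy.continuous
    have i1 : IntegrableOn (fun z => W z * (dx u z ^ 2 + dy u z ^ 2)) (box a b) :=
      box_intble (by fun_prop) a b
    have i2 : IntegrableOn (fun z => (ρ ^ 2 * W z - ρ * W1 z + W2 z / 2) * u z ^ 2 -
        u z * (W z * Lop ρ u z)) (box a b) := box_intble (by fun_prop) a b
    rw [integral_sub i1 i2] at h1
    linarith
  have c1 := hWc.continuous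
  have c2 := hW1c.continuous
  have c3 := hW2c.continuous
  have c4 := hu.continuous
  have c5 := hux.continuous
  have c6 := huy.continuous
  have hmeas : MeasurableSet (box a b) := (box_compact a b).measurableSet
  have hsub : box x0 (x0 + 1) ⊆ box a b := by
    intro z hz
    obtain ⟨hz1, hz2⟩ := hz
    exact ⟨⟨by linarith [hz1.1], by linarith [hz1.2]⟩, hz2⟩
  have hvol := box_volume a b hab
  have hvol' : volume.real (box a b) = 6 * Real.pi := by
    rw [hvol, ha, hb]; ring
  -- weight bounds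
  have hWnn : ∀ z, 0 ≤ W z := fun z => by simp only [hW, pw]; positivity
  have hWbd : ∀ z ∈ box a b, |W z| ≤ 81 ∧ |W1 z| ≤ 108 ∧ |W2 z| ≤ 108 := by
    intro z hz
    obtain ⟨⟨h1, h2⟩, -⟩ := hz
    have h3 : 0 ≤ z.re - a := by linarith
    have h4 : 0 ≤ b - z.re := by linarith
    have h5 : (z.re - a) + (b - z.re) = 3 := by rw [ha, hb]; ring
    simp only [hW, hW1, hW2, pw, pw1, pw2]
    set s := z.re - a
    set t := b - z.re
    have hs : s ≤ 3 := by linarith
    have ht : t ≤ 3 := by linarith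
    have hs2 : s ^ 2 ≤ 9 := by nlinarith
    have ht2 : t ^ 2 ≤ 9 := by nlinarith
    have hst : s * t ≤ 9 := by nlinarith
    have hst0 : 0 ≤ s * t := mul_nonneg h3 h4
    refine ⟨?_, ?_, ?_⟩
    · rw [abs_le]
      constructor
      · have : 0 ≤ s ^ 2 * t ^ 2 := by positivity
        linarith
      · nlinarith [sq_nonneg s, sq_nonneg t]
    · have e : 2 * s * t ^ 2 - 2 * s ^ 2 * t = 2 * (s * t) * (t - s) := by ring
      rw [e, abs_le]
      constructor <;> nlinarith
    · rw [abs_le]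
      constructor <;> nlinarith
  have hWlow : ∀ z ∈ box x0 (x0 + 1), 4 ≤ W z := by
    intro z hz
    obtain ⟨⟨h1, h2⟩, -⟩ := hz
    simp only [hW, pw]
    have h3 : 1 ≤ z.re - a := by linarith
    have h4 : 1 ≤ b - z.re := by linarith
    have h5 : (z.re - a) + (b - z.re) = 3 := by rw [ha, hb]; ring
    set s := z.re - a
    set t := b - z.re
    have h6 : 2 ≤ s * t := by nlinarith
    have h7 : s ^ 2 * t ^ 2 = (s * t) ^ 2 := by ring
    rw [h7]
    nlinarith
  have hubd : ∀ z ∈ box a b, |u z| ≤ M := fun z hz => hbd z hz.1.1 hz.1.2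
  have hcoef : ∀ z ∈ box a b, |ρ ^ 2 * W z - 2 * ρ * W1 z + W2 z| ≤ K := by
    intro z hz
    obtain ⟨h1, h2, h3⟩ := hWbd z hz
    calc |ρ ^ 2 * W z - 2 * ρ * W1 z + W2 z| ≤ |ρ ^ 2 * W z| + |2 * ρ * W1 z| + |W2 z| := by
          refine (abs_add_le _ _).trans ?_
          gcongr
          exact abs_sub _ _
      _ = ρ ^ 2 * |W z| + 2 * ρ * |W1 z| + |W2 z| := by
          rw [abs_mul, abs_mul, abs_of_pos (by positivity : (0:ℝ) < ρ ^ 2),
            abs_of_pos (by positivity : (0:ℝ) < 2 * ρ)]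
      _ ≤ ρ ^ 2 * 81 + 2 * ρ * 108 + 108 := by gcongr
      _ = K := by rw [hK]; ring
  have hcoef2 : ∀ z ∈ box a b, |ρ ^ 2 * W z - ρ * W1 z + W2 z / 2| ≤ K := by
    intro z hz
    obtain ⟨h1, h2, h3⟩ := hWbd z hz
    calc |ρ ^ 2 * W z - ρ * W1 z + W2 z / 2| ≤ |ρ ^ 2 * W z| + |ρ * W1 z| + |W2 z / 2| := by
          refine (abs_add_le _ _).trans ?_
          gcongr
          exact abs_sub _ _
      _ = ρ ^ 2 * |W z| + ρ * |W1 z| + |W2 z| / 2 := by
          rw [abs_mul, abs_mul, abs_div, abs_of_pos (by positivity : (0:ℝ) < ρ ^ 2),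
            abs_of_pos hρ, abs_of_pos (by norm_num : (0:ℝ) < 2)]
      _ ≤ ρ ^ 2 * 81 + ρ * 108 + 108 / 2 := by gcongr
      _ ≤ K := by rw [hK]; nlinarith
  have hconst : ∀ c : ℝ, ∫ z in box a b, c = c * (6 * Real.pi) := by
    intro c
    rw [setIntegral_const, hvol', smul_eq_mul, mul_comm]
  have hA : ∫ z in box a b, W z * Lop ρ u z ≤ 6 * Real.pi * K * M := by
    rw [I1]
    calc ∫ z in box a b, (ρ ^ 2 * W z - 2 * ρ * W1 z + W2 z) * u z
        ≤ ∫ z in box a b, K * M := by
          refine setIntegral_mono_on (box_intble (by fun_prop) a b)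
            (box_intble continuous_const a b) hmeas ?_
          intro z hz
          refine (le_abs_self _).trans ?_
          rw [abs_mul]
          exact mul_le_mul (hcoef z hz) (hubd z hz) (abs_nonneg _) hKpos.le
      _ = 6 * Real.pi * K * M := by rw [hconst]; ring
  have hB : ∫ z in box a b, W z * (dx u z ^ 2 + dy u z ^ 2) ≤ 12 * Real.pi * K * M ^ 2 := by
    rw [I2]
    calc ∫ z in box a b, ((ρ ^ 2 * W z - ρ * W1 z + W2 z / 2) * u z ^ 2 - u z * (W z * Lop ρ u z))
        ≤ ∫ z in box a b, (K * M ^ 2 + M * (W z * Lop ρ u z)) := by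
          refine setIntegral_mono_on (box_intble (by fun_prop) a b)
            (box_intble (by fun_prop) a b) hmeas ?_
          intro z hz
          have h1 : (ρ ^ 2 * W z - ρ * W1 z + W2 z / 2) * u z ^ 2 ≤ K * M ^ 2 := by
            have h2 := hcoef2 z hz
            have h3 := hubd z hz
            have h4 : u z ^ 2 ≤ M ^ 2 := sq_le_sq' (by linarith [(abs_le.mp h3).1])
              (abs_le.mp h3).2
            have h5 := (abs_le.mp h2).2
            calc _ ≤ K * u z ^ 2 := mul_le_mul_of_nonneg_right h5 (sq_nonneg _)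
              _ ≤ K * M ^ 2 := mul_le_mul_of_nonneg_left h4 hKpos.le
          have h6 : 0 ≤ W z * Lop ρ u z := mul_nonneg (hWnn z) (hm z)
          have h7 : -(u z * (W z * Lop ρ u z)) ≤ M * (W z * Lop ρ u z) := by
            rw [← neg_mul]
            apply mul_le_mul_of_nonneg_right _ h6
            linarith [(abs_le.mp (hubd z hz)).1]
          linarith
      _ = K * M ^ 2 * (6 * Real.pi) + M * ∫ z in box a b, W z * Lop ρ u z := by
          rw [integral_add (box_intble continuous_const a b) (box_intble (by fun_prop) a b),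
            hconst, integral_const_mul]
      _ ≤ K * M ^ 2 * (6 * Real.pi) + M * (6 * Real.pi * K * M) := by
          gcongr
      _ = 12 * Real.pi * K * M ^ 2 := by ring
  have hfin : ∀ g : ℂ → ℝ, Continuous g → (∀ z, 0 ≤ g z) →
      4 * ∫ z in box x0 (x0 + 1), g z ≤ ∫ z in box a b, W z * g z := by
    intro g hg hg0
    have hgW : Continuous (fun z => W z * g z) := c1.mul hg
    calc 4 * ∫ z in box x0 (x0 + 1), g z = ∫ z in box x0 (x0 + 1), 4 * g z := by
          rw [integral_const_mul]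
      _ ≤ ∫ z in box x0 (x0 + 1), W z * g z := by
          refine setIntegral_mono_on (box_intble (continuous_const.mul hg) _ _)
            (box_intble hgW _ _) (box_compact _ _).measurableSet ?_
          intro z hz
          exact mul_le_mul_of_nonneg_right (hWlow z hz) (hg0 z)
      _ ≤ ∫ z in box a b, W z * g z := by
          refine setIntegral_mono_set (box_intble hgW a b) ?_ hsub.eventuallyLE
          exact Eventually.of_forall fun z => mul_nonneg (hWnn z) (hg0 z)
  constructor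
  · have h1 := hfin (fun z => dx u z ^ 2 + dy u z ^ 2) (by fun_prop) (fun z => by positivity)
    linarith
  · have h1 := hfin (Lop ρ u) hmc hm
    have h2 : 0 ≤ Real.pi * K * M := by positivity
    linarith

/-- TARGET 2 -/
theorem grad_bdd {ρ : ℝ} {h ω : ℝ → ℝ} (hd : Dat ρ h ω) (C : ℝ) :
    ∃ M2 δ0 : ℝ, 0 < δ0 ∧ δ0 ≤ 1 ∧ 0 < M2 ∧ ∀ U, ClsS ρ h C ω U → ∀ δ ∈ Ioc (0 : ℝ) δ0, ∀ x0 : ℝ,
      (∫ z in box x0 (x0 + 1), (dx (moll δ U) z ^ 2 + dy (moll δ U) z ^ 2) ≤ M2) ∧
      (∫ z in box x0 (x0 + 1), Lop ρ (moll δ U) z ≤ M2) := by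
  obtain ⟨M, δ0, hδ0, hδ1, hM, H⟩ := moll_bdd hd C
  obtain ⟨K, hK, HE⟩ := energy_bound ρ hd.rho
  refine ⟨K * M ^ 2 + K * M, δ0, hδ0, hδ1, by positivity, ?_⟩
  intro U hU δ hδ x0
  obtain ⟨h1, h2⟩ := HE (moll δ U) (moll_contDiff δ hδ.1 U hU.loc 4) (moll_per hU δ)
    (hU.sub δ ⟨hδ.1, hδ.2.trans hδ1⟩) M hM.le x0 (fun z _ _ => H U hU δ hδ z)
  have h3 : 0 ≤ K * M := by positivity
  have h4 : 0 ≤ K * M ^ 2 := by positivity
  exact ⟨by linarith, by linarith⟩

end M_B2
end Pool.Agent.Helper758.LS
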