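import Mathlib
import Pool.Agent.Helper758.LSDefs
import Pool.Agent.Helper758.LSDefs2
import Pool.Agent.Helper758.LS_B1
import Pool.Agent.Helper758.LS_B2
import Pool.Agent.Helper758.LS_MOL

namespace Pool.Agent.Helper758.LS
open MeasureTheory Filter Topology Set Complex
open M_B1 (moll_bdd moll_per moll_upper)
open M_B2 (grad_bdd)
open M_MOL (moll_comm moll_contDiff moll_tendsto_l1 psid_props)
namespace M_B3














namespace B3

section tools

theorem isCompact_box (a b : ℝ) : IsCompact (box a b) := by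
  have h1 : box a b = (Icc a b) ×ℂ (Icc 0 (2 * Real.pi)) := by
    ext z; simp [box, Complex.mem_reProdIm]
  rw [h1]
  exact isCompact_Icc.reProdIm isCompact_Icc

theorem integrableOn_box {f : ℂ → ℝ} (hf : Continuous f) (a b : ℝ) : IntegrableOn f (box a b) := 
  hf.continuousOn.integrableOn_compact (isCompact_box a b)

theorem measurableSet_box (a b : ℝ) : MeasurableSet (box a b) := (isCompact_box a b).measurableSet

theorem box_integral {a b : ℝ} (hab : a ≤ b) {f : ℂ → ℝ} (hf : Continuous f) :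
    ∫ z in box a b, f z = ∫ x in a..b, ∫ y in (0:ℝ)..(2 * Real.pi), f (x + y * I) := by
  have hpi : (0 : ℝ) ≤ 2 * Real.pi := by positivity
  have h1 : box a b = Complex.measurableEquivRealProd ⁻¹' (Icc a b ×ˢ Icc 0 (2 * Real.pi)) := by
    ext z
    simp only [box, Complex.measurableEquivRealProd_apply, mem_preimage, mem_prod, Set.mem_ofPred_eq]
  have h2 : ∀ z, f z = (fun p : ℝ × ℝ => f (p.1 + p.2 * I)) (Complex.measurableEquivRealProd z) := by
    intro z
    have : (z.re : ℂ) + z.im * I = z := Complex.re_add_im z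
    show f z = f (z.re + z.im * I)
    rw [this]
  rw [h1]
  have h3 : (∫ z in Complex.measurableEquivRealProd ⁻¹' (Icc a b ×ˢ Icc 0 (2 * Real.pi)), f z) = 
      ∫ z in Complex.measurableEquivRealProd ⁻¹' (Icc a b ×ˢ Icc 0 (2 * Real.pi)), 
        (fun p : ℝ × ℝ => f (p.1 + p.2 * I)) (Complex.measurableEquivRealProd z) := by
    congr 1; funext z; exact h2 z
  have h4 := Complex.volume_preserving_equiv_real_prod.setIntegral_preimage_emb Complex.measurableEquivRealProd.measurableEmbedding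
    (fun p : ℝ × ℝ => f (p.1 + p.2 * I)) (Icc a b ×ˢ Icc 0 (2 * Real.pi))
  refine h3.trans (h4.trans ?_)
  rw [Measure.volume_eq_prod, setIntegral_prod, intervalIntegral.integral_of_le hab, ← integral_Icc_eq_integral_Ioc]
  · refine setIntegral_congr_fun measurableSet_Icc fun x _ => ?_
    simp only
    rw [intervalIntegral.integral_of_le hpi, ← integral_Icc_eq_integral_Ioc]
  · refine ContinuousOn.integrableOn_compact (isCompact_Icc.prod isCompact_Icc) (Continuous.continuousOn ?_)
    exact hf.comp (by fun_prop)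

theorem box_integral' {a b : ℝ} (hab : a ≤ b) {f : ℂ → ℝ} (hf : Continuous f) :
    ∫ z in box a b, f z = ∫ y in (0:ℝ)..(2 * Real.pi), ∫ x in a..b, f (x + y * I) := by
  rw [box_integral hab hf, intervalIntegral_intervalIntegral_swap]
  have hc : Continuous (Function.uncurry fun x y : ℝ => f (x + y * I)) := hf.comp (by fun_prop)
  exact (hc.continuousOn.integrableOn_compact (isCompact_uIcc.prod isCompact_uIcc)).mono_set 
    (prod_mono uIoc_subset_uIcc uIoc_subset_uIcc)

/-- shifting a periodic function -/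
theorem box_shift {a b : ℝ} (hab : a ≤ b) {f : ℂ → ℝ} (hf : Continuous f) (hper : ∀ z, f (z + 2 * Real.pi * I) = f z) (p : ℂ) :
    ∫ z in box a b, f (z - p) = ∫ z in box (a - p.re) (b - p.re), f z := by
  have hf' : Continuous fun z => f (z - p) := hf.comp (by fun_prop)
  rw [box_integral hab hf', box_integral (by linarith) hf]
  have h1 : ∀ x : ℝ, ∫ y in (0:ℝ)..(2 * Real.pi), f (x + y * I - p) = ∫ y in (0:ℝ)..(2 * Real.pi), f (((x - p.re : ℝ) : ℂ) + y * I) := by
    intro x
    have e1 : ∀ y : ℝ, f (x + y * I - p) = (fun y : ℝ => f (((x - p.re : ℝ) : ℂ) + y * I)) (y - p.im) := by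
      intro y
      show f _ = f _
      congr 1
      apply Complex.ext <;> simp
    simp_rw [e1]
    rw [intervalIntegral.integral_comp_sub_right (fun y : ℝ => f (((x - p.re : ℝ) : ℂ) + y * I))]
    have hperiod : Function.Periodic (fun y : ℝ => f (((x - p.re : ℝ) : ℂ) + y * I)) (2 * Real.pi) := by
      intro y
      show f _ = f _
      rw [← hper (((x - p.re : ℝ) : ℂ) + y * I)]
      congr 1
      push_cast
      ring
    have e2 := hperiod.intervalIntegral_add_eq (0 - p.im) 0
    rw [zero_add] at e2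
    have e3 : (0 : ℝ) - p.im + 2 * Real.pi = 2 * Real.pi - p.im := by ring
    rw [e3] at e2
    exact e2
  simp_rw [h1]
  rw [← intervalIntegral.integral_comp_sub_right (fun x : ℝ => ∫ y in (0:ℝ)..(2 * Real.pi), f ((x : ℂ) + y * I)) p.re]

theorem box_split3 {a : ℝ} {f : ℂ → ℝ} (hf : Continuous f) :
    ∫ z in box a (a + 3), f z = (∫ z in box a (a + 1), f z) + (∫ z in box (a + 1) (a + 2), f z) + ∫ z in box (a + 2) (a + 3), f z := by
  rw [box_integral (by linarith) hf, box_integral (by linarith) hf, box_integral (by linarith) hf, box_integral (by linarith) hf]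
  have hc : Continuous fun x : ℝ => ∫ y in (0:ℝ)..(2 * Real.pi), f (x + y * I) := by
    apply intervalIntegral.continuous_parametric_intervalIntegral_of_continuous'
    exact hf.comp (by fun_prop)
  rw [intervalIntegral.integral_add_adjacent_intervals (hc.intervalIntegrable _ _) (hc.intervalIntegrable _ _),
    intervalIntegral.integral_add_adjacent_intervals (hc.intervalIntegrable _ _) (hc.intervalIntegrable _ _)]

theorem box_mono {f g : ℂ → ℝ} (hf : Continuous f) (hg : Continuous g) (a b : ℝ) (h : ∀ z, f z ≤ g z) :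
    ∫ z in box a b, f z ≤ ∫ z in box a b, g z :=
  setIntegral_mono (integrableOn_box hf a b) (integrableOn_box hg a b) h

theorem box_add {f g : ℂ → ℝ} (hf : Continuous f) (hg : Continuous g) (a b : ℝ) :
    ∫ z in box a b, (f z + g z) = (∫ z in box a b, f z) + ∫ z in box a b, g z :=
  integral_add (integrableOn_box hf a b) (integrableOn_box hg a b)

theorem box_sub {f g : ℂ → ℝ} (hf : Continuous f) (hg : Continuous g) (a b : ℝ) :
    ∫ z in box a b, (f z - g z) = (∫ z in box a b, f z) - ∫ z in box a b, g z :=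
  integral_sub (integrableOn_box hf a b) (integrableOn_box hg a b)

end tools

section deriv

theorem contDiff_dx {f : ℂ → ℝ} {n : ℕ} (hf : ContDiff ℝ (n + 1 : ℕ) f) : ContDiff ℝ n (dx f) := by
  have h1 : ContDiff ℝ n (fderiv ℝ f) := hf.fderiv_right (by push_cast; exact le_rfl)
  exact h1.clm_apply contDiff_const

theorem contDiff_dy {f : ℂ → ℝ} {n : ℕ} (hf : ContDiff ℝ (n + 1 : ℕ) f) : ContDiff ℝ n (dy f) := by
  have h1 : ContDiff ℝ n (fderiv ℝ f) := hf.fderiv_right (by push_cast; exact le_rfl)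
  exact h1.clm_apply contDiff_const

theorem hasDerivAt_line {f : ℂ → ℝ} (hf : Differentiable ℝ f) (z q : ℂ) (s : ℝ) :
    HasDerivAt (fun s : ℝ => f (z + s * q)) (fderiv ℝ f (z + s * q) q) s := by
  have h1 : HasDerivAt (fun s : ℝ => z + (s : ℂ) * q) q s := by
    have h2 : HasDerivAt (fun s : ℝ => (s : ℂ)) 1 s := by
      have := (hasDerivAt_id s).ofReal_comp
      simpa using this
    simpa using (h2.mul_const q).const_add z
  exact (hf (z + s * q)).hasFDerivAt.comp_hasDerivAt s h1

theorem hasDerivAt_x {f : ℂ → ℝ} (hf : Differentiable ℝ f) (x y : ℝ) :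
    HasDerivAt (fun s : ℝ => f (s + y * I)) (dx f (x + y * I)) x := by
  have h := hasDerivAt_line hf (y * I) 1 x
  have e : (fun s : ℝ => f ((y : ℂ) * I + s * 1)) = fun s : ℝ => f (s + y * I) := by
    funext s; congr 1; ring
  rw [e] at h
  have e2 : (y : ℂ) * I + x * 1 = x + y * I := by ring
  rw [e2] at h
  exact h

theorem hasDerivAt_y {f : ℂ → ℝ} (hf : Differentiable ℝ f) (x y : ℝ) :
    HasDerivAt (fun s : ℝ => f (x + s * I)) (dy f (x + y * I)) y := 
  hasDerivAt_line hf x I y

theorem fderiv_apply_eq (f : ℂ → ℝ) (z q : ℂ) : fderiv ℝ f z q = q.re * dx f z + q.im * dy f z := by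
  have h1 : q = q.re • (1 : ℂ) + q.im • I := by
    apply Complex.ext <;> simp
  conv_lhs => rw [h1]
  rw [map_add, map_smul, map_smul, smul_eq_mul, smul_eq_mul]
  rfl

theorem per_dx {f : ℂ → ℝ} (hper : ∀ z, f (z + 2 * Real.pi * I) = f z) (z : ℂ) : dx f (z + 2 * Real.pi * I) = dx f z := by
  have h1 : fderiv ℝ (fun z => f (z + 2 * Real.pi * I)) z = fderiv ℝ f (z + 2 * Real.pi * I) := fderiv_comp_add_right _
  unfold dx
  rw [← h1]
  congr 2
  funext w; exact hper w

theorem per_dy {f : ℂ → ℝ} (hper : ∀ z, f (z + 2 * Real.pi * I) = f z) (z : ℂ) : dy f (z + 2 * Real.pi * I) = dy f z := by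
  have h1 : fderiv ℝ (fun z => f (z + 2 * Real.pi * I)) z = fderiv ℝ f (z + 2 * Real.pi * I) := fderiv_comp_add_right _
  unfold dy
  rw [← h1]
  congr 2
  funext w; exact hper w

/-- the energy identity -/
theorem energy {ρ : ℝ} {w : ℂ → ℝ} (hw : ContDiff ℝ 2 w) (hper : ∀ z, w (z + 2 * Real.pi * I) = w z) {χ χ' χ'' : ℝ → ℝ}
    (h1 : ∀ x, HasDerivAt χ (χ' x) x) (h2 : ∀ x, HasDerivAt χ' (χ'' x) x) (h3 : Continuous χ'') {a b : ℝ} (hab : a ≤ b)
    (hχa : χ a = 0) (hχb : χ b = 0) (hχa' : χ' a = 0) (hχb' : χ' b = 0) :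
    ∫ z in box a b, χ z.re * (dx w z ^ 2 + dy w z ^ 2) = 
      ∫ z in box a b, ((1 / 2) * χ'' z.re * w z ^ 2 - ρ * χ' z.re * w z ^ 2 + ρ ^ 2 * χ z.re * w z ^ 2 - χ z.re * (w z * Lop ρ w z)) := by
  have hχc : Continuous χ := continuous_iff_continuousAt.2 fun x => (h1 x).continuousAt
  have hχc' : Continuous χ' := continuous_iff_continuousAt.2 fun x => (h2 x).continuousAt
  have hwd : Differentiable ℝ w := hw.differentiable (by norm_num)
  have hwc : Continuous w := hw.continuous
  have hdx1 : ContDiff ℝ 1 (dx w) := contDiff_dx (n := 1) hw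
  have hdy1 : ContDiff ℝ 1 (dy w) := contDiff_dy (n := 1) hw
  have hdxd : Differentiable ℝ (dx w) := hdx1.differentiable (by norm_num)
  have hdyd : Differentiable ℝ (dy w) := hdy1.differentiable (by norm_num)
  have hdxx : Continuous (dx (dx w)) := (contDiff_dx (n := 0) hdx1).continuous
  have hdyy : Continuous (dy (dy w)) := (contDiff_dy (n := 0) hdy1).continuous
  have hdxc := hdx1.continuous
  have hdyc := hdy1.continuous
  let A : ℂ → ℝ := fun z => χ' z.re * (w z * dx w z) + χ z.re * (dx w z ^ 2 + w z * dx (dx w) z) 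
    - (1 / 2) * (χ'' z.re * w z ^ 2 + χ' z.re * (2 * w z * dx w z)) + ρ * (χ' z.re * w z ^ 2 + χ z.re * (2 * w z * dx w z))
  let B : ℂ → ℝ := fun z => χ z.re * (dy w z ^ 2 + w z * dy (dy w) z)
  have hAc : Continuous A := by
    have := Complex.continuous_re
    fun_prop
  have hBc : Continuous B := by
    have := Complex.continuous_re
    fun_prop
  have hA : ∫ z in box a b, A z = 0 := by
    rw [box_integral' hab hAc]
    have h4 : ∀ y : ℝ, ∫ x in a..b, A (x + y * I) = 0 := by
      intro y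
      have h5 : ∀ x : ℝ, HasDerivAt (fun x : ℝ => χ x * (w (x + y * I) * dx w (x + y * I)) - (1 / 2) * (χ' x * w (x + y * I) ^ 2) 
          + ρ * (χ x * w (x + y * I) ^ 2)) (A (x + y * I)) x := by
        intro x
        have d1 := hasDerivAt_x hwd x y
        have d2 := hasDerivAt_x hdxd x y
        have d3 := (h1 x).mul (d1.mul d2)
        have d4 := ((h2 x).mul (d1.pow 2)).const_mul (1 / 2 : ℝ)
        have d5 := ((h1 x).mul (d1.pow 2)).const_mul ρ
        refine ((d3.sub d4).add d5).congr_deriv ?_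
        have e1 : ((x : ℂ) + y * I).re = x := by simp
        simp only [A, e1, Pi.mul_apply, Pi.pow_apply]
        push_cast
        ring
      rw [intervalIntegral.integral_eq_sub_of_hasDerivAt (fun x _ => h5 x)]
      · simp [hχa, hχb, hχa', hχb']
      · exact (hAc.comp (by fun_prop)).intervalIntegrable _ _
    simp_rw [h4]
    simp
  have hB : ∫ z in box a b, B z = 0 := by
    rw [box_integral hab hBc]
    have h4 : ∀ x : ℝ, ∫ y in (0 : ℝ)..(2 * Real.pi), B (x + y * I) = 0 := by
      intro x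
      have h5 : ∀ y : ℝ, HasDerivAt (fun y : ℝ => χ x * (w (x + y * I) * dy w (x + y * I))) (B (x + y * I)) y := by
        intro y
        have d1 := hasDerivAt_y hwd x y
        have d2 := hasDerivAt_y hdyd x y
        have d3 := (d1.mul d2).const_mul (χ x)
        refine d3.congr_deriv ?_
        have e1 : ((x : ℂ) + y * I).re = x := by simp
        simp only [B, e1]
        ring
      rw [intervalIntegral.integral_eq_sub_of_hasDerivAt (fun x _ => h5 x)]
      · have e1 : ((x : ℂ) + ((2 * Real.pi : ℝ) : ℂ) * I) = (x + ((0 : ℝ) : ℂ) * I) + 2 * Real.pi * I := by push_cast; ring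
        rw [e1, hper, per_dy hper]
        ring
      · exact (hBc.comp (by fun_prop)).intervalIntegrable _ _
    simp_rw [h4]
    simp
  have hL : Continuous (Lop ρ w) := by
    unfold Lop
    fun_prop
  have hre := Complex.continuous_re
  have c1 : Continuous fun z : ℂ => χ z.re * (dx w z ^ 2 + dy w z ^ 2) := by fun_prop
  have c2 : Continuous fun z : ℂ => ((1 / 2) * χ'' z.re * w z ^ 2 - ρ * χ' z.re * w z ^ 2 + ρ ^ 2 * χ z.re * w z ^ 2 
    - χ z.re * (w z * Lop ρ w z)) := by fun_prop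
  have h6 : ∫ z in box a b, (χ z.re * (dx w z ^ 2 + dy w z ^ 2) - ((1 / 2) * χ'' z.re * w z ^ 2 - ρ * χ' z.re * w z ^ 2 
      + ρ ^ 2 * χ z.re * w z ^ 2 - χ z.re * (w z * Lop ρ w z))) = (∫ z in box a b, A z) + ∫ z in box a b, B z := by
    rw [← integral_add (integrableOn_box hAc a b) (integrableOn_box hBc a b)]
    congr 1
    funext z
    simp only [A, B, Lop]
    ring
  rw [hA, hB, integral_sub (integrableOn_box c1 a b) (integrableOn_box c2 a b)] at h6
  linarith


end deriv

section trans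

/-- Cauchy–Schwarz on the unit interval -/
theorem sq_integral_le {g : ℝ → ℝ} (hg : Continuous g) : (∫ s in (0:ℝ)..1, g s) ^ 2 ≤ ∫ s in (0:ℝ)..1, g s ^ 2 := by
  set m := ∫ s in (0:ℝ)..1, g s with hm
  have h1 : 0 ≤ ∫ s in (0:ℝ)..1, (g s - m) ^ 2 :=
    intervalIntegral.integral_nonneg (by norm_num) fun s _ => sq_nonneg _
  have h2 : ∀ s, (g s - m) ^ 2 = g s ^ 2 - 2 * m * g s + m ^ 2 := fun s => by ring
  simp_rw [h2] at h1
  rw [intervalIntegral.integral_add, intervalIntegral.integral_sub, intervalIntegral.integral_const_mul, ← hm] at h1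
  · simp at h1
    nlinarith
  · exact (hg.pow 2).intervalIntegrable _ _
  · exact (continuous_const.mul hg).intervalIntegrable _ _
  · exact ((hg.pow 2).sub (continuous_const.mul hg)).intervalIntegrable _ _
  · exact continuous_const.intervalIntegrable _ _

theorem translate_l2 {v : ℂ → ℝ} (hv : ContDiff ℝ 1 v) (hper : ∀ z, v (z + 2 * Real.pi * I) = v z) {M : ℝ}
    (hM : ∀ x0 : ℝ, ∫ z in box x0 (x0 + 1), (dx v z ^ 2 + dy v z ^ 2) ≤ M) (q : ℂ) (a : ℝ) :
    ∫ z in box a (a + 1), (v (z - q) - v z) ^ 2 ≤ ‖q‖ ^ 2 * M := by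
  have hvd : Differentiable ℝ v := hv.differentiable (by norm_num)
  have hvc : Continuous v := hv.continuous
  have hdxc : Continuous (dx v) := (contDiff_dx (n := 0) hv).continuous
  have hdyc : Continuous (dy v) := (contDiff_dy (n := 0) hv).continuous
  let G : ℂ → ℝ := fun z => dx v z ^ 2 + dy v z ^ 2
  have hGc : Continuous G := by fun_prop
  have hGper : ∀ z, G (z + 2 * Real.pi * I) = G z := by
    intro z
    simp only [G, per_dx hper, per_dy hper]
  have h1 : ∀ z, (v (z - q) - v z) ^ 2 ≤ ∫ s in (0:ℝ)..1, ‖q‖ ^ 2 * G (z - s * q) := by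
    intro z
    have e1 : v (z - q) - v z = ∫ s in (0:ℝ)..1, fderiv ℝ v (z + s * (-q)) (-q) := by
      rw [intervalIntegral.integral_eq_sub_of_hasDerivAt (fun s _ => hasDerivAt_line hvd z (-q) s)]
      · simp [sub_eq_add_neg]
      · apply Continuous.intervalIntegrable
        simp_rw [fderiv_apply_eq]
        fun_prop
    have e2 : Continuous fun s : ℝ => fderiv ℝ v (z + s * (-q)) (-q) := by
      simp_rw [fderiv_apply_eq]
      fun_prop
    rw [e1]
    refine (sq_integral_le e2).trans ?_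
    apply intervalIntegral.integral_mono_on (by norm_num)
    · exact (e2.pow 2).intervalIntegrable _ _
    · apply Continuous.intervalIntegrable
      fun_prop
    · intro s _
      rw [fderiv_apply_eq]
      have e3 : z + (s : ℂ) * -q = z - s * q := by ring
      rw [e3]
      simp only [G]
      have e4 : ‖q‖ ^ 2 = q.re ^ 2 + q.im ^ 2 := by
        rw [← Complex.normSq_eq_norm_sq, Complex.normSq_apply]; ring
      rw [e4]
      simp only [Complex.neg_re, Complex.neg_im]
      nlinarith [sq_nonneg (q.re * dy v (z - s * q) - q.im * dx v (z - s * q))]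
  have hc1 : Continuous fun z => (v (z - q) - v z) ^ 2 := by fun_prop
  have hc2 : Continuous fun z : ℂ => ∫ s in (0:ℝ)..1, ‖q‖ ^ 2 * G (z - s * q) := by
    apply intervalIntegral.continuous_parametric_intervalIntegral_of_continuous'
    fun_prop
  refine (box_mono hc1 hc2 a (a + 1) h1).trans ?_
  have h2 : ∫ z in box a (a + 1), ∫ s in (0:ℝ)..1, ‖q‖ ^ 2 * G (z - s * q) = 
      ∫ s in (0:ℝ)..1, ∫ z in box a (a + 1), ‖q‖ ^ 2 * G (z - s * q) := by
    simp_rw [intervalIntegral.integral_of_le (zero_le_one' ℝ)]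
    rw [integral_integral_swap]
    rw [Measure.prod_restrict]
    have hc3 : Continuous (Function.uncurry fun (z : ℂ) (s : ℝ) => ‖q‖ ^ 2 * G (z - s * q)) := by
      unfold Function.uncurry
      fun_prop
    exact (hc3.continuousOn.integrableOn_compact ((isCompact_box a (a + 1)).prod isCompact_Icc)).mono_set 
      (prod_mono subset_rfl Ioc_subset_Icc_self)
  rw [h2]
  have h3 : ∀ s : ℝ, ∫ z in box a (a + 1), ‖q‖ ^ 2 * G (z - s * q) ≤ ‖q‖ ^ 2 * M := by
    intro s
    rw [integral_const_mul]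
    apply mul_le_mul_of_nonneg_left _ (by positivity)
    rw [box_shift (by linarith) hGc hGper]
    have := hM (a - (s * q : ℂ).re)
    have e1 : a - (s * q : ℂ).re + 1 = a + 1 - (s * q : ℂ).re := by ring
    rw [e1] at this
    exact this
  have h4 : ∫ s in (0:ℝ)..1, ∫ z in box a (a + 1), ‖q‖ ^ 2 * G (z - s * q) ≤ ∫ s in (0:ℝ)..1, ‖q‖ ^ 2 * M := by
    apply intervalIntegral.integral_mono_on (by norm_num)
    · apply Continuous.intervalIntegrable
      have : ∀ s : ℝ, ∫ z in box a (a + 1), ‖q‖ ^ 2 * G (z - s * q) = 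
          ∫ x in a..(a + 1), ∫ y in (0:ℝ)..(2 * Real.pi), ‖q‖ ^ 2 * G ((x + y * I) - s * q) := by
        intro s
        exact box_integral (f := fun z => ‖q‖ ^ 2 * G (z - s * q)) (by linarith) (by fun_prop)
      simp_rw [this]
      apply intervalIntegral.continuous_parametric_intervalIntegral_of_continuous'
      unfold Function.uncurry
      apply intervalIntegral.continuous_parametric_intervalIntegral_of_continuous'
      fun_prop
    · exact continuous_const.intervalIntegrable _ _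
    · intro s _
      exact h3 s
  refine h4.trans ?_
  simp

theorem moll_eq {δ : ℝ} (v : ℂ → ℝ) (z : ℂ) : moll δ v z = ∫ q, psid δ q * v (z - q) := by
  unfold moll
  rw [← integral_sub_left_eq_self _ volume z]
  simp

theorem moll_sub_l2 {v : ℂ → ℝ} (hv : ContDiff ℝ 1 v) (hper : ∀ z, v (z + 2 * Real.pi * I) = v z) {M : ℝ} 
    (hM : ∀ x0 : ℝ, ∫ z in box x0 (x0 + 1), (dx v z ^ 2 + dy v z ^ 2) ≤ M) {δ : ℝ} (hδ : 0 < δ) (a : ℝ) :
    ∫ z in box a (a + 1), (moll δ v z - v z) ^ 2 ≤ M * δ ^ 2 := by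
  obtain ⟨p1, p2, p3, p4, p5, p6, p7⟩ := psid_props δ hδ
  have hvc : Continuous v := hv.continuous
  have hpc : Continuous (psid δ) := (p1 0).continuous
  have hmc : Continuous (moll δ v) := (moll_contDiff δ hδ v hvc.locallyIntegrable 0).continuous
  have hM0 : 0 ≤ M := le_trans (integral_nonneg fun z => by positivity) (hM 0)
  have h1 : ∀ z, (moll δ v z - v z) ^ 2 ≤ ∫ q, psid δ q * (v (z - q) - v z) ^ 2 := by
    intro z
    have i0 : Integrable fun q => psid δ q := hpc.integrable_of_hasCompactSupport p2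
    have i1 : Integrable fun q => psid δ q * (v (z - q) - v z) :=
      (by fun_prop : Continuous fun q => psid δ q * (v (z - q) - v z)).integrable_of_hasCompactSupport p2.mul_right
    have i2 : Integrable fun q => psid δ q * (v (z - q) - v z) ^ 2 :=
      (by fun_prop : Continuous fun q => psid δ q * (v (z - q) - v z) ^ 2).integrable_of_hasCompactSupport p2.mul_right
    have i3 : Integrable fun q => psid δ q * v (z - q) :=
      (by fun_prop : Continuous fun q => psid δ q * v (z - q)).integrable_of_hasCompactSupport p2.mul_right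
    have e1 : moll δ v z - v z = ∫ q, psid δ q * (v (z - q) - v z) := by
      have : ∀ q, psid δ q * (v (z - q) - v z) = psid δ q * v (z - q) - psid δ q * v z := fun q => by ring
      simp_rw [this]
      rw [integral_sub i3 (i0.mul_const _), integral_mul_const, p6, one_mul, moll_eq]
    set m := moll δ v z - v z with hm
    have h2 : 0 ≤ ∫ q, psid δ q * ((v (z - q) - v z) - m) ^ 2 := integral_nonneg fun q => mul_nonneg (p3 q) (sq_nonneg _)
    have h3 : ∀ q, psid δ q * ((v (z - q) - v z) - m) ^ 2 = psid δ q * (v (z - q) - v z) ^ 2 - (2 * m) * (psid δ q * (v (z - q) - v z)) + psid δ q * m ^ 2 := fun q => by ring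
    simp_rw [h3] at h2
    rw [integral_add, integral_sub i2 (i1.const_mul _), integral_const_mul, ← e1, integral_mul_const, p6] at h2
    · nlinarith
    · exact i2.sub (i1.const_mul _)
    · exact i0.mul_const _
  have h5 : ∀ z, ∫ q, psid δ q * (v (z - q) - v z) ^ 2 = ∫ q in Metric.closedBall (0 : ℂ) δ, psid δ q * (v (z - q) - v z) ^ 2 := by
    intro z
    symm
    apply setIntegral_eq_integral_of_forall_compl_eq_zero
    intro q hq
    rw [p4 q, zero_mul]
    simp only [Metric.mem_closedBall, dist_zero_right, not_le] at hq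
    exact hq.le
  simp_rw [h5] at h1
  have hK : IsCompact (Metric.closedBall (0 : ℂ) δ) := isCompact_closedBall _ _
  have hc1 : Continuous fun z => (moll δ v z - v z) ^ 2 := by fun_prop
  have hcu : Continuous (Function.uncurry fun (z : ℂ) (q : ℂ) => psid δ q * (v (z - q) - v z) ^ 2) := by
    unfold Function.uncurry
    fun_prop
  have hcu' : Continuous (Function.uncurry fun (q : ℂ) (z : ℂ) => psid δ q * (v (z - q) - v z) ^ 2) := by
    unfold Function.uncurry
    fun_prop
  have hc2 : Continuous fun z : ℂ => ∫ q in Metric.closedBall (0 : ℂ) δ, psid δ q * (v (z - q) - v z) ^ 2 := 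
    continuous_parametric_integral_of_continuous hcu hK
  refine (box_mono hc1 hc2 a (a + 1) h1).trans ?_
  rw [integral_integral_swap]
  swap
  · rw [Measure.prod_restrict]
    exact hcu.continuousOn.integrableOn_compact ((isCompact_box a (a + 1)).prod hK)
  have h6 : ∫ q in Metric.closedBall (0 : ℂ) δ, ∫ z in box a (a + 1), psid δ q * (v (z - q) - v z) ^ 2 ≤ 
      ∫ q in Metric.closedBall (0 : ℂ) δ, psid δ q * (M * δ ^ 2) := by
    apply setIntegral_mono_on
    · exact (continuous_parametric_integral_of_continuous hcu' (isCompact_box a (a + 1))).continuousOn.integrableOn_compact hK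
    · exact (hpc.mul continuous_const).continuousOn.integrableOn_compact hK
    · exact measurableSet_closedBall
    · intro q hq
      rw [integral_const_mul]
      apply mul_le_mul_of_nonneg_left _ (p3 q)
      refine (translate_l2 hv hper hM q a).trans ?_
      rw [mul_comm]
      apply mul_le_mul_of_nonneg_left _ hM0
      simp only [Metric.mem_closedBall, dist_zero_right] at hq
      gcongr
  refine h6.trans ?_
  rw [integral_mul_const]
  have h7 : ∫ q in Metric.closedBall (0 : ℂ) δ, psid δ q = 1 := by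
    rw [← p6]
    apply setIntegral_eq_integral_of_forall_compl_eq_zero
    intro q hq
    apply p4 q
    simp only [Metric.mem_closedBall, dist_zero_right, not_le] at hq
    exact hq.le
  rw [h7, one_mul]

end trans




/-- the cut off on `[0,3]` -/
noncomputable def chi0 (s : ℝ) : ℝ := Real.smoothTransition s * Real.smoothTransition (3 - s)

theorem chi0_smooth : ContDiff ℝ 2 chi0 := by
  unfold chi0
  exact Real.smoothTransition.contDiff.mul (Real.smoothTransition.contDiff.comp (by fun_prop))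

theorem chi0_nonneg (s : ℝ) : 0 ≤ chi0 s := mul_nonneg (Real.smoothTransition.nonneg _) (Real.smoothTransition.nonneg _)
theorem chi0_le_one (s : ℝ) : chi0 s ≤ 1 := 
  mul_le_one₀ (Real.smoothTransition.le_one _) (Real.smoothTransition.nonneg _) (Real.smoothTransition.le_one _)
theorem chi0_one {s : ℝ} (h1 : 1 ≤ s) (h2 : s ≤ 2) : chi0 s = 1 := by
  unfold chi0
  rw [Real.smoothTransition.one_of_one_le h1, Real.smoothTransition.one_of_one_le (by linarith), one_mul]
theorem chi0_zero_left {s : ℝ} (h : s ≤ 0) : chi0 s = 0 := by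
  unfold chi0
  rw [Real.smoothTransition.zero_of_nonpos h, zero_mul]
theorem chi0_zero_right {s : ℝ} (h : 3 ≤ s) : chi0 s = 0 := by
  unfold chi0
  rw [Real.smoothTransition.zero_of_nonpos (by linarith : 3 - s ≤ 0), mul_zero]

theorem chi0_d_nonneg_zero {x : ℝ} (h : chi0 x = 0) : deriv chi0 x = 0 := by
  apply IsLocalMin.deriv_eq_zero
  apply Filter.Eventually.of_forall
  intro y
  show chi0 x ≤ chi0 y
  rw [h]; exact chi0_nonneg y


end B3

open B3

/-- TARGET 1: `L²` Cauchy with rate -/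
theorem moll_l2_cauchy {ρ : ℝ} {h ω : ℝ → ℝ} (hd : Dat ρ h ω) (C : ℝ) :
    ∃ M3 δ0 : ℝ, 0 < δ0 ∧ δ0 ≤ 1 ∧ 0 < M3 ∧ ∀ U, ClsS ρ h C ω U →
      ∀ δ ∈ Ioc (0 : ℝ) δ0, ∀ δ' ∈ Ioc (0 : ℝ) δ0, ∀ x0 : ℝ,
      ∫ z in box x0 (x0 + 1), (moll δ U z - moll δ' U z) ^ 2 ≤ M3 * (δ + δ') ^ 2 := by
  obtain ⟨M2, δ0, h0, h1, hM2, hg⟩ := grad_bdd hd C
  refine ⟨8 * M2, δ0, h0, h1, by positivity, ?_⟩
  intro U hU δ hδ δ' hδ' x0
  set ε := min δ δ' with hε
  have hε0 : 0 < ε := lt_min hδ.1 hδ'.1
  have hεδ : ε ∈ Ioc (0 : ℝ) δ0 := ⟨hε0, (min_le_left _ _).trans hδ.2⟩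
  have key : ∀ e ∈ Ioc (0 : ℝ) δ0, ∀ r : ℝ, 0 < r → 
      ∫ z in box x0 (x0 + 1), (moll r (moll e U) z - moll e U z) ^ 2 ≤ M2 * r ^ 2 := by
    intro e he r hr
    apply moll_sub_l2 (moll_contDiff e he.1 U hU.loc 1) (fun z => moll_per hU e z) (fun x0 => (hg U hU e he x0).1) hr
  have k1 := key δ hδ ε hε0
  have k2 := key δ' hδ' ε hε0
  have k3 := key ε hεδ δ hδ.1
  have k4 := key ε hεδ δ' hδ'.1
  rw [moll_comm δ ε hδ.1 hε0 U hU.loc] at k3
  rw [moll_comm δ' ε hδ'.1 hε0 U hU.loc] at k4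
  have c1 : Continuous (moll δ U) := (moll_contDiff δ hδ.1 U hU.loc 0).continuous
  have c2 : Continuous (moll δ' U) := (moll_contDiff δ' hδ'.1 U hU.loc 0).continuous
  have c3 : Continuous (moll ε U) := (moll_contDiff ε hε0 U hU.loc 0).continuous
  have c4 : Continuous (moll ε (moll δ U)) := (moll_contDiff ε hε0 _ c1.locallyIntegrable 0).continuous
  have c5 : Continuous (moll ε (moll δ' U)) := (moll_contDiff ε hε0 _ c2.locallyIntegrable 0).continuous
  have d1 : Continuous fun z => (moll ε (moll δ U) z - moll δ U z) ^ 2 := by fun_prop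
  have d2 : Continuous fun z => (moll ε (moll δ' U) z - moll δ' U z) ^ 2 := by fun_prop
  have d3 : Continuous fun z => (moll ε (moll δ U) z - moll ε U z) ^ 2 := by fun_prop
  have d4 : Continuous fun z => (moll ε (moll δ' U) z - moll ε U z) ^ 2 := by fun_prop
  have h5 := box_mono (f := fun z => (moll δ U z - moll δ' U z) ^ 2) 
    (g := fun z => 4 * (((moll ε (moll δ U) z - moll δ U z) ^ 2 + (moll ε (moll δ' U) z - moll δ' U z) ^ 2) + 
      ((moll ε (moll δ U) z - moll ε U z) ^ 2 + (moll ε (moll δ' U) z - moll ε U z) ^ 2)))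
    (by fun_prop) (by fun_prop) x0 (x0 + 1) (by
      intro z
      generalize moll ε (moll δ U) z = A
      generalize moll ε (moll δ' U) z = B
      generalize moll δ U z = a
      generalize moll δ' U z = b
      generalize moll ε U z = c
      have : a - b = -(A - a) + (B - b) + (A - c) - (B - c) := by ring
      rw [this]
      generalize A - a = p
      generalize B - b = q
      generalize A - c = r
      generalize B - c = s
      nlinarith [sq_nonneg (p + q), sq_nonneg (p + r), sq_nonneg (p - s), sq_nonneg (q - r), sq_nonneg (q + s), sq_nonneg (r + s)])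
  refine h5.trans ?_
  have d5 : Continuous fun z => (moll ε (moll δ U) z - moll δ U z) ^ 2 + (moll ε (moll δ' U) z - moll δ' U z) ^ 2 := d1.add d2
  have d6 : Continuous fun z => (moll ε (moll δ U) z - moll ε U z) ^ 2 + (moll ε (moll δ' U) z - moll ε U z) ^ 2 := d3.add d4
  rw [integral_const_mul, box_add d5 d6, box_add d1 d2, box_add d3 d4]
  have e1 : ε ≤ δ := min_le_left _ _
  have e2 : ε ≤ δ' := min_le_right _ _
  have e3 : ε ^ 2 ≤ δ * δ' := by
    rw [sq]; exact mul_le_mul e1 e2 hε0.le hδ.1.le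
  nlinarith [hδ.1, hδ'.1, mul_pos hδ.1 hδ'.1]


/-- TARGET 2: gradients are Cauchy in `L²`, uniformly -/
theorem moll_h1_cauchy {ρ : ℝ} {h ω : ℝ → ℝ} (hd : Dat ρ h ω) (C : ℝ) :
    ∃ (κ : ℝ → ℝ) (δ0 : ℝ), 0 < δ0 ∧ δ0 ≤ 1 ∧ Tendsto κ (𝓝[>] 0) (𝓝 0) ∧ ∀ U, ClsS ρ h C ω U →
      ∀ δ ∈ Ioc (0 : ℝ) δ0, ∀ δ' ∈ Ioc (0 : ℝ) δ0, ∀ x0 : ℝ,
      ∫ z in box x0 (x0 + 1), ((dx (moll δ U) z - dx (moll δ' U) z) ^ 2
        + (dy (moll δ U) z - dy (moll δ' U) z) ^ 2) ≤ κ δ + κ δ' := by
  obtain ⟨M2, δ0, h0, h1, hM2, hg⟩ := grad_bdd hd C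
  obtain ⟨M3, δ1, h2, h3, hM3, hl⟩ := moll_l2_cauchy hd C
  obtain ⟨κ0, hκ0, hκ1, hκ⟩ := moll_upper hd
  have hc2 : ContDiff ℝ 2 chi0 := chi0_smooth
  have hc1 : ContDiff ℝ 1 (deriv chi0) := by
    have := (contDiff_succ_iff_deriv (n := 1) (f := chi0)).1 (by simpa [one_add_one_eq_two] using hc2)
    exact this.2.2
  have hc0 : Continuous (deriv (deriv chi0)) := hc1.continuous_deriv le_rfl
  obtain ⟨K1, hK1⟩ := (isCompact_Icc (a := (0:ℝ)) (b := 3)).exists_bound_of_continuousOn hc1.continuous.continuousOn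
  obtain ⟨K2, hK2⟩ := (isCompact_Icc (a := (0:ℝ)) (b := 3)).exists_bound_of_continuousOn hc0.continuousOn
  have hK1' : 0 ≤ K1 := le_trans (norm_nonneg _) (hK1 0 (by norm_num))
  have hK2' : 0 ≤ K2 := le_trans (norm_nonneg _) (hK2 0 (by norm_num))
  set K := K2 + ρ * K1 + ρ ^ 2 with hK
  have hρ := hd.rho
  have hK0 : 0 ≤ K := by positivity
  refine ⟨fun δ => K * (6 * M3 * δ ^ 2) + 3 * M2 * (κ0 δ + ω δ), min δ0 δ1, lt_min h0 h2, (min_le_left _ _).trans h1, ?_, ?_⟩
  · have t1 : Tendsto (fun δ : ℝ => K * (6 * M3 * δ ^ 2)) (𝓝[>] 0) (𝓝 0) := by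
      have : Continuous (fun δ : ℝ => K * (6 * M3 * δ ^ 2)) := by fun_prop
      have h := this.tendsto 0
      simp only [ne_eq, OfNat.ofNat_ne_zero, not_false_eq_true, zero_pow, mul_zero] at h
      exact h.mono_left nhdsWithin_le_nhds
    have t2 : Tendsto (fun δ : ℝ => 3 * M2 * (κ0 δ + ω δ)) (𝓝[>] 0) (𝓝 0) := by
      have := (hκ1.add hd.omlim).const_mul (3 * M2)
      simpa using this
    simpa using t1.add t2
  intro U hU δ hδ' δ' hδ'' x0
  have hδ : δ ∈ Ioc 0 δ0 := ⟨hδ'.1, hδ'.2.trans (min_le_left _ _)⟩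
  have hδ1 : δ ∈ Ioc 0 δ1 := ⟨hδ'.1, hδ'.2.trans (min_le_right _ _)⟩
  have hδ2 : δ ∈ Ioc (0:ℝ) 1 := ⟨hδ'.1, hδ.2.trans h1⟩
  have hη : δ' ∈ Ioc 0 δ0 := ⟨hδ''.1, hδ''.2.trans (min_le_left _ _)⟩
  have hη1 : δ' ∈ Ioc 0 δ1 := ⟨hδ''.1, hδ''.2.trans (min_le_right _ _)⟩
  have hη2 : δ' ∈ Ioc (0:ℝ) 1 := ⟨hδ''.1, hη.2.trans h1⟩
  set g := moll δ U with hgdef
  set g' := moll δ' U with hgdef'
  have sg : ContDiff ℝ 2 g := moll_contDiff δ hδ.1 U hU.loc 2
  have sg' : ContDiff ℝ 2 g' := moll_contDiff δ' hη.1 U hU.loc 2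
  let w : ℂ → ℝ := fun z => g z - g' z
  have sw : ContDiff ℝ 2 w := sg.sub sg'
  have hdg : Differentiable ℝ g := sg.differentiable (by norm_num)
  have hdg' : Differentiable ℝ g' := sg'.differentiable (by norm_num)
  have hdxg : ContDiff ℝ 1 (dx g) := contDiff_dx (n := 1) sg
  have hdxg' : ContDiff ℝ 1 (dx g') := contDiff_dx (n := 1) sg'
  have hdyg : ContDiff ℝ 1 (dy g) := contDiff_dy (n := 1) sg
  have hdyg' : ContDiff ℝ 1 (dy g') := contDiff_dy (n := 1) sg'
  have ex : ∀ {u v : ℂ → ℝ}, Differentiable ℝ u → Differentiable ℝ v → dx (fun z => u z - v z) = fun z => dx u z - dx v z := by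
    intro u v hu hv
    funext z
    unfold dx
    rw [fderiv_fun_sub (hu z) (hv z)]
    rfl
  have ey : ∀ {u v : ℂ → ℝ}, Differentiable ℝ u → Differentiable ℝ v → dy (fun z => u z - v z) = fun z => dy u z - dy v z := by
    intro u v hu hv
    funext z
    unfold dy
    rw [fderiv_fun_sub (hu z) (hv z)]
    rfl
  have exw : dx w = fun z => dx g z - dx g' z := ex hdg hdg'
  have eyw : dy w = fun z => dy g z - dy g' z := ey hdg hdg'
  have exxw : dx (dx w) = fun z => dx (dx g) z - dx (dx g') z := by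
    rw [exw]; exact ex (hdxg.differentiable (by norm_num)) (hdxg'.differentiable (by norm_num))
  have eyyw : dy (dy w) = fun z => dy (dy g) z - dy (dy g') z := by
    rw [eyw]; exact ey (hdyg.differentiable (by norm_num)) (hdyg'.differentiable (by norm_num))
  have eL : ∀ z, Lop ρ w z = Lop ρ g z - Lop ρ g' z := by
    intro z
    unfold Lop
    rw [exw, eyw] at *
    rw [exxw, eyyw]
    simp only [w]
    ring
  have perw : ∀ z, w (z + 2 * Real.pi * I) = w z := by
    intro z
    show g _ - g' _ = g z - g' z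
    rw [hgdef, hgdef', moll_per hU δ z, moll_per hU δ' z]
  set a := x0 - 1 with ha
  have hchi : ∀ x : ℝ, HasDerivAt (fun x => chi0 (x - a)) (deriv chi0 (x - a)) x := by
    intro x
    have := ((hc2.differentiable (by norm_num)) (x - a)).hasDerivAt
    exact this.comp_sub_const x a
  have hchi' : ∀ x : ℝ, HasDerivAt (fun x => deriv chi0 (x - a)) (deriv (deriv chi0) (x - a)) x := by
    intro x
    have := ((hc1.differentiable (by norm_num)) (x - a)).hasDerivAt
    exact this.comp_sub_const x a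
  have hen := energy (ρ := ρ) sw perw hchi hchi' (hc0.comp (by fun_prop)) (a := a) (b := a + 3) (by linarith)
    (by simp [chi0_zero_left]) (by simp [chi0_zero_right]) (by simp [chi0_d_nonneg_zero, chi0_zero_left])
    (by simp [chi0_d_nonneg_zero, chi0_zero_right])
  have cg := sg.continuous
  have cg' := sg'.continuous
  have cw := sw.continuous
  have cLg : Continuous (Lop ρ g) := by
    unfold Lop
    have := (contDiff_dx (n := 0) hdxg).continuous
    have := (contDiff_dy (n := 0) hdyg).continuous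
    have := hdxg.continuous
    fun_prop
  have cLg' : Continuous (Lop ρ g') := by
    unfold Lop
    have := (contDiff_dx (n := 0) hdxg').continuous
    have := (contDiff_dy (n := 0) hdyg').continuous
    have := hdxg'.continuous
    fun_prop
  have cdx : Continuous (dx w) := (contDiff_dx (n := 1) sw).continuous
  have cdy : Continuous (dy w) := (contDiff_dy (n := 1) sw).continuous
  have hre := Complex.continuous_re
  have cchi : Continuous chi0 := hc2.continuous
  have cchi' : Continuous (deriv chi0) := hc1.continuous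
  have cLw : Continuous (Lop ρ w) := by
    have : Lop ρ w = fun z => Lop ρ g z - Lop ρ g' z := funext eL
    rw [this]; fun_prop
  -- lower bound of the left side
  have hlow : ∫ z in box x0 (x0 + 1), ((dx g z - dx g' z) ^ 2 + (dy g z - dy g' z) ^ 2) ≤ 
      ∫ z in box a (a + 3), chi0 (z.re - a) * (dx w z ^ 2 + dy w z ^ 2) := by
    have cc : Continuous fun z : ℂ => chi0 (z.re - a) * (dx w z ^ 2 + dy w z ^ 2) := by fun_prop
    rw [box_split3 cc]
    have p1 : 0 ≤ ∫ z in box a (a + 1), chi0 (z.re - a) * (dx w z ^ 2 + dy w z ^ 2) := 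
      integral_nonneg fun z => mul_nonneg (chi0_nonneg _) (by positivity)
    have p2 : 0 ≤ ∫ z in box (a + 2) (a + 3), chi0 (z.re - a) * (dx w z ^ 2 + dy w z ^ 2) := 
      integral_nonneg fun z => mul_nonneg (chi0_nonneg _) (by positivity)
    have p3 : ∫ z in box (a + 1) (a + 2), chi0 (z.re - a) * (dx w z ^ 2 + dy w z ^ 2) = 
        ∫ z in box x0 (x0 + 1), ((dx g z - dx g' z) ^ 2 + (dy g z - dy g' z) ^ 2) := by
      have q1 : a + 1 = x0 := by rw [ha]; ring
      have q2 : a + 2 = x0 + 1 := by rw [ha]; ring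
      rw [q1, q2]
      apply setIntegral_congr_fun (measurableSet_box _ _)
      intro z hz
      simp only
      rw [chi0_one (by rw [ha]; linarith [hz.1.1]) (by rw [ha]; linarith [hz.1.2]), exw, eyw, one_mul]
    linarith
  refine hlow.trans ?_
  rw [hen]
  -- upper bound
  set A1 := κ0 δ' + ω δ with hA1
  set A2 := κ0 δ + ω δ' with hA2
  have hA1' : 0 ≤ A1 := add_nonneg (hκ0 _) (hd.om0 _)
  have hA2' : 0 ≤ A2 := add_nonneg (hκ0 _) (hd.om0 _)
  have hpt : ∀ z ∈ box a (a + 3), ((1 / 2) * deriv (deriv chi0) (z.re - a) * w z ^ 2 - ρ * deriv chi0 (z.re - a) * w z ^ 2 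
      + ρ ^ 2 * chi0 (z.re - a) * w z ^ 2 - chi0 (z.re - a) * (w z * Lop ρ w z)) ≤ 
      K * w z ^ 2 + (A1 * Lop ρ g z + A2 * Lop ρ g' z) := by
    intro z hz
    have hz' : z.re - a ∈ Icc (0:ℝ) 3 := ⟨by linarith [hz.1.1], by linarith [hz.1.2]⟩
    have b1 := (abs_le.1 (hK1 _ hz'))
    have b2 := (abs_le.1 (hK2 _ hz'))
    have b3 := chi0_nonneg (z.re - a)
    have b4 := chi0_le_one (z.re - a)
    have m1 := hU.sub δ hδ2 z
    have m2 := hU.sub δ' hη2 z
    have u1 := hκ C U hU δ hδ2 z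
    have u2 := hκ C U hU δ' hη2 z
    have k1 : -(w z * Lop ρ g z) ≤ A1 * Lop ρ g z := by
      rcases m1.eq_or_lt with h | h
      · rw [← hgdef] at h; rw [← h]; simp
      · have := hU.con δ hδ2 z h
        have : -w z ≤ A1 := by
          simp only [w, hA1]
          linarith
        calc -(w z * Lop ρ g z) = (-w z) * Lop ρ g z := by ring
          _ ≤ _ := mul_le_mul_of_nonneg_right this m1
    have k2 : w z * Lop ρ g' z ≤ A2 * Lop ρ g' z := by
      rcases m2.eq_or_lt with h | h
      · rw [← hgdef'] at h; rw [← h]; simp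
      · have := hU.con δ' hη2 z h
        have : w z ≤ A2 := by
          simp only [w, hA2]
          linarith
        exact mul_le_mul_of_nonneg_right this m2
    have k3 : -(chi0 (z.re - a) * (w z * Lop ρ w z)) ≤ A1 * Lop ρ g z + A2 * Lop ρ g' z := by
      have e : -(chi0 (z.re - a) * (w z * Lop ρ w z)) = chi0 (z.re - a) * (-(w z * Lop ρ g z) + w z * Lop ρ g' z) := by
        rw [eL]; ring
      rw [e]
      calc chi0 (z.re - a) * (-(w z * Lop ρ g z) + w z * Lop ρ g' z) ≤ chi0 (z.re - a) * (A1 * Lop ρ g z + A2 * Lop ρ g' z) :=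
            mul_le_mul_of_nonneg_left (add_le_add k1 k2) b3
        _ ≤ 1 * (A1 * Lop ρ g z + A2 * Lop ρ g' z) := by
            apply mul_le_mul_of_nonneg_right b4
            exact add_nonneg (mul_nonneg hA1' m1) (mul_nonneg hA2' m2)
        _ = _ := one_mul _
    have k4 : (1 / 2) * deriv (deriv chi0) (z.re - a) * w z ^ 2 - ρ * deriv chi0 (z.re - a) * w z ^ 2 
      + ρ ^ 2 * chi0 (z.re - a) * w z ^ 2 ≤ K * w z ^ 2 := by
      have : (1 / 2) * deriv (deriv chi0) (z.re - a) * w z ^ 2 - ρ * deriv chi0 (z.re - a) * w z ^ 2 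
        + ρ ^ 2 * chi0 (z.re - a) * w z ^ 2 = ((1 / 2) * deriv (deriv chi0) (z.re - a) - ρ * deriv chi0 (z.re - a)
        + ρ ^ 2 * chi0 (z.re - a)) * w z ^ 2 := by ring
      rw [this]
      apply mul_le_mul_of_nonneg_right _ (sq_nonneg _)
      have r1 : -(ρ * deriv chi0 (z.re - a)) ≤ ρ * K1 := by nlinarith [b1.1]
      have r2 : ρ ^ 2 * chi0 (z.re - a) ≤ ρ ^ 2 := by nlinarith [sq_nonneg ρ]
      have r3 : (1 / 2) * deriv (deriv chi0) (z.re - a) ≤ K2 := by linarith [b2.2]
      rw [hK]; linarith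
    linarith
  have cL1 : Continuous fun z : ℂ => ((1 / 2) * deriv (deriv chi0) (z.re - a) * w z ^ 2 - ρ * deriv chi0 (z.re - a) * w z ^ 2 
      + ρ ^ 2 * chi0 (z.re - a) * w z ^ 2 - chi0 (z.re - a) * (w z * Lop ρ w z)) := by fun_prop
  have cw2 : Continuous fun z : ℂ => w z ^ 2 := by fun_prop
  have cR1 : Continuous fun z : ℂ => K * w z ^ 2 := by fun_prop
  have cR2 : Continuous fun z : ℂ => A1 * Lop ρ g z := by fun_prop
  have cR3 : Continuous fun z : ℂ => A2 * Lop ρ g' z := by fun_prop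
  have hup : ∫ z in box a (a + 3), ((1 / 2) * deriv (deriv chi0) (z.re - a) * w z ^ 2 - ρ * deriv chi0 (z.re - a) * w z ^ 2 
      + ρ ^ 2 * chi0 (z.re - a) * w z ^ 2 - chi0 (z.re - a) * (w z * Lop ρ w z)) ≤ 
      ∫ z in box a (a + 3), (K * w z ^ 2 + (A1 * Lop ρ g z + A2 * Lop ρ g' z)) :=
    setIntegral_mono_on (integrableOn_box cL1 _ _) (integrableOn_box (cR1.add (cR2.add cR3)) _ _) (measurableSet_box _ _) hpt
  refine hup.trans ?_
  have cR4 : Continuous fun z : ℂ => A1 * Lop ρ g z + A2 * Lop ρ g' z := cR2.add cR3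
  rw [box_add cR1 cR4, box_add cR2 cR3, integral_const_mul, integral_const_mul, integral_const_mul]
  rw [box_split3 cw2, box_split3 cLg, box_split3 cLg']
  have l1 := hl U hU δ hδ1 δ' hη1 a
  have l2 := hl U hU δ hδ1 δ' hη1 (a + 1)
  have l3 := hl U hU δ hδ1 δ' hη1 (a + 2)
  have n1 := (hg U hU δ hδ a).2
  have n2 := (hg U hU δ hδ (a + 1)).2
  have n3 := (hg U hU δ hδ (a + 2)).2
  have n1' := (hg U hU δ' hη a).2
  have n2' := (hg U hU δ' hη (a + 1)).2
  have n3' := (hg U hU δ' hη (a + 2)).2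
  have q2 : a + 1 + 1 = a + 2 := by ring
  have q3 : a + 2 + 1 = a + 3 := by ring
  rw [q2] at l2 n2 n2'
  rw [q3] at l3 n3 n3'
  have s1 : (∫ z in box a (a + 1), w z ^ 2) + (∫ z in box (a + 1) (a + 2), w z ^ 2) + ∫ z in box (a + 2) (a + 3), w z ^ 2 ≤ 
      6 * M3 * δ ^ 2 + 6 * M3 * δ' ^ 2 := by
    have : (δ + δ') ^ 2 ≤ 2 * δ ^ 2 + 2 * δ' ^ 2 := by nlinarith [sq_nonneg (δ - δ')]
    have : M3 * (δ + δ') ^ 2 ≤ M3 * (2 * δ ^ 2 + 2 * δ' ^ 2) := by gcongr
    have l1' : ∫ z in box a (a + 1), w z ^ 2 ≤ M3 * (δ + δ') ^ 2 := l1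
    have l2' : ∫ z in box (a + 1) (a + 2), w z ^ 2 ≤ M3 * (δ + δ') ^ 2 := l2
    have l3' : ∫ z in box (a + 2) (a + 3), w z ^ 2 ≤ M3 * (δ + δ') ^ 2 := l3
    linarith
  have s2 := mul_le_mul_of_nonneg_left s1 hK0
  have s3 := mul_le_mul_of_nonneg_left (add_le_add (add_le_add n1 n2) n3) hA1'
  have s4 := mul_le_mul_of_nonneg_left (add_le_add (add_le_add n1' n2') n3') hA2'
  simp only [← hgdef, ← hgdef'] at s3 s4
  have s5 : A1 * (M2 + M2 + M2) + A2 * (M2 + M2 + M2) = 3 * M2 * (κ0 δ + ω δ) + 3 * M2 * (κ0 δ' + ω δ') := by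
    rw [hA1, hA2]; ring
  simp only
  linarith

end M_B3
end Pool.Agent.Helper758.LS
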