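import Mathlib
import Pool.Agent.Helper758.LSDefs
import Pool.Agent.Helper758.LSDefs2

namespace Pool.Agent.Helper758.LS
open MeasureTheory Filter Topology Set Complex

namespace M_BCAC






theorem cac_sm_cont : Continuous fun t : ℝ => Real.smoothTransition (t - 1) :=
  Real.smoothTransition.continuous.comp (continuous_id.sub continuous_const)

theorem cac_be_deriv (s : ℝ) : HasDerivAt be (Real.smoothTransition (s - 1)) s := by
  have h := intervalIntegral.integral_hasDerivAt_right (a := 0) (b := s)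
    (cac_sm_cont.intervalIntegrable _ _)
    cac_sm_cont.stronglyMeasurable.stronglyMeasurableAtFilter
    cac_sm_cont.continuousAt
  exact h

theorem cac_be_zero {s : ℝ} (hs : s ≤ 1) : be s = 0 := by
  unfold be
  apply intervalIntegral.integral_zero_ae
  refine Eventually.of_forall fun t ht => ?_
  apply Real.smoothTransition.zero_of_nonpos
  rw [uIoc] at ht
  have h1 : max 0 s ≤ 1 := max_le zero_le_one hs
  linarith [ht.2]

theorem cac_be_nonneg (s : ℝ) : 0 ≤ be s := by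
  rcases le_total s 0 with h | h
  · rw [cac_be_zero (by linarith)]
  · unfold be
    exact intervalIntegral.integral_nonneg h fun t _ => Real.smoothTransition.nonneg _

theorem cac_be_lower (s : ℝ) : s - 2 ≤ be s := by
  rcases le_total s 2 with h | h
  · linarith [cac_be_nonneg s]
  · have h1 : be s = (∫ t in (0 : ℝ)..2, Real.smoothTransition (t - 1)) +
        ∫ t in (2 : ℝ)..s, Real.smoothTransition (t - 1) := by
      unfold be
      rw [intervalIntegral.integral_add_adjacent_intervals (cac_sm_cont.intervalIntegrable _ _)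
        (cac_sm_cont.intervalIntegrable _ _)]
    have h2 : ∫ t in (2 : ℝ)..s, Real.smoothTransition (t - 1) = ∫ t in (2 : ℝ)..s, (1 : ℝ) := by
      apply intervalIntegral.integral_congr
      intro t ht
      rw [uIcc_of_le h] at ht
      exact Real.smoothTransition.one_of_one_le (by linarith [ht.1])
    have h3 : 0 ≤ ∫ t in (0 : ℝ)..2, Real.smoothTransition (t - 1) :=
      intervalIntegral.integral_nonneg (by norm_num) fun t _ => Real.smoothTransition.nonneg _
    rw [h1, h2, intervalIntegral.integral_const, smul_eq_mul, mul_one]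
    linarith

theorem cac_be_upper {s : ℝ} (hs : 0 ≤ s) : be s ≤ s := by
  unfold be
  have h1 : ∫ t in (0 : ℝ)..s, Real.smoothTransition (t - 1) ≤ ∫ t in (0 : ℝ)..s, (1 : ℝ) := by
    apply intervalIntegral.integral_mono_on hs (cac_sm_cont.intervalIntegrable _ _)
      intervalIntegrable_const
    intro t _
    exact Real.smoothTransition.le_one _
  rwa [intervalIntegral.integral_const, smul_eq_mul, mul_one, sub_zero] at h1

theorem cac_beN_deriv (N : ℝ) (hN : 0 < N) (s : ℝ) :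
    HasDerivAt (beN N) (Real.smoothTransition (s / N - 1)) s := by
  have h1 : HasDerivAt (fun s : ℝ => s / N) (1 / N) s := (hasDerivAt_id s).div_const N
  have h2 := ((cac_be_deriv (s / N)).comp s h1).const_mul N
  have h3 : N * (Real.smoothTransition (s / N - 1) * (1 / N)) = Real.smoothTransition (s / N - 1) := by
    field_simp
  rw [h3] at h2
  exact h2

theorem cac_beN_deriv' (N : ℝ) (hN : 0 < N) :
    deriv (beN N) = fun s => Real.smoothTransition (s / N - 1) := by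
  funext s
  exact (cac_beN_deriv N hN s).deriv

/-- TARGET 1: elementary properties of the truncation -/
theorem beN_props (N : ℝ) (hN : 0 < N) :
    ContDiff ℝ 4 (beN N) ∧ (∀ s, s ≤ N → beN N s = 0) ∧ (∀ s, 0 ≤ beN N s) ∧ (∀ s, s - 2 * N ≤ beN N s) ∧
    (∀ s, beN N s ≤ |s|) ∧ (∀ s, 0 ≤ deriv (beN N) s) ∧ (∀ s, deriv (beN N) s ≤ 1) ∧
    (∀ s, s ≤ N → deriv (beN N) s = 0) ∧ (∀ s, 2 * N ≤ s → deriv (beN N) s = 1) ∧
    (∀ s, 0 ≤ deriv (deriv (beN N)) s) ∧ (∀ s, s * deriv (beN N) s - beN N s ≤ 2 * N) ∧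
    (∀ s, |beN N s - max s 0| ≤ 2 * N) := by
  have hd := cac_beN_deriv' N hN
  have hzero : ∀ s, s ≤ N → beN N s = 0 := by
    intro s hs
    unfold beN
    rw [cac_be_zero ((div_le_one hN).2 hs), mul_zero]
  have hnn : ∀ s, 0 ≤ beN N s := fun s => mul_nonneg hN.le (cac_be_nonneg _)
  have hlow : ∀ s, s - 2 * N ≤ beN N s := by
    intro s
    have h1 := mul_le_mul_of_nonneg_left (cac_be_lower (s / N)) hN.le
    have h2 : N * (s / N - 2) = s - 2 * N := by field_simp
    rw [h2] at h1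
    exact h1
  have hup : ∀ s, 0 ≤ s → beN N s ≤ s := by
    intro s hs
    have h1 := mul_le_mul_of_nonneg_left (cac_be_upper (div_nonneg hs hN.le)) hN.le
    rw [mul_div_cancel₀ _ hN.ne'] at h1
    exact h1
  have hd0 : ∀ s, 0 ≤ deriv (beN N) s := by
    intro s
    rw [hd]
    exact Real.smoothTransition.nonneg _
  have hd1 : ∀ s, deriv (beN N) s ≤ 1 := by
    intro s
    rw [hd]
    exact Real.smoothTransition.le_one _
  have hdz : ∀ s, s ≤ N → deriv (beN N) s = 0 := by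
    intro s hs
    rw [hd]
    apply Real.smoothTransition.zero_of_nonpos
    have := (div_le_one hN).2 hs
    linarith
  refine ⟨?_, hzero, hnn, hlow, ?_, hd0, hd1, hdz, ?_, ?_, ?_, ?_⟩
  · have h4 : (4 : WithTop ℕ∞) = 3 + 1 := by norm_num
    rw [h4, contDiff_succ_iff_deriv]
    refine ⟨fun s => (cac_beN_deriv N hN s).differentiableAt, by simp, ?_⟩
    rw [hd]
    exact ContDiff.comp (g := Real.smoothTransition) (f := fun s : ℝ => s / N - 1)
      (Real.smoothTransition.contDiff (n := 3)) (by fun_prop)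
  · intro s
    rcases le_total 0 s with h | h
    · rw [abs_of_nonneg h]
      exact hup s h
    · rw [hzero s (by linarith)]
      exact abs_nonneg s
  · intro s hs
    rw [hd]
    apply Real.smoothTransition.one_of_one_le
    have : 2 ≤ s / N := (le_div_iff₀ hN).2 hs
    linarith
  · intro s
    rw [hd]
    apply Monotone.deriv_nonneg
    intro a b hab
    apply Real.smoothTransition.monotone
    have := div_le_div_of_nonneg_right hab hN.le
    linarith
  · intro s
    rcases le_total s N with h | h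
    · rw [hdz s h, hzero s h]
      linarith
    · rcases le_total s (2 * N) with h2 | h2
      · have h3 : s * deriv (beN N) s ≤ s := mul_le_of_le_one_right (by linarith) (hd1 s)
        linarith [hnn s]
      · have h3 : s * deriv (beN N) s ≤ s := mul_le_of_le_one_right (by linarith) (hd1 s)
        linarith [hlow s]
  · intro s
    rw [abs_le]
    rcases le_total 0 s with h | h
    · rw [max_eq_left h]
      constructor
      · linarith [hlow s]
      · linarith [hup s h]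
    · rw [max_eq_right h, hzero s (by linarith)]
      constructor <;> linarith

theorem cac_int_zero (F : ℂ → ℝ) (hF : ContDiff ℝ 1 F) (hs : HasCompactSupport F) (e : ℂ) :
    Integrable (fun z => fderiv ℝ F z e) ∧ ∫ z, fderiv ℝ F z e = 0 := by
  have hc : Continuous (fun z => fderiv ℝ F z e) :=
    (hF.continuous_fderiv one_ne_zero).clm_apply continuous_const
  have hs' : HasCompactSupport (fun z => fderiv ℝ F z e) := hs.fderiv_apply (𝕜 := ℝ) e
  have hi := hc.integrable_of_hasCompactSupport hs' (μ := volume)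
  refine ⟨hi, ?_⟩
  have h := integral_mul_fderiv_eq_neg_fderiv_mul_of_integrable (μ := (volume : Measure ℂ))
    (f := fun _ : ℂ => (1 : ℝ)) (g := F) (v := e) (by simp) (by simpa using hi)
    (by simpa using (hF.continuous.integrable_of_hasCompactSupport hs))
    (fun _ _ => differentiableAt_const _) (fun z _ => hF.differentiable one_ne_zero z)
  simpa using h

theorem cac_chain (g : ℝ → ℝ) (hg : ContDiff ℝ 4 g) (w : ℂ → ℝ) (hw : ContDiff ℝ 4 w) (e z : ℂ) :
    fderiv ℝ (fun z => g (w z)) z e = deriv g (w z) * fderiv ℝ w z e := by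
  have h1 : HasDerivAt g (deriv g (w z)) (w z) := (hg.differentiable (by norm_num) _).hasDerivAt
  have h2 := h1.comp_hasFDerivAt z (hw.differentiable (by norm_num) z).hasFDerivAt
  have h3 : fderiv ℝ (fun z => g (w z)) z = deriv g (w z) • fderiv ℝ w z := h2.fderiv
  rw [h3, _root_.smul_apply, smul_eq_mul]

theorem cac_chain2 (g : ℝ → ℝ) (hg : ContDiff ℝ 4 g) (w : ℂ → ℝ) (hw : ContDiff ℝ 4 w) (e z : ℂ) :
    fderiv ℝ (fun z => fderiv ℝ (fun z => g (w z)) z e) z e =
      deriv (deriv g) (w z) * fderiv ℝ w z e ^ 2 +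
        deriv g (w z) * fderiv ℝ (fun z => fderiv ℝ w z e) z e := by
  have h0 : (fun z => fderiv ℝ (fun z => g (w z)) z e) = fun z => deriv g (w z) * fderiv ℝ w z e :=
    funext fun z => cac_chain g hg w hw e z
  have hg' : ContDiff ℝ 3 (deriv g) := by
    have h4 : (4 : WithTop ℕ∞) = 3 + 1 := by norm_num
    rw [h4, contDiff_succ_iff_deriv] at hg
    exact hg.2.2
  have hw' : ContDiff ℝ 3 (fun z => fderiv ℝ w z e) :=
    (hw.fderiv_right (m := 3) (by norm_num)).clm_apply contDiff_const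
  have h1 : HasDerivAt (deriv g) (deriv (deriv g) (w z)) (w z) :=
    (hg'.differentiable (by norm_num) _).hasDerivAt
  have h2 := h1.comp_hasFDerivAt z (hw.differentiable (by norm_num) z).hasFDerivAt
  have h3 := h2.mul (hw'.differentiable (by norm_num) z).hasFDerivAt
  rw [h0]
  have h4 : fderiv ℝ (fun z => deriv g (w z) * fderiv ℝ w z e) z = _ := h3.fderiv
  rw [h4]
  simp only [_root_.add_apply, _root_.smul_apply, smul_eq_mul, Function.comp_apply]
  ring

theorem cac_sub (ρ N : ℝ) (hN : 0 < N) (w : ℂ → ℝ) (hw : ContDiff ℝ 4 w)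
    (hL : ∀ z, N < w z → 0 ≤ Lop ρ w z) (z : ℂ) :
    0 ≤ dx (dx (fun z => beN N (w z))) z + 2 * ρ * dx (fun z => beN N (w z)) z +
      dy (dy (fun z => beN N (w z))) z + ρ ^ 2 * (beN N (w z) + 2 * N) := by
  obtain ⟨hg, -, -, -, -, hd0, -, hdz, -, hdd, hs, -⟩ := beN_props N hN
  have e1 : dx (dx (fun z => beN N (w z))) z = deriv (deriv (beN N)) (w z) * dx w z ^ 2 +
      deriv (beN N) (w z) * dx (dx w) z := cac_chain2 (beN N) hg w hw 1 z
  have e2 : dy (dy (fun z => beN N (w z))) z = deriv (deriv (beN N)) (w z) * dy w z ^ 2 +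
      deriv (beN N) (w z) * dy (dy w) z := cac_chain2 (beN N) hg w hw I z
  have e3 : dx (fun z => beN N (w z)) z = deriv (beN N) (w z) * dx w z :=
    cac_chain (beN N) hg w hw 1 z
  rw [e1, e2, e3]
  have h1 : 0 ≤ deriv (beN N) (w z) * Lop ρ w z := by
    rcases le_or_gt (w z) N with h | h
    · rw [hdz _ h, zero_mul]
    · exact mul_nonneg (hd0 _) (hL z h)
  have h2 : 0 ≤ deriv (deriv (beN N)) (w z) * (dx w z ^ 2 + dy w z ^ 2) :=
    mul_nonneg (hdd _) (by positivity)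
  have h3 : 0 ≤ ρ ^ 2 * (beN N (w z) + 2 * N - w z * deriv (beN N) (w z)) :=
    mul_nonneg (sq_nonneg _) (by linarith [hs (w z)])
  unfold Lop at h1
  nlinarith

theorem cac_alg (h hx hy q G Gx Gy Gxx Gyy ρ : ℝ) (hq : 0 ≤ q) (hG : 0 ≤ G)
    (hA : 0 ≤ Gxx + 2 * ρ * Gx + Gyy + ρ ^ 2 * G) :
    (1 / 2) * (h ^ 2 * q * (Gx ^ 2 + Gy ^ 2)) - q * G ^ 2 * (ρ ^ 2 * h ^ 2 + 2 * (hx ^ 2 + hy ^ 2)) ≤
      (2 * h * hx * q * G * Gx + h ^ 2 * (2 * ρ * q) * G * Gx + h ^ 2 * q * Gx * Gx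
        + h ^ 2 * q * G * Gxx) +
      (2 * h * hy * q * G * Gy + h ^ 2 * 0 * G * Gy + h ^ 2 * q * Gy * Gy
        + h ^ 2 * q * G * Gyy) := by
  have h1 : 0 ≤ h ^ 2 * q * G * (Gxx + 2 * ρ * Gx + Gyy + ρ ^ 2 * G) := by positivity
  have h2 : 0 ≤ q * (h * Gx + 2 * hx * G) ^ 2 := by positivity
  have h3 : 0 ≤ q * (h * Gy + 2 * hy * G) ^ 2 := by positivity
  linarith

theorem cac_prod (η Q G D : ℂ → ℝ) (z e : ℂ) (h1 : DifferentiableAt ℝ η z)
    (h2 : DifferentiableAt ℝ Q z) (h3 : DifferentiableAt ℝ G z) (h4 : DifferentiableAt ℝ D z) :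
    fderiv ℝ (fun z => η z * η z * Q z * G z * D z) z e =
      2 * η z * fderiv ℝ η z e * Q z * G z * D z + η z ^ 2 * fderiv ℝ Q z e * G z * D z +
      η z ^ 2 * Q z * fderiv ℝ G z e * D z + η z ^ 2 * Q z * G z * fderiv ℝ D z e := by
  have h5 := (((h1.hasFDerivAt.mul h1.hasFDerivAt).mul h2.hasFDerivAt).mul h3.hasFDerivAt).mul
    h4.hasFDerivAt
  have h6 : fderiv ℝ (fun z => η z * η z * Q z * G z * D z) z = _ := h5.fderiv
  rw [h6]
  simp only [_root_.add_apply, _root_.smul_apply, smul_eq_mul, Pi.mul_apply]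
  ring

theorem cac_Q (ρ : ℝ) (z0 z : ℂ) :
    HasFDerivAt (fun z : ℂ => Real.exp (2 * ρ * (z.re - z0.re)))
      (Real.exp (2 * ρ * (z.re - z0.re)) • ((2 * ρ) • reCLM)) z := by
  have h1 : HasFDerivAt (fun z : ℂ => 2 * ρ * (z.re - z0.re)) ((2 * ρ) • reCLM) z :=
    ((reCLM.hasFDerivAt).sub_const z0.re).const_mul (2 * ρ)
  exact h1.exp

/-- the energy inequality with a general cutoff -/
theorem cac_energy (ρ N : ℝ) (hN : 0 < N) (w : ℂ → ℝ) (hw : ContDiff ℝ 4 w)
    (hL : ∀ z, N < w z → 0 ≤ Lop ρ w z) (z0 : ℂ) (η : ℂ → ℝ) (hη : ContDiff ℝ 2 η)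
    (hηs : HasCompactSupport η) :
    Integrable (fun z => η z ^ 2 * Real.exp (2 * ρ * (z.re - z0.re)) *
      (dx (fun z => beN N (w z)) z ^ 2 + dy (fun z => beN N (w z)) z ^ 2)) ∧
    (1 / 2) * ∫ z, η z ^ 2 * Real.exp (2 * ρ * (z.re - z0.re)) *
      (dx (fun z => beN N (w z)) z ^ 2 + dy (fun z => beN N (w z)) z ^ 2) ≤
    ∫ z, Real.exp (2 * ρ * (z.re - z0.re)) * (beN N (w z) + 2 * N) ^ 2 *
      (ρ ^ 2 * η z ^ 2 + 2 * (dx η z ^ 2 + dy η z ^ 2)) := by
  obtain ⟨hg, -, hg0, -, -, -, -, -, -, -, -, -⟩ := beN_props N hN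
  obtain ⟨u, hu⟩ : ∃ u : ℂ → ℝ, u = fun z => beN N (w z) := ⟨_, rfl⟩
  have hu4 : ContDiff ℝ 4 u := by rw [hu]; exact hg.comp hw
  have hsub : ∀ z, 0 ≤ dx (dx u) z + 2 * ρ * dx u z + dy (dy u) z + ρ ^ 2 * (u z + 2 * N) := by
    intro z
    have := cac_sub ρ N hN w hw hL z
    rw [hu]
    exact this
  have hu0 : ∀ z, 0 ≤ u z := by intro z; rw [hu]; exact hg0 _
  have hgoal : ∀ z, beN N (w z) = u z := by intro z; rw [hu]
  simp only [hgoal]
  clear hgoal hu hL
  obtain ⟨Q, hQ⟩ : ∃ Q : ℂ → ℝ, Q = fun z => Real.exp (2 * ρ * (z.re - z0.re)) := ⟨_, rfl⟩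
  have hQz : ∀ z : ℂ, Real.exp (2 * ρ * (z.re - z0.re)) = Q z := by intro z; rw [hQ]
  simp only [hQz]
  have hQ0 : ∀ z, 0 ≤ Q z := by intro z; rw [hQ]; positivity
  have hre : ContDiff ℝ 2 (fun z : ℂ => z.re) := reCLM.contDiff
  have hQ2 : ContDiff ℝ 2 Q := by
    rw [hQ]
    exact (contDiff_const.mul (hre.sub contDiff_const)).exp
  have hQx : ∀ z, fderiv ℝ Q z 1 = 2 * ρ * Q z := by
    intro z
    rw [hQ]
    rw [(cac_Q ρ z0 z).fderiv]
    simp
    ring
  have hQy : ∀ z, fderiv ℝ Q z I = 0 := by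
    intro z
    rw [hQ]
    rw [(cac_Q ρ z0 z).fderiv]
    simp
  obtain ⟨G, hG⟩ : ∃ G : ℂ → ℝ, G = fun z => u z + 2 * N := ⟨_, rfl⟩
  have hGz : ∀ z, u z + 2 * N = G z := by intro z; rw [hG]
  simp only [hGz] at hsub ⊢
  have hG0 : ∀ z, 0 ≤ G z := by intro z; rw [hG]; show 0 ≤ u z + 2 * N; linarith [hu0 z]
  have hG4 : ContDiff ℝ 4 G := by rw [hG]; exact hu4.add contDiff_const
  have hGd : ∀ z e, fderiv ℝ G z e = fderiv ℝ u z e := by
    intro z e
    rw [hG, fderiv_add_const]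
  have hdx3 : ContDiff ℝ 3 (dx u) := by
    show ContDiff ℝ 3 (fun z => fderiv ℝ u z 1)
    exact (hu4.fderiv_right (m := 3) (by norm_num)).clm_apply contDiff_const
  have hdy3 : ContDiff ℝ 3 (dy u) := by
    show ContDiff ℝ 3 (fun z => fderiv ℝ u z I)
    exact (hu4.fderiv_right (m := 3) (by norm_num)).clm_apply contDiff_const
  have hη1 : ContDiff ℝ 1 η := hη.of_le (by norm_num)
  have hQ1 : ContDiff ℝ 1 Q := hQ2.of_le (by norm_num)
  have hG1 : ContDiff ℝ 1 G := hG4.of_le (by norm_num)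
  have hdx1 : ContDiff ℝ 1 (dx u) := hdx3.of_le (by norm_num)
  have hdy1 : ContDiff ℝ 1 (dy u) := hdy3.of_le (by norm_num)
  have hF1 : ContDiff ℝ 1 (fun z => η z * η z * Q z * G z * dx u z) :=
    (((hη1.mul hη1).mul hQ1).mul hG1).mul hdx1
  have hF2 : ContDiff ℝ 1 (fun z => η z * η z * Q z * G z * dy u z) :=
    (((hη1.mul hη1).mul hQ1).mul hG1).mul hdy1
  have hs1 : HasCompactSupport (fun z => η z * η z * Q z * G z * dx u z) := by
    refine hηs.mono ?_
    intro z hz h0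
    apply hz
    show η z * η z * Q z * G z * dx u z = 0
    rw [h0]; ring
  have hs2 : HasCompactSupport (fun z => η z * η z * Q z * G z * dy u z) := by
    refine hηs.mono ?_
    intro z hz h0
    apply hz
    show η z * η z * Q z * G z * dy u z = 0
    rw [h0]; ring
  obtain ⟨i1, j1⟩ := cac_int_zero _ hF1 hs1 1
  obtain ⟨i2, j2⟩ := cac_int_zero _ hF2 hs2 I
  have hηd : Continuous (fun z => dx η z ^ 2 + dy η z ^ 2) := by
    have h1 : Continuous (fun z => fderiv ℝ η z 1) :=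
      (hη1.continuous_fderiv one_ne_zero).clm_apply continuous_const
    have h2 : Continuous (fun z => fderiv ℝ η z I) :=
      (hη1.continuous_fderiv one_ne_zero).clm_apply continuous_const
    exact (h1.pow 2).add (h2.pow 2)
  have iP1 : Integrable (fun z => η z ^ 2 * Q z * (dx u z ^ 2 + dy u z ^ 2)) := by
    apply Continuous.integrable_of_hasCompactSupport
    · exact ((hη1.continuous.pow 2).mul hQ1.continuous).mul
        ((hdx1.continuous.pow 2).add (hdy1.continuous.pow 2))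
    · refine hηs.mono ?_
      intro z hz h0
      apply hz
      show η z ^ 2 * Q z * (dx u z ^ 2 + dy u z ^ 2) = 0
      rw [h0]; ring
  have iP2 : Integrable (fun z => Q z * G z ^ 2 * (ρ ^ 2 * η z ^ 2 + 2 * (dx η z ^ 2 + dy η z ^ 2))) := by
    apply Continuous.integrable_of_hasCompactSupport
    · exact (hQ1.continuous.mul (hG1.continuous.pow 2)).mul
        ((continuous_const.mul (hη1.continuous.pow 2)).add (continuous_const.mul hηd))
    · refine HasCompactSupport.intro hηs ?_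
      intro z hz
      have e1 : η z = 0 := image_eq_zero_of_notMem_tsupport hz
      have e2 : fderiv ℝ η z = 0 := fderiv_of_notMem_tsupport ℝ hz
      have e3 : dx η z = 0 := by unfold dx; rw [e2]; rfl
      have e4 : dy η z = 0 := by unfold dy; rw [e2]; rfl
      rw [e1, e3, e4]
      ring
  refine ⟨iP1, ?_⟩
  have hle : ∫ z, ((1 / 2) * (η z ^ 2 * Q z * (dx u z ^ 2 + dy u z ^ 2)) -
      Q z * G z ^ 2 * (ρ ^ 2 * η z ^ 2 + 2 * (dx η z ^ 2 + dy η z ^ 2))) ≤
      ∫ z, (fderiv ℝ (fun z => η z * η z * Q z * G z * dx u z) z 1 +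
        fderiv ℝ (fun z => η z * η z * Q z * G z * dy u z) z I) := by
    apply integral_mono ((iP1.const_mul _).sub iP2) (i1.add i2)
    intro z
    have d1 := hη1.differentiable one_ne_zero z
    have d2 := hQ1.differentiable one_ne_zero z
    have d3 := hG1.differentiable one_ne_zero z
    have d4 := hdx1.differentiable one_ne_zero z
    have d5 := hdy1.differentiable one_ne_zero z
    have e1 := cac_prod η Q G (dx u) z 1 d1 d2 d3 d4
    have e2 := cac_prod η Q G (dy u) z I d1 d2 d3 d5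
    rw [hQx, hGd] at e1
    rw [hQy, hGd] at e2
    show (1 / 2) * (η z ^ 2 * Q z * (dx u z ^ 2 + dy u z ^ 2)) -
      Q z * G z ^ 2 * (ρ ^ 2 * η z ^ 2 + 2 * (dx η z ^ 2 + dy η z ^ 2)) ≤
      fderiv ℝ (fun z => η z * η z * Q z * G z * dx u z) z 1 +
        fderiv ℝ (fun z => η z * η z * Q z * G z * dy u z) z I
    rw [e1, e2]
    exact cac_alg (η z) (dx η z) (dy η z) (Q z) (G z) (dx u z) (dy u z) (dx (dx u) z)
      (dy (dy u) z) ρ (hQ0 z) (hG0 z) (hsub z)
  rw [integral_sub (iP1.const_mul _) iP2, integral_add i1 i2, j1, j2, integral_const_mul] at hle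
  linarith

/-- TARGET 2: Caccioppoli -/
theorem cacc (ρ : ℝ) (hρ : 0 < ρ) :
    ∃ C : ℝ, 0 < C ∧ ∀ w : ℂ → ℝ, ContDiff ℝ 4 w → ∀ N : ℝ, 0 < N →
      (∀ z, N < w z → 0 ≤ Lop ρ w z) →
      ∀ z0, ∀ M : ℝ, 0 ≤ M → (∀ z ∈ Metric.closedBall z0 2, |w z| ≤ M) →
      ∫ z in Metric.closedBall z0 1, (dx (fun z => beN N (w z)) z ^ 2 + dy (fun z => beN N (w z)) z ^ 2)
        ≤ C * (M + N) ^ 2 := by
  obtain ⟨χ, hχ⟩ : ∃ χ : ContDiffBump (0 : ℂ), χ = ⟨1, 2, one_pos, one_lt_two⟩ := ⟨_, rfl⟩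
  have hin : χ.rIn = 1 := by rw [hχ]
  have hout : χ.rOut = 2 := by rw [hχ]
  have hc2 : ContDiff ℝ 2 (χ : ℂ → ℝ) := χ.contDiff
  have hc1 : ContDiff ℝ 1 (χ : ℂ → ℝ) := χ.contDiff
  obtain ⟨K, hK⟩ : ∃ K, ∀ z, ‖fderiv ℝ (χ : ℂ → ℝ) z‖ ≤ K :=
    (χ.hasCompactSupport.fderiv (𝕜 := ℝ)).exists_bound_of_continuous (hc1.continuous_fderiv one_ne_zero)
  have hK0 : 0 ≤ K := (norm_nonneg _).trans (hK 0)
  obtain ⟨Vl, hVl⟩ : ∃ Vl, Vl = (volume (Metric.closedBall (0 : ℂ) 2)).toReal := ⟨_, rfl⟩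
  have hVl0 : 0 ≤ Vl := by rw [hVl]; exact ENNReal.toReal_nonneg
  refine ⟨Real.exp (2 * ρ) * (2 * (Real.exp (4 * ρ) * 4 * (ρ ^ 2 + 4 * K ^ 2) * Vl)) + 1,
    by positivity, ?_⟩
  intro w hw N hN hL z0 M hM hwM
  obtain ⟨hg, -, hg0, -, hgab, -, -, -, -, -, -, -⟩ := beN_props N hN
  obtain ⟨η, hη⟩ : ∃ η : ℂ → ℝ, η = fun z => χ (z - z0) := ⟨_, rfl⟩
  have hη2 : ContDiff ℝ 2 η := by
    rw [hη]
    exact ContDiff.comp (g := (χ : ℂ → ℝ)) (f := fun z : ℂ => z - z0) hc2
      (contDiff_id.sub contDiff_const)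
  have hηd : ∀ z, fderiv ℝ η z = fderiv ℝ (χ : ℂ → ℝ) (z - z0) := by
    intro z
    have h1 : HasFDerivAt (fun z : ℂ => z - z0) (ContinuousLinearMap.id ℝ ℂ) z :=
      (hasFDerivAt_id z).sub_const z0
    have h2 := HasFDerivAt.comp (g := (χ : ℂ → ℝ)) z
      ((hc1.differentiable one_ne_zero (z - z0)).hasFDerivAt) h1
    have h3 : fderiv ℝ η z = (fderiv ℝ (χ : ℂ → ℝ) (z - z0)).comp (ContinuousLinearMap.id ℝ ℂ) := by
      rw [hη]; exact h2.fderiv
    rw [h3, ContinuousLinearMap.comp_id]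
  have hout0 : ∀ z, z ∉ Metric.closedBall z0 2 → η z = 0 ∧ fderiv ℝ η z = 0 := by
    intro z hz
    have h1 : z - z0 ∉ tsupport (χ : ℂ → ℝ) := by
      rw [χ.tsupport_eq, hout, mem_closedBall_zero_iff]
      rw [Metric.mem_closedBall, dist_eq_norm] at hz
      exact hz
    rw [hηd]
    refine ⟨?_, fderiv_of_notMem_tsupport ℝ h1⟩
    rw [hη]
    exact image_eq_zero_of_notMem_tsupport h1
  have hηs : HasCompactSupport η :=
    HasCompactSupport.intro (isCompact_closedBall z0 2) fun z hz => (hout0 z hz).1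
  have hη01 : ∀ z, 0 ≤ η z ∧ η z ≤ 1 := by
    intro z
    rw [hη]
    exact ⟨χ.nonneg, χ.le_one⟩
  have hη1 : ∀ z ∈ Metric.closedBall z0 1, η z = 1 := by
    intro z hz
    rw [hη]
    apply χ.one_of_mem_closedBall
    rw [hin, mem_closedBall_zero_iff]
    rw [Metric.mem_closedBall, dist_eq_norm] at hz
    exact hz
  obtain ⟨iP1, hE⟩ := cac_energy ρ N hN w hw hL z0 η hη2 hηs
  obtain ⟨u, hu⟩ : ∃ u : ℂ → ℝ, u = fun z => beN N (w z) := ⟨_, rfl⟩
  have hGu : ∀ z, beN N (w z) = u z := by intro z; rw [hu]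
  simp only [hGu] at hE iP1 ⊢
  have hre : ∀ (z : ℂ) (r : ℝ), z ∈ Metric.closedBall z0 r → |z.re - z0.re| ≤ r := by
    intro z r hz
    rw [Metric.mem_closedBall, dist_eq_norm] at hz
    rw [← Complex.sub_re]
    exact (Complex.abs_re_le_norm _).trans hz
  -- lower bound
  have hlow : ∫ z in Metric.closedBall z0 1, (dx u z ^ 2 + dy u z ^ 2) ≤
      Real.exp (2 * ρ) * ∫ z, η z ^ 2 * Real.exp (2 * ρ * (z.re - z0.re)) * (dx u z ^ 2 + dy u z ^ 2) := by
    rw [← integral_const_mul]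
    have h1 : ∫ z in Metric.closedBall z0 1, (dx u z ^ 2 + dy u z ^ 2) ≤
        ∫ z in Metric.closedBall z0 1, Real.exp (2 * ρ) *
          (η z ^ 2 * Real.exp (2 * ρ * (z.re - z0.re)) * (dx u z ^ 2 + dy u z ^ 2)) := by
      apply integral_mono_of_nonneg
      · exact Eventually.of_forall fun z => by positivity
      · exact (iP1.const_mul _).integrableOn
      · refine (ae_restrict_iff' measurableSet_closedBall).2 (Eventually.of_forall fun z hz => ?_)
        show dx u z ^ 2 + dy u z ^ 2 ≤ Real.exp (2 * ρ) *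
          (η z ^ 2 * Real.exp (2 * ρ * (z.re - z0.re)) * (dx u z ^ 2 + dy u z ^ 2))
        rw [hη1 z hz, one_pow, one_mul, ← mul_assoc, ← Real.exp_add]
        apply le_mul_of_one_le_left (by positivity)
        apply Real.one_le_exp
        have h3 := abs_le.1 (hre z 1 hz)
        nlinarith [h3.1]
    refine h1.trans (setIntegral_le_integral (iP1.const_mul _) (Eventually.of_forall fun z => ?_))
    positivity
  -- upper bound
  have hup : ∫ z, Real.exp (2 * ρ * (z.re - z0.re)) * (u z + 2 * N) ^ 2 *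
      (ρ ^ 2 * η z ^ 2 + 2 * (dx η z ^ 2 + dy η z ^ 2)) ≤
      Real.exp (4 * ρ) * (M + 2 * N) ^ 2 * (ρ ^ 2 + 4 * K ^ 2) * Vl := by
    have h1 : ∫ z, Real.exp (2 * ρ * (z.re - z0.re)) * (u z + 2 * N) ^ 2 *
        (ρ ^ 2 * η z ^ 2 + 2 * (dx η z ^ 2 + dy η z ^ 2)) =
        ∫ z in Metric.closedBall z0 2, Real.exp (2 * ρ * (z.re - z0.re)) * (u z + 2 * N) ^ 2 *
        (ρ ^ 2 * η z ^ 2 + 2 * (dx η z ^ 2 + dy η z ^ 2)) := by
      symm
      apply setIntegral_eq_integral_of_forall_compl_eq_zero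
      intro z hz
      obtain ⟨e1, e2⟩ := hout0 z hz
      have e3 : dx η z = 0 := by unfold dx; rw [e2]; rfl
      have e4 : dy η z = 0 := by unfold dy; rw [e2]; rfl
      rw [e1, e3, e4]
      ring
    rw [h1]
    have h2 : ∫ z in Metric.closedBall z0 2, Real.exp (2 * ρ * (z.re - z0.re)) * (u z + 2 * N) ^ 2 *
        (ρ ^ 2 * η z ^ 2 + 2 * (dx η z ^ 2 + dy η z ^ 2)) ≤
        ∫ z in Metric.closedBall z0 2, Real.exp (4 * ρ) * (M + 2 * N) ^ 2 * (ρ ^ 2 + 4 * K ^ 2) := by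
      apply integral_mono_of_nonneg
      · refine Eventually.of_forall fun z => ?_
        show 0 ≤ _
        positivity
      · exact integrableOn_const (by exact measure_closedBall_lt_top.ne)
      · refine (ae_restrict_iff' measurableSet_closedBall).2 (Eventually.of_forall fun z hz => ?_)
        show Real.exp (2 * ρ * (z.re - z0.re)) * (u z + 2 * N) ^ 2 *
          (ρ ^ 2 * η z ^ 2 + 2 * (dx η z ^ 2 + dy η z ^ 2)) ≤
          Real.exp (4 * ρ) * (M + 2 * N) ^ 2 * (ρ ^ 2 + 4 * K ^ 2)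
        have h3 := abs_le.1 (hre z 2 hz)
        have h4 : Real.exp (2 * ρ * (z.re - z0.re)) ≤ Real.exp (4 * ρ) := by
          apply Real.exp_le_exp.2
          nlinarith [h3.2]
        have h5 : u z ≤ M := by
          rw [hu]
          exact (hgab _).trans (hwM z hz)
        have h6 : 0 ≤ u z := by rw [hu]; exact hg0 _
        have h7 : (u z + 2 * N) ^ 2 ≤ (M + 2 * N) ^ 2 :=
          pow_le_pow_left₀ (by linarith) (by linarith) 2
        have h8 : η z ^ 2 ≤ 1 := pow_le_one₀ (hη01 z).1 (hη01 z).2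
        have h9 : ∀ e : ℂ, ‖e‖ = 1 → fderiv ℝ η z e ^ 2 ≤ K ^ 2 := by
          intro e he
          have h10 := (fderiv ℝ η z).le_opNorm e
          rw [he, mul_one, hηd] at h10
          have h11 := h10.trans (hK (z - z0))
          rw [hηd, ← sq_abs, ← Real.norm_eq_abs]
          exact pow_le_pow_left₀ (norm_nonneg _) h11 2
        have h10 : dx η z ^ 2 ≤ K ^ 2 := h9 1 (by simp)
        have h11 : dy η z ^ 2 ≤ K ^ 2 := h9 I (by simp)
        have h12 : ρ ^ 2 * η z ^ 2 + 2 * (dx η z ^ 2 + dy η z ^ 2) ≤ ρ ^ 2 + 4 * K ^ 2 := by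
          nlinarith [sq_nonneg ρ]
        apply mul_le_mul _ h12 (by positivity) (by positivity)
        exact mul_le_mul h4 h7 (by positivity) (by positivity)
    refine h2.trans (le_of_eq ?_)
    rw [setIntegral_const, smul_eq_mul, mul_comm, hVl]
    congr 1
    rw [Measure.real, Measure.addHaar_closedBall_center]
  have h3 : (M + 2 * N) ^ 2 ≤ 4 * (M + N) ^ 2 := by nlinarith
  have hexp : 0 < Real.exp (2 * ρ) := Real.exp_pos _
  have h4 : Real.exp (4 * ρ) * (M + 2 * N) ^ 2 * (ρ ^ 2 + 4 * K ^ 2) * Vl ≤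
      Real.exp (4 * ρ) * (4 * (M + N) ^ 2) * (ρ ^ 2 + 4 * K ^ 2) * Vl := by
    gcongr
  have h5 : ∫ z, η z ^ 2 * Real.exp (2 * ρ * (z.re - z0.re)) * (dx u z ^ 2 + dy u z ^ 2) ≤
      2 * (Real.exp (4 * ρ) * (4 * (M + N) ^ 2) * (ρ ^ 2 + 4 * K ^ 2) * Vl) := by linarith
  have h6 := mul_le_mul_of_nonneg_left h5 hexp.le
  have h7 : 0 ≤ (M + N) ^ 2 := sq_nonneg _
  nlinarith

end M_BCAC
end Pool.Agent.Helper758.LS
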