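import Mathlib
import Pool.Agent.Helper758.LSDefs
import Pool.Agent.Helper758.LSDefs2
import Pool.Agent.Helper758.LS_B1
import Pool.Agent.Helper758.LS_B2
import Pool.Agent.Helper758.LS_BCAC
import Pool.Agent.Helper758.LS_BSUB
import Pool.Agent.Helper758.LS_MOL

namespace Pool.Agent.Helper758.LS
open MeasureTheory Filter Topology Set Complex
open M_B1 (moll_bdd moll_per moll_upper)
open M_B2 (grad_bdd)
open M_BCAC (beN_props cacc)
open M_BSUB (sub_bound)
open M_MOL (dx_moll_smooth dy_moll_smooth moll_add_const moll_comm moll_contDiff moll_l1 moll_symm moll_tendsto_l1 psid_props)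
namespace M_B4
























/-! ### auxiliary lemmas for job 9730 -/

def Sm9730 (u : ℂ → ℝ) : Prop := ∀ n : ℕ, ContDiff ℝ n u

theorem Sm9730.diff {u : ℂ → ℝ} (hu : Sm9730 u) : Differentiable ℝ u :=
  (hu 1).differentiable (by norm_num)

theorem Sm9730.cont {u : ℂ → ℝ} (hu : Sm9730 u) : Continuous u := hu.diff.continuous

theorem Sm9730.dx {u : ℂ → ℝ} (hu : Sm9730 u) : Sm9730 (dx u) := fun n => by
  have h := hu (n + 1)
  have h1 : ContDiff ℝ n (fderiv ℝ u) := h.fderiv_right (by push_cast; exact le_rfl)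
  exact h1.clm_apply contDiff_const

theorem Sm9730.dy {u : ℂ → ℝ} (hu : Sm9730 u) : Sm9730 (dy u) := fun n => by
  have h := hu (n + 1)
  have h1 : ContDiff ℝ n (fderiv ℝ u) := h.fderiv_right (by push_cast; exact le_rfl)
  exact h1.clm_apply contDiff_const

theorem Sm9730.shift {u : ℂ → ℝ} (hu : Sm9730 u) (c : ℂ) : Sm9730 (fun z => u (z + c)) := fun n =>
  (hu n).comp (contDiff_id.add contDiff_const)

theorem Sm9730.sub {u v : ℂ → ℝ} (hu : Sm9730 u) (hv : Sm9730 v) : Sm9730 (fun z => u z - v z) :=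
  fun n => (hu n).sub (hv n)

theorem sm_moll_9730 {δ : ℝ} (hδ : 0 < δ) {u : ℂ → ℝ} (hu : LocallyIntegrable u volume) :
    Sm9730 (moll δ u) := fun n => moll_contDiff δ hδ u hu n

theorem dx_shift_9730 (u : ℂ → ℝ) (c z : ℂ) : dx (fun z => u (z + c)) z = dx u (z + c) := by
  unfold dx
  rw [fderiv_comp_add_right]

theorem dy_shift_9730 (u : ℂ → ℝ) (c z : ℂ) : dy (fun z => u (z + c)) z = dy u (z + c) := by
  unfold dy
  rw [fderiv_comp_add_right]

theorem dx_sub_9730 {u v : ℂ → ℝ} (hu : Differentiable ℝ u) (hv : Differentiable ℝ v) (z : ℂ) :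
    dx (fun z => u z - v z) z = dx u z - dx v z := by
  unfold dx
  rw [fderiv_fun_sub (hu z) (hv z)]
  rfl

theorem dy_sub_9730 {u v : ℂ → ℝ} (hu : Differentiable ℝ u) (hv : Differentiable ℝ v) (z : ℂ) :
    dy (fun z => u z - v z) z = dy u z - dy v z := by
  unfold dy
  rw [fderiv_fun_sub (hu z) (hv z)]
  rfl

/-- difference of two translates -/
noncomputable def Dd9730 (u : ℂ → ℝ) (a b : ℂ) (z : ℂ) : ℝ := u (z + a) - u (z + b)

theorem Dd9730_sm {u : ℂ → ℝ} (hu : Sm9730 u) (a b : ℂ) : Sm9730 (Dd9730 u a b) :=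
  (hu.shift a).sub (hu.shift b)

theorem Dd9730_dx {u : ℂ → ℝ} (hu : Sm9730 u) (a b : ℂ) : dx (Dd9730 u a b) = Dd9730 (dx u) a b := by
  funext z
  unfold Dd9730
  rw [dx_sub_9730 (hu.shift a).diff (hu.shift b).diff, dx_shift_9730, dx_shift_9730]

theorem Dd9730_dy {u : ℂ → ℝ} (hu : Sm9730 u) (a b : ℂ) : dy (Dd9730 u a b) = Dd9730 (dy u) a b := by
  funext z
  unfold Dd9730
  rw [dy_sub_9730 (hu.shift a).diff (hu.shift b).diff, dy_shift_9730, dy_shift_9730]

theorem Dd9730_Lop {u : ℂ → ℝ} (hu : Sm9730 u) (ρ : ℝ) (a b z : ℂ) :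
    Lop ρ (Dd9730 u a b) z = Lop ρ u (z + a) - Lop ρ u (z + b) := by
  unfold Lop
  rw [Dd9730_dx hu, Dd9730_dy hu, Dd9730_dx hu.dx, Dd9730_dy hu.dy]
  unfold Dd9730
  ring

/-- where a difference of horizontal translates is large, it is a subsolution -/
theorem Dd9730_sub {ρ : ℝ} {h ω : ℝ → ℝ} (hd : Dat ρ h ω) :
    ∃ θ : ℝ → ℝ, (∀ δ, 0 ≤ θ δ) ∧ Tendsto θ (𝓝[>] 0) (𝓝 0) ∧ ∀ C, ∀ U, ClsS ρ h C ω U →
      ∀ δ ∈ Ioc (0 : ℝ) 1, ∀ a b : ℝ, ∀ z, θ δ < Dd9730 (moll δ U) a b z →
        0 ≤ Lop ρ (Dd9730 (moll δ U) a b) z := by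
  obtain ⟨κ, hκ0, hκ, hup⟩ := moll_upper hd
  refine ⟨fun δ => κ δ + ω δ, fun δ => add_nonneg (hκ0 δ) (hd.om0 δ), ?_, ?_⟩
  · simpa using hκ.add hd.omlim
  · intro C U hU δ hδ a b z hz
    rw [Dd9730_Lop (sm_moll_9730 hδ.1 hU.loc)]
    have h1 := hU.sub δ hδ (z + a)
    have h2 := hU.sub δ hδ (z + b)
    rcases h2.lt_or_eq with h3 | h3
    · have h4 := hU.con δ hδ (z + b) h3
      have h5 := hup C U hU δ hδ (z + a)
      have h6 : (z + (a : ℂ)).im = z.im := by simp
      have h7 : (z + (b : ℂ)).im = z.im := by simp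
      rw [h7] at h4
      rw [h6] at h5
      unfold Dd9730 at hz
      exfalso
      linarith
    · rw [← h3, sub_zero]
      exact h1

theorem psid_comp_9730 {δ : ℝ} (hδ : 0 < δ) (z : ℂ) :
    HasCompactSupport (fun w => psid δ (z - w)) :=
  (psid_props δ hδ).2.1.comp_homeomorph (Homeomorph.subLeft z)

theorem psid_cont_9730 {δ : ℝ} (hδ : 0 < δ) : Continuous (psid δ) :=
  ((psid_props δ hδ).1 0).continuous

theorem psid_cont2_9730 {δ : ℝ} (hδ : 0 < δ) (z : ℂ) : Continuous (fun w => psid δ (z - w)) :=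
  (psid_cont_9730 hδ).comp (continuous_const.sub continuous_id)

theorem psid_one_9730 {δ : ℝ} (hδ : 0 < δ) (z : ℂ) : ∫ w, psid δ (z - w) = 1 := by
  rw [integral_sub_left_eq_self (fun w => psid δ w) volume z]
  exact (psid_props δ hδ).2.2.2.2.2.1

theorem moll_int_9730 {δ : ℝ} (hδ : 0 < δ) {g : ℂ → ℝ} (hg : Continuous g) (z : ℂ) :
    Integrable (fun w => psid δ (z - w) * g w) :=
  ((psid_cont2_9730 hδ z).mul hg).integrable_of_hasCompactSupport (psid_comp_9730 hδ z).mul_right

theorem psid_int_9730 {δ : ℝ} (hδ : 0 < δ) (z : ℂ) : Integrable (fun w => psid δ (z - w)) :=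
  (psid_cont2_9730 hδ z).integrable_of_hasCompactSupport (psid_comp_9730 hδ z)

theorem moll_close_9730 {δ : ℝ} (hδ : 0 < δ) {g : ℂ → ℝ} (hg : Continuous g) (z : ℂ) {ε : ℝ}
    (h : ∀ w, ‖w - z‖ < δ → |g w - g z| ≤ ε) : |moll δ g z - g z| ≤ ε := by
  have hp := psid_props δ hδ
  have h1 : moll δ g z - g z = ∫ w, psid δ (z - w) * (g w - g z) := by
    have h2 : ∫ w, psid δ (z - w) * (g w - g z) =
        ∫ w, (psid δ (z - w) * g w - psid δ (z - w) * g z) := by
      congr 1
      ext w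
      ring
    rw [h2, integral_sub (moll_int_9730 hδ hg z) ((psid_int_9730 hδ z).mul_const _),
      integral_mul_const, psid_one_9730 hδ, one_mul]
    rfl
  rw [h1, ← Real.norm_eq_abs]
  have h3 : ∫ w, psid δ (z - w) * ε = ε := by
    rw [integral_mul_const, psid_one_9730 hδ, one_mul]
  rw [← h3]
  apply norm_integral_le_of_norm_le ((psid_int_9730 hδ z).mul_const _)
  filter_upwards with w
  rw [norm_mul, Real.norm_eq_abs, Real.norm_eq_abs, abs_of_nonneg (hp.2.2.1 _)]
  by_cases hw : ‖w - z‖ < δ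
  · exact mul_le_mul_of_nonneg_left (h w hw) (hp.2.2.1 _)
  · have h4 : psid δ (z - w) = 0 := hp.2.2.2.1 _ (by
      rw [norm_sub_rev]
      exact not_lt.1 hw)
    rw [h4, zero_mul, zero_mul]

theorem moll_le_9730 {δ : ℝ} (hδ : 0 < δ) {g : ℂ → ℝ} (z : ℂ) {S : ℝ}
    (h : ∀ w, |g w| ≤ S) : |moll δ g z| ≤ S := by
  have hp := psid_props δ hδ
  have h3 : ∫ w, psid δ (z - w) * S = S := by
    rw [integral_mul_const, psid_one_9730 hδ, one_mul]
  rw [← h3, ← Real.norm_eq_abs]
  apply norm_integral_le_of_norm_le ((psid_int_9730 hδ z).mul_const _)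
  filter_upwards with w
  rw [norm_mul, Real.norm_eq_abs, Real.norm_eq_abs, abs_of_nonneg (hp.2.2.1 _)]
  exact mul_le_mul_of_nonneg_left (h w) (hp.2.2.1 _)

theorem moll_sub_9730 {δ : ℝ} (hδ : 0 < δ) {f g : ℂ → ℝ} (hf : Continuous f) (hg : Continuous g)
    (z : ℂ) : moll δ (fun w => f w - g w) z = moll δ f z - moll δ g z := by
  unfold moll
  rw [← integral_sub (moll_int_9730 hδ hf z) (moll_int_9730 hδ hg z)]
  congr 1
  ext w
  ring

theorem moll_Dd_9730 {δ : ℝ} (hδ : 0 < δ) {f : ℂ → ℝ} (hf : Continuous f) (a b : ℂ) :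
    moll δ (Dd9730 f a b) = Dd9730 (moll δ f) a b := by
  funext z
  have ha : Continuous (fun z => f (z + a)) := hf.comp (continuous_id.add continuous_const)
  have hb : Continuous (fun z => f (z + b)) := hf.comp (continuous_id.add continuous_const)
  have := moll_sub_9730 hδ ha hb z
  rw [moll_add_const, moll_add_const] at this
  exact this

theorem moll_grad_9730 {δ : ℝ} (hδ : 0 < δ) : ∃ A : ℝ, 0 < A ∧ ∀ g : ℂ → ℝ, Continuous g → ∀ S : ℝ,
    (∀ w, |g w| ≤ S) → ∀ z, |dx (moll δ g) z| ≤ A * S ∧ |dy (moll δ g) z| ≤ A * S := by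
  have hp := psid_props δ hδ
  obtain ⟨L, hL⟩ := (hp.1 1).lipschitzWith_of_hasCompactSupport hp.2.1 (by norm_num)
  refine ⟨L * volume.real (Metric.closedBall (0 : ℂ) (δ + 1)) + 1, by positivity, ?_⟩
  intro g hg S hS z
  have hS0 : 0 ≤ S := (abs_nonneg _).trans (hS 0)
  have key : ∀ t : ℂ, ‖t‖ ≤ 1 → |moll δ g (z + t) - moll δ g z| ≤
      (L * volume.real (Metric.closedBall (0 : ℂ) (δ + 1)) + 1) * S * ‖t‖ := by
    intro t ht
    have h1 : moll δ g (z + t) - moll δ g z =
        ∫ w in Metric.closedBall z (δ + 1), (psid δ (z + t - w) - psid δ (z - w)) * g w := by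
      rw [setIntegral_eq_integral_of_forall_compl_eq_zero]
      · unfold moll
        rw [← integral_sub (moll_int_9730 hδ hg _) (moll_int_9730 hδ hg _)]
        congr 1
        ext w
        ring
      · intro w hw
        rw [Metric.mem_closedBall, dist_comm, dist_eq_norm, not_le] at hw
        have h2 : psid δ (z - w) = 0 := hp.2.2.2.1 _ (by linarith)
        have h3 : psid δ (z + t - w) = 0 := hp.2.2.2.1 _ (by
          have h4 : z - w = (z + t - w) - t := by ring
          have h5 := norm_sub_le (z + t - w) t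
          rw [← h4] at h5
          linarith)
        rw [h2, h3, sub_zero, zero_mul]
    rw [h1, ← Real.norm_eq_abs]
    have h6 : ‖∫ w in Metric.closedBall z (δ + 1), (psid δ (z + t - w) - psid δ (z - w)) * g w‖ ≤
        (L * ‖t‖ * S) * volume.real (Metric.closedBall z (δ + 1)) := by
      apply norm_setIntegral_le_of_norm_le_const measure_closedBall_lt_top
      intro w _
      rw [norm_mul]
      have h7 := hL.dist_le_mul (z + t - w) (z - w)
      rw [dist_eq_norm, dist_eq_norm] at h7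
      have h8 : (z + t - w) - (z - w) = t := by ring
      rw [h8] at h7
      exact mul_le_mul h7 (hS w) (norm_nonneg _) (by positivity)
    rw [Measure.addHaar_real_closedBall_center] at h6
    refine h6.trans ?_
    have h9 : 0 ≤ S * ‖t‖ := by positivity
    nlinarith
  have hdiff : DifferentiableAt ℝ (moll δ g) z := (sm_moll_9730 hδ hg.locallyIntegrable).diff z
  have hC0 : 0 ≤ (L * volume.real (Metric.closedBall (0 : ℂ) (δ + 1)) + 1) * S := by positivity
  have hfd : ‖fderiv ℝ (moll δ g) z‖ ≤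
      (L * volume.real (Metric.closedBall (0 : ℂ) (δ + 1)) + 1) * S := by
    apply hdiff.hasFDerivAt.le_of_lip' hC0
    filter_upwards [Metric.closedBall_mem_nhds z one_pos] with x hx
    rw [Metric.mem_closedBall, dist_eq_norm] at hx
    have := key (x - z) hx
    rw [add_sub_cancel] at this
    exact this
  constructor
  · unfold dx
    have := (fderiv ℝ (moll δ g) z).le_opNorm 1
    rw [norm_one, mul_one] at this
    exact this.trans hfd
  · unfold dy
    have := (fderiv ℝ (moll δ g) z).le_opNorm I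
    rw [Complex.norm_I, mul_one] at this
    exact this.trans hfd

theorem moll_sq_9730 {δ : ℝ} (hδ : 0 < δ) {g : ℂ → ℝ} (hg : Continuous g) (z : ℂ) :
    moll δ g z ^ 2 ≤ moll δ (fun w => g w ^ 2) z := by
  have hp := psid_props δ hδ
  have h0 : 0 ≤ ∫ w, psid δ (z - w) * (g w - moll δ g z) ^ 2 :=
    integral_nonneg (fun w => mul_nonneg (hp.2.2.1 _) (sq_nonneg _))
  have h1 : ∫ w, psid δ (z - w) * (g w - moll δ g z) ^ 2 =
      moll δ (fun w => g w ^ 2) z - moll δ g z ^ 2 := by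
    have h2 : ∫ w, psid δ (z - w) * (g w - moll δ g z) ^ 2 =
        ∫ w, ((psid δ (z - w) * g w ^ 2 - psid δ (z - w) * g w * (2 * moll δ g z)) +
          psid δ (z - w) * moll δ g z ^ 2) := by
      congr 1
      ext w
      ring
    rw [h2, integral_add, integral_sub, integral_mul_const, integral_mul_const,
      psid_one_9730 hδ]
    · have h3 : ∫ w, psid δ (z - w) * g w = moll δ g z := rfl
      rw [h3]
      unfold moll
      ring
    · exact moll_int_9730 hδ (hg.pow 2) z
    · exact (moll_int_9730 hδ hg z).mul_const _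
    · exact (moll_int_9730 hδ (hg.pow 2) z).sub ((moll_int_9730 hδ hg z).mul_const _)
    · exact (psid_int_9730 hδ z).mul_const _
  linarith

theorem moll_ball_9730 {δ : ℝ} (hδ : 0 < δ) (hδ4 : δ ≤ 1 / 4) {g : ℂ → ℝ} (hg : Continuous g)
    (hg0 : ∀ z, 0 ≤ g z) (z0 : ℂ) :
    ∫ z in Metric.closedBall z0 (1 / 2), moll δ g z ≤ ∫ z in Metric.closedBall z0 1, g z := by
  have hp := psid_props δ hδ
  let η : ContDiffBump z0 := ⟨1 / 2, 3 / 4, by norm_num, by norm_num⟩
  have hηc : Continuous η := η.continuous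
  have hηs : HasCompactSupport η := η.hasCompactSupport
  have hmc : Continuous (moll δ g) := (sm_moll_9730 hδ hg.locallyIntegrable).cont
  have hm0 : ∀ z, 0 ≤ moll δ g z := fun z =>
    integral_nonneg (fun w => mul_nonneg (hp.2.2.1 _) (hg0 w))
  have hηm : Continuous (moll δ η) := (sm_moll_9730 hδ hηc.locallyIntegrable).cont
  have h1 : ∫ z in Metric.closedBall z0 (1 / 2), moll δ g z ≤ ∫ z, moll δ g z * η z := by
    rw [← integral_indicator Metric.isClosed_closedBall.measurableSet]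
    apply integral_mono
    · exact (hmc.continuousOn.integrableOn_compact (isCompact_closedBall z0 (1 / 2))).integrable_indicator
        Metric.isClosed_closedBall.measurableSet
    · exact (hmc.mul hηc).integrable_of_hasCompactSupport hηs.mul_left
    · intro z
      by_cases hz : z ∈ Metric.closedBall z0 (1 / 2)
      · simp only [Set.indicator_of_mem hz]
        rw [η.one_of_mem_closedBall hz, mul_one]
      · simp only [Set.indicator_of_notMem hz]
        exact mul_nonneg (hm0 z) η.nonneg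
  have h2 : ∫ z, moll δ g z * η z = ∫ z, g z * moll δ η z :=
    moll_symm δ hδ g η hg.locallyIntegrable hηc hηs
  have h3 : ∫ z, g z * moll δ η z ≤ ∫ z in Metric.closedBall z0 1, g z := by
    have hz : ∀ z, z ∉ Metric.closedBall z0 1 → moll δ η z = 0 := by
      intro z hz
      unfold moll
      apply integral_eq_zero_of_ae
      filter_upwards with w
      rw [Metric.mem_closedBall, not_le] at hz
      by_cases hw : δ ≤ ‖z - w‖
      · simp only [hp.2.2.2.1 _ hw, zero_mul]
        rfl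
      · have h4 : η w = 0 := η.zero_of_le_dist (by
          change 3 / 4 ≤ dist w z0
          have h5 := dist_triangle z w z0
          rw [dist_eq_norm z w] at h5
          linarith)
        simp only [h4, mul_zero]
        rfl
    have hle : ∀ z, moll δ η z ≤ 1 := fun z =>
      (le_abs_self _).trans (moll_le_9730 hδ z (fun w => by
        rw [abs_of_nonneg η.nonneg]
        exact η.le_one))
    rw [← setIntegral_eq_integral_of_forall_compl_eq_zero (s := Metric.closedBall z0 1)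
      (fun z h => by rw [hz z h, mul_zero])]
    apply setIntegral_mono_on
    · exact (hg.mul hηm).continuousOn.integrableOn_compact (isCompact_closedBall z0 1)
    · exact hg.continuousOn.integrableOn_compact (isCompact_closedBall z0 1)
    · exact Metric.isClosed_closedBall.measurableSet
    · intro z _
      exact mul_le_of_le_one_right (hg0 z) (hle z)
  linarith

theorem box_compact_9730 (x0 x1 : ℝ) : IsCompact (box x0 x1) :=
  (isCompact_Icc (a := x0) (b := x1)).reProdIm (isCompact_Icc (a := 0) (b := 2 * Real.pi))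

theorem int_shift_ball_9730 (f : ℂ → ℝ) (z0 c : ℂ) (r : ℝ) :
    ∫ z in Metric.closedBall z0 r, f (z + c) = ∫ z in Metric.closedBall (z0 + c) r, f z := by
  have h0 := integral_add_right_eq_self (μ := (volume : Measure ℂ))
    ((Metric.closedBall (z0 + c) r).indicator f) c
  rw [← integral_indicator Metric.isClosed_closedBall.measurableSet,
    ← integral_indicator Metric.isClosed_closedBall.measurableSet, ← h0]
  congr 1
  ext z
  by_cases hz : z ∈ Metric.closedBall z0 r
  · have h2 : z + c ∈ Metric.closedBall (z0 + c) r := by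
      rw [Metric.mem_closedBall] at hz ⊢
      rwa [dist_add_right]
    rw [Set.indicator_of_mem hz, Set.indicator_of_mem h2]
  · have h2 : z + c ∉ Metric.closedBall (z0 + c) r := by
      rw [Metric.mem_closedBall] at hz ⊢
      rwa [dist_add_right]
    rw [Set.indicator_of_notMem hz, Set.indicator_of_notMem h2]

theorem box_cover_9730 {f : ℂ → ℝ} (hf : Continuous f) (h0 : ∀ z, 0 ≤ f z)
    (hper : ∀ z, f (z + 2 * Real.pi * I) = f z) {M : ℝ}
    (hM : ∀ x0 : ℝ, ∫ z in box x0 (x0 + 1), f z ≤ M) (z0 : ℂ) :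
    ∫ z in Metric.closedBall z0 1, f z ≤ 4 * M := by
  have hpi := Real.pi_pos
  set k : ℤ := ⌊(z0.im - 1) / (2 * Real.pi)⌋ with hk
  have hk1 : (k : ℝ) * (2 * Real.pi) ≤ z0.im - 1 := by
    have := Int.floor_le ((z0.im - 1) / (2 * Real.pi))
    rwa [le_div_iff₀ (by positivity)] at this
  have hk2 : z0.im - 1 < ((k : ℝ) + 1) * (2 * Real.pi) := by
    have := Int.lt_floor_add_one ((z0.im - 1) / (2 * Real.pi))
    rwa [div_lt_iff₀ (by positivity)] at this
  have hperk : ∀ (n : ℤ) (z : ℂ), f (z - n * (2 * Real.pi * I)) = f z := by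
    intro n z
    have h1 : Function.Periodic f (2 * Real.pi * I) := hper
    have := h1.sub_zsmul_eq n (x := z)
    rwa [zsmul_eq_mul] at this
  let g : ℝ → ℤ → ℂ → ℝ := fun x n z =>
    (box x (x + 1)).indicator f (z - n * (2 * Real.pi * I))
  have hgint0 : ∀ x, Integrable ((box x (x + 1)).indicator f) := fun x =>
    (hf.continuousOn.integrableOn_compact (box_compact_9730 x (x + 1))).integrable_indicator
      (box_compact_9730 x (x + 1)).measurableSet
  have hgint : ∀ x n, Integrable (g x n) := fun x n => (hgint0 x).comp_sub_right _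
  have hgval : ∀ x n, ∫ z, g x n z ≤ M := by
    intro x n
    have : ∫ z, g x n z = ∫ z, (box x (x + 1)).indicator f z :=
      integral_sub_right_eq_self (fun z => (box x (x + 1)).indicator f z)
        (n * (2 * Real.pi * I) : ℂ)
    rw [this, integral_indicator (box_compact_9730 x (x + 1)).measurableSet]
    exact hM x
  have hg0 : ∀ x n z, 0 ≤ g x n z := fun x n z => Set.indicator_nonneg (fun w _ => h0 w) _
  have hle : ∀ z, (Metric.closedBall z0 1).indicator f z ≤
      (g (z0.re - 1) k z + g (z0.re - 1) (k + 1) z) + (g z0.re k z + g z0.re (k + 1) z) := by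
    intro z
    by_cases hz : z ∈ Metric.closedBall z0 1
    · rw [Set.indicator_of_mem hz]
      rw [Metric.mem_closedBall, dist_eq_norm] at hz
      have hre := (Complex.abs_re_le_norm (z - z0)).trans hz
      have him := (Complex.abs_im_le_norm (z - z0)).trans hz
      rw [Complex.sub_re, abs_le] at hre
      rw [Complex.sub_im, abs_le] at him
      have hin : ∀ (x : ℝ) (n : ℤ), z.re ∈ Icc x (x + 1) →
          z.im - n * (2 * Real.pi) ∈ Icc 0 (2 * Real.pi) → g x n z = f z := by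
        intro x n h1 h2
        have hmem : z - n * (2 * Real.pi * I) ∈ box x (x + 1) := by
          constructor
          · have : (z - n * (2 * Real.pi * I)).re = z.re := by simp
            rw [this]
            exact h1
          · have : (z - n * (2 * Real.pi * I)).im = z.im - n * (2 * Real.pi) := by simp
            rw [this]
            exact h2
        simp only [g]
        rw [Set.indicator_of_mem hmem, hperk]
      have e1 := hg0 (z0.re - 1) k z
      have e2 := hg0 (z0.re - 1) (k + 1) z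
      have e3 := hg0 z0.re k z
      have e4 := hg0 z0.re (k + 1) z
      have hpi3 := Real.pi_gt_three
      by_cases hx : z.re ≤ z0.re
      · have hx' : z.re ∈ Icc (z0.re - 1) (z0.re - 1 + 1) := ⟨by linarith, by linarith⟩
        by_cases hy : z.im - k * (2 * Real.pi) ≤ 2 * Real.pi
        · have := hin _ k hx' ⟨by linarith, hy⟩
          linarith
        · have := hin _ (k + 1) hx' ⟨by push_cast; linarith, by push_cast; linarith⟩
          linarith
      · have hx' : z.re ∈ Icc z0.re (z0.re + 1) := ⟨by linarith, by linarith⟩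
        by_cases hy : z.im - k * (2 * Real.pi) ≤ 2 * Real.pi
        · have := hin _ k hx' ⟨by linarith, hy⟩
          linarith
        · have := hin _ (k + 1) hx' ⟨by push_cast; linarith, by push_cast; linarith⟩
          linarith
    · rw [Set.indicator_of_notMem hz]
      have e1 := hg0 (z0.re - 1) k z
      have e2 := hg0 (z0.re - 1) (k + 1) z
      have e3 := hg0 z0.re k z
      have e4 := hg0 z0.re (k + 1) z
      linarith
  rw [← integral_indicator Metric.isClosed_closedBall.measurableSet]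
  have hball : Integrable ((Metric.closedBall z0 1).indicator f) :=
    (hf.continuousOn.integrableOn_compact (isCompact_closedBall z0 1)).integrable_indicator
      Metric.isClosed_closedBall.measurableSet
  have h1 := integral_mono hball (((hgint (z0.re - 1) k).add (hgint (z0.re - 1) (k + 1))).add
    ((hgint z0.re k).add (hgint z0.re (k + 1)))) hle
  have h2 : ∫ z, ((g (z0.re - 1) k + g (z0.re - 1) (k + 1)) + (g z0.re k + g z0.re (k + 1))) z =
      ((∫ z, g (z0.re - 1) k z) + (∫ z, g (z0.re - 1) (k + 1) z)) +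
      ((∫ z, g z0.re k z) + (∫ z, g z0.re (k + 1) z)) := by
    rw [integral_add' ((hgint (z0.re - 1) k).add (hgint (z0.re - 1) (k + 1)))
      ((hgint z0.re k).add (hgint z0.re (k + 1))), integral_add' (hgint _ _) (hgint _ _),
      integral_add' (hgint _ _) (hgint _ _)]
  rw [h2] at h1
  have e1 := hgval (z0.re - 1) k
  have e2 := hgval (z0.re - 1) (k + 1)
  have e3 := hgval z0.re k
  have e4 := hgval z0.re (k + 1)
  linarith

theorem l1_shift_9730 {u : ℂ → ℝ} (hu : Sm9730 u) {S : ℝ}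
    (hS : ∀ z1, ∫ z in Metric.closedBall z1 1, |dx u z| ≤ S) (τ : ℝ) (z0 : ℂ) :
    ∫ z in Metric.closedBall z0 1, |u (z + τ) - u z| ≤ |τ| * S := by
  have hcd : Continuous (dx u) := hu.dx.cont
  have hpt : ∀ z, |u (z + τ) - u z| ≤ ∫ s in Icc (0 : ℝ) 1, |τ| * |dx u (z + s * τ)| := by
    intro z
    have hder : ∀ s ∈ uIcc (0 : ℝ) 1, HasDerivAt (fun s : ℝ => u (z + s * τ))
        (τ * dx u (z + s * τ)) s := by
      intro s _
      have h1 : HasDerivAt (fun s : ℝ => z + (s : ℂ) * τ) (τ : ℂ) s := by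
        have h2 : HasDerivAt (fun s : ℝ => (s : ℂ)) 1 s := Complex.ofRealCLM.hasDerivAt
        have h3 := (h2.mul_const (τ : ℂ)).const_add z
        simpa using h3
      have h4 := (hu.diff (z + s * τ)).hasFDerivAt.comp_hasDerivAt s h1
      have h5 : fderiv ℝ u (z + s * τ) (τ : ℂ) = τ * dx u (z + s * τ) := by
        unfold dx
        have h6 : (τ : ℂ) = τ • (1 : ℂ) := by simp
        rw [h6, map_smul, smul_eq_mul]
      rw [h5] at h4
      exact h4
    have hcont : Continuous (fun s : ℝ => τ * dx u (z + s * τ)) := by fun_prop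
    have h7 := intervalIntegral.integral_eq_sub_of_hasDerivAt hder (hcont.intervalIntegrable 0 1)
    have h8 : u (z + τ) - u z = ∫ s in (0 : ℝ)..1, τ * dx u (z + s * τ) := by
      rw [h7]
      simp
    rw [h8]
    have h9 := intervalIntegral.norm_integral_le_integral_norm (μ := volume) zero_le_one
      (f := fun s : ℝ => τ * dx u (z + s * τ))
    rw [Real.norm_eq_abs] at h9
    refine h9.trans (le_of_eq ?_)
    rw [intervalIntegral.integral_of_le zero_le_one, ← integral_Icc_eq_integral_Ioc]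
    congr 1
    ext s
    rw [norm_mul, Real.norm_eq_abs, Real.norm_eq_abs]
  have hcball := isCompact_closedBall z0 1
  have huncurry : Continuous (Function.uncurry fun (z : ℂ) (s : ℝ) => |τ| * |dx u (z + s * τ)|) := by
    unfold Function.uncurry
    fun_prop
  have hprod : Integrable (Function.uncurry fun (z : ℂ) (s : ℝ) => |τ| * |dx u (z + s * τ)|)
      ((volume.restrict (Metric.closedBall z0 1)).prod (volume.restrict (Icc (0 : ℝ) 1))) := by
    rw [Measure.prod_restrict]
    exact huncurry.continuousOn.integrableOn_compact (hcball.prod isCompact_Icc)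
  calc ∫ z in Metric.closedBall z0 1, |u (z + τ) - u z|
      ≤ ∫ z in Metric.closedBall z0 1, ∫ s in Icc (0 : ℝ) 1, |τ| * |dx u (z + s * τ)| := by
        apply integral_mono
        · have hc : Continuous (fun z : ℂ => |u (z + τ) - u z|) :=
            ((hu.shift τ).cont.sub hu.cont).abs
          exact hc.continuousOn.integrableOn_compact hcball
        · exact hprod.integral_prod_left
        · exact hpt
    _ = ∫ s in Icc (0 : ℝ) 1, ∫ z in Metric.closedBall z0 1, |τ| * |dx u (z + s * τ)| :=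
        integral_integral_swap hprod
    _ ≤ ∫ s in Icc (0 : ℝ) 1, |τ| * S := by
        apply integral_mono hprod.integral_prod_right (integrableOn_const (by simp))
        intro s
        change ∫ z in Metric.closedBall z0 1, |τ| * |dx u (z + s * τ)| ≤ |τ| * S
        rw [integral_const_mul]
        apply mul_le_mul_of_nonneg_left _ (abs_nonneg _)
        rw [int_shift_ball_9730 (fun z => |dx u z|)]
        exact hS _
    _ = |τ| * S := by simp

theorem abs_int_9730 {g : ℂ → ℝ} (hg : Continuous g) {M : ℝ} (z1 : ℂ)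
    (hM : ∫ z in Metric.closedBall z1 1, g z ^ 2 ≤ M) :
    ∫ z in Metric.closedBall z1 1, |g z| ≤ (volume.real (Metric.closedBall (0 : ℂ) 1) + M) / 2 := by
  have hc := isCompact_closedBall z1 1
  have h1 : ∫ z in Metric.closedBall z1 1, |g z| ≤
      ∫ z in Metric.closedBall z1 1, (1 / 2 + (1 / 2) * g z ^ 2) := by
    apply integral_mono
    · exact hg.abs.continuousOn.integrableOn_compact hc
    · have : Continuous (fun z => 1 / 2 + (1 / 2) * g z ^ 2) := by fun_prop
      exact this.continuousOn.integrableOn_compact hc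
    · intro z
      simp only
      have := sq_nonneg (|g z| - 1)
      rw [sub_sq, sq_abs] at this
      linarith
  have h2 : ∫ z in Metric.closedBall z1 1, (1 / 2 + (1 / 2) * g z ^ 2) =
      1 / 2 * volume.real (Metric.closedBall z1 1) +
        (1 / 2) * ∫ z in Metric.closedBall z1 1, g z ^ 2 := by
    rw [integral_add, integral_const_mul, setIntegral_const, smul_eq_mul]
    · ring
    · exact integrableOn_const measure_closedBall_lt_top.ne
    · have : Continuous (fun z => (1 / 2) * g z ^ 2) := by fun_prop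
      exact this.continuousOn.integrableOn_compact hc
  rw [h2, Measure.addHaar_real_closedBall_center] at h1
  linarith

theorem sup_9730 {ρ : ℝ} {h ω : ℝ → ℝ} (hd : Dat ρ h ω) (C : ℝ) :
    ∃ (θ : ℝ → ℝ) (K δ0 : ℝ), Tendsto θ (𝓝[>] 0) (𝓝 0) ∧ 0 < δ0 ∧ δ0 ≤ 1 ∧ 0 < K ∧
      ∀ U, ClsS ρ h C ω U → ∀ δ ∈ Ioc (0 : ℝ) δ0, ∀ N : ℝ, 0 < N → θ δ ≤ N →
        (∀ a b : ℝ, ∀ z, N < Dd9730 (moll δ U) a b z → 0 ≤ Lop ρ (Dd9730 (moll δ U) a b) z) ∧
        ∀ τ : ℝ, |τ| ≤ 1 → ∀ z, |Dd9730 (moll δ U) τ 0 z| ≤ K * (|τ| + N) := by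
  obtain ⟨θ, -, hθ, hsub⟩ := Dd9730_sub hd
  obtain ⟨M2, δ0, hδ0, hδ01, hM2, hgrad⟩ := grad_bdd hd C
  obtain ⟨C1, hC1, hsb⟩ := sub_bound ρ hd.rho
  set V : ℝ := volume.real (Metric.closedBall (0 : ℂ) 1) with hV
  have hV0 : 0 ≤ V := measureReal_nonneg
  set S : ℝ := (V + 4 * M2) / 2 with hS
  have hS0 : 0 ≤ S := by positivity
  refine ⟨θ, C1 * (S + 1), δ0, hθ, hδ0, hδ01, by positivity, ?_⟩
  intro U hU δ hδ N hN hθN
  have hδ1 : δ ∈ Ioc (0 : ℝ) 1 := ⟨hδ.1, hδ.2.trans hδ01⟩
  have hu : Sm9730 (moll δ U) := sm_moll_9730 hδ.1 hU.loc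
  have hLop : ∀ a b : ℝ, ∀ z, N < Dd9730 (moll δ U) a b z → 0 ≤ Lop ρ (Dd9730 (moll δ U) a b) z :=
    fun a b z hz => hsub C U hU δ hδ1 a b z (lt_of_le_of_lt hθN hz)
  refine ⟨hLop, ?_⟩
  -- L1 bound of the derivative
  have hdxper : ∀ z, dx (moll δ U) (z + 2 * Real.pi * I) = dx (moll δ U) z := by
    intro z
    have h1 : (fun z => moll δ U (z + 2 * Real.pi * I)) = moll δ U := by
      funext w
      exact moll_per hU δ w
    rw [← dx_shift_9730, h1]
  have hdyper : ∀ z, dy (moll δ U) (z + 2 * Real.pi * I) = dy (moll δ U) z := by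
    intro z
    have h1 : (fun z => moll δ U (z + 2 * Real.pi * I)) = moll δ U := by
      funext w
      exact moll_per hU δ w
    rw [← dy_shift_9730, h1]
  have hcx := hu.dx.cont
  have hcy := hu.dy.cont
  have hbox : ∀ z1, ∫ z in Metric.closedBall z1 1,
      (dx (moll δ U) z ^ 2 + dy (moll δ U) z ^ 2) ≤ 4 * M2 := fun z1 =>
    box_cover_9730 (by fun_prop) (fun z => by positivity)
      (fun z => by rw [hdxper, hdyper]) (fun x0 => (hgrad U hU δ hδ x0).1) z1
  have hL1 : ∀ z1, ∫ z in Metric.closedBall z1 1, |dx (moll δ U) z| ≤ S := by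
    intro z1
    apply abs_int_9730 hcx
    refine le_trans ?_ (hbox z1)
    apply setIntegral_mono_on
    · exact (hcx.pow 2).continuousOn.integrableOn_compact (isCompact_closedBall z1 1)
    · exact ((hcx.pow 2).add (hcy.pow 2)).continuousOn.integrableOn_compact
        (isCompact_closedBall z1 1)
    · exact Metric.isClosed_closedBall.measurableSet
    · intro z _
      have := sq_nonneg (dy (moll δ U) z)
      linarith
  intro τ hτ z
  have hint : ∀ z0, ∫ z in Metric.closedBall z0 1, |moll δ U (z + τ) - moll δ U z| ≤ |τ| * S :=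
    fun z0 => l1_shift_9730 hu hL1 τ z0
  have h1 := hsb (Dd9730 (moll δ U) τ (0 : ℝ)) (Dd9730_sm hu _ _ 4) N hN (hLop τ 0) z
  have h2 := hsb (Dd9730 (moll δ U) (0 : ℝ) τ) (Dd9730_sm hu _ _ 4) N hN (hLop 0 τ) z
  have h3 : ∀ z, |Dd9730 (moll δ U) τ (0 : ℝ) z| = |moll δ U (z + τ) - moll δ U z| := fun z => by
    simp [Dd9730]
  have h4 : ∀ z, |Dd9730 (moll δ U) (0 : ℝ) τ z| = |moll δ U (z + τ) - moll δ U z| := fun z => by
    rw [abs_sub_comm]
    simp [Dd9730]
  simp only [h3] at h1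
  simp only [h4] at h2
  have h5 := hint z
  have h6 : C1 * ((∫ z in Metric.closedBall z 1, |moll δ U (z + τ) - moll δ U z|) + N) ≤
      C1 * (S + 1) * (|τ| + N) := by
    have h7 : (∫ z in Metric.closedBall z 1, |moll δ U (z + τ) - moll δ U z|) + N ≤
        (S + 1) * (|τ| + N) := by
      have : 0 ≤ |τ| := abs_nonneg τ
      have : 0 ≤ S * N := by positivity
      nlinarith
    rw [mul_assoc]
    exact mul_le_mul_of_nonneg_left h7 hC1.le
  have h8 : Dd9730 (moll δ U) (0 : ℝ) τ z = - Dd9730 (moll δ U) τ 0 z := by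
    simp [Dd9730]
  have h9 : Dd9730 (moll δ U) τ (0 : ℝ) z = Dd9730 (moll δ U) τ 0 z := by
    simp [Dd9730]
  rw [h8] at h2
  rw [h9] at h1
  rw [abs_le]
  constructor
  · linarith
  · linarith

theorem moll_swap_9730 {δ δ' : ℝ} (hδ : 0 < δ) (hδ' : 0 < δ') {U : ℂ → ℝ}
    (hU : LocallyIntegrable U volume) (a b : ℂ) :
    moll δ (Dd9730 (moll δ' U) a b) = moll δ' (Dd9730 (moll δ U) a b) := by
  rw [moll_Dd_9730 hδ (sm_moll_9730 hδ' hU).cont, moll_Dd_9730 hδ' (sm_moll_9730 hδ hU).cont,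
    moll_comm δ δ' hδ hδ' U hU]

/-- TARGET 1: translates in `x` are Lipschitz close -/
theorem shift_lip {ρ : ℝ} {h ω : ℝ → ℝ} (hd : Dat ρ h ω) (C : ℝ) :
    ∃ M δ0 : ℝ, 0 < δ0 ∧ δ0 ≤ 1 ∧ 0 < M ∧ ∀ U, ClsS ρ h C ω U → ∀ δ ∈ Ioc (0 : ℝ) δ0,
      ∀ τ : ℝ, |τ| ≤ 1 → ∀ z, |moll δ U (z + τ) - moll δ U z| ≤ M * |τ| := by
  obtain ⟨θ, K, δ0, hθ, hδ0, hδ01, hK, hmain⟩ := sup_9730 hd C
  refine ⟨2 * K + 1, δ0, hδ0, hδ01, by positivity, ?_⟩
  intro U hU δ' hδ' τ hτ z
  rcases eq_or_ne τ 0 with rfl | hτ0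
  · simp
  have hτp : 0 < |τ| := abs_pos.2 hτ0
  have hE : Continuous (Dd9730 (moll δ' U) τ 0) := (Dd9730_sm (sm_moll_9730 hδ'.1 hU.loc) _ _).cont
  obtain ⟨η, hη, hη'⟩ := Metric.continuousAt_iff.1 (hE.continuousAt (x := z)) |τ| hτp
  have hev : ∀ᶠ δ in 𝓝[>] (0 : ℝ), θ δ < |τ| ∧ δ < min δ0 η ∧ 0 < δ := by
    refine (hθ.eventually (gt_mem_nhds hτp)).and (Filter.Eventually.and ?_ ?_)
    · exact nhdsWithin_le_nhds (gt_mem_nhds (lt_min hδ0 hη))
    · exact self_mem_nhdsWithin
  obtain ⟨δ, h1, h2, h3⟩ := hev.exists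
  have h4 := (hmain U hU δ ⟨h3, (h2.trans_le (min_le_left _ _)).le⟩ |τ| hτp h1.le).2 τ hτ
  have h5 : |moll δ (Dd9730 (moll δ' U) τ 0) z - Dd9730 (moll δ' U) τ 0 z| ≤ |τ| := by
    apply moll_close_9730 h3 hE
    intro w hw
    have h6 := hη' (x := w) (by
      rw [dist_eq_norm]
      exact hw.trans (h2.trans_le (min_le_right _ _)))
    rw [Real.dist_eq] at h6
    exact h6.le
  rw [moll_swap_9730 h3 hδ'.1 hU.loc] at h5
  have h6 := moll_le_9730 hδ'.1 z h4
  have h7 : Dd9730 (moll δ' U) τ 0 z = moll δ' U (z + τ) - moll δ' U z := by simp [Dd9730]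
  rw [← h7]
  have h8 := abs_sub_abs_le_abs_sub (Dd9730 (moll δ' U) τ 0 z) (moll δ' (Dd9730 (moll δ U) τ 0) z)
  rw [abs_sub_comm] at h5
  linarith

noncomputable def Gq9730 (u : ℂ → ℝ) (z : ℂ) : ℝ := dx u z ^ 2 + dy u z ^ 2

theorem dxc_9730 {F : ℂ → ℝ} (hF : ContDiff ℝ 1 F) : Continuous (dx F) :=
  (hF.continuous_fderiv (by norm_num)).clm_apply continuous_const

theorem dyc_9730 {F : ℂ → ℝ} (hF : ContDiff ℝ 1 F) : Continuous (dy F) :=
  (hF.continuous_fderiv (by norm_num)).clm_apply continuous_const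

theorem G2c_9730 {F : ℂ → ℝ} (hF : ContDiff ℝ 1 F) : Continuous (Gq9730 F) :=
  ((dxc_9730 hF).pow 2).add ((dyc_9730 hF).pow 2)

theorem G2_moll_9730 {δ : ℝ} (hδ : 0 < δ) (hδ4 : δ ≤ 1 / 4) {F : ℂ → ℝ} (hF : ContDiff ℝ 1 F)
    (z0 : ℂ) : ∫ z in Metric.closedBall z0 (1 / 2), Gq9730 (moll δ F) z ≤
      ∫ z in Metric.closedBall z0 1, Gq9730 F z := by
  have hcx := dxc_9730 hF
  have hcy := dyc_9730 hF
  have hx2 : Continuous (fun z => dx F z ^ 2) := hcx.pow 2
  have hy2 : Continuous (fun z => dy F z ^ 2) := hcy.pow 2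
  have hmx : Continuous (moll δ (fun w => dx F w ^ 2)) :=
    (sm_moll_9730 hδ (hcx.pow 2).locallyIntegrable).cont
  have hmy : Continuous (moll δ (fun w => dy F w ^ 2)) :=
    (sm_moll_9730 hδ (hcy.pow 2).locallyIntegrable).cont
  have h1 : ∫ z in Metric.closedBall z0 (1 / 2), Gq9730 (moll δ F) z ≤
      ∫ z in Metric.closedBall z0 (1 / 2),
        (moll δ (fun w => dx F w ^ 2) z + moll δ (fun w => dy F w ^ 2) z) := by
    apply integral_mono
    · exact (G2c_9730 (sm_moll_9730 hδ hF.continuous.locallyIntegrable 1)).continuousOn.integrableOn_compact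
        (isCompact_closedBall z0 _)
    · exact (hmx.add hmy).continuousOn.integrableOn_compact (isCompact_closedBall z0 _)
    · intro z
      simp only [Gq9730]
      rw [dx_moll_smooth δ hδ F hF, dy_moll_smooth δ hδ F hF]
      exact add_le_add (moll_sq_9730 hδ hcx z) (moll_sq_9730 hδ hcy z)
  rw [integral_add (hmx.continuousOn.integrableOn_compact (isCompact_closedBall z0 _))
    (hmy.continuousOn.integrableOn_compact (isCompact_closedBall z0 _))] at h1
  have h2 := moll_ball_9730 hδ hδ4 hx2 (fun z => sq_nonneg _) z0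
  have h3 := moll_ball_9730 hδ hδ4 hy2 (fun z => sq_nonneg _) z0
  have h4 : ∫ z in Metric.closedBall z0 1, Gq9730 F z =
      (∫ z in Metric.closedBall z0 1, dx F z ^ 2) + ∫ z in Metric.closedBall z0 1, dy F z ^ 2 := by
    rw [← integral_add (hx2.continuousOn.integrableOn_compact (isCompact_closedBall z0 _))
      (hy2.continuousOn.integrableOn_compact (isCompact_closedBall z0 _))]
    rfl
  rw [h4]
  exact h1.trans (add_le_add h2 h3)

/-- gradient estimate for `moll δ' D`, `D` a difference of translates of `moll δ U` -/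
theorem gradD_9730 {ρ : ℝ} {Cc : ℝ}
    (hcacc : ∀ w : ℂ → ℝ, ContDiff ℝ 4 w → ∀ N : ℝ, 0 < N →
      (∀ z, N < w z → 0 ≤ Lop ρ w z) →
      ∀ z0, ∀ M : ℝ, 0 ≤ M → (∀ z ∈ Metric.closedBall z0 2, |w z| ≤ M) →
      ∫ z in Metric.closedBall z0 1, (dx (fun z => beN N (w z)) z ^ 2 + dy (fun z => beN N (w z)) z ^ 2)
        ≤ Cc * (M + N) ^ 2)
    {δ' : ℝ} (hδ' : 0 < δ') (hδ'4 : δ' ≤ 1 / 4) {A : ℝ}
    (hA : ∀ g : ℂ → ℝ, Continuous g → ∀ S : ℝ,
      (∀ w, |g w| ≤ S) → ∀ z, |dx (moll δ' g) z| ≤ A * S ∧ |dy (moll δ' g) z| ≤ A * S)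
    {D : ℂ → ℝ} (hD : Sm9730 D) {N M : ℝ} (hN : 0 < N) (hM : 0 ≤ M)
    (hL : ∀ z, N < D z → 0 ≤ Lop ρ D z)
    (hL' : ∀ z, N < - D z → 0 ≤ Lop ρ (fun z => - D z) z)
    (hb : ∀ z, |D z| ≤ M) (z0 : ℂ) :
    ∫ z in Metric.closedBall z0 (1 / 2), Gq9730 (moll δ' D) z ≤
      8 * Cc * (M + N) ^ 2 + 64 * A ^ 2 * N ^ 2 * volume.real (Metric.closedBall (0 : ℂ) (1 / 2)) := by
  have hbe := beN_props N hN
  have hD4 : ContDiff ℝ 4 D := hD 4
  set Fp : ℂ → ℝ := fun z => beN N (D z) with hFp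
  set Fm : ℂ → ℝ := fun z => beN N (- D z) with hFm
  have hFp4 : ContDiff ℝ 4 Fp := hbe.1.comp hD4
  have hFm4 : ContDiff ℝ 4 Fm := hbe.1.comp hD4.neg
  have hFp1 : ContDiff ℝ 1 Fp := hFp4.of_le (by norm_num)
  have hFm1 : ContDiff ℝ 1 Fm := hFm4.of_le (by norm_num)
  set F : ℂ → ℝ := fun z => Fp z - Fm z with hF
  have hF1 : ContDiff ℝ 1 F := hFp1.sub hFm1
  have c1 := hcacc D hD4 N hN hL z0 M hM (fun z _ => hb z)
  have c2 := hcacc (fun z => - D z) hD4.neg N hN hL' z0 M hM (fun z _ => by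
    rw [abs_neg]; exact hb z)
  change ∫ z in Metric.closedBall z0 1, Gq9730 Fp z ≤ _ at c1
  change ∫ z in Metric.closedBall z0 1, Gq9730 Fm z ≤ _ at c2
  -- distance of `F` and `D`
  have hdist : ∀ w, |D w - F w| ≤ 4 * N := by
    intro w
    have h1 := hbe.2.2.2.2.2.2.2.2.2.2.2 (D w)
    have h2 := hbe.2.2.2.2.2.2.2.2.2.2.2 (- D w)
    have h3 : D w - F w = -(beN N (D w) - max (D w) 0) + (beN N (- D w) - max (- D w) 0) := by
      simp only [hF, hFp, hFm]
      have h4 : D w = max (D w) 0 - max (- D w) 0 := by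
        rcases le_total 0 (D w) with h | h
        · rw [max_eq_left h, max_eq_right (by linarith)]; ring
        · rw [max_eq_right h, max_eq_left (by linarith)]; ring
      linarith
    rw [h3]
    refine (abs_add_le _ _).trans ?_
    rw [abs_neg]
    linarith
  have hDc : Continuous D := hD.cont
  have hgc : Continuous (fun w => D w - F w) := hDc.sub hF1.continuous
  have hg1 : ContDiff ℝ 1 (fun w => D w - F w) := (hD 1).sub hF1
  have hsplit : ∀ z, Gq9730 (moll δ' D) z ≤ 2 * Gq9730 (moll δ' F) z + 64 * A ^ 2 * N ^ 2 := by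
    intro z
    have h1 : moll δ' D = fun z => moll δ' F z - moll δ' (fun w => F w - D w) z := by
      funext z
      rw [moll_sub_9730 hδ' hF1.continuous hDc]
      ring
    have hfc : Continuous (fun w => F w - D w) := hF1.continuous.sub hDc
    have hd1 : Differentiable ℝ (moll δ' F) := (sm_moll_9730 hδ' hF1.continuous.locallyIntegrable).diff
    have hd2 : Differentiable ℝ (moll δ' (fun w => F w - D w)) :=
      (sm_moll_9730 hδ' hfc.locallyIntegrable).diff
    have h2 := hA (fun w => F w - D w) hfc (4 * N) (fun w => by rw [abs_sub_comm]; exact hdist w) z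
    have h3 : dx (moll δ' D) z = dx (moll δ' F) z - dx (moll δ' (fun w => F w - D w)) z := by
      conv_lhs => rw [h1]
      exact dx_sub_9730 hd1 hd2 z
    have h4 : dy (moll δ' D) z = dy (moll δ' F) z - dy (moll δ' (fun w => F w - D w)) z := by
      conv_lhs => rw [h1]
      exact dy_sub_9730 hd1 hd2 z
    unfold Gq9730
    rw [h3, h4]
    have h5 : (dx (moll δ' (fun w => F w - D w)) z) ^ 2 ≤ (A * (4 * N)) ^ 2 := sq_le_sq' (by
      have := neg_abs_le (dx (moll δ' (fun w => F w - D w)) z)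
      linarith [h2.1]) ((le_abs_self _).trans h2.1)
    have h6 : (dy (moll δ' (fun w => F w - D w)) z) ^ 2 ≤ (A * (4 * N)) ^ 2 := sq_le_sq' (by
      have := neg_abs_le (dy (moll δ' (fun w => F w - D w)) z)
      linarith [h2.2]) ((le_abs_self _).trans h2.2)
    nlinarith [sq_nonneg (dx (moll δ' F) z + dx (moll δ' (fun w => F w - D w)) z),
      sq_nonneg (dy (moll δ' F) z + dy (moll δ' (fun w => F w - D w)) z)]
  have hF2 : ∀ z, Gq9730 F z ≤ 2 * Gq9730 Fp z + 2 * Gq9730 Fm z := by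
    intro z
    have h3 : dx F z = dx Fp z - dx Fm z :=
      dx_sub_9730 (hFp1.differentiable (by norm_num)) (hFm1.differentiable (by norm_num)) z
    have h4 : dy F z = dy Fp z - dy Fm z :=
      dy_sub_9730 (hFp1.differentiable (by norm_num)) (hFm1.differentiable (by norm_num)) z
    unfold Gq9730
    rw [h3, h4]
    nlinarith [sq_nonneg (dx Fp z + dx Fm z), sq_nonneg (dy Fp z + dy Fm z)]
  have hFint : ∫ z in Metric.closedBall z0 1, Gq9730 F z ≤ 4 * (Cc * (M + N) ^ 2) := by
    have h1 : ∫ z in Metric.closedBall z0 1, Gq9730 F z ≤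
        ∫ z in Metric.closedBall z0 1, (2 * Gq9730 Fp z + 2 * Gq9730 Fm z) := by
      apply integral_mono
      · exact (G2c_9730 hF1).continuousOn.integrableOn_compact (isCompact_closedBall z0 _)
      · exact (((G2c_9730 hFp1).const_mul 2).add ((G2c_9730 hFm1).const_mul 2)).continuousOn.integrableOn_compact
          (isCompact_closedBall z0 _)
      · exact hF2
    rw [integral_add, integral_const_mul, integral_const_mul] at h1
    · linarith
    · exact ((G2c_9730 hFp1).const_mul 2).continuousOn.integrableOn_compact (isCompact_closedBall z0 _)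
    · exact ((G2c_9730 hFm1).const_mul 2).continuousOn.integrableOn_compact (isCompact_closedBall z0 _)
  have hmF : Continuous (Gq9730 (moll δ' F)) :=
    G2c_9730 (sm_moll_9730 hδ' hF1.continuous.locallyIntegrable 1)
  have hmD : Continuous (Gq9730 (moll δ' D)) :=
    G2c_9730 (sm_moll_9730 hδ' hDc.locallyIntegrable 1)
  have h1 : ∫ z in Metric.closedBall z0 (1 / 2), Gq9730 (moll δ' D) z ≤
      ∫ z in Metric.closedBall z0 (1 / 2), (2 * Gq9730 (moll δ' F) z + 64 * A ^ 2 * N ^ 2) := by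
    apply integral_mono
    · exact hmD.continuousOn.integrableOn_compact (isCompact_closedBall z0 _)
    · exact ((hmF.const_mul 2).add continuous_const).continuousOn.integrableOn_compact
        (isCompact_closedBall z0 _)
    · exact hsplit
  rw [integral_add, integral_const_mul, setIntegral_const, smul_eq_mul,
    Measure.addHaar_real_closedBall_center] at h1
  · have h2 := G2_moll_9730 hδ' hδ'4 hF1 z0
    nlinarith
  · exact (hmF.const_mul 2).continuousOn.integrableOn_compact (isCompact_closedBall z0 _)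
  · exact integrableOn_const measure_closedBall_lt_top.ne

theorem unif_9730 {f : ℂ → ℝ} (hf : Continuous f) (z0 : ℂ) {η : ℝ} (hη : 0 < η) :
    ∃ r : ℝ, 0 < r ∧ r ≤ 1 / 2 ∧ ∀ z ∈ Metric.closedBall z0 (1 / 2), ∀ w, ‖w - z‖ < r →
      |f w - f z| ≤ η := by
  have h1 := (isCompact_closedBall z0 1).uniformContinuousOn_of_continuous hf.continuousOn
  rw [Metric.uniformContinuousOn_iff] at h1
  obtain ⟨r, hr, hr'⟩ := h1 η hη
  refine ⟨min r (1 / 2), lt_min hr (by norm_num), min_le_right _ _, ?_⟩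
  intro z hz w hw
  have hzb : z ∈ Metric.closedBall z0 1 := Metric.closedBall_subset_closedBall (by norm_num) hz
  have hwb : w ∈ Metric.closedBall z0 1 := by
    rw [Metric.mem_closedBall] at hz ⊢
    have h2 := dist_triangle w z z0
    rw [dist_eq_norm w z] at h2
    have := hw.le.trans (min_le_right _ _)
    linarith
  have h3 := hr' w hwb z hzb (by
    rw [dist_eq_norm]
    exact hw.trans_le (min_le_left _ _))
  rw [Real.dist_eq] at h3
  exact h3.le

theorem gradE_9730 {ρ : ℝ} {h ω : ℝ → ℝ} (hd : Dat ρ h ω) (C : ℝ) :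
    ∃ K3 δ0 : ℝ, 0 < δ0 ∧ δ0 ≤ 1 / 4 ∧ 0 < K3 ∧ ∀ U, ClsS ρ h C ω U → ∀ δ' ∈ Ioc (0 : ℝ) δ0,
      ∀ τ : ℝ, 0 < τ → τ ≤ 1 → ∀ z0,
        ∫ z in Metric.closedBall z0 (1 / 2), Gq9730 (Dd9730 (moll δ' U) τ 0) z ≤ K3 * τ ^ 2 := by
  obtain ⟨θ, K, δ0, hθ, hδ0, hδ01, hK, hmain⟩ := sup_9730 hd C
  obtain ⟨Cc, hCc, hcacc⟩ := cacc ρ hd.rho
  refine ⟨16 * Cc * (2 * K + 1) ^ 2 + 2, min δ0 (1 / 4), lt_min hδ0 (by norm_num),
    min_le_right _ _, by positivity, ?_⟩
  intro U hU δ' hδ' τ hτ hτ1 z0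
  have hδ'4 : δ' ≤ 1 / 4 := hδ'.2.trans (min_le_right _ _)
  obtain ⟨A, hA0, hA⟩ := moll_grad_9730 hδ'.1
  set V : ℝ := volume.real (Metric.closedBall (0 : ℂ) (1 / 2)) with hV
  have hV0 : 0 ≤ V := measureReal_nonneg
  -- choice of `N` and `η`
  obtain ⟨N, hN, hNτ, hN2⟩ : ∃ N : ℝ, 0 < N ∧ N ≤ τ ∧ 128 * A ^ 2 * N ^ 2 * V ≤ τ ^ 2 := by
    have hx0 : 0 ≤ 128 * A ^ 2 * V := by positivity
    refine ⟨τ / (1 + 128 * A ^ 2 * V), by positivity, ?_, ?_⟩
    · rw [div_le_iff₀ (by positivity)]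
      nlinarith
    · have h1 : 128 * A ^ 2 * (τ / (1 + 128 * A ^ 2 * V)) ^ 2 * V =
          (128 * A ^ 2 * V) / (1 + 128 * A ^ 2 * V) ^ 2 * τ ^ 2 := by
        field_simp
      rw [h1]
      have h2 : (128 * A ^ 2 * V) / (1 + 128 * A ^ 2 * V) ^ 2 ≤ 1 := by
        rw [div_le_one (by positivity)]
        nlinarith
      nlinarith [sq_nonneg τ]
  obtain ⟨η, hη, hη2⟩ : ∃ η : ℝ, 0 < η ∧ 4 * η ^ 2 * V ≤ τ ^ 2 := by
    refine ⟨τ / (1 + 4 * V), by positivity, ?_⟩
    have h1 : 4 * (τ / (1 + 4 * V)) ^ 2 * V = (4 * V) / (1 + 4 * V) ^ 2 * τ ^ 2 := by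
      field_simp
    rw [h1]
    have h2 : (4 * V) / (1 + 4 * V) ^ 2 ≤ 1 := by
      rw [div_le_one (by positivity)]
      nlinarith
    nlinarith [sq_nonneg τ]
  have hu' : Sm9730 (moll δ' U) := sm_moll_9730 hδ'.1 hU.loc
  have hE : Sm9730 (Dd9730 (moll δ' U) τ 0) := Dd9730_sm hu' _ _
  obtain ⟨r1, hr1, hr1', hr1''⟩ := unif_9730 hE.dx.cont z0 hη
  obtain ⟨r2, hr2, hr2', hr2''⟩ := unif_9730 hE.dy.cont z0 hη
  have hev : ∀ᶠ δ in 𝓝[>] (0 : ℝ), θ δ < N ∧ δ < min δ0 (min r1 r2) ∧ 0 < δ := by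
    refine (hθ.eventually (gt_mem_nhds hN)).and (Filter.Eventually.and ?_ ?_)
    · exact nhdsWithin_le_nhds (gt_mem_nhds (lt_min hδ0 (lt_min hr1 hr2)))
    · exact self_mem_nhdsWithin
  obtain ⟨δ, h1, h2, h3⟩ := hev.exists
  have hm := hmain U hU δ ⟨h3, (h2.trans_le (min_le_left _ _)).le⟩ N hN h1.le
  have hu : Sm9730 (moll δ U) := sm_moll_9730 h3 hU.loc
  have hb := hm.2 τ (by rw [abs_of_pos hτ]; exact hτ1)
  rw [abs_of_pos hτ] at hb
  have hM0 : 0 ≤ K * (τ + N) := by positivity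
  have e0 : Dd9730 (moll δ U) (τ : ℂ) 0 = Dd9730 (moll δ U) τ ((0 : ℝ) : ℂ) := by simp
  have hgD := gradD_9730 (ρ := ρ) hcacc hδ'.1 hδ'4 hA (D := Dd9730 (moll δ U) τ 0) (Dd9730_sm hu _ _)
    hN hM0 (by
      intro z hz
      rw [e0] at hz ⊢
      exact hm.1 τ 0 z hz) (by
      intro z hz
      have h4 : (fun z => - Dd9730 (moll δ U) (τ : ℂ) 0 z) = Dd9730 (moll δ U) ((0 : ℝ) : ℂ) τ := by
        funext z
        simp [Dd9730]
      rw [h4]
      apply hm.1 0 τ z
      rw [← h4]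
      exact hz) hb z0
  have hmoll : moll δ' (Dd9730 (moll δ U) τ 0) = moll δ (Dd9730 (moll δ' U) τ 0) :=
    (moll_swap_9730 h3 hδ'.1 hU.loc _ _).symm
  rw [hmoll] at hgD
  -- pointwise comparison
  have hpt : ∀ z ∈ Metric.closedBall z0 (1 / 2), Gq9730 (Dd9730 (moll δ' U) τ 0) z ≤
      2 * Gq9730 (moll δ (Dd9730 (moll δ' U) τ 0)) z + 4 * η ^ 2 := by
    intro z hz
    have a1 : |moll δ (dx (Dd9730 (moll δ' U) τ 0)) z - dx (Dd9730 (moll δ' U) τ 0) z| ≤ η := by
      apply moll_close_9730 h3 hE.dx.cont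
      intro w hw
      exact hr1'' z hz w (hw.trans (h2.trans_le ((min_le_right _ _).trans (min_le_left _ _))))
    have a2 : |moll δ (dy (Dd9730 (moll δ' U) τ 0)) z - dy (Dd9730 (moll δ' U) τ 0) z| ≤ η := by
      apply moll_close_9730 h3 hE.dy.cont
      intro w hw
      exact hr2'' z hz w (hw.trans (h2.trans_le ((min_le_right _ _).trans (min_le_right _ _))))
    rw [← dx_moll_smooth δ h3 _ (hE 1)] at a1
    rw [← dy_moll_smooth δ h3 _ (hE 1)] at a2
    unfold Gq9730
    rw [abs_le] at a1 a2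
    nlinarith [a1.1, a1.2, a2.1, a2.2,
      mul_nonneg (sub_nonneg.2 a1.1) (sub_nonneg.2 a1.2),
      mul_nonneg (sub_nonneg.2 a2.1) (sub_nonneg.2 a2.2),
      sq_nonneg (2 * dx (moll δ (Dd9730 (moll δ' U) τ 0)) z - dx (Dd9730 (moll δ' U) τ 0) z),
      sq_nonneg (2 * dy (moll δ (Dd9730 (moll δ' U) τ 0)) z - dy (Dd9730 (moll δ' U) τ 0) z)]
  have hcE : Continuous (Gq9730 (Dd9730 (moll δ' U) τ 0)) := G2c_9730 (hE 1)
  have hcM : Continuous (Gq9730 (moll δ (Dd9730 (moll δ' U) τ 0))) :=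
    G2c_9730 (sm_moll_9730 h3 hE.cont.locallyIntegrable 1)
  have hcomp := isCompact_closedBall z0 (1 / 2 : ℝ)
  have h4 : ∫ z in Metric.closedBall z0 (1 / 2), Gq9730 (Dd9730 (moll δ' U) τ 0) z ≤
      ∫ z in Metric.closedBall z0 (1 / 2),
        (2 * Gq9730 (moll δ (Dd9730 (moll δ' U) τ 0)) z + 4 * η ^ 2) := by
    apply setIntegral_mono_on
    · exact hcE.continuousOn.integrableOn_compact hcomp
    · exact ((hcM.const_mul 2).add continuous_const).continuousOn.integrableOn_compact hcomp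
    · exact Metric.isClosed_closedBall.measurableSet
    · exact hpt
  rw [integral_add, integral_const_mul, setIntegral_const, smul_eq_mul,
    Measure.addHaar_real_closedBall_center] at h4
  · have h5 : (K * (τ + N) + N) ^ 2 ≤ (2 * K + 1) ^ 2 * τ ^ 2 := by
      rw [← mul_pow]
      apply pow_le_pow_left₀ (by positivity)
      nlinarith
    have h6 : 16 * Cc * (K * (τ + N) + N) ^ 2 ≤ 16 * Cc * ((2 * K + 1) ^ 2 * τ ^ 2) :=
      mul_le_mul_of_nonneg_left h5 (by positivity)
    nlinarith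
  · exact (hcM.const_mul 2).continuousOn.integrableOn_compact hcomp
  · exact integrableOn_const measure_closedBall_lt_top.ne

theorem ball_cover_9730 {f : ℂ → ℝ} (hf : Continuous f) (h0 : ∀ z, 0 ≤ f z) {M : ℝ}
    (hM : ∀ z0, ∫ z in Metric.closedBall z0 (1 / 2), f z ≤ M) (x0 : ℝ) :
    ∫ z in box x0 (x0 + 1), f z ≤ 130 * M := by
  classical
  let c : ℕ × ℕ → ℂ := fun p => ⟨x0 + p.1 / 4, p.2 / 4⟩
  let P : Finset (ℕ × ℕ) := Finset.range 5 ×ˢ Finset.range 26
  have hint : ∀ p ∈ P, Integrable ((Metric.closedBall (c p) (1 / 2)).indicator f) := fun p _ =>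
    (hf.continuousOn.integrableOn_compact (isCompact_closedBall _ _)).integrable_indicator
      Metric.isClosed_closedBall.measurableSet
  have hnn : ∀ p z, 0 ≤ (Metric.closedBall (c p) (1 / 2)).indicator f z := fun p z =>
    Set.indicator_nonneg (fun w _ => h0 w) z
  have hle : ∀ z, (box x0 (x0 + 1)).indicator f z ≤
      ∑ p ∈ P, (Metric.closedBall (c p) (1 / 2)).indicator f z := by
    intro z
    by_cases hz : z ∈ box x0 (x0 + 1)
    · rw [Set.indicator_of_mem hz]
      obtain ⟨⟨hz1, hz2⟩, hz3, hz4⟩ := hz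
      have hpi := Real.pi_lt_d2
      set j : ℕ := ⌊4 * (z.re - x0)⌋₊ with hj
      set l : ℕ := ⌊4 * z.im⌋₊ with hl
      have hj1 : (j : ℝ) ≤ 4 * (z.re - x0) := Nat.floor_le (by linarith)
      have hj2 : 4 * (z.re - x0) < j + 1 := Nat.lt_floor_add_one _
      have hl1 : (l : ℝ) ≤ 4 * z.im := Nat.floor_le (by linarith)
      have hl2 : 4 * z.im < l + 1 := Nat.lt_floor_add_one _
      have hj5 : j < 5 := by
        have : (j : ℝ) < 5 := by linarith
        exact_mod_cast this
      have hl26 : l < 26 := by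
        have : (l : ℝ) < 26 := by linarith
        exact_mod_cast this
      have hp : (j, l) ∈ P := Finset.mem_product.2 ⟨Finset.mem_range.2 hj5, Finset.mem_range.2 hl26⟩
      have hmem : z ∈ Metric.closedBall (c (j, l)) (1 / 2) := by
        rw [Metric.mem_closedBall, dist_eq_norm]
        refine (Complex.norm_le_abs_re_add_abs_im _).trans ?_
        have h1 : (z - c (j, l)).re = z.re - (x0 + j / 4) := by simp [c]
        have h2 : (z - c (j, l)).im = z.im - l / 4 := by simp [c]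
        rw [h1, h2, abs_of_nonneg (by linarith), abs_of_nonneg (by linarith)]
        linarith
      calc f z = (Metric.closedBall (c (j, l)) (1 / 2)).indicator f z :=
            (Set.indicator_of_mem hmem f).symm
        _ ≤ _ := Finset.single_le_sum
            (f := fun p => (Metric.closedBall (c p) (1 / 2)).indicator f z)
            (fun p _ => hnn p z) hp
    · rw [Set.indicator_of_notMem hz]
      exact Finset.sum_nonneg (fun p _ => hnn p z)
  have hcb := box_compact_9730 x0 (x0 + 1)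
  rw [← integral_indicator hcb.measurableSet]
  have h1 := integral_mono
    ((hf.continuousOn.integrableOn_compact hcb).integrable_indicator hcb.measurableSet)
    (integrable_finset_sum P hint) hle
  rw [integral_finset_sum P hint] at h1
  have h2 : ∑ p ∈ P, ∫ z, (Metric.closedBall (c p) (1 / 2)).indicator f z ≤ ∑ p ∈ P, M := by
    apply Finset.sum_le_sum
    intro p _
    rw [integral_indicator Metric.isClosed_closedBall.measurableSet]
    exact hM _
  have h3 : ∑ p ∈ P, M = 130 * M := by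
    rw [Finset.sum_const]
    simp [P]
  linarith

theorem mvt_9730 {v : ℂ → ℝ} (hv : Sm9730 v) (z : ℂ) {τ : ℝ} (hτ : 0 < τ) :
    ∃ s : ℝ, 0 < s ∧ s < τ ∧ v (z + τ) - v z = τ * dx v (z + s) := by
  have hder : ∀ s : ℝ, HasDerivAt (fun s : ℝ => v (z + s)) (dx v (z + s)) s := by
    intro s
    have h1 : HasDerivAt (fun s : ℝ => z + (s : ℂ)) (1 : ℂ) s := by
      have h2 : HasDerivAt (fun s : ℝ => (s : ℂ)) 1 s := Complex.ofRealCLM.hasDerivAt
      exact h2.const_add z
    exact (hv.diff (z + s)).hasFDerivAt.comp_hasDerivAt s h1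
  obtain ⟨s, hs, hs'⟩ := exists_hasDerivAt_eq_slope (fun s : ℝ => v (z + s))
    (fun s : ℝ => dx v (z + s)) hτ (fun s _ => (hder s).continuousAt.continuousWithinAt)
    (fun s _ => hder s)
  refine ⟨s, hs.1, hs.2, ?_⟩
  simp only [Complex.ofReal_zero, add_zero, sub_zero] at hs'
  rw [hs']
  field_simp

theorem mixed_9730 {u : ℂ → ℝ} (hu : Sm9730 u) (z : ℂ) : dy (dx u) z = dx (dy u) z := by
  have hd : DifferentiableAt ℝ (fderiv ℝ u) z := by
    have h1 : ContDiff ℝ 1 (fderiv ℝ u) := (hu 2).fderiv_right (by norm_num)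
    exact h1.differentiable (by norm_num) z
  have h1 : dy (dx u) z = fderiv ℝ (fderiv ℝ u) z I 1 := by
    have h2 : HasFDerivAt (fun w => fderiv ℝ u w 1)
        ((ContinuousLinearMap.apply ℝ ℝ (1 : ℂ)).comp (fderiv ℝ (fderiv ℝ u) z)) z :=
      (ContinuousLinearMap.apply ℝ ℝ (1 : ℂ)).hasFDerivAt.comp z hd.hasFDerivAt
    change fderiv ℝ (fun w => fderiv ℝ u w 1) z I = _
    rw [h2.fderiv]
    rfl
  have h2 : dx (dy u) z = fderiv ℝ (fderiv ℝ u) z 1 I := by
    have h2 : HasFDerivAt (fun w => fderiv ℝ u w I)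
        ((ContinuousLinearMap.apply ℝ ℝ (I : ℂ)).comp (fderiv ℝ (fderiv ℝ u) z)) z :=
      (ContinuousLinearMap.apply ℝ ℝ (I : ℂ)).hasFDerivAt.comp z hd.hasFDerivAt
    change fderiv ℝ (fun w => fderiv ℝ u w I) z 1 = _
    rw [h2.fderiv]
    rfl
  rw [h1, h2]
  have hs : IsSymmSndFDerivAt ℝ u z := (hu 2).contDiffAt.isSymmSndFDerivAt (by simp)
  exact hs I 1

/-- TARGET 2 -/
theorem dx_bdd {ρ : ℝ} {h ω : ℝ → ℝ} (hd : Dat ρ h ω) (C : ℝ) :
    ∃ M4 δ0 : ℝ, 0 < δ0 ∧ δ0 ≤ 1 ∧ 0 < M4 ∧ ∀ U, ClsS ρ h C ω U → ∀ δ ∈ Ioc (0 : ℝ) δ0,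
      (∀ z, |dx (moll δ U) z| ≤ M4) ∧
      ∀ x0 : ℝ, ∫ z in box x0 (x0 + 1), (dx (dx (moll δ U)) z ^ 2 + dy (dx (moll δ U)) z ^ 2) ≤ M4 := by
  obtain ⟨M, δ1, hδ1, hδ11, hM, hlip⟩ := shift_lip hd C
  obtain ⟨K3, δ2, hδ2, hδ24, hK3, hgr⟩ := gradE_9730 hd C
  set V : ℝ := volume.real (Metric.closedBall (0 : ℂ) (1 / 2)) with hV
  have hV0 : 0 ≤ V := measureReal_nonneg
  refine ⟨M + 130 * (2 * K3 + 4 * V), min δ1 δ2, lt_min hδ1 hδ2, (min_le_left _ _).trans hδ11,
    by positivity, ?_⟩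
  intro U hU δ hδ
  have hu : Sm9730 (moll δ U) := sm_moll_9730 hδ.1 hU.loc
  constructor
  · intro z
    have h1 : |dx (moll δ U) z| ≤ M := by
      have hder : HasDerivAt (fun s : ℝ => moll δ U (z + s)) (dx (moll δ U) z) 0 := by
        have h1 : HasDerivAt (fun s : ℝ => z + (s : ℂ)) (1 : ℂ) 0 := by
          have h2 : HasDerivAt (fun s : ℝ => (s : ℂ)) 1 0 := Complex.ofRealCLM.hasDerivAt
          exact h2.const_add z
        have h3 : HasFDerivAt (moll δ U) (fderiv ℝ (moll δ U) z) (z + ((0 : ℝ) : ℂ)) := by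
          simpa using (hu.diff z).hasFDerivAt
        exact h3.comp_hasDerivAt (0 : ℝ) h1
      have h4 := hder.hasFDerivAt.le_of_lip' (C := M) hM.le (by
        filter_upwards [Metric.closedBall_mem_nhds (0 : ℝ) one_pos] with s hs
        rw [Metric.mem_closedBall, dist_zero_right, Real.norm_eq_abs] at hs
        have h5 := hlip U hU δ ⟨hδ.1, hδ.2.trans (min_le_left _ _)⟩ s hs z
        simpa using h5)
      simpa using h4
    have : 0 ≤ 130 * (2 * K3 + 4 * V) := by positivity
    linarith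
  · intro x0
    have hxx := hu.dx.dx
    have hyx := hu.dy.dx
    have hcont : Continuous (fun z => dx (dx (moll δ U)) z ^ 2 + dy (dx (moll δ U)) z ^ 2) :=
      (hxx.cont.pow 2).add (hu.dx.dy.cont.pow 2)
    have hball : ∀ z0, ∫ z in Metric.closedBall z0 (1 / 2),
        (dx (dx (moll δ U)) z ^ 2 + dy (dx (moll δ U)) z ^ 2) ≤ 2 * K3 + 4 * V := by
      intro z0
      obtain ⟨r1, hr1, hr1', hr1''⟩ := unif_9730 hxx.cont z0 one_pos
      obtain ⟨r2, hr2, hr2', hr2''⟩ := unif_9730 hyx.cont z0 one_pos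
      set τ : ℝ := min r1 r2 with hτdef
      have hτ : 0 < τ := lt_min hr1 hr2
      have hτ1 : τ ≤ 1 := (min_le_left _ _).trans (hr1'.trans (by norm_num))
      have hg := hgr U hU δ ⟨hδ.1, hδ.2.trans (min_le_right _ _)⟩ τ hτ hτ1 z0
      have hE : Sm9730 (Dd9730 (moll δ U) τ 0) := Dd9730_sm hu _ _
      have hpt : ∀ z ∈ Metric.closedBall z0 (1 / 2),
          dx (dx (moll δ U)) z ^ 2 + dy (dx (moll δ U)) z ^ 2 ≤
            (2 / τ ^ 2) * Gq9730 (Dd9730 (moll δ U) τ 0) z + 4 := by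
        intro z hz
        obtain ⟨s, hs0, hs1, hs⟩ := mvt_9730 hu.dx z hτ
        obtain ⟨t, ht0, ht1, ht⟩ := mvt_9730 hu.dy z hτ
        have a1 : |dx (dx (moll δ U)) (z + s) - dx (dx (moll δ U)) z| ≤ 1 := by
          apply hr1'' z hz
          have : z + (s : ℂ) - z = s := by ring
          rw [this, Complex.norm_real, Real.norm_eq_abs, abs_of_pos hs0]
          exact hs1.trans_le (min_le_left _ _)
        have a2 : |dx (dy (moll δ U)) (z + t) - dx (dy (moll δ U)) z| ≤ 1 := by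
          apply hr2'' z hz
          have : z + (t : ℂ) - z = t := by ring
          rw [this, Complex.norm_real, Real.norm_eq_abs, abs_of_pos ht0]
          exact ht1.trans_le (min_le_right _ _)
        have hG : Gq9730 (Dd9730 (moll δ U) τ 0) z = τ ^ 2 * (dx (dx (moll δ U)) (z + s) ^ 2 +
            dx (dy (moll δ U)) (z + t) ^ 2) := by
          unfold Gq9730
          rw [Dd9730_dx hu, Dd9730_dy hu]
          have e1 : Dd9730 (dx (moll δ U)) τ 0 z = τ * dx (dx (moll δ U)) (z + s) := by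
            rw [← hs]; simp [Dd9730]
          have e2 : Dd9730 (dy (moll δ U)) τ 0 z = τ * dx (dy (moll δ U)) (z + t) := by
            rw [← ht]; simp [Dd9730]
          rw [e1, e2]
          ring
        rw [hG, mixed_9730 hu]
        have e3 : 2 / τ ^ 2 * (τ ^ 2 * (dx (dx (moll δ U)) (z + s) ^ 2 +
            dx (dy (moll δ U)) (z + t) ^ 2)) = 2 * (dx (dx (moll δ U)) (z + s) ^ 2 +
            dx (dy (moll δ U)) (z + t) ^ 2) := by
          field_simp
        rw [e3]
        rw [abs_le] at a1 a2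
        nlinarith [mul_nonneg (sub_nonneg.2 a1.1) (sub_nonneg.2 a1.2),
          mul_nonneg (sub_nonneg.2 a2.1) (sub_nonneg.2 a2.2),
          sq_nonneg (2 * dx (dx (moll δ U)) (z + s) - dx (dx (moll δ U)) z),
          sq_nonneg (2 * dx (dy (moll δ U)) (z + t) - dx (dy (moll δ U)) z)]
      have hcE : Continuous (Gq9730 (Dd9730 (moll δ U) τ 0)) := G2c_9730 (hE 1)
      have hcomp := isCompact_closedBall z0 (1 / 2 : ℝ)
      have h4 : ∫ z in Metric.closedBall z0 (1 / 2),
          (dx (dx (moll δ U)) z ^ 2 + dy (dx (moll δ U)) z ^ 2) ≤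
          ∫ z in Metric.closedBall z0 (1 / 2), ((2 / τ ^ 2) * Gq9730 (Dd9730 (moll δ U) τ 0) z + 4) := by
        apply setIntegral_mono_on
        · exact hcont.continuousOn.integrableOn_compact hcomp
        · exact ((hcE.const_mul _).add continuous_const).continuousOn.integrableOn_compact hcomp
        · exact Metric.isClosed_closedBall.measurableSet
        · exact hpt
      have h45 : ∫ z in Metric.closedBall z0 (1 / 2), ((2 / τ ^ 2) * Gq9730 (Dd9730 (moll δ U) τ 0) z + 4) =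
          2 / τ ^ 2 * (∫ z in Metric.closedBall z0 (1 / 2), Gq9730 (Dd9730 (moll δ U) τ 0) z) + V * 4 := by
        rw [integral_add, integral_const_mul, setIntegral_const, smul_eq_mul,
          Measure.addHaar_real_closedBall_center]
        · exact (hcE.const_mul _).continuousOn.integrableOn_compact hcomp
        · exact integrableOn_const measure_closedBall_lt_top.ne
      · have h5 : 2 / τ ^ 2 * ∫ z in Metric.closedBall z0 (1 / 2), Gq9730 (Dd9730 (moll δ U) τ 0) z ≤
            2 / τ ^ 2 * (K3 * τ ^ 2) := mul_le_mul_of_nonneg_left hg (by positivity)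
        have h6 : 2 / τ ^ 2 * (K3 * τ ^ 2) = 2 * K3 := by
          field_simp
        linarith
    have h7 := ball_cover_9730 hcont (fun z => by positivity) hball x0
    linarith

end M_B4
end Pool.Agent.Helper758.LS
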