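import Mathlib
import Pool.Agent.Helper758.LSDefs
import Pool.Agent.Helper758.LSDefs2
import Pool.Agent.Helper758.LS_MOL

namespace Pool.Agent.Helper758.LS
open MeasureTheory Filter Topology Set Complex
open M_MOL (dx_moll dx_moll_smooth dy_moll dy_moll_smooth moll_add_const moll_comm moll_contDiff moll_l1 moll_symm moll_tendsto_l1 psid_props)
namespace M_B5















section aux
open scoped ENNReal

theorem aux_psid_cont (δ : ℝ) (hδ : 0 < δ) : Continuous (psid δ) :=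
  ((psid_props δ hδ).1 0).continuous

theorem aux_psid_sub_cont (δ : ℝ) (hδ : 0 < δ) (z : ℂ) : Continuous (fun w => psid δ (z - w)) :=
  (aux_psid_cont δ hδ).comp (continuous_const.sub continuous_id)

theorem aux_psid_sub_supp (δ : ℝ) (hδ : 0 < δ) (z : ℂ) :
    HasCompactSupport (fun w => psid δ (z - w)) := by
  have := (psid_props δ hδ).2.1.comp_homeomorph (Homeomorph.subLeft z)
  exact this

theorem aux_psid_int (δ : ℝ) (hδ : 0 < δ) (z : ℂ) : Integrable (fun w => psid δ (z - w)) :=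
  (aux_psid_sub_cont δ hδ z).integrable_of_hasCompactSupport (aux_psid_sub_supp δ hδ z)

theorem aux_psid_one (δ : ℝ) (hδ : 0 < δ) (z : ℂ) : ∫ w, psid δ (z - w) = 1 := by
  rw [integral_sub_left_eq_self (fun w => psid δ w) volume z]
  exact (psid_props δ hδ).2.2.2.2.2.1

theorem aux_psid_nonneg (δ : ℝ) (hδ : 0 < δ) (z : ℂ) : 0 ≤ psid δ z := (psid_props δ hδ).2.2.1 z

theorem aux_psid_zero (δ : ℝ) (hδ : 0 < δ) (z : ℂ) (hz : δ ≤ ‖z‖) : psid δ z = 0 :=
  (psid_props δ hδ).2.2.2.1 z hz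

theorem aux_psid_lint (δ : ℝ) (hδ : 0 < δ) (z : ℂ) :
    ∫⁻ w, ENNReal.ofReal (psid δ (z - w)) = 1 := by
  rw [← ofReal_integral_eq_lintegral_ofReal (aux_psid_int δ hδ z)
    (Filter.Eventually.of_forall fun w => aux_psid_nonneg δ hδ _), aux_psid_one δ hδ z,
    ENNReal.ofReal_one]

theorem aux_psid_lint' (δ : ℝ) (hδ : 0 < δ) (w : ℂ) :
    ∫⁻ z, ENNReal.ofReal (psid δ (z - w)) = 1 := by
  rw [← aux_psid_lint δ hδ w]
  refine lintegral_congr fun z => ?_
  rw [← (psid_props δ hδ).2.2.2.2.1 (z - w), neg_sub]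

theorem aux_jensen (δ : ℝ) (hδ : 0 < δ) (z : ℂ) (F : ℂ → ℝ≥0∞) (hF : AEMeasurable F volume) :
    (∫⁻ w, ENNReal.ofReal (psid δ (z - w)) * F w) ^ 2 ≤
      ∫⁻ w, ENNReal.ofReal (psid δ (z - w)) * F w ^ 2 := by
  set P : ℂ → ℝ≥0∞ := fun w => ENNReal.ofReal (psid δ (z - w)) with hP
  have hPm : Measurable P := (aux_psid_sub_cont δ hδ z).measurable.ennreal_ofReal
  have hhalf : ∀ x : ℝ≥0∞, x ^ (1 / 2 : ℝ) * x ^ (1 / 2 : ℝ) = x := by
    intro x
    rw [← ENNReal.rpow_add_of_nonneg _ _ (by norm_num) (by norm_num)]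
    norm_num
  have h1 := ENNReal.lintegral_mul_le_Lp_mul_Lq volume (p := 2) (q := 2)
    (Real.HolderConjugate.two_two) (f := fun w => P w ^ (1 / 2 : ℝ))
    (g := fun w => P w ^ (1 / 2 : ℝ) * F w) (hPm.pow_const _).aemeasurable
    ((hPm.pow_const _).aemeasurable.mul hF)
  have e1 : ∫⁻ w, ((fun w => P w ^ (1 / 2 : ℝ)) * (fun w => P w ^ (1 / 2 : ℝ) * F w)) w =
      ∫⁻ w, P w * F w := by
    refine lintegral_congr fun w => ?_
    simp only [Pi.mul_apply]
    rw [← mul_assoc, hhalf]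
  have e2 : ∫⁻ w, (P w ^ (1 / 2 : ℝ)) ^ (2 : ℝ) = 1 := by
    rw [← aux_psid_lint δ hδ z]
    refine lintegral_congr fun w => ?_
    rw [← ENNReal.rpow_mul]
    norm_num [hP]
  have e3 : ∫⁻ w, (P w ^ (1 / 2 : ℝ) * F w) ^ (2 : ℝ) = ∫⁻ w, P w * F w ^ 2 := by
    refine lintegral_congr fun w => ?_
    rw [ENNReal.mul_rpow_of_nonneg _ _ (by norm_num), ← ENNReal.rpow_mul]
    norm_num
  rw [e1, e2, e3, ENNReal.one_rpow, one_mul] at h1
  calc (∫⁻ w, P w * F w) ^ 2 ≤ ((∫⁻ w, P w * F w ^ 2) ^ (1 / 2 : ℝ)) ^ 2 := by gcongr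
    _ = ∫⁻ w, P w * F w ^ 2 := by rw [sq, hhalf]

theorem aux_young (δ : ℝ) (hδ : 0 < δ) (h : ℂ → ℝ) (hh : AEStronglyMeasurable h volume) :
    ∫⁻ z, ‖moll δ h z‖ₑ ^ 2 ≤ ∫⁻ z, ‖h z‖ₑ ^ 2 := by
  have hPm : Measurable (fun x => ENNReal.ofReal (psid δ x)) :=
    (aux_psid_cont δ hδ).measurable.ennreal_ofReal
  calc ∫⁻ z, ‖moll δ h z‖ₑ ^ 2 ≤ ∫⁻ z, ∫⁻ w, ENNReal.ofReal (psid δ (z - w)) * ‖h w‖ₑ ^ 2 := by
        refine lintegral_mono fun z => ?_
        refine le_trans ?_ (aux_jensen δ hδ z _ hh.enorm)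
        have : ‖moll δ h z‖ₑ ≤ ∫⁻ w, ENNReal.ofReal (psid δ (z - w)) * ‖h w‖ₑ := by
          refine (enorm_integral_le_lintegral_enorm _).trans (lintegral_mono fun w => ?_)
          rw [enorm_mul, Real.enorm_eq_ofReal (aux_psid_nonneg δ hδ _)]
        gcongr
    _ = ∫⁻ w, ∫⁻ z, ENNReal.ofReal (psid δ (z - w)) * ‖h w‖ₑ ^ 2 := by
        apply lintegral_lintegral_swap
        have m1 : AEMeasurable (fun p : ℂ × ℂ => ENNReal.ofReal (psid δ (p.1 - p.2)))
            ((volume : Measure ℂ).prod volume) :=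
          (hPm.comp (measurable_fst.sub measurable_snd)).aemeasurable
        have m2 : AEMeasurable (fun p : ℂ × ℂ => ‖h p.2‖ₑ ^ 2)
            ((volume : Measure ℂ).prod volume) :=
          (hh.comp_snd (μ := volume)).enorm.pow_const 2
        exact m1.mul m2
    _ = ∫⁻ w, ‖h w‖ₑ ^ 2 := by
        refine lintegral_congr fun w => ?_
        have m1 : Measurable (fun z : ℂ => ENNReal.ofReal (psid δ (z - w))) :=
          hPm.comp (measurable_id.sub_const w)
        rw [lintegral_mul_const _ m1, aux_psid_lint' δ hδ w, one_mul]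

theorem aux_eLp (f : ℂ → ℝ) (μ : Measure ℂ) :
    eLpNorm f 2 μ = (∫⁻ x, ‖f x‖ₑ ^ 2 ∂μ) ^ (1 / 2 : ℝ) := by
  have := eLpNorm_nnreal_eq_lintegral (f := f) (μ := μ) (p := 2) (by norm_num)
  simpa using this

theorem aux_young' (δ : ℝ) (hδ : 0 < δ) (h : ℂ → ℝ) (hh : AEStronglyMeasurable h volume) :
    eLpNorm (moll δ h) 2 volume ≤ eLpNorm h 2 volume := by
  rw [aux_eLp, aux_eLp]
  exact ENNReal.rpow_le_rpow (aux_young δ hδ h hh) (by norm_num)

/-- mollification of a continuous function -/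
theorem aux_close (δ : ℝ) (hδ : 0 < δ) (v : ℂ → ℝ) (hv : Continuous v) (z : ℂ) (η : ℝ)
    (h : ∀ w, ‖z - w‖ < δ → |v w - v z| ≤ η) : |moll δ v z - v z| ≤ η := by
  have hi1 : Integrable (fun w => psid δ (z - w) * v w) :=
    ((aux_psid_sub_cont δ hδ z).mul hv).integrable_of_hasCompactSupport
      (aux_psid_sub_supp δ hδ z).mul_right
  have hi2 : Integrable (fun w => psid δ (z - w) * v z) := (aux_psid_int δ hδ z).mul_const _
  have e1 : moll δ v z - v z = ∫ w, psid δ (z - w) * (v w - v z) := by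
    have : v z = ∫ w, psid δ (z - w) * v z := by
      rw [integral_mul_const, aux_psid_one δ hδ z, one_mul]
    unfold moll
    conv_lhs => rw [this]
    rw [← integral_sub hi1 hi2]
    congr 1
    ext w
    ring
  rw [e1, ← Real.norm_eq_abs]
  calc ‖∫ w, psid δ (z - w) * (v w - v z)‖ ≤ ∫ w, psid δ (z - w) * η := by
        apply norm_integral_le_of_norm_le ((aux_psid_int δ hδ z).mul_const _)
        refine Filter.Eventually.of_forall fun w => ?_
        rw [norm_mul, Real.norm_eq_abs, Real.norm_eq_abs, abs_of_nonneg (aux_psid_nonneg δ hδ _)]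
        by_cases hw : ‖z - w‖ < δ
        · exact mul_le_mul_of_nonneg_left (h w hw) (aux_psid_nonneg δ hδ _)
        · rw [aux_psid_zero δ hδ _ (not_lt.mp hw)]
          simp
    _ = η := by rw [integral_mul_const, aux_psid_one δ hδ z, one_mul]

theorem aux_ptwise (v : ℂ → ℝ) (hv : Continuous v) (z : ℂ) :
    Tendsto (fun δ => moll δ v z) (𝓝[>] 0) (𝓝 (v z)) := by
  rw [Metric.tendsto_nhds]
  intro η hη
  obtain ⟨r, hr, h⟩ := Metric.continuousAt_iff.mp (hv.continuousAt (x := z)) (η / 2) (by linarith)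
  filter_upwards [Ioo_mem_nhdsGT hr] with δ hδ
  rw [Real.dist_eq]
  refine lt_of_le_of_lt (aux_close δ hδ.1 v hv z (η / 2) fun w hw => ?_) (by linarith)
  have : dist w z < r := by
    rw [dist_comm, dist_eq_norm]; exact hw.trans hδ.2
  have := h this
  rw [Real.dist_eq] at this
  exact this.le

theorem aux_moll_sub (δ : ℝ) (hδ : 0 < δ) (f g : ℂ → ℝ) (hf : LocallyIntegrable f volume)
    (hg : LocallyIntegrable g volume) (z : ℂ) :
    moll δ (fun w => f w - g w) z = moll δ f z - moll δ g z := by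
  have hi1 : Integrable (fun w => psid δ (z - w) * f w) := by
    simpa using hf.integrable_smul_left_of_hasCompactSupport (aux_psid_sub_cont δ hδ z)
      (aux_psid_sub_supp δ hδ z)
  have hi2 : Integrable (fun w => psid δ (z - w) * g w) := by
    simpa using hg.integrable_smul_left_of_hasCompactSupport (aux_psid_sub_cont δ hδ z)
      (aux_psid_sub_supp δ hδ z)
  unfold moll
  rw [← integral_sub hi1 hi2]
  congr 1
  ext w
  ring

theorem aux_bQ_compact (K : ℝ) : IsCompact (bQ K) := by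
  have hcl : IsClosed (bQ K) := by
    have : bQ K = {z : ℂ | |z.re| ≤ K} ∩ {z : ℂ | |z.im| ≤ K} := rfl
    rw [this]
    exact (isClosed_le (by fun_prop) continuous_const).inter
      (isClosed_le (by fun_prop) continuous_const)
  refine Metric.isCompact_of_isClosed_isBounded hcl ?_
  rw [isBounded_iff_forall_norm_le]
  refine ⟨K + K, fun z hz => ?_⟩
  exact (Complex.norm_le_abs_re_add_abs_im z).trans (add_le_add hz.1 hz.2)

theorem aux_bQ_meas (K : ℝ) : MeasurableSet (bQ K) := (aux_bQ_compact K).measurableSet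

/-- `L²` convergence, global version -/
theorem aux_glob (f : ℂ → ℝ) (hf : MemLp f 2 volume) (K : ℝ) :
    Tendsto (fun δ => eLpNorm (fun z => moll δ f z - f z) 2 (volume.restrict (bQ K)))
      (𝓝[>] 0) (𝓝 0) := by
  have hfl : LocallyIntegrable f volume := hf.locallyIntegrable (by norm_num)
  set μ := (volume : Measure ℂ).restrict (bQ K) with hμ
  haveI : IsFiniteMeasure μ := ⟨by
    rw [hμ, Measure.restrict_apply_univ]; exact (aux_bQ_compact K).measure_lt_top⟩
  rw [ENNReal.tendsto_nhds_zero]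
  intro ε hε
  have hε3 : ε / 3 ≠ 0 := (ENNReal.div_pos hε.ne' (by norm_num)).ne'
  obtain ⟨g, hgs, hfg, hgc, hgm⟩ := hf.exists_hasCompactSupport_eLpNorm_sub_le (by norm_num) hε3
  have hgl : LocallyIntegrable g volume := hgc.locallyIntegrable
  -- uniform continuity
  have huc : UniformContinuous g := hgs.uniformContinuous_of_continuous hgc
  obtain ⟨η, hη0, hη⟩ : ∃ η : ℝ, 0 < η ∧ ENNReal.ofReal η * μ univ ^ (1 / 2 : ℝ) ≤ ε / 3 := by
    have hmt : μ univ ^ (1 / 2 : ℝ) ≠ ⊤ :=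
      ENNReal.rpow_ne_top_of_nonneg (by norm_num) (measure_ne_top μ univ)
    set m := μ univ ^ (1 / 2 : ℝ) with hm
    have hm0 : 0 ≤ m.toReal := ENNReal.toReal_nonneg
    have hmin : min (ε / 3) 1 ≠ ⊤ := ne_top_of_le_ne_top ENNReal.one_ne_top (min_le_right _ _)
    have hmin0 : 0 < (min (ε / 3) 1).toReal := by
      apply ENNReal.toReal_pos _ hmin
      exact (lt_min (pos_iff_ne_zero.mpr hε3) one_pos).ne'
    refine ⟨(min (ε / 3) 1).toReal / (m.toReal + 1), by positivity, ?_⟩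
    calc ENNReal.ofReal ((min (ε / 3) 1).toReal / (m.toReal + 1)) * m
        = ENNReal.ofReal ((min (ε / 3) 1).toReal / (m.toReal + 1)) * ENNReal.ofReal m.toReal := by
          rw [ENNReal.ofReal_toReal hmt]
      _ = ENNReal.ofReal ((min (ε / 3) 1).toReal / (m.toReal + 1) * m.toReal) := by
          rw [ENNReal.ofReal_mul (by positivity)]
      _ ≤ ENNReal.ofReal (min (ε / 3) 1).toReal := by
          apply ENNReal.ofReal_le_ofReal
          rw [div_mul_eq_mul_div, div_le_iff₀ (by positivity)]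
          nlinarith
      _ = min (ε / 3) 1 := ENNReal.ofReal_toReal hmin
      _ ≤ ε / 3 := min_le_left _ _
  obtain ⟨r, hr, h⟩ := Metric.uniformContinuous_iff.mp huc η hη0
  filter_upwards [Ioo_mem_nhdsGT hr] with δ hδ
  have hδ0 : 0 < δ := hδ.1
  have e1 : (fun z => moll δ f z - f z) =
      (moll δ (fun w => f w - g w) + fun z => moll δ g z - g z) - fun z => f z - g z := by
    ext z
    simp only [Pi.add_apply, Pi.sub_apply, aux_moll_sub δ hδ0 f g hfl hgl z]
    ring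
  have hm1 : AEStronglyMeasurable (moll δ (fun w => f w - g w)) volume :=
    ((moll_contDiff δ hδ0 _ (hfl.sub hgl) 0).continuous).aestronglyMeasurable
  have hm2 : AEStronglyMeasurable (fun z => moll δ g z - g z) volume :=
    (((moll_contDiff δ hδ0 _ hgl 0).continuous).sub hgc).aestronglyMeasurable
  have hm3 : AEStronglyMeasurable (fun z => f z - g z) volume :=
    hf.1.sub hgc.aestronglyMeasurable
  have b1 : eLpNorm (moll δ (fun w => f w - g w)) 2 μ ≤ ε / 3 :=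
    (eLpNorm_mono_measure _ Measure.restrict_le_self).trans
      ((aux_young' δ hδ0 _ hm3).trans hfg)
  have b3 : eLpNorm (fun z => f z - g z) 2 μ ≤ ε / 3 :=
    (eLpNorm_mono_measure _ Measure.restrict_le_self).trans hfg
  have b2 : eLpNorm (fun z => moll δ g z - g z) 2 μ ≤ ε / 3 := by
    have hb : ∀ᵐ z ∂μ, ‖moll δ g z - g z‖ ≤ η := by
      refine Filter.Eventually.of_forall fun z => ?_
      rw [Real.norm_eq_abs]
      refine aux_close δ hδ0 g hgc z η fun w hw => ?_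
      have : dist w z < r := by
        rw [dist_comm, dist_eq_norm]; exact hw.trans hδ.2
      have := h this
      rw [Real.dist_eq] at this
      exact this.le
    have := eLpNorm_le_of_ae_bound (p := 2) hb
    refine this.trans ?_
    rw [mul_comm]
    simpa using hη
  rw [e1]
  calc eLpNorm ((moll δ (fun w => f w - g w) + fun z => moll δ g z - g z) - fun z => f z - g z) 2 μ
      ≤ eLpNorm (moll δ (fun w => f w - g w) + fun z => moll δ g z - g z) 2 μ +
        eLpNorm (fun z => f z - g z) 2 μ :=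
        eLpNorm_sub_le ((hm1.add hm2).mono_measure Measure.restrict_le_self)
          (hm3.mono_measure Measure.restrict_le_self) (by norm_num)
    _ ≤ (eLpNorm (moll δ (fun w => f w - g w)) 2 μ + eLpNorm (fun z => moll δ g z - g z) 2 μ) +
        eLpNorm (fun z => f z - g z) 2 μ := by
        gcongr
        exact eLpNorm_add_le (hm1.mono_measure Measure.restrict_le_self)
          (hm2.mono_measure Measure.restrict_le_self) (by norm_num)
    _ ≤ (ε / 3 + ε / 3) + ε / 3 := by gcongr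
    _ = ε := ENNReal.add_thirds ε

theorem aux_outside (K δ : ℝ) (hδ : 0 < δ) (z w : ℂ) (hz : z ∈ bQ K)
    (hw : w ∉ bQ (K + δ)) : psid δ (z - w) = 0 := by
  apply aux_psid_zero δ hδ
  have : K + δ < |w.re| ∨ K + δ < |w.im| := by
    by_contra hcon
    push Not at hcon
    exact hw ⟨hcon.1, hcon.2⟩
  rcases this with h | h
  · have h1 : |w.re| ≤ |z.re| + |(z - w).re| := by
      have := abs_sub_abs_le_abs_sub w.re z.re
      rw [Complex.sub_re, abs_sub_comm z.re w.re]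
      linarith
    have h2 := Complex.abs_re_le_norm (z - w)
    linarith [hz.1]
  · have h1 : |w.im| ≤ |z.im| + |(z - w).im| := by
      have := abs_sub_abs_le_abs_sub w.im z.im
      rw [Complex.sub_im, abs_sub_comm z.im w.im]
      linarith
    have h2 := Complex.abs_im_le_norm (z - w)
    linarith [hz.2]

theorem aux_bQ_mono {K K' : ℝ} (h : K ≤ K') : bQ K ⊆ bQ K' :=
  fun _ hz => ⟨hz.1.trans h, hz.2.trans h⟩

theorem aux_sq_int (φ : ℂ → ℝ) (μ : Measure ℂ) (hφ : AEStronglyMeasurable φ μ) :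
    ∫ z, φ z ^ 2 ∂μ = (eLpNorm φ 2 μ).toReal ^ 2 := by
  rw [integral_eq_lintegral_of_nonneg_ae (Filter.Eventually.of_forall fun z => sq_nonneg _)
    (hφ.pow 2), aux_eLp]
  have e1 : ∫⁻ z, ENNReal.ofReal (φ z ^ 2) ∂μ = ∫⁻ z, ‖φ z‖ₑ ^ 2 ∂μ := by
    refine lintegral_congr fun z => ?_
    rw [← ofReal_norm, ← ENNReal.ofReal_pow (norm_nonneg _), Real.norm_eq_abs, sq_abs]
  rw [e1, ← ENNReal.toReal_pow]
  congr 1
  rw [sq, ← ENNReal.rpow_add_of_nonneg _ _ (by norm_num) (by norm_num)]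
  norm_num

theorem aux_l2 (G : ℂ → ℝ) (hG : ∀ K, MemLp G 2 (volume.restrict (bQ K))) (K : ℝ) :
    Tendsto (fun δ => ∫ z in bQ K, (moll δ G z - G z) ^ 2) (𝓝[>] 0) (𝓝 0) := by
  set f : ℂ → ℝ := (bQ (K + 1)).indicator G with hf
  have hfm : MemLp f 2 volume := (memLp_indicator_iff_restrict (aux_bQ_meas _)).mpr (hG (K + 1))
  have h1 := aux_glob f hfm K
  have h2 := ((ENNReal.tendsto_toReal ENNReal.zero_ne_top).comp h1).pow 2
  simp only [ENNReal.toReal_zero] at h2
  rw [zero_pow (by norm_num)] at h2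
  refine h2.congr' ?_
  filter_upwards [Ioo_mem_nhdsGT one_pos] with δ hδ
  have hδ0 : 0 < δ := hδ.1
  have hfl : LocallyIntegrable f volume := hfm.locallyIntegrable (by norm_num)
  have hmeas : AEStronglyMeasurable (fun z => moll δ f z - f z) (volume.restrict (bQ K)) :=
    (((moll_contDiff δ hδ0 _ hfl 0).continuous.aestronglyMeasurable).sub hfm.1).mono_measure
      Measure.restrict_le_self
  simp only [Function.comp_apply]
  rw [← aux_sq_int _ _ hmeas]
  refine setIntegral_congr_fun (aux_bQ_meas K) fun z hz => ?_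
  have e1 : f z = G z := Set.indicator_of_mem (aux_bQ_mono (by linarith) hz) _
  have e2 : moll δ f z = moll δ G z := by
    unfold moll
    congr 1
    ext w
    by_cases hw : w ∈ bQ (K + 1)
    · rw [hf, Set.indicator_of_mem hw]
    · have : psid δ (z - w) = 0 :=
        aux_outside K δ hδ0 z w hz fun h => hw (aux_bQ_mono (by linarith [hδ.2]) h)
      rw [this, zero_mul, zero_mul]
  simp only [e1, e2]

theorem aux_weak {H : Type*} [NormedAddCommGroup H] [InnerProductSpace ℝ H] [CompleteSpace H]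
    (l : Filter ℝ) [l.NeBot] (F : ℝ → H) (C : ℝ) (hF : ∀ᶠ δ in l, ‖F δ‖ ≤ C) :
    ∃ (𝒰 : Ultrafilter ℝ) (g : H), (𝒰 : Filter ℝ) ≤ l ∧
      ∀ h : H, Tendsto (fun δ => inner ℝ (F δ) h) 𝒰 (𝓝 (inner ℝ g h)) := by
  have hc := WeakDual.isCompact_closedBall (𝕜 := ℝ) (E := H) (0 : StrongDual ℝ H) C
  have hle : (Ultrafilter.of l : Filter ℝ) ≤ l := Ultrafilter.of_le l
  set Φ : ℝ → WeakDual ℝ H := fun δ =>
    StrongDual.toWeakDual (InnerProductSpace.toDual ℝ H (F δ)) with hΦ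
  obtain ⟨x, hx, hlim⟩ := hc.ultrafilter_le_nhds' ((Ultrafilter.of l).map Φ) (by
    have : ∀ᶠ δ in (Ultrafilter.of l : Filter ℝ),
        Φ δ ∈ WeakDual.toStrongDual ⁻¹' Metric.closedBall (0 : StrongDual ℝ H) C := by
      filter_upwards [hle hF] with δ hδ
      simp only [Set.mem_preimage, mem_closedBall_zero_iff]
      exact (LinearIsometryEquiv.norm_map (InnerProductSpace.toDual ℝ H) (F δ)).trans_le hδ
    exact this)
  refine ⟨Ultrafilter.of l, (InnerProductSpace.toDual ℝ H).symm (WeakDual.toStrongDual x), hle,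
    fun h => ?_⟩
  rw [InnerProductSpace.toDual_symm_apply]
  have h1 : Tendsto Φ (Ultrafilter.of l) (𝓝 x) := hlim
  have h2 := ((WeakDual.eval_continuous h).tendsto x).comp h1
  exact h2

theorem aux_weight (M : ℕ → ℝ) : ∃ s : ℂ → ℝ, Measurable s ∧ (∀ z, 0 < s z) ∧
    (∀ K : ℝ, ∃ c > 0, ∀ z ∈ bQ K, c ≤ s z) ∧
    ∀ v : ℂ → ℝ, Continuous v → (∀ k : ℕ, ∫ z in bQ k, v z ^ 2 ≤ M k) →
      ∫⁻ z, ‖s z * v z‖ₑ ^ 2 ≤ 2 := by
  set b : ℕ → ℝ≥0∞ := fun k => ENNReal.ofReal (1 + |M k|) with hb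
  have hb1 : ∀ k, 1 ≤ b k := fun k => by
    rw [hb, ← ENNReal.ofReal_one]
    exact ENNReal.ofReal_le_ofReal (by linarith [abs_nonneg (M k)])
  have hbt : ∀ k, b k ≠ ⊤ := fun k => ENNReal.ofReal_ne_top
  set c : ℕ → ℝ≥0∞ := fun k => 2⁻¹ ^ k / b k with hc
  have hc0 : ∀ k, 0 < c k := fun k =>
    ENNReal.div_pos (pow_ne_zero _ (by norm_num)) (hbt k)
  have hc1 : ∀ k, c k ≤ 2⁻¹ ^ k := fun k => ENNReal.div_le_of_le_mul (by
    calc (2⁻¹ : ℝ≥0∞) ^ k = 2⁻¹ ^ k * 1 := (mul_one _).symm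
      _ ≤ 2⁻¹ ^ k * b k := by gcongr; exact hb1 k)
  have hcm : ∀ k, c k * ENNReal.ofReal (M k) ≤ 2⁻¹ ^ k := fun k => by
    calc c k * ENNReal.ofReal (M k) ≤ c k * b k := by
          gcongr
          exact ENNReal.ofReal_le_ofReal (by linarith [le_abs_self (M k)])
      _ = 2⁻¹ ^ k := ENNReal.div_mul_cancel (by have := hb1 k; intro h; rw [h] at this; simp at this) (hbt k)
  have hgeo : ∑' k : ℕ, (2⁻¹ : ℝ≥0∞) ^ k = 2 := by
    rw [ENNReal.tsum_geometric, ENNReal.one_sub_inv_two, inv_inv]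
  set S : ℂ → ℝ≥0∞ := fun z => ∑' k : ℕ, (bQ (k : ℝ)).indicator (fun _ => c k) z with hS
  have hSm : Measurable S :=
    Measurable.tsum fun k => measurable_const.indicator (aux_bQ_meas k)
  have hS2 : ∀ z, S z ≤ 2 := fun z => by
    rw [← hgeo]
    refine ENNReal.tsum_le_tsum fun k => ?_
    refine le_trans ?_ (hc1 k)
    exact Set.indicator_le_self _ _ _
  have hSt : ∀ z, S z ≠ ⊤ := fun z => ne_top_of_le_ne_top (by norm_num) (hS2 z)
  have hSk : ∀ (k : ℕ) z, z ∈ bQ (k : ℝ) → c k ≤ S z := fun k z hz => by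
    have := ENNReal.le_tsum (f := fun k : ℕ => (bQ (k : ℝ)).indicator (fun _ => c k) z) k
    simp only [Set.indicator_of_mem hz] at this
    exact this
  have hct : ∀ k, c k ≠ ⊤ := fun k => ne_top_of_le_ne_top (by simp) (hc1 k)
  have hlow : ∀ K : ℝ, ∃ c > 0, ∀ z ∈ bQ K, c ≤ √(S z).toReal := by
    intro K
    obtain ⟨k, hk⟩ := exists_nat_ge K
    refine ⟨√(c k).toReal, Real.sqrt_pos.mpr (ENNReal.toReal_pos (hc0 k).ne' (hct k)),
      fun z hz => ?_⟩
    apply Real.sqrt_le_sqrt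
    exact ENNReal.toReal_mono (hSt z) (hSk k z (aux_bQ_mono hk hz))
  refine ⟨fun z => √(S z).toReal, hSm.ennreal_toReal.sqrt, fun z => ?_, hlow, ?_⟩
  · obtain ⟨c', hc', h⟩ := hlow (‖z‖)
    exact hc'.trans_le (h z ⟨Complex.abs_re_le_norm z, Complex.abs_im_le_norm z⟩)
  · intro v hv hM
    have e1 : ∀ z, ‖√(S z).toReal * v z‖ₑ ^ 2 =
        ∑' k : ℕ, (bQ (k : ℝ)).indicator (fun z => c k * ‖v z‖ₑ ^ 2) z := by
      intro z
      rw [enorm_mul, mul_pow, Real.enorm_eq_ofReal (Real.sqrt_nonneg _),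
        ← ENNReal.ofReal_pow (Real.sqrt_nonneg _), Real.sq_sqrt ENNReal.toReal_nonneg,
        ENNReal.ofReal_toReal (hSt z), hS]
      simp only
      rw [← ENNReal.tsum_mul_right]
      congr 1
      ext k
      by_cases hz : z ∈ bQ (k : ℝ)
      · rw [Set.indicator_of_mem hz, Set.indicator_of_mem hz]
      · rw [Set.indicator_of_notMem hz, Set.indicator_of_notMem hz, zero_mul]
    have hvm : Measurable (fun z => ‖v z‖ₑ ^ 2) := hv.measurable.enorm.pow_const 2
    have hmk : ∀ k : ℕ, AEMeasurable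
        (fun z => (bQ (k : ℝ)).indicator (fun z => c k * ‖v z‖ₑ ^ 2) z) volume := fun k =>
      ((hvm.const_mul (c k)).indicator (aux_bQ_meas k)).aemeasurable
    rw [lintegral_congr e1, lintegral_tsum hmk, ← hgeo]
    refine ENNReal.tsum_le_tsum fun k => ?_
    rw [lintegral_indicator (aux_bQ_meas k), lintegral_const_mul _ hvm]
    refine le_trans ?_ (hcm k)
    gcongr
    have hvi : IntegrableOn (fun z => v z ^ 2) (bQ (k : ℝ)) volume :=
      (hv.pow 2).continuousOn.integrableOn_compact (aux_bQ_compact k)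
    refine le_trans (le_of_eq ?_) (ENNReal.ofReal_le_ofReal (hM k))
    rw [ofReal_integral_eq_lintegral_ofReal hvi
      (Filter.Eventually.of_forall fun z => sq_nonneg _)]
    refine lintegral_congr fun z => ?_
    rw [← ofReal_norm, ← ENNReal.ofReal_pow (norm_nonneg _), Real.norm_eq_abs, sq_abs]

/-- smooth functions -/
def Smo (w : ℂ → ℝ) : Prop := ∀ n : ℕ, ContDiff ℝ n w

theorem Smo.dx {w : ℂ → ℝ} (h : Smo w) : Smo (dx w) := by
  intro n
  have h1 : ContDiff ℝ n (fderiv ℝ w) := (h (n + 1)).fderiv_right (by norm_cast)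
  exact h1.clm_apply contDiff_const

theorem Smo.dy {w : ℂ → ℝ} (h : Smo w) : Smo (dy w) := by
  intro n
  have h1 : ContDiff ℝ n (fderiv ℝ w) := (h (n + 1)).fderiv_right (by norm_cast)
  exact h1.clm_apply contDiff_const

theorem Smo.c1 {w : ℂ → ℝ} (h : Smo w) : ContDiff ℝ 1 w := by
  have := h 1
  simpa using this

theorem aux_D (D : (ℂ → ℝ) → ℂ → ℝ) (hD : D = (fun u => dx (dx u)) ∨ D = (fun u => dy (dx u)) ∨
    D = (fun u => dx u) ∨ D = (fun u => dy u)) :
    (∀ w, Smo w → Smo (D w)) ∧ ∀ w, Smo w → ∀ δ, 0 < δ → D (moll δ w) = moll δ (D w) := by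
  have hx : ∀ w, Smo w → ∀ δ, 0 < δ → Pool.Agent.Helper758.LS.dx (moll δ w) = moll δ (Pool.Agent.Helper758.LS.dx w) := fun w hw δ hδ =>
    funext fun z => dx_moll_smooth δ hδ w hw.c1 z
  have hy : ∀ w, Smo w → ∀ δ, 0 < δ → Pool.Agent.Helper758.LS.dy (moll δ w) = moll δ (Pool.Agent.Helper758.LS.dy w) := fun w hw δ hδ =>
    funext fun z => dy_moll_smooth δ hδ w hw.c1 z
  rcases hD with h | h | h | h
  · subst h
    refine ⟨fun w hw => hw.dx.dx, fun w hw δ hδ => ?_⟩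
    simp only
    rw [hx w hw δ hδ, hx _ hw.dx δ hδ]
  · subst h
    refine ⟨fun w hw => hw.dx.dy, fun w hw δ hδ => ?_⟩
    simp only
    rw [hx w hw δ hδ, hy _ hw.dx δ hδ]
  · subst h
    exact ⟨fun w hw => hw.dx, fun w hw δ hδ => hx w hw δ hδ⟩
  · subst h
    exact ⟨fun w hw => hw.dy, fun w hw δ hδ => hy w hw δ hδ⟩

end aux

/-- TARGET -/
theorem second_conv (D : (ℂ → ℝ) → ℂ → ℝ) (hD : D = (fun u => dx (dx u)) ∨ D = (fun u => dy (dx u)) ∨
    D = (fun u => dx u) ∨ D = (fun u => dy u))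
    (u : ℂ → ℝ) (hu : LocallyIntegrable u volume) (δ0 : ℝ) (hδ0 : 0 < δ0)
    (hb : ∀ K : ℝ, ∃ M : ℝ, ∀ δ ∈ Ioc (0 : ℝ) δ0, ∫ z in bQ K, (D (moll δ u) z) ^ 2 ≤ M) :
    ∃ G : ℂ → ℝ, (∀ K, MemLp G 2 (volume.restrict (bQ K))) ∧ (∀ δ > 0, ∀ z, D (moll δ u) z = moll δ G z) ∧
      ∀ K, Tendsto (fun δ => ∫ z in bQ K, (D (moll δ u) z - G z) ^ 2) (𝓝[>] 0) (𝓝 0) := by
  classical
  obtain ⟨hDs, hDc⟩ := aux_D D hD
  choose M hM using hb
  obtain ⟨s, hsm, hs0, hsK, hsv⟩ := aux_weight (fun k : ℕ => M k)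
  have hsmo : ∀ δ, 0 < δ → Smo (moll δ u) := fun δ hδ n => moll_contDiff δ hδ u hu n
  set v : ℝ → ℂ → ℝ := fun δ => D (moll δ u) with hv
  have hvc : ∀ δ, 0 < δ → Continuous (v δ) := fun δ hδ => (hDs _ (hsmo δ hδ) 0).continuous
  have hcomm : ∀ δ ε, 0 < δ → 0 < ε → moll δ (v ε) = moll ε (v δ) := by
    intro δ ε hδ hε
    show moll δ (D (moll ε u)) = moll ε (D (moll δ u))
    rw [← hDc _ (hsmo ε hε) δ hδ, ← hDc _ (hsmo δ hδ) ε hε, moll_comm δ ε hδ hε u hu]
  -- the bounded family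
  have hfm : ∀ ε ∈ Ioc (0 : ℝ) δ0, MemLp (fun z => s z * v ε z) 2 volume ∧
      eLpNorm (fun z => s z * v ε z) 2 volume ≤ (2 : ENNReal) ^ (1 / 2 : ℝ) := by
    intro ε hε
    have h1 : eLpNorm (fun z => s z * v ε z) 2 volume ≤ (2 : ENNReal) ^ (1 / 2 : ℝ) := by
      rw [aux_eLp]
      exact ENNReal.rpow_le_rpow (hsv (v ε) (hvc ε hε.1) fun k => hM k ε hε) (by norm_num)
    refine ⟨⟨(hsm.mul (hvc ε hε.1).measurable).aestronglyMeasurable, h1.trans_lt ?_⟩, h1⟩
    exact ENNReal.rpow_lt_top_of_nonneg (by norm_num) (by norm_num)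
  set F : ℝ → Lp ℝ 2 (volume : Measure ℂ) := fun ε =>
    if h : MemLp (fun z => s z * v ε z) 2 volume then h.toLp _ else 0 with hF
  have hFb : ∀ᶠ ε in 𝓝[>] (0 : ℝ), ‖F ε‖ ≤ ((2 : ENNReal) ^ (1 / 2 : ℝ)).toReal := by
    filter_upwards [Ioc_mem_nhdsGT hδ0] with ε hε
    obtain ⟨h1, h2⟩ := hfm ε hε
    simp only [hF, dif_pos h1]
    rw [Lp.norm_toLp]
    exact ENNReal.toReal_mono (ENNReal.rpow_lt_top_of_nonneg (by norm_num) (by norm_num)).ne h2
  obtain ⟨𝒰, g, h𝒰, hg⟩ := aux_weak (𝓝[>] (0 : ℝ)) F _ hFb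
  set G : ℂ → ℝ := fun z => g z / s z with hG
  have hGm : ∀ K, MemLp G 2 (volume.restrict (bQ K)) := by
    intro K
    obtain ⟨c, hc, hcs⟩ := hsK K
    have hgm : MemLp g 2 (volume.restrict (bQ K)) := (Lp.memLp g).restrict _
    refine hgm.of_le_mul (c := c⁻¹) ?_ ?_
    · exact hgm.1.mul (hsm.inv.aestronglyMeasurable)
    · filter_upwards [ae_restrict_mem (aux_bQ_meas K)] with z hz
      rw [hG, norm_div, Real.norm_eq_abs (s z), abs_of_pos (hs0 z), div_eq_inv_mul]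
      exact mul_le_mul_of_nonneg_right (inv_anti₀ hc (hcs z hz)) (norm_nonneg _)
  have hkey : ∀ δ > 0, ∀ z, v δ z = moll δ G z := by
    intro δ hδ z
    obtain ⟨c, hc, hcs⟩ := hsK (‖z‖ + δ)
    have hψm : MemLp (fun w => psid δ (z - w)) 2 (volume : Measure ℂ) :=
      (aux_psid_sub_cont δ hδ z).memLp_of_hasCompactSupport (aux_psid_sub_supp δ hδ z)
    have hqm : MemLp (fun w => psid δ (z - w) / s w) 2 (volume : Measure ℂ) := by
      refine hψm.of_le_mul (c := c⁻¹) ?_ ?_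
      · exact ((aux_psid_sub_cont δ hδ z).measurable.div hsm).aestronglyMeasurable
      · refine Filter.Eventually.of_forall fun w => ?_
        by_cases hw : w ∈ bQ (‖z‖ + δ)
        · rw [norm_div, Real.norm_eq_abs (s w), abs_of_pos (hs0 w), div_eq_inv_mul]
          exact mul_le_mul_of_nonneg_right (inv_anti₀ hc (hcs w hw)) (norm_nonneg _)
        · rw [aux_outside ‖z‖ δ hδ z w ⟨Complex.abs_re_le_norm z, Complex.abs_im_le_norm z⟩ hw]
          simp
    have hlim := hg (hqm.toLp _)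
    have e1 : inner ℝ g (hqm.toLp _) = moll δ G z := by
      rw [L2.inner_def]
      unfold moll
      refine integral_congr_ae ?_
      filter_upwards [hqm.coeFn_toLp] with w hw
      rw [hw]
      simp only [hG, RCLike.inner_apply, conj_trivial]
      ring
    have e2 : ∀ᶠ ε in 𝓝[>] (0 : ℝ), moll ε (v δ) z = inner ℝ (F ε) (hqm.toLp _) := by
      filter_upwards [Ioc_mem_nhdsGT hδ0] with ε hε
      obtain ⟨h1, h2⟩ := hfm ε hε
      simp only [hF, dif_pos h1]
      rw [L2.inner_def, ← hcomm δ ε hδ hε.1]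
      unfold moll
      refine integral_congr_ae ?_
      filter_upwards [hqm.coeFn_toLp, h1.coeFn_toLp] with w hw hw'
      rw [hw, hw']
      simp only [RCLike.inner_apply, conj_trivial]
      have := (hs0 w).ne'
      field_simp
    have h3 : Tendsto (fun ε => inner ℝ (F ε) (hqm.toLp _)) (𝓝[>] (0 : ℝ)) (𝓝 (v δ z)) :=
      (aux_ptwise (v δ) (hvc δ hδ) z).congr' e2
    have h4 := tendsto_nhds_unique (h3.mono_left h𝒰) hlim
    rw [h4, e1]
  refine ⟨G, hGm, hkey, fun K => ?_⟩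
  refine (aux_l2 G hGm K).congr' ?_
  filter_upwards [self_mem_nhdsWithin] with δ hδ
  have hfun : D (moll δ u) = moll δ G := funext fun z => hkey δ hδ z
  rw [hfun]


/-- TARGET 2: `L²` convergence of mollifications of an `L²_loc` function -/
theorem moll_tendsto_l2 (G : ℂ → ℝ) (hG : ∀ K, MemLp G 2 (volume.restrict (bQ K))) (K : ℝ) :
    Tendsto (fun δ => ∫ z in bQ K, (moll δ G z - G z) ^ 2) (𝓝[>] 0) (𝓝 0) := by
  exact aux_l2 G hG K

end M_B5
end Pool.Agent.Helper758.LS
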