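import Mathlib
import Pool.Agent.Helper758.LSDefs
import Pool.Agent.Helper758.LSDefs2

namespace Pool.Agent.Helper758.LS
open MeasureTheory Filter Topology Set Complex

namespace M_S2




/-! ### auxiliary lemmas -/

theorem int_bound_aux (g : ℝ → ℝ) (hg : Continuous g) (M T : ℝ) (hT : 0 ≤ T)
    (hM : ∀ β, |g β| ≤ M) (hz : ∀ β, T ≤ |β| → g β = 0) (b : ℝ) :
    |∫ β in (0 : ℝ)..b, g β| ≤ M * T := by
  have hM0 : 0 ≤ M := (abs_nonneg _).trans (hM 0)
  have hii : ∀ p q : ℝ, IntervalIntegrable g volume p q := fun p q => hg.intervalIntegrable p q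
  have hsmall : ∀ c : ℝ, |c| ≤ T → |∫ β in (0 : ℝ)..c, g β| ≤ M * T := by
    intro c hc
    have h1 : ‖∫ β in (0 : ℝ)..c, g β‖ ≤ M * |c - 0| :=
      intervalIntegral.norm_integral_le_of_norm_le_const (fun x _ => hM x)
    rw [sub_zero, Real.norm_eq_abs] at h1
    exact h1.trans (mul_le_mul_of_nonneg_left hc hM0)
  rcases le_or_gt |b| T with hb | hb
  · exact hsmall b hb
  · rcases lt_abs.1 hb with hb' | hb'
    · have hzero : ∫ β in T..b, g β = 0 := by
        rw [intervalIntegral.integral_congr (g := fun _ => (0:ℝ))]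
        · simp
        · intro x hx
          rw [uIcc_of_le hb'.le] at hx
          exact hz x (hx.1.trans (le_abs_self x))
      rw [← intervalIntegral.integral_add_adjacent_intervals (hii 0 T) (hii T b), hzero, add_zero]
      exact hsmall T (by rw [abs_of_nonneg hT])
    · have hzero : ∫ β in (-T)..b, g β = 0 := by
        rw [intervalIntegral.integral_congr (g := fun _ => (0:ℝ))]
        · simp
        · intro x hx
          rw [uIcc_of_ge (by linarith)] at hx
          refine hz x ?_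
          rw [le_abs]; right; linarith [hx.2]
      rw [← intervalIntegral.integral_add_adjacent_intervals (hii 0 (-T)) (hii (-T) b), hzero, add_zero]
      exact hsmall (-T) (by rw [abs_neg, abs_of_nonneg hT])

/-- derivative of `Psif` in the first variable -/
noncomputable def Psa (φ : ℝ → ℝ) (a b : ℝ) : ℝ :=
  ∫ β in (0 : ℝ)..b, 2 * a * deriv φ (a ^ 2 + β ^ 2)

theorem _root_.Pool.Agent.Helper758.LS.Wt.bounds {φ : ℝ → ℝ} (hφ : Wt φ) : ∃ M T : ℝ, 0 < M ∧ 0 < T ∧
    (∀ s, 0 ≤ s → |φ s| ≤ M) ∧ (∀ s, 0 ≤ s → |deriv φ s| ≤ M) ∧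
    (∀ s, T ^ 2 ≤ s → φ s = 0 ∧ deriv φ s = 0) := by
  obtain ⟨S, hS⟩ := hφ.supp
  have hc : Continuous φ := hφ.smooth.continuous
  have hd : Continuous (deriv φ) := hφ.smooth.continuous_deriv le_rfl
  set S' := max S 0 + 1 with hS'
  have hS'0 : 0 < S' := by
    have := le_max_right S 0
    rw [hS']; linarith
  obtain ⟨M1, hM1⟩ := (isCompact_Icc (a := (0:ℝ)) (b := S')).exists_bound_of_continuousOn hc.continuousOn
  obtain ⟨M2, hM2⟩ := (isCompact_Icc (a := (0:ℝ)) (b := S')).exists_bound_of_continuousOn hd.continuousOn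
  have hz : ∀ s, S' ≤ s → φ s = 0 ∧ deriv φ s = 0 := by
    intro s hs
    have h1 : S < s := by
      have := le_max_left S 0
      rw [hS'] at hs; linarith
    refine ⟨hS s h1.le, ?_⟩
    have : φ =ᶠ[𝓝 s] fun _ => (0:ℝ) := by
      filter_upwards [lt_mem_nhds h1] with x hx using hS x hx.le
    rw [this.deriv_eq]
    simp
  have hsq : Real.sqrt S' ^ 2 = S' := Real.sq_sqrt hS'0.le
  refine ⟨max (max M1 M2) 1, Real.sqrt S', by positivity, Real.sqrt_pos.2 hS'0, ?_, ?_, ?_⟩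
  · intro s hs
    rcases le_or_gt s S' with h | h
    · exact (hM1 s ⟨hs, h⟩).trans ((le_max_left M1 M2).trans (le_max_left _ _))
    · rw [(hz s h.le).1, abs_zero]; positivity
  · intro s hs
    rcases le_or_gt s S' with h | h
    · exact (hM2 s ⟨hs, h⟩).trans ((le_max_right M1 M2).trans (le_max_left _ _))
    · rw [(hz s h.le).2, abs_zero]; positivity
  · rw [hsq]; exact hz

theorem sq_le_of_abs_le_aux {T x : ℝ} (hT : 0 < T) (h : T ≤ |x|) (y : ℝ) : T ^ 2 ≤ y ^ 2 + x ^ 2 := by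
  have h1 : T ^ 2 ≤ |x| ^ 2 := pow_le_pow_left₀ hT.le h 2
  rw [sq_abs] at h1
  nlinarith [sq_nonneg y]

theorem mul_bound_aux {f : ℝ → ℝ} {M T : ℝ} (hM0 : 0 < M) (hT : 0 < T) (hM : ∀ s, 0 ≤ s → |f s| ≤ M)
    (hz : ∀ s, T ^ 2 ≤ s → f s = 0) (a b : ℝ) : |a * f (a ^ 2 + b ^ 2)| ≤ T * M := by
  rcases le_or_gt T |a| with h | h
  · have : T ^ 2 ≤ a ^ 2 + b ^ 2 := by
      have := sq_le_of_abs_le_aux hT h b
      linarith
    rw [hz _ this, mul_zero, abs_zero]; positivity
  · rw [abs_mul]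
    exact mul_le_mul h.le (hM _ (by positivity)) (abs_nonneg _) hT.le

theorem Psi_bounds {φ : ℝ → ℝ} (hφ : Wt φ) : ∃ C : ℝ, 0 < C ∧ ∀ a b : ℝ,
    |Psif φ a b| ≤ C ∧ |Psa φ a b| ≤ C ∧ |φ (a ^ 2 + b ^ 2)| ≤ C ∧ |φ (a ^ 2 + b ^ 2) * a| ≤ C := by
  obtain ⟨M, T, hM, hT, h1, h2, h3⟩ := hφ.bounds
  have hc : Continuous φ := hφ.smooth.continuous
  have hd : Continuous (deriv φ) := hφ.smooth.continuous_deriv le_rfl
  refine ⟨M * T + 2 * (T * M) * T + M + T * M, by positivity, fun a b => ⟨?_, ?_, ?_, ?_⟩⟩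
  · have : |Psif φ a b| ≤ M * T := by
      unfold Psif
      refine int_bound_aux _ (by fun_prop) M T hT.le (fun β => h1 _ (by positivity)) ?_ b
      intro β hβ
      exact (h3 _ (sq_le_of_abs_le_aux hT hβ a)).1
    have p1 : 0 < 2 * (T * M) * T := by positivity
    have p2 : 0 < T * M := by positivity
    linarith
  · have : |Psa φ a b| ≤ (2 * (T * M)) * T := by
      unfold Psa
      refine int_bound_aux _ (by fun_prop) (2 * (T * M)) T hT.le (fun β => ?_) ?_ b
      · have := mul_bound_aux hM hT h2 (fun s hs => (h3 s hs).2) a β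
        rw [mul_assoc, abs_mul, abs_two]
        linarith
      · intro β hβ
        rw [(h3 _ (sq_le_of_abs_le_aux hT hβ a)).2, mul_zero]
    have p1 : 0 < M * T := by positivity
    have p2 : 0 < T * M := by positivity
    linarith
  · have := h1 (a ^ 2 + b ^ 2) (by positivity)
    have p1 : 0 < 2 * (T * M) * T := by positivity
    have p2 : 0 < T * M := by positivity
    have p3 : 0 < M * T := by positivity
    linarith
  · have := mul_bound_aux hM hT h1 (fun s hs => (h3 s hs).1) a b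
    rw [mul_comm]
    have p1 : 0 < 2 * (T * M) * T := by positivity
    have p3 : 0 < M * T := by positivity
    linarith

theorem continuous_Psa {φ : ℝ → ℝ} (hφ : Wt φ) : Continuous (fun p : ℝ × ℝ => Psa φ p.1 p.2) := by
  have hd : Continuous (deriv φ) := hφ.smooth.continuous_deriv le_rfl
  unfold Psa
  refine intervalIntegral.continuous_parametric_intervalIntegral_of_continuous ?_ continuous_snd
  fun_prop

theorem hasDerivAt_Psif_fst {φ : ℝ → ℝ} (hφ : Wt φ) (a b : ℝ) :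
    HasDerivAt (fun a => Psif φ a b) (Psa φ a b) a := by
  obtain ⟨M, T, hM, hT, h1, h2, h3⟩ := hφ.bounds
  have hc : Continuous φ := hφ.smooth.continuous
  have hd : Continuous (deriv φ) := hφ.smooth.continuous_deriv le_rfl
  have hdiff : ∀ s, HasDerivAt φ (deriv φ s) s := fun s =>
    ((hφ.smooth.differentiable (by simp)) s).hasDerivAt
  have := intervalIntegral.hasDerivAt_integral_of_dominated_loc_of_deriv_le
    (F := fun a β => φ (a ^ 2 + β ^ 2)) (F' := fun a β => 2 * a * deriv φ (a ^ 2 + β ^ 2))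
    (x₀ := a) (a := (0:ℝ)) (b := b) (μ := volume) (s := univ) (bound := fun _ => 2 * (T * M))
    univ_mem ?_ ?_ ?_ ?_ ?_ ?_
  · exact this.2
  · refine Eventually.of_forall (fun x => ?_)
    exact (by fun_prop : Continuous (fun β => φ (x ^ 2 + β ^ 2))).aestronglyMeasurable
  · exact (by fun_prop : Continuous (fun β => φ (a ^ 2 + β ^ 2))).intervalIntegrable _ _
  · exact (by fun_prop : Continuous (fun β => 2 * a * deriv φ (a ^ 2 + β ^ 2))).aestronglyMeasurable
  · refine Eventually.of_forall (fun β _ x _ => ?_)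
    have := mul_bound_aux hM hT h2 (fun s hs => (h3 s hs).2) x β
    rw [Real.norm_eq_abs, mul_assoc, abs_mul, abs_two]
    linarith
  · exact intervalIntegrable_const
  · refine Eventually.of_forall (fun β _ x _ => ?_)
    have e1 : HasDerivAt (fun x : ℝ => x ^ 2 + β ^ 2) (2 * x) x := by
      simpa using (hasDerivAt_pow 2 x).add_const (β ^ 2)
    have := (hdiff (x ^ 2 + β ^ 2)).comp x e1
    rw [mul_comm] at this
    exact this

theorem hasDerivAt_Psif_snd {φ : ℝ → ℝ} (hφ : Wt φ) (a b : ℝ) :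
    HasDerivAt (fun b => Psif φ a b) (φ (a ^ 2 + b ^ 2)) b := by
  have hc : Continuous φ := hφ.smooth.continuous
  have hcc : Continuous (fun β => φ (a ^ 2 + β ^ 2)) := by fun_prop
  exact intervalIntegral.integral_hasDerivAt_right (hcc.intervalIntegrable _ _)
    hcc.aestronglyMeasurable.stronglyMeasurableAtFilter hcc.continuousAt

theorem hasFDerivAt_Psif {φ : ℝ → ℝ} (hφ : Wt φ) (p : ℝ × ℝ) :
    HasFDerivAt (fun p : ℝ × ℝ => Psif φ p.1 p.2)
      (Psa φ p.1 p.2 • ContinuousLinearMap.fst ℝ ℝ ℝ +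
        φ (p.1 ^ 2 + p.2 ^ 2) • ContinuousLinearMap.snd ℝ ℝ ℝ) p := by
  have hc : Continuous φ := hφ.smooth.continuous
  have hA : Continuous (fun p : ℝ × ℝ => Psa φ p.1 p.2) := continuous_Psa hφ
  have h := hasStrictFDerivAt_uncurry_coprod (𝕜 := ℝ) (u := p) (f := Psif φ)
    (f₁ := fun a b => ContinuousLinearMap.toSpanSingleton ℝ (Psa φ a b))
    (f₂ := fun a b => ContinuousLinearMap.toSpanSingleton ℝ (φ (a ^ 2 + b ^ 2)))
    (Eventually.of_forall (fun v => (hasDerivAt_Psif_fst hφ v.1 v.2).hasFDerivAt))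
    (Eventually.of_forall (fun v => (hasDerivAt_Psif_snd hφ v.1 v.2).hasFDerivAt))
    ?_ ?_
  · have h2 := h.hasFDerivAt
    refine h2.congr_fderiv ?_
    ext <;> simp [Function.HasUncurry.uncurry]
  · have : Continuous (fun p : ℝ × ℝ => ContinuousLinearMap.toSpanSingleton ℝ (Psa φ p.1 p.2)) :=
      (ContinuousLinearMap.toSpanSingletonCLE (𝕜 := ℝ) (E := ℝ)).continuous.comp hA
    exact this.continuousAt
  · have hB : Continuous (fun p : ℝ × ℝ => φ (p.1 ^ 2 + p.2 ^ 2)) := by fun_prop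
    have : Continuous (fun p : ℝ × ℝ => ContinuousLinearMap.toSpanSingleton ℝ (φ (p.1 ^ 2 + p.2 ^ 2))) :=
      (ContinuousLinearMap.toSpanSingletonCLE (𝕜 := ℝ) (E := ℝ)).continuous.comp hB
    exact this.continuousAt

theorem contDiff_Psif {φ : ℝ → ℝ} (hφ : Wt φ) : ContDiff ℝ 1 (fun p : ℝ × ℝ => Psif φ p.1 p.2) := by
  rw [contDiff_one_iff_hasFDerivAt]
  refine ⟨_, ?_, fun p => hasFDerivAt_Psif hφ p⟩
  have hc : Continuous φ := hφ.smooth.continuous
  have hA : Continuous (fun p : ℝ × ℝ => Psa φ p.1 p.2) := continuous_Psa hφ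
  have hB : Continuous (fun p : ℝ × ℝ => φ (p.1 ^ 2 + p.2 ^ 2)) := by fun_prop
  exact (hA.smul continuous_const).add (hB.smul continuous_const)

theorem contDiff_dx {f : ℂ → ℝ} {n m : WithTop ℕ∞} (hf : ContDiff ℝ n f) (h : m + 1 ≤ n) :
    ContDiff ℝ m (dx f) :=
  (hf.fderiv_right h).clm_apply contDiff_const

theorem contDiff_dy {f : ℂ → ℝ} {n m : WithTop ℕ∞} (hf : ContDiff ℝ n f) (h : m + 1 ≤ n) :
    ContDiff ℝ m (dy f) :=
  (hf.fderiv_right h).clm_apply contDiff_const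

theorem dx_mul_aux {f g : ℂ → ℝ} {z : ℂ} (hf : DifferentiableAt ℝ f z) (hg : DifferentiableAt ℝ g z) :
    dx (fun w => f w * g w) z = dx f z * g z + f z * dx g z := by
  have h2 : HasFDerivAt (fun w => f w * g w) _ z := hf.hasFDerivAt.mul hg.hasFDerivAt
  unfold dx
  rw [h2.fderiv]
  simp
  ring

theorem dy_mul_aux {f g : ℂ → ℝ} {z : ℂ} (hf : DifferentiableAt ℝ f z) (hg : DifferentiableAt ℝ g z) :
    dy (fun w => f w * g w) z = dy f z * g z + f z * dy g z := by
  have h2 : HasFDerivAt (fun w => f w * g w) _ z := hf.hasFDerivAt.mul hg.hasFDerivAt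
  unfold dy
  rw [h2.fderiv]
  simp
  ring

theorem dx_re_aux {X : ℝ → ℝ} (hX : Differentiable ℝ X) (z : ℂ) :
    dx (fun w : ℂ => X w.re) z = deriv X z.re := by
  have h1 : HasFDerivAt (fun w : ℂ => w.re) Complex.reCLM z := Complex.reCLM.hasFDerivAt
  have h2 := ((hX z.re).hasDerivAt).comp_hasFDerivAt z h1
  have h3 : HasFDerivAt (fun w : ℂ => X w.re) (deriv X z.re • Complex.reCLM) z := h2
  unfold dx
  rw [h3.fderiv]
  simp

theorem dy_re_aux {X : ℝ → ℝ} (hX : Differentiable ℝ X) (z : ℂ) :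
    dy (fun w : ℂ => X w.re) z = 0 := by
  have h1 : HasFDerivAt (fun w : ℂ => w.re) Complex.reCLM z := Complex.reCLM.hasFDerivAt
  have h2 := ((hX z.re).hasDerivAt).comp_hasFDerivAt z h1
  have h3 : HasFDerivAt (fun w : ℂ => X w.re) (deriv X z.re • Complex.reCLM) z := h2
  unfold dy
  rw [h3.fderiv]
  simp

theorem dxdy_comm_aux {r : ℂ → ℝ} (hr : ContDiff ℝ 2 r) (z : ℂ) : dx (dy r) z = dy (dx r) z := by
  have h1 : DifferentiableAt ℝ (fderiv ℝ r) z :=
    ((hr.fderiv_right (m := 1) (by norm_num)).differentiable (by norm_num)) z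
  have hs : IsSymmSndFDerivAt ℝ r z := (hr.contDiffAt).isSymmSndFDerivAt (by simp)
  have e1 : dx (dy r) z = fderiv ℝ (fderiv ℝ r) z 1 I := by
    have h2 : HasFDerivAt (dy r) ((fderiv ℝ (fderiv ℝ r) z).flip I) z := by
      have := h1.hasFDerivAt.clm_apply (hasFDerivAt_const (I : ℂ) z)
      refine this.congr_fderiv ?_
      ext v
      simp
    unfold dx
    rw [h2.fderiv]
    rfl
  have e2 : dy (dx r) z = fderiv ℝ (fderiv ℝ r) z I 1 := by
    have h2 : HasFDerivAt (dx r) ((fderiv ℝ (fderiv ℝ r) z).flip 1) z := by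
      have := h1.hasFDerivAt.clm_apply (hasFDerivAt_const (1 : ℂ) z)
      refine this.congr_fderiv ?_
      ext v
      simp
    unfold dy
    rw [h2.fderiv]
    rfl
  rw [e1, e2]
  exact hs 1 I

theorem dPsi_aux {φ : ℝ → ℝ} (hφ : Wt φ) {a b : ℂ → ℝ} {z : ℂ} (ha : DifferentiableAt ℝ a z)
    (hb : DifferentiableAt ℝ b z) :
    dx (fun w => Psif φ (a w) (b w)) z = Psa φ (a z) (b z) * dx a z + φ (a z ^ 2 + b z ^ 2) * dx b z ∧
    dy (fun w => Psif φ (a w) (b w)) z = Psa φ (a z) (b z) * dy a z + φ (a z ^ 2 + b z ^ 2) * dy b z := by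
  have h1 := (hasFDerivAt_Psif hφ (a z, b z)).comp z (ha.hasFDerivAt.prodMk hb.hasFDerivAt)
  have h2 : HasFDerivAt (fun w => Psif φ (a w) (b w)) _ z := h1
  unfold dx dy
  rw [h2.fderiv]
  constructor <;> simp

theorem hasDerivAt_line_x {f : ℂ → ℝ} (hf : Differentiable ℝ f) (x y : ℝ) :
    HasDerivAt (fun x : ℝ => f (x + y * I)) (dx f (x + y * I)) x := by
  have h1 : HasDerivAt (fun x : ℝ => (x : ℂ) + y * I) 1 x := by
    simpa using (Complex.ofRealCLM.hasDerivAt (x := x)).add_const ((y : ℂ) * I)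
  exact (hf _).hasFDerivAt.comp_hasDerivAt x h1

theorem hasDerivAt_line_y {f : ℂ → ℝ} (hf : Differentiable ℝ f) (x y : ℝ) :
    HasDerivAt (fun y : ℝ => f (x + y * I)) (dy f (x + y * I)) y := by
  have h1 : HasDerivAt (fun y : ℝ => (x : ℂ) + y * I) I y := by
    have := ((Complex.ofRealCLM.hasDerivAt (x := y)).mul_const I).const_add (x : ℂ)
    simpa using this
  exact (hf _).hasFDerivAt.comp_hasDerivAt y h1

theorem box_eq (x0 x1 : ℝ) : box x0 x1 = Icc x0 x1 ×ℂ Icc 0 (2 * Real.pi) := by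
  ext z
  simp [box, Complex.mem_reProdIm]

theorem isCompact_box (x0 x1 : ℝ) : IsCompact (box x0 x1) := by
  rw [box_eq]
  exact isCompact_Icc.reProdIm isCompact_Icc

theorem continuous_line2 {f : ℂ → ℝ} (hf : Continuous f) :
    Continuous (fun p : ℝ × ℝ => f (p.1 + p.2 * I)) := by fun_prop

theorem J_eq_box {f : ℂ → ℝ} (hf : Continuous f) {R : ℝ} (hR : 0 < R) :
    (∫ x in (-R)..R, ∫ y in (0 : ℝ)..(2 * Real.pi), f (x + y * I)) = ∫ z in box (-R) R, f z := by
  have hpi : (0:ℝ) ≤ 2 * Real.pi := by positivity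
  have hc := continuous_line2 hf
  have h1 : ∫ z in box (-R) R, f z =
      ∫ p in Icc (-R) R ×ˢ Icc 0 (2 * Real.pi), f ((p : ℝ × ℝ).1 + p.2 * I) := by
    have := Complex.volume_preserving_equiv_real_prod.setIntegral_preimage_emb
      (Complex.measurableEquivRealProd.measurableEmbedding)
      (fun p : ℝ × ℝ => f (p.1 + p.2 * I)) (Icc (-R) R ×ˢ Icc 0 (2 * Real.pi))
    rw [← this]
    have hset : box (-R) R = Complex.measurableEquivRealProd ⁻¹' (Icc (-R) R ×ˢ Icc 0 (2 * Real.pi)) := by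
      ext z
      simp [box, Complex.measurableEquivRealProd_apply]
      tauto
    rw [hset]
    refine integral_congr_ae (Eventually.of_forall (fun z => ?_))
    simp [Complex.measurableEquivRealProd_apply, Complex.re_add_im]
  rw [h1, Measure.volume_eq_prod, setIntegral_prod]
  · rw [intervalIntegral.integral_of_le (by linarith), ← integral_Icc_eq_integral_Ioc]
    refine integral_congr_ae (Eventually.of_forall (fun x => ?_))
    simp only
    rw [intervalIntegral.integral_of_le hpi, ← integral_Icc_eq_integral_Ioc]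
  · rw [← Measure.volume_eq_prod]
    exact hc.continuousOn.integrableOn_compact (isCompact_Icc.prod isCompact_Icc)

theorem J_swap {f : ℂ → ℝ} (hf : Continuous f) (R : ℝ) :
    (∫ x in (-R)..R, ∫ y in (0 : ℝ)..(2 * Real.pi), f (x + y * I)) =
      ∫ y in (0 : ℝ)..(2 * Real.pi), ∫ x in (-R)..R, f (x + y * I) := by
  have hc := continuous_line2 hf
  apply intervalIntegral_intervalIntegral_swap (F := fun x y : ℝ => f (x + y * I))
  have : IntegrableOn (fun p : ℝ × ℝ => f (p.1 + p.2 * I)) (uIcc (-R) R ×ˢ uIcc 0 (2 * Real.pi)) :=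
    hc.continuousOn.integrableOn_compact (isCompact_uIcc.prod isCompact_uIcc)
  exact this.mono_set (Set.prod_mono uIoc_subset_uIcc uIoc_subset_uIcc)

theorem box_dy_zero {V : ℂ → ℝ} (hV : ContDiff ℝ 1 V) (hper : ∀ z, V (z + 2 * Real.pi * I) = V z)
    {R : ℝ} (hR : 0 < R) : ∫ z in box (-R) R, dy V z = 0 := by
  have hc : Continuous (dy V) := (contDiff_dy (m := 0) hV (by norm_num)).continuous
  rw [← J_eq_box hc hR]
  have hin : ∀ x : ℝ, ∫ y in (0 : ℝ)..(2 * Real.pi), dy V (x + y * I) = 0 := by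
    intro x
    rw [intervalIntegral.integral_eq_sub_of_hasDerivAt (f := fun y : ℝ => V (x + y * I))
      (fun y _ => hasDerivAt_line_y (hV.differentiable (by norm_num)) x y)
      ((by fun_prop : Continuous (fun y : ℝ => dy V (x + y * I))).intervalIntegrable _ _)]
    have := hper x
    push_cast
    rw [this]
    simp
  simp [hin]

theorem box_dx_zero {V : ℂ → ℝ} (hV : ContDiff ℝ 1 V) {R : ℝ} (hR : 0 < R)
    (hz : ∀ z : ℂ, R ≤ |z.re| → V z = 0) : ∫ z in box (-R) R, dx V z = 0 := by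
  have hc : Continuous (dx V) := (contDiff_dx (m := 0) hV (by norm_num)).continuous
  rw [← J_eq_box hc hR, J_swap hc R]
  have hin : ∀ y : ℝ, ∫ x in (-R)..R, dx V (x + y * I) = 0 := by
    intro y
    rw [intervalIntegral.integral_eq_sub_of_hasDerivAt (f := fun x : ℝ => V (x + y * I))
      (fun x _ => hasDerivAt_line_x (hV.differentiable (by norm_num)) x y)
      ((by fun_prop : Continuous (fun x : ℝ => dx V (x + y * I))).intervalIntegrable _ _)]
    rw [hz _ (by simp [abs_of_pos hR]), hz _ (by simp [abs_of_pos hR]), sub_zero]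
  simp [hin]

theorem cs_aux {K : Set ℂ} (hK : IsCompact K) {P Q : ℂ → ℝ} (hP : Continuous P) (hQ : Continuous Q) :
    (∫ z in K, P z * Q z) ^ 2 ≤ (∫ z in K, P z ^ 2) * ∫ z in K, Q z ^ 2 := by
  have i1 : IntegrableOn (fun z => P z ^ 2) K := (hP.pow 2).continuousOn.integrableOn_compact hK
  have i2 : IntegrableOn (fun z => P z * Q z) K := (hP.mul hQ).continuousOn.integrableOn_compact hK
  have i3 : IntegrableOn (fun z => Q z ^ 2) K := (hQ.pow 2).continuousOn.integrableOn_compact hK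
  have h : ∀ t : ℝ, 0 ≤ (∫ z in K, P z ^ 2) * (t * t) + (-2 * ∫ z in K, P z * Q z) * t +
      ∫ z in K, Q z ^ 2 := by
    intro t
    have e : ∫ z in K, (t * P z - Q z) ^ 2 = (∫ z in K, P z ^ 2) * (t * t) +
        (-2 * ∫ z in K, P z * Q z) * t + ∫ z in K, Q z ^ 2 := by
      have e1 : ∀ z, (t * P z - Q z) ^ 2 = (t * t) * P z ^ 2 + (-2 * t) * (P z * Q z) + Q z ^ 2 := by
        intro z; ring
      simp only [e1]
      have s1 : IntegrableOn (fun z => (t * t) * P z ^ 2) K := i1.const_mul _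
      have s2 : IntegrableOn (fun z => (-2 * t) * (P z * Q z)) K := i2.const_mul _
      have s3 : IntegrableOn (fun z => (t * t) * P z ^ 2 + (-2 * t) * (P z * Q z)) K := s1.add s2
      rw [integral_add s3 i3, integral_add s1 s2, integral_const_mul, integral_const_mul]
      ring
    rw [← e]
    exact integral_nonneg (fun z => sq_nonneg _)
  have hd := discrim_le_zero h
  unfold discrim at hd
  nlinarith

theorem pt_bound_aux {MX C0 ρ x x' psi psa ph ax ay bx pa r rx ry : ℝ} (hρ : 0 < ρ) (hMX : 0 < MX)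
    (hC0 : 0 < C0) (h1 : |x| ≤ MX) (h2 : |x'| ≤ MX) (h3 : |psi| ≤ C0) (h4 : |psa| ≤ C0)
    (h5 : |ph| ≤ C0) (h6 : |ph * pa| ≤ C0) :
    |x * ((-psa * ay + ph * (ax + ρ * pa)) * (ρ * r + rx)) - ρ * (x * psi) * ry +
      (x' * psi + x * (psa * ax + ph * bx)) * ry| ≤
    MX * C0 * ((1 + ρ) ^ 2 + ρ + 1) * ((1 + |ax| + |ay| + |bx|) * (|r| + |rx| + |ry|)) := by
  set P := 1 + |ax| + |ay| + |bx| with hP
  set Q := |r| + |rx| + |ry| with hQ
  have a1 := abs_nonneg ax
  have a2 := abs_nonneg ay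
  have a3 := abs_nonneg bx
  have a4 := abs_nonneg r
  have a5 := abs_nonneg rx
  have a6 := abs_nonneg ry
  have hP1 : 1 ≤ P := by rw [hP]; linarith
  have hQ0 : 0 ≤ Q := by rw [hQ]; linarith
  have t1 : |-psa * ay + ph * (ax + ρ * pa)| ≤ C0 * (1 + ρ) * P := by
    have e : -psa * ay + ph * (ax + ρ * pa) = -(psa * ay) + ph * ax + ρ * (ph * pa) := by ring
    rw [e]
    have b1 : |-(psa * ay) + ph * ax + ρ * (ph * pa)| ≤ |-(psa * ay)| + |ph * ax| + |ρ * (ph * pa)| :=
      abs_add_three _ _ _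
    rw [abs_neg, abs_mul psa, abs_mul ph ax, abs_mul ρ, abs_of_pos hρ] at b1
    have b2 : |psa| * |ay| ≤ C0 * |ay| := mul_le_mul_of_nonneg_right h4 a2
    have b3 : |ph| * |ax| ≤ C0 * |ax| := mul_le_mul_of_nonneg_right h5 a1
    have b4 : ρ * |ph * pa| ≤ ρ * C0 := mul_le_mul_of_nonneg_left h6 hρ.le
    have b5 : 0 ≤ C0 * ρ * (|ax| + |ay| + |bx|) := by positivity
    have b6 : 0 ≤ C0 * |bx| := by positivity
    rw [hP]
    nlinarith
  have t2 : |ρ * r + rx| ≤ (1 + ρ) * Q := by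
    have b1 : |ρ * r + rx| ≤ |ρ * r| + |rx| := abs_add_le _ _
    rw [abs_mul, abs_of_pos hρ] at b1
    rw [hQ]
    have b2 : 0 ≤ ρ * |rx| := by positivity
    have b3 : 0 ≤ ρ * |ry| := by positivity
    nlinarith
  have t3 : |x' * psi + x * (psa * ax + ph * bx)| ≤ MX * C0 * P := by
    have b1 : |x' * psi + x * (psa * ax + ph * bx)| ≤ |x' * psi| + |x * (psa * ax + ph * bx)| :=
      abs_add_le _ _
    rw [abs_mul x', abs_mul x] at b1
    have b2 : |psa * ax + ph * bx| ≤ |psa| * |ax| + |ph| * |bx| := by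
      have := abs_add_le (psa * ax) (ph * bx)
      rwa [abs_mul, abs_mul] at this
    have b3 : |psa| * |ax| ≤ C0 * |ax| := mul_le_mul_of_nonneg_right h4 a1
    have b4 : |ph| * |bx| ≤ C0 * |bx| := mul_le_mul_of_nonneg_right h5 a3
    have b5 : |x'| * |psi| ≤ MX * C0 := mul_le_mul h2 h3 (abs_nonneg _) hMX.le
    have b6 : |x| * |psa * ax + ph * bx| ≤ MX * (C0 * |ax| + C0 * |bx|) :=
      mul_le_mul h1 (b2.trans (add_le_add b3 b4)) (abs_nonneg _) hMX.le
    have b7 : 0 ≤ MX * C0 * |ay| := by positivity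
    rw [hP]
    nlinarith
  have hQPQ : Q ≤ P * Q := by nlinarith
  have hryQ : |ry| ≤ Q := by rw [hQ]; linarith
  have s1 : |x * ((-psa * ay + ph * (ax + ρ * pa)) * (ρ * r + rx))| ≤
      MX * ((C0 * (1 + ρ) * P) * ((1 + ρ) * Q)) := by
    rw [abs_mul, abs_mul]
    have c1 : |-psa * ay + ph * (ax + ρ * pa)| * |ρ * r + rx| ≤ (C0 * (1 + ρ) * P) * ((1 + ρ) * Q) :=
      mul_le_mul t1 t2 (abs_nonneg _) (by positivity)
    exact mul_le_mul h1 c1 (by positivity) hMX.le
  have s2 : |ρ * (x * psi) * ry| ≤ ρ * (MX * C0) * (P * Q) := by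
    rw [abs_mul, abs_mul, abs_mul, abs_of_pos hρ]
    have c1 : |x| * |psi| ≤ MX * C0 := mul_le_mul h1 h3 (abs_nonneg _) hMX.le
    exact mul_le_mul (mul_le_mul_of_nonneg_left c1 hρ.le) (hryQ.trans hQPQ) (abs_nonneg _)
      (by positivity)
  have s3 : |(x' * psi + x * (psa * ax + ph * bx)) * ry| ≤ MX * C0 * P * Q := by
    rw [abs_mul]
    exact mul_le_mul t3 hryQ (abs_nonneg _) (by positivity)
  have s4 : |x * ((-psa * ay + ph * (ax + ρ * pa)) * (ρ * r + rx)) - ρ * (x * psi) * ry +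
      (x' * psi + x * (psa * ax + ph * bx)) * ry| ≤
      |x * ((-psa * ay + ph * (ax + ρ * pa)) * (ρ * r + rx))| + |ρ * (x * psi) * ry| +
      |(x' * psi + x * (psa * ax + ph * bx)) * ry| := by
    refine (abs_add_le _ _).trans ?_
    have := abs_sub (x * ((-psa * ay + ph * (ax + ρ * pa)) * (ρ * r + rx))) (ρ * (x * psi) * ry)
    linarith
  have e : MX * C0 * ((1 + ρ) ^ 2 + ρ + 1) * (P * Q) =
      MX * ((C0 * (1 + ρ) * P) * ((1 + ρ) * Q)) + ρ * (MX * C0) * (P * Q) + MX * C0 * P * Q := by ring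
  rw [e]
  linarith

set_option maxHeartbeats 2000000 in
/-- TARGET: `|∫ X φ(s) (Lu) (r + r_x/ρ)| ≤ C sqrt(1+E1) sqrt(E2)` with `C` depending on `ρ, φ, X, R` only. -/
theorem cross_bound (ρ : ℝ) (hρ : 0 < ρ) (φ X : ℝ → ℝ) (hφ : Wt φ) (hX : ContDiff ℝ 2 X)
    (R : ℝ) (hR : 0 < R) (hXs : ∀ x, R ≤ |x| → X x = 0) :
    ∃ C : ℝ, 0 < C ∧ ∀ u r : ℂ → ℝ, ContDiff ℝ 5 u → ContDiff ℝ 2 r →
      (∀ z : ℂ, u (z + 2 * Real.pi * I) = u z) → (∀ z : ℂ, r (z + 2 * Real.pi * I) = r z) →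
      |∫ x : ℝ, ∫ y in (0 : ℝ)..(2 * Real.pi),
          X x * (φ (aof ρ u (x + y * I) ^ 2 + bof ρ u (x + y * I) ^ 2) * Lop ρ u (x + y * I)
            * (r (x + y * I) + dx r (x + y * I) / ρ))|
        ≤ C * Real.sqrt (1 + ∫ z in box (-R) R,
              (dx (aof ρ u) z ^ 2 + dy (aof ρ u) z ^ 2 + dx (bof ρ u) z ^ 2))
            * Real.sqrt (∫ z in box (-R) R, (r z ^ 2 + dx r z ^ 2 + dy r z ^ 2)) := by
  obtain ⟨C0, hC0, hb⟩ := Psi_bounds hφ
  have hXd : Differentiable ℝ X := hX.differentiable (by norm_num)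
  have hXc : Continuous X := hX.continuous
  have hX'c : Continuous (deriv X) := hX.continuous_deriv (by norm_num)
  have hφc : Continuous φ := hφ.smooth.continuous
  obtain ⟨M1, hM1⟩ := (isCompact_Icc (a := -R) (b := R)).exists_bound_of_continuousOn hXc.continuousOn
  obtain ⟨M2, hM2⟩ := (isCompact_Icc (a := -R) (b := R)).exists_bound_of_continuousOn hX'c.continuousOn
  obtain ⟨MX, hMX0, hMX1, hMX2⟩ : ∃ MX : ℝ, 0 < MX ∧ M1 ≤ MX ∧ M2 ≤ MX :=
    ⟨max (max M1 M2) 1, by positivity, (le_max_left M1 M2).trans (le_max_left _ _),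
      (le_max_right M1 M2).trans (le_max_left _ _)⟩
  obtain ⟨C1, hC1⟩ : ∃ C1, C1 = MX * C0 * ((1 + ρ) ^ 2 + ρ + 1) := ⟨_, rfl⟩
  have hC1pos : 0 < C1 := by rw [hC1]; positivity
  obtain ⟨K, hK⟩ : ∃ K, K = 4 * (∫ z in box (-R) R, (1:ℝ)) + 4 := ⟨_, rfl⟩
  have hvol : 0 ≤ ∫ z in box (-R) R, (1:ℝ) := integral_nonneg (fun _ => zero_le_one)
  have hKpos : 0 < K := by rw [hK]; linarith
  refine ⟨C1 * Real.sqrt K * Real.sqrt 3, by positivity, ?_⟩
  intro u r hu hr hup hrp
  have hbox := isCompact_box (-R) R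
  -- regularity
  have hdxu : ContDiff ℝ 4 (dx u) := contDiff_dx hu (by norm_num)
  have hdyu : ContDiff ℝ 4 (dy u) := contDiff_dy hu (by norm_num)
  have hu4 : ContDiff ℝ 4 u := hu.of_le (by norm_num)
  have ha : ContDiff ℝ 4 (aof ρ u) := hu4.add (hdxu.div_const ρ)
  have hbb : ContDiff ℝ 4 (bof ρ u) := hdyu.div_const ρ
  have ha1 : ContDiff ℝ 1 (aof ρ u) := ha.of_le (by norm_num)
  have hb1 : ContDiff ℝ 1 (bof ρ u) := hbb.of_le (by norm_num)
  have had : Differentiable ℝ (aof ρ u) := ha1.differentiable (by norm_num)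
  have hbd : Differentiable ℝ (bof ρ u) := hb1.differentiable (by norm_num)
  have cax : Continuous (dx (aof ρ u)) := (contDiff_dx (m := 0) ha1 (by norm_num)).continuous
  have cay : Continuous (dy (aof ρ u)) := (contDiff_dy (m := 0) ha1 (by norm_num)).continuous
  have cbx : Continuous (dx (bof ρ u)) := (contDiff_dx (m := 0) hb1 (by norm_num)).continuous
  have hrx : ContDiff ℝ 1 (dx r) := contDiff_dx hr (by norm_num)
  have hry : ContDiff ℝ 1 (dy r) := contDiff_dy hr (by norm_num)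
  have hr1 : ContDiff ℝ 1 r := hr.of_le (by norm_num)
  have hrd : Differentiable ℝ r := hr1.differentiable (by norm_num)
  have hrxd : Differentiable ℝ (dx r) := hrx.differentiable (by norm_num)
  have hryd : Differentiable ℝ (dy r) := hry.differentiable (by norm_num)
  have cL : Continuous (Lop ρ u) := by
    have c1 : Continuous (dx (dx u)) := (contDiff_dx (m := 0) hdxu (by norm_num)).continuous
    have c2 : Continuous (dy (dy u)) := (contDiff_dy (m := 0) hdyu (by norm_num)).continuous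
    have c3 : Continuous (dx u) := hdxu.continuous
    have c4 : Continuous u := hu.continuous
    unfold Lop
    fun_prop
  -- periodicity
  have hdper : ∀ f : ℂ → ℝ, (∀ z : ℂ, f (z + 2 * Real.pi * I) = f z) →
      ∀ z : ℂ, fderiv ℝ f (z + 2 * Real.pi * I) = fderiv ℝ f z := by
    intro f hf z
    have h1 : (fun w : ℂ => f (w + 2 * Real.pi * I)) = f := funext hf
    have h2 := fderiv_comp_add_right (𝕜 := ℝ) (f := f) (x := z) (2 * Real.pi * I)
    rw [h1] at h2
    exact h2.symm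
  have hpx : ∀ f : ℂ → ℝ, (∀ z : ℂ, f (z + 2 * Real.pi * I) = f z) →
      ∀ z : ℂ, dx f (z + 2 * Real.pi * I) = dx f z := fun f hf z => by
    unfold dx; rw [hdper f hf z]
  have hpy : ∀ f : ℂ → ℝ, (∀ z : ℂ, f (z + 2 * Real.pi * I) = f z) →
      ∀ z : ℂ, dy f (z + 2 * Real.pi * I) = dy f z := fun f hf z => by
    unfold dy; rw [hdper f hf z]
  have hap : ∀ z : ℂ, aof ρ u (z + 2 * Real.pi * I) = aof ρ u z := fun z => by
    unfold aof; rw [hup, hpx u hup]
  have hbp : ∀ z : ℂ, bof ρ u (z + 2 * Real.pi * I) = bof ρ u z := fun z => by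
    unfold bof; rw [hpy u hup]
  -- the function Psi
  obtain ⟨Y, hY⟩ : ∃ Y : ℂ → ℝ, Y = fun z => X z.re * Psif φ (aof ρ u z) (bof ρ u z) := ⟨_, rfl⟩
  have hΨ : ContDiff ℝ 1 (fun z => Psif φ (aof ρ u z) (bof ρ u z)) :=
    (contDiff_Psif hφ).comp (ha1.prodMk hb1)
  have hΨd : Differentiable ℝ (fun z => Psif φ (aof ρ u z) (bof ρ u z)) :=
    hΨ.differentiable (by norm_num)
  have hXre : ContDiff ℝ 1 (fun z : ℂ => X z.re) := (hX.of_le (by norm_num)).comp Complex.reCLM.contDiff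
  have hXred : Differentiable ℝ (fun z : ℂ => X z.re) := hXre.differentiable (by norm_num)
  have hY1 : ContDiff ℝ 1 Y := by rw [hY]; exact hXre.mul hΨ
  have hYd : Differentiable ℝ Y := hY1.differentiable (by norm_num)
  have hYp : ∀ z : ℂ, Y (z + 2 * Real.pi * I) = Y z := by
    intro z
    rw [hY]
    simp only [hap, hbp]
    congr 2
    simp
  have hYx : ∀ z, dx Y z = deriv X z.re * Psif φ (aof ρ u z) (bof ρ u z) +
      X z.re * (Psa φ (aof ρ u z) (bof ρ u z) * dx (aof ρ u) z +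
        φ (aof ρ u z ^ 2 + bof ρ u z ^ 2) * dx (bof ρ u) z) := by
    intro z
    rw [hY, dx_mul_aux (hXred z) (hΨd z), dx_re_aux hXd, (dPsi_aux hφ (had z) (hbd z)).1]
  have hYy : ∀ z, dy Y z = X z.re * (Psa φ (aof ρ u z) (bof ρ u z) * dy (aof ρ u) z +
        φ (aof ρ u z ^ 2 + bof ρ u z ^ 2) * dy (bof ρ u) z) := by
    intro z
    rw [hY, dy_mul_aux (hXred z) (hΨd z), dy_re_aux hXd, (dPsi_aux hφ (had z) (hbd z)).2, zero_mul,
      zero_add]
  obtain ⟨V1, hV1⟩ : ∃ V1 : ℂ → ℝ, V1 = fun z => Y z * dy r z := ⟨_, rfl⟩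
  obtain ⟨V2, hV2⟩ : ∃ V2 : ℂ → ℝ, V2 = fun z => Y z * (ρ * r z + dx r z) := ⟨_, rfl⟩
  have hV1c : ContDiff ℝ 1 V1 := by rw [hV1]; exact hY1.mul hry
  have hV2c : ContDiff ℝ 1 V2 := by
    rw [hV2]; exact hY1.mul ((contDiff_const.mul hr1).add hrx)
  have hV1x : ∀ z, dx V1 z = dx Y z * dy r z + Y z * dy (dx r) z := by
    intro z
    rw [hV1, dx_mul_aux (hYd z) (hryd z), dxdy_comm_aux hr]
  have hV2y : ∀ z, dy V2 z = dy Y z * (ρ * r z + dx r z) + Y z * (ρ * dy r z + dy (dx r) z) := by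
    intro z
    have e : dy (fun w => ρ * r w + dx r w) z = ρ * dy r z + dy (dx r) z := by
      have h2 : HasFDerivAt (fun w => ρ * r w + dx r w) _ z :=
        ((hrd z).hasFDerivAt.const_mul ρ).add (hrxd z).hasFDerivAt
      unfold dy
      rw [h2.fderiv]
      simp
    have hg : DifferentiableAt ℝ (fun w => ρ * r w + dx r w) z :=
      ((hrd z).const_mul ρ).add (hrxd z)
    rw [hV2, dy_mul_aux (hYd z) hg, e]
  have hV1z : ∀ z : ℂ, R ≤ |z.re| → V1 z = 0 := by
    intro z hz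
    rw [hV1, hY]
    simp [hXs _ hz]
  have hV2p : ∀ z : ℂ, V2 (z + 2 * Real.pi * I) = V2 z := by
    intro z
    rw [hV2]
    simp only [hYp, hrp, hpx r hrp]
  -- the remainder
  obtain ⟨F, hF⟩ : ∃ F : ℂ → ℝ, F = fun z =>
      X z.re * ((-Psa φ (aof ρ u z) (bof ρ u z) * dy (aof ρ u) z +
        φ (aof ρ u z ^ 2 + bof ρ u z ^ 2) * (dx (aof ρ u) z + ρ * aof ρ u z)) * (ρ * r z + dx r z)) -
      ρ * (X z.re * Psif φ (aof ρ u z) (bof ρ u z)) * dy r z +
      (deriv X z.re * Psif φ (aof ρ u z) (bof ρ u z) +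
      X z.re * (Psa φ (aof ρ u z) (bof ρ u z) * dx (aof ρ u) z +
        φ (aof ρ u z ^ 2 + bof ρ u z ^ 2) * dx (bof ρ u) z)) * dy r z := ⟨_, rfl⟩
  obtain ⟨G, hG⟩ : ∃ G : ℂ → ℝ, G = fun z => X z.re * (φ (aof ρ u z ^ 2 + bof ρ u z ^ 2) * Lop ρ u z
            * (r z + dx r z / ρ)) := ⟨_, rfl⟩
  have hGc : Continuous G := by
    have c1 := ha1.continuous
    have c2 := hb1.continuous
    have c3 := hr1.continuous
    have c4 := hrx.continuous
    rw [hG]
    fun_prop
  have hm : ∀ z, Lop ρ u z = ρ * dy (bof ρ u) z + ρ * (dx (aof ρ u) z + ρ * aof ρ u z) := by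
    intro z
    have hud : Differentiable ℝ u := hu.differentiable (by norm_num)
    have hdxud : Differentiable ℝ (dx u) := hdxu.differentiable (by norm_num)
    have hdyud : Differentiable ℝ (dy u) := hdyu.differentiable (by norm_num)
    have e1 : dy (bof ρ u) z = dy (dy u) z / ρ := by
      have h2 : HasFDerivAt (bof ρ u) _ z := (hdyud z).hasFDerivAt.mul_const ρ⁻¹
      conv_lhs => unfold dy
      rw [h2.fderiv]
      simp [dy, div_eq_inv_mul]
    have e2 : dx (aof ρ u) z = dx u z + dx (dx u) z / ρ := by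
      have h2 : HasFDerivAt (aof ρ u) _ z :=
        (hud z).hasFDerivAt.add ((hdxud z).hasFDerivAt.mul_const ρ⁻¹)
      conv_lhs => unfold dx
      rw [h2.fderiv]
      simp [dx, div_eq_inv_mul]
    rw [e1, e2]
    unfold Lop aof
    field_simp
    ring
  have hid : ∀ z, G z = dy V2 z - dx V1 z + F z := by
    intro z
    rw [hV1x, hV2y, hYx, hYy, hG, hF, hY]
    simp only
    rw [hm z]
    field_simp
    ring
  have hcV1 : Continuous (dx V1) := (contDiff_dx (m := 0) hV1c (by norm_num)).continuous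
  have hcV2 : Continuous (dy V2) := (contDiff_dy (m := 0) hV2c (by norm_num)).continuous
  have hFc : Continuous F := by
    have : F = fun z => G z - dy V2 z + dx V1 z := by
      funext z
      rw [hid z]; ring
    rw [this]
    exact (hGc.sub hcV2).add hcV1
  have iG : IntegrableOn G (box (-R) R) := hGc.continuousOn.integrableOn_compact hbox
  have iF : IntegrableOn F (box (-R) R) := hFc.continuousOn.integrableOn_compact hbox
  have iV1 : IntegrableOn (dx V1) (box (-R) R) := hcV1.continuousOn.integrableOn_compact hbox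
  have iV2 : IntegrableOn (dy V2) (box (-R) R) := hcV2.continuousOn.integrableOn_compact hbox
  have hGF : ∫ z in box (-R) R, G z = ∫ z in box (-R) R, F z := by
    have e : ∀ z, G z = (dy V2 z - dx V1 z) + F z := hid
    simp only [e]
    have s1 : IntegrableOn (fun z => dy V2 z - dx V1 z) (box (-R) R) := iV2.sub iV1
    rw [integral_add s1 iF, integral_sub iV2 iV1, box_dy_zero hV2c hV2p hR,
      box_dx_zero hV1c hR hV1z]
    ring
  -- the left hand side
  have hLHS : (∫ x : ℝ, ∫ y in (0 : ℝ)..(2 * Real.pi),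
          X x * (φ (aof ρ u (x + y * I) ^ 2 + bof ρ u (x + y * I) ^ 2) * Lop ρ u (x + y * I)
            * (r (x + y * I) + dx r (x + y * I) / ρ))) = ∫ z in box (-R) R, G z := by
    rw [← J_eq_box hGc hR]
    have e : ∀ x y : ℝ, X x * (φ (aof ρ u (x + y * I) ^ 2 + bof ρ u (x + y * I) ^ 2) * Lop ρ u (x + y * I)
            * (r (x + y * I) + dx r (x + y * I) / ρ)) = G (x + y * I) := by
      intro x y
      rw [hG]
      simp
    simp only [e]
    symm
    apply intervalIntegral.integral_eq_integral_of_support_subset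
    intro x hx
    rw [Function.mem_support] at hx
    by_contra hcon
    apply hx
    have hxR : R ≤ |x| := by
      rw [le_abs]
      rw [Set.mem_Ioc, not_and_or, not_lt, not_le] at hcon
      rcases hcon with h1 | h1
      · right; linarith
      · left; exact h1.le
    have : ∀ y : ℝ, G (x + y * I) = 0 := by
      intro y
      rw [hG]
      simp [hXs x hxR]
    simp [this]
  rw [hLHS, hGF]
  -- estimates
  obtain ⟨P, hP⟩ : ∃ P : ℂ → ℝ, P = fun z => 1 + |dx (aof ρ u) z| + |dy (aof ρ u) z| +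
    |dx (bof ρ u) z| := ⟨_, rfl⟩
  obtain ⟨Q, hQ⟩ : ∃ Q : ℂ → ℝ, Q = fun z => |r z| + |dx r z| + |dy r z| := ⟨_, rfl⟩
  have cP : Continuous P := by rw [hP]; fun_prop
  have cQ : Continuous Q := by
    have c3 := hr1.continuous
    have c4 := hrx.continuous
    have c5 := hry.continuous
    rw [hQ]; fun_prop
  have hbd : ∀ z ∈ box (-R) R, |F z| ≤ C1 * (P z * Q z) := by
    intro z hz
    obtain ⟨b1, b2, b3, b4⟩ := hb (aof ρ u z) (bof ρ u z)
    rw [hF, hP, hQ, hC1]
    exact pt_bound_aux hρ hMX0 hC0 ((hM1 z.re hz.1).trans hMX1) ((hM2 z.re hz.1).trans hMX2)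
      b1 b2 b3 b4
  have iPQ : IntegrableOn (fun z => P z * Q z) (box (-R) R) :=
    (cP.mul cQ).continuousOn.integrableOn_compact hbox
  have hmeasbox : MeasurableSet (box (-R) R) := hbox.isClosed.measurableSet
  have f1 : |∫ z in box (-R) R, F z| ≤ C1 * ∫ z in box (-R) R, P z * Q z := by
    calc |∫ z in box (-R) R, F z| ≤ ∫ z in box (-R) R, |F z| := abs_integral_le_integral_abs
      _ ≤ ∫ z in box (-R) R, C1 * (P z * Q z) :=
          setIntegral_mono_on iF.abs (iPQ.const_mul C1) hmeasbox hbd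
      _ = C1 * ∫ z in box (-R) R, P z * Q z := integral_const_mul _ _
  have f2 := cs_aux hbox cP cQ
  have hP2 : 0 ≤ ∫ z in box (-R) R, P z ^ 2 := integral_nonneg (fun z => sq_nonneg _)
  have hQ2 : 0 ≤ ∫ z in box (-R) R, Q z ^ 2 := integral_nonneg (fun z => sq_nonneg _)
  have f3 : ∫ z in box (-R) R, P z * Q z ≤
      Real.sqrt (∫ z in box (-R) R, P z ^ 2) * Real.sqrt (∫ z in box (-R) R, Q z ^ 2) := by
    rw [← Real.sqrt_mul hP2]
    exact Real.le_sqrt_of_sq_le f2
  obtain ⟨E1, hE1⟩ : ∃ E1, E1 = ∫ z in box (-R) R,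
    (dx (aof ρ u) z ^ 2 + dy (aof ρ u) z ^ 2 + dx (bof ρ u) z ^ 2) := ⟨_, rfl⟩
  obtain ⟨E2, hE2⟩ : ∃ E2, E2 = ∫ z in box (-R) R, (r z ^ 2 + dx r z ^ 2 + dy r z ^ 2) := ⟨_, rfl⟩
  rw [← hE1, ← hE2]
  have hE10 : 0 ≤ E1 := by rw [hE1]; exact integral_nonneg (fun z => by positivity)
  have hE20 : 0 ≤ E2 := by rw [hE2]; exact integral_nonneg (fun z => by positivity)
  have i1 : IntegrableOn (fun z => dx (aof ρ u) z ^ 2 + dy (aof ρ u) z ^ 2 + dx (bof ρ u) z ^ 2)
      (box (-R) R) := by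
    have : Continuous (fun z => dx (aof ρ u) z ^ 2 + dy (aof ρ u) z ^ 2 + dx (bof ρ u) z ^ 2) := by
      fun_prop
    exact this.continuousOn.integrableOn_compact hbox
  have i2 : IntegrableOn (fun z => r z ^ 2 + dx r z ^ 2 + dy r z ^ 2) (box (-R) R) := by
    have c3 := hr1.continuous
    have c4 := hrx.continuous
    have c5 := hry.continuous
    have : Continuous (fun z => r z ^ 2 + dx r z ^ 2 + dy r z ^ 2) := by fun_prop
    exact this.continuousOn.integrableOn_compact hbox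
  have i0 : IntegrableOn (fun _ : ℂ => (1:ℝ)) (box (-R) R) :=
    continuousOn_const.integrableOn_compact hbox
  have g1 : ∫ z in box (-R) R, P z ^ 2 ≤ K * (1 + E1) := by
    have s1 : ∫ z in box (-R) R, P z ^ 2 ≤ ∫ z in box (-R) R, (4 * (1:ℝ) +
        4 * (dx (aof ρ u) z ^ 2 + dy (aof ρ u) z ^ 2 + dx (bof ρ u) z ^ 2)) := by
      refine setIntegral_mono_on ((cP.pow 2).continuousOn.integrableOn_compact hbox)
        ((i0.const_mul 4).add (i1.const_mul 4)) hmeasbox (fun z _ => ?_)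
      rw [hP]
      simp only
      have q1 := sq_abs (dx (aof ρ u) z)
      have q2 := sq_abs (dy (aof ρ u) z)
      have q3 := sq_abs (dx (bof ρ u) z)
      nlinarith [sq_nonneg (1 - |dx (aof ρ u) z|), sq_nonneg (1 - |dy (aof ρ u) z|),
        sq_nonneg (1 - |dx (bof ρ u) z|), sq_nonneg (|dx (aof ρ u) z| - |dy (aof ρ u) z|),
        sq_nonneg (|dx (aof ρ u) z| - |dx (bof ρ u) z|), sq_nonneg (|dy (aof ρ u) z| - |dx (bof ρ u) z|)]
    rw [integral_add (i0.const_mul 4) (i1.const_mul 4), integral_const_mul, integral_const_mul,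
      ← hE1] at s1
    refine s1.trans ?_
    rw [hK]
    have : 0 ≤ (∫ z in box (-R) R, (1:ℝ)) * E1 := mul_nonneg hvol hE10
    nlinarith
  have g2 : ∫ z in box (-R) R, Q z ^ 2 ≤ 3 * E2 := by
    have s1 : ∫ z in box (-R) R, Q z ^ 2 ≤ ∫ z in box (-R) R,
        3 * (r z ^ 2 + dx r z ^ 2 + dy r z ^ 2) := by
      refine setIntegral_mono_on ((cQ.pow 2).continuousOn.integrableOn_compact hbox)
        (i2.const_mul 3) hmeasbox (fun z _ => ?_)
      rw [hQ]
      simp only
      have q1 := sq_abs (r z)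
      have q2 := sq_abs (dx r z)
      have q3 := sq_abs (dy r z)
      nlinarith [sq_nonneg (|r z| - |dx r z|), sq_nonneg (|r z| - |dy r z|),
        sq_nonneg (|dx r z| - |dy r z|)]
    rw [integral_const_mul, ← hE2] at s1
    exact s1
  have g3 : Real.sqrt (∫ z in box (-R) R, P z ^ 2) ≤ Real.sqrt K * Real.sqrt (1 + E1) := by
    rw [← Real.sqrt_mul hKpos.le]
    exact Real.sqrt_le_sqrt g1
  have g4 : Real.sqrt (∫ z in box (-R) R, Q z ^ 2) ≤ Real.sqrt 3 * Real.sqrt E2 := by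
    rw [← Real.sqrt_mul (by norm_num)]
    exact Real.sqrt_le_sqrt g2
  calc |∫ z in box (-R) R, F z| ≤ C1 * ∫ z in box (-R) R, P z * Q z := f1
    _ ≤ C1 * ((Real.sqrt K * Real.sqrt (1 + E1)) * (Real.sqrt 3 * Real.sqrt E2)) := by
        refine mul_le_mul_of_nonneg_left (f3.trans ?_) hC1pos.le
        exact mul_le_mul g3 g4 (Real.sqrt_nonneg _) (by positivity)
    _ = C1 * Real.sqrt K * Real.sqrt 3 * Real.sqrt (1 + E1) * Real.sqrt E2 := by ring

end M_S2
end Pool.Agent.Helper758.LS
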