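import Mathlib
import Pool.Agent.Helper758.LSDefs
import Pool.Agent.Helper758.LSDefs2
import Pool.Agent.Helper758.LS_B1
import Pool.Agent.Helper758.LS_B2
import Pool.Agent.Helper758.LS_B3
import Pool.Agent.Helper758.LS_B4
import Pool.Agent.Helper758.LS_B5
import Pool.Agent.Helper758.LS_BCAC
import Pool.Agent.Helper758.LS_MOL
import Pool.Agent.Helper758.LS_S2

namespace Pool.Agent.Helper758.LS
open MeasureTheory Filter Topology Set Complex
open M_B1 (moll_bdd moll_per moll_upper)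
open M_B2 (grad_bdd)
open M_B3 (moll_h1_cauchy moll_l2_cauchy)
open M_B4 (dx_bdd)
open M_B5 (moll_tendsto_l2 second_conv)
open M_BCAC (beN_props)
open M_MOL (dx_moll_smooth dy_moll_smooth moll_add_const moll_comm moll_contDiff moll_l1 moll_symm moll_tendsto_l1 psid_props)
open M_S2 (cross_bound)
namespace M_B6




























/-! ### auxiliary lemmas for cross_zero -/

lemma cz_bQ_eq (K : ℝ) : bQ K = {z : ℂ | |z.re| ≤ K ∧ |z.im| ≤ K} := rfl

lemma cz_bQ_compact (K : ℝ) : IsCompact (bQ K) := by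
  have h1 : bQ K = Complex.equivRealProdCLM.symm '' (Icc (-K) K ×ˢ Icc (-K) K) := by
    ext z
    simp only [bQ, mem_ofPred_eq, mem_image, Set.mem_prod, mem_Icc, abs_le]
    constructor
    · intro h
      exact ⟨(z.re, z.im), h, by apply Complex.ext <;> simp⟩
    · rintro ⟨⟨a, b⟩, h, rfl⟩
      simpa using h
  rw [h1]
  exact (isCompact_Icc.prod isCompact_Icc).image (ContinuousLinearEquiv.continuous _)

lemma cz_bQ_meas (K : ℝ) : MeasurableSet (bQ K) := (cz_bQ_compact K).isClosed.measurableSet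

lemma cz_bQ_fin (K : ℝ) : volume (bQ K) ≠ ⊤ := (cz_bQ_compact K).measure_lt_top.ne

lemma cz_bQ_mono {K K' : ℝ} (h : K ≤ K') : bQ K ⊆ bQ K' := fun z hz => ⟨hz.1.trans h, hz.2.trans h⟩

lemma cz_bQ_add {K : ℝ} {z c : ℂ} (hz : z ∈ bQ K) (hc : ‖c‖ ≤ 1) : z + c ∈ bQ (K + 1) := by
  refine ⟨?_, ?_⟩
  · rw [Complex.add_re]
    exact (abs_add_le _ _).trans (add_le_add hz.1 ((Complex.abs_re_le_norm c).trans hc))
  · rw [Complex.add_im]
    exact (abs_add_le _ _).trans (add_le_add hz.2 ((Complex.abs_im_le_norm c).trans hc))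

lemma cz_intOn {g : ℂ → ℝ} (hg : Continuous g) (K : ℝ) : IntegrableOn g (bQ K) :=
  hg.continuousOn.integrableOn_compact (cz_bQ_compact K)

lemma cz_memLp {g : ℂ → ℝ} (hg : Continuous g) (K : ℝ) : MemLp g 2 (volume.restrict (bQ K)) := by
  rw [memLp_two_iff_integrable_sq hg.aestronglyMeasurable]
  exact cz_intOn (hg.pow 2) K

/-- translation bound -/
lemma cz_trans {g : ℂ → ℝ} (hg : Continuous g) (h0 : ∀ z, 0 ≤ g z) (K : ℝ) (c : ℂ) (hc : ‖c‖ ≤ 1) :
    ∫ z in bQ K, g (z + c) ≤ ∫ z in bQ (K + 1), g z := by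
  have h1 : ∫ z in (fun z : ℂ => z + c) ⁻¹' (bQ (K + 1)), g (z + c) = ∫ z in bQ (K + 1), g z :=
    (measurePreserving_add_right volume c).setIntegral_preimage_emb
      (measurableEmbedding_addRight c) g (bQ (K + 1))
  rw [← h1]
  refine setIntegral_mono_set ?_ (Eventually.of_forall fun z => h0 _) ?_
  · have h2 : (fun z : ℂ => z + c) ⁻¹' (bQ (K + 1)) ⊆ bQ (K + 2) := by
      intro z hz
      have : (z + c) + (-c) ∈ bQ (K + 1 + 1) := cz_bQ_add hz (by rwa [norm_neg])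
      rw [add_neg_cancel_right] at this
      convert this using 2
      ring
    have hc2 : Continuous (fun z => g (z + c)) := by fun_prop
    exact (cz_intOn hc2 (K + 2)).mono_set h2
  · exact (Eventually.of_forall fun z hz => cz_bQ_add hz hc)

/-- averages -/
noncomputable def Av (σ τ : ℝ) (g : ℂ → ℝ) (z : ℂ) : ℝ :=
  τ⁻¹ * ∫ s in (0:ℝ)..τ, g (z + ((σ * s : ℝ) : ℂ))

lemma cz_jensen {k : ℝ → ℝ} (hk : Continuous k) {τ : ℝ} (hτ : 0 < τ) :
    (τ⁻¹ * ∫ s in (0:ℝ)..τ, k s) ^ 2 ≤ τ⁻¹ * ∫ s in (0:ℝ)..τ, k s ^ 2 := by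
  set m := τ⁻¹ * ∫ s in (0:ℝ)..τ, k s with hm
  have h1 : 0 ≤ ∫ s in (0:ℝ)..τ, (k s - m) ^ 2 :=
    intervalIntegral.integral_nonneg hτ.le (fun s _ => sq_nonneg _)
  have h2 : ∫ s in (0:ℝ)..τ, (k s - m) ^ 2 = (∫ s in (0:ℝ)..τ, k s ^ 2) - 2 * m * (∫ s in (0:ℝ)..τ, k s)
      + τ * m ^ 2 := by
    have e : ∀ s, (k s - m) ^ 2 = k s ^ 2 - 2 * m * k s + m ^ 2 := fun s => by ring
    simp_rw [e]
    rw [intervalIntegral.integral_add, intervalIntegral.integral_sub,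
      intervalIntegral.integral_const_mul, intervalIntegral.integral_const]
    · simp
    · exact (hk.pow 2).intervalIntegrable _ _
    · exact (continuous_const.mul hk).intervalIntegrable _ _
    · exact ((hk.pow 2).sub (continuous_const.mul hk)).intervalIntegrable _ _
    · exact continuous_const.intervalIntegrable _ _
  have h3 : ∫ s in (0:ℝ)..τ, k s = τ * m := by
    rw [hm]; field_simp
  rw [h2, h3] at h1
  have h4 : τ * m ^ 2 ≤ ∫ s in (0:ℝ)..τ, k s ^ 2 := by nlinarith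
  rw [inv_mul_eq_div, le_div_iff₀ hτ]
  linarith

lemma cz_line_cont {g : ℂ → ℝ} (hg : Continuous g) (σ : ℝ) (z : ℂ) :
    Continuous (fun s : ℝ => g (z + ((σ * s : ℝ) : ℂ))) := by
  fun_prop

lemma cz_Av_cont {g : ℂ → ℝ} (hg : Continuous g) (σ τ : ℝ) : Continuous (Av σ τ g) := by
  unfold Av
  refine continuous_const.mul ?_
  refine intervalIntegral.continuous_parametric_intervalIntegral_of_continuous' ?_ _ _
  fun_prop

lemma cz_Av_l2 {g : ℂ → ℝ} (hg : Continuous g) (K : ℝ) {σ τ : ℝ} (hσ : |σ| = 1) (hτ : 0 < τ)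
    (hτ1 : τ ≤ 1) : ∫ z in bQ K, (Av σ τ g z) ^ 2 ≤ ∫ z in bQ (K + 1), g z ^ 2 := by
  have h1 : ∀ z, (Av σ τ g z) ^ 2 ≤ τ⁻¹ * ∫ s in (0:ℝ)..τ, g (z + ((σ * s : ℝ) : ℂ)) ^ 2 := fun z =>
    cz_jensen (cz_line_cont hg σ z) hτ
  have hc : Continuous (fun z => τ⁻¹ * ∫ s in (0:ℝ)..τ, g (z + ((σ * s : ℝ) : ℂ)) ^ 2) := by
    refine continuous_const.mul ?_
    refine intervalIntegral.continuous_parametric_intervalIntegral_of_continuous' ?_ _ _
    fun_prop
  have h2 : ∫ z in bQ K, (Av σ τ g z) ^ 2 ≤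
      ∫ z in bQ K, τ⁻¹ * ∫ s in (0:ℝ)..τ, g (z + ((σ * s : ℝ) : ℂ)) ^ 2 :=
    setIntegral_mono (cz_intOn ((cz_Av_cont hg σ τ).pow 2) K) (cz_intOn hc K) h1
  refine h2.trans ?_
  rw [integral_const_mul]
  have h3 : ∫ z in bQ K, ∫ s in (0:ℝ)..τ, g (z + ((σ * s : ℝ) : ℂ)) ^ 2 =
      ∫ s in (0:ℝ)..τ, ∫ z in bQ K, g (z + ((σ * s : ℝ) : ℂ)) ^ 2 := by
    simp_rw [intervalIntegral.integral_of_le hτ.le]
    refine integral_integral_swap (f := fun (z : ℂ) (s : ℝ) => g (z + ((σ * s : ℝ) : ℂ)) ^ 2) ?_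
    rw [Measure.prod_restrict]
    have hc2 : Continuous (Function.uncurry fun (z : ℂ) (s : ℝ) => g (z + ((σ * s : ℝ) : ℂ)) ^ 2) := by
      unfold Function.uncurry
      fun_prop
    have h4 : IntegrableOn (Function.uncurry fun (z : ℂ) (s : ℝ) => g (z + ((σ * s : ℝ) : ℂ)) ^ 2)
        (bQ K ×ˢ Icc 0 τ) (volume.prod volume) :=
      hc2.continuousOn.integrableOn_compact ((cz_bQ_compact K).prod isCompact_Icc)
    exact h4.mono_set (Set.prod_mono_right Ioc_subset_Icc_self)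
  rw [h3]
  have h5 : ∫ s in (0:ℝ)..τ, ∫ z in bQ K, g (z + ((σ * s : ℝ) : ℂ)) ^ 2 ≤
      ∫ s in (0:ℝ)..τ, ∫ z in bQ (K + 1), g z ^ 2 := by
    have hc3 : Continuous (fun s : ℝ => ∫ z in bQ K, g (z + ((σ * s : ℝ) : ℂ)) ^ 2) := by
      refine continuous_parametric_integral_of_continuous ?_ (cz_bQ_compact K)
      fun_prop
    refine intervalIntegral.integral_mono_on hτ.le (hc3.intervalIntegrable _ _)
      (continuous_const.intervalIntegrable _ _) ?_
    intro s hs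
    have h6 : ‖((σ * s : ℝ) : ℂ)‖ ≤ 1 := by
      rw [Complex.norm_real, Real.norm_eq_abs, abs_mul, hσ, one_mul, abs_of_nonneg hs.1]
      exact hs.2.trans hτ1
    exact cz_trans (g := fun z => g z ^ 2) (hg.pow 2) (fun z => sq_nonneg _) K _ h6
  rw [intervalIntegral.integral_const, smul_eq_mul, sub_zero] at h5
  calc τ⁻¹ * ∫ s in (0:ℝ)..τ, ∫ z in bQ K, g (z + ((σ * s : ℝ) : ℂ)) ^ 2
      ≤ τ⁻¹ * (τ * ∫ z in bQ (K + 1), g z ^ 2) := by gcongr
    _ = ∫ z in bQ (K + 1), g z ^ 2 := by field_simp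

/-- averages of a continuous function converge uniformly on compact sets -/
lemma cz_Av_unif {g : ℂ → ℝ} (hg : Continuous g) (K : ℝ) {η : ℝ} (hη : 0 < η) :
    ∃ τ0 : ℝ, 0 < τ0 ∧ τ0 ≤ 1 ∧ ∀ τ, 0 < τ → τ ≤ τ0 → ∀ σ : ℝ, |σ| = 1 → ∀ z ∈ bQ K,
      |Av σ τ g z - g z| ≤ η := by
  have hu := (cz_bQ_compact (K + 1)).uniformContinuousOn_of_continuous hg.continuousOn
  rw [Metric.uniformContinuousOn_iff_le] at hu
  obtain ⟨t, ht, hu⟩ := hu η hη
  refine ⟨min t 1, lt_min ht one_pos, min_le_right _ _, ?_⟩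
  intro τ hτ hτ0 σ hσ z hz
  have hbd : ∀ s ∈ Icc (0:ℝ) τ, |g (z + ((σ * s : ℝ) : ℂ)) - g z| ≤ η := by
    intro s hs
    have h6 : ‖((σ * s : ℝ) : ℂ)‖ = s := by
      rw [Complex.norm_real, Real.norm_eq_abs, abs_mul, hσ, one_mul, abs_of_nonneg hs.1]
    have h7 : z + ((σ * s : ℝ) : ℂ) ∈ bQ (K + 1) := cz_bQ_add hz (by
      rw [h6]; exact hs.2.trans (hτ0.trans (min_le_right _ _)))
    have h8 : z ∈ bQ (K + 1) := cz_bQ_mono (by linarith) hz
    have := hu _ h7 _ h8 (by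
      rw [dist_eq_norm, add_sub_cancel_left, h6]
      exact hs.2.trans (hτ0.trans (min_le_left _ _)))
    rwa [Real.dist_eq] at this
  have hcont := cz_line_cont hg σ z
  have h1 : Av σ τ g z - g z = τ⁻¹ * ∫ s in (0:ℝ)..τ, (g (z + ((σ * s : ℝ) : ℂ)) - g z) := by
    rw [intervalIntegral.integral_sub (hcont.intervalIntegrable _ _)
      (continuous_const.intervalIntegrable _ _), intervalIntegral.integral_const, mul_sub]
    unfold Av
    rw [smul_eq_mul, sub_zero, inv_mul_cancel_left₀ hτ.ne']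
  rw [h1, abs_mul, abs_of_pos (inv_pos.2 hτ)]
  have h2 : ‖∫ s in (0:ℝ)..τ, (g (z + ((σ * s : ℝ) : ℂ)) - g z)‖ ≤ η * |τ - 0| := by
    refine intervalIntegral.norm_integral_le_of_norm_le_const ?_
    intro s hs
    rw [uIoc_of_le hτ.le] at hs
    exact hbd s ⟨hs.1.le, hs.2⟩
  rw [sub_zero, abs_of_pos hτ, Real.norm_eq_abs] at h2
  calc τ⁻¹ * |∫ s in (0:ℝ)..τ, (g (z + ((σ * s : ℝ) : ℂ)) - g z)| ≤ τ⁻¹ * (η * τ) := by gcongr
    _ = η := by field_simp

/-! smooth calculus -/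

lemma cz_dx_cd {n : ℕ} {u : ℂ → ℝ} (hu : ContDiff ℝ (n + 1 : ℕ) u) : ContDiff ℝ n (dx u) := by
  have h : ContDiff ℝ n (fderiv ℝ u) := hu.fderiv_right (m := n) (by norm_cast)
  exact h.clm_apply contDiff_const

lemma cz_dy_cd {n : ℕ} {u : ℂ → ℝ} (hu : ContDiff ℝ (n + 1 : ℕ) u) : ContDiff ℝ n (dy u) := by
  have h : ContDiff ℝ n (fderiv ℝ u) := hu.fderiv_right (m := n) (by norm_cast)
  exact h.clm_apply contDiff_const

lemma cz_symm {u : ℂ → ℝ} (hu : ContDiff ℝ 2 u) (z : ℂ) : dx (dy u) z = dy (dx u) z := by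
  have h2 : ContDiff ℝ 1 (fderiv ℝ u) := hu.fderiv_right (m := 1) (by norm_num)
  have hd : DifferentiableAt ℝ (fderiv ℝ u) z := (h2.differentiable (by norm_num)) z
  have hs : IsSymmSndFDerivAt ℝ u z := (hu.contDiffAt).isSymmSndFDerivAt (by simp)
  have e1 : dx (dy u) z = fderiv ℝ (fderiv ℝ u) z 1 I := by
    unfold dx dy
    rw [fderiv_clm_apply hd (differentiableAt_const _)]
    simp
  have e2 : dy (dx u) z = fderiv ℝ (fderiv ℝ u) z I 1 := by
    unfold dx dy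
    rw [fderiv_clm_apply hd (differentiableAt_const _)]
    simp
  rw [e1, e2]
  exact hs.eq 1 I

lemma cz_ftc {u : ℂ → ℝ} (hu : ContDiff ℝ 1 u) (σ τ : ℝ) (z : ℂ) :
    (u (z + ((σ * τ : ℝ) : ℂ)) - u z) / τ = σ * Av σ τ (dx u) z := by
  have hd : ∀ s : ℝ, HasDerivAt (fun s : ℝ => u (z + ((σ * s : ℝ) : ℂ)))
      (σ * dx u (z + ((σ * s : ℝ) : ℂ))) s := by
    intro s
    have h1 : HasFDerivAt u (fderiv ℝ u (z + ((σ * s : ℝ) : ℂ))) (z + ((σ * s : ℝ) : ℂ)) :=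
      ((hu.differentiable (by norm_num)) _).hasFDerivAt
    have h2 : HasDerivAt (fun s : ℝ => z + ((σ * s : ℝ) : ℂ)) ((σ : ℝ) : ℂ) s := by
      have h3 : HasDerivAt (fun s : ℝ => σ * s) σ s := by
        simpa using (hasDerivAt_id s).const_mul σ
      exact (h3.ofReal_comp).const_add z
    have h4 := h1.comp_hasDerivAt s h2
    have e : fderiv ℝ u (z + ((σ * s : ℝ) : ℂ)) ((σ : ℝ) : ℂ) = σ * dx u (z + ((σ * s : ℝ) : ℂ)) := by
      unfold dx
      have : ((σ : ℝ) : ℂ) = σ • (1 : ℂ) := by simp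
      rw [this, map_smul, smul_eq_mul]
    rw [e] at h4
    exact h4
  have hc : Continuous (dx u) := (cz_dx_cd (n := 0) (by simpa using hu)).continuous
  have h5 := intervalIntegral.integral_eq_sub_of_hasDerivAt (a := 0) (b := τ) (fun s _ => hd s)
    ((continuous_const.mul (cz_line_cont hc σ z)).intervalIntegrable _ _)
  rw [intervalIntegral.integral_const_mul] at h5
  simp only [mul_zero, Complex.ofReal_zero, add_zero] at h5
  rw [← h5]
  unfold Av
  ring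

lemma cz_dx_quot {u : ℂ → ℝ} (hu : ContDiff ℝ 1 u) (c : ℂ) (τ : ℝ) (z : ℂ) :
    dx (fun z => (u (z + c) - u z) / τ) z = (dx u (z + c) - dx u z) / τ ∧
    dy (fun z => (u (z + c) - u z) / τ) z = (dy u (z + c) - dy u z) / τ := by
  have h1 : HasFDerivAt (fun z => u (z + c)) (fderiv ℝ u (z + c)) z := by
    have h0 : HasFDerivAt u (fderiv ℝ u (z + c)) (z + c) :=
      ((hu.differentiable (by norm_num)) _).hasFDerivAt
    have := h0.comp z ((hasFDerivAt_id z).add_const c)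
    rw [ContinuousLinearMap.comp_id] at this
    exact this
  have h2 : HasFDerivAt u (fderiv ℝ u z) z := ((hu.differentiable (by norm_num)) _).hasFDerivAt
  have h3 : HasFDerivAt (fun z => (u (z + c) - u z) / τ) (τ⁻¹ • (fderiv ℝ u (z + c) - fderiv ℝ u z)) z := by
    have := (h1.sub h2).const_smul τ⁻¹
    refine this.congr_of_eventuallyEq (Eventually.of_forall fun w => ?_)
    simp [div_eq_inv_mul]
  unfold dx dy
  rw [h3.fderiv]
  constructor <;> simp [div_eq_inv_mul]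

/-- the corrected function -/
noncomputable def Rv (N τ : ℝ) (v : ℂ → ℝ) (z : ℂ) : ℝ :=
  v z - beN N (Av 1 τ v z) + beN N (-Av (-1) τ v z)
noncomputable def Rg (N τ : ℝ) (v g : ℂ → ℝ) (z : ℂ) : ℝ :=
  g z - deriv (beN N) (Av 1 τ v z) * Av 1 τ g z - deriv (beN N) (-Av (-1) τ v z) * Av (-1) τ g z

lemma cz_Av1 {u : ℂ → ℝ} (hu : ContDiff ℝ 1 u) (τ : ℝ) (z : ℂ) :
    (u (z + (τ : ℂ)) - u z) / τ = Av 1 τ (dx u) z := by
  have := cz_ftc hu 1 τ z
  simpa using this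

lemma cz_Avm {u : ℂ → ℝ} (hu : ContDiff ℝ 1 u) (τ : ℝ) (z : ℂ) :
    (u (z - (τ : ℂ)) - u z) / τ = - Av (-1) τ (dx u) z := by
  have := cz_ftc hu (-1) τ z
  simp only [neg_mul, one_mul, Complex.ofReal_neg, ← sub_eq_add_neg] at this
  exact this

lemma cz_R_cd {u : ℂ → ℝ} (hu : ContDiff ℝ 5 u) {N : ℝ} (hN : 0 < N) (τ : ℝ) :
    ContDiff ℝ 2 (Rv N τ (dx u)) := by
  have hu1 : ContDiff ℝ 1 u := hu.of_le (by norm_num)
  have e : Rv N τ (dx u) = fun z => dx u z - beN N ((u (z + (τ : ℂ)) - u z) / τ)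
      + beN N ((u (z - (τ : ℂ)) - u z) / τ) := by
    funext z
    unfold Rv
    rw [cz_Av1 hu1, cz_Avm hu1]
  rw [e]
  have hB : ContDiff ℝ 2 (beN N) := (beN_props N hN).1.of_le (by norm_num)
  have h0 : ContDiff ℝ 2 (dx u) := cz_dx_cd (n := 2) (hu.of_le (by norm_num))
  have hu2 : ContDiff ℝ 2 u := hu.of_le (by norm_num)
  have h1 : ContDiff ℝ 2 (fun z => (u (z + (τ : ℂ)) - u z) / τ) :=
    ((hu2.comp (contDiff_id.add contDiff_const)).sub hu2).div_const τ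
  have h2 : ContDiff ℝ 2 (fun z => (u (z - (τ : ℂ)) - u z) / τ) :=
    ((hu2.comp (contDiff_id.sub contDiff_const)).sub hu2).div_const τ
  exact (h0.sub (hB.comp h1)).add (hB.comp h2)

lemma cz_R_der {u : ℂ → ℝ} (hu : ContDiff ℝ 5 u) {N : ℝ} (hN : 0 < N) (τ : ℝ) (z : ℂ) :
    dx (Rv N τ (dx u)) z = Rg N τ (dx u) (dx (dx u)) z ∧
    dy (Rv N τ (dx u)) z = Rg N τ (dx u) (dy (dx u)) z := by
  have hu1 : ContDiff ℝ 1 u := hu.of_le (by norm_num)
  have hu2 : ContDiff ℝ 2 u := hu.of_le (by norm_num)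
  have hdx1 : ContDiff ℝ 1 (dx u) := cz_dx_cd (n := 1) (hu.of_le (by norm_num))
  have hdy1 : ContDiff ℝ 1 (dy u) := cz_dy_cd (n := 1) (hu.of_le (by norm_num))
  have e : Rv N τ (dx u) = fun z => dx u z - beN N ((u (z + (τ : ℂ)) - u z) / τ)
      + beN N ((u (z + (-(τ : ℂ))) - u z) / τ) := by
    funext z
    unfold Rv
    rw [cz_Av1 hu1, ← sub_eq_add_neg, cz_Avm hu1]
  have hB : Differentiable ℝ (beN N) := (beN_props N hN).1.differentiable (by norm_num)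
  have hq : ∀ c : ℂ, ContDiff ℝ 1 (fun z => (u (z + c) - u z) / τ) := fun c =>
    ((hu1.comp (contDiff_id.add contDiff_const)).sub hu1).div_const τ
  have hqd : ∀ c : ℂ, HasFDerivAt (fun z => beN N ((u (z + c) - u z) / τ))
      (deriv (beN N) ((u (z + c) - u z) / τ) • fderiv ℝ (fun z => (u (z + c) - u z) / τ) z) z := by
    intro c
    exact (hB _).hasDerivAt.comp_hasFDerivAt z
      (((hq c).differentiable (by norm_num)) z).hasFDerivAt
  have h0 : HasFDerivAt (dx u) (fderiv ℝ (dx u) z) z :=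
    ((hdx1.differentiable (by norm_num)) z).hasFDerivAt
  have hall := (h0.sub (hqd (τ : ℂ))).add (hqd (-(τ : ℂ)))
  have hf : fderiv ℝ (Rv N τ (dx u)) z = fderiv ℝ (dx u) z -
      deriv (beN N) ((u (z + (τ : ℂ)) - u z) / τ) • fderiv ℝ (fun z => (u (z + (τ : ℂ)) - u z) / τ) z +
      deriv (beN N) ((u (z + (-(τ : ℂ))) - u z) / τ) •
        fderiv ℝ (fun z => (u (z + (-(τ : ℂ))) - u z) / τ) z := by
    rw [e]
    exact hall.fderiv
  obtain ⟨q1, q1'⟩ := cz_dx_quot hu1 (τ : ℂ) τ z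
  obtain ⟨q2, q2'⟩ := cz_dx_quot hu1 (-(τ : ℂ)) τ z
  have sy : dx (dy u) = dy (dx u) := funext fun w => cz_symm hu2 w
  have a1 : (u (z + (τ : ℂ)) - u z) / τ = Av 1 τ (dx u) z := cz_Av1 hu1 τ z
  have a2 : (u (z + (-(τ : ℂ))) - u z) / τ = -Av (-1) τ (dx u) z := by
    rw [← sub_eq_add_neg]; exact cz_Avm hu1 τ z
  have b1 : (dx u (z + (τ : ℂ)) - dx u z) / τ = Av 1 τ (dx (dx u)) z := cz_Av1 hdx1 τ z
  have b2 : (dx u (z + (-(τ : ℂ))) - dx u z) / τ = -Av (-1) τ (dx (dx u)) z := by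
    rw [← sub_eq_add_neg]; exact cz_Avm hdx1 τ z
  have c1 : (dy u (z + (τ : ℂ)) - dy u z) / τ = Av 1 τ (dy (dx u)) z := by
    rw [← sy]; exact cz_Av1 hdy1 τ z
  have c2 : (dy u (z + (-(τ : ℂ))) - dy u z) / τ = -Av (-1) τ (dy (dx u)) z := by
    rw [← sub_eq_add_neg, ← sy]; exact cz_Avm hdy1 τ z
  rw [b1] at q1
  rw [b2] at q2
  rw [c1] at q1'
  rw [c2] at q2'
  rw [a1, a2] at hf
  unfold Rg
  constructor
  · have h5 : dx (Rv N τ (dx u)) z = fderiv ℝ (Rv N τ (dx u)) z 1 := rfl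
    rw [h5, hf, ← q1]
    have h6 : Av (-1) τ (dx (dx u)) z = - dx (fun z => (u (z + (-(τ : ℂ))) - u z) / τ) z := by
      rw [q2]; ring
    rw [h6]
    simp only [add_apply, sub_apply, smul_apply, smul_eq_mul, dx]
    ring
  · have h5 : dy (Rv N τ (dx u)) z = fderiv ℝ (Rv N τ (dx u)) z I := rfl
    rw [h5, hf, ← q1']
    have h6 : Av (-1) τ (dy (dx u)) z = - dy (fun z => (u (z + (-(τ : ℂ))) - u z) / τ) z := by
      rw [q2']; ring
    rw [h6]
    simp only [add_apply, sub_apply, smul_apply, smul_eq_mul, dy]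
    ring

/-! families -/

structure Fam (g : ℝ → ℂ → ℝ) (G : ℂ → ℝ) : Prop where
  cont : ∀ δ > 0, Continuous (g δ)
  mem : ∀ K, MemLp G 2 (volume.restrict (bQ K))
  lim : ∀ K, Tendsto (fun δ => ∫ z in bQ K, (g δ z - G z) ^ 2) (𝓝[>] 0) (𝓝 0)

lemma cz_sq_int {f : ℂ → ℝ} {K : ℝ} (hf : MemLp f 2 (volume.restrict (bQ K))) :
    IntegrableOn (fun z => f z ^ 2) (bQ K) := hf.integrable_sq

lemma cz_mul_int {f g : ℂ → ℝ} {K : ℝ} (hf : MemLp f 2 (volume.restrict (bQ K)))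
    (hg : MemLp g 2 (volume.restrict (bQ K))) :
    IntegrableOn (fun z => f z * g z) (bQ K) := MemLp.integrable_mul hf hg

lemma cz_sq_add {f g : ℂ → ℝ} {K : ℝ} (hf : MemLp f 2 (volume.restrict (bQ K)))
    (hg : MemLp g 2 (volume.restrict (bQ K))) :
    ∫ z in bQ K, (f z + g z) ^ 2 ≤ 2 * (∫ z in bQ K, f z ^ 2) + 2 * ∫ z in bQ K, g z ^ 2 := by
  rw [← integral_const_mul, ← integral_const_mul, ← integral_add
    ((cz_sq_int hf).const_mul 2) ((cz_sq_int hg).const_mul 2)]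
  refine setIntegral_mono (hf.add hg).integrable_sq
    (((cz_sq_int hf).const_mul 2).add ((cz_sq_int hg).const_mul 2)) ?_
  intro z
  simp only
  nlinarith [sq_nonneg (f z - g z)]

lemma cz_sq_sub {f g k : ℂ → ℝ} {K : ℝ} (hf : MemLp f 2 (volume.restrict (bQ K)))
    (hg : MemLp g 2 (volume.restrict (bQ K))) (hk : MemLp k 2 (volume.restrict (bQ K))) :
    ∫ z in bQ K, (f z - k z) ^ 2 ≤ 2 * (∫ z in bQ K, (f z - g z) ^ 2) +
      2 * ∫ z in bQ K, (k z - g z) ^ 2 := by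
  have h := cz_sq_add (hf.sub hg) (hg.sub hk)
  have e1 : ∀ z, ((f - g) z + (g - k) z) ^ 2 = (f z - k z) ^ 2 := fun z => by
    simp only [Pi.sub_apply]; ring
  have e2 : ∀ z, (g - k) z ^ 2 = (k z - g z) ^ 2 := fun z => by
    simp only [Pi.sub_apply]; ring
  simp_rw [e1, e2] at h
  exact h

lemma cz_ev_pos : ∀ᶠ δ in 𝓝[>] (0:ℝ), 0 < δ := eventually_mem_nhdsWithin

lemma Fam.ev {g : ℝ → ℂ → ℝ} {G : ℂ → ℝ} (h : Fam g G) (K : ℝ) {η : ℝ} (hη : 0 < η) :
    ∀ᶠ δ in 𝓝[>] (0:ℝ), 0 < δ ∧ ∫ z in bQ K, (g δ z - G z) ^ 2 ≤ η := by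
  have h1 := (h.lim K).eventually (gt_mem_nhds hη)
  filter_upwards [h1, cz_ev_pos] with δ h2 h3
  exact ⟨h3, h2.le⟩

/-- Cauchy property -/
lemma Fam.cau {g : ℝ → ℂ → ℝ} {G : ℂ → ℝ} (h : Fam g G) (K : ℝ) {η : ℝ} (hη : 0 < η) :
    ∃ δ1 : ℝ, 0 < δ1 ∧ ∫ z in bQ K, (g δ1 z - G z) ^ 2 ≤ η ∧
      ∀ᶠ δ in 𝓝[>] (0:ℝ), 0 < δ ∧ ∫ z in bQ K, (g δ z - g δ1 z) ^ 2 ≤ η := by
  have h1 := h.ev K (show 0 < η / 4 by linarith)
  obtain ⟨δ1, h2, h3⟩ := h1.exists
  refine ⟨δ1, h2, by linarith, ?_⟩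
  filter_upwards [h1] with δ hδ
  refine ⟨hδ.1, ?_⟩
  have := cz_sq_sub (cz_memLp (h.cont δ hδ.1) K) (h.mem K) (cz_memLp (h.cont δ1 h2) K)
  linarith [hδ.2]

lemma Fam.bdd {g : ℝ → ℂ → ℝ} {G : ℂ → ℝ} (h : Fam g G) (K : ℝ) :
    ∃ M : ℝ, 0 ≤ M ∧ ∀ᶠ δ in 𝓝[>] (0:ℝ), ∫ z in bQ K, (g δ z) ^ 2 ≤ M := by
  refine ⟨2 * (1:ℝ) + 2 * ∫ z in bQ K, G z ^ 2, ?_, ?_⟩
  · have : 0 ≤ ∫ z in bQ K, G z ^ 2 := integral_nonneg fun z => sq_nonneg _
    linarith
  · filter_upwards [h.ev K one_pos] with δ hδ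
    have h1 := cz_sq_add ((cz_memLp (h.cont δ hδ.1) K).sub (h.mem K)) (h.mem K)
    simp only [Pi.sub_apply, sub_add_cancel] at h1
    linarith [hδ.2]

lemma cz_Av_sub {f g : ℂ → ℝ} (hf : Continuous f) (hg : Continuous g) (σ τ : ℝ) (z : ℂ) :
    Av σ τ (fun w => f w - g w) z = Av σ τ f z - Av σ τ g z := by
  unfold Av
  rw [intervalIntegral.integral_sub ((cz_line_cont hf σ z).intervalIntegrable _ _)
    ((cz_line_cont hg σ z).intervalIntegrable _ _)]
  ring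

/-- the averages are close to the functions, uniformly in the family -/
lemma Fam.avg {g : ℝ → ℂ → ℝ} {G : ℂ → ℝ} (h : Fam g G) (K : ℝ) {η : ℝ} (hη : 0 < η) :
    ∃ τ0 : ℝ, 0 < τ0 ∧ τ0 ≤ 1 ∧ ∀ τ, 0 < τ → τ ≤ τ0 → ∀ᶠ δ in 𝓝[>] (0:ℝ), ∀ σ : ℝ, |σ| = 1 →
      ∫ z in bQ K, (Av σ τ (g δ) z - g δ z) ^ 2 ≤ η := by
  obtain ⟨δ1, hδ1, -, hev⟩ := h.cau (K + 1) (show 0 < η / 9 by linarith)
  have hv : 0 < η / (9 * (volume.real (bQ K) + 1)) := by positivity
  obtain ⟨τ0, h0, h01, hu⟩ := cz_Av_unif (h.cont δ1 hδ1) K (Real.sqrt_pos.2 hv)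
  refine ⟨τ0, h0, h01, fun τ hτ hττ => ?_⟩
  filter_upwards [hev] with δ hδ σ hσ
  obtain ⟨hδ0, hδ2⟩ := hδ
  have cg := h.cont δ hδ0
  have c1 := h.cont δ1 hδ1
  have cA := cz_Av_cont cg σ τ
  have cA1 := cz_Av_cont c1 σ τ
  -- three terms
  have t1 : ∫ z in bQ K, (Av σ τ (g δ) z - Av σ τ (g δ1) z) ^ 2 ≤ η / 9 := by
    have h1 := cz_Av_l2 (g := fun w => g δ w - g δ1 w) (cg.sub c1) K hσ hτ (hττ.trans h01)
    have e : ∀ z, Av σ τ (fun w => g δ w - g δ1 w) z = Av σ τ (g δ) z - Av σ τ (g δ1) z :=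
      fun z => cz_Av_sub cg c1 σ τ z
    simp only [e] at h1
    exact h1.trans hδ2
  have t2 : ∫ z in bQ K, (Av σ τ (g δ1) z - g δ1 z) ^ 2 ≤ η / 9 := by
    have hb : ∀ z ∈ bQ K, (Av σ τ (g δ1) z - g δ1 z) ^ 2 ≤ η / (9 * (volume.real (bQ K) + 1)) := by
      intro z hz
      have h1 := hu τ hτ hττ σ hσ z hz
      have h2 : (Av σ τ (g δ1) z - g δ1 z) ^ 2 ≤ (Real.sqrt (η / (9 * (volume.real (bQ K) + 1)))) ^ 2 :=
        sq_le_sq' (by linarith [(abs_le.1 h1).1]) (abs_le.1 h1).2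
      rwa [Real.sq_sqrt hv.le] at h2
    have h3 : ∫ z in bQ K, (Av σ τ (g δ1) z - g δ1 z) ^ 2 ≤
        ∫ z in bQ K, η / (9 * (volume.real (bQ K) + 1)) :=
      setIntegral_mono_on (cz_intOn ((cA1.sub c1).pow 2) K) (cz_intOn continuous_const K)
        (cz_bQ_meas K) hb
    rw [setIntegral_const, smul_eq_mul] at h3
    refine h3.trans ?_
    have hvn : 0 ≤ volume.real (bQ K) := measureReal_nonneg
    rw [mul_div_assoc', div_le_div_iff₀ (by positivity) (by norm_num)]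
    nlinarith
  have t3 : ∫ z in bQ K, (g δ1 z - g δ z) ^ 2 ≤ η / 9 := by
    have h1 : ∫ z in bQ K, (g δ1 z - g δ z) ^ 2 = ∫ z in bQ K, (g δ z - g δ1 z) ^ 2 := by
      congr 1; funext z; ring
    rw [h1]
    refine le_trans (setIntegral_mono_set (cz_intOn ((cg.sub c1).pow 2) (K+1))
      (Eventually.of_forall fun z => sq_nonneg _) ?_) hδ2
    exact Eventually.of_forall fun z hz => cz_bQ_mono (by linarith) hz
  have hmain : ∫ z in bQ K, (Av σ τ (g δ) z - g δ z) ^ 2 ≤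
      ∫ z in bQ K, (3 * (Av σ τ (g δ) z - Av σ τ (g δ1) z) ^ 2 +
        3 * (Av σ τ (g δ1) z - g δ1 z) ^ 2 + 3 * (g δ1 z - g δ z) ^ 2) := by
    refine setIntegral_mono (cz_intOn ((cA.sub cg).pow 2) K) (cz_intOn ?_ K) ?_
    · exact (((continuous_const.mul ((cA.sub cA1).pow 2)).add
        (continuous_const.mul ((cA1.sub c1).pow 2))).add (continuous_const.mul ((c1.sub cg).pow 2)))
    · intro z
      nlinarith [sq_nonneg ((Av σ τ (g δ) z - Av σ τ (g δ1) z) - (Av σ τ (g δ1) z - g δ1 z)),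
        sq_nonneg ((Av σ τ (g δ1) z - g δ1 z) - (g δ1 z - g δ z)),
        sq_nonneg ((Av σ τ (g δ) z - Av σ τ (g δ1) z) - (g δ1 z - g δ z))]
  rw [integral_add, integral_add, integral_const_mul, integral_const_mul, integral_const_mul] at hmain
  · linarith
  · exact cz_intOn (continuous_const.mul ((cA.sub cA1).pow 2)) K
  · exact cz_intOn (continuous_const.mul ((cA1.sub c1).pow 2)) K
  · exact cz_intOn ((continuous_const.mul ((cA.sub cA1).pow 2)).add
        (continuous_const.mul ((cA1.sub c1).pow 2))) K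
  · exact cz_intOn (continuous_const.mul ((c1.sub cg).pow 2)) K

/-! periodic cover -/

lemma cz_box_compact (a b : ℝ) : IsCompact (box a b) := by
  have h1 : box a b = Complex.equivRealProdCLM.symm '' (Icc a b ×ˢ Icc 0 (2 * Real.pi)) := by
    ext z
    simp only [box, mem_ofPred_eq, mem_image, Set.mem_prod]
    constructor
    · intro h
      exact ⟨(z.re, z.im), h, by apply Complex.ext <;> simp⟩
    · rintro ⟨⟨a, b⟩, h, rfl⟩
      simpa using h
  rw [h1]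
  exact (isCompact_Icc.prod isCompact_Icc).image (ContinuousLinearEquiv.continuous _)

lemma cz_box_trans {g : ℂ → ℝ} (hp : ∀ z : ℂ, g (z + 2 * Real.pi * I) = g z) (a b : ℝ) (j : ℤ) :
    ∫ z in (fun z : ℂ => z - j * (2 * Real.pi * I)) ⁻¹' (box a b), g z = ∫ z in box a b, g z := by
  have hp' : ∀ z : ℂ, g (z - j * (2 * Real.pi * I)) = g z := by
    intro z
    have hper : Function.Periodic g (2 * Real.pi * I : ℂ) := hp
    exact hper.sub_int_mul_eq j
  have h1 := (measurePreserving_sub_right volume (j * (2 * Real.pi * I) : ℂ)).setIntegral_preimage_emb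
      (measurableEmbedding_subRight (j * (2 * Real.pi * I) : ℂ)) g (box a b)
  simp_rw [hp'] at h1
  exact h1

lemma cz_cover (K : ℝ) : ∃ c : ℝ, 0 ≤ c ∧ ∀ g : ℂ → ℝ, Continuous g → (∀ z, 0 ≤ g z) →
    (∀ z : ℂ, g (z + 2 * Real.pi * I) = g z) → ∀ M : ℝ,
    (∀ x0 : ℝ, ∫ z in box x0 (x0 + 1), g z ≤ M) → ∫ z in bQ K, g z ≤ c * M := by
  obtain ⟨N, hN⟩ := exists_nat_ge K
  set S : Finset (ℤ × ℤ) := Finset.Icc (-(N:ℤ)) N ×ˢ Finset.Icc (-(N:ℤ)-1) N with hS
  refine ⟨S.card, by positivity, ?_⟩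
  intro g hg h0 hp M hM
  set A : ℤ × ℤ → Set ℂ := fun p => (fun z : ℂ => z - p.2 * (2 * Real.pi * I)) ⁻¹'
    (box p.1 (p.1 + 1)) with hA
  have hAc : ∀ p, IsCompact (A p) := by
    intro p
    have e : A p = (fun z : ℂ => z + p.2 * (2 * Real.pi * I)) '' (box p.1 (p.1 + 1)) := by
      ext z
      simp only [hA, mem_preimage, mem_image]
      constructor
      · intro h
        exact ⟨_, h, by ring⟩
      · rintro ⟨w, hw, rfl⟩
        rwa [add_sub_cancel_right]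
    rw [e]
    exact (cz_box_compact _ _).image (by fun_prop)
  have hAi : ∀ p, IntegrableOn g (A p) := fun p => hg.continuousOn.integrableOn_compact (hAc p)
  have hAm : ∀ p, MeasurableSet (A p) := fun p => (hAc p).isClosed.measurableSet
  have hcov : ∀ z ∈ bQ K, ∃ p ∈ S, z ∈ A p := by
    intro z hz
    have hpi : 0 < 2 * Real.pi := by positivity
    have hpi1 : 1 ≤ 2 * Real.pi := by linarith [Real.pi_gt_three]
    refine ⟨(⌊z.re⌋, ⌊z.im / (2 * Real.pi)⌋), ?_, ?_⟩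
    · rw [hS, Finset.mem_product, Finset.mem_Icc, Finset.mem_Icc]
      have hre := abs_le.1 (hz.1.trans hN)
      have him := abs_le.1 (hz.2.trans hN)
      have hN0 : (0:ℝ) ≤ N := Nat.cast_nonneg _
      refine ⟨⟨?_, ?_⟩, ?_, ?_⟩
      · exact Int.le_floor.2 (by push_cast; linarith [hre.1])
      · have : (⌊z.re⌋ : ℝ) ≤ N := (Int.floor_le _).trans hre.2
        exact_mod_cast this
      · refine Int.le_floor.2 ?_
        push_cast
        rw [le_div_iff₀ hpi]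
        nlinarith [him.1]
      · have h1 : (⌊z.im / (2 * Real.pi)⌋ : ℝ) ≤ z.im / (2 * Real.pi) := Int.floor_le _
        have h2 : z.im / (2 * Real.pi) ≤ N := by
          rw [div_le_iff₀ hpi]
          nlinarith [him.2]
        exact_mod_cast h1.trans h2
    · simp only [hA, mem_preimage, box, mem_ofPred_eq, mem_Icc]
      have e1 : (z - (⌊z.im / (2 * Real.pi)⌋ : ℂ) * (2 * Real.pi * I)).re = z.re := by
        simp
      have e2 : (z - (⌊z.im / (2 * Real.pi)⌋ : ℂ) * (2 * Real.pi * I)).im =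
          z.im - ⌊z.im / (2 * Real.pi)⌋ * (2 * Real.pi) := by
        simp
      rw [e1, e2]
      refine ⟨⟨Int.floor_le _, (Int.lt_floor_add_one _).le⟩, ?_, ?_⟩
      · have h1 : (⌊z.im / (2 * Real.pi)⌋ : ℝ) ≤ z.im / (2 * Real.pi) := Int.floor_le _
        rw [le_div_iff₀ hpi] at h1
        linarith
      · have h1 : z.im / (2 * Real.pi) < (⌊z.im / (2 * Real.pi)⌋ : ℝ) + 1 := Int.lt_floor_add_one _
        rw [div_lt_iff₀ hpi] at h1
        linarith
  have h1 : ∫ z in bQ K, g z ≤ ∑ p ∈ S, ∫ z in A p, g z := by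
    have e1 : ∫ z in bQ K, g z = ∫ z, (bQ K).indicator g z := (integral_indicator (cz_bQ_meas K)).symm
    have e2 : ∀ p, ∫ z in A p, g z = ∫ z, (A p).indicator g z := fun p =>
      (integral_indicator (hAm p)).symm
    rw [e1, Finset.sum_congr rfl (fun p _ => e2 p), ← integral_finsetSum]
    · refine integral_mono ((cz_intOn hg K).integrable_indicator (cz_bQ_meas K)) ?_ ?_
      · exact integrable_finsetSum _ fun p _ => (hAi p).integrable_indicator (hAm p)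
      · intro z
        by_cases hz : z ∈ bQ K
        · obtain ⟨p, hp, hzp⟩ := hcov z hz
          rw [indicator_of_mem hz]
          have : (A p).indicator g z ≤ ∑ p ∈ S, (A p).indicator g z :=
            Finset.single_le_sum (f := fun p => (A p).indicator g z)
              (fun q _ => indicator_nonneg (fun w _ => h0 w) z) hp
          rwa [indicator_of_mem hzp] at this
        · rw [indicator_of_notMem hz]
          exact Finset.sum_nonneg fun q _ => indicator_nonneg (fun w _ => h0 w) z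
    · intro p _
      exact (hAi p).integrable_indicator (hAm p)
  refine h1.trans ?_
  have h2 : ∀ p ∈ S, ∫ z in A p, g z ≤ M := by
    intro p _
    rw [hA]
    simp only
    rw [cz_box_trans hp]
    exact hM _
  calc ∑ p ∈ S, ∫ z in A p, g z ≤ ∑ p ∈ S, M := Finset.sum_le_sum h2
    _ = S.card * M := by simp

/-! vanishing of the weak gradient on the zero set -/

noncomputable def pe (ε s : ℝ) : ℝ := 1 / (1 + (s / ε) ^ 2)

lemma cz_pe_pos (ε s : ℝ) : 0 < pe ε s := by unfold pe; positivity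

lemma cz_pe_le (ε s : ℝ) : pe ε s ≤ 1 := by
  unfold pe
  rw [div_le_one (by positivity)]
  nlinarith [sq_nonneg (s / ε)]

lemma cz_pe_cont (ε : ℝ) : Continuous (pe ε) := by
  unfold pe
  refine continuous_const.div (by fun_prop) fun s => ?_
  positivity

lemma cz_pe_lip {ε : ℝ} (hε : 0 < ε) (a b : ℝ) : |pe ε a - pe ε b| ≤ |a - b| / ε := by
  have h1 : ∀ x y : ℝ, |1 / (1 + x ^ 2) - 1 / (1 + y ^ 2)| ≤ |x - y| := by
    intro x y
    have hx : 0 < 1 + x ^ 2 := by positivity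
    have hy : 0 < 1 + y ^ 2 := by positivity
    have e : 1 / (1 + x ^ 2) - 1 / (1 + y ^ 2) = (y - x) * (x + y) / ((1 + x ^ 2) * (1 + y ^ 2)) := by
      field_simp
      ring
    rw [e, abs_div, abs_mul, abs_of_pos (mul_pos hx hy), div_le_iff₀ (mul_pos hx hy), abs_sub_comm y x]
    refine mul_le_mul_of_nonneg_left ?_ (abs_nonneg _)
    rw [abs_le]
    constructor <;> nlinarith [sq_nonneg (x - 1), sq_nonneg (x + 1), sq_nonneg (y - 1), sq_nonneg (y + 1),
      mul_nonneg (sq_nonneg x) (sq_nonneg y)]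
  have h2 := h1 (a / ε) (b / ε)
  rwa [← sub_div, abs_div, abs_of_pos hε] at h2

lemma cz_pe_big {ε s : ℝ} (hε : 0 < ε) (hs : |s| ≤ 2 * ε) : 1 ≤ 5 * pe ε s := by
  unfold pe
  have h1 : (s / ε) ^ 2 ≤ 4 := by
    have : |s / ε| ≤ 2 := by
      rw [abs_div, abs_of_pos hε, div_le_iff₀ hε]; exact hs
    have h3 := abs_le.1 this
    nlinarith [h3.1, h3.2]
  rw [mul_one_div, le_div_iff₀ (by positivity)]
  linarith

lemma cz_pe_lim (s : ℝ) : Tendsto (fun ε => pe ε s) (𝓝[>] 0) (𝓝 (if s = 0 then 1 else 0)) := by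
  split_ifs with h
  · subst h
    refine tendsto_const_nhds.congr fun ε => ?_
    simp [pe]
  · have hs : 0 < s ^ 2 := by positivity
    have h1 : Tendsto (fun ε : ℝ => ε ^ 2 / s ^ 2) (𝓝[>] 0) (𝓝 0) := by
      have : Tendsto (fun ε : ℝ => ε ^ 2 / s ^ 2) (𝓝 0) (𝓝 ((0:ℝ) ^ 2 / s ^ 2)) :=
        ((continuous_pow 2).div_const _).tendsto 0
      rw [zero_pow two_ne_zero, zero_div] at this
      exact this.mono_left nhdsWithin_le_nhds
    refine squeeze_zero' (Eventually.of_forall fun ε => (cz_pe_pos ε s).le) ?_ h1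
    filter_upwards [cz_ev_pos] with ε hε
    unfold pe
    rw [div_le_div_iff₀ (by positivity) hs, div_pow]
    field_simp
    nlinarith [sq_nonneg ε, mul_pos hε hε]

lemma cz_cs {f g : ℂ → ℝ} {K : ℝ} (hf : MemLp f 2 (volume.restrict (bQ K)))
    (hg : MemLp g 2 (volume.restrict (bQ K))) :
    ∫ z in bQ K, |f z| * |g z| ≤ Real.sqrt (∫ z in bQ K, f z ^ 2) * Real.sqrt (∫ z in bQ K, g z ^ 2) := by
  set A := ∫ z in bQ K, f z ^ 2
  set B := ∫ z in bQ K, g z ^ 2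
  set D := ∫ z in bQ K, |f z| * |g z|
  have iD : IntegrableOn (fun z => |f z| * |g z|) (bQ K) := MemLp.integrable_mul hf.abs hg.abs
  have hA : 0 ≤ A := integral_nonneg fun z => sq_nonneg _
  have hB : 0 ≤ B := integral_nonneg fun z => sq_nonneg _
  have hq : ∀ t : ℝ, 0 ≤ A * (t * t) + (-2 * D) * t + B := by
    intro t
    have h1 : 0 ≤ ∫ z in bQ K, (t * |f z| - |g z|) ^ 2 := integral_nonneg fun z => sq_nonneg _
    have e : ∀ z, (t * |f z| - |g z|) ^ 2 = t ^ 2 * f z ^ 2 - 2 * t * (|f z| * |g z|) + g z ^ 2 := by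
      intro z
      have h1 := sq_abs (f z)
      have h2 := sq_abs (g z)
      calc (t * |f z| - |g z|) ^ 2 = t ^ 2 * |f z| ^ 2 - 2 * t * (|f z| * |g z|) + |g z| ^ 2 := by ring
        _ = _ := by rw [h1, h2]
    simp_rw [e] at h1
    rw [integral_add, integral_sub, integral_const_mul, integral_const_mul] at h1
    · nlinarith [h1]
    · exact (cz_sq_int hf).const_mul _
    · exact iD.const_mul _
    · exact ((cz_sq_int hf).const_mul _).sub (iD.const_mul _)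
    · exact cz_sq_int hg
  have hd := discrim_le_zero hq
  unfold discrim at hd
  rw [← Real.sqrt_mul hA]
  refine Real.le_sqrt_of_sq_le ?_
  nlinarith [hd]

lemma cz_nhds_bQ (z : ℂ) : ∃ K, bQ K ∈ 𝓝 z := by
  refine ⟨‖z‖ + 1, ?_⟩
  refine Filter.mem_of_superset (Metric.ball_mem_nhds z one_pos) ?_
  intro w hw
  have h1 : ‖w‖ ≤ ‖z‖ + 1 := by
    have : ‖w - z‖ < 1 := by simpa [dist_eq_norm] using hw
    calc ‖w‖ = ‖z + (w - z)‖ := by congr 1; ring
      _ ≤ ‖z‖ + ‖w - z‖ := norm_add_le _ _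
      _ ≤ _ := by linarith
  exact ⟨(Complex.abs_re_le_norm w).trans h1, (Complex.abs_im_le_norm w).trans h1⟩

lemma cz_supp_bQ {ζ : ℂ → ℝ} (h : HasCompactSupport ζ) : ∃ K, ∀ z, z ∉ bQ K → ζ z = 0 := by
  obtain ⟨r, hr⟩ := h.isCompact.isBounded.subset_closedBall (0:ℂ)
  refine ⟨r, fun z hz => ?_⟩
  by_contra h0
  have h1 := hr (subset_tsupport ζ (Function.mem_support.2 h0))
  rw [Metric.mem_closedBall, dist_zero_right] at h1
  exact hz ⟨(Complex.abs_re_le_norm z).trans h1, (Complex.abs_im_le_norm z).trans h1⟩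

lemma cz_stamp {V : ℝ → ℂ → ℝ} {v : ℂ → ℝ} {e : ℂ} {G : ℂ → ℝ} (hV : Fam V v)
    (hV1 : ∀ δ > 0, ContDiff ℝ 1 (V δ)) (hG : Fam (fun δ z => fderiv ℝ (V δ) z e) G) :
    ∀ᵐ z : ℂ, v z = 0 → G z = 0 := by
  set F : ℂ → ℝ := fun z => if v z = 0 then G z else 0 with hF
  have hlim : ∀ z, Tendsto (fun ε => pe ε (v z) * G z) (𝓝[>] 0) (𝓝 (F z)) := by
    intro z
    have := (cz_pe_lim (v z)).mul_const (G z)
    refine this.congr' (Eventually.of_forall fun _ => rfl) |>.trans ?_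
    rw [hF]
    simp only
    split_ifs <;> simp
  have hvm : ∀ K, AEStronglyMeasurable v (volume.restrict (bQ K)) := fun K => (hV.mem K).1
  have hGm : ∀ K, AEStronglyMeasurable G (volume.restrict (bQ K)) := fun K => (hG.mem K).1
  have hpm : ∀ K ε, AEStronglyMeasurable (fun z => pe ε (v z)) (volume.restrict (bQ K)) := fun K ε =>
    (cz_pe_cont ε).comp_aestronglyMeasurable (hvm K)
  have hFm : ∀ K, AEStronglyMeasurable F (volume.restrict (bQ K)) := fun K =>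
    aestronglyMeasurable_of_tendsto_ae (𝓝[>] (0:ℝ)) (fun ε => (hpm K ε).mul (hGm K))
      (Eventually.of_forall hlim)
  have hGi : ∀ K, IntegrableOn G (bQ K) := fun K => by
    have : IsFiniteMeasure (volume.restrict (bQ K)) := ⟨by
      rw [Measure.restrict_apply_univ]; exact (cz_bQ_compact K).measure_lt_top⟩
    exact (hG.mem K).integrable (by norm_num)
  have hFi : ∀ K, IntegrableOn F (bQ K) := fun K =>
    Integrable.mono (hGi K) (hFm K) (Eventually.of_forall fun z => by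
      simp only [hF]
      split_ifs <;> simp)
  have hloc : LocallyIntegrable F volume := by
    intro z
    obtain ⟨K, hK⟩ := cz_nhds_bQ z
    exact ⟨bQ K, hK, hFi K⟩
  have key : ∀ᵐ z : ℂ, F z = 0 := by
    refine ae_eq_zero_of_integral_contDiff_smul_eq_zero hloc ?_
    intro ζ hζ hζs
    obtain ⟨K, hK⟩ := cz_supp_bQ hζs
    have hζ1 : ContDiff ℝ 1 ζ := hζ.of_le (by exact_mod_cast le_top)
    have hζc : Continuous ζ := hζ.continuous
    obtain ⟨Z, hZ⟩ := hζs.exists_bound_of_continuous hζc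
    have hZ0 : 0 ≤ Z := (norm_nonneg _).trans (hZ 0)
    set D : ℂ → ℝ := fun z => fderiv ℝ ζ z e with hD
    have hDc : Continuous D := (hζ1.continuous_fderiv (by norm_num)).clm_apply continuous_const
    have hDs : HasCompactSupport D := by
      have := hζs.fderiv (𝕜 := ℝ)
      exact this.comp_left (g := fun L : ℂ →L[ℝ] ℝ => L e) (by simp)
    set Cc := ∫ z, |D z| with hCc
    -- step A
    have hA : ∀ ε > 0, ∀ δ > 0, |∫ z in bQ K, ζ z * (pe ε (V δ z) * fderiv ℝ (V δ) z e)| ≤ 2 * ε * Cc := by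
      intro ε hε δ hδ
      set q : ℂ → ℝ := fun z => ε * Real.arctan (V δ z / ε) with hq
      have hqd : ∀ z, HasFDerivAt q (pe ε (V δ z) • fderiv ℝ (V δ) z) z := by
        intro z
        have h1 : HasFDerivAt (V δ) (fderiv ℝ (V δ) z) z :=
          (((hV1 δ hδ).differentiable (by norm_num)) z).hasFDerivAt
        have h2 : HasDerivAt (fun s : ℝ => ε * Real.arctan (s / ε)) (pe ε (V δ z)) (V δ z) := by
          have h3 := ((Real.hasDerivAt_arctan (V δ z / ε)).comp (V δ z)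
            ((hasDerivAt_id (V δ z)).div_const ε)).const_mul ε
          have h4 : ε * (1 / (1 + (V δ z / ε) ^ 2) * (1 / ε)) = pe ε (V δ z) := by
            unfold pe
            field_simp
          rw [← h4]
          exact h3
        exact h2.comp_hasFDerivAt z h1
      have hq1 : ∀ z, fderiv ℝ q z e = pe ε (V δ z) * fderiv ℝ (V δ) z e := by
        intro z
        rw [(hqd z).fderiv]
        simp
      have hqc : Continuous q := continuous_iff_continuousAt.2 fun z => (hqd z).continuousAt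
      have hqf : Continuous (fun z => fderiv ℝ q z e) := by
        simp_rw [hq1]
        exact ((cz_pe_cont ε).comp (hV.cont δ hδ)).mul (hG.cont δ hδ)
      have hibp := integral_mul_fderiv_eq_neg_fderiv_mul_of_integrable (μ := (volume : Measure ℂ))
        (f := ζ) (g := q) (v := e)
        ((hDc.mul hqc).integrable_of_hasCompactSupport hDs.mul_right)
        ((hζc.mul hqf).integrable_of_hasCompactSupport hζs.mul_right)
        ((hζc.mul hqc).integrable_of_hasCompactSupport hζs.mul_right)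
        (fun z _ => (hζ1.differentiable (by norm_num)) z)
        (fun z _ => (hqd z).differentiableAt)
      simp_rw [hq1] at hibp
      rw [setIntegral_eq_integral_of_forall_compl_eq_zero (fun z hz => by rw [hK z hz, zero_mul]), hibp,
        abs_neg]
      have h4 : |∫ z, fderiv ℝ ζ z e * q z| ≤ ∫ z, 2 * ε * |D z| := by
        refine (abs_integral_le_integral_abs).trans ?_
        refine integral_mono ?_ ?_ ?_
        · exact ((hDc.mul hqc).abs).integrable_of_hasCompactSupport (hDs.mul_right).abs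
        · exact (continuous_const.mul hDc.abs).integrable_of_hasCompactSupport (hDs.abs.mul_left)
        · intro z
          simp only
          rw [abs_mul, mul_comm]
          refine mul_le_mul_of_nonneg_right ?_ (abs_nonneg _)
          rw [hq]
          simp only
          rw [abs_mul, abs_of_pos hε, mul_comm]
          refine mul_le_mul_of_nonneg_right ?_ hε.le
          have h5 := Real.arctan_lt_pi_div_two (V δ z / ε)
          have h6 := Real.neg_pi_div_two_lt_arctan (V δ z / ε)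
          have h7 := Real.pi_lt_four
          rw [abs_le]
          constructor <;> linarith
      rwa [integral_const_mul] at h4
    -- step B
    have hB : ∀ ε > 0, Tendsto (fun δ => ∫ z in bQ K, ζ z * (pe ε (V δ z) * fderiv ℝ (V δ) z e))
        (𝓝[>] 0) (𝓝 (∫ z in bQ K, ζ z * (pe ε (v z) * G z))) := by
      intro ε hε
      rw [tendsto_iff_norm_sub_tendsto_zero]
      set S1 := Real.sqrt (∫ z in bQ K, (1:ℝ) ^ 2)
      set S2 := Real.sqrt (∫ z in bQ K, G z ^ 2)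
      have l1 : Tendsto (fun δ => Z * (Real.sqrt (∫ z in bQ K, (fderiv ℝ (V δ) z e - G z) ^ 2) * S1) +
          Z / ε * (Real.sqrt (∫ z in bQ K, (V δ z - v z) ^ 2) * S2)) (𝓝[>] 0) (𝓝 0) := by
        have a1 := (((hG.lim K).sqrt).mul_const S1).const_mul Z
        have a2 := (((hV.lim K).sqrt).mul_const S2).const_mul (Z / ε)
        have a3 := a1.add a2
        simpa using a3
      refine squeeze_zero' (Eventually.of_forall fun δ => norm_nonneg _) ?_ l1
      filter_upwards [cz_ev_pos] with δ hδ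
      have cV := hV.cont δ hδ
      have cG := hG.cont δ hδ
      have mV := (cz_memLp cV K).sub (hV.mem K)
      have mG := (cz_memLp cG K).sub (hG.mem K)
      have i1 : IntegrableOn (fun z => ζ z * (pe ε (V δ z) * fderiv ℝ (V δ) z e)) (bQ K) :=
        cz_intOn (hζc.mul (((cz_pe_cont ε).comp cV).mul cG)) K
      have i2 : IntegrableOn (fun z => ζ z * (pe ε (v z) * G z)) (bQ K) := by
        refine Integrable.mono ((hGi K).const_mul Z) (hζc.aestronglyMeasurable.mul ((hpm K ε).mul (hGm K)))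
          (Eventually.of_forall fun z => ?_)
        rw [norm_mul, norm_mul, norm_mul, Real.norm_of_nonneg (cz_pe_pos ε _).le,
          Real.norm_of_nonneg hZ0]
        have := cz_pe_le ε (v z)
        calc ‖ζ z‖ * (pe ε (v z) * ‖G z‖) ≤ Z * (1 * ‖G z‖) :=
              mul_le_mul (hZ z) (mul_le_mul_of_nonneg_right this (norm_nonneg _))
                (mul_nonneg (cz_pe_pos ε _).le (norm_nonneg _)) hZ0
          _ = _ := by ring
      have i3 : IntegrableOn (fun z => Z * (|fderiv ℝ (V δ) z e - G z| * |(1:ℝ)|)) (bQ K) :=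
        (MemLp.integrable_mul mG.abs (cz_memLp continuous_const K).abs).const_mul Z
      have i4 : IntegrableOn (fun z => Z / ε * (|V δ z - v z| * |G z|)) (bQ K) :=
        (MemLp.integrable_mul mV.abs (hG.mem K).abs).const_mul (Z / ε)
      rw [← integral_sub i1 i2]
      refine (norm_integral_le_integral_norm _).trans ?_
      have h1 : ∫ z in bQ K, ‖ζ z * (pe ε (V δ z) * fderiv ℝ (V δ) z e) - ζ z * (pe ε (v z) * G z)‖ ≤
          ∫ z in bQ K, (Z * (|fderiv ℝ (V δ) z e - G z| * |(1:ℝ)|) + Z / ε * (|V δ z - v z| * |G z|)) := by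
        refine setIntegral_mono (i1.sub i2).norm (i3.add i4) ?_
        intro z
        simp only
        have e1 : ζ z * (pe ε (V δ z) * fderiv ℝ (V δ) z e) - ζ z * (pe ε (v z) * G z) =
            ζ z * (pe ε (V δ z) * (fderiv ℝ (V δ) z e - G z) + (pe ε (V δ z) - pe ε (v z)) * G z) := by ring
        rw [e1, norm_mul]
        have h2 : ‖pe ε (V δ z) * (fderiv ℝ (V δ) z e - G z) + (pe ε (V δ z) - pe ε (v z)) * G z‖ ≤
            |fderiv ℝ (V δ) z e - G z| + |V δ z - v z| / ε * |G z| := by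
          refine (norm_add_le _ _).trans ?_
          rw [Real.norm_eq_abs, Real.norm_eq_abs, abs_mul, abs_mul, abs_of_pos (cz_pe_pos ε _)]
          refine add_le_add ?_ ?_
          · exact mul_le_of_le_one_left (abs_nonneg _) (cz_pe_le _ _)
          · exact mul_le_mul_of_nonneg_right (cz_pe_lip hε _ _) (abs_nonneg _)
        calc ‖ζ z‖ * ‖pe ε (V δ z) * (fderiv ℝ (V δ) z e - G z) + (pe ε (V δ z) - pe ε (v z)) * G z‖
            ≤ Z * (|fderiv ℝ (V δ) z e - G z| + |V δ z - v z| / ε * |G z|) := by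
              gcongr
              exact hZ z
          _ = _ := by rw [abs_one]; ring
      refine h1.trans ?_
      rw [integral_add i3 i4, integral_const_mul, integral_const_mul]
      have c1 := cz_cs mG (cz_memLp (g := fun _ => (1:ℝ)) continuous_const K)
      have c2 := cz_cs mV (hG.mem K)
      simp only [Pi.sub_apply] at c1 c2
      refine add_le_add (mul_le_mul_of_nonneg_left c1 hZ0) (mul_le_mul_of_nonneg_left c2 (by positivity))
    -- step C
    have hC : ∀ ε > 0, |∫ z in bQ K, ζ z * (pe ε (v z) * G z)| ≤ 2 * ε * Cc := by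
      intro ε hε
      refine le_of_tendsto (hB ε hε).abs ?_
      filter_upwards [cz_ev_pos] with δ hδ
      exact hA ε hε δ hδ
    -- step D
    have hDD : Tendsto (fun ε => ∫ z in bQ K, ζ z * (pe ε (v z) * G z)) (𝓝[>] 0)
        (𝓝 (∫ z in bQ K, ζ z * F z)) := by
      refine tendsto_integral_filter_of_dominated_convergence (fun z => Z * ‖G z‖) ?_ ?_ ?_ ?_
      · exact Eventually.of_forall fun ε => hζc.aestronglyMeasurable.mul ((hpm K ε).mul (hGm K))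
      · refine Eventually.of_forall fun ε => Eventually.of_forall fun z => ?_
        rw [norm_mul, norm_mul, Real.norm_of_nonneg (cz_pe_pos ε _).le]
        have := cz_pe_le ε (v z)
        calc ‖ζ z‖ * (pe ε (v z) * ‖G z‖) ≤ Z * (1 * ‖G z‖) :=
              mul_le_mul (hZ z) (mul_le_mul_of_nonneg_right this (norm_nonneg _))
                (mul_nonneg (cz_pe_pos ε _).le (norm_nonneg _)) hZ0
          _ = _ := by ring
      · exact (hGi K).norm.const_mul Z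
      · exact Eventually.of_forall fun z => (hlim z).const_mul (ζ z)
    have h0 : |∫ z in bQ K, ζ z * F z| ≤ 0 := by
      have l2 : Tendsto (fun ε : ℝ => 2 * ε * Cc) (𝓝[>] 0) (𝓝 0) := by
        have : Tendsto (fun ε : ℝ => 2 * ε * Cc) (𝓝 0) (𝓝 (2 * 0 * Cc)) := by
          exact ((continuous_const.mul continuous_id).mul continuous_const).tendsto 0
        simp only [mul_zero, zero_mul] at this
        exact this.mono_left nhdsWithin_le_nhds
      refine le_of_tendsto_of_tendsto hDD.abs l2 ?_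
      filter_upwards [cz_ev_pos] with ε hε
      exact hC ε hε
    have h1 : ∫ z in bQ K, ζ z * F z = 0 := abs_eq_zero.1 (le_antisymm h0 (abs_nonneg _))
    rw [setIntegral_eq_integral_of_forall_compl_eq_zero (fun z hz => by rw [hK z hz, zero_mul])] at h1
    exact h1
  filter_upwards [key] with z hz h0
  rw [hF] at hz
  simp only [h0, if_true] at hz
  exact hz

/-! the two estimates -/

lemma cz_B_lip {N : ℝ} (hN : 0 < N) (a b : ℝ) : |beN N a - beN N b| ≤ |a - b| := by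
  obtain ⟨h1, -, -, -, -, h6, h7, -⟩ := beN_props N hN
  have hd : Differentiable ℝ (beN N) := h1.differentiable (by norm_num)
  have := Convex.norm_image_sub_le_of_norm_deriv_le (f := beN N) (s := univ) (x := b) (y := a) (C := 1)
    (fun x _ => hd x) (fun x _ => by
      rw [Real.norm_eq_abs, abs_of_nonneg (h6 x)]; exact h7 x) convex_univ (mem_univ _) (mem_univ _)
  simpa using this

lemma cz_B'_cont {N : ℝ} (hN : 0 < N) : Continuous (deriv (beN N)) := by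
  obtain ⟨h1, -⟩ := beN_props N hN
  exact h1.continuous_deriv (by norm_num)

lemma cz_B'_lip {N : ℝ} (hN : 0 < N) : ∃ L : ℝ, 0 ≤ L ∧ ∀ a b,
    |deriv (beN N) a - deriv (beN N) b| ≤ L * |a - b| := by
  obtain ⟨h1, -, -, -, -, h6, h7, h8, h9, h10, -⟩ := beN_props N hN
  have h2 : ContDiff ℝ 1 (deriv (beN N)) := by
    have h3 : ContDiff ℝ (1 + 1) (beN N) := h1.of_le (by norm_num)
    exact (contDiff_succ_iff_deriv.1 h3).2.2
  have hc : Continuous (deriv (deriv (beN N))) := h2.continuous_deriv (by norm_num)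
  obtain ⟨L, hL⟩ := (isCompact_Icc (a := N) (b := 2 * N)).exists_bound_of_continuousOn hc.continuousOn
  have hL0 : 0 ≤ L := (norm_nonneg _).trans (hL N ⟨le_rfl, by linarith⟩)
  refine ⟨L, hL0, fun a b => ?_⟩
  have hb : ∀ x, ‖deriv (deriv (beN N)) x‖ ≤ L := by
    intro x
    by_cases hx : x < N
    · have : deriv (beN N) =ᶠ[𝓝 x] fun _ => 0 := by
        filter_upwards [gt_mem_nhds hx] with y hy using h8 y (le_of_lt hy)
      rw [this.deriv_eq]
      simpa using hL0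
    · by_cases hx2 : 2 * N < x
      · have : deriv (beN N) =ᶠ[𝓝 x] fun _ => 1 := by
          filter_upwards [lt_mem_nhds hx2] with y hy using h9 y (le_of_lt hy)
        rw [this.deriv_eq]
        simpa using hL0
      · exact hL x ⟨not_lt.1 hx, not_lt.1 hx2⟩
  have := Convex.norm_image_sub_le_of_norm_deriv_le (f := deriv (beN N)) (s := univ) (x := b) (y := a)
    (C := L) (fun x _ => (h2.differentiable (by norm_num)) x) (fun x _ => hb x) convex_univ
    (mem_univ _) (mem_univ _)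
  simpa using this

lemma cz_v_bd {N : ℝ} (hN : 0 < N) (s : ℝ) : |s - beN N s + beN N (-s)| ≤ 4 * N := by
  obtain ⟨-, -, -, -, -, -, -, -, -, -, -, h12⟩ := beN_props N hN
  have h1 := h12 s
  have h2 := h12 (-s)
  have h3 : s = max s 0 - max (-s) 0 := by
    rcases le_total 0 s with h | h
    · rw [max_eq_left h, max_eq_right (by linarith)]; ring
    · rw [max_eq_right h, max_eq_left (by linarith)]; ring
  rw [abs_le] at h1 h2 ⊢
  constructor <;> linarith [h1.1, h1.2, h2.1, h2.2]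

/-- `P = 1 - B'(v) - B'(-v)` -/
lemma cz_P {N : ℝ} (hN : 0 < N) (s : ℝ) :
    (1 - deriv (beN N) s - deriv (beN N) (-s)) ^ 2 ≤ 5 * pe N s := by
  obtain ⟨-, -, -, -, -, h6, h7, h8, h9, -⟩ := beN_props N hN
  have hp := cz_pe_pos N s
  by_cases hs : |s| ≤ 2 * N
  · have h1 := cz_pe_big hN hs
    have h2 : -1 ≤ 1 - deriv (beN N) s - deriv (beN N) (-s) := by linarith [h7 s, h7 (-s)]
    have h3 : 1 - deriv (beN N) s - deriv (beN N) (-s) ≤ 1 := by linarith [h6 s, h6 (-s)]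
    nlinarith
  · push Not at hs
    have h0 : 1 - deriv (beN N) s - deriv (beN N) (-s) = 0 := by
      rcases le_total 0 s with h | h
      · rw [abs_of_nonneg h] at hs
        rw [h9 s hs.le, h8 (-s) (by linarith)]; ring
      · rw [abs_of_nonpos h] at hs
        rw [h8 s (by linarith), h9 (-s) hs.le]; ring
    rw [h0]
    nlinarith

lemma cz_Rv_cont {v : ℂ → ℝ} (hv : Continuous v) {N : ℝ} (hN : 0 < N) (τ : ℝ) :
    Continuous (Rv N τ v) := by
  have hB : Continuous (beN N) := (beN_props N hN).1.continuous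
  unfold Rv
  exact (hv.sub (hB.comp (cz_Av_cont hv _ _))).add (hB.comp (cz_Av_cont hv _ _).neg)

lemma cz_Rg_cont {v g : ℂ → ℝ} (hv : Continuous v) (hg : Continuous g) {N : ℝ} (hN : 0 < N) (τ : ℝ) :
    Continuous (Rg N τ v g) := by
  have hB := cz_B'_cont hN
  unfold Rg
  exact (hg.sub ((hB.comp (cz_Av_cont hv _ _)).mul (cz_Av_cont hg _ _))).sub
    ((hB.comp (cz_Av_cont hv _ _).neg).mul (cz_Av_cont hg _ _))

lemma Fam.VR {V : ℝ → ℂ → ℝ} {v : ℂ → ℝ} (hV : Fam V v) (K : ℝ) {η : ℝ} (hη : 0 < η) :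
    ∃ N0 : ℝ, 0 < N0 ∧ ∀ N, 0 < N → N ≤ N0 → ∃ τ0 : ℝ, 0 < τ0 ∧ τ0 ≤ 1 ∧ ∀ τ, 0 < τ → τ ≤ τ0 →
      ∀ᶠ δ in 𝓝[>] (0:ℝ), ∫ z in bQ K, (Rv N τ (V δ) z) ^ 2 ≤ η := by
  set W := volume.real (bQ K) with hW
  have hW0 : 0 ≤ W := measureReal_nonneg
  set N0 := min 1 (η / (96 * (W + 1))) with hN0
  have hN0p : 0 < N0 := lt_min one_pos (by positivity)
  refine ⟨N0, hN0p, fun N hN hNN => ?_⟩
  obtain ⟨τ0, h0, h01, hτ⟩ := hV.avg K (show 0 < η / 12 by linarith)
  refine ⟨τ0, h0, h01, fun τ hτp hττ => ?_⟩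
  filter_upwards [hτ τ hτp hττ, cz_ev_pos] with δ h1 hδ
  have cV := hV.cont δ hδ
  have a1 := h1 1 (by simp)
  have a2 := h1 (-1) (by simp)
  have cA := cz_Av_cont cV 1 τ
  have cB := cz_Av_cont cV (-1) τ
  have hpt : ∀ z, (Rv N τ (V δ) z) ^ 2 ≤ 48 * N ^ 2 + (3 * (Av 1 τ (V δ) z - V δ z) ^ 2 +
      3 * (Av (-1) τ (V δ) z - V δ z) ^ 2) := by
    intro z
    unfold Rv
    set x := V δ z
    set a := Av 1 τ (V δ) z
    set b := Av (-1) τ (V δ) z
    have b1 := cz_v_bd hN x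
    have b2 := cz_B_lip hN x a
    have b3 := cz_B_lip hN (-b) (-x)
    have e : x - beN N a + beN N (-b) = (x - beN N x + beN N (-x)) + (beN N x - beN N a) +
        (beN N (-b) - beN N (-x)) := by ring
    rw [e]
    have q1 : (x - beN N x + beN N (-x)) ^ 2 ≤ (4 * N) ^ 2 := sq_le_sq' (by linarith [(abs_le.1 b1).1]) (abs_le.1 b1).2
    have q2 : (beN N x - beN N a) ^ 2 ≤ (x - a) ^ 2 := sq_le_sq.2 b2
    have q3 : (beN N (-b) - beN N (-x)) ^ 2 ≤ (-b - -x) ^ 2 := sq_le_sq.2 b3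
    nlinarith [sq_nonneg ((x - beN N x + beN N (-x)) - (beN N x - beN N a)),
      sq_nonneg ((x - beN N x + beN N (-x)) - (beN N (-b) - beN N (-x))),
      sq_nonneg ((beN N x - beN N a) - (beN N (-b) - beN N (-x)))]
  have i0 : IntegrableOn (fun _ : ℂ => 48 * N ^ 2) (bQ K) := cz_intOn continuous_const K
  have i1 : IntegrableOn (fun z => 3 * (Av 1 τ (V δ) z - V δ z) ^ 2) (bQ K) :=
    cz_intOn (continuous_const.mul ((cA.sub cV).pow 2)) K
  have i2 : IntegrableOn (fun z => 3 * (Av (-1) τ (V δ) z - V δ z) ^ 2) (bQ K) :=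
    cz_intOn (continuous_const.mul ((cB.sub cV).pow 2)) K
  have hI := setIntegral_mono (μ := volume) (s := bQ K) (cz_intOn ((cz_Rv_cont cV hN τ).pow 2) K)
    (i0.add (i1.add i2)) hpt
  rw [integral_add' i0 (i1.add i2), integral_add' i1 i2] at hI
  simp only [integral_const_mul, setIntegral_const, smul_eq_mul] at hI
  have hN2 : 48 * N ^ 2 * W ≤ η / 2 := by
    have n1 : N ≤ 1 := hNN.trans (min_le_left _ _)
    have n2 : N ≤ η / (96 * (W + 1)) := hNN.trans (min_le_right _ _)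
    rw [le_div_iff₀ (by positivity)] at n2
    have n3 : N ^ 2 ≤ N := by nlinarith
    have n4 : N ^ 2 * W ≤ N * (W + 1) := by nlinarith [mul_nonneg hN.le hW0]
    nlinarith
  have hI3 : ∫ z in bQ K, (Rv N τ (V δ) z) ^ 2 ≤ _ := hI
  refine hI3.trans ?_
  have e : 48 * (volume.real (bQ K) * N ^ 2) = 48 * N ^ 2 * W := by rw [hW]; ring
  rw [e]
  linarith

lemma cz_ev_ex {p : ℝ → Prop} (h : ∀ᶠ x in 𝓝[>] (0:ℝ), p x) :
    ∃ x0 : ℝ, 0 < x0 ∧ ∀ x, 0 < x → x ≤ x0 → p x := by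
  rw [eventually_nhdsWithin_iff, Metric.eventually_nhds_iff] at h
  obtain ⟨e, he, h⟩ := h
  refine ⟨e / 2, by linarith, fun x hx hx2 => h ?_ hx⟩
  rw [Real.dist_eq, sub_zero, abs_of_pos hx]
  linarith

lemma cz_alg1 {g p q A B : ℝ} (hp0 : 0 ≤ p) (hp1 : p ≤ 1) (hq0 : 0 ≤ q) (hq1 : q ≤ 1) :
    (g - p * A - q * B) ^ 2 ≤ 3 * ((1 - p - q) * g) ^ 2 + 3 * (A - g) ^ 2 + 3 * (B - g) ^ 2 := by
  have e : g - p * A - q * B = (1 - p - q) * g - p * (A - g) - q * (B - g) := by ring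
  rw [e]
  have h1 : (p * (A - g)) ^ 2 ≤ (A - g) ^ 2 := by
    rw [mul_pow]
    exact mul_le_of_le_one_left (sq_nonneg _) (by nlinarith)
  have h2 : (q * (B - g)) ^ 2 ≤ (B - g) ^ 2 := by
    rw [mul_pow]
    exact mul_le_of_le_one_left (sq_nonneg _) (by nlinarith)
  nlinarith [sq_nonneg ((1 - p - q) * g + p * (A - g)), sq_nonneg ((1 - p - q) * g + q * (B - g)),
    sq_nonneg (p * (A - g) - q * (B - g))]

lemma cz_alg2 {c P d1 d2 x y : ℝ} (hc : c = P - d1 - d2) (h1 : |d1| ≤ |x|) (h2 : |d2| ≤ |y|) :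
    c ^ 2 ≤ 3 * P ^ 2 + 3 * x ^ 2 + 3 * y ^ 2 := by
  have h3 := sq_le_sq.2 h1
  have h4 := sq_le_sq.2 h2
  rw [hc]
  nlinarith [sq_nonneg (P + d1), sq_nonneg (P + d2), sq_nonneg (d1 - d2)]

set_option maxHeartbeats 1000000 in
lemma Fam.GR {V g : ℝ → ℂ → ℝ} {v G : ℂ → ℝ} (hV : Fam V v) (hG : Fam g G)
    (hz : ∀ᵐ z : ℂ, v z = 0 → G z = 0) (K : ℝ) {η : ℝ} (hη : 0 < η) :
    ∃ N0 : ℝ, 0 < N0 ∧ ∀ N, 0 < N → N ≤ N0 → ∃ τ0 : ℝ, 0 < τ0 ∧ τ0 ≤ 1 ∧ ∀ τ, 0 < τ → τ ≤ τ0 →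
      ∀ᶠ δ in 𝓝[>] (0:ℝ), ∫ z in bQ K, (Rg N τ (V δ) (g δ) z) ^ 2 ≤ η := by
  have hvm : AEStronglyMeasurable v (volume.restrict (bQ K)) := (hV.mem K).1
  have hG2 : IntegrableOn (fun z => G z ^ 2) (bQ K) := cz_sq_int (hG.mem K)
  have hpm : ∀ ε, AEStronglyMeasurable (fun z => pe ε (v z)) (volume.restrict (bQ K)) := fun ε =>
    (cz_pe_cont ε).comp_aestronglyMeasurable hvm
  have hpG : ∀ ε, IntegrableOn (fun z => pe ε (v z) * G z ^ 2) (bQ K) := fun ε =>
    Integrable.mono hG2 ((hpm ε).mul hG2.1) (Eventually.of_forall fun z => by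
      rw [norm_mul, Real.norm_of_nonneg (cz_pe_pos ε _).le]
      exact mul_le_of_le_one_left (norm_nonneg _) (cz_pe_le _ _))
  -- the limit in N
  have hlimN : Tendsto (fun N => ∫ z in bQ K, pe N (v z) * G z ^ 2) (𝓝[>] 0) (𝓝 0) := by
    have h1 : Tendsto (fun N => ∫ z in bQ K, pe N (v z) * G z ^ 2) (𝓝[>] 0)
        (𝓝 (∫ z in bQ K, (if v z = 0 then 1 else 0) * G z ^ 2)) := by
      refine tendsto_integral_filter_of_dominated_convergence (fun z => G z ^ 2) ?_ ?_ hG2 ?_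
      · exact Eventually.of_forall fun ε => (hpm ε).mul hG2.1
      · refine Eventually.of_forall fun ε => Eventually.of_forall fun z => ?_
        rw [norm_mul, Real.norm_of_nonneg (cz_pe_pos ε _).le, Real.norm_of_nonneg (sq_nonneg _)]
        exact mul_le_of_le_one_left (sq_nonneg _) (cz_pe_le _ _)
      · exact Eventually.of_forall fun z => (cz_pe_lim (v z)).mul_const _
    have h2 : ∫ z in bQ K, (if v z = 0 then (1:ℝ) else 0) * G z ^ 2 = 0 := by
      have h3 : (fun z => (if v z = 0 then (1:ℝ) else 0) * G z ^ 2) =ᵐ[volume.restrict (bQ K)]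
          fun _ => (0:ℝ) := by
        refine ae_restrict_of_ae ?_
        filter_upwards [hz] with z hz
        by_cases h : v z = 0
        · rw [hz h]; simp
        · simp [h]
      rw [integral_congr_ae h3]
      simp
    rwa [h2] at h1
  obtain ⟨N0, hN0, hNN⟩ := cz_ev_ex (hlimN.eventually (gt_mem_nhds (show (0:ℝ) < η / 1440 by positivity)))
  refine ⟨N0, hN0, fun N hN hN1 => ?_⟩
  have E1 := (hNN N hN hN1).le
  obtain ⟨L, hL0, hL⟩ := cz_B'_lip hN
  obtain ⟨δ1, hδ1, E2, E3⟩ := hG.cau K (show 0 < η / 1440 by positivity)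
  have c1 := hG.cont δ1 hδ1
  obtain ⟨M, hM⟩ := (cz_bQ_compact K).exists_bound_of_continuousOn c1.continuousOn
  set M1 := max M 0 with hM1
  have hM10 : 0 ≤ M1 := le_max_right _ _
  have hM' : ∀ z ∈ bQ K, g δ1 z ^ 2 ≤ M1 ^ 2 := by
    intro z hz
    have h1 := hM z hz
    rw [Real.norm_eq_abs] at h1
    have h2 := abs_le.1 (h1.trans (le_max_left M 0))
    exact sq_le_sq' h2.1 h2.2
  set Q := 18 * L ^ 2 * M1 ^ 2 with hQ
  have hQ0 : 0 ≤ Q := by positivity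
  obtain ⟨τ1, h1p, h1l, H1⟩ := hG.avg K (show 0 < η / 48 by positivity)
  obtain ⟨τ2, h2p, h2l, H2⟩ := hV.avg K (show 0 < η / (16 * (Q + 1)) by positivity)
  refine ⟨min τ1 τ2, lt_min h1p h2p, (min_le_left _ _).trans h1l, fun τ hτ hττ => ?_⟩
  -- L¹ convergence
  have hL1 : Tendsto (fun δ => 90 * M1 ^ 2 / N * ∫ z in bQ K, |V δ z - v z|) (𝓝[>] 0) (𝓝 0) := by
    have a1 : Tendsto (fun δ => 90 * M1 ^ 2 / N * (Real.sqrt (∫ z in bQ K, (V δ z - v z) ^ 2) *
        Real.sqrt (∫ z in bQ K, (1:ℝ) ^ 2))) (𝓝[>] 0) (𝓝 0) := by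
      have := (((hV.lim K).sqrt).mul_const (Real.sqrt (∫ z in bQ K, (1:ℝ) ^ 2))).const_mul (90 * M1 ^ 2 / N)
      simpa using this
    refine squeeze_zero' (Eventually.of_forall fun δ => ?_) ?_ a1
    · exact mul_nonneg (by positivity) (integral_nonneg fun z => abs_nonneg _)
    · filter_upwards [cz_ev_pos] with δ hδ
      refine mul_le_mul_of_nonneg_left ?_ (by positivity)
      have := cz_cs ((cz_memLp (hV.cont δ hδ) K).sub (hV.mem K))
        (cz_memLp (g := fun _ => (1:ℝ)) continuous_const K)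
      simpa using this
  filter_upwards [H1 τ hτ (hττ.trans (min_le_left _ _)), H2 τ hτ (hττ.trans (min_le_right _ _)), E3,
    hL1.eventually (gt_mem_nhds (show (0:ℝ) < η / 8 by positivity))] with δ F1 F2 F3 F4
  obtain ⟨hδ, F3⟩ := F3
  have cV := hV.cont δ hδ
  have cg := hG.cont δ hδ
  have p1 := F1 1 (by simp)
  have p2 := F1 (-1) (by simp)
  have p3 := F2 1 (by simp)
  have p4 := F2 (-1) (by simp)
  obtain ⟨-, -, -, -, -, h6, h7, h8, h9, -⟩ := beN_props N hN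
  have hpt : ∀ z ∈ bQ K, (Rg N τ (V δ) (g δ) z) ^ 2 ≤
      3 * (Av 1 τ (g δ) z - g δ z) ^ 2 + 3 * (Av (-1) τ (g δ) z - g δ z) ^ 2 +
      12 * (g δ z - g δ1 z) ^ 2 + Q * (Av 1 τ (V δ) z - V δ z) ^ 2 + Q * (Av (-1) τ (V δ) z - V δ z) ^ 2 +
      180 * (pe N (v z) * G z ^ 2) + 180 * (g δ1 z - G z) ^ 2 + 90 * M1 ^ 2 / N * |V δ z - v z| := by
    intro z hzK
    have hm := hM' z hzK
    have s1 := cz_alg1 (g := g δ z) (A := Av 1 τ (g δ) z) (B := Av (-1) τ (g δ) z)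
      (h6 (Av 1 τ (V δ) z)) (h7 (Av 1 τ (V δ) z)) (h6 (-Av (-1) τ (V δ) z)) (h7 (-Av (-1) τ (V δ) z))
    set p := deriv (beN N) (Av 1 τ (V δ) z) with hp
    set q := deriv (beN N) (-Av (-1) τ (V δ) z) with hq
    have hp0 : 0 ≤ p := h6 _
    have hp1 : p ≤ 1 := h7 _
    have hq0 : 0 ≤ q := h6 _
    have hq1 : q ≤ 1 := h7 _
    have hc1 : (1 - p - q) ^ 2 ≤ 1 := by nlinarith
    have s2 := cz_alg2 (c := 1 - p - q) (P := 1 - deriv (beN N) (V δ z) - deriv (beN N) (-V δ z))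
      (d1 := p - deriv (beN N) (V δ z)) (d2 := q - deriv (beN N) (-V δ z))
      (x := L * (Av 1 τ (V δ) z - V δ z)) (y := L * (Av (-1) τ (V δ) z - V δ z)) (by ring)
      (by rw [abs_mul, abs_of_nonneg hL0]; exact hL _ _)
      (by
        rw [abs_mul, abs_of_nonneg hL0]
        have := hL (-Av (-1) τ (V δ) z) (-V δ z)
        rwa [show -Av (-1) τ (V δ) z - -V δ z = -(Av (-1) τ (V δ) z - V δ z) by ring, abs_neg] at this)
    have s3 := cz_P hN (V δ z)
    have s4 : pe N (V δ z) ≤ pe N (v z) + |V δ z - v z| / N := by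
      have := (abs_le.1 (cz_pe_lip hN (V δ z) (v z))).2
      linarith
    -- combine
    have t1 : ((1 - p - q) * g δ z) ^ 2 ≤ 2 * ((1 - p - q) ^ 2 * g δ1 z ^ 2) + 2 * (g δ z - g δ1 z) ^ 2 := by
      have e1 : ((1 - p - q) * g δ z) ^ 2 = (1 - p - q) ^ 2 * g δ z ^ 2 := by ring
      have e2 : g δ z ^ 2 ≤ 2 * g δ1 z ^ 2 + 2 * (g δ z - g δ1 z) ^ 2 := by
        nlinarith [sq_nonneg (g δ z - 2 * g δ1 z)]
      rw [e1]
      calc (1 - p - q) ^ 2 * g δ z ^ 2 ≤ (1 - p - q) ^ 2 * (2 * g δ1 z ^ 2 + 2 * (g δ z - g δ1 z) ^ 2) :=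
            mul_le_mul_of_nonneg_left e2 (sq_nonneg _)
        _ = 2 * ((1 - p - q) ^ 2 * g δ1 z ^ 2) + (1 - p - q) ^ 2 * (2 * (g δ z - g δ1 z) ^ 2) := by ring
        _ ≤ _ := by
            have : (1 - p - q) ^ 2 * (2 * (g δ z - g δ1 z) ^ 2) ≤ 1 * (2 * (g δ z - g δ1 z) ^ 2) :=
              mul_le_mul_of_nonneg_right hc1 (by positivity)
            linarith
    have t2 : (1 - p - q) ^ 2 * g δ1 z ^ 2 ≤ 15 * (pe N (V δ z) * g δ1 z ^ 2) +
        (3 * L ^ 2 * M1 ^ 2 * (Av 1 τ (V δ) z - V δ z) ^ 2 + 3 * L ^ 2 * M1 ^ 2 * (Av (-1) τ (V δ) z - V δ z) ^ 2) := by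
      have e1 : (1 - p - q) ^ 2 ≤ 15 * pe N (V δ z) + (3 * L ^ 2 * (Av 1 τ (V δ) z - V δ z) ^ 2 +
          3 * L ^ 2 * (Av (-1) τ (V δ) z - V δ z) ^ 2) := by
        have e2 : (L * (Av 1 τ (V δ) z - V δ z)) ^ 2 = L ^ 2 * (Av 1 τ (V δ) z - V δ z) ^ 2 := by ring
        have e3 : (L * (Av (-1) τ (V δ) z - V δ z)) ^ 2 = L ^ 2 * (Av (-1) τ (V δ) z - V δ z) ^ 2 := by ring
        rw [e2, e3] at s2
        linarith
      have e4 := mul_le_mul_of_nonneg_right e1 (sq_nonneg (g δ1 z))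
      rw [add_mul] at e4
      have e5 : (3 * L ^ 2 * (Av 1 τ (V δ) z - V δ z) ^ 2 + 3 * L ^ 2 * (Av (-1) τ (V δ) z - V δ z) ^ 2) *
          g δ1 z ^ 2 ≤ (3 * L ^ 2 * (Av 1 τ (V δ) z - V δ z) ^ 2 +
          3 * L ^ 2 * (Av (-1) τ (V δ) z - V δ z) ^ 2) * M1 ^ 2 :=
        mul_le_mul_of_nonneg_left hm (by positivity)
      have e6 : (3 * L ^ 2 * (Av 1 τ (V δ) z - V δ z) ^ 2 +
          3 * L ^ 2 * (Av (-1) τ (V δ) z - V δ z) ^ 2) * M1 ^ 2 =
          3 * L ^ 2 * M1 ^ 2 * (Av 1 τ (V δ) z - V δ z) ^ 2 +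
          3 * L ^ 2 * M1 ^ 2 * (Av (-1) τ (V δ) z - V δ z) ^ 2 := by ring
      have e7 : 15 * pe N (V δ z) * g δ1 z ^ 2 = 15 * (pe N (V δ z) * g δ1 z ^ 2) := by ring
      rw [e6] at e5
      rw [e7] at e4
      linarith only [e4, e5]
    have t3 : pe N (V δ z) * g δ1 z ^ 2 ≤ 2 * (pe N (v z) * G z ^ 2) + 2 * (g δ1 z - G z) ^ 2 +
        M1 ^ 2 / N * |V δ z - v z| := by
      have e1 := mul_le_mul_of_nonneg_right s4 (sq_nonneg (g δ1 z))
      have e2 : |V δ z - v z| / N * g δ1 z ^ 2 ≤ |V δ z - v z| / N * M1 ^ 2 :=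
        mul_le_mul_of_nonneg_left hm (by positivity)
      have e3 : g δ1 z ^ 2 ≤ 2 * G z ^ 2 + 2 * (g δ1 z - G z) ^ 2 := by
        nlinarith [sq_nonneg (g δ1 z - 2 * G z)]
      have e4 := mul_le_mul_of_nonneg_left e3 (cz_pe_pos N (v z)).le
      have e5 : pe N (v z) * (2 * (g δ1 z - G z) ^ 2) ≤ 1 * (2 * (g δ1 z - G z) ^ 2) :=
        mul_le_mul_of_nonneg_right (cz_pe_le _ _) (by positivity)
      have e6 : |V δ z - v z| / N * M1 ^ 2 = M1 ^ 2 / N * |V δ z - v z| := by ring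
      rw [mul_add] at e4
      rw [add_mul] at e1
      rw [e6] at e2
      have e8 : pe N (v z) * (2 * G z ^ 2) = 2 * (pe N (v z) * G z ^ 2) := by ring
      rw [e8] at e4
      linarith only [e1, e2, e4, e5]
    have e7 : 90 * M1 ^ 2 / N * |V δ z - v z| = 90 * (M1 ^ 2 / N * |V δ z - v z|) := by ring
    have e8 : Rg N τ (V δ) (g δ) z = g δ z - p * Av 1 τ (g δ) z - q * Av (-1) τ (g δ) z := rfl
    rw [e8, e7]
    have e9 : Q * (Av 1 τ (V δ) z - V δ z) ^ 2 = 6 * (3 * L ^ 2 * M1 ^ 2 * (Av 1 τ (V δ) z - V δ z) ^ 2) := by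
      rw [hQ]; ring
    have e10 : Q * (Av (-1) τ (V δ) z - V δ z) ^ 2 =
        6 * (3 * L ^ 2 * M1 ^ 2 * (Av (-1) τ (V δ) z - V δ z) ^ 2) := by
      rw [hQ]; ring
    rw [e9, e10]
    have e11 := sq_nonneg (g δ z - g δ1 z)
    clear_value p q
    generalize (1 - p - q) ^ 2 * g δ1 z ^ 2 = Y1 at *
    generalize ((1 - p - q) * g δ z) ^ 2 = Y2 at *
    generalize pe N (V δ z) * g δ1 z ^ 2 = Y3 at *
    generalize pe N (v z) * G z ^ 2 = Y4 at *
    generalize (g δ z - g δ1 z) ^ 2 = Y5 at *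
    generalize (g δ1 z - G z) ^ 2 = Y6 at *
    generalize M1 ^ 2 / N * |V δ z - v z| = Y7 at *
    linarith only [s1, t1, t2, t3, e11]
  have cA := cz_Av_cont cV 1 τ
  have cB := cz_Av_cont cV (-1) τ
  have cA' := cz_Av_cont cg 1 τ
  have cB' := cz_Av_cont cg (-1) τ
  have j1 : IntegrableOn (fun z => 3 * (Av 1 τ (g δ) z - g δ z) ^ 2) (bQ K) :=
    cz_intOn (continuous_const.mul ((cA'.sub cg).pow 2)) K
  have j2 : IntegrableOn (fun z => 3 * (Av (-1) τ (g δ) z - g δ z) ^ 2) (bQ K) :=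
    cz_intOn (continuous_const.mul ((cB'.sub cg).pow 2)) K
  have j3 : IntegrableOn (fun z => 12 * (g δ z - g δ1 z) ^ 2) (bQ K) :=
    cz_intOn (continuous_const.mul ((cg.sub c1).pow 2)) K
  have j4 : IntegrableOn (fun z => Q * (Av 1 τ (V δ) z - V δ z) ^ 2) (bQ K) :=
    cz_intOn (continuous_const.mul ((cA.sub cV).pow 2)) K
  have j5 : IntegrableOn (fun z => Q * (Av (-1) τ (V δ) z - V δ z) ^ 2) (bQ K) :=
    cz_intOn (continuous_const.mul ((cB.sub cV).pow 2)) K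
  have j6 : IntegrableOn (fun z => 180 * (pe N (v z) * G z ^ 2)) (bQ K) := (hpG N).const_mul 180
  have j7 : IntegrableOn (fun z => 180 * (g δ1 z - G z) ^ 2) (bQ K) :=
    (((cz_memLp c1 K).sub (hG.mem K)).integrable_sq).const_mul 180
  have j8 : IntegrableOn (fun z => 90 * M1 ^ 2 / N * |V δ z - v z|) (bQ K) := by
    have : IsFiniteMeasure (volume.restrict (bQ K)) := ⟨by
      rw [Measure.restrict_apply_univ]; exact (cz_bQ_compact K).measure_lt_top⟩
    exact ((((cz_memLp cV K).sub (hV.mem K)).integrable (by norm_num)).abs).const_mul _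
  have hI := setIntegral_mono_on (μ := volume) (s := bQ K)
    (cz_intOn ((cz_Rg_cont cV cg hN τ).pow 2) K)
    (((((((j1.add j2).add j3).add j4).add j5).add j6).add j7).add j8) (cz_bQ_meas K) hpt
  refine hI.trans ?_
  rw [integral_add' (((((((j1.add j2).add j3).add j4).add j5).add j6).add j7)) j8,
    integral_add' ((((((j1.add j2).add j3).add j4).add j5).add j6)) j7,
    integral_add' (((((j1.add j2).add j3).add j4).add j5)) j6,
    integral_add' ((((j1.add j2).add j3).add j4)) j5,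
    integral_add' (((j1.add j2).add j3)) j4,
    integral_add' ((j1.add j2)) j3,
    integral_add' j1 j2]
  simp only [integral_const_mul]
  have k1 : Q * (η / (16 * (Q + 1))) ≤ η / 16 := by
    rw [mul_div_assoc', div_le_div_iff₀ (by positivity) (by norm_num)]
    nlinarith
  have k2 := mul_le_mul_of_nonneg_left p3 hQ0
  have k3 := mul_le_mul_of_nonneg_left p4 hQ0
  linarith

/-! assembly -/

lemma cz_per_dx {u : ℂ → ℝ} {c : ℂ} (h : ∀ z, u (z + c) = u z) (z : ℂ) : dx u (z + c) = dx u z := by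
  have h1 : (fun z => u (z + c)) = u := funext h
  have h2 := fderiv_comp_add_right (𝕜 := ℝ) (f := u) (x := z) c
  rw [h1] at h2
  unfold dx
  rw [← h2]

lemma cz_per_dy {u : ℂ → ℝ} {c : ℂ} (h : ∀ z, u (z + c) = u z) (z : ℂ) : dy u (z + c) = dy u z := by
  have h1 : (fun z => u (z + c)) = u := funext h
  have h2 := fderiv_comp_add_right (𝕜 := ℝ) (f := u) (x := z) c
  rw [h1] at h2
  unfold dy
  rw [← h2]

lemma cz_per_Av {g : ℂ → ℝ} {c : ℂ} (h : ∀ z, g (z + c) = g z) (σ τ : ℝ) (z : ℂ) :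
    Av σ τ g (z + c) = Av σ τ g z := by
  unfold Av
  congr 1
  refine intervalIntegral.integral_congr fun s _ => ?_
  rw [show z + c + ((σ * s : ℝ) : ℂ) = (z + ((σ * s : ℝ) : ℂ)) + c by ring, h]

lemma cz_fam (D : (ℂ → ℝ) → ℂ → ℝ) (hD : D = (fun u => dx (dx u)) ∨ D = (fun u => dy (dx u)) ∨
    D = (fun u => dx u) ∨ D = (fun u => dy u)) {ρ : ℝ} {h ω : ℝ → ℝ} {C : ℝ} {U : ℂ → ℝ}
    (hU : ClsS ρ h C ω U) {M δ0 : ℝ} (hδ0 : 0 < δ0)
    (hb : ∀ δ ∈ Ioc (0:ℝ) δ0, ∀ x0 : ℝ, ∫ z in box x0 (x0 + 1), (D (moll δ U) z) ^ 2 ≤ M) :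
    ∃ G, Fam (fun δ => D (moll δ U)) G := by
  have hcont : ∀ δ > 0, Continuous (D (moll δ U)) := by
    intro δ hδ
    have h5 : ContDiff ℝ (2:ℕ) (moll δ U) := moll_contDiff δ hδ U hU.loc 2
    have hx : ContDiff ℝ (1:ℕ) (dx (moll δ U)) := cz_dx_cd h5
    rcases hD with rfl | rfl | rfl | rfl
    · exact (cz_dx_cd (n := 0) (by simpa using hx)).continuous
    · exact (cz_dy_cd (n := 0) (by simpa using hx)).continuous
    · exact hx.continuous
    · exact (cz_dy_cd (n := 1) h5).continuous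
  have hper : ∀ δ, ∀ z : ℂ, D (moll δ U) (z + 2 * Real.pi * I) = D (moll δ U) z := by
    intro δ z
    have h0 : ∀ z : ℂ, moll δ U (z + 2 * Real.pi * I) = moll δ U z := moll_per hU δ
    rcases hD with rfl | rfl | rfl | rfl
    · exact cz_per_dx (cz_per_dx h0) z
    · exact cz_per_dy (cz_per_dx h0) z
    · exact cz_per_dx h0 z
    · exact cz_per_dy h0 z
  obtain ⟨G, hG1, -, hG3⟩ := second_conv D hD U hU.loc δ0 hδ0 (by
    intro K
    obtain ⟨c, hc, hcov⟩ := cz_cover K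
    refine ⟨c * M, fun δ hδ => ?_⟩
    exact hcov (fun z => (D (moll δ U) z) ^ 2) ((hcont δ hδ.1).pow 2) (fun z => sq_nonneg _)
      (fun z => by simp only [hper]) M (hb δ hδ))
  exact ⟨G, ⟨hcont, hG1, hG3⟩⟩

lemma cz_box_sub {R K : ℝ} (h1 : R ≤ K) (h2 : 2 * Real.pi ≤ K) : box (-R) R ⊆ bQ K := by
  intro z hz
  obtain ⟨⟨a, b⟩, c, d⟩ := hz
  refine ⟨abs_le.2 ⟨by linarith, by linarith⟩, abs_le.2 ⟨?_, by linarith⟩⟩
  have := Real.pi_pos
  linarith

lemma cz_box_le {g : ℂ → ℝ} (hg : Continuous g) (h0 : ∀ z, 0 ≤ g z) {R K : ℝ}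
    (h1 : R ≤ K) (h2 : 2 * Real.pi ≤ K) : ∫ z in box (-R) R, g z ≤ ∫ z in bQ K, g z :=
  setIntegral_mono_set (cz_intOn hg K) (Eventually.of_forall fun z => h0 z)
    (Eventually.of_forall fun z hz => cz_box_sub h1 h2 hz)

lemma cz_dx_aof {ρ : ℝ} {u : ℂ → ℝ} (hu : ContDiff ℝ 2 u) (z : ℂ) :
    dx (aof ρ u) z = dx u z + dx (dx u) z / ρ ∧ dy (aof ρ u) z = dy u z + dy (dx u) z / ρ ∧
    dx (bof ρ u) z = dy (dx u) z / ρ := by
  have hx : ContDiff ℝ (1:ℕ) (dx u) := cz_dx_cd (n := 1) (by simpa using hu)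
  have hy : ContDiff ℝ (1:ℕ) (dy u) := cz_dy_cd (n := 1) (by simpa using hu)
  have h0 : HasFDerivAt u (fderiv ℝ u z) z := ((hu.differentiable (by norm_num)) z).hasFDerivAt
  have h1 : HasFDerivAt (dx u) (fderiv ℝ (dx u) z) z :=
    ((hx.differentiable (by norm_num)) z).hasFDerivAt
  have h2 : HasFDerivAt (dy u) (fderiv ℝ (dy u) z) z :=
    ((hy.differentiable (by norm_num)) z).hasFDerivAt
  have ha : HasFDerivAt (aof ρ u) (fderiv ℝ u z + ρ⁻¹ • fderiv ℝ (dx u) z) z := by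
    have := h0.add (h1.const_smul ρ⁻¹)
    refine this.congr_of_eventuallyEq (Eventually.of_forall fun w => ?_)
    simp [aof, div_eq_inv_mul]
  have hb : HasFDerivAt (bof ρ u) (ρ⁻¹ • fderiv ℝ (dy u) z) z := by
    have := (h2.const_smul ρ⁻¹)
    refine this.congr_of_eventuallyEq (Eventually.of_forall fun w => ?_)
    simp [bof, div_eq_inv_mul]
  refine ⟨?_, ?_, ?_⟩
  · have : dx (aof ρ u) z = fderiv ℝ (aof ρ u) z 1 := rfl
    rw [this, ha.fderiv]
    simp only [add_apply, smul_apply, smul_eq_mul, div_eq_inv_mul]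
    rfl
  · have : dy (aof ρ u) z = fderiv ℝ (aof ρ u) z I := rfl
    rw [this, ha.fderiv]
    simp only [add_apply, smul_apply, smul_eq_mul, div_eq_inv_mul]
    rfl
  · have : dx (bof ρ u) z = fderiv ℝ (bof ρ u) z 1 := rfl
    rw [this, hb.fderiv, ← cz_symm hu]
    simp only [smul_apply, smul_eq_mul, div_eq_inv_mul]
    rfl

lemma cz_Lop_cont {ρ : ℝ} {u : ℂ → ℝ} (hu : ContDiff ℝ 2 u) : Continuous (Lop ρ u) := by
  have hx : ContDiff ℝ (1:ℕ) (dx u) := cz_dx_cd (n := 1) (by simpa using hu)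
  have hy : ContDiff ℝ (1:ℕ) (dy u) := cz_dy_cd (n := 1) (by simpa using hu)
  have hxx : ContDiff ℝ (0:ℕ) (dx (dx u)) := cz_dx_cd (n := 0) (by simpa using hx)
  have hyy : ContDiff ℝ (0:ℕ) (dy (dy u)) := cz_dy_cd (n := 0) (by simpa using hy)
  unfold Lop
  exact (((hxx.continuous).add (continuous_const.mul hx.continuous)).add hyy.continuous).add
    (continuous_const.mul hu.continuous)

/-- the correction vanishes where `Lop > 0` -/
lemma cz_vanish {ρ : ℝ} {h ω : ℝ → ℝ} {C : ℝ} {U : ℂ → ℝ}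
    (hU : ClsS ρ h C ω U) {κ : ℝ → ℝ} {δ : ℝ} (hδ : δ ∈ Ioc (0:ℝ) 1)
    (hκ : ∀ z, moll δ U z ≤ h z.im + κ δ) {N τ : ℝ} (hN : 0 < N) (hτ : 0 < τ)
    (hsm : ω δ + κ δ ≤ N * τ) {z : ℂ} (hz : 0 < Lop ρ (moll δ U) z) :
    Rv N τ (dx (moll δ U)) z = dx (moll δ U) z ∧
    dx (Rv N τ (dx (moll δ U))) z = dx (dx (moll δ U)) z := by
  set u := moll δ U with hu
  have hu2 : ContDiff ℝ 2 u := moll_contDiff δ hδ.1 U hU.loc 2
  have hu1 : ContDiff ℝ 1 u := hu2.of_le (by norm_num)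
  have hB0 := (beN_props N hN).2.1
  have hpt : ∀ w, 0 < Lop ρ u w → Rv N τ (dx u) w = dx u w := by
    intro w hw
    have hc := hU.con δ hδ w hw
    have k1 := hκ (w + τ)
    have k2 := hκ (w - τ)
    have i1 : (w + (τ:ℂ)).im = w.im := by simp
    have i2 : (w - (τ:ℂ)).im = w.im := by simp
    rw [i1] at k1
    rw [i2] at k2
    have q1 : (u (w + (τ:ℂ)) - u w) / τ ≤ N := by
      rw [div_le_iff₀ hτ]; linarith
    have q2 : (u (w - (τ:ℂ)) - u w) / τ ≤ N := by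
      rw [div_le_iff₀ hτ]; linarith
    unfold Rv
    rw [← cz_Av1 hu1, ← cz_Avm hu1, hB0 _ q1, hB0 _ q2]
    ring
  have hop : {w | 0 < Lop ρ u w} ∈ 𝓝 z := (isOpen_lt continuous_const (cz_Lop_cont hu2)).mem_nhds hz
  have hev : Rv N τ (dx u) =ᶠ[𝓝 z] dx u := by
    filter_upwards [hop] with w hw using hpt w hw
  refine ⟨hpt z hz, ?_⟩
  have : dx (Rv N τ (dx u)) z = fderiv ℝ (Rv N τ (dx u)) z 1 := rfl
  rw [this, hev.fderiv_eq]
  rfl

lemma cz_Ksm_eq {ρ : ℝ} {h ω : ℝ → ℝ} {C : ℝ} {U : ℂ → ℝ} (φ X : ℝ → ℝ)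
    (hU : ClsS ρ h C ω U) {κ : ℝ → ℝ} {δ : ℝ} (hδ : δ ∈ Ioc (0:ℝ) 1)
    (hκ : ∀ z, moll δ U z ≤ h z.im + κ δ) {N τ : ℝ} (hN : 0 < N) (hτ : 0 < τ)
    (hsm : ω δ + κ δ ≤ N * τ) :
    Ksm ρ φ X (moll δ U) = (1 / ρ) * ∫ x : ℝ, ∫ y in (0 : ℝ)..(2 * Real.pi),
          X x * (φ (aof ρ (moll δ U) (x + y * I) ^ 2 + bof ρ (moll δ U) (x + y * I) ^ 2) *
            Lop ρ (moll δ U) (x + y * I)
            * (Rv N τ (dx (moll δ U)) (x + y * I) + dx (Rv N τ (dx (moll δ U))) (x + y * I) / ρ)) := by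
  have hu2 : ContDiff ℝ 2 (moll δ U) := moll_contDiff δ hδ.1 U hU.loc 2
  unfold Ksm
  rw [← integral_const_mul]
  refine integral_congr_ae (Eventually.of_forall fun x => ?_)
  simp only
  rw [← intervalIntegral.integral_const_mul]
  refine intervalIntegral.integral_congr fun y _ => ?_
  rcases (hU.sub δ hδ (x + y * I)).eq_or_lt with h0 | h0
  · rw [← h0]; ring
  · obtain ⟨e1, e2⟩ := cz_vanish hU hδ hκ hN hτ hsm h0
    rw [e1, e2, (cz_dx_aof hu2 _).1]
    ring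

lemma cz_E1 {ρ : ℝ} {h ω : ℝ → ℝ} {C : ℝ} {U : ℂ → ℝ}
    (hU : ClsS ρ h C ω U) {v w G1 G2 : ℂ → ℝ} (hv : Fam (fun δ => dx (moll δ U)) v)
    (hw : Fam (fun δ => dy (moll δ U)) w) (h1 : Fam (fun δ => dx (dx (moll δ U))) G1)
    (h2 : Fam (fun δ => dy (dx (moll δ U))) G2) {R K : ℝ} (hR : R ≤ K) (hK : 2 * Real.pi ≤ K) :
    ∃ M : ℝ, 0 ≤ M ∧ ∀ᶠ δ in 𝓝[>] (0:ℝ), ∫ z in box (-R) R,
      (dx (aof ρ (moll δ U)) z ^ 2 + dy (aof ρ (moll δ U)) z ^ 2 + dx (bof ρ (moll δ U)) z ^ 2) ≤ M := by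
  obtain ⟨Mv, mv0, mv⟩ := hv.bdd K
  obtain ⟨Mw, mw0, mw⟩ := hw.bdd K
  obtain ⟨M1, m10, m1⟩ := h1.bdd K
  obtain ⟨M2, m20, m2⟩ := h2.bdd K
  set c := (ρ⁻¹) ^ 2 with hc
  have hc0 : 0 ≤ c := sq_nonneg _
  refine ⟨2 * Mv + 2 * Mw + 2 * c * M1 + 3 * c * M2, by positivity, ?_⟩
  filter_upwards [mv, mw, m1, m2, cz_ev_pos] with δ av aw a1 a2 hδ
  have hu2 : ContDiff ℝ 2 (moll δ U) := moll_contDiff δ hδ U hU.loc 2
  have cv := hv.cont δ hδ
  have cw := hw.cont δ hδ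
  have c1 := h1.cont δ hδ
  have c2 := h2.cont δ hδ
  set u := moll δ U with hu
  have e : ∀ z, dx (aof ρ u) z ^ 2 + dy (aof ρ u) z ^ 2 + dx (bof ρ u) z ^ 2 ≤
      2 * dx u z ^ 2 + 2 * dy u z ^ 2 + 2 * c * dx (dx u) z ^ 2 + 3 * c * dy (dx u) z ^ 2 := by
    intro z
    obtain ⟨e1, e2, e3⟩ := cz_dx_aof (ρ := ρ) hu2 z
    rw [e1, e2, e3, div_eq_mul_inv, div_eq_mul_inv, hc]
    nlinarith [sq_nonneg (dx u z - dx (dx u) z * ρ⁻¹), sq_nonneg (dy u z - dy (dx u) z * ρ⁻¹)]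
  have ec : Continuous (fun z => dx (aof ρ u) z ^ 2 + dy (aof ρ u) z ^ 2 + dx (bof ρ u) z ^ 2) := by
    have e1 : (fun z => dx (aof ρ u) z ^ 2 + dy (aof ρ u) z ^ 2 + dx (bof ρ u) z ^ 2) =
      fun z => (dx u z + dx (dx u) z / ρ) ^ 2 + (dy u z + dy (dx u) z / ρ) ^ 2 + (dy (dx u) z / ρ) ^ 2 := by
      funext z
      obtain ⟨e1, e2, e3⟩ := cz_dx_aof (ρ := ρ) hu2 z
      rw [e1, e2, e3]
    rw [e1]
    exact (((cv.add (c1.div_const ρ)).pow 2).add ((cw.add (c2.div_const ρ)).pow 2)).add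
      ((c2.div_const ρ).pow 2)
  refine (cz_box_le ec (fun z => by positivity) hR hK).trans ?_
  have j1 : IntegrableOn (fun z => 2 * dx u z ^ 2) (bQ K) := cz_intOn (continuous_const.mul (cv.pow 2)) K
  have j2 : IntegrableOn (fun z => 2 * dy u z ^ 2) (bQ K) := cz_intOn (continuous_const.mul (cw.pow 2)) K
  have j3 : IntegrableOn (fun z => 2 * c * dx (dx u) z ^ 2) (bQ K) :=
    cz_intOn (continuous_const.mul (c1.pow 2)) K
  have j4 : IntegrableOn (fun z => 3 * c * dy (dx u) z ^ 2) (bQ K) :=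
    cz_intOn (continuous_const.mul (c2.pow 2)) K
  have hI := setIntegral_mono (μ := volume) (s := bQ K) (cz_intOn ec K)
    (((j1.add j2).add j3).add j4) e
  refine hI.trans ?_
  rw [integral_add' ((j1.add j2).add j3) j4, integral_add' (j1.add j2) j3, integral_add' j1 j2]
  simp only [integral_const_mul]
  have k1 := mul_le_mul_of_nonneg_left a1 (show 0 ≤ 2 * c by positivity)
  have k2 := mul_le_mul_of_nonneg_left a2 (show 0 ≤ 3 * c by positivity)
  linarith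

/-- TARGET -/
theorem cross_zero {ρ : ℝ} {h ω : ℝ → ℝ} (hd : Dat ρ h ω) (C : ℝ) (φ X : ℝ → ℝ) (hφ : Wt φ)
    (hX : ContDiff ℝ 2 X) (hXs : HasCompactSupport X) (U : ℂ → ℝ) (hU : ClsS ρ h C ω U) :
    Tendsto (fun δ => Ksm ρ φ X (moll δ U)) (𝓝[>] 0) (𝓝 0) := by
  have hρ := hd.rho
  -- families
  obtain ⟨Ma, δa, hδa, hδa1, hMa, hA⟩ := grad_bdd hd C
  obtain ⟨Mb, δb, hδb, hδb1, hMb, hB⟩ := dx_bdd hd C
  have hcd : ∀ δ > 0, ContDiff ℝ (5:ℕ) (moll δ U) := fun δ hδ => moll_contDiff δ hδ U hU.loc 5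
  have hsplit : ∀ (f g : ℂ → ℝ), Continuous f → Continuous g → ∀ x0 : ℝ,
      ∫ z in box x0 (x0 + 1), (f z) ^ 2 ≤ ∫ z in box x0 (x0 + 1), (f z ^ 2 + g z ^ 2) := by
    intro f g hf hg x0
    refine setIntegral_mono ?_ ?_ fun z => ?_
    · exact (hf.pow 2).continuousOn.integrableOn_compact (cz_box_compact _ _)
    · exact ((hf.pow 2).add (hg.pow 2)).continuousOn.integrableOn_compact (cz_box_compact _ _)
    · simp only
      nlinarith [sq_nonneg (g z)]
  have hsplit' : ∀ (f g : ℂ → ℝ), Continuous f → Continuous g → ∀ x0 : ℝ,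
      ∫ z in box x0 (x0 + 1), (g z) ^ 2 ≤ ∫ z in box x0 (x0 + 1), (f z ^ 2 + g z ^ 2) := by
    intro f g hf hg x0
    refine setIntegral_mono ?_ ?_ fun z => ?_
    · exact (hg.pow 2).continuousOn.integrableOn_compact (cz_box_compact _ _)
    · exact ((hf.pow 2).add (hg.pow 2)).continuousOn.integrableOn_compact (cz_box_compact _ _)
    · simp only
      nlinarith [sq_nonneg (f z)]
  have cx : ∀ δ > 0, ContDiff ℝ (4:ℕ) (dx (moll δ U)) := fun δ hδ => cz_dx_cd (hcd δ hδ)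
  have cy : ∀ δ > 0, ContDiff ℝ (4:ℕ) (dy (moll δ U)) := fun δ hδ => cz_dy_cd (hcd δ hδ)
  have cxx : ∀ δ > 0, ContDiff ℝ (3:ℕ) (dx (dx (moll δ U))) := fun δ hδ => cz_dx_cd (cx δ hδ)
  have cyx : ∀ δ > 0, ContDiff ℝ (3:ℕ) (dy (dx (moll δ U))) := fun δ hδ => cz_dy_cd (cx δ hδ)
  obtain ⟨v, hv⟩ := cz_fam (fun u => dx u) (by tauto) hU hδa (M := Ma) (fun δ hδ x0 =>
    (hsplit _ _ (cx δ hδ.1).continuous (cy δ hδ.1).continuous x0).trans (hA U hU δ hδ x0).1)
  obtain ⟨w, hw⟩ := cz_fam (fun u => dy u) (by tauto) hU hδa (M := Ma) (fun δ hδ x0 =>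
    (hsplit' _ _ (cx δ hδ.1).continuous (cy δ hδ.1).continuous x0).trans (hA U hU δ hδ x0).1)
  obtain ⟨G1, h1⟩ := cz_fam (fun u => dx (dx u)) (by tauto) hU hδb (M := Mb) (fun δ hδ x0 =>
    (hsplit _ _ (cxx δ hδ.1).continuous (cyx δ hδ.1).continuous x0).trans ((hB U hU δ hδ).2 x0))
  obtain ⟨G2, h2⟩ := cz_fam (fun u => dy (dx u)) (by tauto) hU hδb (M := Mb) (fun δ hδ x0 =>
    (hsplit' _ _ (cxx δ hδ.1).continuous (cyx δ hδ.1).continuous x0).trans ((hB U hU δ hδ).2 x0))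
  -- vanishing of the gradient
  have hz1 : ∀ᵐ z : ℂ, v z = 0 → G1 z = 0 :=
    cz_stamp (V := fun δ => dx (moll δ U)) (e := 1) hv
      (fun δ hδ => (cx δ hδ).of_le (by norm_num)) h1
  have hz2 : ∀ᵐ z : ℂ, v z = 0 → G2 z = 0 :=
    cz_stamp (V := fun δ => dx (moll δ U)) (e := I) hv
      (fun δ hδ => (cx δ hδ).of_le (by norm_num)) h2
  -- the support of X
  obtain ⟨R, hR, hXR⟩ : ∃ R : ℝ, 0 < R ∧ ∀ x, R ≤ |x| → X x = 0 := by
    obtain ⟨r, hr⟩ := hXs.isCompact.isBounded.subset_closedBall (0:ℝ)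
    refine ⟨max r 0 + 1, by positivity, fun x hx => ?_⟩
    by_contra h0
    have h3 := hr (subset_tsupport X (Function.mem_support.2 h0))
    rw [Metric.mem_closedBall, dist_zero_right, Real.norm_eq_abs] at h3
    linarith [le_max_left r 0]
  set K := max R (2 * Real.pi) with hK
  have hRK : R ≤ K := le_max_left _ _
  have hpK : 2 * Real.pi ≤ K := le_max_right _ _
  obtain ⟨Cc, hCc, hcb⟩ := cross_bound ρ hρ φ X hφ hX R hR hXR
  obtain ⟨M, hM0, hM⟩ := cz_E1 (ρ := ρ) hU hv hw h1 h2 hRK hpK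
  obtain ⟨κ, hκ0, hκlim, hκ⟩ := moll_upper hd
  rw [Metric.tendsto_nhds]
  intro e he
  set A := (1 / ρ) * (Cc * Real.sqrt (1 + M)) + 1 with hAdef
  have hApos : 0 < A := by positivity
  set η := (e / (2 * A)) ^ 2 / 3 with hη
  have hηpos : 0 < η := by positivity
  obtain ⟨Na, hNa, HNa⟩ := hv.VR K hηpos
  obtain ⟨Nb, hNb, HNb⟩ := hv.GR h1 hz1 K hηpos
  obtain ⟨Nc, hNc, HNc⟩ := hv.GR h2 hz2 K hηpos
  set N := min Na (min Nb Nc) with hN
  have hNpos : 0 < N := lt_min hNa (lt_min hNb hNc)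
  obtain ⟨ta, hta, -, Hta⟩ := HNa N hNpos (min_le_left _ _)
  obtain ⟨tb, htb, -, Htb⟩ := HNb N hNpos ((min_le_right _ _).trans (min_le_left _ _))
  obtain ⟨tc, htc, -, Htc⟩ := HNc N hNpos ((min_le_right _ _).trans (min_le_right _ _))
  set τ := min ta (min tb tc) with hτ
  have hτpos : 0 < τ := lt_min hta (lt_min htb htc)
  have hsm : ∀ᶠ δ in 𝓝[>] (0:ℝ), ω δ + κ δ ≤ N * τ := by
    have h3 : Tendsto (fun δ => ω δ + κ δ) (𝓝[>] 0) (𝓝 0) := by
      simpa using hd.omlim.add hκlim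
    filter_upwards [h3.eventually (gt_mem_nhds (mul_pos hNpos hτpos))] with δ h4 using h4.le
  have hδ1 : ∀ᶠ δ in 𝓝[>] (0:ℝ), δ ∈ Ioc (0:ℝ) 1 := Ioc_mem_nhdsGT one_pos
  filter_upwards [Hta τ hτpos (min_le_left _ _), Htb τ hτpos ((min_le_right _ _).trans (min_le_left _ _)),
    Htc τ hτpos ((min_le_right _ _).trans (min_le_right _ _)), hsm, hδ1, hM] with δ F1 F2 F3 F4 F5 F6
  have hδ := F5.1
  have hK1 := cz_Ksm_eq φ X hU F5 (hκ C U hU δ F5) hNpos hτpos F4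
  have cv := (cx δ hδ).continuous
  have c1 := (cxx δ hδ).continuous
  have c2 := (cyx δ hδ).continuous
  have hu5 : ContDiff ℝ 5 (moll δ U) := hcd δ hδ
  have hper : ∀ z : ℂ, moll δ U (z + 2 * Real.pi * I) = moll δ U z := moll_per hU δ
  have hrper : ∀ z : ℂ, Rv N τ (dx (moll δ U)) (z + 2 * Real.pi * I) = Rv N τ (dx (moll δ U)) z := by
    intro z
    have p0 := cz_per_dx hper
    unfold Rv
    rw [p0 z, cz_per_Av p0, cz_per_Av p0]
  have hmain := hcb (moll δ U) (Rv N τ (dx (moll δ U))) hu5 (cz_R_cd hu5 hNpos τ) hper hrper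
  -- E2
  have hE2 : ∫ z in box (-R) R, (Rv N τ (dx (moll δ U)) z ^ 2 + dx (Rv N τ (dx (moll δ U))) z ^ 2 +
      dy (Rv N τ (dx (moll δ U))) z ^ 2) ≤ (e / (2 * A)) ^ 2 := by
    have e1 : (fun z => Rv N τ (dx (moll δ U)) z ^ 2 + dx (Rv N τ (dx (moll δ U))) z ^ 2 +
      dy (Rv N τ (dx (moll δ U))) z ^ 2) = fun z => Rv N τ (dx (moll δ U)) z ^ 2 +
        Rg N τ (dx (moll δ U)) (dx (dx (moll δ U))) z ^ 2 +
        Rg N τ (dx (moll δ U)) (dy (dx (moll δ U))) z ^ 2 := by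
      funext z
      obtain ⟨e2, e3⟩ := cz_R_der hu5 hNpos τ z
      rw [e2, e3]
    rw [e1]
    have j1 := cz_intOn ((cz_Rv_cont cv hNpos τ).pow 2) K
    have j2 := cz_intOn ((cz_Rg_cont cv c1 hNpos τ).pow 2) K
    have j3 := cz_intOn ((cz_Rg_cont cv c2 hNpos τ).pow 2) K
    have hcc := (((cz_Rv_cont cv hNpos τ).pow 2).add ((cz_Rg_cont cv c1 hNpos τ).pow 2)).add
      ((cz_Rg_cont cv c2 hNpos τ).pow 2)
    have hle := cz_box_le hcc (fun z => by simp only [Pi.add_apply, Pi.pow_apply]; positivity) hRK hpK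
    refine le_trans hle ?_
    rw [integral_add' (j1.add j2) j3, integral_add' j1 j2]
    have e4 : (e / (2 * A)) ^ 2 = η + η + η := by rw [hη]; ring
    rw [e4]
    exact add_le_add (add_le_add F1 F2) F3
  rw [Real.dist_eq, sub_zero, hK1, abs_mul, abs_of_pos (one_div_pos.2 hρ)]
  have s1 : Real.sqrt (1 + ∫ z in box (-R) R,
      (dx (aof ρ (moll δ U)) z ^ 2 + dy (aof ρ (moll δ U)) z ^ 2 + dx (bof ρ (moll δ U)) z ^ 2)) ≤
      Real.sqrt (1 + M) := Real.sqrt_le_sqrt (by linarith)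
  have s2 : Real.sqrt (∫ z in box (-R) R, (Rv N τ (dx (moll δ U)) z ^ 2 +
      dx (Rv N τ (dx (moll δ U))) z ^ 2 + dy (Rv N τ (dx (moll δ U))) z ^ 2)) ≤ e / (2 * A) := by
    rw [← Real.sqrt_sq (show 0 ≤ e / (2 * A) by positivity)]
    exact Real.sqrt_le_sqrt hE2
  have s3 := mul_le_mul (mul_le_mul_of_nonneg_left s1 hCc.le) s2 (Real.sqrt_nonneg _) (by positivity)
  have s4 := mul_le_mul_of_nonneg_left (hmain.trans s3) (one_div_pos.2 hρ).le
  refine lt_of_le_of_lt s4 ?_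
  have s5 : 1 / ρ * (Cc * Real.sqrt (1 + M) * (e / (2 * A))) = (A - 1) * (e / (2 * A)) := by
    rw [hAdef]; ring
  rw [s5]
  have s6 : A * (e / (2 * A)) = e / 2 := by field_simp
  have s7 : 0 < e / (2 * A) := by positivity
  nlinarith

end M_B6
end Pool.Agent.Helper758.LS
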