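import Mathlib
import Pool.Agent.Helper758.LSDefs
import Pool.Agent.Helper758.LSDefs2
import Pool.Agent.Helper758.LS_MOL

namespace Pool.Agent.Helper758.LS
open MeasureTheory Filter Topology Set Complex
open M_MOL (moll_contDiff moll_l1 moll_tendsto_l1 psid_props)
namespace M_T2T3









/-! ### helper lemmas (helper411) -/

theorem bQ_closed_h (K : ℝ) : IsClosed (bQ K) := by
  unfold bQ
  exact (isClosed_le (continuous_abs.comp Complex.continuous_re) continuous_const).inter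
    (isClosed_le (continuous_abs.comp Complex.continuous_im) continuous_const)

theorem bQ_meas_h (K : ℝ) : MeasurableSet (bQ K) := (bQ_closed_h K).measurableSet

theorem bQ_compact_h (K : ℝ) : IsCompact (bQ K) := by
  refine (isCompact_closedBall (0 : ℂ) (K + K)).of_isClosed_subset (bQ_closed_h K) fun z hz => ?_
  rw [Metric.mem_closedBall, dist_zero_right]
  exact (Complex.norm_le_abs_re_add_abs_im z).trans (add_le_add hz.1 hz.2)

theorem bQ_mono_h {K L : ℝ} (h : K ≤ L) : bQ K ⊆ bQ L :=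
  fun _ hz => ⟨hz.1.trans h, hz.2.trans h⟩

theorem bQ_of_norm_h {K : ℝ} {z : ℂ} (h : ‖z‖ ≤ K) : z ∈ bQ K :=
  ⟨(Complex.abs_re_le_norm z).trans h, (Complex.abs_im_le_norm z).trans h⟩

theorem intOn_bQ_h {f : ℂ → ℝ} (hf : LocallyIntegrable f volume) (K : ℝ) :
    IntegrableOn f (bQ K) volume := hf.integrableOn_isCompact (bQ_compact_h K)

theorem li_abs_h {f : ℂ → ℝ} (hf : LocallyIntegrable f volume) :
    LocallyIntegrable (fun z => |f z|) volume := by
  intro x
  obtain ⟨s, hs, h⟩ := hf x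
  exact ⟨s, hs, h.abs⟩

theorem li_sub_h {f g : ℂ → ℝ} (hf : LocallyIntegrable f volume)
    (hg : LocallyIntegrable g volume) : LocallyIntegrable (fun z => f z - g z) volume :=
  hf.sub hg

theorem li_shift_h {f : ℂ → ℝ} (hf : LocallyIntegrable f volume) (c : ℂ) :
    LocallyIntegrable (fun z => f (z + c)) volume := by
  intro x
  obtain ⟨s, hs, h⟩ := hf (x + c)
  refine ⟨(fun z => z + c) ⁻¹' s, ?_, ?_⟩
  · exact (continuous_id.add continuous_const).continuousAt.preimage_mem_nhds hs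
  · exact ((measurePreserving_add_right (volume : Measure ℂ) c).integrableOn_comp_preimage
      (measurableEmbedding_addRight c)).2 h

theorem shift_le_h {g : ℂ → ℝ} (hg : LocallyIntegrable g volume) (h0 : ∀ z, 0 ≤ g z)
    (K L : ℝ) (c : ℂ) (hc : ‖c‖ + K ≤ L) :
    ∫ z in bQ K, g (z + c) ≤ ∫ z in bQ L, g z := by
  have h1 := (measurePreserving_add_right (volume : Measure ℂ) c).setIntegral_preimage_emb
    (measurableEmbedding_addRight c) g {w | w - c ∈ bQ K}
  have h2 : (fun z => z + c) ⁻¹' {w | w - c ∈ bQ K} = bQ K := by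
    ext z
    simp
  rw [h2] at h1
  rw [h1]
  refine setIntegral_mono_set (intOn_bQ_h hg L) (Eventually.of_forall h0) ?_
  refine (HasSubset.Subset.eventuallyLE ?_)
  intro w hw
  have hw' : |(w - c).re| ≤ K ∧ |(w - c).im| ≤ K := hw
  rw [Complex.sub_re, Complex.sub_im] at hw'
  have a1 := Complex.abs_re_le_norm c
  have a2 := Complex.abs_im_le_norm c
  constructor
  · have := abs_add_le (w.re - c.re) c.re
    rw [sub_add_cancel] at this
    linarith [hw'.1]
  · have := abs_add_le (w.im - c.im) c.im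
    rw [sub_add_cancel] at this
    linarith [hw'.2]

/-- convolution with a kernel -/
noncomputable def cv (J u : ℂ → ℝ) (z : ℂ) : ℝ := ∫ w, J (z - w) * u w

theorem moll_eq_cv_h (δ : ℝ) (u : ℂ → ℝ) : moll δ u = cv (psid δ) u := rfl

theorem supp_h {J : ℂ → ℝ} (hc : HasCompactSupport J) : ∃ r : ℝ, 0 ≤ r ∧ ∀ x, r < ‖x‖ → J x = 0 := by
  obtain ⟨r, hr⟩ := hc.isCompact.isBounded.exists_norm_le
  refine ⟨max r 0, le_max_right _ _, fun x hx => ?_⟩
  by_contra h
  have := hr x (subset_tsupport _ h)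
  exact absurd (lt_of_le_of_lt (le_max_left r 0) hx) (not_lt.2 this)

theorem cv_int_h {J u : ℂ → ℝ} (hJ : Continuous J) (hc : HasCompactSupport J)
    (hu : LocallyIntegrable u volume) (z : ℂ) : Integrable (fun w => J (z - w) * u w) := by
  obtain ⟨r, hr0, hr⟩ := supp_h hc
  obtain ⟨B, hB⟩ := hc.exists_bound_of_continuous hJ
  have hcont : Continuous (fun w => J (z - w)) := hJ.comp (continuous_const.sub continuous_id)
  have h1 : IntegrableOn (fun w => J (z - w) * u w) (bQ (‖z‖ + r)) := by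
    refine Integrable.bdd_mul (c := B) (intOn_bQ_h hu _) hcont.aestronglyMeasurable ?_
    exact Eventually.of_forall fun w => hB _
  rw [← integrableOn_univ]
  refine h1.of_forall_diff_eq_zero MeasurableSet.univ fun w hw => ?_
  have h2 : r < ‖z - w‖ := by
    by_contra h3
    apply hw.2
    apply bQ_of_norm_h
    have : ‖w‖ ≤ ‖z‖ + ‖z - w‖ := by
      have := norm_sub_norm_le w z
      rw [norm_sub_rev] at this
      linarith
    linarith
  rw [hr _ h2, zero_mul]

theorem cv_bound_h {J u : ℂ → ℝ} (hJ : Continuous J)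
    (hu : LocallyIntegrable u volume) (z : ℂ) (r B : ℝ) (hr : ∀ x, r < ‖x‖ → J x = 0)
    (hB : ∀ x, |J x| ≤ B) : |cv J u z| ≤ B * ∫ w in bQ (‖z‖ + r), |u w| := by
  unfold cv
  have h0 : ∀ w, w ∉ bQ (‖z‖ + r) → J (z - w) = 0 := by
    intro w hw
    apply hr
    by_contra h3
    apply hw
    apply bQ_of_norm_h
    have : ‖w‖ ≤ ‖z‖ + ‖z - w‖ := by
      have := norm_sub_norm_le w z
      rw [norm_sub_rev] at this
      linarith
    linarith
  have h1 : ∫ w, J (z - w) * u w = ∫ w in bQ (‖z‖ + r), J (z - w) * u w := by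
    rw [← integral_indicator (bQ_meas_h _)]
    congr 1
    ext w
    by_cases hw : w ∈ bQ (‖z‖ + r)
    · rw [indicator_of_mem hw]
    · rw [indicator_of_notMem hw, h0 w hw, zero_mul]
  rw [h1, ← integral_const_mul]
  refine (abs_integral_le_integral_abs).trans ?_
  refine integral_mono_of_nonneg (Eventually.of_forall fun w => abs_nonneg _)
    ((intOn_bQ_h (li_abs_h hu) _).const_mul B) (Eventually.of_forall fun w => ?_)
  change |J (z - w) * u w| ≤ B * |u w|
  rw [abs_mul]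
  exact mul_le_mul_of_nonneg_right (hB _) (abs_nonneg _)

theorem cv_sub_h {J u v : ℂ → ℝ} (hJ : Continuous J) (hc : HasCompactSupport J)
    (hu : LocallyIntegrable u volume) (hv : LocallyIntegrable v volume) (z : ℂ) :
    cv J (fun w => u w - v w) z = cv J u z - cv J v z := by
  unfold cv
  rw [← integral_sub (cv_int_h hJ hc hu z) (cv_int_h hJ hc hv z)]
  congr 1
  ext w
  ring

theorem cv_tendsto_h {J : ℂ → ℝ} (hJ : Continuous J) (hc : HasCompactSupport J)
    (V : ℕ → ℂ → ℝ) (W : ℂ → ℝ)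
    (hV : ∀ n, LocallyIntegrable (V n) volume) (hW : LocallyIntegrable W volume)
    (hconv : ∀ K : ℝ, Tendsto (fun n => ∫ z in bQ K, |V n z - W z|) atTop (𝓝 0)) (z : ℂ) :
    Tendsto (fun n => cv J (V n) z) atTop (𝓝 (cv J W z)) := by
  obtain ⟨r, hr0, hr⟩ := supp_h hc
  obtain ⟨B, hB⟩ := hc.exists_bound_of_continuous hJ
  rw [tendsto_iff_norm_sub_tendsto_zero]
  have h1 : Tendsto (fun n => B * ∫ w in bQ (‖z‖ + r), |V n w - W w|) atTop (𝓝 0) := by
    have := (hconv (‖z‖ + r)).const_mul B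
    rwa [mul_zero] at this
  refine squeeze_zero (fun n => norm_nonneg _) (fun n => ?_) h1
  rw [← cv_sub_h hJ hc (hV n) hW z]
  exact cv_bound_h hJ (li_sub_h (hV n) hW) z r B hr hB

open scoped Convolution in
theorem cv_fderiv_h {J u : ℂ → ℝ} (hJ : ContDiff ℝ 1 J) (hc : HasCompactSupport J)
    (hu : LocallyIntegrable u volume) (z v : ℂ) :
    fderiv ℝ (cv J u) z v = cv (fun x => fderiv ℝ J x v) u z := by
  have h1 : cv J u = (J ⋆[ContinuousLinearMap.mul ℝ ℝ, volume] u) := by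
    ext x
    rw [convolution_eq_swap]
    rfl
  have h2 := hc.hasFDerivAt_convolution_left (ContinuousLinearMap.mul ℝ ℝ) hJ hu z
  rw [h1, h2.fderiv, convolution_eq_swap]
  have hint : Integrable (fun t => ((ContinuousLinearMap.mul ℝ ℝ).precompL ℂ)
      (fderiv ℝ J (z - t)) (u t)) := by
    have h3 := (hc.fderiv ℝ).convolutionExists_left ((ContinuousLinearMap.mul ℝ ℝ).precompL ℂ)
      (hJ.continuous_fderiv one_ne_zero) hu z
    exact (convolutionExistsAt_iff_integrable_swap).1 h3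
  rw [ContinuousLinearMap.integral_apply hint]
  unfold cv
  congr 1

theorem cs_fderiv_h {J : ℂ → ℝ} (hc : HasCompactSupport J) (v : ℂ) :
    HasCompactSupport (fun x => fderiv ℝ J x v) := by
  have := (hc.fderiv ℝ).comp_left (g := fun L : ℂ →L[ℝ] ℝ => L v) (by simp)
  exact this

theorem cd_fderiv_h {J : ℂ → ℝ} (hJ : ∀ n : ℕ, ContDiff ℝ n J) (v : ℂ) :
    ∀ n : ℕ, ContDiff ℝ n (fun x => fderiv ℝ J x v) := by
  intro n
  have h1 : ContDiff ℝ n (fderiv ℝ J) := (hJ (n+1)).fderiv_right (by norm_cast)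
  exact h1.clm_apply contDiff_const

theorem lop_cv_h {J u : ℂ → ℝ} (ρ : ℝ) (hJ : ∀ n : ℕ, ContDiff ℝ n J) (hc : HasCompactSupport J)
    (hu : LocallyIntegrable u volume) (z : ℂ) :
    Lop ρ (cv J u) z = cv (dx (dx J)) u z + 2 * ρ * cv (dx J) u z + cv (dy (dy J)) u z +
      ρ ^ 2 * cv J u z := by
  have hJ1 : ContDiff ℝ 1 J := by exact_mod_cast hJ 1
  have hx : dx (cv J u) = cv (dx J) u := by
    ext x
    exact cv_fderiv_h hJ1 hc hu x 1
  have hy : dy (cv J u) = cv (dy J) u := by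
    ext x
    exact cv_fderiv_h hJ1 hc hu x I
  have hJx : ContDiff ℝ 1 (dx J) := by exact_mod_cast cd_fderiv_h hJ 1 1
  have hJy : ContDiff ℝ 1 (dy J) := by exact_mod_cast cd_fderiv_h hJ I 1
  have hxx : dx (cv (dx J) u) = cv (dx (dx J)) u := by
    ext x
    exact cv_fderiv_h hJx (cs_fderiv_h hc 1) hu x 1
  have hyy : dy (cv (dy J) u) = cv (dy (dy J)) u := by
    ext x
    exact cv_fderiv_h hJy (cs_fderiv_h hc I) hu x I
  unfold Lop
  rw [hx, hy, hxx, hyy]

/-- TARGET 1: if `V_n → V` in `L¹_loc` then `Lop ρ (moll δ V_n) → Lop ρ (moll δ V)` and `moll δ V_n → moll δ V` pointwise -/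
theorem lop_moll_tendsto (ρ δ : ℝ) (hδ : 0 < δ) (V : ℕ → ℂ → ℝ) (W : ℂ → ℝ)
    (hV : ∀ n, LocallyIntegrable (V n) volume) (hW : LocallyIntegrable W volume)
    (hconv : ∀ K : ℝ, Tendsto (fun n => ∫ z in bQ K, |V n z - W z|) atTop (𝓝 0)) (z : ℂ) :
    Tendsto (fun n => Lop ρ (moll δ (V n)) z) atTop (𝓝 (Lop ρ (moll δ W) z)) ∧
    Tendsto (fun n => moll δ (V n) z) atTop (𝓝 (moll δ W z)) := by
  obtain ⟨hJ, hc, -, -, -, -, -⟩ := psid_props δ hδ
  have hcont : ∀ {F : ℂ → ℝ}, (∀ n : ℕ, ContDiff ℝ n F) → Continuous F := by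
    intro F hF
    exact (hF 0).continuous
  have hJx := cd_fderiv_h hJ 1
  have hJy := cd_fderiv_h hJ I
  have hJxx := cd_fderiv_h hJx 1
  have hJyy := cd_fderiv_h hJy I
  have hcx := cs_fderiv_h hc 1
  have hcy := cs_fderiv_h hc I
  have hcxx := cs_fderiv_h hcx 1
  have hcyy := cs_fderiv_h hcy I
  constructor
  · have e : ∀ u : ℂ → ℝ, LocallyIntegrable u volume → Lop ρ (moll δ u) z =
        cv (dx (dx (psid δ))) u z + 2 * ρ * cv (dx (psid δ)) u z + cv (dy (dy (psid δ))) u z +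
        ρ ^ 2 * cv (psid δ) u z := by
      intro u hu
      rw [moll_eq_cv_h]
      exact lop_cv_h ρ hJ hc hu z
    rw [e W hW]
    simp only [fun n => e (V n) (hV n)]
    refine Tendsto.add (Tendsto.add (Tendsto.add ?_ ?_) ?_) ?_
    · exact cv_tendsto_h (hcont hJxx) hcxx V W hV hW hconv z
    · exact (cv_tendsto_h (hcont hJx) hcx V W hV hW hconv z).const_mul _
    · exact cv_tendsto_h (hcont hJyy) hcyy V W hV hW hconv z
    · exact (cv_tendsto_h (hcont hJ) hc V W hV hW hconv z).const_mul _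
  · exact cv_tendsto_h (hcont hJ) hc V W hV hW hconv z

theorem moll_shift_h (δ : ℝ) (u : ℂ → ℝ) (c z : ℂ) :
    moll δ (fun w => u (w + c)) z = moll δ u (z + c) := by
  unfold moll
  have := integral_add_right_eq_self (μ := (volume : Measure ℂ))
    (fun w => psid δ (z + c - w) * u w) c
  rw [← this]
  congr 1
  ext w
  congr 2
  ring

theorem dx_shift_h (g : ℂ → ℝ) (c : ℂ) : dx (fun z => g (z + c)) = fun z => dx g (z + c) := by
  ext z
  unfold dx
  rw [fderiv_comp_add_right]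

theorem dy_shift_h (g : ℂ → ℝ) (c : ℂ) : dy (fun z => g (z + c)) = fun z => dy g (z + c) := by
  ext z
  unfold dy
  rw [fderiv_comp_add_right]

theorem lop_shift_h (ρ : ℝ) (g : ℂ → ℝ) (c z : ℂ) :
    Lop ρ (fun z => g (z + c)) z = Lop ρ g (z + c) := by
  unfold Lop
  rw [dx_shift_h, dy_shift_h, dx_shift_h, dy_shift_h]

theorem lop_moll_shift_h (ρ δ : ℝ) (u : ℂ → ℝ) (c z : ℂ) :
    Lop ρ (moll δ (fun w => u (w + c))) z = Lop ρ (moll δ u) (z + c) := by
  have : moll δ (fun w => u (w + c)) = fun z => moll δ u (z + c) := by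
    ext z
    exact moll_shift_h δ u c z
  rw [this, lop_shift_h]

theorem ae_zero_h {g : ℂ → ℝ} (hg : LocallyIntegrable g volume) (h0 : ∀ z, 0 ≤ g z)
    (h : ∀ K : ℕ, ∫ z in bQ K, g z ≤ 0) : ∀ᵐ z : ℂ, g z = 0 := by
  have h1 : ∀ K : ℕ, ∀ᵐ z ∂(volume.restrict (bQ K)), g z = 0 := by
    intro K
    have h2 : ∫ z in bQ K, g z = 0 :=
      le_antisymm (h K) (integral_nonneg h0)
    exact (integral_eq_zero_iff_of_nonneg h0 (intOn_bQ_h hg K)).1 h2
  have h3 : ∀ᵐ z : ℂ, ∀ K : ℕ, z ∈ bQ K → g z = 0 := by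
    rw [ae_all_iff]
    intro K
    exact (ae_restrict_iff' (bQ_meas_h K)).1 (h1 K)
  filter_upwards [h3] with z hz
  obtain ⟨K, hK⟩ := exists_nat_ge ‖z‖
  exact hz K (bQ_of_norm_h hK)

theorem box_closed_h (x0 x1 : ℝ) : IsClosed (box x0 x1) := by
  unfold box
  exact (isClosed_Icc.preimage Complex.continuous_re).inter
    (isClosed_Icc.preimage Complex.continuous_im)

theorem box_sub_h (x0 x1 : ℝ) : box x0 x1 ⊆ bQ (|x0| + |x1| + 7) := by
  intro z hz
  obtain ⟨⟨h1, h2⟩, h3, h4⟩ := hz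
  have hpi := Real.pi_lt_d2
  have a1 := neg_abs_le x0
  have a2 := le_abs_self x1
  have a3 := abs_nonneg x0
  have a4 := abs_nonneg x1
  constructor
  · rw [abs_le]; constructor <;> linarith
  · rw [abs_le]; constructor <;> linarith

theorem box_shift_h (g : ℂ → ℝ) (x0 x1 c : ℝ) :
    ∫ z in box x0 x1, g (z + c) = ∫ z in box (x0 + c) (x1 + c), g z := by
  have h1 := (measurePreserving_add_right (volume : Measure ℂ) (c : ℂ)).setIntegral_preimage_emb
    (measurableEmbedding_addRight (c : ℂ)) g (box (x0 + c) (x1 + c))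
  have h2 : (fun z : ℂ => z + (c : ℂ)) ⁻¹' (box (x0 + c) (x1 + c)) = box x0 x1 := by
    ext z
    simp [box]
  rw [h2] at h1
  exact h1

theorem intOn_box_h {f : ℂ → ℝ} (hf : LocallyIntegrable f volume) (x0 x1 : ℝ) :
    IntegrableOn f (box x0 x1) volume := (intOn_bQ_h hf _).mono_set (box_sub_h x0 x1)

/-- TARGET 2: limits of translates belong to the class -/
theorem limset_cls {ρ C : ℝ} {h ω : ℝ → ℝ} {P : ℂ → ℝ} (hd : Dat ρ h ω) (hP : PathOK ρ h C ω P)
    (U : ℂ → ℝ) (hU : U ∈ LimSet P) : ClsS ρ h C ω U := by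
  obtain ⟨hUl, τ, hτ, hconv⟩ := hU
  have hfl : ∀ n, LocallyIntegrable (fun z => P (z + τ n)) volume := fun n =>
    li_shift_h hP.loc _
  have hdl : ∀ n, LocallyIntegrable (fun z => |P (z + τ n) - U z|) volume := fun n =>
    li_abs_h (li_sub_h (hfl n) hUl)
  refine ⟨hUl, ?_, ?_, ?_, ?_, ?_⟩
  · -- periodicity
    obtain ⟨c, hc⟩ : ∃ c : ℂ, c = 2 * Real.pi * I := ⟨_, rfl⟩
    have hcn : ‖c‖ ≤ 7 := by
      rw [hc]
      simp only [norm_mul, Complex.norm_ofNat, Complex.norm_real, Complex.norm_I, mul_one]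
      rw [Real.norm_of_nonneg Real.pi_pos.le]
      have := Real.pi_lt_d2
      linarith
    have hUs : LocallyIntegrable (fun z => U (z + c)) volume := li_shift_h hUl c
    have hz := ae_zero_h (g := fun z => |U (z + c) - U z|) (li_abs_h (li_sub_h hUs hUl))
      (fun z => abs_nonneg _) (by
        intro K
        have hlim : Tendsto (fun n => ∫ z in bQ (K + 7), |P (z + τ n) - U z|) atTop (𝓝 0) :=
          hconv _
        have hlim2 : Tendsto (fun n => ∫ z in bQ K, |P (z + τ n) - U z|) atTop (𝓝 0) :=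
          hconv _
        have hlim3 := hlim.add hlim2
        rw [add_zero] at hlim3
        refine ge_of_tendsto' hlim3 fun n => ?_
        have h1 : ∫ z in bQ K, |P (z + c + τ n) - U (z + c)| ≤
            ∫ z in bQ (K + 7), |P (z + τ n) - U z| :=
          shift_le_h (hdl n) (fun z => abs_nonneg _) K (K + 7) c (by linarith)
        refine le_trans ?_ (add_le_add_left h1 _)
        have hi1 : IntegrableOn (fun z => |P (z + c + τ n) - U (z + c)|) (bQ K) volume :=
          intOn_bQ_h (li_shift_h (hdl n) c) _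
        have hi2 : IntegrableOn (fun z => |P (z + τ n) - U z|) (bQ K) volume :=
          intOn_bQ_h (hdl n) _
        rw [← integral_add hi1 hi2]
        refine integral_mono (intOn_bQ_h (li_abs_h (li_sub_h hUs hUl)) _) (hi1.add hi2) ?_
        intro z
        change |U (z + c) - U z| ≤ |P (z + c + τ n) - U (z + c)| + |P (z + τ n) - U z|
        have e : P (z + c + τ n) = P (z + τ n) := by
          rw [add_right_comm, hc]
          exact hP.per _
        rw [e]
        have := abs_sub_le (U (z + c)) (P (z + τ n)) (U z)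
        rw [abs_sub_comm (U (z + c)) (P (z + τ n))] at this
        exact this)
    filter_upwards [hz] with z hz1
    rw [abs_eq_zero, sub_eq_zero] at hz1
    rw [← hc]
    exact hz1
  · -- upper
    have hhc : Continuous (fun z : ℂ => h z.im) := hd.hcont.comp Complex.continuous_im
    have key : ∀ m : ℕ, ∀ᵐ z : ℂ, max (U z - h z.im - 1 / ((m : ℝ) + 1)) 0 = 0 := by
      intro m
      have hε : (0 : ℝ) < 1 / ((m : ℝ) + 1) := by positivity
      obtain ⟨X, hX⟩ := hP.upper _ hε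
      have hli : LocallyIntegrable (fun z => max (U z - h z.im - 1 / ((m : ℝ) + 1)) 0) volume := by
        have h1 : LocallyIntegrable (fun z : ℂ => U z - h z.im - 1 / ((m : ℝ) + 1)) volume :=
          (hUl.sub hhc.locallyIntegrable).sub continuous_const.locallyIntegrable
        intro x
        obtain ⟨s, hs, h2⟩ := h1 x
        exact ⟨s, hs, h2.pos_part⟩
      refine ae_zero_h hli (fun z => le_max_right _ _) fun K => ?_
      have hlim2 : Tendsto (fun n => ∫ z in bQ K, |P (z + τ n) - U z|) atTop (𝓝 0) :=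
        hconv _
      refine ge_of_tendsto hlim2 ?_
      filter_upwards [hτ.eventually_ge_atTop (X + K)] with n hn
      refine setIntegral_mono_on (intOn_bQ_h hli _) (intOn_bQ_h (hdl n) _) (bQ_meas_h _) ?_
      intro z hz
      have h3 : P (z + τ n) ≤ h z.im + 1 / ((m : ℝ) + 1) := by
        have := hX (z + τ n) (by
          rw [Complex.add_re, Complex.ofReal_re]
          have := neg_abs_le z.re
          linarith [hz.1])
        simpa using this
      refine max_le ?_ (abs_nonneg _)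
      have h4 := neg_abs_le (P (z + τ n) - U z)
      linarith
    have key2 := ae_all_iff.2 key
    filter_upwards [key2] with z hz
    refine le_of_forall_pos_le_add fun ε hε => ?_
    obtain ⟨m, hm⟩ := exists_nat_one_div_lt hε
    have h1 := le_max_left (U z - h z.im - 1 / ((m : ℝ) + 1)) 0
    rw [hz m] at h1
    linarith
  · -- l1
    intro x0
    have hlim : Tendsto (fun n => (∫ z in bQ (|x0| + |x0 + 1| + 7), |P (z + τ n) - U z|) + C)
        atTop (𝓝 (0 + C)) := (hconv _).add_const C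
    rw [zero_add] at hlim
    refine ge_of_tendsto hlim ?_
    filter_upwards [hτ.eventually_ge_atTop (-x0)] with n hn
    have h1 : ∫ z in box x0 (x0 + 1), |P (z + τ n)| ≤ C := by
      have := box_shift_h (fun z => |P z|) x0 (x0 + 1) (τ n)
      rw [this]
      have h2 := hP.l1 (x0 + τ n) (by linarith)
      have h3 : x0 + 1 + τ n = x0 + τ n + 1 := by ring
      rw [h3]
      exact h2
    have h2 : ∫ z in box x0 (x0 + 1), |P (z + τ n) - U z| ≤
        ∫ z in bQ (|x0| + |x0 + 1| + 7), |P (z + τ n) - U z| :=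
      setIntegral_mono_set (intOn_bQ_h (hdl n) _) (Eventually.of_forall fun z => abs_nonneg _)
        (HasSubset.Subset.eventuallyLE (box_sub_h _ _))
    refine le_trans ?_ (add_le_add h2 h1)
    have hi1 := intOn_box_h (hdl n) x0 (x0 + 1)
    have hi2 := intOn_box_h (li_abs_h (hfl n)) x0 (x0 + 1)
    rw [← integral_add hi1 hi2]
    refine integral_mono (intOn_box_h (li_abs_h hUl) _ _) (hi1.add hi2) ?_
    intro z
    change |U z| ≤ |P (z + τ n) - U z| + |P (z + τ n)|
    have := abs_sub_abs_le_abs_sub (U z) (P (z + τ n))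
    rw [abs_sub_comm] at this
    linarith
  · -- sub
    intro δ hδ z
    have h1 := (lop_moll_tendsto ρ δ hδ.1 (fun n z => P (z + τ n)) U hfl hUl hconv z).1
    refine ge_of_tendsto' h1 fun n => ?_
    have := lop_moll_shift_h ρ δ P (τ n) z
    rw [this]
    exact hP.sub δ hδ _
  · -- con
    intro δ hδ z hpos
    obtain ⟨h1, h2⟩ := lop_moll_tendsto ρ δ hδ.1 (fun n z => P (z + τ n)) U hfl hUl hconv z
    refine le_of_forall_pos_le_add fun ε hε => ?_
    obtain ⟨X, hX⟩ := hP.con δ hδ ε hε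
    have h3 : h z.im - ω δ - ε ≤ moll δ U z := by
      refine ge_of_tendsto h2 ?_
      filter_upwards [h1.eventually (lt_mem_nhds hpos), hτ.eventually_ge_atTop (X - z.re)]
        with n hn1 hn2
      have e1 := lop_moll_shift_h ρ δ P (τ n) z
      have e2 := moll_shift_h δ P (τ n) z
      rw [e1] at hn1
      rw [e2]
      have := hX (z + τ n) (by
        rw [Complex.add_re, Complex.ofReal_re]
        linarith) hn1
      simpa using this
    linarith

theorem moll_cont_h (δ : ℝ) (hδ : 0 < δ) (u : ℂ → ℝ) (hu : LocallyIntegrable u volume) :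
    Continuous (moll δ u) := (moll_contDiff δ hδ u hu 0).continuous

theorem tri_h {f g k : ℂ → ℝ} (hf : LocallyIntegrable f volume) (hg : LocallyIntegrable g volume)
    (hk : LocallyIntegrable k volume) (K : ℝ) :
    ∫ z in bQ K, |f z - k z| ≤ (∫ z in bQ K, |f z - g z|) + ∫ z in bQ K, |g z - k z| := by
  have hi1 := intOn_bQ_h (li_abs_h (li_sub_h hf hg)) K
  have hi2 := intOn_bQ_h (li_abs_h (li_sub_h hg hk)) K
  rw [← integral_add hi1 hi2]
  refine integral_mono (intOn_bQ_h (li_abs_h (li_sub_h hf hk)) K) (hi1.add hi2) fun z => ?_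
  exact abs_sub_le (f z) (g z) (k z)

theorem sym_h (f g : ℂ → ℝ) (K : ℝ) :
    ∫ z in bQ K, |f z - g z| = ∫ z in bQ K, |g z - f z| := by
  congr 1
  ext z
  exact abs_sub_comm _ _

/-- continuity of translations in `L¹_loc` -/
theorem trans_cont_h {U : ℂ → ℝ} (hU : LocallyIntegrable U volume) (c : ℕ → ℝ) (c0 : ℝ)
    (hc : Tendsto c atTop (𝓝 c0)) (K : ℝ) :
    Tendsto (fun n => ∫ z in bQ K, |U (z + c n) - U (z + c0)|) atTop (𝓝 0) := by
  obtain ⟨M, hM⟩ : ∃ M : ℝ, ∀ n, |c n| ≤ M := by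
    obtain ⟨M, hM⟩ := hc.norm.bddAbove_range
    exact ⟨M, fun n => hM ⟨n, rfl⟩⟩
  have hM0 : |c0| ≤ M := le_of_tendsto' hc.norm hM
  have hMn : 0 ≤ M := (abs_nonneg _).trans hM0
  rw [Metric.tendsto_atTop]
  intro ε hε
  have h1 := (moll_tendsto_l1 U hU (K + M)).eventually (gt_mem_nhds (show (0:ℝ) < ε / 4 by positivity))
  obtain ⟨δ, hδ1, hδ0⟩ := (h1.and self_mem_nhdsWithin).exists
  have hδ0' : 0 < δ := hδ0
  have hUc := moll_cont_h δ hδ0' U hU
  have hdli : LocallyIntegrable (fun z => |moll δ U z - U z|) volume :=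
    li_abs_h (li_sub_h hUc.locallyIntegrable hU)
  have hsh : ∀ t : ℝ, |t| ≤ M → ∫ z in bQ K, |moll δ U (z + t) - U (z + t)| ≤ ε / 4 := by
    intro t ht
    refine le_trans ?_ hδ1.le
    refine shift_le_h hdli (fun z => abs_nonneg _) K (K + M) t ?_
    rw [Complex.norm_real, Real.norm_eq_abs]
    linarith
  -- uniform continuity by dominated convergence
  have hlim : Tendsto (fun n => ∫ z in bQ K, |moll δ U (z + c n) - moll δ U (z + c0)|) atTop
      (𝓝 (∫ z in bQ K, (0 : ℝ))) := by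
    obtain ⟨B, hB⟩ := ((bQ_compact_h (K + M)).image hUc).isBounded.exists_norm_le
    have hB' : ∀ z ∈ bQ K, ∀ t : ℝ, |t| ≤ M → |moll δ U (z + t)| ≤ B := by
      intro z hz t ht
      refine hB _ ⟨z + t, ?_, rfl⟩
      constructor
      · have := abs_add_le z.re t
        simp only [Complex.add_re, Complex.ofReal_re]
        linarith [hz.1]
      · simp only [Complex.add_im, Complex.ofReal_im, add_zero]
        linarith [hz.2]
    refine tendsto_integral_of_dominated_convergence (fun _ => B + B) ?_ ?_ ?_ ?_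
    · intro n
      have : Continuous (fun z : ℂ => |moll δ U (z + c n) - moll δ U (z + c0)|) :=
        ((hUc.comp (continuous_id.add continuous_const)).sub
          (hUc.comp (continuous_id.add continuous_const))).abs
      exact this.aestronglyMeasurable
    · exact integrableOn_const (bQ_compact_h K).measure_lt_top.ne
    · intro n
      filter_upwards [ae_restrict_mem (bQ_meas_h K)] with z hz
      rw [Real.norm_eq_abs, abs_abs]
      refine (abs_sub _ _).trans ?_
      exact add_le_add (hB' z hz _ (hM n)) (hB' z hz _ hM0)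
    · refine Eventually.of_forall fun z => ?_
      have h3 : Tendsto (fun n => z + ((c n : ℝ) : ℂ)) atTop (𝓝 (z + (c0 : ℂ))) :=
        tendsto_const_nhds.add ((Complex.continuous_ofReal.tendsto c0).comp hc)
      have h4 := (hUc.tendsto (z + (c0 : ℂ))).comp h3
      have h5 := (h4.sub_const (moll δ U (z + c0))).abs
      rw [sub_self, abs_zero] at h5
      exact h5
  rw [integral_zero] at hlim
  obtain ⟨N, hN⟩ := Filter.eventually_atTop.1
    (hlim.eventually (gt_mem_nhds (show (0:ℝ) < ε / 4 by positivity)))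
  refine ⟨N, fun n hn => ?_⟩
  rw [Real.dist_eq, sub_zero, abs_of_nonneg (integral_nonneg fun z => abs_nonneg _)]
  have hU1 : LocallyIntegrable (fun z => U (z + c n)) volume := li_shift_h hU _
  have hU2 : LocallyIntegrable (fun z => U (z + c0)) volume := li_shift_h hU _
  have hm1 : LocallyIntegrable (fun z : ℂ => moll δ U (z + c n)) volume :=
    li_shift_h hUc.locallyIntegrable _
  have hm2 : LocallyIntegrable (fun z : ℂ => moll δ U (z + c0)) volume :=
    li_shift_h hUc.locallyIntegrable _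
  have t1 := tri_h hU1 hm1 hU2 K
  have t2 := tri_h hm1 hm2 hU2 K
  have t3 := sym_h (fun z => U (z + c n)) (fun z => moll δ U (z + c n)) K
  have t4 := hsh (c n) (hM n)
  have t5 := hsh c0 hM0
  have t6 := hN n hn
  linarith

theorem convTo_shift {P : ℂ → ℝ} (hP : LocallyIntegrable P volume) (U : ℂ → ℝ) (hU : LocallyIntegrable U volume)
    (τ : ℕ → ℝ) (h : ConvTo P τ U) (c : ℕ → ℝ) (c0 : ℝ) (hc : Tendsto c atTop (𝓝 c0)) :
    ConvTo P (fun n => τ n + c n) (fun z => U (z + c0)) := by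
  intro K
  obtain ⟨M, hM⟩ : ∃ M : ℝ, ∀ n, |c n| ≤ M := by
    obtain ⟨M, hM⟩ := hc.norm.bddAbove_range
    exact ⟨M, fun n => hM ⟨n, rfl⟩⟩
  have h1 := (h (K + M)).add (trans_cont_h hU c c0 hc K)
  rw [add_zero] at h1
  refine squeeze_zero (fun n => integral_nonneg fun z => abs_nonneg _) (fun n => ?_) h1
  have hfl : LocallyIntegrable (fun z => P (z + τ n)) volume := li_shift_h hP _
  have hl1 : LocallyIntegrable (fun z : ℂ => P (z + ((τ n + c n : ℝ) : ℂ))) volume := li_shift_h hP _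
  have hl2 : LocallyIntegrable (fun z => U (z + c n)) volume := li_shift_h hU _
  have hl3 : LocallyIntegrable (fun z => U (z + c0)) volume := li_shift_h hU _
  have t1 := tri_h hl1 hl2 hl3 K
  refine t1.trans (add_le_add_left ?_ _)
  have t2 := shift_le_h (g := fun z => |P (z + τ n) - U z|) (li_abs_h (li_sub_h hfl hU))
    (fun z => abs_nonneg _) K (K + M) (c n) (by
      rw [Complex.norm_real, Real.norm_eq_abs]
      linarith [hM n])
  refine le_trans (le_of_eq ?_) t2
  congr 1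
  ext z
  have : z + ((τ n + c n : ℝ) : ℂ) = z + c n + τ n := by
    push_cast; ring
  rw [this]

/-- TARGET 4: the limit set is invariant under real translations and closed
(NOTE by helper411: hypothesis `hP` ADDED; without it the statement is false in general) -/
theorem limset_shift {P : ℂ → ℝ} (hP : LocallyIntegrable P volume) (U : ℂ → ℝ)
    (hU : U ∈ LimSet P) (c : ℝ) :
    (fun z => U (z + c)) ∈ LimSet P := by
  obtain ⟨hUl, τ, hτ, hconv⟩ := hU
  refine ⟨li_shift_h hUl _, fun n => τ n + c, tendsto_atTop_add_const_right _ _ hτ, ?_⟩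
  exact convTo_shift hP U hUl τ hconv (fun _ => c) c tendsto_const_nhds

theorem eLp_h {g : ℂ → ℝ} {K : ℝ} (hg : IntegrableOn g (bQ K) volume) :
    eLpNorm g 1 (volume.restrict (bQ K)) = ENNReal.ofReal (∫ z in bQ K, |g z|) := by
  rw [eLpNorm_one_eq_lintegral_enorm, ← ofReal_integral_norm_eq_lintegral_enorm hg]
  rfl

theorem geo_h : ∑' i : ℕ, (2⁻¹ : ENNReal) ^ i ≠ ⊤ := by
  rw [ENNReal.tsum_geometric, ENNReal.one_sub_inv_two, inv_inv]
  exact ENNReal.ofNat_ne_top

theorem complete_h (f : ℕ → ℂ → ℝ) (hf : ∀ n, LocallyIntegrable (f n) volume)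
    (hc : ∀ K : ℕ, ∀ ε > 0, ∃ N : ℕ, ∀ n ≥ N, ∀ m ≥ N, ∫ z in bQ K, |f n z - f m z| < ε) :
    ∃ U : ℂ → ℝ, LocallyIntegrable U volume ∧
      ∀ K : ℝ, Tendsto (fun n => ∫ z in bQ K, |f n z - U z|) atTop (𝓝 0) := by
  have h1 : ∀ K : ℕ, ∃ N : ℕ, ∀ n ≥ N, ∀ m ≥ N, ∫ z in bQ K, |f n z - f m z| < (1 / 2 : ℝ) ^ K :=
    fun K => hc K _ (by positivity)
  choose N hN using h1
  obtain ⟨t, ht⟩ : ∃ t : ℕ → ℕ, ∀ K, t K = K + ∑ i ∈ Finset.range (K + 1), N i :=
    ⟨_, fun _ => rfl⟩
  have htn : ∀ K, K ≤ t K := fun K => by rw [ht]; omega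
  have htN : ∀ K n, K ≤ n → N K ≤ t n := by
    intro K n hKn
    rw [ht]
    have : N K ≤ ∑ i ∈ Finset.range (n + 1), N i :=
      Finset.single_le_sum (f := N) (fun _ _ => Nat.zero_le _) (Finset.mem_range.2 (by omega))
    omega
  have hd : ∀ n m, LocallyIntegrable (fun z => |f n z - f m z|) volume := fun n m =>
    li_abs_h (li_sub_h (hf n) (hf m))
  have hcau : ∀ K : ℕ, ∀ M n m : ℕ, M ≤ n → M ≤ m →
      eLpNorm ((fun n => f (t (n + K))) n - (fun n => f (t (n + K))) m) 1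
        (volume.restrict (bQ K)) < (2⁻¹ : ENNReal) ^ M := by
    intro K M n m hn hm
    have hi : IntegrableOn (f (t (n + K)) - f (t (m + K))) (bQ K) volume :=
      intOn_bQ_h ((hf _).sub (hf _)) _
    have e1 := eLp_h hi
    rw [e1]
    have h2 : ∫ z in bQ K, |f (t (n + K)) z - f (t (m + K)) z| < (1 / 2 : ℝ) ^ M := by
      have h3 : ∫ z in bQ K, |f (t (n + K)) z - f (t (m + K)) z| ≤
          ∫ z in bQ ((M + K : ℕ) : ℝ), |f (t (n + K)) z - f (t (m + K)) z| := by
        refine setIntegral_mono_set (intOn_bQ_h (hd _ _) _)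
          (Eventually.of_forall fun z => abs_nonneg _)
          (LE.le.eventuallyLE (bQ_mono_h (by push_cast; linarith [Nat.cast_nonneg (α := ℝ) M])))
      have h4 := hN (M + K) (t (n + K)) (htN _ _ (by omega)) (t (m + K)) (htN _ _ (by omega))
      have h5 : (1 / 2 : ℝ) ^ (M + K) ≤ (1 / 2 : ℝ) ^ M :=
        pow_le_pow_of_le_one (by norm_num) (by norm_num) (by omega)
      linarith
    have h6 : (2⁻¹ : ENNReal) ^ M = ENNReal.ofReal ((1 / 2 : ℝ) ^ M) := by
      rw [ENNReal.ofReal_pow (by norm_num)]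
      congr 1
      rw [one_div, ENNReal.ofReal_inv_of_pos (by norm_num)]
      simp
    rw [h6]
    exact (ENNReal.ofReal_lt_ofReal_iff (by positivity)).2 h2
  have hae : ∀ᵐ z : ℂ, ∃ l : ℝ, Tendsto (fun n => f (t n) z) atTop (𝓝 l) := by
    have h2 : ∀ K : ℕ, ∀ᵐ z : ℂ, z ∈ bQ K → ∃ l : ℝ, Tendsto (fun n => f (t n) z) atTop (𝓝 l) := by
      intro K
      rw [← ae_restrict_iff' (bQ_meas_h K)]
      have := Lp.ae_tendsto_of_cauchy_eLpNorm (μ := volume.restrict (bQ K))
        (f := fun n => f (t (n + K))) (p := 1)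
        (fun n => (intOn_bQ_h (hf _) _).aestronglyMeasurable) le_rfl geo_h (hcau K)
      filter_upwards [this] with z hz
      obtain ⟨l, hl⟩ := hz
      exact ⟨l, (tendsto_add_atTop_iff_nat (f := fun n => f (t n) z) K).1 hl⟩
    filter_upwards [ae_all_iff.2 h2] with z hz
    obtain ⟨K, hK⟩ := exists_nat_ge ‖z‖
    exact hz K (bQ_of_norm_h hK)
  obtain ⟨U, hUm, hU⟩ := exists_stronglyMeasurable_limit_of_tendsto_ae
    (fun n => (hf (t n)).aestronglyMeasurable) hae
  have hlim : ∀ K : ℕ, Tendsto (fun n => eLpNorm ((fun n => f (t (n + K))) n - U) 1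
      (volume.restrict (bQ K))) atTop (𝓝 0) := by
    intro K
    refine Lp.cauchy_tendsto_of_tendsto (μ := volume.restrict (bQ K))
        (f := fun n => f (t (n + K))) (p := 1)
        (fun n => (intOn_bQ_h (hf _) _).aestronglyMeasurable) U geo_h (hcau K) ?_
    have := ae_restrict_of_ae (s := bQ K) hU
    filter_upwards [this] with z hz
    exact (tendsto_add_atTop_iff_nat (f := fun n => f (t n) z) K).2 hz
  have hUi : ∀ K : ℕ, IntegrableOn U (bQ K) volume := by
    intro K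
    obtain ⟨n, hn⟩ := ((hlim K).eventually (gt_mem_nhds (show (0 : ENNReal) < 1 by norm_num))).exists
    have h2 : IntegrableOn (f (t (n + K)) - U) (bQ K) volume := by
      refine memLp_one_iff_integrable.1 ⟨?_, lt_trans hn ENNReal.one_lt_top⟩
      exact (intOn_bQ_h (hf _) _).aestronglyMeasurable.sub hUm.aestronglyMeasurable
    have h3 := (intOn_bQ_h (hf (t (n + K))) K).sub h2
    refine h3.congr (Eventually.of_forall fun z => ?_)
    simp
  have hUl : LocallyIntegrable U volume := by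
    intro x
    obtain ⟨K, hK⟩ := exists_nat_gt ‖x‖
    refine ⟨bQ K, ?_, hUi K⟩
    have : Metric.ball (0 : ℂ) K ∈ 𝓝 x := Metric.isOpen_ball.mem_nhds (by simpa using hK)
    refine Filter.mem_of_superset this fun y hy => bQ_of_norm_h ?_
    simpa using (le_of_lt (by simpa using hy : ‖y‖ < K))
  refine ⟨U, hUl, ?_⟩
  have hlim2 : ∀ K : ℕ, Tendsto (fun n => ∫ z in bQ K, |f (t n) z - U z|) atTop (𝓝 0) := by
    intro K
    rw [← tendsto_add_atTop_iff_nat K]
    have h2 := (ENNReal.tendsto_toReal (ENNReal.zero_ne_top)).comp (hlim K)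
    rw [ENNReal.toReal_zero] at h2
    refine h2.congr fun n => ?_
    change (eLpNorm (f (t (n + K)) - U) 1 (volume.restrict (bQ K))).toReal = _
    have hi : IntegrableOn (f (t (n + K)) - U) (bQ K) volume :=
      intOn_bQ_h ((hf _).sub hUl) _
    rw [eLp_h hi, ENNReal.toReal_ofReal (integral_nonneg fun z => abs_nonneg _)]
    rfl
  intro K
  obtain ⟨k, hk⟩ := exists_nat_ge K
  have hmono : ∀ n, ∫ z in bQ K, |f n z - U z| ≤ ∫ z in bQ k, |f n z - U z| := by
    intro n
    exact setIntegral_mono_set (intOn_bQ_h (li_abs_h (li_sub_h (hf n) hUl)) _)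
      (Eventually.of_forall fun z => abs_nonneg _) (LE.le.eventuallyLE (bQ_mono_h hk))
  rw [Metric.tendsto_atTop]
  intro ε hε
  obtain ⟨N1, hN1⟩ := hc k (ε / 2) (by positivity)
  obtain ⟨N2, hN2⟩ := Filter.eventually_atTop.1
    ((hlim2 k).eventually (gt_mem_nhds (show (0:ℝ) < ε / 2 by positivity)))
  refine ⟨max N1 N2, fun n hn => ?_⟩
  rw [Real.dist_eq, sub_zero, abs_of_nonneg (integral_nonneg fun z => abs_nonneg _)]
  have a1 := hN1 n (le_trans (le_max_left _ _) hn) (t n)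
    (le_trans (le_trans (le_max_left _ _) hn) (htn n))
  have a2 := hN2 n (le_trans (le_max_right _ _) hn)
  have a3 := tri_h (hf n) (hf (t n)) hUl k
  linarith [hmono n]

theorem cv_lip_h {J u : ℂ → ℝ} (hJ : Continuous J) (hc : HasCompactSupport J)
    (hu : LocallyIntegrable u volume) (z z' : ℂ) (R r L : ℝ) (hr : ∀ x, r < ‖x‖ → J x = 0)
    (hL : ∀ a b, |J a - J b| ≤ L * ‖a - b‖) (hz : ‖z‖ ≤ R) (hz' : ‖z'‖ ≤ R) :
    |cv J u z - cv J u z'| ≤ L * ‖z - z'‖ * ∫ w in bQ (R + r), |u w| := by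
  unfold cv
  have h0 : ∀ x : ℂ, ‖x‖ ≤ R → ∀ w, w ∉ bQ (R + r) → J (x - w) = 0 := by
    intro x hx w hw
    apply hr
    by_contra h3
    apply hw
    apply bQ_of_norm_h
    have : ‖w‖ ≤ ‖x‖ + ‖x - w‖ := by
      have := norm_sub_norm_le w x
      rw [norm_sub_rev] at this
      linarith
    linarith
  rw [← integral_sub (cv_int_h hJ hc hu z) (cv_int_h hJ hc hu z')]
  have h1 : ∫ w, (J (z - w) * u w - J (z' - w) * u w) =
      ∫ w in bQ (R + r), (J (z - w) * u w - J (z' - w) * u w) := by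
    rw [← integral_indicator (bQ_meas_h _)]
    congr 1
    ext w
    by_cases hw : w ∈ bQ (R + r)
    · rw [indicator_of_mem hw]
    · rw [indicator_of_notMem hw, h0 z hz w hw, h0 z' hz' w hw]
      ring
  rw [h1, ← integral_const_mul]
  refine (abs_integral_le_integral_abs).trans ?_
  refine integral_mono_of_nonneg (Eventually.of_forall fun w => abs_nonneg _)
    ((intOn_bQ_h (li_abs_h hu) _).const_mul _) (Eventually.of_forall fun w => ?_)
  change |J (z - w) * u w - J (z' - w) * u w| ≤ L * ‖z - z'‖ * |u w|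
  rw [← sub_mul, abs_mul]
  refine mul_le_mul_of_nonneg_right ?_ (abs_nonneg _)
  have := hL (z - w) (z' - w)
  rwa [sub_sub_sub_cancel_right] at this

theorem compact_h (f : ℕ → ℂ → ℝ) (hf : ∀ n, LocallyIntegrable (f n) volume)
    (H1 : ∀ R : ℝ, ∃ M : ℝ, ∀ n, ∫ z in bQ R, |f n z| ≤ M)
    (H2 : ∀ R : ℝ, ∀ ε > 0, ∃ j N : ℕ, ∀ n ≥ N,
      ∫ z in bQ R, |moll (1 / ((j : ℝ) + 1)) (f n) z - f n z| < ε) :
    ∃ (s : ℕ → ℕ) (U : ℂ → ℝ), StrictMono s ∧ LocallyIntegrable U volume ∧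
      ∀ K : ℝ, Tendsto (fun n => ∫ z in bQ K, |f (s n) z - U z|) atTop (𝓝 0) := by
  have hδ : ∀ j : ℕ, (0 : ℝ) < 1 / ((j : ℝ) + 1) := fun j => by positivity
  -- bounds
  have hbd : ∀ (j : ℕ) (R : ℝ), ∃ b : ℝ, 0 ≤ b ∧ ∀ n z, ‖z‖ ≤ R →
      |moll (1 / ((j : ℝ) + 1)) (f n) z| ≤ b := by
    intro j R
    obtain ⟨hJ, hc, -, -, -, -, -⟩ := psid_props _ (hδ j)
    have hJc : Continuous (psid (1 / ((j : ℝ) + 1))) := (hJ 0).continuous
    obtain ⟨r, hr0, hr⟩ := supp_h hc
    obtain ⟨B, hB⟩ := hc.exists_bound_of_continuous hJc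
    obtain ⟨M, hM⟩ := H1 (R + r)
    have hB0 : 0 ≤ B := (norm_nonneg _).trans (hB 0)
    have hM0 : 0 ≤ M := (integral_nonneg fun z => abs_nonneg _).trans (hM 0)
    refine ⟨B * M, by positivity, fun n z hz => ?_⟩
    have h1 := cv_bound_h hJc (hf n) z r B hr hB
    refine h1.trans (mul_le_mul_of_nonneg_left ?_ hB0)
    refine le_trans ?_ (hM n)
    exact setIntegral_mono_set (intOn_bQ_h (li_abs_h (hf n)) _)
      (Eventually.of_forall fun z => abs_nonneg _) (LE.le.eventuallyLE (bQ_mono_h (by linarith)))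
  have hlip : ∀ (j : ℕ) (R : ℝ), ∃ L : ℝ, 0 ≤ L ∧ ∀ n z z', ‖z‖ ≤ R → ‖z'‖ ≤ R →
      |moll (1 / ((j : ℝ) + 1)) (f n) z - moll (1 / ((j : ℝ) + 1)) (f n) z'| ≤ L * ‖z - z'‖ := by
    intro j R
    obtain ⟨hJ, hc, -, -, -, -, -⟩ := psid_props _ (hδ j)
    have hJc : Continuous (psid (1 / ((j : ℝ) + 1))) := (hJ 0).continuous
    obtain ⟨r, hr0, hr⟩ := supp_h hc
    obtain ⟨C, hC⟩ := ContDiff.lipschitzWith_of_hasCompactSupport hc (hJ 1) (by norm_num)
    obtain ⟨M, hM⟩ := H1 (R + r)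
    have hM0 : 0 ≤ M := (integral_nonneg fun z => abs_nonneg _).trans (hM 0)
    refine ⟨C * M, by positivity, fun n z z' hz hz' => ?_⟩
    have h1 := cv_lip_h hJc hc (hf n) z z' R r C hr (fun a b => by
      have := hC.dist_le_mul a b
      rw [Real.dist_eq, dist_eq_norm] at this
      exact this) hz hz'
    refine h1.trans ?_
    have h2 : (C : ℝ) * ‖z - z'‖ * ∫ w in bQ (R + r), |f n w| ≤ (C : ℝ) * ‖z - z'‖ * M :=
      mul_le_mul_of_nonneg_left (hM n) (by positivity)
    linarith [h2, mul_right_comm (C : ℝ) ‖z - z'‖ M]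
  -- extraction
  obtain ⟨D, hD⟩ : ∃ D : ℕ → ℂ, DenseRange D := ⟨_, TopologicalSpace.denseRange_denseSeq ℂ⟩
  have hb2 : ∀ p : ℕ × ℕ, ∃ b : ℝ, ∀ n, |moll (1 / ((p.1 : ℝ) + 1)) (f n) (D p.2)| ≤ b := by
    intro p
    obtain ⟨b, -, hb⟩ := hbd p.1 ‖D p.2‖
    exact ⟨b, fun n => hb n _ le_rfl⟩
  choose b hb using hb2
  have hcomp : IsCompact (Set.pi univ (fun p : ℕ × ℕ => Icc (-b p) (b p))) :=
    isCompact_univ_pi fun p => isCompact_Icc
  obtain ⟨a, -, s, hs, hlim⟩ := hcomp.tendsto_subseq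
    (x := fun n => fun p : ℕ × ℕ => moll (1 / ((p.1 : ℝ) + 1)) (f n) (D p.2))
    (fun n => fun p _ => abs_le.1 (hb p n))
  rw [tendsto_pi_nhds] at hlim
  -- pointwise Cauchy
  have hpt : ∀ (j : ℕ) (z : ℂ), CauchySeq (fun n => moll (1 / ((j : ℝ) + 1)) (f (s n)) z) := by
    intro j z
    obtain ⟨L, hL0, hL⟩ := hlip j (‖z‖ + 1)
    rw [Metric.cauchySeq_iff']
    intro ε hε
    obtain ⟨k, hk⟩ := hD.exists_dist_lt z (show 0 < min 1 (ε / (4 * (L + 1))) by positivity)
    have hk1 : ‖z - D k‖ < 1 := by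
      rw [← dist_eq_norm]; exact lt_of_lt_of_le hk (min_le_left _ _)
    have hk2 : ‖z - D k‖ < ε / (4 * (L + 1)) := by
      rw [← dist_eq_norm]; exact lt_of_lt_of_le hk (min_le_right _ _)
    have hDk : ‖D k‖ ≤ ‖z‖ + 1 := by
      have := norm_sub_norm_le (D k) z
      rw [norm_sub_rev] at this
      linarith
    have hc1 : ∀ n, |moll (1 / ((j : ℝ) + 1)) (f (s n)) z -
        moll (1 / ((j : ℝ) + 1)) (f (s n)) (D k)| < ε / 4 := by
      intro n
      refine lt_of_le_of_lt (hL (s n) z (D k) (by linarith) hDk) ?_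
      have h3 : L * ‖z - D k‖ ≤ (L + 1) * ‖z - D k‖ :=
        mul_le_mul_of_nonneg_right (by linarith) (norm_nonneg _)
      have h4 : (L + 1) * ‖z - D k‖ < (L + 1) * (ε / (4 * (L + 1))) :=
        mul_lt_mul_of_pos_left hk2 (by linarith)
      have h5 : (L + 1) * (ε / (4 * (L + 1))) = ε / 4 := by
        field_simp
      linarith
    have hc2 : CauchySeq (fun n => moll (1 / ((j : ℝ) + 1)) (f (s n)) (D k)) :=
      (hlim (j, k)).cauchySeq
    rw [Metric.cauchySeq_iff'] at hc2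
    obtain ⟨N, hN⟩ := hc2 (ε / 4) (by positivity)
    refine ⟨N, fun n hn => ?_⟩
    have h6 := hN n hn
    rw [Real.dist_eq] at h6 ⊢
    have h7 := hc1 n
    have h8 := hc1 N
    rw [abs_lt] at h6 h7 h8 ⊢
    constructor <;> linarith [h6.1, h6.2, h7.1, h7.2, h8.1, h8.2]
  -- L1 Cauchy of the mollifications
  have hL1 : ∀ (j : ℕ) (K : ℝ), Tendsto (fun p : ℕ × ℕ =>
      ∫ z in bQ K, |moll (1 / ((j : ℝ) + 1)) (f (s p.1)) z -
        moll (1 / ((j : ℝ) + 1)) (f (s p.2)) z|) atTop (𝓝 0) := by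
    intro j K
    obtain ⟨B, hB0, hB⟩ := hbd j (K + K)
    have h0 : Tendsto (fun p : ℕ × ℕ =>
      ∫ z in bQ K, |moll (1 / ((j : ℝ) + 1)) (f (s p.1)) z -
        moll (1 / ((j : ℝ) + 1)) (f (s p.2)) z|) atTop (𝓝 (∫ z in bQ K, (0 : ℝ))) := by
      refine tendsto_integral_filter_of_dominated_convergence (fun _ => B + B) ?_ ?_ ?_ ?_
      · refine Eventually.of_forall fun p => ?_
        exact (((moll_cont_h _ (hδ j) _ (hf _)).sub
          (moll_cont_h _ (hδ j) _ (hf _))).abs).aestronglyMeasurable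
      · refine Eventually.of_forall fun p => ?_
        filter_upwards [ae_restrict_mem (bQ_meas_h K)] with z hz
        have hzn : ‖z‖ ≤ K + K :=
          (Complex.norm_le_abs_re_add_abs_im z).trans (add_le_add hz.1 hz.2)
        rw [Real.norm_eq_abs, abs_abs]
        exact (abs_sub _ _).trans (add_le_add (hB _ _ hzn) (hB _ _ hzn))
      · exact integrableOn_const (bQ_compact_h K).measure_lt_top.ne
      · refine Eventually.of_forall fun z => ?_
        exact cauchySeq_iff_tendsto_dist_atTop_0.1 (hpt j z)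
    rw [integral_zero] at h0
    exact h0
  obtain ⟨U, hUl, hU⟩ := complete_h (fun n => f (s n)) (fun n => hf _) (by
    intro K ε hε
    obtain ⟨j, N, hN⟩ := H2 K (ε / 4) (by positivity)
    have h1 := (hL1 j K).eventually (gt_mem_nhds (show (0:ℝ) < ε / 4 by positivity))
    obtain ⟨⟨N1, N2⟩, hN12⟩ := Filter.eventually_atTop.1 h1
    refine ⟨max N (max N1 N2), fun n hn m hm => ?_⟩
    have hnN : N ≤ n := (le_max_left _ _).trans hn
    have hmN : N ≤ m := (le_max_left _ _).trans hm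
    have hnN1 : N1 ≤ n := (le_max_left _ _).trans ((le_max_right _ _).trans hn)
    have hmN2 : N2 ≤ m := (le_max_right _ _).trans ((le_max_right _ _).trans hm)
    have a1 := hN (s n) (hnN.trans (hs.id_le n))
    have a2 := hN (s m) (hmN.trans (hs.id_le m))
    have a3 := hN12 (n, m) ⟨hnN1, hmN2⟩
    have l1 : LocallyIntegrable (moll (1 / ((j : ℝ) + 1)) (f (s n))) volume :=
      (moll_cont_h _ (hδ j) _ (hf _)).locallyIntegrable
    have l2 : LocallyIntegrable (moll (1 / ((j : ℝ) + 1)) (f (s m))) volume :=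
      (moll_cont_h _ (hδ j) _ (hf _)).locallyIntegrable
    have b1 := tri_h (hf (s n)) l1 (hf (s m)) K
    have b2 := tri_h l1 l2 (hf (s m)) K
    have b3 := sym_h (f (s n)) (moll (1 / ((j : ℝ) + 1)) (f (s n))) K
    change ∫ z in bQ K, |f (s n) z - f (s m) z| < ε
    linarith)
  exact ⟨s, U, hs, hUl, hU⟩

theorem cover_h {g : ℂ → ℝ} (hg : LocallyIntegrable g volume) (h0 : ∀ z, 0 ≤ g z)
    (hper : ∀ z : ℂ, g (z + 2 * Real.pi * I) = g z) (X c : ℝ)
    (hbox : ∀ x0 : ℝ, X ≤ x0 → ∫ z in box x0 (x0 + 1), g z ≤ c) (K : ℝ) (m : ℕ) (hm : K < m)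
    (t : ℝ) (ht : X ≤ t - m) : ∫ z in bQ K, g (z + t) ≤ ((2 * m) ^ 2 : ℕ) * c := by
  have hpi := Real.pi_pos
  have hpi2 : (1 : ℝ) < 2 * Real.pi := by linarith [Real.pi_gt_three]
  have hperiod : ∀ (k : ℤ) (z : ℂ), g (z + k * (2 * Real.pi * I)) = g z := by
    intro k z
    have hp : Function.Periodic g (2 * Real.pi * I) := hper
    exact (hp.int_mul k) z
  obtain ⟨B, hB⟩ : ∃ B : ℕ × ℕ → Set ℂ, ∀ p, B p = (fun z : ℂ => z + ((t : ℂ) -
      ((-(m:ℤ) + (p.2 : ℤ) : ℤ) : ℂ) * (2 * Real.pi * I))) ⁻¹' (box (t - m + p.1) (t - m + p.1 + 1)) :=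
    ⟨_, fun _ => rfl⟩
  have hGl : LocallyIntegrable (fun z => g (z + t)) volume := li_shift_h hg _
  have hBint : ∀ p : ℕ × ℕ, ∫ z in B p, g (z + t) ≤ c := by
    intro p
    have h1 := (measurePreserving_add_right (volume : Measure ℂ) ((t : ℂ) -
      ((-(m:ℤ) + (p.2 : ℤ) : ℤ) : ℂ) * (2 * Real.pi * I))).setIntegral_preimage_emb
      (measurableEmbedding_addRight _) g (box (t - m + p.1) (t - m + p.1 + 1))
    rw [← hB] at h1
    have h2 : ∫ z in B p, g (z + t) = ∫ z in B p, g (z + ((t : ℂ) -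
      ((-(m:ℤ) + (p.2 : ℤ) : ℤ) : ℂ) * (2 * Real.pi * I))) := by
      congr 1
      ext z
      have := hperiod (-(m:ℤ) + (p.2 : ℤ)) (z + ((t : ℂ) -
      ((-(m:ℤ) + (p.2 : ℤ) : ℤ) : ℂ) * (2 * Real.pi * I)))
      rw [← this]
      congr 1
      ring
    rw [h2, h1]
    exact hbox _ (by
      have : (0 : ℝ) ≤ p.1 := Nat.cast_nonneg _
      linarith)
  have hBmeas : ∀ p, MeasurableSet (B p) := by
    intro p
    rw [hB]
    exact ((box_closed_h _ _).preimage (continuous_id.add continuous_const)).measurableSet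
  have hBsub : ∀ p, IntegrableOn (fun z => g (z + t)) (B p) volume := by
    intro p
    refine hGl.integrableOn_isCompact ?_
    rw [hB]
    have hcb : IsCompact (box (t - m + p.1) (t - m + p.1 + 1)) :=
      (bQ_compact_h _).of_isClosed_subset (box_closed_h _ _) (box_sub_h _ _)
    exact (Homeomorph.addRight ((t : ℂ) -
      ((-(m:ℤ) + (p.2 : ℤ) : ℤ) : ℂ) * (2 * Real.pi * I))).isClosedEmbedding.isCompact_preimage hcb
  obtain ⟨S, hS⟩ : ∃ S : Finset (ℕ × ℕ), S = Finset.range (2 * m) ×ˢ Finset.range (2 * m) := ⟨_, rfl⟩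
  have hcov : ∀ z ∈ bQ K, ∃ p ∈ S, z ∈ B p := by
    intro z hz
    obtain ⟨hz1, hz2⟩ := hz
    rw [abs_le] at hz1 hz2
    have a1 : 0 ≤ z.re + m := by linarith
    have hKm : 0 ≤ K := by linarith
    have a2 : 0 ≤ z.im / (2 * Real.pi) + m := by
      have : -K ≤ z.im / (2 * Real.pi) := by
        rw [le_div_iff₀ (by positivity)]
        nlinarith
      linarith
    have a3 : z.im / (2 * Real.pi) < m := by
      rw [div_lt_iff₀ (by positivity)]
      nlinarith
    refine ⟨(⌊z.re + m⌋₊, ⌊z.im / (2 * Real.pi) + m⌋₊), ?_, ?_⟩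
    · rw [hS, Finset.mem_product, Finset.mem_range, Finset.mem_range]
      constructor
      · rw [Nat.floor_lt a1]
        push_cast
        linarith
      · rw [Nat.floor_lt a2]
        push_cast
        linarith
    · rw [hB]
      have b1 := Nat.floor_le a1
      have b2 := Nat.lt_floor_add_one (z.re + m)
      have b3 := Nat.floor_le a2
      have b4 := Nat.lt_floor_add_one (z.im / (2 * Real.pi) + m)
      obtain ⟨j, hj⟩ : ∃ j : ℕ, j = ⌊z.im / (2 * Real.pi) + m⌋₊ := ⟨_, rfl⟩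
      obtain ⟨i, hi⟩ : ∃ i : ℕ, i = ⌊z.re + m⌋₊ := ⟨_, rfl⟩
      rw [← hj] at b3 b4 ⊢
      rw [← hi] at b1 b2 ⊢
      have e0 : ((((-(m:ℤ) + ((i, j) : ℕ × ℕ).2 : ℤ) : ℂ) * (2 * Real.pi * I))) =
        ((((-(m:ℝ) + (j : ℝ)) * (2 * Real.pi) : ℝ) : ℂ)) * I := by
        push_cast; ring
      have b5 : ((j : ℝ) - m) * (2 * Real.pi) ≤ z.im := by
        have : (j : ℝ) - m ≤ z.im / (2 * Real.pi) := by linarith
        rwa [le_div_iff₀ (by positivity)] at this
      have b6 : z.im ≤ ((j : ℝ) - m + 1) * (2 * Real.pi) := by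
        have : z.im / (2 * Real.pi) ≤ (j : ℝ) - m + 1 := by linarith
        rwa [div_le_iff₀ (by positivity)] at this
      change (z + ((t : ℂ) - ((-(m:ℤ) + (((i, j) : ℕ × ℕ).2 : ℤ) : ℤ) : ℂ) * (2 * Real.pi * I))) ∈
        box (t - m + (((i, j) : ℕ × ℕ).1 : ℝ)) (t - m + (((i, j) : ℕ × ℕ).1 : ℝ) + 1)
      rw [e0]
      refine ⟨⟨?_, ?_⟩, ⟨?_, ?_⟩⟩
      · simp only [Complex.add_re, Complex.sub_re, Complex.ofReal_re, Complex.mul_re, Complex.I_re,
          Complex.I_im, Complex.ofReal_im]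
        linarith
      · simp only [Complex.add_re, Complex.sub_re, Complex.ofReal_re, Complex.mul_re, Complex.I_re,
          Complex.I_im, Complex.ofReal_im]
        linarith
      · simp only [Complex.add_im, Complex.sub_im, Complex.ofReal_re, Complex.mul_im, Complex.I_re,
          Complex.I_im, Complex.ofReal_im]
        linarith
      · simp only [Complex.add_im, Complex.sub_im, Complex.ofReal_re, Complex.mul_im, Complex.I_re,
          Complex.I_im, Complex.ofReal_im]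
        linarith
  have h1 : ∫ z in bQ K, g (z + t) ≤ ∑ p ∈ S, ∫ z in B p, g (z + t) := by
    rw [← integral_indicator (bQ_meas_h K)]
    have e : ∀ p, ∫ z in B p, g (z + t) = ∫ z, (B p).indicator (fun z => g (z + t)) z :=
      fun p => (integral_indicator (hBmeas p)).symm
    simp only [e]
    rw [← integral_finset_sum S (fun p _ => (integrable_indicator_iff (hBmeas p)).2 (hBsub p))]
    refine integral_mono ((integrable_indicator_iff (bQ_meas_h K)).2 (intOn_bQ_h hGl K))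
      (integrable_finset_sum S fun p _ => (integrable_indicator_iff (hBmeas p)).2 (hBsub p)) ?_
    intro z
    have hnn : ∀ p ∈ S, 0 ≤ (B p).indicator (fun z => g (z + t)) z :=
      fun p _ => indicator_nonneg (fun _ _ => h0 _) _
    by_cases hz : z ∈ bQ K
    · obtain ⟨p, hp, hpz⟩ := hcov z hz
      have := Finset.single_le_sum hnn hp
      beta_reduce
      rw [indicator_of_mem hz]
      rw [indicator_of_mem hpz] at this
      exact this
    · beta_reduce
      rw [indicator_of_notMem hz]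
      exact Finset.sum_nonneg hnn
  refine h1.trans ((Finset.sum_le_sum fun p _ => hBint p).trans (le_of_eq ?_))
  rw [Finset.sum_const, nsmul_eq_mul, hS, Finset.card_product, Finset.card_range]
  congr 2
  ring

/-- TARGET 3: compactness -/
theorem path_compact {ρ C : ℝ} {h ω : ℝ → ℝ} {P : ℂ → ℝ} (hd : Dat ρ h ω) (hP : PathOK ρ h C ω P)
    (τ : ℕ → ℝ) (hτ : Tendsto τ atTop atTop) :
    ∃ (s : ℕ → ℕ) (U : ℂ → ℝ), StrictMono s ∧ LocallyIntegrable U volume ∧ ConvTo P (τ ∘ s) U := by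
  have hfl : ∀ n, LocallyIntegrable (fun z => P (z + τ n)) volume := fun n =>
    li_shift_h hP.loc _
  have hmper : ∀ (δ : ℝ) (z : ℂ), moll δ P (z + 2 * Real.pi * I) = moll δ P z := by
    intro δ z
    rw [← moll_shift_h]
    congr 1
    ext w
    exact hP.per w
  obtain ⟨κ, hκ, hunif⟩ := hP.unif
  obtain ⟨s, U, hs, hUl, hU⟩ := compact_h (fun n z => P (z + τ n)) hfl (by
    intro R
    obtain ⟨m, hm⟩ := exists_nat_gt R
    have h1 : ∀ᶠ n in atTop, ∫ z in bQ R, |P (z + τ n)| ≤ ((2 * m) ^ 2 : ℕ) * C := by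
      filter_upwards [hτ.eventually_ge_atTop (m : ℝ)] with n hn
      exact cover_h (g := fun z => |P z|) (li_abs_h hP.loc) (fun z => abs_nonneg _)
        (fun z => by rw [hP.per]) 0 C hP.l1 R m hm (τ n) (by linarith)
    obtain ⟨N, hN⟩ := Filter.eventually_atTop.1 h1
    obtain ⟨M, hM⟩ : ∃ M : ℝ, ∀ n ∈ Finset.range N, ∫ z in bQ R, |P (z + τ n)| ≤ M := by
      obtain ⟨M, hM⟩ := ((Finset.range N).image (fun n => ∫ z in bQ R, |P (z + τ n)|)).bddAbove
      exact ⟨M, fun n hn => hM (Finset.mem_coe.2 (Finset.mem_image_of_mem _ hn))⟩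
    refine ⟨max M (((2 * m) ^ 2 : ℕ) * C), fun n => ?_⟩
    by_cases hn : n < N
    · exact (hM n (Finset.mem_range.2 hn)).trans (le_max_left _ _)
    · exact (hN n (not_lt.1 hn)).trans (le_max_right _ _)) (by
    intro R ε hε
    obtain ⟨m, hm⟩ := exists_nat_gt R
    obtain ⟨A, hA⟩ : ∃ A : ℝ, A = ((2 * m) ^ 2 : ℕ) := ⟨_, rfl⟩
    have hA0 : 0 ≤ A := by rw [hA]; positivity
    have hδlim : Tendsto (fun j : ℕ => 1 / ((j : ℝ) + 1)) atTop (𝓝[>] 0) := by
      refine tendsto_nhdsWithin_iff.2 ⟨tendsto_one_div_add_atTop_nhds_zero_nat, ?_⟩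
      exact Eventually.of_forall fun j => by
        change (0 : ℝ) < 1 / ((j : ℝ) + 1)
        positivity
    obtain ⟨j, hj⟩ := ((hκ.comp hδlim).eventually
      (gt_mem_nhds (show (0 : ℝ) < ε / (A + 1) by positivity))).exists
    have hj' : κ (1 / ((j : ℝ) + 1)) < ε / (A + 1) := hj
    have hδ : (1 / ((j : ℝ) + 1)) ∈ Ioc (0 : ℝ) 1 := by
      refine ⟨by positivity, ?_⟩
      rw [div_le_one (by positivity)]
      linarith [Nat.cast_nonneg (α := ℝ) j]
    have hml : LocallyIntegrable (moll (1 / ((j : ℝ) + 1)) P) volume :=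
      (moll_cont_h _ hδ.1 _ hP.loc).locallyIntegrable
    have h1 : ∀ᶠ n in atTop, ∫ z in bQ R, |moll (1 / ((j : ℝ) + 1)) P (z + τ n) - P (z + τ n)| ≤
        ((2 * m) ^ 2 : ℕ) * κ (1 / ((j : ℝ) + 1)) := by
      filter_upwards [hτ.eventually_ge_atTop (1 + m : ℝ)] with n hn
      exact cover_h (g := fun z => |moll (1 / ((j : ℝ) + 1)) P z - P z|)
        (li_abs_h (li_sub_h hml hP.loc)) (fun z => abs_nonneg _)
        (fun z => by rw [hP.per, hmper]) 1 _ (hunif _ hδ) R m hm (τ n) (by linarith)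
    obtain ⟨N, hN⟩ := Filter.eventually_atTop.1 h1
    refine ⟨j, N, fun n hn => ?_⟩
    have h2 := hN n hn
    have e : ∀ z, moll (1 / ((j : ℝ) + 1)) (fun z => P (z + τ n)) z =
        moll (1 / ((j : ℝ) + 1)) P (z + τ n) := fun z => moll_shift_h _ P _ z
    simp only [e]
    refine lt_of_le_of_lt h2 ?_
    rw [← hA]
    have hκ0 : A * κ (1 / ((j : ℝ) + 1)) ≤ A * (ε / (A + 1)) :=
      mul_le_mul_of_nonneg_left hj'.le hA0
    have : A * (ε / (A + 1)) < ε := by
      rw [mul_div_assoc', div_lt_iff₀ (by positivity)]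
      nlinarith
    linarith)
  exact ⟨s, U, hs, hUl, hU⟩

theorem limset_closed {ρ C : ℝ} {h ω : ℝ → ℝ} {P : ℂ → ℝ} (hd : Dat ρ h ω) (hP : PathOK ρ h C ω P)
    (V : ℕ → ℂ → ℝ) (hV : ∀ n, V n ∈ LimSet P) :
    ∃ (s : ℕ → ℕ) (U : ℂ → ℝ), StrictMono s ∧ U ∈ LimSet P ∧
      ∀ K : ℝ, Tendsto (fun n => ∫ z in bQ K, |V (s n) z - U z|) atTop (𝓝 0) := by
  have h1 : ∀ n : ℕ, ∃ T : ℝ, (n : ℝ) ≤ T ∧
      ∫ z in bQ n, |P (z + T) - V n z| < 1 / ((n : ℝ) + 1) := by
    intro n
    obtain ⟨hVl, σ, hσ, hconv⟩ := hV n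
    have h2 := (hconv n).eventually (gt_mem_nhds (show (0 : ℝ) < 1 / ((n : ℝ) + 1) by positivity))
    obtain ⟨k, hk1, hk2⟩ := (h2.and (hσ.eventually_ge_atTop (n : ℝ))).exists
    exact ⟨σ k, hk2, hk1⟩
  choose T hT1 hT2 using h1
  have hTt : Tendsto T atTop atTop := tendsto_atTop_mono hT1 tendsto_natCast_atTop_atTop
  obtain ⟨s, U, hs, hUl, hU⟩ := path_compact hd hP T hTt
  have hst : Tendsto s atTop atTop := hs.tendsto_atTop
  refine ⟨s, U, hs, ⟨hUl, T ∘ s, hTt.comp hst, hU⟩, fun K => ?_⟩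
  have hlim : Tendsto (fun n => 1 / ((s n : ℝ) + 1) + ∫ z in bQ K, |P (z + (T ∘ s) n) - U z|)
      atTop (𝓝 (0 + 0)) := by
    refine Tendsto.add ?_ (hU K)
    exact tendsto_one_div_add_atTop_nhds_zero_nat.comp hst
  rw [add_zero] at hlim
  refine squeeze_zero' (Eventually.of_forall fun n => integral_nonneg fun z => abs_nonneg _) ?_ hlim
  filter_upwards [(tendsto_natCast_atTop_atTop (R := ℝ)).comp hst |>.eventually_ge_atTop K] with n hn
  have hn' : K ≤ (s n : ℝ) := hn
  have hfl : LocallyIntegrable (fun z => P (z + T (s n))) volume := li_shift_h hP.loc _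
  have hVl := (hV (s n)).1
  have t1 := tri_h hVl hfl hUl K
  have t2 := sym_h (V (s n)) (fun z => P (z + T (s n))) K
  have t3 := hT2 (s n)
  have t4 : ∫ z in bQ K, |P (z + T (s n)) - V (s n) z| ≤
      ∫ z in bQ (s n), |P (z + T (s n)) - V (s n) z| :=
    setIntegral_mono_set (intOn_bQ_h (li_abs_h (li_sub_h hfl hVl)) _)
      (Eventually.of_forall fun z => abs_nonneg _) (LE.le.eventuallyLE (bQ_mono_h hn'))
  change _ ≤ 1 / ((s n : ℝ) + 1) + ∫ z in bQ K, |P (z + T (s n)) - U z|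
  linarith

end M_T2T3
end Pool.Agent.Helper758.LS
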