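import Mathlib
import Pool.Agent.Helper758.LSDefs
import Pool.Agent.Helper758.LSDefs2
import Pool.Agent.Helper758.LS_B1
import Pool.Agent.Helper758.LS_B2
import Pool.Agent.Helper758.LS_B4
import Pool.Agent.Helper758.LS_MOL

namespace Pool.Agent.Helper758.LS
open MeasureTheory Filter Topology Set Complex
open M_B1 (moll_bdd moll_per moll_upper)
open M_B2 (grad_bdd)
open M_B4 (dx_bdd)
open M_MOL (dx_moll_smooth dy_moll_smooth moll_add_const moll_comm moll_contDiff moll_l1 moll_symm moll_tendsto_l1 psid_props)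
namespace M_W5a



/-- GIVEN (do not prove): basic facts, proved in other jobs. -/















theorem h167_dy_cont {F : ℂ → ℝ} (hF : ContDiff ℝ 1 F) : Continuous (dy F) := by
  have h : Continuous (fderiv ℝ F) := hF.continuous_fderiv one_ne_zero
  exact h.clm_apply continuous_const

theorem h167_dx_cont {F : ℂ → ℝ} (hF : ContDiff ℝ 1 F) : Continuous (dx F) := by
  have h : Continuous (fderiv ℝ F) := hF.continuous_fderiv one_ne_zero
  exact h.clm_apply continuous_const

theorem h167_dy_smooth {F : ℂ → ℝ} {n m : WithTop ℕ∞} (hF : ContDiff ℝ n F) (h : m + 1 ≤ n) :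
    ContDiff ℝ m (dy F) :=
  (hF.fderiv_right h).clm_apply contDiff_const

theorem h167_dx_smooth {F : ℂ → ℝ} {n m : WithTop ℕ∞} (hF : ContDiff ℝ n F) (h : m + 1 ≤ n) :
    ContDiff ℝ m (dx F) :=
  (hF.fderiv_right h).clm_apply contDiff_const

theorem h167_dx_deriv {F : ℂ → ℝ} (hF : ContDiff ℝ 1 F) (s y : ℝ) :
    HasDerivAt (fun s : ℝ => F (s + y * I)) (dx F (s + y * I)) s := by
  have h1 : HasFDerivAt F (fderiv ℝ F (s + y * I)) ((s : ℂ) + y * I) :=
    ((hF.differentiable one_ne_zero) _).hasFDerivAt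
  have h2 : HasDerivAt (fun s : ℝ => (s : ℂ) + y * I) 1 s :=
    (Complex.ofRealCLM.hasDerivAt (x := s)).add_const _
  exact h1.comp_hasDerivAt s h2

theorem h167_dy_deriv {F : ℂ → ℝ} (hF : ContDiff ℝ 1 F) (s y : ℝ) :
    HasDerivAt (fun y : ℝ => F (s + y * I)) (dy F (s + y * I)) y := by
  have h1 : HasFDerivAt F (fderiv ℝ F (s + y * I)) ((s : ℂ) + y * I) :=
    ((hF.differentiable one_ne_zero) _).hasFDerivAt
  have h2 : HasDerivAt (fun y : ℝ => (s : ℂ) + y * I) (1 * I) y :=
    ((Complex.ofRealCLM.hasDerivAt (x := y)).mul_const I).const_add _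
  rw [one_mul] at h2
  exact h1.comp_hasDerivAt y h2

theorem h167_param {F : ℂ → ℝ} (hF : ContDiff ℝ 1 F) (a b y : ℝ) :
    HasDerivAt (fun y : ℝ => ∫ s in a..b, F (s + y * I)) (∫ s in a..b, dy F (s + y * I)) y := by
  have hcF : Continuous F := hF.continuous
  have hcd : Continuous (dy F) := h167_dy_cont hF
  have hK : IsCompact (uIcc a b ×ˢ Metric.closedBall y 1) :=
    isCompact_uIcc.prod (isCompact_closedBall y 1)
  have hc : Continuous (fun p : ℝ × ℝ => dy F ((p.1 : ℂ) + (p.2 : ℂ) * I)) := by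
    refine hcd.comp ?_
    fun_prop
  obtain ⟨C, hC⟩ := hK.exists_bound_of_continuousOn hc.continuousOn
  refine (intervalIntegral.hasDerivAt_integral_of_dominated_loc_of_deriv_le (𝕜 := ℝ)
    (F := fun (y s : ℝ) => F (s + y * I)) (F' := fun (y s : ℝ) => dy F (s + y * I))
    (bound := fun _ => C) (Metric.ball_mem_nhds y one_pos) ?_ ?_ ?_ ?_ ?_ ?_).2
  · refine Filter.Eventually.of_forall fun y' => ?_
    refine (Continuous.aestronglyMeasurable ?_)
    refine hcF.comp ?_
    fun_prop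
  · refine Continuous.intervalIntegrable ?_ _ _
    refine hcF.comp ?_
    fun_prop
  · refine (Continuous.aestronglyMeasurable ?_)
    refine hcd.comp ?_
    fun_prop
  · refine Filter.Eventually.of_forall fun s hs y' hy' => ?_
    exact hC (s, y') ⟨uIoc_subset_uIcc hs, Metric.ball_subset_closedBall hy'⟩
  · exact intervalIntegrable_const
  · refine Filter.Eventually.of_forall fun s _ y' _ => ?_
    exact h167_dy_deriv hF s y'

theorem h167_xlip {u : ℂ → ℝ} (hu : ContDiff ℝ 1 u) {M4 : ℝ} (hM4 : ∀ z, |dx u z| ≤ M4)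
    (a b y : ℝ) : |u (a + y * I) - u (b + y * I)| ≤ M4 * |a - b| := by
  have := Convex.norm_image_sub_le_of_norm_hasDerivWithin_le (s := Set.univ)
    (f := fun s : ℝ => u (s + y * I)) (f' := fun s : ℝ => dx u (s + y * I)) (C := M4)
    (fun s _ => (h167_dx_deriv hu s y).hasDerivWithinAt) (fun s _ => hM4 _) convex_univ
    (mem_univ b) (mem_univ a)
  exact this

/-- bound of the derivative of a bounded semiconvex function -/
theorem h167_semi {q q' q'' : ℝ → ℝ} (h1 : ∀ y, HasDerivAt q (q' y) y)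
    (h2 : ∀ y, HasDerivAt q' (q'' y) y) {M K : ℝ} (hM : ∀ y, |q y| ≤ M) (hK0 : 0 ≤ K)
    (hK : ∀ y, -K ≤ q'' y) (y : ℝ) : |q' y| ≤ 2 * M + K := by
  have hd : ∀ y, HasDerivAt (fun y => q' y + K * y) (q'' y + K) y := by
    intro y
    have := (h2 y).add ((hasDerivAt_id y).const_mul K)
    rw [mul_one] at this
    exact this
  have hmono : Monotone (fun y => q' y + K * y) := by
    refine monotone_of_deriv_nonneg (fun y => (hd y).differentiableAt) fun y => ?_
    rw [(hd y).deriv]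
    linarith [hK y]
  have hc : ∀ a b, ContinuousOn q (Icc a b) := fun a b y _ => (h1 y).continuousAt.continuousWithinAt
  obtain ⟨c, hc1, hc2⟩ := exists_hasDerivAt_eq_slope q q' (by linarith : y < y + 1)
    (hc _ _) (fun x _ => h1 x)
  obtain ⟨e, he1, he2⟩ := exists_hasDerivAt_eq_slope q q' (by linarith : y - 1 < y)
    (hc _ _) (fun x _ => h1 x)
  have m1 := hmono hc1.1.le
  have m2 := hmono he1.2.le
  have b1 := abs_le.1 (hM y)
  have b2 := abs_le.1 (hM (y + 1))
  have b3 := abs_le.1 (hM (y - 1))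
  have e1 : q' c = q (y + 1) - q y := by rw [hc2]; ring_nf
  have e2 : q' e = q y - q (y - 1) := by rw [he2]; ring_nf
  simp only at m1 m2
  rw [abs_le]
  constructor
  · have h3 : K * y ≤ K * (e + 1) := mul_le_mul_of_nonneg_left (by linarith [he1.1]) hK0
    rw [mul_add, mul_one] at h3
    linarith [b1.1, b1.2, b3.1, b3.2]
  · have h3 : K * c ≤ K * (y + 1) := mul_le_mul_of_nonneg_left (by linarith [hc1.2]) hK0
    rw [mul_add, mul_one] at h3
    linarith [b1.1, b1.2, b2.1, b2.2]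

theorem h167_core {ρ M M4 : ℝ} (hρ : 0 < ρ) (hM0 : 0 < M) (hM40 : 0 < M4) {u : ℂ → ℝ}
    (hu : ContDiff ℝ 3 u) (hM : ∀ z, |u z| ≤ M) (hM4 : ∀ z, |dx u z| ≤ M4)
    (hL : ∀ z, 0 ≤ Lop ρ u z) (x y y' τ : ℝ) (hτ0 : 0 < τ) (hτ1 : τ ≤ 1) :
    |u (x + y * I) - u (x + y' * I)| ≤
      2 * M4 * τ + (2 * M + (2 * M4 / τ + 2 * ρ * M4 + ρ ^ 2 * M)) * |y - y'| := by
  have hu1 : ContDiff ℝ 1 u := hu.of_le (by norm_num)
  have hdy1 : ContDiff ℝ 1 (dy u) := h167_dy_smooth hu (by norm_num)
  have hdx1 : ContDiff ℝ 1 (dx u) := h167_dx_smooth hu (by norm_num)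
  obtain ⟨q, hq⟩ : ∃ q : ℝ → ℝ, ∀ y, q y = τ⁻¹ * ∫ s in x..(x + τ), u (s + y * I) :=
    ⟨_, fun _ => rfl⟩
  obtain ⟨q', hq'⟩ : ∃ q' : ℝ → ℝ, ∀ y, q' y = τ⁻¹ * ∫ s in x..(x + τ), dy u (s + y * I) :=
    ⟨_, fun _ => rfl⟩
  obtain ⟨q'', hq''⟩ : ∃ q'' : ℝ → ℝ, ∀ y, q'' y = τ⁻¹ *
    ∫ s in x..(x + τ), dy (dy u) (s + y * I) := ⟨_, fun _ => rfl⟩
  have h1 : ∀ y, HasDerivAt q (q' y) y := by
    intro y
    have := (h167_param hu1 x (x + τ) y).const_mul τ⁻¹
    rw [← hq'] at this
    exact this.congr_of_eventuallyEq (Filter.Eventually.of_forall hq)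
  have h2 : ∀ y, HasDerivAt q' (q'' y) y := by
    intro y
    have := (h167_param hdy1 x (x + τ) y).const_mul τ⁻¹
    rw [← hq''] at this
    exact this.congr_of_eventuallyEq (Filter.Eventually.of_forall hq')
  have hτabs : |x + τ - x| = τ := by rw [add_sub_cancel_left, abs_of_pos hτ0]
  have hqM : ∀ y, |q y| ≤ M := by
    intro y
    have h3 := intervalIntegral.norm_integral_le_of_norm_le_const (a := x) (b := x + τ)
      (f := fun s : ℝ => u (s + y * I)) (C := M) (fun s _ => hM _)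
    rw [hτabs, Real.norm_eq_abs] at h3
    rw [hq, abs_mul, abs_of_pos (inv_pos.2 hτ0)]
    calc τ⁻¹ * |∫ s in x..(x + τ), u (s + y * I)| ≤ τ⁻¹ * (M * τ) :=
          mul_le_mul_of_nonneg_left h3 (inv_nonneg.2 hτ0.le)
      _ = M := by field_simp
  obtain ⟨K, hKd⟩ : ∃ K, K = 2 * M4 / τ + 2 * ρ * M4 + ρ ^ 2 * M := ⟨_, rfl⟩
  have hK0 : 0 ≤ K := by rw [hKd]; positivity
  have hcdxx : Continuous (dx (dx u)) := h167_dx_cont hdx1
  have hcdyy : Continuous (dy (dy u)) := h167_dy_cont hdy1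
  have hqK : ∀ y, -K ≤ q'' y := by
    intro y
    have i1 : IntervalIntegrable (fun s : ℝ => dx (dx u) (s + y * I)) volume x (x + τ) := by
      refine Continuous.intervalIntegrable ?_ _ _
      refine hcdxx.comp ?_
      fun_prop
    have i2 : IntervalIntegrable (fun s : ℝ => dy (dy u) (s + y * I)) volume x (x + τ) := by
      refine Continuous.intervalIntegrable ?_ _ _
      refine hcdyy.comp ?_
      fun_prop
    have h3 : ∫ s in x..(x + τ), dx (dx u) (s + y * I) =
        dx u ((x + τ : ℝ) + y * I) - dx u (x + y * I) :=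
      intervalIntegral.integral_eq_sub_of_hasDerivAt (fun s _ => h167_dx_deriv hdx1 s y) i1
    have i1n : IntervalIntegrable (fun s : ℝ => -(dx (dx u) (s + y * I))) volume x (x + τ) :=
      i1.neg
    have h4 : ∫ s in x..(x + τ), (-(dx (dx u) (s + y * I)) - (2 * ρ * M4 + ρ ^ 2 * M)) ≤
        ∫ s in x..(x + τ), dy (dy u) (s + y * I) := by
      refine intervalIntegral.integral_mono_on (by linarith) (i1n.sub intervalIntegrable_const)
        i2 fun s _ => ?_
      have h5 := hL (s + y * I)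
      unfold Lop at h5
      have h6 := (abs_le.1 (hM4 (s + y * I))).2
      have h7 := (abs_le.1 (hM (s + y * I))).2
      have h8 : 2 * ρ * dx u (s + y * I) ≤ 2 * ρ * M4 :=
        mul_le_mul_of_nonneg_left h6 (by positivity)
      have h9 : ρ ^ 2 * u (s + y * I) ≤ ρ ^ 2 * M := mul_le_mul_of_nonneg_left h7 (by positivity)
      linarith
    rw [intervalIntegral.integral_sub i1n intervalIntegrable_const,
      intervalIntegral.integral_neg, h3, intervalIntegral.integral_const, smul_eq_mul,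
      add_sub_cancel_left] at h4
    have h6 := (abs_le.1 (hM4 ((x + τ : ℝ) + y * I))).2
    have h7 := (abs_le.1 (hM4 (x + y * I))).1
    have h8 : -(2 * M4) - τ * (2 * ρ * M4 + ρ ^ 2 * M) ≤
        ∫ s in x..(x + τ), dy (dy u) (s + y * I) := by linarith
    rw [hq'', hKd]
    have h9 := mul_le_mul_of_nonneg_left h8 (inv_nonneg.2 hτ0.le)
    have h10 : τ⁻¹ * (-(2 * M4) - τ * (2 * ρ * M4 + ρ ^ 2 * M)) =
        -(2 * M4 / τ + 2 * ρ * M4 + ρ ^ 2 * M) := by
      field_simp
      ring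
    rw [h10] at h9
    exact h9
  have hq'b := fun y => h167_semi h1 h2 hqM hK0 hqK y
  have hlip : |q y - q y'| ≤ (2 * M + K) * |y - y'| := by
    have := Convex.norm_image_sub_le_of_norm_hasDerivWithin_le (s := Set.univ)
      (f := q) (f' := q') (C := 2 * M + K)
      (fun s _ => (h1 s).hasDerivWithinAt) (fun s _ => hq'b s) convex_univ
      (mem_univ y') (mem_univ y)
    exact this
  have hcu : Continuous u := hu1.continuous
  have hclose : ∀ y : ℝ, |u (x + y * I) - q y| ≤ M4 * τ := by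
    intro y
    have i1 : IntervalIntegrable (fun s : ℝ => u (s + y * I)) volume x (x + τ) := by
      refine Continuous.intervalIntegrable ?_ _ _
      refine hcu.comp ?_
      fun_prop
    have h3 : u (x + y * I) - q y = τ⁻¹ * ∫ s in x..(x + τ), (u (x + y * I) - u (s + y * I)) := by
      rw [intervalIntegral.integral_sub intervalIntegrable_const i1,
        intervalIntegral.integral_const, smul_eq_mul, add_sub_cancel_left, hq, mul_sub,
        ← mul_assoc, inv_mul_cancel₀ hτ0.ne', one_mul]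
    have h4 := intervalIntegral.norm_integral_le_of_norm_le_const (a := x) (b := x + τ)
      (f := fun s : ℝ => u (x + y * I) - u (s + y * I)) (C := M4 * τ) (fun s hs => by
        rw [uIoc_of_le (by linarith)] at hs
        refine (h167_xlip hu1 hM4 x s y).trans ?_
        refine mul_le_mul_of_nonneg_left ?_ hM40.le
        rw [abs_sub_comm, abs_of_nonneg (by linarith [hs.1])]
        linarith [hs.2])
    rw [hτabs, Real.norm_eq_abs] at h4
    rw [h3, abs_mul, abs_of_pos (inv_pos.2 hτ0)]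
    calc τ⁻¹ * |∫ s in x..(x + τ), (u (x + y * I) - u (s + y * I))| ≤ τ⁻¹ * (M4 * τ * τ) :=
          mul_le_mul_of_nonneg_left h4 (inv_nonneg.2 hτ0.le)
      _ = M4 * τ := by field_simp
  have c1 := abs_le.1 (hclose y)
  have c2 := abs_le.1 (hclose y')
  have c3 := abs_le.1 hlip
  rw [← hKd, abs_le]
  constructor <;> linarith [c1.1, c1.2, c2.1, c2.2, c3.1, c3.2]

theorem h167_core2 {ρ M M4 : ℝ} (hρ : 0 < ρ) (hM0 : 0 < M) (hM40 : 0 < M4) {u : ℂ → ℝ}
    (hu : ContDiff ℝ 3 u) (hM : ∀ z, |u z| ≤ M) (hM4 : ∀ z, |dx u z| ≤ M4)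
    (hL : ∀ z, 0 ≤ Lop ρ u z) (z w : ℂ) (hzw : ‖z - w‖ ≤ 1) :
    |u z - u w| ≤ M4 * ‖z - w‖ +
      (2 * M4 + (2 * M + 2 * M4 + 2 * ρ * M4 + ρ ^ 2 * M)) * Real.sqrt ‖z - w‖ := by
  have hu1 : ContDiff ℝ 1 u := hu.of_le (by norm_num)
  have hre : |z.re - w.re| ≤ ‖z - w‖ := by
    have := Complex.abs_re_le_norm (z - w)
    rwa [Complex.sub_re] at this
  have him : |z.im - w.im| ≤ ‖z - w‖ := by
    have := Complex.abs_im_le_norm (z - w)
    rwa [Complex.sub_im] at this
  have hz : z = z.re + z.im * I := (Complex.re_add_im z).symm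
  have hw : w = w.re + w.im * I := (Complex.re_add_im w).symm
  have s1 : |u z - u (w.re + z.im * I)| ≤ M4 * ‖z - w‖ := by
    have := h167_xlip hu1 hM4 z.re w.re z.im
    rw [← hz] at this
    exact this.trans (mul_le_mul_of_nonneg_left hre hM40.le)
  have s2 : |u (w.re + z.im * I) - u w| ≤
      (2 * M4 + (2 * M + 2 * M4 + 2 * ρ * M4 + ρ ^ 2 * M)) * Real.sqrt ‖z - w‖ := by
    rcases (abs_nonneg (z.im - w.im)).eq_or_lt with h0 | h0
    · have h1 : z.im = w.im := by
        have := abs_eq_zero.1 h0.symm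
        linarith
      rw [h1, ← hw, sub_self, abs_zero]
      positivity
    · obtain ⟨τ, hτ⟩ : ∃ τ, τ = Real.sqrt |z.im - w.im| := ⟨_, rfl⟩
      have hτ0 : 0 < τ := by rw [hτ]; exact Real.sqrt_pos.2 h0
      have hτ1 : τ ≤ 1 := by
        rw [hτ]
        exact Real.sqrt_le_one.2 (him.trans hzw)
      have hτ2 : |z.im - w.im| = τ * τ := by rw [hτ]; exact (Real.mul_self_sqrt h0.le).symm
      have h1 := h167_core hρ hM0 hM40 hu hM hM4 hL w.re z.im w.im τ hτ0 hτ1
      rw [← hw, hτ2] at h1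
      have h2 : 2 * M4 * τ + (2 * M + (2 * M4 / τ + 2 * ρ * M4 + ρ ^ 2 * M)) * (τ * τ) ≤
          (2 * M4 + (2 * M + 2 * M4 + 2 * ρ * M4 + ρ ^ 2 * M)) * τ := by
        have h3 : 2 * M4 / τ * (τ * τ) = 2 * M4 * τ := by field_simp
        have h4 : (2 * M + (2 * ρ * M4 + ρ ^ 2 * M)) * (τ * τ) ≤
            (2 * M + (2 * ρ * M4 + ρ ^ 2 * M)) * τ := by
          refine mul_le_mul_of_nonneg_left ?_ (by positivity)
          nlinarith
        nlinarith
      refine h1.trans (h2.trans (mul_le_mul_of_nonneg_left ?_ (by positivity)))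
      rw [hτ]
      exact Real.sqrt_le_sqrt him
  calc |u z - u w| = |(u z - u (w.re + z.im * I)) + (u (w.re + z.im * I) - u w)| := by ring_nf
    _ ≤ _ := abs_add_le _ _
    _ ≤ _ := add_le_add s1 s2

/-- TARGET 1: uniform modulus of continuity of the mollifications -/
theorem equicont {ρ : ℝ} {h ω : ℝ → ℝ} (hd : Dat ρ h ω) (C : ℝ) :
    ∃ (m : ℝ → ℝ) (δ0 : ℝ), 0 < δ0 ∧ δ0 ≤ 1 ∧ Tendsto m (𝓝[≥] 0) (𝓝 0) ∧ ∀ U, ClsS ρ h C ω U →
      ∀ δ ∈ Ioc (0 : ℝ) δ0, ∀ z w : ℂ, ‖z - w‖ ≤ 1 → |moll δ U z - moll δ U w| ≤ m ‖z - w‖ := by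
  obtain ⟨M, δa, ha0, ha1, hM0, hM⟩ := moll_bdd hd C
  obtain ⟨M4, δb, hb0, hb1, hM40, hM4⟩ := dx_bdd hd C
  refine ⟨fun s => M4 * s + (2 * M4 + (2 * M + 2 * M4 + 2 * ρ * M4 + ρ ^ 2 * M)) * Real.sqrt s,
    min δa δb, lt_min ha0 hb0, (min_le_left _ _).trans ha1, ?_, ?_⟩
  · have hc : Continuous (fun s : ℝ => M4 * s +
        (2 * M4 + (2 * M + 2 * M4 + 2 * ρ * M4 + ρ ^ 2 * M)) * Real.sqrt s) := by
      fun_prop
    have := hc.tendsto 0
    simp only [mul_zero, Real.sqrt_zero, add_zero] at this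
    exact this.mono_left nhdsWithin_le_nhds
  · intro U hU δ hδ z w hzw
    have hδa : δ ∈ Ioc (0 : ℝ) δa := ⟨hδ.1, hδ.2.trans (min_le_left _ _)⟩
    have hδb : δ ∈ Ioc (0 : ℝ) δb := ⟨hδ.1, hδ.2.trans (min_le_right _ _)⟩
    have hsm : ContDiff ℝ 3 (moll δ U) := moll_contDiff δ hδ.1 U hU.loc 3
    exact h167_core2 hd.rho hM0 hM40 hsm (hM U hU δ hδa) (hM4 U hU δ hδb).1
      (hU.sub δ ⟨hδ.1, hδa.2.trans ha1⟩) z w hzw

theorem h167_bQ_compact (K : ℝ) : IsCompact (bQ K) := by
  refine Metric.isCompact_of_isClosed_isBounded ?_ ?_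
  · refine IsClosed.inter ?_ ?_
    · exact isClosed_le Complex.continuous_re.abs continuous_const
    · exact isClosed_le Complex.continuous_im.abs continuous_const
  · refine (Metric.isBounded_closedBall (x := (0 : ℂ)) (r := K + K)).subset ?_
    intro z hz
    rw [mem_closedBall_zero_iff]
    exact (Complex.norm_le_abs_re_add_abs_im z).trans (add_le_add hz.1 hz.2)

/-- TARGET 2: continuous representative and contact -/
theorem cont_rep {ρ : ℝ} {h ω : ℝ → ℝ} (hd : Dat ρ h ω) (C : ℝ) (U : ℂ → ℝ) (hU : ClsS ρ h C ω U) :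
    ∃ Uc : ℂ → ℝ, Continuous Uc ∧ (∀ᵐ z : ℂ, U z = Uc z) ∧ (∀ z, Uc z ≤ h z.im) ∧
      (∀ z : ℂ, Uc (z + 2 * Real.pi * I) = Uc z) ∧
      (∀ z, Tendsto (fun δ => moll δ U z) (𝓝[>] 0) (𝓝 (Uc z))) ∧
      ∀ z0 : ℂ, (¬ ∃ r > 0, ∃ δ1 > 0, ∀ δ ∈ Ioc (0 : ℝ) δ1, ∀ z ∈ Metric.ball z0 r,
        Lop ρ (moll δ U) z = 0) → Uc z0 = h z0.im := by
  obtain ⟨m, δ0, hδ0, hδ01, hm, heq⟩ := equicont hd C
  replace heq := heq U hU
  have hcont : ∀ δ, 0 < δ → Continuous (moll δ U) := fun δ hδ =>
    (moll_contDiff δ hδ U hU.loc 0).continuous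
  have hsmall : ∀ ε > 0, ∃ r, 0 < r ∧ r ≤ 1 ∧ ∀ s, 0 ≤ s → s ≤ r → m s < ε := by
    intro ε hε
    have h1 : ∀ᶠ s in 𝓝[≥] (0:ℝ), m s < ε := hm.eventually_lt_const hε
    obtain ⟨d, hd0, hd1⟩ := Metric.mem_nhdsWithin_iff.1 h1
    refine ⟨min (d / 2) 1, lt_min (by linarith) one_pos, min_le_right _ _, fun s hs0 hs1 => ?_⟩
    refine hd1 ⟨?_, hs0⟩
    rw [Metric.mem_ball, Real.dist_eq, sub_zero, abs_of_nonneg hs0]
    have := hs1.trans (min_le_left _ _)
    linarith
  have hint : ∀ K δ, 0 < δ → IntegrableOn (fun z => moll δ U z - U z) (bQ K) := by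
    intro K δ hδ
    have h1 : LocallyIntegrable (moll δ U) volume := (hcont δ hδ).locallyIntegrable
    exact (h1.sub hU.loc).integrableOn_isCompact (h167_bQ_compact K)
  have hIoc : ∀ᶠ δ in 𝓝[>] (0:ℝ), δ ∈ Ioc (0:ℝ) δ0 := Ioc_mem_nhdsGT hδ0
  -- existence of the limit
  have hlim : ∀ z : ℂ, ∃ l, Tendsto (fun δ => moll δ U z) (𝓝[>] 0) (𝓝 l) := by
    intro z
    have hcau : Cauchy (Filter.map (fun δ => moll δ U z) (𝓝[>] (0:ℝ))) := by
      rw [Metric.cauchy_iff]
      refine ⟨inferInstance, fun ε hε => ?_⟩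
      obtain ⟨r, hr0, hr1, hr⟩ := hsmall (ε / 4) (by linarith)
      obtain ⟨K, hK⟩ : ∃ K : ℝ, K = max |z.re| |z.im| + 1 := ⟨_, rfl⟩
      have hsub : Metric.ball z r ⊆ bQ K := by
        intro w hw
        rw [Metric.mem_ball, dist_eq_norm] at hw
        have h1 := Complex.abs_re_le_norm (w - z)
        have h2 := Complex.abs_im_le_norm (w - z)
        rw [Complex.sub_re] at h1
        rw [Complex.sub_im] at h2
        have h3 : |w.re| ≤ |z.re| + |w.re - z.re| := by
          have := abs_add_le z.re (w.re - z.re)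
          simpa using this
        have h4 : |w.im| ≤ |z.im| + |w.im - z.im| := by
          have := abs_add_le z.im (w.im - z.im)
          simpa using this
        have h5 := le_max_left |z.re| |z.im|
        have h6 := le_max_right |z.re| |z.im|
        constructor <;> linarith
      obtain ⟨A, hA⟩ : ∃ A : ℝ, A = volume.real (Metric.ball z r) := ⟨_, rfl⟩
      have hA0 : 0 < A := by
        rw [hA]
        exact ENNReal.toReal_pos (Metric.measure_ball_pos _ _ hr0).ne'
          measure_ball_lt_top.ne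
      have h1 := (moll_tendsto_l1 U hU.loc K).eventually_lt_const
        (show (0:ℝ) < ε / 4 * A by positivity)
      refine ⟨(fun δ => moll δ U z) '' {δ | (∫ w in bQ K, |moll δ U w - U w|) < ε / 4 * A ∧
        δ ∈ Ioc (0:ℝ) δ0}, Filter.image_mem_map (h1.and hIoc), ?_⟩
      rintro _ ⟨δ, ⟨hδ1, hδ2⟩, rfl⟩ _ ⟨δ', ⟨hδ1', hδ2'⟩, rfl⟩
      rw [Real.dist_eq]
      by_contra hcon
      push Not at hcon
      have hI := hint K δ hδ2.1
      have hI' := hint K δ' hδ2'.1
      have hdiff : IntegrableOn (fun w => |moll δ U w - moll δ' U w|) (bQ K) := by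
        have : LocallyIntegrable (fun w => |moll δ U w - moll δ' U w|) volume :=
          ((hcont δ hδ2.1).sub (hcont δ' hδ2'.1)).abs.locallyIntegrable
        exact this.integrableOn_isCompact (h167_bQ_compact K)
      have lower : ε / 2 * A ≤ ∫ w in Metric.ball z r, |moll δ U w - moll δ' U w| := by
        have h2 : ∫ w in Metric.ball z r, (ε / 2 : ℝ) = ε / 2 * A := by
          rw [setIntegral_const, hA, smul_eq_mul, mul_comm]
        rw [← h2]
        refine setIntegral_mono_on (integrableOn_const measure_ball_lt_top.ne)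
          (hdiff.mono_set hsub) measurableSet_ball fun w hw => ?_
        rw [Metric.mem_ball, dist_eq_norm] at hw
        have hzw : ‖z - w‖ ≤ r := by rw [norm_sub_rev]; exact hw.le
        have e1 := heq δ hδ2 z w (hzw.trans hr1)
        have e2 := heq δ' hδ2' z w (hzw.trans hr1)
        have e3 := hr ‖z - w‖ (norm_nonneg _) hzw
        have e4 : |moll δ U z - moll δ' U z| ≤ |moll δ U z - moll δ U w| +
            |moll δ U w - moll δ' U w| + |moll δ' U z - moll δ' U w| := by
          have : moll δ U z - moll δ' U z = (moll δ U z - moll δ U w) +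
            (moll δ U w - moll δ' U w) - (moll δ' U z - moll δ' U w) := by ring
          rw [this]
          refine (abs_sub _ _).trans ?_
          exact add_le_add (abs_add_le _ _) le_rfl
        linarith
      have upper : ∫ w in Metric.ball z r, |moll δ U w - moll δ' U w| < ε / 2 * A := by
        have h2 : ∫ w in Metric.ball z r, |moll δ U w - moll δ' U w| ≤
            ∫ w in bQ K, |moll δ U w - moll δ' U w| :=
          setIntegral_mono_set hdiff (Filter.Eventually.of_forall fun w => abs_nonneg _)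
            (Filter.Eventually.of_forall hsub)
        have h3 : ∫ w in bQ K, |moll δ U w - moll δ' U w| ≤
            ∫ w in bQ K, (|moll δ U w - U w| + |moll δ' U w - U w|) := by
          refine integral_mono hdiff (hI.abs.add hI'.abs) fun w => ?_
          have : moll δ U w - moll δ' U w = (moll δ U w - U w) - (moll δ' U w - U w) := by ring
          show |moll δ U w - moll δ' U w| ≤ |moll δ U w - U w| + |moll δ' U w - U w|
          rw [this]
          exact abs_sub _ _
        have h4 : ∫ w in bQ K, (|moll δ U w - U w| + |moll δ' U w - U w|) =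
            (∫ w in bQ K, |moll δ U w - U w|) + ∫ w in bQ K, |moll δ' U w - U w| :=
          integral_add hI.abs hI'.abs
        linarith
      linarith
    exact CompleteSpace.complete hcau
  choose Uc hUc using hlim
  have hUceq : ∀ z w, ‖z - w‖ ≤ 1 → |Uc z - Uc w| ≤ m ‖z - w‖ := by
    intro z w hzw
    refine le_of_tendsto ((hUc z).sub (hUc w)).abs ?_
    filter_upwards [hIoc] with δ hδ
    exact heq δ hδ z w hzw
  have hUcc : Continuous Uc := by
    rw [Metric.continuous_iff]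
    intro z ε hε
    obtain ⟨r, hr0, hr1, hr⟩ := hsmall ε hε
    refine ⟨r, hr0, fun w hw => ?_⟩
    rw [dist_eq_norm] at hw
    rw [Real.dist_eq]
    exact lt_of_le_of_lt (hUceq w z (hw.le.trans hr1)) (hr _ (norm_nonneg _) hw.le)
  have hae : ∀ᵐ z : ℂ, U z = Uc z := by
    have hK : ∀ K : ℕ, ∀ᵐ z : ℂ, z ∈ bQ K → U z = Uc z := by
      intro K
      rw [← ae_restrict_iff' (h167_bQ_compact K).measurableSet]
      obtain ⟨d, hdd⟩ : ∃ d : ℕ → ℝ, ∀ k, d k = 1 / ((k : ℝ) + 1) := ⟨_, fun _ => rfl⟩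
      have hd0 : ∀ k, 0 < d k := by intro k; rw [hdd]; positivity
      have hdt : Tendsto d atTop (𝓝[>] 0) := by
        rw [tendsto_nhdsWithin_iff]
        refine ⟨?_, Filter.Eventually.of_forall fun k => hd0 k⟩
        have : d = fun k : ℕ => 1 / ((k : ℝ) + 1) := funext hdd
        rw [this]
        exact tendsto_one_div_add_atTop_nhds_zero_nat
      have h1 : ∀ z, Tendsto (fun k => ENNReal.ofReal |moll (d k) U z - U z|) atTop
          (𝓝 (ENNReal.ofReal |Uc z - U z|)) := by
        intro z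
        refine ENNReal.tendsto_ofReal ?_
        exact (((hUc z).comp hdt).sub tendsto_const_nhds).abs
      have h2 : Tendsto (fun k => ∫⁻ z in bQ K, ENNReal.ofReal |moll (d k) U z - U z|) atTop
          (𝓝 0) := by
        have h3 : ∀ k, ∫⁻ z in bQ K, ENNReal.ofReal |moll (d k) U z - U z| =
            ENNReal.ofReal (∫ z in bQ K, |moll (d k) U z - U z|) := by
          intro k
          rw [ofReal_integral_eq_lintegral_ofReal (hint K (d k) (hd0 k)).abs
            (Filter.Eventually.of_forall fun z => abs_nonneg _)]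
        simp_rw [h3]
        have h4 := ENNReal.tendsto_ofReal ((moll_tendsto_l1 U hU.loc K).comp hdt)
        rw [ENNReal.ofReal_zero] at h4
        exact h4
      have hmeasU : AEStronglyMeasurable U (volume.restrict (bQ K)) :=
        (hU.loc.integrableOn_isCompact (h167_bQ_compact K)).aestronglyMeasurable
      have h5 : ∫⁻ z in bQ K, ENNReal.ofReal |Uc z - U z| ≤ 0 := by
        have h6 : ∀ z, ENNReal.ofReal |Uc z - U z| =
            liminf (fun k => ENNReal.ofReal |moll (d k) U z - U z|) atTop :=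
          fun z => (h1 z).liminf_eq.symm
        simp_rw [h6]
        refine (lintegral_liminf_le' fun k => ?_).trans ?_
        · exact (hint K (d k) (hd0 k)).abs.aestronglyMeasurable.aemeasurable.ennreal_ofReal
        · rw [h2.liminf_eq]
      have h7 : ∫⁻ z in bQ K, ENNReal.ofReal |Uc z - U z| = 0 := le_antisymm h5 bot_le
      rw [lintegral_eq_zero_iff'] at h7
      · filter_upwards [h7] with z hz
        have hz' : ENNReal.ofReal |Uc z - U z| = 0 := hz
        rw [ENNReal.ofReal_eq_zero] at hz'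
        have := abs_nonpos_iff.1 hz'
        linarith
      · exact ((hUcc.aestronglyMeasurable.sub hmeasU).norm).aemeasurable.ennreal_ofReal
    filter_upwards [ae_all_iff.2 hK] with z hz
    obtain ⟨K, hK'⟩ := exists_nat_ge (max |z.re| |z.im|)
    exact hz K ⟨(le_max_left _ _).trans hK', (le_max_right _ _).trans hK'⟩
  have hle : ∀ z, Uc z ≤ h z.im := by
    obtain ⟨κ, hκ0, hκ, hκU⟩ := moll_upper hd
    intro z
    have h1 : Tendsto (fun δ => h z.im + κ δ) (𝓝[>] 0) (𝓝 (h z.im)) := by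
      have := (tendsto_const_nhds (x := h z.im)).add hκ
      rwa [add_zero] at this
    refine le_of_tendsto_of_tendsto (hUc z) h1 ?_
    filter_upwards [hIoc] with δ hδ
    exact hκU C U hU δ ⟨hδ.1, hδ.2.trans hδ01⟩ z
  refine ⟨Uc, hUcc, hae, hle, ?_, hUc, ?_⟩
  · intro z
    refine tendsto_nhds_unique (hUc (z + 2 * Real.pi * I)) ?_
    have : (fun δ => moll δ U (z + 2 * Real.pi * I)) = fun δ => moll δ U z := by
      funext δ; exact moll_per hU δ z
    rw [this]
    exact hUc z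
  · intro z0 hz0
    refine le_antisymm (hle z0) ?_
    push Not at hz0
    have hseq : ∀ k : ℕ, ∃ δ ∈ Ioc (0:ℝ) (1 / ((k : ℝ) + 1)),
        ∃ z ∈ Metric.ball z0 (1 / ((k : ℝ) + 1)), Lop ρ (moll δ U) z ≠ 0 := fun k =>
      hz0 _ (by positivity) _ (by positivity)
    choose δs hδs zs hzs hne using hseq
    have hone : Tendsto (fun k : ℕ => 1 / ((k : ℝ) + 1)) atTop (𝓝 0) :=
      tendsto_one_div_add_atTop_nhds_zero_nat
    have hδt0 : Tendsto δs atTop (𝓝 0) :=
      squeeze_zero (fun k => (hδs k).1.le) (fun k => (hδs k).2) hone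
    have hδt : Tendsto δs atTop (𝓝[>] 0) := by
      rw [tendsto_nhdsWithin_iff]
      exact ⟨hδt0, Filter.Eventually.of_forall fun k => (hδs k).1⟩
    have hnt : Tendsto (fun k => ‖zs k - z0‖) atTop (𝓝 0) := by
      refine squeeze_zero (fun k => norm_nonneg _) (fun k => ?_) hone
      have := hzs k
      rw [Metric.mem_ball, dist_eq_norm] at this
      exact this.le
    have hzt : Tendsto zs atTop (𝓝 z0) := tendsto_iff_norm_sub_tendsto_zero.2 hnt
    have hkey : ∀ k, h (zs k).im - ω (δs k) ≤ moll (δs k) U (zs k) := by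
      intro k
      have hk1 : δs k ∈ Ioc (0:ℝ) 1 := by
        refine ⟨(hδs k).1, (hδs k).2.trans ?_⟩
        rw [div_le_one (by positivity)]
        have : (0:ℝ) ≤ k := Nat.cast_nonneg k
        linarith
      exact hU.con _ hk1 _ (lt_of_le_of_ne (hU.sub _ hk1 _) (hne k).symm)
    have hL : Tendsto (fun k => h (zs k).im - ω (δs k)) atTop (𝓝 (h z0.im - 0)) := by
      refine Tendsto.sub ?_ (hd.omlim.comp hδt)
      exact (hd.hcont.tendsto _).comp ((Complex.continuous_im.tendsto z0).comp hzt)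
    rw [sub_zero] at hL
    have hmt : Tendsto (fun k => m ‖zs k - z0‖) atTop (𝓝 0) := by
      refine hm.comp ?_
      rw [tendsto_nhdsWithin_iff]
      exact ⟨hnt, Filter.Eventually.of_forall fun k => norm_nonneg _⟩
    have hR : Tendsto (fun k => moll (δs k) U z0 + m ‖zs k - z0‖) atTop (𝓝 (Uc z0 + 0)) :=
      ((hUc z0).comp hδt).add hmt
    rw [add_zero] at hR
    refine le_of_tendsto_of_tendsto hL hR ?_
    have hev : ∀ᶠ k in atTop, ‖zs k - z0‖ ≤ 1 := hnt.eventually_le_const one_pos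
    filter_upwards [hev, hδt.eventually hIoc] with k hk1 hk2
    have e1 := (abs_le.1 (heq (δs k) hk2 (zs k) z0 hk1)).2
    have e2 := hkey k
    linarith

end M_W5a
end Pool.Agent.Helper758.LS
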