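import Mathlib
import Pool.Agent.Helper758.LSDefs
import Pool.Agent.Helper758.LSDefs2
import Pool.Agent.Helper758.LS_B1
import Pool.Agent.Helper758.LS_B2
import Pool.Agent.Helper758.LS_B3
import Pool.Agent.Helper758.LS_MOL

namespace Pool.Agent.Helper758.LS
open MeasureTheory Filter Topology Set Complex
open M_B1 (moll_bdd moll_per moll_upper)
open M_B2 (grad_bdd)
open M_B3 (moll_h1_cauchy moll_l2_cauchy)
open M_MOL (dx_moll_smooth dy_moll_smooth moll_add_const moll_comm moll_contDiff moll_l1 moll_symm moll_tendsto_l1 psid_props)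
namespace M_W5b



/-- GIVEN (do not prove): basic facts, proved in other jobs. -/
















theorem lh_dx_smooth {u : ℂ → ℝ} {n : ℕ} (hu : ContDiff ℝ (n + 1 : ℕ) u) : ContDiff ℝ n (dx u) := by
  unfold dx
  have h1 : ContDiff ℝ n (fderiv ℝ u) := hu.fderiv_right (by norm_cast)
  exact h1.clm_apply contDiff_const

theorem lh_dy_smooth {u : ℂ → ℝ} {n : ℕ} (hu : ContDiff ℝ (n + 1 : ℕ) u) : ContDiff ℝ n (dy u) := by
  unfold dy
  have h1 : ContDiff ℝ n (fderiv ℝ u) := hu.fderiv_right (by norm_cast)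
  exact h1.clm_apply contDiff_const

theorem lh_symm {u : ℂ → ℝ} (hu : ContDiff ℝ 2 u) (z : ℂ) : dx (dy u) z = dy (dx u) z := by
  have h1 : ContDiff ℝ 1 (fderiv ℝ u) := hu.fderiv_right (by norm_num)
  have h2 : DifferentiableAt ℝ (fderiv ℝ u) z := (h1.differentiable (by norm_num)) z
  have e1 : dx (dy u) z = fderiv ℝ (fderiv ℝ u) z 1 I := by
    unfold dx dy
    rw [fderiv_clm_apply h2 (differentiableAt_const _)]
    simp
  have e2 : dy (dx u) z = fderiv ℝ (fderiv ℝ u) z I 1 := by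
    unfold dx dy
    rw [fderiv_clm_apply h2 (differentiableAt_const _)]
    simp
  rw [e1, e2]
  have hs : IsSymmSndFDerivAt ℝ u z := hu.contDiffAt.isSymmSndFDerivAt (by simp)
  exact hs 1 I

theorem lh_dx_add {f g : ℂ → ℝ} (c : ℝ) {z : ℂ} (hf : DifferentiableAt ℝ f z)
    (hg : DifferentiableAt ℝ g z) : dx (fun w => f w + g w / c) z = dx f z + dx g z / c := by
  unfold dx
  have h1 : HasFDerivAt (fun w => f w + g w / c) (fderiv ℝ f z + c⁻¹ • fderiv ℝ g z) z := by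
    have := hf.hasFDerivAt.add (hg.hasFDerivAt.const_mul c⁻¹)
    refine this.congr_of_eventuallyEq (Eventually.of_forall fun w => ?_)
    simp only [Pi.add_apply]
    ring
  rw [h1.fderiv]
  simp
  ring

theorem lh_dy_add {f g : ℂ → ℝ} (c : ℝ) {z : ℂ} (hf : DifferentiableAt ℝ f z)
    (hg : DifferentiableAt ℝ g z) : dy (fun w => f w + g w / c) z = dy f z + dy g z / c := by
  unfold dy
  have h1 : HasFDerivAt (fun w => f w + g w / c) (fderiv ℝ f z + c⁻¹ • fderiv ℝ g z) z := by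
    have := hf.hasFDerivAt.add (hg.hasFDerivAt.const_mul c⁻¹)
    refine this.congr_of_eventuallyEq (Eventually.of_forall fun w => ?_)
    simp only [Pi.add_apply]
    ring
  rw [h1.fderiv]
  simp
  ring

theorem lh_dx_div {g : ℂ → ℝ} (c : ℝ) {z : ℂ}
    (hg : DifferentiableAt ℝ g z) : dx (fun w => g w / c) z = dx g z / c := by
  unfold dx
  have h1 : HasFDerivAt (fun w => g w / c) (c⁻¹ • fderiv ℝ g z) z := by
    refine (hg.hasFDerivAt.const_mul c⁻¹).congr_of_eventuallyEq (Eventually.of_forall fun w => ?_)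
    ring
  rw [h1.fderiv]
  simp
  ring

theorem lh_dy_div {g : ℂ → ℝ} (c : ℝ) {z : ℂ}
    (hg : DifferentiableAt ℝ g z) : dy (fun w => g w / c) z = dy g z / c := by
  unfold dy
  have h1 : HasFDerivAt (fun w => g w / c) (c⁻¹ • fderiv ℝ g z) z := by
    refine (hg.hasFDerivAt.const_mul c⁻¹).congr_of_eventuallyEq (Eventually.of_forall fun w => ?_)
    ring
  rw [h1.fderiv]
  simp
  ring

/-- the family -/
noncomputable def lh_F (ρ : ℝ) (u : ℂ → ℝ) (z : ℂ) : ℂ := cexp (-(ρ * z.im : ℝ) * I) *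
        ((aof ρ u z : ℂ) - I * (bof ρ u z : ℂ))
noncomputable def lh_G (ρ : ℝ) (u : ℂ → ℝ) (z : ℂ) : ℂ := cexp (-(ρ * z.im : ℝ) * I) *
        ((dx (aof ρ u) z : ℂ) - I * (dx (bof ρ u) z : ℂ))

theorem lh_hasDeriv {ρ : ℝ} (hρ : 0 < ρ) {u : ℂ → ℝ} (hu : ContDiff ℝ 3 u) (z : ℂ)
    (h0 : Lop ρ u z = 0) : HasDerivAt (lh_F ρ u) (lh_G ρ u z) z := by
  have hdx : ContDiff ℝ 2 (dx u) := lh_dx_smooth (n := 2) (by exact_mod_cast hu)
  have hdy : ContDiff ℝ 2 (dy u) := lh_dy_smooth (n := 2) (by exact_mod_cast hu)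
  have hud : DifferentiableAt ℝ u z := (hu.differentiable (by norm_num)) z
  have hdxd : DifferentiableAt ℝ (dx u) z := (hdx.differentiable (by norm_num)) z
  have hdyd : DifferentiableAt ℝ (dy u) z := (hdy.differentiable (by norm_num)) z
  have ha : DifferentiableAt ℝ (aof ρ u) z := by
    unfold aof
    have h := hud.fun_add (hdxd.mul_const ρ⁻¹)
    simpa only [div_eq_mul_inv] using h
  have hb : DifferentiableAt ℝ (bof ρ u) z := by
    unfold bof
    simpa only [div_eq_mul_inv] using hdyd.mul_const ρ⁻¹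
  have hya : dy (aof ρ u) z = ρ * bof ρ u z + dx (bof ρ u) z := by
    have e1 : dy (aof ρ u) z = dy u z + dy (dx u) z / ρ := lh_dy_add ρ hud hdxd
    have e2 : dx (bof ρ u) z = dx (dy u) z / ρ := lh_dx_div ρ hdyd
    rw [e1, e2, lh_symm (hu.of_le (by norm_num))]
    unfold bof
    field_simp
  have hyb : dy (bof ρ u) z = - dx (aof ρ u) z - ρ * aof ρ u z := by
    have e1 : dx (aof ρ u) z = dx u z + dx (dx u) z / ρ := lh_dx_add ρ hud hdxd
    have e2 : dy (bof ρ u) z = dy (dy u) z / ρ := lh_dy_div ρ hdyd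
    rw [e1, e2]
    unfold Lop at h0
    unfold aof
    have : dy (dy u) z = -(dx (dx u) z + 2 * ρ * dx u z + ρ ^ 2 * u z) := by linarith
    rw [this]
    field_simp
    ring
  have hca : HasFDerivAt (fun w => ((aof ρ u w : ℝ) : ℂ)) (Complex.ofRealCLM.comp (fderiv ℝ (aof ρ u) z)) z :=
    Complex.ofRealCLM.hasFDerivAt.comp z ha.hasFDerivAt
  have hcb : HasFDerivAt (fun w => ((bof ρ u w : ℝ) : ℂ)) (Complex.ofRealCLM.comp (fderiv ℝ (bof ρ u) z)) z :=
    Complex.ofRealCLM.hasFDerivAt.comp z hb.hasFDerivAt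
  have hlin : HasFDerivAt (fun w : ℂ => (-(ρ * w.im : ℝ) * I : ℂ))
      ((-(ρ : ℂ) * I) • (Complex.ofRealCLM.comp Complex.imCLM)) z := by
    have h1 : HasFDerivAt (fun w : ℂ => ((w.im : ℝ) : ℂ)) (Complex.ofRealCLM.comp Complex.imCLM) z :=
      Complex.ofRealCLM.hasFDerivAt.comp z Complex.imCLM.hasFDerivAt
    refine (h1.const_mul (-(ρ : ℂ) * I)).congr_of_eventuallyEq (Eventually.of_forall fun w => ?_)
    push_cast
    ring
  have hF := (hlin.cexp).mul (hca.sub (hcb.const_mul I))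
  have e1 : fderiv ℝ (aof ρ u) z I = dy (aof ρ u) z := rfl
  have e2 : fderiv ℝ (bof ρ u) z I = dy (bof ρ u) z := rfl
  have e3 : fderiv ℝ (aof ρ u) z 1 = dx (aof ρ u) z := rfl
  have e4 : fderiv ℝ (bof ρ u) z 1 = dx (bof ρ u) z := rfl
  obtain ⟨L, hL, hL1, hLI⟩ : ∃ L : ℂ →L[ℝ] ℂ, HasFDerivAt (lh_F ρ u) L z ∧ L 1 = lh_G ρ u z ∧
      L I = I • lh_G ρ u z := by
    refine ⟨_, hF, ?_, ?_⟩
    · simp only [_root_.add_apply, _root_.smul_apply, _root_.sub_apply, Pi.sub_apply,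
        ContinuousLinearMap.comp_apply, Complex.ofRealCLM_apply, Complex.imCLM_apply, smul_eq_mul,
        Complex.one_im, Complex.ofReal_zero, mul_zero, add_zero]
      rw [e3, e4]
      rfl
    · simp only [_root_.add_apply, _root_.smul_apply, _root_.sub_apply, Pi.sub_apply,
        ContinuousLinearMap.comp_apply, Complex.ofRealCLM_apply, Complex.imCLM_apply, smul_eq_mul,
        Complex.I_im, Complex.ofReal_one, mul_one]
      rw [e1, e2, hya, hyb]
      unfold lh_G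
      push_cast
      linear_combination (cexp (-(ρ * z.im) * I) * (ρ * bof ρ u z + dx (bof ρ u) z)) * I_mul_I
  have h2 := hL.complexOfReal_hasFDerivAt (by rw [hLI, hL1])
  exact h2.hasDerivAt.congr_deriv hL1

theorem lh_circle {F : ℂ → ℂ} {z : ℂ} {R : ℝ} (hF : DifferentiableOn ℂ F (Metric.ball z R)) (w : ℂ)
    (hw : ‖w‖ < R) : 2 * Real.pi * ‖F z‖ ^ 2 ≤
      ∫ θ in (0 : ℝ)..(2 * Real.pi), ‖F (z + cexp (θ * I) * w)‖ ^ 2 := by
  have hR : 0 < R := (norm_nonneg w).trans_lt hw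
  have hsub : Metric.closedBall z ‖w‖ ⊆ Metric.ball z R := Metric.closedBall_subset_ball hw
  have hd : DifferentiableOn ℂ (fun v => F v ^ 2) (Metric.ball z R) := hF.pow 2
  have hdc : DiffContOnCl ℂ (fun v => F v ^ 2) (Metric.ball z |‖w‖|) := by
    rw [abs_norm]
    exact (hd.mono hsub).diffContOnCl_ball le_rfl
  have h1 := hdc.circleAverage
  have h2 : (∫ θ in (0 : ℝ)..(2 * Real.pi), F (circleMap z ‖w‖ θ) ^ 2) = 2 * Real.pi * F z ^ 2 := by
    rw [Real.circleAverage_def] at h1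
    rw [← h1]
    rw [Complex.real_smul]
    push_cast
    field_simp
  have h3 : (∫ θ in (0 : ℝ)..(2 * Real.pi), F (z + cexp (θ * I) * w) ^ 2) =
      ∫ θ in (0 : ℝ)..(2 * Real.pi), F (circleMap z ‖w‖ θ) ^ 2 := by
    have hper : Function.Periodic (fun θ : ℝ => F (circleMap z ‖w‖ θ) ^ 2) (2 * Real.pi) := by
      intro θ
      simp only [(periodic_circleMap z ‖w‖) θ]
    have h4 := hper.intervalIntegral_add_eq 0 (Complex.arg w)
    rw [zero_add] at h4
    rw [h4]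
    have h5 := intervalIntegral.integral_comp_add_right (a := 0) (b := 2 * Real.pi)
      (fun θ : ℝ => F (circleMap z ‖w‖ θ) ^ 2) (Complex.arg w)
    rw [zero_add, add_comm (2 * Real.pi)] at h5
    rw [← h5]
    congr 1
    funext θ
    congr 2
    rw [circleMap]
    congr 1
    push_cast
    rw [add_mul, Complex.exp_add]
    have := Complex.norm_mul_exp_arg_mul_I w
    calc cexp (θ * I) * w = cexp (θ * I) * (‖w‖ * cexp (arg w * I)) := by rw [this]
      _ = _ := by ring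
  have h6 : ‖(∫ θ in (0 : ℝ)..(2 * Real.pi), F (z + cexp (θ * I) * w) ^ 2)‖ ≤
      ∫ θ in (0 : ℝ)..(2 * Real.pi), ‖F (z + cexp (θ * I) * w) ^ 2‖ :=
    intervalIntegral.norm_integral_le_integral_norm (by positivity)
  rw [h3, h2] at h6
  simp only [norm_mul, norm_pow, Complex.norm_ofNat, Complex.norm_real, Real.norm_eq_abs,
    abs_of_pos Real.pi_pos] at h6
  exact h6

theorem lh_mv {F : ℂ → ℂ} {z : ℂ} {R : ℝ} (hF : DifferentiableOn ℂ F (Metric.ball z R)) (s : ℝ)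
    (hs : 0 < s) (hsR : s < R) : Real.pi * s ^ 2 * ‖F z‖ ^ 2 ≤
      ∫ w in Metric.closedBall z s, ‖F w‖ ^ 2 := by
  set B := Metric.closedBall (0 : ℂ) s with hB
  have hBc : IsCompact B := isCompact_closedBall _ _
  have hBm : MeasurableSet B := hBc.measurableSet
  have hFc : ContinuousOn F (Metric.ball z R) := hF.continuousOn
  -- translation
  have h1 : ∫ w in Metric.closedBall z s, ‖F w‖ ^ 2 = ∫ w in B, ‖F (z + w)‖ ^ 2 := by
    have h2 := (measurePreserving_add_left (volume : Measure ℂ) z).setIntegral_preimage_emb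
      (measurableEmbedding_addLeft z) (fun w => ‖F w‖ ^ 2) (Metric.closedBall z s)
    rw [← h2]
    congr 2
    rw [hB]
    ext w
    simp
  rw [h1]
  -- rotation
  have h3 : ∀ θ : ℝ, ∫ w in B, ‖F (z + cexp (θ * I) * w)‖ ^ 2 = ∫ w in B, ‖F (z + w)‖ ^ 2 := by
    intro θ
    have h4 := (rotation (Circle.exp θ)).measurePreserving.setIntegral_preimage_emb
      (rotation (Circle.exp θ)).toHomeomorph.measurableEmbedding (fun w => ‖F (z + w)‖ ^ 2) B
    rw [← h4]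
    have h5 : (rotation (Circle.exp θ)) ⁻¹' B = B := by
      rw [hB]
      ext w
      simp only [mem_preimage, Metric.mem_closedBall, dist_zero_right, LinearIsometryEquiv.norm_map]
    rw [h5]
    simp only [rotation_apply, Circle.coe_exp]
  have hcont : ContinuousOn (fun p : ℝ × ℂ => ‖F (z + cexp (p.1 * I) * p.2)‖ ^ 2)
      (Icc 0 (2 * Real.pi) ×ˢ B) := by
    apply ContinuousOn.pow
    apply ContinuousOn.norm
    apply hFc.comp (by fun_prop)
    rintro ⟨θ, w⟩ ⟨_, hw⟩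
    simp only [hB, Metric.mem_closedBall, dist_zero_right] at hw
    simp only [Metric.mem_ball, dist_self_add_left, norm_mul, Complex.norm_exp_ofReal_mul_I, one_mul]
    linarith
  have hint : IntegrableOn (fun p : ℝ × ℂ => ‖F (z + cexp (p.1 * I) * p.2)‖ ^ 2)
      (Icc 0 (2 * Real.pi) ×ˢ B) (volume.prod volume) :=
    hcont.integrableOn_compact (isCompact_Icc.prod hBc)
  have hint' : Integrable (Function.uncurry fun (θ : ℝ) (w : ℂ) => ‖F (z + cexp (θ * I) * w)‖ ^ 2)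
      ((volume.restrict (Icc 0 (2 * Real.pi))).prod (volume.restrict B)) := by
    rw [Measure.prod_restrict]
    exact hint
  have hswap := integral_integral_swap hint'
  simp only [h3] at hswap
  have hL : ∫ _ in Icc (0 : ℝ) (2 * Real.pi), (∫ w in B, ‖F (z + w)‖ ^ 2) =
      2 * Real.pi * ∫ w in B, ‖F (z + w)‖ ^ 2 := by
    rw [setIntegral_const, Measure.real, Real.volume_Icc, sub_zero,
      ENNReal.toReal_ofReal (by positivity), smul_eq_mul]
  rw [hL] at hswap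
  have hR : ∫ _ in B, (2 * Real.pi * ‖F z‖ ^ 2) ≤
      ∫ w in B, ∫ θ in Icc (0 : ℝ) (2 * Real.pi), ‖F (z + cexp (θ * I) * w)‖ ^ 2 := by
    apply setIntegral_mono_on
    · exact (continuousOn_const).integrableOn_compact hBc
    · exact hint'.integral_prod_right
    · exact hBm
    · intro w hw
      have hw' : ‖w‖ < R := by
        simp only [hB, Metric.mem_closedBall, dist_zero_right] at hw
        linarith
      refine (lh_circle hF w hw').trans ?_
      rw [intervalIntegral.integral_of_le (by positivity), integral_Icc_eq_integral_Ioc]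
  rw [setIntegral_const, smul_eq_mul] at hR
  have hvol : (volume : Measure ℂ).real B = Real.pi * s ^ 2 := by
    rw [Measure.real, hB, Complex.volume_closedBall]
    rw [ENNReal.toReal_mul, ENNReal.toReal_pow, ENNReal.toReal_ofReal hs.le]
    simp
    ring
  rw [hvol, ← hswap] at hR
  have hpi := Real.pi_pos
  have h7 : 2 * Real.pi * (Real.pi * s ^ 2 * ‖F z‖ ^ 2) ≤ 2 * Real.pi * ∫ w in B, ‖F (z + w)‖ ^ 2 := by
    calc _ = Real.pi * s ^ 2 * (2 * Real.pi * ‖F z‖ ^ 2) := by ring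
      _ ≤ _ := hR
  exact le_of_mul_le_mul_left h7 (by positivity)

theorem lh_rect (g : ℂ → ℝ) (hg : Continuous g) (a b c d : ℝ) :
    ∫ z in {z : ℂ | z.re ∈ Icc a b ∧ z.im ∈ Icc c d}, g z =
      ∫ x in Icc a b, ∫ y in Icc c d, g (x + y * I) := by
  have h1 := (Complex.volume_preserving_equiv_real_prod.symm).setIntegral_preimage_emb
    (MeasurableEquiv.measurableEmbedding _) g {z : ℂ | z.re ∈ Icc a b ∧ z.im ∈ Icc c d}
  rw [← h1]
  have h2 : (Complex.measurableEquivRealProd.symm ⁻¹' {z : ℂ | z.re ∈ Icc a b ∧ z.im ∈ Icc c d}) =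
      Icc a b ×ˢ Icc c d := by
    ext p
    simp only [Complex.measurableEquivRealProd, mem_preimage, mem_prod]
    exact Iff.rfl
  rw [h2, Measure.volume_eq_prod, setIntegral_prod]
  · apply setIntegral_congr_fun measurableSet_Icc
    intro x _
    apply setIntegral_congr_fun measurableSet_Icc
    intro y _
    simp only
    congr 1
    apply Complex.ext <;> simp [Complex.measurableEquivRealProd]
  · apply ContinuousOn.integrableOn_compact (isCompact_Icc.prod isCompact_Icc)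
    apply Continuous.continuousOn
    have : Continuous (fun p : ℝ × ℝ => ((p.1 : ℂ) + p.2 * I)) := by fun_prop
    refine (hg.comp this).congr (fun p => ?_)
    simp only [Function.comp_apply]
    congr 1
    apply Complex.ext <;> simp [Complex.measurableEquivRealProd]

theorem lh_rect_compact (a b c d : ℝ) :
    IsCompact {z : ℂ | z.re ∈ Icc a b ∧ z.im ∈ Icc c d} := by
  have := (isCompact_Icc (a := a) (b := b)).reProdIm (isCompact_Icc (a := c) (b := d))
  exact this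

theorem lh_cover (g : ℂ → ℝ) (hg : Continuous g) (h0 : ∀ z, 0 ≤ g z)
    (hper : ∀ z, g (z + 2 * Real.pi * I) = g z) (z : ℂ) (s : ℝ) (hs : s ≤ 1 / 2) :
    ∫ w in Metric.closedBall z s, g w ≤ ∫ w in box (z.re - 1 / 2) (z.re - 1 / 2 + 1), g w := by
  have hpi := Real.pi_gt_three
  have h1 : ∫ w in Metric.closedBall z s, g w ≤
      ∫ w in {w : ℂ | w.re ∈ Icc (z.re - 1 / 2) (z.re - 1 / 2 + 1) ∧
        w.im ∈ Icc (z.im - Real.pi) (z.im - Real.pi + 2 * Real.pi)}, g w := by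
    apply setIntegral_mono_set
    · exact hg.continuousOn.integrableOn_compact (lh_rect_compact _ _ _ _)
    · exact Eventually.of_forall fun w => h0 w
    · apply Eventually.of_forall
      intro w hw
      have hw' : ‖w - z‖ ≤ s := by
        have := Metric.mem_closedBall.1 hw
        rwa [dist_eq_norm] at this
      have e1 := (Complex.abs_re_le_norm (w - z)).trans hw'
      have e2 := (Complex.abs_im_le_norm (w - z)).trans hw'
      rw [abs_le] at e1 e2
      simp only [Complex.sub_re, Complex.sub_im] at e1 e2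
      refine ⟨⟨?_, ?_⟩, ⟨?_, ?_⟩⟩ <;> linarith [e1.1, e1.2, e2.1, e2.2]
  refine h1.trans (le_of_eq ?_)
  unfold box
  rw [lh_rect g hg, lh_rect g hg]
  apply setIntegral_congr_fun measurableSet_Icc
  intro x _
  simp only
  rw [integral_Icc_eq_integral_Ioc, integral_Icc_eq_integral_Ioc,
    ← intervalIntegral.integral_of_le (by linarith), ← intervalIntegral.integral_of_le (by linarith)]
  have hp : Function.Periodic (fun y : ℝ => g (x + y * I)) (2 * Real.pi) := by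
    intro y
    have := hper (x + y * I)
    simp only
    rw [← this]
    congr 1
    push_cast
    ring
  have h2 := hp.intervalIntegral_add_eq (z.im - Real.pi) 0
  rw [zero_add] at h2
  exact h2


theorem lh_fderiv_per {u : ℂ → ℝ} {c : ℂ} (h : ∀ z, u (z + c) = u z) (z : ℂ) :
    fderiv ℝ u (z + c) = fderiv ℝ u z := by
  rw [← fderiv_comp_add_right]
  congr 1
  funext w
  exact h w

theorem lh_norm_sq (ρ : ℝ) (u u' : ℂ → ℝ) (z : ℂ) : ‖lh_F ρ u z - lh_F ρ u' z‖ ^ 2 =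
    (aof ρ u z - aof ρ u' z) ^ 2 + (bof ρ u z - bof ρ u' z) ^ 2 := by
  have h1 : lh_F ρ u z - lh_F ρ u' z = cexp ((-(ρ * z.im) : ℝ) * I) *
      (((aof ρ u z - aof ρ u' z : ℝ) : ℂ) + ((-(bof ρ u z - bof ρ u' z) : ℝ) : ℂ) * I) := by
    unfold lh_F
    push_cast
    ring
  rw [h1, norm_mul, Complex.norm_exp_ofReal_mul_I, one_mul, ← Complex.normSq_eq_norm_sq,
    Complex.normSq_add_mul_I]
  ring

/-- the key estimate on a box -/
theorem lh_box_est {ρ : ℝ} (hρ : 0 < ρ) {u u' : ℂ → ℝ} (hu : ContDiff ℝ 3 u) (hu' : ContDiff ℝ 3 u')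
    (x0 A B : ℝ) (hA : ∫ z in box x0 (x0 + 1), (u z - u' z) ^ 2 ≤ A)
    (hB : ∫ z in box x0 (x0 + 1), ((dx u z - dx u' z) ^ 2 + (dy u z - dy u' z) ^ 2) ≤ B) :
    ∫ z in box x0 (x0 + 1), ‖lh_F ρ u z - lh_F ρ u' z‖ ^ 2 ≤ 2 * A + 2 / ρ ^ 2 * B := by
  have hdx : Continuous (dx u) := (lh_dx_smooth (n := 2) (by exact_mod_cast hu)).continuous
  have hdy : Continuous (dy u) := (lh_dy_smooth (n := 2) (by exact_mod_cast hu)).continuous
  have hdx' : Continuous (dx u') := (lh_dx_smooth (n := 2) (by exact_mod_cast hu')).continuous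
  have hdy' : Continuous (dy u') := (lh_dy_smooth (n := 2) (by exact_mod_cast hu')).continuous
  have huc := hu.continuous
  have huc' := hu'.continuous
  have hbox : IsCompact (box x0 (x0 + 1)) := lh_rect_compact _ _ _ _
  have i1 : IntegrableOn (fun z => (u z - u' z) ^ 2) (box x0 (x0 + 1)) :=
    (by fun_prop : Continuous (fun z => (u z - u' z) ^ 2)).continuousOn.integrableOn_compact hbox
  have i2 : IntegrableOn (fun z => ((dx u z - dx u' z) ^ 2 + (dy u z - dy u' z) ^ 2)) (box x0 (x0 + 1)) :=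
    (by fun_prop : Continuous (fun z => ((dx u z - dx u' z) ^ 2 + (dy u z - dy u' z) ^ 2))).continuousOn.integrableOn_compact hbox
  have hac : Continuous (aof ρ u) := by
    unfold aof
    exact huc.add (hdx.div_const ρ)
  have hac' : Continuous (aof ρ u') := by
    unfold aof
    exact huc'.add (hdx'.div_const ρ)
  have hbc : Continuous (bof ρ u) := by
    unfold bof
    exact (hdy.div_const ρ)
  have hbc' : Continuous (bof ρ u') := by
    unfold bof
    exact (hdy'.div_const ρ)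
  simp only [lh_norm_sq]
  have i3 : IntegrableOn (fun z => (aof ρ u z - aof ρ u' z) ^ 2 + (bof ρ u z - bof ρ u' z) ^ 2)
      (box x0 (x0 + 1)) :=
    (by fun_prop : Continuous (fun z => (aof ρ u z - aof ρ u' z) ^ 2 +
      (bof ρ u z - bof ρ u' z) ^ 2)).continuousOn.integrableOn_compact hbox
  have h1 : ∫ z in box x0 (x0 + 1), ((aof ρ u z - aof ρ u' z) ^ 2 + (bof ρ u z - bof ρ u' z) ^ 2) ≤
      ∫ z in box x0 (x0 + 1), (2 * (u z - u' z) ^ 2 +
        2 / ρ ^ 2 * ((dx u z - dx u' z) ^ 2 + (dy u z - dy u' z) ^ 2)) := by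
    apply integral_mono i3 ((i1.const_mul 2).add (i2.const_mul (2 / ρ ^ 2)))
    intro z
    simp only [aof, bof]
    have e1 : (dx u z / ρ - dx u' z / ρ) ^ 2 = 1 / ρ ^ 2 * (dx u z - dx u' z) ^ 2 := by
      field_simp
    have e2 : (dy u z / ρ - dy u' z / ρ) ^ 2 = 1 / ρ ^ 2 * (dy u z - dy u' z) ^ 2 := by
      field_simp
    have e3 : (u z + dx u z / ρ - (u' z + dx u' z / ρ)) ^ 2 ≤
        2 * (u z - u' z) ^ 2 + 2 * (dx u z / ρ - dx u' z / ρ) ^ 2 := by
      nlinarith [sq_nonneg ((u z - u' z) - (dx u z / ρ - dx u' z / ρ))]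
    have e4 : (0 : ℝ) ≤ 1 / ρ ^ 2 * (dy u z - dy u' z) ^ 2 := by positivity
    rw [e1] at e3
    rw [e2]
    have e5 : 2 / ρ ^ 2 * ((dx u z - dx u' z) ^ 2 + (dy u z - dy u' z) ^ 2) =
        2 * (1 / ρ ^ 2 * (dx u z - dx u' z) ^ 2) + 2 * (1 / ρ ^ 2 * (dy u z - dy u' z) ^ 2) := by ring
    simp only [Pi.add_apply]
    rw [e5]
    linarith
  refine h1.trans ?_
  rw [integral_add (i1.const_mul 2) (i2.const_mul (2 / ρ ^ 2)), integral_const_mul, integral_const_mul]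
  have e6 : (0 : ℝ) ≤ 2 / ρ ^ 2 := by positivity
  have e7 := mul_le_mul_of_nonneg_left hB e6
  linarith

/-- the pointwise estimate -/
theorem lh_pt_est {ρ : ℝ} (hρ : 0 < ρ) {u u' : ℂ → ℝ} (hu : ContDiff ℝ 3 u) (hu' : ContDiff ℝ 3 u')
    (hp : ∀ z, u (z + 2 * Real.pi * I) = u z) (hp' : ∀ z, u' (z + 2 * Real.pi * I) = u' z)
    (A B : ℝ) (hA : ∀ x0 : ℝ, ∫ z in box x0 (x0 + 1), (u z - u' z) ^ 2 ≤ A)
    (hB : ∀ x0 : ℝ, ∫ z in box x0 (x0 + 1), ((dx u z - dx u' z) ^ 2 + (dy u z - dy u' z) ^ 2) ≤ B)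
    (z : ℂ) (R s : ℝ) (hs : 0 < s) (hs2 : s ≤ 1 / 2) (hsR : s < R)
    (h0 : ∀ w ∈ Metric.ball z R, Lop ρ u w = 0) (h0' : ∀ w ∈ Metric.ball z R, Lop ρ u' w = 0) :
    ‖lh_F ρ u z - lh_F ρ u' z‖ ^ 2 ≤ (2 * A + 2 / ρ ^ 2 * B) / (Real.pi * s ^ 2) := by
  have hd : DifferentiableOn ℂ (fun w => lh_F ρ u w - lh_F ρ u' w) (Metric.ball z R) := by
    intro w hw
    exact ((lh_hasDeriv hρ hu w (h0 w hw)).differentiableAt.sub
      (lh_hasDeriv hρ hu' w (h0' w hw)).differentiableAt).differentiableWithinAt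
  have h1 := lh_mv hd s hs hsR
  have hdx : Continuous (dx u) := (lh_dx_smooth (n := 2) (by exact_mod_cast hu)).continuous
  have hdy : Continuous (dy u) := (lh_dy_smooth (n := 2) (by exact_mod_cast hu)).continuous
  have hdx' : Continuous (dx u') := (lh_dx_smooth (n := 2) (by exact_mod_cast hu')).continuous
  have hdy' : Continuous (dy u') := (lh_dy_smooth (n := 2) (by exact_mod_cast hu')).continuous
  have huc := hu.continuous
  have huc' := hu'.continuous
  have hac : Continuous (aof ρ u) := by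
    unfold aof
    exact huc.add (hdx.div_const ρ)
  have hac' : Continuous (aof ρ u') := by
    unfold aof
    exact huc'.add (hdx'.div_const ρ)
  have hbc : Continuous (bof ρ u) := by
    unfold bof
    exact (hdy.div_const ρ)
  have hbc' : Continuous (bof ρ u') := by
    unfold bof
    exact (hdy'.div_const ρ)
  have hg : Continuous (fun w => ‖lh_F ρ u w - lh_F ρ u' w‖ ^ 2) := by
    simp only [lh_norm_sq]
    fun_prop
  have hgp : ∀ w, ‖lh_F ρ u (w + 2 * Real.pi * I) - lh_F ρ u' (w + 2 * Real.pi * I)‖ ^ 2 =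
      ‖lh_F ρ u w - lh_F ρ u' w‖ ^ 2 := by
    intro w
    simp only [lh_norm_sq, aof, bof, dx, dy]
    rw [lh_fderiv_per hp, lh_fderiv_per hp', hp, hp']
  have h2 := lh_cover _ hg (fun w => by positivity) hgp z s hs2
  have h3 := lh_box_est hρ hu hu' (z.re - 1 / 2) A B (hA _) (hB _)
  rw [le_div_iff₀ (by have := Real.pi_pos; positivity)]
  calc _ = Real.pi * s ^ 2 * ‖lh_F ρ u z - lh_F ρ u' z‖ ^ 2 := by ring
    _ ≤ _ := (h1.trans h2).trans h3


/-- TARGET -/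
theorem local_holo {ρ : ℝ} {h ω : ℝ → ℝ} (hd : Dat ρ h ω) (C : ℝ) (U : ℂ → ℝ) (hU : ClsS ρ h C ω U)
    (z0 : ℂ) (r δ1 : ℝ) (hr : 0 < r) (hδ1 : 0 < δ1)
    (h0 : ∀ δ ∈ Ioc (0 : ℝ) δ1, ∀ z ∈ Metric.ball z0 r, Lop ρ (moll δ U) z = 0) :
    ∃ Q : ℂ → ℂ, DifferentiableOn ℂ Q (Metric.ball z0 (r / 2)) ∧
      TendstoUniformlyOn (fun (δ : ℝ) (z : ℂ) => cexp (-(ρ * z.im : ℝ) * I) *
        ((aof ρ (moll δ U) z : ℂ) - I * (bof ρ (moll δ U) z : ℂ))) Q (𝓝[>] 0) (Metric.closedBall z0 (r / 4)) ∧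
      TendstoUniformlyOn (fun (δ : ℝ) (z : ℂ) => cexp (-(ρ * z.im : ℝ) * I) *
        ((dx (aof ρ (moll δ U)) z : ℂ) - I * (dx (bof ρ (moll δ U)) z : ℂ))) (deriv Q) (𝓝[>] 0)
        (Metric.closedBall z0 (r / 4)) := by
  have hρ := hd.rho
  obtain ⟨M3, δ2, hδ2, hδ21, hM3, hl2⟩ := moll_l2_cauchy hd C
  obtain ⟨κ, δ3, hδ3, hδ31, hκ, hh1⟩ := moll_h1_cauchy hd C
  set δ0 := min δ1 (min δ2 δ3) with hδ0
  have hδ0p : 0 < δ0 := lt_min hδ1 (lt_min hδ2 hδ3)
  have m1 : δ0 ≤ δ1 := min_le_left _ _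
  have m2 : δ0 ≤ δ2 := (min_le_right _ _).trans (min_le_left _ _)
  have m3 : δ0 ≤ δ3 := (min_le_right _ _).trans (min_le_right _ _)
  set s := min (r / 8) (1 / 2) with hs
  have hsp : 0 < s := lt_min (by linarith) (by norm_num)
  have hs1 : s ≤ 1 / 2 := min_le_right _ _
  have hs2 : s < r / 4 := (min_le_left _ _).trans_lt (by linarith)
  have hsm : ∀ δ ∈ Ioc (0 : ℝ) δ0, ContDiff ℝ 3 (moll δ U) := fun δ hδ => by
    exact_mod_cast moll_contDiff δ hδ.1 U hU.loc 3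
  have hp : ∀ δ : ℝ, ∀ z, moll δ U (z + 2 * Real.pi * I) = moll δ U z := fun δ z => moll_per hU δ z
  have hballs : ∀ z ∈ Metric.ball z0 (3 * r / 4), Metric.ball z (r / 4) ⊆ Metric.ball z0 r := by
    intro z hz w hw
    rw [Metric.mem_ball] at hz hw ⊢
    have := dist_triangle w z z0
    linarith
  set η : ℝ × ℝ → ℝ := fun p => (2 * (M3 * (p.1 + p.2) ^ 2) + 2 / ρ ^ 2 * (κ p.1 + κ p.2)) /
    (Real.pi * s ^ 2) with hη
  have hest : ∀ δ ∈ Ioc (0 : ℝ) δ0, ∀ δ' ∈ Ioc (0 : ℝ) δ0, ∀ z ∈ Metric.ball z0 (3 * r / 4),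
      ‖lh_F ρ (moll δ U) z - lh_F ρ (moll δ' U) z‖ ^ 2 ≤ η (δ, δ') := by
    intro δ hδ δ' hδ' z hz
    apply lh_pt_est hρ (hsm δ hδ) (hsm δ' hδ') (hp δ) (hp δ') _ _ _ _ z (r / 4) s hsp hs1 hs2
    · intro w hw
      exact h0 δ ⟨hδ.1, hδ.2.trans m1⟩ w (hballs z hz hw)
    · intro w hw
      exact h0 δ' ⟨hδ'.1, hδ'.2.trans m1⟩ w (hballs z hz hw)
    · intro x0
      exact hl2 U hU δ ⟨hδ.1, hδ.2.trans m2⟩ δ' ⟨hδ'.1, hδ'.2.trans m2⟩ x0
    · intro x0
      exact hh1 U hU δ ⟨hδ.1, hδ.2.trans m3⟩ δ' ⟨hδ'.1, hδ'.2.trans m3⟩ x0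
  have hηlim : Tendsto η (𝓝[>] 0 ×ˢ 𝓝[>] 0) (𝓝 0) := by
    have hid : Tendsto (fun δ : ℝ => δ) (𝓝[>] 0) (𝓝 0) := tendsto_id.mono_left nhdsWithin_le_nhds
    have t1 : Tendsto (fun p : ℝ × ℝ => p.1) (𝓝[>] 0 ×ˢ 𝓝[>] 0) (𝓝 0) := hid.comp tendsto_fst
    have t2 : Tendsto (fun p : ℝ × ℝ => p.2) (𝓝[>] 0 ×ˢ 𝓝[>] 0) (𝓝 0) := hid.comp tendsto_snd
    have t3 : Tendsto (fun p : ℝ × ℝ => κ p.1) (𝓝[>] 0 ×ˢ 𝓝[>] 0) (𝓝 0) := hκ.comp tendsto_fst
    have t4 : Tendsto (fun p : ℝ × ℝ => κ p.2) (𝓝[>] 0 ×ˢ 𝓝[>] 0) (𝓝 0) := hκ.comp tendsto_snd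
    have t5 := (((((t1.add t2).pow 2).const_mul M3).const_mul 2).add
      ((t3.add t4).const_mul (2 / ρ ^ 2))).div_const (Real.pi * s ^ 2)
    simpa using t5
  have hIoc : Ioc (0 : ℝ) δ0 ∈ 𝓝[>] (0 : ℝ) := Ioc_mem_nhdsGT hδ0p
  have hUC : UniformCauchySeqOn (fun (δ : ℝ) (z : ℂ) => lh_F ρ (moll δ U) z) (𝓝[>] 0)
      (Metric.ball z0 (3 * r / 4)) := by
    intro V hV
    obtain ⟨ε, hε, hεV⟩ := Metric.mem_uniformity_dist.1 hV
    have h1 : ∀ᶠ p in (𝓝[>] (0 : ℝ) ×ˢ 𝓝[>] (0 : ℝ)), η p < ε ^ 2 :=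
      hηlim.eventually (gt_mem_nhds (by positivity))
    have h2 : ∀ᶠ p in (𝓝[>] (0 : ℝ) ×ˢ 𝓝[>] (0 : ℝ)), p.1 ∈ Ioc (0 : ℝ) δ0 ∧ p.2 ∈ Ioc (0 : ℝ) δ0 :=
      prod_mem_prod hIoc hIoc
    filter_upwards [h1, h2] with p h3 h4 z hz
    apply hεV
    rw [dist_eq_norm]
    have h5 := hest p.1 h4.1 p.2 h4.2 z hz
    exact lt_of_pow_lt_pow_left₀ 2 hε.le (h5.trans_lt h3)
  set Q : ℂ → ℂ := fun z => limUnder (𝓝[>] (0 : ℝ)) (fun δ : ℝ => lh_F ρ (moll δ U) z) with hQ
  have hlim : ∀ z ∈ Metric.ball z0 (3 * r / 4),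
      Tendsto (fun δ : ℝ => lh_F ρ (moll δ U) z) (𝓝[>] 0) (𝓝 (Q z)) := by
    intro z hz
    apply tendsto_nhds_limUnder
    exact cauchy_map_iff_exists_tendsto.1 (hUC.cauchy_map hz)
  have hTU := hUC.tendstoUniformlyOn_of_tendsto hlim
  have hdiff : ∀ᶠ δ in 𝓝[>] (0 : ℝ), DifferentiableOn ℂ ((fun (δ : ℝ) (z : ℂ) => lh_F ρ (moll δ U) z) δ)
      (Metric.ball z0 (3 * r / 4)) := by
    filter_upwards [hIoc] with δ hδ z hz
    refine (lh_hasDeriv hρ (hsm δ hδ) z (h0 δ ⟨hδ.1, hδ.2.trans m1⟩ z ?_)).differentiableAt.differentiableWithinAt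
    exact Metric.ball_subset_ball (by linarith) hz
  have hloc := hTU.tendstoLocallyUniformlyOn
  have hQd := hloc.differentiableOn hdiff Metric.isOpen_ball
  have hder := hloc.deriv hdiff Metric.isOpen_ball
  have hsub : Metric.closedBall z0 (r / 4) ⊆ Metric.ball z0 (3 * r / 4) :=
    Metric.closedBall_subset_ball (by linarith)
  refine ⟨Q, hQd.mono (Metric.ball_subset_ball (by linarith)), hTU.mono hsub, ?_⟩
  have h6 := (tendstoLocallyUniformlyOn_iff_tendstoUniformlyOn_of_compact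
    (isCompact_closedBall z0 (r / 4))).1 (hder.mono hsub)
  refine h6.congr ?_
  filter_upwards [hIoc] with δ hδ z hz
  exact (lh_hasDeriv hρ (hsm δ hδ) z (h0 δ ⟨hδ.1, hδ.2.trans m1⟩ z
    (Metric.ball_subset_ball (by linarith) (hsub hz)))).deriv

end M_W5b
end Pool.Agent.Helper758.LS
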