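import Mathlib
import Pool.Agent.Helper758.LSDefs
import Pool.Agent.Helper758.LSDefs2
import Pool.Agent.Helper758.LS_B1
import Pool.Agent.Helper758.LS_B2
import Pool.Agent.Helper758.LS_B3
import Pool.Agent.Helper758.LS_B4
import Pool.Agent.Helper758.LS_B5
import Pool.Agent.Helper758.LS_MOL
import Pool.Agent.Helper758.LS_W5a
import Pool.Agent.Helper758.LS_W5b

namespace Pool.Agent.Helper758.LS
open MeasureTheory Filter Topology Set Complex
open M_B1 (moll_bdd moll_per moll_upper)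
open M_B2 (grad_bdd)
open M_B3 (moll_h1_cauchy moll_l2_cauchy)
open M_B4 (dx_bdd)
open M_B5 (moll_tendsto_l2 second_conv)
open M_MOL (dx_moll_smooth dy_moll_smooth moll_add_const moll_comm moll_contDiff moll_l1 moll_symm moll_tendsto_l1 psid_props)
open M_W5a (cont_rep)
open M_W5b (local_holo)
namespace M_W5c


























/-! ### helper lemmas -/

theorem h170_smooth (δ : ℝ) (hδ : 0 < δ) (u : ℂ → ℝ) (hu : LocallyIntegrable u volume) :
    ContDiff ℝ (⊤ : ℕ∞) (moll δ u) := by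
  rw [contDiff_infty]
  exact fun n => moll_contDiff δ hδ u hu n

theorem h170_dir_smooth {u : ℂ → ℝ} (hu : ContDiff ℝ (⊤ : ℕ∞) u) (e : ℂ) :
    ContDiff ℝ (⊤ : ℕ∞) (fun z => fderiv ℝ u z e) := by
  have h1 : ContDiff ℝ (⊤ : ℕ∞) (fderiv ℝ u) := hu.fderiv_right (by norm_cast)
  exact h1.clm_apply contDiff_const

theorem h170_dx_smooth {u : ℂ → ℝ} (hu : ContDiff ℝ (⊤ : ℕ∞) u) : ContDiff ℝ (⊤ : ℕ∞) (dx u) :=
  h170_dir_smooth hu 1

theorem h170_dy_smooth {u : ℂ → ℝ} (hu : ContDiff ℝ (⊤ : ℕ∞) u) : ContDiff ℝ (⊤ : ℕ∞) (dy u) :=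
  h170_dir_smooth hu I

theorem h170_aof_smooth {ρ : ℝ} {u : ℂ → ℝ} (hu : ContDiff ℝ (⊤ : ℕ∞) u) : ContDiff ℝ (⊤ : ℕ∞) (aof ρ u) := by
  unfold aof
  exact hu.add ((h170_dx_smooth hu).div_const ρ)

theorem h170_bof_smooth {ρ : ℝ} {u : ℂ → ℝ} (hu : ContDiff ℝ (⊤ : ℕ∞) u) : ContDiff ℝ (⊤ : ℕ∞) (bof ρ u) := by
  unfold bof
  exact (h170_dy_smooth hu).div_const ρ

theorem h170_diff {u : ℂ → ℝ} (hu : ContDiff ℝ (⊤ : ℕ∞) u) : Differentiable ℝ u :=
  hu.differentiable (by simp)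

theorem h170_dx_aof {ρ : ℝ} {u : ℂ → ℝ} (hu : ContDiff ℝ (⊤ : ℕ∞) u) (z : ℂ) :
    dx (aof ρ u) z = dx u z + dx (dx u) z / ρ := by
  have h1 := (h170_diff hu z).hasFDerivAt
  have h2 := ((h170_diff (h170_dx_smooth hu)) z).hasFDerivAt
  have h3 : HasFDerivAt (aof ρ u) (fderiv ℝ u z + ρ⁻¹ • fderiv ℝ (dx u) z) z := by
    have h4 := h1.add (h2.const_smul ρ⁻¹)
    refine h4.congr_of_eventuallyEq ?_
    refine Filter.Eventually.of_forall fun w => ?_
    simp only [aof, Pi.add_apply, Pi.smul_apply, smul_eq_mul]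
    ring
  unfold dx at h3 ⊢
  rw [h3.fderiv]
  simp only [add_apply, smul_apply, smul_eq_mul]
  ring

theorem h170_symm {u : ℂ → ℝ} (hu : ContDiff ℝ (⊤ : ℕ∞) u) (z : ℂ) : dx (dy u) z = dy (dx u) z := by
  have hsym : IsSymmSndFDerivAt ℝ u z := (hu.contDiffAt).isSymmSndFDerivAt (by
    rw [minSmoothness_of_isRCLikeNormedField]
    show ((2 : ℕ∞) : WithTop ℕ∞) ≤ ((⊤ : ℕ∞) : WithTop ℕ∞)
    exact WithTop.coe_le_coe.2 le_top)
  have hd : DifferentiableAt ℝ (fderiv ℝ u) z :=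
    ((hu.fderiv_right (m := (⊤ : ℕ∞)) (by norm_cast)).differentiable (by simp)) z
  have h1 : ∀ e f : ℂ, fderiv ℝ (fun w => fderiv ℝ u w e) z f = fderiv ℝ (fderiv ℝ u) z f e := by
    intro e f
    have h2 := hd.hasFDerivAt.clm_apply (hasFDerivAt_const e z)
    rw [h2.fderiv]
    simp
  unfold dx dy
  rw [h1, h1]
  exact hsym 1 I

theorem h170_dx_bof {ρ : ℝ} {u : ℂ → ℝ} (hu : ContDiff ℝ (⊤ : ℕ∞) u) (z : ℂ) :
    dx (bof ρ u) z = dy (dx u) z / ρ := by
  have h2 := ((h170_diff (h170_dy_smooth hu)) z).hasFDerivAt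
  have h3 : HasFDerivAt (bof ρ u) (ρ⁻¹ • fderiv ℝ (dy u) z) z := by
    refine (h2.const_smul ρ⁻¹).congr_of_eventuallyEq ?_
    refine Filter.Eventually.of_forall fun w => ?_
    simp only [bof, Pi.smul_apply, smul_eq_mul]
    ring
  rw [← h170_symm hu z]
  unfold dx at h3 ⊢
  rw [h3.fderiv]
  simp only [smul_apply, smul_eq_mul]
  ring

/-! squares -/

theorem h170_bQ_eq (K : ℝ) : bQ K = (Complex.re ⁻¹' Icc (-K) K) ∩ (Complex.im ⁻¹' Icc (-K) K) := by
  ext z
  simp only [bQ, mem_ofPred_eq, mem_inter_iff, mem_preimage, mem_Icc, abs_le]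

theorem h170_bQ_closed (K : ℝ) : IsClosed (bQ K) := by
  rw [h170_bQ_eq]
  exact (isClosed_Icc.preimage Complex.continuous_re).inter (isClosed_Icc.preimage Complex.continuous_im)

theorem h170_bQ_meas (K : ℝ) : MeasurableSet (bQ K) := (h170_bQ_closed K).measurableSet

theorem h170_bQ_compact (K : ℝ) : IsCompact (bQ K) := by
  refine Metric.isCompact_of_isClosed_isBounded (h170_bQ_closed K) ?_
  refine (Metric.isBounded_closedBall (x := (0 : ℂ)) (r := 2 * K)).subset ?_
  intro z hz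
  rw [mem_closedBall_zero_iff]
  have := Complex.norm_le_abs_re_add_abs_im z
  linarith [hz.1, hz.2]

theorem h170_bQ_fin (K : ℝ) : IsFiniteMeasure ((volume : Measure ℂ).restrict (bQ K)) :=
  ⟨by rw [Measure.restrict_apply_univ]; exact (h170_bQ_compact K).measure_lt_top⟩

theorem h170_bQ_nhds (z : ℂ) : bQ (‖z‖ + 1) ∈ 𝓝 z := by
  refine Filter.mem_of_superset (Metric.ball_mem_nhds z one_pos) ?_
  intro w hw
  rw [Metric.mem_ball, dist_eq_norm] at hw
  have h1 : ‖w‖ ≤ ‖z‖ + 1 := by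
    have := norm_add_le z (w - z)
    rw [add_sub_cancel] at this
    linarith
  exact ⟨(Complex.abs_re_le_norm w).trans h1, (Complex.abs_im_le_norm w).trans h1⟩

theorem h170_bQ_mono {K K' : ℝ} (h : K ≤ K') : bQ K ⊆ bQ K' := fun z hz => ⟨hz.1.trans h, hz.2.trans h⟩

theorem h170_ae_bQ {P : ℂ → Prop} (h : ∀ n : ℕ, ∀ᵐ z ∂(volume.restrict (bQ n)), P z) : ∀ᵐ z : ℂ, P z := by
  have h1 : (⋃ n : ℕ, bQ (n : ℝ)) = univ := by
    rw [eq_univ_iff_forall]
    intro z
    obtain ⟨n, hn⟩ := exists_nat_ge ‖z‖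
    exact mem_iUnion.2 ⟨n, (Complex.abs_re_le_norm z).trans hn, (Complex.abs_im_le_norm z).trans hn⟩
  rw [← Measure.restrict_univ (μ := (volume : Measure ℂ)), ← h1]
  rw [ae_restrict_iUnion_iff]
  exact h

theorem h170_locint {f : ℂ → ℝ} (hf : ∀ K, MemLp f 2 (volume.restrict (bQ K))) : LocallyIntegrable f volume := by
  intro z
  have := h170_bQ_fin (‖z‖ + 1)
  refine ⟨bQ (‖z‖ + 1), h170_bQ_nhds z, ?_⟩
  exact (hf (‖z‖ + 1)).integrable (by norm_num)

theorem h170_cont_memLp {f : ℂ → ℝ} (hf : Continuous f) (K : ℝ) : MemLp f 2 (volume.restrict (bQ K)) := by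
  have := h170_bQ_fin K
  obtain ⟨C, hC⟩ := (h170_bQ_compact K).exists_bound_of_continuousOn hf.continuousOn
  refine MemLp.of_bound hf.aestronglyMeasurable C ?_
  exact (ae_restrict_iff' (h170_bQ_meas K)).2 (Filter.Eventually.of_forall hC)

/-- Cauchy-Schwarz -/
theorem h170_cs {X : Type} [MeasurableSpace X] {μ : Measure X} (f g : X → ℝ) (hf : MemLp f 2 μ) (hg : MemLp g 2 μ) :
    ∫ x, |f x| * |g x| ∂μ ≤ √(∫ x, f x ^ 2 ∂μ) * √(∫ x, g x ^ 2 ∂μ) := by
  have h2 : ENNReal.ofReal (2:ℝ) = 2 := by norm_num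
  have h := integral_mul_le_Lp_mul_Lq_of_nonneg (μ := μ) Real.HolderConjugate.two_two
    (f := fun x => |f x|) (g := fun x => |g x|)
    (Filter.Eventually.of_forall fun x => abs_nonneg _) (Filter.Eventually.of_forall fun x => abs_nonneg _)
    (by rw [h2]; exact hf.abs) (by rw [h2]; exact hg.abs)
  have e1 : ∀ f : X → ℝ, (∫ x, |f x| ^ (2:ℝ) ∂μ) ^ (1 / 2 : ℝ) = √(∫ x, f x ^ 2 ∂μ) := by
    intro f
    rw [← Real.sqrt_eq_rpow]
    congr 1
    refine integral_congr_ae (Filter.Eventually.of_forall fun x => ?_)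
    simp only
    rw [Real.rpow_two, sq_abs]
  rw [e1, e1] at h
  exact h

/-! linearity of the mollification -/

theorem h170_psid_cont (δ : ℝ) (hδ : 0 < δ) : Continuous (psid δ) := ((psid_props δ hδ).1 0).continuous

theorem h170_psid_int (δ : ℝ) (hδ : 0 < δ) {u : ℂ → ℝ} (hu : LocallyIntegrable u volume) (z : ℂ) :
    Integrable (fun w => psid δ (z - w) * u w) := by
  have hc : Continuous (fun w => psid δ (z - w)) := (h170_psid_cont δ hδ).comp (continuous_const.sub continuous_id)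
  have hs : HasCompactSupport (fun w => psid δ (z - w)) := by
    have h1 := (psid_props δ hδ).2.1
    exact h1.comp_homeomorph (Homeomorph.subLeft z)
  exact hu.integrable_smul_left_of_hasCompactSupport hc hs

theorem h170_moll_add (δ : ℝ) (hδ : 0 < δ) {u v : ℂ → ℝ} (hu : LocallyIntegrable u volume)
    (hv : LocallyIntegrable v volume) (c : ℝ) (z : ℂ) :
    moll δ (fun w => u w + c * v w) z = moll δ u z + c * moll δ v z := by
  unfold moll
  rw [← integral_const_mul, ← integral_add (h170_psid_int δ hδ hu z) ((h170_psid_int δ hδ hv z).const_mul c)]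
  refine integral_congr_ae (Filter.Eventually.of_forall fun w => ?_)
  simp only
  ring

theorem h170_moll_congr (δ : ℝ) {u v : ℂ → ℝ} (h : ∀ᵐ z : ℂ, u z = v z) (z : ℂ) : moll δ u z = moll δ v z := by
  unfold moll
  refine integral_congr_ae ?_
  filter_upwards [h] with w hw
  rw [hw]

theorem h170_moll_zero (δ : ℝ) {u : ℂ → ℝ} (h : ∀ᵐ z : ℂ, u z = 0) (z : ℂ) : moll δ u z = 0 := by
  rw [h170_moll_congr δ h z]
  unfold moll
  simp

/-! cut-off function -/

noncomputable def h170B : ContDiffBump (0 : ℝ) := ⟨1, 2, one_pos, one_lt_two⟩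

noncomputable def h170k (s : ℝ) : ℝ := h170B s

noncomputable def h170q (s : ℝ) : ℝ := ∫ r in (0:ℝ)..s, h170k r

theorem h170k_cont : Continuous h170k := h170B.continuous

theorem h170k_nonneg (s : ℝ) : 0 ≤ h170k s := h170B.nonneg

theorem h170k_le (s : ℝ) : h170k s ≤ 1 := h170B.le_one

theorem h170k_zero : h170k 0 = 1 := h170B.one_of_mem_closedBall (by simp [h170B])

theorem h170k_far (s : ℝ) (hs : 2 ≤ |s|) : h170k s = 0 := by
  refine h170B.zero_of_le_dist ?_
  rw [Real.dist_eq, sub_zero]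
  exact hs

theorem h170k_lip : ∃ L : ℝ, 0 ≤ L ∧ ∀ a b, |h170k a - h170k b| ≤ L * |a - b| := by
  obtain ⟨C, hC⟩ := ContDiff.lipschitzWith_of_hasCompactSupport (𝕂 := ℝ) h170B.hasCompactSupport
    (h170B.contDiff (n := 1)) one_ne_zero
  refine ⟨C, C.2, fun a b => ?_⟩
  have := hC.dist_le_mul a b
  rwa [Real.dist_eq, Real.dist_eq] at this

theorem h170q_deriv (s : ℝ) : HasDerivAt h170q (h170k s) s :=
  (h170k_cont.integral_hasStrictDerivAt 0 s).hasDerivAt

theorem h170q_bdd : ∃ C : ℝ, 0 ≤ C ∧ ∀ s, |h170q s| ≤ C := by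
  have hi : Integrable h170k := h170k_cont.integrable_of_hasCompactSupport h170B.hasCompactSupport
  refine ⟨∫ r, ‖h170k r‖, integral_nonneg fun r => norm_nonneg _, fun s => ?_⟩
  unfold h170q
  rw [← Real.norm_eq_abs]
  refine (intervalIntegral.norm_integral_le_integral_norm_uIoc).trans ?_
  exact setIntegral_le_integral hi.norm (Filter.Eventually.of_forall fun r => norm_nonneg _)

theorem h170q_lip (a b : ℝ) : |h170q a - h170q b| ≤ |a - b| := by
  unfold h170q
  rw [intervalIntegral.integral_interval_sub_left (h170k_cont.intervalIntegrable _ _)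
    (h170k_cont.intervalIntegrable _ _)]
  have h := intervalIntegral.norm_integral_le_of_norm_le_const (a := b) (b := a) (f := h170k) (C := 1)
    (fun x _ => by rw [Real.norm_of_nonneg (h170k_nonneg x)]; exact h170k_le x)
  rw [one_mul] at h
  exact h

/-- the identity with the test function, in the limit -/
theorem h170_t1_id (v G : ℂ → ℝ) (hv : ∀ K, MemLp v 2 (volume.restrict (bQ K)))
    (hG : ∀ K, MemLp G 2 (volume.restrict (bQ K))) (e : ℂ)
    (hw : ∀ δ > 0, ∀ z, fderiv ℝ (moll δ v) z e = moll δ G z) (ζ : ℂ → ℝ) (hζ : ContDiff ℝ (⊤ : ℕ∞) ζ)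
    (hζs : HasCompactSupport ζ) (ε : ℝ) (hε : 0 < ε) :
    (∫ z, ε * h170q (v z / ε) * fderiv ℝ ζ z e) + ∫ z, h170k (v z / ε) * G z * ζ z = 0 := by
  have hvl := h170_locint hv
  have hGl := h170_locint hG
  obtain ⟨L, hL0, hL⟩ := h170k_lip
  -- the support of ζ lies in a square
  obtain ⟨K, hK⟩ : ∃ K : ℝ, tsupport ζ ⊆ bQ K := by
    obtain ⟨R, hR⟩ := hζs.isCompact.isBounded.subset_closedBall 0
    refine ⟨R, fun z hz => ?_⟩
    have h1 := hR hz
    rw [mem_closedBall_zero_iff] at h1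
    exact ⟨(Complex.abs_re_le_norm z).trans h1, (Complex.abs_im_le_norm z).trans h1⟩
  have hζ0 : ∀ z, z ∉ bQ K → ζ z = 0 := fun z hz => image_eq_zero_of_notMem_tsupport (fun h => hz (hK h))
  have hζe0 : ∀ z, z ∉ bQ K → fderiv ℝ ζ z e = 0 := by
    intro z hz
    have h1 : fderiv ℝ ζ z = 0 := image_eq_zero_of_notMem_tsupport (fun h => hz (hK (tsupport_fderiv_subset ℝ h)))
    rw [h1]; rfl
  have hζc : Continuous ζ := hζ.continuous
  have hζec : Continuous (fun z => fderiv ℝ ζ z e) := (h170_dir_smooth hζ e).continuous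
  have hζes : HasCompactSupport (fun z => fderiv ℝ ζ z e) := hζs.fderiv_apply ℝ e
  obtain ⟨C0, hC0⟩ := hζs.exists_bound_of_continuous hζc
  obtain ⟨C1, hC1⟩ := hζes.exists_bound_of_continuous hζec
  set C : ℝ := max C0 C1 with hCd
  have hC0' : ∀ z, |ζ z| ≤ C := fun z => (hC0 z).trans (le_max_left _ _)
  have hC1' : ∀ z, |fderiv ℝ ζ z e| ≤ C := fun z => (hC1 z).trans (le_max_right _ _)
  have hCn : 0 ≤ C := (abs_nonneg _).trans (hC0' 0)
  have hfin := h170_bQ_fin K
  have hvK := hv K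
  have hGK := hG K
  have hvi : Integrable v (volume.restrict (bQ K)) := hvK.integrable (by norm_num)
  have hGi : Integrable G (volume.restrict (bQ K)) := hGK.integrable (by norm_num)
  have hqc : Continuous h170q := continuous_iff_continuousAt.2 fun s => (h170q_deriv s).continuousAt
  -- reduce to integrals over the square
  have hA : ∀ f : ℂ → ℝ, (∫ z, f z * fderiv ℝ ζ z e) = ∫ z in bQ K, f z * fderiv ℝ ζ z e := by
    intro f
    refine (setIntegral_eq_integral_of_forall_compl_eq_zero fun z hz => ?_).symm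
    rw [hζe0 z hz, mul_zero]
  have hB : ∀ f : ℂ → ℝ, (∫ z, f z * ζ z) = ∫ z in bQ K, f z * ζ z := by
    intro f
    refine (setIntegral_eq_integral_of_forall_compl_eq_zero fun z hz => ?_).symm
    rw [hζ0 z hz, mul_zero]
  -- the identity for the mollified functions
  have hid : ∀ δ > 0, (∫ z in bQ K, ε * h170q (moll δ v z / ε) * fderiv ℝ ζ z e) +
      ∫ z in bQ K, h170k (moll δ v z / ε) * moll δ G z * ζ z = 0 := by
    intro δ hδ
    have hvs := h170_smooth δ hδ v hvl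
    have hGs := h170_smooth δ hδ G hGl
    have hd : ∀ z, HasFDerivAt (fun z => ε * h170q (moll δ v z / ε))
        ((h170k (moll δ v z / ε)) • fderiv ℝ (moll δ v) z) z := by
      intro z
      have h1 := ((h170_diff hvs) z).hasFDerivAt
      have h2 : HasDerivAt (fun s => ε * h170q (s / ε)) (h170k (moll δ v z / ε)) (moll δ v z) := by
        have h3 : HasDerivAt (fun s : ℝ => s / ε) (1 / ε) (moll δ v z) := (hasDerivAt_id _).div_const ε
        have h4 := ((h170q_deriv (moll δ v z / ε)).comp (moll δ v z) h3).const_mul ε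
        refine h4.congr_deriv ?_
        field_simp
      exact h2.comp_hasFDerivAt z h1
    have hfc : Continuous (fun z => ε * h170q (moll δ v z / ε)) := by
      have := hvs.continuous
      exact continuous_const.mul (hqc.comp (this.div_const ε))
    have hf'c : Continuous (fun z => h170k (moll δ v z / ε) * moll δ G z) := by
      have h1 := hvs.continuous
      exact (h170k_cont.comp (h1.div_const ε)).mul hGs.continuous
    have hfd : ∀ z, fderiv ℝ (fun z => ε * h170q (moll δ v z / ε)) z e = h170k (moll δ v z / ε) * moll δ G z := by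
      intro z
      rw [(hd z).fderiv]
      show h170k (moll δ v z / ε) * fderiv ℝ (moll δ v) z e = _
      rw [hw δ hδ z]
    have h := integral_mul_fderiv_eq_neg_fderiv_mul_of_integrable (μ := (volume : Measure ℂ)) (𝕜 := ℝ)
      (f := fun z => ε * h170q (moll δ v z / ε)) (g := ζ) (v := e)
      (by
        simp only [hfd]
        exact (hf'c.mul hζc).integrable_of_hasCompactSupport hζs.mul_left)
      ((hfc.mul hζec).integrable_of_hasCompactSupport hζes.mul_left)
      ((hfc.mul hζc).integrable_of_hasCompactSupport hζs.mul_left)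
      (fun z _ => (hd z).differentiableAt) (fun z _ => h170_diff hζ z)
    simp only [hfd] at h
    rw [hA, hB] at h
    rw [h]
    ring
  -- error estimate
  rw [hA, hB]
  set E : ℝ := (∫ z in bQ K, ε * h170q (v z / ε) * fderiv ℝ ζ z e) + ∫ z in bQ K, h170k (v z / ε) * G z * ζ z with hE
  have hest : ∀ δ > 0, |E| ≤ C * (∫ z in bQ K, |moll δ v z - v z|) + C * (∫ z in bQ K, |moll δ G z - G z|) +
      C * (L / ε) * (√(∫ z in bQ K, (moll δ v z - v z) ^ 2) * √(∫ z in bQ K, G z ^ 2)) := by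
    intro δ hδ
    have hvs := (h170_smooth δ hδ v hvl).continuous
    have hGs := (h170_smooth δ hδ G hGl).continuous
    have hvδ := h170_cont_memLp hvs K
    have hGδ := h170_cont_memLp hGs K
    have m1 : AEStronglyMeasurable (fun z => ε * h170q (v z / ε)) (volume.restrict (bQ K)) := by
      have hm : AEStronglyMeasurable (fun z => v z * (1 / ε)) (volume.restrict (bQ K)) := hvK.1.mul_const _
      have hm2 : AEStronglyMeasurable (fun z => v z / ε) (volume.restrict (bQ K)) := by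
        refine hm.congr (Filter.Eventually.of_forall fun z => ?_)
        simp only
        ring
      exact (hqc.comp_aestronglyMeasurable hm2).const_mul ε
    have m2 : AEStronglyMeasurable (fun z => h170k (v z / ε)) (volume.restrict (bQ K)) := by
      have hm : AEStronglyMeasurable (fun z => v z * (1 / ε)) (volume.restrict (bQ K)) := hvK.1.mul_const _
      have hm2 : AEStronglyMeasurable (fun z => v z / ε) (volume.restrict (bQ K)) := by
        refine hm.congr (Filter.Eventually.of_forall fun z => ?_)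
        simp only
        ring
      exact h170k_cont.comp_aestronglyMeasurable hm2
    obtain ⟨Cq, hCq0, hCq⟩ := h170q_bdd
    have i1 : Integrable (fun z => ε * h170q (v z / ε) * fderiv ℝ ζ z e) (volume.restrict (bQ K)) := by
      refine Integrable.mono' (integrable_const (ε * Cq * C)) (m1.mul hζec.aestronglyMeasurable)
        (Filter.Eventually.of_forall fun z => ?_)
      rw [norm_mul, norm_mul, Real.norm_of_nonneg hε.le, Real.norm_eq_abs, Real.norm_eq_abs]
      exact mul_le_mul (mul_le_mul_of_nonneg_left (hCq _) hε.le) (hC1' z) (abs_nonneg _) (by positivity)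
    have i2 : Integrable (fun z => h170k (v z / ε) * G z * ζ z) (volume.restrict (bQ K)) := by
      refine Integrable.mono' (hGi.abs.mul_const C) ((m2.mul hGK.1).mul hζc.aestronglyMeasurable)
        (Filter.Eventually.of_forall fun z => ?_)
      rw [norm_mul, norm_mul, Real.norm_of_nonneg (h170k_nonneg _), Real.norm_eq_abs, Real.norm_eq_abs]
      refine mul_le_mul ?_ (hC0' z) (abs_nonneg _) (abs_nonneg _)
      calc h170k (v z / ε) * |G z| ≤ 1 * |G z| := mul_le_mul_of_nonneg_right (h170k_le _) (abs_nonneg _)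
        _ = _ := one_mul _
    have i3 : Integrable (fun z => ε * h170q (moll δ v z / ε) * fderiv ℝ ζ z e) (volume.restrict (bQ K)) := by
      have hc : Continuous (fun z => ε * h170q (moll δ v z / ε) * fderiv ℝ ζ z e) :=
        (continuous_const.mul (hqc.comp (hvs.div_const ε))).mul hζec
      exact (h170_cont_memLp hc K).integrable (by norm_num)
    have i4 : Integrable (fun z => h170k (moll δ v z / ε) * moll δ G z * ζ z) (volume.restrict (bQ K)) := by
      have hc : Continuous (fun z => h170k (moll δ v z / ε) * moll δ G z * ζ z) :=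
        ((h170k_cont.comp (hvs.div_const ε)).mul hGs).mul hζc
      exact (h170_cont_memLp hc K).integrable (by norm_num)
    have j1 : Integrable (fun z => |moll δ v z - v z|) (volume.restrict (bQ K)) :=
      ((hvδ.integrable (by norm_num)).sub hvi).abs
    have j2 : Integrable (fun z => |moll δ G z - G z|) (volume.restrict (bQ K)) :=
      ((hGδ.integrable (by norm_num)).sub hGi).abs
    have j3 : Integrable (fun z => |moll δ v z - v z| * |G z|) (volume.restrict (bQ K)) :=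
      ((hvδ.sub hvK).abs).integrable_mul hGK.abs
    have e1 : E = (∫ z in bQ K, (ε * h170q (v z / ε) * fderiv ℝ ζ z e - ε * h170q (moll δ v z / ε) * fderiv ℝ ζ z e)) +
        ∫ z in bQ K, (h170k (v z / ε) * G z * ζ z - h170k (moll δ v z / ε) * moll δ G z * ζ z) := by
      rw [integral_sub i1 i3, integral_sub i2 i4]
      have := hid δ hδ
      rw [hE]
      linarith
    have b1 : |∫ z in bQ K, (ε * h170q (v z / ε) * fderiv ℝ ζ z e - ε * h170q (moll δ v z / ε) * fderiv ℝ ζ z e)| ≤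
        ∫ z in bQ K, C * |moll δ v z - v z| := by
      rw [← Real.norm_eq_abs]
      refine norm_integral_le_of_norm_le (j1.const_mul C) (Filter.Eventually.of_forall fun z => ?_)
      rw [← sub_mul, ← mul_sub, norm_mul, norm_mul, Real.norm_of_nonneg hε.le, Real.norm_eq_abs, Real.norm_eq_abs]
      have h1 := h170q_lip (v z / ε) (moll δ v z / ε)
      have h2 : |v z / ε - moll δ v z / ε| = |moll δ v z - v z| / ε := by
        rw [← sub_div, abs_div, abs_of_pos hε, abs_sub_comm]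
      rw [h2] at h1
      have h3 : ε * |h170q (v z / ε) - h170q (moll δ v z / ε)| ≤ |moll δ v z - v z| := by
        rw [le_div_iff₀ hε] at h1
        linarith
      calc ε * |h170q (v z / ε) - h170q (moll δ v z / ε)| * |fderiv ℝ ζ z e| ≤ |moll δ v z - v z| * C :=
            mul_le_mul h3 (hC1' z) (abs_nonneg _) (abs_nonneg _)
        _ = _ := mul_comm _ _
    have b2 : |∫ z in bQ K, (h170k (v z / ε) * G z * ζ z - h170k (moll δ v z / ε) * moll δ G z * ζ z)| ≤
        ∫ z in bQ K, (C * |moll δ G z - G z| + C * (L / ε) * (|moll δ v z - v z| * |G z|)) := by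
      rw [← Real.norm_eq_abs]
      refine norm_integral_le_of_norm_le ((j2.const_mul C).add (j3.const_mul _)) (Filter.Eventually.of_forall fun z => ?_)
      have e2 : h170k (v z / ε) * G z * ζ z - h170k (moll δ v z / ε) * moll δ G z * ζ z =
          (-(h170k (moll δ v z / ε) * (moll δ G z - G z)) + (h170k (v z / ε) - h170k (moll δ v z / ε)) * G z) * ζ z := by
        ring
      rw [e2, norm_mul, Real.norm_eq_abs, Real.norm_eq_abs]
      have h1 := hL (v z / ε) (moll δ v z / ε)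
      have h2 : |v z / ε - moll δ v z / ε| = |moll δ v z - v z| / ε := by
        rw [← sub_div, abs_div, abs_of_pos hε, abs_sub_comm]
      rw [h2] at h1
      have h3 : |-(h170k (moll δ v z / ε) * (moll δ G z - G z)) + (h170k (v z / ε) - h170k (moll δ v z / ε)) * G z| ≤
          |moll δ G z - G z| + (L / ε) * (|moll δ v z - v z| * |G z|) := by
        refine (abs_add_le _ _).trans (add_le_add ?_ ?_)
        · rw [abs_neg, abs_mul, abs_of_nonneg (h170k_nonneg _)]
          calc h170k (moll δ v z / ε) * |moll δ G z - G z| ≤ 1 * |moll δ G z - G z| :=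
                mul_le_mul_of_nonneg_right (h170k_le _) (abs_nonneg _)
            _ = _ := one_mul _
        · rw [abs_mul]
          calc |h170k (v z / ε) - h170k (moll δ v z / ε)| * |G z| ≤ (L * (|moll δ v z - v z| / ε)) * |G z| :=
                mul_le_mul_of_nonneg_right h1 (abs_nonneg _)
            _ = _ := by ring
      calc _ ≤ (|moll δ G z - G z| + (L / ε) * (|moll δ v z - v z| * |G z|)) * C :=
            mul_le_mul h3 (hC0' z) (abs_nonneg _) (by positivity)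
        _ = _ := by ring
    rw [integral_const_mul] at b1
    rw [integral_add (j2.const_mul C) (j3.const_mul _), integral_const_mul, integral_const_mul] at b2
    have b3 := h170_cs (fun z => moll δ v z - v z) G (hvδ.sub hvK) hGK
    have b4 : C * (L / ε) * (∫ z in bQ K, |moll δ v z - v z| * |G z|) ≤
        C * (L / ε) * (√(∫ z in bQ K, (moll δ v z - v z) ^ 2) * √(∫ z in bQ K, G z ^ 2)) :=
      mul_le_mul_of_nonneg_left b3 (by positivity)
    rw [e1]
    refine (abs_add_le _ _).trans ?_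
    linarith
  -- pass to the limit
  have t1 := moll_tendsto_l1 v hvl K
  have t2 := moll_tendsto_l1 G hGl K
  have t3 := (moll_tendsto_l2 v hv K).sqrt
  rw [Real.sqrt_zero] at t3
  have t4 : Tendsto (fun δ => C * (∫ z in bQ K, |moll δ v z - v z|) + C * (∫ z in bQ K, |moll δ G z - G z|) +
      C * (L / ε) * (√(∫ z in bQ K, (moll δ v z - v z) ^ 2) * √(∫ z in bQ K, G z ^ 2))) (𝓝[>] 0) (𝓝 0) := by
    have := ((t1.const_mul C).add (t2.const_mul C)).add ((t3.mul_const (√(∫ z in bQ K, G z ^ 2))).const_mul (C * (L / ε)))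
    simpa using this
  have h0 : |E| ≤ 0 := by
    refine ge_of_tendsto t4 ?_
    filter_upwards [self_mem_nhdsWithin] with δ hδ
    exact hest δ hδ
  exact abs_nonpos_iff.1 h0

/-- TARGET 1: weak derivatives vanish a.e. on the zero set -/
theorem grad_zero_ae (v G : ℂ → ℝ) (hv : ∀ K, MemLp v 2 (volume.restrict (bQ K)))
    (hG : ∀ K, MemLp G 2 (volume.restrict (bQ K))) (e : ℂ)
    (hw : ∀ δ > 0, ∀ z, fderiv ℝ (moll δ v) z e = moll δ G z) :
    ∀ᵐ z : ℂ, v z = 0 → G z = 0 := by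
  have hvl := h170_locint hv
  have hGl := h170_locint hG
  have hqc : Continuous h170q := continuous_iff_continuousAt.2 fun s => (h170q_deriv s).continuousAt
  set H : ℂ → ℝ := fun z => if v z = 0 then G z else 0 with hH
  have hεn : ∀ n : ℕ, 0 < 1 / ((n : ℝ) + 1) := fun n => by positivity
  have hpt : ∀ z, Tendsto (fun n : ℕ => h170k (v z / (1 / ((n : ℝ) + 1))) * G z) atTop (𝓝 (H z)) := by
    intro z
    by_cases hz : v z = 0
    · have h1 : H z = G z := by rw [hH]; simp only [hz, if_true]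
      rw [h1, hz]
      simp only [zero_div, h170k_zero, one_mul]
      exact tendsto_const_nhds
    · have h1 : H z = 0 := by rw [hH]; simp only [hz, if_false]
      rw [h1]
      refine tendsto_const_nhds.congr' ?_
      obtain ⟨N, hN⟩ := exists_nat_gt (2 / |v z|)
      filter_upwards [eventually_ge_atTop N] with n hn
      have hv0 : 0 < |v z| := abs_pos.2 hz
      rw [h170k_far, zero_mul]
      rw [div_div_eq_mul_div, div_one, abs_mul, abs_of_nonneg (by positivity : (0:ℝ) ≤ (n : ℝ) + 1)]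
      rw [div_lt_iff₀ hv0] at hN
      have h2 : (N : ℝ) ≤ n := by exact_mod_cast hn
      nlinarith
  have hvm : AEStronglyMeasurable v volume := hvl.aestronglyMeasurable
  have hGm : AEStronglyMeasurable G volume := hGl.aestronglyMeasurable
  have hkm : ∀ n : ℕ, AEStronglyMeasurable (fun z => h170k (v z / (1 / ((n : ℝ) + 1)))) volume := by
    intro n
    have hm : AEStronglyMeasurable (fun z => v z * ((n : ℝ) + 1)) volume := hvm.mul_const _
    refine (h170k_cont.comp_aestronglyMeasurable hm).congr (Filter.Eventually.of_forall fun z => ?_)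
    simp only [Function.comp_apply]
    rw [div_div_eq_mul_div, div_one]
  have hHm : AEStronglyMeasurable H volume :=
    aestronglyMeasurable_of_tendsto_ae atTop (fun n => (hkm n).mul hGm) (Filter.Eventually.of_forall hpt)
  have hHle : ∀ z, ‖H z‖ ≤ ‖G z‖ := by
    intro z
    rw [hH]
    by_cases hz : v z = 0
    · simp only [hz, if_true, le_refl]
    · simp only [hz, if_false, norm_zero]
      exact norm_nonneg _
  have hHl : LocallyIntegrable H volume := by
    intro z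
    obtain ⟨s, hs, hsi⟩ := hGl z
    exact ⟨s, hs, Integrable.mono hsi hHm.restrict (Filter.Eventually.of_forall hHle)⟩
  have hz : ∀ᵐ z : ℂ, H z = 0 := by
    refine ae_eq_zero_of_integral_contDiff_smul_eq_zero hHl ?_
    intro ζ hζ hζs
    have hζc := hζ.continuous
    have hζec : Continuous (fun z => fderiv ℝ ζ z e) := (h170_dir_smooth hζ e).continuous
    have hζes : HasCompactSupport (fun z => fderiv ℝ ζ z e) := hζs.fderiv_apply ℝ e
    have hζei : Integrable (fun z => fderiv ℝ ζ z e) := hζec.integrable_of_hasCompactSupport hζes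
    have hid : ∀ n : ℕ, (∫ z, (1 / ((n : ℝ) + 1)) * h170q (v z / (1 / ((n : ℝ) + 1))) * fderiv ℝ ζ z e) +
        ∫ z, h170k (v z / (1 / ((n : ℝ) + 1))) * G z * ζ z = 0 := fun n =>
      h170_t1_id v G hv hG e hw ζ hζ hζs _ (hεn n)
    obtain ⟨Cq, hCq0, hCq⟩ := h170q_bdd
    have l1 : Tendsto (fun n : ℕ => ∫ z, (1 / ((n : ℝ) + 1)) * h170q (v z / (1 / ((n : ℝ) + 1))) * fderiv ℝ ζ z e)
        atTop (𝓝 0) := by
      have hb : ∀ n : ℕ, ‖∫ z, (1 / ((n : ℝ) + 1)) * h170q (v z / (1 / ((n : ℝ) + 1))) * fderiv ℝ ζ z e‖ ≤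
          (1 / ((n : ℝ) + 1)) * (Cq * ∫ z, ‖fderiv ℝ ζ z e‖) := by
        intro n
        rw [← integral_const_mul, ← integral_const_mul]
        refine norm_integral_le_of_norm_le ((hζei.norm.const_mul Cq).const_mul _) (Filter.Eventually.of_forall fun z => ?_)
        rw [norm_mul, norm_mul, Real.norm_of_nonneg (hεn n).le, mul_assoc]
        exact mul_le_mul_of_nonneg_left (mul_le_mul_of_nonneg_right (hCq _) (norm_nonneg _)) (hεn n).le
      refine squeeze_zero_norm hb ?_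
      have := (tendsto_one_div_add_atTop_nhds_zero_nat (𝕜 := ℝ)).mul_const (Cq * ∫ z, ‖fderiv ℝ ζ z e‖)
      rwa [zero_mul] at this
    have hGζ : Integrable (fun z => G z * ζ z) := hGl.integrable_smul_right_of_hasCompactSupport hζc hζs
    have l2 : Tendsto (fun n : ℕ => ∫ z, h170k (v z / (1 / ((n : ℝ) + 1))) * G z * ζ z) atTop
        (𝓝 (∫ z, H z * ζ z)) := by
      refine tendsto_integral_of_dominated_convergence (fun z => ‖G z * ζ z‖)
        (fun n => ((hkm n).mul hGm).mul hζc.aestronglyMeasurable) hGζ.norm ?_ ?_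
      · intro n
        refine Filter.Eventually.of_forall fun z => ?_
        rw [mul_assoc, norm_mul, Real.norm_of_nonneg (h170k_nonneg _)]
        calc h170k _ * ‖G z * ζ z‖ ≤ 1 * ‖G z * ζ z‖ := mul_le_mul_of_nonneg_right (h170k_le _) (norm_nonneg _)
          _ = _ := one_mul _
      · exact Filter.Eventually.of_forall fun z => (hpt z).mul_const _
    have l3 := l1.add l2
    simp only [hid] at l3
    rw [zero_add] at l3
    have l4 := tendsto_nhds_unique l3 tendsto_const_nhds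
    rw [← l4]
    refine integral_congr_ae (Filter.Eventually.of_forall fun z => ?_)
    simp only [smul_eq_mul]
    ring
  filter_upwards [hz] with z h1 h2
  rw [hH] at h1
  simpa [h2] using h1

/-! covering of squares by period boxes -/

theorem h170_box_closed (x0 x1 : ℝ) : IsClosed (box x0 x1) :=
  (isClosed_Icc.preimage Complex.continuous_re).inter (isClosed_Icc.preimage Complex.continuous_im)

theorem h170_cover (K : ℝ) : ∃ N : ℝ, 0 ≤ N ∧ ∀ F : ℂ → ℝ, Continuous F → (∀ z, 0 ≤ F z) →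
    (∀ z, F (z + 2 * Real.pi * I) = F z) → ∀ M : ℝ, (∀ x0 : ℝ, ∫ z in box x0 (x0 + 1), F z ≤ M) →
    ∫ z in bQ K, F z ≤ N * M := by
  obtain ⟨n, hn⟩ := exists_nat_ge K
  set J : Finset (ℤ × ℤ) := Finset.Icc (-(n : ℤ)) n ×ˢ Finset.Icc (-(n : ℤ)) n with hJ
  refine ⟨J.card, Nat.cast_nonneg _, ?_⟩
  intro F hFc hF0 hFp M hM
  have hpi := Real.pi_pos
  have hpi3 := Real.pi_gt_three
  -- periodicity for integer multiples
  have hper : ∀ (j : ℤ) (z : ℂ), F (z + ((2 * Real.pi * j : ℝ) : ℂ) * I) = F z := by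
    intro j
    induction j using Int.induction_on with
    | zero => intro z; simp
    | succ i ih =>
      intro z
      have h1 := hFp (z + ((2 * Real.pi * (i : ℤ) : ℝ) : ℂ) * I)
      rw [ih z] at h1
      rw [← h1]
      congr 1
      push_cast
      ring
    | pred i ih =>
      intro z
      have h1 := hFp (z + ((2 * Real.pi * (-(i : ℤ) - 1 : ℤ) : ℝ) : ℂ) * I)
      rw [← h1, ← ih z]
      congr 1
      push_cast
      ring
  set S : ℤ × ℤ → Set ℂ := fun p => {z | z.re ∈ Icc (p.1 : ℝ) (p.1 + 1) ∧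
    z.im ∈ Icc (2 * Real.pi * p.2) (2 * Real.pi * p.2 + 2 * Real.pi)} with hS
  have hSc : ∀ p, IsClosed (S p) := fun p =>
    (isClosed_Icc.preimage Complex.continuous_re).inter (isClosed_Icc.preimage Complex.continuous_im)
  have hboxc : ∀ x0, IsCompact (box x0 (x0 + 1)) := by
    intro x0
    refine Metric.isCompact_of_isClosed_isBounded (h170_box_closed _ _) ?_
    refine (Metric.isBounded_closedBall (x := (0 : ℂ)) (r := |x0| + 1 + 2 * Real.pi)).subset ?_
    intro z hz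
    rw [mem_closedBall_zero_iff]
    have h1 := Complex.norm_le_abs_re_add_abs_im z
    have h2 : |z.re| ≤ |x0| + 1 := by
      rw [abs_le]
      have h3 := neg_abs_le x0
      have h4 := le_abs_self x0
      have h5 := hz.1.1
      have h6 := hz.1.2
      constructor <;> linarith
    have h7 : |z.im| ≤ 2 * Real.pi := by
      rw [abs_of_nonneg hz.2.1]
      exact hz.2.2
    linarith
  have hSind : ∀ (p : ℤ × ℤ) (z : ℂ), (S p).indicator F (z + ((2 * Real.pi * p.2 : ℝ) : ℂ) * I) =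
      (box (p.1 : ℝ) (p.1 + 1)).indicator F z := by
    intro p z
    have hre : (z + ((2 * Real.pi * p.2 : ℝ) : ℂ) * I).re = z.re := by simp
    have him : (z + ((2 * Real.pi * p.2 : ℝ) : ℂ) * I).im = z.im + 2 * Real.pi * p.2 := by simp
    by_cases hz : z ∈ box (p.1 : ℝ) (p.1 + 1)
    · have h1 : z + ((2 * Real.pi * p.2 : ℝ) : ℂ) * I ∈ S p := by
        refine ⟨?_, ?_⟩
        · rw [hre]; exact hz.1
        · rw [him]
          have := hz.2.1
          have := hz.2.2
          constructor <;> linarith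
      rw [indicator_of_mem hz, indicator_of_mem h1, hper]
    · have h1 : z + ((2 * Real.pi * p.2 : ℝ) : ℂ) * I ∉ S p := by
        intro h
        apply hz
        have h2 := h.1
        have h3 := h.2
        rw [hre] at h2
        rw [him] at h3
        refine ⟨h2, ?_⟩
        have := h3.1
        have := h3.2
        constructor <;> linarith
      rw [indicator_of_notMem hz, indicator_of_notMem h1]
  have hboxi : ∀ x0 : ℝ, Integrable ((box x0 (x0 + 1)).indicator F) := by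
    intro x0
    rw [integrable_indicator_iff (h170_box_closed _ _).measurableSet]
    exact hFc.continuousOn.integrableOn_compact (hboxc x0)
  have hSi : ∀ p : ℤ × ℤ, Integrable ((S p).indicator F) := by
    intro p
    have h1 := hboxi (p.1 : ℝ)
    have h2 : (box (p.1 : ℝ) (p.1 + 1)).indicator F = fun z => (S p).indicator F (z + ((2 * Real.pi * p.2 : ℝ) : ℂ) * I) := by
      funext z
      exact (hSind p z).symm
    rw [h2] at h1
    have h3 := h1.comp_add_right (-(((2 * Real.pi * p.2 : ℝ) : ℂ) * I))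
    refine h3.congr (Filter.Eventually.of_forall fun z => ?_)
    simp only [neg_add_cancel_right]
  have hSint : ∀ p : ℤ × ℤ, ∫ z, (S p).indicator F z ≤ M := by
    intro p
    rw [← integral_add_right_eq_self (fun z => (S p).indicator F z) (((2 * Real.pi * p.2 : ℝ) : ℂ) * I)]
    simp only [hSind]
    rw [integral_indicator (h170_box_closed _ _).measurableSet]
    exact hM p.1
  rw [← integral_indicator (h170_bQ_meas K)]
  have hle : ∀ z, (bQ K).indicator F z ≤ ∑ p ∈ J, (S p).indicator F z := by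
    intro z
    have hnn : ∀ p ∈ J, 0 ≤ (S p).indicator F z := fun p _ => indicator_nonneg (fun w _ => hF0 w) z
    by_cases hz : z ∈ bQ K
    · rw [indicator_of_mem hz]
      -- find p
      set p : ℤ × ℤ := (⌊z.re⌋, ⌊z.im / (2 * Real.pi)⌋) with hp
      have h2pi : 0 < 2 * Real.pi := by positivity
      have hre := abs_le.1 (hz.1.trans hn)
      have him := abs_le.1 (hz.2.trans hn)
      have hpJ : p ∈ J := by
        rw [hJ, Finset.mem_product, Finset.mem_Icc, Finset.mem_Icc]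
        have a1 : (-(n : ℤ)) ≤ ⌊z.re⌋ := by rw [Int.le_floor]; push_cast; exact hre.1
        have a2 : ⌊z.re⌋ ≤ (n : ℤ) := by
          have : (⌊z.re⌋ : ℝ) ≤ (n : ℝ) := (Int.floor_le _).trans hre.2
          exact_mod_cast this
        have b0 : z.im / (2 * Real.pi) ≤ n := by
          rw [div_le_iff₀ h2pi]
          have : (0:ℝ) ≤ n := Nat.cast_nonneg n
          nlinarith [him.2]
        have b00 : -(n : ℝ) ≤ z.im / (2 * Real.pi) := by
          rw [le_div_iff₀ h2pi]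
          have : (0:ℝ) ≤ n := Nat.cast_nonneg n
          nlinarith [him.1]
        have b1 : (-(n : ℤ)) ≤ ⌊z.im / (2 * Real.pi)⌋ := by rw [Int.le_floor]; push_cast; exact b00
        have b2 : ⌊z.im / (2 * Real.pi)⌋ ≤ (n : ℤ) := by
          have : (⌊z.im / (2 * Real.pi)⌋ : ℝ) ≤ (n : ℝ) := (Int.floor_le _).trans b0
          exact_mod_cast this
        exact ⟨⟨a1, a2⟩, ⟨b1, b2⟩⟩
      have hpS : z ∈ S p := by
        refine ⟨⟨Int.floor_le _, (Int.lt_floor_add_one _).le⟩, ?_⟩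
        have c1 := Int.floor_le (z.im / (2 * Real.pi))
        have c2 := (Int.lt_floor_add_one (z.im / (2 * Real.pi))).le
        rw [le_div_iff₀ h2pi] at c1
        rw [div_le_iff₀ h2pi] at c2
        constructor
        · show 2 * Real.pi * (⌊z.im / (2 * Real.pi)⌋ : ℝ) ≤ z.im
          linarith
        · show z.im ≤ 2 * Real.pi * (⌊z.im / (2 * Real.pi)⌋ : ℝ) + 2 * Real.pi
          linarith
      have h1 := Finset.single_le_sum hnn hpJ
      rwa [indicator_of_mem hpS] at h1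
    · rw [indicator_of_notMem hz]
      exact Finset.sum_nonneg hnn
  have hbQi : Integrable ((bQ K).indicator F) := by
    rw [integrable_indicator_iff (h170_bQ_meas K)]
    exact hFc.continuousOn.integrableOn_compact (h170_bQ_compact K)
  calc ∫ z, (bQ K).indicator F z ≤ ∫ z, ∑ p ∈ J, (S p).indicator F z :=
        integral_mono hbQi (integrable_finset_sum _ fun p _ => hSi p) hle
    _ = ∑ p ∈ J, ∫ z, (S p).indicator F z := integral_finset_sum _ fun p _ => hSi p
    _ ≤ ∑ p ∈ J, M := Finset.sum_le_sum fun p _ => hSint p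
    _ = J.card * M := by rw [Finset.sum_const, nsmul_eq_mul]

theorem h170_fderiv_per {u : ℂ → ℝ} {a : ℂ} (h : ∀ z, u (z + a) = u z) (e z : ℂ) :
    fderiv ℝ u (z + a) e = fderiv ℝ u z e := by
  have h1 : fderiv ℝ (fun z => u (z + a)) z = fderiv ℝ u (z + a) := fderiv_comp_add_right a
  have h2 : (fun z => u (z + a)) = u := funext h
  rw [h2] at h1
  rw [h1]

/-- weak derivatives of a limit function -/
theorem h170_reps {ρ : ℝ} {h ω : ℝ → ℝ} (hd : Dat ρ h ω) (C : ℝ) (U : ℂ → ℝ) (hU : ClsS ρ h C ω U) :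
    ∃ v G1 G2 : ℂ → ℝ, (∀ K, MemLp v 2 (volume.restrict (bQ K))) ∧ (∀ K, MemLp G1 2 (volume.restrict (bQ K))) ∧
      (∀ K, MemLp G2 2 (volume.restrict (bQ K))) ∧
      (∀ δ > 0, ∀ z, dx (moll δ U) z = moll δ v z) ∧
      (∀ δ > 0, ∀ z, dx (dx (moll δ U)) z = moll δ G1 z) ∧
      (∀ δ > 0, ∀ z, dy (dx (moll δ U)) z = moll δ G2 z) := by
  obtain ⟨M4, δ0, hδ0, hδ1, hM4, hb⟩ := dx_bdd hd C
  have hbU := hb U hU
  have hsm : ∀ δ > 0, ContDiff ℝ (⊤ : ℕ∞) (moll δ U) := fun δ hδ => h170_smooth δ hδ U hU.loc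
  -- first derivative
  obtain ⟨v, hv1, hv2, -⟩ := second_conv (fun u => dx u) (Or.inr (Or.inr (Or.inl rfl))) U hU.loc δ0 hδ0 (by
    intro K
    have hfin := h170_bQ_fin K
    refine ⟨M4 ^ 2 * (volume (bQ K)).toReal, ?_⟩
    intro δ hδ
    have h1 := norm_setIntegral_le_of_norm_le_const (μ := (volume : Measure ℂ)) (s := bQ K)
      (f := fun z => (dx (moll δ U) z) ^ 2) (C := M4 ^ 2) (h170_bQ_compact K).measure_lt_top (by
        intro z _
        rw [norm_pow, Real.norm_eq_abs]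
        exact pow_le_pow_left₀ (abs_nonneg _) ((hbU δ hδ).1 z) 2)
    exact (le_abs_self _).trans h1)
  have hper : ∀ δ z, moll δ U (z + 2 * Real.pi * I) = moll δ U z := fun δ z => moll_per hU δ z
  have hFb : ∀ K : ℝ, ∃ M : ℝ, ∀ δ ∈ Ioc (0 : ℝ) δ0,
      ∫ z in bQ K, (dx (dx (moll δ U)) z ^ 2 + dy (dx (moll δ U)) z ^ 2) ≤ M := by
    intro K
    obtain ⟨N, hN, hcov⟩ := h170_cover K
    refine ⟨N * M4, ?_⟩
    intro δ hδ
    have hs := hsm δ hδ.1
    have hs1 := h170_dx_smooth hs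
    refine hcov _ ?_ ?_ ?_ M4 (hbU δ hδ).2
    · exact (((h170_dx_smooth hs1).continuous).pow 2).add (((h170_dy_smooth hs1).continuous).pow 2)
    · intro z; positivity
    · intro z
      have p1 : ∀ w, dx (moll δ U) (w + 2 * Real.pi * I) = dx (moll δ U) w := fun w =>
        h170_fderiv_per (hper δ) 1 w
      have p2 : dx (dx (moll δ U)) (z + 2 * Real.pi * I) = dx (dx (moll δ U)) z := h170_fderiv_per p1 1 z
      have p3 : dy (dx (moll δ U)) (z + 2 * Real.pi * I) = dy (dx (moll δ U)) z := h170_fderiv_per p1 I z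
      rw [p2, p3]
  have hmonoI : ∀ K : ℝ, ∀ δ ∈ Ioc (0 : ℝ) δ0,
      (∫ z in bQ K, (dx (dx (moll δ U)) z) ^ 2 ≤ ∫ z in bQ K, (dx (dx (moll δ U)) z ^ 2 + dy (dx (moll δ U)) z ^ 2)) ∧
      (∫ z in bQ K, (dy (dx (moll δ U)) z) ^ 2 ≤ ∫ z in bQ K, (dx (dx (moll δ U)) z ^ 2 + dy (dx (moll δ U)) z ^ 2)) := by
    intro K δ hδ
    have hs := hsm δ hδ.1
    have hs1 := h170_dx_smooth hs
    have c1 := ((h170_dx_smooth hs1).continuous).pow 2
    have c2 := ((h170_dy_smooth hs1).continuous).pow 2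
    have i1 : IntegrableOn (fun z => dx (dx (moll δ U)) z ^ 2) (bQ K) := c1.continuousOn.integrableOn_compact (h170_bQ_compact K)
    have i2 : IntegrableOn (fun z => dy (dx (moll δ U)) z ^ 2) (bQ K) := c2.continuousOn.integrableOn_compact (h170_bQ_compact K)
    constructor
    · refine integral_mono i1 (i1.add i2) fun z => ?_
      show dx (dx (moll δ U)) z ^ 2 ≤ dx (dx (moll δ U)) z ^ 2 + dy (dx (moll δ U)) z ^ 2
      have := sq_nonneg (dy (dx (moll δ U)) z)
      linarith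
    · refine integral_mono i2 (i1.add i2) fun z => ?_
      show dy (dx (moll δ U)) z ^ 2 ≤ dx (dx (moll δ U)) z ^ 2 + dy (dx (moll δ U)) z ^ 2
      have := sq_nonneg (dx (dx (moll δ U)) z)
      linarith
  obtain ⟨G1, hG1, hG1', -⟩ := second_conv (fun u => dx (dx u)) (Or.inl rfl) U hU.loc δ0 hδ0 (by
    intro K
    obtain ⟨M, hM⟩ := hFb K
    exact ⟨M, fun δ hδ => ((hmonoI K δ hδ).1).trans (hM δ hδ)⟩)
  obtain ⟨G2, hG2, hG2', -⟩ := second_conv (fun u => dy (dx u)) (Or.inr (Or.inl rfl)) U hU.loc δ0 hδ0 (by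
    intro K
    obtain ⟨M, hM⟩ := hFb K
    exact ⟨M, fun δ hδ => ((hmonoI K δ hδ).2).trans (hM δ hδ)⟩)
  exact ⟨v, G1, G2, hv1, hG1, hG2, hv2, hG1', hG2'⟩

/-- representation of `dx a`, `dx b` -/
theorem h170_AB {ρ : ℝ} {U v G1 G2 : ℂ → ℝ} (hUl : LocallyIntegrable U volume)
    (hv : ∀ K, MemLp v 2 (volume.restrict (bQ K))) (hG1 : ∀ K, MemLp G1 2 (volume.restrict (bQ K)))
    (hG2 : ∀ K, MemLp G2 2 (volume.restrict (bQ K)))
    (h1 : ∀ δ > 0, ∀ z, dx (moll δ U) z = moll δ v z)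
    (h2 : ∀ δ > 0, ∀ z, dx (dx (moll δ U)) z = moll δ G1 z)
    (h3 : ∀ δ > 0, ∀ z, dy (dx (moll δ U)) z = moll δ G2 z) (δ : ℝ) (hδ : 0 < δ) (z : ℂ) :
    dx (aof ρ (moll δ U)) z = moll δ (fun w => v w + (1 / ρ) * G1 w) z ∧
    dx (bof ρ (moll δ U)) z = moll δ (fun w => 0 + (1 / ρ) * G2 w) z := by
  have hs := h170_smooth δ hδ U hUl
  rw [h170_dx_aof hs, h170_dx_bof hs, h1 δ hδ, h2 δ hδ, h3 δ hδ,
    h170_moll_add δ hδ (h170_locint hv) (h170_locint hG1),
    h170_moll_add δ hδ (u := fun _ => (0:ℝ)) (v := G2) locallyIntegrable_zero (h170_locint hG2)]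
  have h0 : moll δ (fun _ => (0:ℝ)) z = 0 := h170_moll_zero δ (Filter.Eventually.of_forall fun _ => rfl) z
  rw [h0]
  constructor <;> ring

/-! ### TARGET 2 -/

theorem h170_l2_zero {A : ℂ → ℝ} (hA : ∀ K, MemLp A 2 (volume.restrict (bQ K)))
    (h0 : ∀ K, Tendsto (fun δ => ∫ z in bQ K, (moll δ A z) ^ 2) (𝓝[>] 0) (𝓝 0)) : ∀ᵐ z : ℂ, A z = 0 := by
  have hAl := h170_locint hA
  refine h170_ae_bQ fun n => ?_
  obtain ⟨K, hK⟩ : ∃ K : ℝ, K = (n : ℝ) := ⟨_, rfl⟩
  rw [← hK]
  have hAi : Integrable (fun z => A z ^ 2) (volume.restrict (bQ K)) := (hA K).integrable_sq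
  have hle : ∀ δ > 0, ∫ z in bQ K, A z ^ 2 ≤ 2 * (∫ z in bQ K, (moll δ A z - A z) ^ 2) +
      2 * ∫ z in bQ K, (moll δ A z) ^ 2 := by
    intro δ hδ
    have hc : MemLp (moll δ A) 2 (volume.restrict (bQ K)) :=
      h170_cont_memLp (h170_smooth δ hδ A hAl).continuous K
    have i1 : Integrable (fun z => (moll δ A z) ^ 2) (volume.restrict (bQ K)) := hc.integrable_sq
    have i2 : Integrable (fun z => (moll δ A z - A z) ^ 2) (volume.restrict (bQ K)) := (hc.sub (hA K)).integrable_sq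
    rw [← integral_const_mul, ← integral_const_mul, ← integral_add (i2.const_mul 2) (i1.const_mul 2)]
    refine integral_mono hAi ((i2.const_mul 2).add (i1.const_mul 2)) fun z => ?_
    simp only
    show A z ^ 2 ≤ 2 * (moll δ A z - A z) ^ 2 + 2 * (moll δ A z) ^ 2
    nlinarith [sq_nonneg (2 * moll δ A z - A z)]
  have hlim : Tendsto (fun δ => 2 * (∫ z in bQ K, (moll δ A z - A z) ^ 2) +
      2 * ∫ z in bQ K, (moll δ A z) ^ 2) (𝓝[>] 0) (𝓝 (2 * 0 + 2 * 0)) :=
    ((moll_tendsto_l2 A hA K).const_mul 2).add ((h0 K).const_mul 2)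
  have h1 : ∫ z in bQ K, A z ^ 2 ≤ 2 * 0 + 2 * 0 := by
    refine ge_of_tendsto hlim ?_
    filter_upwards [self_mem_nhdsWithin] with δ hδ
    exact hle δ hδ
  have h2 : ∫ z in bQ K, A z ^ 2 = 0 := le_antisymm (by linarith) (integral_nonneg fun z => sq_nonneg _)
  have h3 := (integral_eq_zero_iff_of_nonneg (fun z => sq_nonneg (A z)) hAi).1 h2
  filter_upwards [h3] with z hz
  exact pow_eq_zero_iff (two_ne_zero) |>.1 hz

theorem h170_line {u : ℂ → ℝ} (hu : Differentiable ℝ u) (z : ℂ) (t : ℝ) :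
    HasDerivAt (fun t : ℝ => u (z + t)) (dx u (z + t)) t := by
  have h1 : HasDerivAt (fun t : ℝ => z + (t : ℂ)) 1 t := by
    have := (Complex.ofRealCLM.hasDerivAt (x := t)).const_add z
    simpa using this
  exact (hu (z + t)).hasFDerivAt.comp_hasDerivAt t h1

theorem h170_linei {u : ℂ → ℝ} (hu : Differentiable ℝ u) (z : ℂ) (t : ℝ) :
    HasDerivAt (fun t : ℝ => u (z + t * I)) (dy u (z + t * I)) t := by
  have h1 : HasDerivAt (fun t : ℝ => z + (t : ℂ) * I) I t := by
    have := ((Complex.ofRealCLM.hasDerivAt (x := t)).mul_const I).const_add z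
    simpa using this
  exact (hu (z + t * I)).hasFDerivAt.comp_hasDerivAt t h1

/-- TARGET 2: if `(dx a, dx b)` tends to zero in `L²_loc` then `U` is stationary -/
theorem stationary_of_flat {ρ : ℝ} {h ω : ℝ → ℝ} (hd : Dat ρ h ω) (C : ℝ) (U : ℂ → ℝ) (hU : ClsS ρ h C ω U)
    (h0 : ∀ K, Tendsto (fun δ => ∫ z in bQ K, (dx (aof ρ (moll δ U)) z ^ 2 + dx (bof ρ (moll δ U)) z ^ 2))
      (𝓝[>] 0) (𝓝 0)) :
    ∀ s : ℝ, ∀ᵐ z : ℂ, U (z + s) = U z := by
  obtain ⟨v, G1, G2, hv, hG1, hG2, e1, e2, e3⟩ := h170_reps hd C U hU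
  have hρ := hd.rho
  set A : ℂ → ℝ := fun w => v w + (1 / ρ) * G1 w with hAdef
  have hAB := fun δ hδ z => h170_AB (ρ := ρ) hU.loc hv hG1 hG2 e1 e2 e3 δ hδ z
  have hA : ∀ K, MemLp A 2 (volume.restrict (bQ K)) := fun K => (hv K).add ((hG1 K).const_mul _)
  have hAl := h170_locint hA
  have hsm : ∀ δ > 0, ContDiff ℝ (⊤ : ℕ∞) (moll δ U) := fun δ hδ => h170_smooth δ hδ U hU.loc
  have hAz : ∀ᵐ z : ℂ, A z = 0 := by
    refine h170_l2_zero hA fun K => ?_
    refine tendsto_of_tendsto_of_tendsto_of_le_of_le' tendsto_const_nhds (h0 K) ?_ ?_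
    · exact Filter.Eventually.of_forall fun δ => integral_nonneg fun z => sq_nonneg _
    · filter_upwards [self_mem_nhdsWithin] with δ hδ
      have hs := hsm δ hδ
      have c1 := ((h170_dx_smooth (h170_aof_smooth (ρ := ρ) hs)).continuous).pow 2
      have c2 := ((h170_dx_smooth (h170_bof_smooth (ρ := ρ) hs)).continuous).pow 2
      have c3 := ((h170_smooth δ hδ A hAl).continuous).pow 2
      have i1 : IntegrableOn (fun z => dx (aof ρ (moll δ U)) z ^ 2) (bQ K) :=
        c1.continuousOn.integrableOn_compact (h170_bQ_compact K)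
      have i2 : IntegrableOn (fun z => dx (bof ρ (moll δ U)) z ^ 2) (bQ K) :=
        c2.continuousOn.integrableOn_compact (h170_bQ_compact K)
      have i3 : IntegrableOn (fun z => moll δ A z ^ 2) (bQ K) :=
        c3.continuousOn.integrableOn_compact (h170_bQ_compact K)
      refine integral_mono i3 (i1.add i2) fun z => ?_
      show moll δ A z ^ 2 ≤ dx (aof ρ (moll δ U)) z ^ 2 + dx (bof ρ (moll δ U)) z ^ 2
      rw [(hAB δ hδ z).1]
      have := sq_nonneg (dx (bof ρ (moll δ U)) z)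
      linarith
  obtain ⟨M4, δ0, hδ0, hδ1, hM4, hb⟩ := dx_bdd hd C
  have hbU := hb U hU
  -- first derivative vanishes
  have hdx : ∀ δ ∈ Ioc (0 : ℝ) δ0, ∀ z, dx (moll δ U) z = 0 := by
    intro δ hδ z
    have hs := hsm δ hδ.1
    have hs1 := h170_dx_smooth hs
    have hz : ∀ w, dx (dx (moll δ U)) w = -ρ * dx (moll δ U) w := by
      intro w
      have h1 := (hAB δ hδ.1 w).1
      rw [h170_dx_aof hs, h170_moll_zero δ hAz w] at h1
      field_simp at h1
      linarith
    set g : ℝ → ℝ := fun t => dx (moll δ U) (z + t) * Real.exp (ρ * t) with hg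
    have hgd : ∀ t, HasDerivAt g 0 t := by
      intro t
      have h1 := h170_line (h170_diff hs1) z t
      have h2 : HasDerivAt (fun t : ℝ => Real.exp (ρ * t)) (Real.exp (ρ * t) * ρ) t := by
        have := ((hasDerivAt_id t).const_mul ρ).exp
        simpa using this
      have h3 := h1.mul h2
      have h4 : dx (dx (moll δ U)) (z + t) * Real.exp (ρ * t) + dx (moll δ U) (z + t) * (Real.exp (ρ * t) * ρ) = 0 := by
        rw [hz]; ring
      rw [h4] at h3
      exact h3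
    have hconst : ∀ t, g t = g 0 := by
      intro t
      exact is_const_of_deriv_eq_zero (fun t => (hgd t).differentiableAt) (fun t => (hgd t).deriv) t 0
    have hg0 : g 0 = dx (moll δ U) z := by
      rw [hg]; simp
    have hbd : ∀ t, |g 0| ≤ M4 * Real.exp (ρ * t) := by
      intro t
      rw [← hconst t, hg]
      simp only
      rw [abs_mul, Real.abs_exp]
      exact mul_le_mul_of_nonneg_right ((hbU δ hδ).1 _) (Real.exp_pos _).le
    have hlim : Tendsto (fun t : ℝ => M4 * Real.exp (ρ * t)) atBot (𝓝 (M4 * 0)) := by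
      refine Tendsto.const_mul M4 ?_
      exact Real.tendsto_exp_atBot.comp (tendsto_id.const_mul_atBot hρ)
    have h5 : |g 0| ≤ M4 * 0 := ge_of_tendsto' hlim hbd
    rw [mul_zero] at h5
    rw [← hg0]
    exact abs_nonpos_iff.1 h5
  have hinv : ∀ δ ∈ Ioc (0 : ℝ) δ0, ∀ (s : ℝ) z, moll δ U (z + s) = moll δ U z := by
    intro δ hδ s z
    have hs := hsm δ hδ.1
    have h1 : ∀ t : ℝ, HasDerivAt (fun t : ℝ => moll δ U (z + t)) 0 t := by
      intro t
      have := h170_line (h170_diff hs) z t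
      rwa [hdx δ hδ] at this
    have h2 := is_const_of_deriv_eq_zero (fun t => (h1 t).differentiableAt) (fun t => (h1 t).deriv) s 0
    simpa using h2
  intro s
  set V : ℂ → ℝ := fun w => U (w + s) with hV
  have hVl : LocallyIntegrable V volume := by
    intro z
    obtain ⟨W, hW, hWi⟩ := hU.loc (z + s)
    have hcont : Continuous (fun w : ℂ => w + (s : ℂ)) := continuous_id.add continuous_const
    refine ⟨(fun w : ℂ => w + (s : ℂ)) ⁻¹' W, hcont.continuousAt hW, ?_⟩
    have hmp : MeasurePreserving (fun w : ℂ => w + (s : ℂ)) volume volume := measurePreserving_add_right volume (s : ℂ)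
    exact (hmp.integrableOn_comp_preimage (Homeomorph.addRight (s : ℂ)).measurableEmbedding).2 hWi
  refine h170_ae_bQ fun n => ?_
  obtain ⟨K, hK⟩ : ∃ K : ℝ, K = (n : ℝ) := ⟨_, rfl⟩
  rw [← hK]
  have hiU : IntegrableOn U (bQ K) := hU.loc.integrableOn_isCompact (h170_bQ_compact K)
  have hiV : IntegrableOn V (bQ K) := hVl.integrableOn_isCompact (h170_bQ_compact K)
  have hle : ∀ δ ∈ Ioc (0 : ℝ) δ0, ∫ z in bQ K, |V z - U z| ≤
      (∫ z in bQ K, |moll δ V z - V z|) + ∫ z in bQ K, |moll δ U z - U z| := by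
    intro δ hδ
    have cU : IntegrableOn (moll δ U) (bQ K) :=
      (hsm δ hδ.1).continuous.continuousOn.integrableOn_compact (h170_bQ_compact K)
    have cV : IntegrableOn (moll δ V) (bQ K) :=
      (h170_smooth δ hδ.1 V hVl).continuous.continuousOn.integrableOn_compact (h170_bQ_compact K)
    have i1 : Integrable (fun z => |moll δ V z - V z|) (volume.restrict (bQ K)) := (cV.sub hiV).abs
    have i2 : Integrable (fun z => |moll δ U z - U z|) (volume.restrict (bQ K)) := (cU.sub hiU).abs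
    have i3 : Integrable (fun z => |V z - U z|) (volume.restrict (bQ K)) := (hiV.sub hiU).abs
    rw [← integral_add i1 i2]
    refine integral_mono i3 (i1.add i2) fun z => ?_
    show |V z - U z| ≤ |moll δ V z - V z| + |moll δ U z - U z|
    have h1 : moll δ V z = moll δ U z := by
      rw [hV, moll_add_const, hinv δ hδ]
    rw [h1]
    have h2 : V z - U z = -(moll δ U z - V z) + (moll δ U z - U z) := by ring
    rw [h2]
    refine (abs_add_le _ _).trans ?_
    rw [abs_neg]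
  have hlim : Tendsto (fun δ => (∫ z in bQ K, |moll δ V z - V z|) + ∫ z in bQ K, |moll δ U z - U z|)
      (𝓝[>] 0) (𝓝 (0 + 0)) := (moll_tendsto_l1 V hVl K).add (moll_tendsto_l1 U hU.loc K)
  have h1 : ∫ z in bQ K, |V z - U z| ≤ 0 + 0 := by
    refine ge_of_tendsto hlim ?_
    filter_upwards [Ioc_mem_nhdsGT hδ0] with δ hδ
    exact hle δ hδ
  have h2 : ∫ z in bQ K, |V z - U z| = 0 := le_antisymm (by linarith) (integral_nonneg fun z => abs_nonneg _)
  have h3 := (integral_eq_zero_iff_of_nonneg (fun z => abs_nonneg (V z - U z)) (hiV.sub hiU).abs).1 h2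
  filter_upwards [h3] with z hz
  have hz' : |V z - U z| = 0 := hz
  exact sub_eq_zero.1 (abs_eq_zero.1 hz')

/-! ### the good point -/

theorem h170_norm_rot (ρ y a b : ℝ) :
    ‖cexp (-(ρ * y : ℝ) * I) * ((a : ℂ) - I * (b : ℂ))‖ ^ 2 = a ^ 2 + b ^ 2 := by
  rw [norm_mul]
  have h1 : -((ρ * y : ℝ) : ℂ) * I = ((-(ρ * y) : ℝ) : ℂ) * I := by push_cast; ring
  rw [h1, Complex.norm_exp_ofReal_mul_I, one_mul, ← Complex.normSq_eq_norm_sq]
  rw [Complex.normSq_apply]
  simp
  ring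

theorem h170_loc_zero {A : ℂ → ℝ} (hA : ∀ K, MemLp A 2 (volume.restrict (bQ K))) (z0 : ℂ) (r : ℝ)
    (hu : ∀ ε > 0, ∀ᶠ δ in 𝓝[>] (0:ℝ), ∀ z ∈ Metric.ball z0 r, |moll δ A z| ≤ ε) :
    ∀ᵐ z ∂((volume : Measure ℂ).restrict (Metric.ball z0 r)), A z = 0 := by
  have hAl := h170_locint hA
  obtain ⟨K, hK⟩ : ∃ K : ℝ, K = ‖z0‖ + r := ⟨_, rfl⟩
  have hsub : Metric.ball z0 r ⊆ bQ K := by
    intro z hz
    rw [Metric.mem_ball, dist_eq_norm] at hz
    have h1 : ‖z‖ ≤ K := by
      have := norm_add_le z0 (z - z0)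
      rw [add_sub_cancel] at this
      linarith
    exact ⟨(Complex.abs_re_le_norm z).trans h1, (Complex.abs_im_le_norm z).trans h1⟩
  have hAi' : IntegrableOn (fun z => A z ^ 2) (bQ K) := (hA K).integrable_sq
  have hAi : IntegrableOn (fun z => A z ^ 2) (Metric.ball z0 r) := hAi'.mono_set hsub
  set V : ℝ := (volume (Metric.ball z0 r)).toReal with hV
  have hVfin : volume (Metric.ball z0 r) < ⊤ := measure_ball_lt_top
  have hle : ∀ ε > 0, ∫ z in Metric.ball z0 r, A z ^ 2 ≤ 2 * 0 + 2 * (ε ^ 2 * V) := by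
    intro ε hε
    have hlim : Tendsto (fun δ => 2 * (∫ z in bQ K, (moll δ A z - A z) ^ 2) + 2 * (ε ^ 2 * V)) (𝓝[>] 0)
        (𝓝 (2 * 0 + 2 * (ε ^ 2 * V))) := ((moll_tendsto_l2 A hA K).const_mul 2).add tendsto_const_nhds
    refine ge_of_tendsto hlim ?_
    filter_upwards [self_mem_nhdsWithin, hu ε hε] with δ hδ hδu
    have hδ' : 0 < δ := hδ
    have hc : MemLp (moll δ A) 2 (volume.restrict (bQ K)) :=
      h170_cont_memLp (h170_smooth δ hδ' A hAl).continuous K
    have i2 : IntegrableOn (fun z => (moll δ A z - A z) ^ 2) (bQ K) := (hc.sub (hA K)).integrable_sq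
    have i2' : IntegrableOn (fun z => (moll δ A z - A z) ^ 2) (Metric.ball z0 r) := i2.mono_set hsub
    have i3 : IntegrableOn (fun _ : ℂ => ε ^ 2) (Metric.ball z0 r) := integrableOn_const hVfin.ne
    have h1 : ∫ z in Metric.ball z0 r, A z ^ 2 ≤ 2 * (∫ z in Metric.ball z0 r, (moll δ A z - A z) ^ 2) +
        2 * (∫ z in Metric.ball z0 r, ε ^ 2) := by
      rw [← integral_const_mul, ← integral_const_mul, ← integral_add (i2'.const_mul 2) (i3.const_mul 2)]
      refine setIntegral_mono_on hAi ((i2'.const_mul 2).add (i3.const_mul 2)) Metric.isOpen_ball.measurableSet fun z hz => ?_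
      have h2 : (moll δ A z) ^ 2 ≤ ε ^ 2 := by
        rw [← sq_abs]
        exact pow_le_pow_left₀ (abs_nonneg _) (hδu z hz) 2
      show A z ^ 2 ≤ 2 * (moll δ A z - A z) ^ 2 + 2 * ε ^ 2
      nlinarith [sq_nonneg (2 * moll δ A z - A z)]
    have h2 : ∫ z in Metric.ball z0 r, (moll δ A z - A z) ^ 2 ≤ ∫ z in bQ K, (moll δ A z - A z) ^ 2 :=
      setIntegral_mono_set i2 (Filter.Eventually.of_forall fun z => sq_nonneg _) hsub.eventuallyLE
    have h3 : ∫ z in Metric.ball z0 r, ε ^ 2 = ε ^ 2 * V := by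
      rw [setIntegral_const, smul_eq_mul, mul_comm]
      rfl
    rw [h3] at h1
    linarith
  have hlim2 : Tendsto (fun ε : ℝ => 2 * 0 + 2 * (ε ^ 2 * V)) (𝓝[>] 0) (𝓝 (2 * 0 + 2 * ((0:ℝ) ^ 2 * V))) := by
    refine Tendsto.mono_left ?_ nhdsWithin_le_nhds
    exact (by fun_prop : Continuous fun ε : ℝ => 2 * (0:ℝ) + 2 * (ε ^ 2 * V)).tendsto 0
  have h1 : ∫ z in Metric.ball z0 r, A z ^ 2 ≤ 2 * 0 + 2 * ((0:ℝ) ^ 2 * V) := by
    refine ge_of_tendsto hlim2 ?_
    filter_upwards [self_mem_nhdsWithin] with ε hε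
    exact hle ε hε
  have h2 : ∫ z in Metric.ball z0 r, A z ^ 2 = 0 :=
    le_antisymm (by simpa using h1) (integral_nonneg fun z => sq_nonneg _)
  have h3 := (integral_eq_zero_iff_of_nonneg (fun z => sq_nonneg (A z)) hAi).1 h2
  filter_upwards [h3] with z hz
  exact pow_eq_zero_iff (two_ne_zero) |>.1 hz

/-- `(∗)`: the data extracted from a non-stationary limit function -/
theorem h170_good {ρ : ℝ} {h ω : ℝ → ℝ} (hd : Dat ρ h ω) (C : ℝ) (U : ℂ → ℝ) (hU : ClsS ρ h C ω U)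
    (hns : ¬ ∀ s : ℝ, ∀ᵐ z : ℂ, U (z + s) = U z) :
    ∃ (z1 : ℂ) (r : ℝ) (Q : ℂ → ℂ), 0 < r ∧ DifferentiableOn ℂ Q (Metric.ball z1 r) ∧ Q z1 ≠ 0 ∧ deriv Q z1 ≠ 0 ∧
      TendstoUniformlyOn (fun (δ : ℝ) (z : ℂ) => cexp (-(ρ * z.im : ℝ) * I) *
        ((aof ρ (moll δ U) z : ℂ) - I * (bof ρ (moll δ U) z : ℂ))) Q (𝓝[>] 0) (Metric.ball z1 r) ∧
      TendstoUniformlyOn (fun (δ : ℝ) (z : ℂ) => cexp (-(ρ * z.im : ℝ) * I) *
        ((dx (aof ρ (moll δ U)) z : ℂ) - I * (dx (bof ρ (moll δ U)) z : ℂ))) (deriv Q) (𝓝[>] 0)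
        (Metric.ball z1 r) := by
  by_contra hcon
  apply hns
  obtain ⟨v, G1, G2, hv, hG1, hG2, e1, e2, e3⟩ := h170_reps hd C U hU
  have hρ := hd.rho
  set A : ℂ → ℝ := fun w => v w + (1 / ρ) * G1 w with hAdef
  set B : ℂ → ℝ := fun w => 0 + (1 / ρ) * G2 w with hBdef
  have hAB := fun δ hδ z => h170_AB (ρ := ρ) hU.loc hv hG1 hG2 e1 e2 e3 δ hδ z
  have hA : ∀ K, MemLp A 2 (volume.restrict (bQ K)) := fun K => (hv K).add ((hG1 K).const_mul _)
  have hB : ∀ K, MemLp B 2 (volume.restrict (bQ K)) := fun K => by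
    have h1 := (hG2 K).const_mul (1 / ρ)
    refine h1.congr_norm ?_ ?_
    · exact (h1.aestronglyMeasurable).congr (Filter.Eventually.of_forall fun z => by simp [hBdef])
    · exact Filter.Eventually.of_forall fun z => by simp [hBdef]
  have hsm : ∀ δ > 0, ContDiff ℝ (⊤ : ℕ∞) (moll δ U) := fun δ hδ => h170_smooth δ hδ U hU.loc
  obtain ⟨Uc, hUc, hUcae, hUcle, hUcper, hUclim, hUcon⟩ := cont_rep hd C U hU
  -- contact set
  have hzero1 : ∀ᵐ z : ℂ, h z.im + (-1) * Uc z = 0 → 0 + (-1) * v z = 0 := by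
    have hhc : Continuous (fun z : ℂ => h z.im) := hd.hcont.comp Complex.continuous_im
    refine grad_zero_ae (fun z => h z.im + (-1) * Uc z) (fun z => 0 + (-1) * v z)
      (fun K => h170_cont_memLp (hhc.add (continuous_const.mul hUc)) K)
      (fun K => ?_) 1 ?_
    · have h1 := (hv K).const_mul (-1)
      refine h1.congr_norm ?_ ?_
      · exact (h1.aestronglyMeasurable).congr (Filter.Eventually.of_forall fun z => by simp)
      · exact Filter.Eventually.of_forall fun z => by simp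
    · intro δ hδ z
      have hl1 : LocallyIntegrable (fun z : ℂ => h z.im) volume := hhc.locallyIntegrable
      have hl2 : LocallyIntegrable Uc volume := hUc.locallyIntegrable
      have h1 : moll δ (fun z => h z.im + (-1) * Uc z) = fun z => moll δ (fun z : ℂ => h z.im) z + (-1) * moll δ U z := by
        funext w
        rw [h170_moll_add δ hδ hl1 hl2, h170_moll_congr δ hUcae w]
      have h2 : moll δ (fun z => 0 + (-1) * v z) z = 0 + (-1) * moll δ v z := by
        rw [h170_moll_add δ hδ (u := fun _ => (0:ℝ)) (v := v) locallyIntegrable_zero (h170_locint hv),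
          h170_moll_zero δ (u := fun _ => (0:ℝ)) (Filter.Eventually.of_forall fun _ => rfl) z]
      have hs1 := h170_smooth δ hδ _ hl1
      have h3 : fderiv ℝ (moll δ (fun z : ℂ => h z.im)) z 1 = 0 := by
        have h4 := h170_line (h170_diff hs1) z 0
        have h5 : (fun t : ℝ => moll δ (fun z : ℂ => h z.im) (z + t)) = fun _ => moll δ (fun z : ℂ => h z.im) z := by
          funext t
          rw [← moll_add_const]
          simp
        rw [h5] at h4
        have h6 := h4.unique (hasDerivAt_const (0:ℝ) (moll δ (fun z : ℂ => h z.im) z))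
        simpa [dx] using h6
      have hs2 := hsm δ hδ
      have h7 : HasFDerivAt (fun z => moll δ (fun z : ℂ => h z.im) z + (-1) * moll δ U z)
          (fderiv ℝ (moll δ (fun z : ℂ => h z.im)) z + (-1 : ℝ) • fderiv ℝ (moll δ U) z) z := by
        exact ((h170_diff hs1) z).hasFDerivAt.add (((h170_diff hs2) z).hasFDerivAt.const_mul (-1))
      rw [h1, h2, h7.fderiv]
      simp only [add_apply, smul_apply, smul_eq_mul]
      rw [h3]
      have h8 := e1 δ hδ z
      unfold dx at h8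
      rw [h8]
  have hmv : ∀ δ > 0, moll δ v = dx (moll δ U) := fun δ hδ => funext fun z => (e1 δ hδ z).symm
  have hzero2 : ∀ᵐ z : ℂ, v z = 0 → G1 z = 0 :=
    grad_zero_ae v G1 hv hG1 1 (fun δ hδ z => by rw [hmv δ hδ]; exact e2 δ hδ z)
  have hzero3 : ∀ᵐ z : ℂ, v z = 0 → G2 z = 0 :=
    grad_zero_ae v G2 hv hG2 I (fun δ hδ z => by rw [hmv δ hδ]; exact e3 δ hδ z)
  set N : Set ℂ := {z0 : ℂ | ∃ r > 0, ∃ δ1 > 0, ∀ δ ∈ Ioc (0 : ℝ) δ1, ∀ z ∈ Metric.ball z0 r,
        Lop ρ (moll δ U) z = 0} with hN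
  have hcontact : ∀ᵐ z : ℂ, z ∉ N → A z = 0 ∧ B z = 0 := by
    filter_upwards [hzero1, hzero2, hzero3] with z h1 h2 h3 hz
    have h4 : Uc z = h z.im := hUcon z hz
    have h5 : v z = 0 := by
      have := h1 (by rw [h4]; ring)
      linarith
    refine ⟨?_, ?_⟩
    · rw [hAdef]; simp only; rw [h5, h2 h5]; ring
    · rw [hBdef]; simp only; rw [h3 h5]; ring
  -- free part
  have hfree : ∀ z0 ∈ N, ∃ r > 0, (∀ᵐ z ∂((volume : Measure ℂ).restrict (Metric.ball z0 r)), A z = 0) ∧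
      (∀ᵐ z ∂((volume : Measure ℂ).restrict (Metric.ball z0 r)), B z = 0) := by
    intro z0 hz0
    obtain ⟨r, hr, δ1, hδ1, hL⟩ := hz0
    obtain ⟨Q, hQd, hQ1, hQ2⟩ := local_holo hd C U hU z0 r δ1 hr hδ1 hL
    have hQ' : ∀ z ∈ Metric.ball z0 (r / 4), deriv Q z = 0 := by
      by_contra hne
      push Not at hne
      obtain ⟨z1, hz1, hQz1⟩ := hne
      have hsub : Metric.ball z0 (r / 4) ⊆ Metric.ball z0 (r / 2) := Metric.ball_subset_ball (by linarith)
      have hopen : IsOpen (Metric.ball z0 (r / 2)) := Metric.isOpen_ball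
      have hda : DifferentiableAt ℂ Q z1 := hQd.differentiableAt (hopen.mem_nhds (hsub hz1))
      have hdc : ContinuousAt (deriv Q) z1 := (hQd.deriv hopen).continuousOn.continuousAt (hopen.mem_nhds (hsub hz1))
      have hev1 : ∀ᶠ z in 𝓝[≠] z1, Q z ≠ 0 := hda.hasDerivAt.eventually_ne hQz1
      have hev2 : ∀ᶠ z in 𝓝[≠] z1, deriv Q z ≠ 0 := (hdc.eventually_ne hQz1).filter_mono nhdsWithin_le_nhds
      have hev3 : ∀ᶠ z in 𝓝[≠] z1, z ∈ Metric.ball z0 (r / 4) :=
        nhdsWithin_le_nhds (Metric.isOpen_ball.mem_nhds hz1)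
      obtain ⟨z2, hz2a, hz2b, hz2c⟩ := (hev1.and (hev2.and hev3)).exists
      apply hcon
      have hr' : 0 < r / 4 - dist z2 z0 := by
        rw [Metric.mem_ball] at hz2c
        linarith
      have hsub2 : Metric.ball z2 (r / 4 - dist z2 z0) ⊆ Metric.ball z0 (r / 4) := by
        refine Metric.ball_subset_ball' ?_
        linarith
      refine ⟨z2, r / 4 - dist z2 z0, Q, hr', hQd.mono (hsub2.trans hsub), hz2a, hz2b,
        hQ1.mono (hsub2.trans Metric.ball_subset_closedBall), hQ2.mono (hsub2.trans Metric.ball_subset_closedBall)⟩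
    have hunif : ∀ ε > 0, ∀ᶠ δ in 𝓝[>] (0:ℝ), ∀ z ∈ Metric.ball z0 (r / 4), |moll δ A z| ≤ ε ∧ |moll δ B z| ≤ ε := by
      intro ε hε
      have h1 := Metric.tendstoUniformlyOn_iff.1 hQ2 ε hε
      filter_upwards [h1, self_mem_nhdsWithin] with δ h2 hδ z hz
      have hδ' : 0 < δ := hδ
      have h3 := h2 z (Metric.ball_subset_closedBall hz)
      rw [hQ' z hz, dist_zero_left] at h3
      have h4 := h170_norm_rot ρ z.im (dx (aof ρ (moll δ U)) z) (dx (bof ρ (moll δ U)) z)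
      have h5 : dx (aof ρ (moll δ U)) z ^ 2 + dx (bof ρ (moll δ U)) z ^ 2 ≤ ε ^ 2 := by
        rw [← h4]
        exact pow_le_pow_left₀ (norm_nonneg _) h3.le 2
      rw [(hAB δ hδ' z).1, (hAB δ hδ' z).2] at h5
      constructor
      · refine abs_le_of_sq_le_sq ?_ hε.le
        nlinarith [sq_nonneg (moll δ (fun w => 0 + 1 / ρ * G2 w) z)]
      · refine abs_le_of_sq_le_sq ?_ hε.le
        nlinarith [sq_nonneg (moll δ (fun w => v w + 1 / ρ * G1 w) z)]
    refine ⟨r / 4, by linarith, ?_, ?_⟩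
    · refine h170_loc_zero hA z0 (r / 4) fun ε hε => ?_
      filter_upwards [hunif ε hε] with δ hδ z hz
      exact (hδ z hz).1
    · refine h170_loc_zero hB z0 (r / 4) fun ε hε => ?_
      filter_upwards [hunif ε hε] with δ hδ z hz
      exact (hδ z hz).2
  have hfree2 : ∀ᵐ z : ℂ, ¬ (z ∈ N ∧ ¬ (A z = 0 ∧ B z = 0)) := by
    rw [ae_iff]
    simp only [not_not]
    refine measure_null_of_locally_null _ fun z0 hz0 => ?_
    obtain ⟨r, hr, hrA, hrB⟩ := hfree z0 hz0.1
    refine ⟨{z | z ∈ N ∧ ¬ (A z = 0 ∧ B z = 0)} ∩ Metric.ball z0 r, ?_, ?_⟩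
    · exact Filter.inter_mem self_mem_nhdsWithin (nhdsWithin_le_nhds (Metric.ball_mem_nhds z0 hr))
    · have h1 : ∀ᵐ z ∂((volume : Measure ℂ).restrict (Metric.ball z0 r)), ¬ (z ∈ N ∧ ¬ (A z = 0 ∧ B z = 0)) := by
        filter_upwards [hrA, hrB] with z h2 h3 h4
        exact h4.2 ⟨h2, h3⟩
      rw [ae_iff] at h1
      simp only [not_not] at h1
      rw [Measure.restrict_apply' Metric.isOpen_ball.measurableSet] at h1
      exact h1
  have hall : ∀ᵐ z : ℂ, A z = 0 ∧ B z = 0 := by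
    filter_upwards [hcontact, hfree2] with z h1 h2
    by_contra h3
    by_cases hz : z ∈ N
    · exact h2 ⟨hz, h3⟩
    · exact h3 (h1 hz)
  refine stationary_of_flat hd C U hU fun K => ?_
  refine tendsto_const_nhds.congr' ?_
  filter_upwards [self_mem_nhdsWithin] with δ hδ
  have hδ' : 0 < δ := hδ
  symm
  refine integral_eq_zero_of_ae (Filter.Eventually.of_forall fun z => ?_)
  simp only
  rw [(hAB δ hδ' z).1, (hAB δ hδ' z).2, h170_moll_zero δ (hall.mono fun z hz => hz.1),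
    h170_moll_zero δ (hall.mono fun z hz => hz.2)]
  simp

/-! ### lower bound on a small rectangle -/

theorem h170_oneD (φ : ℝ → ℝ) (hφ : Continuous φ) (hφ0 : ∀ s, 0 ≤ φ s) (T1 T2 : ℝ) (hT : T1 ≤ T2)
    (a b : ℝ) (hab : a ≤ b) (σ σ' w : ℝ → ℝ)
    (hσ : ∀ t ∈ Icc a b, HasDerivAt σ (σ' t) t) (hσ' : ContinuousOn σ' (Icc a b))
    (hw : ContinuousOn w (Icc a b)) (c2 c3 : ℝ) (hc2 : 0 < c2) (hc3 : 0 < c3)
    (h3 : ∀ t ∈ Icc a b, |σ' t| ≤ c3) (h2 : ∀ t ∈ Icc a b, c2 ≤ w t)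
    (hend : (σ a ≤ T1 ∧ T2 ≤ σ b) ∨ (σ b ≤ T1 ∧ T2 ≤ σ a)) :
    (c2 / c3) * (∫ s in T1..T2, φ s) ≤ ∫ t in a..b, φ (σ t) * w t := by
  have hσc : ContinuousOn σ (Icc a b) := fun t ht => (hσ t ht).continuousAt.continuousWithinAt
  have hφσ : ContinuousOn (fun t => φ (σ t)) (Icc a b) := hφ.comp_continuousOn hσc
  have hu : uIcc a b = Icc a b := uIcc_of_le hab
  have hsub : ∫ t in a..b, (φ ∘ σ) t * σ' t = ∫ u in σ a..σ b, φ u :=
    intervalIntegral.integral_comp_mul_deriv' (by rw [hu]; exact hσ) (by rw [hu]; exact hσ') hφ.continuousOn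
  have i1 : IntervalIntegrable (fun t => φ (σ t) * w t) volume a b := by
    refine ContinuousOn.intervalIntegrable ?_
    rw [hu]
    exact hφσ.mul hw
  have i2 : IntervalIntegrable (fun t => (c2 / c3) * |φ (σ t) * σ' t|) volume a b := by
    refine ContinuousOn.intervalIntegrable ?_
    rw [hu]
    exact continuousOn_const.mul (hφσ.mul hσ').abs
  have hstep : ∫ t in a..b, (c2 / c3) * |φ (σ t) * σ' t| ≤ ∫ t in a..b, φ (σ t) * w t := by
    refine intervalIntegral.integral_mono_on hab i2 i1 fun t ht => ?_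
    rw [abs_mul, abs_of_nonneg (hφ0 _)]
    have h4 : |σ' t| ≤ c3 := h3 t ht
    have h5 : c2 ≤ w t := h2 t ht
    have h6 : c2 / c3 * |σ' t| ≤ w t := by
      calc c2 / c3 * |σ' t| ≤ c2 / c3 * c3 := mul_le_mul_of_nonneg_left h4 (by positivity)
        _ = c2 := by field_simp
        _ ≤ w t := h5
    calc c2 / c3 * (φ (σ t) * |σ' t|) = φ (σ t) * (c2 / c3 * |σ' t|) := by ring
      _ ≤ φ (σ t) * w t := mul_le_mul_of_nonneg_left h6 (hφ0 _)
  have habs : |∫ u in σ a..σ b, φ u| ≤ ∫ t in a..b, |φ (σ t) * σ' t| := by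
    rw [← hsub]
    exact intervalIntegral.abs_integral_le_integral_abs hab
  rw [intervalIntegral.integral_const_mul] at hstep
  refine le_trans ?_ hstep
  refine mul_le_mul_of_nonneg_left ?_ (by positivity)
  refine le_trans ?_ habs
  rcases hend with ⟨h4, h5⟩ | ⟨h4, h5⟩
  · refine le_trans ?_ (le_abs_self _)
    exact intervalIntegral.integral_mono_interval h4 hT h5
      (Filter.Eventually.of_forall fun s => hφ0 s) (hφ.intervalIntegrable _ _)
  · rw [intervalIntegral.integral_symm (σ b) (σ a), abs_neg]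
    refine le_trans ?_ (le_abs_self _)
    exact intervalIntegral.integral_mono_interval h4 hT h5
      (Filter.Eventually.of_forall fun s => hφ0 s) (hφ.intervalIntegrable _ _)

theorem h170_two_sided {f : ℝ → ℝ} {d x1 : ℝ} (hf : HasDerivAt f d x1) (hd : d ≠ 0) (r : ℝ) (hr : 0 < r) :
    ∃ α, 0 < α ∧ α ≤ r ∧ ((f (x1 - α) < f (x1 + α)) ∨ (f (x1 + α) < f (x1 - α))) := by
  have h1 := hasDerivAt_iff_tendsto_slope.1 hf
  have key : ∀ g : ℝ → ℝ, ∀ e : ℝ, HasDerivAt g e x1 → 0 < e → ∃ α, 0 < α ∧ α ≤ r ∧ g (x1 - α) < g (x1 + α) := by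
    intro g e hg he
    have h2 := hasDerivAt_iff_tendsto_slope.1 hg
    have h3 : ∀ᶠ x in 𝓝[≠] x1, 0 < slope g x1 x := h2.eventually (eventually_gt_nhds he)
    rw [eventually_nhdsWithin_iff, Metric.eventually_nhds_iff] at h3
    obtain ⟨ε, hε, h4⟩ := h3
    refine ⟨min (ε / 2) r, by positivity, min_le_right _ _, ?_⟩
    set α := min (ε / 2) r with hα
    have hα0 : 0 < α := by positivity
    have hαε : α < ε := lt_of_le_of_lt (min_le_left _ _) (by linarith)
    have h5 := h4 (y := x1 + α) (by rw [Real.dist_eq]; simpa [abs_of_pos hα0] using hαε) (by simp [hα0.ne'])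
    have h6 := h4 (y := x1 - α) (by rw [Real.dist_eq]; simpa [abs_of_pos hα0] using hαε) (by simp [hα0.ne'])
    rw [slope_def_field] at h5 h6
    have h7 : 0 < g (x1 + α) - g x1 := by
      have : x1 + α - x1 = α := by ring
      rw [this] at h5
      exact (div_pos_iff_of_pos_right hα0).1 h5
    have h8 : 0 < g x1 - g (x1 - α) := by
      have : x1 - α - x1 = -α := by ring
      rw [this, div_neg, ← neg_div] at h6
      have := (div_pos_iff_of_pos_right hα0).1 h6
      linarith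
    linarith
  rcases lt_or_gt_of_ne hd with h2 | h2
  · obtain ⟨α, h3, h4, h5⟩ := key (fun x => -f x) (-d) hf.neg (by linarith)
    exact ⟨α, h3, h4, Or.inr (by linarith)⟩
  · obtain ⟨α, h3, h4, h5⟩ := key f d hf h2
    exact ⟨α, h3, h4, Or.inl h5⟩

theorem h170_rect_real (S W Sx : ℝ → ℝ → ℝ) (x1 y1 r : ℝ) (hr : 0 < r)
    (hS : ContinuousOn (fun p : ℝ × ℝ => S p.1 p.2) (Icc (x1 - r) (x1 + r) ×ˢ Icc (y1 - r) (y1 + r)))
    (hW : ContinuousOn (fun p : ℝ × ℝ => W p.1 p.2) (Icc (x1 - r) (x1 + r) ×ˢ Icc (y1 - r) (y1 + r)))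
    (hSx : ContinuousOn (fun p : ℝ × ℝ => Sx p.1 p.2) (Icc (x1 - r) (x1 + r) ×ˢ Icc (y1 - r) (y1 + r)))
    (hd : ∀ x ∈ Icc (x1 - r) (x1 + r), ∀ y ∈ Icc (y1 - r) (y1 + r), HasDerivAt (fun x => S x y) (Sx x y) x)
    (hS0 : ∀ x y, 0 ≤ S x y) (hSx0 : Sx x1 y1 ≠ 0) (hW0 : 0 < W x1 y1) :
    ∃ T1 T2 c α β : ℝ, 0 < T1 ∧ T1 < T2 ∧ 0 < c ∧ 0 < α ∧ α ≤ r ∧ 0 < β ∧ β ≤ r ∧
      ∀ φ : ℝ → ℝ, Continuous φ → (∀ s, 0 ≤ φ s) →
        c * (∫ s in T1..T2, φ s) ≤ ∫ y in (y1 - β)..(y1 + β), ∫ x in (x1 - α)..(x1 + α), φ (S x y) * W x y := by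
  have hx1 : x1 ∈ Icc (x1 - r) (x1 + r) := ⟨by linarith, by linarith⟩
  have hy1 : y1 ∈ Icc (y1 - r) (y1 + r) := ⟨by linarith, by linarith⟩
  have hnb : Icc (x1 - r) (x1 + r) ×ˢ Icc (y1 - r) (y1 + r) ∈ 𝓝 ((x1, y1) : ℝ × ℝ) :=
    prod_mem_nhds (Icc_mem_nhds (by linarith) (by linarith)) (Icc_mem_nhds (by linarith) (by linarith))
  -- lower bound of W
  have hWc : ContinuousAt (fun p : ℝ × ℝ => W p.1 p.2) (x1, y1) := hW.continuousAt hnb
  have hev : ∀ᶠ p in 𝓝 ((x1, y1) : ℝ × ℝ), W x1 y1 / 2 < W p.1 p.2 :=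
    hWc.eventually (eventually_gt_nhds (by simp only; linarith))
  rw [Metric.eventually_nhds_iff] at hev
  obtain ⟨ε, hε, hWε⟩ := hev
  obtain ⟨r', hr'⟩ : ∃ r' : ℝ, r' = min (ε / 2) r := ⟨_, rfl⟩
  have hr'0 : 0 < r' := by rw [hr']; positivity
  have hr'r : r' ≤ r := by rw [hr']; exact min_le_right _ _
  have hr'ε : r' < ε := by rw [hr']; exact lt_of_le_of_lt (min_le_left _ _) (by linarith)
  have hWlow : ∀ x ∈ Icc (x1 - r') (x1 + r'), ∀ y ∈ Icc (y1 - r') (y1 + r'), W x1 y1 / 2 ≤ W x y := by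
    intro x hx y hy
    refine (hWε (y := (x, y)) ?_).le
    rw [Prod.dist_eq, Real.dist_eq, Real.dist_eq, max_lt_iff]
    constructor
    · refine lt_of_le_of_lt ?_ hr'ε
      rw [abs_le]
      constructor <;> linarith [hx.1, hx.2]
    · refine lt_of_le_of_lt ?_ hr'ε
      rw [abs_le]
      constructor <;> linarith [hy.1, hy.2]
  -- upper bound of Sx
  obtain ⟨C3, hC3⟩ := (isCompact_Icc.prod isCompact_Icc).exists_bound_of_continuousOn hSx
  obtain ⟨c3, hc3def⟩ : ∃ c3 : ℝ, c3 = |C3| + 1 := ⟨_, rfl⟩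
  have hc3 : 0 < c3 := by rw [hc3def]; positivity
  have hSxup : ∀ x ∈ Icc (x1 - r) (x1 + r), ∀ y ∈ Icc (y1 - r) (y1 + r), |Sx x y| ≤ c3 := by
    intro x hx y hy
    have h1 := hC3 (x, y) ⟨hx, hy⟩
    rw [Real.norm_eq_abs] at h1
    have h2 := le_abs_self C3
    simp only at h1
    rw [hc3def]
    linarith
  -- choice of alpha
  obtain ⟨α, hα0, hαr, hαs⟩ := h170_two_sided (hd x1 hx1 y1 hy1) hSx0 r' hr'0
  have hαr2 := hαr.trans hr'r
  have hxm : x1 - α ∈ Icc (x1 - r) (x1 + r) := ⟨by linarith, by linarith⟩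
  have hxp : x1 + α ∈ Icc (x1 - r) (x1 + r) := ⟨by linarith, by linarith⟩
  obtain ⟨lo, hlo⟩ : ∃ lo : ℝ, lo = min (S (x1 - α) y1) (S (x1 + α) y1) := ⟨_, rfl⟩
  obtain ⟨hi, hhi⟩ : ∃ hi : ℝ, hi = max (S (x1 - α) y1) (S (x1 + α) y1) := ⟨_, rfl⟩
  have hlo0 : 0 ≤ lo := by rw [hlo]; exact le_min (hS0 _ _) (hS0 _ _)
  have hlohi : lo < hi := by
    rw [hlo, hhi]
    rcases hαs with h1 | h1
    · rw [min_eq_left h1.le, max_eq_right h1.le]; exact h1
    · rw [min_eq_right h1.le, max_eq_left h1.le]; exact h1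
  have hcy : ∀ x ∈ Icc (x1 - r) (x1 + r), ∀ᶠ y in 𝓝 y1, |S x y - S x y1| < (hi - lo) / 3 := by
    intro x hx
    have h1 : ContinuousOn (fun y => S x y) (Icc (y1 - r) (y1 + r)) := by
      exact hS.comp (f := fun y => (x, y)) (by fun_prop) (fun y hy => ⟨hx, hy⟩)
    have h2 : ContinuousAt (fun y => S x y) y1 := h1.continuousAt (Icc_mem_nhds (by linarith) (by linarith))
    have h3 := Metric.continuousAt_iff'.1 h2 ((hi - lo) / 3) (by linarith)
    exact h3
  have hev2 := (hcy _ hxm).and (hcy _ hxp)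
  rw [Metric.eventually_nhds_iff] at hev2
  obtain ⟨ε2, hε2, hy2⟩ := hev2
  obtain ⟨β, hβ⟩ : ∃ β : ℝ, β = min (ε2 / 2) r' := ⟨_, rfl⟩
  have hβ0 : 0 < β := by rw [hβ]; positivity
  have hβr : β ≤ r' := by rw [hβ]; exact min_le_right _ _
  have hβε : β < ε2 := by rw [hβ]; exact lt_of_le_of_lt (min_le_left _ _) (by linarith)
  obtain ⟨T1, hT1⟩ : ∃ T1 : ℝ, T1 = lo + (hi - lo) / 3 := ⟨_, rfl⟩
  obtain ⟨T2, hT2⟩ : ∃ T2 : ℝ, T2 = hi - (hi - lo) / 3 := ⟨_, rfl⟩
  obtain ⟨c2, hc2def⟩ : ∃ c2 : ℝ, c2 = W x1 y1 / 2 := ⟨_, rfl⟩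
  have hc2 : 0 < c2 := by rw [hc2def]; linarith
  refine ⟨T1, T2, 2 * β * (c2 / c3), α, β, by rw [hT1]; linarith, by rw [hT1, hT2]; linarith, by positivity,
    hα0, hαr2, hβ0, hβr.trans hr'r, ?_⟩
  intro φ hφ hφ0
  have hsubsq : Icc (x1 - α) (x1 + α) ×ˢ Icc (y1 - β) (y1 + β) ⊆ Icc (x1 - r) (x1 + r) ×ˢ Icc (y1 - r) (y1 + r) := by
    refine prod_mono (Icc_subset_Icc (by linarith) (by linarith)) (Icc_subset_Icc (by linarith) (by linarith))
  have hcont : ContinuousOn (fun p : ℝ × ℝ => φ (S p.1 p.2) * W p.1 p.2)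
      (Icc (x1 - α) (x1 + α) ×ˢ Icc (y1 - β) (y1 + β)) :=
    (hφ.comp_continuousOn (hS.mono hsubsq)).mul (hW.mono hsubsq)
  have hint : IntegrableOn (fun p : ℝ × ℝ => φ (S p.1 p.2) * W p.1 p.2)
      (Ioc (x1 - α) (x1 + α) ×ˢ Ioc (y1 - β) (y1 + β)) (volume.prod volume) :=
    (hcont.integrableOn_compact (isCompact_Icc.prod isCompact_Icc)).mono_set
      (prod_mono Ioc_subset_Icc_self Ioc_subset_Icc_self)
  have hint2 : Integrable (fun y => ∫ x in Ioc (x1 - α) (x1 + α), φ (S x y) * W x y)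
      (volume.restrict (Ioc (y1 - β) (y1 + β))) := by
    rw [IntegrableOn, ← Measure.prod_restrict] at hint
    exact hint.integral_prod_right
  have hint3 : IntervalIntegrable (fun y => ∫ x in (x1 - α)..(x1 + α), φ (S x y) * W x y) volume (y1 - β) (y1 + β) := by
    rw [intervalIntegrable_iff_integrableOn_Ioc_of_le (by linarith)]
    refine Integrable.congr hint2 (Filter.Eventually.of_forall fun y => ?_)
    simp only
    rw [intervalIntegral.integral_of_le (by linarith)]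
  have hlow : ∀ y ∈ Icc (y1 - β) (y1 + β), (c2 / c3) * (∫ s in T1..T2, φ s) ≤
      ∫ x in (x1 - α)..(x1 + α), φ (S x y) * W x y := by
    intro y hy
    have hyr' : y ∈ Icc (y1 - r') (y1 + r') := ⟨by linarith [hy.1], by linarith [hy.2]⟩
    have hyr : y ∈ Icc (y1 - r) (y1 + r) := ⟨by linarith [hy.1], by linarith [hy.2]⟩
    have hxr' : ∀ t ∈ Icc (x1 - α) (x1 + α), t ∈ Icc (x1 - r') (x1 + r') := fun t ht =>
      ⟨by linarith [ht.1], by linarith [ht.2]⟩
    have hxr : ∀ t ∈ Icc (x1 - α) (x1 + α), t ∈ Icc (x1 - r) (x1 + r) := fun t ht =>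
      ⟨by linarith [ht.1], by linarith [ht.2]⟩
    have hyd : dist y y1 < ε2 := by
      rw [Real.dist_eq]
      refine lt_of_le_of_lt ?_ hβε
      rw [abs_le]
      constructor <;> linarith [hy.1, hy.2]
    obtain ⟨h1, h2⟩ := hy2 hyd
    rw [abs_lt] at h1 h2
    refine h170_oneD φ hφ hφ0 T1 T2 (by rw [hT1, hT2]; linarith) (x1 - α) (x1 + α) (by linarith)
      (fun x => S x y) (fun x => Sx x y) (fun x => W x y) (fun t ht => hd t (hxr t ht) y hyr) ?_ ?_ c2 c3 hc2 hc3
      (fun t ht => hSxup t (hxr t ht) y hyr) (fun t ht => by rw [hc2def]; exact hWlow t (hxr' t ht) y hyr') ?_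
    · exact hSx.comp (f := fun x => (x, y)) (by fun_prop) (fun t ht => ⟨hxr t ht, hyr⟩)
    · exact hW.comp (f := fun x => (x, y)) (by fun_prop) (fun t ht => ⟨hxr t ht, hyr⟩)
    · rcases hαs with h3 | h3
      · left
        rw [min_eq_left h3.le] at hlo
        rw [max_eq_right h3.le] at hhi
        constructor
        · show S (x1 - α) y ≤ T1
          linarith
        · show T2 ≤ S (x1 + α) y
          linarith
      · right
        rw [min_eq_right h3.le] at hlo
        rw [max_eq_left h3.le] at hhi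
        constructor
        · show S (x1 + α) y ≤ T1
          linarith
        · show T2 ≤ S (x1 - α) y
          linarith
  have h1 : ∫ y in (y1 - β)..(y1 + β), (c2 / c3) * (∫ s in T1..T2, φ s) ≤
      ∫ y in (y1 - β)..(y1 + β), ∫ x in (x1 - α)..(x1 + α), φ (S x y) * W x y :=
    intervalIntegral.integral_mono_on (by linarith) intervalIntegrable_const hint3 hlow
  rw [intervalIntegral.integral_const, smul_eq_mul] at h1
  refine le_trans (le_of_eq ?_) h1
  ring

/-- the rectangle for an analytic function -/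
theorem h170_rect (z1 : ℂ) (r : ℝ) (Q : ℂ → ℂ) (hr : 0 < r) (hQ : DifferentiableOn ℂ Q (Metric.ball z1 r))
    (h1 : Q z1 ≠ 0) (h2 : deriv Q z1 ≠ 0) :
    ∃ T1 T2 c α β : ℝ, 0 < T1 ∧ T1 < T2 ∧ 0 < c ∧ 0 < α ∧ α ≤ 1 ∧ 0 < β ∧ β ≤ 1 ∧
      (∀ x ∈ Icc (z1.re - α) (z1.re + α), ∀ y ∈ Icc (z1.im - β) (z1.im + β),
        (x : ℂ) + y * I ∈ Metric.closedBall z1 (r / 2)) ∧
      ∀ φ : ℝ → ℝ, Continuous φ → (∀ s, 0 ≤ φ s) →
        c * (∫ s in T1..T2, φ s) ≤ ∫ p in Ioc (z1.re - α) (z1.re + α) ×ˢ Ioc (z1.im - β) (z1.im + β),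
          φ (‖Q ((p.1 : ℂ) + p.2 * I)‖ ^ 2) * ‖deriv Q ((p.1 : ℂ) + p.2 * I)‖ ^ 2 ∂(volume.prod volume) := by
  obtain ⟨r', hr'⟩ : ∃ r' : ℝ, r' = min (r / 4) 1 := ⟨_, rfl⟩
  have hr'0 : 0 < r' := by rw [hr']; positivity
  have hr'1 : r' ≤ 1 := by rw [hr']; exact min_le_right _ _
  have hr'4 : r' ≤ r / 4 := by rw [hr']; exact min_le_left _ _
  set x1 := z1.re with hx1
  set y1 := z1.im with hy1
  have hz1 : (x1 : ℂ) + y1 * I = z1 := Complex.re_add_im z1
  have hin : ∀ x ∈ Icc (x1 - r') (x1 + r'), ∀ y ∈ Icc (y1 - r') (y1 + r'),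
      (x : ℂ) + y * I ∈ Metric.closedBall z1 (r / 2) := by
    intro x hx y hy
    rw [Metric.mem_closedBall, dist_eq_norm]
    have h3 := Complex.norm_le_abs_re_add_abs_im ((x : ℂ) + y * I - z1)
    have h4 : ((x : ℂ) + y * I - z1).re = x - x1 := by simp [hx1]
    have h5 : ((x : ℂ) + y * I - z1).im = y - y1 := by simp [hy1]
    rw [h4, h5] at h3
    have h6 : |x - x1| ≤ r' := by rw [abs_le]; constructor <;> linarith [hx.1, hx.2]
    have h7 : |y - y1| ≤ r' := by rw [abs_le]; constructor <;> linarith [hy.1, hy.2]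
    linarith
  have hcb : Metric.closedBall z1 (r / 2) ⊆ Metric.ball z1 r := Metric.closedBall_subset_ball (by linarith)
  have hopen : IsOpen (Metric.ball z1 r) := Metric.isOpen_ball
  have hQd : ∀ z ∈ Metric.closedBall z1 (r / 2), HasDerivAt Q (deriv Q z) z := fun z hz =>
    (hQ.differentiableAt (hopen.mem_nhds (hcb hz))).hasDerivAt
  have hQc : ContinuousOn Q (Metric.closedBall z1 (r / 2)) := hQ.continuousOn.mono hcb
  have hQ'c : ContinuousOn (deriv Q) (Metric.closedBall z1 (r / 2)) := (hQ.deriv hopen).continuousOn.mono hcb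
  have hmap : ContinuousOn (fun p : ℝ × ℝ => (p.1 : ℂ) + p.2 * I) (Icc (x1 - r') (x1 + r') ×ˢ Icc (y1 - r') (y1 + r')) := by
    fun_prop
  have hmt : MapsTo (fun p : ℝ × ℝ => (p.1 : ℂ) + p.2 * I) (Icc (x1 - r') (x1 + r') ×ˢ Icc (y1 - r') (y1 + r'))
      (Metric.closedBall z1 (r / 2)) := fun p hp => hin p.1 hp.1 p.2 hp.2
  have hQp : ContinuousOn (fun p : ℝ × ℝ => Q ((p.1 : ℂ) + p.2 * I)) (Icc (x1 - r') (x1 + r') ×ˢ Icc (y1 - r') (y1 + r')) :=
    hQc.comp hmap hmt
  have hQ'p : ContinuousOn (fun p : ℝ × ℝ => deriv Q ((p.1 : ℂ) + p.2 * I)) (Icc (x1 - r') (x1 + r') ×ˢ Icc (y1 - r') (y1 + r')) :=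
    hQ'c.comp hmap hmt
  have hSp : ContinuousOn (fun p : ℝ × ℝ => ‖Q ((p.1 : ℂ) + p.2 * I)‖ ^ 2) (Icc (x1 - r') (x1 + r') ×ˢ Icc (y1 - r') (y1 + r')) :=
    hQp.norm.pow 2
  have hWp : ContinuousOn (fun p : ℝ × ℝ => ‖deriv Q ((p.1 : ℂ) + p.2 * I)‖ ^ 2) (Icc (x1 - r') (x1 + r') ×ˢ Icc (y1 - r') (y1 + r')) :=
    hQ'p.norm.pow 2
  have hint : ∀ φ : ℝ → ℝ, Continuous φ → ∀ α β : ℝ, 0 < α → α ≤ r' → 0 < β → β ≤ r' →
      Integrable (fun p : ℝ × ℝ => φ (‖Q ((p.1 : ℂ) + p.2 * I)‖ ^ 2) * ‖deriv Q ((p.1 : ℂ) + p.2 * I)‖ ^ 2)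
      ((volume.restrict (Ioc (x1 - α) (x1 + α))).prod (volume.restrict (Ioc (y1 - β) (y1 + β)))) := by
    intro φ hφ α β hα hα' hβ hβ'
    rw [Measure.prod_restrict]
    have h3 : ContinuousOn (fun p : ℝ × ℝ => φ (‖Q ((p.1 : ℂ) + p.2 * I)‖ ^ 2) * ‖deriv Q ((p.1 : ℂ) + p.2 * I)‖ ^ 2)
        (Icc (x1 - r') (x1 + r') ×ˢ Icc (y1 - r') (y1 + r')) := (hφ.comp_continuousOn hSp).mul hWp
    refine (h3.integrableOn_compact (isCompact_Icc.prod isCompact_Icc)).mono_set ?_
    refine (Set.prod_mono Ioc_subset_Icc_self Ioc_subset_Icc_self).trans ?_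
    exact Set.prod_mono (Icc_subset_Icc (by linarith) (by linarith)) (Icc_subset_Icc (by linarith) (by linarith))
  have hW0 : 0 < ‖deriv Q ((x1 : ℂ) + y1 * I)‖ ^ 2 := by
    rw [hz1]
    positivity
  by_cases hre : inner ℝ (Q z1) (deriv Q z1) = 0
  · -- direction I
    have him : inner ℝ (Q z1) (deriv Q z1 * I) ≠ 0 := by
      intro h3
      rw [Complex.inner] at hre h3
      have h4 : (deriv Q z1 * I) * (starRingEnd ℂ) (Q z1) = (deriv Q z1 * (starRingEnd ℂ) (Q z1)) * I := by ring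
      rw [h4, Complex.mul_I_re] at h3
      have h5 : deriv Q z1 * (starRingEnd ℂ) (Q z1) = 0 := Complex.ext hre (by simp at h3 ⊢; linarith)
      rcases mul_eq_zero.1 h5 with h6 | h6
      · exact h2 h6
      · exact h1 ((map_eq_zero _).1 h6)
    have hswap : Continuous (fun p : ℝ × ℝ => (p.2, p.1)) := continuous_snd.prodMk continuous_fst
    obtain ⟨T1, T2, c, α, β, t1, t2, t3, t4, t5, t6, t7, t8⟩ := h170_rect_real
      (fun y x => ‖Q ((x : ℂ) + y * I)‖ ^ 2) (fun y x => ‖deriv Q ((x : ℂ) + y * I)‖ ^ 2)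
      (fun y x => 2 * inner ℝ (Q ((x : ℂ) + y * I)) (deriv Q ((x : ℂ) + y * I) * I)) y1 x1 r' hr'0
      (hSp.comp (f := fun p : ℝ × ℝ => (p.2, p.1)) hswap.continuousOn (fun p hp => ⟨hp.2, hp.1⟩))
      (hWp.comp (f := fun p : ℝ × ℝ => (p.2, p.1)) hswap.continuousOn (fun p hp => ⟨hp.2, hp.1⟩))
      (by
        have h3 : ContinuousOn (fun p : ℝ × ℝ => 2 * inner ℝ (Q ((p.1 : ℂ) + p.2 * I)) (deriv Q ((p.1 : ℂ) + p.2 * I) * I))
          (Icc (x1 - r') (x1 + r') ×ˢ Icc (y1 - r') (y1 + r')) :=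
          continuousOn_const.mul (ContinuousOn.inner (𝕜 := ℝ) hQp (hQ'p.mul continuousOn_const))
        exact h3.comp (f := fun p : ℝ × ℝ => (p.2, p.1)) hswap.continuousOn (fun p hp => ⟨hp.2, hp.1⟩))
      (by
        intro y hy x hx
        have h3 := hQd _ (hin x hx y hy)
        have h4 : HasDerivAt (fun y : ℝ => (x : ℂ) + y * I) I y := by
          have := ((Complex.ofRealCLM.hasDerivAt (x := y)).mul_const I).const_add (x : ℂ)
          simpa using this
        have h5 : HasDerivAt (fun y : ℝ => Q ((x : ℂ) + y * I)) (deriv Q ((x : ℂ) + y * I) * I) y :=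
          h3.comp y h4
        exact h5.norm_sq)
      (fun _ _ => by positivity)
      (by rw [hz1]; exact mul_ne_zero two_ne_zero him)
      hW0
    refine ⟨T1, T2, c, β, α, t1, t2, t3, t6, t7.trans hr'1, t4, t5.trans hr'1, ?_, ?_⟩
    · intro x hx y hy
      exact hin x ⟨by linarith [hx.1], by linarith [hx.2]⟩ y ⟨by linarith [hy.1], by linarith [hy.2]⟩
    · intro φ hφ hφ0
      have h3 := t8 φ hφ hφ0
      rw [← Measure.prod_restrict, integral_prod _ (hint φ hφ β α t6 t7 t4 t5)]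
      rw [intervalIntegral.integral_of_le (by linarith : x1 - β ≤ x1 + β)] at h3
      refine h3.trans (le_of_eq ?_)
      refine integral_congr_ae (Filter.Eventually.of_forall fun x => ?_)
      simp only
      rw [intervalIntegral.integral_of_le (by linarith)]
  · obtain ⟨T1, T2, c, α, β, t1, t2, t3, t4, t5, t6, t7, t8⟩ := h170_rect_real
      (fun x y => ‖Q ((x : ℂ) + y * I)‖ ^ 2) (fun x y => ‖deriv Q ((x : ℂ) + y * I)‖ ^ 2)
      (fun x y => 2 * inner ℝ (Q ((x : ℂ) + y * I)) (deriv Q ((x : ℂ) + y * I))) x1 y1 r' hr'0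
      hSp hWp
      (continuousOn_const.mul (ContinuousOn.inner (𝕜 := ℝ) hQp hQ'p))
      (by
        intro x hx y hy
        have h3 := hQd _ (hin x hx y hy)
        have h4 : HasDerivAt (fun x : ℝ => (x : ℂ) + y * I) 1 x := by
          have := (Complex.ofRealCLM.hasDerivAt (x := x)).add_const ((y : ℂ) * I)
          simpa using this
        have h5 : HasDerivAt (fun x : ℝ => Q ((x : ℂ) + y * I)) (deriv Q ((x : ℂ) + y * I) * 1) x :=
          h3.comp x h4
        rw [mul_one] at h5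
        exact h5.norm_sq)
      (fun _ _ => by positivity)
      (by rw [hz1]; exact mul_ne_zero two_ne_zero hre)
      hW0
    refine ⟨T1, T2, c, α, β, t1, t2, t3, t4, t5.trans hr'1, t6, t7.trans hr'1, ?_, ?_⟩
    · intro x hx y hy
      exact hin x ⟨by linarith [hx.1], by linarith [hx.2]⟩ y ⟨by linarith [hy.1], by linarith [hy.2]⟩
    · intro φ hφ hφ0
      have h3 := t8 φ hφ hφ0
      rw [← Measure.prod_restrict, integral_prod_symm _ (hint φ hφ α β t4 t5 t6 t7)]
      rw [intervalIntegral.integral_of_le (by linarith : y1 - β ≤ y1 + β)] at h3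
      refine h3.trans (le_of_eq ?_)
      refine integral_congr_ae (Filter.Eventually.of_forall fun y => ?_)
      simp only
      rw [intervalIntegral.integral_of_le (by linarith)]

theorem h170_mass (H : ℝ → ℝ → ℝ) (hH : Continuous (fun p : ℝ × ℝ => H p.1 p.2)) (hH0 : ∀ x y, 0 ≤ H x y)
    (hHper : ∀ x y, H x (y + 2 * Real.pi) = H x y) (X : ℝ → ℝ) (hX : Continuous X) (hX0 : ∀ x, 0 ≤ X x)
    (R : ℝ) (hXR : ∀ x, R ≤ |x| → X x = 0) (x1 y1 α β : ℝ) (hα : 0 < α) (hβ : 0 < β) (hβ1 : β ≤ 1)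
    (hX1 : ∀ x ∈ Icc (x1 - α) (x1 + α), X x = 1) :
    ∫ p in Ioc (x1 - α) (x1 + α) ×ˢ Ioc (y1 - β) (y1 + β), H p.1 p.2 ∂(volume.prod volume) ≤
      ∫ x : ℝ, ∫ y in (0 : ℝ)..(2 * Real.pi), X x * H x y := by
  have hpi := Real.pi_gt_three
  have hHx : ∀ x, Continuous (fun y => H x y) := fun x => hH.comp (continuous_const.prodMk continuous_id)
  have hXH : Continuous (fun p : ℝ × ℝ => X p.1 * H p.1 p.2) := (hX.comp continuous_fst).mul hH
  have hg : Continuous (fun x : ℝ => ∫ y in (0 : ℝ)..(2 * Real.pi), X x * H x y) :=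
    intervalIntegral.continuous_parametric_intervalIntegral_of_continuous' (f := fun x y => X x * H x y) hXH 0 (2 * Real.pi)
  have hgs : HasCompactSupport (fun x : ℝ => ∫ y in (0 : ℝ)..(2 * Real.pi), X x * H x y) := by
    refine HasCompactSupport.intro (isCompact_Icc : IsCompact (Icc (-R) R)) fun x hx => ?_
    have h1 : R ≤ |x| := by
      by_contra h2
      push Not at h2
      exact hx ⟨(abs_lt.1 h2).1.le, (abs_lt.1 h2).2.le⟩
    rw [hXR x h1]
    simp
  have hgi := hg.integrable_of_hasCompactSupport hgs (μ := volume)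
  have hgn : ∀ x, 0 ≤ ∫ y in (0 : ℝ)..(2 * Real.pi), X x * H x y := fun x =>
    intervalIntegral.integral_nonneg (by positivity) fun y _ => mul_nonneg (hX0 x) (hH0 x y)
  have hlow : ∀ x ∈ Ioc (x1 - α) (x1 + α), ∫ y in Ioc (y1 - β) (y1 + β), H x y ≤
      ∫ y in (0 : ℝ)..(2 * Real.pi), X x * H x y := by
    intro x hx
    rw [hX1 x ⟨hx.1.le, hx.2⟩]
    simp only [one_mul]
    have hp : Function.Periodic (fun y => H x y) (2 * Real.pi) := fun y => hHper x y
    have h1 := hp.intervalIntegral_add_eq 0 (y1 - Real.pi)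
    rw [zero_add] at h1
    rw [h1, ← intervalIntegral.integral_of_le (by linarith : y1 - β ≤ y1 + β)]
    exact intervalIntegral.integral_mono_interval (by linarith) (by linarith) (by linarith)
      (Filter.Eventually.of_forall fun y => hH0 x y) ((hHx x).intervalIntegrable _ _)
  have hprodi : Integrable (fun p : ℝ × ℝ => H p.1 p.2)
      ((volume.restrict (Ioc (x1 - α) (x1 + α))).prod (volume.restrict (Ioc (y1 - β) (y1 + β)))) := by
    rw [Measure.prod_restrict]
    exact (hH.continuousOn.integrableOn_compact (isCompact_Icc.prod isCompact_Icc)).mono_set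
      (Set.prod_mono Ioc_subset_Icc_self Ioc_subset_Icc_self)
  rw [← Measure.prod_restrict, integral_prod _ hprodi]
  calc ∫ x in Ioc (x1 - α) (x1 + α), ∫ y in Ioc (y1 - β) (y1 + β), H (x, y).1 (x, y).2
      ≤ ∫ x in Ioc (x1 - α) (x1 + α), ∫ y in (0 : ℝ)..(2 * Real.pi), X x * H x y :=
        setIntegral_mono_on hprodi.integral_prod_left hgi.integrableOn measurableSet_Ioc hlow
    _ ≤ ∫ x : ℝ, ∫ y in (0 : ℝ)..(2 * Real.pi), X x * H x y :=
        setIntegral_le_integral hgi (Filter.Eventually.of_forall hgn)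

theorem h170_Bf {φ : ℝ → ℝ} (hφ : Continuous φ) {T1 T2 : ℝ} (hT1 : 0 < T1)
    (hs : ∀ s, s ∉ Icc T1 T2 → φ s = 0) : Bf φ T2 = ∫ s in T1..T2, φ s := by
  unfold Bf
  have h1 : ∀ s ≤ T1, φ s = 0 := by
    have h2 : closure (Iio T1) ⊆ {s | φ s = 0} :=
      closure_minimal (fun s hs' => hs s (fun h => absurd h.1 (not_le.2 hs'))) (isClosed_eq hφ continuous_const)
    rw [closure_Iio] at h2
    exact fun s hs' => h2 hs'
  have h3 : ∫ s in (0:ℝ)..T1, φ s = 0 := by
    rw [intervalIntegral.integral_congr (g := fun _ => (0:ℝ))]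
    · simp
    · intro s hs'
      rw [uIcc_of_le hT1.le] at hs'
      exact h1 s hs'.2
  rw [← intervalIntegral.integral_add_adjacent_intervals (hφ.intervalIntegrable 0 T1) (hφ.intervalIntegrable T1 T2), h3, zero_add]

/-- TARGET 3 -/
theorem nonstat_lower {ρ : ℝ} {h ω : ℝ → ℝ} (hd : Dat ρ h ω) (C : ℝ) (U : ℂ → ℝ) (hU : ClsS ρ h C ω U)
    (hns : ¬ ∀ s : ℝ, ∀ᵐ z : ℂ, U (z + s) = U z) :
    ∃ (t1 t2 c R : ℝ) (X : ℝ → ℝ), 0 < t1 ∧ t1 < t2 ∧ 0 < c ∧ 0 < R ∧ ContDiff ℝ 2 X ∧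
      (∀ x, 0 ≤ X x ∧ X x ≤ 1) ∧ (∀ x, R ≤ |x| → X x = 0) ∧
      ∀ φ : ℝ → ℝ, Wt φ → (∀ s, s ∉ Icc (t1 ^ 2) (t2 ^ 2) → φ s = 0) → ∀ η > 0,
        ∀ᶠ δ in 𝓝[>] (0 : ℝ), c * Bf φ (t2 ^ 2) - η ≤ Dsm ρ φ X (moll δ U) := by
  obtain ⟨z1, r, Q, hr, hQd, hQ1, hQ2, hQu, hQu'⟩ := h170_good hd C U hU hns
  obtain ⟨T1, T2, c, α, β, hT1, hT12, hc, hα, hα1, hβ, hβ1, hin, hlow⟩ := h170_rect z1 r Q hr hQd hQ1 hQ2
  set x1 := z1.re with hx1
  set y1 := z1.im with hy1
  have hT2 : 0 < T2 := hT1.trans hT12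
  set f : ContDiffBump (x1 : ℝ) := ⟨α, α + 1, hα, by linarith⟩ with hf
  refine ⟨√T1, √T2, c, |x1| + α + 1, fun x => f x, Real.sqrt_pos.2 hT1, Real.sqrt_lt_sqrt hT1.le hT12, hc,
    by positivity, f.contDiff, fun x => ⟨f.nonneg, f.le_one⟩, ?_, ?_⟩
  · intro x hx
    refine f.zero_of_le_dist ?_
    show α + 1 ≤ dist x x1
    rw [Real.dist_eq]
    have := abs_sub_abs_le_abs_sub x x1
    linarith
  intro φ hφ hsupp η hη
  rw [Real.sq_sqrt hT1.le, Real.sq_sqrt hT2.le] at hsupp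
  rw [Real.sq_sqrt hT2.le]
  have hφc : Continuous φ := hφ.smooth.continuous
  rw [h170_Bf hφc hT1 hsupp]
  have hL := hlow φ hφc hφ.nonneg
  -- bounds
  obtain ⟨Cφ, hCφ⟩ : ∃ Cφ : ℝ, ∀ s, ‖φ s‖ ≤ Cφ := by
    obtain ⟨C1, hC1⟩ := (isCompact_Icc (a := T1) (b := T2)).exists_bound_of_continuousOn hφc.continuousOn
    refine ⟨|C1|, fun s => ?_⟩
    by_cases hs : s ∈ Icc T1 T2
    · exact (hC1 s hs).trans (le_abs_self _)
    · rw [hsupp s hs, norm_zero]; exact abs_nonneg _
  have hCφ0 : 0 ≤ Cφ := (norm_nonneg _).trans (hCφ 0)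
  have hcb : Metric.closedBall z1 (r / 2) ⊆ Metric.ball z1 r := Metric.closedBall_subset_ball (by linarith)
  have hopen : IsOpen (Metric.ball z1 r) := Metric.isOpen_ball
  have hQ'c : ContinuousOn (deriv Q) (Metric.closedBall z1 (r / 2)) := (hQd.deriv hopen).continuousOn.mono hcb
  obtain ⟨M, hM⟩ := (isCompact_closedBall z1 (r / 2)).exists_bound_of_continuousOn hQ'c
  have hsm : ∀ δ > 0, ContDiff ℝ (⊤ : ℕ∞) (moll δ U) := fun δ hδ => h170_smooth δ hδ U hU.loc
  set Hd : ℝ → ℝ × ℝ → ℝ := fun δ p =>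
    φ (aof ρ (moll δ U) ((p.1 : ℂ) + p.2 * I) ^ 2 + bof ρ (moll δ U) ((p.1 : ℂ) + p.2 * I) ^ 2) *
      (dx (aof ρ (moll δ U)) ((p.1 : ℂ) + p.2 * I) ^ 2 + dx (bof ρ (moll δ U)) ((p.1 : ℂ) + p.2 * I) ^ 2) with hHd
  have hmap : Continuous (fun p : ℝ × ℝ => (p.1 : ℂ) + p.2 * I) := by fun_prop
  have hHc : ∀ δ > 0, Continuous (Hd δ) := by
    intro δ hδ
    have hs := hsm δ hδ
    have c1 := (h170_aof_smooth (ρ := ρ) hs).continuous.comp hmap
    have c2 := (h170_bof_smooth (ρ := ρ) hs).continuous.comp hmap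
    have c3 := (h170_dx_smooth (h170_aof_smooth (ρ := ρ) hs)).continuous.comp hmap
    have c4 := (h170_dx_smooth (h170_bof_smooth (ρ := ρ) hs)).continuous.comp hmap
    exact (hφc.comp ((c1.pow 2).add (c2.pow 2))).mul ((c3.pow 2).add (c4.pow 2))
  set Rc : Set (ℝ × ℝ) := Ioc (x1 - α) (x1 + α) ×ˢ Ioc (y1 - β) (y1 + β) with hRc
  have hRcm : MeasurableSet Rc := measurableSet_Ioc.prod measurableSet_Ioc
  have hinR : ∀ p ∈ Rc, (p.1 : ℂ) + p.2 * I ∈ Metric.closedBall z1 (r / 2) := fun p hp =>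
    hin p.1 ⟨hp.1.1.le, hp.1.2⟩ p.2 ⟨hp.2.1.le, hp.2.2⟩
  have hRcfin : (volume.prod volume : Measure (ℝ × ℝ)) Rc < ⊤ :=
    lt_of_le_of_lt (measure_mono (Set.prod_mono Ioc_subset_Icc_self Ioc_subset_Icc_self))
      ((isCompact_Icc.prod isCompact_Icc).measure_lt_top)
  have hlim : Tendsto (fun δ => ∫ p in Rc, Hd δ p ∂(volume.prod volume)) (𝓝[>] 0)
      (𝓝 (∫ p in Rc, φ (‖Q ((p.1 : ℂ) + p.2 * I)‖ ^ 2) * ‖deriv Q ((p.1 : ℂ) + p.2 * I)‖ ^ 2 ∂(volume.prod volume))) := by
    refine tendsto_integral_filter_of_dominated_convergence (fun _ => Cφ * (M + 1) ^ 2) ?_ ?_ ?_ ?_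
    · filter_upwards [self_mem_nhdsWithin] with δ hδ
      exact (hHc δ hδ).aestronglyMeasurable
    · have h1 := Metric.tendstoUniformlyOn_iff.1 hQu' 1 one_pos
      filter_upwards [h1] with δ h2
      refine (ae_restrict_iff' hRcm).2 (Filter.Eventually.of_forall fun p hp => ?_)
      have h3 := h2 _ (hcb (hinR p hp))
      rw [dist_comm, dist_eq_norm] at h3
      have h4 := hM _ (hinR p hp)
      have h5 := h170_norm_rot ρ ((p.1 : ℂ) + p.2 * I).im (dx (aof ρ (moll δ U)) ((p.1 : ℂ) + p.2 * I))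
        (dx (bof ρ (moll δ U)) ((p.1 : ℂ) + p.2 * I))
      rw [hHd]
      simp only
      rw [norm_mul]
      refine mul_le_mul (hCφ _) ?_ (norm_nonneg _) hCφ0
      rw [Real.norm_of_nonneg (by positivity), ← h5]
      refine pow_le_pow_left₀ (norm_nonneg _) ?_ 2
      have h6 := norm_sub_norm_le (cexp (-(ρ * ((p.1 : ℂ) + p.2 * I).im : ℝ) * I) *
        ((dx (aof ρ (moll δ U)) ((p.1 : ℂ) + p.2 * I) : ℂ) - I * (dx (bof ρ (moll δ U)) ((p.1 : ℂ) + p.2 * I) : ℂ)))
        (deriv Q ((p.1 : ℂ) + p.2 * I))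
      linarith
    · exact integrableOn_const hRcfin.ne
    · refine (ae_restrict_iff' hRcm).2 (Filter.Eventually.of_forall fun p hp => ?_)
      have h1 := (hQu.tendsto_at (hcb (hinR p hp))).norm.pow 2
      have h2 := (hQu'.tendsto_at (hcb (hinR p hp))).norm.pow 2
      simp only [h170_norm_rot] at h1 h2
      exact ((hφc.tendsto _).comp h1).mul h2
  have hev := hlim.eventually (eventually_gt_nhds (sub_lt_self _ hη))
  filter_upwards [hev, self_mem_nhdsWithin] with δ h1 hδ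
  have hδ' : 0 < δ := hδ
  have hper : ∀ z, moll δ U (z + 2 * Real.pi * I) = moll δ U z := fun z => moll_per hU δ z
  have hmass := h170_mass (fun x y => Hd δ (x, y)) (hHc δ hδ')
    (fun x y => mul_nonneg (hφ.nonneg _) (by positivity))
    (by
      intro x y
      have e0 : ((x : ℂ) + ((y + 2 * Real.pi : ℝ) : ℂ) * I) = ((x : ℂ) + y * I) + 2 * Real.pi * I := by push_cast; ring
      have p1 : ∀ w, dx (moll δ U) (w + 2 * Real.pi * I) = dx (moll δ U) w := fun w => h170_fderiv_per hper 1 w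
      have p2 : ∀ w, dy (moll δ U) (w + 2 * Real.pi * I) = dy (moll δ U) w := fun w => h170_fderiv_per hper I w
      have q1 : ∀ w, aof ρ (moll δ U) (w + 2 * Real.pi * I) = aof ρ (moll δ U) w := fun w => by
        unfold aof; rw [hper, p1]
      have q2 : ∀ w, bof ρ (moll δ U) (w + 2 * Real.pi * I) = bof ρ (moll δ U) w := fun w => by
        unfold bof; rw [p2]
      have q3 : ∀ w, dx (aof ρ (moll δ U)) (w + 2 * Real.pi * I) = dx (aof ρ (moll δ U)) w := fun w =>
        h170_fderiv_per q1 1 w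
      have q4 : ∀ w, dx (bof ρ (moll δ U)) (w + 2 * Real.pi * I) = dx (bof ρ (moll δ U)) w := fun w =>
        h170_fderiv_per q2 1 w
      rw [hHd]
      simp only
      rw [e0, q1, q2, q3, q4])
    (fun x => f x) f.continuous (fun x => f.nonneg) (|x1| + α + 1)
    (by
      intro x hx
      refine f.zero_of_le_dist ?_
      show α + 1 ≤ dist x x1
      rw [Real.dist_eq]
      have := abs_sub_abs_le_abs_sub x x1
      linarith) x1 y1 α β hα hβ hβ1
    (by
      intro x hx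
      refine f.one_of_mem_closedBall ?_
      show dist x x1 ≤ α
      rw [Real.dist_eq, abs_le]
      constructor <;> linarith [hx.1, hx.2])
  have hD : Dsm ρ φ (fun x => f x) (moll δ U) = ∫ x : ℝ, ∫ y in (0 : ℝ)..(2 * Real.pi), f x * Hd δ (x, y) := rfl
  rw [hD]
  have h2 : ∫ p in Rc, Hd δ p ∂(volume.prod volume) ≤ ∫ x : ℝ, ∫ y in (0 : ℝ)..(2 * Real.pi), f x * Hd δ (x, y) := hmass
  linarith

end M_W5c
end Pool.Agent.Helper758.LS
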