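import Mathlib
import Pool.Agent.Helper758.LSDefs
import Pool.Agent.Helper758.LSDefs2
import Pool.Agent.Helper758.LS_B1
import Pool.Agent.Helper758.LS_B2
import Pool.Agent.Helper758.LS_B3
import Pool.Agent.Helper758.LS_B4
import Pool.Agent.Helper758.LS_MOL

namespace Pool.Agent.Helper758.LS
open MeasureTheory Filter Topology Set Complex
open M_B1 (moll_bdd moll_per moll_upper)
open M_B2 (grad_bdd)
open M_B3 (moll_h1_cauchy moll_l2_cauchy)
open M_B4 (dx_bdd)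
open M_MOL (dx_moll_smooth dy_moll_smooth moll_add_const moll_comm moll_contDiff moll_l1 moll_symm moll_tendsto_l1 psid_props)
namespace M_WC



/-- GIVEN (do not prove): basic facts, proved in other jobs. -/

















theorem WC_int_bd (g : ℝ → ℝ) (hg : Continuous g) (C1 T : ℝ) (hT : 0 ≤ T) (hC1 : 0 ≤ C1)
    (h1 : ∀ t, 0 ≤ t → |g t| ≤ C1) (h2 : ∀ t, T ≤ t → g t = 0) (s : ℝ) (hs : 0 ≤ s) :
    |∫ t in (0 : ℝ)..s, g t| ≤ C1 * T := by
  have key : ∀ s, 0 ≤ s → s ≤ T → |∫ t in (0 : ℝ)..s, g t| ≤ C1 * T := by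
    intro s hs hsT
    have h3 : ‖∫ t in (0 : ℝ)..s, g t‖ ≤ C1 * |s - 0| := by
      refine intervalIntegral.norm_integral_le_of_norm_le_const fun t ht => ?_
      rw [uIoc_of_le hs] at ht
      exact h1 t ht.1.le
    rw [Real.norm_eq_abs, sub_zero, abs_of_nonneg hs] at h3
    exact h3.trans (by gcongr)
  rcases le_total s T with h | h
  · exact key s hs h
  · have h3 : ∫ t in T..s, g t = 0 := by
      have : ∫ t in T..s, g t = ∫ t in T..s, (0 : ℝ) := by
        refine intervalIntegral.integral_congr fun t ht => ?_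
        rw [uIcc_of_le h] at ht
        exact h2 t ht.1
      rw [this]; simp
    have h4 : ∫ t in (0 : ℝ)..s, g t = ∫ t in (0 : ℝ)..T, g t := by
      rw [← intervalIntegral.integral_add_adjacent_intervals
        (hg.intervalIntegrable 0 T) (hg.intervalIntegrable T s), h3, add_zero]
    rw [h4]
    exact key T hT le_rfl

theorem WC_int_bd2 (g : ℝ → ℝ) (hg : Continuous g) (C1 T : ℝ) (hT : 0 ≤ T) (hC1 : 0 ≤ C1)
    (h1 : ∀ t, |g t| ≤ C1) (h2 : ∀ t, T ≤ |t| → g t = 0) (s : ℝ) :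
    |∫ t in (0 : ℝ)..s, g t| ≤ C1 * T := by
  rcases le_total 0 s with hs | hs
  · exact WC_int_bd g hg C1 T hT hC1 (fun t _ => h1 t)
      (fun t ht => h2 t (ht.trans (le_abs_self t))) s hs
  · have h3 : ∫ t in (0 : ℝ)..s, g t = -∫ t in (0 : ℝ)..(-s), g (-t) := by
      rw [intervalIntegral.integral_comp_neg, neg_neg, neg_zero, intervalIntegral.integral_symm]
    rw [h3, abs_neg]
    refine WC_int_bd (fun t => g (-t)) (hg.comp continuous_neg) C1 T hT hC1 (fun t _ => h1 _)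
      (fun t ht => h2 _ ?_) (-s) (by linarith)
    rw [abs_neg]
    exact ht.trans (le_abs_self t)

theorem WC_contDiff_partial (F Fa Fb : ℝ → ℝ → ℝ)
    (h1 : ∀ a b, HasDerivAt (fun x => F x b) (Fa a b) a)
    (h2 : ∀ a b, HasDerivAt (fun y => F a y) (Fb a b) b)
    (h3 : Continuous fun p : ℝ × ℝ => Fa p.1 p.2) (h4 : Continuous fun p : ℝ × ℝ => Fb p.1 p.2) :
    ContDiff ℝ 1 (fun p : ℝ × ℝ => F p.1 p.2) := by
  rw [contDiff_one_iff_hasFDerivAt]
  set f₁ : ℝ → ℝ → ℝ →L[ℝ] ℝ := fun a b => ContinuousLinearMap.toSpanSingleton ℝ (Fa a b) with hf₁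
  set f₂ : ℝ → ℝ → ℝ →L[ℝ] ℝ := fun a b => ContinuousLinearMap.toSpanSingleton ℝ (Fb a b) with hf₂
  have c1 : Continuous fun p : ℝ × ℝ => f₁ p.1 p.2 :=
    (ContinuousLinearMap.toSpanSingletonLE ℝ ℝ ℝ).continuous_of_finiteDimensional.comp h3
  have c2 : Continuous fun p : ℝ × ℝ => f₂ p.1 p.2 :=
    (ContinuousLinearMap.toSpanSingletonLE ℝ ℝ ℝ).continuous_of_finiteDimensional.comp h4
  refine ⟨fun p => (f₁ p.1 p.2).coprod (f₂ p.1 p.2), ?_, fun p => ?_⟩
  · have e : (fun p : ℝ × ℝ => (f₁ p.1 p.2).coprod (f₂ p.1 p.2)) = fun p : ℝ × ℝ =>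
        (f₁ p.1 p.2).comp (ContinuousLinearMap.fst ℝ ℝ ℝ) +
          (f₂ p.1 p.2).comp (ContinuousLinearMap.snd ℝ ℝ ℝ) := by
      funext p
      ext <;> simp
    rw [e]
    exact (c1.clm_comp continuous_const).add (c2.clm_comp continuous_const)
  · have := hasStrictFDerivAt_uncurry_coprod (𝕜 := ℝ) (u := p) (f := F) (f₁ := f₁) (f₂ := f₂)
      (Filter.Eventually.of_forall fun v => (h1 v.1 v.2).hasFDerivAt)
      (Filter.Eventually.of_forall fun v => (h2 v.1 v.2).hasFDerivAt)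
      c1.continuousAt c2.continuousAt
    exact this.hasFDerivAt

theorem WC_lip_one (f f' : ℝ → ℝ) (C1 : ℝ) (h : ∀ a, HasDerivAt f (f' a) a)
    (hb : ∀ a, |f' a| ≤ C1) (a a' : ℝ) : |f a - f a'| ≤ C1 * |a - a'| := by
  have := convex_univ.norm_image_sub_le_of_norm_hasDerivWithin_le (f := f) (f' := f') (C := C1)
    (fun x _ => (h x).hasDerivWithinAt) (fun x _ => hb x) (mem_univ a') (mem_univ a)
  simpa only [Real.norm_eq_abs] using this

/-- bounds for the weight -/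
theorem WC_phi (φ : ℝ → ℝ) (hφ : Wt φ) : ∃ T M0 : ℝ, 1 ≤ T ∧ 0 < M0 ∧
    (∀ s, 0 ≤ s → |φ s| ≤ M0 ∧ |deriv φ s| ≤ M0) ∧ (∀ s, T ≤ s → φ s = 0 ∧ deriv φ s = 0) := by
  obtain ⟨S, hS⟩ := hφ.supp
  set T : ℝ := |S| + 1 with hT
  have hTS : S < T := by have := le_abs_self S; linarith
  have hT1 : 1 ≤ T := by have := abs_nonneg S; linarith
  have hc : Continuous φ := hφ.smooth.continuous
  have hd : Continuous (deriv φ) := hφ.smooth.continuous_deriv le_rfl
  obtain ⟨M1, hM1⟩ := (isCompact_Icc (a := (0 : ℝ)) (b := T)).exists_bound_of_continuousOn hc.continuousOn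
  obtain ⟨M2, hM2⟩ := (isCompact_Icc (a := (0 : ℝ)) (b := T)).exists_bound_of_continuousOn hd.continuousOn
  have hz : ∀ s, T ≤ s → φ s = 0 ∧ deriv φ s = 0 := by
    intro s hs
    refine ⟨hS s (by linarith), ?_⟩
    have : φ =ᶠ[𝓝 s] fun _ => 0 := by
      filter_upwards [Ioi_mem_nhds (show S < s by linarith)] with t ht
      exact hS t ht.le
    rw [this.deriv_eq]
    simp
  refine ⟨T, |M1| + |M2| + 1, hT1, by positivity, fun s hs => ?_, hz⟩
  have a1 := abs_nonneg M1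
  have a2 := abs_nonneg M2
  rcases le_total s T with h | h
  · have b1 := hM1 s ⟨hs, h⟩
    have b2 := hM2 s ⟨hs, h⟩
    rw [Real.norm_eq_abs] at b1 b2
    have b3 := le_abs_self M1
    have b4 := le_abs_self M2
    constructor <;> linarith
  · rw [(hz s h).1, (hz s h).2, abs_zero]
    constructor <;> linarith

theorem WC_sq_ge {T a : ℝ} (hT : 1 ≤ T) (ha : T ≤ |a|) : T ≤ a ^ 2 := by
  rw [← sq_abs]
  nlinarith

theorem WC_Psi_b (φ : ℝ → ℝ) (hφ : Wt φ) (a b : ℝ) :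
    HasDerivAt (fun y => Psif φ a y) (φ (a ^ 2 + b ^ 2)) b := by
  have hc : Continuous φ := hφ.smooth.continuous
  have h : Continuous fun β : ℝ => φ (a ^ 2 + β ^ 2) := hc.comp (by fun_prop)
  exact (h.integral_hasStrictDerivAt 0 b).hasDerivAt

theorem WC_Psi_a (φ : ℝ → ℝ) (hφ : Wt φ) (a b : ℝ) :
    HasDerivAt (fun x => Psif φ x b) (∫ β in (0 : ℝ)..b, deriv φ (a ^ 2 + β ^ 2) * (2 * a)) a := by
  obtain ⟨T, M0, hT, hM0, h1, h2⟩ := WC_phi φ hφ
  have hc : Continuous φ := hφ.smooth.continuous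
  have hd : Continuous (deriv φ) := hφ.smooth.continuous_deriv le_rfl
  have hb : ∀ x t : ℝ, ‖deriv φ (x ^ 2 + t ^ 2) * (2 * x)‖ ≤ M0 * (2 * T) := by
    intro x t
    rcases le_total T |x| with h | h
    · have := (h2 (x ^ 2 + t ^ 2) (by have := WC_sq_ge hT h; nlinarith [sq_nonneg t])).2
      rw [this, zero_mul, norm_zero]
      positivity
    · rw [norm_mul, Real.norm_eq_abs, Real.norm_eq_abs, abs_mul, abs_two]
      have := (h1 (x ^ 2 + t ^ 2) (by positivity)).2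
      gcongr
  refine (intervalIntegral.hasDerivAt_integral_of_dominated_loc_of_deriv_le (μ := volume)
    (F := fun x β => φ (x ^ 2 + β ^ 2)) (F' := fun x β => deriv φ (x ^ 2 + β ^ 2) * (2 * x))
    (x₀ := a) (a := 0) (b := b) (bound := fun _ => M0 * (2 * T)) (s := univ) Filter.univ_mem
    ?_ ?_ ?_ ?_ ?_ ?_).2
  · refine Filter.Eventually.of_forall fun x => ?_
    exact (hc.comp (by fun_prop)).aestronglyMeasurable
  · exact (hc.comp (by fun_prop)).intervalIntegrable _ _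
  · exact ((hd.comp (by fun_prop)).mul continuous_const).aestronglyMeasurable
  · exact Filter.Eventually.of_forall fun t _ x _ => hb x t
  · exact intervalIntegrable_const
  · refine Filter.Eventually.of_forall fun t _ x _ => ?_
    have e1 : HasDerivAt (fun x : ℝ => x ^ 2 + t ^ 2) (2 * x) x := by
      have := (hasDerivAt_pow 2 x).add_const (t ^ 2)
      simpa using this
    have e2 : HasDerivAt φ (deriv φ (x ^ 2 + t ^ 2)) (x ^ 2 + t ^ 2) :=
      ((hφ.smooth.differentiable one_ne_zero) _).hasDerivAt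
    exact e2.comp x e1

/-- TARGET 1: `Bf φ (a²+b²)` and `Psif φ a b` are bounded and Lipschitz -/
theorem wt_lip (φ : ℝ → ℝ) (hφ : Wt φ) : ∃ C : ℝ, 0 < C ∧
    (∀ a b, |Bf φ (a ^ 2 + b ^ 2)| ≤ C ∧ |Psif φ a b| ≤ C) ∧
    (∀ a b a' b', |Bf φ (a ^ 2 + b ^ 2) - Bf φ (a' ^ 2 + b' ^ 2)| ≤ C * (|a - a'| + |b - b'|)) ∧
    (∀ a b a' b', |Psif φ a b - Psif φ a' b'| ≤ C * (|a - a'| + |b - b'|)) ∧
    ContDiff ℝ 1 (fun p : ℝ × ℝ => Psif φ p.1 p.2) ∧ ContDiff ℝ 1 (fun p : ℝ × ℝ => Bf φ (p.1 ^ 2 + p.2 ^ 2)) := by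
  obtain ⟨T, M0, hT, hM0, h1, h2⟩ := WC_phi φ hφ
  have hT0 : 0 ≤ T := by linarith
  have hc : Continuous φ := hφ.smooth.continuous
  have hd : Continuous (deriv φ) := hφ.smooth.continuous_deriv le_rfl
  -- bounds
  have hφb : ∀ a b : ℝ, |φ (a ^ 2 + b ^ 2)| ≤ M0 := fun a b => (h1 _ (by positivity)).1
  have hφab : ∀ a b : ℝ, |φ (a ^ 2 + b ^ 2) * (2 * a)| ≤ M0 * (2 * T) := by
    intro x t
    rcases le_total T |x| with h | h
    · have := (h2 (x ^ 2 + t ^ 2) (by have := WC_sq_ge hT h; nlinarith [sq_nonneg t])).1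
      rw [this, zero_mul, abs_zero]
      positivity
    · rw [abs_mul, abs_mul, abs_two]
      have := (h1 (x ^ 2 + t ^ 2) (by positivity)).1
      gcongr
  have hdab : ∀ a b : ℝ, |deriv φ (a ^ 2 + b ^ 2) * (2 * a)| ≤ M0 * (2 * T) := by
    intro x t
    rcases le_total T |x| with h | h
    · have := (h2 (x ^ 2 + t ^ 2) (by have := WC_sq_ge hT h; nlinarith [sq_nonneg t])).2
      rw [this, zero_mul, abs_zero]
      positivity
    · rw [abs_mul, abs_mul, abs_two]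
      have := (h1 (x ^ 2 + t ^ 2) (by positivity)).2
      gcongr
  have hBd : ∀ s, HasDerivAt (Bf φ) (φ s) s := fun s => (hc.integral_hasStrictDerivAt 0 s).hasDerivAt
  have hBb : ∀ a b : ℝ, |Bf φ (a ^ 2 + b ^ 2)| ≤ M0 * T := fun a b =>
    WC_int_bd φ hc M0 T hT0 hM0.le (fun t ht => (h1 t ht).1) (fun t ht => (h2 t ht).1) _
      (by positivity)
  have hPb : ∀ a b : ℝ, |Psif φ a b| ≤ M0 * T := fun a b =>
    WC_int_bd2 (fun β => φ (a ^ 2 + β ^ 2)) (hc.comp (by fun_prop)) M0 T hT0 hM0.le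
      (fun t => hφb a t)
      (fun t ht => (h2 _ (by have := WC_sq_ge hT ht; nlinarith [sq_nonneg a])).1) b
  have hPab : ∀ a b : ℝ, |∫ β in (0 : ℝ)..b, deriv φ (a ^ 2 + β ^ 2) * (2 * a)| ≤
      M0 * (2 * T) * T := fun a b =>
    WC_int_bd2 (fun β => deriv φ (a ^ 2 + β ^ 2) * (2 * a))
      ((hd.comp (by fun_prop)).mul continuous_const) (M0 * (2 * T)) T hT0 (by positivity)
      (fun t => hdab a t)
      (fun t ht => by
        rw [(h2 _ (by have := WC_sq_ge hT ht; nlinarith [sq_nonneg a])).2, zero_mul]) b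
  have hBa' : ∀ a b : ℝ, HasDerivAt (fun x => Bf φ (x ^ 2 + b ^ 2)) (φ (a ^ 2 + b ^ 2) * (2 * a)) a := by
    intro a b
    have e1 : HasDerivAt (fun x : ℝ => x ^ 2 + b ^ 2) (2 * a) a := by
      have := (hasDerivAt_pow 2 a).add_const (b ^ 2)
      simpa using this
    exact (hBd _).comp a e1
  have hBb' : ∀ a b : ℝ, HasDerivAt (fun y => Bf φ (a ^ 2 + y ^ 2)) (φ (a ^ 2 + b ^ 2) * (2 * b)) b := by
    intro a b
    have e1 : HasDerivAt (fun y : ℝ => a ^ 2 + y ^ 2) (2 * b) b := by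
      have := (hasDerivAt_pow 2 b).const_add (a ^ 2)
      simpa using this
    exact (hBd _).comp b e1
  set C : ℝ := M0 * T + M0 * (2 * T) + M0 * (2 * T) * T + M0 with hC
  have p1 : 0 < M0 * T := by positivity
  have p2 : 0 < M0 * (2 * T) := by positivity
  have p3 : 0 < M0 * (2 * T) * T := by positivity
  refine ⟨C, by positivity, fun a b => ⟨(hBb a b).trans (by linarith), (hPb a b).trans (by linarith)⟩,
    ?_, ?_, ?_, ?_⟩
  · intro a b a' b'
    have e1 := WC_lip_one (fun x => Bf φ (x ^ 2 + b ^ 2)) _ (M0 * (2 * T)) (fun a => hBa' a b)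
      (fun a => hφab a b) a a'
    have e2 := WC_lip_one (fun y => Bf φ (a' ^ 2 + y ^ 2)) _ (M0 * (2 * T)) (fun b => hBb' a' b)
      (fun b => by rw [add_comm]; exact hφab b a') b b'
    have e3 := abs_add_le (Bf φ (a ^ 2 + b ^ 2) - Bf φ (a' ^ 2 + b ^ 2))
      (Bf φ (a' ^ 2 + b ^ 2) - Bf φ (a' ^ 2 + b' ^ 2))
    rw [sub_add_sub_cancel] at e3
    have q1 := abs_nonneg (a - a')
    have q2 := abs_nonneg (b - b')
    beta_reduce at e1 e2
    nlinarith
  · intro a b a' b'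
    have e1 := WC_lip_one (fun x => Psif φ x b) _ (M0 * (2 * T) * T) (fun a => WC_Psi_a φ hφ a b)
      (fun a => hPab a b) a a'
    have e2 := WC_lip_one (fun y => Psif φ a' y) _ M0 (fun b => WC_Psi_b φ hφ a' b)
      (fun b => hφb a' b) b b'
    have e3 := abs_add_le (Psif φ a b - Psif φ a' b) (Psif φ a' b - Psif φ a' b')
    rw [sub_add_sub_cancel] at e3
    have q1 := abs_nonneg (a - a')
    have q2 := abs_nonneg (b - b')
    beta_reduce at e1 e2
    nlinarith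
  · refine WC_contDiff_partial (Psif φ) _ _ (fun a b => WC_Psi_a φ hφ a b)
      (fun a b => WC_Psi_b φ hφ a b) ?_ ?_
    · exact intervalIntegral.continuous_parametric_intervalIntegral_of_continuous
        (f := fun (p : ℝ × ℝ) β => deriv φ (p.1 ^ 2 + β ^ 2) * (2 * p.1)) (s := fun p => p.2)
        ((hd.comp (by fun_prop)).mul (by fun_prop)) continuous_snd
    · exact hc.comp (by fun_prop)
  · have hB1 : ContDiff ℝ 1 (Bf φ) := by
      rw [contDiff_one_iff_deriv]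
      refine ⟨fun s => (hBd s).differentiableAt, ?_⟩
      have : deriv (Bf φ) = φ := funext fun s => (hBd s).deriv
      rw [this]
      exact hc
    exact hB1.comp (by fun_prop)

theorem WC_box_eq (x0 x1 : ℝ) : box x0 x1 = Icc x0 x1 ×ℂ Icc 0 (2 * Real.pi) := by
  ext z; simp [box, mem_reProdIm]

theorem WC_box_compact (x0 x1 : ℝ) : IsCompact (box x0 x1) := by
  rw [WC_box_eq]; exact isCompact_Icc.reProdIm isCompact_Icc

theorem WC_box_meas (x0 x1 : ℝ) : MeasurableSet (box x0 x1) := (WC_box_compact x0 x1).measurableSet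

theorem WC_integrable {f : ℂ → ℝ} (hf : Continuous f) (x0 x1 : ℝ) :
    Integrable f (volume.restrict (box x0 x1)) :=
  hf.continuousOn.integrableOn_compact (WC_box_compact x0 x1)

theorem WC_box_prod (f : ℂ → ℝ) (x0 x1 : ℝ) :
    ∫ z in box x0 x1, f z = ∫ p in Icc x0 x1 ×ˢ Icc 0 (2 * Real.pi), f ((p.1 : ℝ) + (p.2 : ℝ) * I) := by
  have h := Complex.volume_preserving_equiv_real_prod.setIntegral_preimage_emb
    Complex.measurableEquivRealProd.measurableEmbedding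
    (fun p : ℝ × ℝ => f ((p.1 : ℝ) + (p.2 : ℝ) * I)) (Icc x0 x1 ×ˢ Icc 0 (2 * Real.pi))
  have e1 : Complex.measurableEquivRealProd ⁻¹' (Icc x0 x1 ×ˢ Icc 0 (2 * Real.pi)) = box x0 x1 := by
    ext z
    simp only [mem_preimage, mem_prod, Complex.measurableEquivRealProd_apply, box, mem_ofPred_eq]
  rw [e1] at h
  rw [← h]
  refine setIntegral_congr_fun (WC_box_meas x0 x1) fun z _ => ?_
  simp only [Complex.measurableEquivRealProd_apply, Complex.re_add_im]

theorem WC_prod_integrable {f : ℂ → ℝ} (hf : Continuous f) (x0 x1 : ℝ) :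
    IntegrableOn (fun p : ℝ × ℝ => f ((p.1 : ℝ) + (p.2 : ℝ) * I))
      (Icc x0 x1 ×ˢ Icc 0 (2 * Real.pi)) (volume.prod volume) :=
  (hf.comp (by fun_prop : Continuous fun p : ℝ × ℝ =>
    ((p.1 : ℝ) : ℂ) + (p.2 : ℝ) * I)).continuousOn.integrableOn_compact
    (isCompact_Icc.prod isCompact_Icc)

theorem WC_box_xy {f : ℂ → ℝ} (hf : Continuous f) {x0 x1 : ℝ} (h : x0 ≤ x1) :
    ∫ z in box x0 x1, f z = ∫ x in x0..x1, ∫ y in (0 : ℝ)..(2 * Real.pi), f (x + y * I) := by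
  have hpi : (0 : ℝ) ≤ 2 * Real.pi := by positivity
  rw [WC_box_prod, Measure.volume_eq_prod, setIntegral_prod _ (WC_prod_integrable hf x0 x1),
    integral_Icc_eq_integral_Ioc, ← intervalIntegral.integral_of_le h]
  refine intervalIntegral.integral_congr fun x _ => ?_
  simp only []
  rw [integral_Icc_eq_integral_Ioc, ← intervalIntegral.integral_of_le hpi]

theorem WC_box_yx {f : ℂ → ℝ} (hf : Continuous f) {x0 x1 : ℝ} (h : x0 ≤ x1) :
    ∫ z in box x0 x1, f z = ∫ y in (0 : ℝ)..(2 * Real.pi), ∫ x in x0..x1, f (x + y * I) := by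
  have hpi : (0 : ℝ) ≤ 2 * Real.pi := by positivity
  have hi := WC_prod_integrable hf x0 x1
  rw [IntegrableOn, ← Measure.prod_restrict] at hi
  rw [WC_box_prod, Measure.volume_eq_prod, ← Measure.prod_restrict, integral_prod_symm _ hi,
    integral_Icc_eq_integral_Ioc, ← intervalIntegral.integral_of_le hpi]
  refine intervalIntegral.integral_congr fun y _ => ?_
  simp only []
  rw [integral_Icc_eq_integral_Ioc, ← intervalIntegral.integral_of_le h]

theorem WC_box_sum {f : ℂ → ℝ} (hf : Continuous f) (M : ℝ)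
    (h : ∀ x0 : ℝ, ∫ z in box x0 (x0 + 1), f z ≤ M) (x0 : ℝ) (n : ℕ) :
    ∫ z in box x0 (x0 + n), f z ≤ n * M := by
  have hg : Continuous fun x : ℝ => ∫ y in (0 : ℝ)..(2 * Real.pi), f (x + y * I) :=
    intervalIntegral.continuous_parametric_intervalIntegral_of_continuous
      (f := fun (x : ℝ) (y : ℝ) => f (x + y * I)) (hf.comp (by fun_prop)) continuous_const
  induction n with
  | zero =>
    rw [WC_box_xy hf (by simp)]
    simp
  | succ n ih =>
    have hn : (0 : ℝ) ≤ n := Nat.cast_nonneg n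
    rw [WC_box_xy hf (by linarith)] at ih
    rw [WC_box_xy hf (by push_cast; linarith)]
    have h1 := h (x0 + n)
    rw [WC_box_xy hf (by linarith)] at h1
    have e : x0 + ((n + 1 : ℕ) : ℝ) = x0 + n + 1 := by push_cast; ring
    rw [e, ← intervalIntegral.integral_add_adjacent_intervals (b := x0 + n)
      (hg.intervalIntegrable _ _) (hg.intervalIntegrable _ _)]
    push_cast
    linarith

theorem WC_hasDerivAt_x {G : ℂ → ℝ} (hG : ContDiff ℝ 1 G) (x y : ℝ) :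
    HasDerivAt (fun x : ℝ => G (x + y * I)) (dx G (x + y * I)) x := by
  have h1 : HasDerivAt (fun x : ℝ => (x : ℂ) + y * I) 1 x := by
    have := (Complex.ofRealCLM.hasDerivAt (x := x)).add_const ((y : ℂ) * I)
    simpa using this
  have h2 : HasFDerivAt G (fderiv ℝ G (x + y * I)) (x + y * I) :=
    ((hG.differentiable one_ne_zero) _).hasFDerivAt
  exact h2.comp_hasDerivAt x h1

theorem WC_cont_dx {G : ℂ → ℝ} (hG : ContDiff ℝ 1 G) : Continuous (dx G) :=
  (hG.continuous_fderiv one_ne_zero).clm_apply continuous_const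

theorem WC_cont_dy {G : ℂ → ℝ} (hG : ContDiff ℝ 1 G) : Continuous (dy G) :=
  (hG.continuous_fderiv one_ne_zero).clm_apply continuous_const

theorem WC_ibp {F G : ℂ → ℝ} (hF : ContDiff ℝ 1 F) (hG : ContDiff ℝ 1 G) {x0 x1 : ℝ}
    (h : x0 ≤ x1) (h0 : ∀ z : ℂ, z.re = x0 → F z = 0) (h1 : ∀ z : ℂ, z.re = x1 → F z = 0) :
    ∫ z in box x0 x1, F z * dx G z = -∫ z in box x0 x1, dx F z * G z := by
  rw [WC_box_yx (f := fun z => F z * dx G z) (hF.continuous.mul (WC_cont_dx hG)) h,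
    WC_box_yx (f := fun z => dx F z * G z) ((WC_cont_dx hF).mul hG.continuous) h,
    ← intervalIntegral.integral_neg]
  refine intervalIntegral.integral_congr fun y _ => ?_
  have cf : Continuous fun x : ℝ => dx F (x + y * I) := (WC_cont_dx hF).comp (by fun_prop)
  have cg : Continuous fun x : ℝ => dx G (x + y * I) := (WC_cont_dx hG).comp (by fun_prop)
  rw [intervalIntegral.integral_mul_deriv_eq_deriv_mul
    (u := fun x : ℝ => F (x + y * I)) (v := fun x : ℝ => G (x + y * I))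
    (u' := fun x : ℝ => dx F (x + y * I)) (v' := fun x : ℝ => dx G (x + y * I))
    (fun x _ => WC_hasDerivAt_x hF x y) (fun x _ => WC_hasDerivAt_x hG x y)
    (cf.intervalIntegrable _ _) (cg.intervalIntegrable _ _)]
  rw [h0 (x0 + y * I) (by simp), h1 (x1 + y * I) (by simp)]
  ring

theorem WC_cs (μ : Measure ℂ) (f g : ℂ → ℝ) (hf : Integrable (fun z => f z ^ 2) μ)
    (hg : Integrable (fun z => g z ^ 2) μ) (hfg : Integrable (fun z => f z * g z) μ) :
    (∫ z, f z * g z ∂μ) ^ 2 ≤ (∫ z, f z ^ 2 ∂μ) * (∫ z, g z ^ 2 ∂μ) := by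
  have h : ∀ t : ℝ, 0 ≤ (∫ z, f z ^ 2 ∂μ) * (t * t) + (2 * ∫ z, f z * g z ∂μ) * t +
      ∫ z, g z ^ 2 ∂μ := by
    intro t
    have h1 : 0 ≤ ∫ z, (t * f z + g z) ^ 2 ∂μ := integral_nonneg fun z => sq_nonneg _
    have h2 : ∫ z, (t * f z + g z) ^ 2 ∂μ = (∫ z, f z ^ 2 ∂μ) * (t * t) +
        (2 * ∫ z, f z * g z ∂μ) * t + ∫ z, g z ^ 2 ∂μ := by
      have e : ∀ z, (t * f z + g z) ^ 2 = (t * t) * f z ^ 2 + (2 * t) * (f z * g z) + g z ^ 2 :=
        fun z => by ring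
      simp only [e]
      have i1 : Integrable (fun z => (t * t) * f z ^ 2) μ := hf.const_mul _
      have i2 : Integrable (fun z => (2 * t) * (f z * g z)) μ := hfg.const_mul _
      have i12 : Integrable (fun z => (t * t) * f z ^ 2 + (2 * t) * (f z * g z)) μ := i1.add i2
      rw [integral_add i12 hg, integral_add i1 i2, integral_const_mul, integral_const_mul]
      ring
    rw [← h2]; exact h1
  have h3 := discrim_le_zero h
  unfold discrim at h3
  nlinarith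

/-- infinitely differentiable -/
def WC_Sm (u : ℂ → ℝ) : Prop := ∀ n : ℕ, ContDiff ℝ n u

theorem WC_Sm_dx {u : ℂ → ℝ} (hu : WC_Sm u) : WC_Sm (dx u) := fun n =>
  ((hu (n + 1)).fderiv_right (by push_cast; exact le_rfl)).clm_apply contDiff_const

theorem WC_Sm_dy {u : ℂ → ℝ} (hu : WC_Sm u) : WC_Sm (dy u) := fun n =>
  ((hu (n + 1)).fderiv_right (by push_cast; exact le_rfl)).clm_apply contDiff_const

theorem WC_Sm_one {u : ℂ → ℝ} (hu : WC_Sm u) : ContDiff ℝ 1 u := by exact_mod_cast hu 1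

theorem WC_Sm_cont {u : ℂ → ℝ} (hu : WC_Sm u) : Continuous u := (WC_Sm_one hu).continuous

theorem WC_Sm_diff {u : ℂ → ℝ} (hu : WC_Sm u) (z : ℂ) : DifferentiableAt ℝ u z :=
  (WC_Sm_one hu).differentiable one_ne_zero z

theorem WC_symm {u : ℂ → ℝ} (hu : WC_Sm u) (z : ℂ) : dx (dy u) z = dy (dx u) z := by
  have h2 : ContDiffAt ℝ 2 u z := by exact_mod_cast (hu 2).contDiffAt
  have hs : IsSymmSndFDerivAt ℝ u z := h2.isSymmSndFDerivAt (by simp)
  have hd : DifferentiableAt ℝ (fderiv ℝ u) z := by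
    have : ContDiff ℝ 1 (fderiv ℝ u) := by
      have h3 := (hu 2).fderiv_right (m := 1) (by norm_num)
      exact h3
    exact this.differentiable one_ne_zero z
  have e1 : dx (dy u) z = fderiv ℝ (fderiv ℝ u) z 1 I := by
    show fderiv ℝ (fun z => fderiv ℝ u z I) z 1 = _
    rw [fderiv_clm_apply hd (differentiableAt_const I)]
    simp
  have e2 : dy (dx u) z = fderiv ℝ (fderiv ℝ u) z I 1 := by
    show fderiv ℝ (fun z => fderiv ℝ u z 1) z I = _
    rw [fderiv_clm_apply hd (differentiableAt_const (1 : ℂ))]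
    simp
  rw [e1, e2]
  exact hs 1 I

theorem WC_Sm_aof {u : ℂ → ℝ} (hu : WC_Sm u) (ρ : ℝ) : WC_Sm (aof ρ u) := fun n =>
  (hu n).add ((WC_Sm_dx hu n).div_const ρ)

theorem WC_Sm_bof {u : ℂ → ℝ} (hu : WC_Sm u) (ρ : ℝ) : WC_Sm (bof ρ u) := fun n =>
  (WC_Sm_dy hu n).div_const ρ

theorem WC_fderiv_aof {u : ℂ → ℝ} (hu : WC_Sm u) (ρ : ℝ) (z v : ℂ) :
    fderiv ℝ (aof ρ u) z v = fderiv ℝ u z v + fderiv ℝ (dx u) z v / ρ := by
  have h1 : HasFDerivAt u (fderiv ℝ u z) z := (WC_Sm_diff hu z).hasFDerivAt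
  have h2 : HasFDerivAt (dx u) (fderiv ℝ (dx u) z) z := (WC_Sm_diff (WC_Sm_dx hu) z).hasFDerivAt
  have h3 : HasFDerivAt (aof ρ u) (fderiv ℝ u z + ρ⁻¹ • fderiv ℝ (dx u) z) z := by
    refine (h1.fun_add (h2.const_smul ρ⁻¹)).congr_of_eventuallyEq
      (Filter.Eventually.of_forall fun w => ?_)
    show u w + dx u w / ρ = u w + ρ⁻¹ • dx u w
    rw [smul_eq_mul, div_eq_inv_mul]
  rw [h3.fderiv]
  simp only [_root_.add_apply, _root_.smul_apply, smul_eq_mul]
  rw [div_eq_inv_mul]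

theorem WC_fderiv_bof {u : ℂ → ℝ} (hu : WC_Sm u) (ρ : ℝ) (z v : ℂ) :
    fderiv ℝ (bof ρ u) z v = fderiv ℝ (dy u) z v / ρ := by
  have h2 : HasFDerivAt (dy u) (fderiv ℝ (dy u) z) z := (WC_Sm_diff (WC_Sm_dy hu) z).hasFDerivAt
  have h3 : HasFDerivAt (bof ρ u) (ρ⁻¹ • fderiv ℝ (dy u) z) z := by
    refine (h2.const_smul ρ⁻¹).congr_of_eventuallyEq
      (Filter.Eventually.of_forall fun w => ?_)
    show dy u w / ρ = ρ⁻¹ • dy u w
    rw [smul_eq_mul, div_eq_inv_mul]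
  rw [h3.fderiv]
  simp only [_root_.smul_apply, smul_eq_mul]
  rw [div_eq_inv_mul]

/-- the integrand -/
noncomputable def WC_int' (ρ : ℝ) (φ χ : ℝ → ℝ) (u : ℂ → ℝ) (z : ℂ) : ℝ :=
  χ z.re * ((ρ / 2) * Bf φ (aof ρ u z ^ 2 + bof ρ u z ^ 2)
      - dy (aof ρ u) z * Psif φ (aof ρ u z) (bof ρ u z))

theorem WC_cont_B {φ : ℝ → ℝ} (hφ : Wt φ) {a b : ℂ → ℝ} (ha : Continuous a) (hb : Continuous b) :
    Continuous fun z => Bf φ (a z ^ 2 + b z ^ 2) := by
  obtain ⟨C, -, -, -, -, h1, h2⟩ := wt_lip φ hφ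
  exact h2.continuous.comp (ha.prodMk hb)

theorem WC_cont_Psi {φ : ℝ → ℝ} (hφ : Wt φ) {a b : ℂ → ℝ} (ha : Continuous a)
    (hb : Continuous b) : Continuous fun z => Psif φ (a z) (b z) := by
  obtain ⟨C, -, -, -, -, h1, h2⟩ := wt_lip φ hφ
  exact h1.continuous.comp (ha.prodMk hb)

theorem WC_cont_int {ρ : ℝ} {φ χ : ℝ → ℝ} (hφ : Wt φ) (hχ : Continuous χ) {u : ℂ → ℝ}
    (hu : WC_Sm u) : Continuous (WC_int' ρ φ χ u) := by
  have ha := WC_Sm_cont (WC_Sm_aof hu ρ)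
  have hb := WC_Sm_cont (WC_Sm_bof hu ρ)
  have hc := WC_Sm_cont (WC_Sm_dy (WC_Sm_aof hu ρ))
  exact (hχ.comp Complex.continuous_re).mul ((continuous_const.mul (WC_cont_B hφ ha hb)).sub
    (hc.mul (WC_cont_Psi hφ ha hb)))

theorem WC_W_eq {ρ : ℝ} {φ χ : ℝ → ℝ} (hφ : Wt φ) (hχ : Continuous χ) {u : ℂ → ℝ}
    (hu : WC_Sm u) (N : ℝ) (hN : 0 ≤ N) (hχN : ∀ x, N ≤ |x| → χ x = 0) :
    Wsm ρ φ χ u = ∫ z in box (-N) N, WC_int' ρ φ χ u z := by
  have hNN : -N ≤ N := by linarith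
  rw [WC_box_xy (WC_cont_int hφ hχ hu) hNN, intervalIntegral.integral_of_le hNN]
  have h0 : ∀ x : ℝ, x ∉ Ioc (-N) N → ∫ y in (0 : ℝ)..(2 * Real.pi),
      WC_int' ρ φ χ u (x + y * I) = 0 := by
    intro x hx
    have hx' : χ x = 0 := by
      apply hχN
      rw [mem_Ioc, not_and_or, not_lt, not_le] at hx
      rcases hx with h | h
      · rw [abs_of_nonpos (by linarith)]; linarith
      · rw [abs_of_nonneg (by linarith)]; exact h.le
    have : ∀ y : ℝ, WC_int' ρ φ χ u (x + y * I) = 0 := by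
      intro y
      simp [WC_int', hx']
    simp [this]
  rw [setIntegral_eq_integral_of_forall_compl_eq_zero h0]
  unfold Wsm
  congr 1
  funext x
  refine intervalIntegral.integral_congr fun y _ => ?_
  simp [WC_int']


/-- a function of `(a, b)` with Lipschitz constant `CL`: bound for directional derivatives -/
theorem WC_lip_fderiv {Q : ℝ → ℝ → ℝ} {CL : ℝ} (hQ : ∀ a b a' b', |Q a b - Q a' b'| ≤ CL * (|a - a'| + |b - b'|))
    {a b : ℂ → ℝ} {z v : ℂ} (ha : DifferentiableAt ℝ a z) (hb : DifferentiableAt ℝ b z)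
    (hP : DifferentiableAt ℝ (fun z => Q (a z) (b z)) z) :
    |fderiv ℝ (fun z => Q (a z) (b z)) z v| ≤ CL * (|fderiv ℝ a z v| + |fderiv ℝ b z v|) := by
  have hl : ∀ {G : ℂ → ℝ}, DifferentiableAt ℝ G z →
      Tendsto (fun t : ℝ => |t⁻¹ * (G (z + t • v) - G z)|) (𝓝[≠] 0) (𝓝 |fderiv ℝ G z v|) := by
    intro G hG
    have h1 : HasDerivAt (fun t : ℝ => G (z + t • v)) (fderiv ℝ G z v) 0 := by
      have h2 : HasDerivAt (fun t : ℝ => z + t • v) v 0 := by
        have := ((hasDerivAt_id (0 : ℝ)).smul_const v).const_add z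
        simpa using this
      have h3 : HasFDerivAt G (fderiv ℝ G z) (z + (0 : ℝ) • v) := by
        rw [zero_smul, add_zero]; exact hG.hasFDerivAt
      exact h3.comp_hasDerivAt (0 : ℝ) h2
    have h4 := h1.tendsto_slope_zero
    simp only [zero_add, zero_smul, add_zero, smul_eq_mul] at h4
    exact h4.abs
  refine le_of_tendsto_of_tendsto (hl hP) (((hl ha).add (hl hb)).const_mul CL) ?_
  refine Filter.Eventually.of_forall fun t => ?_
  beta_reduce
  rw [abs_mul, abs_mul, abs_mul, ← mul_add, ← mul_assoc, mul_comm CL, mul_assoc]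
  exact mul_le_mul_of_nonneg_left (hQ _ _ _ _) (abs_nonneg _)

theorem WC_p1 (x y w : ℝ) : (1 + x + y + w) ^ 2 ≤ 4 * (1 + x ^ 2 + y ^ 2 + w ^ 2) := by
  have h1 := sq_nonneg (1 - x)
  have h2 := sq_nonneg (1 - y)
  have h3 := sq_nonneg (1 - w)
  have h4 := sq_nonneg (x - y)
  have h5 := sq_nonneg (x - w)
  have h6 := sq_nonneg (y - w)
  linarith

theorem WC_p2 (p q : ℝ) : (p + q) ^ 2 ≤ 2 * p ^ 2 + 2 * q ^ 2 := by
  have := sq_nonneg (p - q)
  linarith

theorem WC_p3 (p q : ℝ) : (|p| + |q|) ^ 2 ≤ 2 * p ^ 2 + 2 * q ^ 2 := by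
  rw [← sq_abs p, ← sq_abs q]
  exact WC_p2 _ _

theorem WC_core {ρ : ℝ} (hρ : 0 < ρ) {φ χ : ℝ → ℝ} (hφ : Wt φ) (hχ : ContDiff ℝ 2 χ)
    (N : ℝ) (hN : 0 ≤ N) (hχN : ∀ x, N ≤ |x| → χ x = 0) (A : ℝ) :
    ∃ Qf : ℝ, 0 ≤ Qf ∧ ∀ u u' : ℂ → ℝ, WC_Sm u → WC_Sm u' →
      (∫ z in box (-N) N, (dx u z ^ 2 + dy u z ^ 2) ≤ A) →
      (∫ z in box (-N) N, (dx u' z ^ 2 + dy u' z ^ 2) ≤ A) →
      (∫ z in box (-N) N, (dx (dx u) z ^ 2 + dy (dx u) z ^ 2) ≤ A) →
      (∫ z in box (-N) N, (dx (dx u') z ^ 2 + dy (dx u') z ^ 2) ≤ A) →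
      ∀ e1 e2 : ℝ, (∫ z in box (-N) N, (u z - u' z) ^ 2 ≤ e1) →
      (∫ z in box (-N) N, ((dx u z - dx u' z) ^ 2 + (dy u z - dy u' z) ^ 2) ≤ e2) →
      (Wsm ρ φ χ u - Wsm ρ φ χ u') ^ 2 ≤ Qf * (4 * e1 + 4 / ρ ^ 2 * e2) := by
  obtain ⟨CL, hCL0, hCL1, hCL2, hCL3, hC3, hC4⟩ := wt_lip φ hφ
  have cχ : Continuous χ := hχ.continuous
  have cχ' : Continuous (deriv χ) := hχ.continuous_deriv (by norm_num)
  obtain ⟨Cχ, hCχ⟩ := (isCompact_Icc (a := -N) (b := N)).exists_bound_of_continuousOn cχ.continuousOn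
  obtain ⟨Cd, hCd⟩ := (isCompact_Icc (a := -N) (b := N)).exists_bound_of_continuousOn cχ'.continuousOn
  have hCχ0 : 0 ≤ Cχ := (norm_nonneg _).trans (hCχ 0 ⟨by linarith, hN⟩)
  have hCd0 : 0 ≤ Cd := (norm_nonneg _).trans (hCd 0 ⟨by linarith, hN⟩)
  set K0 : ℝ := Cχ * (ρ / 2) * CL + ρ * Cχ * CL + Cd * CL + Cχ * CL with hK0
  have hK00 : 0 ≤ K0 := by positivity
  set m : ℝ := ∫ z in box (-N) N, (1 : ℝ) with hm
  have hm0 : 0 ≤ m := integral_nonneg fun _ => zero_le_one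
  have hNN : -N ≤ N := by linarith
  refine ⟨4 * K0 ^ 2 * (m + 4 * |A| + 5 / ρ ^ 2 * |A|), by positivity, ?_⟩
  intro u u' hu hu' hA1 hA2 hA3 hA4 e1 e2 he1 he2
  set a := aof ρ u with ha
  set b := bof ρ u with hb
  set a' := aof ρ u' with ha'
  set b' := bof ρ u' with hb'
  have sa : WC_Sm a := WC_Sm_aof hu ρ
  have sb : WC_Sm b := WC_Sm_bof hu ρ
  have sa' : WC_Sm a' := WC_Sm_aof hu' ρ
  have sb' : WC_Sm b' := WC_Sm_bof hu' ρ
  -- the function F
  set P : ℂ → ℝ := fun z => Psif φ (a' z) (b' z) with hP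
  have cP : ContDiff ℝ 1 P := by
    have : ContDiff ℝ 1 fun z => (a' z, b' z) := (WC_Sm_one sa').prodMk (WC_Sm_one sb')
    exact hC3.comp this
  set X : ℂ → ℝ := fun z => χ z.re with hX
  have cX : ContDiff ℝ 1 X := by
    have h1 : ContDiff ℝ 1 χ := hχ.of_le (by norm_num)
    exact h1.comp Complex.reCLM.contDiff
  set F : ℂ → ℝ := fun z => X z * P z with hF
  have cF : ContDiff ℝ 1 F := cX.mul cP
  set β : ℂ → ℝ := fun z => b z - b' z with hβ
  have cβ : ContDiff ℝ 1 β := (WC_Sm_one sb).sub (WC_Sm_one sb')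
  have hXd : ∀ z, dx X z = deriv χ z.re := by
    intro z
    have h1 : HasDerivAt χ (deriv χ z.re) z.re :=
      ((hχ.differentiable (by norm_num)) _).hasDerivAt
    have h2 : HasFDerivAt (fun z : ℂ => z.re) Complex.reCLM z := Complex.reCLM.hasFDerivAt
    have h3 : HasFDerivAt X _ z := h1.comp_hasFDerivAt z h2
    show fderiv ℝ X z 1 = _
    rw [h3.fderiv]
    simp
  have hFd : ∀ z, dx F z = deriv χ z.re * P z + X z * dx P z := by
    intro z
    have h1 : HasFDerivAt X (fderiv ℝ X z) z := (cX.differentiable one_ne_zero z).hasFDerivAt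
    have h2 : HasFDerivAt P (fderiv ℝ P z) z := (cP.differentiable one_ne_zero z).hasFDerivAt
    have h3 : HasFDerivAt F _ z := h1.mul h2
    show fderiv ℝ F z 1 = _
    rw [h3.fderiv, ← hXd z]
    simp [dx]
    ring
  have hβd : ∀ z, dx β z = dx b z - dx b' z := by
    intro z
    have h1 : HasFDerivAt b (fderiv ℝ b z) z := (WC_Sm_diff sb z).hasFDerivAt
    have h2 : HasFDerivAt b' (fderiv ℝ b' z) z := (WC_Sm_diff sb' z).hasFDerivAt
    have h3 : HasFDerivAt β _ z := h1.fun_sub h2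
    show fderiv ℝ β z 1 = _
    rw [h3.fderiv]
    rfl
  have hPd : ∀ z, |dx P z| ≤ CL * (|dx a' z| + |dx b' z|) := fun z =>
    WC_lip_fderiv hCL3 (WC_Sm_diff sa' z) (WC_Sm_diff sb' z) (cP.differentiable one_ne_zero z)
  -- the derivative of a
  have hay : ∀ z, dy a z = dy u z + dy (dx u) z / ρ := fun z => WC_fderiv_aof hu ρ z I
  have hay' : ∀ z, dy a' z = dy u' z + dy (dx u') z / ρ := fun z => WC_fderiv_aof hu' ρ z I
  have hax' : ∀ z, dx a' z = dx u' z + dx (dx u') z / ρ := fun z => WC_fderiv_aof hu' ρ z 1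
  have hbx : ∀ z, dx b z = dy (dx u) z / ρ := fun z => by
    rw [← WC_symm hu z]; exact WC_fderiv_bof hu ρ z 1
  have hbx' : ∀ z, dx b' z = dy (dx u') z / ρ := fun z => by
    rw [← WC_symm hu' z]; exact WC_fderiv_bof hu' ρ z 1
  have hbb : ∀ z, dy u z = ρ * b z := fun z => by
    rw [hb]; unfold bof; field_simp
  have hbb' : ∀ z, dy u' z = ρ * b' z := fun z => by
    rw [hb']; unfold bof; field_simp
  -- continuity
  have ca := WC_Sm_cont sa
  have cb := WC_Sm_cont sb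
  have ca' := WC_Sm_cont sa'
  have cb' := WC_Sm_cont sb'
  have cay := WC_Sm_cont (WC_Sm_dy sa)
  have cB := WC_cont_B hφ ca cb
  have cB' := WC_cont_B hφ ca' cb'
  have cΨ := WC_cont_Psi hφ ca cb
  have cX0 := cX.continuous
  have cP0 := cP.continuous
  have cβ0 := cβ.continuous
  have cFd := WC_cont_dx cF
  have cβd := WC_cont_dx cβ
  -- the main part
  set G : ℂ → ℝ := fun z => X z * (ρ / 2) * (Bf φ (a z ^ 2 + b z ^ 2) - Bf φ (a' z ^ 2 + b' z ^ 2))
    - X z * dy a z * (Psif φ (a z) (b z) - P z) - ρ * X z * P z * β z with hG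
  have cG : Continuous G := by
    have h1 : Continuous fun z => X z * (ρ / 2) * (Bf φ (a z ^ 2 + b z ^ 2) - Bf φ (a' z ^ 2 + b' z ^ 2)) :=
      (cX0.mul continuous_const).mul (cB.sub cB')
    have h2 : Continuous fun z => X z * dy a z * (Psif φ (a z) (b z) - P z) :=
      (cX0.mul cay).mul (cΨ.sub cP0)
    have h3 : Continuous fun z => ρ * X z * P z * β z := ((continuous_const.mul cX0).mul cP0).mul cβ0
    exact (h1.sub h2).sub h3
  have hpt : ∀ z, WC_int' ρ φ χ u z - WC_int' ρ φ χ u' z = G z - F z * dx β z := by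
    intro z
    have e1 : dy a z - dy a' z = ρ * β z + dx β z := by
      rw [hay z, hay' z, hβd z, hbx z, hbx' z, hbb z, hbb' z]
      simp only [hβ]
      ring
    have e2 : dy a' z = dy a z - (ρ * β z + dx β z) := by linarith
    show χ z.re * ((ρ / 2) * Bf φ (a z ^ 2 + b z ^ 2) - dy a z * Psif φ (a z) (b z)) -
      χ z.re * ((ρ / 2) * Bf φ (a' z ^ 2 + b' z ^ 2) - dy a' z * Psif φ (a' z) (b' z)) = _
    rw [e2]
    simp only [hG, hF, hX, hP]
    ring
  have hdiff : Wsm ρ φ χ u - Wsm ρ φ χ u' = ∫ z in box (-N) N, (G z + dx F z * β z) := by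
    rw [WC_W_eq hφ cχ hu N hN hχN, WC_W_eq hφ cχ hu' N hN hχN,
      ← integral_sub (WC_integrable (WC_cont_int hφ cχ hu) _ _)
        (WC_integrable (WC_cont_int hφ cχ hu') _ _)]
    simp only [hpt]
    rw [integral_sub (WC_integrable cG _ _)
        (WC_integrable (f := fun z => F z * dx β z) (cF.continuous.mul cβd) _ _),
      WC_ibp cF cβ hNN, integral_add (WC_integrable cG _ _)
        (WC_integrable (f := fun z => dx F z * β z) (cFd.mul cβ0) _ _)]
    · ring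
    · intro z hz
      simp only [hF, hX]
      rw [hχN z.re (by rw [hz, abs_neg]; exact le_abs_self N), zero_mul]
    · intro z hz
      simp only [hF, hX]
      rw [hχN z.re (by rw [hz]; exact le_abs_self N), zero_mul]
  -- pointwise bound
  set f : ℂ → ℝ := fun z => K0 * (1 + |dy a z| + |dx a' z| + |dx b' z|) with hf
  set g : ℂ → ℝ := fun z => |a z - a' z| + |b z - b' z| with hg
  have cf : Continuous f := by
    have h1 := WC_Sm_cont (WC_Sm_dx sa')
    have h2 := WC_Sm_cont (WC_Sm_dx sb')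
    exact continuous_const.mul (((continuous_const.add cay.abs).add h1.abs).add h2.abs)
  have cg : Continuous g := (ca.sub ca').abs.add (cb.sub cb').abs
  have hbd : ∀ z ∈ box (-N) N, |G z + dx F z * β z| ≤ f z * g z := by
    intro z hz
    have hzr : z.re ∈ Icc (-N) N := hz.1
    have b1 : |X z| ≤ Cχ := hCχ _ hzr
    have b2 : |deriv χ z.re| ≤ Cd := hCd _ hzr
    have b3 := hCL2 (a z) (b z) (a' z) (b' z)
    have b4 : |Psif φ (a z) (b z) - P z| ≤ CL * g z := hCL3 (a z) (b z) (a' z) (b' z)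
    have b5 : |P z| ≤ CL := (hCL1 (a' z) (b' z)).2
    have b6 : |β z| ≤ g z := by
      simp only [hβ, hg]
      have := abs_nonneg (a z - a' z)
      linarith
    have b7 := hPd z
    have g0 : 0 ≤ g z := by simp only [hg]; positivity
    have c1 : |X z * (ρ / 2) * (Bf φ (a z ^ 2 + b z ^ 2) - Bf φ (a' z ^ 2 + b' z ^ 2))| ≤
        Cχ * (ρ / 2) * (CL * g z) := by
      rw [abs_mul, abs_mul, abs_of_pos (by positivity : 0 < ρ / 2)]
      gcongr
    have c2 : |X z * dy a z * (Psif φ (a z) (b z) - P z)| ≤ Cχ * |dy a z| * (CL * g z) := by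
      rw [abs_mul, abs_mul]
      gcongr
    have c3 : |ρ * X z * P z * β z| ≤ ρ * Cχ * CL * g z := by
      rw [abs_mul, abs_mul, abs_mul, abs_of_pos hρ]
      gcongr
    have c4 : |dx F z * β z| ≤ (Cd * CL + Cχ * (CL * (|dx a' z| + |dx b' z|))) * g z := by
      rw [abs_mul, hFd z]
      have : |deriv χ z.re * P z + X z * dx P z| ≤ Cd * CL + Cχ * (CL * (|dx a' z| + |dx b' z|)) := by
        refine (abs_add_le _ _).trans (add_le_add ?_ ?_)
        · rw [abs_mul]; gcongr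
        · rw [abs_mul]; gcongr
      gcongr
    have c5 : |G z + dx F z * β z| ≤ Cχ * (ρ / 2) * (CL * g z) + Cχ * |dy a z| * (CL * g z) +
        ρ * Cχ * CL * g z + (Cd * CL + Cχ * (CL * (|dx a' z| + |dx b' z|))) * g z := by
      have d1 := abs_add_le (G z) (dx F z * β z)
      have d2 := abs_sub (X z * (ρ / 2) * (Bf φ (a z ^ 2 + b z ^ 2) - Bf φ (a' z ^ 2 + b' z ^ 2))
        - X z * dy a z * (Psif φ (a z) (b z) - P z)) (ρ * X z * P z * β z)
      have d3 := abs_sub (X z * (ρ / 2) * (Bf φ (a z ^ 2 + b z ^ 2) - Bf φ (a' z ^ 2 + b' z ^ 2)))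
        (X z * dy a z * (Psif φ (a z) (b z) - P z))
      have d4 : |G z| ≤ _ := d2
      linarith
    refine c5.trans ?_
    have e1 : Cχ * (ρ / 2) * (CL * g z) + Cχ * |dy a z| * (CL * g z) +
        ρ * Cχ * CL * g z + (Cd * CL + Cχ * (CL * (|dx a' z| + |dx b' z|))) * g z =
        (Cχ * (ρ / 2) * CL + ρ * Cχ * CL + Cd * CL + Cχ * CL * (|dy a z| + |dx a' z| + |dx b' z|)) * g z := by
      ring
    rw [e1]
    refine mul_le_mul_of_nonneg_right ?_ g0
    simp only [hf, hK0]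
    have p1 : 0 ≤ Cχ * (ρ / 2) * CL := by positivity
    have p2 : 0 ≤ ρ * Cχ * CL := by positivity
    have p3 : 0 ≤ Cd * CL := by positivity
    have p4 : 0 ≤ Cχ * CL := by positivity
    have q1 := abs_nonneg (dy a z)
    have q2 := abs_nonneg (dx a' z)
    have q3 := abs_nonneg (dx b' z)
    have q4 : 0 ≤ (Cχ * (ρ / 2) * CL + ρ * Cχ * CL + Cd * CL) * (|dy a z| + |dx a' z| + |dx b' z|) := by
      positivity
    have q5 : (Cχ * (ρ / 2) * CL + ρ * Cχ * CL + Cd * CL + Cχ * CL) *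
        (1 + |dy a z| + |dx a' z| + |dx b' z|) =
        Cχ * (ρ / 2) * CL + ρ * Cχ * CL + Cd * CL + Cχ * CL * (|dy a z| + |dx a' z| + |dx b' z|) +
        (Cχ * CL + (Cχ * (ρ / 2) * CL + ρ * Cχ * CL + Cd * CL) *
          (|dy a z| + |dx a' z| + |dx b' z|)) := by ring
    rw [q5]
    linarith
  -- Cauchy-Schwarz
  have hI : |Wsm ρ φ χ u - Wsm ρ φ χ u'| ≤ ∫ z in box (-N) N, f z * g z := by
    rw [hdiff, ← Real.norm_eq_abs]
    refine norm_integral_le_of_norm_le (WC_integrable (f := fun z => f z * g z) (cf.mul cg) _ _) ?_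
    rw [ae_restrict_iff' (WC_box_meas _ _)]
    exact Filter.Eventually.of_forall fun z hz => hbd z hz
  have hcs := WC_cs (volume.restrict (box (-N) N)) f g (WC_integrable (cf.pow 2) _ _)
    (WC_integrable (cg.pow 2) _ _) (WC_integrable (cf.mul cg) _ _)
  have s0 : (Wsm ρ φ χ u - Wsm ρ φ χ u') ^ 2 ≤ (∫ z in box (-N) N, f z * g z) ^ 2 := by
    rw [← sq_abs]
    exact pow_le_pow_left₀ (abs_nonneg _) hI 2
  -- bounds for the two norms
  have cux := WC_Sm_cont (WC_Sm_dx hu)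
  have cuy := WC_Sm_cont (WC_Sm_dy hu)
  have cux' := WC_Sm_cont (WC_Sm_dx hu')
  have cuy' := WC_Sm_cont (WC_Sm_dy hu')
  have cuxx := WC_Sm_cont (WC_Sm_dx (WC_Sm_dx hu))
  have cuxy := WC_Sm_cont (WC_Sm_dy (WC_Sm_dx hu))
  have cuxx' := WC_Sm_cont (WC_Sm_dx (WC_Sm_dx hu'))
  have cuxy' := WC_Sm_cont (WC_Sm_dy (WC_Sm_dx hu'))
  have cu := WC_Sm_cont hu
  have cu' := WC_Sm_cont hu'
  have hg2 : ∫ z in box (-N) N, g z ^ 2 ≤ 4 * e1 + 4 / ρ ^ 2 * e2 := by
    have hp : ∀ z, g z ^ 2 ≤ 4 * (u z - u' z) ^ 2 +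
        4 / ρ ^ 2 * ((dx u z - dx u' z) ^ 2 + (dy u z - dy u' z) ^ 2) := by
      intro z
      have e1 : a z - a' z = (u z - u' z) + (dx u z - dx u' z) / ρ := by
        simp only [ha, ha', aof]; ring
      have e2 : b z - b' z = (dy u z - dy u' z) / ρ := by
        simp only [hb, hb', bof]; ring
      have e3 : g z ^ 2 ≤ 2 * (a z - a' z) ^ 2 + 2 * (b z - b' z) ^ 2 := by
        exact WC_p3 _ _
      refine e3.trans ?_
      rw [e1, e2]
      set v := u z - u' z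
      set p := dx u z - dx u' z
      set q := dy u z - dy u' z
      have h1 : (v + p / ρ) ^ 2 ≤ 2 * v ^ 2 + 2 * (p / ρ) ^ 2 := WC_p2 _ _
      have h2 : (p / ρ) ^ 2 = p ^ 2 / ρ ^ 2 := div_pow _ _ _
      have h3 : (q / ρ) ^ 2 = q ^ 2 / ρ ^ 2 := div_pow _ _ _
      have h4 : 4 / ρ ^ 2 * (p ^ 2 + q ^ 2) = 4 * (p ^ 2 / ρ ^ 2) + 4 * (q ^ 2 / ρ ^ 2) := by ring
      rw [h4]
      have h5 : 0 ≤ q ^ 2 / ρ ^ 2 := by positivity
      rw [h2] at h1
      rw [h3]
      linarith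
    have i1 : Continuous fun z => (u z - u' z) ^ 2 := (cu.sub cu').pow 2
    have i2 : Continuous fun z => (dx u z - dx u' z) ^ 2 + (dy u z - dy u' z) ^ 2 :=
      ((cux.sub cux').pow 2).add ((cuy.sub cuy').pow 2)
    calc ∫ z in box (-N) N, g z ^ 2 ≤ ∫ z in box (-N) N, (4 * (u z - u' z) ^ 2 +
        4 / ρ ^ 2 * ((dx u z - dx u' z) ^ 2 + (dy u z - dy u' z) ^ 2)) :=
          integral_mono (WC_integrable (cg.pow 2) _ _)
            (WC_integrable ((continuous_const.mul i1).add (continuous_const.mul i2)) _ _) hp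
      _ = 4 * (∫ z in box (-N) N, (u z - u' z) ^ 2) + 4 / ρ ^ 2 *
          ∫ z in box (-N) N, ((dx u z - dx u' z) ^ 2 + (dy u z - dy u' z) ^ 2) := by
          have j1 := WC_integrable (f := fun z => 4 * (u z - u' z) ^ 2) (continuous_const.mul i1) (-N) N
          have j2 := WC_integrable (f := fun z => 4 / ρ ^ 2 * ((dx u z - dx u' z) ^ 2 +
            (dy u z - dy u' z) ^ 2)) (continuous_const.mul i2) (-N) N
          rw [integral_add j1 j2, integral_const_mul, integral_const_mul]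
      _ ≤ 4 * e1 + 4 / ρ ^ 2 * e2 := by
          have : 0 ≤ 4 / ρ ^ 2 := by positivity
          gcongr
  have hf2 : ∫ z in box (-N) N, f z ^ 2 ≤ 4 * K0 ^ 2 * (m + 4 * |A| + 5 / ρ ^ 2 * |A|) := by
    have hp : ∀ z, f z ^ 2 ≤ 4 * K0 ^ 2 * (1 + 2 * (dx u z ^ 2 + dy u z ^ 2) +
        2 / ρ ^ 2 * (dx (dx u) z ^ 2 + dy (dx u) z ^ 2) + 2 * (dx u' z ^ 2 + dy u' z ^ 2) +
        3 / ρ ^ 2 * (dx (dx u') z ^ 2 + dy (dx u') z ^ 2)) := by
      intro z
      have e3 : (1 + |dy a z| + |dx a' z| + |dx b' z|) ^ 2 ≤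
          4 * (1 + dy a z ^ 2 + dx a' z ^ 2 + dx b' z ^ 2) := by
        have h1 := sq_abs (dy a z)
        have h2 := sq_abs (dx a' z)
        have h3 := sq_abs (dx b' z)
        rw [← h1, ← h2, ← h3]
        exact WC_p1 _ _ _
      simp only [hf]
      rw [mul_pow]
      have e4 : 4 * K0 ^ 2 * (1 + 2 * (dx u z ^ 2 + dy u z ^ 2) +
        2 / ρ ^ 2 * (dx (dx u) z ^ 2 + dy (dx u) z ^ 2) + 2 * (dx u' z ^ 2 + dy u' z ^ 2) +
        3 / ρ ^ 2 * (dx (dx u') z ^ 2 + dy (dx u') z ^ 2)) = K0 ^ 2 * (4 * (1 + 2 * (dx u z ^ 2 + dy u z ^ 2) +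
        2 / ρ ^ 2 * (dx (dx u) z ^ 2 + dy (dx u) z ^ 2) + 2 * (dx u' z ^ 2 + dy u' z ^ 2) +
        3 / ρ ^ 2 * (dx (dx u') z ^ 2 + dy (dx u') z ^ 2))) := by ring
      rw [e4]
      refine mul_le_mul_of_nonneg_left (e3.trans ?_) (sq_nonneg _)
      rw [hay z, hax' z, hbx' z]
      generalize dy u z = p1
      generalize dx u z = p2
      generalize dx (dx u) z = p3
      generalize dy (dx u) z = p4
      generalize dy u' z = q1
      generalize dx u' z = q2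
      generalize dx (dx u') z = q3
      generalize dy (dx u') z = q4
      have h1 : (p1 + p4 / ρ) ^ 2 ≤ 2 * p1 ^ 2 + 2 * (p4 / ρ) ^ 2 := WC_p2 _ _
      have h2 : (q2 + q3 / ρ) ^ 2 ≤ 2 * q2 ^ 2 + 2 * (q3 / ρ) ^ 2 := WC_p2 _ _
      have h3 : ∀ c x : ℝ, c / ρ ^ 2 * x ^ 2 = c * (x / ρ) ^ 2 := by
        intro c x; rw [div_pow]; ring
      rw [mul_add (2 / ρ ^ 2), mul_add (3 / ρ ^ 2), h3, h3, h3, h3]
      have y1 := sq_nonneg (p3 / ρ)
      have y2 := sq_nonneg (q3 / ρ)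
      have y3 := sq_nonneg (q4 / ρ)
      have y4 := sq_nonneg p2
      have y5 := sq_nonneg q1
      linarith
    have i1 : Continuous fun z => dx u z ^ 2 + dy u z ^ 2 := (cux.pow 2).add (cuy.pow 2)
    have i2 : Continuous fun z => dx (dx u) z ^ 2 + dy (dx u) z ^ 2 := (cuxx.pow 2).add (cuxy.pow 2)
    have i3 : Continuous fun z => dx u' z ^ 2 + dy u' z ^ 2 := (cux'.pow 2).add (cuy'.pow 2)
    have i4 : Continuous fun z => dx (dx u') z ^ 2 + dy (dx u') z ^ 2 := (cuxx'.pow 2).add (cuxy'.pow 2)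
    have j0 := WC_integrable (f := fun _ => (1 : ℝ)) continuous_const (-N) N
    have j1 := WC_integrable (f := fun z => 2 * (dx u z ^ 2 + dy u z ^ 2)) (continuous_const.mul i1) (-N) N
    have j2 := WC_integrable (f := fun z => 2 / ρ ^ 2 * (dx (dx u) z ^ 2 + dy (dx u) z ^ 2))
      (continuous_const.mul i2) (-N) N
    have j3 := WC_integrable (f := fun z => 2 * (dx u' z ^ 2 + dy u' z ^ 2)) (continuous_const.mul i3) (-N) N
    have j4 := WC_integrable (f := fun z => 3 / ρ ^ 2 * (dx (dx u') z ^ 2 + dy (dx u') z ^ 2))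
      (continuous_const.mul i4) (-N) N
    have j01 := WC_integrable (f := fun z => 1 + 2 * (dx u z ^ 2 + dy u z ^ 2))
      (continuous_const.add (continuous_const.mul i1)) (-N) N
    have j012 := WC_integrable (f := fun z => 1 + 2 * (dx u z ^ 2 + dy u z ^ 2) +
      2 / ρ ^ 2 * (dx (dx u) z ^ 2 + dy (dx u) z ^ 2))
      ((continuous_const.add (continuous_const.mul i1)).add (continuous_const.mul i2)) (-N) N
    have j0123 := WC_integrable (f := fun z => 1 + 2 * (dx u z ^ 2 + dy u z ^ 2) +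
      2 / ρ ^ 2 * (dx (dx u) z ^ 2 + dy (dx u) z ^ 2) + 2 * (dx u' z ^ 2 + dy u' z ^ 2))
      (((continuous_const.add (continuous_const.mul i1)).add (continuous_const.mul i2)).add
        (continuous_const.mul i3)) (-N) N
    have j := WC_integrable (f := fun z => 4 * K0 ^ 2 * (1 + 2 * (dx u z ^ 2 + dy u z ^ 2) +
        2 / ρ ^ 2 * (dx (dx u) z ^ 2 + dy (dx u) z ^ 2) + 2 * (dx u' z ^ 2 + dy u' z ^ 2) +
        3 / ρ ^ 2 * (dx (dx u') z ^ 2 + dy (dx u') z ^ 2)))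
      (continuous_const.mul ((((continuous_const.add (continuous_const.mul i1)).add
        (continuous_const.mul i2)).add (continuous_const.mul i3)).add (continuous_const.mul i4))) (-N) N
    refine (integral_mono (WC_integrable (cf.pow 2) _ _) j hp).trans ?_
    rw [integral_const_mul, integral_add j0123 j4, integral_add j012 j3, integral_add j01 j2,
      integral_add j0 j1, integral_const_mul, integral_const_mul, integral_const_mul,
      integral_const_mul]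
    refine mul_le_mul_of_nonneg_left ?_ (by positivity)
    have hA := le_abs_self A
    have r1 : 2 * (∫ z in box (-N) N, (dx u z ^ 2 + dy u z ^ 2)) ≤ 2 * |A| := by linarith
    have r2 : 2 / ρ ^ 2 * (∫ z in box (-N) N, (dx (dx u) z ^ 2 + dy (dx u) z ^ 2)) ≤
        2 / ρ ^ 2 * |A| := mul_le_mul_of_nonneg_left (by linarith) (by positivity)
    have r3 : 2 * (∫ z in box (-N) N, (dx u' z ^ 2 + dy u' z ^ 2)) ≤ 2 * |A| := by linarith
    have r4 : 3 / ρ ^ 2 * (∫ z in box (-N) N, (dx (dx u') z ^ 2 + dy (dx u') z ^ 2)) ≤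
        3 / ρ ^ 2 * |A| := mul_le_mul_of_nonneg_left (by linarith) (by positivity)
    have r5 : 5 / ρ ^ 2 * |A| = 2 / ρ ^ 2 * |A| + 3 / ρ ^ 2 * |A| := by ring
    rw [r5]
    linarith
  have hg0 : 0 ≤ ∫ z in box (-N) N, g z ^ 2 := integral_nonneg fun z => sq_nonneg _
  calc (Wsm ρ φ χ u - Wsm ρ φ χ u') ^ 2 ≤ (∫ z in box (-N) N, f z * g z) ^ 2 := s0
    _ ≤ (∫ z in box (-N) N, f z ^ 2) * (∫ z in box (-N) N, g z ^ 2) := hcs
    _ ≤ (4 * K0 ^ 2 * (m + 4 * |A| + 5 / ρ ^ 2 * |A|)) * (∫ z in box (-N) N, g z ^ 2) :=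
        mul_le_mul_of_nonneg_right hf2 hg0
    _ ≤ _ := mul_le_mul_of_nonneg_left hg2 (by positivity)

/-- TARGET 2 -/
theorem W_cauchy {ρ : ℝ} {h ω : ℝ → ℝ} (hd : Dat ρ h ω) (C : ℝ) (φ χ : ℝ → ℝ) (hφ : Wt φ)
    (hχ : ContDiff ℝ 2 χ) (hχs : HasCompactSupport χ) :
    ∃ (κ : ℝ → ℝ) (δ0 : ℝ), 0 < δ0 ∧ δ0 ≤ 1 ∧ Tendsto κ (𝓝[>] 0) (𝓝 0) ∧ ∀ U, ClsS ρ h C ω U →
      ∀ δ ∈ Ioc (0 : ℝ) δ0, ∀ δ' ∈ Ioc (0 : ℝ) δ0,
        |Wsm ρ φ χ (moll δ U) - Wsm ρ φ χ (moll δ' U)| ≤ κ δ + κ δ' := by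
  have hρ := hd.rho
  obtain ⟨N0, hN0⟩ := hχs.isCompact.isBounded.exists_norm_le
  obtain ⟨N, hN⟩ := exists_nat_gt |N0|
  have hχN : ∀ x, (N : ℝ) ≤ |x| → χ x = 0 := by
    intro x hx
    by_contra h
    have h1 := hN0 x (subset_tsupport _ h)
    rw [Real.norm_eq_abs] at h1
    have := le_abs_self N0
    linarith
  obtain ⟨M2, δ1, hδ1, hδ1', hM2, hG⟩ := grad_bdd hd C
  obtain ⟨M3, δ2, hδ2, hδ2', hM3, hL⟩ := moll_l2_cauchy hd C
  obtain ⟨κ1, δ3, hδ3, hδ3', hκ1, hH⟩ := moll_h1_cauchy hd C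
  obtain ⟨M4, δ4, hδ4, hδ4', hM4, hX⟩ := dx_bdd hd C
  set n2 : ℝ := ((2 * N : ℕ) : ℝ) with hn2
  have hn20 : 0 ≤ n2 := Nat.cast_nonneg _
  obtain ⟨Qf, hQf, hcore⟩ := WC_core hρ hφ hχ N (Nat.cast_nonneg N) hχN (n2 * (M2 + M4))
  have hbox : ∀ f : ℂ → ℝ, Continuous f → ∀ M : ℝ, (∀ x0 : ℝ, ∫ z in box x0 (x0 + 1), f z ≤ M) →
      ∫ z in box (-N) N, f z ≤ n2 * M := by
    intro f hf M h
    have h1 := WC_box_sum hf M h (-N) (2 * N)
    have e : -(N : ℝ) + ((2 * N : ℕ) : ℝ) = N := by push_cast; ring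
    rwa [e] at h1
  set s1 : ℝ := Real.sqrt (Qf * (4 * (n2 * M3))) with hs1
  set s2 : ℝ := Real.sqrt (Qf * (4 / ρ ^ 2 * n2)) with hs2
  have hs1' : s1 ^ 2 = Qf * (4 * (n2 * M3)) := Real.sq_sqrt (by positivity)
  have hs2' : s2 ^ 2 = Qf * (4 / ρ ^ 2 * n2) := Real.sq_sqrt (by positivity)
  have hs10 : 0 ≤ s1 := Real.sqrt_nonneg _
  have hs20 : 0 ≤ s2 := Real.sqrt_nonneg _
  refine ⟨fun δ => s1 * δ + s2 * Real.sqrt |κ1 δ|, min (min δ1 δ2) (min δ3 δ4),
    lt_min (lt_min hδ1 hδ2) (lt_min hδ3 hδ4), ?_, ?_, ?_⟩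
  · exact (min_le_left _ _).trans ((min_le_left _ _).trans hδ1')
  · have h1 : Tendsto (fun δ : ℝ => s1 * δ) (𝓝[>] 0) (𝓝 (s1 * 0)) :=
      (tendsto_nhdsWithin_of_tendsto_nhds tendsto_id).const_mul s1
    have h2 : Tendsto (fun δ : ℝ => s2 * Real.sqrt |κ1 δ|) (𝓝[>] 0) (𝓝 (s2 * Real.sqrt |0|)) :=
      ((Real.continuous_sqrt.tendsto _).comp hκ1.abs).const_mul s2
    have h3 := h1.add h2
    simpa using h3
  · intro U hU δ hδ δ' hδ'
    have hle : ∀ x ∈ Ioc (0 : ℝ) (min (min δ1 δ2) (min δ3 δ4)),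
        x ∈ Ioc (0 : ℝ) δ1 ∧ x ∈ Ioc (0 : ℝ) δ2 ∧ x ∈ Ioc (0 : ℝ) δ3 ∧ x ∈ Ioc (0 : ℝ) δ4 := by
      intro x hx
      have h1 := hx.2
      simp only [le_min_iff] at h1
      exact ⟨⟨hx.1, h1.1.1⟩, ⟨hx.1, h1.1.2⟩, ⟨hx.1, h1.2.1⟩, ⟨hx.1, h1.2.2⟩⟩
    obtain ⟨m1, m2, m3, m4⟩ := hle δ hδ
    obtain ⟨m1', m2', m3', m4'⟩ := hle δ' hδ'
    have su : WC_Sm (moll δ U) := fun n => moll_contDiff δ hδ.1 U hU.loc n
    have su' : WC_Sm (moll δ' U) := fun n => moll_contDiff δ' hδ'.1 U hU.loc n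
    have k1 : ∀ {u : ℂ → ℝ}, WC_Sm u → Continuous fun z => dx u z ^ 2 + dy u z ^ 2 := fun hu =>
      ((WC_Sm_cont (WC_Sm_dx hu)).pow 2).add ((WC_Sm_cont (WC_Sm_dy hu)).pow 2)
    have k2 : Continuous fun z => (moll δ U z - moll δ' U z) ^ 2 :=
      ((WC_Sm_cont su).sub (WC_Sm_cont su')).pow 2
    have k3 : Continuous fun z => (dx (moll δ U) z - dx (moll δ' U) z) ^ 2 +
        (dy (moll δ U) z - dy (moll δ' U) z) ^ 2 :=
      (((WC_Sm_cont (WC_Sm_dx su)).sub (WC_Sm_cont (WC_Sm_dx su'))).pow 2).add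
        (((WC_Sm_cont (WC_Sm_dy su)).sub (WC_Sm_cont (WC_Sm_dy su'))).pow 2)
    have l1 : n2 * M2 ≤ n2 * (M2 + M4) := by gcongr; linarith
    have l2 : n2 * M4 ≤ n2 * (M2 + M4) := by gcongr; linarith
    have hc := hcore (moll δ U) (moll δ' U) su su'
      ((hbox _ (k1 su) M2 fun x0 => (hG U hU δ m1 x0).1).trans l1)
      ((hbox _ (k1 su') M2 fun x0 => (hG U hU δ' m1' x0).1).trans l1)
      ((hbox _ (k1 (WC_Sm_dx su)) M4 fun x0 => (hX U hU δ m4).2 x0).trans l2)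
      ((hbox _ (k1 (WC_Sm_dx su')) M4 fun x0 => (hX U hU δ' m4').2 x0).trans l2)
      (n2 * (M3 * (δ + δ') ^ 2)) (n2 * (κ1 δ + κ1 δ'))
      (hbox _ k2 _ fun x0 => hL U hU δ m2 δ' m2' x0)
      (hbox _ k3 _ fun x0 => hH U hU δ m3 δ' m3' x0)
    set q : ℝ := Real.sqrt |κ1 δ| with hq
    set q' : ℝ := Real.sqrt |κ1 δ'| with hq'
    have hq2 : q ^ 2 = |κ1 δ| := Real.sq_sqrt (abs_nonneg _)
    have hq2' : q' ^ 2 = |κ1 δ'| := Real.sq_sqrt (abs_nonneg _)
    have hq0 : 0 ≤ q := Real.sqrt_nonneg _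
    have hq0' : 0 ≤ q' := Real.sqrt_nonneg _
    have hδ0 := hδ.1
    have hδ0' := hδ'.1
    show _ ≤ (s1 * δ + s2 * q) + (s1 * δ' + s2 * q')
    have hpos : 0 ≤ (s1 * δ + s2 * q) + (s1 * δ' + s2 * q') := by positivity
    refine abs_le_of_sq_le_sq (hc.trans ?_) hpos
    have e1 : Qf * (4 * (n2 * (M3 * (δ + δ') ^ 2)) + 4 / ρ ^ 2 * (n2 * (κ1 δ + κ1 δ'))) =
        s1 ^ 2 * (δ + δ') ^ 2 + s2 ^ 2 * (κ1 δ + κ1 δ') := by
      rw [hs1', hs2']; ring
    rw [e1]
    have e2 : ((s1 * δ + s2 * q) + (s1 * δ' + s2 * q')) ^ 2 =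
        s1 ^ 2 * (δ + δ') ^ 2 + s2 ^ 2 * (q ^ 2 + q' ^ 2) + 2 * (s1 * (δ + δ')) * (s2 * (q + q')) +
          2 * s2 ^ 2 * (q * q') := by ring
    rw [e2, hq2, hq2']
    have r1 : 0 ≤ 2 * (s1 * (δ + δ')) * (s2 * (q + q')) := by positivity
    have r2 : 0 ≤ 2 * s2 ^ 2 * (q * q') := by positivity
    have r3 : s2 ^ 2 * (κ1 δ + κ1 δ') ≤ s2 ^ 2 * (|κ1 δ| + |κ1 δ'|) := by
      gcongr
      · exact le_abs_self _
      · exact le_abs_self _
    linarith


/-- convolution -/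
noncomputable def WC_conv (k V : ℂ → ℝ) (z : ℂ) : ℝ := ∫ w, k (z - w) * V w

theorem WC_conv_fderiv {k V : ℂ → ℝ} (hk : ContDiff ℝ 1 k) (hkc : HasCompactSupport k)
    (hV : LocallyIntegrable V volume) (z v : ℂ) :
    fderiv ℝ (WC_conv k V) z v = WC_conv (fun z => fderiv ℝ k z v) V z := by
  have e : WC_conv k V = convolution V k (ContinuousLinearMap.mul ℝ ℝ) volume := by
    funext z
    show ∫ w, k (z - w) * V w = ∫ t, (ContinuousLinearMap.mul ℝ ℝ) (V t) (k (z - t))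
    congr 1
    funext w
    simp [mul_comm]
  rw [e, (hkc.hasFDerivAt_convolution_right (ContinuousLinearMap.mul ℝ ℝ) hV hk z).fderiv,
    convolution_precompR_apply (ContinuousLinearMap.mul ℝ ℝ) hV (hkc.fderiv ℝ)
      (hk.continuous_fderiv one_ne_zero) z v]
  show ∫ t, (ContinuousLinearMap.mul ℝ ℝ) (V t) (fderiv ℝ k (z - t) v) =
    ∫ w, fderiv ℝ k (z - w) v * V w
  congr 1
  funext w
  simp [mul_comm]

theorem WC_bQ_compact (K : ℝ) : IsCompact (bQ K) := by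
  have : bQ K = Icc (-K) K ×ℂ Icc (-K) K := by
    ext z; simp [bQ, mem_reProdIm, abs_le]
  rw [this]; exact isCompact_Icc.reProdIm isCompact_Icc

theorem WC_ker {k : ℂ → ℝ} (hk : Continuous k) (hkc : HasCompactSupport k) :
    ∃ r Ck : ℝ, 0 ≤ r ∧ 0 ≤ Ck ∧ (∀ z, r < ‖z‖ → k z = 0) ∧ ∀ z, |k z| ≤ Ck := by
  obtain ⟨C, hC⟩ := hkc.exists_bound_of_continuous hk
  obtain ⟨r, hr⟩ := hkc.isCompact.isBounded.exists_norm_le
  refine ⟨|r|, |C|, abs_nonneg _, abs_nonneg _, fun z hz => ?_, fun z => (hC z).trans (le_abs_self _)⟩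
  by_contra h
  have := hr z (subset_tsupport _ h)
  have := le_abs_self r
  linarith

theorem WC_ker_int {k V : ℂ → ℝ} (hk : Continuous k) (hkc : HasCompactSupport k)
    (hV : LocallyIntegrable V volume) (z : ℂ) : Integrable fun w => k (z - w) * V w := by
  have h1 : Continuous fun w => k (z - w) := hk.comp (by fun_prop)
  have h2 : HasCompactSupport fun w => k (z - w) := by
    have := hkc.comp_homeomorph (Homeomorph.subLeft z)
    exact this
  exact hV.integrable_smul_left_of_hasCompactSupport h1 h2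

theorem WC_conv_bd {k V : ℂ → ℝ} {r Ck : ℝ} (hCk : 0 ≤ Ck)
    (hkr : ∀ z, r < ‖z‖ → k z = 0) (hkb : ∀ z, |k z| ≤ Ck) (hV : LocallyIntegrable V volume)
    {K : ℝ} {z : ℂ} (h1 : |z.re| + r ≤ K) (h2 : |z.im| + r ≤ K) :
    |WC_conv k V z| ≤ Ck * ∫ w in bQ K, |V w| := by
  have h0 : ∀ w, w ∉ bQ K → k (z - w) * V w = 0 := by
    intro w hw
    have : r < ‖z - w‖ := by
      simp only [bQ, mem_ofPred_eq, not_and_or, not_le] at hw
      rcases hw with h | h
      · have e1 := Complex.abs_re_le_norm (z - w)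
        have e2 := abs_sub_abs_le_abs_sub w.re z.re
        rw [Complex.sub_re, abs_sub_comm] at e1
        linarith
      · have e1 := Complex.abs_im_le_norm (z - w)
        have e2 := abs_sub_abs_le_abs_sub w.im z.im
        rw [Complex.sub_im, abs_sub_comm] at e1
        linarith
    rw [hkr _ this, zero_mul]
  have hi : IntegrableOn V (bQ K) := hV.integrableOn_isCompact (WC_bQ_compact K)
  unfold WC_conv
  rw [← setIntegral_eq_integral_of_forall_compl_eq_zero h0, ← integral_const_mul]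
  have h3 : ‖∫ w in bQ K, k (z - w) * V w‖ ≤ ∫ w in bQ K, Ck * |V w| := by
    refine norm_integral_le_of_norm_le (hi.abs.const_mul _) (Filter.Eventually.of_forall fun w => ?_)
    rw [norm_mul]
    exact mul_le_mul_of_nonneg_right (hkb _) (abs_nonneg _)
  exact h3

theorem WC_conv_sub {k V W : ℂ → ℝ} (hk : Continuous k) (hkc : HasCompactSupport k)
    (hV : LocallyIntegrable V volume) (hW : LocallyIntegrable W volume) (z : ℂ) :
    WC_conv k V z - WC_conv k W z = WC_conv k (fun w => V w - W w) z := by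
  unfold WC_conv
  rw [← integral_sub (WC_ker_int hk hkc hV z) (WC_ker_int hk hkc hW z)]
  congr 1
  funext w
  ring

theorem WC_conv_tendsto {k : ℂ → ℝ} (hk : Continuous k) (hkc : HasCompactSupport k)
    {V : ℕ → ℂ → ℝ} {W : ℂ → ℝ}
    (hV : ∀ n, LocallyIntegrable (V n) volume) (hW : LocallyIntegrable W volume)
    (hconv : ∀ K : ℝ, Tendsto (fun n => ∫ z in bQ K, |V n z - W z|) atTop (𝓝 0)) (z : ℂ) :
    Tendsto (fun n => WC_conv k (V n) z) atTop (𝓝 (WC_conv k W z)) := by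
  obtain ⟨r, Ck, hr, hCk, h1, h2⟩ := WC_ker hk hkc
  rw [tendsto_iff_dist_tendsto_zero]
  have h3 := (hconv (|z.re| + |z.im| + r)).const_mul Ck
  rw [mul_zero] at h3
  refine squeeze_zero (fun n => dist_nonneg) (fun n => ?_) h3
  rw [Real.dist_eq, WC_conv_sub hk hkc (hV n) hW z]
  exact WC_conv_bd hCk h1 h2 ((hV n).sub hW) (by have := abs_nonneg z.im; linarith)
    (by have := abs_nonneg z.re; linarith)

theorem WC_conv_unif {k : ℂ → ℝ} (hk : Continuous k) (hkc : HasCompactSupport k)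
    {V : ℕ → ℂ → ℝ} {W : ℂ → ℝ}
    (hV : ∀ n, LocallyIntegrable (V n) volume) (hW : LocallyIntegrable W volume)
    (hconv : ∀ K : ℝ, Tendsto (fun n => ∫ z in bQ K, |V n z - W z|) atTop (𝓝 0)) (N : ℝ) :
    ∃ M : ℝ, ∀ n, ∀ z ∈ box (-N) N, |WC_conv k (V n) z| ≤ M := by
  obtain ⟨r, Ck, hr, hCk, h1, h2⟩ := WC_ker hk hkc
  have hpi := Real.pi_pos
  set K : ℝ := |N| + 2 * Real.pi + r with hK
  obtain ⟨B, hB⟩ := (hconv K).bddAbove_range
  refine ⟨Ck * (B + ∫ w in bQ K, |W w|), fun n z hz => ?_⟩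
  have hz1 : |z.re| ≤ |N| := by
    have := hz.1
    rw [mem_Icc] at this
    have h := le_abs_self N
    rw [abs_le]; constructor <;> linarith
  have hz2 : |z.im| ≤ 2 * Real.pi := by
    have := hz.2
    rw [mem_Icc] at this
    rw [abs_le]; constructor <;> linarith
  have h3 := WC_conv_bd hCk h1 h2 (hV n) (K := K) (z := z) (by linarith)
    (by have := abs_nonneg N; linarith)
  refine h3.trans (mul_le_mul_of_nonneg_left ?_ hCk)
  have i1 : IntegrableOn (V n) (bQ K) := (hV n).integrableOn_isCompact (WC_bQ_compact K)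
  have i2 : IntegrableOn W (bQ K) := hW.integrableOn_isCompact (WC_bQ_compact K)
  have h4 : ∫ z in bQ K, |V n z - W z| ≤ B := hB ⟨n, rfl⟩
  have h5 : ∫ w in bQ K, |V n w| ≤ ∫ w in bQ K, (|V n w - W w| + |W w|) := by
    refine integral_mono i1.abs ((i1.sub i2).abs.add i2.abs) fun w => ?_
    show |V n w| ≤ |V n w - W w| + |W w|
    have := abs_add_le (V n w - W w) (W w)
    rwa [sub_add_cancel] at this
  have h6 : ∫ w in bQ K, (|V n w - W w| + |W w|) =
      (∫ w in bQ K, |V n w - W w|) + ∫ w in bQ K, |W w| :=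
    integral_add (i1.sub i2).abs i2.abs
  linarith

theorem WC_moll_dx {δ : ℝ} (hδ : 0 < δ) {V : ℂ → ℝ} (hV : LocallyIntegrable V volume) :
    dx (moll δ V) = WC_conv (dx (psid δ)) V := by
  obtain ⟨h1, h2, -⟩ := psid_props δ hδ
  funext z
  exact WC_conv_fderiv (by exact_mod_cast h1 1) h2 hV z 1

theorem WC_moll_dy {δ : ℝ} (hδ : 0 < δ) {V : ℂ → ℝ} (hV : LocallyIntegrable V volume) :
    dy (moll δ V) = WC_conv (dy (psid δ)) V := by
  obtain ⟨h1, h2, -⟩ := psid_props δ hδ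
  funext z
  exact WC_conv_fderiv (by exact_mod_cast h1 1) h2 hV z I

theorem WC_moll_dydx {δ : ℝ} (hδ : 0 < δ) {V : ℂ → ℝ} (hV : LocallyIntegrable V volume) :
    dy (dx (moll δ V)) = WC_conv (dy (dx (psid δ))) V := by
  obtain ⟨h1, h2, -⟩ := psid_props δ hδ
  rw [WC_moll_dx hδ hV]
  funext z
  exact WC_conv_fderiv (by exact_mod_cast WC_Sm_dx h1 1) (h2.fderiv_apply ℝ 1) hV z I

/-- TARGET 3: for fixed `δ`, `W(moll δ V)` is continuous in `V` with respect to `L¹_loc` convergence -/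
theorem W_cont (ρ : ℝ) (hρ : 0 < ρ) (φ χ : ℝ → ℝ) (hφ : Wt φ) (hχ : ContDiff ℝ 2 χ) (hχs : HasCompactSupport χ)
    (δ : ℝ) (hδ : 0 < δ) (V : ℕ → ℂ → ℝ) (W : ℂ → ℝ)
    (hV : ∀ n, LocallyIntegrable (V n) volume) (hW : LocallyIntegrable W volume)
    (hconv : ∀ K : ℝ, Tendsto (fun n => ∫ z in bQ K, |V n z - W z|) atTop (𝓝 0)) :
    Tendsto (fun n => Wsm ρ φ χ (moll δ (V n))) atTop (𝓝 (Wsm ρ φ χ (moll δ W))) := by
  obtain ⟨p1, p2, -⟩ := psid_props δ hδ
  have hSm : ∀ {U : ℂ → ℝ}, LocallyIntegrable U volume → WC_Sm (moll δ U) := fun hU n =>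
    moll_contDiff δ hδ _ hU n
  have cχ : Continuous χ := hχ.continuous
  obtain ⟨N0, hN0⟩ := hχs.isCompact.isBounded.exists_norm_le
  set N : ℝ := |N0| + 1 with hN
  have hNpos : 0 ≤ N := by positivity
  have hχN : ∀ x, N ≤ |x| → χ x = 0 := by
    intro x hx
    by_contra h
    have h1 := hN0 x (subset_tsupport _ h)
    rw [Real.norm_eq_abs] at h1
    have := le_abs_self N0
    linarith
  obtain ⟨Cχ, hCχ⟩ := hχs.exists_bound_of_continuous cχ
  obtain ⟨CL, hCL0, hCL1, -, -, hC3, hC4⟩ := wt_lip φ hφ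
  -- the four kernels
  have k0 : Continuous (psid δ) := (p1 0).continuous
  have kx : Continuous (dx (psid δ)) := WC_Sm_cont (WC_Sm_dx p1)
  have ky : Continuous (dy (psid δ)) := WC_Sm_cont (WC_Sm_dy p1)
  have kyx : Continuous (dy (dx (psid δ))) := WC_Sm_cont (WC_Sm_dy (WC_Sm_dx p1))
  have sx : HasCompactSupport (dx (psid δ)) := p2.fderiv_apply ℝ 1
  have sy : HasCompactSupport (dy (psid δ)) := p2.fderiv_apply ℝ I
  have syx : HasCompactSupport (dy (dx (psid δ))) := sx.fderiv_apply ℝ I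
  obtain ⟨My, hMy⟩ := WC_conv_unif ky sy hV hW hconv N
  obtain ⟨Myx, hMyx⟩ := WC_conv_unif kyx syx hV hW hconv N
  simp only [fun n => WC_W_eq (ρ := ρ) hφ cχ (hSm (hV n)) N hNpos hχN,
    WC_W_eq (ρ := ρ) hφ cχ (hSm hW) N hNpos hχN]
  refine tendsto_integral_of_dominated_convergence
    (fun _ => Cχ * ((ρ / 2) * CL + (My + Myx / ρ) * CL)) ?_ ?_ ?_ ?_
  · intro n
    exact (WC_cont_int hφ cχ (hSm (hV n))).aestronglyMeasurable
  · exact (WC_integrable continuous_const _ _)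
  · intro n
    rw [ae_restrict_iff' (WC_box_meas _ _)]
    refine Filter.Eventually.of_forall fun z hz => ?_
    have e1 : dy (aof ρ (moll δ (V n))) z = dy (moll δ (V n)) z + dy (dx (moll δ (V n))) z / ρ :=
      WC_fderiv_aof (hSm (hV n)) ρ z I
    have b1 : |dy (aof ρ (moll δ (V n))) z| ≤ My + Myx / ρ := by
      rw [e1, WC_moll_dy hδ (hV n), WC_moll_dydx hδ (hV n)]
      refine (abs_add_le _ _).trans (add_le_add (hMy n z hz) ?_)
      rw [abs_div, abs_of_pos hρ]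
      exact div_le_div_of_nonneg_right (hMyx n z hz) hρ.le
    have b2 := (hCL1 (aof ρ (moll δ (V n)) z) (bof ρ (moll δ (V n)) z)).1
    have b3 := (hCL1 (aof ρ (moll δ (V n)) z) (bof ρ (moll δ (V n)) z)).2
    unfold WC_int'
    rw [norm_mul, Real.norm_eq_abs, Real.norm_eq_abs]
    have b4 : |χ z.re| ≤ Cχ := hCχ _
    have b5 : |(ρ / 2) * Bf φ (aof ρ (moll δ (V n)) z ^ 2 + bof ρ (moll δ (V n)) z ^ 2)
      - dy (aof ρ (moll δ (V n))) z * Psif φ (aof ρ (moll δ (V n)) z) (bof ρ (moll δ (V n)) z)| ≤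
        (ρ / 2) * CL + (My + Myx / ρ) * CL := by
      refine (abs_sub _ _).trans (add_le_add ?_ ?_)
      · rw [abs_mul, abs_of_pos (by positivity)]
        gcongr
      · rw [abs_mul]
        have := (abs_nonneg _).trans b1
        gcongr
    have b6 := (abs_nonneg _).trans b4
    gcongr
  · refine Filter.Eventually.of_forall fun z => ?_
    have t0 := WC_conv_tendsto k0 p2 hV hW hconv z
    have tx := WC_conv_tendsto kx sx hV hW hconv z
    have ty := WC_conv_tendsto ky sy hV hW hconv z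
    have tyx := WC_conv_tendsto kyx syx hV hW hconv z
    have ta : Tendsto (fun n => aof ρ (moll δ (V n)) z) atTop (𝓝 (aof ρ (moll δ W) z)) := by
      unfold aof
      refine Tendsto.add t0 ?_
      rw [WC_moll_dx hδ hW]
      simp only [fun n => WC_moll_dx hδ (hV n)]
      exact tx.div_const ρ
    have tb : Tendsto (fun n => bof ρ (moll δ (V n)) z) atTop (𝓝 (bof ρ (moll δ W) z)) := by
      unfold bof
      rw [WC_moll_dy hδ hW]
      simp only [fun n => WC_moll_dy hδ (hV n)]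
      exact ty.div_const ρ
    have tay : Tendsto (fun n => dy (aof ρ (moll δ (V n))) z) atTop
        (𝓝 (dy (aof ρ (moll δ W)) z)) := by
      have e : ∀ {U : ℂ → ℝ}, LocallyIntegrable U volume → dy (aof ρ (moll δ U)) z =
          WC_conv (dy (psid δ)) U z + WC_conv (dy (dx (psid δ))) U z / ρ := by
        intro U hU
        rw [← WC_moll_dy hδ hU, ← WC_moll_dydx hδ hU]
        exact WC_fderiv_aof (hSm hU) ρ z I
      rw [e hW]
      simp only [fun n => e (hV n)]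
      exact ty.add (tyx.div_const ρ)
    have tB := (hC4.continuous.tendsto (aof ρ (moll δ W) z, bof ρ (moll δ W) z)).comp
      (ta.prodMk_nhds tb)
    have tP := (hC3.continuous.tendsto (aof ρ (moll δ W) z, bof ρ (moll δ W) z)).comp
      (ta.prodMk_nhds tb)
    exact ((tB.const_mul (ρ / 2)).sub (tay.mul tP)).const_mul (χ z.re)

end M_WC
end Pool.Agent.Helper758.LS
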