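import Mathlib
import Pool.Agent.Helper758.LSDefs
import Pool.Agent.Helper758.LSDefs2

namespace Pool.Agent.Helper758.LS
open MeasureTheory Filter Topology Set Complex

namespace M_S1




/-! ### auxiliary lemmas -/

theorem s1_hasDerivAt_dx {G : ℂ → ℝ} (hd : Differentiable ℝ G) (x y : ℝ) :
    HasDerivAt (fun x : ℝ => G (x + y * I)) (dx G (x + y * I)) x := by
  have h1 : HasDerivAt (fun x : ℝ => ((x : ℂ) + y * I)) 1 x := by
    have := (Complex.ofRealCLM.hasDerivAt (x := x)).add_const ((y : ℂ) * I)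
    simpa using this
  exact (hd _).hasFDerivAt.comp_hasDerivAt x h1

theorem s1_hasDerivAt_dy {G : ℂ → ℝ} (hd : Differentiable ℝ G) (x y : ℝ) :
    HasDerivAt (fun y : ℝ => G (x + y * I)) (dy G (x + y * I)) y := by
  have h1 : HasDerivAt (fun y : ℝ => ((x : ℂ) + y * I)) I y := by
    have := ((Complex.ofRealCLM.hasDerivAt (x := y)).mul_const I).const_add (x : ℂ)
    simpa using this
  exact (hd _).hasFDerivAt.comp_hasDerivAt y h1

/-- double integral -/
noncomputable def II (g : ℂ → ℝ) : ℝ := ∫ x : ℝ, ∫ y in (0 : ℝ)..(2 * Real.pi), g (x + y * I)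

theorem s1_cont_line : Continuous (fun p : ℝ × ℝ => ((p.1 : ℂ) + p.2 * I)) := by fun_prop

theorem s1_int_dy {G : ℂ → ℝ} (hd : Differentiable ℝ G) (hc : Continuous (dy G))
    (hper : ∀ z : ℂ, G (z + 2 * Real.pi * I) = G z) : II (dy G) = 0 := by
  unfold II
  have : ∀ x : ℝ, ∫ y in (0 : ℝ)..(2 * Real.pi), dy G (x + y * I) = 0 := by
    intro x
    rw [intervalIntegral.integral_eq_sub_of_hasDerivAt (fun y _ => s1_hasDerivAt_dy hd x y)]
    · have h := hper (x + ((0 : ℝ) : ℂ) * I)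
      rw [← h]
      rw [sub_eq_zero]
      congr 1
      push_cast
      ring
    · exact (hc.comp (s1_cont_line.comp (by fun_prop : Continuous fun y : ℝ => (x, y)))).intervalIntegrable _ _
  simp [this]

theorem s1_fderiv_zero {G : ℂ → ℝ} {R : ℝ} (h0 : ∀ z : ℂ, R < |z.re| → G z = 0) (z : ℂ)
    (hz : R < |z.re|) : fderiv ℝ G z = 0 := by
  have hopen : IsOpen {z : ℂ | R < |z.re|} := isOpen_lt continuous_const (by fun_prop)
  have : G =ᶠ[𝓝 z] fun _ => (0 : ℝ) := by
    filter_upwards [hopen.mem_nhds hz] with w hw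
    exact h0 w hw
  rw [this.fderiv_eq]
  simp

theorem s1_int_dx {G : ℂ → ℝ} (hd : Differentiable ℝ G) (hc : Continuous (dx G)) (R : ℝ)
    (hR : 0 < R) (h0 : ∀ z : ℂ, R < |z.re| → G z = 0) : II (dx G) = 0 := by
  unfold II
  set R' := R + 1 with hR'
  have hz : ∀ z : ℂ, R < |z.re| → dx G z = 0 := by
    intro z hz
    simp [dx, s1_fderiv_zero h0 z hz]
  rw [← intervalIntegral.integral_eq_integral_of_support_subset (a := -R') (b := R')]
  · rw [intervalIntegral.integral_of_le (by linarith)]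
    have hpi : (0 : ℝ) ≤ 2 * Real.pi := by positivity
    simp_rw [intervalIntegral.integral_of_le hpi]
    rw [integral_integral_swap]
    · have : ∀ y : ℝ, ∫ x in Ioc (-R') R', dx G (x + y * I) = 0 := by
        intro y
        rw [← intervalIntegral.integral_of_le (by linarith)]
        rw [intervalIntegral.integral_eq_sub_of_hasDerivAt (fun x _ => s1_hasDerivAt_dx hd x y)]
        · rw [h0, h0, sub_zero]
          · simp only [add_re, ofReal_re, mul_re, I_re, mul_zero, ofReal_im, I_im, mul_one, sub_self,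
              add_zero]
            rw [abs_neg, abs_of_pos (by linarith)]; linarith
          · simp only [add_re, ofReal_re, mul_re, I_re, mul_zero, ofReal_im, I_im, mul_one, sub_self,
              add_zero]
            rw [abs_of_pos (by linarith)]; linarith
        · exact (hc.comp (s1_cont_line.comp (by fun_prop : Continuous fun x : ℝ => (x, y)))).intervalIntegrable _ _
      simp [this]
    · have h1 : IntegrableOn (fun p : ℝ × ℝ => dx G (p.1 + p.2 * I)) (Icc (-R') R' ×ˢ Icc 0 (2 * Real.pi))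
          (volume.prod volume) :=
        (hc.comp s1_cont_line).continuousOn.integrableOn_compact (isCompact_Icc.prod isCompact_Icc)
      have h2 := h1.mono_set (Set.prod_mono (Ioc_subset_Icc_self (a := -R') (b := R'))
        (Ioc_subset_Icc_self (a := (0 : ℝ)) (b := 2 * Real.pi)))
      rw [IntegrableOn, ← Measure.prod_restrict] at h2
      exact h2
  · intro x hx
    by_contra hcon
    apply hx
    have hxR : R < |x| := by
      by_contra hle
      push Not at hle
      rw [abs_le] at hle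
      apply hcon
      constructor <;> linarith [hle.1, hle.2]
    have : ∀ y : ℝ, dx G (x + y * I) = 0 := fun y => hz _ (by simpa using hxR)
    simp [this]

/-- continuous functions vanishing for `R < |re z|` -/
def OkF (R : ℝ) (g : ℂ → ℝ) : Prop := Continuous g ∧ ∀ z : ℂ, R < |z.re| → g z = 0

theorem s1_integrable {R : ℝ} {g : ℂ → ℝ} (hg : OkF R g) :
    Integrable (fun x : ℝ => ∫ y in (0 : ℝ)..(2 * Real.pi), g (x + y * I)) := by
  apply Continuous.integrable_of_hasCompactSupport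
  · apply intervalIntegral.continuous_parametric_intervalIntegral_of_continuous'
    exact hg.1.comp s1_cont_line
  · apply HasCompactSupport.intro (K := Icc (-R) R) isCompact_Icc
    intro x hx
    have hxR : R < |x| := by
      by_contra hle
      push Not at hle
      rw [abs_le] at hle
      exact hx ⟨hle.1, hle.2⟩
    have : ∀ y : ℝ, g (x + y * I) = 0 := fun y => hg.2 _ (by simpa using hxR)
    simp [this]

theorem s1_II_add {R : ℝ} {g h : ℂ → ℝ} (hg : OkF R g) (hh : OkF R h) :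
    II (fun z => g z + h z) = II g + II h := by
  unfold II
  rw [← integral_add (s1_integrable hg) (s1_integrable hh)]
  congr 1
  ext x
  rw [intervalIntegral.integral_add]
  · exact (hg.1.comp (s1_cont_line.comp (by fun_prop : Continuous fun y : ℝ => (x, y)))).intervalIntegrable _ _
  · exact (hh.1.comp (s1_cont_line.comp (by fun_prop : Continuous fun y : ℝ => (x, y)))).intervalIntegrable _ _

theorem s1_II_sub {R : ℝ} {g h : ℂ → ℝ} (hg : OkF R g) (hh : OkF R h) :
    II (fun z => g z - h z) = II g - II h := by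
  unfold II
  rw [← integral_sub (s1_integrable hg) (s1_integrable hh)]
  congr 1
  ext x
  rw [intervalIntegral.integral_sub]
  · exact (hg.1.comp (s1_cont_line.comp (by fun_prop : Continuous fun y : ℝ => (x, y)))).intervalIntegrable _ _
  · exact (hh.1.comp (s1_cont_line.comp (by fun_prop : Continuous fun y : ℝ => (x, y)))).intervalIntegrable _ _

theorem OkF.add {R : ℝ} {g h : ℂ → ℝ} (hg : OkF R g) (hh : OkF R h) : OkF R (fun z => g z + h z) :=
  ⟨hg.1.add hh.1, fun z hz => by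
    show g z + h z = 0
    rw [hg.2 z hz, hh.2 z hz, add_zero]⟩

noncomputable def Ps1 (φ : ℝ → ℝ) (a b : ℝ) : ℝ :=
  ∫ β in (0 : ℝ)..b, deriv φ (a ^ 2 + β ^ 2) * (2 * a)

theorem s1_cont_Ps1 {φ : ℝ → ℝ} (hφ : ContDiff ℝ 1 φ) :
    Continuous (fun p : ℝ × ℝ => Ps1 φ p.1 p.2) := by
  have hd : Continuous (deriv φ) := hφ.continuous_deriv le_rfl
  exact intervalIntegral.continuous_parametric_intervalIntegral_of_continuous
    (f := fun (p : ℝ × ℝ) (β : ℝ) => deriv φ (p.1 ^ 2 + β ^ 2) * (2 * p.1)) (by fun_prop) continuous_snd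

theorem s1_Bf {φ : ℝ → ℝ} (hφ : ContDiff ℝ 1 φ) (s : ℝ) : HasDerivAt (Bf φ) (φ s) s :=
  intervalIntegral.integral_hasDerivAt_right (hφ.continuous.intervalIntegrable _ _)
    (hφ.continuous.stronglyMeasurableAtFilter _ _) hφ.continuous.continuousAt

theorem s1_Psif_b {φ : ℝ → ℝ} (hφ : ContDiff ℝ 1 φ) (a b : ℝ) :
    HasDerivAt (fun b => Psif φ a b) (φ (a ^ 2 + b ^ 2)) b := by
  have hc : Continuous fun β : ℝ => φ (a ^ 2 + β ^ 2) := hφ.continuous.comp (by fun_prop)
  exact intervalIntegral.integral_hasDerivAt_right (hc.intervalIntegrable _ _)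
    (hc.stronglyMeasurableAtFilter _ _) hc.continuousAt

theorem s1_Psif_a {φ : ℝ → ℝ} (hφ : ContDiff ℝ 1 φ) (a b : ℝ) :
    HasDerivAt (fun a => Psif φ a b) (Ps1 φ a b) a := by
  have hd : Continuous (deriv φ) := hφ.continuous_deriv le_rfl
  have hc2 : Continuous fun p : ℝ × ℝ => deriv φ (p.1 ^ 2 + p.2 ^ 2) * (2 * p.1) := by fun_prop
  obtain ⟨M, hM⟩ := (isCompact_closedBall a 1 |>.prod (isCompact_uIcc (a := (0:ℝ)) (b := b))).exists_bound_of_continuousOn
    hc2.continuousOn
  refine (intervalIntegral.hasDerivAt_integral_of_dominated_loc_of_deriv_le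
    (F := fun a β => φ (a ^ 2 + β ^ 2)) (F' := fun a β => deriv φ (a ^ 2 + β ^ 2) * (2 * a))
    (bound := fun _ => M) (Metric.closedBall_mem_nhds a one_pos) ?_ ?_ ?_ ?_ ?_ ?_).2
  · refine Eventually.of_forall fun x => ?_
    exact (hφ.continuous.comp (by fun_prop : Continuous fun β : ℝ => x ^ 2 + β ^ 2)).aestronglyMeasurable
  · exact (hφ.continuous.comp (by fun_prop : Continuous fun β : ℝ => a ^ 2 + β ^ 2)).intervalIntegrable _ _
  · exact (by fun_prop : Continuous fun β : ℝ => deriv φ (a ^ 2 + β ^ 2) * (2 * a)).aestronglyMeasurable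
  · refine Eventually.of_forall fun β hβ x hx => ?_
    exact hM (x, β) ⟨hx, uIoc_subset_uIcc hβ⟩
  · exact intervalIntegrable_const
  · refine Eventually.of_forall fun β hβ x hx => ?_
    have h1 : HasDerivAt φ (deriv φ (x ^ 2 + β ^ 2)) (x ^ 2 + β ^ 2) :=
      (hφ.differentiable one_ne_zero _).hasDerivAt
    have h2 : HasDerivAt (fun x : ℝ => x ^ 2 + β ^ 2) (2 * x) x := by
      simpa using (hasDerivAt_pow 2 x).add_const (β ^ 2)
    exact h1.comp x h2

theorem s1_Psif {φ : ℝ → ℝ} (hφ : ContDiff ℝ 1 φ) (a b : ℝ) :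
    ∃ L : ℝ × ℝ →L[ℝ] ℝ, HasFDerivAt (fun p : ℝ × ℝ => Psif φ p.1 p.2) L (a, b) ∧
      ∀ p, L p = Ps1 φ a b * p.1 + φ (a ^ 2 + b ^ 2) * p.2 := by
  have h := hasStrictFDerivAt_uncurry_coprod (𝕜 := ℝ) (u := (a, b)) (f := Psif φ)
    (f₁ := fun a b => ContinuousLinearMap.toSpanSingleton ℝ (Ps1 φ a b))
    (f₂ := fun a b => ContinuousLinearMap.toSpanSingleton ℝ (φ (a ^ 2 + b ^ 2)))
    (Eventually.of_forall fun v => (s1_Psif_a hφ v.1 v.2).hasFDerivAt)
    (Eventually.of_forall fun v => (s1_Psif_b hφ v.1 v.2).hasFDerivAt)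
    ?_ ?_
  · refine ⟨_, h.hasFDerivAt, fun p => ?_⟩
    simp [ContinuousLinearMap.coprod_apply, mul_comm, Function.HasUncurry.uncurry]
  · exact ((ContinuousLinearMap.toSpanSingletonLIE ℝ ℝ).continuous.comp (s1_cont_Ps1 hφ)).continuousAt
  · have hc : Continuous fun p : ℝ × ℝ => φ (p.1 ^ 2 + p.2 ^ 2) := hφ.continuous.comp (by fun_prop)
    exact ((ContinuousLinearMap.toSpanSingletonLIE ℝ ℝ).continuous.comp hc).continuousAt

theorem s1_comm {g : ℂ → ℝ} (hg : ContDiff ℝ 2 g) (z : ℂ) : dx (dy g) z = dy (dx g) z := by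
  have h1 : Differentiable ℝ (fderiv ℝ g) := (hg.fderiv_right (m := 1) (by norm_num)).differentiable one_ne_zero
  have hs : IsSymmSndFDerivAt ℝ g z := hg.contDiffAt.isSymmSndFDerivAt (by simp)
  have e1 : ∀ v w : ℂ, fderiv ℝ (fun z => fderiv ℝ g z v) z w = fderiv ℝ (fderiv ℝ g) z w v := by
    intro v w
    rw [fderiv_clm_apply (h1 z) (differentiableAt_const v)]
    simp
  show fderiv ℝ (fun z => fderiv ℝ g z I) z 1 = fderiv ℝ (fun z => fderiv ℝ g z 1) z I
  rw [e1, e1]
  exact hs.eq 1 I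

/-- TARGET: the exact identity `W_{X'}(u) = D_X(u) - K_X(u)` for smooth `2π`-periodic `u`. -/
theorem star_identity (ρ : ℝ) (hρ : 0 < ρ) (φ X : ℝ → ℝ) (hφ : Wt φ) (hX : ContDiff ℝ 2 X)
    (hXs : HasCompactSupport X) (u : ℂ → ℝ) (hu : ContDiff ℝ 5 u)
    (hper : ∀ z : ℂ, u (z + 2 * Real.pi * I) = u z) :
    Wsm ρ φ (deriv X) u = Dsm ρ φ X u - Ksm ρ φ X u := by
  have hφ1 := hφ.smooth
  have hdxu : ContDiff ℝ 4 (dx u) := (hu.fderiv_right (m := 4) (by norm_num)).clm_apply contDiff_const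
  have hdyu : ContDiff ℝ 4 (dy u) := (hu.fderiv_right (m := 4) (by norm_num)).clm_apply contDiff_const
  have hac : ContDiff ℝ 4 (aof ρ u) := (hu.of_le (by norm_num)).add (hdxu.div_const ρ)
  have hbc : ContDiff ℝ 4 (bof ρ u) := hdyu.div_const ρ
  have hax : ContDiff ℝ 3 (dx (aof ρ u)) := (hac.fderiv_right (m := 3) (by norm_num)).clm_apply contDiff_const
  have hay : ContDiff ℝ 3 (dy (aof ρ u)) := (hac.fderiv_right (m := 3) (by norm_num)).clm_apply contDiff_const
  have hbx : ContDiff ℝ 3 (dx (bof ρ u)) := (hbc.fderiv_right (m := 3) (by norm_num)).clm_apply contDiff_const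
  have hby : ContDiff ℝ 3 (dy (bof ρ u)) := (hbc.fderiv_right (m := 3) (by norm_num)).clm_apply contDiff_const
  have hayx : ContDiff ℝ 2 (dx (dy (aof ρ u))) := (hay.fderiv_right (m := 2) (by norm_num)).clm_apply contDiff_const
  have hL : Continuous (Lop ρ u) := by
    have h1 : Continuous (dx (dx u)) := ((hdxu.fderiv_right (m := 3) (by norm_num)).clm_apply contDiff_const).continuous
    have h2 : Continuous (dy (dy u)) := ((hdyu.fderiv_right (m := 3) (by norm_num)).clm_apply contDiff_const).continuous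
    have h3 := hdxu.continuous
    have h4 := hu.continuous
    unfold Lop
    fun_prop
  have hdu : Differentiable ℝ u := hu.differentiable (by norm_num)
  have hddxu : Differentiable ℝ (dx u) := hdxu.differentiable (by norm_num)
  have hddyu : Differentiable ℝ (dy u) := hdyu.differentiable (by norm_num)
  have hda : Differentiable ℝ (aof ρ u) := hac.differentiable (by norm_num)
  have hdb : Differentiable ℝ (bof ρ u) := hbc.differentiable (by norm_num)
  have hdax : Differentiable ℝ (dx (aof ρ u)) := hax.differentiable (by norm_num)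
  have hday : Differentiable ℝ (dy (aof ρ u)) := hay.differentiable (by norm_num)
  have hρ0 : ρ ≠ 0 := hρ.ne'
  -- identities (1), (2)
  have fa : ∀ z v, fderiv ℝ (aof ρ u) z v = fderiv ℝ u z v + fderiv ℝ (dx u) z v / ρ := by
    intro z v
    have h := ((hdu z).hasFDerivAt.add ((hddxu z).hasFDerivAt.mul_const ρ⁻¹))
    have h' : HasFDerivAt (aof ρ u) (fderiv ℝ u z + ρ⁻¹ • fderiv ℝ (dx u) z) z := by
      refine h.congr_of_eventuallyEq (Eventually.of_forall fun w => ?_)
      simp [aof, div_eq_mul_inv]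
    rw [h'.fderiv]
    simp [div_eq_inv_mul]
  have fb : ∀ z v, fderiv ℝ (bof ρ u) z v = fderiv ℝ (dy u) z v / ρ := by
    intro z v
    have h := ((hddyu z).hasFDerivAt.mul_const ρ⁻¹)
    have h' : HasFDerivAt (bof ρ u) (ρ⁻¹ • fderiv ℝ (dy u) z) z := by
      refine h.congr_of_eventuallyEq (Eventually.of_forall fun w => ?_)
      simp [bof, div_eq_mul_inv]
    rw [h'.fderiv]
    simp [div_eq_inv_mul]
  have id1 : ∀ z, dy (aof ρ u) z = ρ * bof ρ u z + dx (bof ρ u) z := by
    intro z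
    have h1 := s1_comm (hu.of_le (by norm_num : (2 : WithTop ℕ∞) ≤ 5)) z
    show fderiv ℝ (aof ρ u) z I = _ + fderiv ℝ (bof ρ u) z 1
    rw [fa, fb]
    show dy u z + dy (dx u) z / ρ = ρ * (dy u z / ρ) + dx (dy u) z / ρ
    rw [h1]
    field_simp
  have id2 : ∀ z, dy (bof ρ u) z = Lop ρ u z / ρ - dx (aof ρ u) z - ρ * aof ρ u z := by
    intro z
    show fderiv ℝ (bof ρ u) z I = _ / ρ - fderiv ℝ (aof ρ u) z 1 - _
    rw [fa, fb]
    show dy (dy u) z / ρ = Lop ρ u z / ρ - (dx u z + dx (dx u) z / ρ) - ρ * (u z + dx u z / ρ)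
    unfold Lop
    field_simp
    ring
  have id3 : ∀ z, dx (dy (aof ρ u)) z = dy (dx (aof ρ u)) z := fun z =>
    s1_comm (hac.of_le (by norm_num)) z
  -- composite functions
  have hXd : Differentiable ℝ X := hX.differentiable (by norm_num)
  have hXre : ∀ z : ℂ, HasFDerivAt (fun z : ℂ => X z.re) (deriv X z.re • Complex.reCLM) z := by
    intro z
    exact (hXd z.re).hasDerivAt.comp_hasFDerivAt z Complex.reCLM.hasFDerivAt
  have hB : ∀ z : ℂ, HasFDerivAt (fun z : ℂ => Bf φ (aof ρ u z ^ 2 + bof ρ u z ^ 2))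
      (φ (aof ρ u z ^ 2 + bof ρ u z ^ 2) • ((2 * aof ρ u z) • fderiv ℝ (aof ρ u) z
        + (2 * bof ρ u z) • fderiv ℝ (bof ρ u) z)) z := by
    intro z
    have h1 : HasFDerivAt (fun z => aof ρ u z ^ 2 + bof ρ u z ^ 2)
        ((2 * aof ρ u z) • fderiv ℝ (aof ρ u) z + (2 * bof ρ u z) • fderiv ℝ (bof ρ u) z) z := by
      have := ((hda z).hasFDerivAt.pow 2).add ((hdb z).hasFDerivAt.pow 2)
      show HasFDerivAt ((fun x => aof ρ u x ^ 2) + fun x => bof ρ u x ^ 2) _ z
      simpa using this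
    exact (s1_Bf hφ1 _).comp_hasFDerivAt z h1
  have hP : ∀ z : ℂ, ∃ L : ℂ →L[ℝ] ℝ, HasFDerivAt (fun z : ℂ => Psif φ (aof ρ u z) (bof ρ u z)) L z ∧
      ∀ v, L v = Ps1 φ (aof ρ u z) (bof ρ u z) * fderiv ℝ (aof ρ u) z v +
        φ (aof ρ u z ^ 2 + bof ρ u z ^ 2) * fderiv ℝ (bof ρ u) z v := by
    intro z
    obtain ⟨L, hL, hLv⟩ := s1_Psif hφ1 (aof ρ u z) (bof ρ u z)
    have h1 := (hda z).hasFDerivAt.prodMk (hdb z).hasFDerivAt
    have h2 : HasFDerivAt (fun z : ℂ => Psif φ (aof ρ u z) (bof ρ u z))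
      (L.comp ((fderiv ℝ (aof ρ u) z).prod (fderiv ℝ (bof ρ u) z))) z :=
        HasFDerivAt.comp (g := fun p : ℝ × ℝ => Psif φ p.1 p.2) z hL h1
    refine ⟨_, h2, fun v => ?_⟩
    simp [hLv]
  choose P' hP' hP'v using hP
  set G1 : ℂ → ℝ := fun z => X z.re * ((ρ / 2) * Bf φ (aof ρ u z ^ 2 + bof ρ u z ^ 2)
      - dy (aof ρ u) z * Psif φ (aof ρ u z) (bof ρ u z)) with hG1
  set G2 : ℂ → ℝ := fun z => X z.re * (dx (aof ρ u) z * Psif φ (aof ρ u z) (bof ρ u z)) with hG2
  have hG1d : ∀ z, HasFDerivAt G1 _ z := fun z =>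
    (hXre z).mul (((hB z).const_mul (ρ / 2)).sub ((hday z).hasFDerivAt.mul (hP' z)))
  have hG2d : ∀ z, HasFDerivAt G2 _ z := fun z =>
    (hXre z).mul ((hdax z).hasFDerivAt.mul (hP' z))
  have eG1 : ∀ z, dx G1 z = deriv X z.re * ((ρ / 2) * Bf φ (aof ρ u z ^ 2 + bof ρ u z ^ 2)
      - dy (aof ρ u) z * Psif φ (aof ρ u z) (bof ρ u z)) + X z.re * ((ρ / 2) *
        (φ (aof ρ u z ^ 2 + bof ρ u z ^ 2) * (2 * aof ρ u z * dx (aof ρ u) z
          + 2 * bof ρ u z * dx (bof ρ u) z)) - (dx (dy (aof ρ u)) z * Psif φ (aof ρ u z) (bof ρ u z)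
          + dy (aof ρ u) z * (Ps1 φ (aof ρ u z) (bof ρ u z) * dx (aof ρ u) z +
            φ (aof ρ u z ^ 2 + bof ρ u z ^ 2) * dx (bof ρ u) z))) := by
    intro z
    show fderiv ℝ G1 z 1 = _
    rw [(hG1d z).fderiv]
    simp only [ContinuousLinearMap.add_apply, ContinuousLinearMap.sub_apply,
      ContinuousLinearMap.smul_apply, smul_eq_mul, hP'v, Complex.reCLM_apply, Complex.one_re, dx]
    ring
  have eG2 : ∀ z, dy G2 z = X z.re * (dy (dx (aof ρ u)) z * Psif φ (aof ρ u z) (bof ρ u z)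
          + dx (aof ρ u) z * (Ps1 φ (aof ρ u z) (bof ρ u z) * dy (aof ρ u) z +
            φ (aof ρ u z ^ 2 + bof ρ u z ^ 2) * dy (bof ρ u) z)) := by
    intro z
    show fderiv ℝ G2 z I = _
    rw [(hG2d z).fderiv]
    simp only [ContinuousLinearMap.add_apply, ContinuousLinearMap.sub_apply,
      ContinuousLinearMap.smul_apply, smul_eq_mul, hP'v, Complex.reCLM_apply, Complex.I_re, dy]
    ring
  -- support
  obtain ⟨R, hR, hXR⟩ : ∃ R : ℝ, 0 < R ∧ ∀ x, R < |x| → X x = 0 := by
    obtain ⟨R, hR⟩ := hXs.isBounded.subset_closedBall 0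
    refine ⟨max R 1, by positivity, fun x hx => ?_⟩
    by_contra hne
    have := hR (subset_tsupport X hne)
    rw [mem_closedBall_zero_iff, Real.norm_eq_abs] at this
    have h2 := le_max_left R 1
    linarith
  have hXR' : ∀ x, R < |x| → deriv X x = 0 := by
    intro x hx
    have : X =ᶠ[𝓝 x] fun _ => (0 : ℝ) := by
      filter_upwards [(isOpen_lt continuous_const continuous_abs).mem_nhds hx] with w hw
      exact hXR w hw
    rw [this.deriv_eq]
    simp
  -- continuity facts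
  have cX' : Continuous (deriv X) := hX.continuous_deriv (by norm_num)
  have cX : Continuous X := hX.continuous
  have ca := hac.continuous
  have cb := hbc.continuous
  have cax := hax.continuous
  have cay := hay.continuous
  have cbx := hbx.continuous
  have cby := hby.continuous
  have cayx := hayx.continuous
  have caxy : Continuous (dy (dx (aof ρ u))) := by
    have : dy (dx (aof ρ u)) = dx (dy (aof ρ u)) := funext fun z => (id3 z).symm
    rw [this]; exact cayx
  have cφ : Continuous φ := hφ1.continuous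
  have cB : Continuous (fun z : ℂ => Bf φ (aof ρ u z ^ 2 + bof ρ u z ^ 2)) :=
    continuous_iff_continuousAt.2 fun z => (hB z).continuousAt
  have cP : Continuous (fun z : ℂ => Psif φ (aof ρ u z) (bof ρ u z)) :=
    continuous_iff_continuousAt.2 fun z => (hP' z).continuousAt
  have cP1 : Continuous (fun z : ℂ => Ps1 φ (aof ρ u z) (bof ρ u z)) :=
    (s1_cont_Ps1 hφ1).comp (ca.prodMk cb)
  have cphi : Continuous (fun z : ℂ => φ (aof ρ u z ^ 2 + bof ρ u z ^ 2)) :=
    cφ.comp (by fun_prop)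
  have cXre : Continuous (fun z : ℂ => X z.re) := cX.comp Complex.continuous_re
  have cXre' : Continuous (fun z : ℂ => deriv X z.re) := cX'.comp Complex.continuous_re
  have cG1 : Continuous (dx G1) := by
    rw [funext eG1]
    fun_prop
  have cG2 : Continuous (dy G2) := by
    rw [funext eG2]
    fun_prop
  have zG1 : ∀ z : ℂ, R < |z.re| → G1 z = 0 := fun z hz => by
    simp only [hG1, hXR _ hz, zero_mul]
  have zG2 : ∀ z : ℂ, R < |z.re| → G2 z = 0 := fun z hz => by
    simp only [hG2, hXR _ hz, zero_mul]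
  have I1 : II (dx G1) = 0 := s1_int_dx (fun z => (hG1d z).differentiableAt) cG1 R hR zG1
  -- periodicity
  have pf : ∀ (g : ℂ → ℝ), (∀ z : ℂ, g (z + 2 * Real.pi * I) = g z) → ∀ z : ℂ,
      fderiv ℝ g (z + 2 * Real.pi * I) = fderiv ℝ g z := by
    intro g hg z
    have : (fun z : ℂ => g (z + 2 * Real.pi * I)) = g := funext hg
    rw [← fderiv_comp_add_right (f := g) (2 * Real.pi * I : ℂ), this]
  have pa : ∀ z : ℂ, aof ρ u (z + 2 * Real.pi * I) = aof ρ u z := by
    intro z
    simp only [aof, dx, hper, pf u hper z]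
  have pb : ∀ z : ℂ, bof ρ u (z + 2 * Real.pi * I) = bof ρ u z := by
    intro z
    simp only [bof, dy, pf u hper z]
  have pG2 : ∀ z : ℂ, G2 (z + 2 * Real.pi * I) = G2 z := by
    intro z
    have hre : (z + 2 * Real.pi * I).re = z.re := by simp
    have hax' : dx (aof ρ u) (z + 2 * Real.pi * I) = dx (aof ρ u) z := by
      simp only [dx, pf _ pa z]
    simp only [hG2, pa, pb, hre, hax']
  have I2 : II (dy G2) = 0 := s1_int_dy (fun z => (hG2d z).differentiableAt) cG2 pG2
  -- the three integrands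
  set Wi : ℂ → ℝ := fun z => deriv X z.re * ((ρ / 2) * Bf φ (aof ρ u z ^ 2 + bof ρ u z ^ 2)
      - dy (aof ρ u) z * Psif φ (aof ρ u z) (bof ρ u z)) with hWi
  set Di : ℂ → ℝ := fun z => X z.re * (φ (aof ρ u z ^ 2 + bof ρ u z ^ 2)
      * (dx (aof ρ u) z ^ 2 + dx (bof ρ u) z ^ 2)) with hDi
  set Ki : ℂ → ℝ := fun z => X z.re * (φ (aof ρ u z ^ 2 + bof ρ u z ^ 2)
      * dx (aof ρ u) z * Lop ρ u z / ρ) with hKi
  have key : ∀ z, Wi z = (dx G1 z + dy G2 z) + (Di z - Ki z) := by
    intro z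
    have h2 := id2 z
    have h1 := id1 z
    simp only [hWi, hDi, hKi, eG1, eG2, id3]
    rw [h1, h2]
    ring
  have oG1 : OkF R (dx G1) := ⟨cG1, fun z hz => by simp [dx, s1_fderiv_zero zG1 z hz]⟩
  have oG2 : OkF R (dy G2) := ⟨cG2, fun z hz => by simp [dy, s1_fderiv_zero zG2 z hz]⟩
  have oD : OkF R Di := ⟨by fun_prop, fun z hz => by simp only [hDi, hXR _ hz, zero_mul]⟩
  have oK : OkF R Ki := ⟨by fun_prop, fun z hz => by simp only [hKi, hXR _ hz, zero_mul]⟩
  have oDK : OkF R (fun z => Di z - Ki z) := ⟨oD.1.sub oK.1, fun z hz => by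
    show Di z - Ki z = 0
    rw [oD.2 z hz, oK.2 z hz, sub_zero]⟩
  have hII : II Wi = II Di - II Ki := by
    rw [funext key, s1_II_add (oG1.add oG2) oDK, s1_II_add oG1 oG2, s1_II_sub oD oK, I1, I2]
    ring
  have r1 : ∀ x y : ℝ, ((x : ℂ) + y * I).re = x := by intro x y; simp
  have eW : Wsm ρ φ (deriv X) u = II Wi := by
    simp only [Wsm, II, hWi, r1]
  have eD : Dsm ρ φ X u = II Di := by
    simp only [Dsm, II, hDi, r1]
  have eK : Ksm ρ φ X u = II Ki := by
    simp only [Ksm, II, hKi, r1]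
  rw [eW, eD, eK, hII]

end M_S1
end Pool.Agent.Helper758.LS
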