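import Mathlib
import Pool.Agent.Helper758.LSDefs
import Pool.Agent.Helper758.LSDefs2
import Pool.Agent.Helper758.LS_B1
import Pool.Agent.Helper758.LS_B2
import Pool.Agent.Helper758.LS_B4
import Pool.Agent.Helper758.LS_B6
import Pool.Agent.Helper758.LS_MOL
import Pool.Agent.Helper758.LS_S1
import Pool.Agent.Helper758.LS_WC

namespace Pool.Agent.Helper758.LS
open MeasureTheory Filter Topology Set Complex
open M_B1 (moll_bdd moll_per moll_upper)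
open M_B2 (grad_bdd)
open M_B4 (dx_bdd)
open M_B6 (cross_zero)
open M_MOL (dx_moll_smooth dy_moll_smooth moll_add_const moll_comm moll_contDiff moll_l1 moll_symm moll_tendsto_l1 psid_props)
open M_S1 (star_identity)
open M_WC (W_cauchy W_cont wt_lip)
namespace M_WM

































/-! TARGETS (all six below) -/

theorem dx_shift9931 (u : ℂ → ℝ) (s z : ℂ) : dx (fun w => u (w + s)) z = dx u (z + s) := by
  unfold dx
  rw [fderiv_comp_add_right]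

theorem dy_shift9931 (u : ℂ → ℝ) (s z : ℂ) : dy (fun w => u (w + s)) z = dy u (z + s) := by
  unfold dy
  rw [fderiv_comp_add_right]

theorem dx_shiftf9931 (u : ℂ → ℝ) (s : ℂ) : dx (fun w => u (w + s)) = fun z => dx u (z + s) :=
  funext fun z => dx_shift9931 u s z

theorem dy_shiftf9931 (u : ℂ → ℝ) (s : ℂ) : dy (fun w => u (w + s)) = fun z => dy u (z + s) :=
  funext fun z => dy_shift9931 u s z

theorem Lop_shift9931 (ρ : ℝ) (u : ℂ → ℝ) (s z : ℂ) :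
    Lop ρ (fun w => u (w + s)) z = Lop ρ u (z + s) := by
  unfold Lop
  rw [dx_shiftf9931, dy_shiftf9931, dx_shift9931, dy_shift9931]

theorem box_shift9931 (x0 x1 s : ℝ) :
    (fun z : ℂ => z + s) ⁻¹' box (x0 + s) (x1 + s) = box x0 x1 := by
  ext z
  simp only [box, mem_preimage, mem_ofPred_eq, Set.mem_Icc, Complex.add_re, Complex.add_im,
    Complex.ofReal_re, Complex.ofReal_im, add_zero, add_le_add_iff_right]

theorem cls_shiftC9931 {ρ C : ℝ} {h ω : ℝ → ℝ} {U : ℂ → ℝ} (hU : ClsS ρ h C ω U) (s : ℝ) :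
    ClsS ρ h C ω (sh s U) := by
  have hmp := measurePreserving_add_right (volume : Measure ℂ) (s : ℂ)
  have hemb : MeasurableEmbedding (fun z : ℂ => z + (s : ℂ)) :=
    (Homeomorph.addRight (s : ℂ)).measurableEmbedding
  have hmoll : ∀ δ z, moll δ (sh s U) z = moll δ U (z + s) := fun δ z =>
    moll_add_const δ U (s : ℂ) z
  have hmollf : ∀ δ, moll δ (sh s U) = fun z => moll δ U (z + (s : ℂ)) := fun δ =>
    funext fun z => hmoll δ z
  refine ⟨?_, ?_, ?_, ?_, ?_, ?_⟩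
  · rw [locallyIntegrable_iff]
    intro K hK
    have h1 : IntegrableOn U ((fun z : ℂ => z + (s : ℂ)) '' K) :=
      hU.loc.integrableOn_isCompact (hK.image (by fun_prop))
    have h2 := (hmp.integrableOn_comp_preimage hemb (f := U)
      (s := (fun z : ℂ => z + (s : ℂ)) '' K)).2 h1
    rwa [Set.preimage_image_eq _ (add_left_injective (s : ℂ))] at h2
  · have h1 := hmp.quasiMeasurePreserving.ae hU.per
    filter_upwards [h1] with z hz
    show U (z + 2 * Real.pi * I + s) = U (z + s)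
    rw [← hz]
    congr 1
    ring
  · have h1 := hmp.quasiMeasurePreserving.ae hU.upper
    filter_upwards [h1] with z hz
    show U (z + s) ≤ h z.im
    simpa using hz
  · intro x0
    have h1 := hU.l1 (x0 + s)
    have h2 := hmp.setIntegral_preimage_emb hemb (fun z => |U z|) (box (x0 + s) (x0 + 1 + s))
    rw [box_shift9931] at h2
    show ∫ z in box x0 (x0 + 1), |U (z + s)| ≤ C
    rw [h2]
    have h3 : x0 + 1 + s = x0 + s + 1 := by ring
    rw [h3]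
    exact h1
  · intro δ hδ z
    rw [hmollf, Lop_shift9931]
    exact hU.sub δ hδ _
  · intro δ hδ z hz
    rw [hmollf, Lop_shift9931] at hz
    rw [hmoll]
    have h1 := hU.con δ hδ _ hz
    simpa using h1

theorem C_nonneg9931 {ρ C : ℝ} {h ω : ℝ → ℝ} {U : ℂ → ℝ} (hU : ClsS ρ h C ω U) : 0 ≤ C :=
  le_trans (integral_nonneg fun _ => abs_nonneg _) (hU.l1 0)

theorem cls_shift {ρ C : ℝ} {h ω : ℝ → ℝ} {U : ℂ → ℝ} (hU : ClsS ρ h C ω U) (s : ℝ) :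
    ClsS ρ h (2 * C) ω (sh s U) ∧ (∀ δ z, moll δ (sh s U) z = moll δ U (z + s)) ∧
    ClsS ρ h C ω (sh s U) := by
  have h1 := cls_shiftC9931 hU s
  have hC := C_nonneg9931 hU
  refine ⟨⟨h1.loc, h1.per, h1.upper, fun x0 => (h1.l1 x0).trans (by linarith), h1.sub, h1.con⟩,
    fun δ z => moll_add_const δ U (s : ℂ) z, h1⟩

theorem cut_comp9931 {χ : ℝ → ℝ} (hχ : Cut χ) : HasCompactSupport χ := by
  apply HasCompactSupport.of_support_subset_isCompact (isCompact_Icc (a := (-1:ℝ)) (b := 1))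
  intro x hx
  by_contra hcon
  apply hx
  apply hχ.supp
  by_contra h1
  apply hcon
  rw [not_le, abs_lt] at h1
  exact ⟨h1.1.le, h1.2.le⟩

theorem Wl_unif {ρ : ℝ} {h ω : ℝ → ℝ} (hd : Dat ρ h ω) (C : ℝ) (φ χ : ℝ → ℝ) (hφ : Wt φ) (hχ : Cut χ) :
    ∃ (κ : ℝ → ℝ) (δ0 : ℝ), 0 < δ0 ∧ δ0 ≤ 1 ∧ Tendsto κ (𝓝[>] 0) (𝓝 0) ∧ ∀ U, ClsS ρ h C ω U →
      Tendsto (fun δ => Wsm ρ φ χ (moll δ U)) (𝓝[>] 0) (𝓝 (Wl ρ φ χ U)) ∧
      ∀ δ ∈ Ioc (0 : ℝ) δ0, |Wsm ρ φ χ (moll δ U) - Wl ρ φ χ U| ≤ κ δ := by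
  obtain ⟨κ, δ0, hδ0, hδ1, hκ, hW⟩ := W_cauchy hd C φ χ hφ hχ.smooth (cut_comp9931 hχ)
  refine ⟨κ, δ0, hδ0, hδ1, hκ, ?_⟩
  intro U hU
  have hev : ∀ᶠ δ in 𝓝[>] (0:ℝ), δ ∈ Ioc (0:ℝ) δ0 := by
    filter_upwards [Ioc_mem_nhdsGT hδ0] with δ hδ
    exact hδ
  have hex : ∃ L, Tendsto (fun δ => Wsm ρ φ χ (moll δ U)) (𝓝[>] 0) (𝓝 L) := by
    rw [← cauchy_map_iff_exists_tendsto, Metric.cauchy_iff]
    refine ⟨inferInstance, ?_⟩
    intro ε hε
    have h1 : ∀ᶠ δ in 𝓝[>] (0:ℝ), κ δ < ε / 2 := by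
      filter_upwards [hκ.eventually (gt_mem_nhds (by positivity : (0:ℝ) < ε / 2))] with δ hδ
      exact hδ
    refine ⟨(fun δ => Wsm ρ φ χ (moll δ U)) '' {δ | δ ∈ Ioc (0:ℝ) δ0 ∧ κ δ < ε / 2},
      Filter.image_mem_map (hev.and h1), ?_⟩
    rintro _ ⟨a, ha, rfl⟩ _ ⟨b, hb, rfl⟩
    rw [Real.dist_eq]
    have := hW U hU a ha.1 b hb.1
    have h2 := ha.2
    have h3 := hb.2
    linarith
  obtain ⟨L, hL⟩ := hex
  have hlim : Wl ρ φ χ U = L := hL.limUnder_eq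
  rw [hlim]
  refine ⟨hL, ?_⟩
  intro δ hδ
  have h1 : Tendsto (fun δ' => |Wsm ρ φ χ (moll δ U) - Wsm ρ φ χ (moll δ' U)|) (𝓝[>] 0)
      (𝓝 |Wsm ρ φ χ (moll δ U) - L|) := (tendsto_const_nhds.sub hL).abs
  have h2 : Tendsto (fun δ' => κ δ + κ δ') (𝓝[>] 0) (𝓝 (κ δ + 0)) := tendsto_const_nhds.add hκ
  rw [add_zero] at h2
  apply le_of_tendsto_of_tendsto h1 h2
  filter_upwards [hev] with δ' hδ'
  exact hW U hU δ hδ δ' hδ'

theorem Wl_cont {ρ : ℝ} {h ω : ℝ → ℝ} (hd : Dat ρ h ω) (C : ℝ) (φ χ : ℝ → ℝ) (hφ : Wt φ) (hχ : Cut χ)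
    (V : ℕ → ℂ → ℝ) (W : ℂ → ℝ) (hV : ∀ n, ClsS ρ h C ω (V n)) (hW : ClsS ρ h C ω W)
    (hconv : ∀ K : ℝ, Tendsto (fun n => ∫ z in bQ K, |V n z - W z|) atTop (𝓝 0)) :
    Tendsto (fun n => Wl ρ φ χ (V n)) atTop (𝓝 (Wl ρ φ χ W)) := by
  obtain ⟨κ, δ0, hδ0, hδ1, hκ, hW1⟩ := Wl_unif hd C φ χ hφ hχ
  rw [Metric.tendsto_atTop']
  intro ε hε
  have hev : ∀ᶠ δ in 𝓝[>] (0:ℝ), δ ∈ Ioc (0:ℝ) δ0 := by
    filter_upwards [Ioc_mem_nhdsGT hδ0] with δ hδ
    exact hδ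
  have h1 : ∀ᶠ δ in 𝓝[>] (0:ℝ), κ δ < ε / 3 := by
    filter_upwards [hκ.eventually (gt_mem_nhds (by positivity : (0:ℝ) < ε / 3))] with δ hδ
    exact hδ
  obtain ⟨δ, hδ, hδ3⟩ := (hev.and h1).exists
  have hc := W_cont ρ hd.rho φ χ hφ hχ.smooth (cut_comp9931 hχ) δ hδ.1 V W (fun n => (hV n).loc)
    hW.loc hconv
  rw [Metric.tendsto_atTop'] at hc
  obtain ⟨N, hN⟩ := hc (ε / 3) (by positivity)
  refine ⟨N, fun n hn => ?_⟩
  have a1 := (hW1 (V n) (hV n)).2 δ hδ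
  have a2 := (hW1 W hW).2 δ hδ
  have a3 := hN n hn
  rw [Real.dist_eq] at a3 ⊢
  rw [abs_le] at a1 a2
  rw [abs_lt] at a3 ⊢
  constructor <;> linarith [a1.1, a1.2, a2.1, a2.2, a3.1, a3.2]

/-- the integrand of the functional -/
noncomputable def FF9931 (ρ : ℝ) (φ : ℝ → ℝ) (u : ℂ → ℝ) (z : ℂ) : ℝ :=
  (ρ / 2) * Bf φ (aof ρ u z ^ 2 + bof ρ u z ^ 2)
      - dy (aof ρ u) z * Psif φ (aof ρ u z) (bof ρ u z)

noncomputable def GD9931 (ρ : ℝ) (φ : ℝ → ℝ) (u : ℂ → ℝ) (z : ℂ) : ℝ :=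
  φ (aof ρ u z ^ 2 + bof ρ u z ^ 2) * (dx (aof ρ u) z ^ 2 + dx (bof ρ u) z ^ 2)

theorem Wsm_eq9931 (ρ : ℝ) (φ χ : ℝ → ℝ) (u : ℂ → ℝ) :
    Wsm ρ φ χ u = ∫ x : ℝ, χ x * ∫ y in (0 : ℝ)..(2 * Real.pi), FF9931 ρ φ u (x + y * I) := by
  unfold Wsm
  congr 1
  funext x
  rw [← intervalIntegral.integral_const_mul]
  rfl

theorem Dsm_eq9931 (ρ : ℝ) (φ X : ℝ → ℝ) (u : ℂ → ℝ) :
    Dsm ρ φ X u = ∫ x : ℝ, X x * ∫ y in (0 : ℝ)..(2 * Real.pi), GD9931 ρ φ u (x + y * I) := by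
  unfold Dsm
  congr 1
  funext x
  rw [← intervalIntegral.integral_const_mul]
  rfl

theorem dx_cd9931 {n : ℕ} {u : ℂ → ℝ} (hu : ContDiff ℝ (n + 1 : ℕ) u) : ContDiff ℝ n (dx u) := by
  unfold dx
  exact (hu.fderiv_right (m := n) (by norm_cast)).clm_apply contDiff_const

theorem dy_cd9931 {n : ℕ} {u : ℂ → ℝ} (hu : ContDiff ℝ (n + 1 : ℕ) u) : ContDiff ℝ n (dy u) := by
  unfold dy
  exact (hu.fderiv_right (m := n) (by norm_cast)).clm_apply contDiff_const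

theorem aof_cd9931 {n : ℕ} (ρ : ℝ) {u : ℂ → ℝ} (hu : ContDiff ℝ (n + 1 : ℕ) u) :
    ContDiff ℝ n (aof ρ u) := by
  unfold aof
  exact (hu.of_le (by norm_cast; omega)).add ((dx_cd9931 hu).div_const ρ)

theorem bof_cd9931 {n : ℕ} (ρ : ℝ) {u : ℂ → ℝ} (hu : ContDiff ℝ (n + 1 : ℕ) u) :
    ContDiff ℝ n (bof ρ u) := by
  unfold bof
  exact (dy_cd9931 hu).div_const ρ

theorem FF_cont9931 (ρ : ℝ) (φ : ℝ → ℝ) (hφ : Wt φ) (u : ℂ → ℝ) (hu : ContDiff ℝ (2 : ℕ) u) :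
    Continuous (FF9931 ρ φ u) := by
  obtain ⟨C0, hC0, -, -, -, hP, hB⟩ := wt_lip φ hφ
  have ha : ContDiff ℝ (1 : ℕ) (aof ρ u) := aof_cd9931 ρ hu
  have hb : ContDiff ℝ (1 : ℕ) (bof ρ u) := bof_cd9931 ρ hu
  have hda : Continuous (dy (aof ρ u)) := (dy_cd9931 (n := 0) ha).continuous
  have h1 : Continuous (fun z => Bf φ (aof ρ u z ^ 2 + bof ρ u z ^ 2)) :=
    hB.continuous.comp (ha.continuous.prodMk hb.continuous)
  have h2 : Continuous (fun z => Psif φ (aof ρ u z) (bof ρ u z)) :=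
    hP.continuous.comp (ha.continuous.prodMk hb.continuous)
  exact (continuous_const.mul h1).sub (hda.mul h2)

theorem GD_cont9931 (ρ : ℝ) (φ : ℝ → ℝ) (hφ : Wt φ) (u : ℂ → ℝ) (hu : ContDiff ℝ (2 : ℕ) u) :
    Continuous (GD9931 ρ φ u) := by
  have ha : ContDiff ℝ (1 : ℕ) (aof ρ u) := aof_cd9931 ρ hu
  have hb : ContDiff ℝ (1 : ℕ) (bof ρ u) := bof_cd9931 ρ hu
  have hda : Continuous (dx (aof ρ u)) := (dx_cd9931 (n := 0) ha).continuous
  have hdb : Continuous (dx (bof ρ u)) := (dx_cd9931 (n := 0) hb).continuous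
  have h1 : Continuous (fun z => φ (aof ρ u z ^ 2 + bof ρ u z ^ 2)) :=
    hφ.smooth.continuous.comp ((ha.continuous.pow 2).add (hb.continuous.pow 2))
  exact h1.mul ((hda.pow 2).add (hdb.pow 2))

theorem GD_nonneg9931 (ρ : ℝ) (φ : ℝ → ℝ) (hφ : Wt φ) (u : ℂ → ℝ) (z : ℂ) :
    0 ≤ GD9931 ρ φ u z := by
  unfold GD9931
  have := hφ.nonneg (aof ρ u z ^ 2 + bof ρ u z ^ 2)
  positivity

theorem par_cont9931 (g : ℂ → ℝ) (hg : Continuous g) :
    Continuous (fun x : ℝ => ∫ y in (0 : ℝ)..(2 * Real.pi), g (x + y * I)) := by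
  apply intervalIntegral.continuous_parametric_intervalIntegral_of_continuous'
  exact hg.comp (by fun_prop)

theorem par_int9931 (g : ℂ → ℝ) (hg : Continuous g) (X : ℝ → ℝ) (hX : Continuous X)
    (hXs : HasCompactSupport X) :
    Integrable (fun x : ℝ => X x * ∫ y in (0 : ℝ)..(2 * Real.pi), g (x + y * I)) := by
  apply Continuous.integrable_of_hasCompactSupport
  · exact hX.mul (par_cont9931 g hg)
  · exact hXs.mul_right

theorem FF_shift9931 (ρ : ℝ) (φ : ℝ → ℝ) (u : ℂ → ℝ) (s z : ℂ) :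
    FF9931 ρ φ (fun w => u (w + s)) z = FF9931 ρ φ u (z + s) := by
  have ha : aof ρ (fun w => u (w + s)) = fun z => aof ρ u (z + s) := by
    funext z
    unfold aof
    rw [dx_shift9931]
  have hb : bof ρ (fun w => u (w + s)) = fun z => bof ρ u (z + s) := by
    funext z
    unfold bof
    rw [dy_shift9931]
  unfold FF9931
  rw [ha, hb, dy_shift9931]

theorem Wsm_shift9931 (ρ : ℝ) (φ χ : ℝ → ℝ) (u : ℂ → ℝ) (s : ℝ) :
    Wsm ρ φ χ (fun z => u (z + s)) = Wsm ρ φ (fun x => χ (x - s)) u := by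
  rw [Wsm_eq9931, Wsm_eq9931]
  rw [← integral_add_right_eq_self (fun x : ℝ => χ (x - s) *
    ∫ y in (0 : ℝ)..(2 * Real.pi), FF9931 ρ φ u (x + y * I)) s]
  congr 1
  funext x
  rw [add_sub_cancel_right]
  congr 1
  congr 1
  funext y
  rw [FF_shift9931]
  congr 1
  push_cast
  ring

/-- primitive of the cut-off function -/
noncomputable def Xi9931 (χ : ℝ → ℝ) (x : ℝ) : ℝ := ∫ t in (0 : ℝ)..x, χ t

theorem Xi_deriv9931 {χ : ℝ → ℝ} (hχ : Cut χ) (x : ℝ) : HasDerivAt (Xi9931 χ) (χ x) x :=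
  intervalIntegral.integral_hasDerivAt_right (hχ.smooth.continuous.intervalIntegrable _ _)
    (hχ.smooth.continuous.stronglyMeasurableAtFilter _ _) hχ.smooth.continuous.continuousAt

noncomputable def Yf9931 (χ : ℝ → ℝ) (s1 s2 x : ℝ) : ℝ := Xi9931 χ (x - s1) - Xi9931 χ (x - s2)

theorem Yf_deriv9931 {χ : ℝ → ℝ} (hχ : Cut χ) (s1 s2 x : ℝ) :
    HasDerivAt (Yf9931 χ s1 s2) (χ (x - s1) - χ (x - s2)) x := by
  have h1 := (Xi_deriv9931 hχ (x - s1)).comp_sub_const x s1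
  have h2 := (Xi_deriv9931 hχ (x - s2)).comp_sub_const x s2
  exact h1.sub h2

theorem Yf_derivf9931 {χ : ℝ → ℝ} (hχ : Cut χ) (s1 s2 : ℝ) :
    deriv (Yf9931 χ s1 s2) = fun x => χ (x - s1) - χ (x - s2) :=
  funext fun x => (Yf_deriv9931 hχ s1 s2 x).deriv

theorem Yf_eq9931 {χ : ℝ → ℝ} (hχ : Cut χ) (s1 s2 x : ℝ) :
    Yf9931 χ s1 s2 x = ∫ t in (x - s2)..(x - s1), χ t := by
  unfold Yf9931 Xi9931
  exact intervalIntegral.integral_interval_sub_left (hχ.smooth.continuous.intervalIntegrable _ _)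
    (hχ.smooth.continuous.intervalIntegrable _ _)

theorem Yf_smooth9931 {χ : ℝ → ℝ} (hχ : Cut χ) (s1 s2 : ℝ) : ContDiff ℝ 2 (Yf9931 χ s1 s2) := by
  have h1 : ContDiff ℝ (1 + 1) (Yf9931 χ s1 s2) := by
    rw [contDiff_succ_iff_deriv]
    refine ⟨fun x => (Yf_deriv9931 hχ s1 s2 x).differentiableAt, by simp, ?_⟩
    rw [Yf_derivf9931 hχ]
    have h2 : ContDiff ℝ 1 χ := hχ.smooth.of_le (by norm_num)
    exact (h2.comp (contDiff_id.sub contDiff_const)).sub (h2.comp (contDiff_id.sub contDiff_const))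
  exact h1.of_le (by norm_num)

theorem Yf_zero9931 {χ : ℝ → ℝ} (hχ : Cut χ) {s1 s2 : ℝ} (h : s1 ≤ s2) {x : ℝ}
    (hx : x ≤ s1 - 1 ∨ s2 + 1 ≤ x) : Yf9931 χ s1 s2 x = 0 := by
  rw [Yf_eq9931 hχ]
  have h1 : ∫ t in (x - s2)..(x - s1), χ t = ∫ t in (x - s2)..(x - s1), (0:ℝ) := by
    apply intervalIntegral.integral_congr
    intro t ht
    rw [Set.uIcc_of_le (by linarith)] at ht
    apply hχ.supp
    rcases hx with hx | hx
    · have : t ≤ -1 := by linarith [ht.2]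
      rw [abs_of_neg (by linarith)]
      linarith
    · have : 1 ≤ t := by linarith [ht.1]
      rw [abs_of_pos (by linarith)]
      exact this
  rw [h1]
  simp

theorem Yf_comp9931 {χ : ℝ → ℝ} (hχ : Cut χ) {s1 s2 : ℝ} (h : s1 ≤ s2) :
    HasCompactSupport (Yf9931 χ s1 s2) := by
  apply HasCompactSupport.of_support_subset_isCompact (isCompact_Icc (a := s1 - 1) (b := s2 + 1))
  intro x hx
  by_contra hcon
  apply hx
  apply Yf_zero9931 hχ h
  rw [Set.mem_Icc, not_and_or, not_le, not_le] at hcon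
  rcases hcon with h1 | h1
  · exact Or.inl h1.le
  · exact Or.inr h1.le

theorem Yf_nonneg9931 {χ : ℝ → ℝ} (hχ : Cut χ) {s1 s2 : ℝ} (h : s1 ≤ s2) (x : ℝ) :
    0 ≤ Yf9931 χ s1 s2 x := by
  rw [Yf_eq9931 hχ]
  exact intervalIntegral.integral_nonneg (by linarith) (fun t _ => hχ.nonneg t)

theorem Yf_one9931 {χ : ℝ → ℝ} (hχ : Cut χ) {R x : ℝ} (hx : |x| ≤ R) :
    Yf9931 χ (-(R + 1)) (R + 1) x = 1 := by
  rw [Yf_eq9931 hχ]
  refine Eq.trans ?_ hχ.int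
  rw [abs_le] at hx
  rw [intervalIntegral.integral_of_le (by linarith)]
  rw [setIntegral_eq_integral_of_forall_compl_eq_zero]
  intro t ht
  apply hχ.supp
  rw [Set.mem_Ioc, not_and_or, not_lt, not_le] at ht
  rcases ht with h1 | h1
  · have : t ≤ -1 := by linarith [hx.2]
    rw [abs_of_neg (by linarith)]
    linarith
  · have : 1 ≤ t := by linarith [hx.1]
    rw [abs_of_pos (by linarith)]
    exact this

theorem diff_eq9931 {ρ : ℝ} {h ω : ℝ → ℝ} (hd : Dat ρ h ω) {C : ℝ} (φ χ : ℝ → ℝ) (hφ : Wt φ)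
    (hχ : Cut χ) (U : ℂ → ℝ) (hU : ClsS ρ h C ω U) {s1 s2 : ℝ} (hs : s1 ≤ s2) {δ : ℝ}
    (hδ : 0 < δ) :
    Wsm ρ φ χ (moll δ (sh s1 U)) - Wsm ρ φ χ (moll δ (sh s2 U)) =
      Dsm ρ φ (Yf9931 χ s1 s2) (moll δ U) - Ksm ρ φ (Yf9931 χ s1 s2) (moll δ U) := by
  have hm : ∀ s : ℝ, moll δ (sh s U) = fun z => moll δ U (z + (s : ℂ)) := fun s =>
    funext fun z => moll_add_const δ U (s : ℂ) z
  have hu : ∀ n : ℕ, ContDiff ℝ n (moll δ U) := moll_contDiff δ hδ U hU.loc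
  have hF : Continuous (FF9931 ρ φ (moll δ U)) := FF_cont9931 ρ φ hφ _ (hu 2)
  rw [hm, hm, Wsm_shift9931, Wsm_shift9931]
  have h1 := star_identity ρ hd.rho φ (Yf9931 χ s1 s2) hφ (Yf_smooth9931 hχ s1 s2)
    (Yf_comp9931 hχ hs) (moll δ U) (by exact_mod_cast hu 5) (moll_per hU δ)
  rw [← h1, Yf_derivf9931 hχ, Wsm_eq9931, Wsm_eq9931, Wsm_eq9931]
  have hc : ∀ s : ℝ, Continuous (fun x => χ (x - s)) := fun s =>
    hχ.smooth.continuous.comp (by fun_prop)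
  have hs' : ∀ s : ℝ, HasCompactSupport (fun x => χ (x - s)) := fun s =>
    (cut_comp9931 hχ).comp_homeomorph (Homeomorph.subRight s)
  rw [← integral_sub (par_int9931 _ hF _ (hc s1) (hs' s1)) (par_int9931 _ hF _ (hc s2) (hs' s2))]
  congr 1
  funext x
  ring

theorem lim_diff9931 {ρ : ℝ} {h ω : ℝ → ℝ} (hd : Dat ρ h ω) (C : ℝ) (φ χ : ℝ → ℝ) (hφ : Wt φ)
    (hχ : Cut χ) (U : ℂ → ℝ) (hU : ClsS ρ h C ω U) {s1 s2 : ℝ} (hs : s1 ≤ s2) :
    Tendsto (fun δ => Dsm ρ φ (Yf9931 χ s1 s2) (moll δ U)) (𝓝[>] 0)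
      (𝓝 (Wl ρ φ χ (sh s1 U) - Wl ρ φ χ (sh s2 U))) := by
  obtain ⟨κ, δ0, hδ0, hδ1, hκ, hW⟩ := Wl_unif hd C φ χ hφ hχ
  have t1 := (hW _ (cls_shiftC9931 hU s1)).1
  have t2 := (hW _ (cls_shiftC9931 hU s2)).1
  have t3 := cross_zero hd C φ (Yf9931 χ s1 s2) hφ (Yf_smooth9931 hχ s1 s2) (Yf_comp9931 hχ hs) U hU
  have t4 := (t1.sub t2).add t3
  rw [add_zero] at t4
  refine t4.congr' ?_
  filter_upwards [self_mem_nhdsWithin] with δ hδ
  rw [diff_eq9931 hd φ χ hφ hχ U hU hs hδ]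
  ring

theorem Dsm_nonneg9931 (ρ : ℝ) (φ X : ℝ → ℝ) (hφ : Wt φ) (hX : ∀ x, 0 ≤ X x) (u : ℂ → ℝ) :
    0 ≤ Dsm ρ φ X u := by
  rw [Dsm_eq9931]
  apply integral_nonneg
  intro x
  apply mul_nonneg (hX x)
  exact intervalIntegral.integral_nonneg (by positivity) (fun y _ => GD_nonneg9931 ρ φ hφ u _)

theorem Wl_mono {ρ : ℝ} {h ω : ℝ → ℝ} (hd : Dat ρ h ω) (C : ℝ) (φ χ : ℝ → ℝ) (hφ : Wt φ) (hχ : Cut χ)
    (U : ℂ → ℝ) (hU : ClsS ρ h C ω U) (s : ℝ) (hs : 0 ≤ s) : Wl ρ φ χ (sh s U) ≤ Wl ρ φ χ U := by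
  have h1 := lim_diff9931 hd C φ χ hφ hχ U hU hs
  have h2 : sh 0 U = U := by
    funext z
    simp [sh]
  rw [h2] at h1
  have h3 : 0 ≤ Wl ρ φ χ U - Wl ρ φ χ (sh s U) :=
    ge_of_tendsto h1 (Filter.Eventually.of_forall fun δ =>
      Dsm_nonneg9931 ρ φ _ hφ (Yf_nonneg9931 hχ hs) _)
  linarith

theorem Wl_diss {ρ : ℝ} {h ω : ℝ → ℝ} (hd : Dat ρ h ω) (C : ℝ) (φ χ : ℝ → ℝ) (hφ : Wt φ) (hχ : Cut χ)
    (U : ℂ → ℝ) (hU : ClsS ρ h C ω U) (X : ℝ → ℝ) (R : ℝ) (hR : 0 < R) (hX : ContDiff ℝ 2 X)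
    (hX01 : ∀ x, 0 ≤ X x ∧ X x ≤ 1) (hXs : ∀ x, R ≤ |x| → X x = 0) (η : ℝ) (hη : 0 < η) :
    ∀ᶠ δ in 𝓝[>] (0 : ℝ), Dsm ρ φ X (moll δ U)
      ≤ Wl ρ φ χ (sh (-(R + 1)) U) - Wl ρ φ χ (sh (R + 1) U) + η := by
  have hs : -(R + 1) ≤ R + 1 := by linarith
  have h1 := lim_diff9931 hd C φ χ hφ hχ U hU hs
  have h2 : ∀ᶠ δ in 𝓝[>] (0:ℝ), Dsm ρ φ (Yf9931 χ (-(R + 1)) (R + 1)) (moll δ U) <
      Wl ρ φ χ (sh (-(R + 1)) U) - Wl ρ φ χ (sh (R + 1) U) + η :=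
    h1.eventually (gt_mem_nhds (by linarith))
  filter_upwards [h2, self_mem_nhdsWithin] with δ hδ hδ0
  refine le_trans ?_ hδ.le
  have hδ0' : 0 < δ := hδ0
  have hu : ∀ n : ℕ, ContDiff ℝ n (moll δ U) := moll_contDiff δ hδ0' U hU.loc
  have hG := GD_cont9931 ρ φ hφ _ (hu 2)
  have hXc : HasCompactSupport X := by
    apply HasCompactSupport.of_support_subset_isCompact (isCompact_Icc (a := -R) (b := R))
    intro x hx
    by_contra hcon
    apply hx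
    apply hXs
    by_contra h1
    apply hcon
    rw [not_le, abs_lt] at h1
    exact ⟨h1.1.le, h1.2.le⟩
  rw [Dsm_eq9931, Dsm_eq9931]
  apply integral_mono (par_int9931 _ hG _ hX.continuous hXc)
    (par_int9931 _ hG _ (Yf_smooth9931 hχ _ _).continuous (Yf_comp9931 hχ hs))
  intro x
  have h3 : 0 ≤ ∫ y in (0 : ℝ)..(2 * Real.pi), GD9931 ρ φ (moll δ U) (x + y * I) :=
    intervalIntegral.integral_nonneg (by positivity) (fun y _ => GD_nonneg9931 ρ φ hφ _ _)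
  apply mul_le_mul_of_nonneg_right _ h3
  rcases le_or_gt |x| R with h4 | h4
  · rw [Yf_one9931 hχ h4]
    exact (hX01 x).2
  · rw [hXs x h4.le]
    exact Yf_nonneg9931 hχ hs x

theorem box_int9931 (g : ℂ → ℝ) (hg : Continuous g) (a b : ℝ) (hab : a ≤ b) :
    ∫ z in box a b, g z = ∫ x in a..b, ∫ y in (0 : ℝ)..(2 * Real.pi), g (x + y * I) := by
  have hmp := Complex.volume_preserving_equiv_real_prod
  have hbox : box a b = Complex.measurableEquivRealProd ⁻¹'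
      (Icc a b ×ˢ Icc (0:ℝ) (2 * Real.pi)) := by
    ext z
    simp [box, Complex.measurableEquivRealProd_apply]
    tauto
  have h1 := hmp.setIntegral_preimage_emb Complex.measurableEquivRealProd.measurableEmbedding
    (fun p : ℝ × ℝ => g (p.1 + p.2 * I)) (Icc a b ×ˢ Icc (0:ℝ) (2 * Real.pi))
  rw [← hbox] at h1
  have h2 : ∫ z in box a b, g z = ∫ z in box a b,
      g (((Complex.measurableEquivRealProd z).1 : ℂ) +
        ((Complex.measurableEquivRealProd z).2 : ℂ) * I) := by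
    congr 1
    funext z
    congr 1
    simp [Complex.measurableEquivRealProd_apply, Complex.re_add_im]
  rw [h2, h1, Measure.volume_eq_prod, setIntegral_prod]
  · rw [intervalIntegral.integral_of_le hab, ← integral_Icc_eq_integral_Ioc]
    congr 1
    funext x
    rw [intervalIntegral.integral_of_le (by positivity), ← integral_Icc_eq_integral_Ioc]
  · apply ContinuousOn.integrableOn_compact
    · exact isCompact_Icc.prod isCompact_Icc
    · exact (hg.comp (by fun_prop)).continuousOn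

theorem dy_aof9931 (ρ : ℝ) (u : ℂ → ℝ) (hu : ContDiff ℝ (2 : ℕ) u) (z : ℂ) :
    dy (aof ρ u) z = dy u z + dy (dx u) z / ρ := by
  unfold aof
  have h1 : DifferentiableAt ℝ u z := (hu.differentiable (by norm_num)) z
  have h2 : DifferentiableAt ℝ (dx u) z :=
    ((dx_cd9931 (n := 1) hu).differentiable (by norm_num)) z
  have h3 : HasFDerivAt (fun z => u z + dx u z / ρ)
      (fderiv ℝ u z + ρ⁻¹ • fderiv ℝ (dx u) z) z := by
    have h4 := h1.hasFDerivAt.add (h2.hasFDerivAt.const_mul ρ⁻¹)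
    refine h4.congr_of_eventuallyEq (Filter.Eventually.of_forall fun w => ?_)
    show u w + dx u w / ρ = u w + ρ⁻¹ * dx u w
    rw [div_eq_inv_mul]
  show fderiv ℝ (fun z => u z + dx u z / ρ) z I = _
  rw [h3.fderiv]
  simp only [ContinuousLinearMap.add_apply, ContinuousLinearMap.smul_apply, smul_eq_mul]
  unfold dy
  rw [div_eq_inv_mul]

theorem Wl_bdd {ρ : ℝ} {h ω : ℝ → ℝ} (hd : Dat ρ h ω) (C : ℝ) (φ χ : ℝ → ℝ) (hφ : Wt φ) (hχ : Cut χ) :
    ∃ M : ℝ, ∀ U, ClsS ρ h C ω U → |Wl ρ φ χ U| ≤ M := by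
  obtain ⟨κ, δ0, hδ0, hδ1, hκ, hW⟩ := Wl_unif hd C φ χ hφ hχ
  obtain ⟨M2, δ2, hδ2, -, hM2, hgrad⟩ := grad_bdd hd C
  obtain ⟨M4, δ4, hδ4, -, hM4, hdx⟩ := dx_bdd hd C
  obtain ⟨C0, hC0, hB0, -, -, -, -⟩ := wt_lip φ hφ
  obtain ⟨X0, hX0⟩ := (cut_comp9931 hχ).exists_bound_of_continuous hχ.smooth.continuous
  have hρ := hd.rho
  set δ := min δ0 (min δ2 δ4) with hδdef
  have hδpos : 0 < δ := lt_min hδ0 (lt_min hδ2 hδ4)
  have e0 : δ ∈ Ioc (0:ℝ) δ0 := ⟨hδpos, min_le_left _ _⟩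
  have e2 : δ ∈ Ioc (0:ℝ) δ2 := ⟨hδpos, (min_le_right _ _).trans (min_le_left _ _)⟩
  have e4 : δ ∈ Ioc (0:ℝ) δ4 := ⟨hδpos, (min_le_right _ _).trans (min_le_right _ _)⟩
  set T : ℝ := ((ρ / 2) * C0 + C0 * (1 + 1 / ρ)) * (2 * Real.pi) + C0 * M2 + C0 * M4 / ρ with hT
  refine ⟨|κ δ| + X0 * (T + T), ?_⟩
  intro U hU
  have h1 := (hW U hU).2 δ e0
  have hu : ∀ n : ℕ, ContDiff ℝ n (moll δ U) := moll_contDiff δ hδpos U hU.loc
  set u := moll δ U with hudef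
  -- the majorant
  set g : ℂ → ℝ := fun z => ((ρ / 2) * C0 + C0 * (1 + 1 / ρ)) +
    C0 * (dx u z ^ 2 + dy u z ^ 2) + C0 / ρ * (dx (dx u) z ^ 2 + dy (dx u) z ^ 2) with hg
  have hdxu : ContDiff ℝ (1 : ℕ) (dx u) := dx_cd9931 (hu 2)
  have c1 : Continuous (dx u) := hdxu.continuous
  have c2 : Continuous (dy u) := (dy_cd9931 (n := 1) (hu 2)).continuous
  have c3 : Continuous (dx (dx u)) := (dx_cd9931 (n := 0) hdxu).continuous
  have c4 : Continuous (dy (dx u)) := (dy_cd9931 (n := 0) hdxu).continuous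
  have hgc : Continuous g := by
    rw [hg]
    fun_prop
  have hFg : ∀ z, |FF9931 ρ φ u z| ≤ g z := by
    intro z
    unfold FF9931
    have b1 := (hB0 (aof ρ u z) (bof ρ u z)).1
    have b2 := (hB0 (aof ρ u z) (bof ρ u z)).2
    have b3 : |dy (aof ρ u) z| ≤ (1 + dy u z ^ 2) + (1 + dy (dx u) z ^ 2) / ρ := by
      rw [dy_aof9931 ρ u (hu 2)]
      refine (abs_add_le _ _).trans ?_
      rw [abs_div, abs_of_pos hρ]
      have q1 : |dy u z| ≤ 1 + dy u z ^ 2 := by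
        nlinarith [sq_abs (dy u z), sq_nonneg (|dy u z| - 1), abs_nonneg (dy u z)]
      have q2 : |dy (dx u) z| ≤ 1 + dy (dx u) z ^ 2 := by
        nlinarith [sq_abs (dy (dx u) z), sq_nonneg (|dy (dx u) z| - 1), abs_nonneg (dy (dx u) z)]
      have q3 : |dy (dx u) z| / ρ ≤ (1 + dy (dx u) z ^ 2) / ρ := by gcongr
      linarith
    have b4 : |dy (aof ρ u) z * Psif φ (aof ρ u z) (bof ρ u z)| ≤
        ((1 + dy u z ^ 2) + (1 + dy (dx u) z ^ 2) / ρ) * C0 := by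
      rw [abs_mul]
      gcongr
    have b5 : |(ρ / 2) * Bf φ (aof ρ u z ^ 2 + bof ρ u z ^ 2)| ≤ (ρ / 2) * C0 := by
      rw [abs_mul, abs_of_pos (by positivity : 0 < ρ / 2)]
      gcongr
    refine (abs_sub _ _).trans ?_
    refine (add_le_add b5 b4).trans ?_
    rw [hg]
    have q4 : 0 ≤ C0 * dx u z ^ 2 := by positivity
    have q5 : 0 ≤ C0 / ρ * dx (dx u) z ^ 2 := by positivity
    have q6 : ((1 + dy u z ^ 2) + (1 + dy (dx u) z ^ 2) / ρ) * C0 =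
      C0 * (1 + 1 / ρ) + C0 * dy u z ^ 2 + C0 / ρ * dy (dx u) z ^ 2 := by
      field_simp
      ring
    rw [q6]
    show _ ≤ ((ρ / 2) * C0 + C0 * (1 + 1 / ρ)) +
      C0 * (dx u z ^ 2 + dy u z ^ 2) + C0 / ρ * (dx (dx u) z ^ 2 + dy (dx u) z ^ 2)
    linarith
  have hbox : ∀ x0 : ℝ, ∫ x in x0..(x0 + 1), ∫ y in (0 : ℝ)..(2 * Real.pi), g (x + y * I) ≤ T := by
    intro x0
    rw [← box_int9931 g hgc x0 (x0 + 1) (by linarith)]
    have hbc : IsCompact (box x0 (x0 + 1)) := by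
      have : box x0 (x0 + 1) = Icc x0 (x0 + 1) ×ℂ Icc (0:ℝ) (2 * Real.pi) := by
        ext z
        simp [box, Complex.mem_reProdIm]
      rw [this]
      exact isCompact_Icc.reProdIm isCompact_Icc
    have i0 : IntegrableOn (fun _ : ℂ => ((ρ / 2) * C0 + C0 * (1 + 1 / ρ))) (box x0 (x0 + 1)) :=
      continuous_const.continuousOn.integrableOn_compact hbc
    have i1 : IntegrableOn (fun z : ℂ => C0 * (dx u z ^ 2 + dy u z ^ 2)) (box x0 (x0 + 1)) :=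
      (by fun_prop : Continuous fun z : ℂ => C0 * (dx u z ^ 2 + dy u z ^ 2)).continuousOn.integrableOn_compact hbc
    have i2 : IntegrableOn (fun z : ℂ => C0 / ρ * (dx (dx u) z ^ 2 + dy (dx u) z ^ 2))
        (box x0 (x0 + 1)) :=
      (by fun_prop : Continuous fun z : ℂ => C0 / ρ * (dx (dx u) z ^ 2 + dy (dx u) z ^ 2)).continuousOn.integrableOn_compact hbc
    have hsplit : ∫ z in box x0 (x0 + 1), g z =
        (∫ z in box x0 (x0 + 1), ((ρ / 2) * C0 + C0 * (1 + 1 / ρ))) +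
        (∫ z in box x0 (x0 + 1), C0 * (dx u z ^ 2 + dy u z ^ 2)) +
        ∫ z in box x0 (x0 + 1), C0 / ρ * (dx (dx u) z ^ 2 + dy (dx u) z ^ 2) := by
      have e1 : ∫ z in box x0 (x0 + 1), (((ρ / 2) * C0 + C0 * (1 + 1 / ρ)) +
          C0 * (dx u z ^ 2 + dy u z ^ 2)) =
          (∫ z in box x0 (x0 + 1), ((ρ / 2) * C0 + C0 * (1 + 1 / ρ))) +
          ∫ z in box x0 (x0 + 1), C0 * (dx u z ^ 2 + dy u z ^ 2) := integral_add i0 i1
      have e2 : ∫ z in box x0 (x0 + 1), ((((ρ / 2) * C0 + C0 * (1 + 1 / ρ)) +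
          C0 * (dx u z ^ 2 + dy u z ^ 2)) + C0 / ρ * (dx (dx u) z ^ 2 + dy (dx u) z ^ 2)) =
          (∫ z in box x0 (x0 + 1), (((ρ / 2) * C0 + C0 * (1 + 1 / ρ)) +
          C0 * (dx u z ^ 2 + dy u z ^ 2))) +
          ∫ z in box x0 (x0 + 1), C0 / ρ * (dx (dx u) z ^ 2 + dy (dx u) z ^ 2) :=
        integral_add (i0.add i1) i2
      rw [← e1, ← e2]
    have hconst : ∫ z in box x0 (x0 + 1), ((ρ / 2) * C0 + C0 * (1 + 1 / ρ)) =
        ((ρ / 2) * C0 + C0 * (1 + 1 / ρ)) * (2 * Real.pi) := by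
      rw [box_int9931 (fun _ => ((ρ / 2) * C0 + C0 * (1 + 1 / ρ))) continuous_const x0 (x0 + 1)
        (by linarith)]
      simp
      ring
    have j1 := (hgrad U hU δ e2 x0).1
    have j2 := (hdx U hU δ e4).2 x0
    rw [hsplit, hconst, integral_const_mul, integral_const_mul, hT]
    have k1 : C0 * ∫ z in box x0 (x0 + 1), (dx u z ^ 2 + dy u z ^ 2) ≤ C0 * M2 := by
      gcongr
    have k2 : C0 / ρ * ∫ z in box x0 (x0 + 1), (dx (dx u) z ^ 2 + dy (dx u) z ^ 2) ≤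
        C0 * M4 / ρ := by
      have k3 : C0 / ρ * ∫ z in box x0 (x0 + 1), (dx (dx u) z ^ 2 + dy (dx u) z ^ 2) ≤
          C0 / ρ * M4 := by gcongr
      refine k3.trans (le_of_eq ?_)
      ring
    linarith
  have hWs : |Wsm ρ φ χ u| ≤ X0 * (T + T) := by
    rw [Wsm_eq9931]
    have hHc := par_cont9931 g hgc
    have hX0n : 0 ≤ X0 := (norm_nonneg _).trans (hX0 0)
    have hg0 : ∀ z, 0 ≤ g z := fun z => (abs_nonneg _).trans (hFg z)
    have hnn : ∀ x : ℝ, 0 ≤ ∫ y in (0 : ℝ)..(2 * Real.pi), g (x + y * I) := fun x =>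
      intervalIntegral.integral_nonneg (by positivity) (fun y _ => hg0 _)
    have hpt : ∀ x : ℝ, ‖χ x * ∫ y in (0 : ℝ)..(2 * Real.pi), FF9931 ρ φ u (x + y * I)‖ ≤
        (Icc (-1:ℝ) 1).indicator
          (fun x => X0 * ∫ y in (0 : ℝ)..(2 * Real.pi), g (x + y * I)) x := by
      intro x
      by_cases hx : x ∈ Icc (-1:ℝ) 1
      · rw [indicator_of_mem hx, norm_mul]
        apply mul_le_mul (hX0 x) _ (norm_nonneg _) hX0n
        refine (intervalIntegral.norm_integral_le_integral_norm (by positivity)).trans ?_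
        apply intervalIntegral.integral_mono_on (by positivity)
        · exact ((FF_cont9931 ρ φ hφ u (hu 2)).norm.comp
            (by fun_prop : Continuous fun y : ℝ => (x : ℂ) + y * I)).intervalIntegrable _ _
        · exact (hgc.comp (by fun_prop : Continuous fun y : ℝ => (x : ℂ) + y * I)).intervalIntegrable _ _
        · intro y _
          exact hFg _
      · rw [indicator_of_notMem hx]
        have : χ x = 0 := by
          apply hχ.supp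
          by_contra h1
          apply hx
          rw [not_le, abs_lt] at h1
          exact ⟨h1.1.le, h1.2.le⟩
        rw [this]
        simp
    have hint : Integrable ((Icc (-1:ℝ) 1).indicator
          (fun x => X0 * ∫ y in (0 : ℝ)..(2 * Real.pi), g (x + y * I))) := by
      rw [integrable_indicator_iff measurableSet_Icc]
      exact (continuous_const.mul hHc).continuousOn.integrableOn_compact isCompact_Icc
    refine (norm_integral_le_of_norm_le hint (Filter.Eventually.of_forall hpt)).trans ?_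
    rw [integral_indicator measurableSet_Icc, integral_const_mul]
    apply mul_le_mul_of_nonneg_left _ hX0n
    rw [integral_Icc_eq_integral_Ioc, ← intervalIntegral.integral_of_le (by norm_num),
      ← intervalIntegral.integral_add_adjacent_intervals (b := 0)
        (hHc.intervalIntegrable _ _) (hHc.intervalIntegrable _ _)]
    have l1 := hbox (-1)
    have l2 := hbox 0
    rw [show (-1:ℝ) + 1 = 0 by norm_num] at l1
    rw [show (0:ℝ) + 1 = 1 by norm_num] at l2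
    linarith
  have h5 : |κ δ| ≥ κ δ := le_abs_self _
  rw [abs_le] at h1 hWs ⊢
  constructor <;> linarith [h1.1, h1.2, hWs.1, hWs.2]

end M_WM
end Pool.Agent.Helper758.LS
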