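import Mathlib
import Pool.Agent.Helper758.LSDefs
import Pool.Agent.Helper758.LSDefs2
import Pool.Agent.Helper758.LS_T2T3
import Pool.Agent.Helper758.LS_W5c
import Pool.Agent.Helper758.LS_WC
import Pool.Agent.Helper758.LS_WM

namespace Pool.Agent.Helper758.LS
open MeasureTheory Filter Topology Set Complex
open M_T2T3 (convTo_shift limset_closed limset_cls limset_shift path_compact)
open M_W5c (nonstat_lower)
open M_WC (W_cont)
open M_WM (Wl_bdd Wl_cont Wl_diss Wl_mono Wl_unif cls_shift)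
namespace M_CR












/-- GIVEN (do not prove): facts proved in other jobs. -/














theorem exists_bump_Bf {t1 t2 : ℝ} (ht1 : 0 < t1) (ht12 : t1 < t2) :
    ∃ φ : ℝ → ℝ, Wt φ ∧ (∀ s, s ∉ Icc (t1 ^ 2) (t2 ^ 2) → φ s = 0) ∧ 0 < Bf φ (t2 ^ 2) := by
  have hlt : t1 ^ 2 < t2 ^ 2 := by nlinarith
  have hpos1 : 0 < t1 ^ 2 := by positivity
  let b : ContDiffBump ((t1 ^ 2 + t2 ^ 2) / 2) :=
    { rIn := (t2 ^ 2 - t1 ^ 2) / 4
      rOut := (t2 ^ 2 - t1 ^ 2) / 2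
      rIn_pos := by linarith
      rIn_lt_rOut := by linarith }
  have hzero : ∀ s, s ∉ Icc (t1 ^ 2) (t2 ^ 2) → b s = 0 := by
    intro s hs
    apply b.zero_of_le_dist
    show (t2 ^ 2 - t1 ^ 2) / 2 ≤ dist s ((t1 ^ 2 + t2 ^ 2) / 2)
    rw [Real.dist_eq]
    by_contra hcon
    push Not at hcon
    rw [abs_lt] at hcon
    apply hs
    constructor <;> linarith [hcon.1, hcon.2]
  refine ⟨fun s => b s, ⟨b.contDiff, fun s => b.nonneg, t2 ^ 2 + 1, fun s hs => hzero s ?_⟩, hzero, ?_⟩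
  · intro h
    linarith [h.2]
  · unfold Bf
    apply intervalIntegral.integral_pos (by linarith)
    · exact b.continuous.continuousOn
    · intro x _
      exact b.nonneg
    · refine ⟨(t1 ^ 2 + t2 ^ 2) / 2, ⟨by linarith, by linarith⟩, ?_⟩
      have : b ((t1 ^ 2 + t2 ^ 2) / 2) = 1 := by
        apply b.one_of_mem_closedBall
        apply Metric.mem_closedBall_self
        exact b.rIn_pos.le
      rw [this]
      norm_num

/-- TARGET 1: if all functionals are constant along the orbit then `U` is stationary -/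
theorem stationary_of_const {ρ : ℝ} {h ω : ℝ → ℝ} (hd : Dat ρ h ω) (C : ℝ) (χ : ℝ → ℝ) (hχ : Cut χ)
    (U : ℂ → ℝ) (hU : ClsS ρ h C ω U) (hconst : ∀ φ, Wt φ → ∀ s : ℝ, Wl ρ φ χ (sh s U) = Wl ρ φ χ U) :
    ∀ s : ℝ, ∀ᵐ z : ℂ, U (z + s) = U z := by
  by_contra hns
  obtain ⟨t1, t2, c, R, X, ht1, ht12, hc, hR, hX, hX01, hXs, hlow⟩ := nonstat_lower hd C U hU hns
  obtain ⟨φ, hφ, hφs, hφp⟩ := exists_bump_Bf ht1 ht12
  have hη : 0 < c * Bf φ (t2 ^ 2) / 4 := by positivity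
  have e1 := hlow φ hφ hφs _ hη
  have e2 := Wl_diss hd C φ χ hφ hχ U hU X R hR hX hX01 hXs _ hη
  obtain ⟨δ, h1, h2⟩ := (e1.and e2).exists
  rw [hconst φ hφ, hconst φ hφ] at h2
  have h3 : 0 < c * Bf φ (t2 ^ 2) := by positivity
  linarith

theorem sh_sh (s t : ℝ) (U : ℂ → ℝ) : sh s (sh t U) = sh (s + t) U := by
  funext z
  simp only [sh]
  congr 1
  push_cast
  ring

theorem sh_zero' (U : ℂ → ℝ) : sh 0 U = U := by
  funext z
  simp [sh]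

theorem Wl_orbit_tendsto {ρ : ℝ} {h ω : ℝ → ℝ} (hd : Dat ρ h ω) (C : ℝ) (φ χ : ℝ → ℝ) (hφ : Wt φ)
    (hχ : Cut χ) (U : ℂ → ℝ) (hU : ClsS ρ h C ω U) :
    ∃ L : ℝ, Tendsto (fun s : ℝ => Wl ρ φ χ (sh s U)) atTop (𝓝 L) := by
  obtain ⟨M, hM⟩ := Wl_bdd hd C φ χ hφ hχ
  have hanti : Antitone (fun s : ℝ => Wl ρ φ χ (sh s U)) := by
    intro a b hab
    have h1 := Wl_mono hd C φ χ hφ hχ (sh a U) (cls_shift hU a).2.2 (b - a) (by linarith)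
    rw [sh_sh] at h1
    have h2 : b - a + a = b := by ring
    rw [h2] at h1
    exact h1
  have hbdd : BddBelow (Set.range (fun s : ℝ => Wl ρ φ χ (sh s U))) := by
    refine ⟨-M, ?_⟩
    rintro _ ⟨s, rfl⟩
    exact (abs_le.1 (hM (sh s U) (cls_shift hU s).2.2)).1
  exact ⟨_, tendsto_atTop_ciInf hanti hbdd⟩

/-- TARGET 2: omega-limits of orbits -/
theorem omega_stationary {ρ C : ℝ} {h ω : ℝ → ℝ} {P : ℂ → ℝ} (hd : Dat ρ h ω) (hP : PathOK ρ h C ω P)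
    (χ : ℝ → ℝ) (hχ : Cut χ) (U : ℂ → ℝ) (hU : U ∈ LimSet P) :
    ∃ G ∈ LimSet P, (∀ s : ℝ, ∀ᵐ z : ℂ, G (z + s) = G z) ∧
      ∀ φ, Wt φ → Tendsto (fun s : ℝ => Wl ρ φ χ (sh s U)) atTop (𝓝 (Wl ρ φ χ G)) := by
  have hUc := limset_cls hd hP U hU
  obtain ⟨s, G, hs, hG, hconv⟩ := limset_closed hd hP (fun n : ℕ => sh (n : ℝ) U)
    (fun n => limset_shift hP.loc U hU (n : ℝ))
  have hGc := limset_cls hd hP G hG
  have hC0 : ConvTo U (fun n => ((s n : ℕ) : ℝ)) G := hconv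
  have hst : Tendsto (fun n => ((s n : ℕ) : ℝ)) atTop atTop :=
    tendsto_natCast_atTop_atTop.comp hs.tendsto_atTop
  have key : ∀ φ, Wt φ → ∀ L : ℝ, Tendsto (fun s : ℝ => Wl ρ φ χ (sh s U)) atTop (𝓝 L) →
      ∀ r : ℝ, Wl ρ φ χ (sh r G) = L := by
    intro φ hφ L hL r
    have hC1 : ConvTo U (fun n => ((s n : ℕ) : ℝ) + r) (fun z => G (z + r)) :=
      convTo_shift hUc.loc G hGc.loc _ hC0 (fun _ => r) r tendsto_const_nhds
    have h1 : Tendsto (fun n => Wl ρ φ χ (sh (((s n : ℕ) : ℝ) + r) U)) atTop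
        (𝓝 (Wl ρ φ χ (sh r G))) :=
      Wl_cont hd C φ χ hφ hχ (fun n => sh (((s n : ℕ) : ℝ) + r) U) (sh r G)
        (fun n => (cls_shift hUc _).2.2) (cls_shift hGc r).2.2 hC1
    have h2 : Tendsto (fun n => Wl ρ φ χ (sh (((s n : ℕ) : ℝ) + r) U)) atTop (𝓝 L) :=
      hL.comp (tendsto_atTop_add_const_right atTop r hst)
    exact tendsto_nhds_unique h1 h2
  have keyG : ∀ φ, Wt φ → ∀ L : ℝ, Tendsto (fun s : ℝ => Wl ρ φ χ (sh s U)) atTop (𝓝 L) →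
      Wl ρ φ χ G = L := by
    intro φ hφ L hL
    have := key φ hφ L hL 0
    rwa [sh_zero'] at this
  refine ⟨G, hG, ?_, ?_⟩
  · apply stationary_of_const hd C χ hχ G hGc
    intro φ hφ r
    obtain ⟨L, hL⟩ := Wl_orbit_tendsto hd C φ χ hφ hχ U hUc
    rw [key φ hφ L hL r, keyG φ hφ L hL]
  · intro φ hφ
    obtain ⟨L, hL⟩ := Wl_orbit_tendsto hd C φ χ hφ hχ U hUc
    rw [keyG φ hφ L hL]
    exact hL

theorem crossing_interval (f : ℝ → ℝ) (hf : Continuous f) (a b c1 c2 : ℝ) (hab : a ≤ b)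
    (hc : c1 < c2) (ha : f a < c1) (hb : c2 < f b) :
    ∃ x x' : ℝ, a ≤ x ∧ x ≤ x' ∧ f x = c1 ∧ f x' = c2 ∧ ∀ t, x ≤ t → t ≤ x' → c1 ≤ f t ∧ f t ≤ c2 := by
  have hSc : IsCompact (Icc a b ∩ f ⁻¹' Ici c2) :=
    isCompact_Icc.inter_right (isClosed_Ici.preimage hf)
  obtain ⟨x', hx', hx'min⟩ := hSc.exists_isLeast ⟨b, ⟨⟨hab, le_rfl⟩, hb.le⟩⟩
  have hx'1 : a ≤ x' := hx'.1.1
  have hx'2 : x' ≤ b := hx'.1.2
  have hx'3 : c2 ≤ f x' := hx'.2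
  have hfx' : f x' = c2 := by
    have hivt := intermediate_value_Icc hx'1 hf.continuousOn
    obtain ⟨t, ht, hft⟩ := hivt (show c2 ∈ Icc (f a) (f x') from ⟨by linarith, hx'3⟩)
    have htS : t ∈ Icc a b ∩ f ⁻¹' Ici c2 := ⟨⟨ht.1, ht.2.trans hx'2⟩, hft.ge⟩
    have h1 := hx'min htS
    have h2 : t = x' := le_antisymm ht.2 h1
    rw [← h2]
    exact hft
  have hTc : IsCompact (Icc a x' ∩ f ⁻¹' Iic c1) :=
    isCompact_Icc.inter_right (isClosed_Iic.preimage hf)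
  obtain ⟨x, hx, hxmax⟩ := hTc.exists_isGreatest ⟨a, ⟨⟨le_rfl, hx'1⟩, ha.le⟩⟩
  have hx1 : a ≤ x := hx.1.1
  have hx2 : x ≤ x' := hx.1.2
  have hx3 : f x ≤ c1 := hx.2
  have hfx : f x = c1 := by
    have hivt := intermediate_value_Icc hx2 hf.continuousOn
    obtain ⟨t, ht, hft⟩ := hivt (show c1 ∈ Icc (f x) (f x') from ⟨hx3, by linarith⟩)
    have htT : t ∈ Icc a x' ∩ f ⁻¹' Iic c1 := ⟨⟨hx1.trans ht.1, ht.2⟩, hft.le⟩
    have h1 := hxmax htT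
    have h2 : t = x := le_antisymm h1 ht.1
    rw [← h2]
    exact hft
  refine ⟨x, x', hx1, hx2, hfx, hfx', ?_⟩
  intro t ht1 ht2
  constructor
  · by_contra hcon
    push Not at hcon
    have h1 := hxmax (show t ∈ Icc a x' ∩ f ⁻¹' Iic c1 from ⟨⟨hx1.trans ht1, ht2⟩, hcon.le⟩)
    have h2 : t = x := le_antisymm h1 ht1
    rw [h2, hfx] at hcon
    exact lt_irrefl _ hcon
  · by_contra hcon
    push Not at hcon
    have h1 := hx'min (show t ∈ Icc a b ∩ f ⁻¹' Ici c2 from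
      ⟨⟨hx1.trans ht1, ht2.trans hx'2⟩, hcon.le⟩)
    have h2 : t = x' := le_antisymm ht2 h1
    rw [h2, hfx'] at hcon
    exact lt_irrefl _ hcon

theorem sh_locInt {P : ℂ → ℝ} (hP : LocallyIntegrable P volume) (t : ℝ) :
    LocallyIntegrable (sh t P) volume := by
  intro x
  obtain ⟨s, hs, hsi⟩ := hP (x + (t : ℂ))
  refine ⟨(fun z : ℂ => z + (t : ℂ)) ⁻¹' s, ?_, ?_⟩
  · exact (continuous_id.add continuous_const).continuousAt.preimage_mem_nhds hs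
  · have h1 := (measurePreserving_add_right (volume : Measure ℂ) (t : ℂ)).integrableOn_comp_preimage
      (measurableEmbedding_addRight (t : ℂ)) (f := P) (s := s)
    exact h1.2 hsi

theorem cut_hcs {χ : ℝ → ℝ} (hχ : Cut χ) : HasCompactSupport χ := by
  apply HasCompactSupport.intro (isCompact_Icc : IsCompact (Icc (-1 : ℝ) 1))
  intro x hx
  apply hχ.supp
  by_contra hcon
  push Not at hcon
  rw [abs_lt] at hcon
  exact hx ⟨hcon.1.le, hcon.2.le⟩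

theorem wd_tendsto {ρ : ℝ} (hρ : 0 < ρ) {φ χ : ℝ → ℝ} (hφ : Wt φ) (hχ : Cut χ) {d : ℝ} (hd : 0 < d)
    {P U : ℂ → ℝ} (hP : LocallyIntegrable P volume) (hU : LocallyIntegrable U volume) {τ : ℕ → ℝ}
    (hc : ConvTo P τ U) :
    Tendsto (fun n => Wsm ρ φ χ (moll d (sh (τ n) P))) atTop (𝓝 (Wsm ρ φ χ (moll d U))) :=
  W_cont ρ hρ φ χ hφ hχ.smooth (cut_hcs hχ) d hd (fun n => sh (τ n) P) U
    (fun n => sh_locInt hP (τ n)) hU hc

theorem wd_continuous {ρ : ℝ} (hρ : 0 < ρ) {φ χ : ℝ → ℝ} (hφ : Wt φ) (hχ : Cut χ) {d : ℝ} (hd : 0 < d)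
    {P : ℂ → ℝ} (hP : LocallyIntegrable P volume) :
    Continuous (fun t : ℝ => Wsm ρ φ χ (moll d (sh t P))) := by
  rw [continuous_iff_seqContinuous]
  intro t t0 ht
  have h0 : ConvTo P (fun _ => (0 : ℝ)) P := by
    intro K
    simp
  have h1 := convTo_shift hP P hP (fun _ => (0 : ℝ)) h0 t t0 ht
  have h2 : ConvTo P t (sh t0 P) := by
    have h3 : (fun n => (0 : ℝ) + t n) = t := by
      funext n
      simp
    rw [h3] at h1
    exact h1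
  exact wd_tendsto hρ hφ hχ hd hP (sh_locInt hP t0) h2

theorem exists_crossing_times (f : ℝ → ℝ) (hf : Continuous f) (c1 c2 L1 L2 : ℝ) (hc : c1 < c2)
    (τ1 τ2 : ℕ → ℝ) (h1 : Tendsto τ1 atTop atTop) (h2 : Tendsto τ2 atTop atTop)
    (hf1 : Tendsto (fun n => f (τ1 n)) atTop (𝓝 L1)) (hf2 : Tendsto (fun n => f (τ2 n)) atTop (𝓝 L2))
    (hL1 : L1 < c1) (hL2 : c2 < L2) (N : ℝ) :
    ∃ x l : ℝ, N ≤ x ∧ 0 ≤ l ∧ f x = c1 ∧ f (x + l) = c2 ∧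
      ∀ s, 0 ≤ s → s ≤ l → c1 ≤ f (x + s) ∧ f (x + s) ≤ c2 := by
  obtain ⟨n, hn1, hn2⟩ := ((h1.eventually_ge_atTop N).and (hf1.eventually_lt_const hL1)).exists
  obtain ⟨m, hm1, hm2⟩ := ((h2.eventually_ge_atTop (τ1 n)).and (hf2.eventually_const_lt hL2)).exists
  obtain ⟨x, x', hx1, hx2, hfx, hfx', hb⟩ := crossing_interval f hf (τ1 n) (τ2 m) c1 c2 hm1 hc hn2 hm2
  refine ⟨x, x' - x, hn1.trans hx1, by linarith, hfx, ?_, ?_⟩
  · rw [add_sub_cancel]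
    exact hfx'
  · intro s hs1 hs2
    exact hb (x + s) (by linarith) (by linarith)

theorem convTo_comp {P U : ℂ → ℝ} {τ : ℕ → ℝ} (h : ConvTo P τ U) {s : ℕ → ℕ} (hs : StrictMono s) :
    ConvTo P (fun n => τ (s n)) U := by
  intro K
  exact (h K).comp hs.tendsto_atTop

/-- the bounded-gap case is impossible -/
theorem crossing_bounded_case {ρ C : ℝ} {h ω : ℝ → ℝ} {P : ℂ → ℝ} (hd : Dat ρ h ω)
    (hP : PathOK ρ h C ω P)
    (φ χ : ℝ → ℝ) (hφ : Wt φ) (hχ : Cut χ) (d ε c1 c2 : ℝ) (hd0 : 0 < d)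
    (hunif : ∀ V ∈ LimSet P, |Wsm ρ φ χ (moll d V) - Wl ρ φ χ V| ≤ ε) (hc : c1 + 2 * ε < c2)
    (x l : ℕ → ℝ) (V : ℂ → ℝ) (hV : V ∈ LimSet P) (hconv : ConvTo P x V)
    (hx1 : ∀ n, Wsm ρ φ χ (moll d (sh (x n) P)) = c1)
    (hx2 : ∀ n, Wsm ρ φ χ (moll d (sh (x n + l n) P)) = c2)
    (hl0 : ∀ n, 0 ≤ l n) (hnt : ¬ Tendsto l atTop atTop) : False := by
  rw [tendsto_atTop] at hnt
  push Not at hnt
  obtain ⟨B, hB⟩ := hnt
  obtain ⟨ϕ, hϕ, hϕB⟩ := extraction_of_frequently_atTop hB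
  have hmem : ∀ n, l (ϕ n) ∈ Icc (0 : ℝ) B := by
    intro n
    have := hϕB n
    exact ⟨hl0 _, this.le⟩
  obtain ⟨l0, hl0mem, ψ, hψ, hlim⟩ := isCompact_Icc.tendsto_subseq hmem
  have hVloc := (limset_cls hd hP V hV).loc
  have hcv : ConvTo P (fun n => x (ϕ (ψ n))) V :=
    convTo_comp (convTo_comp hconv hϕ) hψ
  have hcv2 : ConvTo P (fun n => x (ϕ (ψ n)) + l (ϕ (ψ n))) (sh l0 V) :=
    convTo_shift hP.loc V hVloc _ hcv (fun n => l (ϕ (ψ n))) l0 hlim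
  have e1 := wd_tendsto hd.rho hφ hχ hd0 hP.loc hVloc hcv
  have e2 := wd_tendsto hd.rho hφ hχ hd0 hP.loc (sh_locInt hVloc l0) hcv2
  have e1' : Wsm ρ φ χ (moll d V) = c1 := by
    have : (fun n => Wsm ρ φ χ (moll d (sh (x (ϕ (ψ n))) P))) = fun _ => c1 := by
      funext n
      exact hx1 _
    rw [this] at e1
    exact tendsto_nhds_unique e1 tendsto_const_nhds
  have e2' : Wsm ρ φ χ (moll d (sh l0 V)) = c2 := by
    have : (fun n => Wsm ρ φ χ (moll d (sh (x (ϕ (ψ n)) + l (ϕ (ψ n))) P))) = fun _ => c2 := by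
      funext n
      exact hx2 _
    rw [this] at e2
    exact tendsto_nhds_unique e2 tendsto_const_nhds
  have u1 := abs_le.1 (hunif V hV)
  have u2 := abs_le.1 (hunif (sh l0 V) (limset_shift hP.loc V hV l0))
  have hm := Wl_mono hd C φ χ hφ hχ V (limset_cls hd hP V hV) l0 hl0mem.1
  rw [e1'] at u1
  rw [e2'] at u2
  linarith [u1.1, u1.2, u2.1, u2.2]

/-- TARGET 3: crossing lemma -/
theorem crossing {ρ C : ℝ} {h ω : ℝ → ℝ} {P : ℂ → ℝ} (hd : Dat ρ h ω) (hP : PathOK ρ h C ω P)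
    (φ χ : ℝ → ℝ) (hφ : Wt φ) (hχ : Cut χ) (U1 U2 : ℂ → ℝ) (hU1 : U1 ∈ LimSet P) (hU2 : U2 ∈ LimSet P)
    (c η : ℝ) (h1 : Wl ρ φ χ U1 < c) (h2 : c < Wl ρ φ χ U2) (hη : 0 < η) :
    ∃ G ∈ LimSet P, (∀ s : ℝ, ∀ᵐ z : ℂ, G (z + s) = G z) ∧ |Wl ρ φ χ G - c| ≤ η := by
  -- shrink `η`
  obtain ⟨e, he0, heη, he1, he2⟩ : ∃ e : ℝ, 0 < e ∧ e ≤ η ∧ e < c - Wl ρ φ χ U1 ∧
      e < Wl ρ φ χ U2 - c := by
    refine ⟨min η (min ((c - Wl ρ φ χ U1) / 2) ((Wl ρ φ χ U2 - c) / 2)), ?_, min_le_left _ _, ?_, ?_⟩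
    · apply lt_min hη (lt_min (by linarith) (by linarith))
    · have : min η (min ((c - Wl ρ φ χ U1) / 2) ((Wl ρ φ χ U2 - c) / 2)) ≤ (c - Wl ρ φ χ U1) / 2 :=
        (min_le_right _ _).trans (min_le_left _ _)
      linarith
    · have : min η (min ((c - Wl ρ φ χ U1) / 2) ((Wl ρ φ χ U2 - c) / 2)) ≤ (Wl ρ φ χ U2 - c) / 2 :=
        (min_le_right _ _).trans (min_le_right _ _)
      linarith
  -- uniform approximation
  obtain ⟨d, hd0, hunif⟩ : ∃ d : ℝ, 0 < d ∧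
      ∀ V ∈ LimSet P, |Wsm ρ φ χ (moll d V) - Wl ρ φ χ V| ≤ e / 4 := by
    obtain ⟨κ, δ0, hδ0, hδ01, hκ, hun⟩ := Wl_unif hd C φ χ hφ hχ
    have ev1 : ∀ᶠ d in 𝓝[>] (0 : ℝ), κ d < e / 4 := hκ.eventually_lt_const (by linarith)
    have ev2 : ∀ᶠ d in 𝓝[>] (0 : ℝ), d ∈ Ioc (0 : ℝ) δ0 := Ioc_mem_nhdsGT hδ0
    obtain ⟨d, hd1, hd2⟩ := (ev1.and ev2).exists
    refine ⟨d, hd2.1, fun V hV => ?_⟩
    exact ((hun V (limset_cls hd hP V hV)).2 d hd2).trans hd1.le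
  obtain ⟨hU1loc, τ1, hτ1, hcv1⟩ := id hU1
  obtain ⟨hU2loc, τ2, hτ2, hcv2⟩ := id hU2
  have w1 := wd_tendsto hd.rho hφ hχ hd0 hP.loc hU1loc hcv1
  have w2 := wd_tendsto hd.rho hφ hχ hd0 hP.loc hU2loc hcv2
  have hcont := wd_continuous hd.rho hφ hχ hd0 hP.loc
  have u1 := abs_le.1 (hunif U1 hU1)
  have u2 := abs_le.1 (hunif U2 hU2)
  have hex : ∀ n : ℕ, ∃ x l : ℝ, (n : ℝ) ≤ x ∧ 0 ≤ l ∧ Wsm ρ φ χ (moll d (sh x P)) = c - e / 2 ∧
      Wsm ρ φ χ (moll d (sh (x + l) P)) = c + e / 2 ∧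
      ∀ s, 0 ≤ s → s ≤ l → c - e / 2 ≤ Wsm ρ φ χ (moll d (sh (x + s) P)) ∧
        Wsm ρ φ χ (moll d (sh (x + s) P)) ≤ c + e / 2 := by
    intro n
    exact exists_crossing_times (fun t : ℝ => Wsm ρ φ χ (moll d (sh t P))) hcont (c - e / 2)
      (c + e / 2) _ _ (by linarith) τ1 τ2 hτ1 hτ2 w1 w2 (by linarith [u1.2]) (by linarith [u2.1]) n
  choose x l hxn hl0 hx1 hx2 hx3 using hex
  have hxt : Tendsto x atTop atTop := tendsto_atTop_mono hxn tendsto_natCast_atTop_atTop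
  obtain ⟨s, V, hs, hVloc, hVconv⟩ := path_compact hd hP x hxt
  have hVL : V ∈ LimSet P := ⟨hVloc, x ∘ s, hxt.comp hs.tendsto_atTop, hVconv⟩
  have hVconv' : ConvTo P (fun n => x (s n)) V := hVconv
  by_cases hlt : Tendsto (fun n => l (s n)) atTop atTop
  · obtain ⟨G, hGL, hGs, hGW⟩ := omega_stationary hd hP χ hχ V hVL
    have hT := hGW φ hφ
    have hbound : ∀ r : ℝ, 0 ≤ r → c - 3 * e / 4 ≤ Wl ρ φ χ (sh r V) ∧
        Wl ρ φ χ (sh r V) ≤ c + 3 * e / 4 := by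
      intro r hr
      have hcr : ConvTo P (fun n => x (s n) + r) (sh r V) :=
        convTo_shift hP.loc V hVloc _ hVconv' (fun _ => r) r tendsto_const_nhds
      have wr := wd_tendsto hd.rho hφ hχ hd0 hP.loc (sh_locInt hVloc r) hcr
      have evr : ∀ᶠ n in atTop, r ≤ l (s n) := hlt.eventually_ge_atTop r
      have b1 : c - e / 2 ≤ Wsm ρ φ χ (moll d (sh r V)) :=
        ge_of_tendsto wr (evr.mono fun n hn => (hx3 (s n) r hr hn).1)
      have b2 : Wsm ρ φ χ (moll d (sh r V)) ≤ c + e / 2 :=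
        le_of_tendsto wr (evr.mono fun n hn => (hx3 (s n) r hr hn).2)
      have ur := abs_le.1 (hunif (sh r V) (limset_shift hP.loc V hVL r))
      constructor <;> linarith [ur.1, ur.2]
    have c1 : c - 3 * e / 4 ≤ Wl ρ φ χ G :=
      ge_of_tendsto hT ((eventually_ge_atTop (0 : ℝ)).mono fun r hr => (hbound r hr).1)
    have c2 : Wl ρ φ χ G ≤ c + 3 * e / 4 :=
      le_of_tendsto hT ((eventually_ge_atTop (0 : ℝ)).mono fun r hr => (hbound r hr).2)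
    refine ⟨G, hGL, hGs, ?_⟩
    rw [abs_le]
    constructor <;> linarith
  · exact (crossing_bounded_case hd hP φ χ hφ hχ d (e / 4) (c - e / 2) (c + e / 2) hd0 hunif
      (by linarith) (fun n => x (s n)) (fun n => l (s n)) V hVL hVconv' (fun n => hx1 _)
      (fun n => hx2 _) (fun n => hl0 _) hlt).elim

end M_CR
end Pool.Agent.Helper758.LS
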