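import Mathlib
import Pool.Agent.Helper758.LSDefs
import Pool.Agent.Helper758.LSDefs2

namespace Pool.Agent.Helper758.LS
open MeasureTheory Filter Topology Set Complex

namespace M_EM
















/-- abstract bump -/
structure Bmp (φ : ℝ → ℝ) (T d : ℝ) : Prop where
  cont : Continuous φ
  nonneg : ∀ s, 0 ≤ φ s
  left : ∀ s, s ≤ T → φ s = 0
  right : ∀ s, T + d ≤ s → φ s = 0
  int : ∫ s in T..(T + d), φ s = 1

theorem bmp_wtt {θ : ℝ → ℝ} (hθ : BumpOne θ) (t : ℝ) {d : ℝ} (hd : 0 < d) :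
    Bmp (wtt θ t d) (t ^ 2) d := by
  refine ⟨?_, ?_, ?_, ?_, ?_⟩
  · have := hθ.smooth.continuous
    unfold wtt
    fun_prop
  · intro s
    exact div_nonneg (hθ.nonneg _) hd.le
  · intro s hs
    unfold wtt
    rw [hθ.supp _ (Or.inl (div_nonpos_of_nonpos_of_nonneg (by linarith) hd.le)), zero_div]
  · intro s hs
    unfold wtt
    rw [hθ.supp _ (Or.inr ((one_le_div hd).2 (by linarith))), zero_div]
  · unfold wtt
    have h1 := intervalIntegral.integral_comp_sub_right (a := t ^ 2) (b := t ^ 2 + d)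
      (fun x => θ (x / d) / d) (t ^ 2)
    rw [h1, sub_self, add_sub_cancel_left, intervalIntegral.integral_div,
      intervalIntegral.integral_comp_div _ hd.ne', zero_div, div_self hd.ne', hθ.int, smul_eq_mul,
      mul_one, div_self hd.ne']

theorem Bf_hasDeriv {φ : ℝ → ℝ} (hc : Continuous φ) (s : ℝ) : HasDerivAt (Bf φ) (φ s) s :=
  (hc.integral_hasStrictDerivAt 0 s).hasDerivAt

theorem Bf_cont {φ : ℝ → ℝ} (hc : Continuous φ) : Continuous (Bf φ) :=
  continuous_iff_continuousAt.2 fun s => (Bf_hasDeriv hc s).continuousAt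

theorem Bf_left {φ : ℝ → ℝ} {T d : ℝ} (hφ : Bmp φ T d) (hT : 0 < T) {s : ℝ} (hs : s ≤ T) :
    Bf φ s = 0 := by
  unfold Bf
  have : ∫ r in (0 : ℝ)..s, φ r = ∫ r in (0 : ℝ)..s, (0 : ℝ) := by
    refine intervalIntegral.integral_congr fun x hx => ?_
    have : x ≤ max 0 s := hx.2
    exact hφ.left x (this.trans (max_le hT.le hs))
  rw [this, intervalIntegral.integral_zero]

theorem Bf_right {φ : ℝ → ℝ} {T d : ℝ} (hφ : Bmp φ T d) (hT : 0 < T) {s : ℝ}
    (hs : T + d ≤ s) : Bf φ s = 1 := by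
  have hi : ∀ a b, IntervalIntegrable φ volume a b := fun a b => hφ.cont.intervalIntegrable a b
  have h1 : Bf φ s = Bf φ T + (∫ r in T..(T + d), φ r) + ∫ r in (T + d)..s, φ r := by
    unfold Bf
    rw [intervalIntegral.integral_add_adjacent_intervals (hi _ _) (hi _ _),
      intervalIntegral.integral_add_adjacent_intervals (hi _ _) (hi _ _)]
  have h2 : ∫ r in (T + d)..s, φ r = ∫ r in (T + d)..s, (0 : ℝ) := by
    refine intervalIntegral.integral_congr fun x hx => ?_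
    rw [uIcc_of_le hs] at hx
    exact hφ.right x hx.1
  rw [h1, h2, Bf_left hφ hT le_rfl, hφ.int, intervalIntegral.integral_zero]
  ring

theorem Bf_mono {φ : ℝ → ℝ} {T d : ℝ} (hφ : Bmp φ T d) : Monotone (Bf φ) := by
  refine monotone_of_deriv_nonneg (fun s => (Bf_hasDeriv hφ.cont s).differentiableAt) fun s => ?_
  rw [(Bf_hasDeriv hφ.cont s).deriv]
  exact hφ.nonneg s

theorem Bf_nonneg {φ : ℝ → ℝ} {T d : ℝ} (hφ : Bmp φ T d) (hT : 0 < T) (s : ℝ) : 0 ≤ Bf φ s := by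
  rw [← Bf_left hφ hT (min_le_right s T)]
  exact Bf_mono hφ (min_le_left s T)

theorem Bf_le_one {φ : ℝ → ℝ} {T d : ℝ} (hφ : Bmp φ T d) (hT : 0 < T) (s : ℝ) : Bf φ s ≤ 1 := by
  rw [← Bf_right hφ hT (le_max_right s (T + d))]
  exact Bf_mono hφ (le_max_left s (T + d))

/-- primitive of `1 - B` -/
noncomputable def Lam (φ : ℝ → ℝ) (T s : ℝ) : ℝ := ∫ r in T..s, (1 - Bf φ r)

theorem Lam_hasDeriv {φ : ℝ → ℝ} (hc : Continuous φ) (T s : ℝ) :
    HasDerivAt (Lam φ T) (1 - Bf φ s) s :=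
  ((continuous_const.sub (Bf_cont hc)).integral_hasStrictDerivAt T s).hasDerivAt

theorem Lam_nonneg {φ : ℝ → ℝ} {T d : ℝ} (hφ : Bmp φ T d) (hT : 0 < T) {s : ℝ} (hs : T ≤ s) :
    0 ≤ Lam φ T s :=
  intervalIntegral.integral_nonneg hs fun r _ => sub_nonneg.2 (Bf_le_one hφ hT r)

theorem Lam_le {φ : ℝ → ℝ} {T d : ℝ} (hφ : Bmp φ T d) (hT : 0 < T) (hd : 0 ≤ d) {s : ℝ}
    (hs : T ≤ s) : Lam φ T s ≤ d := by
  have hi : ∀ a b, IntervalIntegrable (fun r => 1 - Bf φ r) volume a b := fun a b =>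
    (continuous_const.sub (Bf_cont hφ.cont)).intervalIntegrable a b
  have hle : ∀ u, T ≤ u → Lam φ T u ≤ u - T := by
    intro u hu
    calc Lam φ T u ≤ ∫ r in T..u, (1 : ℝ) := intervalIntegral.integral_mono_on hu (hi _ _)
          (by simp) fun r _ => by linarith [Bf_nonneg hφ hT r]
      _ = u - T := by simp
  rcases le_total s (T + d) with h | h
  · linarith [hle s hs]
  · have h1 : Lam φ T s = Lam φ T (T + d) + ∫ r in (T + d)..s, (1 - Bf φ r) := by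
      unfold Lam
      rw [intervalIntegral.integral_add_adjacent_intervals (hi _ _) (hi _ _)]
    have h2 : ∫ r in (T + d)..s, (1 - Bf φ r) = ∫ r in (T + d)..s, (0 : ℝ) := by
      refine intervalIntegral.integral_congr fun x hx => ?_
      rw [uIcc_of_le h] at hx
      simp only [Bf_right hφ hT hx.1, sub_self]
    rw [h1, h2, intervalIntegral.integral_zero]
    linarith [hle (T + d) (by linarith)]

/-- curve data: `g' = ρ b`, `b' = m/ρ - ρ g` with `m ≥ 0` continuous -/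
structure Crv (ρ : ℝ) (g b m : ℝ → ℝ) : Prop where
  hg : ∀ y, HasDerivAt g (ρ * b y) y
  hb : ∀ y, HasDerivAt b (m y / ρ - ρ * g y) y
  m0 : ∀ y, 0 ≤ m y
  mc : Continuous m

theorem Crv.gc {ρ : ℝ} {g b m : ℝ → ℝ} (h : Crv ρ g b m) : Continuous g :=
  continuous_iff_continuousAt.2 fun y => (h.hg y).continuousAt

theorem Crv.bc {ρ : ℝ} {g b m : ℝ → ℝ} (h : Crv ρ g b m) : Continuous b :=
  continuous_iff_continuousAt.2 fun y => (h.hb y).continuousAt

/-- `|P|²` -/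
noncomputable def pq (g b : ℝ → ℝ) (y : ℝ) : ℝ := g y ^ 2 + b y ^ 2

/-- the point `P` -/
noncomputable def PP (ρ : ℝ) (g b : ℝ → ℝ) (y : ℝ) : ℂ :=
  Complex.exp (ρ * y * I) * (g y + b y * I)

theorem Crv.pc {ρ : ℝ} {g b m : ℝ → ℝ} (h : Crv ρ g b m) : Continuous (pq g b) := by
  unfold pq
  have := h.gc
  have := h.bc
  fun_prop

theorem Crv.Pc {ρ : ℝ} {g b m : ℝ → ℝ} (h : Crv ρ g b m) : Continuous (PP ρ g b) := by
  unfold PP
  have := h.gc
  have := h.bc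
  fun_prop

theorem Crv.hp {ρ : ℝ} (hρ : 0 < ρ) {g b m : ℝ → ℝ} (h : Crv ρ g b m) (y : ℝ) :
    HasDerivAt (pq g b) (2 * m y * b y / ρ) y := by
  have h1 : HasDerivAt (fun y => g y ^ 2 + b y ^ 2) (2 * g y ^ 1 * (ρ * b y) +
      2 * b y ^ 1 * (m y / ρ - ρ * g y)) y := ((h.hg y).pow 2).add ((h.hb y).pow 2)
  refine h1.congr_deriv ?_
  field_simp
  ring

theorem Crv.hP {ρ : ℝ} (hρ : 0 < ρ) {g b m : ℝ → ℝ} (h : Crv ρ g b m) (y : ℝ) :
    HasDerivAt (PP ρ g b) (I / ρ * Complex.exp (ρ * y * I) * m y) y := by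
  have h1 : HasDerivAt (fun y : ℝ => Complex.exp (ρ * y * I))
      (Complex.exp (ρ * y * I) * (ρ * I)) y := by
    have h2 : HasDerivAt (fun y : ℝ => ((ρ : ℂ) * (y : ℂ) * I)) (ρ * I) y := by
      have h3 : HasDerivAt (fun y : ℝ => (y : ℂ)) 1 y := Complex.ofRealCLM.hasDerivAt
      have h4 := (h3.const_mul (ρ : ℂ)).mul_const I
      rw [mul_one] at h4
      exact h4
    exact h2.cexp
  have h2 : HasDerivAt (fun y : ℝ => ((g y : ℂ) + (b y : ℂ) * I))
      ((ρ * b y : ℝ) + ((m y / ρ - ρ * g y : ℝ) : ℂ) * I) y :=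
    (h.hg y).ofReal_comp.add ((h.hb y).ofReal_comp.mul_const I)
  have h3 := h1.mul h2
  have hρ' : (ρ : ℂ) ≠ 0 := by exact_mod_cast hρ.ne'
  refine h3.congr_deriv ?_
  push_cast
  field_simp
  ring_nf
  simp only [Complex.I_sq]
  ring

theorem normSq_PP (ρ : ℝ) (g b : ℝ → ℝ) (y : ℝ) : Complex.normSq (PP ρ g b y) = pq g b y := by
  unfold PP pq
  have h1 : Complex.normSq (Complex.exp (ρ * y * I)) = 1 := by
    rw [Complex.normSq_eq_norm_sq]
    have : (ρ : ℂ) * y * I = ((ρ * y : ℝ) : ℂ) * I := by push_cast; ring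
    rw [this, Complex.norm_exp_ofReal_mul_I, one_pow]
  rw [map_mul, h1, one_mul, Complex.normSq_apply]
  simp
  ring

theorem conj_exp_8 (x : ℝ) : (starRingEnd ℂ) (Complex.exp (x * I)) = Complex.exp (-(x * I)) := by
  rw [← Complex.exp_conj, map_mul, Complex.conj_ofReal, Complex.conj_I, mul_neg]

/-- the density of the functional -/
noncomputable def Fd (ρ : ℝ) (φ : ℝ → ℝ) (g b m : ℝ → ℝ) (y : ℝ) : ℝ :=
  1 / (2 * ρ) * (Bf φ (pq g b y) / pq g b y) * g y * m y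

theorem Bdiv_cont {φ : ℝ → ℝ} {T d : ℝ} (hφ : Bmp φ T d) (hT : 0 < T) :
    Continuous (fun s => Bf φ s / s) := by
  rw [continuous_iff_continuousAt]
  intro s
  by_cases hs : s = 0
  · have h1 : (fun s => Bf φ s / s) =ᶠ[𝓝 s] fun _ => 0 := by
      have : ∀ᶠ r in 𝓝 s, r < T := by
        rw [hs]
        exact Iio_mem_nhds hT
      filter_upwards [this] with r hr
      rw [Bf_left hφ hT hr.le, zero_div]
    exact (continuousAt_const (y := (0 : ℝ))).congr h1.symm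
  · exact ((Bf_cont hφ.cont).continuousAt).div continuousAt_id hs

theorem Fd_cont {ρ : ℝ} {φ : ℝ → ℝ} {g b m : ℝ → ℝ} {T d : ℝ} (hφ : Bmp φ T d) (hT : 0 < T)
    (h : Crv ρ g b m) : Continuous (Fd ρ φ g b m) := by
  unfold Fd
  have h1 := (Bdiv_cont hφ hT).comp h.pc
  have h2 : Continuous (fun y => Bf φ (pq g b y) / pq g b y) := h1
  exact ((continuous_const.mul h2).mul h.gc).mul h.mc

theorem alg_out (X E w1 w2 G M B R : ℂ) (hE : E ≠ 0) (hw1 : w1 ≠ 0) (hw2 : w2 ≠ 0) (hR : R ≠ 0)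
    (hs : w1 + w2 = 2 * G) :
    X * (4 * I * (1 / (2 * R) * (B / (w1 * w2)) * G * M)) * ((E⁻¹ * w2) / (E * w1)) +
      X * (((-I / R * E⁻¹ * M) * (E * w1) - (E⁻¹ * w2) * (I / R * E * M)) / (E * w1) ^ 2) =
    X * ((E⁻¹ * w2) / (E * w1)) * (2 * I * (G * M * (B - 1) / (R * (w1 * w2)))) := by
  have hG : G = (w1 + w2) / 2 := by rw [hs]; ring
  rw [hG]
  field_simp
  ring

theorem R_deriv {ρ : ℝ} (hρ : 0 < ρ) {φ : ℝ → ℝ} {g b m : ℝ → ℝ} {T d : ℝ} (hφ : Bmp φ T d)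
    (hT : 0 < T) (h : Crv ρ g b m) (y1 y : ℝ) (hy : 0 < pq g b y) :
    HasDerivAt (fun y => Complex.exp (4 * I * ((∫ z in y1..y, Fd ρ φ g b m z : ℝ) : ℂ)) *
      ((starRingEnd ℂ) (PP ρ g b y) / PP ρ g b y))
      (Complex.exp (4 * I * ((∫ z in y1..y, Fd ρ φ g b m z : ℝ) : ℂ)) *
      ((starRingEnd ℂ) (PP ρ g b y) / PP ρ g b y) *
        (2 * I * ((g y * m y * (Bf φ (pq g b y) - 1) / (ρ * pq g b y) : ℝ) : ℂ))) y := by
  have hFc := Fd_cont hφ hT h
  have hPne : PP ρ g b y ≠ 0 := by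
    intro h0
    rw [← normSq_PP ρ, h0, map_zero] at hy
    exact lt_irrefl _ hy
  have e1 : HasDerivAt (fun y => ∫ z in y1..y, Fd ρ φ g b m z) (Fd ρ φ g b m y) y :=
    (hFc.integral_hasStrictDerivAt y1 y).hasDerivAt
  have e2 : HasDerivAt (fun y => Complex.exp (4 * I * ((∫ z in y1..y, Fd ρ φ g b m z : ℝ) : ℂ)))
      (Complex.exp (4 * I * ((∫ z in y1..y, Fd ρ φ g b m z : ℝ) : ℂ)) *
        (4 * I * (Fd ρ φ g b m y : ℂ))) y := (e1.ofReal_comp.const_mul (4 * I)).cexp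
  have e3 := h.hP hρ y
  have e4 : HasDerivAt (fun y => (starRingEnd ℂ) (PP ρ g b y))
    ((starRingEnd ℂ) (I / ρ * Complex.exp (ρ * y * I) * m y)) y := e3.star
  have e5 : HasDerivAt (fun y => (starRingEnd ℂ) (PP ρ g b y) / PP ρ g b y)
    (((starRingEnd ℂ) (I / ρ * Complex.exp (ρ * y * I) * m y) * PP ρ g b y -
      (starRingEnd ℂ) (PP ρ g b y) * (I / ρ * Complex.exp (ρ * y * I) * m y)) /
        PP ρ g b y ^ 2) y := e4.div e3 hPne
  refine (e2.mul e5).congr_deriv ?_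
  obtain ⟨E, hE⟩ : ∃ E, E = Complex.exp (ρ * y * I) := ⟨_, rfl⟩
  have hE0 : E ≠ 0 := by rw [hE]; exact Complex.exp_ne_zero _
  have hEc : (starRingEnd ℂ) E = E⁻¹ := by
    rw [hE, ← Complex.exp_neg]
    have : (ρ : ℂ) * y * I = ((ρ * y : ℝ) : ℂ) * I := by push_cast; ring
    rw [this, conj_exp_8]
  have hρ' : (ρ : ℂ) ≠ 0 := by exact_mod_cast hρ.ne'
  have hp0 : (pq g b y : ℂ) ≠ 0 := by exact_mod_cast hy.ne'
  have hP1 : PP ρ g b y = E * (g y + b y * I) := by rw [hE]; rfl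
  have hP2 : (starRingEnd ℂ) (PP ρ g b y) = E⁻¹ * (g y - b y * I) := by
    rw [hP1, map_mul, hEc]
    simp
    left
    ring
  have hpp : (pq g b y : ℂ) = ((g y : ℂ) + b y * I) * (g y - b y * I) := by
    unfold pq
    push_cast
    ring_nf
    rw [Complex.I_sq]
    ring
  have hw0 : (g y : ℂ) + b y * I ≠ 0 := by
    intro h0
    rw [h0, zero_mul] at hpp
    exact hp0 hpp
  have hw1 : (g y : ℂ) - b y * I ≠ 0 := by
    intro h0
    rw [h0, mul_zero] at hpp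
    exact hp0 hpp
  have hP'c : (starRingEnd ℂ) (I / ρ * E * m y) = -I / ρ * E⁻¹ * m y := by
    rw [map_mul, map_mul, hEc, map_div₀, Complex.conj_I, Complex.conj_ofReal,
      Complex.conj_ofReal]
  have hFdc : (Fd ρ φ g b m y : ℂ) = 1 / (2 * (ρ : ℂ)) * ((Bf φ (pq g b y) : ℂ) /
      (((g y : ℂ) + b y * I) * (g y - b y * I))) * (g y) * (m y) := by
    rw [← hpp, Fd]
    push_cast
    rfl
  have hlast : ((g y * m y * (Bf φ (pq g b y) - 1) / (ρ * pq g b y) : ℝ) : ℂ) =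
      (g y : ℂ) * (m y) * ((Bf φ (pq g b y) : ℂ) - 1) / ((ρ : ℂ) *
        (((g y : ℂ) + b y * I) * (g y - b y * I))) := by
    rw [← hpp]
    push_cast
    rfl
  rw [← hE, hP'c, hP2, hP1, hFdc, hlast]
  exact alg_out _ E _ _ _ _ _ _ hE0 hw0 hw1 hρ' (by ring)

/-- outside estimate -/
theorem out_est {ρ : ℝ} (hρ : 0 < ρ) {φ : ℝ → ℝ} {g b m : ℝ → ℝ} {t d d1 β0 : ℝ} (ht : 0 < t)
    (hd : 0 < d) (hdd : d ≤ d1) (hβ0 : 0 < β0) (hφ : Bmp φ (t ^ 2) d) (h : Crv ρ g b m)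
    {y1 y2 : ℝ} (hy : y1 ≤ y2) (hout : ∀ y ∈ Icc y1 y2, t ^ 2 ≤ pq g b y)
    (H1 : ∀ y ∈ Icc y1 y2, 0 < m y → |pq g b y - t ^ 2| ≤ d1 → β0 ≤ b y) :
    ‖Complex.exp (4 * I * ((∫ y in y1..y2, Fd ρ φ g b m y : ℝ) : ℂ)) *
      ((starRingEnd ℂ) (PP ρ g b y2) / PP ρ g b y2) -
      (starRingEnd ℂ) (PP ρ g b y1) / PP ρ g b y1‖ ≤ d / (t * β0) := by
  have hT : 0 < t ^ 2 := by positivity
  obtain ⟨R, hR⟩ : ∃ R : ℝ → ℂ, R = fun y =>
      Complex.exp (4 * I * ((∫ z in y1..y, Fd ρ φ g b m z : ℝ) : ℂ)) *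
      ((starRingEnd ℂ) (PP ρ g b y) / PP ρ g b y) := ⟨_, rfl⟩
  have hRd : ∀ y ∈ Icc y1 y2, HasDerivAt R (R y * (2 * I * ((g y * m y * (Bf φ (pq g b y) - 1) /
      (ρ * pq g b y) : ℝ) : ℂ))) y := by
    intro y hy
    rw [hR]
    exact R_deriv hρ hφ hT h y1 y (by linarith [hout y hy])
  have hRn : ∀ y ∈ Icc y1 y2, ‖R y‖ = 1 := by
    intro y hy
    have hPne : PP ρ g b y ≠ 0 := by
      intro h0
      have h1 := hout y hy
      rw [← normSq_PP ρ, h0, map_zero] at h1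
      linarith
    rw [hR]
    simp only [norm_mul, norm_div, RCLike.norm_conj]
    rw [div_self (norm_ne_zero_iff.2 hPne), mul_one]
    have : (4 : ℂ) * I * ((∫ z in y1..y, Fd ρ φ g b m z : ℝ) : ℂ) =
        ((4 * ∫ z in y1..y, Fd ρ φ g b m z : ℝ) : ℂ) * I := by push_cast; ring
    rw [this, Complex.norm_exp_ofReal_mul_I]
  have hbound := image_norm_le_of_norm_deriv_right_le_deriv_boundary
    (f := fun y => R y - R y1) (a := y1) (b := y2)
    (f' := fun y => R y * (2 * I * ((g y * m y * (Bf φ (pq g b y) - 1) /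
      (ρ * pq g b y) : ℝ) : ℂ)))
    (B := fun y => 1 / (t * β0) * (Lam φ (t ^ 2) (pq g b y) - Lam φ (t ^ 2) (pq g b y1)))
    (B' := fun y => 1 / (t * β0) * ((1 - Bf φ (pq g b y)) * (2 * m y * b y / ρ)))
    (fun y hy => ((hRd y hy).sub_const (R y1)).continuousAt.continuousWithinAt)
    (fun y hy => ((hRd y (Ico_subset_Icc_self hy)).sub_const (R y1)).hasDerivWithinAt)
    (by simp) (fun y => by
      have h1 := (Lam_hasDeriv hφ.cont (t ^ 2) (pq g b y)).comp y (h.hp hρ y)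
      exact (h1.sub_const _).const_mul _)
    (fun y hy => ?_) (right_mem_Icc.2 hy)
  · have h1 : Lam φ (t ^ 2) (pq g b y2) ≤ d := Lam_le hφ hT hd.le (hout y2 (right_mem_Icc.2 hy))
    have h2 : 0 ≤ Lam φ (t ^ 2) (pq g b y1) := Lam_nonneg hφ hT (hout y1 (left_mem_Icc.2 hy))
    have h3 : 1 / (t * β0) * (Lam φ (t ^ 2) (pq g b y2) - Lam φ (t ^ 2) (pq g b y1)) ≤
        d / (t * β0) := by
      rw [one_div, inv_mul_le_iff₀ (by positivity), mul_div_cancel₀ _ (by positivity)]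
      linarith
    have h4 := hbound.trans h3
    have h5 : R y1 = (starRingEnd ℂ) (PP ρ g b y1) / PP ρ g b y1 := by
      rw [hR]
      simp
    rw [← h5]
    rw [hR] at h4 ⊢
    exact h4
  · have hyI := Ico_subset_Icc_self hy
    have hpT := hout y hyI
    have hp0 : 0 < pq g b y := by linarith
    rw [norm_mul, hRn y hyI, one_mul, norm_mul, norm_mul, Complex.norm_I, Complex.norm_real,
      Real.norm_eq_abs]
    have hB1 := Bf_le_one hφ hT (pq g b y)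
    have hm := h.m0 y
    simp only [Complex.norm_ofNat, mul_one]
    rw [abs_div, abs_mul, abs_mul, abs_of_nonneg hm, abs_of_pos (mul_pos hρ hp0),
      abs_of_nonpos (by linarith : Bf φ (pq g b y) - 1 ≤ 0)]
    have hg : |g y| * t ≤ pq g b y := by
      have h1 : |g y| ^ 2 ≤ pq g b y := by
        rw [sq_abs]
        unfold pq
        nlinarith [sq_nonneg (b y)]
      have h2 : 0 ≤ |g y| := abs_nonneg _
      nlinarith [sq_nonneg (|g y| - t)]
    -- main case distinction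
    by_cases hm0 : m y = 0
    · rw [hm0]
      simp
    · have hmpos : 0 < m y := lt_of_le_of_ne hm (Ne.symm hm0)
      by_cases hB : t ^ 2 + d ≤ pq g b y
      · rw [Bf_right hφ hT hB]
        simp
      · push Not at hB
        have hb := H1 y hyI hmpos (by rw [abs_le]; constructor <;> linarith)
        have h1 : 2 * (|g y| * m y * -(Bf φ (pq g b y) - 1) / (ρ * pq g b y)) ≤
            2 * (m y * (1 - Bf φ (pq g b y)) / (ρ * t)) := by
          have h2 : |g y| * m y * -(Bf φ (pq g b y) - 1) / (ρ * pq g b y) ≤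
              m y * (1 - Bf φ (pq g b y)) / (ρ * t) := by
            rw [div_le_div_iff₀ (by positivity) (by positivity)]
            have h3 : 0 ≤ m y * (1 - Bf φ (pq g b y)) * ρ := by
              have : 0 ≤ 1 - Bf φ (pq g b y) := by linarith
              positivity
            nlinarith [mul_le_mul_of_nonneg_left hg h3]
          linarith
        refine h1.trans ?_
        have h4 : 2 * (m y * (1 - Bf φ (pq g b y)) / (ρ * t)) =
            1 / (t * β0) * ((1 - Bf φ (pq g b y)) * (2 * m y * β0 / ρ)) := by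
          field_simp
        rw [h4]
        refine mul_le_mul_of_nonneg_left ?_ (by positivity)
        refine mul_le_mul_of_nonneg_left ?_ (by linarith)
        rw [div_le_div_iff_of_pos_right hρ]
        exact mul_le_mul_of_nonneg_left hb (by positivity)

/-- conjugate ratio outside the disc, one inside -/
noncomputable def cc (T : ℝ) (w : ℂ) : ℂ :=
  if T < Complex.normSq w then (starRingEnd ℂ) w / w else 1

theorem norm_cc {T : ℝ} (hT : 0 < T) (w : ℂ) : ‖cc T w‖ = 1 := by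
  unfold cc
  split_ifs with h
  · have hw : w ≠ 0 := by
      intro h0
      rw [h0, map_zero] at h
      linarith
    rw [norm_div, RCLike.norm_conj, div_self (norm_ne_zero_iff.2 hw)]
  · exact norm_one

theorem cc_conj (T : ℝ) (w : ℂ) : cc T ((starRingEnd ℂ) w) = (starRingEnd ℂ) (cc T w) := by
  unfold cc
  rw [Complex.normSq_conj]
  split_ifs with h
  · rw [map_div₀]
  · rw [map_one]

theorem ratio_lip {w x : ℂ} {t : ℝ} (ht : 0 < t) (hw : w ≠ 0) (hx : ‖x‖ = t) :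
    ‖(starRingEnd ℂ) w / w - (starRingEnd ℂ) x / x‖ ≤ 2 * ‖w - x‖ / t := by
  have hx0 : x ≠ 0 := by
    intro h0
    rw [h0, norm_zero] at hx
    linarith
  have hwn : 0 < ‖w‖ := norm_pos_iff.2 hw
  have e : (starRingEnd ℂ) w / w - (starRingEnd ℂ) x / x =
      ((starRingEnd ℂ) (w - x) * w + (starRingEnd ℂ) w * (x - w)) / (w * x) := by
    rw [map_sub]
    field_simp
    ring
  rw [e, norm_div, norm_mul, hx]
  have h1 : ‖(starRingEnd ℂ) (w - x) * w + (starRingEnd ℂ) w * (x - w)‖ ≤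
      2 * ‖w - x‖ * ‖w‖ := by
    refine (norm_add_le _ _).trans ?_
    rw [norm_mul, norm_mul, RCLike.norm_conj, RCLike.norm_conj, norm_sub_rev x w]
    linarith
  rw [div_le_div_iff₀ (by positivity) ht]
  nlinarith [mul_le_mul_of_nonneg_right h1 ht.le]

/-- auxiliary cut off primitive -/
noncomputable def zf (T d1 s : ℝ) : ℝ := ∫ r in T..s, max 0 ((r - T) * (T + d1 - r))

theorem zf_hasDeriv (T d1 s : ℝ) : HasDerivAt (zf T d1) (max 0 ((s - T) * (T + d1 - s))) s := by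
  have hc : Continuous (fun r : ℝ => max 0 ((r - T) * (T + d1 - r))) := by fun_prop
  exact (hc.integral_hasStrictDerivAt T s).hasDerivAt

theorem zf_mono (T d1 : ℝ) : Monotone (zf T d1) := by
  refine monotone_of_deriv_nonneg (fun s => (zf_hasDeriv T d1 s).differentiableAt) fun s => ?_
  rw [(zf_hasDeriv T d1 s).deriv]
  exact le_max_left _ _

theorem zf_nonpos {T d1 s : ℝ} (hs : s ≤ T) : zf T d1 s ≤ 0 := by
  have : zf T d1 T = 0 := by unfold zf; simp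
  rw [← this]
  exact zf_mono T d1 hs

theorem zf_pos {T d1 s : ℝ} (hd : 0 < d1) (hs : T < s) : 0 < zf T d1 s := by
  refine lt_of_lt_of_le ?_ (zf_mono T d1 (min_le_left s (T + d1)))
  unfold zf
  have hlt : T < min s (T + d1) := lt_min hs (by linarith)
  have hc : Continuous (fun r : ℝ => max 0 ((r - T) * (T + d1 - r))) := by fun_prop
  refine intervalIntegral.intervalIntegral_pos_of_pos_on (hc.intervalIntegrable _ _)
    (fun x hx => ?_) hlt
  have h1 : x < T + d1 := lt_of_lt_of_le hx.2 (min_le_right _ _)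
  exact lt_max_of_lt_right (mul_pos (by linarith [hx.1]) (by linarith))

theorem stay_out {ρ : ℝ} (hρ : 0 < ρ) {g b m : ℝ → ℝ} {T d1 β0 : ℝ} (hd1 : 0 < d1)
    (hβ0 : 0 < β0) (h : Crv ρ g b m) {α β : ℝ}
    (H1 : ∀ y ∈ Icc α β, 0 < m y → |pq g b y - T| ≤ d1 → β0 ≤ b y)
    {y1 y2 : ℝ} (hy1 : y1 ∈ Icc α β) (hy2 : y2 ∈ Icc α β) (h12 : y1 ≤ y2) (ho : T < pq g b y1) :
    T < pq g b y2 := by
  have hd : ∀ y, HasDerivAt (fun y => zf T d1 (pq g b y))
      (max 0 ((pq g b y - T) * (T + d1 - pq g b y)) * (2 * m y * b y / ρ)) y := fun y =>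
    (zf_hasDeriv T d1 (pq g b y)).comp y (h.hp hρ y)
  have hmono : MonotoneOn (fun y => zf T d1 (pq g b y)) (Icc α β) := by
    refine monotoneOn_of_deriv_nonneg (convex_Icc _ _)
      (fun y _ => (hd y).continuousAt.continuousWithinAt)
      (fun y _ => (hd y).differentiableAt.differentiableWithinAt) fun y hy => ?_
    rw [(hd y).deriv]
    have hyI : y ∈ Icc α β := interior_subset hy
    by_cases hm0 : m y = 0
    · rw [hm0]
      simp
    · have hmpos : 0 < m y := lt_of_le_of_ne (h.m0 y) (Ne.symm hm0)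
      rcases le_or_gt ((pq g b y - T) * (T + d1 - pq g b y)) 0 with h1 | h1
      · rw [max_eq_left h1, zero_mul]
      · have h2 : |pq g b y - T| ≤ d1 := by
          rcases mul_pos_iff.1 h1 with ⟨h3, h4⟩ | ⟨h3, h4⟩
          · rw [abs_le]
            constructor <;> linarith
          · exfalso
            linarith
        have hb : 0 ≤ b y := hβ0.le.trans (H1 y hyI hmpos h2)
        have := h.m0 y
        positivity
  by_contra hle
  push Not at hle
  have h1 := hmono hy1 hy2 h12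
  have h2 := zf_pos hd1 ho
  have h3 := zf_nonpos (d1 := d1) hle
  simp only at h1
  linarith

theorem Fd_zero {ρ : ℝ} {φ : ℝ → ℝ} {g b m : ℝ → ℝ} {T d : ℝ} (hφ : Bmp φ T d) (hT : 0 < T)
    {y : ℝ} (hy : pq g b y ≤ T) : Fd ρ φ g b m y = 0 := by
  unfold Fd
  rw [Bf_left hφ hT hy]
  simp

theorem int_Fd_zero {ρ : ℝ} {φ : ℝ → ℝ} {g b m : ℝ → ℝ} {T d : ℝ} (hφ : Bmp φ T d) (hT : 0 < T)
    {y1 y2 : ℝ} (h12 : y1 ≤ y2) (hy : ∀ y ∈ Icc y1 y2, pq g b y ≤ T) :
    ∫ y in y1..y2, Fd ρ φ g b m y = 0 := by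
  have : ∫ y in y1..y2, Fd ρ φ g b m y = ∫ y in y1..y2, (0 : ℝ) := by
    refine intervalIntegral.integral_congr fun x hx => ?_
    rw [uIcc_of_le h12] at hx
    exact Fd_zero hφ hT (hy x hx)
  rw [this, intervalIntegral.integral_zero]

theorem cross_plus {ρ : ℝ} (hρ : 0 < ρ) {φ : ℝ → ℝ} {g b m : ℝ → ℝ} {t d d1 d2 β0 ε : ℝ}
    (ht : 0 < t) (hd : 0 < d) (hdd : d ≤ d1) (hd2 : 0 < d2) (hβ0 : 0 < β0) (hε : 0 ≤ ε)
    (hφ : Bmp φ (t ^ 2) d) (h : Crv ρ g b m)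
    {α β : ℝ} (hαβ : α ≤ β) {x : ℂ} (hx : ‖x‖ = t)
    (H1 : ∀ y ∈ Icc α β, 0 < m y → |pq g b y - t ^ 2| ≤ d1 → β0 ≤ b y)
    (H2 : ∀ y ∈ Icc α β, 0 < m y → |pq g b y - t ^ 2| ≤ d2 → ‖PP ρ g b y - x‖ ≤ ε) :
    ∃ κ : ℂ, (κ = 1 ∨ κ = (starRingEnd ℂ) x / x) ∧
      ‖Complex.exp (4 * I * ((∫ y in α..β, Fd ρ φ g b m y : ℝ) : ℂ)) * cc (t ^ 2) (PP ρ g b β) -
        cc (t ^ 2) (PP ρ g b α) * κ‖ ≤ d / (t * β0) + 2 * ε / t := by
  have hT : 0 < t ^ 2 := by positivity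
  have hd1 : 0 < d1 := hd.trans_le hdd
  have hstay := fun {y1 y2 : ℝ} => stay_out hρ hd1 hβ0 h H1 (y1 := y1) (y2 := y2)
  have hnn1 : 0 ≤ d / (t * β0) := by positivity
  have hnn2 : 0 ≤ 2 * ε / t := by positivity
  have hαI : α ∈ Icc α β := left_mem_Icc.2 hαβ
  have hβI : β ∈ Icc α β := right_mem_Icc.2 hαβ
  by_cases hβ : pq g b β ≤ t ^ 2
  · refine ⟨1, Or.inl rfl, ?_⟩
    have hall : ∀ y ∈ Icc α β, pq g b y ≤ t ^ 2 := by
      intro y hy
      by_contra hlt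
      push Not at hlt
      exact absurd (hstay hy hβI hy.2 hlt) (not_lt.2 hβ)
    rw [int_Fd_zero hφ hT hαβ hall]
    have e1 : cc (t ^ 2) (PP ρ g b β) = 1 := by
      unfold cc
      rw [normSq_PP, if_neg (not_lt.2 hβ)]
    have e2 : cc (t ^ 2) (PP ρ g b α) = 1 := by
      unfold cc
      rw [normSq_PP, if_neg (not_lt.2 (hall α hαI))]
    rw [e1, e2]
    simp
    linarith
  · push Not at hβ
    have e1 : cc (t ^ 2) (PP ρ g b β) = (starRingEnd ℂ) (PP ρ g b β) / PP ρ g b β := by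
      unfold cc
      rw [normSq_PP, if_pos hβ]
    by_cases hα : t ^ 2 < pq g b α
    · refine ⟨1, Or.inl rfl, ?_⟩
      have hall : ∀ y ∈ Icc α β, t ^ 2 ≤ pq g b y := fun y hy => (hstay hαI hy hy.1 hα).le
      have e2 : cc (t ^ 2) (PP ρ g b α) = (starRingEnd ℂ) (PP ρ g b α) / PP ρ g b α := by
        unfold cc
        rw [normSq_PP, if_pos hα]
      have := out_est hρ ht hd hdd hβ0 hφ h hαβ hall H1
      rw [e1, e2, mul_one]
      linarith
    · push Not at hα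
      refine ⟨(starRingEnd ℂ) x / x, Or.inr rfl, ?_⟩
      have e2 : cc (t ^ 2) (PP ρ g b α) = 1 := by
        unfold cc
        rw [normSq_PP, if_neg (not_lt.2 hα)]
      have hKc : IsCompact (Icc α β ∩ {y | pq g b y ≤ t ^ 2}) :=
        isCompact_Icc.inter_right (isClosed_le h.pc continuous_const)
      obtain ⟨y1, ⟨hy1I, hy1⟩, hy1max⟩ := hKc.exists_isGreatest ⟨α, hαI, hα⟩
      have hy1' : pq g b y1 ≤ t ^ 2 := hy1
      have hlt : y1 < β := lt_of_le_of_ne hy1I.2 fun he => by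
        rw [he] at hy1'
        linarith
      have hafter : ∀ y ∈ Ioc y1 β, t ^ 2 < pq g b y := by
        intro y hy
        by_contra hle
        push Not at hle
        have := hy1max ⟨⟨hy1I.1.trans hy.1.le, hy.2⟩, hle⟩
        linarith [hy.1]
      have hpy1 : pq g b y1 = t ^ 2 := by
        refine le_antisymm hy1' ?_
        have h1 : Tendsto (pq g b) (𝓝[>] y1) (𝓝 (pq g b y1)) :=
          (h.pc.tendsto y1).mono_left nhdsWithin_le_nhds
        have h2 : ∀ᶠ y in 𝓝[>] y1, t ^ 2 ≤ pq g b y := by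
          filter_upwards [Ioc_mem_nhdsGT hlt] with y hy using (hafter y hy).le
        exact ge_of_tendsto h1 h2
      have hbefore : ∀ y ∈ Icc α y1, pq g b y ≤ t ^ 2 := by
        intro y hy
        by_contra hlt'
        push Not at hlt'
        exact absurd (hstay ⟨hy.1, hy.2.trans hlt.le⟩ hy1I hy.2 hlt') (not_lt.2 hy1')
      have hnear : ‖PP ρ g b y1 - x‖ ≤ ε := by
        by_contra hlt'
        push Not at hlt'
        have hev : ∀ᶠ y in 𝓝 y1, ε < ‖PP ρ g b y - x‖ ∧ |pq g b y - t ^ 2| < d2 := by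
          refine Filter.Eventually.and ?_ ?_
          · exact ((h.Pc.sub continuous_const).norm.tendsto y1).eventually (lt_mem_nhds hlt')
          · have h1 : Tendsto (fun y => |pq g b y - t ^ 2|) (𝓝 y1) (𝓝 |pq g b y1 - t ^ 2|) :=
              (h.pc.sub continuous_const).abs.tendsto y1
            refine h1.eventually (gt_mem_nhds ?_)
            rw [hpy1, sub_self, abs_zero]
            exact hd2
        obtain ⟨r, hr, hball⟩ := Metric.eventually_nhds_iff.1 hev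
        have hy1y' : y1 < min (y1 + r / 2) β := lt_min (by linarith) hlt
        obtain ⟨c, hc, hcs⟩ := exists_hasDerivAt_eq_slope (pq g b) (fun y => 2 * m y * b y / ρ)
          hy1y' h.pc.continuousOn (fun y _ => h.hp hρ y)
        have hcI : c ∈ Icc α β := ⟨hy1I.1.trans hc.1.le, hc.2.le.trans (min_le_right _ _)⟩
        have hcb : dist c y1 < r := by
          rw [Real.dist_eq, abs_of_pos (by linarith [hc.1])]
          have := hc.2.trans_le (min_le_left _ _)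
          linarith
        obtain ⟨hc1, hc2⟩ := hball hcb
        have hmc : m c = 0 := by
          by_contra hm0
          have hmpos : 0 < m c := lt_of_le_of_ne (h.m0 c) (Ne.symm hm0)
          have := H2 c hcI hmpos hc2.le
          linarith
        rw [hmc] at hcs
        have h3 : 0 < (pq g b (min (y1 + r / 2) β) - pq g b y1) / (min (y1 + r / 2) β - y1) := by
          refine div_pos ?_ (by linarith)
          have := hafter _ ⟨hy1y', min_le_right _ _⟩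
          linarith
        rw [← hcs] at h3
        simp at h3
      have hFc := Fd_cont (ρ := ρ) (g := g) (b := b) (m := m) hφ hT h
      have hsplit : ∫ y in α..β, Fd ρ φ g b m y = ∫ y in y1..β, Fd ρ φ g b m y := by
        rw [← intervalIntegral.integral_add_adjacent_intervals (hFc.intervalIntegrable α y1)
          (hFc.intervalIntegrable y1 β), int_Fd_zero hφ hT hy1I.1 hbefore, zero_add]
      have hout : ∀ y ∈ Icc y1 β, t ^ 2 ≤ pq g b y := by
        intro y hy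
        rcases eq_or_lt_of_le hy.1 with he | hlt'
        · rw [← he, hpy1]
        · exact (hafter y ⟨hlt', hy.2⟩).le
      have h4 := out_est hρ ht hd hdd hβ0 hφ h hlt.le hout
        (fun y hy => H1 y ⟨hy1I.1.trans hy.1, hy.2⟩)
      have hP0 : PP ρ g b y1 ≠ 0 := by
        intro h0
        have h1 := normSq_PP ρ g b y1
        rw [h0, map_zero, hpy1] at h1
        linarith
      have h5 := ratio_lip ht hP0 hx
      have h6 : 2 * ‖PP ρ g b y1 - x‖ / t ≤ 2 * ε / t := by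
        rw [div_le_div_iff_of_pos_right ht]
        linarith
      rw [hsplit, e1, e2, one_mul]
      calc _ ≤ ‖Complex.exp (4 * I * ((∫ y in y1..β, Fd ρ φ g b m y : ℝ) : ℂ)) *
            ((starRingEnd ℂ) (PP ρ g b β) / PP ρ g b β) -
              (starRingEnd ℂ) (PP ρ g b y1) / PP ρ g b y1‖ +
            ‖(starRingEnd ℂ) (PP ρ g b y1) / PP ρ g b y1 - (starRingEnd ℂ) x / x‖ :=
            norm_sub_le_norm_sub_add_norm_sub _ _ _
        _ ≤ _ := by linarith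

/-- time reversal -/
theorem Crv.rev {ρ : ℝ} {g b m : ℝ → ℝ} (h : Crv ρ g b m) :
    Crv ρ (fun y => g (-y)) (fun y => -b (-y)) (fun y => m (-y)) := by
  refine ⟨fun y => ?_, fun y => ?_, fun y => h.m0 _, h.mc.comp continuous_neg⟩
  · have h1 := (h.hg (-y)).comp y (hasDerivAt_neg y)
    refine h1.congr_deriv ?_
    ring
  · have h1 := ((h.hb (-y)).comp y (hasDerivAt_neg y)).neg
    refine h1.congr_deriv ?_
    ring

theorem pq_rev (g b : ℝ → ℝ) (y : ℝ) : pq (fun y => g (-y)) (fun y => -b (-y)) y = pq g b (-y) := by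
  unfold pq
  ring

theorem PP_rev (ρ : ℝ) (g b : ℝ → ℝ) (y : ℝ) :
    PP ρ (fun y => g (-y)) (fun y => -b (-y)) y = (starRingEnd ℂ) (PP ρ g b (-y)) := by
  unfold PP
  rw [map_mul, ← Complex.exp_conj]
  simp

theorem Fd_rev (ρ : ℝ) (φ : ℝ → ℝ) (g b m : ℝ → ℝ) (y : ℝ) :
    Fd ρ φ (fun y => g (-y)) (fun y => -b (-y)) (fun y => m (-y)) y = Fd ρ φ g b m (-y) := by
  unfold Fd
  rw [pq_rev]

theorem cross_minus {ρ : ℝ} (hρ : 0 < ρ) {φ : ℝ → ℝ} {g b m : ℝ → ℝ} {t d d1 d2 β0 ε : ℝ}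
    (ht : 0 < t) (hd : 0 < d) (hdd : d ≤ d1) (hd2 : 0 < d2) (hβ0 : 0 < β0) (hε : 0 ≤ ε)
    (hφ : Bmp φ (t ^ 2) d) (h : Crv ρ g b m)
    {α β : ℝ} (hαβ : α ≤ β) {x : ℂ} (hx : ‖x‖ = t)
    (H1 : ∀ y ∈ Icc α β, 0 < m y → |pq g b y - t ^ 2| ≤ d1 → b y ≤ -β0)
    (H2 : ∀ y ∈ Icc α β, 0 < m y → |pq g b y - t ^ 2| ≤ d2 → ‖PP ρ g b y - x‖ ≤ ε) :
    ∃ κ : ℂ, (κ = 1 ∨ κ = x / (starRingEnd ℂ) x) ∧
      ‖Complex.exp (4 * I * ((∫ y in α..β, Fd ρ φ g b m y : ℝ) : ℂ)) * cc (t ^ 2) (PP ρ g b β) -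
        cc (t ^ 2) (PP ρ g b α) * κ‖ ≤ d / (t * β0) + 2 * ε / t := by
  have hT : 0 < t ^ 2 := by positivity
  obtain ⟨κ, hκ, hle⟩ := cross_plus hρ ht hd hdd hd2 hβ0 hε hφ h.rev (neg_le_neg hαβ)
    (x := (starRingEnd ℂ) x) (by rw [RCLike.norm_conj]; exact hx)
    (fun y hy hm hp => by
      rw [pq_rev] at hp
      have hy' : -y ∈ Icc α β := ⟨by linarith [hy.2], by linarith [hy.1]⟩
      have := H1 (-y) hy' hm hp
      linarith)
    (fun y hy hm hp => by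
      rw [pq_rev] at hp
      have hy' : -y ∈ Icc α β := ⟨by linarith [hy.2], by linarith [hy.1]⟩
      have := H2 (-y) hy' hm hp
      rw [PP_rev, ← map_sub, RCLike.norm_conj]
      exact this)
  refine ⟨κ, ?_, ?_⟩
  · rcases hκ with hκ | hκ
    · exact Or.inl hκ
    · right
      rw [hκ, Complex.conj_conj]
  · simp only [Fd_rev, PP_rev, cc_conj, neg_neg, intervalIntegral.integral_comp_neg] at hle
    obtain ⟨E, hE⟩ : ∃ E, E = Complex.exp (4 * I * ((∫ y in α..β, Fd ρ φ g b m y : ℝ) : ℂ)) :=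
      ⟨_, rfl⟩
    obtain ⟨cα, hcα⟩ : ∃ cα, cα = cc (t ^ 2) (PP ρ g b α) := ⟨_, rfl⟩
    obtain ⟨cβ, hcβ⟩ : ∃ cβ, cβ = cc (t ^ 2) (PP ρ g b β) := ⟨_, rfl⟩
    rw [← hE, ← hcα, ← hcβ] at hle ⊢
    have hnα : ‖cα‖ = 1 := by rw [hcα]; exact norm_cc hT _
    have hnβ : ‖cβ‖ = 1 := by rw [hcβ]; exact norm_cc hT _
    have h1 : cα * (starRingEnd ℂ) cα = 1 := by
      rw [Complex.mul_conj, Complex.normSq_eq_norm_sq, hnα]
      simp
    have h2 : cβ * (starRingEnd ℂ) cβ = 1 := by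
      rw [Complex.mul_conj, Complex.normSq_eq_norm_sq, hnβ]
      simp
    have h3 : E * cβ - cα * κ = cα * cβ * (E * (starRingEnd ℂ) cα - (starRingEnd ℂ) cβ * κ) := by
      linear_combination (-(E * cβ)) * h1 + (cα * κ) * h2
    rw [h3, norm_mul, norm_mul, hnα, hnβ, one_mul, one_mul]
    exact hle

theorem int_swap (F : ℝ → ℝ → ℝ) (hF : Continuous (Function.uncurry F)) {a b c d : ℝ} (hab : a ≤ b)
    (hcd : c ≤ d) : ∫ s in a..b, ∫ y in c..d, F s y = ∫ y in c..d, ∫ s in a..b, F s y := by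
  simp only [intervalIntegral.integral_of_le hab, intervalIntegral.integral_of_le hcd]
  refine MeasureTheory.integral_integral_swap ?_
  rw [Measure.prod_restrict]
  have h1 : IntegrableOn (Function.uncurry F) (Icc a b ×ˢ Icc c d) (volume.prod volume) := by
    rw [← Measure.volume_eq_prod]
    exact hF.continuousOn.integrableOn_compact (isCompact_Icc.prod isCompact_Icc)
  exact h1.mono_set (prod_mono Ioc_subset_Icc_self Ioc_subset_Icc_self)

/-- `B(s)/s` -/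
noncomputable def Af (φ : ℝ → ℝ) (s : ℝ) : ℝ := Bf φ s / s
/-- its derivative -/
noncomputable def Af1 (φ : ℝ → ℝ) (s : ℝ) : ℝ := (φ s - Af φ s) / s

theorem Af_hasDeriv {φ : ℝ → ℝ} {T d : ℝ} (hφ : Bmp φ T d) (hT : 0 < T) (s : ℝ) :
    HasDerivAt (Af φ) (Af1 φ s) s := by
  by_cases hs : s = 0
  · have h1 : Af φ =ᶠ[𝓝 s] fun _ => 0 := by
      have : ∀ᶠ r in 𝓝 s, r < T := by
        rw [hs]
        exact Iio_mem_nhds hT
      filter_upwards [this] with r hr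
      rw [Af, Bf_left hφ hT hr.le, zero_div]
    have h2 : Af1 φ s = 0 := by
      rw [Af1, hs, div_zero]
    rw [h2]
    exact (hasDerivAt_const s (0 : ℝ)).congr_of_eventuallyEq h1
  · have h1 := (Bf_hasDeriv hφ.cont s).div (hasDerivAt_id s) hs
    refine h1.congr_deriv ?_
    unfold Af1 Af
    simp only [id]
    field_simp

theorem Af1_cont {φ : ℝ → ℝ} {T d : ℝ} (hφ : Bmp φ T d) (hT : 0 < T) : Continuous (Af1 φ) := by
  have hA : Continuous (Af φ) := Bdiv_cont hφ hT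
  rw [continuous_iff_continuousAt]
  intro s
  by_cases hs : s = 0
  · have h1 : Af1 φ =ᶠ[𝓝 s] fun _ => 0 := by
      have : ∀ᶠ r in 𝓝 s, r < T := by
        rw [hs]
        exact Iio_mem_nhds hT
      filter_upwards [this] with r hr
      rw [Af1, Af, Bf_left hφ hT hr.le, hφ.left r hr.le, zero_div, sub_zero, zero_div]
    exact (continuousAt_const (y := (0 : ℝ))).congr h1.symm
  · exact ((hφ.cont.sub hA).continuousAt).div continuousAt_id hs

theorem phi_eq {φ : ℝ → ℝ} {T d : ℝ} (hφ : Bmp φ T d) (hT : 0 < T) (s : ℝ) :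
    φ s = Af φ s + s * Af1 φ s := by
  by_cases hs : s = 0
  · rw [hs, Af, Bf_left hφ hT hT.le, hφ.left 0 hT.le]
    simp
  · rw [Af1]
    field_simp
    ring

/-- the functional in terms of the density -/
theorem step0 {ρ : ℝ} (hρ : 0 < ρ) {φ : ℝ → ℝ} {g b m : ℝ → ℝ} {T d : ℝ} (hφ : Bmp φ T d)
    (hT : 0 < T) (h : Crv ρ g b m) (hg0 : g (2 * Real.pi) = g 0) (hb0 : b (2 * Real.pi) = b 0) :
    ∫ y in (0 : ℝ)..(2 * Real.pi), ((ρ / 2) * Bf φ (g y ^ 2 + b y ^ 2) -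
      ρ * b y * Psif φ (g y) (b y)) = ∫ y in (0 : ℝ)..(2 * Real.pi), Fd ρ φ g b m y := by
  have hA : Continuous (Af φ) := Bdiv_cont hφ hT
  have hA1 := Af1_cont hφ hT
  have hgc := h.gc
  have hbc := h.bc
  have hmc := h.mc
  have hpi : (0 : ℝ) ≤ 2 * Real.pi := by positivity
  obtain ⟨E, hE⟩ : ∃ E : ℝ → ℝ → ℝ, E = fun s y => 2 * ρ * b y ^ 2 * φ (g y ^ 2 + b y ^ 2 * s ^ 2) +
    (g y * (m y / ρ - ρ * g y) - ρ * b y ^ 2) * (Af φ (g y ^ 2 + b y ^ 2 * s ^ 2) +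
      s * (Af1 φ (g y ^ 2 + b y ^ 2 * s ^ 2) * (b y ^ 2 * (2 * s)))) := ⟨_, rfl⟩
  have hEc : Continuous (Function.uncurry E) := by
    rw [hE]
    have := hφ.cont
    unfold Function.uncurry
    fun_prop
  -- derivative in `y`
  have hEy : ∀ s, ∫ y in (0 : ℝ)..(2 * Real.pi), E s y = 0 := by
    intro s
    have hd : ∀ y, HasDerivAt (fun y => g y * b y * Af φ (g y ^ 2 + b y ^ 2 * s ^ 2)) (E s y) y := by
      intro y
      have h1 : HasDerivAt (fun y => g y ^ 2 + b y ^ 2 * s ^ 2) (2 * g y ^ 1 * (ρ * b y) +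
        (2 * b y ^ 1 * (m y / ρ - ρ * g y)) * s ^ 2) y :=
        ((h.hg y).pow 2).add (((h.hb y).pow 2).mul_const _)
      have h0 := Af_hasDeriv hφ hT (g y ^ 2 + b y ^ 2 * s ^ 2)
      have h2 : HasDerivAt (fun y => Af φ (g y ^ 2 + b y ^ 2 * s ^ 2))
        (Af1 φ (g y ^ 2 + b y ^ 2 * s ^ 2) * (2 * g y ^ 1 * (ρ * b y) +
        (2 * b y ^ 1 * (m y / ρ - ρ * g y)) * s ^ 2)) y := by
        have h01 := HasDerivAt.comp (h₂ := Af φ) (h := fun y => g y ^ 2 + b y ^ 2 * s ^ 2) y h0 h1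
        exact h01
      have h3 := ((h.hg y).mul (h.hb y)).mul h2
      refine h3.congr_deriv ?_
      rw [hE]
      simp only
      rw [phi_eq hφ hT (g y ^ 2 + b y ^ 2 * s ^ 2)]
      simp only [Pi.mul_apply]
      ring
    rw [intervalIntegral.integral_eq_sub_of_hasDerivAt (fun y _ => hd y)
      ((hEc.comp (by fun_prop : Continuous fun y : ℝ => (s, y))).intervalIntegrable _ _)]
    rw [hg0, hb0, sub_self]
  -- integral in `s`
  have hEs : ∀ y, ∫ s in (0 : ℝ)..1, E s y = 2 * ρ * b y * Psif φ (g y) (b y) +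
      (g y * (m y / ρ - ρ * g y) - ρ * b y ^ 2) * Af φ (g y ^ 2 + b y ^ 2) := by
    intro y
    have h1 : ∫ s in (0 : ℝ)..1, (Af φ (g y ^ 2 + b y ^ 2 * s ^ 2) +
      s * (Af1 φ (g y ^ 2 + b y ^ 2 * s ^ 2) * (b y ^ 2 * (2 * s)))) =
        Af φ (g y ^ 2 + b y ^ 2) := by
      have hd : ∀ s : ℝ, HasDerivAt (fun s => s * Af φ (g y ^ 2 + b y ^ 2 * s ^ 2))
          (Af φ (g y ^ 2 + b y ^ 2 * s ^ 2) +
            s * (Af1 φ (g y ^ 2 + b y ^ 2 * s ^ 2) * (b y ^ 2 * (2 * s)))) s := by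
        intro s
        have h1 : HasDerivAt (fun s : ℝ => g y ^ 2 + b y ^ 2 * s ^ 2) (b y ^ 2 * (2 * s)) s := by
          have := ((hasDerivAt_pow 2 s).const_mul (b y ^ 2)).const_add (g y ^ 2)
          refine this.congr_deriv ?_
          push_cast
          ring
        have h2 : HasDerivAt (fun s => Af φ (g y ^ 2 + b y ^ 2 * s ^ 2))
          (Af1 φ (g y ^ 2 + b y ^ 2 * s ^ 2) * (b y ^ 2 * (2 * s))) s :=
          (Af_hasDeriv hφ hT _).comp s h1
        refine ((hasDerivAt_id s).mul h2).congr_deriv ?_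
        simp
      rw [intervalIntegral.integral_eq_sub_of_hasDerivAt (fun s _ => hd s)
        (Continuous.intervalIntegrable (by fun_prop) _ _)]
      simp
    have h2 : ∫ s in (0 : ℝ)..1, b y * φ (g y ^ 2 + b y ^ 2 * s ^ 2) = Psif φ (g y) (b y) := by
      unfold Psif
      have := intervalIntegral.smul_integral_comp_mul_left (a := 0) (b := 1)
        (fun v => φ (g y ^ 2 + v ^ 2)) (b y)
      rw [mul_zero, mul_one, smul_eq_mul, ← intervalIntegral.integral_const_mul] at this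
      rw [← this]
      simp only [mul_pow]
    rw [← h1, ← h2, ← intervalIntegral.integral_const_mul, ← intervalIntegral.integral_const_mul,
      ← intervalIntegral.integral_add]
    · refine intervalIntegral.integral_congr fun s _ => ?_
      rw [hE]
      simp only
      ring
    · have := hφ.cont
      exact Continuous.intervalIntegrable (by fun_prop) _ _
    · exact Continuous.intervalIntegrable (by fun_prop) _ _
  have hswap := int_swap E hEc zero_le_one hpi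
  simp only [hEy, hEs, intervalIntegral.integral_zero] at hswap
  -- conclude
  have hPc : Continuous (fun y => Psif φ (g y) (b y)) := by
    have e : (fun y => Psif φ (g y) (b y)) =
        fun y => ∫ s in (0 : ℝ)..1, b y * φ (g y ^ 2 + b y ^ 2 * s ^ 2) := by
      funext y
      unfold Psif
      have := intervalIntegral.smul_integral_comp_mul_left (a := 0) (b := 1)
        (fun v => φ (g y ^ 2 + v ^ 2)) (b y)
      rw [mul_zero, mul_one, smul_eq_mul, ← intervalIntegral.integral_const_mul] at this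
      rw [← this]
      simp only [mul_pow]
    rw [e]
    have := hφ.cont
    exact intervalIntegral.continuous_parametric_intervalIntegral_of_continuous' (by fun_prop) _ _
  have hBc : Continuous (fun y => Bf φ (g y ^ 2 + b y ^ 2)) := (Bf_cont hφ.cont).comp (by fun_prop)
  have hAc : Continuous (fun y => Af φ (g y ^ 2 + b y ^ 2)) := hA.comp (by fun_prop)
  have hsA : ∀ s, Bf φ s = s * Af φ s := by
    intro s
    by_cases hs : s = 0
    · rw [hs, Bf_left hφ hT hT.le, zero_mul]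
    · unfold Af
      field_simp
  have e1 : ∀ y, (ρ / 2) * Bf φ (g y ^ 2 + b y ^ 2) - ρ * b y * Psif φ (g y) (b y) =
      Fd ρ φ g b m y - 1 / 2 * (2 * ρ * b y * Psif φ (g y) (b y) +
      (g y * (m y / ρ - ρ * g y) - ρ * b y ^ 2) * Af φ (g y ^ 2 + b y ^ 2)) := by
    intro y
    rw [hsA]
    have : Fd ρ φ g b m y = 1 / (2 * ρ) * Af φ (g y ^ 2 + b y ^ 2) * g y * m y := rfl
    rw [this]
    field_simp
    ring
  have hFc := Fd_cont (ρ := ρ) (g := g) (b := b) (m := m) hφ hT h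
  simp only [e1]
  rw [intervalIntegral.integral_sub (hFc.intervalIntegrable _ _)
    (Continuous.intervalIntegrable (by fun_prop) _ _), intervalIntegral.integral_const_mul,
    ← hswap, mul_zero, sub_zero]

/-- supporting sinusoids of `h` -/
def SS (ρ : ℝ) (h : ℝ → ℝ) : Set (ℝ × ℝ) :=
  {q | ∀ z : ℝ, |z - q.1| < Real.pi / ρ →
    h q.1 * Real.cos (ρ * (z - q.1)) + q.2 * Real.sin (ρ * (z - q.1)) ≤ h z}

theorem SS_lim {ρ : ℝ} {h : ℝ → ℝ} (hc : Continuous h) {q : ℕ → ℝ × ℝ} {q0 : ℝ × ℝ}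
    (hq : Tendsto q atTop (𝓝 q0)) (hm : ∀ n, q n ∈ SS ρ h) : q0 ∈ SS ρ h := by
  intro z hz
  have hc1 : Continuous (fun q : ℝ × ℝ => |z - q.1|) := by fun_prop
  have h1 : ∀ᶠ n in atTop, |z - (q n).1| < Real.pi / ρ :=
    ((hc1.tendsto q0).comp hq).eventually (gt_mem_nhds hz)
  have hc2 : Continuous (fun q : ℝ × ℝ =>
    h q.1 * Real.cos (ρ * (z - q.1)) + q.2 * Real.sin (ρ * (z - q.1))) := by fun_prop
  exact le_of_tendsto ((hc2.tendsto q0).comp hq) (h1.mono fun n hn => hm n z hn)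

theorem exists_bound {h : ℝ → ℝ} (hc : Continuous h) (hper : ∀ y, h (y + 2 * Real.pi) = h y) :
    ∃ H : ℝ, 0 < H ∧ ∀ y, |h y| ≤ H := by
  have h1 : Function.Periodic h (2 * Real.pi) := hper
  have h2 := h1.isBounded_of_continuous (by positivity) hc
  obtain ⟨H, hH⟩ := h2.exists_norm_le
  refine ⟨max H 1, lt_max_of_lt_right one_pos, fun y => ?_⟩
  exact (hH _ (mem_range_self y)).trans (le_max_left _ _)

theorem null_crit {ρ : ℝ} (hρ : 0 < ρ) {h : ℝ → ℝ} (hc : Continuous h)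
    (hper : ∀ y, h (y + 2 * Real.pi) = h y) :
    volume (h '' {y | (y, (0 : ℝ)) ∈ SS ρ h}) = 0 := by
  obtain ⟨H, hH0, hH⟩ := exists_bound hc hper
  have key : ∀ y ∈ {y | (y, (0 : ℝ)) ∈ SS ρ h}, ∀ y' ∈ {y | (y, (0 : ℝ)) ∈ SS ρ h},
      |h y - h y'| ≤ (H * ρ ^ 2) * |y - y'| ^ 2 := by
    have half : ∀ y ∈ {y | (y, (0 : ℝ)) ∈ SS ρ h}, ∀ y' ∈ {y | (y, (0 : ℝ)) ∈ SS ρ h},
        h y - h y' ≤ (H * ρ ^ 2) * |y - y'| ^ 2 := by
      intro y hy y' hy'
      by_cases hlt : |y - y'| < Real.pi / ρ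
      · have h1 : h y * Real.cos (ρ * (y' - y)) + 0 * Real.sin (ρ * (y' - y)) ≤ h y' :=
          hy y' (by rw [abs_sub_comm]; exact hlt)
        have h2 := Real.one_sub_sq_div_two_le_cos (x := ρ * (y' - y))
        have h3 := Real.cos_le_one (ρ * (y' - y))
        have h4 := hH y
        have h5 : h y * (1 - Real.cos (ρ * (y' - y))) ≤ H * ((ρ * (y' - y)) ^ 2 / 2) := by
          calc h y * (1 - Real.cos (ρ * (y' - y))) ≤ H * (1 - Real.cos (ρ * (y' - y))) :=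
                mul_le_mul_of_nonneg_right ((le_abs_self _).trans h4) (by linarith)
            _ ≤ H * ((ρ * (y' - y)) ^ 2 / 2) := mul_le_mul_of_nonneg_left (by linarith) hH0.le
        have h6 : |y - y'| ^ 2 = (y' - y) ^ 2 := by rw [sq_abs]; ring
        rw [h6]
        nlinarith [mul_nonneg (mul_nonneg hH0.le (sq_nonneg ρ)) (sq_nonneg (y' - y))]
      · push Not at hlt
        have h1 : 2 ≤ (ρ * |y - y'|) ^ 2 := by
          have h2 : Real.pi ≤ ρ * |y - y'| := by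
            rw [div_le_iff₀ hρ] at hlt
            linarith
          nlinarith [Real.pi_gt_three]
        have h2 := (abs_le.1 (hH y)).2
        have h3 := (abs_le.1 (hH y')).1
        have h4 : H * 2 ≤ H * (ρ * |y - y'|) ^ 2 := mul_le_mul_of_nonneg_left h1 hH0.le
        nlinarith
    intro y hy y' hy'
    rw [abs_le]
    have h1 := half y hy y' hy'
    have h2 := half y' hy' y hy
    rw [abs_sub_comm y' y] at h2
    constructor <;> linarith
  have hH2 : 0 ≤ H * ρ ^ 2 := by positivity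
  have hhol : HolderOnWith (Real.toNNReal (H * ρ ^ 2)) 2 h {y | (y, (0 : ℝ)) ∈ SS ρ h} := by
    intro y hy y' hy'
    rw [edist_dist, edist_dist, Real.dist_eq, Real.dist_eq]
    have h1 := key y hy y' hy'
    calc ENNReal.ofReal |h y - h y'| ≤ ENNReal.ofReal ((H * ρ ^ 2) * |y - y'| ^ 2) :=
          ENNReal.ofReal_le_ofReal h1
      _ = _ := by
          rw [ENNReal.ofReal_mul hH2, ENNReal.ofReal_pow (abs_nonneg _)]
          congr 1
          norm_num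
  have hdim : dimH (h '' {y | (y, (0 : ℝ)) ∈ SS ρ h}) < ((1 : NNReal) : ENNReal) := by
    refine (hhol.dimH_image_le (by norm_num)).trans_lt ?_
    have h1 : dimH {y | (y, (0 : ℝ)) ∈ SS ρ h} ≤ 1 := by
      refine (dimH_mono (subset_univ _)).trans ?_
      rw [Real.dimH_univ]
    refine (ENNReal.div_le_div_right h1 _).trans_lt ?_
    rw [ENNReal.div_lt_iff (Or.inl (by norm_num)) (Or.inl (by norm_num))]
    norm_num
  have := hausdorffMeasure_of_dimH_lt hdim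
  rw [← MeasureTheory.hausdorffMeasure_real]
  exact this

/-- generic levels -/
theorem generic_t {ρ : ℝ} (hρ : 0 < ρ) {h : ℝ → ℝ} (hc : Continuous h)
    (hper : ∀ y, h (y + 2 * Real.pi) = h y) {t1 t2 : ℝ} (ht1 : 0 < t1) (ht : t1 < t2) :
    ∃ t ∈ Ioo t1 t2, (∀ y, (y, (0 : ℝ)) ∈ SS ρ h → h y ^ 2 ≠ t ^ 2) ∧
      ∀ r : ℚ, h r ^ 2 + (deriv h r / ρ) ^ 2 ≠ t ^ 2 := by
  have hn := null_crit hρ hc hper
  by_contra hcon
  push Not at hcon
  have hsub : Ioo t1 t2 ⊆ (h '' {y | (y, (0 : ℝ)) ∈ SS ρ h} ∪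
      (fun x => -x) ⁻¹' (h '' {y | (y, (0 : ℝ)) ∈ SS ρ h})) ∪
      range (fun r : ℚ => √(h r ^ 2 + (deriv h r / ρ) ^ 2)) := by
    intro t htt
    have ht0 : 0 < t := ht1.trans htt.1
    by_cases hA : ∀ y, (y, (0 : ℝ)) ∈ SS ρ h → h y ^ 2 ≠ t ^ 2
    · obtain ⟨r, hr⟩ := hcon t htt hA
      right
      refine ⟨r, ?_⟩
      simp only
      rw [hr, Real.sqrt_sq ht0.le]
    · push Not at hA
      obtain ⟨y, hy, hyt⟩ := hA
      left
      rcases sq_eq_sq_iff_eq_or_eq_neg.1 hyt with h1 | h1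
      · left
        exact ⟨y, hy, h1⟩
      · right
        exact ⟨y, hy, h1⟩
  have hnull : volume ((h '' {y | (y, (0 : ℝ)) ∈ SS ρ h} ∪
      (fun x => -x) ⁻¹' (h '' {y | (y, (0 : ℝ)) ∈ SS ρ h})) ∪
      range (fun r : ℚ => √(h r ^ 2 + (deriv h r / ρ) ^ 2))) = 0 := by
    refine measure_union_null (measure_union_null hn ?_) (Set.Countable.measure_zero (Set.countable_range _) volume)
    · rw [show ((fun x : ℝ => -x) ⁻¹' (h '' {y | (y, (0 : ℝ)) ∈ SS ρ h})) =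
        -(h '' {y | (y, (0 : ℝ)) ∈ SS ρ h}) from rfl, Measure.measure_neg]
      exact hn
  have h1 := (measure_mono hsub).trans hnull.le
  rw [Real.volume_Ioo] at h1
  have h2 : ENNReal.ofReal (t2 - t1) = 0 := le_antisymm h1 (zero_le)
  rw [ENNReal.ofReal_eq_zero] at h2
  linarith

/-- the arc lemma: two supporting sinusoids at `y < y'` that agree at `y'` -/
theorem arc_eq {ρ : ℝ} (hρ : 0 < ρ) {h : ℝ → ℝ} (htc : TrigConvex ρ h) {y b y' : ℝ}
    (hS : (y, b) ∈ SS ρ h) (hlt : y < y') (hsm : y' - y < Real.pi / ρ)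
    (he : h y' = h y * Real.cos (ρ * (y' - y)) + b * Real.sin (ρ * (y' - y))) {z : ℝ}
    (hz : z ∈ Ioo y y') : h z = h y * Real.cos (ρ * (z - y)) + b * Real.sin (ρ * (z - y)) := by
  refine le_antisymm ?_ (hS z ?_)
  · have h1 := htc y z y' hz.1 hz.2 hsm
    have hs : 0 < Real.sin (ρ * (y' - y)) := by
      apply Real.sin_pos_of_pos_of_lt_pi
      · exact mul_pos hρ (by linarith)
      · rw [lt_div_iff₀ hρ] at hsm
        linarith
    have h2 : h y * Real.sin (ρ * (y' - z)) + h y' * Real.sin (ρ * (z - y)) =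
        (h y * Real.cos (ρ * (z - y)) + b * Real.sin (ρ * (z - y))) *
          Real.sin (ρ * (y' - y)) := by
      rw [he]
      have e : ρ * (y' - z) = ρ * (y' - y) - ρ * (z - y) := by ring
      rw [e, Real.sin_sub]
      ring
    rw [h2] at h1
    exact le_of_mul_le_mul_right h1 hs
  · rw [abs_of_pos (by linarith [hz.1])]
    linarith [hz.2]

theorem arc_rat {ρ : ℝ} (hρ : 0 < ρ) {h : ℝ → ℝ} (htc : TrigConvex ρ h) {y b y' : ℝ}
    (hS : (y, b) ∈ SS ρ h) (hlt : y < y') (hsm : y' - y < Real.pi / ρ)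
    (he : h y' = h y * Real.cos (ρ * (y' - y)) + b * Real.sin (ρ * (y' - y))) :
    ∃ r : ℚ, h r ^ 2 + (deriv h r / ρ) ^ 2 = h y ^ 2 + b ^ 2 := by
  obtain ⟨r, hr1, hr2⟩ := exists_rat_btwn hlt
  refine ⟨r, ?_⟩
  have harc := fun z (hz : z ∈ Ioo y y') => arc_eq hρ htc hS hlt hsm he hz
  have hev : h =ᶠ[𝓝 (r : ℝ)] fun z => h y * Real.cos (ρ * (z - y)) + b * Real.sin (ρ * (z - y)) := by
    filter_upwards [Ioo_mem_nhds hr1 hr2] with z hz using harc z hz
  have hlin : HasDerivAt (fun z : ℝ => ρ * (z - y)) ρ (r : ℝ) := by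
    have := ((hasDerivAt_id (r : ℝ)).sub_const y).const_mul ρ
    rw [mul_one] at this
    exact this
  have hd : HasDerivAt (fun z => h y * Real.cos (ρ * (z - y)) + b * Real.sin (ρ * (z - y)))
      (h y * (-Real.sin (ρ * (r - y)) * ρ) + b * (Real.cos (ρ * (r - y)) * ρ)) (r : ℝ) :=
    (hlin.cos.const_mul _).add (hlin.sin.const_mul _)
  rw [(hd.congr_of_eventuallyEq hev).deriv, harc r ⟨hr1, hr2⟩]
  have h1 := Real.sin_sq_add_cos_sq (ρ * ((r : ℝ) - y))
  have h2 : (h y * (-Real.sin (ρ * (r - y)) * ρ) + b * (Real.cos (ρ * (r - y)) * ρ)) / ρ =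
      -(h y * Real.sin (ρ * (r - y))) + b * Real.cos (ρ * (r - y)) := by
    field_simp
  rw [h2]
  nlinarith

theorem pair_rigid {ρ : ℝ} {h : ℝ → ℝ} {y b y' b' : ℝ} (hρ : 0 < ρ)
    (hS : (y, b) ∈ SS ρ h) (hS' : (y', b') ∈ SS ρ h) (hlt : y < y')
    (hsm : ρ * (y' - y) < Real.pi / 2) (hlev : h y' ^ 2 + b' ^ 2 = h y ^ 2 + b ^ 2)
    (hcnd : Real.sin (ρ * (y' - y)) *
      |(h y * Real.cos (ρ * (y' - y)) + b * Real.sin (ρ * (y' - y))) + h y'| <
      Real.cos (ρ * (y' - y)) *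
      |(b * Real.cos (ρ * (y' - y)) - h y * Real.sin (ρ * (y' - y))) + b'|) :
    h y' = h y * Real.cos (ρ * (y' - y)) + b * Real.sin (ρ * (y' - y)) := by
  have hpi := Real.pi_pos
  have hd : y' - y < Real.pi / ρ := by
    rw [lt_div_iff₀ hρ]
    linarith
  have h1 : h y * Real.cos (ρ * (y' - y)) + b * Real.sin (ρ * (y' - y)) ≤ h y' :=
    hS y' (by rw [abs_of_pos (by linarith)]; exact hd)
  have h2 : h y' * Real.cos (ρ * (y - y')) + b' * Real.sin (ρ * (y - y')) ≤ h y :=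
    hS' y (by rw [abs_sub_comm, abs_of_pos (by linarith)]; exact hd)
  have e : ρ * (y - y') = -(ρ * (y' - y)) := by ring
  rw [e, Real.cos_neg, Real.sin_neg] at h2
  obtain ⟨c, hc⟩ : ∃ c, c = Real.cos (ρ * (y' - y)) := ⟨_, rfl⟩
  obtain ⟨s, hs⟩ : ∃ s, s = Real.sin (ρ * (y' - y)) := ⟨_, rfl⟩
  have hc0 : 0 < c := by
    rw [hc]
    apply Real.cos_pos_of_mem_Ioo
    constructor
    · have : 0 < ρ * (y' - y) := mul_pos hρ (by linarith)
      linarith
    · exact hsm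
  have hs0 : 0 < s := by
    rw [hs]
    apply Real.sin_pos_of_pos_of_lt_pi
    · exact mul_pos hρ (by linarith)
    · linarith
  have hcs : s ^ 2 + c ^ 2 = 1 := by rw [hc, hs]; exact Real.sin_sq_add_cos_sq _
  rw [← hc, ← hs] at h1 h2 hcnd ⊢
  obtain ⟨u, hu⟩ : ∃ u, u = h y' - (h y * c + b * s) := ⟨_, rfl⟩
  obtain ⟨v, hv⟩ : ∃ v, v = b' - (b * c - h y * s) := ⟨_, rfl⟩
  have hu0 : 0 ≤ u := by linarith
  have huv : u * c ≤ v * s := by
    have : h y' * c + b' * -s = u * c - v * s + h y * (s ^ 2 + c ^ 2) := by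
      rw [hu, hv]
      ring
    rw [hcs] at this
    linarith
  have hzero : u * ((h y * c + b * s) + h y') + v * ((b * c - h y * s) + b') = 0 := by
    have : u * ((h y * c + b * s) + h y') + v * ((b * c - h y * s) + b') =
        (h y' ^ 2 + b' ^ 2) - (h y ^ 2 + b ^ 2) * (s ^ 2 + c ^ 2) := by
      rw [hu, hv]
      ring
    rw [this, hcs, hlev]
    ring
  obtain ⟨X, hX⟩ : ∃ X, X = (h y * c + b * s) + h y' := ⟨_, rfl⟩
  obtain ⟨Y, hY⟩ : ∃ Y, Y = (b * c - h y * s) + b' := ⟨_, rfl⟩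
  rw [← hX, ← hY] at hzero hcnd
  have hv0 : 0 ≤ v := by
    by_contra hneg
    push Not at hneg
    nlinarith [mul_nonneg hu0 hc0.le]
  have hueq : u = 0 := by
    by_contra hne
    have hupos : 0 < u := lt_of_le_of_ne hu0 (Ne.symm hne)
    have hvpos : 0 < v := by
      by_contra hle
      push Not at hle
      have : v = 0 := le_antisymm hle hv0
      rw [this, zero_mul] at huv
      nlinarith [mul_pos hupos hc0]
    have h3 : v * |Y| = u * |X| := by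
      have h4 : v * Y = -(u * X) := by linarith
      have h5 := congrArg abs h4
      rw [abs_mul, abs_neg, abs_mul, abs_of_pos hvpos, abs_of_pos hupos] at h5
      exact h5
    have h6 : v * (c * |Y|) ≤ v * (s * |X|) := by
      calc v * (c * |Y|) = c * (v * |Y|) := by ring
        _ = (u * c) * |X| := by rw [h3]; ring
        _ ≤ (v * s) * |X| := mul_le_mul_of_nonneg_right huv (abs_nonneg _)
        _ = v * (s * |X|) := by ring
    have h7 := le_of_mul_le_mul_left h6 hvpos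
    linarith
  linarith

/-- local discreteness of the generic level set -/
theorem local_disc {ρ : ℝ} (hρ : 0 < ρ) {h : ℝ → ℝ} (hc : Continuous h) (htc : TrigConvex ρ h)
    {t : ℝ} (ht : 0 < t) (hg1 : ∀ y, (y, (0 : ℝ)) ∈ SS ρ h → h y ^ 2 ≠ t ^ 2)
    (hg2 : ∀ r : ℚ, h r ^ 2 + (deriv h r / ρ) ^ 2 ≠ t ^ 2) (y0 : ℝ) :
    ∃ r : ℝ, 0 < r ∧ ∀ y b, (y, b) ∈ SS ρ h → |y - y0| < r → h y ^ 2 + b ^ 2 = t ^ 2 → y = y0 := by
  by_contra hcon
  push Not at hcon
  have hseq : ∀ n : ℕ, ∃ q : ℝ × ℝ, q ∈ SS ρ h ∧ |q.1 - y0| < 1 / ((n : ℝ) + 1) ∧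
      h q.1 ^ 2 + q.2 ^ 2 = t ^ 2 ∧ q.1 ≠ y0 := by
    intro n
    obtain ⟨y, b, h1, h2, h3, h4⟩ := hcon (1 / ((n : ℝ) + 1)) (by positivity)
    exact ⟨(y, b), h1, h2, h3, h4⟩
  choose q hqS hqd hql hqne using hseq
  have hqy : Tendsto (fun n => (q n).1) atTop (𝓝 y0) := by
    rw [tendsto_iff_dist_tendsto_zero]
    refine squeeze_zero (fun n => dist_nonneg) (fun n => ?_) tendsto_one_div_add_atTop_nhds_zero_nat
    rw [Real.dist_eq]
    exact (hqd n).le
  have hqb : ∀ n, (q n).2 ∈ Icc (-t) t := by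
    intro n
    have h1 := hql n
    rw [mem_Icc, ← abs_le]
    exact abs_le_of_sq_le_sq (by nlinarith [sq_nonneg (h (q n).1)]) ht.le
  obtain ⟨b0, -, φ, hφ, hb0⟩ := isCompact_Icc.tendsto_subseq hqb
  have hlim : Tendsto (fun n => q (φ n)) atTop (𝓝 (y0, b0)) :=
    (hqy.comp hφ.tendsto_atTop).prodMk_nhds hb0
  have hS0 : (y0, b0) ∈ SS ρ h := SS_lim hc hlim (fun n => hqS _)
  have hl0 : h y0 ^ 2 + b0 ^ 2 = t ^ 2 := by
    have hcc : Continuous (fun q : ℝ × ℝ => h q.1 ^ 2 + q.2 ^ 2) := by fun_prop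
    have h1 := (hcc.tendsto (y0, b0)).comp hlim
    have h2 : ((fun q : ℝ × ℝ => h q.1 ^ 2 + q.2 ^ 2) ∘ fun n => q (φ n)) = fun _ => t ^ 2 :=
      funext fun n => hql (φ n)
    rw [h2] at h1
    exact (tendsto_nhds_unique h1 tendsto_const_nhds)
  have hb00 : b0 ≠ 0 := by
    intro h0
    rw [h0] at hS0 hl0
    exact hg1 y0 hS0 (by linarith)
  -- the conditions of rigidity hold eventually
  have hlim2 : Tendsto (fun n => (q (φ n), ((y0, b0) : ℝ × ℝ))) atTop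
      (𝓝 (((y0, b0) : ℝ × ℝ), ((y0, b0) : ℝ × ℝ))) := hlim.prodMk_nhds tendsto_const_nhds
  have hlim3 : Tendsto (fun n => (((y0, b0) : ℝ × ℝ), q (φ n))) atTop
      (𝓝 (((y0, b0) : ℝ × ℝ), ((y0, b0) : ℝ × ℝ))) := tendsto_const_nhds.prodMk_nhds hlim
  have hopen : ∀ᶠ p in 𝓝 (((y0, b0) : ℝ × ℝ), ((y0, b0) : ℝ × ℝ)),
      ρ * (p.2.1 - p.1.1) < Real.pi / 2 ∧ Real.sin (ρ * (p.2.1 - p.1.1)) *
      |(h p.1.1 * Real.cos (ρ * (p.2.1 - p.1.1)) + p.1.2 * Real.sin (ρ * (p.2.1 - p.1.1))) +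
        h p.2.1| < Real.cos (ρ * (p.2.1 - p.1.1)) *
      |(p.1.2 * Real.cos (ρ * (p.2.1 - p.1.1)) - h p.1.1 * Real.sin (ρ * (p.2.1 - p.1.1))) +
        p.2.2| := by
    refine Filter.Eventually.and ?_ ?_
    · have hcc : Continuous (fun p : (ℝ × ℝ) × (ℝ × ℝ) => ρ * (p.2.1 - p.1.1)) := by fun_prop
      refine (hcc.tendsto _).eventually (gt_mem_nhds ?_)
      simp only [sub_self, mul_zero]
      positivity
    · have hc1 : Continuous (fun p : (ℝ × ℝ) × (ℝ × ℝ) => Real.sin (ρ * (p.2.1 - p.1.1)) *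
        |(h p.1.1 * Real.cos (ρ * (p.2.1 - p.1.1)) + p.1.2 * Real.sin (ρ * (p.2.1 - p.1.1))) +
          h p.2.1|) := by fun_prop
      have hc2 : Continuous (fun p : (ℝ × ℝ) × (ℝ × ℝ) => Real.cos (ρ * (p.2.1 - p.1.1)) *
        |(p.1.2 * Real.cos (ρ * (p.2.1 - p.1.1)) - h p.1.1 * Real.sin (ρ * (p.2.1 - p.1.1))) +
          p.2.2|) := by fun_prop
      refine (isOpen_lt hc1 hc2).mem_nhds ?_
      simp only [mem_ofPred_eq, sub_self, mul_zero, Real.sin_zero, Real.cos_zero, zero_mul, mul_one,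
        one_mul, sub_zero]
      exact abs_pos.2 fun h0 => hb00 (by linarith)
  obtain ⟨n, ⟨hA1, hA2⟩, ⟨hB1, hB2⟩⟩ :=
    ((hlim2.eventually hopen).and (hlim3.eventually hopen)).exists
  simp only at hA1 hA2 hB1 hB2
  have hpi := Real.pi_pos
  rcases lt_or_gt_of_ne (hqne (φ n)) with hlt | hlt
  · have h1 := pair_rigid hρ (hqS (φ n)) hS0 hlt hA1 (by rw [hl0, hql]) hA2
    obtain ⟨r, hr⟩ := arc_rat hρ htc (hqS (φ n)) hlt (by rw [lt_div_iff₀ hρ]; linarith) h1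
    exact hg2 r (by rw [hr]; exact hql _)
  · have h1 := pair_rigid hρ hS0 (hqS (φ n)) hlt hB1 (by rw [hl0, hql]) hB2
    obtain ⟨r, hr⟩ := arc_rat hρ htc hS0 hlt (by rw [lt_div_iff₀ hρ]; linarith) h1
    exact hg2 r (by rw [hr]; exact hl0)

/-- sinusoidal minorants -/
theorem Crv.minor {ρ : ℝ} (hρ : 0 < ρ) {g b m : ℝ → ℝ} (h : Crv ρ g b m) {y z : ℝ}
    (hz : |z - y| ≤ Real.pi / ρ) :
    g y * Real.cos (ρ * (z - y)) + b y * Real.sin (ρ * (z - y)) ≤ g z := by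
  obtain ⟨w, hw⟩ : ∃ w : ℝ → ℝ, w = fun s => g s * Real.cos (ρ * (z - s)) +
    b s * Real.sin (ρ * (z - s)) := ⟨_, rfl⟩
  have hd : ∀ s, HasDerivAt w (m s / ρ * Real.sin (ρ * (z - s))) s := by
    intro s
    have hlin : HasDerivAt (fun s : ℝ => ρ * (z - s)) (-ρ) s := by
      have := ((hasDerivAt_id s).const_sub z).const_mul ρ
      refine this.congr_deriv ?_
      ring
    have h1 := ((h.hg s).mul hlin.cos).add ((h.hb s).mul hlin.sin)
    rw [hw]
    refine h1.congr_deriv ?_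
    ring
  have hwz : w z = g z := by
    rw [hw]
    simp
  have hwy : w y = g y * Real.cos (ρ * (z - y)) + b y * Real.sin (ρ * (z - y)) := by
    rw [hw]
  rw [← hwz, ← hwy]
  have hz' : ρ * |z - y| ≤ Real.pi := by
    rw [le_div_iff₀ hρ] at hz
    linarith
  rcases le_total y z with hyz | hzy
  · rw [abs_of_nonneg (by linarith)] at hz'
    have hmono : MonotoneOn w (Icc y z) := by
      refine monotoneOn_of_deriv_nonneg (convex_Icc _ _)
        (fun s _ => (hd s).continuousAt.continuousWithinAt)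
        (fun s _ => (hd s).differentiableAt.differentiableWithinAt) fun s hs => ?_
      rw [(hd s).deriv]
      have hsI : s ∈ Icc y z := interior_subset hs
      refine mul_nonneg (div_nonneg (h.m0 s) hρ.le) (Real.sin_nonneg_of_nonneg_of_le_pi ?_ ?_)
      · exact mul_nonneg hρ.le (by linarith [hsI.2])
      · nlinarith [hsI.1]
    exact hmono (left_mem_Icc.2 hyz) (right_mem_Icc.2 hyz) hyz
  · rw [abs_of_nonpos (by linarith)] at hz'
    have hanti : AntitoneOn w (Icc z y) := by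
      refine antitoneOn_of_deriv_nonpos (convex_Icc _ _)
        (fun s _ => (hd s).continuousAt.continuousWithinAt)
        (fun s _ => (hd s).differentiableAt.differentiableWithinAt) fun s hs => ?_
      rw [(hd s).deriv]
      have hsI : s ∈ Icc z y := interior_subset hs
      refine mul_nonpos_of_nonneg_of_nonpos (div_nonneg (h.m0 s) hρ.le) ?_
      refine Real.sin_nonpos_of_nonpos_of_neg_pi_le ?_ ?_
      · exact mul_nonpos_of_nonneg_of_nonpos hρ.le (by linarith [hsI.1])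
      · nlinarith [hsI.2]
    exact hanti (left_mem_Icc.2 hzy) (right_mem_Icc.2 hzy) hzy

/-- where mass is present and `|P|` is close to `t`, the curve is close to the level set of `h` -/
theorem near {ρ : ℝ} (hρ : 0 < ρ) {h : ℝ → ℝ} (hc : Continuous h) {t : ℝ} (ht : 0 < t)
    {ε : ℝ} (hε : 0 < ε) : ∃ δ : ℝ, 0 < δ ∧ ∀ g b m : ℝ → ℝ, Crv ρ g b m →
      (∀ y, g y ≤ h y + δ) → (∀ y, 0 < m y → h y - δ ≤ g y) → ∀ y ∈ Icc (0 : ℝ) (2 * Real.pi),
      0 < m y → |pq g b y - t ^ 2| ≤ δ → ∃ y' b', (y', b') ∈ SS ρ h ∧ h y' ^ 2 + b' ^ 2 = t ^ 2 ∧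
        |y - y'| < ε ∧ |g y - h y'| < ε ∧ |b y - b'| < ε := by
  by_contra hcon
  push Not at hcon
  have hseq : ∀ n : ℕ, ∃ (g b m : ℝ → ℝ) (y : ℝ), Crv ρ g b m ∧
      (∀ y, g y ≤ h y + 1 / ((n : ℝ) + 1)) ∧ (∀ y, 0 < m y → h y - 1 / ((n : ℝ) + 1) ≤ g y) ∧
      y ∈ Icc (0 : ℝ) (2 * Real.pi) ∧ 0 < m y ∧ |pq g b y - t ^ 2| ≤ 1 / ((n : ℝ) + 1) ∧
      ∀ y' b', (y', b') ∈ SS ρ h → h y' ^ 2 + b' ^ 2 = t ^ 2 →
        |y - y'| < ε → |g y - h y'| < ε → ε ≤ |b y - b'| := by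
    intro n
    obtain ⟨g, b, m, h1, h2, h3, y, h4, h5, h6, h7⟩ := hcon (1 / ((n : ℝ) + 1)) (by positivity)
    exact ⟨g, b, m, y, h1, h2, h3, h4, h5, h6, h7⟩
  choose g b m y hcrv hub hlb hyI hm hp hno using hseq
  have hδ1 : ∀ n : ℕ, 1 / ((n : ℝ) + 1) ≤ 1 := by
    intro n
    rw [div_le_one (by positivity)]
    linarith [(Nat.cast_nonneg n : (0 : ℝ) ≤ n)]
  have hbI : ∀ n, b n (y n) ∈ Icc (-(t + 1)) (t + 1) := by
    intro n
    rw [mem_Icc, ← abs_le]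
    refine abs_le_of_sq_le_sq ?_ (by linarith)
    have h1 := (abs_le.1 (hp n)).2
    unfold pq at h1
    nlinarith [sq_nonneg (g n (y n)), hδ1 n]
  obtain ⟨q0, -, φ, hφ, hlim⟩ := (isCompact_Icc.prod isCompact_Icc).tendsto_subseq
    (x := fun n => (y n, b n (y n))) (fun n => ⟨hyI n, hbI n⟩)
  obtain ⟨y0, b0⟩ := q0
  have hly : Tendsto (fun n => y (φ n)) atTop (𝓝 y0) := (continuous_fst.tendsto _).comp hlim
  have hlb' : Tendsto (fun n => b (φ n) (y (φ n))) atTop (𝓝 b0) :=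
    (continuous_snd.tendsto _).comp hlim
  have hδ0 : Tendsto (fun n => 1 / ((φ n : ℝ) + 1)) atTop (𝓝 0) :=
    tendsto_one_div_add_atTop_nhds_zero_nat.comp hφ.tendsto_atTop
  have hlg : Tendsto (fun n => g (φ n) (y (φ n))) atTop (𝓝 (h y0)) := by
    have h1 : Tendsto (fun n => h (y (φ n))) atTop (𝓝 (h y0)) := (hc.tendsto y0).comp hly
    have h2 : Tendsto (fun n => h (y (φ n)) - 1 / ((φ n : ℝ) + 1)) atTop (𝓝 (h y0)) := by
      have := h1.sub hδ0
      rwa [sub_zero] at this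
    have h3 : Tendsto (fun n => h (y (φ n)) + 1 / ((φ n : ℝ) + 1)) atTop (𝓝 (h y0)) := by
      have := h1.add hδ0
      rwa [add_zero] at this
    exact tendsto_of_tendsto_of_tendsto_of_le_of_le h2 h3
      (fun n => hlb (φ n) _ (hm (φ n))) (fun n => hub (φ n) _)
  have hS : (y0, b0) ∈ SS ρ h := by
    intro z hz
    have h1 : ∀ᶠ n in atTop, |z - y (φ n)| < Real.pi / ρ := by
      have : Tendsto (fun n => |z - y (φ n)|) atTop (𝓝 |z - y0|) :=
        (tendsto_const_nhds.sub hly).abs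
      exact this.eventually (gt_mem_nhds hz)
    have h2 : Tendsto (fun n => g (φ n) (y (φ n)) * Real.cos (ρ * (z - y (φ n))) +
        b (φ n) (y (φ n)) * Real.sin (ρ * (z - y (φ n)))) atTop
        (𝓝 (h y0 * Real.cos (ρ * (z - y0)) + b0 * Real.sin (ρ * (z - y0)))) := by
      have h3 : Tendsto (fun n => ρ * (z - y (φ n))) atTop (𝓝 (ρ * (z - y0))) :=
        (tendsto_const_nhds.sub hly).const_mul ρ
      exact (hlg.mul ((Real.continuous_cos.tendsto _).comp h3)).add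
        (hlb'.mul ((Real.continuous_sin.tendsto _).comp h3))
    have h4 : Tendsto (fun n => h z + 1 / ((φ n : ℝ) + 1)) atTop (𝓝 (h z)) := by
      have := (tendsto_const_nhds (x := h z)).add hδ0
      rwa [add_zero] at this
    refine le_of_tendsto_of_tendsto h2 h4 ?_
    filter_upwards [h1] with n hn
    exact ((hcrv (φ n)).minor hρ hn.le).trans (hub (φ n) z)
  have hlev : h y0 ^ 2 + b0 ^ 2 = t ^ 2 := by
    have h1 : Tendsto (fun n => pq (g (φ n)) (b (φ n)) (y (φ n))) atTop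
        (𝓝 (h y0 ^ 2 + b0 ^ 2)) := (hlg.pow 2).add (hlb'.pow 2)
    have h2 : Tendsto (fun n => pq (g (φ n)) (b (φ n)) (y (φ n))) atTop (𝓝 (t ^ 2)) := by
      rw [tendsto_iff_dist_tendsto_zero]
      refine squeeze_zero (fun n => dist_nonneg) (fun n => ?_) hδ0
      rw [Real.dist_eq]
      exact hp (φ n)
    exact tendsto_nhds_unique h1 h2
  have e1 : ∀ᶠ n in atTop, |y (φ n) - y0| < ε := by
    have : Tendsto (fun n => |y (φ n) - y0|) atTop (𝓝 |y0 - y0|) :=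
      (hly.sub tendsto_const_nhds).abs
    rw [sub_self, abs_zero] at this
    exact this.eventually (gt_mem_nhds hε)
  have e2 : ∀ᶠ n in atTop, |g (φ n) (y (φ n)) - h y0| < ε := by
    have : Tendsto (fun n => |g (φ n) (y (φ n)) - h y0|) atTop (𝓝 |h y0 - h y0|) :=
      (hlg.sub tendsto_const_nhds).abs
    rw [sub_self, abs_zero] at this
    exact this.eventually (gt_mem_nhds hε)
  have e3 : ∀ᶠ n in atTop, |b (φ n) (y (φ n)) - b0| < ε := by
    have : Tendsto (fun n => |b (φ n) (y (φ n)) - b0|) atTop (𝓝 |b0 - b0|) :=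
      (hlb'.sub tendsto_const_nhds).abs
    rw [sub_self, abs_zero] at this
    exact this.eventually (gt_mem_nhds hε)
  obtain ⟨n, h1, h2, h3⟩ := (e1.and (e2.and e3)).exists
  exact absurd (hno (φ n) y0 b0 hS hlev h1 h2) (not_le.2 h3)

/-- transfer relation -/
def Tr (ρ : ℝ) (φ g b m : ℝ → ℝ) (T α β : ℝ) (κ : ℂ) (Δ : ℝ) : Prop :=
  ‖Complex.exp (4 * I * ((∫ y in α..β, Fd ρ φ g b m y : ℝ) : ℂ)) * cc T (PP ρ g b β) -
    cc T (PP ρ g b α) * κ‖ ≤ Δ

theorem norm_exp4 (x : ℝ) : ‖Complex.exp (4 * I * (x : ℂ))‖ = 1 := by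
  have : (4 : ℂ) * I * (x : ℂ) = ((4 * x : ℝ) : ℂ) * I := by push_cast; ring
  rw [this, Complex.norm_exp_ofReal_mul_I]

theorem Tr.comp {ρ : ℝ} {φ g b m : ℝ → ℝ} {T α β γ : ℝ} {κ1 κ2 : ℂ} {Δ1 Δ2 : ℝ}
    (hF : Continuous (Fd ρ φ g b m)) (h1 : Tr ρ φ g b m T α γ κ1 Δ1)
    (h2 : Tr ρ φ g b m T γ β κ2 Δ2) (hκ : ‖κ2‖ = 1) :
    Tr ρ φ g b m T α β (κ1 * κ2) (Δ1 + Δ2) := by
  unfold Tr at *
  have e : Complex.exp (4 * I * ((∫ y in α..β, Fd ρ φ g b m y : ℝ) : ℂ)) =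
      Complex.exp (4 * I * ((∫ y in α..γ, Fd ρ φ g b m y : ℝ) : ℂ)) *
      Complex.exp (4 * I * ((∫ y in γ..β, Fd ρ φ g b m y : ℝ) : ℂ)) := by
    rw [← Complex.exp_add, ← intervalIntegral.integral_add_adjacent_intervals
      (hF.intervalIntegrable α γ) (hF.intervalIntegrable γ β)]
    congr 1
    push_cast
    ring
  obtain ⟨E1, hE1⟩ : ∃ E1, E1 = Complex.exp (4 * I * ((∫ y in α..γ, Fd ρ φ g b m y : ℝ) : ℂ)) :=
    ⟨_, rfl⟩
  obtain ⟨E2, hE2⟩ : ∃ E2, E2 = Complex.exp (4 * I * ((∫ y in γ..β, Fd ρ φ g b m y : ℝ) : ℂ)) :=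
    ⟨_, rfl⟩
  have hn1 : ‖E1‖ = 1 := by rw [hE1]; exact norm_exp4 _
  rw [e, ← hE1, ← hE2]
  rw [← hE1] at h1
  rw [← hE2] at h2
  have e2 : E1 * E2 * cc T (PP ρ g b β) - cc T (PP ρ g b α) * (κ1 * κ2) =
      (E1 * cc T (PP ρ g b γ) - cc T (PP ρ g b α) * κ1) * κ2 +
      E1 * (E2 * cc T (PP ρ g b β) - cc T (PP ρ g b γ) * κ2) := by ring
  rw [e2]
  refine (norm_add_le _ _).trans ?_
  rw [norm_mul, norm_mul, hκ, hn1, mul_one, one_mul]
  exact add_le_add h1 h2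

theorem Tr.mono {ρ : ℝ} {φ g b m : ℝ → ℝ} {T α β : ℝ} {κ : ℂ} {Δ1 Δ2 : ℝ}
    (h1 : Tr ρ φ g b m T α β κ Δ1) (h : Δ1 ≤ Δ2) : Tr ρ φ g b m T α β κ Δ2 :=
  le_trans h1 h

theorem local_data {ρ : ℝ} {h : ℝ → ℝ} {t : ℝ} (ht : 0 < t)
    (hg1 : ∀ y, (y, (0 : ℝ)) ∈ SS ρ h → h y ^ 2 ≠ t ^ 2) (Y : ℝ) :
    ∃ (β : ℝ) (xp xm : ℂ), 0 < β ∧ ‖xp‖ = t ∧ ‖xm‖ = t ∧ ∀ b' : ℝ, (Y, b') ∈ SS ρ h →
      h Y ^ 2 + b' ^ 2 = t ^ 2 →
      (b' = β ∧ xp = Complex.exp (ρ * Y * I) * (h Y + b' * I)) ∨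
      (b' = -β ∧ xm = Complex.exp (ρ * Y * I) * (h Y + b' * I)) := by
  by_cases hlt : h Y ^ 2 < t ^ 2
  · obtain ⟨β, hβ⟩ : ∃ β, β = √(t ^ 2 - h Y ^ 2) := ⟨_, rfl⟩
    have hβ0 : 0 < β := by rw [hβ]; exact Real.sqrt_pos.2 (by linarith)
    have hβ2 : β ^ 2 = t ^ 2 - h Y ^ 2 := by rw [hβ]; exact Real.sq_sqrt (by linarith)
    have hnorm : ∀ c : ℝ, c ^ 2 = β ^ 2 → ‖Complex.exp (ρ * Y * I) * (h Y + c * I)‖ = t := by
      intro c hc
      have h1 : ‖Complex.exp (ρ * Y * I)‖ = 1 := by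
        have : (ρ : ℂ) * Y * I = ((ρ * Y : ℝ) : ℂ) * I := by push_cast; ring
        rw [this, Complex.norm_exp_ofReal_mul_I]
      rw [norm_mul, h1, one_mul, Complex.norm_add_mul_I, hc, hβ2]
      rw [show h Y ^ 2 + (t ^ 2 - h Y ^ 2) = t ^ 2 by ring, Real.sqrt_sq ht.le]
    refine ⟨β, Complex.exp (ρ * Y * I) * (h Y + β * I),
      Complex.exp (ρ * Y * I) * (h Y + ((-β : ℝ) : ℂ) * I), hβ0, hnorm β rfl,
      hnorm (-β) (by ring), fun b' _ hlev => ?_⟩
    have h1 : b' ^ 2 = β ^ 2 := by linarith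
    rcases sq_eq_sq_iff_eq_or_eq_neg.1 h1 with h2 | h2
    · left
      exact ⟨h2, by rw [h2]⟩
    · right
      exact ⟨h2, by rw [h2]⟩
  · refine ⟨1, (t : ℂ), (t : ℂ), one_pos, ?_, ?_, fun b' hS hlev => ?_⟩
    · rw [Complex.norm_real, Real.norm_eq_abs, abs_of_pos ht]
    · rw [Complex.norm_real, Real.norm_eq_abs, abs_of_pos ht]
    · exfalso
      have h1 : b' ^ 2 = 0 := le_antisymm (by linarith) (sq_nonneg _)
      have h2 : b' = 0 := by simpa using h1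
      rw [h2] at hS hlev
      exact hg1 Y hS (by linarith)

theorem close_point {ρ : ℝ} (hρ : 0 < ρ) {t ε y Y G hY B b' : ℝ} {x : ℂ}
    (hx : ‖x‖ = t) (hxe : x = Complex.exp (ρ * Y * I) * (hY + b' * I)) (h1 : |y - Y| < ε)
    (h2 : |G - hY| < ε) (h3 : |B - b'| < ε) :
    ‖Complex.exp (ρ * y * I) * (G + B * I) - x‖ ≤ (ρ * t + 2) * ε := by
  have hn : ‖Complex.exp (ρ * y * I)‖ = 1 := by
    have : (ρ : ℂ) * y * I = ((ρ * y : ℝ) : ℂ) * I := by push_cast; ring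
    rw [this, Complex.norm_exp_ofReal_mul_I]
  have e1 : Complex.exp (ρ * y * I) = Complex.exp (I * ((ρ * (y - Y) : ℝ) : ℂ)) *
      Complex.exp (ρ * Y * I) := by
    rw [← Complex.exp_add]
    congr 1
    push_cast
    ring
  have e2 : Complex.exp (ρ * y * I) * (G + B * I) - x =
      (Complex.exp (I * ((ρ * (y - Y) : ℝ) : ℂ)) - 1) * x +
      Complex.exp (ρ * y * I) * (((G - hY : ℝ) : ℂ) + ((B - b' : ℝ) : ℂ) * I) := by
    rw [hxe, e1]
    push_cast
    ring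
  rw [e2]
  refine (norm_add_le _ _).trans ?_
  rw [norm_mul, norm_mul, hn, hx, one_mul]
  have h4 := Real.norm_exp_I_mul_ofReal_sub_one_le (x := ρ * (y - Y))
  rw [Real.norm_eq_abs, abs_mul, abs_of_pos hρ] at h4
  have h5 : ‖((G - hY : ℝ) : ℂ) + ((B - b' : ℝ) : ℂ) * I‖ ≤ |G - hY| + |B - b'| := by
    refine (norm_add_le _ _).trans ?_
    rw [norm_mul, Complex.norm_I, mul_one, Complex.norm_real, Complex.norm_real,
      Real.norm_eq_abs, Real.norm_eq_abs]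
  have ht : 0 ≤ t := by rw [← hx]; exact norm_nonneg _
  have h6 : ‖Complex.exp (I * ((ρ * (y - Y) : ℝ) : ℂ)) - 1‖ * t ≤ ρ * ε * t :=
    mul_le_mul_of_nonneg_right (h4.trans (mul_le_mul_of_nonneg_left h1.le hρ.le)) ht
  nlinarith

/-- the contribution of one interval -/
theorem interval_step {ρ : ℝ} (hρ : 0 < ρ) {φ g b m : ℝ → ℝ} {t d d1 d2 ε0 ε β H hY Y : ℝ}
    {xp xm : ℂ} (ht : 0 < t) (hd : 0 < d) (hdd : d ≤ d1) (hd2 : 0 < d2) (hε : 0 < ε)
    (hεε : ε ≤ ε0) (hβ : 0 < β) (hH : |hY| ≤ H) (h1ε : ε0 ≤ 1) (hβε : ε0 ≤ β / 2)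
    (hHε : (H + 1) * ρ * ε0 < β / 4)
    (hφ : Bmp φ (t ^ 2) d) (h : Crv ρ g b m) (hxp : ‖xp‖ = t) (hxm : ‖xm‖ = t)
    {α γ : ℝ} (hαγ : α ≤ γ) (hsub : ∀ y ∈ Icc α γ, |y - Y| < Real.pi / (4 * ρ))
    (hn1 : ∀ y ∈ Icc α γ, 0 < m y → |pq g b y - t ^ 2| ≤ d1 → ∃ b' : ℝ,
      ((b' = β ∧ xp = Complex.exp (ρ * Y * I) * (hY + b' * I)) ∨
      (b' = -β ∧ xm = Complex.exp (ρ * Y * I) * (hY + b' * I))) ∧ |y - Y| < ε0 ∧
        |g y - hY| < ε0 ∧ |b y - b'| < ε0)
    (hn2 : ∀ y ∈ Icc α γ, 0 < m y → |pq g b y - t ^ 2| ≤ d2 → ∃ b' : ℝ,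
      ((b' = β ∧ xp = Complex.exp (ρ * Y * I) * (hY + b' * I)) ∨
      (b' = -β ∧ xm = Complex.exp (ρ * Y * I) * (hY + b' * I))) ∧ |y - Y| < ε ∧
        |g y - hY| < ε ∧ |b y - b'| < ε) :
    ∃ κm κp : ℂ, (κm = 1 ∨ κm = xm / (starRingEnd ℂ) xm) ∧
      (κp = 1 ∨ κp = (starRingEnd ℂ) xp / xp) ∧
      Tr ρ φ g b m (t ^ 2) α γ (κm * κp)
        (2 * (d / (t * (β / 2)) + 2 * ((ρ * t + 2) * ε) / t)) := by
  have hT : 0 < t ^ 2 := by positivity
  have hpi := Real.pi_pos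
  obtain ⟨τ, hτ⟩ : ∃ τ : ℝ → ℝ, τ = fun y => g y * Real.sin (ρ * (y - Y)) +
    b y * Real.cos (ρ * (y - Y)) := ⟨_, rfl⟩
  have hcos : ∀ y ∈ Icc α γ, 1 / 2 ≤ Real.cos (ρ * (y - Y)) := by
    intro y hy
    have h1 := hsub y hy
    have h2 : |ρ * (y - Y)| ≤ 1 := by
      rw [abs_mul, abs_of_pos hρ]
      have h3 : ρ * |y - Y| ≤ ρ * (Real.pi / (4 * ρ)) := mul_le_mul_of_nonneg_left h1.le hρ.le
      have h4 : ρ * (Real.pi / (4 * ρ)) = Real.pi / 4 := by field_simp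
      have := Real.pi_le_four
      linarith
    have h3 := Real.one_sub_sq_div_two_le_cos (x := ρ * (y - Y))
    have h4 : (ρ * (y - Y)) ^ 2 ≤ 1 := by
      rw [← sq_abs]
      have := abs_nonneg (ρ * (y - Y))
      nlinarith
    linarith
  have hτd : ∀ y, HasDerivAt τ (m y / ρ * Real.cos (ρ * (y - Y))) y := by
    intro y
    have hlin : HasDerivAt (fun y : ℝ => ρ * (y - Y)) ρ y := by
      have := ((hasDerivAt_id y).sub_const Y).const_mul ρ
      rw [mul_one] at this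
      exact this
    have h1 := ((h.hg y).mul hlin.sin).add ((h.hb y).mul hlin.cos)
    rw [hτ]
    refine h1.congr_deriv ?_
    ring
  have hτc : Continuous τ := continuous_iff_continuousAt.2 fun y => (hτd y).continuousAt
  have hτm : MonotoneOn τ (Icc α γ) := by
    refine monotoneOn_of_deriv_nonneg (convex_Icc _ _) hτc.continuousOn
      (fun y _ => (hτd y).differentiableAt.differentiableWithinAt) fun y hy => ?_
    rw [(hτd y).deriv]
    have := hcos y (interior_subset hy)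
    exact mul_nonneg (div_nonneg (h.m0 y) hρ.le) (by linarith)
  have hε0 : 0 < ε0 := hε.trans_le hεε
  have hgsin : ∀ y, |y - Y| < ε0 → |g y - hY| < ε0 →
      |g y * Real.sin (ρ * (y - Y))| ≤ (H + 1) * ρ * ε0 := by
    intro y h1 h2
    rw [abs_mul]
    have h3 : |Real.sin (ρ * (y - Y))| ≤ ρ * ε0 := by
      refine (Real.abs_sin_le_abs).trans ?_
      rw [abs_mul, abs_of_pos hρ]
      exact mul_le_mul_of_nonneg_left h1.le hρ.le
    have h4 : |g y| ≤ H + 1 := by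
      have h5 : |g y| ≤ |g y - hY| + |hY| := by
        have := abs_add_le (g y - hY) hY
        rwa [sub_add_cancel] at this
      linarith
    calc |g y| * |Real.sin (ρ * (y - Y))| ≤ (H + 1) * (ρ * ε0) :=
          mul_le_mul h4 h3 (abs_nonneg _) (by linarith [abs_nonneg (g y)])
      _ = (H + 1) * ρ * ε0 := by ring
  -- sign exclusion
  have hexp : ∀ y ∈ Icc α γ, |y - Y| < ε0 → |g y - hY| < ε0 → |b y - β| < ε0 → 0 < τ y := by
    intro y hy h1 h2 h3
    have h4 := (abs_le.1 (hgsin y h1 h2)).1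
    have h5 := hcos y hy
    have h6 : β / 2 ≤ b y := by linarith [(abs_lt.1 h3).1]
    have h7 : β / 2 * (1 / 2) ≤ b y * Real.cos (ρ * (y - Y)) :=
      mul_le_mul h6 h5 (by norm_num) (by linarith)
    rw [hτ]
    simp only
    linarith
  have hexm : ∀ y ∈ Icc α γ, |y - Y| < ε0 → |g y - hY| < ε0 → |b y - -β| < ε0 → τ y < 0 := by
    intro y hy h1 h2 h3
    have h4 := (abs_le.1 (hgsin y h1 h2)).2
    have h5 := hcos y hy
    have h6 : β / 2 ≤ -b y := by linarith [(abs_lt.1 h3).2]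
    have h7 : β / 2 * (1 / 2) ≤ -b y * Real.cos (ρ * (y - Y)) :=
      mul_le_mul h6 h5 (by norm_num) (by linarith)
    rw [hτ]
    simp only
    linarith
  -- hypotheses of the crossing lemmas
  have hm1 : ∀ y ∈ Icc α γ, τ y ≤ 0 → 0 < m y → |pq g b y - t ^ 2| ≤ d1 → b y ≤ -(β / 2) := by
    intro y hy hτy hm hp
    obtain ⟨b', hb', k1, k2, k3⟩ := hn1 y hy hm hp
    rcases hb' with ⟨hb', -⟩ | ⟨hb', -⟩
    · rw [hb'] at k3
      linarith [hexp y hy k1 k2 k3]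
    · rw [hb'] at k3
      linarith [(abs_lt.1 k3).2]
  have hp1 : ∀ y ∈ Icc α γ, 0 ≤ τ y → 0 < m y → |pq g b y - t ^ 2| ≤ d1 → β / 2 ≤ b y := by
    intro y hy hτy hm hp
    obtain ⟨b', hb', k1, k2, k3⟩ := hn1 y hy hm hp
    rcases hb' with ⟨hb', -⟩ | ⟨hb', -⟩
    · rw [hb'] at k3
      linarith [(abs_lt.1 k3).1]
    · rw [hb'] at k3
      linarith [hexm y hy k1 k2 k3]
  have hm2 : ∀ y ∈ Icc α γ, τ y ≤ 0 → 0 < m y → |pq g b y - t ^ 2| ≤ d2 →
      ‖PP ρ g b y - xm‖ ≤ (ρ * t + 2) * ε := by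
    intro y hy hτy hm hp
    obtain ⟨b', hb', k1, k2, k3⟩ := hn2 y hy hm hp
    rcases hb' with ⟨hb', -⟩ | ⟨hb', hxe⟩
    · rw [hb'] at k3
      linarith [hexp y hy (k1.trans_le hεε) (k2.trans_le hεε) (k3.trans_le hεε)]
    · exact close_point hρ hxm hxe k1 k2 k3
  have hp2 : ∀ y ∈ Icc α γ, 0 ≤ τ y → 0 < m y → |pq g b y - t ^ 2| ≤ d2 →
      ‖PP ρ g b y - xp‖ ≤ (ρ * t + 2) * ε := by
    intro y hy hτy hm hp
    obtain ⟨b', hb', k1, k2, k3⟩ := hn2 y hy hm hp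
    rcases hb' with ⟨hb', hxe⟩ | ⟨hb', -⟩
    · exact close_point hρ hxp hxe k1 k2 k3
    · rw [hb'] at k3
      linarith [hexm y hy (k1.trans_le hεε) (k2.trans_le hεε) (k3.trans_le hεε)]
  have hβ2 : 0 < β / 2 := by linarith
  have hCε : 0 ≤ (ρ * t + 2) * ε := by positivity
  obtain ⟨Δ, hΔ⟩ : ∃ Δ, Δ = d / (t * (β / 2)) + 2 * ((ρ * t + 2) * ε) / t := ⟨_, rfl⟩
  have hΔ0 : 0 ≤ Δ := by rw [hΔ]; positivity
  rw [← hΔ]
  have hxp0 : xp ≠ 0 := by
    intro h0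
    rw [h0, norm_zero] at hxp
    linarith
  by_cases hA : τ γ ≤ 0
  · obtain ⟨κ, hκ, hle⟩ := cross_minus hρ ht hd hdd hd2 hβ2 hCε hφ h hαγ hxm
      (fun y hy => hm1 y hy ((hτm hy (right_mem_Icc.2 hαγ) hy.2).trans hA))
      (fun y hy => hm2 y hy ((hτm hy (right_mem_Icc.2 hαγ) hy.2).trans hA))
    refine ⟨κ, 1, hκ, Or.inl rfl, ?_⟩
    rw [mul_one]
    rw [← hΔ] at hle
    exact Tr.mono hle (by linarith)
  · push Not at hA
    by_cases hB : 0 ≤ τ α
    · obtain ⟨κ, hκ, hle⟩ := cross_plus hρ ht hd hdd hd2 hβ2 hCε hφ h hαγ hxp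
        (fun y hy => hp1 y hy (hB.trans (hτm (left_mem_Icc.2 hαγ) hy hy.1)))
        (fun y hy => hp2 y hy (hB.trans (hτm (left_mem_Icc.2 hαγ) hy hy.1)))
      refine ⟨1, κ, Or.inl rfl, hκ, ?_⟩
      rw [one_mul]
      rw [← hΔ] at hle
      exact Tr.mono hle (by linarith)
    · push Not at hB
      obtain ⟨y0, hy0, hy0z⟩ := intermediate_value_Icc hαγ hτc.continuousOn
        (⟨hB.le, hA.le⟩ : (0 : ℝ) ∈ Icc (τ α) (τ γ))
      have hIm : ∀ y ∈ Icc α y0, y ∈ Icc α γ := fun y hy => ⟨hy.1, hy.2.trans hy0.2⟩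
      have hIp : ∀ y ∈ Icc y0 γ, y ∈ Icc α γ := fun y hy => ⟨hy0.1.trans hy.1, hy.2⟩
      obtain ⟨κm, hκm, hlem⟩ := cross_minus hρ ht hd hdd hd2 hβ2 hCε hφ h hy0.1 hxm
        (fun y hy => hm1 y (hIm y hy) ((hτm (hIm y hy) hy0 hy.2).trans hy0z.le))
        (fun y hy => hm2 y (hIm y hy) ((hτm (hIm y hy) hy0 hy.2).trans hy0z.le))
      obtain ⟨κp, hκp, hlep⟩ := cross_plus hρ ht hd hdd hd2 hβ2 hCε hφ h hy0.2 hxp
        (fun y hy => hp1 y (hIp y hy) (hy0z.ge.trans (hτm hy0 (hIp y hy) hy.1)))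
        (fun y hy => hp2 y (hIp y hy) (hy0z.ge.trans (hτm hy0 (hIp y hy) hy.1)))
      refine ⟨κm, κp, hκm, hκp, ?_⟩
      rw [← hΔ] at hlem hlep
      have hκpn : ‖κp‖ = 1 := by
        rcases hκp with hκp | hκp
        · rw [hκp, norm_one]
        · rw [hκp, norm_div, RCLike.norm_conj, div_self (norm_ne_zero_iff.2 hxp0)]
      have hcomp := Tr.comp (Fd_cont hφ hT h) hlem hlep hκpn
      rw [two_mul]
      exact hcomp

/-- finite sets of products -/
def VV (A B : ℕ → Set ℂ) : ℕ → Set ℂ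
  | 0 => {1}
  | n + 1 => image2 (· * ·) (VV A B n) (image2 (· * ·) (A n) (B n))

theorem VV_finite {A B : ℕ → Set ℂ} (hA : ∀ n, (A n).Finite) (hB : ∀ n, (B n).Finite) (n : ℕ) :
    (VV A B n).Finite := by
  induction n with
  | zero => exact Set.finite_singleton 1
  | succ n ih => exact ih.image2 _ ((hA n).image2 _ (hB n))

theorem VV_norm {A B : ℕ → Set ℂ} (hA : ∀ n, ∀ x ∈ A n, ‖x‖ = 1) (hB : ∀ n, ∀ x ∈ B n, ‖x‖ = 1)
    (n : ℕ) : ∀ v ∈ VV A B n, ‖v‖ = 1 := by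
  induction n with
  | zero =>
    intro v hv
    have : v = 1 := hv
    rw [this, norm_one]
  | succ n ih =>
    rintro v ⟨u, hu, w, ⟨a, ha, b, hb, rfl⟩, rfl⟩
    simp only [norm_mul]
    rw [ih u hu, hA n a ha, hB n b hb]
    norm_num

theorem finite_real {S : Set ℂ} (hS : S.Finite) (A : ℝ) :
    {w : ℝ | |w| ≤ A ∧ Complex.exp (4 * I * (w : ℂ)) ∈ S}.Finite := by
  have e : {w : ℝ | |w| ≤ A ∧ Complex.exp (4 * I * (w : ℂ)) ∈ S} =
      ⋃ v ∈ S, {w : ℝ | |w| ≤ A ∧ Complex.exp (4 * I * (w : ℂ)) = v} := by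
    ext w
    simp only [mem_setOf_eq, mem_iUnion, exists_prop]
    constructor
    · rintro ⟨h1, h2⟩
      exact ⟨_, h2, h1, rfl⟩
    · rintro ⟨v, h2, h1, rfl⟩
      exact ⟨h1, h2⟩
  rw [e]
  refine hS.biUnion fun v _ => ?_
  rcases Set.eq_empty_or_nonempty {w : ℝ | |w| ≤ A ∧ Complex.exp (4 * I * (w : ℂ)) = v} with
    he | ⟨w0, hw0, hv⟩
  · rw [he]
    exact finite_empty
  · obtain ⟨N, hN⟩ := exists_nat_ge (4 * A)
    refine ((Set.finite_Icc (-(N : ℤ)) N).image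
      (fun n : ℤ => w0 + n * (Real.pi / 2))).subset ?_
    rintro w ⟨hw, hwv⟩
    rw [← hv, Complex.exp_eq_exp_iff_exists_int] at hwv
    obtain ⟨n, hn⟩ := hwv
    have h1 : w = w0 + n * (Real.pi / 2) := by
      have := congrArg Complex.im hn
      simp at this
      linarith
    refine ⟨n, ?_, h1.symm⟩
    have h2 : |(n : ℝ)| * (Real.pi / 2) ≤ 2 * A := by
      have h3 : (n : ℝ) * (Real.pi / 2) = w - w0 := by linarith
      have h4 : |(n : ℝ) * (Real.pi / 2)| = |(n : ℝ)| * (Real.pi / 2) := by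
        rw [abs_mul, abs_of_pos (by positivity : (0 : ℝ) < Real.pi / 2)]
      rw [← h4, h3]
      refine (abs_sub _ _).trans ?_
      linarith
    have h5 : |(n : ℝ)| ≤ N := by
      have h6 : |(n : ℝ)| * 1 ≤ |(n : ℝ)| * (Real.pi / 2) :=
        mul_le_mul_of_nonneg_left (by linarith [Real.pi_gt_three]) (abs_nonneg _)
      have hA : 0 ≤ A := (abs_nonneg w).trans hw
      linarith
    rw [abs_le] at h5
    constructor
    · exact_mod_cast h5.1
    · exact_mod_cast h5.2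

theorem near_real {v : ℂ} (hv : ‖v‖ = 1) {W Δ : ℝ}
    (h : ‖Complex.exp (4 * I * (W : ℂ)) - v‖ ≤ Δ) :
    ∃ w : ℝ, Complex.exp (4 * I * (w : ℂ)) = v ∧ |W - w| ≤ Δ ∧ |W - w| ≤ 1 := by
  obtain ⟨E, hE⟩ : ∃ E, E = Complex.exp (4 * I * (W : ℂ)) := ⟨_, rfl⟩
  have hEn : ‖E‖ = 1 := by rw [hE]; exact norm_exp4 _
  have hE0 : E ≠ 0 := by
    intro h0
    rw [h0, norm_zero] at hEn
    exact zero_ne_one hEn
  have hv0 : v ≠ 0 := by
    intro h0
    rw [h0, norm_zero] at hv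
    exact zero_ne_one hv
  rw [← hE] at h
  have hΔ : 0 ≤ Δ := (norm_nonneg _).trans h
  obtain ⟨ψ, hψ⟩ : ∃ ψ, ψ = (v / E).arg := ⟨_, rfl⟩
  have h1 : |ψ| ≤ Real.pi / 2 * Δ := by
    rw [hψ, ← Complex.angle_eq_abs_arg hv0 hE0]
    refine (Complex.angle_le_mul_norm_sub hv hEn).trans ?_
    rw [norm_sub_rev]
    exact mul_le_mul_of_nonneg_left h (by positivity)
  have h2 : |ψ| ≤ Real.pi := by rw [hψ]; exact Complex.abs_arg_le_pi _
  have hexp : Complex.exp (ψ * I) = v / E := by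
    have h3 := Complex.norm_mul_exp_arg_mul_I (v / E)
    rw [norm_div, hv, hEn, ← hψ] at h3
    simpa using h3
  refine ⟨W + ψ / 4, ?_, ?_, ?_⟩
  · have e1 : 4 * I * ((W + ψ / 4 : ℝ) : ℂ) = 4 * I * (W : ℂ) + ψ * I := by
      push_cast
      ring
    rw [e1, Complex.exp_add, ← hE, hexp, mul_div_cancel₀ _ hE0]
  · have e1 : W - (W + ψ / 4) = -(ψ / 4) := by ring
    rw [e1, abs_neg, abs_div, abs_of_pos (by norm_num : (0 : ℝ) < 4)]
    have := Real.pi_le_four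
    rw [div_le_iff₀ (by norm_num)]
    nlinarith
  · have e1 : W - (W + ψ / 4) = -(ψ / 4) := by ring
    rw [e1, abs_neg, abs_div, abs_of_pos (by norm_num : (0 : ℝ) < 4)]
    have := Real.pi_le_four
    rw [div_le_iff₀ (by norm_num)]
    linarith

theorem W_bound {ρ : ℝ} (hρ : 0 < ρ) {φ g b m : ℝ → ℝ} {t d : ℝ} (ht : 0 < t)
    (hφ : Bmp φ (t ^ 2) d) (h : Crv ρ g b m) (hb0 : b (2 * Real.pi) = b 0) {H : ℝ}
    (hH : ∀ y, g y ≤ H) :
    |∫ y in (0 : ℝ)..(2 * Real.pi), Fd ρ φ g b m y| ≤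
      1 / (2 * ρ * t) * (ρ ^ 2 * (H * (2 * Real.pi))) := by
  have hT : 0 < t ^ 2 := by positivity
  have hpi : (0 : ℝ) ≤ 2 * Real.pi := by positivity
  have hFc := Fd_cont (ρ := ρ) (g := g) (b := b) (m := m) hφ hT h
  have hmc := h.mc
  have hgc := h.gc
  have hpt : ∀ y, |Fd ρ φ g b m y| ≤ 1 / (2 * ρ * t) * m y := by
    intro y
    by_cases hp : pq g b y ≤ t ^ 2
    · rw [Fd_zero hφ hT hp, abs_zero]
      have := h.m0 y
      positivity
    · push Not at hp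
      have hp0 : 0 < pq g b y := hT.trans hp
      have hm := h.m0 y
      unfold Fd
      rw [abs_mul, abs_mul, abs_mul, abs_of_nonneg hm, abs_of_nonneg
        (div_nonneg (Bf_nonneg hφ hT _) hp0.le), abs_of_pos (by positivity : 0 < 1 / (2 * ρ))]
      have hg : |g y| * t ≤ pq g b y := by
        have h1 : |g y| ^ 2 ≤ pq g b y := by
          rw [sq_abs]
          unfold pq
          nlinarith [sq_nonneg (b y)]
        have h2 : 0 ≤ |g y| := abs_nonneg _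
        nlinarith [sq_nonneg (|g y| - t)]
      have h1 : Bf φ (pq g b y) / pq g b y * |g y| ≤ 1 / t := by
        rw [div_mul_eq_mul_div, div_le_div_iff₀ hp0 ht]
        have h2 := Bf_le_one hφ hT (pq g b y)
        have h3 := Bf_nonneg hφ hT (pq g b y)
        have h4 : 0 ≤ |g y| * t := by positivity
        nlinarith
      have h2 : 1 / (2 * ρ) * (Bf φ (pq g b y) / pq g b y) * |g y| * m y =
          (1 / (2 * ρ) * m y) * (Bf φ (pq g b y) / pq g b y * |g y|) := by ring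
      have h3 : 1 / (2 * ρ * t) * m y = (1 / (2 * ρ) * m y) * (1 / t) := by
        field_simp
      rw [h2, h3]
      exact mul_le_mul_of_nonneg_left h1 (by positivity)
  have hint : ∫ y in (0 : ℝ)..(2 * Real.pi), m y ≤ ρ ^ 2 * (H * (2 * Real.pi)) := by
    have h1 : ∫ y in (0 : ℝ)..(2 * Real.pi), (m y / ρ - ρ * g y) = 0 := by
      rw [intervalIntegral.integral_eq_sub_of_hasDerivAt (fun y _ => h.hb y)
        (Continuous.intervalIntegrable (by fun_prop) _ _), hb0, sub_self]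
    rw [intervalIntegral.integral_sub (Continuous.intervalIntegrable (by fun_prop) _ _)
      (Continuous.intervalIntegrable (by fun_prop) _ _), intervalIntegral.integral_div,
      intervalIntegral.integral_const_mul] at h1
    have h2 : ∫ y in (0 : ℝ)..(2 * Real.pi), g y ≤ H * (2 * Real.pi) := by
      calc ∫ y in (0 : ℝ)..(2 * Real.pi), g y ≤ ∫ y in (0 : ℝ)..(2 * Real.pi), H :=
            intervalIntegral.integral_mono_on hpi (hgc.intervalIntegrable _ _) (by simp)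
              fun y _ => hH y
        _ = H * (2 * Real.pi) := by simp; ring
    have h3 : ∫ y in (0 : ℝ)..(2 * Real.pi), m y =
        ρ ^ 2 * ∫ y in (0 : ℝ)..(2 * Real.pi), g y := by
      have h4 : (∫ y in (0 : ℝ)..(2 * Real.pi), m y) / ρ =
        ρ * ∫ y in (0 : ℝ)..(2 * Real.pi), g y := by linarith
      rw [div_eq_iff hρ.ne'] at h4
      rw [h4]
      ring
    rw [h3]
    exact mul_le_mul_of_nonneg_left h2 (by positivity)
  calc |∫ y in (0 : ℝ)..(2 * Real.pi), Fd ρ φ g b m y|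
      ≤ ∫ y in (0 : ℝ)..(2 * Real.pi), |Fd ρ φ g b m y| :=
        intervalIntegral.abs_integral_le_integral_abs hpi
    _ ≤ ∫ y in (0 : ℝ)..(2 * Real.pi), 1 / (2 * ρ * t) * m y :=
        intervalIntegral.integral_mono_on hpi (hFc.abs.intervalIntegrable _ _)
          (Continuous.intervalIntegrable (by fun_prop) _ _) fun y _ => hpt y
    _ = 1 / (2 * ρ * t) * ∫ y in (0 : ℝ)..(2 * Real.pi), m y :=
        intervalIntegral.integral_const_mul _ _
    _ ≤ _ := mul_le_mul_of_nonneg_left hint (by positivity)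

theorem exists_pos_le (f : ℕ → ℝ) (hf : ∀ n, 0 < f n) (M : ℕ) :
    ∃ c : ℝ, 0 < c ∧ ∀ n < M, c ≤ f n := by
  induction M with
  | zero => exact ⟨1, one_pos, fun n hn => absurd hn (Nat.not_lt_zero n)⟩
  | succ M ih =>
    obtain ⟨c, hc, h⟩ := ih
    refine ⟨min c (f M), lt_min hc (hf M), fun n hn => ?_⟩
    rcases Nat.lt_succ_iff_lt_or_eq.1 hn with h1 | h1
    · exact (min_le_left _ _).trans (h n h1)
    · rw [h1]
      exact min_le_right _ _

theorem cc_period {ρ : ℝ} {g b : ℝ → ℝ} {T : ℝ}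
    (hg0 : g (2 * Real.pi) = g 0) (hb0 : b (2 * Real.pi) = b 0) :
    ∃ ω ∈ ({1, (starRingEnd ℂ) (Complex.exp (ρ * ((2 * Real.pi : ℝ) : ℂ) * I)) /
      Complex.exp (ρ * ((2 * Real.pi : ℝ) : ℂ) * I)} : Set ℂ),
      cc T (PP ρ g b (2 * Real.pi)) = cc T (PP ρ g b 0) * ω := by
  obtain ⟨l, hl⟩ : ∃ l, l = Complex.exp (ρ * ((2 * Real.pi : ℝ) : ℂ) * I) := ⟨_, rfl⟩
  have hP : PP ρ g b (2 * Real.pi) = l * PP ρ g b 0 := by
    unfold PP
    rw [hg0, hb0, hl]
    simp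
  have hl1 : Complex.normSq l = 1 := by
    rw [hl, Complex.normSq_eq_norm_sq]
    have : (ρ : ℂ) * ((2 * Real.pi : ℝ) : ℂ) * I = ((ρ * (2 * Real.pi) : ℝ) : ℂ) * I := by
      push_cast
      ring
    rw [this, Complex.norm_exp_ofReal_mul_I, one_pow]
  rw [← hl]
  by_cases hT : T < Complex.normSq (PP ρ g b 0)
  · refine ⟨(starRingEnd ℂ) l / l, by simp, ?_⟩
    unfold cc
    rw [hP, map_mul, hl1, one_mul, if_pos hT, if_pos hT, map_mul]
    rw [mul_div_mul_comm, mul_comm]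
  · refine ⟨1, by simp, ?_⟩
    unfold cc
    rw [hP, map_mul, hl1, one_mul, if_neg hT, if_neg hT, mul_one]

/-- TARGET: quantization. `h` is the (continuous, `2π`-periodic, `ρ`-trigonometrically convex) obstacle.
For some `t` in any given interval there are a finite set `V` and `Ct` such that for small `d` every
smooth `2π`-periodic `g` with `g'' + ρ² g ≥ 0`, `g ≤ h + η`, and `g ≥ h - η` wherever `g'' + ρ² g > 0`,
has `W1(g)` within `Ct * d` of `V` (for `η ≤ η(d)`). -/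
theorem quantization (ρ : ℝ) (hρ : 0 < ρ) (h : ℝ → ℝ) (hc : Continuous h)
    (hper : ∀ y, h (y + 2 * Real.pi) = h y) (htc : TrigConvex ρ h) (θ : ℝ → ℝ) (hθ : BumpOne θ)
    (t1 t2 : ℝ) (ht1 : 0 < t1) (ht : t1 < t2) :
    ∃ t ∈ Ioo t1 t2, ∃ (V : Finset ℝ) (Ct d0 : ℝ), 0 < Ct ∧ 0 < d0 ∧ ∀ d ∈ Ioo (0 : ℝ) d0,
      ∃ η : ℝ, 0 < η ∧ ∀ g : ℝ → ℝ, ContDiff ℝ 4 g → (∀ y, g (y + 2 * Real.pi) = g y) →
        (∀ y, 0 ≤ deriv (deriv g) y + ρ ^ 2 * g y) → (∀ y, g y ≤ h y + η) →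
        (∀ y, 0 < deriv (deriv g) y + ρ ^ 2 * g y → h y - η ≤ g y) →
        ∃ v ∈ V, |W1 ρ (wtt θ t d) g - v| ≤ Ct * d := by
  obtain ⟨t, htI, hg1, hg2⟩ := generic_t hρ hc hper ht1 ht
  have ht0 : 0 < t := ht1.trans htI.1
  have hT : 0 < t ^ 2 := by positivity
  refine ⟨t, htI, ?_⟩
  obtain ⟨H, hH0, hH⟩ := exists_bound hc hper
  have hpi := Real.pi_pos
  have hpi2 : (0 : ℝ) ≤ 2 * Real.pi := by positivity
  choose r hr0 hr using local_disc hρ hc htc ht0 hg1 hg2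
  obtain ⟨r', hr'⟩ : ∃ r' : ℝ → ℝ, r' = fun y => min (r y) (Real.pi / (4 * ρ)) := ⟨_, rfl⟩
  have hr'0 : ∀ y, 0 < r' y := by
    intro y
    rw [hr']
    exact lt_min (hr0 y) (by positivity)
  obtain ⟨z, hz0, hzm, ⟨M, hM⟩, hz⟩ := exists_monotone_Icc_subset_open_cover_Icc hpi2
    (c := fun y0 : ℝ => {z : Icc (0 : ℝ) (2 * Real.pi) | |(z : ℝ) - y0| < r' y0 / 2})
    (fun y0 => isOpen_lt (by fun_prop) continuous_const)
    (fun z _ => mem_iUnion.2 ⟨(z : ℝ), by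
      simp only [mem_setOf_eq, sub_self, abs_zero]
      exact half_pos (hr'0 _)⟩)
  choose Y hY using hz
  choose β xp xm hβ0 hxp hxm hdata using local_data (ρ := ρ) ht0 hg1
  -- small parameters
  obtain ⟨ε0, hε0, hε0le⟩ := exists_pos_le (fun n => min (min (r' (Y n) / 2) (β (Y n) / 2))
    (min 1 (β (Y n) / (8 * ((H + 1) * ρ))))) (fun n => by
      have := hr'0 (Y n)
      have := hβ0 (Y n)
      have : 0 < (H + 1) * ρ := by positivity
      positivity) (M + 1)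
  obtain ⟨βm, hβm, hβmle⟩ := exists_pos_le (fun n => β (Y n) / 2)
    (fun n => half_pos (hβ0 (Y n))) (M + 1)
  obtain ⟨δ0, hδ0, hnear0⟩ := near hρ hc ht0 hε0
  obtain ⟨A, hA⟩ : ∃ A : ℕ → Set ℂ, A = fun n => {1, xm (Y n) / (starRingEnd ℂ) (xm (Y n))} :=
    ⟨_, rfl⟩
  obtain ⟨B, hB⟩ : ∃ B : ℕ → Set ℂ, B = fun n => {1, (starRingEnd ℂ) (xp (Y n)) / xp (Y n)} :=
    ⟨_, rfl⟩
  have hxp0 : ∀ y, xp y ≠ 0 := by
    intro y h0
    have := hxp y
    rw [h0, norm_zero] at this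
    linarith
  have hxm0 : ∀ y, xm y ≠ 0 := by
    intro y h0
    have := hxm y
    rw [h0, norm_zero] at this
    linarith
  have hAn : ∀ n, ∀ x ∈ A n, ‖x‖ = 1 := by
    intro n x hx
    rw [hA] at hx
    rcases hx with rfl | hx
    · exact norm_one
    · rw [mem_singleton_iff.1 hx, norm_div, RCLike.norm_conj,
        div_self (norm_ne_zero_iff.2 (hxm0 _))]
  have hBn : ∀ n, ∀ x ∈ B n, ‖x‖ = 1 := by
    intro n x hx
    rw [hB] at hx
    rcases hx with rfl | hx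
    · exact norm_one
    · rw [mem_singleton_iff.1 hx, norm_div, RCLike.norm_conj,
        div_self (norm_ne_zero_iff.2 (hxp0 _))]
  have hVfin : (VV A B M).Finite := VV_finite (fun n => by rw [hA]; simp) (fun n => by rw [hB]; simp) M
  have hVn := VV_norm hAn hBn
  obtain ⟨Ω, hΩ⟩ : ∃ Ω : Set ℂ, Ω = {1, (starRingEnd ℂ) (Complex.exp (ρ * ((2 * Real.pi : ℝ) : ℂ) * I)) /
      Complex.exp (ρ * ((2 * Real.pi : ℝ) : ℂ) * I)} := ⟨_, rfl⟩
  have hΩn : ∀ ω ∈ Ω, ‖ω‖ = 1 := by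
    intro x hx
    rw [hΩ] at hx
    rcases hx with rfl | hx
    · exact norm_one
    · rw [mem_singleton_iff.1 hx, norm_div, RCLike.norm_conj,
        div_self (norm_ne_zero_iff.2 (Complex.exp_ne_zero _))]
  have hSfin : (image2 (· / ·) (VV A B M) Ω).Finite := hVfin.image2 _ (by rw [hΩ]; simp)
  obtain ⟨C0, hC0⟩ : ∃ C0, C0 = 1 / (2 * ρ * t) * (ρ ^ 2 * ((H + 1) * (2 * Real.pi))) := ⟨_, rfl⟩
  have hfin := finite_real hSfin (C0 + 1)
  obtain ⟨K, hK⟩ : ∃ K, K = 1 / (t * βm) + 2 * (ρ * t + 2) / t := ⟨_, rfl⟩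
  have hK0 : 0 < K := by rw [hK]; positivity
  refine ⟨hfin.toFinset, (M : ℝ) * (2 * K) + 1, δ0, by positivity, hδ0, fun d hd => ?_⟩
  have hd0 : 0 < d := hd.1
  obtain ⟨ε, hε⟩ : ∃ ε, ε = min ε0 d := ⟨_, rfl⟩
  have hεpos : 0 < ε := by rw [hε]; exact lt_min hε0 hd0
  have hεε : ε ≤ ε0 := by rw [hε]; exact min_le_left _ _
  have hεd : ε ≤ d := by rw [hε]; exact min_le_right _ _
  obtain ⟨δ, hδ, hnear⟩ := near hρ hc ht0 hεpos
  refine ⟨min (min δ0 δ) 1, by positivity, fun g hgs hgper hgm hgub hglb => ?_⟩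
  have hη0 : min (min δ0 δ) 1 ≤ δ0 := (min_le_left _ _).trans (min_le_left _ _)
  have hη1 : min (min δ0 δ) 1 ≤ δ := (min_le_left _ _).trans (min_le_right _ _)
  have hη2 : min (min δ0 δ) 1 ≤ 1 := min_le_right _ _
  -- the curve
  obtain ⟨b, hb⟩ : ∃ b : ℝ → ℝ, b = fun y => deriv g y / ρ := ⟨_, rfl⟩
  obtain ⟨m, hm⟩ : ∃ m : ℝ → ℝ, m = fun y => deriv (deriv g) y + ρ ^ 2 * g y := ⟨_, rfl⟩
  have hgs2 : ContDiff ℝ 2 g := hgs.of_le (by norm_num)
  have hdg1 : ContDiff ℝ 1 (deriv g) := by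
    have : ContDiff ℝ (1 + 1) g := by
      have e : (1 : WithTop ℕ∞) + 1 = 2 := by norm_num
      rw [e]
      exact hgs2
    exact ((contDiff_succ_iff_deriv (n := 1)).1 this).2.2
  have hcrv : Crv ρ g b m := by
    refine ⟨fun y => ?_, fun y => ?_, fun y => ?_, ?_⟩
    · rw [hb]
      have h1 := (hgs2.differentiable (by norm_num) y).hasDerivAt
      refine h1.congr_deriv ?_
      field_simp
    · rw [hb, hm]
      have h1 := (hdg1.differentiable (by norm_num) y).hasDerivAt.div_const ρ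
      refine h1.congr_deriv ?_
      simp only
      field_simp
      ring
    · rw [hm]
      exact hgm y
    · rw [hm]
      have h1 : Continuous (deriv (deriv g)) := hdg1.continuous_deriv le_rfl
      have h2 := hgs.continuous
      fun_prop
  have hg0 : g (2 * Real.pi) = g 0 := by
    have := hgper 0
    rwa [zero_add] at this
  have hb0 : b (2 * Real.pi) = b 0 := by
    rw [hb]
    simp only
    have h1 : deriv (fun y => g (y + 2 * Real.pi)) 0 = deriv g (0 + 2 * Real.pi) :=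
      deriv_comp_add_const g (2 * Real.pi) 0
    have h2 : (fun y => g (y + 2 * Real.pi)) = g := funext hgper
    rw [h2, zero_add] at h1
    rw [h1]
  have hφ : Bmp (wtt θ t d) (t ^ 2) d := bmp_wtt hθ t hd0
  obtain ⟨φ, hφe⟩ : ∃ φ, φ = wtt θ t d := ⟨_, rfl⟩
  rw [← hφe] at hφ ⊢
  have hFc := Fd_cont (ρ := ρ) (g := g) (b := b) (m := m) hφ hT hcrv
  -- the functional
  have hW : W1 ρ φ g = ∫ y in (0 : ℝ)..(2 * Real.pi), Fd ρ φ g b m y := by
    rw [← step0 hρ hφ hT hcrv hg0 hb0]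
    unfold W1
    refine intervalIntegral.integral_congr fun y _ => ?_
    rw [hb]
    simp only
    field_simp
  -- near points
  have hnp0 : ∀ y ∈ Icc (0 : ℝ) (2 * Real.pi), 0 < m y → |pq g b y - t ^ 2| ≤ δ0 → ∃ y' b',
      (y', b') ∈ SS ρ h ∧ h y' ^ 2 + b' ^ 2 = t ^ 2 ∧
        |y - y'| < ε0 ∧ |g y - h y'| < ε0 ∧ |b y - b'| < ε0 :=
    hnear0 g b m hcrv (fun y => (hgub y).trans (by linarith))
      (fun y hy => by
        rw [hm] at hy
        have := hglb y hy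
        linarith)
  have hnp : ∀ y ∈ Icc (0 : ℝ) (2 * Real.pi), 0 < m y → |pq g b y - t ^ 2| ≤ δ → ∃ y' b',
      (y', b') ∈ SS ρ h ∧ h y' ^ 2 + b' ^ 2 = t ^ 2 ∧
        |y - y'| < ε ∧ |g y - h y'| < ε ∧ |b y - b'| < ε :=
    hnear g b m hcrv (fun y => (hgub y).trans (by linarith))
      (fun y hy => by
        rw [hm] at hy
        have := hglb y hy
        linarith)
  obtain ⟨Δ, hΔ⟩ : ∃ Δ, Δ = d / (t * βm) + 2 * ((ρ * t + 2) * ε) / t := ⟨_, rfl⟩
  have hΔK : Δ ≤ K * d := by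
    rw [hΔ, hK, add_mul (1 / (t * βm))]
    have h1 : d / (t * βm) = 1 / (t * βm) * d := by ring
    have h2 : 2 * ((ρ * t + 2) * ε) / t = 2 * (ρ * t + 2) / t * ε := by ring
    rw [h1, h2]
    have h3 : 2 * (ρ * t + 2) / t * ε ≤ 2 * (ρ * t + 2) / t * d :=
      mul_le_mul_of_nonneg_left hεd (by positivity)
    linarith
  -- one step
  have hstep : ∀ n < M, ∃ κm ∈ A n, ∃ κp ∈ B n,
      Tr ρ φ g b m (t ^ 2) (z n) (z (n + 1)) (κm * κp) (2 * Δ) := by
    intro n hn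
    have hnM : n < M + 1 := hn.trans (Nat.lt_succ_self M)
    have hle := hε0le n hnM
    have hl1 : ε0 ≤ r' (Y n) / 2 := (hle.trans (min_le_left _ _)).trans (min_le_left _ _)
    have hl2 : ε0 ≤ β (Y n) / 2 := (hle.trans (min_le_left _ _)).trans (min_le_right _ _)
    have hl3 : ε0 ≤ 1 := (hle.trans (min_le_right _ _)).trans (min_le_left _ _)
    have hl4 : ε0 ≤ β (Y n) / (8 * ((H + 1) * ρ)) :=
      (hle.trans (min_le_right _ _)).trans (min_le_right _ _)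
    have hl5 : (H + 1) * ρ * ε0 < β (Y n) / 4 := by
      have h1 : 0 < (H + 1) * ρ := by positivity
      rw [le_div_iff₀ (by positivity)] at hl4
      have := hβ0 (Y n)
      linarith
    have hsub1 : ∀ y ∈ Icc (z n : ℝ) (z (n + 1)), y ∈ Icc (0 : ℝ) (2 * Real.pi) := fun y hy =>
      ⟨(z n).2.1.trans hy.1, hy.2.trans (z (n + 1)).2.2⟩
    have hsub2 : ∀ y ∈ Icc (z n : ℝ) (z (n + 1)), |y - Y n| < r' (Y n) / 2 := by
      intro y hy
      exact hY n (show (⟨y, hsub1 y hy⟩ : Icc (0 : ℝ) (2 * Real.pi)) ∈ Icc (z n) (z (n + 1)) from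
        ⟨hy.1, hy.2⟩)
    have hr'le : r' (Y n) ≤ r (Y n) := by rw [hr']; exact min_le_left _ _
    have hr'le2 : r' (Y n) ≤ Real.pi / (4 * ρ) := by rw [hr']; exact min_le_right _ _
    have hconv : ∀ (e : ℝ), e ≤ ε0 → ∀ y ∈ Icc (z n : ℝ) (z (n + 1)),
        (∃ y' b', (y', b') ∈ SS ρ h ∧ h y' ^ 2 + b' ^ 2 = t ^ 2 ∧
        |y - y'| < e ∧ |g y - h y'| < e ∧ |b y - b'| < e) → ∃ b' : ℝ,
        ((b' = β (Y n) ∧ xp (Y n) = Complex.exp (ρ * (Y n) * I) * (h (Y n) + b' * I)) ∨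
        (b' = -β (Y n) ∧ xm (Y n) = Complex.exp (ρ * (Y n) * I) * (h (Y n) + b' * I))) ∧
        |y - Y n| < e ∧ |g y - h (Y n)| < e ∧ |b y - b'| < e := by
      rintro e he y hy ⟨y', b', h1, h2, h3, h4, h5⟩
      have h6 : y' = Y n := by
        refine hr (Y n) y' b' h1 ?_ h2
        have h7 : |y' - Y n| ≤ |y' - y| + |y - Y n| := abs_sub_le _ _ _
        rw [abs_sub_comm y' y] at h7
        have := hsub2 y hy
        linarith
      rw [h6] at h1 h2 h3 h4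
      exact ⟨b', hdata (Y n) b' h1 h2, h3, h4, h5⟩
    have hzle : (z n : ℝ) ≤ z (n + 1) := hzm (Nat.le_succ n)
    obtain ⟨κm, κp, hκm, hκp, htr⟩ := interval_step (d1 := δ0) (d2 := δ) (ε0 := ε0) (ε := ε)
      (β := β (Y n)) (H := H) (hY := h (Y n)) (Y := Y n) (xp := xp (Y n)) (xm := xm (Y n))
      hρ ht0 hd0 hd.2.le hδ hεpos hεε (hβ0 _) (hH _) hl3 hl2 hl5 hφ hcrv (hxp _) (hxm _) hzle
      (fun y hy => by
        have := hsub2 y hy
        have := hr'0 (Y n)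
        linarith)
      (fun y hy h1 h2 => hconv ε0 le_rfl y hy (hnp0 y (hsub1 y hy) h1 h2))
      (fun y hy h1 h2 => hconv ε hεε y hy (hnp y (hsub1 y hy) h1 h2))
    refine ⟨κm, ?_, κp, ?_, htr.mono ?_⟩
    · rw [hA]
      rcases hκm with h1 | h1
      · left; exact h1
      · right; exact h1
    · rw [hB]
      rcases hκp with h1 | h1
      · left; exact h1
      · right; exact h1
    · rw [hΔ]
      have h1 : βm ≤ β (Y n) / 2 := hβmle n hnM
      have h2 : d / (t * (β (Y n) / 2)) ≤ d / (t * βm) :=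
        div_le_div_of_nonneg_left hd0.le (by positivity) (mul_le_mul_of_nonneg_left h1 ht0.le)
      linarith
  have hall : ∀ n ≤ M, ∃ κ ∈ VV A B n,
      Tr ρ φ g b m (t ^ 2) 0 (z n) κ ((n : ℝ) * (2 * Δ)) := by
    intro n
    induction n with
    | zero =>
      intro _
      refine ⟨1, rfl, ?_⟩
      unfold Tr
      rw [hz0]
      simp
    | succ n ih =>
      intro hn
      obtain ⟨κ, hκ, htr⟩ := ih (Nat.le_of_succ_le hn)
      obtain ⟨κm, hκm, κp, hκp, htr2⟩ := hstep n (Nat.lt_of_succ_le hn)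
      refine ⟨κ * (κm * κp), ⟨κ, hκ, κm * κp, ⟨κm, hκm, κp, hκp, rfl⟩, rfl⟩, ?_⟩
      have h1 := htr.comp hFc htr2 (by rw [norm_mul, hAn n _ hκm, hBn n _ hκp, one_mul])
      refine h1.mono (le_of_eq ?_)
      push_cast
      ring
  obtain ⟨κ, hκ, htr⟩ := hall M le_rfl
  rw [hM M le_rfl] at htr
  obtain ⟨ω, hω, hcc⟩ := cc_period (ρ := ρ) (T := t ^ 2) hg0 hb0
  rw [← hΩ] at hω
  have hωn := hΩn ω hω
  have hω0 : ω ≠ 0 := by
    intro h0
    rw [h0, norm_zero] at hωn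
    exact zero_ne_one hωn
  have hc0 := norm_cc hT (PP ρ g b 0)
  have hfinal : ‖Complex.exp (4 * I * ((∫ y in (0 : ℝ)..(2 * Real.pi), Fd ρ φ g b m y : ℝ) : ℂ)) -
      κ / ω‖ ≤ (M : ℝ) * (2 * Δ) := by
    unfold Tr at htr
    rw [hcc] at htr
    obtain ⟨E, hE⟩ : ∃ E, E = Complex.exp (4 * I *
      ((∫ y in (0 : ℝ)..(2 * Real.pi), Fd ρ φ g b m y : ℝ) : ℂ)) := ⟨_, rfl⟩
    rw [← hE] at htr ⊢
    have e1 : E * (cc (t ^ 2) (PP ρ g b 0) * ω) - cc (t ^ 2) (PP ρ g b 0) * κ =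
        cc (t ^ 2) (PP ρ g b 0) * ω * (E - κ / ω) := by
      field_simp
    rw [e1, norm_mul, norm_mul, hc0, hωn, one_mul, one_mul] at htr
    exact htr
  have hvn : ‖κ / ω‖ = 1 := by rw [norm_div, hVn M κ hκ, hωn, div_one]
  obtain ⟨w, hw1, hw2, hw3⟩ := near_real hvn hfinal
  have hWb := W_bound hρ ht0 hφ hcrv hb0 (H := H + 1) (fun y => by
    have h1 := hgub y
    have h2 := (abs_le.1 (hH y)).2
    linarith)
  rw [← hC0] at hWb
  refine ⟨w, ?_, ?_⟩
  · rw [Set.Finite.mem_toFinset]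
    refine ⟨?_, ?_⟩
    · have h1 : |w| ≤ |∫ y in (0 : ℝ)..(2 * Real.pi), Fd ρ φ g b m y| +
          |(∫ y in (0 : ℝ)..(2 * Real.pi), Fd ρ φ g b m y) - w| := by
        have := abs_sub (∫ y in (0 : ℝ)..(2 * Real.pi), Fd ρ φ g b m y)
          ((∫ y in (0 : ℝ)..(2 * Real.pi), Fd ρ φ g b m y) - w)
        rwa [sub_sub_cancel] at this
      linarith
    · rw [hw1]
      exact ⟨κ, hκ, ω, hω, rfl⟩
  · rw [hW]
    refine hw2.trans ?_
    have hM0 : (0 : ℝ) ≤ M := Nat.cast_nonneg M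
    have h1 : (M : ℝ) * (2 * Δ) ≤ (M : ℝ) * (2 * (K * d)) :=
      mul_le_mul_of_nonneg_left (by linarith) hM0
    have h2 : ((M : ℝ) * (2 * K) + 1) * d = (M : ℝ) * (2 * (K * d)) + d := by ring
    rw [h2]
    linarith

end M_EM
end Pool.Agent.Helper758.LS
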