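import Mathlib
import Pool.Agent.Helper758.LSDefs
import Pool.Agent.Helper758.LSDefs2
import Pool.Agent.Helper758.LS_B1
import Pool.Agent.Helper758.LS_CR
import Pool.Agent.Helper758.LS_EM
import Pool.Agent.Helper758.LS_MOL
import Pool.Agent.Helper758.LS_T2T3
import Pool.Agent.Helper758.LS_W5c
import Pool.Agent.Helper758.LS_WM

namespace Pool.Agent.Helper758.LS
open MeasureTheory Filter Topology Set Complex
open M_B1 (moll_per moll_upper)
open M_CR (crossing)
open M_EM (quantization)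
open M_MOL (moll_contDiff)
open M_T2T3 (limset_cls limset_shift)
open M_W5c (nonstat_lower)
open M_WM (Wl_bdd Wl_cont Wl_diss Wl_mono Wl_unif cls_shift)
namespace M_FIN























/-- GIVEN (do not prove): facts proved in other jobs. -/















theorem fin_dxdy (g : ℝ → ℝ) (hg : Differentiable ℝ g) (z : ℂ) :
    dx (fun z : ℂ => g z.im) z = 0 ∧ dy (fun z : ℂ => g z.im) z = deriv g z.im := by
  have h : HasFDerivAt (fun z : ℂ => g z.im) ((deriv g z.im) • Complex.imCLM) z :=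
    (hg z.im).hasDerivAt.comp_hasFDerivAt z Complex.imCLM.hasFDerivAt
  unfold dx dy
  rw [h.fderiv]
  constructor
  · simp
  · simp

/-- TARGET 1: mollified stationary functions are one-dimensional -/
theorem stat_W1 {ρ : ℝ} {h ω : ℝ → ℝ} (hd : Dat ρ h ω) (C : ℝ) (φ χ : ℝ → ℝ) (hφ : Wt φ) (hχ : Cut χ)
    (G : ℂ → ℝ) (hG : ClsS ρ h C ω G) (hst : ∀ s : ℝ, ∀ᵐ z : ℂ, G (z + s) = G z) (η : ℝ) (hη : 0 < η) :
    ∀ᶠ δ in 𝓝[>] (0 : ℝ), ContDiff ℝ 4 (fun y : ℝ => moll δ G (y * I)) ∧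
      (∀ y : ℝ, moll δ G (((y + 2 * Real.pi : ℝ) : ℂ) * I) = moll δ G (y * I)) ∧
      (∀ y : ℝ, 0 ≤ deriv (deriv (fun y : ℝ => moll δ G (y * I))) y + ρ ^ 2 * moll δ G (y * I)) ∧
      (∀ y : ℝ, moll δ G (y * I) ≤ h y + η) ∧
      (∀ y : ℝ, 0 < deriv (deriv (fun y : ℝ => moll δ G (y * I))) y + ρ ^ 2 * moll δ G (y * I) →
        h y - η ≤ moll δ G (y * I)) ∧
      Wsm ρ φ χ (moll δ G) = W1 ρ φ (fun y : ℝ => moll δ G (y * I)) := by
  obtain ⟨κ, hκ0, hκ, hup⟩ := moll_upper hd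
  have e1 : ∀ᶠ δ in 𝓝[>] (0 : ℝ), δ ∈ Ioc (0 : ℝ) 1 :=
    Ioc_mem_nhdsGT one_pos
  have e2 : ∀ᶠ δ in 𝓝[>] (0 : ℝ), κ δ < η := (tendsto_order.1 hκ).2 η hη
  have e3 : ∀ᶠ δ in 𝓝[>] (0 : ℝ), ω δ < η := (tendsto_order.1 hd.omlim).2 η hη
  filter_upwards [e1, e2, e3] with δ hδ hκδ hωδ
  have hsmooth : ContDiff ℝ 4 (moll δ G) := moll_contDiff δ hδ.1 G hG.loc 4
  set g : ℝ → ℝ := fun y : ℝ => moll δ G (y * I) with hg
  have hgs : ContDiff ℝ 4 g := by
    have : ContDiff ℝ 4 (fun y : ℝ => (y : ℂ) * I) :=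
      (Complex.ofRealCLM.contDiff).mul contDiff_const
    exact hsmooth.comp this
  have hinv : ∀ (s : ℝ) (z : ℂ), moll δ G (z + s) = moll δ G z := by
    intro s z
    rw [← (cls_shift hG s).2.1 δ z]
    unfold moll
    apply integral_congr_ae
    filter_upwards [hst s] with w hw
    show psid δ (z - w) * sh s G w = psid δ (z - w) * G w
    unfold sh
    rw [hw]
  have hu : moll δ G = fun z : ℂ => g z.im := by
    funext z
    have h1 := hinv z.re ((z.im : ℂ) * I)
    have h2 : (z.im : ℂ) * I + (z.re : ℂ) = z := by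
      rw [add_comm]; exact Complex.re_add_im z
    rw [h2] at h1
    exact h1
  have hgd : Differentiable ℝ g := hgs.differentiable (by norm_num)
  have hg1 : ContDiff ℝ 3 (deriv g) := by
    have : ContDiff ℝ (3 + 1) g := hgs
    exact (contDiff_succ_iff_deriv.1 this).2.2
  have hgd1 : Differentiable ℝ (deriv g) := hg1.differentiable (by norm_num)
  have hdx : dx (moll δ G) = fun _ => 0 := by
    funext z; rw [hu]; exact (fin_dxdy g hgd z).1
  have hdy : dy (moll δ G) = fun z : ℂ => deriv g z.im := by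
    funext z; rw [hu]; exact (fin_dxdy g hgd z).2
  have hdyy : dy (dy (moll δ G)) = fun z : ℂ => deriv (deriv g) z.im := by
    funext z; rw [hdy]; exact (fin_dxdy (deriv g) hgd1 z).2
  have hdxx : dx (dx (moll δ G)) = fun _ => 0 := by
    funext z; rw [hdx]; unfold dx; simp
  have hL : ∀ z : ℂ, Lop ρ (moll δ G) z = deriv (deriv g) z.im + ρ ^ 2 * g z.im := by
    intro z
    unfold Lop
    rw [hdxx, hdx, hdyy, hu]
    ring
  have him : ∀ y : ℝ, ((y : ℂ) * I).im = y := by intro y; simp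
  refine ⟨hgs, ?_, ?_, ?_, ?_, ?_⟩
  · intro y
    have := moll_per hG δ ((y : ℂ) * I)
    rw [← this]
    congr 1
    push_cast
    ring
  · intro y
    have := hG.sub δ hδ ((y : ℂ) * I)
    rw [hL, him] at this
    exact this
  · intro y
    have := hup C G hG δ hδ ((y : ℂ) * I)
    rw [him] at this
    linarith
  · intro y hy
    have h1 := hG.con δ hδ ((y : ℂ) * I)
    rw [hL, him] at h1
    have h2 := h1 hy
    linarith
  · have ha : aof ρ (moll δ G) = fun z : ℂ => g z.im := by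
      funext z
      unfold aof
      rw [hdx, hu]
      simp
    have hb : bof ρ (moll δ G) = fun z : ℂ => deriv g z.im / ρ := by
      funext z
      unfold bof
      rw [hdy]
    have hda : dy (aof ρ (moll δ G)) = fun z : ℂ => deriv g z.im := by
      funext z; rw [ha]; exact (fin_dxdy g hgd z).2
    have him2 : ∀ x y : ℝ, ((x : ℂ) + (y : ℂ) * I).im = y := by intro x y; simp
    unfold Wsm
    rw [hda, ha, hb]
    simp only [him2]
    simp only [intervalIntegral.integral_const_mul]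
    rw [integral_mul_const, hχ.int, one_mul]
    rfl

/-- TARGET 2: existence of cut-offs -/
theorem exists_cut : ∃ χ, Cut χ := by
  let f : ContDiffBump (0 : ℝ) := ⟨1 / 2, 1, by norm_num, by norm_num⟩
  refine ⟨f.normed volume, f.contDiff_normed, fun x => f.nonneg_normed x, ?_, f.integral_normed⟩
  intro x hx
  by_contra hne
  have h1 : x ∈ Function.support (f.normed volume) := hne
  rw [f.support_normed_eq] at h1
  rw [Metric.mem_ball, Real.dist_eq, sub_zero] at h1
  exact absurd h1 (not_lt.mpr hx)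

theorem exists_bumpOne : ∃ θ, BumpOne θ := by
  let f : ContDiffBump (1 / 2 : ℝ) := ⟨1 / 4, 1 / 2, by norm_num, by norm_num⟩
  have hsupp : ∀ s, s ≤ 0 ∨ 1 ≤ s → f.normed volume s = 0 := by
    intro s hs
    by_contra hne
    have h1 : s ∈ Function.support (f.normed volume) := hne
    rw [f.support_normed_eq] at h1
    rw [Metric.mem_ball, Real.dist_eq] at h1
    have h2 : |s - 1 / 2| < 1 / 2 := h1
    rw [abs_lt] at h2
    rcases hs with hs | hs <;> linarith
  refine ⟨f.normed volume, f.contDiff_normed, fun x => f.nonneg_normed x, hsupp, ?_⟩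
  have h1 : ∫ x, f.normed volume x = 1 := f.integral_normed
  rw [intervalIntegral.integral_of_le zero_le_one]
  refine Eq.trans ?_ h1
  apply setIntegral_eq_integral_of_forall_compl_eq_zero
  intro x hx
  apply hsupp
  rw [mem_Ioc, not_and_or, not_lt, not_le] at hx
  rcases hx with hx | hx
  · exact Or.inl hx
  · exact Or.inr hx.le

theorem fin_wtt (θ : ℝ → ℝ) (hθ : BumpOne θ) (t1 t2 t d : ℝ) (ht1 : 0 < t1) (ht : t ∈ Ioo t1 t2)
    (hd : 0 < d) (hd2 : t ^ 2 + d ≤ t2 ^ 2) :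
    Wt (wtt θ t d) ∧ (∀ s, s ∉ Icc (t1 ^ 2) (t2 ^ 2) → wtt θ t d s = 0) ∧
      Bf (wtt θ t d) (t2 ^ 2) = 1 := by
  have hz : ∀ s, s ≤ t ^ 2 ∨ t ^ 2 + d ≤ s → wtt θ t d s = 0 := by
    intro s hs
    unfold wtt
    rw [hθ.supp, zero_div]
    rcases hs with hs | hs
    · left; exact div_nonpos_of_nonpos_of_nonneg (by linarith) hd.le
    · right; rw [le_div_iff₀ hd]; linarith
  refine ⟨⟨?_, ?_, ?_⟩, ?_, ?_⟩
  · unfold wtt
    exact (hθ.smooth.comp ((contDiff_id.sub contDiff_const).div_const d)).div_const d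
  · intro s; exact div_nonneg (hθ.nonneg _) hd.le
  · exact ⟨t ^ 2 + d, fun s hs => hz s (Or.inr hs)⟩
  · intro s hs
    apply hz
    rw [mem_Icc, not_and_or, not_le, not_le] at hs
    rcases hs with hs | hs
    · left
      have : t1 ^ 2 ≤ t ^ 2 := pow_le_pow_left₀ ht1.le ht.1.le 2
      linarith
    · right; linarith
  · unfold Bf wtt
    have h1 : ∀ r : ℝ, θ ((r - t ^ 2) / d) / d = d⁻¹ * θ (r / d - t ^ 2 / d) := by
      intro r; rw [sub_div, div_eq_inv_mul]
    simp only [h1]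
    rw [intervalIntegral.integral_const_mul, intervalIntegral.integral_comp_div_sub _ hd.ne',
      smul_eq_mul, ← mul_assoc, inv_mul_cancel₀ hd.ne', one_mul]
    set A := 0 / d - t ^ 2 / d with hA
    set B := t2 ^ 2 / d - t ^ 2 / d with hB
    have hA0 : A ≤ 0 := by
      rw [hA, zero_div, zero_sub, neg_nonpos]; positivity
    have hB1 : 1 ≤ B := by
      rw [hB, ← sub_div, le_div_iff₀ hd]; linarith
    have hcont : Continuous θ := hθ.smooth.continuous
    have i1 : ∀ a b : ℝ, IntervalIntegrable θ volume a b := fun a b => hcont.intervalIntegrable a b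
    rw [← intervalIntegral.integral_add_adjacent_intervals (i1 A 0) (i1 0 B),
      ← intervalIntegral.integral_add_adjacent_intervals (i1 0 1) (i1 1 B), hθ.int]
    have z1 : ∫ x in A..0, θ x = 0 := by
      refine Eq.trans ?_ (intervalIntegral.integral_zero (a := A) (b := 0) (μ := volume) (E := ℝ))
      apply intervalIntegral.integral_congr
      intro x hx
      rw [uIcc_of_le hA0] at hx
      exact hθ.supp x (Or.inl hx.2)
    have z2 : ∫ x in (1 : ℝ)..B, θ x = 0 := by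
      refine Eq.trans ?_ (intervalIntegral.integral_zero (a := 1) (b := B) (μ := volume) (E := ℝ))
      apply intervalIntegral.integral_congr
      intro x hx
      rw [uIcc_of_le hB1] at hx
      exact hθ.supp x (Or.inr hx.1)
    rw [z1, z2]; ring

theorem fin_measure (V : Finset ℝ) (a b r : ℝ) (hr : 0 ≤ r)
    (h : ∀ c, a < c → c < b → ∃ v ∈ V, |c - v| ≤ r) : b - a ≤ V.card * (2 * r) := by
  have h1 : Ioo a b ⊆ ⋃ v ∈ V, Icc (v - r) (v + r) := by
    intro c hc
    obtain ⟨v, hv, hcv⟩ := h c hc.1 hc.2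
    rw [abs_le] at hcv
    simp only [mem_iUnion]
    exact ⟨v, hv, by linarith, by linarith⟩
  have h2 := (measure_mono (μ := volume) h1).trans (measure_biUnion_finset_le V _)
  simp only [Real.volume_Ioo, Real.volume_Icc] at h2
  have h3 : ∀ v ∈ V, ENNReal.ofReal (v + r - (v - r)) = ENNReal.ofReal (2 * r) := by
    intro v _; congr 1; ring
  rw [Finset.sum_congr rfl h3, Finset.sum_const, nsmul_eq_mul,
    ← ENNReal.ofReal_natCast, ← ENNReal.ofReal_mul (Nat.cast_nonneg _)] at h2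
  exact (ENNReal.ofReal_le_ofReal_iff (by positivity)).mp h2

/-- TARGET 3: all translation limits are stationary -/
theorem all_stationary {ρ C : ℝ} {h ω : ℝ → ℝ} {P : ℂ → ℝ} (hd : Dat ρ h ω) (htc : TrigConvex ρ h)
    (hP : PathOK ρ h C ω P) (U : ℂ → ℝ) (hU : U ∈ LimSet P) :
    ∀ s : ℝ, ∀ᵐ z : ℂ, U (z + s) = U z := by
  by_contra hns
  have hUc := limset_cls hd hP U hU
  obtain ⟨t1, t2, c, R, X, ht1, ht12, hc, hR, hX, hX01, hXs, hlow⟩ :=
    nonstat_lower hd C U hUc hns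
  obtain ⟨θ, hθ⟩ := exists_bumpOne
  obtain ⟨χ, hχ⟩ := exists_cut
  obtain ⟨t, ht, V, Ct, d0, hCt, hd0, Hq⟩ :=
    quantization ρ hd.rho h hd.hcont hd.hper htc θ hθ t1 t2 ht1 ht12
  have ht0 : 0 < t := ht1.trans ht.1
  have htt : 0 < t2 ^ 2 - t ^ 2 := by
    have := pow_lt_pow_left₀ ht.2 ht0.le (two_ne_zero)
    linarith
  set d : ℝ := min (d0 / 2) (min (t2 ^ 2 - t ^ 2) (c / (16 * Ct * (V.card + 1)))) with hddef
  have hcard : (0 : ℝ) ≤ V.card := Nat.cast_nonneg _
  have hdpos : 0 < d := by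
    rw [hddef]
    refine lt_min (by linarith) (lt_min htt ?_)
    positivity
  have hd1 : d < d0 := by
    have : d ≤ d0 / 2 := min_le_left _ _
    linarith
  have hd2 : t ^ 2 + d ≤ t2 ^ 2 := by
    have : d ≤ t2 ^ 2 - t ^ 2 := (min_le_right _ _).trans (min_le_left _ _)
    linarith
  have hd3 : d ≤ c / (16 * Ct * (V.card + 1)) := (min_le_right _ _).trans (min_le_right _ _)
  obtain ⟨η, hη, HQ⟩ := Hq d ⟨hdpos, hd1⟩
  obtain ⟨hWt, hsup, hBf⟩ := fin_wtt θ hθ t1 t2 t d ht1 ht hdpos hd2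
  set φ := wtt θ t d with hφdef
  -- (i)
  have hi : ∀ G ∈ LimSet P, (∀ s : ℝ, ∀ᵐ z : ℂ, G (z + s) = G z) →
      ∃ v ∈ V, |Wl ρ φ χ G - v| ≤ Ct * d := by
    intro G hG hst
    have hGc := limset_cls hd hP G hG
    have hst' := stat_W1 hd C φ χ hWt hχ G hGc hst η hη
    obtain ⟨κ, δ0, -, -, -, hW⟩ := Wl_unif hd C φ χ hWt hχ
    have htend := (hW G hGc).1
    have hclosed : IsClosed (⋃ v ∈ V, Metric.closedBall v (Ct * d)) :=
      V.finite_toSet.isClosed_biUnion (fun v _ => Metric.isClosed_closedBall)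
    have hmem : Wl ρ φ χ G ∈ ⋃ v ∈ V, Metric.closedBall v (Ct * d) := by
      refine hclosed.mem_of_tendsto htend ?_
      filter_upwards [hst'] with δ hδ
      obtain ⟨g1, g2, g3, g4, g5, g6⟩ := hδ
      obtain ⟨v, hv, hv2⟩ := HQ (fun y : ℝ => moll δ G (y * I)) g1 g2 g3 g4 g5
      rw [g6]
      simp only [mem_iUnion]
      exact ⟨v, hv, by rw [Metric.mem_closedBall, Real.dist_eq]; exact hv2⟩
    simp only [mem_iUnion] at hmem
    obtain ⟨v, hv, hv2⟩ := hmem
    rw [Metric.mem_closedBall, Real.dist_eq] at hv2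
    exact ⟨v, hv, hv2⟩
  -- (ii)
  have hU2 : sh (-(R + 1)) U ∈ LimSet P := limset_shift hP.loc U hU (-(R + 1))
  have hU1 : sh (R + 1) U ∈ LimSet P := limset_shift hP.loc U hU (R + 1)
  have hgap : c / 2 ≤ Wl ρ φ χ (sh (-(R + 1)) U) - Wl ρ φ χ (sh (R + 1) U) := by
    have a1 := Wl_diss hd C φ χ hWt hχ U hUc X R hR hX hX01 hXs (c / 4) (by linarith)
    have a2 := hlow φ hWt hsup (c / 4) (by linarith)
    obtain ⟨δ, b1, b2⟩ := (a1.and a2).exists
    rw [hBf] at b2
    linarith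
  -- (iii)
  have hcov : ∀ c', Wl ρ φ χ (sh (R + 1) U) < c' → c' < Wl ρ φ χ (sh (-(R + 1)) U) →
      ∃ v ∈ V, |c' - v| ≤ 2 * (Ct * d) := by
    intro c' h1 h2
    obtain ⟨G, hG, hst, hGc'⟩ := crossing hd hP φ χ hWt hχ _ _ hU1 hU2 c' (Ct * d) h1 h2
      (mul_pos hCt hdpos)
    obtain ⟨v, hv, hv2⟩ := hi G hG hst
    refine ⟨v, hv, ?_⟩
    rw [abs_le] at hGc' hv2 ⊢
    constructor <;> linarith [hGc'.1, hGc'.2, hv2.1, hv2.2]
  have hm := fin_measure V _ _ (2 * (Ct * d)) (by positivity) hcov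
  have h5 : (V.card : ℝ) * (2 * (2 * (Ct * d))) ≤ c / 4 := by
    rw [le_div_iff₀ (by positivity)] at hd3
    nlinarith [mul_pos hCt hdpos]
  linarith

end M_FIN
end Pool.Agent.Helper758.LS
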