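import Mathlib
import Pool.Agent.Helper758.LSDefs
import Pool.Agent.Helper758.LSDefs2
import Pool.Agent.Helper758.FrDefs
import Pool.Agent.Helper758.LS_A1
import Pool.Agent.Helper758.LS_A2
import Pool.Agent.Helper758.LS_A3
import Pool.Agent.Helper758.LS_MOL

namespace Pool.Agent.Helper758.LS
open MeasureTheory Filter Topology Set Complex
open M_A1 (indicator_facts)
open M_A2 (cU_l1 cU_loc cU_sub cU_zero)
open M_A3 (cU_contact cU_unif)
open M_MOL (moll_congr_ae)
namespace M_T5A












/-- TARGET 1 -/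
theorem pathOK_of_entire (ρ : ℝ) (hρ : 0 < ρ) (f : ℂ → ℂ) (hf : ClassA f ρ) (h2 : Cond2 f ρ) :
    ∃ (h ω : ℝ → ℝ) (C : ℝ) (P : ℂ → ℝ), Dat ρ h ω ∧ TrigConvex ρ h ∧ PathOK ρ h C ω P ∧
      (∀ᵐ z : ℂ, P z = cU ρ f z) := by
  classical
  have hfd : Differentiable ℂ f := hf.1
  -- f is not identically zero
  have hne : ∃ z, f z ≠ 0 := by
    by_contra hcon
    push Not at hcon
    have hlim : typ f ρ = ⊥ := by
      unfold typ
      have hev : (fun r : ℝ => ((r ^ (-ρ) : ℝ) : EReal) *
          ENNReal.log (⨆ z ∈ Metric.sphere (0 : ℂ) r, ‖f z‖ₑ)) =ᶠ[atTop] fun _ => (⊥ : EReal) := by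
        filter_upwards [eventually_gt_atTop (0 : ℝ)] with r hr
        have h1 : (⨆ z ∈ Metric.sphere (0 : ℂ) r, ‖f z‖ₑ) = 0 := by
          simp [hcon]
        rw [h1, ENNReal.log_zero]
        exact EReal.coe_mul_bot_of_pos (Real.rpow_pos_of_pos hr _)
      rw [limsup_congr hev]
      exact limsup_const _
    have := hf.2.1
    rw [hlim] at this
    exact absurd this (by simp)
  obtain ⟨h, hc, hper, htc, hind, hup⟩ := indicator_facts ρ hρ f hf
  -- h is bounded above
  obtain ⟨M, hM⟩ : ∃ M : ℝ, ∀ y, h y ≤ M := by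
    have hP : Function.Periodic h (2 * Real.pi) := hper
    have hcomp : IsCompact (Icc (0 : ℝ) (0 + 2 * Real.pi)) := isCompact_Icc
    obtain ⟨M, hM⟩ := (hcomp.bddAbove_image hc.continuousOn)
    refine ⟨M, fun y => ?_⟩
    obtain ⟨y', hy', he⟩ := hP.exists_mem_Ico (by positivity) y 0
    rw [he]
    exact hM ⟨y', ⟨hy'.1, hy'.2.le⟩, rfl⟩
  obtain ⟨X0, hX0⟩ := hup 1 one_pos
  have hB : ∀ z : ℂ, X0 ≤ z.re → ‖f (cexp z)‖ ≤ Real.exp ((M + 1) * Real.exp (ρ * z.re)) := by
    intro z hz
    refine (hX0 z hz).trans (Real.exp_le_exp.2 ?_)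
    exact mul_le_mul_of_nonneg_right (by linarith [hM z.im]) (Real.exp_pos _).le
  obtain ⟨C, hC⟩ := cU_l1 ρ hρ f hfd hne (M + 1) X0 hB
  obtain ⟨ω, hω0, hωl, hωc⟩ := cU_contact ρ hρ f hfd hne h hc hper hind hup h2
  obtain ⟨κ, hκl, hκ⟩ := cU_unif ρ hρ f hfd hne C hC
  -- f ∘ exp is not identically zero
  obtain ⟨z0, hz0⟩ : ∃ z, f (cexp z) ≠ 0 := by
    obtain ⟨w, hw⟩ := hne
    have hopen : IsOpen {z : ℂ | f z ≠ 0} := isOpen_ne_fun hfd.continuous continuous_const
    have hd : Dense ({0}ᶜ : Set ℂ) := dense_compl_singleton (0 : ℂ)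
    obtain ⟨w', hw', hw0⟩ := hd.inter_open_nonempty _ hopen ⟨w, hw⟩
    refine ⟨Complex.log w', ?_⟩
    rw [Complex.exp_log hw0]
    exact hw'
  have hae0 : ∀ᵐ z : ℂ, f (cexp z) ≠ 0 := by
    have han : AnalyticOnNhd ℂ (fun z => f (cexp z)) Set.univ := by
      intro z _
      exact (hfd.comp Complex.differentiable_exp).analyticAt z
    have hmem := han.preimage_zero_mem_codiscrete (x := z0) hz0
    have hle := _root_.ae_restrict_le_codiscreteWithin (μ := (volume : Measure ℂ))
      (U := (Set.univ : Set ℂ)) MeasurableSet.univ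
    rw [Measure.restrict_univ] at hle
    exact hle hmem
  set P : ℂ → ℝ := fun z => if f (cexp z) = 0 then h z.im else cU ρ f z with hPdef
  have hPae : ∀ᵐ z : ℂ, P z = cU ρ f z := by
    filter_upwards [hae0] with z hz
    simp only [hPdef, if_neg hz]
  have hmoll : ∀ δ, moll δ P = moll δ (cU ρ f) := fun δ => moll_congr_ae δ _ _ hPae
  have hexpper : ∀ z : ℂ, cexp (z + 2 * Real.pi * I) = cexp z := by
    intro z
    have := Complex.exp_periodic z
    simpa using this
  refine ⟨h, ω, C, P, ⟨hρ, hc, hper, hω0, hωl⟩, htc, ⟨?_, ?_, ?_, ?_, ?_, ?_, ?_⟩, hPae⟩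
  · exact (cU_loc ρ f hfd hne).1.congr (by
      filter_upwards [hPae] with z hz
      exact hz.symm)
  · intro z
    have him : (z + 2 * Real.pi * I).im = z.im + 2 * Real.pi := by simp
    have hre : (z + 2 * Real.pi * I).re = z.re := by simp
    simp only [hPdef, cU, hexpper, him, hre, hper]
  · intro x0 hx0
    have : ∫ z in box x0 (x0 + 1), |P z| = ∫ z in box x0 (x0 + 1), |cU ρ f z| := by
      apply integral_congr_ae
      apply ae_restrict_of_ae
      filter_upwards [hPae] with z hz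
      rw [hz]
    rw [this]
    exact hC x0 hx0
  · intro ε hε
    obtain ⟨X, hX⟩ := hup ε hε
    refine ⟨X, fun z hz => ?_⟩
    by_cases h0 : f (cexp z) = 0
    · simp only [hPdef, if_pos h0]
      linarith
    · simp only [hPdef, if_neg h0, cU]
      have hpos : 0 < ‖f (cexp z)‖ := norm_pos_iff.2 h0
      have h1 : Real.log ‖f (cexp z)‖ ≤ (h z.im + ε) * Real.exp (ρ * z.re) := by
        have := Real.log_le_log hpos (hX z hz)
        rwa [Real.log_exp] at this
      calc Real.exp (-(ρ * z.re)) * Real.log ‖f (cexp z)‖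
          ≤ Real.exp (-(ρ * z.re)) * ((h z.im + ε) * Real.exp (ρ * z.re)) :=
            mul_le_mul_of_nonneg_left h1 (Real.exp_pos _).le
        _ = (h z.im + ε) * (Real.exp (-(ρ * z.re)) * Real.exp (ρ * z.re)) := by ring
        _ = h z.im + ε := by
            rw [← Real.exp_add]
            simp
  · intro δ hδ z
    rw [hmoll]
    exact cU_sub ρ f hfd hne δ hδ.1 z
  · intro δ hδ ε hε
    obtain ⟨X, hX⟩ := hωc δ hδ ε hε
    refine ⟨X, fun z hz hL => ?_⟩
    rw [hmoll] at hL ⊢
    apply hX z hz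
    by_contra hcon
    push Not at hcon
    have := cU_zero ρ f hfd hne δ hδ.1 z hcon
    linarith
  · refine ⟨κ, hκl, fun δ hδ x0 hx0 => ?_⟩
    have : ∫ z in box x0 (x0 + 1), |moll δ P z - P z|
        = ∫ z in box x0 (x0 + 1), |moll δ (cU ρ f) z - cU ρ f z| := by
      rw [hmoll]
      apply integral_congr_ae
      apply ae_restrict_of_ae
      filter_upwards [hPae] with z hz
      rw [hz]
    rw [this]
    exact hκ δ hδ x0 hx0

/-- TARGET 2 -/
theorem trigConvex_of_smooth (ρ : ℝ) (hρ : 0 < ρ) (g : ℝ → ℝ) (hg : ContDiff ℝ 2 g)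
    (h : ∀ y, 0 ≤ deriv (deriv g) y + ρ ^ 2 * g y) : TrigConvex ρ g := by
  intro a b c hab hbc hca
  have hπ : ρ * (c - a) < Real.pi := by
    rw [lt_div_iff₀ hρ] at hca
    linarith
  have hg1 : ∀ y, HasDerivAt g (deriv g y) y := fun y =>
    ((hg.differentiable (by norm_num)) y).hasDerivAt
  have hg' : ContDiff ℝ 1 (deriv g) := by
    have := (contDiff_succ_iff_deriv (n := 1) (f := g)).1 (by
      have e : ((1 : WithTop ℕ∞) + 1) = 2 := by norm_num
      rw [e]; exact hg)
    exact this.2.2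
  have hg2 : ∀ y, HasDerivAt (deriv g) (deriv (deriv g) y) y := fun y =>
    ((hg'.differentiable (by norm_num)) y).hasDerivAt
  have hs1 : ∀ y, HasDerivAt (fun y => Real.sin (ρ * (y - a))) (ρ * Real.cos (ρ * (y - a))) y := by
    intro y
    have h0 : HasDerivAt (fun y => ρ * (y - a)) ρ y := by
      simpa using ((hasDerivAt_id y).sub_const a).const_mul ρ
    simpa [mul_comm] using h0.sin
  have hc1 : ∀ y, HasDerivAt (fun y => Real.cos (ρ * (y - a))) (-(ρ * Real.sin (ρ * (y - a)))) y := by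
    intro y
    have h0 : HasDerivAt (fun y => ρ * (y - a)) ρ y := by
      simpa using ((hasDerivAt_id y).sub_const a).const_mul ρ
    simpa [mul_comm] using h0.cos
  have hs2 : ∀ y, HasDerivAt (fun y => Real.sin (ρ * (c - y))) (-(ρ * Real.cos (ρ * (c - y)))) y := by
    intro y
    have h0 : HasDerivAt (fun y => ρ * (c - y)) (-ρ) y := by
      simpa using ((hasDerivAt_id y).const_sub c).const_mul ρ
    simpa [mul_comm] using h0.sin
  have hc2 : ∀ y, HasDerivAt (fun y => Real.cos (ρ * (c - y))) (ρ * Real.sin (ρ * (c - y))) y := by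
    intro y
    have h0 : HasDerivAt (fun y => ρ * (c - y)) (-ρ) y := by
      simpa using ((hasDerivAt_id y).const_sub c).const_mul ρ
    simpa [mul_comm] using h0.cos
  -- first Wronskian
  have hW1 : ∀ y, HasDerivAt (fun y => deriv g y * Real.sin (ρ * (y - a))
      - ρ * g y * Real.cos (ρ * (y - a)))
      ((deriv (deriv g) y + ρ ^ 2 * g y) * Real.sin (ρ * (y - a))) y := by
    intro y
    have := ((hg2 y).mul (hs1 y)).sub (((hg1 y).const_mul ρ).mul (hc1 y))
    refine this.congr_deriv ?_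
    ring
  have hW2 : ∀ y, HasDerivAt (fun y => deriv g y * Real.sin (ρ * (c - y))
      + ρ * g y * Real.cos (ρ * (c - y)))
      ((deriv (deriv g) y + ρ ^ 2 * g y) * Real.sin (ρ * (c - y))) y := by
    intro y
    have := ((hg2 y).mul (hs2 y)).add (((hg1 y).const_mul ρ).mul (hc2 y))
    refine this.congr_deriv ?_
    ring
  have hmono1 : MonotoneOn (fun y => deriv g y * Real.sin (ρ * (y - a))
      - ρ * g y * Real.cos (ρ * (y - a))) (Icc a b) := by
    apply monotoneOn_of_deriv_nonneg (convex_Icc a b)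
    · exact fun y _ => (hW1 y).continuousAt.continuousWithinAt
    · exact fun y _ => (hW1 y).differentiableAt.differentiableWithinAt
    · intro y hy
      rw [interior_Icc] at hy
      rw [(hW1 y).deriv]
      refine mul_nonneg (h y) (Real.sin_nonneg_of_nonneg_of_le_pi ?_ ?_)
      · exact mul_nonneg hρ.le (by linarith [hy.1])
      · have : ρ * (y - a) ≤ ρ * (c - a) := mul_le_mul_of_nonneg_left (by linarith [hy.2]) hρ.le
        linarith
  have hmono2 : MonotoneOn (fun y => deriv g y * Real.sin (ρ * (c - y))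
      + ρ * g y * Real.cos (ρ * (c - y))) (Icc b c) := by
    apply monotoneOn_of_deriv_nonneg (convex_Icc b c)
    · exact fun y _ => (hW2 y).continuousAt.continuousWithinAt
    · exact fun y _ => (hW2 y).differentiableAt.differentiableWithinAt
    · intro y hy
      rw [interior_Icc] at hy
      rw [(hW2 y).deriv]
      refine mul_nonneg (h y) (Real.sin_nonneg_of_nonneg_of_le_pi ?_ ?_)
      · exact mul_nonneg hρ.le (by linarith [hy.2])
      · have : ρ * (c - y) ≤ ρ * (c - a) := mul_le_mul_of_nonneg_left (by linarith [hy.1]) hρ.le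
        linarith
  have h1 := hmono1 (left_mem_Icc.2 hab.le) (right_mem_Icc.2 hab.le) hab.le
  have h2 := hmono2 (left_mem_Icc.2 hbc.le) (right_mem_Icc.2 hbc.le) hbc.le
  simp only [sub_self, mul_zero, Real.sin_zero, Real.cos_zero, mul_one, zero_sub, zero_add] at h1 h2
  have hsn1 : 0 ≤ Real.sin (ρ * (c - b)) := by
    refine Real.sin_nonneg_of_nonneg_of_le_pi (mul_nonneg hρ.le (by linarith)) ?_
    have : ρ * (c - b) ≤ ρ * (c - a) := mul_le_mul_of_nonneg_left (by linarith) hρ.le
    linarith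
  have hsn2 : 0 ≤ Real.sin (ρ * (b - a)) := by
    refine Real.sin_nonneg_of_nonneg_of_le_pi (mul_nonneg hρ.le (by linarith)) ?_
    have : ρ * (b - a) ≤ ρ * (c - a) := mul_le_mul_of_nonneg_left (by linarith) hρ.le
    linarith
  have hadd : Real.sin (ρ * (c - a)) = Real.sin (ρ * (c - b)) * Real.cos (ρ * (b - a))
      + Real.cos (ρ * (c - b)) * Real.sin (ρ * (b - a)) := by
    rw [← Real.sin_add]
    congr 1
    ring
  have k1 := mul_le_mul_of_nonneg_left h1 hsn1
  have k2 := mul_le_mul_of_nonneg_left h2 hsn2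
  have key : ρ * (g b * Real.sin (ρ * (c - a)))
      ≤ ρ * (g a * Real.sin (ρ * (c - b)) + g c * Real.sin (ρ * (b - a))) := by
    rw [hadd]
    nlinarith [k1, k2]
  exact le_of_mul_le_mul_left key hρ

end M_T5A
end Pool.Agent.Helper758.LS
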