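import Mathlib
import Pool.Agent.Helper758.LSDefs
import Pool.Agent.Helper758.LSDefs2
import Pool.Agent.Helper758.FrDefs
import Pool.Agent.Helper758.LS_FIN
import Pool.Agent.Helper758.LS_MOL
import Pool.Agent.Helper758.LS_T2T3
import Pool.Agent.Helper758.LS_T5A
import Pool.Agent.Helper758.LS_W5a

namespace Pool.Agent.Helper758.LS
open MeasureTheory Filter Topology Set Complex
open M_FIN (all_stationary)
open M_MOL (moll_contDiff)
open M_T2T3 (limset_cls path_compact)
open M_T5A (pathOK_of_entire trigConvex_of_smooth)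
open M_W5a (cont_rep)
namespace M_T5B











/-! auxiliary facts on the exponential map -/

theorem aux_measurableSet_strip :
    MeasurableSet {ζ : ℂ | -Real.pi < ζ.im ∧ ζ.im ≤ Real.pi} :=
  (measurableSet_lt measurable_const Complex.measurable_im).inter
    (measurableSet_le Complex.measurable_im measurable_const)

theorem aux_injOn_strip : InjOn cexp {ζ : ℂ | -Real.pi < ζ.im ∧ ζ.im ≤ Real.pi} := by
  intro x hx y hy hxy
  exact Complex.exp_inj_of_neg_pi_lt_of_le_pi hx.1 hx.2 hy.1 hy.2 hxy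

theorem aux_image_strip : cexp '' {ζ : ℂ | -Real.pi < ζ.im ∧ ζ.im ≤ Real.pi} = {0}ᶜ := by
  ext z
  constructor
  · rintro ⟨ζ, -, rfl⟩
    exact Complex.exp_ne_zero ζ
  · intro hz
    refine ⟨Complex.log z, ⟨?_, ?_⟩, Complex.exp_log hz⟩
    · exact Complex.neg_pi_lt_log_im z
    · exact Complex.log_im_le_pi z

theorem aux_det_smul (c : ℂ) : |(c • (1 : ℂ →L[ℝ] ℂ)).det| = ‖c‖ ^ 2 := by
  have h : (c • (1 : ℂ →L[ℝ] ℂ)).det = Complex.normSq c := by
    rw [← Algebra.norm_complex_apply, Algebra.norm_apply]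
    rfl
  rw [h, abs_of_nonneg (Complex.normSq_nonneg c), Complex.normSq_eq_norm_sq]

theorem aux_det_exp (ζ : ℂ) : |(cexp ζ • (1 : ℂ →L[ℝ] ℂ)).det| = Real.exp (2 * ζ.re) := by
  rw [aux_det_smul, Complex.norm_exp, ← Real.exp_nat_mul]
  norm_num

theorem aux_hasFDeriv_exp (s : Set ℂ) (ζ : ℂ) :
    HasFDerivWithinAt cexp (cexp ζ • (1 : ℂ →L[ℝ] ℂ)) s ζ :=
  (Complex.hasDerivAt_exp ζ).complexToReal_fderiv.hasFDerivWithinAt

theorem aux_cov (w : ℂ → ℝ) (ψ : ℂ → ℝ) :
    ∫ z, w z * ψ z = ∫ ζ in {ζ : ℂ | -Real.pi < ζ.im ∧ ζ.im ≤ Real.pi},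
      w (cexp ζ) * ψ (cexp ζ) * Real.exp (2 * ζ.re) := by
  have h1 := integral_image_eq_integral_abs_det_fderiv_smul volume aux_measurableSet_strip
    (fun x _ => aux_hasFDeriv_exp _ x) aux_injOn_strip (fun z => w z * ψ z)
  rw [aux_image_strip] at h1
  have h2 : ∫ z, w z * ψ z = ∫ z in ({0}ᶜ : Set ℂ), w z * ψ z := by
    rw [← setIntegral_univ]
    apply setIntegral_congr_set
    symm
    rw [ae_eq_univ]
    simp
  rw [h2, h1]
  apply integral_congr_ae
  filter_upwards with ζ
  rw [aux_det_exp, smul_eq_mul]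
  ring

/-- TARGET 1: change of variables `z = e^ζ` in the strip `-π < im ζ ≤ π` for a test function vanishing near 0 -/
theorem polar_cov (w : ℂ → ℝ) (ψ : ℂ → ℝ) (hψ : Continuous ψ) (hψs : HasCompactSupport ψ)
    (h0 : ∃ r > 0, ∀ z, ‖z‖ ≤ r → ψ z = 0) (hw : LocallyIntegrable w volume) :
    ∫ z, w z * ψ z = ∫ ζ in {ζ : ℂ | -Real.pi < ζ.im ∧ ζ.im ≤ Real.pi},
      w (cexp ζ) * ψ (cexp ζ) * Real.exp (2 * ζ.re) :=
  aux_cov w ψ

/-- preimages of null sets under the exponential are null in the strip -/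
theorem aux_null_strip (A : Set ℂ) (hA : volume A = 0) :
    volume (cexp ⁻¹' A ∩ {ζ : ℂ | -Real.pi < ζ.im ∧ ζ.im ≤ Real.pi}) = 0 := by
  set B := toMeasurable volume A with hB
  have hBm : MeasurableSet B := measurableSet_toMeasurable _ _
  have hB0 : volume B = 0 := by rw [hB, measure_toMeasurable]; exact hA
  have hAB : A ⊆ B := subset_toMeasurable _ _
  set S := cexp ⁻¹' B ∩ {ζ : ℂ | -Real.pi < ζ.im ∧ ζ.im ≤ Real.pi} with hS
  have hSm : MeasurableSet S :=
    (Complex.continuous_exp.measurable hBm).inter aux_measurableSet_strip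
  have h1 := lintegral_abs_det_fderiv_eq_addHaar_image volume hSm
    (fun x _ => aux_hasFDeriv_exp _ x) (aux_injOn_strip.mono inter_subset_right)
  have h2 : volume (cexp '' S) = 0 := by
    apply measure_mono_null _ hB0
    rintro _ ⟨ζ, hζ, rfl⟩
    exact hζ.1
  rw [h2] at h1
  have h3 : volume S = 0 := by
    rw [lintegral_eq_zero_iff] at h1
    · rw [Filter.EventuallyEq, ae_restrict_iff' hSm] at h1
      rw [← compl_compl S]
      change ∀ᵐ x, x ∈ Sᶜ
      filter_upwards [h1] with x hx hxS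
      have h4 := hx hxS
      simp only [aux_det_exp, Pi.zero_apply, ENNReal.ofReal_eq_zero] at h4
      exact absurd (Real.exp_pos (2 * x.re)) (not_lt.2 h4)
    · simp only [aux_det_exp]
      fun_prop
  exact measure_mono_null (inter_subset_inter_left _ (preimage_mono hAB)) h3

theorem aux_qmp_exp {p : ℂ → Prop} (hp : ∀ᵐ z : ℂ, p z) : ∀ᵐ ζ : ℂ, p (cexp ζ) := by
  set A : Set ℂ := {z | ¬ p z} with hA
  have hA0 : volume A = 0 := hp
  set S := cexp ⁻¹' A ∩ {ζ : ℂ | -Real.pi < ζ.im ∧ ζ.im ≤ Real.pi} with hS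
  have hS0 : volume S = 0 := aux_null_strip A hA0
  have h1 : cexp ⁻¹' A ⊆ ⋃ n : ℤ, (fun z : ℂ => z + ((-n : ℤ) : ℂ) * (2 * Real.pi * I)) ⁻¹' S := by
    intro ζ hζ
    rw [mem_iUnion]
    set n : ℤ := toIocDiv Real.two_pi_pos (-Real.pi) ζ.im with hn
    refine ⟨n, ?_⟩
    rw [mem_preimage]
    have e1 : ζ + ((-n : ℤ) : ℂ) * (2 * Real.pi * I) = Complex.log (cexp ζ) := by
      rw [Complex.log_exp_eq_sub_toIocDiv]
      push_cast
      ring
    refine ⟨?_, ?_, ?_⟩
    · rw [e1, mem_preimage, Complex.exp_log (Complex.exp_ne_zero ζ)]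
      exact hζ
    · rw [e1]
      exact Complex.neg_pi_lt_log_im _
    · rw [e1]
      exact Complex.log_im_le_pi _
  have h2 : volume (cexp ⁻¹' A) = 0 := by
    apply measure_mono_null h1
    rw [measure_iUnion_null_iff]
    intro n
    rw [measure_preimage_add_right]
    exact hS0
  exact h2

theorem aux_push_exp {p : ℂ → Prop} (hp : ∀ᵐ ζ : ℂ, p (cexp ζ)) : ∀ᵐ z : ℂ, p z := by
  set N : Set ℂ := {ζ | ¬ p (cexp ζ)} with hN
  have hN0 : volume N = 0 := hp
  have h1 : volume (cexp '' N) = 0 :=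
    addHaar_image_eq_zero_of_differentiableOn_of_addHaar_eq_zero volume
      (fun x _ => (aux_hasFDeriv_exp N x).differentiableWithinAt) hN0
  have h2 : volume ({0} ∪ cexp '' N : Set ℂ) = 0 := by
    rw [measure_union_null_iff]
    exact ⟨by simp, h1⟩
  apply measure_mono_null _ h2
  intro z hz
  by_cases h0 : z = 0
  · left; exact h0
  · right
    refine ⟨Complex.log z, ?_, Complex.exp_log h0⟩
    change ¬ p (cexp (Complex.log z))
    rw [Complex.exp_log h0]
    exact hz

/-! auxiliary facts for TARGET 2 -/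

theorem aux_moll_add {U : ℂ → ℝ} {s : ℝ} (hs : ∀ᵐ z : ℂ, U (z + s) = U z) (δ : ℝ) (z : ℂ) :
    moll δ U (z + s) = moll δ U z := by
  unfold moll
  rw [← integral_add_right_eq_self _ (s : ℂ)]
  apply integral_congr_ae
  filter_upwards [hs] with w hw
  rw [hw]
  congr 2
  ring

theorem aux_dx_comp {g : ℝ → ℝ} (hg : Differentiable ℝ g) :
    dx (fun z : ℂ => g z.im) = fun _ => 0 := by
  funext z
  unfold dx
  have h1 : HasFDerivAt (fun z : ℂ => g z.im) ((deriv g z.im) • Complex.imCLM) z :=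
    (hg z.im).hasDerivAt.comp_hasFDerivAt z Complex.imCLM.hasFDerivAt
  rw [h1.fderiv]
  simp

theorem aux_dy_comp {g : ℝ → ℝ} (hg : Differentiable ℝ g) :
    dy (fun z : ℂ => g z.im) = fun z => deriv g z.im := by
  funext z
  unfold dy
  have h1 : HasFDerivAt (fun z : ℂ => g z.im) ((deriv g z.im) • Complex.imCLM) z :=
    (hg z.im).hasDerivAt.comp_hasFDerivAt z Complex.imCLM.hasFDerivAt
  rw [h1.fderiv]
  simp

theorem aux_Lop_comp {ρ : ℝ} {g : ℝ → ℝ} (hg : ContDiff ℝ 2 g) (z : ℂ) :
    Lop ρ (fun z : ℂ => g z.im) z = deriv (deriv g) z.im + ρ ^ 2 * g z.im := by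
  have hg1 : Differentiable ℝ g := hg.differentiable (by norm_num)
  have hg2 : Differentiable ℝ (deriv g) := by
    have : ContDiff ℝ 1 (deriv g) := by
      have h2 : ContDiff ℝ (1 + 1) g := by
        have : (1 + 1 : WithTop ℕ∞) = 2 := by norm_num
        rw [this]; exact hg
      exact (contDiff_succ_iff_deriv.1 h2).2.2
    exact this.differentiable (by norm_num)
  unfold Lop
  rw [aux_dx_comp hg1, aux_dy_comp hg1, aux_dy_comp hg2]
  have h3 : dx (fun _ : ℂ => (0 : ℝ)) z = 0 := by
    unfold dx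
    simp
  rw [h3]
  ring

theorem aux_trig_lim {ρ : ℝ} {g : ℝ → ℝ → ℝ} {g0 : ℝ → ℝ}
    (h : ∀ y, Tendsto (fun δ => g δ y) (𝓝[>] 0) (𝓝 (g0 y)))
    (hg : ∀ δ ∈ Ioc (0 : ℝ) 1, TrigConvex ρ (g δ)) : TrigConvex ρ g0 := by
  intro a b c hab hbc hca
  have h1 : Tendsto (fun δ => g δ b * Real.sin (ρ * (c - a))) (𝓝[>] 0)
      (𝓝 (g0 b * Real.sin (ρ * (c - a)))) := (h b).mul_const _
  have h2 : Tendsto (fun δ => g δ a * Real.sin (ρ * (c - b)) + g δ c * Real.sin (ρ * (b - a)))
      (𝓝[>] 0) (𝓝 (g0 a * Real.sin (ρ * (c - b)) + g0 c * Real.sin (ρ * (b - a)))) :=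
    ((h a).mul_const _).add ((h c).mul_const _)
  refine le_of_tendsto_of_tendsto h1 h2 ?_
  have h3 : Ioc (0 : ℝ) 1 ∈ 𝓝[>] (0 : ℝ) := Ioc_mem_nhdsGT one_pos
  filter_upwards [h3] with δ hδ
  exact hg δ hδ a b c hab hbc hca

/-- the homogeneous function `|z|^ρ q(arg z)` -/
noncomputable def aux_w (ρ : ℝ) (q : ℝ → ℝ) (z : ℂ) : ℝ := ‖z‖ ^ ρ * q (arg z)

theorem aux_w_exp {ρ : ℝ} {q : ℝ → ℝ} (hq : ∀ y, q (y + 2 * Real.pi) = q y) (ζ : ℂ) :
    aux_w ρ q (cexp ζ) = Real.exp (ρ * ζ.re) * q ζ.im := by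
  unfold aux_w
  rw [Complex.norm_exp, ← Real.exp_mul, Complex.arg_exp, mul_comm ζ.re ρ]
  congr 1
  have hp : Function.Periodic q (2 * Real.pi) := hq
  rw [toIocMod]
  exact hp.sub_zsmul_eq _

theorem aux_q_arg_polar {q : ℝ → ℝ} (hq : ∀ y, q (y + 2 * Real.pi) = q y) (r : ℝ) (hr : 0 < r)
    (φ : ℝ) : q (arg (r * cexp (φ * I))) = q φ := by
  have hp : Function.Periodic q (2 * Real.pi) := hq
  rw [Complex.arg_real_mul _ hr, Complex.arg_exp]
  simp only [Complex.mul_im, Complex.ofReal_re, Complex.I_im, mul_one, Complex.ofReal_im,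
    Complex.I_re, mul_zero, add_zero]
  rw [toIocMod]
  exact hp.sub_zsmul_eq _

theorem aux_w_cont {ρ : ℝ} (hρ : 0 < ρ) {q : ℝ → ℝ} (hqc : Continuous q)
    (hq : ∀ y, q (y + 2 * Real.pi) = q y) : Continuous (aux_w ρ q) := by
  rw [continuous_iff_continuousAt]
  intro z
  by_cases hz : z = 0
  · subst hz
    obtain ⟨M, hM⟩ := (isCompact_Icc (a := -Real.pi) (b := Real.pi)).exists_bound_of_continuousOn
      hqc.continuousOn
    have h0 : aux_w ρ q 0 = 0 := by
      unfold aux_w
      rw [norm_zero, Real.zero_rpow hρ.ne', zero_mul]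
    rw [ContinuousAt, h0]
    have h1 : Tendsto (fun z : ℂ => ‖z‖ ^ ρ * M) (𝓝 0) (𝓝 0) := by
      have h2 : ContinuousAt (fun z : ℂ => ‖z‖ ^ ρ * M) 0 := by
        apply ContinuousAt.mul _ continuousAt_const
        apply ContinuousAt.rpow_const continuous_norm.continuousAt
        right; exact hρ.le
      have h3 := h2.tendsto
      rw [norm_zero, Real.zero_rpow hρ.ne', zero_mul] at h3
      exact h3
    apply squeeze_zero_norm _ h1
    intro w
    unfold aux_w
    rw [norm_mul, Real.norm_eq_abs, abs_of_nonneg (Real.rpow_nonneg (norm_nonneg w) ρ)]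
    gcongr
    exact hM _ ⟨(Complex.neg_pi_lt_arg w).le, Complex.arg_le_pi w⟩
  · unfold aux_w
    apply ContinuousAt.mul
    · apply ContinuousAt.rpow_const continuous_norm.continuousAt
      left; exact (norm_pos_iff.2 hz).ne'
    · have hp : Function.Periodic q (2 * Real.pi) := hq
      by_cases hs : z ∈ Complex.slitPlane
      · exact hqc.continuousAt.comp (Complex.continuousAt_arg hs)
      · have hs2 : -z ∈ Complex.slitPlane := by
          rw [Complex.mem_slitPlane_iff] at hs ⊢
          push Not at hs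
          left
          rw [Complex.neg_re, Left.neg_pos_iff]
          rcases lt_or_eq_of_le hs.1 with h | h
          · exact h
          · exfalso
            apply hz
            exact Complex.ext h hs.2
        have h1 : (fun w : ℂ => q (arg w)) =ᶠ[𝓝 z] fun w : ℂ => q (arg (-w) + Real.pi) := by
          have hne : ∀ᶠ w in 𝓝 z, w ≠ 0 := isOpen_ne.mem_nhds hz
          filter_upwards [hne] with w hw
          have h2 : ((arg w : ℝ) : Real.Angle) = ((arg (-w) + Real.pi : ℝ) : Real.Angle) := by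
            have h3 := Complex.arg_neg_coe_angle (neg_ne_zero.2 hw)
            rw [neg_neg] at h3
            rw [h3, Real.Angle.coe_add]
          rw [Real.Angle.angle_eq_iff_two_pi_dvd_sub] at h2
          obtain ⟨k, hk⟩ := h2
          have h4 : arg w = (arg (-w) + Real.pi) + k • (2 * Real.pi) := by
            rw [zsmul_eq_mul]
            linarith
          rw [h4]
          exact (hp.zsmul k) _
        have h5 : ContinuousAt (fun w : ℂ => q (arg (-w) + Real.pi)) z := by
          apply hqc.continuousAt.comp (f := fun w : ℂ => arg (-w) + Real.pi)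
          apply ContinuousAt.add _ continuousAt_const
          exact (Complex.continuousAt_arg hs2).comp (f := fun w : ℂ => -w) continuous_neg.continuousAt
        exact h5.congr h1.symm

theorem aux_locInt_translate {P : ℂ → ℝ} (hP : LocallyIntegrable P volume) (s : ℝ) (K : Set ℂ)
    (hK : IsCompact K) : IntegrableOn (fun z => P (z + s)) K volume := by
  have h1 : IntegrableOn P ((fun z : ℂ => z + s) '' K) volume :=
    hP.integrableOn_isCompact (hK.image (by fun_prop))
  have h2 := (MeasurePreserving.integrableOn_comp_preimage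
    (measurePreserving_add_right (volume : Measure ℂ) (s : ℂ))
    (measurableEmbedding_addRight (s : ℂ))).2 h1
  have h3 : (fun z : ℂ => z + s) ⁻¹' ((fun z : ℂ => z + s) '' K) = K :=
    preimage_image_eq K (add_left_injective (s : ℂ))
  rw [h3] at h2
  exact h2

theorem aux_bQ_compact (K : ℝ) : IsCompact (bQ K) := by
  apply Metric.isCompact_of_isClosed_isBounded
  · unfold bQ
    exact IsClosed.inter
      (isClosed_le (continuous_abs.comp Complex.continuous_re) continuous_const)
      (isClosed_le (continuous_abs.comp Complex.continuous_im) continuous_const)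
  · rw [Metric.isBounded_iff_subset_closedBall 0]
    refine ⟨K + K, ?_⟩
    rintro z ⟨h1, h2⟩
    rw [mem_closedBall_zero_iff]
    exact (Complex.norm_le_abs_re_add_abs_im z).trans (add_le_add h1 h2)

theorem aux_conv {P U : ℂ → ℝ} {τ : ℕ → ℝ} (hP : LocallyIntegrable P volume)
    (hU : LocallyIntegrable U volume) (hc : ConvTo P τ U) (k : ℂ → ℝ) (hk : Measurable k)
    (M : ℝ) (hM : ∀ z, |k z| ≤ M) (K : ℝ) (hK : ∀ z, z ∉ bQ K → k z = 0) :
    Tendsto (fun n => ∫ z, k z * P (z + τ n)) atTop (𝓝 (∫ z, k z * U z)) := by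
  have e1 : ∀ F : ℂ → ℝ, ∫ z, k z * F z = ∫ z in bQ K, k z * F z := by
    intro F
    symm
    apply setIntegral_eq_integral_of_forall_compl_eq_zero
    intro z hz
    rw [hK z hz, zero_mul]
  have hM0 : 0 ≤ M := (abs_nonneg _).trans (hM 0)
  have hcomp := aux_bQ_compact K
  have hUi : IntegrableOn U (bQ K) volume := hU.integrableOn_isCompact hcomp
  have hPi : ∀ n, IntegrableOn (fun z => P (z + τ n)) (bQ K) volume := fun n =>
    aux_locInt_translate hP (τ n) (bQ K) hcomp
  have hb : ∀ F : ℂ → ℝ, IntegrableOn F (bQ K) volume →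
      IntegrableOn (fun z => k z * F z) (bQ K) volume := by
    intro F hF
    exact Integrable.bdd_mul (c := M) hF hk.aestronglyMeasurable
      (Eventually.of_forall fun z => by rw [Real.norm_eq_abs]; exact hM z)
  rw [tendsto_iff_norm_sub_tendsto_zero]
  have h1 : Tendsto (fun n => M * ∫ z in bQ K, |P (z + τ n) - U z|) atTop (𝓝 0) := by
    have := (hc K).const_mul M
    rwa [mul_zero] at this
  apply squeeze_zero (fun n => norm_nonneg _) _ h1
  intro n
  rw [e1 (fun z => P (z + τ n)), e1 U, ← integral_sub (hb _ (hPi n)) (hb _ hUi)]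
  calc ‖∫ z in bQ K, (k z * P (z + τ n) - k z * U z)‖
      ≤ ∫ z in bQ K, ‖k z * P (z + τ n) - k z * U z‖ := norm_integral_le_integral_norm _
    _ ≤ ∫ z in bQ K, M * |P (z + τ n) - U z| := by
        apply integral_mono_of_nonneg
        · exact Eventually.of_forall fun z => norm_nonneg _
        · exact ((hPi n).sub hUi).abs.const_mul M
        · refine Eventually.of_forall fun z => ?_
          change ‖k z * P (z + τ n) - k z * U z‖ ≤ M * |P (z + τ n) - U z|
          rw [← mul_sub, norm_mul, Real.norm_eq_abs, Real.norm_eq_abs]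
          exact mul_le_mul_of_nonneg_right (hM z) (abs_nonneg _)
    _ = M * ∫ z in bQ K, |P (z + τ n) - U z| := by rw [integral_const_mul]

theorem aux_key {ρ : ℝ} (hρ : 0 < ρ) {f : ℂ → ℂ} {P : ℂ → ℝ}
    (hPae : ∀ᵐ z : ℂ, P z = cU ρ f z)
    {U : ℂ → ℝ} (hPl : LocallyIntegrable P volume) (hUl : LocallyIntegrable U volume)
    {t : ℕ → ℝ} (ht : ∀ᶠ n in atTop, 0 < t n)
    (hc : ConvTo P (fun n => Real.log (t n)) U)
    (ψ : ℂ → ℝ) (hψ : Continuous ψ) (hψs : HasCompactSupport ψ)
    (h0 : ∃ r > 0, ∀ z, ‖z‖ ≤ r → ψ z = 0) :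
    Tendsto (fun j => ∫ z, (t j) ^ (-ρ) * Real.log ‖f (t j * z)‖ * ψ z) atTop
      (𝓝 (∫ ζ in {ζ : ℂ | -Real.pi < ζ.im ∧ ζ.im ≤ Real.pi},
          Real.exp (ρ * ζ.re) * U ζ * ψ (cexp ζ) * Real.exp (2 * ζ.re))) := by
  obtain ⟨r, hr, hr0⟩ := h0
  obtain ⟨M0, hM0⟩ := hψ.bounded_above_of_compact_support hψs
  have hM00 : 0 ≤ M0 := (norm_nonneg _).trans (hM0 0)
  obtain ⟨R, hR⟩ := hψs.isCompact.isBounded.subset_closedBall 0
  set R' : ℝ := max R 1 with hR'
  have hR'0 : 0 < R' := lt_of_lt_of_le one_pos (le_max_right _ _)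
  have hRz : ∀ z, R' < ‖z‖ → ψ z = 0 := by
    intro z hz
    by_contra hne
    have h1 : z ∈ tsupport ψ := subset_tsupport ψ hne
    have h2 := hR h1
    rw [mem_closedBall_zero_iff] at h2
    exact absurd (lt_of_lt_of_le hz (h2.trans (le_max_left _ _))) (lt_irrefl _)
  set K : ℝ := max (max |Real.log r| |Real.log R'|) Real.pi with hK
  have hK1 : |Real.log r| ≤ K := (le_max_left _ _).trans (le_max_left _ _)
  have hK2 : |Real.log R'| ≤ K := (le_max_right _ _).trans (le_max_left _ _)
  have hK3 : Real.pi ≤ K := le_max_right _ _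
  have hK0 : 0 ≤ K := Real.pi_pos.le.trans hK3
  set S : Set ℂ := {ζ : ℂ | -Real.pi < ζ.im ∧ ζ.im ≤ Real.pi} with hS
  have hSm : MeasurableSet S := aux_measurableSet_strip
  set k : ℂ → ℝ := S.indicator
    (fun ζ => Real.exp (ρ * ζ.re) * ψ (cexp ζ) * Real.exp (2 * ζ.re)) with hk
  have hkm : Measurable k := by
    apply Measurable.indicator _ hSm
    apply Continuous.measurable
    fun_prop
  have hkK : ∀ ζ, ζ ∉ bQ K → k ζ = 0 := by
    intro ζ hζ
    by_cases hζS : ζ ∈ S
    · rw [hk, indicator_of_mem hζS]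
      have him : |ζ.im| ≤ K := by
        rw [abs_le]
        exact ⟨by linarith [hζS.1], by linarith [hζS.2]⟩
      have hre : K < |ζ.re| := by
        by_contra hcon
        exact hζ ⟨not_lt.1 hcon, him⟩
      have hz0 : ψ (cexp ζ) = 0 := by
        rcases lt_abs.1 hre with h | h
        · apply hRz
          rw [Complex.norm_exp, ← Real.log_lt_iff_lt_exp hR'0]
          exact lt_of_le_of_lt ((le_abs_self _).trans hK2) h
        · apply hr0
          rw [Complex.norm_exp, ← Real.le_log_iff_exp_le hr]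
          have := neg_abs_le (Real.log r)
          linarith
      rw [hz0, mul_zero, zero_mul]
    · rw [hk, indicator_of_notMem hζS]
  set M : ℝ := Real.exp (ρ * K) * M0 * Real.exp (2 * K) with hM
  have hMpos : 0 ≤ M := by positivity
  have hkM : ∀ ζ, |k ζ| ≤ M := by
    intro ζ
    by_cases hζ : ζ ∈ bQ K
    · by_cases hζS : ζ ∈ S
      · rw [hk, indicator_of_mem hζS, abs_mul, abs_mul, Real.abs_exp, Real.abs_exp]
        have hre : ζ.re ≤ K := (le_abs_self _).trans hζ.1
        have h3 : |ψ (cexp ζ)| ≤ M0 := hM0 _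
        rw [hM]
        gcongr
      · rw [hk, indicator_of_notMem hζS, abs_zero]
        exact hMpos
    · rw [hkK ζ hζ, abs_zero]
      exact hMpos
  have hmain := aux_conv hPl hUl hc k hkm M hkM K hkK
  have e2 : ∫ ζ in S, Real.exp (ρ * ζ.re) * U ζ * ψ (cexp ζ) * Real.exp (2 * ζ.re)
      = ∫ z, k z * U z := by
    rw [← integral_indicator hSm]
    congr 1
    funext ζ
    by_cases hζS : ζ ∈ S
    · rw [hk, indicator_of_mem hζS, indicator_of_mem hζS]
      ring
    · rw [hk, indicator_of_notMem hζS, indicator_of_notMem hζS, zero_mul]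
  rw [e2]
  refine hmain.congr' ?_
  filter_upwards [ht] with n hn
  symm
  rw [aux_cov (fun z => (t n) ^ (-ρ) * Real.log ‖f (t n * z)‖) ψ, ← integral_indicator hSm]
  apply integral_congr_ae
  have hPt : ∀ᵐ z : ℂ, P (z + (Real.log (t n) : ℝ)) = cU ρ f (z + (Real.log (t n) : ℝ)) :=
    (measurePreserving_add_right (volume : Measure ℂ)
      ((Real.log (t n) : ℝ) : ℂ)).quasiMeasurePreserving.ae hPae
  filter_upwards [hPt] with ζ hζ
  by_cases hζS : ζ ∈ S
  · rw [hk, indicator_of_mem hζS, indicator_of_mem hζS, hζ]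
    unfold cU
    have h1 : cexp (ζ + ((Real.log (t n) : ℝ) : ℂ)) = (t n : ℂ) * cexp ζ := by
      rw [Complex.exp_add, ← Complex.ofReal_exp, Real.exp_log hn, mul_comm]
    have h2 : Real.exp (-(ρ * (ζ + ((Real.log (t n) : ℝ) : ℂ)).re))
        = Real.exp (-(ρ * ζ.re)) * (t n) ^ (-ρ) := by
      rw [Real.rpow_def_of_pos hn, ← Real.exp_add, Complex.add_re, Complex.ofReal_re]
      congr 1
      ring
    rw [h1, h2]
    have h3 : Real.exp (ρ * ζ.re) * Real.exp (-(ρ * ζ.re)) = 1 := by
      rw [← Real.exp_add, add_neg_cancel, Real.exp_zero]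
    calc (t n) ^ (-ρ) * Real.log ‖f ((t n : ℂ) * cexp ζ)‖ * ψ (cexp ζ) * Real.exp (2 * ζ.re)
        = (Real.exp (ρ * ζ.re) * Real.exp (-(ρ * ζ.re))) *
          ((t n) ^ (-ρ) * Real.log ‖f ((t n : ℂ) * cexp ζ)‖ * ψ (cexp ζ) * Real.exp (2 * ζ.re)) := by
          rw [h3, one_mul]
      _ = _ := by ring
  · rw [hk, indicator_of_notMem hζS, indicator_of_notMem hζS, zero_mul]

/-- TARGET 2: the limit function in logarithmic coordinates -/
theorem fr_log (ρ : ℝ) (hρ : 0 < ρ) (f : ℂ → ℂ) (hf : ClassA f ρ) (h2 : Cond2 f ρ) (v : ℂ → EReal)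
    (hv : v ∈ FrSet f ρ) :
    ∃ Uc : ℂ → ℝ, Continuous Uc ∧ (∀ z : ℂ, Uc (z + 2 * Real.pi * I) = Uc z) ∧
      (∀ s : ℝ, ∀ z : ℂ, Uc (z + s) = Uc z) ∧ TrigConvex ρ (fun y : ℝ => Uc (y * I)) ∧
      (∀ᵐ z : ℂ, (v (cexp z)).toReal = Real.exp (ρ * z.re) * Uc z) := by
  obtain ⟨hsubh, t, ht, hconv⟩ := hv
  obtain ⟨h, ω, C, P, hd, htc, hP, hPae⟩ := pathOK_of_entire ρ hρ f hf h2
  have ht0 : ∀ᶠ n in atTop, 0 < t n := ht.eventually_gt_atTop 0
  have hτ : Tendsto (fun n => Real.log (t n)) atTop atTop := Real.tendsto_log_atTop.comp ht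
  obtain ⟨s, U, hs, hUl, hUc⟩ := path_compact hd hP (fun n => Real.log (t n)) hτ
  have hUL : U ∈ LimSet P :=
    ⟨hUl, (fun n => Real.log (t n)) ∘ s, hτ.comp hs.tendsto_atTop, hUc⟩
  have hcls := limset_cls hd hP U hUL
  obtain ⟨Uc, hUcc, hUae, -, hper, hmoll, -⟩ := cont_rep hd C U hcls
  have hstat := all_stationary hd htc hP U hUL
  have hUstat : ∀ s : ℝ, ∀ z : ℂ, Uc (z + s) = Uc z := by
    intro s
    have h1 : ∀ᵐ z : ℂ, U (z + s) = Uc (z + s) :=
      (measurePreserving_add_right (volume : Measure ℂ) (s : ℂ)).quasiMeasurePreserving.ae hUae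
    have h3 : (fun z : ℂ => Uc (z + s)) =ᵐ[volume] Uc := by
      filter_upwards [hUae, h1, hstat s] with z e1 e2 e3
      rw [← e2, e3, e1]
    have h4 := (Continuous.ae_eq_iff_eq volume
      (hUcc.comp (continuous_id.add continuous_const)) hUcc).1 h3
    exact fun z => congrFun h4 z
  have hUq : ∀ z : ℂ, Uc z = Uc (z.im * I) := by
    intro z
    have h1 := hUstat z.re (z.im * I)
    rw [← h1]
    congr 1
    rw [add_comm]
    exact (Complex.re_add_im z).symm
  refine ⟨Uc, hUcc, hper, hUstat, ?_, ?_⟩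
  · -- trigonometric convexity
    apply aux_trig_lim (g := fun δ y => moll δ U (y * I)) (fun y => hmoll (y * I))
    intro δ hδ
    have hsm : ContDiff ℝ 2 (moll δ U) := by
      have := moll_contDiff δ hδ.1 U hUl 2
      exact_mod_cast this
    have hgs : ContDiff ℝ 2 (fun y : ℝ => moll δ U (y * I)) := by
      apply hsm.comp
      apply ContDiff.mul _ contDiff_const
      exact Complex.ofRealCLM.contDiff
    apply trigConvex_of_smooth ρ hρ _ hgs
    intro y
    have h1 : moll δ U = fun z : ℂ => (fun y : ℝ => moll δ U (y * I)) z.im := by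
      funext z
      have h3 := aux_moll_add (hstat z.re) δ (z.im * I)
      change moll δ U z = moll δ U (z.im * I)
      rw [← h3]
      congr 1
      rw [add_comm]
      exact (Complex.re_add_im z).symm
    have h3 := hcls.sub δ hδ (y * I)
    rw [h1, aux_Lop_comp hgs] at h3
    have h4 : ((y : ℂ) * I).im = y := by simp
    rw [h4] at h3
    exact h3
  · -- almost everywhere equality
    set q : ℝ → ℝ := fun y => Uc (y * I) with hq
    have hqc : Continuous q := by
      apply hUcc.comp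
      exact Complex.continuous_ofReal.mul continuous_const
    have hqp : ∀ y, q (y + 2 * Real.pi) = q y := by
      intro y
      have h1 := hper (y * I)
      rw [hq]
      change Uc (((y + 2 * Real.pi : ℝ) : ℂ) * I) = Uc (y * I)
      rw [← h1]
      congr 1
      push_cast
      ring
    have hwc : Continuous (aux_w ρ q) := aux_w_cont hρ hqc hqp
    have hwe : ∀ ζ : ℂ, aux_w ρ q (cexp ζ) = Real.exp (ρ * ζ.re) * Uc ζ := by
      intro ζ
      rw [aux_w_exp hqp, hUq ζ]
    have hfund : ∀ᵐ z : ℂ, z ∈ ({0}ᶜ : Set ℂ) → (v z).toReal - aux_w ρ q z = 0 := by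
      apply isOpen_compl_singleton.ae_eq_zero_of_integral_contDiff_smul_eq_zero
      · exact (hsubh.loc.sub hwc.locallyIntegrable).locallyIntegrableOn _
      · intro g hg hgs hgt
        have hg0 : ∃ r > 0, ∀ z, ‖z‖ ≤ r → g z = 0 := by
          have h1 : (0 : ℂ) ∈ (tsupport g)ᶜ := fun h => hgt h rfl
          have h3 : (tsupport g)ᶜ ∈ 𝓝 (0 : ℂ) := (isClosed_tsupport g).isOpen_compl.mem_nhds h1
          obtain ⟨r, hr, hr2⟩ := Metric.nhds_basis_closedBall.mem_iff.1 h3
          refine ⟨r, hr, fun z hz => ?_⟩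
          have h4 := hr2 (mem_closedBall_zero_iff.2 hz)
          exact image_eq_zero_of_notMem_tsupport h4
        have hc1 := (hconv g hg hgs).comp hs.tendsto_atTop
        have hc2 := aux_key hρ hPae hP.loc hUl (t := t ∘ s) (hs.tendsto_atTop.eventually ht0)
          hUc g hg.continuous hgs hg0
        have hlim := tendsto_nhds_unique hc1 hc2
        have e3 : ∫ ζ in {ζ : ℂ | -Real.pi < ζ.im ∧ ζ.im ≤ Real.pi},
            Real.exp (ρ * ζ.re) * U ζ * g (cexp ζ) * Real.exp (2 * ζ.re)
            = ∫ z, aux_w ρ q z * g z := by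
          rw [aux_cov]
          apply integral_congr_ae
          apply ae_restrict_of_ae
          filter_upwards [hUae] with ζ hζ
          rw [hwe, hζ]
        rw [e3] at hlim
        have i1 : Integrable (fun z => g z * (v z).toReal) volume := by
          have := hsubh.loc.integrable_smul_left_of_hasCompactSupport hg.continuous hgs
          simpa [smul_eq_mul] using this
        have i2 : Integrable (fun z => g z * aux_w ρ q z) volume := by
          have := (hwc.locallyIntegrable (μ := volume)).integrable_smul_left_of_hasCompactSupport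
            hg.continuous hgs
          simpa [smul_eq_mul] using this
        calc ∫ z, g z • ((v z).toReal - aux_w ρ q z)
            = ∫ z, (g z * (v z).toReal - g z * aux_w ρ q z) := by
              congr 1
              funext z
              rw [smul_eq_mul, mul_sub]
          _ = (∫ z, g z * (v z).toReal) - ∫ z, g z * aux_w ρ q z := integral_sub i1 i2
          _ = 0 := by
              rw [sub_eq_zero]
              simp only [mul_comm (g _)]
              exact hlim
    filter_upwards [aux_qmp_exp hfund] with ζ hζ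
    have h1 := hζ (Complex.exp_ne_zero ζ)
    rw [hwe] at h1
    linarith

/-- TARGET 3: a subharmonic function a.e. equal to a continuous function on `ℂ \ {0}` is equal to it -/
theorem subh_eq (v : ℂ → EReal) (hv : IsSubh v) (w : ℂ → ℝ) (hw : Continuous w)
    (h : ∀ᵐ z : ℂ, (v z).toReal = w z) : ∀ z, v z = (w z : EReal) := by
  intro z
  apply le_antisymm
  · -- mean value
    have h1 : Tendsto (fun r : ℝ => ⨍ x in Metric.closedBall z r, (v x).toReal) (𝓝[>] 0)
        (𝓝 (w z)) := by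
      have h2 : ∀ r : ℝ, ⨍ x in Metric.closedBall z r, (v x).toReal
          = ⨍ x in Metric.closedBall z r, w x := by
        intro r
        apply MeasureTheory.average_congr
        exact ae_restrict_of_ae h
      simp only [h2]
      rw [Metric.tendsto_nhdsWithin_nhds]
      intro ε hε
      obtain ⟨δ, hδ, hδ2⟩ := Metric.continuous_iff.1 hw z (ε / 2) (half_pos hε)
      refine ⟨δ, hδ, ?_⟩
      intro r hr hrd
      have hr0 : 0 < r := hr
      rw [Real.dist_eq, sub_zero, abs_of_pos hr0] at hrd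
      have hfin : volume (Metric.closedBall z r) ≠ ⊤ := (isCompact_closedBall z r).measure_lt_top.ne
      have hpos : volume (Metric.closedBall z r) ≠ 0 :=
        (Metric.measure_closedBall_pos volume z hr0).ne'
      have hint : IntegrableOn w (Metric.closedBall z r) volume :=
        hw.continuousOn.integrableOn_compact (isCompact_closedBall z r)
      have h3 : (⨍ x in Metric.closedBall z r, w x) - w z
          = ⨍ x in Metric.closedBall z r, (w x - w z) := by
        rw [setAverage_eq, setAverage_eq, integral_sub hint (integrableOn_const hfin),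
          setIntegral_const, smul_sub, smul_smul, inv_mul_cancel₀, one_smul]
        rw [Measure.real, ENNReal.toReal_ne_zero]
        exact ⟨hpos, hfin⟩
      rw [Real.dist_eq, h3, setAverage_eq, smul_eq_mul, abs_mul, abs_of_nonneg (by positivity)]
      have h4 : |∫ x in Metric.closedBall z r, (w x - w z)|
          ≤ (ε / 2) * volume.real (Metric.closedBall z r) := by
        rw [← Real.norm_eq_abs]
        apply norm_setIntegral_le_of_norm_le_const hfin.lt_top
        intro x hx
        rw [Real.norm_eq_abs, ← Real.dist_eq]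
        exact (hδ2 x (lt_of_le_of_lt (Metric.mem_closedBall.1 hx) hrd)).le
      have hV : 0 < volume.real (Metric.closedBall z r) := by
        rw [Measure.real]
        exact ENNReal.toReal_pos hpos hfin
      calc (volume.real (Metric.closedBall z r))⁻¹ * |∫ x in Metric.closedBall z r, (w x - w z)|
          ≤ (volume.real (Metric.closedBall z r))⁻¹ * ((ε / 2) * volume.real (Metric.closedBall z r)) := by
            gcongr
        _ = ε / 2 := by field_simp
        _ < ε := half_lt_self hε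
    have h5 : Tendsto (fun r : ℝ => ((⨍ x in Metric.closedBall z r, (v x).toReal : ℝ) : EReal))
        (𝓝[>] 0) (𝓝 (w z : EReal)) :=
      (continuous_coe_real_ereal.tendsto (w z)).comp h1
    refine ge_of_tendsto h5 ?_
    filter_upwards [self_mem_nhdsWithin] with r hr
    exact hv.mean z r hr
  · by_contra hlt
    rw [not_le] at hlt
    obtain ⟨c, hc1, hc2⟩ := EReal.lt_iff_exists_real_btwn.1 hlt
    have hc2' : c < w z := by exact_mod_cast hc2
    have e1 : ∀ᶠ x in 𝓝 z, v x < (c : EReal) := hv.usc z c hc1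
    have e2 : ∀ᶠ x in 𝓝 z, c < w x := hw.continuousAt.eventually (lt_mem_nhds hc2')
    have e3 : ∃ᶠ x in 𝓝 z, ((v x).toReal = w x ∧ v x ≠ ⊥) := by
      have hd : Dense {x : ℂ | (v x).toReal = w x ∧ v x ≠ ⊥} := by
        have hd1 : ∀ᵐ x : ℂ, (v x).toReal = w x ∧ v x ≠ ⊥ := by
          filter_upwards [h, hv.ae_ne_bot] with x hx1 hx2
          exact ⟨hx1, hx2⟩
        exact MeasureTheory.Measure.dense_of_ae hd1
      exact mem_closure_iff_frequently.1 (hd z)
    obtain ⟨x, ⟨hx1, hx2⟩, hx3, hx4⟩ := (e3.and_eventually (e1.and e2)).exists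
    have h6 : v x = ((v x).toReal : EReal) := (EReal.coe_toReal (hv.ne_top x) hx2).symm
    rw [h6, hx1] at hx3
    have : w x < c := by exact_mod_cast hx3
    linarith

/-- FINAL TARGET -/
theorem fr_homogeneous (ρ : ℝ) (hρ : 0 < ρ) (f : ℂ → ℂ) (hf : ClassA f ρ) (h2 : Cond2 f ρ) (v : ℂ → EReal)
    (hv : v ∈ FrSet f ρ) :
    ∃ h : ℝ → ℝ, (∀ φ, h (φ + 2 * Real.pi) = h φ) ∧ TrigConvex ρ h ∧
      ∀ r : ℝ, 0 ≤ r → ∀ φ : ℝ, v (r * cexp (φ * I)) = ((h φ * r ^ ρ : ℝ) : EReal) := by
  obtain ⟨Uc, hUcc, hper, hUstat, htc, hae⟩ := fr_log ρ hρ f hf h2 v hv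
  set q : ℝ → ℝ := fun y => Uc (y * I) with hq
  have hqc : Continuous q := by
    apply hUcc.comp
    exact Complex.continuous_ofReal.mul continuous_const
  have hqp : ∀ y, q (y + 2 * Real.pi) = q y := by
    intro y
    have h1 := hper (y * I)
    rw [hq]
    change Uc (((y + 2 * Real.pi : ℝ) : ℂ) * I) = Uc (y * I)
    rw [← h1]
    congr 1
    push_cast
    ring
  have hUq : ∀ z : ℂ, Uc z = Uc (z.im * I) := by
    intro z
    have h1 := hUstat z.re (z.im * I)
    rw [← h1]
    congr 1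
    rw [add_comm]
    exact (Complex.re_add_im z).symm
  have hwc : Continuous (aux_w ρ q) := aux_w_cont hρ hqc hqp
  have hwe : ∀ ζ : ℂ, aux_w ρ q (cexp ζ) = Real.exp (ρ * ζ.re) * Uc ζ := by
    intro ζ
    rw [aux_w_exp hqp, hUq ζ]
  have hvw : ∀ᵐ z : ℂ, (v z).toReal = aux_w ρ q z := by
    apply aux_push_exp
    filter_upwards [hae] with ζ hζ
    rw [hζ, hwe]
  have hall := subh_eq v hv.1 (aux_w ρ q) hwc hvw
  refine ⟨q, hqp, htc, ?_⟩
  intro r hr φ
  rw [hall]
  congr 1
  unfold aux_w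
  have hn : ‖(r : ℂ) * cexp (φ * I)‖ = r := by
    rw [norm_mul, Complex.norm_exp_ofReal_mul_I, mul_one, Complex.norm_real, Real.norm_eq_abs,
      abs_of_nonneg hr]
  rw [hn]
  rcases hr.eq_or_lt with h | h
  · rw [← h, Real.zero_rpow hρ.ne', zero_mul, mul_zero]
  · rw [aux_q_arg_polar hqp r h, mul_comm]

end M_T5B
end Pool.Agent.Helper758.LS
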